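import Pool.Statements.S09833

set_option autoImplicit false
open Set Cardinal MeasureTheory Pointwise
open Pool Pool.MP_f0be4b_lc

namespace Pool.Agent.S09833


/-- Rational affine images of `x` with slope larger than one. -/
def orb (x : ℝ) : Set ℝ := {y | ∃ p q : ℚ, 1 < p ∧ y = p * x + q}

/-- Rational affine images of `x` with positive slope. -/
def cls (x : ℝ) : Set ℝ := {y | ∃ p q : ℚ, 0 < p ∧ y = p * x + q}

theorem cls_countable (x : ℝ) : (cls x).Countable := by
  have h : cls x ⊆ Set.range (fun pq : ℚ × ℚ => (pq.1 : ℝ) * x + pq.2) := by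
    rintro y ⟨p, q, -, rfl⟩
    exact ⟨(p, q), rfl⟩
  exact (Set.countable_range _).mono h

theorem orb_sub_cls (x : ℝ) : orb x ⊆ cls x := by
  rintro y ⟨p, q, hp, rfl⟩
  exact ⟨p, q, by linarith, rfl⟩

theorem self_mem_cls (x : ℝ) : x ∈ cls x := ⟨1, 0, by norm_num, by norm_num⟩

theorem cls_symm {x y : ℝ} (h : y ∈ cls x) : x ∈ cls y := by
  obtain ⟨p, q, hp, rfl⟩ := h
  refine ⟨p⁻¹, -q / p, by positivity, ?_⟩
  have hp' : (p : ℝ) ≠ 0 := by exact_mod_cast hp.ne'
  push_cast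
  field_simp
  ring

theorem cls_trans {x y z : ℝ} (h : y ∈ cls x) (h' : z ∈ cls y) : z ∈ cls x := by
  obtain ⟨p, q, hp, rfl⟩ := h
  obtain ⟨p', q', hp', rfl⟩ := h'
  refine ⟨p' * p, p' * q + q', by positivity, ?_⟩
  push_cast
  ring

theorem orb_trans {x y z : ℝ} (h : y ∈ orb x) (h' : z ∈ orb y) : z ∈ orb x := by
  obtain ⟨p, q, hp, rfl⟩ := h
  obtain ⟨p', q', hp', rfl⟩ := h'
  refine ⟨p' * p, p' * q + q', by nlinarith, ?_⟩
  push_cast
  ring

theorem not_mem_orb_self {x : ℝ} (hx : Irrational x) : x ∉ orb x := by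
  rintro ⟨p, q, hp, h⟩
  apply hx
  refine ⟨-q / (p - 1), ?_⟩
  have hp' : (p : ℝ) - 1 ≠ 0 := by
    have : (1 : ℝ) < p := by exact_mod_cast hp
    linarith
  push_cast
  rw [div_eq_iff hp']
  linarith

/-- Transfinite selection. -/
theorem select {I : Type} (hI : #I ≤ 𝔠) (S : I → Set ℝ) (hS : ∀ i, 𝔠 ≤ #(S i))
    (B : I → I → ℝ → Set ℝ) (hB : ∀ i j y, (B i j y).Countable) :
    ∃ x : I → ℝ, (∀ i, x i ∈ S i) ∧
      ∀ i j, i ≠ j → x i ∉ B i j (x j) ∨ x j ∉ B j i (x i) := by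
  classical
  obtain ⟨lo, wf, hord⟩ := exists_ord_eq_type_lt I
  let F : (i : I) → ((j : I) → j < i → ℝ) → ℝ := fun i ih =>
    if h : ∃ y ∈ S i, ∀ j (hj : j < i), y ∉ B i j (ih j hj) then h.choose else 0
  let x : I → ℝ := wf.wf.fix F
  have hx : ∀ i, x i = F i (fun j _ => x j) := fun i => wf.wf.fix_eq F i
  have key : ∀ i, x i ∈ S i ∧ ∀ j, j < i → x i ∉ B i j (x j) := by
    intro i
    have hex : ∃ y ∈ S i, ∀ j (hj : j < i), y ∉ B i j (x j) := by
      by_contra hcon
      push Not at hcon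
      have hsub : S i ⊆ ⋃ j : Set.Iio i, B i j (x j) := by
        intro y hy
        obtain ⟨j, hj, hyj⟩ := hcon y hy
        exact Set.mem_iUnion.2 ⟨⟨j, hj⟩, hyj⟩
      have h1 : #(⋃ j : Set.Iio i, B i j (x j)) ≤ #(Set.Iio i) * ⨆ j : Set.Iio i, #(B i j (x j)) :=
        mk_iUnion_le _
      have h2 : (⨆ j : Set.Iio i, #(B i j (x j))) ≤ ℵ₀ := by
        apply ciSup_le'
        intro j
        exact Cardinal.le_aleph0_iff_set_countable.2 (hB i j (x j))
      have h3 : #(Set.Iio i) < 𝔠 := (mk_Iio_lt i hord).trans_le hI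
      have h4 : #(Set.Iio i) * (⨆ j : Set.Iio i, #(B i j (x j))) < 𝔠 :=
        mul_lt_of_lt aleph0_le_continuum h3 (h2.trans_lt aleph0_lt_continuum)
      have h5 := (hS i).trans ((mk_le_mk_of_subset hsub).trans h1)
      exact absurd h4 (not_lt.2 h5)
    have hxi : x i = hex.choose := by
      rw [hx i]
      simp only [F]
      rw [dif_pos hex]
    rw [hxi]
    exact ⟨hex.choose_spec.1, hex.choose_spec.2⟩
  refine ⟨x, fun i => (key i).1, fun i j hij => ?_⟩
  rcases lt_or_gt_of_ne hij with h | h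
  · exact Or.inr ((key j).2 i h)
  · exact Or.inl ((key i).2 j h)

/-- Key analytic lemma. -/
theorem expand {F : ℝ → ℝ} (hF : Monotone F) (hinj : InjOn F (Ioo 0 1))
    (hT : #({x : ℝ | x ∈ Ioo (0 : ℝ) 1 ∧ F x ≠ x ∧ F x ∉ orb x} : Set ℝ) < 𝔠)
    {a b : ℝ} (ha : 0 < a) (hab : a < b) (hb : b < 1) : b - a ≤ F b - F a := by
  classical
  obtain ⟨e, he⟩ := exists_surjective_nat (ℚ × ℚ)
  let X : ℕ → Set ℝ := fun n =>
    {x | x ∈ Ioo a b ∧ (1 ≤ (e n).1 ∧ F x = ((e n).1 : ℝ) * x + (e n).2)}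
  have hmF : Measurable F := hF.measurable
  have hXm : ∀ n, MeasurableSet (X n) := by
    intro n
    have h1 : MeasurableSet {x : ℝ | F x = ((e n).1 : ℝ) * x + (e n).2} :=
      measurableSet_eq_fun hmF (by fun_prop)
    by_cases h : 1 ≤ (e n).1
    · have : X n = Ioo a b ∩ {x : ℝ | F x = ((e n).1 : ℝ) * x + (e n).2} := by
        ext x; simp [X, h]
      rw [this]
      exact measurableSet_Ioo.inter h1
    · have : X n = ∅ := by
        ext x; simp [X, h]
      rw [this]; exact MeasurableSet.empty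
  let T : Set ℝ := Ioo a b \ ⋃ n, X n
  have hTm : MeasurableSet T := measurableSet_Ioo.diff (MeasurableSet.iUnion hXm)
  have hTsub : T ⊆ {x : ℝ | x ∈ Ioo (0 : ℝ) 1 ∧ F x ≠ x ∧ F x ∉ orb x} := by
    rintro x ⟨hx, hx'⟩
    simp only [mem_iUnion, not_exists] at hx'
    refine ⟨⟨ha.trans hx.1, hx.2.trans hb⟩, ?_, ?_⟩
    · intro h
      obtain ⟨n, hn⟩ := he (1, 0)
      exact hx' n ⟨hx, by simp [hn], by simp [hn, h]⟩
    · rintro ⟨p, q, hp, h⟩
      obtain ⟨n, hn⟩ := he (p, q)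
      exact hx' n ⟨hx, by simp [hn, hp.le], by simp [hn, h]⟩
  have hTc : #T < 𝔠 := (mk_le_mk_of_subset hTsub).trans_lt hT
  have hT0 : volume T = 0 := by
    by_contra hne
    have hfin : volume T ≠ ⊤ := by
      have : volume T ≤ volume (Ioo a b) := measure_mono sdiff_subset
      refine ne_top_of_le_ne_top ?_ this
      simp
    obtain ⟨K, hKT, hK, hK0⟩ := hTm.exists_lt_isClosed_of_ne_top hfin (pos_iff_ne_zero.2 hne)
    have hKu : ¬ K.Countable := fun h => hK0.ne' (h.measure_zero _)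
    obtain ⟨f, hfK, -, hfi⟩ := hK.exists_nat_bool_injection_of_not_countable hKu
    have h1 : #(ℕ → Bool) ≤ #K :=
      mk_le_of_injective (f := fun z => (⟨f z, hfK ⟨z, rfl⟩⟩ : K))
        (fun z w h => hfi (Subtype.mk.inj h))
    have h2 : #(ℕ → Bool) = 𝔠 := by simp
    rw [h2] at h1
    exact absurd ((mk_le_mk_of_subset hKT).trans_lt hTc) (not_lt.2 h1)
  -- disjointed pieces
  let D : ℕ → Set ℝ := disjointed X
  have hDX : ∀ n, D n ⊆ X n := fun n => disjointed_subset X n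
  have hDm : ∀ n, MeasurableSet (D n) := MeasurableSet.disjointed hXm
  have hDdisj : Pairwise (Function.onFun Disjoint D) := disjoint_disjointed X
  have hDU : ⋃ n, D n = ⋃ n, X n := iUnion_disjointed
  have himg : ∀ n, F '' (D n) = (fun x : ℝ => ((e n).1 : ℝ) * x + (e n).2) '' (D n) := by
    intro n
    apply Set.image_congr
    intro x hx
    exact (hDX n hx).2.2
  have hpos : ∀ n, (D n).Nonempty → (1 : ℝ) ≤ ((e n).1 : ℝ) := by
    rintro n ⟨x, hx⟩
    exact_mod_cast (hDX n hx).2.1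
  have hvol : ∀ n, volume (F '' (D n)) = ENNReal.ofReal |((e n).1 : ℝ)| * volume (D n) := by
    intro n
    rw [himg n]
    have h1 : (fun x : ℝ => ((e n).1 : ℝ) * x + (e n).2) '' (D n)
        = (fun x : ℝ => x + (e n).2) '' (((e n).1 : ℝ) • (D n)) := by
      ext y
      simp only [mem_image, mem_smul_set, smul_eq_mul]
      constructor
      · rintro ⟨x, hx, rfl⟩
        exact ⟨_, ⟨x, hx, rfl⟩, rfl⟩
      · rintro ⟨_, ⟨x, hx, rfl⟩, rfl⟩
        exact ⟨x, hx, rfl⟩
    rw [h1, Set.image_add_right, measure_preimage_add_right, Measure.addHaar_smul]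
    simp
  have hmeas : ∀ n, MeasurableSet (F '' (D n)) := by
    intro n
    rcases (D n).eq_empty_or_nonempty with h | h
    · rw [h]; simp
    · rw [himg n]
      have hne : ((e n).1 : ℝ) ≠ 0 := by linarith [hpos n h]
      have : MeasurableEmbedding (fun x : ℝ => ((e n).1 : ℝ) * x + (e n).2) :=
        (measurableEmbedding_addRight (((e n).2 : ℝ))).comp (measurableEmbedding_mulLeft₀ hne)
      exact this.measurableSet_image.2 (hDm n)
  have hD01 : ∀ n, D n ⊆ Ioo 0 1 := fun n x hx =>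
    ⟨ha.trans (hDX n hx).1.1, (hDX n hx).1.2.trans hb⟩
  have hFdisj : Pairwise (Function.onFun Disjoint (fun n => F '' (D n))) := by
    intro m n hmn
    have := hDdisj hmn
    simp only [Function.onFun] at this ⊢
    rw [Set.disjoint_left] at this ⊢
    rintro y ⟨x, hx, rfl⟩ ⟨x', hx', hxx'⟩
    have : x' = x := hinj (hD01 n hx') (hD01 m hx) hxx'
    subst this
    exact absurd hx' (by intro h; exact (Set.disjoint_left.1 (hDdisj hmn)) hx h)
  have hle : ∀ n, volume (D n) ≤ volume (F '' (D n)) := by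
    intro n
    rcases (D n).eq_empty_or_nonempty with h | h
    · rw [h]; simp
    · rw [hvol n]
      have h1 : (1 : ENNReal) ≤ ENNReal.ofReal |((e n).1 : ℝ)| := by
        rw [ENNReal.one_le_ofReal]
        exact (hpos n h).trans (le_abs_self _)
      calc volume (D n) = 1 * volume (D n) := (one_mul _).symm
        _ ≤ _ := by gcongr
  have hsub : (⋃ n, F '' (D n)) ⊆ Icc (F a) (F b) := by
    intro y hy
    obtain ⟨n, x, hx, rfl⟩ := by simpa using hy
    exact ⟨hF (hDX n hx).1.1.le, hF (hDX n hx).1.2.le⟩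
  have h1 : volume (Ioo a b) ≤ volume (⋃ n, D n) := by
    have : Ioo a b ⊆ (⋃ n, D n) ∪ T := by
      intro x hx
      by_cases h : x ∈ ⋃ n, X n
      · left; rw [hDU]; exact h
      · right; exact ⟨hx, h⟩
    calc volume (Ioo a b) ≤ volume ((⋃ n, D n) ∪ T) := measure_mono this
      _ ≤ volume (⋃ n, D n) + volume T := measure_union_le _ _
      _ = volume (⋃ n, D n) := by rw [hT0, add_zero]
  have h2 : volume (⋃ n, D n) ≤ volume (⋃ n, F '' (D n)) := by
    rw [measure_iUnion hDdisj hDm, measure_iUnion hFdisj hmeas]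
    exact ENNReal.tsum_le_tsum hle
  have h3 : volume (⋃ n, F '' (D n)) ≤ volume (Icc (F a) (F b)) := measure_mono hsub
  have h4 := h1.trans (h2.trans h3)
  rw [Real.volume_Ioo, Real.volume_Icc] at h4
  exact (ENNReal.ofReal_le_ofReal_iff'.1 h4).resolve_right (by linarith)

/-- Left-continuous function attached to rational data. -/
noncomputable def G (g : ℚ → ℝ) (x : ℝ) : ℝ := sSup {r | ∃ q : ℚ, (q : ℝ) < x ∧ r = g q}

/-- The set of points at which the function attached to `g` can be defeated. -/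
def Sg (g : ℚ → ℝ) : Set ℝ :=
  {x | x ∈ Ioo (0 : ℝ) 1 ∧ Irrational x ∧ ContinuousAt (G g) x ∧ G g x ≠ x ∧ G g x ∉ orb x}

/-- Data which has to be defeated. -/
def Bad (g : ℚ → ℝ) : Prop := InjOn (G g) (Ioo 0 1) ∧ 𝔠 ≤ #(Sg g)

theorem mk_irr : 𝔠 ≤ #({x : ℝ | x ∈ Ioo (0 : ℝ) 1 ∧ Irrational x} : Set ℝ) := by
  by_contra h
  rw [not_le] at h
  have h1 : #(Ioo (0 : ℝ) 1) = 𝔠 := mk_Ioo_real one_pos
  have h2 : Ioo (0 : ℝ) 1 ⊆ {x : ℝ | x ∈ Ioo (0 : ℝ) 1 ∧ Irrational x} ∪ Set.range ((↑) : ℚ → ℝ) := by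
    intro x hx
    by_cases hi : Irrational x
    · exact Or.inl ⟨hx, hi⟩
    · right
      rw [Irrational, not_not] at hi
      exact hi
  have h3 : #(Set.range ((↑) : ℚ → ℝ)) < 𝔠 :=
    (Cardinal.le_aleph0_iff_set_countable.2 (Set.countable_range _)).trans_lt aleph0_lt_continuum
  have h4 := (mk_le_mk_of_subset h2).trans (mk_union_le _ _)
  rw [h1] at h4
  exact absurd (add_lt_of_lt aleph0_le_continuum h h3) (not_lt.2 h4)

/-- The chosen representatives. -/
theorem exists_choice : ∃ x : (ℚ → ℝ) → ℝ,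
    (∀ g, x g ∈ Ioo (0 : ℝ) 1 ∧ Irrational (x g)) ∧
    (∀ g, Bad g → x g ∈ Sg g) ∧
    (∀ g h, g ≠ h → x g ∉ cls (x h)) ∧
    (∀ g h, g ≠ h → Bad g → G g (x g) ∉ cls (x h)) := by
  classical
  have hI : #(ℚ → ℝ) ≤ 𝔠 := by
    simp [mk_real]
  obtain ⟨x, hx, hB⟩ := select hI
    (fun g => if Bad g then Sg g else {x : ℝ | x ∈ Ioo (0 : ℝ) 1 ∧ Irrational x})
    (by
      intro g
      split_ifs with h
      · exact h.2
      · exact mk_irr)
    (fun i j y => cls y ∪ cls (G j y) ∪ {x | Bad i ∧ x ∈ Ioo (0 : ℝ) 1 ∧ G i x ∈ cls y})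
    (by
      intro i j y
      refine ((cls_countable _).union (cls_countable _)).union ?_
      by_cases hb : Bad i
      · have : {x | Bad i ∧ x ∈ Ioo (0 : ℝ) 1 ∧ G i x ∈ cls y} = Ioo 0 1 ∩ (G i) ⁻¹' (cls y) := by
          ext z; simp [hb]
        rw [this]
        have hinj := hb.1
        apply Set.MapsTo.countable_of_injOn (f := G i) (t := cls y) _ _ (cls_countable y)
        · intro z hz; exact hz.2
        · exact hinj.mono inter_subset_left
      · have : {x | Bad i ∧ x ∈ Ioo (0 : ℝ) 1 ∧ G i x ∈ cls y} = ∅ := by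
          ext z; simp [hb]
        rw [this]; exact Set.countable_empty)
  refine ⟨x, ?_, ?_, ?_, ?_⟩
  · intro g
    have := hx g
    split_ifs at this with h
    · exact ⟨this.1, this.2.1⟩
    · exact this
  · intro g hg
    have := hx g
    rw [if_pos hg] at this
    exact this
  · intro g h hgh hc
    rcases hB g h hgh with h1 | h1
    · exact h1 (Or.inl (Or.inl hc))
    · exact h1 (Or.inl (Or.inl (cls_symm hc)))
  · intro g h hgh hg hc
    have hxg : x g ∈ Ioo (0 : ℝ) 1 := by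
      have := hx g
      rw [if_pos hg] at this
      exact this.1
    rcases hB g h hgh with h1 | h1
    · exact h1 (Or.inr ⟨hg, hxg, hc⟩)
    · exact h1 (Or.inl (Or.inr (cls_symm hc)))

/-- The final construction. -/
theorem exists_set : ∃ (C : Set ℝ) (u v : ℝ), C ⊆ Ioo 0 1 ∧ u ∈ C ∧ v ∈ C ∧ u ≠ v ∧
    (∀ x ∈ C, ∀ y ∈ orb x, y ∈ Ioo (0 : ℝ) 1 → y ∈ C ∧ y ≠ u ∧ y ≠ v) ∧
    (∀ f : ℝ → ℝ, StrictMonoOn f C → MapsTo f C C → ∀ x ∈ C, f x = x) := by
  classical
  obtain ⟨x, hx01, hxS, hxc, hxG⟩ := exists_choice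
  let C : Set ℝ := {y | y ∈ Ioo (0 : ℝ) 1 ∧ ∃ g, y = x g ∨ y ∈ orb (x g)}
  have hxC : ∀ g, x g ∈ C := fun g => ⟨(hx01 g).1, g, Or.inl rfl⟩
  have hcl : ∀ z ∈ C, ∀ y ∈ orb z, y ∈ Ioo (0 : ℝ) 1 → y ∈ C ∧ ∀ g, y ≠ x g := by
    rintro z ⟨hz, g, hg⟩ y hy hy01
    have hyg : y ∈ orb (x g) := by
      rcases hg with rfl | hg
      · exact hy
      · exact orb_trans hg hy
    refine ⟨⟨hy01, g, Or.inr hyg⟩, ?_⟩
    rintro h rfl
    by_cases hgh : h = g
    · subst hgh
      exact not_mem_orb_self (hx01 h).2 hyg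
    · exact hxc h g hgh (orb_sub_cls _ hyg)
  have hGC : ∀ g, Bad g → G g (x g) ∉ C := by
    rintro g hg ⟨-, h, hh⟩
    by_cases hgh : g = h
    · subst hgh
      rcases hh with hh | hh
      · exact (hxS g hg).2.2.2.1 hh
      · exact (hxS g hg).2.2.2.2 hh
    · apply hxG g h hgh hg
      rcases hh with hh | hh
      · rw [hh]; exact self_mem_cls _
      · exact orb_sub_cls _ hh
  have hdense : ∀ a b : ℝ, 0 ≤ a → a < b → b ≤ 1 → ∃ y ∈ C, a < y ∧ y < b := by
    intro a b ha hab hb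
    let z := x (fun _ => 0)
    obtain ⟨q, hq1, hq2⟩ := exists_rat_btwn (show a - 2 * z < b - 2 * z by linarith)
    refine ⟨2 * z + q, ?_, by linarith, by linarith⟩
    refine ⟨⟨by linarith, by linarith⟩, (fun _ => 0), Or.inr ⟨2, q, by norm_num, by push_cast; rfl⟩⟩
  have huv : x (fun _ => 0) ≠ x (fun _ => 1) := by
    intro h
    have hne : (fun _ : ℚ => (0 : ℝ)) ≠ (fun _ => 1) := by
      intro h
      have := congrFun h 0
      norm_num at this
    apply hxc _ _ hne
    rw [h]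
    exact self_mem_cls _
  refine ⟨C, x (fun _ => 0), x (fun _ => 1), fun y hy => hy.1, hxC _, hxC _, huv, ?_, ?_⟩
  · intro z hz y hy hy01
    exact ⟨(hcl z hz y hy hy01).1, (hcl z hz y hy hy01).2 _, (hcl z hz y hy hy01).2 _⟩
  · intro f hf hfC
    -- the monotone extension
    let F : ℝ → ℝ := fun t => sSup {r | ∃ y ∈ C, y < t ∧ r = f y}
    have hbdd : ∀ t, BddAbove {r | ∃ y ∈ C, y < t ∧ r = f y} := by
      intro t
      refine ⟨1, ?_⟩
      rintro r ⟨y, hy, -, rfl⟩
      exact (hfC hy).1.2.le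
    have hF0 : ∀ t, 0 ≤ F t := by
      intro t
      apply Real.sSup_nonneg
      rintro r ⟨y, hy, -, rfl⟩
      exact (hfC hy).1.1.le
    have hF1 : ∀ t, F t ≤ 1 := by
      intro t
      apply Real.sSup_le _ zero_le_one
      rintro r ⟨y, hy, -, rfl⟩
      exact (hfC hy).1.2.le
    have hle : ∀ t, ∀ y ∈ C, y < t → f y ≤ F t := fun t y hy hyt =>
      le_csSup (hbdd t) ⟨y, hy, hyt, rfl⟩
    have hFm : Monotone F := by
      intro s t hst
      apply Real.sSup_le _ (hF0 t)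
      rintro r ⟨y, hy, hys, rfl⟩
      exact hle t y hy (hys.trans_le hst)
    have hFle : ∀ y ∈ C, F y ≤ f y := by
      intro y hy
      apply Real.sSup_le _ (hfC hy).1.1.le
      rintro r ⟨z, hz, hzy, rfl⟩
      exact (hf hz hy hzy).le
    have hGF : ∀ t, G (fun q => F q) t = F t := by
      intro t
      unfold G
      apply le_antisymm
      · apply Real.sSup_le _ (hF0 t)
        rintro r ⟨q, hq, rfl⟩
        exact hFm hq.le
      · have hb : BddAbove {r | ∃ q : ℚ, (q : ℝ) < t ∧ r = F q} := by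
          refine ⟨1, ?_⟩
          rintro r ⟨q, -, rfl⟩
          exact hF1 _
        have h0 : 0 ≤ sSup {r | ∃ q : ℚ, (q : ℝ) < t ∧ r = F q} := by
          apply Real.sSup_nonneg
          rintro r ⟨q, -, rfl⟩
          exact hF0 _
        apply Real.sSup_le _ h0
        rintro r ⟨y, hy, hyt, rfl⟩
        obtain ⟨q, hq1, hq2⟩ := exists_rat_btwn hyt
        exact (hle q y hy hq1).trans (le_csSup hb ⟨q, hq2, rfl⟩)
    have hGF' : G (fun q => F q) = F := funext hGF
    have hinj : InjOn F (Ioo 0 1) := by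
      have hlt : ∀ s ∈ Ioo (0 : ℝ) 1, ∀ t ∈ Ioo (0 : ℝ) 1, s < t → F s < F t := by
        intro s hs t ht hst
        obtain ⟨y, hy, hy1, hy2⟩ := hdense s t hs.1.le hst ht.2.le
        obtain ⟨z, hz, hz1, hz2⟩ := hdense y t hy.1.1.le hy2 ht.2.le
        calc F s ≤ F y := hFm hy1.le
          _ ≤ f y := hFle y hy
          _ < f z := hf hy hz hz1
          _ ≤ F t := hle t z hz hz2
      intro s hs t ht hst
      rcases lt_trichotomy s t with h | h | h
      · exact absurd hst (hlt s hs t ht h).ne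
      · exact h
      · exact absurd hst (hlt t ht s hs h).ne'
    have hcont : ∀ y ∈ C, ContinuousAt F y → f y = F y := by
      intro y hy hc
      apply le_antisymm _ (hFle y hy)
      have h1 : Filter.Tendsto F (nhdsWithin y (Ioi y)) (nhds (F y)) := hc.mono_left nhdsWithin_le_nhds
      apply ge_of_tendsto h1
      filter_upwards [self_mem_nhdsWithin] with t ht
      exact hle t y hy ht
    have hnb : ¬ Bad (fun q => F q) := by
      intro hb
      have hS := hxS _ hb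
      have hn := hGC _ hb
      rw [hGF'] at hn
      have hc := hS.2.2.1
      rw [hGF'] at hc
      apply hn
      rw [← hcont _ (hxC _) hc]
      exact hfC (hxC _)
    have hsmall : #(Sg (fun q => F q)) < 𝔠 := by
      by_contra h
      rw [not_lt] at h
      apply hnb
      refine ⟨?_, h⟩
      rw [hGF']; exact hinj
    have hT : #({x : ℝ | x ∈ Ioo (0 : ℝ) 1 ∧ F x ≠ x ∧ F x ∉ orb x} : Set ℝ) < 𝔠 := by
      have hsub : {x : ℝ | x ∈ Ioo (0 : ℝ) 1 ∧ F x ≠ x ∧ F x ∉ orb x} ⊆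
          Sg (fun q => F q) ∪ (Set.range ((↑) : ℚ → ℝ) ∪ {x | ¬ ContinuousAt F x}) := by
        rintro y ⟨hy1, hy2, hy3⟩
        by_cases h1 : Irrational y
        · by_cases h2 : ContinuousAt F y
          · left
            refine ⟨hy1, h1, ?_, ?_, ?_⟩
            · rw [hGF']; exact h2
            · rw [hGF']; exact hy2
            · rw [hGF']; exact hy3
          · right; right; exact h2
        · right; left
          rw [Irrational, not_not] at h1
          exact h1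
      have hcount : #((Set.range ((↑) : ℚ → ℝ) ∪ {x | ¬ ContinuousAt F x} : Set ℝ)) < 𝔠 := by
        refine (Cardinal.le_aleph0_iff_set_countable.2 ?_).trans_lt aleph0_lt_continuum
        exact (Set.countable_range _).union hFm.countable_not_continuousAt
      exact ((mk_le_mk_of_subset hsub).trans (mk_union_le _ _)).trans_lt
        (add_lt_of_lt aleph0_le_continuum hsmall hcount)
    have hexp := @expand F hFm hinj hT
    have hFid : ∀ t ∈ Ioo (0 : ℝ) 1, F t = t := by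
      intro t ht
      apply le_antisymm
      · apply le_of_forall_pos_le_add
        intro ε hε
        by_cases h : t < 1 - ε
        · have := hexp ht.1 h (by linarith)
          have := hF1 (1 - ε)
          linarith
        · have h2 : (t + 1) / 2 < 1 := by linarith [ht.2]
          have := hexp ht.1 (show t < (t + 1) / 2 by linarith [ht.2]) h2
          have := hF1 ((t + 1) / 2)
          linarith [ht.2]
      · apply le_of_forall_pos_le_add
        intro ε hε
        by_cases h : ε < t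
        · have := hexp hε h ht.2
          have := hF0 ε
          linarith
        · have := hexp (show 0 < t / 2 by linarith [ht.1]) (show t / 2 < t by linarith [ht.1]) ht.2
          have := hF0 (t / 2)
          linarith [ht.1]
    intro y hy
    apply le_antisymm
    · apply le_of_forall_pos_le_add
      intro ε hε
      by_cases h : y + ε < 1
      · have := hle (y + ε) y hy (by linarith)
        rw [hFid (y + ε) ⟨by linarith [hy.1.1], h⟩] at this
        exact this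
      · linarith [(hfC hy).1.2]
    · rw [← hFid y hy.1]
      exact (hFle y hy).trans (by rw [hFid y hy.1])

/-- Shrinking towards the left end: initial segments of `C` fit strictly below `b`. -/
theorem push_left {C : Set ℝ} {u v : ℝ} (hC : C ⊆ Ioo 0 1)
    (hcl : ∀ x ∈ C, ∀ y ∈ orb x, y ∈ Ioo (0 : ℝ) 1 → y ∈ C ∧ y ≠ u ∧ y ≠ v)
    {c b : ℝ} (hc : 0 < c) (hcb : c < b) (hb : b ≤ 1) :
    ∃ φ : ℝ → ℝ, StrictMono φ ∧ ∀ x ∈ C, x ≤ c → φ x ∈ C ∧ φ x ≠ u ∧ φ x ≠ v ∧ φ x < b := by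
  obtain ⟨p, hp1, hp2⟩ := exists_rat_btwn (show (1 : ℝ) < b / c by rw [lt_div_iff₀ hc]; linarith)
  rw [lt_div_iff₀ hc] at hp2
  refine ⟨fun x => p * x, fun x y h => ?_, fun x hx hxc => ?_⟩
  · have : (0 : ℝ) < p := by linarith
    exact (mul_lt_mul_iff_right₀ this).2 h
  · have hp0 : (0 : ℝ) < p := by linarith
    have h1 : (p : ℝ) * x ≤ p * c := mul_le_mul_of_nonneg_left hxc hp0.le
    have h2 : (0 : ℝ) < p * x := mul_pos hp0 (hC hx).1
    have h3 := hcl x hx (p * x) ⟨p, 0, by exact_mod_cast hp1, by push_cast; ring⟩ ⟨h2, by linarith⟩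
    exact ⟨h3.1, h3.2.1, h3.2.2, by dsimp only; linarith⟩

theorem push_right {C : Set ℝ} {u v : ℝ} (hC : C ⊆ Ioo 0 1)
    (hcl : ∀ x ∈ C, ∀ y ∈ orb x, y ∈ Ioo (0 : ℝ) 1 → y ∈ C ∧ y ≠ u ∧ y ≠ v)
    {c a : ℝ} (hc : c < 1) (hac : a < c) (ha : 0 ≤ a) :
    ∃ φ : ℝ → ℝ, StrictMono φ ∧ ∀ x ∈ C, c < x → φ x ∈ C ∧ φ x ≠ u ∧ φ x ≠ v ∧ a < φ x := by
  obtain ⟨p, hp1, hp2⟩ := exists_rat_btwn
    (show (1 : ℝ) < (1 - a) / (1 - c) by rw [lt_div_iff₀ (by linarith)]; linarith)
  rw [lt_div_iff₀ (by linarith)] at hp2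
  refine ⟨fun x => p * x + (1 - p), fun x y h => ?_, fun x hx hxc => ?_⟩
  · have hp0 : (0 : ℝ) < p := by linarith
    have := (mul_lt_mul_iff_right₀ hp0).2 h
    dsimp only
    linarith
  · have hp0 : (0 : ℝ) < p := by linarith
    have h1 : (p : ℝ) * (1 - x) ≤ p * (1 - c) := mul_le_mul_of_nonneg_left (by linarith) hp0.le
    have h2 : (0 : ℝ) < p * (1 - x) := mul_pos hp0 (by linarith [(hC hx).2])
    have h3 := hcl x hx (p * x + (1 - p)) ⟨p, 1 - p, by exact_mod_cast hp1, by push_cast; ring⟩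
      ⟨by nlinarith, by nlinarith⟩
    exact ⟨h3.1, h3.2.1, h3.2.2, by dsimp only; nlinarith⟩

/-- If two copies are misaligned then the whole set embeds. -/
theorem misaligned {C : Set ℝ} {u v : ℝ} (hC : C ⊆ Ioo 0 1)
    (hcl : ∀ x ∈ C, ∀ y ∈ orb x, y ∈ Ioo (0 : ℝ) 1 → y ∈ C ∧ y ≠ u ∧ y ≠ v)
    {X : Type} [LinearOrder X] (P Q : Set ℝ)
    (hP : ∀ x ∈ C, x ≠ u → x ≠ v → x ∈ P) (hQ : ∀ x ∈ C, x ≠ u → x ≠ v → x ∈ Q)
    (k : P → X) (hk : StrictMono k) (h : Q → X) (hh : StrictMono h)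
    (a : P) (b : Q) (ha : (a : ℝ) ∈ C) (hb : (b : ℝ) ∈ C) (hab : (a : ℝ) < b)
    (hle : h b ≤ k a) : Nonempty (C ↪o X) := by
  classical
  let c : ℝ := ((a : ℝ) + b) / 2
  have hac : (a : ℝ) < c := by simp only [c]; linarith
  have hcb : c < (b : ℝ) := by simp only [c]; linarith
  have ha0 := (hC ha).1
  have hb1 := (hC hb).2
  obtain ⟨φ, hφm, hφ⟩ := push_left hC hcl (show 0 < c by linarith) hcb hb1.le
  obtain ⟨ψ, hψm, hψ⟩ := push_right hC hcl (show c < 1 by linarith) hac ha0.le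
  let e : C → X := fun x =>
    if hx : (x : ℝ) ≤ c then
      h ⟨φ x, hQ _ (hφ x x.2 hx).1 (hφ x x.2 hx).2.1 (hφ x x.2 hx).2.2.1⟩
    else
      k ⟨ψ x, hP _ (hψ x x.2 (not_le.1 hx)).1 (hψ x x.2 (not_le.1 hx)).2.1
        (hψ x x.2 (not_le.1 hx)).2.2.1⟩
  have hlow : ∀ x : C, (x : ℝ) ≤ c → e x < h b := by
    intro x hx
    simp only [e, dif_pos hx]
    apply hh
    exact (hφ x x.2 hx).2.2.2
  have hhigh : ∀ x : C, ¬ (x : ℝ) ≤ c → k a < e x := by
    intro x hx
    simp only [e, dif_neg hx]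
    apply hk
    exact (hψ x x.2 (not_le.1 hx)).2.2.2
  have hmono : StrictMono e := by
    intro x y hxy
    have hxy' : (x : ℝ) < y := hxy
    by_cases hx : (x : ℝ) ≤ c
    · by_cases hy : (y : ℝ) ≤ c
      · simp only [e, dif_pos hx, dif_pos hy]
        apply hh
        exact hφm hxy'
      · exact (hlow x hx).trans_le (hle.trans (hhigh y hy).le)
    · have hy : ¬ (y : ℝ) ≤ c := fun hy => hx (hxy'.le.trans hy)
      simp only [e, dif_neg hx, dif_neg hy]
      apply hk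
      exact hψm hxy'
  exact ⟨OrderEmbedding.ofStrictMono e hmono⟩

/-- Self-embeddings of `C` cannot avoid a point. -/
theorem no_embed {C : Set ℝ} (hC : ∀ f : ℝ → ℝ, StrictMonoOn f C → MapsTo f C C → ∀ x ∈ C, f x = x)
    {w : ℝ} (hw : w ∈ C) : IsEmpty (C ↪o ({x | x ∈ C ∧ x ≠ w} : Set ℝ)) := by
  classical
  refine ⟨fun g => ?_⟩
  let f : ℝ → ℝ := fun x => if hx : x ∈ C then (g ⟨x, hx⟩ : ℝ) else 0
  have h1 : StrictMonoOn f C := by
    intro x hx y hy hxy
    simp only [f, dif_pos hx, dif_pos hy]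
    exact g.strictMono (show (⟨x, hx⟩ : C) < ⟨y, hy⟩ from hxy)
  have h2 : MapsTo f C C := by
    intro x hx
    simp only [f, dif_pos hx]
    exact (g ⟨x, hx⟩).2.1
  have h3 := hC f h1 h2 w hw
  simp only [f, dif_pos hw] at h3
  exact (g ⟨w, hw⟩).2.2 h3

/-- There exist linear orders A, B, C such that neither A nor B embeds in the other, both embed in C, and C embeds in every linear order into which both A and B embed. -/
theorem result :
    ∃ (A B C : Type) (_ : LinearOrder A) (_ : LinearOrder B) (_ : LinearOrder C),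
      IsEmpty (A ↪o B) ∧ IsEmpty (B ↪o A) ∧
      Nonempty (A ↪o C) ∧ Nonempty (B ↪o C) ∧
      ∀ (X : Type) [LinearOrder X],
        Nonempty (A ↪o X) → Nonempty (B ↪o X) → Nonempty (C ↪o X) := by
  classical
  obtain ⟨C, u, v, hC, hu, hv, huv, hcl, hrig⟩ := exists_set
  let A : Set ℝ := {x | x ∈ C ∧ x ≠ v}
  let B : Set ℝ := {x | x ∈ C ∧ x ≠ u}
  have hsup : ∀ (X : Type) [LinearOrder X],
        Nonempty (A ↪o X) → Nonempty (B ↪o X) → Nonempty (C ↪o X) := by
    rintro X _ ⟨k⟩ ⟨h⟩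
    by_contra hne
    have hcl' : ∀ x ∈ C, ∀ y ∈ orb x, y ∈ Ioo (0 : ℝ) 1 → y ∈ C ∧ y ≠ v ∧ y ≠ u :=
      fun x hx y hy hy' => ⟨(hcl x hx y hy hy').1, (hcl x hx y hy hy').2.2, (hcl x hx y hy hy').2.1⟩
    have h1 : ∀ (a : A) (b : B), (a : ℝ) < b → k a < h b := by
      intro a b hab
      by_contra hlt
      rw [not_lt] at hlt
      exact hne (misaligned hC hcl A B (fun x hx _ h2 => ⟨hx, h2⟩) (fun x hx h1 _ => ⟨hx, h1⟩)
        k k.strictMono h h.strictMono a b a.2.1 b.2.1 hab hlt)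
    have h2 : ∀ (a : A) (b : B), (b : ℝ) < a → h b < k a := by
      intro a b hab
      by_contra hlt
      rw [not_lt] at hlt
      exact hne (misaligned hC hcl B A (fun x hx h1 _ => ⟨hx, h1⟩) (fun x hx _ h2 => ⟨hx, h2⟩)
        h h.strictMono k k.strictMono b a b.2.1 a.2.1 hab hlt)
    apply hne
    let e : C → X := fun x =>
      if hx : (x : ℝ) = v then h ⟨x, x.2, by rw [hx]; exact huv.symm⟩ else k ⟨x, x.2, hx⟩
    have hmono : StrictMono e := by
      intro x y hxy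
      have hxy' : (x : ℝ) < y := hxy
      by_cases hx : (x : ℝ) = v
      · by_cases hy : (y : ℝ) = v
        · rw [hx, hy] at hxy'; exact absurd hxy' (lt_irrefl _)
        · simp only [e, dif_pos hx, dif_neg hy]
          exact h2 _ _ hxy'
      · by_cases hy : (y : ℝ) = v
        · simp only [e, dif_neg hx, dif_pos hy]
          exact h1 _ _ hxy'
        · simp only [e, dif_neg hx, dif_neg hy]
          exact k.strictMono hxy'
    exact ⟨OrderEmbedding.ofStrictMono e hmono⟩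
  have hCA : IsEmpty (C ↪o A) := no_embed hrig hv
  have hCB : IsEmpty (C ↪o B) := no_embed hrig hu
  refine ⟨A, B, C, inferInstance, inferInstance, inferInstance, ?_, ?_, ?_, ?_, hsup⟩
  · refine ⟨fun g => ?_⟩
    exact (hsup B ⟨g⟩ ⟨RelEmbedding.refl _⟩).elim hCB.false
  · refine ⟨fun g => ?_⟩
    exact (hsup A ⟨RelEmbedding.refl _⟩ ⟨g⟩).elim hCA.false
  · exact ⟨OrderEmbedding.ofStrictMono (fun x : A => (⟨x, x.2.1⟩ : C)) (fun x y hxy => hxy)⟩
  · exact ⟨OrderEmbedding.ofStrictMono (fun x : B => (⟨x, x.2.1⟩ : C)) (fun x y hxy => hxy)⟩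

end Pool.Agent.S09833
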