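import Pool.Statements.S09841
import Pool.Agent.Helper116.B9

set_option autoImplicit false
open Pool Pool.MP_f3ccbb_lc

namespace Pool.Agent.S09841

/-- There are c>0 and C such that for all large n some (1+1) elitist algorithm (state = best point, offspring and tie rule depend only on it) finds every OneMax optimum in expected ≤ Cn queries, and every such algorithm needs ≥ cn on some target. -/
theorem result :
    ∃ c C : ℝ, 0 < c ∧ ∃ N : ℕ, ∀ n : ℕ, N ≤ n →
      (∃ init : PMF (Fin n → Bool), ∃ step : (Fin n → Bool) → PMF ((Fin n → Bool) × Bool),
        ∀ z : Fin n → Bool,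
          1 + ∑' k : ℕ, (1 - (Nat.iterate
              (fun p : PMF (Fin n → Bool) => p.bind (fun x => (step x).bind (fun yb =>
                PMF.pure (if (Finset.univ.filter (fun i => x i = z i)).card
                      < (Finset.univ.filter (fun i => yb.1 i = z i)).card
                    ∨ ((Finset.univ.filter (fun i => x i = z i)).card
                      = (Finset.univ.filter (fun i => yb.1 i = z i)).card ∧ yb.2 = true)
                  then yb.1 else x))))
              k init) z)
            ≤ ENNReal.ofReal (C * (n : ℝ))) ∧
      (∀ init : PMF (Fin n → Bool), ∀ step : (Fin n → Bool) → PMF ((Fin n → Bool) × Bool),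
        ∃ z : Fin n → Bool,
          ENNReal.ofReal (c * (n : ℝ)) ≤
          1 + ∑' k : ℕ, (1 - (Nat.iterate
              (fun p : PMF (Fin n → Bool) => p.bind (fun x => (step x).bind (fun yb =>
                PMF.pure (if (Finset.univ.filter (fun i => x i = z i)).card
                      < (Finset.univ.filter (fun i => yb.1 i = z i)).card
                    ∨ ((Finset.univ.filter (fun i => x i = z i)).card
                      = (Finset.univ.filter (fun i => yb.1 i = z i)).card ∧ yb.2 = true)
                  then yb.1 else x))))
              k init) z)) := by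
  obtain ⟨N, hN⟩ := Pool.Agent.Helper116.Alg.exists_alg
  refine ⟨1, 20000001, one_pos, N, fun n hn => ⟨hN n hn, fun init step => ?_⟩⟩
  obtain ⟨z, hz⟩ := Pool.Agent.Helper116.Alg.lower_bound init step
  refine ⟨z, ?_⟩
  rw [one_mul, ENNReal.ofReal_natCast]
  exact hz

end Pool.Agent.S09841
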