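import Pool.Statements.S09853
import Pool.Agent.Helper172.HS.Main

set_option autoImplicit false
open Pool Pool.MP_f8fe2f_lc

namespace Pool.Agent.S09853

/-- Whenever a countable hypersmooth Borel equivalence relation E on a standard Borel space sits inside a Borel equivalence relation F whose classes are each finite unions of E-classes, F is itself hypersmooth. -/
theorem result :
    ∀ (X : Type) [MeasurableSpace X] [StandardBorelSpace X]
      (f : ℕ → X → ℝ) (F : X → X → Prop),
      (∀ n, Measurable (f n)) →
      (∀ n x y, f n x = f n y → f (n + 1) x = f (n + 1) y) →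
      (∀ x, {y : X | ∃ n, f n x = f n y}.Countable) →
      Equivalence F →
      MeasurableSet {p : X × X | F p.1 p.2} →
      (∀ x y, (∃ n, f n x = f n y) → F x y) →
      (∀ x, ∃ s : Finset X, ∀ y, F x y → ∃ z ∈ s, ∃ n, f n z = f n y) →
      ∃ g : ℕ → X → ℝ, (∀ n, Measurable (g n)) ∧
        (∀ n x y, g n x = g n y → g (n + 1) x = g (n + 1) y) ∧
        ∀ x y, F x y ↔ ∃ n, g n x = g n y := by
  intro X _ _ f F hf hfm _ hF hFm hEF hfin
  exact Pool.Agent.Helper172.HS.main f F hf hfm hF hFm hEF hfin

end Pool.Agent.S09853
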