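import Pool.Statements.S09855
import Pool.Agent.Helper626.PosetAlg.Main

set_option autoImplicit false
open Pool Pool.MP_fbb83b_lc

namespace Pool.Agent.S09855

/-- For every partial order P whose poset algebra is superatomic (every quotient by an ideal is atomic), there is a well-quasi-order W and an injective Boolean homomorphism from the poset algebra of P into that of W. -/
theorem result :
    ∀ (P : Type) [PartialOrder P],
      (∀ I : Set (Set (UpperSet P)),
        I ⊆ ((BooleanSubalgebra.closure
              (Set.range fun a : P => {U : UpperSet P | a ∈ U})) : Set (Set (UpperSet P))) →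
        ∅ ∈ I →
        (∀ x ∈ I, ∀ y ∈ I, x ∪ y ∈ I) →
        (∀ x ∈ I, ∀ y ∈ BooleanSubalgebra.closure
              (Set.range fun a : P => {U : UpperSet P | a ∈ U}), y ⊆ x → y ∈ I) →
        ∀ b ∈ BooleanSubalgebra.closure
              (Set.range fun a : P => {U : UpperSet P | a ∈ U}), b ∉ I →
          ∃ a ∈ BooleanSubalgebra.closure
              (Set.range fun a : P => {U : UpperSet P | a ∈ U}),
            a ⊆ b ∧ a ∉ I ∧
            ∀ c ∈ BooleanSubalgebra.closure
              (Set.range fun a : P => {U : UpperSet P | a ∈ U}),
              c ⊆ a → c ∈ I ∨ a \ c ∈ I) →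
      ∃ (W : Type) (_ : Preorder W),
        WellQuasiOrdered (fun x y : W => x ≤ y) ∧
        ∃ f : Set (UpperSet P) → Set (UpperSet W),
          (∀ x ∈ BooleanSubalgebra.closure
              (Set.range fun a : P => {U : UpperSet P | a ∈ U}),
            f x ∈ BooleanSubalgebra.closure
              (Set.range fun w : W => {U : UpperSet W | w ∈ U})) ∧
          (∀ x ∈ BooleanSubalgebra.closure
              (Set.range fun a : P => {U : UpperSet P | a ∈ U}),
            ∀ y ∈ BooleanSubalgebra.closure
              (Set.range fun a : P => {U : UpperSet P | a ∈ U}),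
              f (x ∩ y) = f x ∩ f y) ∧
          (∀ x ∈ BooleanSubalgebra.closure
              (Set.range fun a : P => {U : UpperSet P | a ∈ U}),
            f xᶜ = (f x)ᶜ) ∧
          (∀ x ∈ BooleanSubalgebra.closure
              (Set.range fun a : P => {U : UpperSet P | a ∈ U}),
            ∀ y ∈ BooleanSubalgebra.closure
              (Set.range fun a : P => {U : UpperSet P | a ∈ U}),
              f x = f y → x = y) := by
  intro P _ hsa
  obtain ⟨W, iW, hW, g, hg1, hg2⟩ := Pool.Agent.Helper626.PosetAlg.main (P := P) hsa
  refine ⟨W, iW, hW, fun x => g ⁻¹' x, hg1, ?_, ?_, ?_⟩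
  · intro x _ y _
    rfl
  · intro x _
    rfl
  · intro x _ y _ hxy
    exact hg2.preimage_injective hxy

end Pool.Agent.S09855
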