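import Pool.Statements.S09859

set_option autoImplicit false
open Pool Pool.MP_fc8a61_lc

namespace Pool.Agent.S09859

/-!
Every one-sided random context grammar has an equivalent left random context grammar.

The new grammar generates `K^n (data) C^n`. The leftmost `K` becomes `K1` and then vanishes, each
such cycle offers one simulated step; the leftmost `C` becomes `C1` and then vanishes, each such
cycle checks one simulated step. The check in phase `K1` requires that every data symbol has been
recoded (`l X` left of the rewritten occurrence, `r X` right of it) and that exactly one occurrence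
is marked. The number `2 * (number of K) + [K1]` must stay synchronised with
`2 * (number of C) + [C1]`, otherwise the derivation can never end.
-/

open Relation

/-- one-sided random context rules, indexed by a type `R` -/
structure GR (T N R : Type) where
  lhs : R → N
  rhs : R → List (Symbol T N)
  side : R → Bool
  U : R → Finset N
  W : R → Finset N

variable {T N R : Type}

/-- the context condition of rule `ρ`; `side ρ = true` means right rule -/
def GR.ctx (g : GR T N R) (ρ : R) (u v : List (Symbol T N)) : Prop :=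
  (g.side ρ = false ∧ (∀ B ∈ g.U ρ, Symbol.nonterminal B ∈ u) ∧
    (∀ B ∈ g.W ρ, Symbol.nonterminal B ∉ u)) ∨
  (g.side ρ = true ∧ (∀ B ∈ g.U ρ, Symbol.nonterminal B ∈ v) ∧
    (∀ B ∈ g.W ρ, Symbol.nonterminal B ∉ v))

/-- one derivation step of the given grammar -/
def GR.Step (g : GR T N R) (α β : List (Symbol T N)) : Prop :=
  ∃ ρ u v, α = u ++ [Symbol.nonterminal (g.lhs ρ)] ++ v ∧ β = u ++ g.rhs ρ ++ v ∧ g.ctx ρ u v

/-- nonterminals of the new grammar -/
inductive NH (N R : Type) : Type
  | Sh | K | K1 | C | C1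
  | p (X : N) | l (X : N) | r (X : N)
  | m (ρ : R) | c (ρ : R)

/-- rule names of the new grammar -/
inductive RI (N R : Type) : Type
  | r1 | r2 | r3 | r4
  | r5 (ρ : R) | r6 (ρ : R) | r7 (X : N) | r8m (X : N) (ρ : R) | r8c (X : N) (ρ : R)
  | r9 (ρ : R) | r10l (X : N) | r10r (X : N) | r11 (ρ : R) | r12

open NH RI

/-- plain copy of a symbol -/
def pm : Symbol T N → Symbol T (NH N R)
  | .terminal t => .terminal t
  | .nonterminal X => .nonterminal (p X)

def lm : Symbol T N → Symbol T (NH N R)
  | .terminal t => .terminal t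
  | .nonterminal X => .nonterminal (l X)

def rm : Symbol T N → Symbol T (NH N R)
  | .terminal t => .terminal t
  | .nonterminal X => .nonterminal (r X)

/-- nonterminal as a symbol -/
abbrev ν (T : Type) (A : NH N R) : Symbol T (NH N R) := Symbol.nonterminal A

def isMark : NH N R → Prop
  | m _ => True
  | c _ => True
  | _ => False

variable (g : GR T N R) (S : N)

def hl : RI N R → NH N R
  | r1 => Sh
  | r2 => Sh
  | r3 => K
  | r4 => K1
  | r5 ρ => p (g.lhs ρ)
  | r6 ρ => m ρ
  | r7 X => p X
  | r8m X _ => p X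
  | r8c X _ => p X
  | r9 ρ => c ρ
  | r10l X => l X
  | r10r X => r X
  | r11 _ => C
  | r12 => C1

def hr : RI N R → List (Symbol T (NH N R))
  | r1 => [ν T K, ν T Sh, ν T C]
  | r2 => [ν T (p S)]
  | r3 => [ν T K1]
  | r4 => []
  | r5 ρ => [ν T (m ρ)]
  | r6 ρ => [ν T (c ρ)]
  | r7 X => [ν T (l X)]
  | r8m X _ => [ν T (r X)]
  | r8c X _ => [ν T (r X)]
  | r9 ρ => (g.rhs ρ).map pm
  | r10l X => [ν T (p X)]
  | r10r X => [ν T (p X)]
  | r11 _ => [ν T C1]
  | r12 => []

/-- permitting contexts -/
def hp : RI N R → Set (NH N R)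
  | r6 _ => {K1}
  | r7 _ => {K1}
  | r8m _ ρ => {K1, m ρ}
  | r8c _ ρ => {K1, c ρ}
  | r11 ρ => {K1, c ρ} ∪ {x | ∃ B ∈ g.U ρ, x = if g.side ρ then r B else l B}
  | _ => ∅

/-- forbidding contexts -/
def hf : RI N R → Set (NH N R)
  | r3 => {K, K1}
  | r5 _ => {K1}
  | r6 _ => {x | isMark x}
  | r7 _ => {x | isMark x}
  | r9 _ => {K1}
  | r10l _ => {K1}
  | r10r _ => {K1}
  | r11 ρ => {Sh, C, C1} ∪ {x | ∃ X, x = p X} ∪ {x | ∃ ρ', x = m ρ'} ∪
      {x | ∃ B ∈ g.W ρ, x = if g.side ρ then r B else l B}
  | r12 => {K1, Sh, C, C1} ∪ {x | ∃ X, x = l X} ∪ {x | ∃ X, x = r X} ∪ {x | ∃ ρ', x = c ρ'}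
  | _ => ∅

/-- one derivation step of the new grammar -/
def HStep (α β : List (Symbol T (NH N R))) : Prop :=
  ∃ i u v, α = u ++ [ν T (hl g i)] ++ v ∧ β = u ++ hr g S i ++ v ∧
    (∀ B ∈ hp g i, ν T B ∈ u) ∧ (∀ B ∈ hf g i, ν T B ∉ u)

/-! ### Completeness -/

lemma HStep.mk' (i : RI N R) (u v : List (Symbol T (NH N R)))
    (h1 : ∀ B ∈ hp g i, ν T B ∈ u) (h2 : ∀ B ∈ hf g i, ν T B ∉ u) :
    HStep g S (u ++ [ν T (hl g i)] ++ v) (u ++ hr g S i ++ v) :=
  ⟨i, u, v, rfl, rfl, h1, h2⟩

lemma recode_l (u : List (Symbol T N)) : ∀ (L Q : List (Symbol T (NH N R))),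
    ν T K1 ∈ L → (∀ x, isMark x → ν T x ∉ L) →
    ReflTransGen (HStep g S) (L ++ u.map pm ++ Q) (L ++ u.map lm ++ Q) := by
  induction u with
  | nil => intro L Q _ _; exact ReflTransGen.refl
  | cons s u ih =>
    intro L Q h1 h2
    cases s with
    | terminal t =>
      have := ih (L ++ [Symbol.terminal t]) Q (by simp [h1]) (by
        intro x hx hmem
        rcases List.mem_append.mp hmem with h | h
        · exact h2 x hx h
        · simp [ν] at h)
      simpa [pm, lm] using this
    | nonterminal X =>
      have hs := HStep.mk' g S (r7 X) L (u.map pm ++ Q) (by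
        intro B hB
        simp only [hp, Set.mem_singleton_iff] at hB
        rw [hB]; exact h1) (by
        intro B hB
        exact h2 B hB)
      have := ih (L ++ [ν T (l X)]) Q (by simp [h1]) (by
        intro x hx hmem
        rcases List.mem_append.mp hmem with h | h
        · exact h2 x hx h
        · simp only [ν, List.mem_singleton, Symbol.nonterminal.injEq] at h
          rw [h] at hx
          exact hx)
      refine ReflTransGen.head (b := L ++ [ν T (l X)] ++ u.map pm ++ Q) ?_ ?_
      · simpa [hl, hr, pm] using hs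
      · simpa [lm] using this

lemma recode_r (ρ : R) (u : List (Symbol T N)) : ∀ (L Q : List (Symbol T (NH N R))),
    ν T K1 ∈ L → ν T (c ρ) ∈ L →
    ReflTransGen (HStep g S) (L ++ u.map pm ++ Q) (L ++ u.map rm ++ Q) := by
  induction u with
  | nil => intro L Q _ _; exact ReflTransGen.refl
  | cons s u ih =>
    intro L Q h1 h2
    cases s with
    | terminal t =>
      have := ih (L ++ [Symbol.terminal t]) Q (by simp [h1]) (by simp [h2])
      simpa [pm, rm] using this
    | nonterminal X =>
      have hs := HStep.mk' g S (r8c X ρ) L (u.map pm ++ Q) (by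
        intro B hB
        simp only [hp, Set.mem_insert_iff, Set.mem_singleton_iff] at hB
        rcases hB with rfl | rfl
        · exact h1
        · exact h2) (by
        intro B hB
        exact hB.elim)
      have := ih (L ++ [ν T (r X)]) Q (by simp [h1]) (by simp [h2])
      refine ReflTransGen.head (b := L ++ [ν T (r X)] ++ u.map pm ++ Q) ?_ ?_
      · simpa [hl, hr, pm] using hs
      · simpa [rm] using this

lemma decode_l (u : List (Symbol T N)) : ∀ (L Q : List (Symbol T (NH N R))),
    ν T K1 ∉ L →
    ReflTransGen (HStep g S) (L ++ u.map lm ++ Q) (L ++ u.map pm ++ Q) := by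
  induction u with
  | nil => intro L Q _; exact ReflTransGen.refl
  | cons s u ih =>
    intro L Q h1
    cases s with
    | terminal t =>
      have := ih (L ++ [Symbol.terminal t]) Q (by simp [h1])
      simpa [pm, lm] using this
    | nonterminal X =>
      have hs := HStep.mk' g S (r10l X) L (u.map lm ++ Q) (by
        intro B hB
        exact hB.elim) (by
        intro B hB
        simp only [hf, Set.mem_singleton_iff] at hB
        rw [hB]; exact h1)
      have := ih (L ++ [ν T (p X)]) Q (by simp [h1])
      refine ReflTransGen.head (b := L ++ [ν T (p X)] ++ u.map lm ++ Q) ?_ ?_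
      · simpa [hl, hr, lm] using hs
      · simpa [pm] using this

lemma decode_r (u : List (Symbol T N)) : ∀ (L Q : List (Symbol T (NH N R))),
    ν T K1 ∉ L →
    ReflTransGen (HStep g S) (L ++ u.map rm ++ Q) (L ++ u.map pm ++ Q) := by
  induction u with
  | nil => intro L Q _; exact ReflTransGen.refl
  | cons s u ih =>
    intro L Q h1
    cases s with
    | terminal t =>
      have := ih (L ++ [Symbol.terminal t]) Q (by simp [h1])
      simpa [pm, rm] using this
    | nonterminal X =>
      have hs := HStep.mk' g S (r10r X) L (u.map rm ++ Q) (by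
        intro B hB
        exact hB.elim) (by
        intro B hB
        simp only [hf, Set.mem_singleton_iff] at hB
        rw [hB]; exact h1)
      have := ih (L ++ [ν T (p X)]) Q (by simp [h1])
      refine ReflTransGen.head (b := L ++ [ν T (p X)] ++ u.map rm ++ Q) ?_ ?_
      · simpa [hl, hr, rm] using hs
      · simpa [pm] using this

/-- the block `K^a` -/
abbrev Ks (a : ℕ) : List (Symbol T (NH N R)) := List.replicate a (ν T K)
/-- the block `C^a` -/
abbrev Cs (a : ℕ) : List (Symbol T (NH N R)) := List.replicate a (ν T C)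

lemma pm_mem {u : List (Symbol T N)} {A : NH N R} (h : ν T A ∈ u.map pm) :
    ∃ X, A = p X ∧ Symbol.nonterminal X ∈ u := by
  obtain ⟨s, hs, he⟩ := List.mem_map.mp h
  cases s with
  | terminal t => simp [pm] at he
  | nonterminal X =>
    simp only [pm, Symbol.nonterminal.injEq] at he
    exact ⟨X, he.symm, hs⟩

lemma lm_mem {u : List (Symbol T N)} {A : NH N R} (h : ν T A ∈ u.map lm) :
    ∃ X, A = l X ∧ Symbol.nonterminal X ∈ u := by
  obtain ⟨s, hs, he⟩ := List.mem_map.mp h
  cases s with
  | terminal t => simp [lm] at he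
  | nonterminal X =>
    simp only [lm, Symbol.nonterminal.injEq] at he
    exact ⟨X, he.symm, hs⟩

lemma rm_mem {u : List (Symbol T N)} {A : NH N R} (h : ν T A ∈ u.map rm) :
    ∃ X, A = r X ∧ Symbol.nonterminal X ∈ u := by
  obtain ⟨s, hs, he⟩ := List.mem_map.mp h
  cases s with
  | terminal t => simp [rm] at he
  | nonterminal X =>
    simp only [rm, Symbol.nonterminal.injEq] at he
    exact ⟨X, he.symm, hs⟩

lemma simulate_step {α β : List (Symbol T N)} (h : g.Step α β) (a : ℕ) :
    ReflTransGen (HStep g S) (Ks (a + 1) ++ α.map pm ++ Cs (a + 1)) (Ks a ++ β.map pm ++ Cs a) := by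
  obtain ⟨ρ, u, v, rfl, rfl, hc⟩ := h
  have hK : ∀ A : NH N R, ν T A ∈ (Ks (a + 1) : List (Symbol T (NH N R))) → A = K := by
    intro A hA
    have := List.eq_of_mem_replicate hA
    simpa using this
  have hK' : ∀ A : NH N R, ν T A ∈ (Ks a : List (Symbol T (NH N R))) → A = K := by
    intro A hA
    have := List.eq_of_mem_replicate hA
    simpa using this
  -- 1: mark
  have s1 : HStep g S (Ks (a + 1) ++ (u ++ [Symbol.nonterminal (g.lhs ρ)] ++ v).map pm ++ Cs (a + 1))
      (Ks (a + 1) ++ u.map pm ++ [ν T (m ρ)] ++ v.map pm ++ Cs (a + 1)) := by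
    have := HStep.mk' g S (r5 ρ) (Ks (a + 1) ++ u.map pm) (v.map pm ++ Cs (a + 1)) (by
      intro B hB; exact hB.elim) (by
      intro B hB hmem
      simp only [hf, Set.mem_singleton_iff] at hB
      subst hB
      rcases List.mem_append.mp hmem with h | h
      · have := hK _ h; simp at this
      · obtain ⟨X, hX, _⟩ := pm_mem h; simp at hX)
    simpa [hl, hr, pm] using this
  -- 2: activate the leftmost clock token
  have s2 : HStep g S (Ks (a + 1) ++ u.map pm ++ [ν T (m ρ)] ++ v.map pm ++ Cs (a + 1))
      ([ν T K1] ++ Ks a ++ u.map pm ++ [ν T (m ρ)] ++ v.map pm ++ Cs (a + 1)) := by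
    have := HStep.mk' g S r3 [] (Ks a ++ u.map pm ++ [ν T (m ρ)] ++ v.map pm ++ Cs (a + 1)) (by
      intro B hB; exact hB.elim) (by
      intro B hB hmem
      simp at hmem)
    simpa [hl, hr, List.replicate_succ] using this
  have hKK : ν T K1 ∈ ([ν T K1] ++ Ks a : List (Symbol T (NH N R))) := by simp
  have hnm : ∀ x : NH N R, isMark x → ν T x ∉ ([ν T K1] ++ Ks a : List (Symbol T (NH N R))) := by
    intro x hx hmem
    rcases List.mem_append.mp hmem with h | h
    · simp only [List.mem_singleton, Symbol.nonterminal.injEq] at h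
      rw [h] at hx; exact hx
    · rw [hK' x h] at hx; exact hx
  -- 3: recode left part
  have s3 := recode_l g S u ([ν T K1] ++ Ks a) ([ν T (m ρ)] ++ v.map pm ++ Cs (a + 1)) hKK hnm
  -- 4: confirm
  have s4 : HStep g S (([ν T K1] ++ Ks a) ++ u.map lm ++ ([ν T (m ρ)] ++ v.map pm ++ Cs (a + 1)))
      (([ν T K1] ++ Ks a ++ u.map lm ++ [ν T (c ρ)]) ++ v.map pm ++ Cs (a + 1)) := by
    have := HStep.mk' g S (r6 ρ) (([ν T K1] ++ Ks a) ++ u.map lm) (v.map pm ++ Cs (a + 1)) (by
      intro B hB
      simp only [hp, Set.mem_singleton_iff] at hB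
      subst hB
      simp) (by
      intro B hB hmem
      rcases List.mem_append.mp hmem with h | h
      · exact hnm B hB h
      · obtain ⟨X, hX, _⟩ := lm_mem h
        rw [hX] at hB; exact hB)
    simpa [hl, hr] using this
  -- 5: recode right part
  have s5 := recode_r g S ρ v ([ν T K1] ++ Ks a ++ u.map lm ++ [ν T (c ρ)]) (Cs (a + 1))
    (by simp) (by simp)
  -- 6: check
  have s6 : HStep g S (([ν T K1] ++ Ks a ++ u.map lm ++ [ν T (c ρ)]) ++ v.map rm ++ Cs (a + 1))
      (([ν T K1] ++ Ks a ++ u.map lm ++ [ν T (c ρ)]) ++ v.map rm ++ [ν T C1] ++ Cs a) := by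
    have memcase : ∀ B : NH N R, ν T B ∈ (([ν T K1] ++ Ks a ++ u.map lm ++ [ν T (c ρ)]) ++ v.map rm) →
        B = K1 ∨ B = K ∨ (∃ X, B = l X ∧ Symbol.nonterminal X ∈ u) ∨ B = c ρ ∨
        (∃ X, B = r X ∧ Symbol.nonterminal X ∈ v) := by
      intro B hB
      rcases List.mem_append.mp hB with h | h
      · rcases List.mem_append.mp h with h | h
        · rcases List.mem_append.mp h with h | h
          · rcases List.mem_append.mp h with h | h
            · left; simpa using h
            · right; left; exact hK' B h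
          · right; right; left; exact lm_mem h
        · right; right; right; left; simpa using h
      · right; right; right; right; exact rm_mem h
    have := HStep.mk' g S (r11 ρ) (([ν T K1] ++ Ks a ++ u.map lm ++ [ν T (c ρ)]) ++ v.map rm) (Cs a) (by
      intro B hB
      simp only [hp, Set.mem_union, Set.mem_insert_iff, Set.mem_singleton_iff, Set.mem_ofPred_eq] at hB
      rcases hB with (rfl | rfl) | ⟨Y, hY, rfl⟩
      · simp
      · simp
      · rcases hc with ⟨hs, hU, _⟩ | ⟨hs, hU, _⟩
        · have : (ν T (l Y) : Symbol T (NH N R)) ∈ u.map lm :=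
            List.mem_map.mpr ⟨_, hU Y hY, rfl⟩
          simp [hs, this]
        · have : (ν T (r Y) : Symbol T (NH N R)) ∈ v.map rm :=
            List.mem_map.mpr ⟨_, hU Y hY, rfl⟩
          simp [hs, this]) (by
      intro B hB hmem
      simp only [hf, Set.mem_union, Set.mem_insert_iff, Set.mem_singleton_iff, Set.mem_ofPred_eq] at hB
      rcases memcase B hmem with h | h | ⟨X, h, hX⟩ | h | ⟨X, h, hX⟩
      · subst h
        rcases hB with (((h | h | h) | ⟨X, h⟩) | ⟨ρ', h⟩) | ⟨Y, _, h⟩
        all_goals first | (simp at h; done) | skip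
        split_ifs at h
      · subst h
        rcases hB with (((h | h | h) | ⟨X, h⟩) | ⟨ρ', h⟩) | ⟨Y, _, h⟩
        all_goals first | (simp at h; done) | skip
        split_ifs at h
      · subst h
        rcases hB with (((h | h | h) | ⟨X', h⟩) | ⟨ρ', h⟩) | ⟨Y, hY, h⟩
        all_goals first | (simp at h; done) | skip
        rcases hc with ⟨hs, _, hW⟩ | ⟨hs, _, hW⟩
        · simp [hs] at h
          subst h
          exact hW _ hY hX
        · simp [hs] at h
      · subst h
        rcases hB with (((h | h | h) | ⟨X', h⟩) | ⟨ρ', h⟩) | ⟨Y, hY, h⟩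
        all_goals first | (simp at h; done) | skip
        split_ifs at h
      · subst h
        rcases hB with (((h | h | h) | ⟨X', h⟩) | ⟨ρ', h⟩) | ⟨Y, hY, h⟩
        all_goals first | (simp at h; done) | skip
        rcases hc with ⟨hs, _, hW⟩ | ⟨hs, _, hW⟩
        · simp [hs] at h
        · simp [hs] at h
          subst h
          exact hW _ hY hX)
    simpa [hl, hr, List.replicate_succ] using this
  -- 7: clock token vanishes
  have s7 : HStep g S (([ν T K1] ++ Ks a ++ u.map lm ++ [ν T (c ρ)]) ++ v.map rm ++ [ν T C1] ++ Cs a)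
      (Ks a ++ u.map lm ++ [ν T (c ρ)] ++ v.map rm ++ [ν T C1] ++ Cs a) := by
    have := HStep.mk' g S r4 [] (Ks a ++ u.map lm ++ [ν T (c ρ)] ++ v.map rm ++ [ν T C1] ++ Cs a) (by
      intro B hB; exact hB.elim) (by
      intro B hB hmem
      simp at hmem)
    simpa [hl, hr] using this
  have hnK1 : ν T K1 ∉ (Ks a : List (Symbol T (NH N R))) := by
    intro h; have := hK' _ h; simp at this
  -- 8: decode left part
  have s8 := decode_l g S u (Ks a) ([ν T (c ρ)] ++ v.map rm ++ [ν T C1] ++ Cs a) hnK1
  -- 9: replace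
  have hn2 : ν T K1 ∉ (Ks a ++ u.map pm : List (Symbol T (NH N R))) := by
    intro h
    rcases List.mem_append.mp h with h | h
    · exact hnK1 h
    · obtain ⟨X, hX, _⟩ := pm_mem h; simp at hX
  have s9 : HStep g S (Ks a ++ u.map pm ++ ([ν T (c ρ)] ++ v.map rm ++ [ν T C1] ++ Cs a))
      (Ks a ++ u.map pm ++ (g.rhs ρ).map pm ++ v.map rm ++ ([ν T C1] ++ Cs a)) := by
    have := HStep.mk' g S (r9 ρ) (Ks a ++ u.map pm) (v.map rm ++ [ν T C1] ++ Cs a) (by
      intro B hB; exact hB.elim) (by
      intro B hB
      simp only [hf, Set.mem_singleton_iff] at hB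
      rw [hB]; exact hn2)
    simpa [hl, hr] using this
  -- 10: decode right part
  have hn3 : ν T K1 ∉ (Ks a ++ u.map pm ++ (g.rhs ρ).map pm : List (Symbol T (NH N R))) := by
    intro h
    rcases List.mem_append.mp h with h | h
    · exact hn2 h
    · obtain ⟨X, hX, _⟩ := pm_mem h; simp at hX
  have s10 := decode_r g S v (Ks a ++ u.map pm ++ (g.rhs ρ).map pm) ([ν T C1] ++ Cs a) hn3
  -- 11: finish
  have s11 : HStep g S (Ks a ++ u.map pm ++ (g.rhs ρ).map pm ++ v.map pm ++ ([ν T C1] ++ Cs a))
      (Ks a ++ (u ++ g.rhs ρ ++ v).map pm ++ Cs a) := by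
    have := HStep.mk' g S r12 (Ks a ++ u.map pm ++ (g.rhs ρ).map pm ++ v.map pm) (Cs a) (by
      intro B hB; exact hB.elim) (by
      intro B hB hmem
      have hcase : B = K ∨ ∃ X, B = p X := by
        rcases List.mem_append.mp hmem with h | h
        · rcases List.mem_append.mp h with h | h
          · rcases List.mem_append.mp h with h | h
            · left; exact hK' _ h
            · right; obtain ⟨X, hX, _⟩ := pm_mem h; exact ⟨X, hX⟩
          · right; obtain ⟨X, hX, _⟩ := pm_mem h; exact ⟨X, hX⟩
        · right; obtain ⟨X, hX, _⟩ := pm_mem h; exact ⟨X, hX⟩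
      simp only [hf, Set.mem_union, Set.mem_insert_iff, Set.mem_singleton_iff, Set.mem_ofPred_eq] at hB
      rcases hcase with rfl | ⟨X, rfl⟩
      · rcases hB with (((h | h | h | h) | ⟨X, h⟩) | ⟨X, h⟩) | ⟨ρ', h⟩ <;> simp at h
      · rcases hB with (((h | h | h | h) | ⟨X, h⟩) | ⟨X, h⟩) | ⟨ρ', h⟩ <;> simp at h)
    simpa [hl, hr] using this
  refine ReflTransGen.head s1 (ReflTransGen.head s2 ?_)
  refine ReflTransGen.trans (b := ([ν T K1] ++ Ks a) ++ u.map lm ++ ([ν T (m ρ)] ++ v.map pm ++ Cs (a + 1))) ?_ ?_
  · simpa using s3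
  refine ReflTransGen.head s4 (ReflTransGen.trans s5 (ReflTransGen.head s6 (ReflTransGen.head s7 ?_)))
  refine ReflTransGen.trans (b := Ks a ++ u.map pm ++ ([ν T (c ρ)] ++ v.map rm ++ [ν T C1] ++ Cs a)) ?_ ?_
  · simpa using s8
  exact ReflTransGen.head s9 (ReflTransGen.trans s10 (ReflTransGen.single s11))

lemma simulate (w : List T) {α : List (Symbol T N)}
    (h : ReflTransGen g.Step α (w.map Symbol.terminal)) :
    ∃ n, ReflTransGen (HStep g S) (Ks n ++ α.map pm ++ Cs n) (w.map Symbol.terminal) := by
  induction h using ReflTransGen.head_induction_on with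
  | refl =>
    refine ⟨0, ?_⟩
    have : (w.map Symbol.terminal : List (Symbol T N)).map (pm (R := R)) = w.map Symbol.terminal := by
      simp [pm]
    rw [this]
    simpa using ReflTransGen.refl
  | head h _ ih =>
    obtain ⟨n, hn⟩ := ih
    exact ⟨n + 1, (simulate_step g S h n).trans hn⟩

lemma start_derives (n : ℕ) :
    ReflTransGen (HStep g S) [ν T Sh] (Ks n ++ [ν T Sh] ++ Cs n) := by
  induction n with
  | zero => simpa using ReflTransGen.refl
  | succ n ih =>
    refine ih.tail ?_
    have := HStep.mk' g S r1 (Ks n) (Cs n) (by intro B hB; exact hB.elim) (by intro B hB; exact hB.elim)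
    have e1 : Ks n ++ hr g S r1 ++ Cs n = Ks (n + 1) ++ [ν T Sh] ++ Cs (n + 1) := by
      simp only [hr, Ks, Cs]
      rw [List.replicate_succ', List.replicate_succ]
      simp
    rw [e1] at this
    exact this

theorem complete (w : List T)
    (h : ReflTransGen g.Step [Symbol.nonterminal S] (w.map Symbol.terminal)) :
    ReflTransGen (HStep g S) [ν T Sh] (w.map Symbol.terminal) := by
  obtain ⟨n, hn⟩ := simulate g S w h
  refine (start_derives g S n).trans (ReflTransGen.head ?_ hn)
  have := HStep.mk' g S r2 (Ks n) (Cs n) (by intro B hB; exact hB.elim) (by intro B hB; exact hB.elim)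
  simpa [hl, hr, pm] using this


/-! ### Soundness -/

def isData : Symbol T (NH N R) → Prop
  | .terminal _ => True
  | .nonterminal (p _) => True
  | .nonterminal (l _) => True
  | .nonterminal (r _) => True
  | .nonterminal (m _) => True
  | .nonterminal (c _) => True
  | _ => False

def isA : Symbol T (NH N R) → Prop
  | .terminal _ => True
  | .nonterminal (p _) => True
  | .nonterminal (m _) => True
  | _ => False

/-- erase decorations; confirmed marks are mapped by `f` -/
def er (f : R → List (Symbol T N)) : Symbol T (NH N R) → List (Symbol T N)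
  | .terminal t => [.terminal t]
  | .nonterminal (p X) => [.nonterminal X]
  | .nonterminal (l X) => [.nonterminal X]
  | .nonterminal (r X) => [.nonterminal X]
  | .nonterminal (m ρ) => [.nonterminal (g.lhs ρ)]
  | .nonterminal (c ρ) => f ρ
  | _ => []

/-- the `G`-form represented before the rewriting -/
def gb (d : List (Symbol T (NH N R))) : List (Symbol T N) :=
  d.flatMap (er g (fun ρ => [.nonterminal (g.lhs ρ)]))

/-- the `G`-form represented after the rewriting -/
def gd (d : List (Symbol T (NH N R))) : List (Symbol T N) :=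
  d.flatMap (er g g.rhs)

def hasMark (d : List (Symbol T (NH N R))) : Prop := ∃ x, isMark x ∧ ν T x ∈ d

/-- condition of a symbol in the marking phase, given what is on its left -/
def BC (d : List (Symbol T (NH N R))) : NH N R → Prop
  | l _ => ¬ hasMark d
  | r _ => hasMark d
  | c _ => ¬ hasMark d
  | _ => True

def kp (b : Bool) (a : ℕ) : List (Symbol T (NH N R)) := (if b then [ν T K1] else []) ++ Ks a
def cp (b : Bool) (a : ℕ) : List (Symbol T (NH N R)) := (if b then [ν T C1] else []) ++ Cs a

/-- derivable in `G` -/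
abbrev Der (α : List (Symbol T N)) : Prop := ReflTransGen g.Step [Symbol.nonterminal S] α

def AData (d : List (Symbol T (NH N R))) : Prop :=
  d = [ν T Sh] ∨ ((∀ s ∈ d, isA s) ∧ Der g S (gb g d))

def BData (d : List (Symbol T (NH N R))) : Prop :=
  d = [ν T Sh] ∨ ((∀ d1 x d2, d = d1 ++ [ν T x] ++ d2 → BC d1 x) ∧ Der g S (gb g d))

def CData (d : List (Symbol T (NH N R))) : Prop :=
  ∃ u ρ v, d = u.map lm ++ [ν T (c ρ)] ++ v.map rm ∧ g.ctx ρ u v ∧
    Der g S (u ++ [Symbol.nonterminal (g.lhs ρ)] ++ v)

def DData (d : List (Symbol T (NH N R))) : Prop := Der g S (gd g d)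

def MidOK (d : List (Symbol T (NH N R))) (cb : Bool) : Prop :=
  (d = [ν T Sh] ∧ cb = false) ∨ ∀ s ∈ d, isData s

def Phase (kb : Bool) (a : ℕ) (cb : Bool) (n : ℕ) (d : List (Symbol T (NH N R))) : Prop :=
  (2 * a + kb.toNat + 2 ≤ 2 * n + cb.toNat) ∨
  (kb = false ∧ cb = false ∧ a = n ∧ AData g S d) ∨
  (kb = true ∧ cb = false ∧ n = a + 1 ∧ BData g S d) ∨
  (kb = true ∧ cb = true ∧ a = n ∧ CData g S d) ∨
  (kb = false ∧ cb = true ∧ a = n ∧ DData g S d)

def Inv (s : List (Symbol T (NH N R))) : Prop :=
  ∃ kb a cb n d, s = kp kb a ++ d ++ cp cb n ∧ MidOK d cb ∧ Phase g S kb a cb n d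

lemma loc {α : Type} {L1 L2 L3 u v : List α} {x : α} (h : L1 ++ L2 ++ L3 = u ++ [x] ++ v)
    (h1 : x ∉ L1) (h3 : x ∉ L3) :
    ∃ m1 m2, L2 = m1 ++ [x] ++ m2 ∧ u = L1 ++ m1 ∧ v = m2 ++ L3 := by
  rw [List.append_assoc, List.append_assoc] at h
  rcases List.append_eq_append_iff.mp h with ⟨a', hu, h2⟩ | ⟨c', hL, h2⟩
  · rcases List.append_eq_append_iff.mp h2 with ⟨b', hb, h4⟩ | ⟨b', hb, h4⟩
    · exfalso
      apply h3
      rw [h4]; simp
    · cases b' with
      | nil =>
        exfalso
        apply h3
        simp at h4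
        rw [← h4]; simp
      | cons y b' =>
        simp only [List.cons_append, List.nil_append, List.cons.injEq] at h4
        obtain ⟨rfl, hv⟩ := h4
        exact ⟨a', b', by rw [hb]; simp, hu, hv⟩
  · cases c' with
    | nil =>
      simp at h2 hL
      -- x :: v = L2 ++ L3
      cases L2 with
      | nil =>
        exfalso
        apply h3
        simp at h2
        rw [← h2]; simp
      | cons y L2 =>
        simp only [List.cons_append, List.cons.injEq] at h2
        obtain ⟨rfl, hv⟩ := h2
        exact ⟨[], L2, by simp, by simp [hL], hv⟩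
    | cons y c' =>
      exfalso
      simp only [List.cons_append, List.nil_append, List.cons.injEq] at h2
      apply h1
      rw [hL, h2.1]; simp

lemma mem_kp {b : Bool} {a : ℕ} {A : NH N R} (h : ν T A ∈ (kp b a : List (Symbol T (NH N R)))) :
    (A = K1 ∧ b = true) ∨ (A = K ∧ 1 ≤ a) := by
  unfold kp at h
  rcases List.mem_append.mp h with h | h
  · cases b
    · simp at h
    · left
      simp at h
      exact ⟨h, rfl⟩
  · right
    have h1 := List.eq_of_mem_replicate h
    have h2 : a ≠ 0 := by
      rintro rfl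
      simp at h
    exact ⟨by simpa using h1, by omega⟩

lemma mem_cp {b : Bool} {a : ℕ} {A : NH N R} (h : ν T A ∈ (cp b a : List (Symbol T (NH N R)))) :
    (A = C1 ∧ b = true) ∨ (A = C ∧ 1 ≤ a) := by
  unfold cp at h
  rcases List.mem_append.mp h with h | h
  · cases b
    · simp at h
    · left
      simp at h
      exact ⟨h, rfl⟩
  · right
    have h1 := List.eq_of_mem_replicate h
    have h2 : a ≠ 0 := by
      rintro rfl
      simp at h
    exact ⟨by simpa using h1, by omega⟩

lemma loc_data {kb cb : Bool} {a n : ℕ} {d u v : List (Symbol T (NH N R))} {x : NH N R}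
    (h : kp kb a ++ d ++ cp cb n = u ++ [ν T x] ++ v) (hx : isData (ν T x) ∨ x = Sh) :
    ∃ m1 m2, d = m1 ++ [ν T x] ++ m2 ∧ u = kp kb a ++ m1 ∧ v = m2 ++ cp cb n := by
  apply loc h
  · intro hm
    rcases mem_kp hm with ⟨rfl, _⟩ | ⟨rfl, _⟩ <;> simp [isData] at hx
  · intro hm
    rcases mem_cp hm with ⟨rfl, _⟩ | ⟨rfl, _⟩ <;> simp [isData] at hx

lemma midOK_replace {d1 x d2 y} {cb : Bool} (h : MidOK (d1 ++ [ν T x] ++ d2) cb)
    (hx : isData (ν T x)) (hy : ∀ s ∈ y, isData s) :
    MidOK (T := T) (N := N) (R := R) (d1 ++ y ++ d2) cb := by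
  rcases h with ⟨h, _⟩ | h
  · exfalso
    have : ν T x ∈ ([ν T Sh] : List (Symbol T (NH N R))) := by rw [← h]; simp
    simp at this
    subst this
    exact hx
  · right
    intro s hs
    rcases List.mem_append.mp hs with hs | hs
    · rcases List.mem_append.mp hs with hs | hs
      · exact h s (by simp [hs])
      · exact hy s hs
    · exact h s (by simp [hs])

lemma ne_Sh {d1 d2 : List (Symbol T (NH N R))} {x : NH N R} (hx : isData (ν T x)) :
    d1 ++ [ν T x] ++ d2 ≠ [ν T Sh] := by
  intro h
  have : ν T x ∈ ([ν T Sh] : List (Symbol T (NH N R))) := by rw [← h]; simp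
  simp at this
  subst this
  exact hx

lemma not_mem_CData {d : List (Symbol T (NH N R))} (h : CData g S d) {A : NH N R}
    (hA : ν T A ∈ d) : (∃ X, A = l X) ∨ (∃ ρ, A = c ρ) ∨ (∃ X, A = r X) := by
  obtain ⟨u, ρ, v, rfl, _, _⟩ := h
  rcases List.mem_append.mp hA with h | h
  · rcases List.mem_append.mp h with h | h
    · obtain ⟨X, hX, _⟩ := lm_mem h
      exact Or.inl ⟨X, hX⟩
    · simp at h
      exact Or.inr (Or.inl ⟨ρ, h⟩)
  · obtain ⟨X, hX, _⟩ := rm_mem h
    exact Or.inr (Or.inr ⟨X, hX⟩)

/-- If `d = d1 ++ y ++ d2` then any decomposition at a nonterminal falls in one of three parts. -/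
lemma decomp_cases {d1 y d2 e1 e2 : List (Symbol T (NH N R))} {z : Symbol T (NH N R)}
    (h : d1 ++ y ++ d2 = e1 ++ [z] ++ e2) :
    (∃ q, d1 = e1 ++ [z] ++ q) ∨ (∃ q1 q2, y = q1 ++ [z] ++ q2 ∧ e1 = d1 ++ q1) ∨
    (∃ q, e1 = d1 ++ y ++ q ∧ d2 = q ++ [z] ++ e2) := by
  rw [List.append_assoc e1] at h
  rcases List.append_eq_append_iff.mp h with ⟨a', hu, h2⟩ | ⟨c', hL, h2⟩
  · right; right
    exact ⟨a', hu, by rw [h2]; simp⟩
  · -- d1 ++ y = e1 ++ c', [z] ++ e2 = c' ++ d2
    rcases List.append_eq_append_iff.mp hL with ⟨a', hu, h3⟩ | ⟨a', hu, h3⟩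
    · -- e1 = d1 ++ a', y = a' ++ c'
      cases c' with
      | nil =>
        right; right
        refine ⟨[], ?_, ?_⟩
        · rw [hu, h3]; simp
        · simpa using h2.symm
      | cons s c' =>
        right; left
        simp only [List.cons_append, List.nil_append, List.cons.injEq] at h2
        refine ⟨a', c', ?_, hu⟩
        rw [h3, ← h2.1]; simp
    · -- d1 = e1 ++ a', c' = a' ++ y
      cases a' with
      | nil =>
        cases c' with
        | nil =>
          right; right
          refine ⟨[], ?_, ?_⟩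
          · simp at h3 hu
            simp [h3, hu]
          · simpa using h2.symm
        | cons s c' =>
          right; left
          simp only [List.cons_append, List.nil_append, List.cons.injEq] at h2
          refine ⟨[], c', ?_, ?_⟩
          · simp at h3
            rw [← h3, ← h2.1]; simp
          · simpa using hu.symm
      | cons s a' =>
        left
        rw [h3] at h2
        simp only [List.cons_append, List.nil_append, List.cons.injEq] at h2
        exact ⟨a', by rw [hu, ← h2.1]; simp⟩

lemma hasMark_replace {d1 q : List (Symbol T (NH N R))} {x y : NH N R}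
    (hxy : isMark x ↔ isMark y) :
    hasMark (d1 ++ [ν T x] ++ q) ↔ hasMark (d1 ++ [ν T y] ++ q) := by
  unfold hasMark
  constructor
  · rintro ⟨A, hA, hm⟩
    simp only [List.mem_append, List.mem_singleton, Symbol.nonterminal.injEq] at hm
    rcases hm with (hm | hm) | hm
    · exact ⟨A, hA, by simp [hm]⟩
    · subst hm
      exact ⟨y, hxy.mp hA, by simp⟩
    · exact ⟨A, hA, by simp [hm]⟩
  · rintro ⟨A, hA, hm⟩
    simp only [List.mem_append, List.mem_singleton, Symbol.nonterminal.injEq] at hm
    rcases hm with (hm | hm) | hm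
    · exact ⟨A, hA, by simp [hm]⟩
    · subst hm
      exact ⟨x, hxy.mpr hA, by simp⟩
    · exact ⟨A, hA, by simp [hm]⟩

lemma BC_congr {e e' : List (Symbol T (NH N R))} (h : hasMark e ↔ hasMark e') (z : NH N R) :
    BC e z ↔ BC e' z := by
  cases z <;> simp [BC, h]

/-- replacing a nonterminal in `BData` -/
lemma BData_replace {d1 d2 : List (Symbol T (NH N R))} {x y : NH N R}
    (h : BData g S (d1 ++ [ν T x] ++ d2)) (hx : isData (ν T x))
    (hxy : isMark x ↔ isMark y) (hy : BC d1 y)
    (her : er g (fun ρ => [.nonterminal (g.lhs ρ)]) (ν T x) =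
      er g (fun ρ => [.nonterminal (g.lhs ρ)]) (ν T y)) :
    BData g S (d1 ++ [ν T y] ++ d2) := by
  rcases h with h | ⟨h1, h2⟩
  · exact absurd h (ne_Sh hx)
  · right
    refine ⟨?_, ?_⟩
    · intro e1 z e2 he
      rcases decomp_cases he with ⟨q, hq⟩ | ⟨q1, q2, hq, he1⟩ | ⟨q, he1, hq⟩
      · exact h1 e1 z (q ++ [ν T x] ++ d2) (by rw [hq]; simp)
      · have : q1 = [] ∧ z = y := by
          cases q1 with
          | nil =>
            simp at hq
            exact ⟨rfl, hq.1.symm⟩
          | cons a q1 => simp at hq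
        rw [he1, this.1, this.2]
        simpa using hy
      · rw [he1, ← BC_congr (hasMark_replace hxy)]
        exact h1 _ z e2 (by rw [hq]; simp)
    · have : gb g (d1 ++ [ν T y] ++ d2) = gb g (d1 ++ [ν T x] ++ d2) := by
        simp only [gb, List.flatMap_append, List.flatMap_cons, List.flatMap_nil, her]
      rw [this]
      exact h2

lemma gb_pm (u : List (Symbol T N)) : gb g (u.map (pm (R := R))) = u := by
  induction u with
  | nil => rfl
  | cons s u ih =>
    cases s <;> simp [gb, pm, er] at ih ⊢ <;> exact ih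

lemma gd_pm (u : List (Symbol T N)) : gd g (u.map (pm (R := R))) = u := by
  induction u with
  | nil => rfl
  | cons s u ih =>
    cases s <;> simp [gd, pm, er] at ih ⊢ <;> exact ih

lemma gd_lm (u : List (Symbol T N)) : gd g (u.map (lm (R := R))) = u := by
  induction u with
  | nil => rfl
  | cons s u ih =>
    cases s <;> simp [gd, lm, er] at ih ⊢ <;> exact ih

lemma gd_rm (u : List (Symbol T N)) : gd g (u.map (rm (R := R))) = u := by
  induction u with
  | nil => rfl
  | cons s u ih =>
    cases s <;> simp [gd, rm, er] at ih ⊢ <;> exact ih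

lemma gd_append (a b : List (Symbol T (NH N R))) : gd g (a ++ b) = gd g a ++ gd g b := by
  simp [gd]

lemma gb_append (a b : List (Symbol T (NH N R))) : gb g (a ++ b) = gb g a ++ gb g b := by
  simp [gb]

lemma gb_eq_gd {d : List (Symbol T (NH N R))} (h : ∀ s ∈ d, isA s) : gb g d = gd g d := by
  unfold gb gd
  induction d with
  | nil => rfl
  | cons s d ih =>
    simp only [List.flatMap_cons]
    rw [ih (fun s hs => h s (by simp [hs]))]
    congr 1
    have := h s (by simp)
    cases s with
    | terminal t => rfl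
    | nonterminal A => cases A <;> simp [isA] at this <;> rfl

/-- a word of data symbols, all of them terminal or `l`, is a left copy -/
lemma exists_lm {d : List (Symbol T (NH N R))}
    (h : ∀ s ∈ d, (∃ t, s = .terminal t) ∨ ∃ X, s = ν T (l X)) : ∃ u : List (Symbol T N), d = u.map lm := by
  induction d with
  | nil => exact ⟨[], rfl⟩
  | cons s d ih =>
    obtain ⟨u, hu⟩ := ih (fun s hs => h s (by simp [hs]))
    rcases h s (by simp) with ⟨t, rfl⟩ | ⟨X, rfl⟩
    · exact ⟨.terminal t :: u, by simp [lm, hu]⟩
    · exact ⟨.nonterminal X :: u, by simp [lm, hu]⟩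

lemma exists_rm {d : List (Symbol T (NH N R))}
    (h : ∀ s ∈ d, (∃ t, s = .terminal t) ∨ ∃ X, s = ν T (r X)) : ∃ u : List (Symbol T N), d = u.map rm := by
  induction d with
  | nil => exact ⟨[], rfl⟩
  | cons s d ih =>
    obtain ⟨u, hu⟩ := ih (fun s hs => h s (by simp [hs]))
    rcases h s (by simp) with ⟨t, rfl⟩ | ⟨X, rfl⟩
    · exact ⟨.terminal t :: u, by simp [rm, hu]⟩
    · exact ⟨.nonterminal X :: u, by simp [rm, hu]⟩

lemma gb_lm (u : List (Symbol T N)) : gb g (u.map (lm (R := R))) = u := by
  induction u with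
  | nil => rfl
  | cons s u ih =>
    cases s <;> simp [gb, lm, er] at ih ⊢ <;> exact ih

lemma gb_rm (u : List (Symbol T N)) : gb g (u.map (rm (R := R))) = u := by
  induction u with
  | nil => rfl
  | cons s u ih =>
    cases s <;> simp [gb, rm, er] at ih ⊢ <;> exact ih


lemma kp_false (a : ℕ) : (kp false a : List (Symbol T (NH N R))) = Ks a := by simp [kp]
lemma kp_true (a : ℕ) : (kp true a : List (Symbol T (NH N R))) = ν T K1 :: Ks a := by simp [kp]
lemma cp_false (a : ℕ) : (cp false a : List (Symbol T (NH N R))) = Cs a := by simp [cp]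
lemma cp_true (a : ℕ) : (cp true a : List (Symbol T (NH N R))) = ν T C1 :: Cs a := by simp [cp]

lemma mid_no {d : List (Symbol T (NH N R))} {cb : Bool} (h : MidOK d cb) {A : NH N R}
    (hA : ν T A ∈ d) : A ≠ K ∧ A ≠ K1 ∧ A ≠ C ∧ A ≠ C1 := by
  rcases h with ⟨rfl, _⟩ | h
  · simp at hA
    subst hA
    simp
  · have := h _ hA
    refine ⟨?_, ?_, ?_, ?_⟩ <;> (rintro rfl; exact this)

/-- data steps (rules 5 to 10) -/
lemma inv_data {kb cb : Bool} {a n : ℕ} {m1 m2 y : List (Symbol T (NH N R))} {x : NH N R}
    (hx : isData (ν T x)) (hy : ∀ s ∈ y, isData s)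
    (hm : MidOK (m1 ++ [ν T x] ++ m2) cb)
    (hp : Phase g S kb a cb n (m1 ++ [ν T x] ++ m2))
    (hA : kb = false → cb = false → AData g S (m1 ++ [ν T x] ++ m2) → AData g S (m1 ++ y ++ m2))
    (hB : kb = true → cb = false → BData g S (m1 ++ [ν T x] ++ m2) → BData g S (m1 ++ y ++ m2))
    (hC : kb = true → cb = true → CData g S (m1 ++ [ν T x] ++ m2) → CData g S (m1 ++ y ++ m2))
    (hD : kb = false → cb = true → DData g S (m1 ++ [ν T x] ++ m2) → DData g S (m1 ++ y ++ m2)) :
    Inv g S (kp kb a ++ (m1 ++ y ++ m2) ++ cp cb n) := by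
  refine ⟨kb, a, cb, n, m1 ++ y ++ m2, rfl, midOK_replace hm hx hy, ?_⟩
  rcases hp with h | ⟨h1, h2, h3, h4⟩ | ⟨h1, h2, h3, h4⟩ | ⟨h1, h2, h3, h4⟩ | ⟨h1, h2, h3, h4⟩
  · exact Or.inl h
  · exact Or.inr (Or.inl ⟨h1, h2, h3, hA h1 h2 h4⟩)
  · exact Or.inr (Or.inr (Or.inl ⟨h1, h2, h3, hB h1 h2 h4⟩))
  · exact Or.inr (Or.inr (Or.inr (Or.inl ⟨h1, h2, h3, hC h1 h2 h4⟩)))
  · exact Or.inr (Or.inr (Or.inr (Or.inr ⟨h1, h2, h3, hD h1 h2 h4⟩)))

lemma kb_of_mem {kb cb : Bool} {a : ℕ} {d m1 m2 : List (Symbol T (NH N R))}
    (hm : MidOK (m1 ++ m2) cb) (h : ν T K1 ∈ kp kb a ++ m1) : kb = true := by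
  rcases List.mem_append.mp h with h | h
  · rcases mem_kp h with ⟨_, h⟩ | ⟨h, _⟩
    · exact h
    · simp at h
  · exact absurd rfl (mid_no hm (A := K1) (by simp [h])).2.1

lemma kb_of_not_mem {kb : Bool} {a : ℕ} {m1 : List (Symbol T (NH N R))}
    (h : ν T K1 ∉ kp kb a ++ m1) : kb = false := by
  cases kb
  · rfl
  · exfalso; apply h; simp [kp]

lemma AData_isA {d : List (Symbol T (NH N R))} (h : AData g S d) {x : NH N R}
    (hx : ν T x ∈ d) (hs : x ≠ Sh) : isA (ν T x) ∧ (∀ s ∈ d, isA s) ∧ Der g S (gb g d) := by
  rcases h with h | ⟨h1, h2⟩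
  · rw [h] at hx
    simp at hx
    exact absurd hx hs
  · exact ⟨h1 _ hx, h1, h2⟩

lemma CData_case {d : List (Symbol T (NH N R))} (h : CData g S d) {x : NH N R}
    (hx : ν T x ∈ d) (h1 : ∀ X, x ≠ l X) (h2 : ∀ X, x ≠ r X) (h3 : ∀ ρ, x ≠ c ρ) : False := by
  rcases not_mem_CData g S h hx with ⟨X, h⟩ | ⟨ρ, h⟩ | ⟨X, h⟩
  · exact h1 _ h
  · exact h3 _ h
  · exact h2 _ h

theorem inv_step {s s' : List (Symbol T (NH N R))} (hI : Inv g S s) (hst : HStep g S s s') :
    Inv g S s' := by
  obtain ⟨kb, a, cb, n, d, rfl, hm, hph⟩ := hI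
  obtain ⟨i, u, v, hs, rfl, hP, hF⟩ := hst
  cases i with
  | r1 =>
    obtain ⟨m1, m2, rfl, rfl, rfl⟩ := loc_data hs (Or.inr rfl)
    have hd : m1 ++ [ν T Sh] ++ m2 = [ν T Sh] ∧ cb = false := by
      rcases hm with h | h
      · exact h
      · exact absurd (h (ν T Sh) (by simp [hl])) (by simp [isData])
    have hm12 : m1 = [] ∧ m2 = [] := by
      have := congrArg List.length hd.1
      simp at this
      exact ⟨List.length_eq_zero_iff.mp (by omega), List.length_eq_zero_iff.mp (by omega)⟩
    obtain ⟨rfl, rfl⟩ := hm12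
    obtain ⟨_, rfl⟩ := hd
    refine ⟨kb, a + 1, false, n + 1, [ν T Sh], ?_, Or.inl ⟨rfl, rfl⟩, ?_⟩
    · simp only [hr, kp, cp, Ks, Cs]
      rw [List.replicate_succ' (n := a), List.replicate_succ (n := n)]
      simp
    · rcases hph with h | ⟨h1, h2, h3, h4⟩ | ⟨h1, h2, h3, h4⟩ | ⟨h1, h2, h3, h4⟩ | ⟨h1, h2, h3, h4⟩
      · left; omega
      · exact Or.inr (Or.inl ⟨h1, h2, by omega, Or.inl rfl⟩)
      · exact Or.inr (Or.inr (Or.inl ⟨h1, h2, by omega, Or.inl rfl⟩))
      · simp at h2
      · simp at h2
  | r2 =>
    obtain ⟨m1, m2, rfl, rfl, rfl⟩ := loc_data hs (Or.inr rfl)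
    have hd : m1 ++ [ν T Sh] ++ m2 = [ν T Sh] ∧ cb = false := by
      rcases hm with h | h
      · exact h
      · exact absurd (h (ν T Sh) (by simp [hl])) (by simp [isData])
    have hm12 : m1 = [] ∧ m2 = [] := by
      have := congrArg List.length hd.1
      simp at this
      exact ⟨List.length_eq_zero_iff.mp (by omega), List.length_eq_zero_iff.mp (by omega)⟩
    obtain ⟨rfl, rfl⟩ := hm12
    obtain ⟨_, rfl⟩ := hd
    refine ⟨kb, a, false, n, [ν T (p S)], by simp [hr], ?_, ?_⟩
    · right
      intro s hs
      simp at hs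
      subst hs
      trivial
    · have hDer : Der g S (gb g [ν T (p S)]) := by
        have : gb g [ν T (p S)] = ([Symbol.nonterminal S] : List (Symbol T N)) := rfl
        rw [this]
      rcases hph with h | ⟨h1, h2, h3, h4⟩ | ⟨h1, h2, h3, h4⟩ | ⟨h1, h2, h3, h4⟩ | ⟨h1, h2, h3, h4⟩
      · left; exact h
      · refine Or.inr (Or.inl ⟨h1, h2, h3, Or.inr ⟨?_, hDer⟩⟩)
        intro s hs
        simp at hs
        subst hs
        trivial
      · refine Or.inr (Or.inr (Or.inl ⟨h1, h2, h3, Or.inr ⟨?_, hDer⟩⟩))
        intro d1 x d2 he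
        have : x = p S := by
          have : ν T x ∈ [ν T (p S)] := by rw [he]; simp
          simpa using this
        rw [this]
        trivial
      · simp at h2
      · simp at h2
  | r3 =>
    have hu : u = [] ∧ kb = false ∧ ∃ a', a = a' + 1 ∧ v = Ks a' ++ d ++ cp cb n := by
      have hKu : ν T K ∉ u := hF K (by simp [hf])
      have hK1u : ν T K1 ∉ u := hF K1 (by simp [hf])
      cases kb with
      | true =>
        exfalso
        cases u with
        | nil => simp [kp, hl] at hs
        | cons y u =>
          simp [kp, hl] at hs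
          apply hK1u
          rw [← hs.1]; simp
      | false =>
        cases a with
        | zero =>
          exfalso
          have hmem : ν T K ∈ (kp false 0 ++ d ++ cp cb n : List (Symbol T (NH N R))) := by
            rw [hs]; simp [hl]
          simp only [kp_false, Ks, List.replicate_zero, List.nil_append, List.mem_append] at hmem
          rcases hmem with h | h
          · exact (mid_no hm h).1 rfl
          · rcases mem_cp h with ⟨h, _⟩ | ⟨h, _⟩ <;> simp at h
        | succ a' =>
          cases u with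
          | nil =>
            refine ⟨rfl, rfl, a', rfl, ?_⟩
            simp only [kp_false, Ks, List.replicate_succ, hl, List.cons_append, List.nil_append,
              List.cons.injEq, true_and] at hs
            rw [← hs]
          | cons y u =>
            exfalso
            simp only [kp_false, Ks, List.replicate_succ, hl, List.cons_append,
              List.cons.injEq] at hs
            apply hKu
            rw [← hs.1]; simp
    obtain ⟨rfl, rfl, a', rfl, rfl⟩ := hu
    refine ⟨true, a', cb, n, d, by simp [hr, kp_true], hm, ?_⟩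
    rcases hph with h | ⟨h1, h2, h3, h4⟩ | ⟨h1, h2, h3, h4⟩ | ⟨h1, h2, h3, h4⟩ | ⟨h1, h2, h3, h4⟩
    · left
      simp at h ⊢
      omega
    · refine Or.inr (Or.inr (Or.inl ⟨rfl, h2, by omega, ?_⟩))
      rcases h4 with h4 | ⟨h4, h5⟩
      · exact Or.inl h4
      · right
        refine ⟨?_, h5⟩
        intro d1 x d2 he
        have := h4 (ν T x) (by rw [he]; simp)
        cases x <;> simp [isA] at this <;> trivial
    · simp at h1
    · simp at h1
    · left
      subst h2
      simp
      omega
  | r4 =>
    have hu : u = [] ∧ kb = true ∧ v = Ks a ++ d ++ cp cb n := by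
      have hmem : ν T K1 ∈ (kp kb a ++ d ++ cp cb n : List (Symbol T (NH N R))) := by
        rw [hs]; simp [hl]
      have hkb : kb = true := by
        rcases List.mem_append.mp hmem with h | h
        · rcases List.mem_append.mp h with h | h
          · rcases mem_kp h with ⟨_, h⟩ | ⟨h, _⟩
            · exact h
            · simp at h
          · exact absurd rfl (mid_no hm h).2.1
        · rcases mem_cp h with ⟨h, _⟩ | ⟨h, _⟩ <;> simp at h
      subst hkb
      cases u with
      | nil =>
        refine ⟨rfl, rfl, ?_⟩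
        simp only [kp_true, hl, List.cons_append, List.nil_append,
          List.cons.injEq, true_and] at hs
        rw [← hs]
      | cons y u =>
        exfalso
        simp only [kp_true, hl, List.cons_append, List.cons.injEq] at hs
        have hmem2 : ν T K1 ∈ (Ks a ++ d ++ cp cb n : List (Symbol T (NH N R))) := by
          rw [hs.2]; simp
        rcases List.mem_append.mp hmem2 with h | h
        · rcases List.mem_append.mp h with h | h
          · have := List.eq_of_mem_replicate h
            simp at this
          · exact absurd rfl (mid_no hm h).2.1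
        · rcases mem_cp h with ⟨h, _⟩ | ⟨h, _⟩ <;> simp at h
    obtain ⟨rfl, rfl, rfl⟩ := hu
    refine ⟨false, a, cb, n, d, by simp [hr, kp_false], hm, ?_⟩
    rcases hph with h | ⟨h1, h2, h3, h4⟩ | ⟨h1, h2, h3, h4⟩ | ⟨h1, h2, h3, h4⟩ | ⟨h1, h2, h3, h4⟩
    · left
      simp at h ⊢
      omega
    · simp at h1
    · left
      subst h2
      simp
      omega
    · refine Or.inr (Or.inr (Or.inr (Or.inr ⟨rfl, h2, h3, ?_⟩)))
      obtain ⟨u, ρ, v, rfl, hc, hD⟩ := h4
      have hstep : g.Step (u ++ [Symbol.nonterminal (g.lhs ρ)] ++ v) (u ++ g.rhs ρ ++ v) :=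
        ⟨ρ, u, v, rfl, rfl, hc⟩
      have := hD.tail hstep
      unfold DData
      rw [gd_append, gd_append, gd_lm, gd_rm]
      have e : gd g ([ν T (c ρ)] : List (Symbol T (NH N R))) = g.rhs ρ := by
        simp [gd, er]
      rw [e]
      exact this
    · simp at h1
  | r5 ρ =>
    obtain ⟨m1, m2, rfl, rfl, rfl⟩ := loc_data hs (Or.inl trivial)
    have hkb : kb = false := kb_of_not_mem (hF K1 (by simp [hf]))
    subst hkb
    have e1 : kp false a ++ m1 ++ hr g S (r5 ρ) ++ (m2 ++ cp cb n) =
      kp false a ++ (m1 ++ [ν T (m ρ)] ++ m2) ++ cp cb n := by simp [hr]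
    rw [e1]
    apply inv_data g S (x := hl g (r5 ρ)) trivial (by
      intro s hs; simp at hs; subst hs; trivial) hm hph
    · intro _ _ h
      obtain ⟨_, h1, h2⟩ := AData_isA g S h (x := hl g (r5 ρ)) (by simp) (by simp [hl])
      right
      refine ⟨?_, ?_⟩
      · intro s hs
        simp only [List.mem_append, List.mem_singleton] at hs
        rcases hs with (hs | hs) | hs
        · exact h1 s (by simp [hs])
        · subst hs; trivial
        · exact h1 s (by simp [hs])
      · have : gb g (m1 ++ [ν T (m ρ)] ++ m2) = gb g (m1 ++ [ν T (hl g (r5 ρ))] ++ m2) := by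
          simp [gb, er, hl]
        rw [this]; exact h2
    · intro h; simp at h
    · intro h; simp at h
    · intro _ _ h
      unfold DData at *
      have : gd g (m1 ++ [ν T (m ρ)] ++ m2) = gd g (m1 ++ [ν T (hl g (r5 ρ))] ++ m2) := by
        simp [gd, er, hl]
      rw [this]; exact h
  | r6 ρ =>
    obtain ⟨m1, m2, rfl, rfl, rfl⟩ := loc_data hs (Or.inl trivial)
    have hkb : kb = true := kb_of_mem (d := []) (by rw [List.append_assoc] at hm; exact hm)
      (hP K1 (by simp [hp]))
    subst hkb
    have e1 : kp true a ++ m1 ++ hr g S (r6 ρ) ++ (m2 ++ cp cb n) =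
      kp true a ++ (m1 ++ [ν T (c ρ)] ++ m2) ++ cp cb n := by simp [hr]
    rw [e1]
    have hnm : ¬ hasMark m1 := by
      rintro ⟨x, hx, hmem⟩
      exact hF x hx (by simp [hmem])
    apply inv_data g S (x := hl g (r6 ρ)) trivial (by
      intro s hs; simp at hs; subst hs; trivial) hm hph
    · intro h; simp at h
    · intro _ _ h
      exact BData_replace g S h trivial (by simp [hl, isMark]) hnm (by simp [er, hl])
    · intro _ _ h
      exact (CData_case g S h (x := hl g (r6 ρ)) (by simp) (by simp [hl]) (by simp [hl]) (by simp [hl])).elim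
    · intro h; simp at h
  | r7 X =>
    obtain ⟨m1, m2, rfl, rfl, rfl⟩ := loc_data hs (Or.inl trivial)
    have hkb : kb = true := kb_of_mem (d := []) (by rw [List.append_assoc] at hm; exact hm)
      (hP K1 (by simp [hp]))
    subst hkb
    have e1 : kp true a ++ m1 ++ hr g S (r7 X) ++ (m2 ++ cp cb n) =
      kp true a ++ (m1 ++ [ν T (l X)] ++ m2) ++ cp cb n := by simp [hr]
    rw [e1]
    have hnm : ¬ hasMark m1 := by
      rintro ⟨x, hx, hmem⟩
      exact hF x hx (by simp [hmem])
    apply inv_data g S (x := hl g (r7 X)) trivial (by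
      intro s hs; simp at hs; subst hs; trivial) hm hph
    · intro h; simp at h
    · intro _ _ h
      exact BData_replace g S h trivial (by simp [hl, isMark]) hnm (by simp [er, hl])
    · intro _ _ h
      exact (CData_case g S h (x := hl g (r7 X)) (by simp) (by simp [hl]) (by simp [hl]) (by simp [hl])).elim
    · intro h; simp at h
  | r8m X ρ =>
    obtain ⟨m1, m2, rfl, rfl, rfl⟩ := loc_data hs (Or.inl trivial)
    have hkb : kb = true := kb_of_mem (d := []) (by rw [List.append_assoc] at hm; exact hm)
      (hP K1 (by simp [hp]))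
    subst hkb
    have e1 : kp true a ++ m1 ++ hr g S (r8m X ρ) ++ (m2 ++ cp cb n) =
      kp true a ++ (m1 ++ [ν T (r X)] ++ m2) ++ cp cb n := by simp [hr]
    rw [e1]
    have hnm : hasMark m1 := by
      refine ⟨m ρ, trivial, ?_⟩
      have := hP (m ρ) (by simp [hp])
      rcases List.mem_append.mp this with h | h
      · rcases mem_kp h with ⟨h, _⟩ | ⟨h, _⟩ <;> simp at h
      · exact h
    apply inv_data g S (x := hl g (r8m X ρ)) trivial (by
      intro s hs; simp at hs; subst hs; trivial) hm hph
    · intro h; simp at h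
    · intro _ _ h
      exact BData_replace g S h trivial (by simp [hl, isMark]) hnm (by simp [er, hl])
    · intro _ _ h
      exact (CData_case g S h (x := hl g (r8m X ρ)) (by simp) (by simp [hl]) (by simp [hl]) (by simp [hl])).elim
    · intro h; simp at h
  | r8c X ρ =>
    obtain ⟨m1, m2, rfl, rfl, rfl⟩ := loc_data hs (Or.inl trivial)
    have hkb : kb = true := kb_of_mem (d := []) (by rw [List.append_assoc] at hm; exact hm)
      (hP K1 (by simp [hp]))
    subst hkb
    have e1 : kp true a ++ m1 ++ hr g S (r8c X ρ) ++ (m2 ++ cp cb n) =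
      kp true a ++ (m1 ++ [ν T (r X)] ++ m2) ++ cp cb n := by simp [hr]
    rw [e1]
    have hnm : hasMark m1 := by
      refine ⟨c ρ, trivial, ?_⟩
      have := hP (c ρ) (by simp [hp])
      rcases List.mem_append.mp this with h | h
      · rcases mem_kp h with ⟨h, _⟩ | ⟨h, _⟩ <;> simp at h
      · exact h
    apply inv_data g S (x := hl g (r8c X ρ)) trivial (by
      intro s hs; simp at hs; subst hs; trivial) hm hph
    · intro h; simp at h
    · intro _ _ h
      exact BData_replace g S h trivial (by simp [hl, isMark]) hnm (by simp [er, hl])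
    · intro _ _ h
      exact (CData_case g S h (x := hl g (r8c X ρ)) (by simp) (by simp [hl]) (by simp [hl]) (by simp [hl])).elim
    · intro h; simp at h
  | r9 ρ =>
    obtain ⟨m1, m2, rfl, rfl, rfl⟩ := loc_data hs (Or.inl trivial)
    have hkb : kb = false := kb_of_not_mem (hF K1 (by simp [hf]))
    subst hkb
    have e1 : kp false a ++ m1 ++ hr g S (r9 ρ) ++ (m2 ++ cp cb n) =
      kp false a ++ (m1 ++ (g.rhs ρ).map pm ++ m2) ++ cp cb n := by simp [hr]
    rw [e1]
    apply inv_data g S (x := hl g (r9 ρ)) trivial (by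
      intro s hs
      obtain ⟨z, _, rfl⟩ := List.mem_map.mp hs
      cases z <;> trivial) hm hph
    · intro _ _ h
      obtain ⟨h1, _⟩ := AData_isA g S h (x := hl g (r9 ρ)) (by simp) (by simp [hl])
      exact h1.elim
    · intro h; simp at h
    · intro h; simp at h
    · intro _ _ h
      unfold DData at *
      have : gd g (m1 ++ (g.rhs ρ).map pm ++ m2) = gd g (m1 ++ [ν T (hl g (r9 ρ))] ++ m2) := by
        rw [gd_append, gd_append, gd_pm, gd_append, gd_append]
        simp [gd, er, hl]
      rw [this]; exact h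
  | r10l X =>
    obtain ⟨m1, m2, rfl, rfl, rfl⟩ := loc_data hs (Or.inl trivial)
    have hkb : kb = false := kb_of_not_mem (hF K1 (by simp [hf]))
    subst hkb
    have e1 : kp false a ++ m1 ++ hr g S (r10l X) ++ (m2 ++ cp cb n) =
      kp false a ++ (m1 ++ [ν T (p X)] ++ m2) ++ cp cb n := by simp [hr]
    rw [e1]
    apply inv_data g S (x := hl g (r10l X)) trivial (by
      intro s hs; simp at hs; subst hs; trivial) hm hph
    · intro _ _ h
      obtain ⟨h1, _⟩ := AData_isA g S h (x := hl g (r10l X)) (by simp) (by simp [hl])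
      exact h1.elim
    · intro h; simp at h
    · intro h; simp at h
    · intro _ _ h
      unfold DData at *
      have : gd g (m1 ++ [ν T (p X)] ++ m2) = gd g (m1 ++ [ν T (hl g (r10l X))] ++ m2) := by
        simp [gd, er, hl]
      rw [this]; exact h
  | r10r X =>
    obtain ⟨m1, m2, rfl, rfl, rfl⟩ := loc_data hs (Or.inl trivial)
    have hkb : kb = false := kb_of_not_mem (hF K1 (by simp [hf]))
    subst hkb
    have e1 : kp false a ++ m1 ++ hr g S (r10r X) ++ (m2 ++ cp cb n) =
      kp false a ++ (m1 ++ [ν T (p X)] ++ m2) ++ cp cb n := by simp [hr]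
    rw [e1]
    apply inv_data g S (x := hl g (r10r X)) trivial (by
      intro s hs; simp at hs; subst hs; trivial) hm hph
    · intro _ _ h
      obtain ⟨h1, _⟩ := AData_isA g S h (x := hl g (r10r X)) (by simp) (by simp [hl])
      exact h1.elim
    · intro h; simp at h
    · intro h; simp at h
    · intro _ _ h
      unfold DData at *
      have : gd g (m1 ++ [ν T (p X)] ++ m2) = gd g (m1 ++ [ν T (hl g (r10r X))] ++ m2) := by
        simp [gd, er, hl]
      rw [this]; exact h
  | r11 ρ =>
    have hu : u = kp kb a ++ d ∧ cb = false ∧ ∃ n', n = n' + 1 ∧ v = Cs n' := by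
      have hCu : ν T C ∉ u := hF C (by simp [hf])
      have hC1u : ν T C1 ∉ u := hF C1 (by simp [hf])
      have hs' : (kp kb a ++ d) ++ cp cb n ++ [] = u ++ [ν T C] ++ v := by
        rw [List.append_nil]; exact hs
      obtain ⟨m1, m2, h1, h2, h3⟩ := loc hs' (by
        intro h
        rcases List.mem_append.mp h with h | h
        · rcases mem_kp h with ⟨h, _⟩ | ⟨h, _⟩ <;> simp at h
        · exact absurd rfl (mid_no hm h).2.2.1) (by simp)
      have hm1 : m1 = [] := by
        cases m1 with
        | nil => rfl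
        | cons y m1 =>
          exfalso
          have hy : y ∈ (cp cb n : List (Symbol T (NH N R))) := by rw [h1]; simp
          have hyu : y ∈ u := by rw [h2]; simp
          unfold cp at hy
          rcases List.mem_append.mp hy with h | h
          · cases cb
            · simp at h
            · simp at h
              rw [h] at hyu
              exact hC1u hyu
          · have := List.eq_of_mem_replicate h
            rw [this] at hyu
            exact hCu hyu
      subst hm1
      cases cb with
      | true => simp [cp] at h1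
      | false =>
        cases n with
        | zero => simp [cp] at h1
        | succ n' =>
          refine ⟨by simpa using h2, rfl, n', rfl, ?_⟩
          simp only [cp_false, Cs, List.replicate_succ, List.nil_append, List.cons_append,
            List.cons.injEq, true_and] at h1
          rw [h3, List.append_nil, ← h1]
    obtain ⟨rfl, rfl, n', rfl, rfl⟩ := hu
    have hkb : kb = true := kb_of_mem (d := []) (m1 := d) (m2 := []) (cb := false)
      (by simpa using hm) (hP K1 (by simp [hp]))
    subst hkb
    have hnSh : d ≠ [ν T Sh] := by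
      rintro rfl
      exact hF Sh (by simp [hf]) (by simp)
    have hdata : ∀ s ∈ d, isData s := by
      rcases hm with ⟨h, _⟩ | h
      · exact absurd h hnSh
      · exact h
    refine ⟨true, a, true, n', d, by simp [hr, cp_true], Or.inr hdata, ?_⟩
    rcases hph with h | ⟨h1, h2, h3, h4⟩ | ⟨h1, h2, h3, h4⟩ | ⟨h1, h2, h3, h4⟩ | ⟨h1, h2, h3, h4⟩
    · left
      simp at h ⊢
      omega
    · simp at h1
    · refine Or.inr (Or.inr (Or.inr (Or.inl ⟨rfl, rfl, by omega, ?_⟩)))
      rcases h4 with h4 | ⟨hBC, hD⟩
      · exact absurd h4 hnSh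
      -- the confirmed mark
      have hc : ν T (c ρ) ∈ d := by
        have := hP (c ρ) (by simp [hp])
        rcases List.mem_append.mp this with h | h
        · rcases mem_kp h with ⟨h, _⟩ | ⟨h, _⟩ <;> simp at h
        · exact h
      obtain ⟨d1, d2, hd⟩ := List.append_of_mem hc
      have hd' : d = d1 ++ [ν T (c ρ)] ++ d2 := by rw [hd]; simp
      have hnm1 : ¬ hasMark d1 := hBC d1 (c ρ) d2 hd'
      have hno_p : ∀ X, ν T (p X) ∉ d := by
        intro X hX
        exact hF (p X) (by simp [hf]) (by simp [hX])
      have hno_m : ∀ ρ', ν T (m ρ') ∉ d := by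
        intro ρ' hX
        exact hF (m ρ') (by simp [hf]) (by simp [hX])
      obtain ⟨u1, hu1⟩ : ∃ u1 : List (Symbol T N), d1 = u1.map lm := by
        apply exists_lm
        intro s hs
        have hsd : s ∈ d := by rw [hd]; simp [hs]
        cases s with
        | terminal t => exact Or.inl ⟨t, rfl⟩
        | nonterminal A =>
          right
          have hA := hdata _ hsd
          cases A with
          | l X => exact ⟨X, rfl⟩
          | p X => exact absurd hsd (hno_p X)
          | m ρ' => exact absurd hsd (hno_m ρ')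
          | c ρ' => exact absurd ⟨c ρ', trivial, hs⟩ hnm1
          | r X =>
            exfalso
            obtain ⟨e1, e2, he⟩ := List.append_of_mem hs
            have := hBC e1 (r X) (e2 ++ [ν T (c ρ)] ++ d2) (by rw [hd', he]; simp)
            obtain ⟨x, hx, hmem⟩ := this
            exact hnm1 ⟨x, hx, by rw [he]; simp [hmem]⟩
          | Sh => exact hA.elim
          | K => exact hA.elim
          | K1 => exact hA.elim
          | C => exact hA.elim
          | C1 => exact hA.elim
      obtain ⟨v1, hv1⟩ : ∃ v1 : List (Symbol T N), d2 = v1.map rm := by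
        apply exists_rm
        intro s hs
        have hsd : s ∈ d := by rw [hd]; simp [hs]
        obtain ⟨e1, e2, he⟩ := List.append_of_mem hs
        cases s with
        | terminal t => exact Or.inl ⟨t, rfl⟩
        | nonterminal A =>
          right
          have hA := hdata _ hsd
          have hpre : hasMark (d1 ++ [ν T (c ρ)] ++ e1) := ⟨c ρ, trivial, by simp⟩
          have hb := hBC (d1 ++ [ν T (c ρ)] ++ e1) A e2 (by rw [hd', he]; simp)
          cases A with
          | r X => exact ⟨X, rfl⟩
          | p X => exact absurd hsd (hno_p X)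
          | m ρ' => exact absurd hsd (hno_m ρ')
          | c ρ' => exact absurd hpre hb
          | l X => exact absurd hpre hb
          | Sh => exact hA.elim
          | K => exact hA.elim
          | K1 => exact hA.elim
          | C => exact hA.elim
          | C1 => exact hA.elim
      subst hu1 hv1
      refine ⟨u1, ρ, v1, hd', ?_, ?_⟩
      · -- context condition
        have memd : ∀ A : NH N R, ν T A ∈ (kp true a ++ d : List (Symbol T (NH N R))) → A ≠ K → A ≠ K1 →
            A ≠ c ρ → (∃ X, A = l X ∧ Symbol.nonterminal X ∈ u1) ∨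
              (∃ X, A = r X ∧ Symbol.nonterminal X ∈ v1) := by
          intro A hA h1 h2 h3
          rcases List.mem_append.mp hA with h | h
          · rcases mem_kp h with ⟨h, _⟩ | ⟨h, _⟩
            · exact absurd h h2
            · exact absurd h h1
          · rw [hd'] at h
            rcases List.mem_append.mp h with h | h
            · rcases List.mem_append.mp h with h | h
              · exact Or.inl (lm_mem h)
              · simp at h
                exact absurd h h3
            · exact Or.inr (rm_mem h)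
        cases hside : g.side ρ with
        | false =>
          left
          refine ⟨hside, ?_, ?_⟩
          · intro B hB
            have := hP (l B) (by
              simp only [hp, Set.mem_union, Set.mem_ofPred_eq]
              right
              exact ⟨B, hB, by simp [hside]⟩)
            rcases memd _ this (by simp) (by simp) (by simp) with ⟨X, hX, hX2⟩ | ⟨X, hX, _⟩
            · simp at hX
              rw [hX]; exact hX2
            · simp at hX
          · intro B hB hmem
            refine hF (l B) (by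
              simp only [hf, Set.mem_union, Set.mem_ofPred_eq]
              right
              exact ⟨B, hB, by simp [hside]⟩) ?_
            rw [hd']
            have : (ν T (l B) : Symbol T (NH N R)) ∈ u1.map lm := List.mem_map.mpr ⟨_, hmem, rfl⟩
            simp [this]
        | true =>
          right
          refine ⟨hside, ?_, ?_⟩
          · intro B hB
            have := hP (r B) (by
              simp only [hp, Set.mem_union, Set.mem_ofPred_eq]
              right
              exact ⟨B, hB, by simp [hside]⟩)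
            rcases memd _ this (by simp) (by simp) (by simp) with ⟨X, hX, _⟩ | ⟨X, hX, hX2⟩
            · simp at hX
            · simp at hX
              rw [hX]; exact hX2
          · intro B hB hmem
            refine hF (r B) (by
              simp only [hf, Set.mem_union, Set.mem_ofPred_eq]
              right
              exact ⟨B, hB, by simp [hside]⟩) ?_
            rw [hd']
            have : (ν T (r B) : Symbol T (NH N R)) ∈ v1.map rm := List.mem_map.mpr ⟨_, hmem, rfl⟩
            simp [this]
      · rw [hd', gb_append, gb_append, gb_lm, gb_rm] at hD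
        exact hD
    · simp at h2
    · simp at h1
  | r12 =>
    have hu : u = kp kb a ++ d ∧ cb = true ∧ v = Cs n := by
      have hCu : ν T C ∉ u := hF C (by simp [hf])
      have hC1u : ν T C1 ∉ u := hF C1 (by simp [hf])
      have hs' : (kp kb a ++ d) ++ cp cb n ++ [] = u ++ [ν T C1] ++ v := by
        rw [List.append_nil]; exact hs
      obtain ⟨m1, m2, h1, h2, h3⟩ := loc hs' (by
        intro h
        rcases List.mem_append.mp h with h | h
        · rcases mem_kp h with ⟨h, _⟩ | ⟨h, _⟩ <;> simp at h
        · exact absurd rfl (mid_no hm h).2.2.2) (by simp)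
      have hm1 : m1 = [] := by
        cases m1 with
        | nil => rfl
        | cons y m1 =>
          exfalso
          have hy : y ∈ (cp cb n : List (Symbol T (NH N R))) := by rw [h1]; simp
          have hyu : y ∈ u := by rw [h2]; simp
          unfold cp at hy
          rcases List.mem_append.mp hy with h | h
          · cases cb
            · simp at h
            · simp at h
              rw [h] at hyu
              exact hC1u hyu
          · have := List.eq_of_mem_replicate h
            rw [this] at hyu
            exact hCu hyu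
      subst hm1
      cases cb with
      | true =>
        refine ⟨by simpa using h2, rfl, ?_⟩
        simp only [cp_true, List.nil_append, List.cons_append, List.cons.injEq, true_and] at h1
        rw [h3, List.append_nil, ← h1]
      | false =>
        exfalso
        simp only [cp_false, Cs] at h1
        have : ν T C1 ∈ (List.replicate n (ν T C) : List (Symbol T (NH N R))) := by rw [h1]; simp
        have := List.eq_of_mem_replicate this
        simp at this
    obtain ⟨rfl, rfl, rfl⟩ := hu
    have hkb : kb = false := by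
      apply kb_of_not_mem (a := a) (m1 := d)
      exact hF K1 (by simp [hf])
    subst hkb
    have hnSh : d ≠ [ν T Sh] := by
      rintro rfl
      exact hF Sh (by simp [hf]) (by simp)
    have hdata : ∀ s ∈ d, isData s := by
      rcases hm with ⟨h, _⟩ | h
      · exact absurd h hnSh
      · exact h
    refine ⟨false, a, false, n, d, by simp [hr, cp_false], Or.inr hdata, ?_⟩
    rcases hph with h | ⟨h1, h2, h3, h4⟩ | ⟨h1, h2, h3, h4⟩ | ⟨h1, h2, h3, h4⟩ | ⟨h1, h2, h3, h4⟩
    · left
      simp at h ⊢
      omega
    · simp at h2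
    · simp at h1
    · simp at h1
    · refine Or.inr (Or.inl ⟨rfl, rfl, h3, Or.inr ?_⟩)
      have hisA : ∀ s ∈ d, isA s := by
        intro s hs
        have hA := hdata _ hs
        cases s with
        | terminal t => trivial
        | nonterminal A =>
          cases A with
          | p X => trivial
          | m ρ' => trivial
          | l X => exact absurd (by simp [hs] : ν T (l X) ∈ kp false a ++ d) (hF (l X) (by simp [hf]))
          | r X => exact absurd (by simp [hs] : ν T (r X) ∈ kp false a ++ d) (hF (r X) (by simp [hf]))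
          | c ρ' => exact absurd (by simp [hs] : ν T (c ρ') ∈ kp false a ++ d) (hF (c ρ') (by simp [hf]))
          | Sh => exact hA.elim
          | K => exact hA.elim
          | K1 => exact hA.elim
          | C => exact hA.elim
          | C1 => exact hA.elim
      refine ⟨hisA, ?_⟩
      rw [gb_eq_gd g hisA]
      exact h4

theorem inv_start : Inv g S ([ν T Sh] : List (Symbol T (NH N R))) :=
  ⟨false, 0, false, 0, [ν T Sh], by simp [kp, cp], Or.inl ⟨rfl, rfl⟩,
    Or.inr (Or.inl ⟨rfl, rfl, rfl, Or.inl rfl⟩)⟩

theorem inv_derives {s : List (Symbol T (NH N R))} (h : ReflTransGen (HStep g S) [ν T Sh] s) :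
    Inv g S s := by
  induction h with
  | refl => exact inv_start g S
  | tail _ h ih => exact inv_step g S ih h

theorem sound (w : List T)
    (h : ReflTransGen (HStep g S) [ν T Sh] (w.map Symbol.terminal)) :
    ReflTransGen g.Step [Symbol.nonterminal S] (w.map Symbol.terminal) := by
  obtain ⟨kb, a, cb, n, d, hs, hm, hph⟩ := inv_derives g S h
  have hno : ∀ A : NH N R, ν T A ∉ (w.map Symbol.terminal : List (Symbol T (NH N R))) := by
    intro A; simp
  have hkb : kb = false := by
    cases kb
    · rfl
    · exfalso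
      apply hno K1
      rw [hs]; simp [kp]
  subst hkb
  have hcb : cb = false := by
    cases cb
    · rfl
    · exfalso
      apply hno C1
      rw [hs]; simp [cp]
  subst hcb
  have ha : a = 0 := by
    cases a with
    | zero => rfl
    | succ a =>
      exfalso
      apply hno K
      rw [hs]; simp [kp]
  subst ha
  have hn : n = 0 := by
    cases n with
    | zero => rfl
    | succ n =>
      exfalso
      apply hno C
      rw [hs]; simp [cp]
  subst hn
  rcases hph with h | ⟨h1, h2, h3, h4⟩ | ⟨h1, h2, h3, h4⟩ | ⟨h1, h2, h3, h4⟩ | ⟨h1, h2, h3, h4⟩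
  · simp at h
  · have hd : d = w.map Symbol.terminal := by
      rw [hs]; simp [kp, cp]
    rcases h4 with h4 | ⟨_, h4⟩
    · exfalso
      apply hno Sh
      rw [← hd, h4]; simp
    · rw [hd] at h4
      have : gb g (w.map Symbol.terminal : List (Symbol T (NH N R))) = w.map Symbol.terminal := by
        have e : (w.map Symbol.terminal : List (Symbol T (NH N R))) =
            (w.map Symbol.terminal : List (Symbol T N)).map pm := by simp [pm]
        rw [e, gb_pm]
      rw [this] at h4
      exact h4
  · simp at h1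
  · simp at h1
  · simp at h2


instance instFiniteNH [Finite N] [Finite R] : Finite (NH N R) := by
  let f : NH N R → Fin 5 ⊕ (Fin 3 × N) ⊕ (Fin 2 × R) := fun x => match x with
    | Sh => .inl 0
    | K => .inl 1
    | K1 => .inl 2
    | C => .inl 3
    | C1 => .inl 4
    | p X => .inr (.inl (0, X))
    | l X => .inr (.inl (1, X))
    | r X => .inr (.inl (2, X))
    | m ρ => .inr (.inr (0, ρ))
    | c ρ => .inr (.inr (1, ρ))
  apply Finite.of_injective f
  intro x y h
  cases x <;> cases y <;> simp [f] at h <;> simp [h]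

instance instFiniteRI [Finite N] [Finite R] : Finite (RI N R) := by
  let f : RI N R → Fin 5 ⊕ (Fin 3 × N) ⊕ (Fin 4 × R) ⊕ (Fin 2 × N × R) := fun x => match x with
    | r1 => .inl 0
    | r2 => .inl 1
    | r3 => .inl 2
    | r4 => .inl 3
    | r12 => .inl 4
    | r7 X => .inr (.inl (0, X))
    | r10l X => .inr (.inl (1, X))
    | r10r X => .inr (.inl (2, X))
    | r5 ρ => .inr (.inr (.inl (0, ρ)))
    | r6 ρ => .inr (.inr (.inl (1, ρ)))
    | r9 ρ => .inr (.inr (.inl (2, ρ)))
    | r11 ρ => .inr (.inr (.inl (3, ρ)))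
    | r8m X ρ => .inr (.inr (.inr (0, X, ρ)))
    | r8c X ρ => .inr (.inr (.inr (1, X, ρ)))
  apply Finite.of_injective f
  intro x y h
  cases x <;> cases y <;> simp [f] at h <;> simp [h]

/-- the rule of the new grammar with name `i`, with finite context sets -/
noncomputable def rule [Finite N] [Finite R] (i : RI N R) :
    NH N R × List (Symbol T (NH N R)) × Finset (NH N R) × Finset (NH N R) :=
  (hl g i, hr g S i, (Set.toFinite (hp g i)).toFinset, (Set.toFinite (hf g i)).toFinset)

/-- Every one-sided random context grammar (finite rule sets, erasing allowed) has an equivalent one-sided random context grammar, generating the same terminal words, in which every right rule has empty permitting and forbidding sets. -/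
theorem result :
    ∀ (T N : Type), Finite T → Finite N → ∀ (S : N)
      (PL PR : Finset (N × List (Symbol T N) × Finset N × Finset N)),
    ∃ (N' : Type), Finite N' ∧ ∃ (S' : N')
      (PL' PR' : Finset (N' × List (Symbol T N') × Finset N' × Finset N')),
      (∀ (A : N') (x : List (Symbol T N')) (U W : Finset N'),
          (A, x, U, W) ∈ PR' → U = ∅ ∧ W = ∅) ∧
      ∀ w : List T,
        (Relation.ReflTransGen
          (fun (α β : List (Symbol T N)) =>
            ∃ (u v : List (Symbol T N)) (A : N) (x : List (Symbol T N)) (U W : Finset N),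
              α = u ++ [Symbol.nonterminal A] ++ v ∧ β = u ++ x ++ v ∧
              (((A, x, U, W) ∈ PL ∧ (∀ B ∈ U, Symbol.nonterminal B ∈ u) ∧
                  (∀ B ∈ W, Symbol.nonterminal B ∉ u)) ∨
               ((A, x, U, W) ∈ PR ∧ (∀ B ∈ U, Symbol.nonterminal B ∈ v) ∧
                  (∀ B ∈ W, Symbol.nonterminal B ∉ v))))
          [Symbol.nonterminal S] (w.map Symbol.terminal)
        ↔
        Relation.ReflTransGen
          (fun (α β : List (Symbol T N')) =>
            ∃ (u v : List (Symbol T N')) (A : N') (x : List (Symbol T N')) (U W : Finset N'),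
              α = u ++ [Symbol.nonterminal A] ++ v ∧ β = u ++ x ++ v ∧
              (((A, x, U, W) ∈ PL' ∧ (∀ B ∈ U, Symbol.nonterminal B ∈ u) ∧
                  (∀ B ∈ W, Symbol.nonterminal B ∉ u)) ∨
               ((A, x, U, W) ∈ PR' ∧ (∀ B ∈ U, Symbol.nonterminal B ∈ v) ∧
                  (∀ B ∈ W, Symbol.nonterminal B ∉ v))))
          [Symbol.nonterminal S'] (w.map Symbol.terminal)) := by
  intro T N _ hN S PL PR
  let R : Type := {x // x ∈ PL} ⊕ {x // x ∈ PR}
  let g : GR T N R :=
    { lhs := fun ρ => match ρ with | .inl x => x.1.1 | .inr x => x.1.1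
      rhs := fun ρ => match ρ with | .inl x => x.1.2.1 | .inr x => x.1.2.1
      side := fun ρ => match ρ with | .inl _ => false | .inr _ => true
      U := fun ρ => match ρ with | .inl x => x.1.2.2.1 | .inr x => x.1.2.2.1
      W := fun ρ => match ρ with | .inl x => x.1.2.2.2 | .inr x => x.1.2.2.2 }
  refine ⟨NH N R, inferInstance, NH.Sh,
    (Set.finite_range (rule g S)).toFinset, ∅, ?_, ?_⟩
  · intro A x U W h
    simp at h
  intro w
  have e1 : (fun (α β : List (Symbol T N)) =>
            ∃ (u v : List (Symbol T N)) (A : N) (x : List (Symbol T N)) (U W : Finset N),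
              α = u ++ [Symbol.nonterminal A] ++ v ∧ β = u ++ x ++ v ∧
              (((A, x, U, W) ∈ PL ∧ (∀ B ∈ U, Symbol.nonterminal B ∈ u) ∧
                  (∀ B ∈ W, Symbol.nonterminal B ∉ u)) ∨
               ((A, x, U, W) ∈ PR ∧ (∀ B ∈ U, Symbol.nonterminal B ∈ v) ∧
                  (∀ B ∈ W, Symbol.nonterminal B ∉ v)))) = g.Step := by
    funext α β
    apply propext
    constructor
    · rintro ⟨u, v, A, x, U, W, h1, h2, ⟨h3, h4, h5⟩ | ⟨h3, h4, h5⟩⟩
      · exact ⟨.inl ⟨_, h3⟩, u, v, h1, h2, Or.inl ⟨rfl, h4, h5⟩⟩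
      · exact ⟨.inr ⟨_, h3⟩, u, v, h1, h2, Or.inr ⟨rfl, h4, h5⟩⟩
    · rintro ⟨ρ, u, v, h1, h2, h⟩
      cases ρ with
      | inl x =>
        rcases h with ⟨_, h4, h5⟩ | ⟨hs, _, _⟩
        · exact ⟨u, v, x.1.1, x.1.2.1, x.1.2.2.1, x.1.2.2.2, h1, h2, Or.inl ⟨x.2, h4, h5⟩⟩
        · simp [g] at hs
      | inr x =>
        rcases h with ⟨hs, _, _⟩ | ⟨_, h4, h5⟩
        · simp [g] at hs
        · exact ⟨u, v, x.1.1, x.1.2.1, x.1.2.2.1, x.1.2.2.2, h1, h2, Or.inr ⟨x.2, h4, h5⟩⟩
  have e2 : (fun (α β : List (Symbol T (NH N R))) =>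
            ∃ (u v : List (Symbol T (NH N R))) (A : NH N R) (x : List (Symbol T (NH N R)))
              (U W : Finset (NH N R)),
              α = u ++ [Symbol.nonterminal A] ++ v ∧ β = u ++ x ++ v ∧
              (((A, x, U, W) ∈ (Set.finite_range (rule g S)).toFinset ∧
                  (∀ B ∈ U, Symbol.nonterminal B ∈ u) ∧
                  (∀ B ∈ W, Symbol.nonterminal B ∉ u)) ∨
               ((A, x, U, W) ∈ (∅ : Finset (NH N R × List (Symbol T (NH N R)) × Finset (NH N R) × Finset (NH N R))) ∧
                  (∀ B ∈ U, Symbol.nonterminal B ∈ v) ∧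
                  (∀ B ∈ W, Symbol.nonterminal B ∉ v)))) = HStep g S := by
    funext α β
    apply propext
    constructor
    · rintro ⟨u, v, A, x, U, W, h1, h2, ⟨h3, h4, h5⟩ | ⟨h3, h4, h5⟩⟩
      · simp only [Set.Finite.mem_toFinset, Set.mem_range] at h3
        obtain ⟨i, hi⟩ := h3
        simp only [rule, Prod.mk.injEq] at hi
        obtain ⟨rfl, rfl, rfl, rfl⟩ := hi
        refine ⟨i, u, v, h1, h2, ?_, ?_⟩
        · intro B hB
          exact h4 B (by simpa using hB)
        · intro B hB
          exact h5 B (by simpa using hB)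
      · simp at h3
    · rintro ⟨i, u, v, h1, h2, h4, h5⟩
      refine ⟨u, v, hl g i, hr g S i, (Set.toFinite (hp g i)).toFinset,
        (Set.toFinite (hf g i)).toFinset, h1, h2, Or.inl ⟨?_, ?_, ?_⟩⟩
      · simp only [Set.Finite.mem_toFinset, Set.mem_range]
        exact ⟨i, rfl⟩
      · intro B hB
        exact h4 B (by simpa using hB)
      · intro B hB
        exact h5 B (by simpa using hB)
  rw [e1, e2]
  exact ⟨complete g S w, sound g S w⟩

end Pool.Agent.S09859
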