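import Pool.Statements.S09880
-- import your own Pool.Agent.* helpers here
import Pool.Agent.Helper436.TFWFinal

set_option autoImplicit false
open Pool Pool.MP_1526eb_mp

namespace Pool.Agent.S09880

/-- The negation of the preceding statement: For any positive TFW constants and distinct nuclear positions, if positive nuclear charges increase componentwise, then the critical electron number minus total nuclear charge does not decrease. -/
theorem result :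
    ¬ (∀ (K : ℕ) (R : Fin K → EuclideanSpace ℝ (Fin 3)), Function.Injective R →
  ∀ (cW cTF : ℝ), 0 < cW → 0 < cTF →
  ∀ (E : (Fin K → ℝ) → (EuclideanSpace ℝ (Fin 3) → ℝ) → ℝ),
    (∀ (z : Fin K → ℝ) (ψ : EuclideanSpace ℝ (Fin 3) → ℝ),
      E z ψ = cW * (∫ x, ‖fderiv ℝ ψ x‖ ^ 2)
        + cTF * (∫ x, |ψ x| ^ ((10 : ℝ) / 3))
        - (∫ x, (∑ j, z j / ‖x - R j‖) * ψ x ^ 2)
        + (1 / 2) * ∫ x, ∫ y, ψ x ^ 2 * ψ y ^ 2 / ‖x - y‖) →
  ∀ (Nc : (Fin K → ℝ) → ℝ),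
    (∀ z : Fin K → ℝ, Nc z = sInf {N : ℝ | 0 ≤ N ∧
      sInf (E z '' {ψ : EuclideanSpace ℝ (Fin 3) → ℝ |
          ContDiff ℝ 1 ψ ∧ HasCompactSupport ψ ∧ ∫ x, ψ x ^ 2 ≤ N})
        = sInf (E z '' {ψ : EuclideanSpace ℝ (Fin 3) → ℝ |
          ContDiff ℝ 1 ψ ∧ HasCompactSupport ψ})}) →
  ∀ z z' : Fin K → ℝ, (∀ j, 0 < z j) → z ≤ z' →
    Nc z - ∑ j, z j ≤ Nc z' - ∑ j, z' j) := by
  exact Pool.Agent.Helper436.TFW.final

end Pool.Agent.S09880
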