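import Pool.Statements.S09881
import Pool.Agent.Helper209.AC.Line

set_option autoImplicit false
open MeasureTheory
open Pool Pool.MP_182276_mp

namespace Pool.Agent.S09881

/-- For every 0<α≤2/3, the closed linear span in L²(ℝ) of all eigenfunctions and generalized eigenfunctions of the operator −f''+i∣x∣^α f is all of L²(ℝ). -/
theorem result :
    ∀ α : ℝ, 0 < α → α ≤ 2 / 3 →
      (Submodule.span ℂ
        {F : Lp ℂ 2 (volume : Measure ℝ) |
          ∃ (μ : ℂ) (n : ℕ) (φ : ℕ → ℝ → ℂ), φ 0 = 0 ∧
            (∀ k, k ≤ n → ContDiff ℝ 2 (φ k) ∧ MemLp (φ k) 2 (volume : Measure ℝ)) ∧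
            (∀ k, k < n → ∀ x : ℝ,
              -deriv (deriv (φ (k + 1))) x
                + Complex.I * (((|x| ^ α : ℝ)) : ℂ) * φ (k + 1) x
                - μ * φ (k + 1) x = φ k x) ∧
            (⇑F) =ᵐ[(volume : Measure ℝ)] φ n}).topologicalClosure = ⊤ := by
  intro α hα hα2
  rw [Submodule.topologicalClosure_eq_top_iff, Submodule.eq_bot_iff]
  intro f hf
  rw [Submodule.mem_orthogonal] at hf
  -- the conjugate function is orthogonal to all solutions
  have hfm : MemLp (⇑f) 2 (volume : Measure ℝ) := Lp.memLp f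
  have hgm : MemLp (fun x => (starRingEnd ℂ) (f x)) 2 (volume : Measure ℝ) := by
    have := hfm.star
    exact this
  have hzero := Pool.Agent.Helper209.AC.line_zero α hα hα2 (fun x => (starRingEnd ℂ) (f x)) hgm (by
    intro μ ψ ψ' hsol hψ
    have hc := Pool.Agent.Helper209.AC.pot_cont hα Complex.I μ
    have hmem : hψ.toLp ψ ∈ {F : Lp ℂ 2 (volume : Measure ℝ) |
          ∃ (μ : ℂ) (n : ℕ) (φ : ℕ → ℝ → ℂ), φ 0 = 0 ∧
            (∀ k, k ≤ n → ContDiff ℝ 2 (φ k) ∧ MemLp (φ k) 2 (volume : Measure ℝ)) ∧
            (∀ k, k < n → ∀ x : ℝ,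
              -deriv (deriv (φ (k + 1))) x
                + Complex.I * (((|x| ^ α : ℝ)) : ℂ) * φ (k + 1) x
                - μ * φ (k + 1) x = φ k x) ∧
            (⇑F) =ᵐ[(volume : Measure ℝ)] φ n} := by
      refine ⟨μ, 1, fun k => if k = 0 then 0 else ψ, by simp, ?_, ?_, ?_⟩
      · intro k hk
        rcases Nat.lt_or_ge k 1 with h | h
        · have : k = 0 := by omega
          subst this
          simp only [↓reduceIte]
          exact ⟨contDiff_const, MemLp.zero⟩
        · have : k ≠ 0 := by omega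
          simp only [this, ↓reduceIte]
          exact ⟨hsol.contDiff hc, hψ⟩
      · intro k hk x
        have : k = 0 := by omega
        subst this
        simp only [Nat.zero_add, one_ne_zero, ↓reduceIte, Pi.zero_apply]
        rw [hsol.deriv_deriv x]
        unfold Pool.Agent.Helper209.AC.pot
        ring
      · simp only [one_ne_zero, ↓reduceIte]
        exact hψ.coeFn_toLp
    have h1 := hf _ (Submodule.subset_span hmem)
    rw [L2.inner_def] at h1
    have h2 : ∫ x, (starRingEnd ℂ) ((starRingEnd ℂ) (f x) * ψ x) = 0 := by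
      rw [← h1]
      apply integral_congr_ae
      filter_upwards [hψ.coeFn_toLp] with x hx
      rw [hx, RCLike.inner_apply, map_mul, RingHomCompTriple.comp_apply, RingHom.id_apply]
    rw [integral_conj] at h2
    exact (map_eq_zero _).1 h2)
  rw [Lp.eq_zero_iff_ae_eq_zero]
  filter_upwards [hzero] with x hx
  have : (starRingEnd ℂ) (f x) = 0 := hx
  exact (map_eq_zero _).1 this

end Pool.Agent.S09881
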