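import Pool.Statements.S09884

set_option autoImplicit false
open Matrix
open scoped ComplexOrder
open Pool Pool.MP_2725c9_mp

namespace Pool.Agent.S09884

section helpers
open scoped Matrix.Norms.L2Operator

/-- The (spectral) operator norm of a square matrix, as a real number. -/
noncomputable def opn {m : Type*} [Fintype m] [DecidableEq m] (A : Matrix m m ℂ) : ℝ := ‖A‖

variable {m : Type*} [Fintype m] [DecidableEq m]

lemma opn_cont : Continuous (opn : Matrix m m ℂ → ℝ) := continuous_norm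

lemma opn_conv (s : Set (Matrix m m ℂ)) (hs : Convex ℝ s) :
    ConvexOn ℝ s (opn : Matrix m m ℂ → ℝ) := convexOn_norm hs

lemma opn_unitary (U : Matrix m m ℂ) (hU : U ∈ Matrix.unitaryGroup m ℂ) (A : Matrix m m ℂ) :
    opn (U * A * star U) = opn A := by
  unfold opn
  rw [CStarRing.norm_mul_mem_unitary _ (Unitary.star_mem hU), CStarRing.norm_mem_unitary_mul _ hU]

lemma opn_diagonal (v : m → ℂ) : opn (diagonal v) = ‖v‖ := by
  unfold opn
  simp

lemma opn_ge (A : Matrix m m ℂ) (v : m → ℂ) :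
    (star v ⬝ᵥ A *ᵥ v).re ≤ opn A * ∑ i, ‖v i‖ ^ 2 := by
  have h1 := l2_opNorm_mulVec A ((EuclideanSpace.equiv m ℂ).symm v)
  have h2 : star v ⬝ᵥ A *ᵥ v = inner ℂ ((EuclideanSpace.equiv m ℂ).symm v)
      ((EuclideanSpace.equiv m ℂ).symm (A *ᵥ v)) := by
    rw [EuclideanSpace.inner_eq_star_dotProduct]
    simp [dotProduct_comm]
  rw [h2]
  have h3 := norm_inner_le_norm (𝕜 := ℂ) ((EuclideanSpace.equiv m ℂ).symm v)
      ((EuclideanSpace.equiv m ℂ).symm (A *ᵥ v))
  have h4 : ‖(EuclideanSpace.equiv m ℂ).symm v‖ ^ 2 = ∑ i, ‖v i‖ ^ 2 := by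
    rw [EuclideanSpace.norm_sq_eq]; rfl
  calc _ ≤ norm (inner ℂ ((EuclideanSpace.equiv m ℂ).symm v)
      ((EuclideanSpace.equiv m ℂ).symm (A *ᵥ v))) := Complex.re_le_norm _
    _ ≤ _ := h3
    _ ≤ norm ((EuclideanSpace.equiv m ℂ).symm v) * (norm A *
        norm ((EuclideanSpace.equiv m ℂ).symm v)) := by
        gcongr
        exact h1
    _ = _ := by rw [← h4]; unfold opn; ring

end helpers

section marg

/-- Glue an index on `I` and an index on the complement of `I`. -/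
def gl {n : ℕ} {d : Fin n → ℕ} (I : Finset (Fin n)) (a : (i : {i // i ∈ I}) → Fin (d i.1))
    (c : (i : {i // i ∉ I}) → Fin (d i.1)) : (i : Fin n) → Fin (d i) :=
  fun i => if h : i ∈ I then a ⟨i, h⟩ else c ⟨i, h⟩

variable {n : ℕ} {d : Fin n → ℕ} (I : Finset (Fin n))

/-- The product matrix built from the one-site matrices of the sites satisfying `P`. -/
def prodMat (P : Fin n → Prop) [DecidablePred P] (W : (i : Fin n) → Matrix (Fin (d i)) (Fin (d i)) ℂ) :
    Matrix ((i : {i // P i}) → Fin (d i.1)) ((i : {i // P i}) → Fin (d i.1)) ℂ :=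
  Matrix.of fun a b => ∏ i, W i.1 (a i) (b i)

lemma prodMat_unitary (P : Fin n → Prop) [DecidablePred P]
    (W : (i : Fin n) → Matrix (Fin (d i)) (Fin (d i)) ℂ)
    (hW : ∀ i, W i ∈ Matrix.unitaryGroup (Fin (d i)) ℂ) :
    prodMat P W ∈ Matrix.unitaryGroup ((i : {i // P i}) → Fin (d i.1)) ℂ := by
  rw [Matrix.mem_unitaryGroup_iff']
  ext a b
  have hrow : ∀ i, ∀ x y : Fin (d i), ∑ z, star (W i z x) * W i z y = if x = y then 1 else 0 := by
    intro i x y
    have h := (Matrix.mem_unitaryGroup_iff'.mp (hW i))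
    have h2 := congrFun (congrFun h x) y
    rw [Matrix.mul_apply, Matrix.one_apply] at h2
    exact h2
  rw [Matrix.mul_apply, Matrix.one_apply]
  simp only [star_apply, prodMat, of_apply]
  have e1 : ∀ z : ((i : {i // P i}) → Fin (d i.1)),
      star (∏ i, W i.1 (z i) (a i)) * ∏ i, W i.1 (z i) (b i)
      = ∏ i, (star (W i.1 (z i) (a i)) * W i.1 (z i) (b i)) := by
    intro z
    rw [Finset.prod_mul_distrib, star_prod]
  rw [Finset.sum_congr rfl (fun z _ => e1 z)]
  have e2 := Finset.prod_univ_sum (fun i : {i // P i} => (Finset.univ : Finset (Fin (d i.1))))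
    (fun i z => star (W i.1 z (a i)) * W i.1 z (b i))
  rw [Fintype.piFinset_univ] at e2
  rw [← e2]
  rw [Finset.prod_congr rfl (fun i _ => hrow i.1 (a i) (b i))]
  by_cases hab : a = b
  · subst hab; simp
  · rw [if_neg hab]
    obtain ⟨i, hi⟩ := Function.ne_iff.mp hab
    exact Finset.prod_eq_zero (Finset.mem_univ i) (by rw [if_neg hi])

lemma prodIn_unitary (I : Finset (Fin n)) (W : (i : Fin n) → Matrix (Fin (d i)) (Fin (d i)) ℂ)
    (hW : ∀ i, W i ∈ Matrix.unitaryGroup (Fin (d i)) ℂ) :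
    (prodMat (· ∈ I) W : Matrix ((i : {i // i ∈ I}) → Fin (d i.1)) ((i : {i // i ∈ I}) → Fin (d i.1)) ℂ)
      ∈ Matrix.unitaryGroup ((i : {i // i ∈ I}) → Fin (d i.1)) ℂ := by
  convert prodMat_unitary (· ∈ I) W hW

lemma prod_split (I : Finset (Fin n)) (W : (i : Fin n) → Matrix (Fin (d i)) (Fin (d i)) ℂ)
    (a a' : (i : {i // i ∈ I}) → Fin (d i.1)) (c c' : (i : {i // i ∉ I}) → Fin (d i.1)) :
    ∏ i, W i (gl I a c i) (gl I a' c' i)
      = prodMat (· ∈ I) W a a' * prodMat (· ∉ I) W c c' := by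
  rw [← Fintype.prod_subtype_mul_prod_subtype (fun i => i ∈ I)]
  unfold prodMat
  simp only [of_apply]
  congr 1
  · refine Finset.prod_congr rfl fun i _ => ?_
    simp [gl, i.2]
  · refine Finset.prod_congr rfl fun i _ => ?_
    simp [gl, i.2]

lemma sum_gl {M : Type*} [AddCommMonoid M] (I : Finset (Fin n)) (F : ((i : Fin n) → Fin (d i)) → M) :
    ∑ x, F x = ∑ a, ∑ c, F (gl I a c) := by
  rw [← Fintype.sum_prod_type']
  exact (Fintype.sum_equiv (Equiv.piEquivPiSubtypeProd (fun i => i ∈ I) (fun i => Fin (d i))).symm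
    _ _ (fun x => rfl)).symm

/-- The full product matrix. -/
def fullMat (W : (i : Fin n) → Matrix (Fin (d i)) (Fin (d i)) ℂ) :
    Matrix ((i : Fin n) → Fin (d i)) ((i : Fin n) → Fin (d i)) ℂ :=
  Matrix.of fun x y => ∏ i, W i (x i) (y i)

/-- Marginals of a state that is diagonal in a product basis. -/
lemma marg (I : Finset (Fin n)) (W : (i : Fin n) → Matrix (Fin (d i)) (Fin (d i)) ℂ)
    (hW : ∀ i, W i ∈ Matrix.unitaryGroup (Fin (d i)) ℂ) (q : ((i : Fin n) → Fin (d i)) → ℝ) :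
    (Matrix.of fun a b : (i : {i // i ∈ I}) → Fin (d i.1) =>
      ∑ c : ((i : {i // i ∉ I}) → Fin (d i.1)),
        (fullMat W * Matrix.diagonal (fun x => ((q x : ℝ) : ℂ)) * star (fullMat W))
          (gl I a c) (gl I b c))
    = prodMat (· ∈ I) W * Matrix.diagonal (fun a => (((∑ c, q (gl I a c)) : ℝ) : ℂ)) *
        star (prodMat (· ∈ I) W) := by
  ext a b
  have m1 : ∀ (m : Type) [Fintype m] [DecidableEq m] (A : Matrix m m ℂ) (v : m → ℂ) (x y : m),
      (A * Matrix.diagonal v * star A) x y = ∑ z, A x z * v z * star (A y z) := by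
    intro m _ _ A v x y
    rw [Matrix.mul_apply]
    simp only [Matrix.mul_diagonal, star_apply]
  rw [m1]
  simp only [of_apply, m1]
  unfold fullMat
  simp only [of_apply]
  have e0 : ∀ c : ((i : {i // i ∉ I}) → Fin (d i.1)),
      ∑ x : (i : Fin n) → Fin (d i), (∏ i, W i (gl I a c i) (x i)) * (q x : ℂ) *
        star (∏ i, W i (gl I b c i) (x i))
      = ∑ a', ∑ c', (prodMat (· ∈ I) W a a' * (q (gl I a' c') : ℂ) * star (prodMat (· ∈ I) W b a'))
          * (star (prodMat (· ∉ I) W c c') * prodMat (· ∉ I) W c c') := by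
    intro c
    rw [sum_gl I]
    refine Finset.sum_congr rfl fun a' _ => Finset.sum_congr rfl fun c' _ => ?_
    rw [prod_split, prod_split, star_mul]
    ring
  rw [Finset.sum_congr rfl (fun c _ => e0 c)]
  rw [Finset.sum_comm]
  refine Finset.sum_congr rfl fun a' _ => ?_
  rw [Finset.sum_comm]
  push_cast
  rw [Finset.mul_sum, Finset.sum_mul]
  refine Finset.sum_congr rfl fun c' _ => ?_
  rw [← Finset.mul_sum]
  have hu := Matrix.mem_unitaryGroup_iff'.mp (prodMat_unitary (· ∉ I) W hW)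
  have h2 := congrFun (congrFun hu c') c'
  rw [Matrix.mul_apply, Matrix.one_apply_eq] at h2
  simp only [star_apply] at h2
  rw [h2, mul_one]

lemma fullMat_unitary (W : (i : Fin n) → Matrix (Fin (d i)) (Fin (d i)) ℂ)
    (hW : ∀ i, W i ∈ Matrix.unitaryGroup (Fin (d i)) ℂ) :
    fullMat W ∈ Matrix.unitaryGroup ((i : Fin n) → Fin (d i)) ℂ := by
  rw [Matrix.mem_unitaryGroup_iff']
  ext a b
  have hrow : ∀ i, ∀ x y : Fin (d i), ∑ z, star (W i z x) * W i z y = if x = y then 1 else 0 := by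
    intro i x y
    have h := (Matrix.mem_unitaryGroup_iff'.mp (hW i))
    have h2 := congrFun (congrFun h x) y
    rw [Matrix.mul_apply, Matrix.one_apply] at h2
    exact h2
  rw [Matrix.mul_apply, Matrix.one_apply]
  simp only [star_apply, fullMat, of_apply]
  have e1 : ∀ z : ((i : Fin n) → Fin (d i)),
      star (∏ i, W i (z i) (a i)) * ∏ i, W i (z i) (b i)
      = ∏ i, (star (W i (z i) (a i)) * W i (z i) (b i)) := by
    intro z
    rw [Finset.prod_mul_distrib, star_prod]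
  rw [Finset.sum_congr rfl (fun z _ => e1 z)]
  have e2 := Finset.prod_univ_sum (fun i : Fin n => (Finset.univ : Finset (Fin (d i))))
    (fun i z => star (W i z (a i)) * W i z (b i))
  rw [Fintype.piFinset_univ] at e2
  rw [← e2]
  rw [Finset.prod_congr rfl (fun i _ => hrow i (a i) (b i))]
  by_cases hab : a = b
  · subst hab; simp
  · rw [if_neg hab]
    obtain ⟨i, hi⟩ := Function.ne_iff.mp hab
    exact Finset.prod_eq_zero (Finset.mem_univ i) (by rw [if_neg hi])

end marg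

section spec
variable {m : Type*} [Fintype m] [DecidableEq m]

lemma unitary_row (G : Matrix m m ℂ) (hG : G ∈ Matrix.unitaryGroup m ℂ) (x : m) :
    ∑ y, ‖G x y‖ ^ 2 = 1 := by
  have h := Matrix.mem_unitaryGroup_iff.mp hG
  have h2 := congrFun (congrFun h x) x
  rw [Matrix.mul_apply, Matrix.one_apply_eq] at h2
  have h3 : ((∑ y, ‖G x y‖ ^ 2 : ℝ) : ℂ) = 1 := by
    rw [← h2]
    push_cast
    refine Finset.sum_congr rfl fun y _ => ?_
    rw [star_apply, ← Complex.mul_conj']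
    rfl
  exact_mod_cast h3

lemma unitary_col (G : Matrix m m ℂ) (hG : G ∈ Matrix.unitaryGroup m ℂ) (y : m) :
    ∑ x, ‖G x y‖ ^ 2 = 1 := by
  have h := unitary_row (star G) (Unitary.star_mem hG) y
  rw [← h]
  refine Finset.sum_congr rfl fun x _ => ?_
  rw [star_apply, norm_star]

lemma conj_diag_apply (G : Matrix m m ℂ) (r : m → ℝ) (x : m) :
    (G * Matrix.diagonal (fun y => ((r y : ℝ) : ℂ)) * star G) x x
      = ((∑ y, ‖G x y‖ ^ 2 * r y : ℝ) : ℂ) := by
  rw [Matrix.mul_apply]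
  push_cast
  refine Finset.sum_congr rfl fun y _ => ?_
  rw [Matrix.mul_diagonal, star_apply, ← Complex.mul_conj']
  simp only [RCLike.star_def]
  ring

lemma diag_of_conj (V U : Matrix m m ℂ) (hV : V ∈ Matrix.unitaryGroup m ℂ)
    (hU : U ∈ Matrix.unitaryGroup m ℂ) (q r : m → ℝ)
    (h : V * Matrix.diagonal (fun y => ((q y : ℝ) : ℂ)) * star V
      = U * Matrix.diagonal (fun y => ((r y : ℝ) : ℂ)) * star U) :
    ∃ G ∈ Matrix.unitaryGroup m ℂ, ∀ x, q x = ∑ y, ‖G x y‖ ^ 2 * r y := by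
  refine ⟨star V * U, mul_mem (Unitary.star_mem hV) hU, fun x => ?_⟩
  have hVV := Matrix.mem_unitaryGroup_iff'.mp hV
  have e : Matrix.diagonal (fun y => ((q y : ℝ) : ℂ))
      = (star V * U) * Matrix.diagonal (fun y => ((r y : ℝ) : ℂ)) * star (star V * U) := by
    calc Matrix.diagonal (fun y => ((q y : ℝ) : ℂ))
        = (star V * V) * Matrix.diagonal (fun y => ((q y : ℝ) : ℂ)) * (star V * V) := by
          rw [hVV]; simp
      _ = star V * (V * Matrix.diagonal (fun y => ((q y : ℝ) : ℂ)) * star V) * V := by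
          simp only [Matrix.mul_assoc]
      _ = star V * (U * Matrix.diagonal (fun y => ((r y : ℝ) : ℂ)) * star U) * V := by rw [h]
      _ = _ := by
          rw [star_mul, star_star]
          simp only [Matrix.mul_assoc]
  have e2 := congrFun (congrFun e x) x
  rw [conj_diag_apply, Matrix.diagonal_apply_eq] at e2
  exact_mod_cast e2

lemma q_bounds (V U : Matrix m m ℂ) (hV : V ∈ Matrix.unitaryGroup m ℂ)
    (hU : U ∈ Matrix.unitaryGroup m ℂ) (q r : m → ℝ) (κ : ℝ)
    (h : V * Matrix.diagonal (fun y => ((q y : ℝ) : ℂ)) * star V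
      = U * Matrix.diagonal (fun y => ((r y : ℝ) : ℂ)) * star U)
    (h0 : ∀ y, 0 ≤ r y) (h1 : ∀ y, r y ≤ κ) :
    (∀ x, 0 ≤ q x) ∧ (∀ x, q x ≤ κ) ∧ ∑ x, q x = ∑ x, r x := by
  obtain ⟨G, hG, hq⟩ := diag_of_conj V U hV hU q r h
  refine ⟨fun x => ?_, fun x => ?_, ?_⟩
  · rw [hq]
    exact Finset.sum_nonneg fun y _ => mul_nonneg (sq_nonneg _) (h0 y)
  · rw [hq]
    calc ∑ y, ‖G x y‖ ^ 2 * r y ≤ ∑ y, ‖G x y‖ ^ 2 * κ :=
          Finset.sum_le_sum fun y _ => mul_le_mul_of_nonneg_left (h1 y) (sq_nonneg _)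
      _ = κ := by rw [← Finset.sum_mul, unitary_row G hG, one_mul]
  · rw [Finset.sum_congr rfl (fun x _ => hq x), Finset.sum_comm]
    refine Finset.sum_congr rfl fun y _ => ?_
    rw [← Finset.sum_mul, unitary_col G hG, one_mul]

end spec

section example3

/-- three qubits -/
abbrev dd : Fin 3 → ℕ := fun _ => 2

/-- multi-indices of three qubits -/
abbrev Ix : Type := (i : Fin 3) → Fin (dd i)

def pI (x : Ix) : ℤ := if x 0 = 0 ∧ (x 1 = 0 ∨ x 2 = 0) then 1 else 0

/-- The spectrum `(1/3,1/3,1/3,0,0,0,0,0)`. -/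
noncomputable def pp (x : Ix) : ℝ := (pI x : ℝ) / 3

def gI (x : Ix) : ℤ := if x 0 = x 1 ∧ x 1 = x 2 then 1 else 0
def e1 (x : Ix) : ℤ := if x 1 = 1 ∧ x 2 = 0 then 1 else 0
def e2 (x : Ix) : ℤ := if x 2 = 1 ∧ x 0 = 0 then 1 else 0
def e3 (x : Ix) : ℤ := if x 0 = 1 ∧ x 1 = 0 then 1 else 0
def nI (x : Ix) : ℤ := 2 * gI x - e1 x - e2 x - e3 x

/-- `14` times a rank three orthogonal projection. -/
def PI (x y : Ix) : ℤ :=
  7 * (gI x * gI y + e1 x * e1 y + e2 x * e2 y + e3 x * e3 y) - nI x * nI y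

lemma PI_symm : ∀ x y : Ix, PI x y = PI y x := by decide +kernel

lemma PI_sq : ∀ x y : Ix, ∑ z, PI x z * PI z y = 14 * PI x y := by decide +kernel

lemma PI_tr : ∑ x : Ix, PI x x = 42 := by decide +kernel

lemma pI_sum : ∑ x : Ix, pI x = 3 := by decide +kernel

lemma pI_01 : ∀ x : Ix, pI x = 0 ∨ pI x = 1 := by decide +kernel

lemma card_Ix : Fintype.card Ix = 8 := by decide +kernel

/-- The quantum state. -/
noncomputable def sg : Matrix Ix Ix ℂ := Matrix.of fun x y => ((PI x y : ℤ) : ℂ) / 42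

lemma sg_herm : sg.IsHermitian := by
  ext x y
  simp only [sg, conjTranspose_apply, of_apply]
  rw [PI_symm y x]
  simp

lemma sg_sq : sg * sg = (1 / 3 : ℂ) • sg := by
  ext x y
  rw [Matrix.mul_apply, Matrix.smul_apply]
  simp only [sg, of_apply, smul_eq_mul]
  have h := PI_sq x y
  have h2 : ∑ z, ((PI x z : ℤ) : ℂ) * ((PI z y : ℤ) : ℂ) = 14 * ((PI x y : ℤ) : ℂ) := by
    exact_mod_cast h
  calc ∑ z, ((PI x z : ℤ) : ℂ) / 42 * (((PI z y : ℤ) : ℂ) / 42)
      = (∑ z, ((PI x z : ℤ) : ℂ) * ((PI z y : ℤ) : ℂ)) / (42 * 42) := by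
        rw [Finset.sum_div]
        refine Finset.sum_congr rfl fun z _ => ?_
        ring
    _ = _ := by rw [h2]; ring

lemma sg_tr : sg.trace = 1 := by
  unfold Matrix.trace
  simp only [sg, diag_apply, of_apply]
  rw [← Finset.sum_div]
  have h : ∑ x : Ix, ((PI x x : ℤ) : ℂ) = 42 := by exact_mod_cast PI_tr
  rw [h]; norm_num

lemma sg_feas : ∃ U ∈ Matrix.unitaryGroup Ix ℂ, ∃ D ∈ doublyStochastic ℝ Ix,
    sg = U * Matrix.diagonal (fun x => (((D *ᵥ pp) x : ℝ) : ℂ)) * star U := by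
  have hs := sg_herm.spectral_theorem
  rw [Unitary.conjStarAlgAut_apply] at hs
  set e := sg_herm.eigenvalues with he
  set U : Matrix Ix Ix ℂ := (sg_herm.eigenvectorUnitary : Matrix Ix Ix ℂ) with hU
  have hUmem : U ∈ Matrix.unitaryGroup Ix ℂ := sg_herm.eigenvectorUnitary.2
  have hUU := Matrix.mem_unitaryGroup_iff'.mp hUmem
  have hdiag : star U * sg * U = Matrix.diagonal (RCLike.ofReal ∘ e : Ix → ℂ) := by
    rw [hs]
    calc star U * (U * Matrix.diagonal (RCLike.ofReal ∘ e : Ix → ℂ) * star U) * U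
        = (star U * U) * Matrix.diagonal (RCLike.ofReal ∘ e : Ix → ℂ) * (star U * U) := by
          simp only [Matrix.mul_assoc]
      _ = _ := by rw [hUU]; simp
  have hsq : ∀ x, e x * e x = (1 / 3) * e x := by
    intro x
    have h1 : Matrix.diagonal (RCLike.ofReal ∘ e : Ix → ℂ) * Matrix.diagonal (RCLike.ofReal ∘ e : Ix → ℂ)
        = (1 / 3 : ℂ) • Matrix.diagonal (RCLike.ofReal ∘ e : Ix → ℂ) := by
      rw [← hdiag]
      calc star U * sg * U * (star U * sg * U) = star U * sg * (U * star U) * sg * U := by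
            simp only [Matrix.mul_assoc]
        _ = star U * (sg * sg) * U := by
            rw [Matrix.mem_unitaryGroup_iff.mp hUmem]; simp [Matrix.mul_assoc]
        _ = _ := by rw [sg_sq]; simp
    have h2 := congrFun (congrFun h1 x) x
    rw [Matrix.diagonal_mul_diagonal, Matrix.diagonal_apply_eq, Matrix.smul_apply,
      Matrix.diagonal_apply_eq] at h2
    simp only [Function.comp_apply, smul_eq_mul] at h2
    have h3 : ((e x * e x : ℝ) : ℂ) = ((1 / 3 * e x : ℝ) : ℂ) := by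
      push_cast
      exact h2
    exact_mod_cast h3
  have h0 : ∀ x, 0 ≤ e x := by
    intro x
    have := hsq x
    nlinarith [mul_self_nonneg (e x)]
  have h1 : ∀ x, e x ≤ 1 / 3 := by
    intro x
    by_contra hc
    push Not at hc
    have := hsq x
    nlinarith
  have hsum : ∑ x, e x = 1 := by
    have h := sg_herm.trace_eq_sum_eigenvalues
    rw [sg_tr] at h
    have h3 : ((∑ x, e x : ℝ) : ℂ) = 1 := by
      push_cast
      exact h.symm
    exact_mod_cast h3
  have hp3 : ∑ y : Ix, (pI y : ℝ) = 3 := by exact_mod_cast pI_sum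
  have hc8 : ∑ _y : Ix, (1 : ℝ) = 8 := by
    rw [Finset.sum_const, Finset.card_univ, card_Ix]; norm_num
  refine ⟨U, hUmem, Matrix.of fun x y => (pI y : ℝ) * e x + (1 - (pI y : ℝ)) * ((1 - 3 * e x) / 5), ?_, ?_⟩
  · rw [mem_doublyStochastic_iff_sum]
    refine ⟨fun x y => ?_, fun x => ?_, fun y => ?_⟩
    · simp only [of_apply]
      have ha := h0 x
      have hb := h1 x
      rcases pI_01 y with h | h <;> rw [h] <;> push_cast
      · simp only [zero_mul, sub_zero, one_mul, zero_add]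
        apply div_nonneg <;> linarith
      · simp only [one_mul, sub_self, zero_mul, add_zero]
        exact ha
    · simp only [of_apply]
      rw [Finset.sum_add_distrib, ← Finset.sum_mul, ← Finset.sum_mul, Finset.sum_sub_distrib, hp3, hc8]
      ring
    · simp only [of_apply]
      rw [Finset.sum_add_distrib, ← Finset.mul_sum, ← Finset.mul_sum, ← Finset.sum_div,
        Finset.sum_sub_distrib, ← Finset.mul_sum, hsum, hc8]
      ring
  · have hfun : (RCLike.ofReal ∘ e : Ix → ℂ) = (fun x => ((((Matrix.of fun x y : Ix => (pI y : ℝ) * e x +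
        (1 - (pI y : ℝ)) * ((1 - 3 * e x) / 5)) *ᵥ pp) x : ℝ) : ℂ)) := ?_
    · rw [← hfun]
      exact hs
    ext x
    simp only [Function.comp_apply, mulVec, dotProduct, of_apply, pp]
    have : ∑ y : Ix, ((pI y : ℝ) * e x + (1 - (pI y : ℝ)) * ((1 - 3 * e x) / 5)) * ((pI y : ℝ) / 3)
        = e x := by
      have hterm : ∀ y : Ix, ((pI y : ℝ) * e x + (1 - (pI y : ℝ)) * ((1 - 3 * e x) / 5)) * ((pI y : ℝ) / 3)
          = (pI y : ℝ) * (e x / 3) := by
        intro y
        rcases pI_01 y with h | h <;> rw [h] <;> push_cast <;> ring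
      rw [Finset.sum_congr rfl (fun y _ => hterm y), ← Finset.sum_mul, hp3]
      ring
    rw [this]
    rfl

/-- Lower bound for the norm of a marginal of the quantum state. -/
lemma lower (I : Finset (Fin 3)) (φ : ((i : {i // i ∈ I}) → Fin (dd i.1)) → ℤ)
    (hK : ∑ a, ∑ b, ∑ c, φ a * PI (gl I a c) (gl I b c) * φ b = 404)
    (hN : ∑ a, φ a ^ 2 = 17) :
    (404 : ℝ) / 42 ≤ opn (Matrix.of fun a b : (i : {i // i ∈ I}) → Fin (dd i.1) =>
      ∑ c : ((i : {i // i ∉ I}) → Fin (dd i.1)), sg (gl I a c) (gl I b c)) * 17 := by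
  have h := opn_ge (Matrix.of fun a b : (i : {i // i ∈ I}) → Fin (dd i.1) =>
      ∑ c : ((i : {i // i ∉ I}) → Fin (dd i.1)), sg (gl I a c) (gl I b c)) (fun a => ((φ a : ℤ) : ℂ))
  have h1 : ∑ i, ‖((φ i : ℤ) : ℂ)‖ ^ 2 = 17 := by
    have : ∀ i, ‖((φ i : ℤ) : ℂ)‖ ^ 2 = ((φ i ^ 2 : ℤ) : ℝ) := by
      intro i
      rw [Complex.norm_intCast]
      push_cast
      rw [sq_abs]
    rw [Finset.sum_congr rfl (fun i _ => this i)]
    exact_mod_cast hN
  rw [h1] at h
  refine le_trans (le_of_eq ?_) h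
  have h2 : (star (fun a => ((φ a : ℤ) : ℂ)) ⬝ᵥ (Matrix.of fun a b : (i : {i // i ∈ I}) → Fin (dd i.1) =>
      ∑ c : ((i : {i // i ∉ I}) → Fin (dd i.1)), sg (gl I a c) (gl I b c)) *ᵥ (fun a => ((φ a : ℤ) : ℂ)))
      = ((404 / 42 : ℝ) : ℂ) := by
    have h3 : ∑ a, ∑ b, ∑ c, ((φ a : ℤ) : ℂ) * ((PI (gl I a c) (gl I b c) : ℤ) : ℂ) * ((φ b : ℤ) : ℂ) = 404 := by
      exact_mod_cast hK
    simp only [dotProduct, mulVec, of_apply, sg, Pi.star_apply, Complex.star_def, map_intCast]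
    push_cast
    rw [← h3, Finset.sum_div]
    refine Finset.sum_congr rfl fun a _ => ?_
    rw [Finset.mul_sum, Finset.sum_div]
    refine Finset.sum_congr rfl fun b _ => ?_
    rw [Finset.sum_mul, Finset.mul_sum, Finset.sum_div]
    refine Finset.sum_congr rfl fun c _ => ?_
    ring
  rw [h2]
  simp

def φ01 (a : (i : {i // i ∈ ({0, 1} : Finset (Fin 3))}) → Fin (dd i.1)) : ℤ :=
  if a ⟨0, by decide⟩ = 0 then (if a ⟨1, by decide⟩ = 0 then 2 else 3)
  else (if a ⟨1, by decide⟩ = 0 then 0 else 2)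

def φ12 (a : (i : {i // i ∈ ({1, 2} : Finset (Fin 3))}) → Fin (dd i.1)) : ℤ :=
  if a ⟨1, by decide⟩ = 0 then (if a ⟨2, by decide⟩ = 0 then 2 else 3)
  else (if a ⟨2, by decide⟩ = 0 then 0 else 2)

def φ02 (a : (i : {i // i ∈ ({0, 2} : Finset (Fin 3))}) → Fin (dd i.1)) : ℤ :=
  if a ⟨2, by decide⟩ = 0 then (if a ⟨0, by decide⟩ = 0 then 2 else 3)
  else (if a ⟨0, by decide⟩ = 0 then 0 else 2)

lemma N01 : ∑ a, φ01 a ^ 2 = 17 := by decide +kernel
lemma N12 : ∑ a, φ12 a ^ 2 = 17 := by decide +kernel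
lemma N02 : ∑ a, φ02 a ^ 2 = 17 := by decide +kernel

lemma K01 : ∑ a, ∑ b, ∑ c, φ01 a * PI (gl {0, 1} a c) (gl {0, 1} b c) * φ01 b = 404 := by
  decide +kernel
lemma K12 : ∑ a, ∑ b, ∑ c, φ12 a * PI (gl {1, 2} a c) (gl {1, 2} b c) * φ12 b = 404 := by
  decide +kernel
lemma K02 : ∑ a, ∑ b, ∑ c, φ02 a * PI (gl {0, 2} a c) (gl {0, 2} b c) * φ02 b = 404 := by
  decide +kernel

/-- multiplicity of a cell in three lines -/
def mu (a : (i : {i // i ∈ ({0, 1} : Finset (Fin 3))}) → Fin (dd i.1))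
    (b : (i : {i // i ∈ ({0, 2} : Finset (Fin 3))}) → Fin (dd i.1))
    (c : (i : {i // i ∈ ({1, 2} : Finset (Fin 3))}) → Fin (dd i.1)) (x : Ix) : ℕ :=
  (if ∀ i, x (i : {i // i ∈ ({0, 1} : Finset (Fin 3))}).1 = a i then 1 else 0)
  + (if ∀ i, x (i : {i // i ∈ ({0, 2} : Finset (Fin 3))}).1 = b i then 1 else 0)
  + (if ∀ i, x (i : {i // i ∈ ({1, 2} : Finset (Fin 3))}).1 = c i then 1 else 0)

lemma mu_bound : ∀ a b c, ∑ x : Ix, (mu a b c x - 1) ≤ 2 := by decide +kernel

/-- A marginal probability as a sum over all cells. -/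
lemma marg_eq (I : Finset (Fin 3)) (q : Ix → ℝ) (a : (i : {i // i ∈ I}) → Fin (dd i.1)) :
    ∑ c, q (gl I a c) = ∑ x : Ix, (if ∀ i : {i // i ∈ I}, x i.1 = a i then 1 else 0) * q x := by
  rw [sum_gl I]
  rw [Finset.sum_eq_single a]
  · refine Finset.sum_congr rfl fun c _ => ?_
    rw [if_pos, one_mul]
    intro i
    simp [gl, i.2]
  · intro b _ hb
    refine Finset.sum_eq_zero fun c _ => ?_
    rw [if_neg, zero_mul]
    intro h
    apply hb
    ext1 i
    rw [← h i]
    simp [gl, i.2]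
  · intro h
    exact absurd (Finset.mem_univ a) h

lemma exists_norm_le {ι : Type*} [Fintype ι] [Nonempty ι] (v : ι → ℂ) : ∃ a, ‖v‖ ≤ ‖v a‖ := by
  by_contra h
  push Not at h
  obtain ⟨a0⟩ := ‹Nonempty ι›
  have h0 : 0 < ‖v‖ := lt_of_le_of_lt (norm_nonneg _) (h a0)
  exact lt_irrefl _ ((pi_norm_lt_iff h0).mpr h)

/-- The classical upper bound. -/
lemma classical (q : Ix → ℝ) (h0 : ∀ x, 0 ≤ q x) (h1 : ∀ x, q x ≤ 1 / 3) (hs : ∑ x, q x = 1)
    (a : (i : {i // i ∈ ({0, 1} : Finset (Fin 3))}) → Fin (dd i.1))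
    (b : (i : {i // i ∈ ({0, 2} : Finset (Fin 3))}) → Fin (dd i.1))
    (c : (i : {i // i ∈ ({1, 2} : Finset (Fin 3))}) → Fin (dd i.1)) :
    ∑ z, q (gl {0, 1} a z) + ∑ z, q (gl {0, 2} b z) + ∑ z, q (gl {1, 2} c z) ≤ 5 / 3 := by
  rw [marg_eq, marg_eq, marg_eq, ← Finset.sum_add_distrib, ← Finset.sum_add_distrib]
  have hterm : ∀ x : Ix, ((if ∀ i, x (i : {i // i ∈ ({0, 1} : Finset (Fin 3))}).1 = a i then 1 else 0) * q x
      + (if ∀ i, x (i : {i // i ∈ ({0, 2} : Finset (Fin 3))}).1 = b i then 1 else 0) * q x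
      + (if ∀ i, x (i : {i // i ∈ ({1, 2} : Finset (Fin 3))}).1 = c i then 1 else 0) * q x)
      ≤ q x + (1 / 3) * ((mu a b c x - 1 : ℕ) : ℝ) := by
    intro x
    have e : ((if ∀ i, x (i : {i // i ∈ ({0, 1} : Finset (Fin 3))}).1 = a i then 1 else 0) * q x
      + (if ∀ i, x (i : {i // i ∈ ({0, 2} : Finset (Fin 3))}).1 = b i then 1 else 0) * q x
      + (if ∀ i, x (i : {i // i ∈ ({1, 2} : Finset (Fin 3))}).1 = c i then 1 else 0) * q x)
      = ((mu a b c x : ℕ) : ℝ) * q x := by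
      unfold mu
      push_cast
      ring
    rw [e]
    have hx0 := h0 x
    have hx1 := h1 x
    rcases Nat.eq_zero_or_pos (mu a b c x) with hm | hm
    · rw [hm]; simp; exact hx0
    · have : ((mu a b c x : ℕ) : ℝ) = ((mu a b c x - 1 : ℕ) : ℝ) + 1 := by
        have h := Nat.succ_pred_eq_of_pos hm
        rw [Nat.pred_eq_sub_one] at h
        exact_mod_cast h.symm
      have hnn : (0 : ℝ) ≤ ((mu a b c x - 1 : ℕ) : ℝ) := Nat.cast_nonneg _
      rw [this]
      nlinarith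
  refine le_trans (Finset.sum_le_sum fun x _ => hterm x) ?_
  rw [Finset.sum_add_distrib, hs, ← Finset.mul_sum]
  have hb : (∑ x : Ix, ((mu a b c x - 1 : ℕ) : ℝ)) ≤ 2 := by
    exact_mod_cast mu_bound a b c
  linarith

lemma sum_card_two (g : Finset (Fin 3) → ℝ) (hg : ∀ I, I.card ≠ 2 → g I = 0) :
    ∑ I : Finset (Fin 3), g I = g {0, 1} + g {0, 2} + g {1, 2} := by
  have hu : (Finset.univ : Finset (Finset (Fin 3)))
      = {∅, {0}, {1}, {2}, {0, 1}, {0, 2}, {1, 2}, {0, 1, 2}} := by decide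
  rw [hu]
  rw [Finset.sum_insert (by decide), Finset.sum_insert (by decide), Finset.sum_insert (by decide),
    Finset.sum_insert (by decide), Finset.sum_insert (by decide), Finset.sum_insert (by decide),
    Finset.sum_insert (by decide), Finset.sum_singleton]
  rw [hg ∅ (by decide), hg {0} (by decide), hg {1} (by decide), hg {2} (by decide),
    hg {0, 1, 2} (by decide)]
  ring

/-- The objective functions. -/
noncomputable def ff (I : Finset (Fin 3)) :
    Matrix ((i : {i // i ∈ I}) → Fin (dd i.1)) ((i : {i // i ∈ I}) → Fin (dd i.1)) ℂ → ℝ :=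
  if I.card = 2 then opn else fun _ => 0

end example3

lemma convex_states (m : Type*) [Fintype m] [DecidableEq m] :
    Convex ℝ {ρ : Matrix m m ℂ | ρ.PosSemidef ∧ ρ.trace = 1} := by
  intro x hx y hy a b ha hb hab
  refine ⟨?_, ?_⟩
  · have h1 : (a • x).PosSemidef := by
      have := hx.1.smul (a := (a : ℂ)) (by exact_mod_cast ha)
      exact this
    have h2 : (b • y).PosSemidef := by
      have := hy.1.smul (a := (b : ℂ)) (by exact_mod_cast hb)
      exact this
    exact h1.add h2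
  · rw [trace_add, trace_smul, trace_smul, hx.2, hy.2]
    rw [Complex.real_smul, Complex.real_smul]
    rw [← add_mul]
    norm_cast
    simp [hab]

/-- The negation of the preceding statement: For continuous, convex, unitarily invariant f_I on subsystem states, some state with spectrum majorized by p, diagonal in a product of local bases, maximizes the sum over all I of f_I of its reduced states. -/
theorem result :
    ¬ (∀ (n : ℕ) (d : Fin n → ℕ) (p : ((i : Fin n) → Fin (d i)) → ℝ)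
      (f : (I : Finset (Fin n)) →
        Matrix ((i : {i // i ∈ I}) → Fin (d i.1)) ((i : {i // i ∈ I}) → Fin (d i.1)) ℂ → ℝ),
      (∀ x, 0 ≤ p x) → ∑ x, p x = 1 →
      (∀ I : Finset (Fin n), ContinuousOn (f I)
        {ρ : Matrix ((i : {i // i ∈ I}) → Fin (d i.1)) ((i : {i // i ∈ I}) → Fin (d i.1)) ℂ |
          ρ.PosSemidef ∧ ρ.trace = 1}) →
      (∀ I : Finset (Fin n), ConvexOn ℝ
        {ρ : Matrix ((i : {i // i ∈ I}) → Fin (d i.1)) ((i : {i // i ∈ I}) → Fin (d i.1)) ℂ |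
          ρ.PosSemidef ∧ ρ.trace = 1} (f I)) →
      (∀ I : Finset (Fin n),
        ∀ U ∈ Matrix.unitaryGroup ((i : {i // i ∈ I}) → Fin (d i.1)) ℂ,
        ∀ ρ : Matrix ((i : {i // i ∈ I}) → Fin (d i.1)) ((i : {i // i ∈ I}) → Fin (d i.1)) ℂ,
          ρ.PosSemidef → ρ.trace = 1 → f I (U * ρ * star U) = f I ρ) →
      ∃ τ : Matrix ((i : Fin n) → Fin (d i)) ((i : Fin n) → Fin (d i)) ℂ,
        (∃ U ∈ Matrix.unitaryGroup ((i : Fin n) → Fin (d i)) ℂ,
          ∃ D ∈ doublyStochastic ℝ ((i : Fin n) → Fin (d i)),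
            τ = U * Matrix.diagonal (fun x => (((D *ᵥ p) x : ℝ) : ℂ)) * star U) ∧
        (∃ W : (i : Fin n) → Matrix (Fin (d i)) (Fin (d i)) ℂ,
          (∀ i, W i ∈ Matrix.unitaryGroup (Fin (d i)) ℂ) ∧
          ∃ q : ((i : Fin n) → Fin (d i)) → ℝ,
            τ = Matrix.of (fun x y => ∏ i, W i (x i) (y i)) *
                Matrix.diagonal (fun x => ((q x : ℝ) : ℂ)) *
                star (Matrix.of (fun x y => ∏ i, W i (x i) (y i)))) ∧
        ∀ σ : Matrix ((i : Fin n) → Fin (d i)) ((i : Fin n) → Fin (d i)) ℂ,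
          (∃ U ∈ Matrix.unitaryGroup ((i : Fin n) → Fin (d i)) ℂ,
            ∃ D ∈ doublyStochastic ℝ ((i : Fin n) → Fin (d i)),
              σ = U * Matrix.diagonal (fun x => (((D *ᵥ p) x : ℝ) : ℂ)) * star U) →
          ∑ I : Finset (Fin n), f I (Matrix.of fun a b =>
              ∑ c : ((i : {i // i ∉ I}) → Fin (d i.1)),
                σ (fun i => if h : i ∈ I then a ⟨i, h⟩ else c ⟨i, h⟩)
                  (fun i => if h : i ∈ I then b ⟨i, h⟩ else c ⟨i, h⟩))
          ≤ ∑ I : Finset (Fin n), f I (Matrix.of fun a b =>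
              ∑ c : ((i : {i // i ∉ I}) → Fin (d i.1)),
                τ (fun i => if h : i ∈ I then a ⟨i, h⟩ else c ⟨i, h⟩)
                  (fun i => if h : i ∈ I then b ⟨i, h⟩ else c ⟨i, h⟩))) := by
  intro H
  have hp3 : ∑ y : Ix, (pI y : ℝ) = 3 := by exact_mod_cast pI_sum
  obtain ⟨τ, ⟨U, hU, D, hD, hτ⟩, ⟨W, hW, q, hq⟩, hmax⟩ := H 3 dd pp ff
    (by
      intro x
      unfold pp
      rcases pI_01 x with h | h <;> rw [h] <;> norm_num)
    (by
      unfold pp
      rw [← Finset.sum_div, hp3]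
      norm_num)
    (by
      intro I
      unfold ff
      split_ifs
      · exact opn_cont.continuousOn
      · exact continuousOn_const)
    (by
      intro I
      unfold ff
      split_ifs
      · exact opn_conv _ (convex_states _)
      · exact convexOn_const _ (convex_states _))
    (by
      intro I V hV ρ _ _
      unfold ff
      split_ifs
      · exact opn_unitary V hV ρ
      · rfl)
  -- the quantum state beats the bound
  have hσ := hmax sg sg_feas
  rw [sum_card_two _ (by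
    intro I hI
    simp only [ff, if_neg hI])] at hσ
  rw [sum_card_two _ (by
    intro I hI
    simp only [ff, if_neg hI])] at hσ
  have c01 : ({0, 1} : Finset (Fin 3)).card = 2 := by decide
  have c02 : ({0, 2} : Finset (Fin 3)).card = 2 := by decide
  have c12 : ({1, 2} : Finset (Fin 3)).card = 2 := by decide
  simp only [ff, if_pos c01, if_pos c02, if_pos c12] at hσ
  have l01 := lower {0, 1} φ01 K01 N01
  have l02 := lower {0, 2} φ02 K02 N02
  have l12 := lower {1, 2} φ12 K12 N12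
  -- the classical state
  have hτ' : fullMat W * Matrix.diagonal (fun x => ((q x : ℝ) : ℂ)) * star (fullMat W)
      = U * Matrix.diagonal (fun x => (((D *ᵥ pp) x : ℝ) : ℂ)) * star U := by
    rw [← hτ]
    exact hq.symm
  have hDp0 : ∀ x, 0 ≤ (D *ᵥ pp) x := by
    intro x
    have hD' := (mem_doublyStochastic_iff_sum.mp hD)
    show 0 ≤ ∑ y, D x y * pp y
    refine Finset.sum_nonneg fun y _ => mul_nonneg (hD'.1 x y) ?_
    unfold pp
    rcases pI_01 y with h | h <;> rw [h] <;> norm_num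
  have hDp1 : ∀ x, (D *ᵥ pp) x ≤ 1 / 3 := by
    intro x
    have hD' := (mem_doublyStochastic_iff_sum.mp hD)
    calc (D *ᵥ pp) x = ∑ y, D x y * pp y := rfl
      _ ≤ ∑ y, D x y * (1 / 3) := by
          refine Finset.sum_le_sum fun y _ => mul_le_mul_of_nonneg_left ?_ (hD'.1 x y)
          unfold pp
          rcases pI_01 y with h | h <;> rw [h] <;> norm_num
      _ = 1 / 3 := by rw [← Finset.sum_mul, hD'.2.1 x, one_mul]
  have hDps : ∑ x, (D *ᵥ pp) x = 1 := by
    have hD' := (mem_doublyStochastic_iff_sum.mp hD)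
    calc ∑ x, (D *ᵥ pp) x = ∑ x, ∑ y, D x y * pp y := rfl
      _ = ∑ y, pp y := by
          rw [Finset.sum_comm]
          refine Finset.sum_congr rfl fun y _ => ?_
          rw [← Finset.sum_mul, hD'.2.2 y, one_mul]
      _ = 1 := by
          unfold pp
          rw [← Finset.sum_div, hp3]
          norm_num
  obtain ⟨hq0, hq1, hqs⟩ := q_bounds (fullMat W) U (fullMat_unitary W hW) hU q (D *ᵥ pp) (1 / 3)
    hτ' hDp0 hDp1
  rw [hDps] at hqs
  have hmarg : ∀ I : Finset (Fin 3),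
      ∃ a : (i : {i // i ∈ I}) → Fin (dd i.1), opn (Matrix.of fun a b : (i : {i // i ∈ I}) → Fin (dd i.1) =>
      ∑ c : ((i : {i // i ∉ I}) → Fin (dd i.1)), τ (gl I a c) (gl I b c)) ≤ ∑ z, q (gl I a z) := by
    intro I
    have hτq : τ = fullMat W * Matrix.diagonal (fun x => ((q x : ℝ) : ℂ)) * star (fullMat W) := hq
    rw [hτq, marg I W hW q, opn_unitary _ (prodIn_unitary I W hW), opn_diagonal]
    have : Nonempty ((i : {i // i ∈ I}) → Fin (dd i.1)) := ⟨fun _ => 0⟩
    obtain ⟨a, ha⟩ := exists_norm_le (fun a : (i : {i // i ∈ I}) → Fin (dd i.1) =>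
      (((∑ c, q (gl I a c)) : ℝ) : ℂ))
    refine ⟨a, le_trans ha ?_⟩
    rw [Complex.norm_real, Real.norm_of_nonneg (Finset.sum_nonneg fun z _ => hq0 _)]
  obtain ⟨a, ha⟩ := hmarg {0, 1}
  obtain ⟨b, hb⟩ := hmarg {0, 2}
  obtain ⟨c, hc⟩ := hmarg {1, 2}
  have hcl := classical q hq0 hq1 hqs a b c
  have hσ' : opn (Matrix.of fun a b : (i : {i // i ∈ ({0, 1} : Finset (Fin 3))}) → Fin (dd i.1) =>
      ∑ c : ((i : {i // i ∉ ({0, 1} : Finset (Fin 3))}) → Fin (dd i.1)), sg (gl {0, 1} a c) (gl {0, 1} b c))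
      + opn (Matrix.of fun a b : (i : {i // i ∈ ({0, 2} : Finset (Fin 3))}) → Fin (dd i.1) =>
      ∑ c : ((i : {i // i ∉ ({0, 2} : Finset (Fin 3))}) → Fin (dd i.1)), sg (gl {0, 2} a c) (gl {0, 2} b c))
      + opn (Matrix.of fun a b : (i : {i // i ∈ ({1, 2} : Finset (Fin 3))}) → Fin (dd i.1) =>
      ∑ c : ((i : {i // i ∉ ({1, 2} : Finset (Fin 3))}) → Fin (dd i.1)), sg (gl {1, 2} a c) (gl {1, 2} b c))
      ≤ opn (Matrix.of fun a b : (i : {i // i ∈ ({0, 1} : Finset (Fin 3))}) → Fin (dd i.1) =>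
      ∑ c : ((i : {i // i ∉ ({0, 1} : Finset (Fin 3))}) → Fin (dd i.1)), τ (gl {0, 1} a c) (gl {0, 1} b c))
      + opn (Matrix.of fun a b : (i : {i // i ∈ ({0, 2} : Finset (Fin 3))}) → Fin (dd i.1) =>
      ∑ c : ((i : {i // i ∉ ({0, 2} : Finset (Fin 3))}) → Fin (dd i.1)), τ (gl {0, 2} a c) (gl {0, 2} b c))
      + opn (Matrix.of fun a b : (i : {i // i ∈ ({1, 2} : Finset (Fin 3))}) → Fin (dd i.1) =>
      ∑ c : ((i : {i // i ∉ ({1, 2} : Finset (Fin 3))}) → Fin (dd i.1)), τ (gl {1, 2} a c) (gl {1, 2} b c)) := hσ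
  linarith

end Pool.Agent.S09884
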