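import Pool.Statements.S09895
import Mathlib

set_option autoImplicit false

namespace Pool.Agent.S09895.PartA

/-- A positive function on the line cannot have negative second derivative everywhere. -/
theorem no_pos_concave (h h1 h2 : ℝ → ℝ) (H1 : ∀ t, HasDerivAt h (h1 t) t)
    (H2 : ∀ t, HasDerivAt h1 (h2 t) t) (neg : ∀ t, h2 t < 0) (pos : ∀ t, 0 < h t) : False := by
  have hanti : StrictAnti h1 := by
    apply strictAnti_of_deriv_neg
    intro t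
    rw [(H2 t).deriv]
    exact neg t
  -- tangent line inequality
  have tangent : ∀ s t, h t ≤ h s + h1 s * (t - s) := by
    intro s t
    rcases lt_trichotomy s t with hst | hst | hst
    · obtain ⟨c, hc, hc'⟩ := exists_hasDerivAt_eq_slope h h1 hst
        (fun x _ => (H1 x).continuousAt.continuousWithinAt) (fun x _ => H1 x)
      have h3 : h1 c < h1 s := hanti hc.1
      have h4 : 0 < t - s := by linarith
      rw [eq_div_iff (by linarith)] at hc'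
      nlinarith
    · subst hst; simp
    · obtain ⟨c, hc, hc'⟩ := exists_hasDerivAt_eq_slope h h1 hst
        (fun x _ => (H1 x).continuousAt.continuousWithinAt) (fun x _ => H1 x)
      have h3 : h1 s < h1 c := hanti hc.2
      have h4 : 0 < s - t := by linarith
      rw [eq_div_iff (by linarith)] at hc'
      nlinarith
  have key : ∀ s, h1 s = 0 := by
    intro s
    by_contra hne
    have h5 := tangent s (s - (h s) / (h1 s))
    have h6 := pos (s - (h s) / (h1 s))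
    have h7 : h1 s * (s - (h s) / (h1 s) - s) = - h s := by
      field_simp
      ring
    linarith
  have h8 : h1 1 < h1 0 := hanti (by norm_num)
  rw [key 1, key 0] at h8
  exact lt_irrefl _ h8

/-- one relative vector of the planar three-body problem with its inverse length -/
structure Pr (x y vx vy p X Y : ℝ → ℝ) : Prop where
  hx : ∀ t, HasDerivAt x (vx t) t
  hy : ∀ t, HasDerivAt y (vy t) t
  hvx : ∀ t, HasDerivAt vx (-3 * x t * p t ^ 3 + X t) t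
  hvy : ∀ t, HasDerivAt vy (-3 * y t * p t ^ 3 + Y t) t
  pos : ∀ t, 0 < p t
  nrm : ∀ t, p t ^ 2 * (x t ^ 2 + y t ^ 2) = 1

theorem Pr.p_eq {x y vx vy p X Y : ℝ → ℝ} (h : Pr x y vx vy p X Y) (t : ℝ) :
    p t = (Real.sqrt (x t ^ 2 + y t ^ 2))⁻¹ := by
  have h1 := h.pos t
  have h2 := h.nrm t
  have h3 : x t ^ 2 + y t ^ 2 = ((p t)⁻¹) ^ 2 := by
    field_simp
    linarith
  rw [h3, Real.sqrt_sq (by positivity), inv_inv]

theorem Pr.normsq_pos {x y vx vy p X Y : ℝ → ℝ} (h : Pr x y vx vy p X Y) (t : ℝ) :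
    0 < x t ^ 2 + y t ^ 2 := by
  have h1 := h.pos t
  have h2 := h.nrm t
  by_contra hcon
  have h3 : x t ^ 2 + y t ^ 2 = 0 := le_antisymm (not_lt.mp hcon) (by positivity)
  rw [h3] at h2
  norm_num at h2

theorem Pr.dp {x y vx vy p X Y : ℝ → ℝ} (h : Pr x y vx vy p X Y) (t : ℝ) :
    HasDerivAt p (-(x t * vx t + y t * vy t) * p t ^ 3) t := by
  have h0 := h.normsq_pos t
  have hp : p = fun s => (Real.sqrt (x s ^ 2 + y s ^ 2))⁻¹ := by
    funext s; exact h.p_eq s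
  have hn : HasDerivAt (fun s => x s ^ 2 + y s ^ 2) (2 * (x t * vx t + y t * vy t)) t := by
    have h1 := ((h.hx t).pow 2).add ((h.hy t).pow 2)
    refine h1.congr_deriv ?_
    push_cast
    ring
  have hs := hn.sqrt (ne_of_gt h0)
  have hs0 : Real.sqrt (x t ^ 2 + y t ^ 2) ≠ 0 := by
    exact (Real.sqrt_pos.mpr h0).ne'
  have hi := hs.inv hs0
  have hpt := h.p_eq t
  rw [hpt]
  rw [hp]
  refine hi.congr_deriv ?_
  set R := Real.sqrt (x t ^ 2 + y t ^ 2) with hR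
  field_simp

/-- dot product of position and velocity -/
def Dd (x y vx vy : ℝ → ℝ) (t : ℝ) : ℝ := x t * vx t + y t * vy t
/-- its derivative -/
def De (x y vx vy p X Y : ℝ → ℝ) (t : ℝ) : ℝ :=
  vx t ^ 2 + vy t ^ 2 - 3 * p t + (x t * X t + y t * Y t)
def De1 (x y vx vy p X Y X1 Y1 : ℝ → ℝ) (t : ℝ) : ℝ :=
  -3 * Dd x y vx vy t * p t ^ 3 + 3 * (vx t * X t + vy t * Y t) + (x t * X1 t + y t * Y1 t)
def De2 (x y vx vy p X Y X1 Y1 X2 Y2 : ℝ → ℝ) (t : ℝ) : ℝ :=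
  -3 * De x y vx vy p X Y t * p t ^ 3 + 9 * Dd x y vx vy t ^ 2 * p t ^ 5
  + 3 * ((-3 * x t * p t ^ 3 + X t) * X t + (-3 * y t * p t ^ 3 + Y t) * Y t)
  + 4 * (vx t * X1 t + vy t * Y1 t) + (x t * X2 t + y t * Y2 t)

theorem Pr.dD {x y vx vy p X Y : ℝ → ℝ} (h : Pr x y vx vy p X Y) (t : ℝ) :
    HasDerivAt (Dd x y vx vy) (De x y vx vy p X Y t) t := by
  have h1 := ((h.hx t).mul (h.hvx t)).add ((h.hy t).mul (h.hvy t))
  refine h1.congr_deriv ?_
  have h2 := h.nrm t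
  unfold De
  linear_combination (-3 * p t) * h2

theorem Pr.dE {x y vx vy p X Y X1 Y1 : ℝ → ℝ} (h : Pr x y vx vy p X Y)
    (hX : ∀ t, HasDerivAt X (X1 t) t) (hY : ∀ t, HasDerivAt Y (Y1 t) t) (t : ℝ) :
    HasDerivAt (De x y vx vy p X Y) (De1 x y vx vy p X Y X1 Y1 t) t := by
  have h1 := (((((h.hvx t).pow 2).add ((h.hvy t).pow 2)).sub ((h.dp t).const_mul 3))).add
    (((h.hx t).mul (hX t)).add ((h.hy t).mul (hY t)))
  refine h1.congr_deriv ?_
  unfold De1 Dd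
  push_cast
  ring

theorem Pr.dE1 {x y vx vy p X Y X1 Y1 X2 Y2 : ℝ → ℝ} (h : Pr x y vx vy p X Y)
    (hX : ∀ t, HasDerivAt X (X1 t) t) (hY : ∀ t, HasDerivAt Y (Y1 t) t)
    (hX1 : ∀ t, HasDerivAt X1 (X2 t) t) (hY1 : ∀ t, HasDerivAt Y1 (Y2 t) t) (t : ℝ) :
    HasDerivAt (De1 x y vx vy p X Y X1 Y1) (De2 x y vx vy p X Y X1 Y1 X2 Y2 t) t := by
  have h1 := ((((h.dD t).const_mul (-3)).mul ((h.dp t).pow 3)).add
    ((((h.hvx t).mul (hX t)).add ((h.hvy t).mul (hY t))).const_mul 3)).add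
    (((h.hx t).mul (hX1 t)).add ((h.hy t).mul (hY1 t)))
  refine h1.congr_deriv ?_
  unfold De2 Dd
  push_cast
  simp only [Pi.mul_apply, Pi.pow_apply]
  ring

/-- successive derivatives of the inverse distance -/
def F1 (x y vx vy p : ℝ → ℝ) (t : ℝ) : ℝ := -(Dd x y vx vy t) * p t ^ 3
def F2 (x y vx vy p X Y : ℝ → ℝ) (t : ℝ) : ℝ :=
  -(De x y vx vy p X Y t) * p t ^ 3 + 3 * Dd x y vx vy t ^ 2 * p t ^ 5
def F3 (x y vx vy p X Y X1 Y1 : ℝ → ℝ) (t : ℝ) : ℝ :=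
  -(De1 x y vx vy p X Y X1 Y1 t) * p t ^ 3
  + 9 * De x y vx vy p X Y t * Dd x y vx vy t * p t ^ 5
  - 15 * Dd x y vx vy t ^ 3 * p t ^ 7
def F4 (x y vx vy p X Y X1 Y1 X2 Y2 : ℝ → ℝ) (t : ℝ) : ℝ :=
  -(De2 x y vx vy p X Y X1 Y1 X2 Y2 t) * p t ^ 3
  + 12 * De1 x y vx vy p X Y X1 Y1 t * Dd x y vx vy t * p t ^ 5
  + 9 * De x y vx vy p X Y t ^ 2 * p t ^ 5
  - 90 * De x y vx vy p X Y t * Dd x y vx vy t ^ 2 * p t ^ 7
  + 105 * Dd x y vx vy t ^ 4 * p t ^ 9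

theorem Pr.dF1 {x y vx vy p X Y : ℝ → ℝ} (h : Pr x y vx vy p X Y) (t : ℝ) :
    HasDerivAt (F1 x y vx vy p) (F2 x y vx vy p X Y t) t := by
  have h1 := ((h.dD t).neg).mul ((h.dp t).pow 3)
  refine h1.congr_deriv ?_
  unfold F2 Dd
  push_cast
  simp only [Pi.neg_apply, Pi.pow_apply, Dd]
  ring

theorem Pr.dF2 {x y vx vy p X Y X1 Y1 : ℝ → ℝ} (h : Pr x y vx vy p X Y)
    (hX : ∀ t, HasDerivAt X (X1 t) t) (hY : ∀ t, HasDerivAt Y (Y1 t) t) (t : ℝ) :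
    HasDerivAt (F2 x y vx vy p X Y) (F3 x y vx vy p X Y X1 Y1 t) t := by
  have h1 := (((h.dE hX hY t).neg).mul ((h.dp t).pow 3)).add
    ((((h.dD t).pow 2).const_mul 3).mul ((h.dp t).pow 5))
  refine h1.congr_deriv ?_
  unfold F3
  push_cast
  simp only [Pi.neg_apply, Pi.pow_apply, Pi.mul_apply, Dd]
  ring

theorem Pr.dF3 {x y vx vy p X Y X1 Y1 X2 Y2 : ℝ → ℝ} (h : Pr x y vx vy p X Y)
    (hX : ∀ t, HasDerivAt X (X1 t) t) (hY : ∀ t, HasDerivAt Y (Y1 t) t)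
    (hX1 : ∀ t, HasDerivAt X1 (X2 t) t) (hY1 : ∀ t, HasDerivAt Y1 (Y2 t) t) (t : ℝ) :
    HasDerivAt (F3 x y vx vy p X Y X1 Y1) (F4 x y vx vy p X Y X1 Y1 X2 Y2 t) t := by
  have h1 := ((((h.dE1 hX hY hX1 hY1 t).neg).mul ((h.dp t).pow 3)).add
    ((((h.dE hX hY t).const_mul 9).mul (h.dD t)).mul ((h.dp t).pow 5))).sub
    ((((h.dD t).pow 3).const_mul 15).mul ((h.dp t).pow 7))
  refine h1.congr_deriv ?_
  unfold F4
  push_cast
  simp only [Pi.neg_apply, Pi.pow_apply, Pi.mul_apply, Dd]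
  ring

/-- one component of the sum of the three attraction vectors -/
def Zf (x p y q z r : ℝ → ℝ) (t : ℝ) : ℝ := x t * p t ^ 3 + y t * q t ^ 3 + z t * r t ^ 3

/-- component derivatives of x p^3 -/
def C1 (x v D p : ℝ → ℝ) (t : ℝ) : ℝ := v t * p t ^ 3 - 3 * x t * D t * p t ^ 5
def C2 (x v D E p X : ℝ → ℝ) (t : ℝ) : ℝ :=
  (-3 * x t * p t ^ 3 + X t) * p t ^ 3 - 6 * v t * D t * p t ^ 5 - 3 * x t * E t * p t ^ 5
  + 15 * x t * D t ^ 2 * p t ^ 7

theorem Pr.dC0x {x y vx vy p X Y : ℝ → ℝ} (h : Pr x y vx vy p X Y) (t : ℝ) :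
    HasDerivAt (fun s => x s * p s ^ 3) (C1 x vx (Dd x y vx vy) p t) t := by
  have h1 := (h.hx t).mul ((h.dp t).pow 3)
  refine h1.congr_deriv ?_
  unfold C1 Dd
  push_cast
  simp only [Pi.pow_apply]
  ring

theorem Pr.dC0y {x y vx vy p X Y : ℝ → ℝ} (h : Pr x y vx vy p X Y) (t : ℝ) :
    HasDerivAt (fun s => y s * p s ^ 3) (C1 y vy (Dd x y vx vy) p t) t := by
  have h1 := (h.hy t).mul ((h.dp t).pow 3)
  refine h1.congr_deriv ?_
  unfold C1 Dd
  push_cast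
  simp only [Pi.pow_apply]
  ring

theorem Pr.dC1x {x y vx vy p X Y : ℝ → ℝ} (h : Pr x y vx vy p X Y) (t : ℝ) :
    HasDerivAt (C1 x vx (Dd x y vx vy) p)
      (C2 x vx (Dd x y vx vy) (De x y vx vy p X Y) p X t) t := by
  have h1 := ((h.hvx t).mul ((h.dp t).pow 3)).sub
    ((((h.hx t).const_mul 3).mul (h.dD t)).mul ((h.dp t).pow 5))
  refine h1.congr_deriv ?_
  unfold C2
  push_cast
  simp only [Pi.pow_apply, Pi.mul_apply, Dd]
  ring

theorem Pr.dC1y {x y vx vy p X Y : ℝ → ℝ} (h : Pr x y vx vy p X Y) (t : ℝ) :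
    HasDerivAt (C1 y vy (Dd x y vx vy) p)
      (C2 y vy (Dd x y vx vy) (De x y vx vy p X Y) p Y t) t := by
  have h1 := ((h.hvy t).mul ((h.dp t).pow 3)).sub
    ((((h.hy t).const_mul 3).mul (h.dD t)).mul ((h.dp t).pow 5))
  refine h1.congr_deriv ?_
  unfold C2
  push_cast
  simp only [Pi.pow_apply, Pi.mul_apply, Dd]
  ring

/-- relative form of an equal-mass planar three-body motion along which the potential is
constantly twice the energy, with zero angular momentum -/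
structure Sys (E : ℝ) (u1 u2 a1 a2 p v1 v2 b1 b2 q w1 w2 c1 c2 r : ℝ → ℝ) : Prop where
  Epos : 0 < E
  hu : Pr u1 u2 a1 a2 p (Zf u1 p v1 q w1 r) (Zf u2 p v2 q w2 r)
  hv : Pr v1 v2 b1 b2 q (Zf u1 p v1 q w1 r) (Zf u2 p v2 q w2 r)
  hw : Pr w1 w2 c1 c2 r (Zf u1 p v1 q w1 r) (Zf u2 p v2 q w2 r)
  s1 : ∀ t, u1 t + v1 t + w1 t = 0
  s2 : ∀ t, u2 t + v2 t + w2 t = 0
  m1 : ∀ t, a1 t + b1 t + c1 t = 0
  m2 : ∀ t, a2 t + b2 t + c2 t = 0
  pot : ∀ t, p t + q t + r t = 2 * E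
  kin : ∀ t, (a1 t ^ 2 + a2 t ^ 2) + (b1 t ^ 2 + b2 t ^ 2) + (c1 t ^ 2 + c2 t ^ 2) = 6 * E
  ang : ∀ t, (u1 t * a2 t - u2 t * a1 t) + (v1 t * b2 t - v2 t * b1 t)
    + (w1 t * c2 t - w2 t * c1 t) = 0

variable {E : ℝ} {u1 u2 a1 a2 p v1 v2 b1 b2 q w1 w2 c1 c2 r : ℝ → ℝ}

theorem Sys.cyc (H : Sys E u1 u2 a1 a2 p v1 v2 b1 b2 q w1 w2 c1 c2 r) :
    Sys E v1 v2 b1 b2 q w1 w2 c1 c2 r u1 u2 a1 a2 p := by
  have hz : ∀ (x y z : ℝ → ℝ), Zf y q z r x p = Zf x p y q z r := by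
    intro x y z; funext t; unfold Zf; ring
  refine ⟨H.Epos, ?_, ?_, ?_, ?_, ?_, ?_, ?_, ?_, ?_, ?_⟩
  · rw [hz, hz]; exact H.hv
  · rw [hz, hz]; exact H.hw
  · rw [hz, hz]; exact H.hu
  · intro t; linarith [H.s1 t]
  · intro t; linarith [H.s2 t]
  · intro t; linarith [H.m1 t]
  · intro t; linarith [H.m2 t]
  · intro t; linarith [H.pot t]
  · intro t; linarith [H.kin t]
  · intro t; linarith [H.ang t]

/-- the moment of inertia is constant -/
theorem Sys.dtot (H : Sys E u1 u2 a1 a2 p v1 v2 b1 b2 q w1 w2 c1 c2 r) (t : ℝ) :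
    Dd u1 u2 a1 a2 t + Dd v1 v2 b1 b2 t + Dd w1 w2 c1 c2 t = 0 := by
  set D : ℝ → ℝ := fun t => Dd u1 u2 a1 a2 t + Dd v1 v2 b1 b2 t + Dd w1 w2 c1 c2 t with hD
  have hd : ∀ t, HasDerivAt D 0 t := by
    intro t
    have h1 := ((H.hu.dD t).add (H.hv.dD t)).add (H.hw.dD t)
    refine h1.congr_deriv ?_
    unfold De
    have h2 := H.kin t
    have h3 := H.pot t
    have h4 := H.s1 t
    have h5 := H.s2 t
    linear_combination h2 - 3 * h3 + (Zf u1 p v1 q w1 r t) * h4 + (Zf u2 p v2 q w2 r t) * h5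
  have hconst : ∀ s, D s = D 0 := by
    intro s
    exact is_const_of_deriv_eq_zero (fun x => (hd x).differentiableAt) (fun x => (hd x).deriv) s 0
  set N : ℝ → ℝ := fun t => (u1 t ^ 2 + u2 t ^ 2) + (v1 t ^ 2 + v2 t ^ 2) + (w1 t ^ 2 + w2 t ^ 2)
    with hN
  have hN' : ∀ s, HasDerivAt (fun s => N s - 2 * D 0 * s) 0 s := by
    intro s
    have h1 := (((((H.hu.hx s).pow 2).add ((H.hu.hy s).pow 2)).add
      (((H.hv.hx s).pow 2).add ((H.hv.hy s).pow 2))).add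
      (((H.hw.hx s).pow 2).add ((H.hw.hy s).pow 2))).sub ((hasDerivAt_id s).const_mul (2 * D 0))
    refine h1.congr_deriv ?_
    have h2 := hconst s
    simp only [hD, Dd] at h2 ⊢
    push_cast
    linear_combination 2 * h2
  have hNc : ∀ s, N s - 2 * D 0 * s = N 0 := by
    intro s
    have := is_const_of_deriv_eq_zero (fun x => (hN' x).differentiableAt)
      (fun x => (hN' x).deriv) s 0
    simpa using this
  have hD0 : D 0 = 0 := by
    by_contra hne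
    have h1 := hNc (-(N 0 + 1) / (2 * D 0))
    have h2 : 2 * D 0 * (-(N 0 + 1) / (2 * D 0)) = -(N 0 + 1) := by
      field_simp
    rw [h2] at h1
    have h3 : 0 ≤ N (-(N 0 + 1) / (2 * D 0)) := by
      simp only [hN]
      positivity
    linarith
  have := hconst t
  rw [hD0] at this
  exact this

theorem Sys.exists_syzygy (H : Sys E u1 u2 a1 a2 p v1 v2 b1 b2 q w1 w2 c1 c2 r) :
    ∃ t, u1 t * v2 t - u2 t * v1 t = 0 := by
  by_contra hcon
  push Not at hcon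
  set N : ℝ → ℝ := fun t => (u1 t ^ 2 + u2 t ^ 2) + (v1 t ^ 2 + v2 t ^ 2) + (w1 t ^ 2 + w2 t ^ 2)
    with hN
  have Npos : ∀ t, 0 < N t := by
    intro t
    have := H.hu.normsq_pos t
    simp only [hN]
    positivity
  set S : ℝ → ℝ := fun t => u1 t * v2 t - u2 t * v1 t with hS
  set S1 : ℝ → ℝ := fun t => (a1 t * v2 t + u1 t * b2 t) - (a2 t * v1 t + u2 t * b1 t) with hS1
  set g : ℝ → ℝ := fun t => 2 * (p t ^ 3 + q t ^ 3 + r t ^ 3) + 12 * E / N t with hg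
  have gpos : ∀ t, 0 < g t := by
    intro t
    have h1 := H.hu.pos t
    have h2 := H.hv.pos t
    have h3 := H.hw.pos t
    have h4 := Npos t
    have h5 := H.Epos
    simp only [hg]
    positivity
  have dS : ∀ t, HasDerivAt S (S1 t) t := by
    intro t
    exact ((H.hu.hx t).mul (H.hv.hy t)).sub ((H.hu.hy t).mul (H.hv.hx t))
  have dS1 : ∀ t, HasDerivAt S1 (-(g t) * S t) t := by
    intro t
    have h1 := (((H.hu.hvx t).mul (H.hv.hy t)).add ((H.hu.hx t).mul (H.hv.hvy t))).sub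
      (((H.hu.hvy t).mul (H.hv.hx t)).add ((H.hu.hy t).mul (H.hv.hvx t)))
    refine h1.congr_deriv ?_
    have hN0 := (Npos t).ne'
    have hrel : N t * (a1 t * b2 t - a2 t * b1 t) = -(6 * E) * S t := by
      have e1 := H.dtot t
      have e2 := H.ang t
      have e3 := H.kin t
      have e4 : w1 t = -u1 t - v1 t := by linarith [H.s1 t]
      have e5 : w2 t = -u2 t - v2 t := by linarith [H.s2 t]
      have e6 : c1 t = -a1 t - b1 t := by linarith [H.m1 t]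
      have e7 : c2 t = -a2 t - b2 t := by linarith [H.m2 t]
      simp only [Dd] at e1
      simp only [hN, hS]
      rw [e4, e5, e6, e7] at e1
      rw [e4, e5, e6, e7] at e2
      rw [e6, e7] at e3
      rw [e4, e5]
      rw [← e3]
      linear_combination ((u1 t * b2 t - u2 t * b1 t) + (a1 t * v2 t - a2 t * v1 t)) * e1
        + ((a1 t * v1 t + a2 t * v2 t) - (u1 t * b1 t + u2 t * b2 t)) * e2
    have hrel2 : (a1 t * b2 t - a2 t * b1 t) = -(6 * E) * S t / N t := by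
      rw [eq_div_iff hN0]
      linarith
    have e4 : w1 t = -u1 t - v1 t := by linarith [H.s1 t]
    have e5 : w2 t = -u2 t - v2 t := by linarith [H.s2 t]
    simp only [hg, Zf]
    rw [e4, e5]
    have h6 : -(2 * (p t ^ 3 + q t ^ 3 + r t ^ 3) + 12 * E / N t) * S t
      = -(2 * (p t ^ 3 + q t ^ 3 + r t ^ 3)) * S t + 2 * (-(6 * E) * S t / N t) := by ring
    rw [h6, ← hrel2]
    simp only [hS]
    ring
  have hSc : Continuous S := by
    rw [continuous_iff_continuousAt]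
    intro t
    exact (dS t).continuousAt
  rcases lt_or_gt_of_ne (hcon 0) with h0 | h0
  · have hneg : ∀ t, S t < 0 := by
      intro t
      by_contra hge
      have hgt : 0 < S t := lt_of_le_of_ne (not_lt.mp hge) (Ne.symm (hcon t))
      have hmem : (0 : ℝ) ∈ S '' Set.univ := by
        have hpre : IsPreconnected (S '' Set.univ) := isPreconnected_univ.image S hSc.continuousOn
        exact hpre.ordConnected.out ⟨0, trivial, rfl⟩ ⟨t, trivial, rfl⟩ ⟨h0.le, hgt.le⟩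
      obtain ⟨x, _, hx⟩ := hmem
      exact hcon x hx
    refine no_pos_concave (fun t => - S t) (fun t => - S1 t) (fun t => -(-(g t) * S t))
      (fun t => (dS t).neg) (fun t => (dS1 t).neg) ?_ ?_
    · intro t
      have := gpos t
      have := hneg t
      nlinarith
    · intro t
      have := hneg t
      linarith
  · have hpos : ∀ t, 0 < S t := by
      intro t
      by_contra hge
      have hgt : S t < 0 := lt_of_le_of_ne (not_lt.mp hge) (hcon t)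
      have hmem : (0 : ℝ) ∈ S '' Set.univ := by
        have hpre : IsPreconnected (S '' Set.univ) := isPreconnected_univ.image S hSc.continuousOn
        exact hpre.ordConnected.out ⟨t, trivial, rfl⟩ ⟨0, trivial, rfl⟩ ⟨hgt.le, h0.le⟩
      obtain ⟨x, _, hx⟩ := hmem
      exact hcon x hx
    refine no_pos_concave S S1 (fun t => (-(g t) * S t)) dS dS1 ?_ hpos
    intro t
    have := gpos t
    have := hpos t
    nlinarith

theorem Sys.F1sum (H : Sys E u1 u2 a1 a2 p v1 v2 b1 b2 q w1 w2 c1 c2 r) (t : ℝ) :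
    F1 u1 u2 a1 a2 p t + F1 v1 v2 b1 b2 q t + F1 w1 w2 c1 c2 r t = 0 := by
  have h1 := ((H.hu.dp t).add (H.hv.dp t)).add (H.hw.dp t)
  have h2 : (p + q + r) = fun _ => 2 * E := by
    funext s; exact H.pot s
  rw [h2] at h1
  have h3 := h1.unique (hasDerivAt_const t (2 * E))
  unfold F1 Dd
  linarith

theorem Sys.F2sum (H : Sys E u1 u2 a1 a2 p v1 v2 b1 b2 q w1 w2 c1 c2 r) (t : ℝ) :
    F2 u1 u2 a1 a2 p (Zf u1 p v1 q w1 r) (Zf u2 p v2 q w2 r) t
    + F2 v1 v2 b1 b2 q (Zf u1 p v1 q w1 r) (Zf u2 p v2 q w2 r) t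
    + F2 w1 w2 c1 c2 r (Zf u1 p v1 q w1 r) (Zf u2 p v2 q w2 r) t = 0 := by
  have h1 := ((H.hu.dF1 t).add (H.hv.dF1 t)).add (H.hw.dF1 t)
  have h2 : (F1 u1 u2 a1 a2 p + F1 v1 v2 b1 b2 q + F1 w1 w2 c1 c2 r) = fun _ => 0 := by
    funext s; exact H.F1sum s
  rw [h2] at h1
  exact h1.unique (hasDerivAt_const t 0)

/-- derivative of the attraction sum, one component -/
def Z1x (u1 u2 a1 a2 p v1 v2 b1 b2 q w1 w2 c1 c2 r : ℝ → ℝ) (t : ℝ) : ℝ :=
  C1 u1 a1 (Dd u1 u2 a1 a2) p t + C1 v1 b1 (Dd v1 v2 b1 b2) q t + C1 w1 c1 (Dd w1 w2 c1 c2) r t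
def Z1y (u1 u2 a1 a2 p v1 v2 b1 b2 q w1 w2 c1 c2 r : ℝ → ℝ) (t : ℝ) : ℝ :=
  C1 u2 a2 (Dd u1 u2 a1 a2) p t + C1 v2 b2 (Dd v1 v2 b1 b2) q t + C1 w2 c2 (Dd w1 w2 c1 c2) r t
def Z2x (u1 u2 a1 a2 p v1 v2 b1 b2 q w1 w2 c1 c2 r : ℝ → ℝ) (t : ℝ) : ℝ :=
  C2 u1 a1 (Dd u1 u2 a1 a2) (De u1 u2 a1 a2 p (Zf u1 p v1 q w1 r) (Zf u2 p v2 q w2 r)) p
    (Zf u1 p v1 q w1 r) t
  + C2 v1 b1 (Dd v1 v2 b1 b2) (De v1 v2 b1 b2 q (Zf u1 p v1 q w1 r) (Zf u2 p v2 q w2 r)) q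
    (Zf u1 p v1 q w1 r) t
  + C2 w1 c1 (Dd w1 w2 c1 c2) (De w1 w2 c1 c2 r (Zf u1 p v1 q w1 r) (Zf u2 p v2 q w2 r)) r
    (Zf u1 p v1 q w1 r) t
def Z2y (u1 u2 a1 a2 p v1 v2 b1 b2 q w1 w2 c1 c2 r : ℝ → ℝ) (t : ℝ) : ℝ :=
  C2 u2 a2 (Dd u1 u2 a1 a2) (De u1 u2 a1 a2 p (Zf u1 p v1 q w1 r) (Zf u2 p v2 q w2 r)) p
    (Zf u2 p v2 q w2 r) t
  + C2 v2 b2 (Dd v1 v2 b1 b2) (De v1 v2 b1 b2 q (Zf u1 p v1 q w1 r) (Zf u2 p v2 q w2 r)) q
    (Zf u2 p v2 q w2 r) t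
  + C2 w2 c2 (Dd w1 w2 c1 c2) (De w1 w2 c1 c2 r (Zf u1 p v1 q w1 r) (Zf u2 p v2 q w2 r)) r
    (Zf u2 p v2 q w2 r) t

theorem Sys.F4sum (H : Sys E u1 u2 a1 a2 p v1 v2 b1 b2 q w1 w2 c1 c2 r) (t : ℝ) :
    F4 u1 u2 a1 a2 p (Zf u1 p v1 q w1 r) (Zf u2 p v2 q w2 r)
      (Z1x u1 u2 a1 a2 p v1 v2 b1 b2 q w1 w2 c1 c2 r)
      (Z1y u1 u2 a1 a2 p v1 v2 b1 b2 q w1 w2 c1 c2 r)
      (Z2x u1 u2 a1 a2 p v1 v2 b1 b2 q w1 w2 c1 c2 r)
      (Z2y u1 u2 a1 a2 p v1 v2 b1 b2 q w1 w2 c1 c2 r) t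
    + F4 v1 v2 b1 b2 q (Zf u1 p v1 q w1 r) (Zf u2 p v2 q w2 r)
      (Z1x u1 u2 a1 a2 p v1 v2 b1 b2 q w1 w2 c1 c2 r)
      (Z1y u1 u2 a1 a2 p v1 v2 b1 b2 q w1 w2 c1 c2 r)
      (Z2x u1 u2 a1 a2 p v1 v2 b1 b2 q w1 w2 c1 c2 r)
      (Z2y u1 u2 a1 a2 p v1 v2 b1 b2 q w1 w2 c1 c2 r) t
    + F4 w1 w2 c1 c2 r (Zf u1 p v1 q w1 r) (Zf u2 p v2 q w2 r)
      (Z1x u1 u2 a1 a2 p v1 v2 b1 b2 q w1 w2 c1 c2 r)
      (Z1y u1 u2 a1 a2 p v1 v2 b1 b2 q w1 w2 c1 c2 r)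
      (Z2x u1 u2 a1 a2 p v1 v2 b1 b2 q w1 w2 c1 c2 r)
      (Z2y u1 u2 a1 a2 p v1 v2 b1 b2 q w1 w2 c1 c2 r) t = 0 := by
  have hX : ∀ s, HasDerivAt (Zf u1 p v1 q w1 r)
      (Z1x u1 u2 a1 a2 p v1 v2 b1 b2 q w1 w2 c1 c2 r s) s := fun s =>
    ((H.hu.dC0x s).add (H.hv.dC0x s)).add (H.hw.dC0x s)
  have hY : ∀ s, HasDerivAt (Zf u2 p v2 q w2 r)
      (Z1y u1 u2 a1 a2 p v1 v2 b1 b2 q w1 w2 c1 c2 r s) s := fun s =>
    ((H.hu.dC0y s).add (H.hv.dC0y s)).add (H.hw.dC0y s)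
  have hX1 : ∀ s, HasDerivAt (Z1x u1 u2 a1 a2 p v1 v2 b1 b2 q w1 w2 c1 c2 r)
      (Z2x u1 u2 a1 a2 p v1 v2 b1 b2 q w1 w2 c1 c2 r s) s := fun s =>
    ((H.hu.dC1x s).add (H.hv.dC1x s)).add (H.hw.dC1x s)
  have hY1 : ∀ s, HasDerivAt (Z1y u1 u2 a1 a2 p v1 v2 b1 b2 q w1 w2 c1 c2 r)
      (Z2y u1 u2 a1 a2 p v1 v2 b1 b2 q w1 w2 c1 c2 r s) s := fun s =>
    ((H.hu.dC1y s).add (H.hv.dC1y s)).add (H.hw.dC1y s)
  have h0 : ∀ s, F3 u1 u2 a1 a2 p (Zf u1 p v1 q w1 r) (Zf u2 p v2 q w2 r)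
      (Z1x u1 u2 a1 a2 p v1 v2 b1 b2 q w1 w2 c1 c2 r)
      (Z1y u1 u2 a1 a2 p v1 v2 b1 b2 q w1 w2 c1 c2 r) s
    + F3 v1 v2 b1 b2 q (Zf u1 p v1 q w1 r) (Zf u2 p v2 q w2 r)
      (Z1x u1 u2 a1 a2 p v1 v2 b1 b2 q w1 w2 c1 c2 r)
      (Z1y u1 u2 a1 a2 p v1 v2 b1 b2 q w1 w2 c1 c2 r) s
    + F3 w1 w2 c1 c2 r (Zf u1 p v1 q w1 r) (Zf u2 p v2 q w2 r)
      (Z1x u1 u2 a1 a2 p v1 v2 b1 b2 q w1 w2 c1 c2 r)
      (Z1y u1 u2 a1 a2 p v1 v2 b1 b2 q w1 w2 c1 c2 r) s = 0 := by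
    intro s
    have h1 := ((H.hu.dF2 hX hY s).add (H.hv.dF2 hX hY s)).add (H.hw.dF2 hX hY s)
    have h2 : (F2 u1 u2 a1 a2 p (Zf u1 p v1 q w1 r) (Zf u2 p v2 q w2 r)
      + F2 v1 v2 b1 b2 q (Zf u1 p v1 q w1 r) (Zf u2 p v2 q w2 r)
      + F2 w1 w2 c1 c2 r (Zf u1 p v1 q w1 r) (Zf u2 p v2 q w2 r)) = fun _ => 0 := by
      funext s; exact H.F2sum s
    rw [h2] at h1
    exact h1.unique (hasDerivAt_const s 0)
  have h1 := ((H.hu.dF3 hX hY hX1 hY1 t).add (H.hv.dF3 hX hY hX1 hY1 t)).add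
    (H.hw.dF3 hX hY hX1 hY1 t)
  have h2 : (F3 u1 u2 a1 a2 p (Zf u1 p v1 q w1 r) (Zf u2 p v2 q w2 r)
      (Z1x u1 u2 a1 a2 p v1 v2 b1 b2 q w1 w2 c1 c2 r)
      (Z1y u1 u2 a1 a2 p v1 v2 b1 b2 q w1 w2 c1 c2 r)
    + F3 v1 v2 b1 b2 q (Zf u1 p v1 q w1 r) (Zf u2 p v2 q w2 r)
      (Z1x u1 u2 a1 a2 p v1 v2 b1 b2 q w1 w2 c1 c2 r)
      (Z1y u1 u2 a1 a2 p v1 v2 b1 b2 q w1 w2 c1 c2 r)
    + F3 w1 w2 c1 c2 r (Zf u1 p v1 q w1 r) (Zf u2 p v2 q w2 r)
      (Z1x u1 u2 a1 a2 p v1 v2 b1 b2 q w1 w2 c1 c2 r)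
      (Z1y u1 u2 a1 a2 p v1 v2 b1 b2 q w1 w2 c1 c2 r)) = fun _ => 0 := by
    funext s; exact h0 s
  rw [h2] at h1
  exact h1.unique (hasDerivAt_const t 0)

theorem Sys.coll_false (H : Sys E u1 u2 a1 a2 p v1 v2 b1 b2 q w1 w2 c1 c2 r) (t : ℝ)
    (hS : u1 t * v2 t - u2 t * v1 t = 0) (hd : 0 < u1 t * v1 t + u2 t * v2 t) : False := by
  have hP := H.hu.pos t
  have hQ := H.hv.pos t
  have hR := H.hw.pos t
  have nP := H.hu.nrm t
  have nQ := H.hv.nrm t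
  have nR := H.hw.nrm t
  obtain ⟨k, hk⟩ : ∃ k, k = (u1 t * v1 t + u2 t * v2 t) * p t ^ 2 := ⟨_, rfl⟩
  have kpos : 0 < k := by rw [hk]; positivity
  have hv1 : v1 t = k * u1 t := by
    rw [hk]
    linear_combination (-(v1 t)) * nP - (p t ^ 2 * u2 t) * hS
  have hv2 : v2 t = k * u2 t := by
    rw [hk]
    linear_combination (-(v2 t)) * nP + (p t ^ 2 * u1 t) * hS
  have hw1 : w1 t = -(1 + k) * u1 t := by
    have := H.s1 t
    rw [hv1] at this
    linarith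
  have hw2 : w2 t = -(1 + k) * u2 t := by
    have := H.s2 t
    rw [hv2] at this
    linarith
  have hqk : q t * k = p t := by
    have h1 : (q t * k) ^ 2 = p t ^ 2 := by
      rw [hv1, hv2] at nQ
      linear_combination (p t ^ 2) * nQ - (q t ^ 2 * k ^ 2) * nP
    exact (pow_left_inj₀ (by positivity) hP.le (by norm_num)).mp h1
  have hrk : r t * (1 + k) = p t := by
    have h1 : (r t * (1 + k)) ^ 2 = p t ^ 2 := by
      rw [hw1, hw2] at nR
      linear_combination (p t ^ 2) * nR - (r t ^ 2 * (1 + k) ^ 2) * nP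
    exact (pow_left_inj₀ (by positivity) hP.le (by norm_num)).mp h1
  obtain ⟨m, hm⟩ : ∃ m, m = q t / (1 + k) := ⟨_, rfl⟩
  have mpos : 0 < m := by rw [hm]; positivity
  have hk1 : (1 + k) ≠ 0 := by positivity
  have eQ : q t = (1 + k) * m := by rw [hm]; field_simp
  have eP : p t = k * (1 + k) * m := by rw [← hqk, eQ]; ring
  have eR : r t = k * m := by
    have h1 : r t * (1 + k) = (k * m) * (1 + k) := by rw [hrk, eP]; ring
    exact mul_right_cancel₀ hk1 h1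
  -- velocities
  obtain ⟨s1, hs1⟩ : ∃ s1, s1 = a1 t / (1 + 2 * k) := ⟨_, rfl⟩
  obtain ⟨s2, hs2⟩ : ∃ s2, s2 = a2 t / (1 + 2 * k) := ⟨_, rfl⟩
  have hk2 : (1 + 2 * k) ≠ 0 := by positivity
  have ea1 : a1 t = (1 + 2 * k) * s1 := by rw [hs1]; field_simp
  have ea2 : a2 t = (1 + 2 * k) * s2 := by rw [hs2]; field_simp
  have hc1 : c1 t = -a1 t - b1 t := by linarith [H.m1 t]
  have hc2 : c2 t = -a2 t - b2 t := by linarith [H.m2 t]
  have hD := H.dtot t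
  simp only [Dd] at hD
  have hJ := H.ang t
  rw [hv1, hv2, hw1, hw2, hc1, hc2] at hD hJ
  have eb1 : b1 t = -(2 + k) * s1 := by
    have h1 : (1 + 2 * k) * b1 t = (1 + 2 * k) * (-(2 + k) * s1) := by
      have h2 : (2 + k) * a1 t + (1 + 2 * k) * b1 t = 0 := by
        linear_combination (-((2 + k) * a1 t + (1 + 2 * k) * b1 t)) * nP
          + (p t ^ 2 * u1 t) * hD - (p t ^ 2 * u2 t) * hJ
      rw [ea1] at h2
      linear_combination h2
    exact mul_left_cancel₀ hk2 h1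
  have eb2 : b2 t = -(2 + k) * s2 := by
    have h1 : (1 + 2 * k) * b2 t = (1 + 2 * k) * (-(2 + k) * s2) := by
      have h2 : (2 + k) * a2 t + (1 + 2 * k) * b2 t = 0 := by
        linear_combination (-((2 + k) * a2 t + (1 + 2 * k) * b2 t)) * nP
          + (p t ^ 2 * u2 t) * hD + (p t ^ 2 * u1 t) * hJ
      rw [ea2] at h2
      linear_combination h2
    exact mul_left_cancel₀ hk2 h1
  have ec1 : c1 t = (1 - k) * s1 := by rw [hc1, ea1, eb1]; ring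
  have ec2 : c2 t = (1 - k) * s2 := by rw [hc2, ea2, eb2]; ring
  obtain ⟨n, hn⟩ : ∃ n, n = u1 t ^ 2 + u2 t ^ 2 := ⟨_, rfl⟩
  obtain ⟨d, hdd⟩ : ∃ d, d = u1 t * s1 + u2 t * s2 := ⟨_, rfl⟩
  obtain ⟨g, hg⟩ : ∃ g, g = s1 ^ 2 + s2 ^ 2 := ⟨_, rfl⟩
  have hpot := H.pot t
  have hkin := H.kin t
  rw [ea1, ea2, eb1, eb2, ec1, ec2] at hkin
  rw [eP, eQ, eR] at hpot
  have hgE : (1 + k + k ^ 2) * g = E := by rw [hg]; linear_combination (1 / 6 : ℝ) * hkin
  have hgm : 2 * (1 + k + k ^ 2) * g = m * (k ^ 2 + 3 * k + 1) := by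
    linear_combination 2 * hgE - hpot
  have hnm : k ^ 2 * (1 + k) ^ 2 * m ^ 2 * n = 1 := by
    rw [hn]; rw [eP] at nP; linear_combination nP
  have hDu : Dd u1 u2 a1 a2 t = (1 + 2 * k) * d := by
    simp only [Dd, ea1, ea2, hdd]; ring
  have hDv : Dd v1 v2 b1 b2 t = -(k * (2 + k)) * d := by
    simp only [Dd, eb1, eb2, hv1, hv2, hdd]; ring
  have hDw : Dd w1 w2 c1 c2 t = -((1 + k) * (1 - k)) * d := by
    simp only [Dd, ec1, ec2, hw1, hw2, hdd]; ring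
  have hF1 := H.F1sum t
  simp only [F1] at hF1
  rw [hDu, hDv, hDw, eP, eQ, eR] at hF1
  have hF1' : d * (k - 1) = 0 := by
    have h1 : (m ^ 3 * k * (1 + k) * ((2 * k ^ 2 + 3 * k + 2) * (1 + k) ^ 2 + k ^ 2))
      * (d * (k - 1)) = 0 := by
      linear_combination -hF1
    have h2 : (m ^ 3 * k * (1 + k) * ((2 * k ^ 2 + 3 * k + 2) * (1 + k) ^ 2 + k ^ 2)) ≠ 0 := by
      positivity
    exact (mul_eq_zero.mp h1).resolve_left h2
  have hZ1 : Zf u1 p v1 q w1 r t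
      = (k * (1 + k) * m ^ 3 * (k ^ 2 * (1 + k) ^ 2 + (1 + k) ^ 2 - k ^ 2)) * u1 t := by
    simp only [Zf, eP, eQ, eR, hv1, hw1]; ring
  have hZ2 : Zf u2 p v2 q w2 r t
      = (k * (1 + k) * m ^ 3 * (k ^ 2 * (1 + k) ^ 2 + (1 + k) ^ 2 - k ^ 2)) * u2 t := by
    simp only [Zf, eP, eQ, eR, hv2, hw2]; ring
  obtain ⟨Y, hY⟩ : ∃ Y, Y = (k * (1 + k) * m ^ 3 *
      (k ^ 2 * (1 + k) ^ 2 + (1 + k) ^ 2 - k ^ 2)) * n := ⟨_, rfl⟩
  have hYk : k * (1 + k) * Y = m * (k ^ 2 * (1 + k) ^ 2 + (1 + k) ^ 2 - k ^ 2) := by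
    rw [hY]
    linear_combination (m * (k ^ 2 * (1 + k) ^ 2 + (1 + k) ^ 2 - k ^ 2)) * hnm
  have hEu : De u1 u2 a1 a2 p (Zf u1 p v1 q w1 r) (Zf u2 p v2 q w2 r) t
      = (1 + 2 * k) ^ 2 * g - 3 * (k * (1 + k) * m) + Y := by
    simp only [De, hZ1, hZ2, ea1, ea2, eP, hg, hY, hn]; ring
  have hEv : De v1 v2 b1 b2 q (Zf u1 p v1 q w1 r) (Zf u2 p v2 q w2 r) t
      = (2 + k) ^ 2 * g - 3 * ((1 + k) * m) + k * Y := by
    simp only [De, hZ1, hZ2, eb1, eb2, eQ, hg, hY, hn, hv1, hv2]; ring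
  have hEw : De w1 w2 c1 c2 r (Zf u1 p v1 q w1 r) (Zf u2 p v2 q w2 r) t
      = (1 - k) ^ 2 * g - 3 * (k * m) - (1 + k) * Y := by
    simp only [De, hZ1, hZ2, ec1, ec2, eR, hg, hY, hn, hw1, hw2]; ring
  have hF2 := H.F2sum t
  simp only [F2] at hF2
  rw [hEu, hEv, hEw, hDu, hDv, hDw, eP, eQ, eR] at hF2
  rcases mul_eq_zero.mp hF1' with hd0 | hk0
  · -- no longitudinal motion
    rw [hd0] at hF2
    have h1 : m ^ 3 * (m * (8 * k ^ 11 + 41 * k ^ 10 + 97 * k ^ 9 + 136 * k ^ 8 + 138 * k ^ 7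
        + 138 * k ^ 6 + 136 * k ^ 5 + 97 * k ^ 4 + 41 * k ^ 3 + 8 * k ^ 2)) = 0 := by
      linear_combination (-(2 * (1 + k + k ^ 2) * (k * (1 + k)))) * hF2
        - (m ^ 3 * (k * (1 + k)) * ((1 + 2 * k) ^ 2 * k ^ 3 * (1 + k) ^ 3
            + (2 + k) ^ 2 * (1 + k) ^ 3 + (1 - k) ^ 2 * k ^ 3)) * hgm
        - (m ^ 3 * (2 * (1 + k + k ^ 2)) * (k ^ 3 * (1 + k) ^ 3 + k * (1 + k) ^ 3
            - (1 + k) * k ^ 3)) * hYk
    have h2 : 0 < m ^ 3 * (m * (8 * k ^ 11 + 41 * k ^ 10 + 97 * k ^ 9 + 136 * k ^ 8 + 138 * k ^ 7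
        + 138 * k ^ 6 + 136 * k ^ 5 + 97 * k ^ 4 + 41 * k ^ 3 + 8 * k ^ 2)) := by positivity
    linarith
  · -- Euler configuration
    have hk1 : k = 1 := by linarith
    subst hk1
    have gP : p t = 2 * m := by rw [eP]; ring
    have gQ : q t = 2 * m := by rw [eQ]; ring
    have gR : r t = m := by rw [eR]; ring
    have gv1 : v1 t = u1 t := by rw [hv1]; ring
    have gv2 : v2 t = u2 t := by rw [hv2]; ring
    have gw1 : w1 t = -2 * u1 t := by rw [hw1]; ring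
    have gw2 : w2 t = -2 * u2 t := by rw [hw2]; ring
    have ga1 : a1 t = 3 * s1 := by rw [ea1]; ring
    have ga2 : a2 t = 3 * s2 := by rw [ea2]; ring
    have gb1 : b1 t = -3 * s1 := by rw [eb1]; ring
    have gb2 : b2 t = -3 * s2 := by rw [eb2]; ring
    have gc1 : c1 t = 0 := by rw [ec1]; ring
    have gc2 : c2 t = 0 := by rw [ec2]; ring
    have gg : g = 5 / 6 * m := by linear_combination (1 / 6 : ℝ) * hgm
    have gn : 4 * m ^ 2 * n = 1 := by linear_combination hnm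
    have gY : Y = 7 / 2 * m := by linear_combination (1 / 2 : ℝ) * hYk
    have gDu : Dd u1 u2 a1 a2 t = 3 * d := by rw [hDu]; ring
    have gDv : Dd v1 v2 b1 b2 t = -3 * d := by rw [hDv]; ring
    have gDw : Dd w1 w2 c1 c2 t = 0 := by rw [hDw]; ring
    have gEu : De u1 u2 a1 a2 p (Zf u1 p v1 q w1 r) (Zf u2 p v2 q w2 r) t = 5 * m := by
      rw [hEu, gg, gY]; ring
    have gEv : De v1 v2 b1 b2 q (Zf u1 p v1 q w1 r) (Zf u2 p v2 q w2 r) t = 5 * m := by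
      rw [hEv, gg, gY]; ring
    have gEw : De w1 w2 c1 c2 r (Zf u1 p v1 q w1 r) (Zf u2 p v2 q w2 r) t = -10 * m := by
      rw [hEw, gg, gY]; ring
    have gZ1 : Zf u1 p v1 q w1 r t = 14 * m ^ 3 * u1 t := by rw [hZ1]; ring
    have gZ2 : Zf u2 p v2 q w2 r t = 14 * m ^ 3 * u2 t := by rw [hZ2]; ring
    have gd : 864 * m * d ^ 2 = 35 := by
      have h1 : (2 * m ^ 4) * (864 * m * d ^ 2 - 35) = 0 := by
        rw [gg, gY] at hF2
        linear_combination hF2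
      have h2 : (2 * m ^ 4) ≠ 0 := by positivity
      have h3 := (mul_eq_zero.mp h1).resolve_left h2
      linarith
    have gX1 : Z1x u1 u2 a1 a2 p v1 v2 b1 b2 q w1 w2 c1 c2 r t = 0 := by
      simp only [Z1x, C1, gDu, gDv, gDw, gP, gQ, gR, gv1, gw1, ga1, gb1, gc1]; ring
    have gY1 : Z1y u1 u2 a1 a2 p v1 v2 b1 b2 q w1 w2 c1 c2 r t = 0 := by
      simp only [Z1y, C1, gDu, gDv, gDw, gP, gQ, gR, gv2, gw2, ga2, gb2, gc2]; ring
    have gX2 : Z2x u1 u2 a1 a2 p v1 v2 b1 b2 q w1 w2 c1 c2 r t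
        = 240 * m ^ 6 * u1 t - 3456 * m ^ 5 * d * s1 := by
      simp only [Z2x, C2, gDu, gDv, gDw, gEu, gEv, gEw, gP, gQ, gR, gv1, gw1, ga1, gb1, gc1, gZ1]
      linear_combination (40 * m ^ 6 * u1 t) * gd
    have gY2 : Z2y u1 u2 a1 a2 p v1 v2 b1 b2 q w1 w2 c1 c2 r t
        = 240 * m ^ 6 * u2 t - 3456 * m ^ 5 * d * s2 := by
      simp only [Z2y, C2, gDu, gDv, gDw, gEu, gEv, gEw, gP, gQ, gR, gv2, gw2, ga2, gb2, gc2, gZ2]
      linear_combination (40 * m ^ 6 * u2 t) * gd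
    have hF4 := H.F4sum t
    have k1u : De1 u1 u2 a1 a2 p (Zf u1 p v1 q w1 r) (Zf u2 p v2 q w2 r)
        (Z1x u1 u2 a1 a2 p v1 v2 b1 b2 q w1 w2 c1 c2 r)
        (Z1y u1 u2 a1 a2 p v1 v2 b1 b2 q w1 w2 c1 c2 r) t = 54 * m ^ 3 * d := by
      simp only [De1, gDu, gZ1, gZ2, gX1, gY1, gP, ga1, ga2]
      rw [hdd]; ring
    have k1v : De1 v1 v2 b1 b2 q (Zf u1 p v1 q w1 r) (Zf u2 p v2 q w2 r)
        (Z1x u1 u2 a1 a2 p v1 v2 b1 b2 q w1 w2 c1 c2 r)
        (Z1y u1 u2 a1 a2 p v1 v2 b1 b2 q w1 w2 c1 c2 r) t = -54 * m ^ 3 * d := by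
      simp only [De1, gDv, gZ1, gZ2, gX1, gY1, gQ, gb1, gb2]
      rw [hdd]; ring
    have k1w : De1 w1 w2 c1 c2 r (Zf u1 p v1 q w1 r) (Zf u2 p v2 q w2 r)
        (Z1x u1 u2 a1 a2 p v1 v2 b1 b2 q w1 w2 c1 c2 r)
        (Z1y u1 u2 a1 a2 p v1 v2 b1 b2 q w1 w2 c1 c2 r) t = 0 := by
      simp only [De1, gDw, gZ1, gZ2, gX1, gY1, gR, gc1, gc2]
      ring
    have k2u : De2 u1 u2 a1 a2 p (Zf u1 p v1 q w1 r) (Zf u2 p v2 q w2 r)
        (Z1x u1 u2 a1 a2 p v1 v2 b1 b2 q w1 w2 c1 c2 r)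
        (Z1y u1 u2 a1 a2 p v1 v2 b1 b2 q w1 w2 c1 c2 r)
        (Z2x u1 u2 a1 a2 p v1 v2 b1 b2 q w1 w2 c1 c2 r)
        (Z2y u1 u2 a1 a2 p v1 v2 b1 b2 q w1 w2 c1 c2 r) t = -200 * m ^ 4 := by
      simp only [De2, gDu, gEu, gZ1, gZ2, gX1, gY1, gX2, gY2, gP, ga1, ga2]
      rw [hn] at gn
      have e1 : u1 t * s1 = d - u2 t * s2 := by rw [hdd]; ring
      linear_combination (-45 * m ^ 4) * gn + (-m ^ 4) * gd - 3456 * m ^ 5 * d * e1
    have k2v : De2 v1 v2 b1 b2 q (Zf u1 p v1 q w1 r) (Zf u2 p v2 q w2 r)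
        (Z1x u1 u2 a1 a2 p v1 v2 b1 b2 q w1 w2 c1 c2 r)
        (Z1y u1 u2 a1 a2 p v1 v2 b1 b2 q w1 w2 c1 c2 r)
        (Z2x u1 u2 a1 a2 p v1 v2 b1 b2 q w1 w2 c1 c2 r)
        (Z2y u1 u2 a1 a2 p v1 v2 b1 b2 q w1 w2 c1 c2 r) t = -200 * m ^ 4 := by
      simp only [De2, gDv, gEv, gZ1, gZ2, gX1, gY1, gX2, gY2, gQ, gb1, gb2, gv1, gv2]
      rw [hn] at gn
      have e1 : u1 t * s1 = d - u2 t * s2 := by rw [hdd]; ring
      linear_combination (-45 * m ^ 4) * gn + (-m ^ 4) * gd - 3456 * m ^ 5 * d * e1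
    have k2w : De2 w1 w2 c1 c2 r (Zf u1 p v1 q w1 r) (Zf u2 p v2 q w2 r)
        (Z1x u1 u2 a1 a2 p v1 v2 b1 b2 q w1 w2 c1 c2 r)
        (Z1y u1 u2 a1 a2 p v1 v2 b1 b2 q w1 w2 c1 c2 r)
        (Z2x u1 u2 a1 a2 p v1 v2 b1 b2 q w1 w2 c1 c2 r)
        (Z2y u1 u2 a1 a2 p v1 v2 b1 b2 q w1 w2 c1 c2 r) t = 400 * m ^ 4 := by
      simp only [De2, gDw, gEw, gZ1, gZ2, gX1, gY1, gX2, gY2, gR, gc1, gc2, gw1, gw2]
      rw [hn] at gn
      have e1 : u1 t * s1 = d - u2 t * s2 := by rw [hdd]; ring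
      linear_combination (90 * m ^ 4) * gn + (8 * m ^ 4) * gd + 6912 * m ^ 5 * d * e1
    simp only [F4, k2u, k2v, k2w, k1u, k1v, k1w, gEu, gEv, gEw, gDu, gDv, gDw, gP, gQ, gR] at hF4
    have h1 : m ^ 7 * (27410 : ℝ) = 0 := by
      linear_combination (-6) * hF4 + (12 * m ^ 7 * (62208 - 518400) / 864
        + 12 * m ^ 7 * 4354560 / 864 * (m * d ^ 2) + 12 * m ^ 7 * 4354560 * 35 / 864 ^ 2) * gd
    have h2 : 0 < m ^ 7 * (27410 : ℝ) := by positivity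
    linarith

theorem Sys.false (H : Sys E u1 u2 a1 a2 p v1 v2 b1 b2 q w1 w2 c1 c2 r) : False := by
  obtain ⟨t, ht⟩ := H.exists_syzygy
  have e4 : w1 t = -u1 t - v1 t := by linarith [H.s1 t]
  have e5 : w2 t = -u2 t - v2 t := by linarith [H.s2 t]
  by_cases h1 : 0 < u1 t * v1 t + u2 t * v2 t
  · exact H.coll_false t ht h1
  by_cases h2 : 0 < v1 t * w1 t + v2 t * w2 t
  · refine H.cyc.coll_false t ?_ h2
    rw [e4, e5]
    linear_combination ht
  by_cases h3 : 0 < w1 t * u1 t + w2 t * u2 t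
  · refine H.cyc.cyc.coll_false t ?_ h3
    rw [e4, e5]
    linear_combination ht
  have nu := H.hu.normsq_pos t
  have nv := H.hv.normsq_pos t
  have nw := H.hw.normsq_pos t
  have k1 : (u1 t * v1 t + u2 t * v2 t) ^ 2 = (u1 t ^ 2 + u2 t ^ 2) * (v1 t ^ 2 + v2 t ^ 2) := by
    linear_combination (-(u1 t * v2 t - u2 t * v1 t)) * ht
  have k1' : u1 t * v1 t + u2 t * v2 t < 0 := by
    refine lt_of_le_of_ne (not_lt.mp h1) ?_
    intro h0
    rw [h0] at k1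
    have : 0 < (u1 t ^ 2 + u2 t ^ 2) * (v1 t ^ 2 + v2 t ^ 2) := by positivity
    nlinarith
  have hvw : v1 t * w2 t - v2 t * w1 t = 0 := by
    rw [e4, e5]; linear_combination ht
  have k2 : (v1 t * w1 t + v2 t * w2 t) ^ 2 = (v1 t ^ 2 + v2 t ^ 2) * (w1 t ^ 2 + w2 t ^ 2) := by
    linear_combination (-(v1 t * w2 t - v2 t * w1 t)) * hvw
  have k2' : v1 t * w1 t + v2 t * w2 t < 0 := by
    refine lt_of_le_of_ne (not_lt.mp h2) ?_
    intro h0
    rw [h0] at k2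
    have : 0 < (v1 t ^ 2 + v2 t ^ 2) * (w1 t ^ 2 + w2 t ^ 2) := by positivity
    nlinarith
  have k3 : (u1 t * v1 t + u2 t * v2 t) * (v1 t * w1 t + v2 t * w2 t)
      = (v1 t ^ 2 + v2 t ^ 2) * (w1 t * u1 t + w2 t * u2 t) := by
    linear_combination (v1 t * w2 t - v2 t * w1 t) * ht
  have k4 : 0 < (u1 t * v1 t + u2 t * v2 t) * (v1 t * w1 t + v2 t * w2 t) :=
    mul_pos_of_neg_of_neg k1' k2'
  rw [k3] at k4
  exact h3 ((mul_pos_iff_of_pos_left nv).mp k4)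

end Pool.Agent.S09895.PartA

namespace Pool.Agent.S09895.PartB
open Pool.Agent.S09895.PartA

/-- relative form of an equal-mass planar three-body motion with zero angular momentum whose
potential stays in a band around twice the energy -/
structure Rel (E e : ℝ) (u1 u2 a1 a2 p v1 v2 b1 b2 q w1 w2 c1 c2 r : ℝ → ℝ) : Prop where
  Epos : 0 < E
  epos : 0 < e
  ehalf : e ≤ E / 2
  hu : Pr u1 u2 a1 a2 p (Zf u1 p v1 q w1 r) (Zf u2 p v2 q w2 r)
  hv : Pr v1 v2 b1 b2 q (Zf u1 p v1 q w1 r) (Zf u2 p v2 q w2 r)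
  hw : Pr w1 w2 c1 c2 r (Zf u1 p v1 q w1 r) (Zf u2 p v2 q w2 r)
  s1 : ∀ t, u1 t + v1 t + w1 t = 0
  s2 : ∀ t, u2 t + v2 t + w2 t = 0
  m1 : ∀ t, a1 t + b1 t + c1 t = 0
  m2 : ∀ t, a2 t + b2 t + c2 t = 0
  lo : ∀ t, 2 * (E - e) < p t + q t + r t
  hi : ∀ t, p t + q t + r t < 2 * (E + e)
  kin : ∀ t, (a1 t ^ 2 + a2 t ^ 2) + (b1 t ^ 2 + b2 t ^ 2) + (c1 t ^ 2 + c2 t ^ 2)
    = 6 * (p t + q t + r t - E)
  ang : ∀ t, (u1 t * a2 t - u2 t * a1 t) + (v1 t * b2 t - v2 t * b1 t)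
    + (w1 t * c2 t - w2 t * c1 t) = 0

variable {E e : ℝ} {u1 u2 a1 a2 p v1 v2 b1 b2 q w1 w2 c1 c2 r : ℝ → ℝ}

theorem Rel.cyc (H : Rel E e u1 u2 a1 a2 p v1 v2 b1 b2 q w1 w2 c1 c2 r) :
    Rel E e v1 v2 b1 b2 q w1 w2 c1 c2 r u1 u2 a1 a2 p := by
  have hz : ∀ (x y z : ℝ → ℝ), Zf y q z r x p = Zf x p y q z r := by
    intro x y z; funext t; unfold Zf; ring
  refine ⟨H.Epos, H.epos, H.ehalf, ?_, ?_, ?_, ?_, ?_, ?_, ?_, ?_, ?_, ?_, ?_⟩
  · rw [hz, hz]; exact H.hv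
  · rw [hz, hz]; exact H.hw
  · rw [hz, hz]; exact H.hu
  · intro t; linarith [H.s1 t]
  · intro t; linarith [H.s2 t]
  · intro t; linarith [H.m1 t]
  · intro t; linarith [H.m2 t]
  · intro t; linarith [H.lo t]
  · intro t; linarith [H.hi t]
  · intro t; linarith [H.kin t]
  · intro t; linarith [H.ang t]

theorem Pr_shift {x y vx vy p X Y : ℝ → ℝ} (h : Pr x y vx vy p X Y) (s : ℝ) :
    Pr (fun t => x (t + s)) (fun t => y (t + s)) (fun t => vx (t + s)) (fun t => vy (t + s))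
      (fun t => p (t + s)) (fun t => X (t + s)) (fun t => Y (t + s)) :=
  ⟨fun t => (h.hx (t + s)).comp_add_const t s, fun t => (h.hy (t + s)).comp_add_const t s,
   fun t => (h.hvx (t + s)).comp_add_const t s, fun t => (h.hvy (t + s)).comp_add_const t s,
   fun t => h.pos (t + s), fun t => h.nrm (t + s)⟩

theorem Rel.shift (H : Rel E e u1 u2 a1 a2 p v1 v2 b1 b2 q w1 w2 c1 c2 r) (s : ℝ) :
    Rel E e (fun t => u1 (t + s)) (fun t => u2 (t + s)) (fun t => a1 (t + s)) (fun t => a2 (t + s))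
      (fun t => p (t + s)) (fun t => v1 (t + s)) (fun t => v2 (t + s)) (fun t => b1 (t + s))
      (fun t => b2 (t + s)) (fun t => q (t + s)) (fun t => w1 (t + s)) (fun t => w2 (t + s))
      (fun t => c1 (t + s)) (fun t => c2 (t + s)) (fun t => r (t + s)) :=
  ⟨H.Epos, H.epos, H.ehalf, Pr_shift H.hu s, Pr_shift H.hv s, Pr_shift H.hw s,
   fun t => H.s1 (t + s), fun t => H.s2 (t + s), fun t => H.m1 (t + s), fun t => H.m2 (t + s),
   fun t => H.lo (t + s), fun t => H.hi (t + s), fun t => H.kin (t + s), fun t => H.ang (t + s)⟩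

theorem aux1 (n q E : ℝ) (hE : 0 < E) (h2 : 3 ≤ n * q ^ 2) (hq : q < E / 327) (qpos : 0 < q)
    (npos : 0 < n) : 981 / E ≤ n * q := by
  have h7 : 3 ≤ n * q * (E / 327) := by
    have h8 : n * q * q ≤ n * q * (E / 327) := by
      apply mul_le_mul_of_nonneg_left hq.le (by positivity)
    have h9 : n * q * q = n * q ^ 2 := by ring
    linarith
  rw [div_le_iff₀ hE]
  linarith

theorem aux2 (x y E X : ℝ) (hE : 0 < E) (h1 : X ≤ 108 / E) (h2 : y ≤ x * (-3)) (h3 : 981 / E ≤ x) :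
    9 * X + y < 0 := by
  have h4 : 0 < 1 / E := by positivity
  have h5 : 108 / E = 108 * (1 / E) := by ring
  have h6 : 981 / E = 981 * (1 / E) := by ring
  rw [h5] at h1
  rw [h6] at h3
  linarith

/-- a tight pair and a remote third body for all times is impossible -/
theorem Rel.no_far (H : Rel E e u1 u2 a1 a2 p v1 v2 b1 b2 q w1 w2 c1 c2 r)
    (hp : ∀ t, E / 3 ≤ p t) (hq : ∀ t, q t < E / 327) (hr : ∀ t, r t < E / 327) : False := by
  have Epos := H.Epos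
  -- basic estimates
  have upper : ∀ t, (u1 t * a2 t - u2 t * a1 t) ^ 2 ≤ 108 / E := by
    intro t
    have h1 : (u1 t * a2 t - u2 t * a1 t) ^ 2 ≤ (u1 t ^ 2 + u2 t ^ 2) * (a1 t ^ 2 + a2 t ^ 2) := by
      nlinarith [sq_nonneg (u1 t * a1 t + u2 t * a2 t)]
    have h2 : u1 t ^ 2 + u2 t ^ 2 ≤ 9 / E ^ 2 := by
      have h3 := H.hu.nrm t
      have h4 : (E / 3) ^ 2 ≤ p t ^ 2 := by
        apply pow_le_pow_left₀ (by positivity) (hp t)
      have h5 : 0 < u1 t ^ 2 + u2 t ^ 2 := H.hu.normsq_pos t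
      rw [le_div_iff₀ (by positivity)]
      nlinarith
    have h3 : a1 t ^ 2 + a2 t ^ 2 ≤ 12 * E := by
      have h4 := H.kin t
      have h5 := H.hi t
      have h6 := H.ehalf
      nlinarith [sq_nonneg (b1 t), sq_nonneg (b2 t), sq_nonneg (c1 t), sq_nonneg (c2 t)]
    calc (u1 t * a2 t - u2 t * a1 t) ^ 2 ≤ (u1 t ^ 2 + u2 t ^ 2) * (a1 t ^ 2 + a2 t ^ 2) := h1
      _ ≤ (9 / E ^ 2) * (12 * E) := by
        apply mul_le_mul h2 h3 (by positivity) (by positivity)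
      _ = 108 / E := by field_simp; norm_num
  have inv1 : ∀ t, (u1 t * v1 t + u2 t * v2 t) * q t ≥ -(3 / E) := by
    intro t
    have h1 : (u1 t * v1 t + u2 t * v2 t) ^ 2 ≤ (u1 t ^ 2 + u2 t ^ 2) * (v1 t ^ 2 + v2 t ^ 2) := by
      nlinarith [sq_nonneg (u1 t * v2 t - u2 t * v1 t)]
    have h3 := H.hu.nrm t
    have h3' := H.hv.nrm t
    have h4 : (E / 3) ^ 2 ≤ p t ^ 2 := by
      apply pow_le_pow_left₀ (by positivity) (hp t)
    have h5 : 0 < u1 t ^ 2 + u2 t ^ 2 := H.hu.normsq_pos t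
    have h2 : u1 t ^ 2 + u2 t ^ 2 ≤ 9 / E ^ 2 := by
      rw [le_div_iff₀ (by positivity)]
      nlinarith
    have h6 : ((u1 t * v1 t + u2 t * v2 t) * q t) ^ 2 ≤ (3 / E) ^ 2 := by
      have h7 : ((u1 t * v1 t + u2 t * v2 t) * q t) ^ 2
          ≤ (u1 t ^ 2 + u2 t ^ 2) * (v1 t ^ 2 + v2 t ^ 2) * q t ^ 2 := by
        rw [mul_pow]
        exact mul_le_mul_of_nonneg_right h1 (by positivity)
      have h8 : (u1 t ^ 2 + u2 t ^ 2) * (v1 t ^ 2 + v2 t ^ 2) * q t ^ 2 = u1 t ^ 2 + u2 t ^ 2 := by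
        linear_combination (u1 t ^ 2 + u2 t ^ 2) * h3'
      have h9 : (3 / E) ^ 2 = 9 / E ^ 2 := by rw [div_pow]; norm_num
      rw [h9]; linarith
    have h10 := abs_le_of_sq_le_sq' h6 (by positivity)
    linarith [h10.1]
  have inv2 : ∀ t, (u1 t * w1 t + u2 t * w2 t) * r t ≥ -(3 / E) := by
    intro t
    have h1 : (u1 t * w1 t + u2 t * w2 t) ^ 2 ≤ (u1 t ^ 2 + u2 t ^ 2) * (w1 t ^ 2 + w2 t ^ 2) := by
      nlinarith [sq_nonneg (u1 t * w2 t - u2 t * w1 t)]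
    have h3 := H.hu.nrm t
    have h3' := H.hw.nrm t
    have h4 : (E / 3) ^ 2 ≤ p t ^ 2 := by
      apply pow_le_pow_left₀ (by positivity) (hp t)
    have h5 : 0 < u1 t ^ 2 + u2 t ^ 2 := H.hu.normsq_pos t
    have h2 : u1 t ^ 2 + u2 t ^ 2 ≤ 9 / E ^ 2 := by
      rw [le_div_iff₀ (by positivity)]
      nlinarith
    have h6 : ((u1 t * w1 t + u2 t * w2 t) * r t) ^ 2 ≤ (3 / E) ^ 2 := by
      have h7 : ((u1 t * w1 t + u2 t * w2 t) * r t) ^ 2
          ≤ (u1 t ^ 2 + u2 t ^ 2) * (w1 t ^ 2 + w2 t ^ 2) * r t ^ 2 := by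
        rw [mul_pow]
        exact mul_le_mul_of_nonneg_right h1 (by positivity)
      have h8 : (u1 t ^ 2 + u2 t ^ 2) * (w1 t ^ 2 + w2 t ^ 2) * r t ^ 2 = u1 t ^ 2 + u2 t ^ 2 := by
        linear_combination (u1 t ^ 2 + u2 t ^ 2) * h3'
      have h9 : (3 / E) ^ 2 = 9 / E ^ 2 := by rw [div_pow]; norm_num
      rw [h9]; linarith
    have h10 := abs_le_of_sq_le_sq' h6 (by positivity)
    linarith [h10.1]
  set n : ℝ → ℝ := fun t => (v1 t - w1 t) ^ 2 + (v2 t - w2 t) ^ 2 with hn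
  set dd : ℝ → ℝ := fun t => (v1 t - w1 t) * (b1 t - c1 t) + (v2 t - w2 t) * (b2 t - c2 t) with hdd
  set ee : ℝ → ℝ := fun t => (b1 t - c1 t) ^ 2 + (b2 t - c2 t) ^ 2
    + ((v1 t - w1 t) * (-3 * v1 t * q t ^ 3 + 3 * w1 t * r t ^ 3)
      + (v2 t - w2 t) * (-3 * v2 t * q t ^ 3 + 3 * w2 t * r t ^ 3)) with hee
  have dn : ∀ t, HasDerivAt n (2 * dd t) t := by
    intro t
    have h1 := (((H.hv.hx t).sub (H.hw.hx t)).pow 2).add (((H.hv.hy t).sub (H.hw.hy t)).pow 2)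
    refine h1.congr_deriv ?_
    simp only [hdd, Pi.sub_apply]
    push_cast
    ring
  have ddd : ∀ t, HasDerivAt dd (ee t) t := by
    intro t
    have h1 := (((H.hv.hx t).sub (H.hw.hx t)).mul ((H.hv.hvx t).sub (H.hw.hvx t))).add
      (((H.hv.hy t).sub (H.hw.hy t)).mul ((H.hv.hvy t).sub (H.hw.hvy t)))
    refine h1.congr_deriv ?_
    simp only [hee, Pi.sub_apply]
    ring
  have nbig : ∀ t, 3 ≤ n t * q t ^ 2 := by
    intro t
    have h1 := inv1 t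
    have h2 := H.hv.nrm t
    have h3 := hq t
    have h4 := H.hv.pos t
    have e4 : w1 t = -u1 t - v1 t := by linarith [H.s1 t]
    have e5 : w2 t = -u2 t - v2 t := by linarith [H.s2 t]
    have h5 : n t * q t ^ 2 = 4 + 4 * ((u1 t * v1 t + u2 t * v2 t) * q t) * q t
        + (u1 t ^ 2 + u2 t ^ 2) * q t ^ 2 := by
      simp only [hn]
      rw [e4, e5]
      linear_combination 4 * h2
    have h6 : (3 / E) * q t ≤ 3 / 327 := by
      have : (3 / E) * q t ≤ (3 / E) * (E / 327) := by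
        apply mul_le_mul_of_nonneg_left h3.le (by positivity)
      have h7 : (3 / E) * (E / 327) = 3 / 327 := by field_simp
      linarith
    have h8 : ((u1 t * v1 t + u2 t * v2 t) * q t) * q t ≥ -(3 / E) * q t := by
      nlinarith
    have h9 : 0 ≤ (u1 t ^ 2 + u2 t ^ 2) * q t ^ 2 := by positivity
    rw [h5]
    nlinarith
  have npos : ∀ t, 0 < n t := by
    intro t
    have h1 := nbig t
    have h4 := H.hv.pos t
    by_contra hcon
    have h5 : n t = 0 := by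
      refine le_antisymm (not_lt.mp hcon) ?_
      simp only [hn]; positivity
    rw [h5] at h1
    norm_num at h1
  have key : ∀ t, ee t * n t - dd t ^ 2 < 0 := by
    intro t
    have e4 : w1 t = -u1 t - v1 t := by linarith [H.s1 t]
    have e5 : w2 t = -u2 t - v2 t := by linarith [H.s2 t]
    have e6 : a1 t = -b1 t - c1 t := by linarith [H.m1 t]
    have e7 : a2 t = -b2 t - c2 t := by linarith [H.m2 t]
    have e8 : u1 t = -v1 t - w1 t := by linarith [H.s1 t]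
    have e9 : u2 t = -v2 t - w2 t := by linarith [H.s2 t]
    have hcross : (v1 t - w1 t) * (b2 t - c2 t) - (v2 t - w2 t) * (b1 t - c1 t)
        = -3 * (u1 t * a2 t - u2 t * a1 t) := by
      have := H.ang t
      rw [e6, e7, e8, e9] at this ⊢
      linear_combination 2 * this
    have hacc : ((v1 t - w1 t) * (-3 * v1 t * q t ^ 3 + 3 * w1 t * r t ^ 3)
      + (v2 t - w2 t) * (-3 * v2 t * q t ^ 3 + 3 * w2 t * r t ^ 3))
      = -3 * (2 * q t + ((u1 t * v1 t + u2 t * v2 t) * q t) * q t ^ 2)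
        - 3 * (2 * r t + ((u1 t * w1 t + u2 t * w2 t) * r t) * r t ^ 2) := by
      have h1 := H.hv.nrm t
      have h2 := H.hw.nrm t
      rw [e8, e9]
      linear_combination (-6 * q t) * h1 - (6 * r t) * h2
    have hle : ((v1 t - w1 t) * (-3 * v1 t * q t ^ 3 + 3 * w1 t * r t ^ 3)
      + (v2 t - w2 t) * (-3 * v2 t * q t ^ 3 + 3 * w2 t * r t ^ 3)) ≤ -3 * q t := by
      rw [hacc]
      have h1 := inv1 t
      have h2 := inv2 t
      have h3 := H.hv.pos t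
      have h4 := H.hw.pos t
      have h5 : (3 / E) * q t ≤ 3 / 327 := by
        have : (3 / E) * q t ≤ (3 / E) * (E / 327) := by
          apply mul_le_mul_of_nonneg_left (hq t).le (by positivity)
        have h7 : (3 / E) * (E / 327) = 3 / 327 := by field_simp
        linarith
      have h6 : (3 / E) * r t ≤ 3 / 327 := by
        have : (3 / E) * r t ≤ (3 / E) * (E / 327) := by
          apply mul_le_mul_of_nonneg_left (hr t).le (by positivity)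
        have h7 : (3 / E) * (E / 327) = 3 / 327 := by field_simp
        linarith
      have h7 : ((u1 t * v1 t + u2 t * v2 t) * q t) * q t ^ 2 ≥ -(q t) := by
        have : ((u1 t * v1 t + u2 t * v2 t) * q t) * q t ^ 2 ≥ -(3 / E) * q t ^ 2 := by
          nlinarith [sq_nonneg (q t)]
        nlinarith
      have h8 : ((u1 t * w1 t + u2 t * w2 t) * r t) * r t ^ 2 ≥ -(r t) := by
        have : ((u1 t * w1 t + u2 t * w2 t) * r t) * r t ^ 2 ≥ -(3 / E) * r t ^ 2 := by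
          nlinarith [sq_nonneg (r t)]
        nlinarith
      linarith
    have hid : ee t * n t - dd t ^ 2
        = 9 * (u1 t * a2 t - u2 t * a1 t) ^ 2 + n t *
          ((v1 t - w1 t) * (-3 * v1 t * q t ^ 3 + 3 * w1 t * r t ^ 3)
      + (v2 t - w2 t) * (-3 * v2 t * q t ^ 3 + 3 * w2 t * r t ^ 3)) := by
      have h1 : 9 * (u1 t * a2 t - u2 t * a1 t) ^ 2
        = ((v1 t - w1 t) * (b2 t - c2 t) - (v2 t - w2 t) * (b1 t - c1 t)) ^ 2 := by
        rw [hcross]; ring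
      rw [h1]
      simp only [hee, hn, hdd]
      ring
    rw [hid]
    have h1 := upper t
    have h2 := nbig t
    have h3 := npos t
    have h4 := H.hv.pos t
    have h5 : n t * ((v1 t - w1 t) * (-3 * v1 t * q t ^ 3 + 3 * w1 t * r t ^ 3)
      + (v2 t - w2 t) * (-3 * v2 t * q t ^ 3 + 3 * w2 t * r t ^ 3)) ≤ n t * (-3 * q t) :=
      mul_le_mul_of_nonneg_left hle h3.le
    have h6 : 981 / E ≤ n t * q t := aux1 (n t) (q t) E Epos h2 (hq t) h4 h3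
    exact aux2 (n t * q t) _ E _ Epos h1 (by linarith) h6
  -- the distance function
  refine no_pos_concave (fun t => Real.sqrt (n t)) (fun t => dd t / Real.sqrt (n t))
    (fun t => (ee t * n t - dd t ^ 2) / (Real.sqrt (n t)) ^ 3) ?_ ?_ ?_ ?_
  · intro t
    have h1 := (dn t).sqrt (npos t).ne'
    refine h1.congr_deriv ?_
    have h2 : Real.sqrt (n t) ≠ 0 := (Real.sqrt_pos.mpr (npos t)).ne'
    field_simp
  · intro t
    have h2 : Real.sqrt (n t) ≠ 0 := (Real.sqrt_pos.mpr (npos t)).ne'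
    have h1 := (ddd t).div ((dn t).sqrt (npos t).ne') h2
    refine h1.congr_deriv ?_
    have h3 : Real.sqrt (n t) ^ 2 = n t := Real.sq_sqrt (npos t).le
    set R := Real.sqrt (n t) with hR
    rw [← h3]
    field_simp
  · intro t
    have h2 : 0 < Real.sqrt (n t) := Real.sqrt_pos.mpr (npos t)
    exact div_neg_of_neg_of_pos (key t) (by positivity)
  · intro t
    exact Real.sqrt_pos.mpr (npos t)

/-- triangle inequality for inverse lengths -/
theorem tri_core (E x1 x2 y1 y2 z1 z2 p q r : ℝ) (hE : 0 < E) (hp : 0 < p) (hq : 0 < q) (hr : 0 < r)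
    (h1 : p ^ 2 * (x1 ^ 2 + x2 ^ 2) = 1) (h2 : q ^ 2 * (y1 ^ 2 + y2 ^ 2) = 1)
    (h3 : r ^ 2 * (z1 ^ 2 + z2 ^ 2) = 1) (s1 : x1 + y1 + z1 = 0) (s2 : x2 + y2 + z2 = 0)
    (hpE : E / 3 ≤ p) (hqE : q < E / 330) : r < E / 327 := by
  have eA : x1 ^ 2 + x2 ^ 2 = (p⁻¹) ^ 2 := by field_simp; linarith
  have eB : y1 ^ 2 + y2 ^ 2 = (q⁻¹) ^ 2 := by field_simp; linarith
  have eC : z1 ^ 2 + z2 ^ 2 = (r⁻¹) ^ 2 := by field_simp; linarith
  have pA : 0 < p⁻¹ := by positivity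
  have pB : 0 < q⁻¹ := by positivity
  have pC : 0 < r⁻¹ := by positivity
  have cs : x1 * z1 + x2 * z2 ≤ p⁻¹ * r⁻¹ := by
    have h4 : (x1 * z1 + x2 * z2) ^ 2 ≤ (p⁻¹ * r⁻¹) ^ 2 := by
      rw [mul_pow, ← eA, ← eC]
      nlinarith [sq_nonneg (x1 * z2 - x2 * z1)]
    exact (abs_le_of_sq_le_sq' h4 (by positivity)).2
  have hy1 : y1 = -x1 - z1 := by linarith
  have hy2 : y2 = -x2 - z2 := by linarith
  have h5 : (q⁻¹) ^ 2 ≤ (p⁻¹ + r⁻¹) ^ 2 := by
    rw [← eB, hy1, hy2]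
    nlinarith
  have h6 : q⁻¹ ≤ p⁻¹ + r⁻¹ := (pow_le_pow_iff_left₀ pB.le (by positivity) (by norm_num)).mp h5
  have h7 : p⁻¹ ≤ 3 / E := by
    rw [inv_le_comm₀ hp (by positivity), inv_div]
    exact hpE
  have h8 : 330 / E < q⁻¹ := by
    rw [lt_inv_comm₀ (by positivity) hq, inv_div]
    exact hqE
  have h9 : 327 / E < r⁻¹ := by
    have e1 : 330 / E = 330 * (1 / E) := by ring
    have e2 : 3 / E = 3 * (1 / E) := by ring
    have e3 : 327 / E = 327 * (1 / E) := by ring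
    rw [e1] at h8
    rw [e2] at h7
    rw [e3]
    linarith
  rw [lt_inv_comm₀ (by positivity) hr, inv_div] at h9
  exact h9

theorem Rel.exists_bdd (H : Rel E e u1 u2 a1 a2 p v1 v2 b1 b2 q w1 w2 c1 c2 r) :
    ∃ t, E / 330 ≤ p t ∧ E / 330 ≤ q t ∧ E / 330 ≤ r t := by
  by_contra hcon
  push Not at hcon
  have Epos := H.Epos
  have hsum : ∀ t, E < p t + q t + r t := by
    intro t
    have := H.lo t
    have := H.ehalf
    linarith
  have cases : ∀ t, (E / 3 ≤ p t ∧ q t < E / 327 ∧ r t < E / 327) ∨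
      (E / 3 ≤ q t ∧ r t < E / 327 ∧ p t < E / 327) ∨
      (E / 3 ≤ r t ∧ p t < E / 327 ∧ q t < E / 327) := by
    intro t
    have hP := H.hu.pos t
    have hQ := H.hv.pos t
    have hR := H.hw.pos t
    have nP := H.hu.nrm t
    have nQ := H.hv.nrm t
    have nR := H.hw.nrm t
    have s1 := H.s1 t
    have s2 := H.s2 t
    have hc := hcon t
    by_cases h1 : E / 3 ≤ p t
    · left
      refine ⟨h1, ?_⟩
      by_cases h2 : q t < E / 330
      · exact ⟨by linarith, tri_core E _ _ _ _ _ _ _ _ _ Epos hP hQ hR nP nQ nR s1 s2 h1 h2⟩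
      · have h3 : r t < E / 330 := hc (by linarith) (not_lt.mp h2)
        exact ⟨tri_core E _ _ _ _ _ _ _ _ _ Epos hP hR hQ nP nR nQ (by linarith) (by linarith)
          h1 h3, by linarith⟩
    · by_cases h1' : E / 3 ≤ q t
      · right; left
        refine ⟨h1', ?_⟩
        by_cases h2 : r t < E / 330
        · exact ⟨by linarith, tri_core E _ _ _ _ _ _ _ _ _ Epos hQ hR hP nQ nR nP
            (by linarith) (by linarith) h1' h2⟩
        · have h3 : p t < E / 330 := by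
            by_contra h4
            exact h2 (hc (not_lt.mp h4) (by linarith))
          exact ⟨tri_core E _ _ _ _ _ _ _ _ _ Epos hQ hP hR nQ nP nR (by linarith) (by linarith)
            h1' h3, by linarith⟩
      · have h1'' : E / 3 ≤ r t := by
          have := hsum t
          push Not at h1 h1'
          linarith
        right; right
        refine ⟨h1'', ?_⟩
        by_cases h2 : p t < E / 330
        · exact ⟨by linarith, tri_core E _ _ _ _ _ _ _ _ _ Epos hR hP hQ nR nP nQ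
            (by linarith) (by linarith) h1'' h2⟩
        · have h3 : q t < E / 330 := by
            by_contra h4
            have := hc (not_lt.mp h2) (not_lt.mp h4)
            linarith
          exact ⟨tri_core E _ _ _ _ _ _ _ _ _ Epos hR hQ hP nR nQ nP (by linarith) (by linarith)
            h1'' h3, by linarith⟩
  have clop : ∀ f : ℝ → ℝ, Continuous f → (∀ t, E / 3 ≤ f t ∨ f t ≤ E / 327) →
      (∀ t, E / 3 ≤ f t) ∨ (∀ t, f t ≤ E / 327) := by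
    intro f hf hor
    have hcl : IsClosed {t | E / 3 ≤ f t} := isClosed_le continuous_const hf
    have hcl2 : IsClosed {t | f t ≤ E / 327} := isClosed_le hf continuous_const
    have hcompl : {t | E / 3 ≤ f t}ᶜ = {t | f t ≤ E / 327} := by
      ext t
      simp only [Set.mem_compl_iff, Set.mem_setOf_eq, not_le]
      constructor
      · intro h
        rcases hor t with h1 | h1
        · linarith
        · exact h1
      · intro h; linarith
    have hclopen : IsClopen {t | E / 3 ≤ f t} := by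
      refine ⟨hcl, ?_⟩
      rw [← isClosed_compl_iff, hcompl]
      exact hcl2
    rcases isClopen_iff.mp hclopen with h | h
    · right
      intro t
      rcases hor t with h1 | h1
      · have : t ∈ ({t | E / 3 ≤ f t} : Set ℝ) := h1
        rw [h] at this
        exact this.elim
      · exact h1
    · left
      intro t
      have : t ∈ ({t | E / 3 ≤ f t} : Set ℝ) := by rw [h]; trivial
      exact this
  have cp : Continuous p := continuous_iff_continuousAt.mpr fun t => (H.hu.dp t).continuousAt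
  have cq : Continuous q := continuous_iff_continuousAt.mpr fun t => (H.hv.dp t).continuousAt
  have lt1 : E / 327 < E / 3 := by linarith
  rcases clop p cp (fun t => by rcases cases t with h | h | h <;> [left; right; right] <;>
    first | exact h.1 | linarith [h.2.2] | linarith [h.2.1]) with h1 | h1
  · refine H.no_far h1 ?_ ?_
    · intro t
      rcases cases t with h | h | h
      · exact h.2.1
      · linarith [h1 t, h.2.2]
      · linarith [h1 t, h.2.1]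
    · intro t
      rcases cases t with h | h | h
      · exact h.2.2
      · linarith [h1 t, h.2.2]
      · linarith [h1 t, h.2.1]
  · rcases clop q cq (fun t => by rcases cases t with h | h | h <;> [right; left; right] <;>
      first | exact h.1 | linarith [h.2.2] | linarith [h.2.1]) with h2 | h2
    · refine H.cyc.no_far h2 ?_ ?_
      · intro t
        rcases cases t with h | h | h
        · linarith [h2 t, h.2.1]
        · exact h.2.1
        · linarith [h2 t, h.2.2]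
      · intro t
        rcases cases t with h | h | h
        · linarith [h2 t, h.2.1]
        · exact h.2.2
        · linarith [h2 t, h.2.2]
    · have h3 : ∀ t, E / 3 ≤ r t := by
        intro t
        rcases cases t with h | h | h
        · linarith [h1 t, h.1]
        · linarith [h2 t, h.1]
        · exact h.1
      refine H.cyc.cyc.no_far h3 ?_ ?_
      · intro t
        rcases cases t with h | h | h
        · linarith [h1 t, h.1]
        · linarith [h2 t, h.1]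
        · exact h.2.1
      · intro t
        rcases cases t with h | h | h
        · linarith [h1 t, h.1]
        · linarith [h2 t, h.1]
        · exact h.2.2

end Pool.Agent.S09895.PartB

namespace Pool.Agent.S09895.PartC
open Pool.Agent.S09895.PartA Pool.Agent.S09895.PartB Filter Topology

theorem lip_of_deriv (g k : ℝ → ℝ) (C : ℝ) (hd : ∀ t, HasDerivAt g (k t) t) (hk : ∀ t, |k t| ≤ C)
    (s t : ℝ) : |g s - g t| ≤ C * |s - t| := by
  have := Convex.norm_image_sub_le_of_norm_hasDerivWithin_le (f := g) (f' := k) (s := Set.univ)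
    (x := t) (y := s) (C := C) (fun x _ => (hd x).hasDerivWithinAt) (fun x _ => hk x)
    convex_univ trivial trivial
  simpa [Real.norm_eq_abs] using this

theorem taylor1 (f g : ℝ → ℝ) (C : ℝ) (hC : 0 ≤ C) (hd : ∀ t, HasDerivAt f (g t) t)
    (hl : ∀ s t, |g s - g t| ≤ C * |s - t|) (s t : ℝ) :
    |f s - f t - (s - t) * g t| ≤ C * |s - t| ^ 2 := by
  have h1 : ∀ x, HasDerivAt (fun x => f x - x * g t) (g x - g t) x := by
    intro x
    have := (hd x).sub ((hasDerivAt_id x).mul_const (g t))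
    refine this.congr_deriv ?_
    simp
  have := Convex.norm_image_sub_le_of_norm_hasDerivWithin_le (f := fun x => f x - x * g t)
    (f' := fun x => g x - g t) (s := Set.uIcc t s)
    (x := t) (y := s) (C := C * |s - t|) (fun x _ => (h1 x).hasDerivWithinAt) (fun x hx => by
      rw [Real.norm_eq_abs]
      refine (hl x t).trans ?_
      apply mul_le_mul_of_nonneg_left _ hC
      exact Set.abs_sub_left_of_mem_uIcc hx)
    (convex_uIcc t s) Set.left_mem_uIcc Set.right_mem_uIcc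
  simp only [Real.norm_eq_abs] at this
  have h2 : f s - s * g t - (f t - t * g t) = f s - f t - (s - t) * g t := by ring
  rw [h2] at this
  calc _ ≤ C * |s - t| * |s - t| := this
    _ = C * |s - t| ^ 2 := by ring

theorem lim_deriv (F : Filter ℕ) [F.NeBot] (f g : ℕ → ℝ → ℝ) (f0 g0 : ℝ → ℝ) (C : ℝ) (hC : 0 ≤ C)
    (hd : ∀ n t, HasDerivAt (f n) (g n t) t)
    (hl : ∀ n s t, |g n s - g n t| ≤ C * |s - t|)
    (hf : ∀ t, Tendsto (fun n => f n t) F (𝓝 (f0 t)))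
    (hg : ∀ t, Tendsto (fun n => g n t) F (𝓝 (g0 t))) (t : ℝ) : HasDerivAt f0 (g0 t) t := by
  have key : ∀ s, |f0 s - f0 t - (s - t) * g0 t| ≤ C * |s - t| ^ 2 := by
    intro s
    have h1 : Tendsto (fun n => |f n s - f n t - (s - t) * g n t|) F
        (𝓝 (|f0 s - f0 t - (s - t) * g0 t|)) :=
      (((hf s).sub (hf t)).sub ((hg t).const_mul (s - t))).abs
    exact le_of_tendsto h1 (Eventually.of_forall fun n => taylor1 (f n) (g n) C hC (hd n) (hl n) s t)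
  rw [hasDerivAt_iff_isLittleO]
  have h2 : (fun s => f0 s - f0 t - (s - t) • g0 t) =O[𝓝 t] fun s => (s - t) ^ 2 := by
    refine Asymptotics.IsBigO.of_bound C (Eventually.of_forall fun s => ?_)
    simp only [smul_eq_mul, Real.norm_eq_abs, abs_pow]
    exact key s
  refine h2.trans_isLittleO ?_
  have h3 : (fun s : ℝ => (s - t) ^ 2) =o[𝓝 t] fun s => (s - t) ^ 1 := by
    have h4 : Tendsto (fun s : ℝ => s - t) (𝓝 t) (𝓝 0) := by
      have : Tendsto (fun s : ℝ => s - t) (𝓝 t) (𝓝 (t - t)) := (continuous_sub_right t).tendsto t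
      simpa using this
    exact (Asymptotics.isLittleO_pow_pow (by norm_num : 1 < 2)).comp_tendsto h4
  simpa using h3

theorem exists_lim_fun (F : Ultrafilter ℕ) (f : ℕ → ℝ → ℝ) (B : ℝ → ℝ)
    (h : ∀ n t, |f n t| ≤ B t) :
    ∃ f0 : ℝ → ℝ, ∀ t, Tendsto (fun n => f n t) F (𝓝 (f0 t)) := by
  have : ∀ t, ∃ L, Tendsto (fun n => f n t) F (𝓝 L) := by
    intro t
    have hK : IsCompact (Set.Icc (-(B t)) (B t)) := isCompact_Icc
    have h1 : ((F.map (fun n => f n t)) : Filter ℝ) ≤ 𝓟 (Set.Icc (-(B t)) (B t)) := by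
      rw [le_principal_iff, Ultrafilter.coe_map, mem_map]
      exact Filter.Eventually.of_forall (fun n => abs_le.mp (h n t))
    obtain ⟨L, _, hL⟩ := hK.ultrafilter_le_nhds _ h1
    exact ⟨L, hL⟩
  choose f0 hf0 using this
  exact ⟨f0, hf0⟩

theorem Pr_xp {x y vx vy p X Y : ℝ → ℝ} (h : Pr x y vx vy p X Y) (t : ℝ) : |x t * p t| ≤ 1 := by
  have h2 := h.nrm t
  rw [← sq_le_one_iff_abs_le_one]
  nlinarith [sq_nonneg (y t * p t)]

theorem Pr_yp {x y vx vy p X Y : ℝ → ℝ} (h : Pr x y vx vy p X Y) (t : ℝ) : |y t * p t| ≤ 1 := by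
  have h2 := h.nrm t
  rw [← sq_le_one_iff_abs_le_one]
  nlinarith [sq_nonneg (x t * p t)]

/-- bound for x p^3 -/
theorem bd0 (x p M : ℝ) (h : |x * p| ≤ 1) (hp : 0 < p) (hM : p ≤ M) : |x * p ^ 3| ≤ M ^ 2 := by
  have h1 : x * p ^ 3 = (x * p) * p ^ 2 := by ring
  rw [h1, abs_mul, abs_of_nonneg (by positivity : (0:ℝ) ≤ p ^ 2)]
  calc |x * p| * p ^ 2 ≤ 1 * M ^ 2 := by
        apply mul_le_mul h (pow_le_pow_left₀ hp.le hM 2) (by positivity) (by norm_num)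
    _ = M ^ 2 := by ring

/-- bound for the derivative of x p^3 -/
theorem bd1 (x y v w p M V : ℝ) (h : |x * p| ≤ 1) (h' : |y * p| ≤ 1) (hp : 0 < p) (hM : p ≤ M)
    (hv : |v| ≤ V) (hw : |w| ≤ V) :
    |v * p ^ 3 - 3 * x * (x * v + y * w) * p ^ 5| ≤ 7 * V * M ^ 3 := by
  have hV : 0 ≤ V := le_trans (abs_nonneg v) hv
  have hM0 : 0 < M := lt_of_lt_of_le hp hM
  have e1 : v * p ^ 3 - 3 * x * (x * v + y * w) * p ^ 5
    = (v - 3 * (x * p) * ((x * p) * v + (y * p) * w)) * p ^ 3 := by ring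
  rw [e1, abs_mul, abs_of_nonneg (by positivity : (0:ℝ) ≤ p ^ 3)]
  have h1 : |v - 3 * (x * p) * ((x * p) * v + (y * p) * w)| ≤ 7 * V := by
    have h2 : |(x * p) * v + (y * p) * w| ≤ 2 * V := by
      calc |(x * p) * v + (y * p) * w| ≤ |(x * p) * v| + |(y * p) * w| := abs_add_le _ _
        _ = |x * p| * |v| + |y * p| * |w| := by rw [abs_mul, abs_mul (y * p)]
        _ ≤ 1 * V + 1 * V := by
          apply add_le_add
          · exact mul_le_mul h hv (abs_nonneg _) (by norm_num)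
          · exact mul_le_mul h' hw (abs_nonneg _) (by norm_num)
        _ = 2 * V := by ring
    calc |v - 3 * (x * p) * ((x * p) * v + (y * p) * w)|
        ≤ |v| + |3 * (x * p) * ((x * p) * v + (y * p) * w)| := abs_sub _ _
      _ = |v| + 3 * |x * p| * |(x * p) * v + (y * p) * w| := by
        rw [abs_mul, abs_mul 3, abs_of_pos (by norm_num : (0:ℝ) < 3)]
      _ ≤ V + 3 * 1 * (2 * V) := by
        apply add_le_add hv
        apply mul_le_mul _ h2 (abs_nonneg _) (by norm_num)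
        apply mul_le_mul_of_nonneg_left h (by norm_num)
      _ = 7 * V := by ring
  exact mul_le_mul h1 (pow_le_pow_left₀ hp.le hM 3) (by positivity) (by positivity)

/-- limit of relative vectors -/
theorem Pr_lim (F : Filter ℕ) [F.NeBot] (x y vx vy p X Y : ℕ → ℝ → ℝ)
    (x0 y0 vx0 vy0 p0 X0 Y0 : ℝ → ℝ) (A B : ℝ) (hA : 0 ≤ A) (hB : 0 ≤ B)
    (H : ∀ n, Pr (x n) (y n) (vx n) (vy n) (p n) (X n) (Y n))
    (hx1 : ∀ n t, |-3 * x n t * p n t ^ 3 + X n t| ≤ A)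
    (hy1 : ∀ n t, |-3 * y n t * p n t ^ 3 + Y n t| ≤ A)
    (hx2 : ∀ n s t, |(-3 * x n s * p n s ^ 3 + X n s) - (-3 * x n t * p n t ^ 3 + X n t)|
      ≤ B * |s - t|)
    (hy2 : ∀ n s t, |(-3 * y n s * p n s ^ 3 + Y n s) - (-3 * y n t * p n t ^ 3 + Y n t)|
      ≤ B * |s - t|)
    (lx : ∀ t, Tendsto (fun n => x n t) F (𝓝 (x0 t)))
    (ly : ∀ t, Tendsto (fun n => y n t) F (𝓝 (y0 t)))
    (lvx : ∀ t, Tendsto (fun n => vx n t) F (𝓝 (vx0 t)))
    (lvy : ∀ t, Tendsto (fun n => vy n t) F (𝓝 (vy0 t)))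
    (lp : ∀ t, Tendsto (fun n => p n t) F (𝓝 (p0 t)))
    (lX : ∀ t, Tendsto (fun n => X n t) F (𝓝 (X0 t)))
    (lY : ∀ t, Tendsto (fun n => Y n t) F (𝓝 (Y0 t))) :
    Pr x0 y0 vx0 vy0 p0 X0 Y0 := by
  have nrm : ∀ t, p0 t ^ 2 * (x0 t ^ 2 + y0 t ^ 2) = 1 := by
    intro t
    have h1 : Tendsto (fun n => p n t ^ 2 * (x n t ^ 2 + y n t ^ 2)) F
        (𝓝 (p0 t ^ 2 * (x0 t ^ 2 + y0 t ^ 2))) :=
      ((lp t).pow 2).mul (((lx t).pow 2).add ((ly t).pow 2))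
    have h2 : (fun n => p n t ^ 2 * (x n t ^ 2 + y n t ^ 2)) = fun _ => 1 := by
      funext n; exact (H n).nrm t
    rw [h2] at h1
    exact tendsto_nhds_unique h1 tendsto_const_nhds
  refine ⟨?_, ?_, ?_, ?_, ?_, nrm⟩
  · refine lim_deriv F x vx x0 vx0 A hA (fun n t => (H n).hx t) (fun n s t => ?_) lx lvx
    exact lip_of_deriv _ _ A ((H n).hvx) (hx1 n) s t
  · refine lim_deriv F y vy y0 vy0 A hA (fun n t => (H n).hy t) (fun n s t => ?_) ly lvy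
    exact lip_of_deriv _ _ A ((H n).hvy) (hy1 n) s t
  · refine lim_deriv F vx (fun n t => -3 * x n t * p n t ^ 3 + X n t) vx0
      (fun t => -3 * x0 t * p0 t ^ 3 + X0 t) B hB (fun n t => (H n).hvx t) hx2 lvx ?_
    intro t
    exact (((lx t).const_mul (-3)).mul ((lp t).pow 3)).add (lX t)
  · refine lim_deriv F vy (fun n t => -3 * y n t * p n t ^ 3 + Y n t) vy0
      (fun t => -3 * y0 t * p0 t ^ 3 + Y0 t) B hB (fun n t => (H n).hvy t) hy2 lvy ?_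
    intro t
    exact (((ly t).const_mul (-3)).mul ((lp t).pow 3)).add (lY t)
  · intro t
    have h1 : 0 ≤ p0 t := ge_of_tendsto (lp t) (Eventually.of_forall fun n => ((H n).pos t).le)
    rcases h1.lt_or_eq with h2 | h2
    · exact h2
    · have := nrm t
      rw [← h2] at this
      norm_num at this

variable {E e : ℝ} {u1 u2 a1 a2 p v1 v2 b1 b2 q w1 w2 c1 c2 r : ℝ → ℝ}

theorem Rel.pM (H : Rel E e u1 u2 a1 a2 p v1 v2 b1 b2 q w1 w2 c1 c2 r) (t : ℝ) : p t ≤ 3 * E := by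
  have h1 := H.hi t
  have h2 := H.ehalf
  have h3 := H.hv.pos t
  have h4 := H.hw.pos t
  linarith

theorem Rel.vel (H : Rel E e u1 u2 a1 a2 p v1 v2 b1 b2 q w1 w2 c1 c2 r) (t : ℝ) :
    |a1 t| ≤ 12 * E + 1 ∧ |a2 t| ≤ 12 * E + 1 := by
  have h1 := H.hi t
  have h2 := H.ehalf
  have h3 := H.kin t
  have hE := H.Epos
  have h4 : a1 t ^ 2 + a2 t ^ 2 ≤ 12 * E := by
    nlinarith [sq_nonneg (b1 t), sq_nonneg (b2 t), sq_nonneg (c1 t), sq_nonneg (c2 t)]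
  have h5 : 12 * E ≤ (12 * E + 1) ^ 2 := by nlinarith
  constructor
  · apply abs_le_of_sq_le_sq _ (by positivity)
    nlinarith [sq_nonneg (a2 t)]
  · apply abs_le_of_sq_le_sq _ (by positivity)
    nlinarith [sq_nonneg (a1 t)]

theorem Rel.posb (H : Rel E e u1 u2 a1 a2 p v1 v2 b1 b2 q w1 w2 c1 c2 r) (h0 : E / 330 ≤ p 0)
    (t : ℝ) : |u1 t| ≤ 330 / E + (12 * E + 1) * |t| ∧ |u2 t| ≤ 330 / E + (12 * E + 1) * |t| := by
  have hE := H.Epos
  have h1 := H.hu.nrm 0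
  have h2 : u1 0 ^ 2 + u2 0 ^ 2 ≤ (330 / E) ^ 2 := by
    have h3 : (E / 330) ^ 2 ≤ p 0 ^ 2 := pow_le_pow_left₀ (by positivity) h0 2
    have h4 : (E / 330) ^ 2 * (u1 0 ^ 2 + u2 0 ^ 2) ≤ 1 := by
      calc (E / 330) ^ 2 * (u1 0 ^ 2 + u2 0 ^ 2) ≤ p 0 ^ 2 * (u1 0 ^ 2 + u2 0 ^ 2) := by
            apply mul_le_mul_of_nonneg_right h3 (by positivity)
        _ = 1 := h1
    have h5 : (330 / E) ^ 2 * (E / 330) ^ 2 = 1 := by field_simp
    calc u1 0 ^ 2 + u2 0 ^ 2 = (330 / E) ^ 2 * ((E / 330) ^ 2 * (u1 0 ^ 2 + u2 0 ^ 2)) := by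
          rw [← mul_assoc, h5, one_mul]
      _ ≤ (330 / E) ^ 2 * 1 := by
          apply mul_le_mul_of_nonneg_left h4 (by positivity)
      _ = (330 / E) ^ 2 := by ring
  have h3 : |u1 0| ≤ 330 / E := by
    apply abs_le_of_sq_le_sq _ (by positivity)
    nlinarith [sq_nonneg (u2 0)]
  have h4 : |u2 0| ≤ 330 / E := by
    apply abs_le_of_sq_le_sq _ (by positivity)
    nlinarith [sq_nonneg (u1 0)]
  have h5 := lip_of_deriv u1 a1 (12 * E + 1) H.hu.hx (fun t => (Rel.vel H t).1) t 0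
  have h6 := lip_of_deriv u2 a2 (12 * E + 1) H.hu.hy (fun t => (Rel.vel H t).2) t 0
  rw [sub_zero] at h5 h6
  constructor
  · calc |u1 t| = |u1 0 + (u1 t - u1 0)| := by ring_nf
      _ ≤ |u1 0| + |u1 t - u1 0| := abs_add_le _ _
      _ ≤ _ := add_le_add h3 h5
  · calc |u2 t| = |u2 0 + (u2 t - u2 0)| := by ring_nf
      _ ≤ |u2 0| + |u2 t - u2 0| := abs_add_le _ _
      _ ≤ _ := add_le_add h4 h6

theorem Rel.Zb (H : Rel E e u1 u2 a1 a2 p v1 v2 b1 b2 q w1 w2 c1 c2 r) (t : ℝ) :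
    |Zf u1 p v1 q w1 r t| ≤ 3 * (3 * E) ^ 2 ∧ |Zf u2 p v2 q w2 r t| ≤ 3 * (3 * E) ^ 2 := by
  have hp := Rel.pM H t
  have hq := Rel.pM H.cyc t
  have hr := Rel.pM H.cyc.cyc t
  constructor
  · unfold Zf
    have h1 := bd0 (u1 t) (p t) (3 * E) (Pr_xp H.hu t) (H.hu.pos t) hp
    have h2 := bd0 (v1 t) (q t) (3 * E) (Pr_xp H.hv t) (H.hv.pos t) hq
    have h3 := bd0 (w1 t) (r t) (3 * E) (Pr_xp H.hw t) (H.hw.pos t) hr
    rw [abs_le] at *
    constructor <;> linarith [h1.1, h1.2, h2.1, h2.2, h3.1, h3.2]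
  · unfold Zf
    have h1 := bd0 (u2 t) (p t) (3 * E) (Pr_yp H.hu t) (H.hu.pos t) hp
    have h2 := bd0 (v2 t) (q t) (3 * E) (Pr_yp H.hv t) (H.hv.pos t) hq
    have h3 := bd0 (w2 t) (r t) (3 * E) (Pr_yp H.hw t) (H.hw.pos t) hr
    rw [abs_le] at *
    constructor <;> linarith [h1.1, h1.2, h2.1, h2.2, h3.1, h3.2]

theorem Rel.accb (H : Rel E e u1 u2 a1 a2 p v1 v2 b1 b2 q w1 w2 c1 c2 r) (t : ℝ) :
    |-3 * u1 t * p t ^ 3 + Zf u1 p v1 q w1 r t| ≤ 6 * (3 * E) ^ 2 ∧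
    |-3 * u2 t * p t ^ 3 + Zf u2 p v2 q w2 r t| ≤ 6 * (3 * E) ^ 2 := by
  have hp := Rel.pM H t
  have h0 := Rel.Zb H t
  constructor
  · have h1 := bd0 (u1 t) (p t) (3 * E) (Pr_xp H.hu t) (H.hu.pos t) hp
    have h2 := h0.1
    have e1 : -3 * u1 t * p t ^ 3 + Zf u1 p v1 q w1 r t
      = -3 * (u1 t * p t ^ 3) + Zf u1 p v1 q w1 r t := by ring
    rw [e1]
    rw [abs_le] at *
    constructor <;> linarith [h1.1, h1.2, h2.1, h2.2]
  · have h1 := bd0 (u2 t) (p t) (3 * E) (Pr_yp H.hu t) (H.hu.pos t) hp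
    have h2 := h0.2
    have e1 : -3 * u2 t * p t ^ 3 + Zf u2 p v2 q w2 r t
      = -3 * (u2 t * p t ^ 3) + Zf u2 p v2 q w2 r t := by ring
    rw [e1]
    rw [abs_le] at *
    constructor <;> linarith [h1.1, h1.2, h2.1, h2.2]

theorem Rel.C1b (H : Rel E e u1 u2 a1 a2 p v1 v2 b1 b2 q w1 w2 c1 c2 r) (t : ℝ) :
    |C1 u1 a1 (Dd u1 u2 a1 a2) p t| ≤ 7 * (12 * E + 1) * (3 * E) ^ 3 ∧
    |C1 u2 a2 (Dd u1 u2 a1 a2) p t| ≤ 7 * (12 * E + 1) * (3 * E) ^ 3 := by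
  have hp := Rel.pM H t
  have hv := Rel.vel H t
  constructor
  · exact bd1 (u1 t) (u2 t) (a1 t) (a2 t) (p t) _ _ (Pr_xp H.hu t) (Pr_yp H.hu t) (H.hu.pos t) hp
      hv.1 hv.2
  · have := bd1 (u2 t) (u1 t) (a2 t) (a1 t) (p t) _ _ (Pr_yp H.hu t) (Pr_xp H.hu t) (H.hu.pos t) hp
      hv.2 hv.1
    unfold C1 Dd
    rw [add_comm (u1 t * a1 t)]
    exact this

theorem Rel.jerk (H : Rel E e u1 u2 a1 a2 p v1 v2 b1 b2 q w1 w2 c1 c2 r) (s t : ℝ) :
    |(-3 * u1 s * p s ^ 3 + Zf u1 p v1 q w1 r s) - (-3 * u1 t * p t ^ 3 + Zf u1 p v1 q w1 r t)|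
      ≤ 42 * (12 * E + 1) * (3 * E) ^ 3 * |s - t| ∧
    |(-3 * u2 s * p s ^ 3 + Zf u2 p v2 q w2 r s) - (-3 * u2 t * p t ^ 3 + Zf u2 p v2 q w2 r t)|
      ≤ 42 * (12 * E + 1) * (3 * E) ^ 3 * |s - t| := by
  constructor
  · refine lip_of_deriv (fun t => -3 * u1 t * p t ^ 3 + Zf u1 p v1 q w1 r t)
      (fun t => -3 * C1 u1 a1 (Dd u1 u2 a1 a2) p t + (C1 u1 a1 (Dd u1 u2 a1 a2) p t
        + C1 v1 b1 (Dd v1 v2 b1 b2) q t + C1 w1 c1 (Dd w1 w2 c1 c2) r t)) _ ?_ ?_ s t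
    · intro t
      have h1 := ((H.hu.dC0x t).const_mul (-3)).add
        (((H.hu.dC0x t).add (H.hv.dC0x t)).add (H.hw.dC0x t))
      refine h1.congr_of_eventuallyEq (Eventually.of_forall fun s => ?_)
      simp only [Zf, Pi.add_apply]
      ring
    · intro t
      have h1 := (Rel.C1b H t).1
      have h2 := (Rel.C1b H.cyc t).1
      have h3 := (Rel.C1b H.cyc.cyc t).1
      rw [abs_le] at *
      constructor <;> linarith [h1.1, h1.2, h2.1, h2.2, h3.1, h3.2]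
  · refine lip_of_deriv (fun t => -3 * u2 t * p t ^ 3 + Zf u2 p v2 q w2 r t)
      (fun t => -3 * C1 u2 a2 (Dd u1 u2 a1 a2) p t + (C1 u2 a2 (Dd u1 u2 a1 a2) p t
        + C1 v2 b2 (Dd v1 v2 b1 b2) q t + C1 w2 c2 (Dd w1 w2 c1 c2) r t)) _ ?_ ?_ s t
    · intro t
      have h1 := ((H.hu.dC0y t).const_mul (-3)).add
        (((H.hu.dC0y t).add (H.hv.dC0y t)).add (H.hw.dC0y t))
      refine h1.congr_of_eventuallyEq (Eventually.of_forall fun s => ?_)
      simp only [Zf, Pi.add_apply]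
      ring
    · intro t
      have h1 := (Rel.C1b H t).2
      have h2 := (Rel.C1b H.cyc t).2
      have h3 := (Rel.C1b H.cyc.cyc t).2
      rw [abs_le] at *
      constructor <;> linarith [h1.1, h1.2, h2.1, h2.2, h3.1, h3.2]

theorem Zf_cyc (x p y q z r : ℝ → ℝ) : Zf y q z r x p = Zf x p y q z r := by
  funext t; unfold Zf; ring

/-- there is no sequence of band solutions with bandwidth tending to zero -/
theorem no_seq (E : ℝ) (e : ℕ → ℝ) (he : Tendsto e atTop (𝓝 0))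
    (u1 u2 a1 a2 p v1 v2 b1 b2 q w1 w2 c1 c2 r : ℕ → ℝ → ℝ)
    (H : ∀ n, Rel E (e n) (u1 n) (u2 n) (a1 n) (a2 n) (p n) (v1 n) (v2 n) (b1 n) (b2 n) (q n)
      (w1 n) (w2 n) (c1 n) (c2 n) (r n))
    (h0 : ∀ n, E / 330 ≤ p n 0 ∧ E / 330 ≤ q n 0 ∧ E / 330 ≤ r n 0) : False := by
  have Epos := (H 0).Epos
  obtain ⟨F, hF⟩ : ∃ F : Ultrafilter ℕ, (F : Filter ℕ) ≤ atTop :=
    ⟨hyperfilter ℕ, by rw [← Nat.cofinite_eq_atTop]; exact hyperfilter_le_cofinite⟩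
  have he' : Tendsto e F (𝓝 0) := he.mono_left hF
  set P : ℝ → ℝ := fun t => 330 / E + (12 * E + 1) * |t| with hP
  set V : ℝ → ℝ := fun _ => 12 * E + 1 with hV
  set M : ℝ → ℝ := fun _ => 3 * E with hM
  obtain ⟨u10, lu1⟩ := exists_lim_fun F u1 P (fun n t => (Rel.posb (H n) (h0 n).1 t).1)
  obtain ⟨u20, lu2⟩ := exists_lim_fun F u2 P (fun n t => (Rel.posb (H n) (h0 n).1 t).2)
  obtain ⟨v10, lv1⟩ := exists_lim_fun F v1 P (fun n t => (Rel.posb (H n).cyc (h0 n).2.1 t).1)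
  obtain ⟨v20, lv2⟩ := exists_lim_fun F v2 P (fun n t => (Rel.posb (H n).cyc (h0 n).2.1 t).2)
  obtain ⟨w10, lw1⟩ := exists_lim_fun F w1 P (fun n t => (Rel.posb (H n).cyc.cyc (h0 n).2.2 t).1)
  obtain ⟨w20, lw2⟩ := exists_lim_fun F w2 P (fun n t => (Rel.posb (H n).cyc.cyc (h0 n).2.2 t).2)
  obtain ⟨a10, la1⟩ := exists_lim_fun F a1 V (fun n t => (Rel.vel (H n) t).1)
  obtain ⟨a20, la2⟩ := exists_lim_fun F a2 V (fun n t => (Rel.vel (H n) t).2)
  obtain ⟨b10, lb1⟩ := exists_lim_fun F b1 V (fun n t => (Rel.vel (H n).cyc t).1)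
  obtain ⟨b20, lb2⟩ := exists_lim_fun F b2 V (fun n t => (Rel.vel (H n).cyc t).2)
  obtain ⟨c10, lc1⟩ := exists_lim_fun F c1 V (fun n t => (Rel.vel (H n).cyc.cyc t).1)
  obtain ⟨c20, lc2⟩ := exists_lim_fun F c2 V (fun n t => (Rel.vel (H n).cyc.cyc t).2)
  obtain ⟨p0, lp⟩ := exists_lim_fun F p M (fun n t => by
    rw [abs_of_pos ((H n).hu.pos t)]; exact Rel.pM (H n) t)
  obtain ⟨q0, lq⟩ := exists_lim_fun F q M (fun n t => by
    rw [abs_of_pos ((H n).hv.pos t)]; exact Rel.pM (H n).cyc t)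
  obtain ⟨r0, lr⟩ := exists_lim_fun F r M (fun n t => by
    rw [abs_of_pos ((H n).hw.pos t)]; exact Rel.pM (H n).cyc.cyc t)
  have lZ1 : ∀ t, Tendsto (fun n => Zf (u1 n) (p n) (v1 n) (q n) (w1 n) (r n) t) F
      (𝓝 (Zf u10 p0 v10 q0 w10 r0 t)) := fun t =>
    (((lu1 t).mul ((lp t).pow 3)).add ((lv1 t).mul ((lq t).pow 3))).add
      ((lw1 t).mul ((lr t).pow 3))
  have lZ2 : ∀ t, Tendsto (fun n => Zf (u2 n) (p n) (v2 n) (q n) (w2 n) (r n) t) F
      (𝓝 (Zf u20 p0 v20 q0 w20 r0 t)) := fun t =>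
    (((lu2 t).mul ((lp t).pow 3)).add ((lv2 t).mul ((lq t).pow 3))).add
      ((lw2 t).mul ((lr t).pow 3))
  have A0 : 0 ≤ 6 * (3 * E) ^ 2 := by positivity
  have B0 : 0 ≤ 42 * (12 * E + 1) * (3 * E) ^ 3 := by positivity
  have Hu : Pr u10 u20 a10 a20 p0 (Zf u10 p0 v10 q0 w10 r0) (Zf u20 p0 v20 q0 w20 r0) :=
    Pr_lim F u1 u2 a1 a2 p _ _ u10 u20 a10 a20 p0 _ _ _ _ A0 B0 (fun n => (H n).hu)
      (fun n t => (Rel.accb (H n) t).1) (fun n t => (Rel.accb (H n) t).2)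
      (fun n s t => (Rel.jerk (H n) s t).1) (fun n s t => (Rel.jerk (H n) s t).2)
      lu1 lu2 la1 la2 lp lZ1 lZ2
  have Hv : Pr v10 v20 b10 b20 q0 (Zf u10 p0 v10 q0 w10 r0) (Zf u20 p0 v20 q0 w20 r0) := by
    refine Pr_lim F v1 v2 b1 b2 q _ _ v10 v20 b10 b20 q0 _ _ _ _ A0 B0 (fun n => (H n).hv)
      (fun n t => ?_) (fun n t => ?_) (fun n s t => ?_) (fun n s t => ?_)
      lv1 lv2 lb1 lb2 lq lZ1 lZ2
    · have := (Rel.accb (H n).cyc t).1
      rw [Zf_cyc] at this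
      exact this
    · have := (Rel.accb (H n).cyc t).2
      rw [Zf_cyc] at this
      exact this
    · have := (Rel.jerk (H n).cyc s t).1
      rw [Zf_cyc] at this
      exact this
    · have := (Rel.jerk (H n).cyc s t).2
      rw [Zf_cyc] at this
      exact this
  have Hw : Pr w10 w20 c10 c20 r0 (Zf u10 p0 v10 q0 w10 r0) (Zf u20 p0 v20 q0 w20 r0) := by
    refine Pr_lim F w1 w2 c1 c2 r _ _ w10 w20 c10 c20 r0 _ _ _ _ A0 B0 (fun n => (H n).hw)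
      (fun n t => ?_) (fun n t => ?_) (fun n s t => ?_) (fun n s t => ?_)
      lw1 lw2 lc1 lc2 lr lZ1 lZ2
    · have := (Rel.accb (H n).cyc.cyc t).1
      rw [Zf_cyc, Zf_cyc] at this
      exact this
    · have := (Rel.accb (H n).cyc.cyc t).2
      rw [Zf_cyc, Zf_cyc] at this
      exact this
    · have := (Rel.jerk (H n).cyc.cyc s t).1
      rw [Zf_cyc, Zf_cyc] at this
      exact this
    · have := (Rel.jerk (H n).cyc.cyc s t).2
      rw [Zf_cyc, Zf_cyc] at this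
      exact this
  have pot : ∀ t, p0 t + q0 t + r0 t = 2 * E := by
    intro t
    have l1 : Tendsto (fun n => p n t + q n t + r n t) F (𝓝 (p0 t + q0 t + r0 t)) :=
      ((lp t).add (lq t)).add (lr t)
    have l2 : Tendsto (fun n => 2 * (E - e n)) F (𝓝 (2 * (E - 0))) :=
      (tendsto_const_nhds.sub he').const_mul 2
    have l3 : Tendsto (fun n => 2 * (E + e n)) F (𝓝 (2 * (E + 0))) :=
      (tendsto_const_nhds.add he').const_mul 2
    have h1 : 2 * (E - 0) ≤ p0 t + q0 t + r0 t :=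
      le_of_tendsto_of_tendsto l2 l1 (Eventually.of_forall fun n => ((H n).lo t).le)
    have h2 : p0 t + q0 t + r0 t ≤ 2 * (E + 0) :=
      le_of_tendsto_of_tendsto l1 l3 (Eventually.of_forall fun n => ((H n).hi t).le)
    linarith
  have zero_lim : ∀ (f : ℕ → ℝ) (L : ℝ), Tendsto f F (𝓝 L) → (∀ n, f n = 0) → L = 0 := by
    intro f L h1 h2
    have : f = fun _ => 0 := funext h2
    rw [this] at h1
    exact tendsto_nhds_unique h1 tendsto_const_nhds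
  have HS : Sys E u10 u20 a10 a20 p0 v10 v20 b10 b20 q0 w10 w20 c10 c20 r0 := by
    refine ⟨Epos, Hu, Hv, Hw, ?_, ?_, ?_, ?_, pot, ?_, ?_⟩
    · intro t
      exact zero_lim _ _ (((lu1 t).add (lv1 t)).add (lw1 t)) (fun n => (H n).s1 t)
    · intro t
      exact zero_lim _ _ (((lu2 t).add (lv2 t)).add (lw2 t)) (fun n => (H n).s2 t)
    · intro t
      exact zero_lim _ _ (((la1 t).add (lb1 t)).add (lc1 t)) (fun n => (H n).m1 t)
    · intro t
      exact zero_lim _ _ (((la2 t).add (lb2 t)).add (lc2 t)) (fun n => (H n).m2 t)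
    · intro t
      have l1 := ((((la1 t).pow 2).add ((la2 t).pow 2)).add
        (((lb1 t).pow 2).add ((lb2 t).pow 2))).add (((lc1 t).pow 2).add ((lc2 t).pow 2))
      have l2 := ((((lp t).add (lq t)).add (lr t)).sub_const E).const_mul 6
      have h1 := zero_lim _ _ (l1.sub l2) (fun n => by
        have := (H n).kin t
        linarith)
      have h2 := pot t
      linarith
    · intro t
      exact zero_lim _ _ (((((lu1 t).mul (la2 t)).sub ((lu2 t).mul (la1 t))).add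
        (((lv1 t).mul (lb2 t)).sub ((lv2 t).mul (lb1 t)))).add
        (((lw1 t).mul (lc2 t)).sub ((lw2 t).mul (lc1 t)))) (fun n => (H n).ang t)
  exact HS.false

end Pool.Agent.S09895.PartC

namespace Pool.Agent.S09895.PartD
open Pool.Agent.S09895.PartA Pool.Agent.S09895.PartB Pool.Agent.S09895.PartC Filter Topology

theorem filt0 (f : Fin 3 → ℝ) : ∑ j ∈ Finset.univ.filter (fun j : Fin 3 => j ≠ 0), f j = f 1 + f 2 := by
  rw [Finset.sum_filter, Fin.sum_univ_three]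
  simp

theorem filt1 (f : Fin 3 → ℝ) : ∑ j ∈ Finset.univ.filter (fun j : Fin 3 => j ≠ 1), f j = f 0 + f 2 := by
  rw [Finset.sum_filter, Fin.sum_univ_three]
  simp

theorem filt2 (f : Fin 3 → ℝ) : ∑ j ∈ Finset.univ.filter (fun j : Fin 3 => j ≠ 2), f j = f 0 + f 1 := by
  rw [Finset.sum_filter, Fin.sum_univ_three]
  simp

theorem filtlt (f : Fin 3 → Fin 3 → ℝ) :
    ∑ i, ∑ j ∈ Finset.univ.filter (fun j : Fin 3 => i < j), f i j = f 0 1 + f 0 2 + f 1 2 := by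
  simp only [Finset.sum_filter, Fin.sum_univ_three]
  simp

/-- inverse distance -/
noncomputable def ip (a b : ℝ → ℝ) (t : ℝ) : ℝ := (Real.sqrt (a t ^ 2 + b t ^ 2))⁻¹

theorem mkPr (x y vx vy X Y : ℝ → ℝ) (h0 : ∀ t, x t ^ 2 + y t ^ 2 ≠ 0)
    (hx : ∀ t, HasDerivAt x (vx t) t) (hy : ∀ t, HasDerivAt y (vy t) t)
    (hvx : ∀ t, HasDerivAt vx (-3 * x t * ip x y t ^ 3 + X t) t)
    (hvy : ∀ t, HasDerivAt vy (-3 * y t * ip x y t ^ 3 + Y t) t) :
    Pr x y vx vy (ip x y) X Y := by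
  have hpos : ∀ t, 0 < x t ^ 2 + y t ^ 2 := fun t =>
    lt_of_le_of_ne (by positivity) (Ne.symm (h0 t))
  refine ⟨hx, hy, hvx, hvy, fun t => ?_, fun t => ?_⟩
  · exact inv_pos.mpr (Real.sqrt_pos.mpr (hpos t))
  · unfold ip
    rw [inv_pow, Real.sq_sqrt (hpos t).le]
    exact inv_mul_cancel₀ (h0 t)

/-- passage from three planar bodies to relative vectors -/
theorem toRel (E e : ℝ) (hE : 0 < E) (he : 0 < e) (heh : e ≤ E / 2) (x y vx vy : Fin 3 → ℝ → ℝ)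
    (hne : ∀ t : ℝ, ∀ i j : Fin 3, i ≠ j → (x i t - x j t) ^ 2 + (y i t - y j t) ^ 2 ≠ 0)
    (hode : ∀ i : Fin 3, ∀ t : ℝ,
        HasDerivAt (x i) (vx i t) t ∧ HasDerivAt (y i) (vy i t) t ∧
        HasDerivAt (vx i)
          (∑ j ∈ Finset.univ.filter (fun j => j ≠ i),
            (x j t - x i t) / (Real.sqrt ((x j t - x i t) ^ 2 + (y j t - y i t) ^ 2)) ^ 3) t ∧
        HasDerivAt (vy i)
          (∑ j ∈ Finset.univ.filter (fun j => j ≠ i),
            (y j t - y i t) / (Real.sqrt ((x j t - x i t) ^ 2 + (y j t - y i t) ^ 2)) ^ 3) t)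
    (hbd : ∃ R : ℝ, ∀ i : Fin 3, ∀ t : ℝ, |x i t| ≤ R ∧ |y i t| ≤ R)
    (hJ : ∀ t : ℝ, ∑ i, (x i t * vy i t - y i t * vx i t) = 0)
    (hH : ∀ t : ℝ, (1 / 2 : ℝ) * ∑ i, (vx i t ^ 2 + vy i t ^ 2)
          - ∑ i, ∑ j ∈ Finset.univ.filter (fun j => i < j),
              1 / Real.sqrt ((x i t - x j t) ^ 2 + (y i t - y j t) ^ 2) = -E)
    (hB : ∀ t : ℝ,
        2 * (E - e) < ∑ i, ∑ j ∈ Finset.univ.filter (fun j => i < j),
              1 / Real.sqrt ((x i t - x j t) ^ 2 + (y i t - y j t) ^ 2) ∧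
        ∑ i, ∑ j ∈ Finset.univ.filter (fun j => i < j),
              1 / Real.sqrt ((x i t - x j t) ^ 2 + (y i t - y j t) ^ 2) < 2 * (E + e)) :
    ∃ u1 u2 a1 a2 p v1 v2 b1 b2 q w1 w2 c1 c2 r : ℝ → ℝ,
      Rel E e u1 u2 a1 a2 p v1 v2 b1 b2 q w1 w2 c1 c2 r := by
  -- symmetric form of inverse distances
  have sym : ∀ (a b : ℝ), (a - b) ^ 2 = (b - a) ^ 2 := fun a b => by ring
  set u1 : ℝ → ℝ := fun t => x 1 t - x 0 t with hu1
  set u2 : ℝ → ℝ := fun t => y 1 t - y 0 t with hu2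
  set v1 : ℝ → ℝ := fun t => x 2 t - x 1 t with hv1
  set v2 : ℝ → ℝ := fun t => y 2 t - y 1 t with hv2
  set w1 : ℝ → ℝ := fun t => x 0 t - x 2 t with hw1
  set w2 : ℝ → ℝ := fun t => y 0 t - y 2 t with hw2
  set a1 : ℝ → ℝ := fun t => vx 1 t - vx 0 t with ha1
  set a2 : ℝ → ℝ := fun t => vy 1 t - vy 0 t with ha2
  set b1 : ℝ → ℝ := fun t => vx 2 t - vx 1 t with hb1
  set b2 : ℝ → ℝ := fun t => vy 2 t - vy 1 t with hb2
  set c1 : ℝ → ℝ := fun t => vx 0 t - vx 2 t with hc1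
  set c2 : ℝ → ℝ := fun t => vy 0 t - vy 2 t with hc2
  set p : ℝ → ℝ := ip u1 u2 with hp
  set q : ℝ → ℝ := ip v1 v2 with hq
  set r : ℝ → ℝ := ip w1 w2 with hr
  -- accelerations
  have A0 : ∀ t, HasDerivAt (vx 0) (u1 t * p t ^ 3 - w1 t * r t ^ 3) t ∧
      HasDerivAt (vy 0) (u2 t * p t ^ 3 - w2 t * r t ^ 3) t := by
    intro t
    obtain ⟨-, -, h1, h2⟩ := hode 0 t
    rw [filt0] at h1 h2
    constructor
    · refine h1.congr_deriv ?_
      simp only [hp, hr, ip, hu1, hu2, hw1, hw2]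
      rw [sym (x 2 t) (x 0 t), sym (y 2 t) (y 0 t), inv_pow, inv_pow]
      ring
    · refine h2.congr_deriv ?_
      simp only [hp, hr, ip, hu1, hu2, hw1, hw2]
      rw [sym (x 2 t) (x 0 t), sym (y 2 t) (y 0 t), inv_pow, inv_pow]
      ring
  have A1 : ∀ t, HasDerivAt (vx 1) (v1 t * q t ^ 3 - u1 t * p t ^ 3) t ∧
      HasDerivAt (vy 1) (v2 t * q t ^ 3 - u2 t * p t ^ 3) t := by
    intro t
    obtain ⟨-, -, h1, h2⟩ := hode 1 t
    rw [filt1] at h1 h2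
    constructor
    · refine h1.congr_deriv ?_
      simp only [hp, hq, ip, hu1, hu2, hv1, hv2]
      rw [sym (x 0 t) (x 1 t), sym (y 0 t) (y 1 t), inv_pow, inv_pow]
      ring
    · refine h2.congr_deriv ?_
      simp only [hp, hq, ip, hu1, hu2, hv1, hv2]
      rw [sym (x 0 t) (x 1 t), sym (y 0 t) (y 1 t), inv_pow, inv_pow]
      ring
  have A2 : ∀ t, HasDerivAt (vx 2) (w1 t * r t ^ 3 - v1 t * q t ^ 3) t ∧
      HasDerivAt (vy 2) (w2 t * r t ^ 3 - v2 t * q t ^ 3) t := by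
    intro t
    obtain ⟨-, -, h1, h2⟩ := hode 2 t
    rw [filt2] at h1 h2
    constructor
    · refine h1.congr_deriv ?_
      simp only [hq, hr, ip, hv1, hv2, hw1, hw2]
      rw [sym (x 1 t) (x 2 t), sym (y 1 t) (y 2 t), inv_pow, inv_pow]
      ring
    · refine h2.congr_deriv ?_
      simp only [hq, hr, ip, hv1, hv2, hw1, hw2]
      rw [sym (x 1 t) (x 2 t), sym (y 1 t) (y 2 t), inv_pow, inv_pow]
      ring
  -- total momentum vanishes
  have mom : ∀ (z vz : Fin 3 → ℝ → ℝ) (g0 g1 g2 : ℝ → ℝ) (R : ℝ),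
      (∀ i t, HasDerivAt (z i) (vz i t) t) →
      (∀ t, HasDerivAt (vz 0) (g0 t) t) → (∀ t, HasDerivAt (vz 1) (g1 t) t) →
      (∀ t, HasDerivAt (vz 2) (g2 t) t) → (∀ t, g0 t + g1 t + g2 t = 0) →
      (∀ i t, |z i t| ≤ R) → ∀ t, vz 0 t + vz 1 t + vz 2 t = 0 := by
    intro z vz g0 g1 g2 R hz hg0 hg1 hg2 hg hR
    have hd : ∀ t, HasDerivAt (fun t => vz 0 t + vz 1 t + vz 2 t) 0 t := by
      intro t
      exact (((hg0 t).add (hg1 t)).add (hg2 t)).congr_deriv (hg t)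
    have hc : ∀ t, vz 0 t + vz 1 t + vz 2 t = vz 0 0 + vz 1 0 + vz 2 0 := fun t =>
      is_const_of_deriv_eq_zero (fun x => (hd x).differentiableAt) (fun x => (hd x).deriv) t 0
    set c := vz 0 0 + vz 1 0 + vz 2 0 with hcdef
    have hd2 : ∀ t, HasDerivAt (fun t => z 0 t + z 1 t + z 2 t - c * t) 0 t := by
      intro t
      have h1 := (((hz 0 t).add (hz 1 t)).add (hz 2 t)).sub ((hasDerivAt_id t).const_mul c)
      refine h1.congr_deriv ?_
      rw [hc t]; ring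
    have hc2 : ∀ t, z 0 t + z 1 t + z 2 t - c * t = z 0 0 + z 1 0 + z 2 0 - c * 0 := fun t =>
      is_const_of_deriv_eq_zero (fun x => (hd2 x).differentiableAt) (fun x => (hd2 x).deriv) t 0
    have hc0 : c = 0 := by
      by_contra hne
      have h1 := hc2 ((6 * R + 1) / c)
      have h2 : c * ((6 * R + 1) / c) = 6 * R + 1 := by field_simp
      rw [h2] at h1
      have k0 := abs_le.mp (hR 0 ((6 * R + 1) / c))
      have k1 := abs_le.mp (hR 1 ((6 * R + 1) / c))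
      have k2 := abs_le.mp (hR 2 ((6 * R + 1) / c))
      have k3 := abs_le.mp (hR 0 0)
      have k4 := abs_le.mp (hR 1 0)
      have k5 := abs_le.mp (hR 2 0)
      linarith [k0.1, k0.2, k1.1, k1.2, k2.1, k2.2, k3.1, k3.2, k4.1, k4.2, k5.1, k5.2]
    intro t
    rw [hc t, hc0]
  obtain ⟨R, hR⟩ := hbd
  have P1 : ∀ t, vx 0 t + vx 1 t + vx 2 t = 0 :=
    mom x vx _ _ _ R (fun i t => (hode i t).1) (fun t => (A0 t).1) (fun t => (A1 t).1)
      (fun t => (A2 t).1) (fun t => by ring) (fun i t => (hR i t).1)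
  have P2 : ∀ t, vy 0 t + vy 1 t + vy 2 t = 0 :=
    mom y vy _ _ _ R (fun i t => (hode i t).2.1) (fun t => (A0 t).2) (fun t => (A1 t).2)
      (fun t => (A2 t).2) (fun t => by ring) (fun i t => (hR i t).2)
  -- potential
  have hU : ∀ t, ∑ i, ∑ j ∈ Finset.univ.filter (fun j => i < j),
      1 / Real.sqrt ((x i t - x j t) ^ 2 + (y i t - y j t) ^ 2) = p t + q t + r t := by
    intro t
    rw [filtlt (fun i j => 1 / Real.sqrt ((x i t - x j t) ^ 2 + (y i t - y j t) ^ 2))]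
    simp only [hp, hq, hr, ip, hu1, hu2, hv1, hv2, hw1, hw2]
    rw [sym (x 0 t) (x 1 t), sym (y 0 t) (y 1 t), sym (x 1 t) (x 2 t), sym (y 1 t) (y 2 t)]
    simp only [one_div]
    ring
  refine ⟨u1, u2, a1, a2, p, v1, v2, b1, b2, q, w1, w2, c1, c2, r, hE, he, heh, ?_, ?_, ?_,
    ?_, ?_, ?_, ?_, ?_, ?_, ?_, ?_⟩
  · refine mkPr u1 u2 a1 a2 _ _ (fun t => hne t 1 0 (by decide))
      (fun t => ((hode 1 t).1).sub ((hode 0 t).1)) (fun t => ((hode 1 t).2.1).sub ((hode 0 t).2.1))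
      (fun t => ?_) (fun t => ?_)
    · refine ((A1 t).1.sub (A0 t).1).congr_deriv ?_
      simp only [Zf]; ring
    · refine ((A1 t).2.sub (A0 t).2).congr_deriv ?_
      simp only [Zf]; ring
  · refine mkPr v1 v2 b1 b2 _ _ (fun t => hne t 2 1 (by decide))
      (fun t => ((hode 2 t).1).sub ((hode 1 t).1)) (fun t => ((hode 2 t).2.1).sub ((hode 1 t).2.1))
      (fun t => ?_) (fun t => ?_)
    · refine ((A2 t).1.sub (A1 t).1).congr_deriv ?_
      simp only [Zf]; ring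
    · refine ((A2 t).2.sub (A1 t).2).congr_deriv ?_
      simp only [Zf]; ring
  · refine mkPr w1 w2 c1 c2 _ _ (fun t => hne t 0 2 (by decide))
      (fun t => ((hode 0 t).1).sub ((hode 2 t).1)) (fun t => ((hode 0 t).2.1).sub ((hode 2 t).2.1))
      (fun t => ?_) (fun t => ?_)
    · refine ((A0 t).1.sub (A2 t).1).congr_deriv ?_
      simp only [Zf]; ring
    · refine ((A0 t).2.sub (A2 t).2).congr_deriv ?_
      simp only [Zf]; ring
  · intro t; simp only [hu1, hv1, hw1]; ring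
  · intro t; simp only [hu2, hv2, hw2]; ring
  · intro t; simp only [ha1, hb1, hc1]; ring
  · intro t; simp only [ha2, hb2, hc2]; ring
  · intro t; rw [← hU t]; exact (hB t).1
  · intro t; rw [← hU t]; exact (hB t).2
  · intro t
    have h1 := hH t
    rw [hU t, Fin.sum_univ_three] at h1
    have h2 := P1 t
    have h3 := P2 t
    simp only [ha1, ha2, hb1, hb2, hc1, hc2]
    linear_combination 6 * h1 - (vx 0 t + vx 1 t + vx 2 t) * h2 - (vy 0 t + vy 1 t + vy 2 t) * h3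
  · intro t
    have h1 := hJ t
    rw [Fin.sum_univ_three] at h1
    have h2 := P1 t
    have h3 := P2 t
    simp only [ha1, ha2, hb1, hb2, hc1, hc2, hu1, hu2, hv1, hv2, hw1, hw2]
    linear_combination 3 * h1 - (x 0 t + x 1 t + x 2 t) * h3 + (y 0 t + y 1 t + y 2 t) * h2

theorem main :
  ∀ E : ℝ, 0 < E → ∃ ε : ℝ, 0 < ε ∧
    ∀ x y vx vy : Fin 3 → ℝ → ℝ,
      (∀ t : ℝ, ∀ i j : Fin 3, i ≠ j → (x i t - x j t) ^ 2 + (y i t - y j t) ^ 2 ≠ 0) →
      (∀ i : Fin 3, ∀ t : ℝ,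
        HasDerivAt (x i) (vx i t) t ∧ HasDerivAt (y i) (vy i t) t ∧
        HasDerivAt (vx i)
          (∑ j ∈ Finset.univ.filter (fun j => j ≠ i),
            (x j t - x i t) / (Real.sqrt ((x j t - x i t) ^ 2 + (y j t - y i t) ^ 2)) ^ 3) t ∧
        HasDerivAt (vy i)
          (∑ j ∈ Finset.univ.filter (fun j => j ≠ i),
            (y j t - y i t) / (Real.sqrt ((x j t - x i t) ^ 2 + (y j t - y i t) ^ 2)) ^ 3) t) →
      (∃ R : ℝ, ∀ i : Fin 3, ∀ t : ℝ, |x i t| ≤ R ∧ |y i t| ≤ R) →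
      (∀ t : ℝ, ∑ i, (x i t * vy i t - y i t * vx i t) = 0) →
      (∀ t : ℝ, (1 / 2 : ℝ) * ∑ i, (vx i t ^ 2 + vy i t ^ 2)
          - ∑ i, ∑ j ∈ Finset.univ.filter (fun j => i < j),
              1 / Real.sqrt ((x i t - x j t) ^ 2 + (y i t - y j t) ^ 2) = -E) →
      (∀ t : ℝ,
        2 * (E - ε) < ∑ i, ∑ j ∈ Finset.univ.filter (fun j => i < j),
              1 / Real.sqrt ((x i t - x j t) ^ 2 + (y i t - y j t) ^ 2) ∧
        ∑ i, ∑ j ∈ Finset.univ.filter (fun j => i < j),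
              1 / Real.sqrt ((x i t - x j t) ^ 2 + (y i t - y j t) ^ 2) < 2 * (E + ε)) →
      False := by
  intro E hE
  by_contra hcon
  push Not at hcon
  have step : ∀ n : ℕ, ∃ u1 u2 a1 a2 p v1 v2 b1 b2 q w1 w2 c1 c2 r : ℝ → ℝ,
      Rel E (E / 2 / ((n : ℝ) + 1)) u1 u2 a1 a2 p v1 v2 b1 b2 q w1 w2 c1 c2 r ∧
      (E / 330 ≤ p 0 ∧ E / 330 ≤ q 0 ∧ E / 330 ≤ r 0) := by
    intro n
    have hn : (0 : ℝ) < (n : ℝ) + 1 := by positivity
    have he : 0 < E / 2 / ((n : ℝ) + 1) := by positivity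
    have heh : E / 2 / ((n : ℝ) + 1) ≤ E / 2 := by
      apply div_le_self (by positivity)
      have : (0 : ℝ) ≤ (n : ℝ) := Nat.cast_nonneg n
      linarith
    obtain ⟨x, y, vx, vy, h1, h2, h3, h4, h5, h6, _⟩ := hcon _ he
    obtain ⟨u1, u2, a1, a2, p, v1, v2, b1, b2, q, w1, w2, c1, c2, r, HR⟩ :=
      toRel E _ hE he heh x y vx vy h1 h2 h3 h4 h5 h6
    obtain ⟨t, ht⟩ := HR.exists_bdd
    refine ⟨_, _, _, _, _, _, _, _, _, _, _, _, _, _, _, HR.shift t, ?_⟩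
    simpa using ht
  choose u1 u2 a1 a2 p v1 v2 b1 b2 q w1 w2 c1 c2 r HR h0 using step
  refine no_seq E (fun n => E / 2 / ((n : ℝ) + 1)) ?_ u1 u2 a1 a2 p v1 v2 b1 b2 q w1 w2 c1 c2 r
    HR h0
  exact tendsto_const_div_atTop_nhds_zero_nat (E / 2) |>.comp (tendsto_add_atTop_nat 1) |>.congr
    (fun n => by simp)

end Pool.Agent.S09895.PartD

open Pool Pool.MP_436870_mp

namespace Pool.Agent.S09895

/-- For every E>0 there is ε>0 such that no collision-free, bounded, all-time solution of the planar unit-mass Newtonian three-body problem with zero angular momentum and energy −E keeps the potential U strictly between 2(E−ε) and 2(E+ε) forever. -/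
theorem result :
  ∀ E : ℝ, 0 < E → ∃ ε : ℝ, 0 < ε ∧
    ∀ x y vx vy : Fin 3 → ℝ → ℝ,
      (∀ t : ℝ, ∀ i j : Fin 3, i ≠ j → (x i t - x j t) ^ 2 + (y i t - y j t) ^ 2 ≠ 0) →
      (∀ i : Fin 3, ∀ t : ℝ,
        HasDerivAt (x i) (vx i t) t ∧ HasDerivAt (y i) (vy i t) t ∧
        HasDerivAt (vx i)
          (∑ j ∈ Finset.univ.filter (fun j => j ≠ i),
            (x j t - x i t) / (Real.sqrt ((x j t - x i t) ^ 2 + (y j t - y i t) ^ 2)) ^ 3) t ∧
        HasDerivAt (vy i)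
          (∑ j ∈ Finset.univ.filter (fun j => j ≠ i),
            (y j t - y i t) / (Real.sqrt ((x j t - x i t) ^ 2 + (y j t - y i t) ^ 2)) ^ 3) t) →
      (∃ R : ℝ, ∀ i : Fin 3, ∀ t : ℝ, |x i t| ≤ R ∧ |y i t| ≤ R) →
      (∀ t : ℝ, ∑ i, (x i t * vy i t - y i t * vx i t) = 0) →
      (∀ t : ℝ, (1 / 2 : ℝ) * ∑ i, (vx i t ^ 2 + vy i t ^ 2)
          - ∑ i, ∑ j ∈ Finset.univ.filter (fun j => i < j),
              1 / Real.sqrt ((x i t - x j t) ^ 2 + (y i t - y j t) ^ 2) = -E) →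
      (∀ t : ℝ,
        2 * (E - ε) < ∑ i, ∑ j ∈ Finset.univ.filter (fun j => i < j),
              1 / Real.sqrt ((x i t - x j t) ^ 2 + (y i t - y j t) ^ 2) ∧
        ∑ i, ∑ j ∈ Finset.univ.filter (fun j => i < j),
              1 / Real.sqrt ((x i t - x j t) ^ 2 + (y i t - y j t) ^ 2) < 2 * (E + ε)) →
      False :=
  Pool.Agent.S09895.PartD.main

end Pool.Agent.S09895
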