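import Pool.Statements.S09898
import Pool.Agent.Helper209.FLT9
-- import your own Pool.Agent.* helpers here

set_option autoImplicit false
open scoped FourierTransform SchwartzMap
open Pool Pool.MP_43cb56_mp

namespace Pool.Agent.S09898

/-- The negation of the preceding statement: For every s in (1/2,3/2), with γ=1-1/(2s): any constant bounding the γ-power of the lowest eigenvalue of (-Δ)^s-W by c∫W, for all integrable W≥0, also bounds the sum of γ-powers of all negative min-max eigenvalues. -/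
theorem result :
    ¬ (∀ s : ℝ, 1 / 2 < s → s < 3 / 2 →
    ∀ c : ℝ,
      (∀ W : ℝ → ℝ, (∀ x, 0 ≤ W x) → MeasureTheory.Integrable W →
        (max 0 (-(sInf {t : ℝ | ∃ V : Submodule ℂ 𝓢(ℝ, ℂ), Module.finrank ℂ V = 1 ∧
            t = sSup {u : ℝ | ∃ f ∈ V, (∫ x, ‖f x‖ ^ 2) = 1 ∧
              u = (∫ ξ : ℝ, (2 * Real.pi * |ξ|) ^ (2 * s) * ‖𝓕 (fun x : ℝ => f x) ξ‖ ^ 2)
                    - ∫ x, W x * ‖f x‖ ^ 2}}))) ^ (1 - 1 / (2 * s))
          ≤ c * ∫ x, W x) →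
      ∀ W : ℝ → ℝ, (∀ x, 0 ≤ W x) → MeasureTheory.Integrable W →
      ∀ N : ℕ,
        ∑ k ∈ Finset.range N,
          (max 0 (-(sInf {t : ℝ | ∃ V : Submodule ℂ 𝓢(ℝ, ℂ), Module.finrank ℂ V = k + 1 ∧
            t = sSup {u : ℝ | ∃ f ∈ V, (∫ x, ‖f x‖ ^ 2) = 1 ∧
              u = (∫ ξ : ℝ, (2 * Real.pi * |ξ|) ^ (2 * s) * ‖𝓕 (fun x : ℝ => f x) ξ‖ ^ 2)
                    - ∫ x, W x * ‖f x‖ ^ 2}}))) ^ (1 - 1 / (2 * s))
          ≤ c * ∫ x, W x) := by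
  intro h
  have h1 := h (5 / 4) (by norm_num) (by norm_num) (Pool.Agent.Helper209.FLT.c1 (5 / 4))
    (fun W hW0 hWi => Pool.Agent.Helper209.FLT.hyp_holds (5 / 4) (by norm_num) W hW0 hWi 1)
  obtain ⟨W, hW0, hWi, hlt⟩ := Pool.Agent.Helper209.FLT.strict (5 / 4) (by norm_num)
  have h2 := h1 W hW0 hWi 2
  exact absurd h2 (not_le.mpr hlt)

end Pool.Agent.S09898
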