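import Pool.Statements.S09902
import Pool.Agent.Helper73.Cover

set_option autoImplicit false
open Pool Pool.MP_64ae42_mp
open Pool.Agent.Helper73

namespace Pool.Agent.S09902

/-- The negation of the preceding statement: Lift a Jacobi matrix (positive symmetric edge weights, potential b) on a finite connected graph to its universal cover tree; if the lifted operator on l2 of the tree has connected spectrum, then b is constant. -/
theorem result :
    ¬ (∀ (V D : Type) [Fintype V] [Fintype D] [DecidableEq D] (src : D → V) (rev : D → D),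
    (∀ d, rev (rev d) = d) → (∀ d, rev d ≠ d) →
    (SimpleGraph.fromRel (fun u v : V => ∃ d, src d = u ∧ src (rev d) = v)).Connected →
    ∀ (a : D → ℝ) (b : V → ℝ), (∀ d, 0 < a d) → (∀ d, a (rev d) = a d) →
    ∀ (v0 : V) (S : Set (List D)),
      (∀ l : List D, l ∈ S ↔ ((∀ d ∈ l.head?, src d = v0) ∧
         ∀ (i : ℕ) (d e : D), l[i]? = some d → l[i+1]? = some e →
           (src e = src (rev d) ∧ e ≠ rev d))) →
    ∀ H : lp (fun _ : S => ℂ) 2 →L[ℂ] lp (fun _ : S => ℂ) 2,
      (∀ (f : lp (fun _ : S => ℂ) 2) (x : S),
        H f x = (b ((x.1.getLast?.map (fun d => src (rev d))).getD v0) : ℂ) * f x +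
          ∑' y : S, (∑ d : D, if (y.1 = x.1 ++ [d] ∨ x.1 = y.1 ++ [d]) then (a d : ℂ) else 0) * f y) →
      IsPreconnected (spectrum ℂ H) → ∀ u v : V, b u = b v) := by
  intro hall
  obtain ⟨H, hH⟩ := exists_IsH eS (1 / 4)
  have hadj : (SimpleGraph.fromRel (fun u v : ℤˣ => ∃ d : DD, srcD d = u ∧
      srcD (revD d) = v)).Adj 1 (-1) := by
    rw [SimpleGraph.fromRel_adj]
    refine ⟨by decide, Or.inl ⟨(1, (1, true)), rfl, ?_⟩⟩
    simp [srcD, revD, chi_gen]
  have hconn : (SimpleGraph.fromRel (fun u v : ℤˣ => ∃ d : DD, srcD d = u ∧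
      srcD (revD d) = v)).Connected := by
    refine ⟨fun u v => ?_⟩
    rcases Int.units_eq_one_or u with rfl | rfl <;> rcases Int.units_eq_one_or v with rfl | rfl
    · exact SimpleGraph.Reachable.refl _
    · exact hadj.reachable
    · exact hadj.reachable.symm
    · exact SimpleGraph.Reachable.refl _
  have h := hall ℤˣ DD srcD revD revD_revD revD_ne hconn (fun _ => 1)
    (fun t => 1 / 4 * (((t : ℤˣ) : ℤ) : ℝ)) (fun _ => one_pos) (fun _ => rfl) 1 SS
    (fun l => Iff.rfl) H (by
      intro f x
      rw [hH f x, add_comm]
      congr 1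
      · rw [endpoint x]
        unfold pot
        rw [one_mul]
      · have h1 : ∀ y : SS, (∑ d : DD, if (y.1 = x.1 ++ [d] ∨ x.1 = y.1 ++ [d]) then
            (((1 : ℝ) : ℂ)) else 0) * f y = ∑ z : L, if nb eS z x = y then f y else 0 := by
          intro y
          have := coef x y
          simp only [Complex.ofReal_one]
          rw [this, Finset.sum_mul]
          refine Finset.sum_congr rfl fun z _ => ?_
          split_ifs <;> simp
        simp only [h1]
        rw [Summable.tsum_finsetSum]
        · refine Finset.sum_congr rfl fun z _ => ?_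
          rw [tsum_eq_single (nb eS z x)]
          · simp
          · intro y hy
            rw [if_neg (Ne.symm hy)]
        · intro z _
          refine summable_of_ne_finset_zero (s := {nb eS z x}) fun y hy => ?_
          rw [if_neg]
          intro hh
          exact hy (by simp [hh]))
    (preconnected hH (by norm_num) le_rfl)
  have h1 := h 1 (-1)
  norm_num at h1

end Pool.Agent.S09902
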