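import Pool.Statements.S09915
import Pool.Agent.Helper20.SMMain

set_option autoImplicit false
open Pool Pool.MP_97ca50_mp

namespace Pool.Agent.S09915

/-- For every ε>0 there is zc>0 such that for all N and 0≤z<zc, the Pauli energy Σ‖σ·(p_i+A)ψ‖² − zΣ⟨∣x_i∣⁻¹⟩ + ε∫∣curl A∣², without e–e repulsion, is bounded below over smooth compactly supported antisymmetric normalized ψ and smooth compactly supported A. -/
theorem result :
    ∀ ε : ℝ, 0 < ε → ∃ zc : ℝ, 0 < zc ∧ ∀ N : ℕ, ∀ z : ℝ, 0 ≤ z → z < zc →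
      ∃ C : ℝ, ∀ (ψ : (Fin N → EuclideanSpace ℝ (Fin 3)) → (Fin N → Fin 2) → ℂ)
        (A : EuclideanSpace ℝ (Fin 3) → EuclideanSpace ℝ (Fin 3)),
        (∀ s, ContDiff ℝ ((⊤ : ℕ∞) : WithTop ℕ∞) (fun x => ψ x s)) →
        (∀ s, HasCompactSupport (fun x => ψ x s)) →
        (∀ (σ : Equiv.Perm (Fin N)) (x : Fin N → EuclideanSpace ℝ (Fin 3)) (s : Fin N → Fin 2),
          ψ (x ∘ σ) (s ∘ σ) = ((Equiv.Perm.sign σ : ℤ) : ℂ) * ψ x s) →
        (∫ x, ∑ s, ‖ψ x s‖ ^ 2) = 1 →
        ContDiff ℝ ((⊤ : ℕ∞) : WithTop ℕ∞) A →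
        HasCompactSupport A →
        C ≤ (∑ i : Fin N, ∫ x, ∑ s : Fin N → Fin 2,
              ‖∑ k : Fin 3, ∑ t : Fin 2,
                ((![!![0, 1; 1, 0], !![0, -Complex.I; Complex.I, 0], !![1, 0; 0, -1]] :
                    Fin 3 → Matrix (Fin 2) (Fin 2) ℂ) k (s i) t) *
                  ((-Complex.I) * fderiv ℝ (fun y => ψ y (Function.update s i t)) x
                      (Pi.single i (EuclideanSpace.single k (1 : ℝ)) :
                        Fin N → EuclideanSpace ℝ (Fin 3))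
                    + ((A (x i) k : ℝ) : ℂ) * ψ x (Function.update s i t))‖ ^ 2)
            - z * (∑ i : Fin N, ∫ x, ∑ s : Fin N → Fin 2, ‖ψ x s‖ ^ 2 / ‖x i‖)
            + ε * ∫ y, (1 / 2 : ℝ) * ∑ j : Fin 3, ∑ k : Fin 3,
                ((fderiv ℝ A y (EuclideanSpace.single j (1 : ℝ))) k
                  - (fderiv ℝ A y (EuclideanSpace.single k (1 : ℝ))) j) ^ 2 := by
  intro ε hε
  have hc2 := Pool.Agent.Helper20.SM.c2_pos
  refine ⟨ε * Pool.Agent.Helper20.SM.c2 / 300, by positivity, ?_⟩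
  intro N z hz hzc
  rcases N with _ | n
  · refine ⟨0, ?_⟩
    intro ψ A _ _ _ _ _ _
    have h0 : 0 ≤ ∫ y, (1 / 2 : ℝ) * ∑ j : Fin 3, ∑ k : Fin 3,
                ((fderiv ℝ A y (EuclideanSpace.single j (1 : ℝ))) k
                  - (fderiv ℝ A y (EuclideanSpace.single k (1 : ℝ))) j) ^ 2 :=
      MeasureTheory.integral_nonneg (fun y => by positivity)
    simp only [Finset.univ_eq_empty, Finset.sum_empty, mul_zero, sub_zero, zero_add]
    positivity
  · refine ⟨-(((n : ℝ) + 1) * z ^ 2), ?_⟩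
    intro ψ A hψ1 hψ2 hanti hnorm hA hAc
    have h : Pool.Agent.Helper20.SM.WF ψ := ⟨hψ1, hψ2⟩
    set γ : ℝ := (ε * Pool.Agent.Helper20.SM.c2 / 300) ^ 2 with hγ
    have hγ0 : 0 < γ := by positivity
    have hsq : Real.sqrt γ = ε * Pool.Agent.Helper20.SM.c2 / 300 := by
      rw [hγ]
      exact Real.sqrt_sq (by positivity)
    have hzγ : z ^ 2 ≤ γ := by
      rw [hγ]
      gcongr
    have hmain := Pool.Agent.Helper20.SM.nbody h hanti hnorm hA hAc z γ hz hγ0 hzγ
    have hnorm' : ∫ x, Pool.Agent.Helper20.SM.dn ψ x = 1 := hnorm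
    have hB : ∫ y, (1 / 2 : ℝ) * ∑ j : Fin 3, ∑ k : Fin 3,
                ((fderiv ℝ A y (EuclideanSpace.single j (1 : ℝ))) k
                  - (fderiv ℝ A y (EuclideanSpace.single k (1 : ℝ))) j) ^ 2 =
        ∫ x, Pool.Agent.Helper20.SM.Bn (Pool.Agent.Helper20.SM.ap A) x ^ 2 := by
      rw [Pool.Agent.Helper20.SM.tE_int]
      apply MeasureTheory.integral_congr_ae
      filter_upwards with x
      rw [Pool.Agent.Helper20.SM.Bn_eq hA]
    have hcoul : ∀ i : Fin (n + 1), ∫ x : Fin (n + 1) → EuclideanSpace ℝ (Fin 3),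
        ∑ s : Fin (n + 1) → Fin 2, ‖ψ x s‖ ^ 2 / ‖x i‖ =
        ∫ x : Fin (n + 1) → EuclideanSpace ℝ (Fin 3), Pool.Agent.Helper20.SM.dn ψ x / ‖x i‖ := by
      intro i
      apply MeasureTheory.integral_congr_ae
      filter_upwards with x
      unfold Pool.Agent.Helper20.SM.dn
      rw [Finset.sum_div]
    rw [hnorm', hsq] at hmain
    rw [hB]
    simp only [hcoul]
    rw [Finset.sum_add_distrib, Finset.sum_sub_distrib, ← Finset.mul_sum] at hmain
    simp only [Finset.sum_const, Finset.card_univ, Fintype.card_fin, nsmul_eq_mul, mul_one] at hmain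
    have hR : 2 * (150 / Pool.Agent.Helper20.SM.c2 * (ε * Pool.Agent.Helper20.SM.c2 / 300) *
        ∫ x, Pool.Agent.Helper20.SM.Bn (Pool.Agent.Helper20.SM.ap A) x ^ 2) =
        ε * ∫ x, Pool.Agent.Helper20.SM.Bn (Pool.Agent.Helper20.SM.ap A) x ^ 2 := by
      field_simp
      norm_num
    rw [hR] at hmain
    push_cast at hmain
    have hkd : ∀ i : Fin (n + 1), ∫ x, Pool.Agent.Helper20.SM.kd ψ A i x = ∫ x, ∑ s : Fin (n + 1) → Fin 2,
              ‖∑ k : Fin 3, ∑ t : Fin 2,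
                ((![!![0, 1; 1, 0], !![0, -Complex.I; Complex.I, 0], !![1, 0; 0, -1]] :
                    Fin 3 → Matrix (Fin 2) (Fin 2) ℂ) k (s i) t) *
                  ((-Complex.I) * fderiv ℝ (fun y => ψ y (Function.update s i t)) x
                      (Pi.single i (EuclideanSpace.single k (1 : ℝ)) :
                        Fin (n + 1) → EuclideanSpace ℝ (Fin 3))
                    + ((A (x i) k : ℝ) : ℂ) * ψ x (Function.update s i t))‖ ^ 2 := fun i => rfl
    simp only [hkd] at hmain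
    linarith

end Pool.Agent.S09915
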