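import Pool.Statements.S09924
import Pool.Agent.Helper67.Dil.Final

set_option autoImplicit false
open Pool Pool.MP_cba161_mp

namespace Pool.Agent.S09924

/-- The negation of the preceding statement: For any molecule with positive nuclear charges summing to at least the electron number N, the fermionic electronic ground-state energy (nuclear repulsion excluded) with nuclei at l·R is non-decreasing in the dilation factor l > 0. -/
theorem result :
    ¬ (∀ (K N : ℕ) (z : Fin K → ℝ) (R : Fin K → EuclideanSpace ℝ (Fin 3)),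
    (∀ j, 0 < z j) → Function.Injective R → (N : ℝ) ≤ ∑ j, z j →
    ∀ e : ℝ → ℝ,
      (∀ l : ℝ, e l = sInf {E : ℝ | ∃ ψ : (Fin N → EuclideanSpace ℝ (Fin 3)) → (Fin N → Fin 2) → ℂ,
          (∀ σ : Fin N → Fin 2, ContDiff ℝ (⊤ : ℕ∞) (fun y => ψ y σ)) ∧
          (∀ σ : Fin N → Fin 2, HasCompactSupport (fun y => ψ y σ)) ∧
          (∀ π : Equiv.Perm (Fin N), ∀ x σ,
              ψ (fun i => x (π i)) (fun i => σ (π i)) = ((Equiv.Perm.sign π : ℤ) : ℂ) * ψ x σ) ∧
          (∑ σ : Fin N → Fin 2, ∫ x, ‖ψ x σ‖ ^ 2) = 1 ∧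
          E = ∑ σ : Fin N → Fin 2, ∫ x,
              ((∑ i, ∑ k : Fin 3,
                  ‖fderiv ℝ (fun y => ψ y σ) x
                      (Pi.single i (EuclideanSpace.single k (1 : ℝ)))‖ ^ 2)
                + (∑ i, ∑ i' ∈ Finset.Ioi i, 1 / dist (x i) (x i')
                    - ∑ i, ∑ j, z j / dist (x i) (l • R j)) * ‖ψ x σ‖ ^ 2)}) →
      MonotoneOn e (Set.Ioi 0)) := by
  intro H
  obtain ⟨K, N, z, R, hz, hR, hN, lam, lam', h0, hlt, hmain⟩ :=
    Pool.Agent.Helper67.Dil.main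
  have h1 := H K N z R hz hR hN (fun l => sInf (Pool.Agent.Helper67.Dil.Eset K N z R l))
    (fun l => rfl)
  have h2 := h1 (Set.mem_Ioi.mpr h0) (Set.mem_Ioi.mpr (h0.trans hlt)) hlt.le
  exact absurd h2 (not_le.mpr hmain)

end Pool.Agent.S09924
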