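import Pool.Statements.S09948
import Pool.Agent.Erdos456.Final2
import Pool.Agent.Erdos456.SecondMoment
import Pool.Agent.Erdos456.PrimesOneMod

set_option autoImplicit false
open Filter Topology
open Pool Pool.MP_01fe58_nt

namespace Pool.Agent.S09948

/-- The negation of the preceding statement: There is a set of naturals of density 1 along which (least prime that is 1 mod n) divided by (least positive m with n dividing phi(m)) tends to infinity. -/
theorem result :
    ¬ (∃ S : Set ℕ,
      Tendsto (fun N : ℕ => ((S ∩ Set.Iio N).ncard : ℝ) / (N : ℝ)) atTop (𝓝 1) ∧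
      Tendsto
        (fun n : ℕ =>
          ((sInf {p : ℕ | p.Prime ∧ p ≡ 1 [MOD n]} : ℕ) : ℝ) /
            ((sInf {m : ℕ | 0 < m ∧ n ∣ Nat.totient m} : ℕ) : ℝ))
        (atTop ⊓ 𝓟 S) atTop) := by
  exact Pool.Agent.Erdos456.final_core (Pool.Agent.Erdos456.many_conv
    (Pool.Agent.Erdos456.SM.many_small_p_of Pool.Agent.Erdos456.primes_one_mod))

end Pool.Agent.S09948
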