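import Pool.Statements.S10019
import Pool.Agent.Helper184.Chapman

set_option autoImplicit false
open Pool Pool.MP_0c110c_nt

namespace Pool.Agent.S10019

/-- For every prime p ≥ 5 with p ≡ 3 mod 4, the integer matrix whose (j,k) entry is the Legendre symbol of j−k mod p, for j,k ranging over (p−3)/2 consecutive indices, has determinant 1. -/
theorem result :
    ∀ (p : ℕ) [Fact (Nat.Prime p)], 5 ≤ p → p % 4 = 3 →
      Matrix.det (Matrix.of (fun j k : Fin ((p - 3) / 2) =>
        legendreSym p (((j : ℕ) : ℤ) - ((k : ℕ) : ℤ)))) = 1 := by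
  intro p hp h5 h3
  exact Pool.Agent.Helper184.Chapman.chapman p h5 h3

end Pool.Agent.S10019
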