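import Pool.Statements.S10038

set_option autoImplicit false
open Pool Pool.MP_0e0d5f_nt

namespace Pool.Agent.S10038

/-- the `k`-th prime -/
noncomputable def pr (k : ℕ) : ℕ := Nat.nth Nat.Prime k

theorem pr_prime (k : ℕ) : (pr k).Prime := Nat.nth_mem_of_infinite Nat.infinite_setOf_prime k

theorem pr_mono : StrictMono pr := Nat.nth_strictMono Nat.infinite_setOf_prime

theorem exists_small (ε : ℝ) (hε : 0 < ε) (K : ℕ) : ∃ k, K ≤ k ∧ (pr k : ℝ) < Real.exp (ε * k) := by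
  by_contra hcon
  push Not at hcon
  have hs : Summable (fun k : ℕ => Real.exp (-ε) ^ k) :=
    summable_geometric_of_lt_one (Real.exp_pos _).le (by rw [Real.exp_lt_one_iff]; linarith)
  have h1 : Summable (fun k : ℕ => (1 / (pr k : ℝ))) := by
    rw [← summable_nat_add_iff K]
    refine Summable.of_nonneg_of_le (fun k => by positivity) (fun k => ?_)
      ((summable_nat_add_iff K).2 hs)
    have h := hcon (k + K) (by omega)
    rw [one_div]
    calc ((pr (k + K) : ℝ))⁻¹ ≤ (Real.exp (ε * ((k + K : ℕ) : ℝ)))⁻¹ := by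
          apply inv_anti₀ (Real.exp_pos _) h
      _ = Real.exp (-ε) ^ (k + K) := by
          rw [← Real.exp_neg, ← Real.exp_nat_mul]; congr 1; ring
  apply Nat.Primes.not_summable_one_div
  have hinj : Function.Injective (fun p : Nat.Primes => Nat.count Nat.Prime (p : ℕ)) := by
    intro p q h
    have := congrArg (Nat.nth Nat.Prime) h
    simp only at this
    rw [Nat.nth_count p.2, Nat.nth_count q.2] at this
    exact Subtype.ext this
  have h2 := h1.comp_injective hinj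
  refine h2.congr ?_
  intro p
  simp only [Function.comp_apply, pr]
  rw [Nat.nth_count p.2]

/-- the transversal family -/
noncomputable def F (t : ℕ) (f : Fin t → Bool) : ℕ := ∏ i : Fin t, pr (2 * i + (f i).toNat)

theorem dvd_F {t : ℕ} (f : Fin t → Bool) (i : Fin t) (b : Bool) :
    pr (2 * i + b.toNat) ∣ F t f ↔ f i = b := by
  unfold F
  rw [Prime.dvd_finset_prod_iff (pr_prime _).prime]
  constructor
  · rintro ⟨j, -, hj⟩
    have h := (Nat.prime_dvd_prime_iff_eq (pr_prime _) (pr_prime _)).1 hj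
    have h2 := pr_mono.injective h
    have hb1 : b.toNat ≤ 1 := Bool.toNat_le b
    have hb2 : (f j).toNat ≤ 1 := Bool.toNat_le _
    have hij : (i : ℕ) = j := by omega
    have hij' : i = j := Fin.ext hij
    subst hij'
    have : b.toNat = (f i).toNat := by omega
    cases b <;> cases hfi : f i <;> simp_all
  · intro h
    exact ⟨i, Finset.mem_univ _, by rw [h]⟩

theorem F_inj (t : ℕ) : Function.Injective (F t) := by
  intro f g h
  funext i
  have h1 := (dvd_F f i (f i)).2 rfl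
  rw [h] at h1
  exact ((dvd_F g i (f i)).1 h1).symm

theorem F_pos (t : ℕ) (f : Fin t → Bool) : 1 ≤ F t f :=
  Nat.one_le_iff_ne_zero.2 (Finset.prod_ne_zero_iff.2 fun i _ => (pr_prime _).ne_zero)

theorem F_le (t k : ℕ) (h : 2 * t ≤ k) (f : Fin t → Bool) : F t f ≤ pr k ^ t := by
  unfold F
  calc ∏ i : Fin t, pr (2 * i + (f i).toNat) ≤ ∏ _i : Fin t, pr k := by
        apply Finset.prod_le_prod'
        intro i _
        apply pr_mono.monotone
        have : (f i).toNat ≤ 1 := Bool.toNat_le _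
        have := i.2
        omega
    _ = pr k ^ t := by simp

theorem no_triple (t : ℕ) (f g h : Fin t → Bool) (hfg : f ≠ g)
    (e1 : Nat.gcd (F t f) (F t g) = Nat.gcd (F t g) (F t h))
    (e2 : Nat.gcd (F t f) (F t g) = Nat.gcd (F t f) (F t h)) (hgh : g ≠ h) (hfh : f ≠ h) : False := by
  obtain ⟨i, hi⟩ : ∃ i, ¬ (f i = g i ∧ g i = h i) := by
    by_contra hc
    push Not at hc
    exact hfg (funext fun i => (hc i).1)
  by_cases h1 : f i = g i
  · have h2 : ¬ h i = f i := fun hh => hi ⟨h1, by rw [← h1, hh]⟩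
    have d : pr (2 * i + (f i).toNat) ∣ Nat.gcd (F t f) (F t g) :=
      Nat.dvd_gcd ((dvd_F f i _).2 rfl) ((dvd_F g i _).2 h1.symm)
    rw [e1] at d
    exact h2 ((dvd_F h i _).1 (d.trans (Nat.gcd_dvd_right _ _)))
  · by_cases h3 : g i = h i
    · have d : pr (2 * i + (g i).toNat) ∣ Nat.gcd (F t g) (F t h) :=
        Nat.dvd_gcd ((dvd_F g i _).2 rfl) ((dvd_F h i _).2 h3.symm)
      rw [← e1] at d
      exact h1 ((dvd_F f i _).1 (d.trans (Nat.gcd_dvd_left _ _)))
    · have h4 : f i = h i := by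
        revert h1 h3
        cases f i <;> cases g i <;> cases h i <;> simp
      have d : pr (2 * i + (f i).toNat) ∣ Nat.gcd (F t f) (F t h) :=
        Nat.dvd_gcd ((dvd_F f i _).2 rfl) ((dvd_F h i _).2 h4.symm)
      rw [← e2] at d
      exact h1 ((dvd_F g i _).1 (d.trans (Nat.gcd_dvd_right _ _))).symm

theorem lower (t N : ℕ) (hN : ∀ f : Fin t → Bool, F t f ≤ N) :
    2 ^ t < sInf {n : ℕ | ∀ A : Finset ℕ, A ⊆ Finset.Icc 1 N → A.card = n →
            ∃ a ∈ A, ∃ b ∈ A, ∃ c ∈ A, a ≠ b ∧ b ≠ c ∧ a ≠ c ∧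
              Nat.gcd a b = Nat.gcd b c ∧ Nat.gcd a b = Nat.gcd a c} := by
  set S := {n : ℕ | ∀ A : Finset ℕ, A ⊆ Finset.Icc 1 N → A.card = n →
            ∃ a ∈ A, ∃ b ∈ A, ∃ c ∈ A, a ≠ b ∧ b ≠ c ∧ a ≠ c ∧
              Nat.gcd a b = Nat.gcd b c ∧ Nat.gcd a b = Nat.gcd a c} with hS
  have hne : S.Nonempty := by
    refine ⟨N + 1, fun A hA hc => ?_⟩
    have := Finset.card_le_card hA
    rw [Nat.card_Icc] at this
    omega
  have hmem : sInf S ∈ S := Nat.sInf_mem hne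
  by_contra hcon
  push Not at hcon
  have hcard : (Finset.univ.image (F t)).card = 2 ^ t := by
    rw [Finset.card_image_of_injective _ (F_inj t)]
    simp
  obtain ⟨A, hA, hAc⟩ := Finset.exists_subset_card_eq (hcon.trans hcard.ge)
  obtain ⟨a, ha, b, hb, c, hc, hab, hbc, hac, e1, e2⟩ := hmem A (by
    intro x hx
    obtain ⟨f, -, rfl⟩ := Finset.mem_image.1 (hA hx)
    rw [Finset.mem_Icc]
    exact ⟨F_pos t f, hN f⟩) hAc
  obtain ⟨f, -, rfl⟩ := Finset.mem_image.1 (hA ha)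
  obtain ⟨g, -, rfl⟩ := Finset.mem_image.1 (hA hb)
  obtain ⟨h, -, rfl⟩ := Finset.mem_image.1 (hA hc)
  exact no_triple t f g h (fun e => hab (by rw [e])) e1 e2 (fun e => hbc (by rw [e]))
    (fun e => hac (by rw [e]))

/-- The negation of the preceding statement: There are constants c1, c2 > 0 such that for all large N, the least n with every n-element subset of {1..N} containing three distinct numbers with equal pairwise gcds lies strictly between exp(c1 sqrt(ln N)) and exp(c2 sqrt(ln N)). -/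
theorem result :
    ¬ (∃ c₁ c₂ : ℝ, 0 < c₁ ∧ 0 < c₂ ∧ ∃ N₀ : ℕ, ∀ N : ℕ, N₀ ≤ N →
      Real.exp (c₁ * Real.sqrt (Real.log (N : ℝ))) <
        ((sInf {n : ℕ | ∀ A : Finset ℕ, A ⊆ Finset.Icc 1 N → A.card = n →
            ∃ a ∈ A, ∃ b ∈ A, ∃ c ∈ A, a ≠ b ∧ b ≠ c ∧ a ≠ c ∧
              Nat.gcd a b = Nat.gcd b c ∧ Nat.gcd a b = Nat.gcd a c} : ℕ) : ℝ) ∧
      ((sInf {n : ℕ | ∀ A : Finset ℕ, A ⊆ Finset.Icc 1 N → A.card = n →
            ∃ a ∈ A, ∃ b ∈ A, ∃ c ∈ A, a ≠ b ∧ b ≠ c ∧ a ≠ c ∧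
              Nat.gcd a b = Nat.gcd b c ∧ Nat.gcd a b = Nat.gcd a c} : ℕ) : ℝ) <
        Real.exp (c₂ * Real.sqrt (Real.log (N : ℝ)))) := by
  rintro ⟨c₁, c₂, -, hc₂, N₀, H⟩
  have hl2 : 0 < Real.log 2 := Real.log_pos (by norm_num)
  set ε : ℝ := (Real.log 2 / c₂) ^ 2 / 3 with hε
  have hε0 : 0 < ε := by positivity
  obtain ⟨k, hk, hpk⟩ := exists_small ε hε0 (2 * N₀ + 2)
  set t := k / 2 with ht
  have h2t : 2 * t ≤ k := by omega
  have h3t : k ≤ 3 * t := by omega
  have htN : N₀ + 1 ≤ t := by omega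
  have hpr2 : 2 ≤ pr k := (pr_prime k).two_le
  have hN : N₀ ≤ pr k ^ t := by
    calc N₀ ≤ 2 ^ t := by
          have := Nat.lt_two_pow_self (n := t)
          omega
      _ ≤ pr k ^ t := Nat.pow_le_pow_left hpr2 t
  have hlow := lower t (pr k ^ t) (F_le t k h2t)
  have hup := (H (pr k ^ t) hN).2
  have hbound : c₂ * Real.sqrt (Real.log ((pr k ^ t : ℕ) : ℝ)) ≤ t * Real.log 2 := by
    have hprpos : (0 : ℝ) < pr k := by exact_mod_cast (pr_prime k).pos
    have h1 : Real.log (pr k : ℝ) ≤ ε * k := by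
      rw [Real.log_le_iff_le_exp hprpos]
      exact hpk.le
    have h2 : Real.log ((pr k ^ t : ℕ) : ℝ) ≤ (Real.log 2 / c₂ * t) ^ 2 := by
      push_cast
      rw [Real.log_pow]
      have h3 : (k : ℝ) ≤ 3 * t := by exact_mod_cast h3t
      calc (t : ℝ) * Real.log (pr k : ℝ) ≤ t * (ε * (3 * t)) := by
            apply mul_le_mul_of_nonneg_left _ (Nat.cast_nonneg t)
            exact h1.trans (mul_le_mul_of_nonneg_left h3 hε0.le)
        _ = (Real.log 2 / c₂ * t) ^ 2 := by rw [hε]; ring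
    have h4 : Real.sqrt (Real.log ((pr k ^ t : ℕ) : ℝ)) ≤ Real.log 2 / c₂ * t := by
      rw [← Real.sqrt_sq (by positivity : (0 : ℝ) ≤ Real.log 2 / c₂ * t)]
      exact Real.sqrt_le_sqrt h2
    calc c₂ * Real.sqrt (Real.log ((pr k ^ t : ℕ) : ℝ)) ≤ c₂ * (Real.log 2 / c₂ * t) :=
          mul_le_mul_of_nonneg_left h4 hc₂.le
      _ = t * Real.log 2 := by field_simp
  have h5 : Real.exp (c₂ * Real.sqrt (Real.log ((pr k ^ t : ℕ) : ℝ))) ≤ (2 : ℝ) ^ t := by
    calc Real.exp (c₂ * Real.sqrt (Real.log ((pr k ^ t : ℕ) : ℝ))) ≤ Real.exp (t * Real.log 2) :=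
          Real.exp_le_exp.2 hbound
      _ = (2 : ℝ) ^ t := by rw [Real.exp_nat_mul, Real.exp_log (by norm_num)]
  have h6 : ((2 ^ t : ℕ) : ℝ) < _ := Nat.cast_lt (α := ℝ).2 hlow
  push_cast at h6 h5 hup
  linarith

end Pool.Agent.S10038
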