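import Pool.Statements.S10105
import Pool.Agent.Helper840.SigmaApprox

set_option autoImplicit false
open Filter Topology
open Pool Pool.MP_184037_nt

namespace Pool.Agent.S10105

/-- It is not true that for every F tending to infinity with F(n)/σ(n) → 0 off a density-zero set, every constant C is beaten by #{n : x < n+σ(n) < x+F(x)} / F(x) for infinitely many x. -/
theorem result :
    ¬ ∀ F : ℕ → ℝ, Tendsto F atTop atTop →
      (∀ ε : ℝ, 0 < ε →
        Tendsto (fun N : ℕ =>
          (((Finset.range N).filter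
            (fun n => ε ≤ |F n / ((ArithmeticFunction.sigma 1 n : ℕ) : ℝ)|)).card : ℝ) / (N : ℝ))
          atTop (𝓝 0)) →
      ∀ C : ℝ, ∀ N : ℕ, ∃ x : ℕ, N < x ∧
        C * F x < (Nat.card {n : ℕ //
          (x : ℝ) < (n : ℝ) + ((ArithmeticFunction.sigma 1 n : ℕ) : ℝ) ∧
          (n : ℝ) + ((ArithmeticFunction.sigma 1 n : ℕ) : ℝ) < (x : ℝ) + F x} : ℝ) := by
  intro hall
  obtain ⟨ψ, hψ, hsq, X, hX⟩ :=
    Pool.Agent.Helper840.SlowF.exists_slow (fun n => ArithmeticFunction.sigma 1 n)
      (by simp) Pool.Agent.Helper840.SigmaApprox.approx_sigma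
  have hF := hall (fun x => (x : ℝ) / (ψ x : ℝ)) (Pool.Agent.Helper840.SlowF.tendsto_F ψ hψ hsq) ?_ 4 X
  · obtain ⟨x, hx1, hx2⟩ := hF
    have h1 := (hX x hx1.le).2
    have h2 : (Nat.card {n : ℕ //
          (x : ℝ) < (n : ℝ) + ((ArithmeticFunction.sigma 1 n : ℕ) : ℝ) ∧
          (n : ℝ) + ((ArithmeticFunction.sigma 1 n : ℕ) : ℝ) < (x : ℝ) + (x : ℝ) / (ψ x : ℝ)} : ℝ) =
        (Set.ncard {n : ℕ | (x : ℝ) < (n : ℝ) + ((ArithmeticFunction.sigma 1 n : ℕ) : ℝ) ∧
          (n : ℝ) + ((ArithmeticFunction.sigma 1 n : ℕ) : ℝ) < (x : ℝ) + (x : ℝ) / (ψ x : ℝ)} : ℝ) := rfl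
    rw [h2] at hx2
    exact absurd hx2 (not_lt.2 h1)
  · intro ε hε
    have hψR : Tendsto (fun n : ℕ => (ψ n : ℝ)) atTop atTop :=
      tendsto_natCast_atTop_atTop.comp hψ
    obtain ⟨n0, hn0⟩ := (hψR.eventually_gt_atTop (1 / ε)).exists_forall_of_atTop
    have hsub : ∀ N : ℕ, (Finset.range N).filter
        (fun n : ℕ => ε ≤ |(n : ℝ) / (ψ n : ℝ) / ((ArithmeticFunction.sigma 1 n : ℕ) : ℝ)|) ⊆
        Finset.range n0 := by
      intro N n hn
      rw [Finset.mem_filter] at hn
      rw [Finset.mem_range]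
      by_contra hcon
      have h1 := hn0 n (by omega)
      have h2 := hn.2
      rcases Nat.eq_zero_or_pos n with rfl | hnpos
      · simp at h2
        linarith
      · have hψpos : (0 : ℝ) < ψ n := lt_trans (by positivity) h1
        have hnpos' : (0 : ℝ) < n := by exact_mod_cast hnpos
        have hσ : (n : ℝ) ≤ ((ArithmeticFunction.sigma 1 n : ℕ) : ℝ) := by
          have h3 : n ≤ ArithmeticFunction.sigma 1 n := by
            rw [ArithmeticFunction.sigma_one_apply]
            exact Finset.single_le_sum (f := fun d => d) (fun _ _ => Nat.zero_le _)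
              (Nat.mem_divisors_self n (by omega))
          exact_mod_cast h3
        have hσpos : (0 : ℝ) < ((ArithmeticFunction.sigma 1 n : ℕ) : ℝ) := lt_of_lt_of_le hnpos' hσ
        rw [abs_of_nonneg (by positivity), div_div, le_div_iff₀ (by positivity)] at h2
        rw [div_lt_iff₀ hε] at h1
        have h4 : (n : ℝ) * 1 < ((ArithmeticFunction.sigma 1 n : ℕ) : ℝ) * (ψ n * ε) := by
          calc (n : ℝ) * 1 < n * (ψ n * ε) := mul_lt_mul_of_pos_left h1 hnpos'
            _ ≤ ((ArithmeticFunction.sigma 1 n : ℕ) : ℝ) * (ψ n * ε) :=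
              mul_le_mul_of_nonneg_right hσ (by positivity)
        nlinarith
    apply squeeze_zero (g := fun N : ℕ => (n0 : ℝ) / (N : ℝ))
    · intro N; positivity
    · intro N
      apply div_le_div_of_nonneg_right _ (by positivity)
      have := Finset.card_le_card (hsub N)
      rw [Finset.card_range] at this
      exact_mod_cast this
    · exact tendsto_const_div_atTop_nhds_zero_nat (n0 : ℝ)

end Pool.Agent.S10105
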