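import Pool.Statements.S10107

set_option autoImplicit false
open N97cf5353
open Filter
open Pool Pool.MP_18694c_nt

namespace Pool.Agent.S10107.Sieve

open Finset

/-- The elementary symmetric sum of the weights `w` over the subsets of `s` with `j` elements. -/
noncomputable def el (s : Finset ℕ) (w : ℕ → ℝ) (j : ℕ) : ℝ :=
  ∑ e ∈ s.powersetCard j, ∏ i ∈ e, w i

/-- Truncated alternating sum. -/
noncomputable def alt (s : Finset ℕ) (w : ℕ → ℝ) (r : ℕ) : ℝ :=
  ∑ j ∈ range (r + 1), (-1 : ℝ) ^ j * el s w j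

lemma el_zero (s : Finset ℕ) (w : ℕ → ℝ) : el s w 0 = 1 := by
  simp [el]

lemma el_succ_insert (s : Finset ℕ) (w : ℕ → ℝ) (a : ℕ) (ha : a ∉ s) (j : ℕ) :
    el (insert a s) w (j + 1) = el s w (j + 1) + w a * el s w j := by
  unfold el
  rw [Finset.powersetCard_succ_insert ha, Finset.sum_union]
  · congr 1
    rw [Finset.sum_image, Finset.mul_sum]
    · apply Finset.sum_congr rfl
      intro e he
      have hae : a ∉ e := fun h => ha ((Finset.mem_powersetCard.mp he).1 h)
      rw [Finset.prod_insert hae]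
    · intro e he f hf hef
      have hae : a ∉ e := fun h => ha ((Finset.mem_powersetCard.mp he).1 h)
      have haf : a ∉ f := fun h => ha ((Finset.mem_powersetCard.mp hf).1 h)
      have := congrArg (fun z => Finset.erase z a) hef
      simpa [Finset.erase_insert hae, Finset.erase_insert haf] using this
  · rw [Finset.disjoint_left]
    intro e he hf
    obtain ⟨f, _, rfl⟩ := Finset.mem_image.mp hf
    exact ha ((Finset.mem_powersetCard.mp he).1 (Finset.mem_insert_self a f))

lemma alt_zero (s : Finset ℕ) (w : ℕ → ℝ) : alt s w 0 = 1 := by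
  simp [alt, el_zero]

lemma alt_succ (s : Finset ℕ) (w : ℕ → ℝ) (r : ℕ) :
    alt s w (r + 1) = alt s w r + (-1 : ℝ) ^ (r + 1) * el s w (r + 1) := by
  unfold alt
  rw [Finset.sum_range_succ]

lemma alt_succ_insert (s : Finset ℕ) (w : ℕ → ℝ) (a : ℕ) (ha : a ∉ s) (r : ℕ) :
    alt (insert a s) w (r + 1) = alt s w (r + 1) - w a * alt s w r := by
  induction r with
  | zero =>
    rw [alt_succ, alt_succ, alt_zero, alt_zero, el_succ_insert s w a ha, el_zero]
    ring
  | succ r ih =>
    rw [alt_succ, ih, alt_succ s w (r + 1), el_succ_insert s w a ha (r + 1), alt_succ s w r]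
    ring

/-- Bonferroni inequalities for real weights in `[0,1]`. -/
lemma bonferroni (w : ℕ → ℝ) (s : Finset ℕ) (hw : ∀ i ∈ s, 0 ≤ w i ∧ w i ≤ 1) (r : ℕ) :
    0 ≤ (-1 : ℝ) ^ r * (alt s w r - ∏ i ∈ s, (1 - w i)) := by
  induction s using Finset.induction_on generalizing r with
  | empty =>
    have : ∀ r, alt ∅ w r = 1 := by
      intro r
      induction r with
      | zero => exact alt_zero _ _
      | succ r ih =>
        rw [alt_succ, ih]
        have h0 : el ∅ w (r + 1) = 0 := by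
          unfold el
          rw [Finset.powersetCard_eq_empty.mpr (by simp)]
          simp
        rw [h0]; ring
    simp [this]
  | insert a s ha ih =>
    have hs : ∀ i ∈ s, 0 ≤ w i ∧ w i ≤ 1 := fun i hi => hw i (Finset.mem_insert_of_mem hi)
    have hwa := hw a (Finset.mem_insert_self a s)
    have hP0 : 0 ≤ ∏ i ∈ s, (1 - w i) :=
      Finset.prod_nonneg (fun i hi => by linarith [(hs i hi).2])
    rw [Finset.prod_insert ha]
    cases r with
    | zero =>
      rw [alt_zero]
      have hP1 : ∏ i ∈ s, (1 - w i) ≤ 1 :=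
        Finset.prod_le_one (fun i hi => by linarith [(hs i hi).2])
          (fun i hi => by linarith [(hs i hi).1])
      have : (1 - w a) * ∏ i ∈ s, (1 - w i) ≤ 1 := by
        nlinarith [hwa.1, hwa.2]
      simpa using this
    | succ r =>
      rw [alt_succ_insert s w a ha]
      have h1 := ih hs (r + 1)
      have h2 := ih hs r
      have e1 : (-1 : ℝ) ^ (r + 1) = - (-1 : ℝ) ^ r := by ring
      rw [e1] at h1 ⊢
      nlinarith [mul_nonneg hwa.1 h2]

lemma alt_le_prod_of_odd (w : ℕ → ℝ) (s : Finset ℕ) (hw : ∀ i ∈ s, 0 ≤ w i ∧ w i ≤ 1)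
    (r : ℕ) (hr : Odd r) : alt s w r ≤ ∏ i ∈ s, (1 - w i) := by
  have := bonferroni w s hw r
  rw [hr.neg_one_pow] at this
  linarith

lemma prod_sub_le_alt (w : ℕ → ℝ) (s : Finset ℕ) (hw : ∀ i ∈ s, 0 ≤ w i ∧ w i ≤ 1)
    (r : ℕ) (hr : Odd r) : ∏ i ∈ s, (1 - w i) - el s w (r + 1) ≤ alt s w r := by
  have h := bonferroni w s hw (r + 1)
  have he : Even (r + 1) := hr.add_one
  rw [alt_succ, he.neg_one_pow] at h
  linarith

/-- Rankin bound for one elementary symmetric sum. -/
lemma el_le (w : ℕ → ℝ) (s : Finset ℕ) (hw : ∀ i ∈ s, 0 ≤ w i) (x : ℝ) (hx : 0 < x) (j : ℕ) :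
    el s w j * x ^ j ≤ Real.exp (x * ∑ i ∈ s, w i) := by
  have h1 : ∏ i ∈ s, (1 + x * w i) ≤ Real.exp (x * ∑ i ∈ s, w i) := by
    rw [Finset.mul_sum, Real.exp_sum]
    apply Finset.prod_le_prod
    · intro i hi
      have := mul_nonneg hx.le (hw i hi)
      linarith
    · intro i hi
      linarith [Real.add_one_le_exp (x * w i)]
  refine le_trans ?_ h1
  rw [Finset.prod_one_add]
  have h2 : el s w j * x ^ j = ∑ e ∈ s.powersetCard j, ∏ i ∈ e, (x * w i) := by
    unfold el
    rw [Finset.sum_mul]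
    apply Finset.sum_congr rfl
    intro e he
    rw [Finset.prod_mul_distrib, Finset.prod_const, (Finset.mem_powersetCard.mp he).2]
    ring
  rw [h2]
  apply Finset.sum_le_sum_of_subset_of_nonneg
  · intro e he
    exact Finset.mem_powerset.mpr (Finset.mem_powersetCard.mp he).1
  · intro e he _
    exact Finset.prod_nonneg (fun i hi =>
      mul_nonneg hx.le (hw i (Finset.mem_powerset.mp he hi)))

/-- Rankin bound for the sum of the first elementary symmetric sums. -/
lemma sum_el_le (w : ℕ → ℝ) (s : Finset ℕ) (hw : ∀ i ∈ s, 0 ≤ w i) (y : ℝ) (hy : 0 < y)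
    (hy1 : y ≤ 1) (r : ℕ) :
    (∑ j ∈ range (r + 1), el s w j) * y ^ r ≤ Real.exp (y * ∑ i ∈ s, w i) := by
  have h1 : ∏ i ∈ s, (1 + y * w i) ≤ Real.exp (y * ∑ i ∈ s, w i) := by
    rw [Finset.mul_sum, Real.exp_sum]
    apply Finset.prod_le_prod
    · intro i hi
      have := mul_nonneg hy.le (hw i hi)
      linarith
    · intro i hi
      linarith [Real.add_one_le_exp (y * w i)]
  refine le_trans ?_ h1
  rw [Finset.prod_one_add]
  have h3 : ∑ e ∈ s.powerset, ∏ i ∈ e, (y * w i) =
      ∑ j ∈ range (s.card + 1), ∑ e ∈ s.powersetCard j, ∏ i ∈ e, (y * w i) := by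
    rw [Finset.sum_powerset]
  have h4 : ∀ j, (∑ e ∈ s.powersetCard j, ∏ i ∈ e, (y * w i)) = el s w j * y ^ j := by
    intro j
    unfold el
    rw [Finset.sum_mul]
    apply Finset.sum_congr rfl
    intro e he
    rw [Finset.prod_mul_distrib, Finset.prod_const, (Finset.mem_powersetCard.mp he).2]
    ring
  have hel : ∀ j, 0 ≤ el s w j := by
    intro j
    apply Finset.sum_nonneg
    intro e he
    exact Finset.prod_nonneg (fun i hi => hw i ((Finset.mem_powersetCard.mp he).1 hi))
  have hel0 : ∀ j, s.card < j → el s w j = 0 := by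
    intro j hj
    unfold el
    rw [Finset.powersetCard_eq_empty.mpr hj]
    simp
  rw [h3, Finset.sum_mul]
  simp_rw [h4]
  calc ∑ j ∈ range (r + 1), el s w j * y ^ r
      ≤ ∑ j ∈ range (r + 1), el s w j * y ^ j := by
        apply Finset.sum_le_sum
        intro j hj
        apply mul_le_mul_of_nonneg_left _ (hel j)
        exact pow_le_pow_of_le_one hy.le hy1 (by have := Finset.mem_range.mp hj; omega)
    _ ≤ ∑ j ∈ range (max r s.card + 1), el s w j * y ^ j := by
        apply Finset.sum_le_sum_of_subset_of_nonneg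
        · intro j hj
          have := Finset.mem_range.mp hj
          exact Finset.mem_range.mpr (by have := le_max_left r s.card; omega)
        · intro j _ _
          exact mul_nonneg (hel j) (pow_nonneg hy.le j)
    _ = ∑ j ∈ range (s.card + 1), el s w j * y ^ j := by
        symm
        apply Finset.sum_subset
        · intro j hj
          have := Finset.mem_range.mp hj
          exact Finset.mem_range.mpr (by have := le_max_right r s.card; omega)
        · intro j _ hj
          have : s.card < j := by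
            by_contra hcon
            exact hj (Finset.mem_range.mpr (by omega))
          rw [hel0 j this]; ring

/-- Indicator that the residue of `t` modulo `q` is one of the residues in `R q`. -/
noncomputable def ind (R : ℕ → Finset ℕ) (q t : ℕ) : ℝ := if t % q ∈ R q then 1 else 0

lemma ind_eq_sum (R : ℕ → Finset ℕ) (q t : ℕ) :
    ind R q t = ∑ ρ ∈ R q, if t % q = ρ then (1 : ℝ) else 0 := by
  unfold ind
  rw [Finset.sum_ite_eq]

lemma ind_nonneg (R : ℕ → Finset ℕ) (q t : ℕ) : 0 ≤ ind R q t := by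
  unfold ind; split_ifs <;> norm_num

lemma ind_le_one (R : ℕ → Finset ℕ) (q t : ℕ) : ind R q t ≤ 1 := by
  unfold ind; split_ifs <;> norm_num

/-- Number of `t < T` in one residue class. -/
lemma count_class (T W a : ℕ) (hW : 0 < W) :
    |(∑ t ∈ range T, if t % W = a % W then (1 : ℝ) else 0) - (T : ℝ) / W| ≤ 1 := by
  have h1 : (∑ t ∈ range T, if t % W = a % W then (1 : ℝ) else 0)
      = (Nat.count (fun t => t ≡ a [MOD W]) T : ℝ) := by
    rw [Nat.count_eq_card_filter_range, Finset.card_filter]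
    push_cast
    rfl
  rw [h1, Nat.count_modEq_card T hW a]
  have hWr : (0 : ℝ) < W := by exact_mod_cast hW
  have hdiv : (T : ℝ) = W * (T / W : ℕ) + (T % W : ℕ) := by
    exact_mod_cast (Nat.div_add_mod T W).symm
  have hmod : ((T % W : ℕ) : ℝ) < W := by exact_mod_cast Nat.mod_lt T hW
  have hmod0 : (0 : ℝ) ≤ ((T % W : ℕ) : ℝ) := Nat.cast_nonneg _
  have h2 : (T : ℝ) / W = (T / W : ℕ) + ((T % W : ℕ) : ℝ) / W := by
    rw [eq_comm, ← sub_eq_zero]
    field_simp
    linarith
  have h3 : ((T % W : ℕ) : ℝ) / W < 1 := by rw [div_lt_one hWr]; exact hmod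
  have h4 : 0 ≤ ((T % W : ℕ) : ℝ) / W := div_nonneg hmod0 hWr.le
  rw [h2]
  push_cast
  split_ifs
  · rw [abs_le]; constructor <;> linarith
  · rw [abs_le]; constructor <;> linarith

/-- Number of `t < T` in a residue class modulo `W` hitting `R q` for every `q` in `e`. -/
lemma count_classes (R : ℕ → Finset ℕ) (T : ℕ) (e : Finset ℕ)
    (hR : ∀ q ∈ e, ∀ ρ ∈ R q, ρ < q) (hpr : ∀ q ∈ e, q.Prime) :
    ∀ (W a : ℕ), 0 < W → (∀ q ∈ e, Nat.Coprime W q) →
    |(∑ t ∈ range T, (if t % W = a % W then (1 : ℝ) else 0) * ∏ q ∈ e, ind R q t) -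
      (T : ℝ) / W * ∏ q ∈ e, (((R q).card : ℝ) / q)| ≤ ∏ q ∈ e, ((R q).card : ℝ) := by
  induction e using Finset.induction_on with
  | empty =>
    intro W a hW _
    simpa using count_class T W a hW
  | insert q e hq ih =>
    intro W a hW hcop
    have hqp : q.Prime := hpr q (Finset.mem_insert_self q e)
    have hqW : Nat.Coprime W q := hcop q (Finset.mem_insert_self q e)
    have ihe := ih (fun p hp => hR p (Finset.mem_insert_of_mem hp))
      (fun p hp => hpr p (Finset.mem_insert_of_mem hp))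
    have hcopWq : ∀ p ∈ e, Nat.Coprime (W * q) p := by
      intro p hp
      apply Nat.Coprime.mul_left (hcop p (Finset.mem_insert_of_mem hp))
      rw [Nat.coprime_primes hqp (hpr p (Finset.mem_insert_of_mem hp))]
      intro h; exact hq (h ▸ hp)
    have key : ∀ ρ ∈ R q, ∃ b : ℕ, ∀ t : ℕ,
        (if t % W = a % W then (1 : ℝ) else 0) * (if t % q = ρ then (1 : ℝ) else 0)
          = if t % (W * q) = b % (W * q) then (1 : ℝ) else 0 := by
      intro ρ hρ
      have hρq : ρ < q := hR q (Finset.mem_insert_self q e) ρ hρ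
      obtain ⟨b, hb1, hb2⟩ := Nat.chineseRemainder hqW a ρ
      refine ⟨b, fun t => ?_⟩
      have hiff : (t % W = a % W ∧ t % q = ρ) ↔ t % (W * q) = b % (W * q) := by
        constructor
        · rintro ⟨h1, h2⟩
          have h1' : t ≡ b [MOD W] := Nat.ModEq.trans h1 hb1.symm
          have h2' : t ≡ b [MOD q] := by
            refine Nat.ModEq.trans ?_ hb2.symm
            unfold Nat.ModEq
            rw [h2, Nat.mod_eq_of_lt hρq]
          exact (Nat.modEq_and_modEq_iff_modEq_mul hqW).mp ⟨h1', h2'⟩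
        · intro h
          have h' := (Nat.modEq_and_modEq_iff_modEq_mul hqW).mpr h
          refine ⟨Nat.ModEq.trans h'.1 hb1, ?_⟩
          have := Nat.ModEq.trans h'.2 hb2
          unfold Nat.ModEq at this
          rw [this, Nat.mod_eq_of_lt hρq]
      by_cases h1 : t % W = a % W
      · by_cases h2 : t % q = ρ
        · rw [if_pos h1, if_pos h2, if_pos (hiff.mp ⟨h1, h2⟩)]; ring
        · rw [if_neg h2, if_neg (fun h => h2 (hiff.mpr h).2)]; ring
      · rw [if_neg h1, if_neg (fun h => h1 (hiff.mpr h).1)]; ring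
    choose! b hb using key
    have hsum : (∑ t ∈ range T, (if t % W = a % W then (1 : ℝ) else 0) *
        ∏ p ∈ insert q e, ind R p t) = ∑ ρ ∈ R q, ∑ t ∈ range T,
          (if t % (W * q) = b ρ % (W * q) then (1 : ℝ) else 0) * ∏ p ∈ e, ind R p t := by
      rw [Finset.sum_comm]
      apply Finset.sum_congr rfl
      intro t _
      rw [Finset.prod_insert hq, ind_eq_sum R q t, ← mul_assoc, Finset.mul_sum, Finset.sum_mul]
      apply Finset.sum_congr rfl
      intro ρ hρ
      rw [hb ρ hρ t]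
    rw [hsum, Finset.prod_insert hq, Finset.prod_insert hq]
    have hqr : (0 : ℝ) < q := by exact_mod_cast hqp.pos
    have hWr : (0 : ℝ) < W := by exact_mod_cast hW
    have hmain : (T : ℝ) / W * (((R q).card : ℝ) / q * ∏ p ∈ e, (((R p).card : ℝ) / p)) =
        ∑ ρ ∈ R q, (T : ℝ) / ((W * q : ℕ) : ℝ) * ∏ p ∈ e, (((R p).card : ℝ) / p) := by
      rw [Finset.sum_const, nsmul_eq_mul]
      push_cast
      field_simp
    rw [hmain, ← Finset.sum_sub_distrib]
    calc |∑ ρ ∈ R q, ((∑ t ∈ range T, (if t % (W * q) = b ρ % (W * q) then (1 : ℝ) else 0) *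
            ∏ p ∈ e, ind R p t) - (T : ℝ) / ((W * q : ℕ) : ℝ) * ∏ p ∈ e, (((R p).card : ℝ) / p))|
        ≤ ∑ ρ ∈ R q, |(∑ t ∈ range T, (if t % (W * q) = b ρ % (W * q) then (1 : ℝ) else 0) *
            ∏ p ∈ e, ind R p t) - (T : ℝ) / ((W * q : ℕ) : ℝ) * ∏ p ∈ e, (((R p).card : ℝ) / p)| :=
          Finset.abs_sum_le_sum_abs _ _
      _ ≤ ∑ ρ ∈ R q, ∏ p ∈ e, ((R p).card : ℝ) := by
          apply Finset.sum_le_sum
          intro ρ _
          exact ihe (W * q) (b ρ) (Nat.mul_pos hW hqp.pos) hcopWq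
      _ = ((R q).card : ℝ) * ∏ p ∈ e, ((R p).card : ℝ) := by
          rw [Finset.sum_const, nsmul_eq_mul]

/-- The sieve inequality: a lower bound for the number of `t < T` avoiding all the classes. -/
theorem sieve (R : ℕ → Finset ℕ) (T : ℕ) (Q : Finset ℕ)
    (hR : ∀ q ∈ Q, ∀ ρ ∈ R q, ρ < q) (hpr : ∀ q ∈ Q, q.Prime)
    (hhalf : ∀ q ∈ Q, 2 * (R q).card ≤ q)
    (r : ℕ) (hr : Odd r) (x y : ℝ) (hx : 0 < x) (hy : 0 < y) (hy1 : y ≤ 1)
    (S G : ℝ) (hS : ∑ q ∈ Q, (((R q).card : ℝ) / q) ≤ S) (hG : ∑ q ∈ Q, ((R q).card : ℝ) ≤ G) :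
    (T : ℝ) * (Real.exp (-(2 * S)) - Real.exp (x * S) / x ^ (r + 1)) -
      Real.exp (y * G) / y ^ r ≤ (((range T).filter (fun t => ∀ q ∈ Q, t % q ∉ R q)).card : ℝ) := by
  set w : ℕ → ℝ := fun q => ((R q).card : ℝ) / q with hw
  have hw0 : ∀ q ∈ Q, 0 ≤ w q := fun q _ => by rw [hw]; positivity
  have hw2 : ∀ q ∈ Q, w q ≤ 1 / 2 := by
    intro q hq
    have hq0 : (0 : ℝ) < q := by exact_mod_cast (hpr q hq).pos
    have : (2 : ℝ) * (R q).card ≤ q := by exact_mod_cast hhalf q hq
    rw [hw]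
    simp only
    rw [div_le_iff₀ hq0]
    linarith
  have hw01 : ∀ q ∈ Q, 0 ≤ w q ∧ w q ≤ 1 := fun q hq => ⟨hw0 q hq, by linarith [hw2 q hq]⟩
  -- the counting function
  have hcard : (((range T).filter (fun t => ∀ q ∈ Q, t % q ∉ R q)).card : ℝ) =
      ∑ t ∈ range T, ∏ q ∈ Q, (1 - ind R q t) := by
    rw [Finset.card_filter]
    push_cast
    apply Finset.sum_congr rfl
    intro t _
    by_cases h : ∀ q ∈ Q, t % q ∉ R q
    · rw [if_pos h]
      symm
      apply Finset.prod_eq_one
      intro q hq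
      simp [ind, h q hq]
    · rw [if_neg h]
      push Not at h
      obtain ⟨q, hq, hqt⟩ := h
      symm
      apply Finset.prod_eq_zero hq
      simp [ind, hqt]
  have hstep1 : ∑ t ∈ range T, alt Q (fun q => ind R q t) r ≤
      (((range T).filter (fun t => ∀ q ∈ Q, t % q ∉ R q)).card : ℝ) := by
    rw [hcard]
    apply Finset.sum_le_sum
    intro t _
    exact alt_le_prod_of_odd _ Q (fun q _ => ⟨ind_nonneg R q t, ind_le_one R q t⟩) r hr
  -- exchange of sums
  have hstep2 : ∑ t ∈ range T, alt Q (fun q => ind R q t) r =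
      ∑ j ∈ range (r + 1), (-1 : ℝ) ^ j *
        ∑ e ∈ Q.powersetCard j, ∑ t ∈ range T, ∏ q ∈ e, ind R q t := by
    unfold alt el
    rw [Finset.sum_comm]
    apply Finset.sum_congr rfl
    intro j _
    rw [← Finset.mul_sum, Finset.sum_comm]
  have herr : ∀ j, ∀ e ∈ Q.powersetCard j,
      |(∑ t ∈ range T, ∏ q ∈ e, ind R q t) - (T : ℝ) * ∏ q ∈ e, w q| ≤
        ∏ q ∈ e, ((R q).card : ℝ) := by
    intro j e he
    have hsub := (Finset.mem_powersetCard.mp he).1
    have := count_classes R T e (fun q hq => hR q (hsub hq)) (fun q hq => hpr q (hsub hq))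
      1 0 Nat.one_pos (fun q _ => Nat.coprime_one_left q)
    simp only [Nat.mod_one, if_true, one_mul, Nat.cast_one, div_one] at this
    exact this
  have hstep3 : (T : ℝ) * alt Q w r - ∑ j ∈ range (r + 1), el Q (fun q => ((R q).card : ℝ)) j ≤
      ∑ t ∈ range T, alt Q (fun q => ind R q t) r := by
    rw [hstep2]
    unfold alt
    rw [Finset.mul_sum, ← Finset.sum_sub_distrib]
    apply Finset.sum_le_sum
    intro j _
    have h1 : |(∑ e ∈ Q.powersetCard j, ∑ t ∈ range T, ∏ q ∈ e, ind R q t) -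
        (T : ℝ) * el Q w j| ≤ el Q (fun q => ((R q).card : ℝ)) j := by
      unfold el
      rw [Finset.mul_sum, ← Finset.sum_sub_distrib]
      exact le_trans (Finset.abs_sum_le_sum_abs _ _) (Finset.sum_le_sum (herr j))
    have h2 : |(-1 : ℝ) ^ j * ((∑ e ∈ Q.powersetCard j, ∑ t ∈ range T, ∏ q ∈ e, ind R q t) -
        (T : ℝ) * el Q w j)| ≤ el Q (fun q => ((R q).card : ℝ)) j := by
      rw [abs_mul, abs_pow, abs_neg, abs_one, one_pow, one_mul]
      exact h1
    have h3 := (abs_le.mp h2).1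
    linarith
  have hprod : Real.exp (-(2 * S)) ≤ ∏ q ∈ Q, (1 - w q) := by
    have h1 : Real.exp (-(2 * S)) ≤ Real.exp (∑ q ∈ Q, -(2 * w q)) := by
      apply Real.exp_le_exp.mpr
      rw [Finset.sum_neg_distrib, ← Finset.mul_sum]
      linarith
    refine le_trans h1 ?_
    rw [Real.exp_sum]
    apply Finset.prod_le_prod
    · intro q _; exact (Real.exp_pos _).le
    · intro q hq
      have ha := hw0 q hq
      have hb := hw2 q hq
      -- exp(-2a) <= 1 - a for 0 <= a <= 1/2
      have hc : Real.exp (-(2 * w q)) * Real.exp (2 * w q) = 1 := by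
        rw [← Real.exp_add]; simp
      have hd : 1 + 2 * w q ≤ Real.exp (2 * w q) := by
        linarith [Real.add_one_le_exp (2 * w q)]
      have he : 0 < Real.exp (-(2 * w q)) := Real.exp_pos _
      have hf : Real.exp (-(2 * w q)) * (1 + 2 * w q) ≤ 1 := by
        calc _ ≤ Real.exp (-(2 * w q)) * Real.exp (2 * w q) :=
              mul_le_mul_of_nonneg_left hd he.le
          _ = 1 := hc
      have hg : (1 : ℝ) ≤ (1 - w q) * (1 + 2 * w q) := by nlinarith
      have hh : 0 < 1 + 2 * w q := by linarith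
      exact le_of_mul_le_mul_right (by linarith) hh
  have hel : el Q w (r + 1) ≤ Real.exp (x * S) / x ^ (r + 1) := by
    rw [le_div_iff₀ (pow_pos hx _)]
    refine le_trans (el_le w Q hw0 x hx (r + 1)) ?_
    apply Real.exp_le_exp.mpr
    exact mul_le_mul_of_nonneg_left hS hx.le
  have hrem : ∑ j ∈ range (r + 1), el Q (fun q => ((R q).card : ℝ)) j ≤
      Real.exp (y * G) / y ^ r := by
    rw [le_div_iff₀ (pow_pos hy _)]
    refine le_trans (sum_el_le _ Q (fun q _ => Nat.cast_nonneg _) y hy hy1 r) ?_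
    apply Real.exp_le_exp.mpr
    exact mul_le_mul_of_nonneg_left hG hy.le
  have halt := prod_sub_le_alt w Q hw01 r hr
  have hT : (0 : ℝ) ≤ T := Nat.cast_nonneg _
  have hfin : (T : ℝ) * (Real.exp (-(2 * S)) - Real.exp (x * S) / x ^ (r + 1)) ≤
      (T : ℝ) * alt Q w r := by
    apply mul_le_mul_of_nonneg_left _ hT
    linarith
  linarith

end Pool.Agent.S10107.Sieve

namespace Pool.Agent.S10107.Arith

open Finset

/-- residues `ρ` modulo `q` with `(c ρ)^n = 1` modulo `q` -/
def res (c n q : ℕ) : Finset ℕ := (range q).filter (fun ρ => (c * ρ) ^ n % q = 1)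

lemma card_res (c n q : ℕ) (hq : q.Prime) (hn : n ≠ 0) (hc : Nat.Coprime c q) :
    (res c n q).card = Nat.gcd (q - 1) n := by
  have : Fact q.Prime := ⟨hq⟩
  have h1 : Nat.card (powMonoidHom n : (ZMod q)ˣ →* (ZMod q)ˣ).ker = Nat.gcd (q - 1) n := by
    rw [IsCyclic.card_powMonoidHom_ker, Nat.card_eq_fintype_card, ZMod.card_units]
  rw [← h1]
  have h2 : Nat.card (powMonoidHom n : (ZMod q)ˣ →* (ZMod q)ˣ).ker =
      (Finset.univ.filter (fun u : (ZMod q)ˣ => u ^ n = 1)).card := by
    rw [Nat.card_eq_fintype_card, ← Fintype.card_coe]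
    apply Fintype.card_congr
    refine Equiv.subtypeEquivRight ?_
    intro u
    simp [MonoidHom.mem_ker]
  rw [h2]
  symm
  let cu : (ZMod q)ˣ := ZMod.unitOfCoprime c hc
  apply Finset.card_bij (fun (u : (ZMod q)ˣ) _ => ((cu⁻¹ * u : (ZMod q)ˣ) : ZMod q).val)
  · intro u hu
    have hu' : u ^ n = 1 := (Finset.mem_filter.mp hu).2
    rw [res, Finset.mem_filter, Finset.mem_range]
    refine ⟨ZMod.val_lt _, ?_⟩
    have h3 : (((c * ((cu⁻¹ * u : (ZMod q)ˣ) : ZMod q).val) ^ n : ℕ) : ZMod q) = ((1 : ℕ) : ZMod q) := by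
      have h5 : (c : ZMod q) * ((cu⁻¹ * u : (ZMod q)ˣ) : ZMod q) = (u : ZMod q) := by
        have h4 : (c : ZMod q) = ((cu : (ZMod q)ˣ) : ZMod q) := rfl
        rw [h4, ← Units.val_mul, ← mul_assoc, mul_inv_cancel, one_mul]
      rw [Nat.cast_pow, Nat.cast_mul, ZMod.natCast_zmod_val, h5, ← Units.val_pow_eq_pow_val, hu']
      simp
    rw [ZMod.natCast_eq_natCast_iff'] at h3
    rw [h3, Nat.mod_eq_of_lt hq.one_lt]
  · intro u _ v _ huv
    have := ZMod.val_injective q huv
    have := Units.ext this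
    exact mul_left_cancel this
  · intro ρ hρ
    rw [res, Finset.mem_filter, Finset.mem_range] at hρ
    obtain ⟨hρ1, hρ2⟩ := hρ
    have h3 : ((c : ZMod q) * (ρ : ZMod q)) ^ n = 1 := by
      have : (((c * ρ) ^ n : ℕ) : ZMod q) = ((1 : ℕ) : ZMod q) := by
        rw [ZMod.natCast_eq_natCast_iff', hρ2, Nat.mod_eq_of_lt hq.one_lt]
      push_cast at this
      exact this
    let u : (ZMod q)ˣ := Units.ofPowEqOne ((c : ZMod q) * (ρ : ZMod q)) n h3 hn
    have hu : (u : ZMod q) = (c : ZMod q) * (ρ : ZMod q) := rfl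
    refine ⟨u, ?_, ?_⟩
    · rw [Finset.mem_filter]
      refine ⟨Finset.mem_univ _, ?_⟩
      apply Units.ext
      rw [Units.val_pow_eq_pow_val, hu, h3]
      rfl
    · have h5 : ((cu⁻¹ * u : (ZMod q)ˣ) : ZMod q) = (ρ : ZMod q) := by
        rw [Units.val_mul, hu]
        have h4 : (c : ZMod q) = ((cu : (ZMod q)ˣ) : ZMod q) := rfl
        rw [h4, ← mul_assoc, Units.inv_mul, one_mul]
      rw [h5, ZMod.val_natCast, Nat.mod_eq_of_lt hρ1]

/-- number of prime factors of `2^n-1` -/
lemma card_primeFactors_le (n : ℕ) (hn : 2 ≤ n) : (2 ^ n - 1).primeFactors.card ≤ n := by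
  have h1 : (2 : ℕ) ^ (2 ^ n - 1).primeFactors.card ≤ ∏ p ∈ (2 ^ n - 1).primeFactors, p := by
    apply Finset.pow_card_le_prod
    intro p hp
    exact (Nat.prime_of_mem_primeFactors hp).two_le
  have hpos : 0 < 2 ^ n - 1 := by
    have : 2 ^ 2 ≤ 2 ^ n := Nat.pow_le_pow_right (by norm_num) hn
    omega
  have h2 : ∏ p ∈ (2 ^ n - 1).primeFactors, p ≤ 2 ^ n - 1 :=
    Nat.le_of_dvd hpos (Nat.prod_primeFactors_dvd _)
  have h3 : (2 : ℕ) ^ (2 ^ n - 1).primeFactors.card ≤ 2 ^ n := by omega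
  exact (Nat.pow_le_pow_iff_right (by norm_num)).mp h3

/-- The primes dividing `2^n-1` with `q-1 ∣ n`. -/
def Q1 (n : ℕ) : Finset ℕ := (2 ^ n - 1).primeFactors.filter (fun q => (q - 1) ∣ n)

/-- The primes dividing `2^n-1` with `q-1 ∤ n`. -/
def Q2 (n : ℕ) : Finset ℕ := (2 ^ n - 1).primeFactors.filter (fun q => ¬ (q - 1) ∣ n)

/-- The product of the primes in `Q1`. -/
def M (n : ℕ) : ℕ := ∏ q ∈ Q1 n, q

lemma M_le (n : ℕ) (hn : 2 ≤ n) : M n ≤ (n + 1) ^ n.divisors.card := by
  have h1 : M n ≤ (n + 1) ^ (Q1 n).card := by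
    apply Finset.prod_le_pow_card
    intro q hq
    have h := (Finset.mem_filter.mp hq)
    have := Nat.le_of_dvd (by omega) h.2
    omega
  refine le_trans h1 (Nat.pow_le_pow_right (by omega) ?_)
  apply Finset.card_le_card_of_injOn (fun q => q - 1)
  · intro q hq
    have h := (Finset.mem_filter.mp hq)
    simp only [Finset.mem_coe, Nat.mem_divisors]
    exact ⟨h.2, by omega⟩
  · intro q hq q' hq' h
    have h1 := (Nat.prime_of_mem_primeFactors (Finset.mem_filter.mp hq).1).two_le
    have h2 := (Nat.prime_of_mem_primeFactors (Finset.mem_filter.mp hq').1).two_le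
    simp only at h
    omega

lemma M_pos (n : ℕ) : 0 < M n := by
  apply Finset.prod_pos
  intro q hq
  exact (Nat.prime_of_mem_primeFactors (Finset.mem_filter.mp hq).1).pos

lemma coprime_M (n q : ℕ) (hq : q ∈ Q2 n) : Nat.Coprime (M n) q := by
  apply Nat.Coprime.prod_left
  intro p hp
  have h1 := (Nat.prime_of_mem_primeFactors (Finset.mem_filter.mp hp).1)
  have h2 := (Nat.prime_of_mem_primeFactors (Finset.mem_filter.mp hq).1)
  rw [Nat.coprime_primes h1 h2]
  rintro rfl
  exact (Finset.mem_filter.mp hq).2 (Finset.mem_filter.mp hp).2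

/-- data on each prime in `Q2` -/
lemma Q2_data (n q : ℕ) (hn : 2 ≤ n) (hq : q ∈ Q2 n) :
    (res (M n) n q).card ∣ n ∧ 0 < (res (M n) n q).card ∧ (res (M n) n q).card ≤ n ∧
      ∃ m, 2 ≤ m ∧ q = (res (M n) n q).card * m + 1 := by
  have hqp := (Nat.prime_of_mem_primeFactors (Finset.mem_filter.mp hq).1)
  have hnd := (Finset.mem_filter.mp hq).2
  have hcard := card_res (M n) n q hqp (by omega) (coprime_M n q hq)
  rw [hcard]
  have hpos : 0 < Nat.gcd (q - 1) n := Nat.gcd_pos_of_pos_right _ (by omega)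
  refine ⟨Nat.gcd_dvd_right _ _, hpos, Nat.le_of_dvd (by omega) (Nat.gcd_dvd_right _ _), ?_⟩
  obtain ⟨m, hm⟩ := Nat.gcd_dvd_left (q - 1) n
  refine ⟨m, ?_, ?_⟩
  · by_contra hlt
    have h2 := hqp.two_le
    interval_cases m
    · omega
    · rw [mul_one] at hm
      exact hnd (hm ▸ Nat.gcd_dvd_right _ _)
  · have h2 := hqp.two_le
    omega

lemma sum_G (n : ℕ) (hn : 2 ≤ n) :
    ∑ q ∈ Q2 n, ((res (M n) n q).card : ℝ) ≤ (n : ℝ) ^ 2 := by
  calc ∑ q ∈ Q2 n, ((res (M n) n q).card : ℝ) ≤ ∑ q ∈ Q2 n, (n : ℝ) := by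
        apply Finset.sum_le_sum
        intro q hq
        exact_mod_cast (Q2_data n q hn hq).2.2.1
    _ = ((Q2 n).card : ℝ) * n := by rw [Finset.sum_const, nsmul_eq_mul]
    _ ≤ (n : ℝ) * n := by
        apply mul_le_mul_of_nonneg_right _ (Nat.cast_nonneg _)
        exact_mod_cast le_trans (Finset.card_filter_le _ _) (card_primeFactors_le n hn)
    _ = (n : ℝ) ^ 2 := by ring

lemma harm (N : ℕ) : ∑ m ∈ Icc 1 N, (1 : ℝ) / m ≤ 1 + Real.log N := by
  have h := harmonic_le_one_add_log N
  rw [harmonic_eq_sum_Icc] at h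
  push_cast at h
  simpa [one_div] using h

lemma sum_S (n : ℕ) (hn : 2 ≤ n) :
    ∑ q ∈ Q2 n, (((res (M n) n q).card : ℝ) / q) ≤
      (n.divisors.card : ℝ) * (1 + 3 * Real.log n) + 1 := by
  have hn0 : (0 : ℝ) < n := by exact_mod_cast (by omega : 0 < n)
  have hn1 : (1 : ℝ) ≤ n := by exact_mod_cast (by omega : 1 ≤ n)
  rw [← Finset.sum_filter_add_sum_filter_not (Q2 n) (fun q => q ≤ n ^ 3)]
  apply add_le_add
  · -- small primes
    set g : ℕ → ℕ := fun q => (res (M n) n q).card with hg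
    set φ : ℕ → ℕ × ℕ := fun q => (g q, (q - 1) / g q) with hφ
    have hdat : ∀ q ∈ (Q2 n).filter (fun q => q ≤ n ^ 3), g q ∣ n ∧ 0 < g q ∧
        q = g q * ((q - 1) / g q) + 1 ∧ 2 ≤ (q - 1) / g q ∧ (q - 1) / g q ≤ n ^ 3 := by
      intro q hq
      obtain ⟨hq1, hq2⟩ := Finset.mem_filter.mp hq
      obtain ⟨h1, h2, _, m, hm2, hm⟩ := Q2_data n q hn hq1
      have h3 : (q - 1) / g q = m := by
        have : q - 1 = g q * m := by simp only [hg]; omega
        rw [this]
        exact Nat.mul_div_cancel_left m h2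
      refine ⟨h1, h2, ?_, ?_, ?_⟩
      · rw [h3]; exact hm
      · rw [h3]; exact hm2
      · refine le_trans (Nat.div_le_self _ _) ?_
        omega
    have hinj : Set.InjOn φ ((Q2 n).filter (fun q => q ≤ n ^ 3) : Finset ℕ) := by
      intro q hq q' hq' h
      have h1 := (hdat q hq).2.2.1
      have h2 := (hdat q' hq').2.2.1
      have h3 := congrArg Prod.fst h
      have h4 := congrArg Prod.snd h
      simp only [hφ] at h3 h4
      rw [h1, h2, h4, h3]
    calc ∑ q ∈ (Q2 n).filter (fun q => q ≤ n ^ 3), (((res (M n) n q).card : ℝ) / q)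
        ≤ ∑ q ∈ (Q2 n).filter (fun q => q ≤ n ^ 3), (1 : ℝ) / ((φ q).2 : ℝ) := by
          apply Finset.sum_le_sum
          intro q hq
          obtain ⟨_, h2, h3, h4, _⟩ := hdat q hq
          have hq0 : (0 : ℝ) < q := by
            have : 0 < q := by omega
            exact_mod_cast this
          have hm0 : (0 : ℝ) < ((φ q).2 : ℝ) := by
            have : 0 < (φ q).2 := by simp only [hφ]; omega
            exact_mod_cast this
          rw [div_le_div_iff₀ hq0 hm0]
          have : g q * (φ q).2 ≤ 1 * q := by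
            simp only [hφ]; omega
          exact_mod_cast this
      _ = ∑ z ∈ ((Q2 n).filter (fun q => q ≤ n ^ 3)).image φ, (1 : ℝ) / (z.2 : ℝ) := by
          rw [Finset.sum_image hinj]
      _ ≤ ∑ z ∈ n.divisors ×ˢ Icc 1 (n ^ 3), (1 : ℝ) / (z.2 : ℝ) := by
          apply Finset.sum_le_sum_of_subset_of_nonneg
          · intro z hz
            obtain ⟨q, hq, rfl⟩ := Finset.mem_image.mp hz
            obtain ⟨h1, _, _, h4, h5⟩ := hdat q hq
            rw [Finset.mem_product, Nat.mem_divisors, Finset.mem_Icc]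
            exact ⟨⟨h1, by omega⟩, by simp only [hφ]; omega, by simp only [hφ]; omega⟩
          · intro z _ _
            positivity
      _ = (n.divisors.card : ℝ) * ∑ m ∈ Icc 1 (n ^ 3), (1 : ℝ) / m := by
          rw [Finset.sum_product]
          simp only
          rw [Finset.sum_const, nsmul_eq_mul]
      _ ≤ (n.divisors.card : ℝ) * (1 + 3 * Real.log n) := by
          apply mul_le_mul_of_nonneg_left _ (Nat.cast_nonneg _)
          have h := harm (n ^ 3)
          push_cast at h
          rw [Real.log_pow] at h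
          push_cast at h
          exact h
  · -- large primes
    calc ∑ q ∈ (Q2 n).filter (fun q => ¬ q ≤ n ^ 3), (((res (M n) n q).card : ℝ) / q)
        ≤ ∑ q ∈ (Q2 n).filter (fun q => ¬ q ≤ n ^ 3), (1 : ℝ) / n := by
          apply Finset.sum_le_sum
          intro q hq
          obtain ⟨hq1, hq2⟩ := Finset.mem_filter.mp hq
          obtain ⟨_, _, h3, _⟩ := Q2_data n q hn hq1
          have hq0 : (0 : ℝ) < q := by
            have : 0 < q := by omega
            exact_mod_cast this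
          rw [div_le_div_iff₀ hq0 hn0]
          have h4 : (res (M n) n q).card * n ≤ 1 * q := by
            have h5 : (res (M n) n q).card * n ≤ n * n := Nat.mul_le_mul_right n h3
            have h6 : n * n ≤ n ^ 3 := by
              calc n * n = n * n * 1 := by ring
                _ ≤ n * n * n := Nat.mul_le_mul_left _ (by omega)
                _ = n ^ 3 := by ring
            omega
          exact_mod_cast h4
      _ = (((Q2 n).filter (fun q => ¬ q ≤ n ^ 3)).card : ℝ) * (1 / n) := by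
          rw [Finset.sum_const, nsmul_eq_mul]
      _ ≤ (n : ℝ) * (1 / n) := by
          apply mul_le_mul_of_nonneg_right _ (by positivity)
          have h1 : ((Q2 n).filter (fun q => ¬ q ≤ n ^ 3)).card ≤ n :=
            le_trans (Finset.card_filter_le _ _)
              (le_trans (Finset.card_filter_le _ _) (card_primeFactors_le n hn))
          exact_mod_cast h1
      _ = 1 := by field_simp

/-- from a good `t` to a coprime value -/
lemma coprime_of_good (n t : ℕ) (hn : 2 ≤ n) (ht : 1 ≤ t)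
    (h : ∀ q ∈ Q2 n, t % q ∉ res (M n) n q) :
    Nat.Coprime ((M n * t) ^ n - 1) (2 ^ n - 1) := by
  apply Nat.Coprime.symm
  apply Nat.coprime_of_dvd
  intro q hq hq1 hq2
  have hpos : 2 ^ n - 1 ≠ 0 := by
    have : 2 ^ 2 ≤ 2 ^ n := Nat.pow_le_pow_right (by norm_num) hn
    omega
  have hmem : q ∈ (2 ^ n - 1).primeFactors := Nat.mem_primeFactors.mpr ⟨hq, hq1, hpos⟩
  have hk : 1 ≤ (M n * t) ^ n := Nat.one_le_pow _ _ (Nat.mul_pos (M_pos n) ht)
  by_cases hd : (q - 1) ∣ n
  · have hqQ : q ∈ Q1 n := Finset.mem_filter.mpr ⟨hmem, hd⟩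
    have hqM : q ∣ M n := Finset.dvd_prod_of_mem (fun q => q) hqQ
    have h1 : q ∣ (M n * t) ^ n := dvd_pow (Dvd.dvd.mul_right hqM t) (by omega)
    have h2 : q ∣ 1 := by
      have := (Nat.dvd_sub_iff_right hk h1).mp hq2
      exact this
    exact hq.one_lt.ne' (Nat.dvd_one.mp h2)
  · have hqQ : q ∈ Q2 n := Finset.mem_filter.mpr ⟨hmem, hd⟩
    apply h q hqQ
    rw [res, Finset.mem_filter, Finset.mem_range]
    refine ⟨Nat.mod_lt _ hq.pos, ?_⟩
    have h1 : (M n * t) ^ n ≡ 1 [MOD q] := ((Nat.modEq_iff_dvd' hk).mpr hq2).symm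
    have h2 : (M n * (t % q)) ^ n ≡ (M n * t) ^ n [MOD q] :=
      Nat.ModEq.pow n (Nat.ModEq.mul_left _ (Nat.mod_modEq t q))
    have h3 := h2.trans h1
    unfold Nat.ModEq at h3
    rw [h3, Nat.mod_eq_of_lt hq.one_lt]

end Pool.Agent.S10107.Arith

namespace Pool.Agent.S10107.DivBound

open Finset

/-- A divisor bound with a free threshold `s`. -/
lemma divisor_bound (n s : ℕ) (hn : n ≠ 0) (hs : 2 ≤ s) :
    (n.divisors.card : ℝ) ≤
      Real.exp (Real.log 2 / Real.log s * Real.log n) * ((Nat.log 2 n : ℝ) + 1) ^ s := by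
  rw [Nat.card_divisors hn]
  push_cast
  have hs0 : (1 : ℝ) < s := by exact_mod_cast (by omega : 1 < s)
  have hls : 0 < Real.log s := Real.log_pos hs0
  have hl2 : 0 < Real.log 2 := Real.log_pos (by norm_num)
  set a : ℝ := Real.log 2 / Real.log s with ha
  have ha0 : 0 < a := div_pos hl2 hls
  set B : ℝ := (Nat.log 2 n : ℝ) + 1 with hB
  have hB1 : 1 ≤ B := by
    have : (0 : ℝ) ≤ (Nat.log 2 n : ℝ) := Nat.cast_nonneg _
    linarith
  have hstep : ∏ p ∈ n.primeFactors, ((n.factorization p : ℝ) + 1) ≤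
      ∏ p ∈ n.primeFactors, (Real.exp (a * ((n.factorization p : ℝ) * Real.log p)) *
        (if p ≤ s then B else 1)) := by
    apply Finset.prod_le_prod
    · intro p _; positivity
    · intro p hp
      have hpp := Nat.prime_of_mem_primeFactors hp
      have hp1 : (1 : ℝ) < p := by exact_mod_cast hpp.one_lt
      have hlp : 0 < Real.log p := Real.log_pos hp1
      have hv0 : (0 : ℝ) ≤ (n.factorization p : ℝ) := Nat.cast_nonneg _
      by_cases hps : p ≤ s
      · rw [if_pos hps]
        have h1 : 1 ≤ Real.exp (a * ((n.factorization p : ℝ) * Real.log p)) := by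
          apply Real.one_le_exp
          positivity
        have h2 : n.factorization p ≤ Nat.log 2 n := by
          apply Nat.le_log_of_pow_le (by norm_num)
          calc 2 ^ n.factorization p ≤ p ^ n.factorization p :=
                Nat.pow_le_pow_left hpp.two_le _
            _ ≤ n := Nat.ordProj_le p hn
        have h3 : (n.factorization p : ℝ) + 1 ≤ B := by
          rw [hB]
          have : (n.factorization p : ℝ) ≤ (Nat.log 2 n : ℝ) := by exact_mod_cast h2
          linarith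
        calc (n.factorization p : ℝ) + 1 ≤ B := h3
          _ = 1 * B := by ring
          _ ≤ _ := mul_le_mul_of_nonneg_right h1 (by linarith)
      · rw [if_neg hps, mul_one]
        have h1 : (n.factorization p : ℝ) + 1 ≤ 2 ^ (n.factorization p) := by
          exact_mod_cast Nat.succ_le_of_lt (Nat.lt_two_pow_self)
        have h2 : (2 : ℝ) ^ (n.factorization p) =
            Real.exp (Real.log 2 * (n.factorization p : ℝ)) := by
          rw [mul_comm, Real.exp_nat_mul, Real.exp_log (by norm_num)]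
        rw [h2] at h1
        refine le_trans h1 ?_
        apply Real.exp_le_exp.mpr
        have h3 : Real.log s ≤ Real.log p := by
          apply Real.log_le_log (by linarith)
          exact_mod_cast (by omega : s ≤ p)
        have h4 : Real.log 2 = a * Real.log s := by rw [ha]; field_simp
        calc Real.log 2 * (n.factorization p : ℝ)
            = a * ((n.factorization p : ℝ) * Real.log s) := by rw [h4]; ring
          _ ≤ a * ((n.factorization p : ℝ) * Real.log p) := by
              apply mul_le_mul_of_nonneg_left _ ha0.le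
              exact mul_le_mul_of_nonneg_left h3 hv0
  refine le_trans hstep ?_
  rw [Finset.prod_mul_distrib]
  apply mul_le_mul
  · rw [← Real.exp_sum, ← Finset.mul_sum]
    apply Real.exp_le_exp.mpr
    apply le_of_eq
    rw [Real.log_nat_eq_sum_factorization n]
    rfl
  · rw [Finset.prod_ite, Finset.prod_const_one, mul_one, Finset.prod_const]
    apply pow_le_pow_right₀ hB1
    calc (n.primeFactors.filter (fun p => p ≤ s)).card ≤ (Finset.Icc 1 s).card := by
          apply Finset.card_le_card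
          intro p hp
          obtain ⟨h1, h2⟩ := Finset.mem_filter.mp hp
          exact Finset.mem_Icc.mpr ⟨(Nat.prime_of_mem_primeFactors h1).pos, h2⟩
      _ = s := by simp
  · apply Finset.prod_nonneg
    intro p _
    split_ifs <;> linarith
  · positivity

/-- `d(n) ≤ exp (1.4 e^u/u + (e^{u/2}+1)(u+2))` with `u = log log n`. -/
lemma divisor_bound' (n : ℕ) (hn : 16 ≤ n) (u : ℝ) (hu : u = Real.log (Real.log n))
    (hu2 : 2 ≤ u) :
    (n.divisors.card : ℝ) ≤
      Real.exp (3 / 2 * (Real.exp u / u) + (Real.exp (u / 2) + 1) * (u + 2)) := by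
  have hn0 : (0 : ℝ) < n := by exact_mod_cast (by omega : 0 < n)
  have hL0 : 0 < Real.log n := Real.log_pos (by exact_mod_cast (by omega : 1 < n))
  have hL : Real.log n = Real.exp u := by rw [hu, Real.exp_log hL0]
  set s : ℕ := ⌈Real.exp (u / 2)⌉₊ with hs
  have hs1 : Real.exp (u / 2) ≤ s := Nat.le_ceil _
  have hs2 : (s : ℝ) < Real.exp (u / 2) + 1 := Nat.ceil_lt_add_one (Real.exp_pos _).le
  have he1 : (2 : ℝ) < Real.exp (u / 2) := by
    have h1 : Real.exp 1 ≤ Real.exp (u / 2) := Real.exp_le_exp.mpr (by linarith)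
    linarith [Real.exp_one_gt_d9]
  have hs3 : 2 ≤ s := by
    have : (2 : ℝ) < s := by linarith
    exact_mod_cast this.le
  refine le_trans (divisor_bound n s (by omega) hs3) ?_
  have hls : u / 2 ≤ Real.log s := by
    rw [Real.le_log_iff_exp_le (by linarith)]
    exact hs1
  rw [Real.exp_add]
  apply mul_le_mul
  · apply Real.exp_le_exp.mpr
    rw [hL]
    have h1 : Real.log 2 / Real.log s ≤ (3 / 4) / (u / 2) := by
      apply div_le_div₀ (by norm_num) (by linarith [Real.log_two_lt_d9]) (by linarith) hls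
    calc Real.log 2 / Real.log s * Real.exp u ≤ (3 / 4) / (u / 2) * Real.exp u :=
          mul_le_mul_of_nonneg_right h1 (Real.exp_pos _).le
      _ = 3 / 2 * (Real.exp u / u) := by
          have : u ≠ 0 := by linarith
          field_simp
          ring
  · have hB : (Nat.log 2 n : ℝ) + 1 ≤ Real.exp (u + 2) := by
      have h1 : (2 : ℝ) ^ (Nat.log 2 n) ≤ n := by exact_mod_cast Nat.pow_log_le_self 2 (by omega)
      have h2 : (Nat.log 2 n : ℝ) * Real.log 2 ≤ Real.log n := by
        rw [← Real.log_pow]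
        exact Real.log_le_log (by positivity) h1
      have h3 : (Nat.log 2 n : ℝ) ≤ 2 * Real.log n := by
        have h4 := Real.log_two_gt_d9
        have h5 : (0 : ℝ) ≤ (Nat.log 2 n : ℝ) := Nat.cast_nonneg _
        nlinarith
      rw [hL] at h3
      have h6 : Real.exp (u + 2) = Real.exp u * Real.exp 2 := Real.exp_add _ _
      have h7 : (3 : ℝ) ≤ Real.exp 2 := by linarith [Real.add_one_le_exp (2 : ℝ)]
      have h8 : 1 ≤ Real.exp u := Real.one_le_exp (by linarith)
      rw [h6]
      nlinarith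
    have hB0 : (0 : ℝ) ≤ (Nat.log 2 n : ℝ) + 1 := by positivity
    calc ((Nat.log 2 n : ℝ) + 1) ^ s ≤ (Real.exp (u + 2)) ^ s := pow_le_pow_left₀ hB0 hB s
      _ = Real.exp (s * (u + 2)) := by rw [← Real.exp_nat_mul]
      _ ≤ Real.exp ((Real.exp (u / 2) + 1) * (u + 2)) := by
          apply Real.exp_le_exp.mpr
          exact mul_le_mul_of_nonneg_right hs2.le (by linarith)
  · positivity
  · positivity

end Pool.Agent.S10107.DivBound

namespace Pool.Agent.S10107.KBound

open Finset
open N97cf5353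
open Pool.Agent.S10107.Arith
open Pool.Agent.S10107.Sieve

lemma exists_good (n : ℕ) (hn : 2 ≤ n) (S : ℝ) (hS0 : 0 ≤ S)
    (hS : (n.divisors.card : ℝ) * (1 + 3 * Real.log n) + 1 ≤ S) (r T : ℕ) (hr : Odd r)
    (hr2 : 10 * S + 2 ≤ (r : ℝ) + 1)
    (hT : 2 * Real.exp (2 * S) * (Real.exp 1 * (n : ℝ) ^ (2 * r) + 3) ≤ T) :
    ∃ t : ℕ, 2 ≤ t ∧ t < T ∧ ∀ q ∈ Q2 n, t % q ∉ res (M n) n q := by
  have hn0 : (0 : ℝ) < n := by exact_mod_cast (by omega : 0 < n)
  have hn1 : (1 : ℝ) ≤ n := by exact_mod_cast (by omega : 1 ≤ n)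
  have hsv := sieve (res (M n) n) T (Q2 n)
    (fun q _ ρ hρ => Finset.mem_range.mp (Finset.mem_filter.mp hρ).1)
    (fun q hq => Nat.prime_of_mem_primeFactors (Finset.mem_filter.mp hq).1)
    (fun q hq => by
      obtain ⟨_, h2, _, m, hm2, hm⟩ := Q2_data n q hn hq
      nlinarith)
    r hr 8 (1 / (n : ℝ) ^ 2) (by norm_num) (by positivity)
    (by rw [div_le_one (by positivity)]; exact one_le_pow₀ hn1)
    S ((n : ℝ) ^ 2) (le_trans (sum_S n hn) hS) (sum_G n hn)
  have he1 : (1 / (n : ℝ) ^ 2) * (n : ℝ) ^ 2 = 1 := by field_simp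
  have he2 : Real.exp 1 / (1 / (n : ℝ) ^ 2) ^ r = Real.exp 1 * (n : ℝ) ^ (2 * r) := by
    rw [one_div, inv_pow, div_inv_eq_mul, ← pow_mul]
  rw [he1, he2] at hsv
  -- the truncation error
  have h8 : Real.exp (2 * ((r : ℝ) + 1)) ≤ (8 : ℝ) ^ (r + 1) := by
    have h2 : Real.exp 2 ≤ 8 := by
      have h := Real.exp_one_lt_d9
      have : Real.exp 2 = Real.exp 1 * Real.exp 1 := by
        rw [← Real.exp_add]; norm_num
      rw [this]
      have hp := Real.exp_pos 1
      nlinarith
    have h3 : Real.exp (2 * ((r : ℝ) + 1)) = (Real.exp 2) ^ (r + 1) := by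
      rw [← Real.exp_nat_mul]
      congr 1
      push_cast
      ring
    rw [h3]
    exact pow_le_pow_left₀ (Real.exp_pos _).le h2 _
  have h9 : Real.exp (8 * S) / 8 ^ (r + 1) ≤ Real.exp (-(2 * S)) / 2 := by
    rw [div_le_div_iff₀ (by positivity) (by norm_num)]
    have h10 : Real.exp (-(2 * S)) * Real.exp (2 * ((r : ℝ) + 1)) ≤
        Real.exp (-(2 * S)) * 8 ^ (r + 1) :=
      mul_le_mul_of_nonneg_left h8 (Real.exp_pos _).le
    refine le_trans ?_ h10
    rw [← Real.exp_add]
    have h11 : (2 : ℝ) ≤ Real.exp 1 := by linarith [Real.add_one_le_exp (1 : ℝ)]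
    calc Real.exp (8 * S) * 2 ≤ Real.exp (8 * S) * Real.exp 1 :=
          mul_le_mul_of_nonneg_left h11 (Real.exp_pos _).le
      _ = Real.exp (8 * S + 1) := by rw [← Real.exp_add]
      _ ≤ _ := by
          apply Real.exp_le_exp.mpr
          linarith
  have h12 : (T : ℝ) * (Real.exp (-(2 * S)) / 2) ≤
      (T : ℝ) * (Real.exp (-(2 * S)) - Real.exp (8 * S) / 8 ^ (r + 1)) := by
    apply mul_le_mul_of_nonneg_left _ (Nat.cast_nonneg _)
    linarith
  have h13 : Real.exp 1 * (n : ℝ) ^ (2 * r) + 3 ≤ (T : ℝ) * (Real.exp (-(2 * S)) / 2) := by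
    have h14 : (2 * Real.exp (2 * S) * (Real.exp 1 * (n : ℝ) ^ (2 * r) + 3)) *
        (Real.exp (-(2 * S)) / 2) ≤ (T : ℝ) * (Real.exp (-(2 * S)) / 2) :=
      mul_le_mul_of_nonneg_right hT (by positivity)
    have h15 : (2 * Real.exp (2 * S) * (Real.exp 1 * (n : ℝ) ^ (2 * r) + 3)) *
        (Real.exp (-(2 * S)) / 2) = (Real.exp (2 * S) * Real.exp (-(2 * S))) *
          (Real.exp 1 * (n : ℝ) ^ (2 * r) + 3) := by ring
    have h16 : Real.exp (2 * S) * Real.exp (-(2 * S)) = 1 := by
      rw [← Real.exp_add]; simp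
    rw [h15, h16, one_mul] at h14
    exact h14
  have hcard : (3 : ℝ) ≤
      (((range T).filter (fun t => ∀ q ∈ Q2 n, t % q ∉ res (M n) n q)).card : ℝ) := by
    linarith
  have hcard' : 3 ≤ ((range T).filter (fun t => ∀ q ∈ Q2 n, t % q ∉ res (M n) n q)).card := by
    exact_mod_cast hcard
  by_contra hcon
  push Not at hcon
  have hsub : ((range T).filter (fun t => ∀ q ∈ Q2 n, t % q ∉ res (M n) n q)) ⊆ range 2 := by
    intro t ht
    obtain ⟨ht1, ht2⟩ := Finset.mem_filter.mp ht
    rw [Finset.mem_range] at ht1 ⊢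
    by_contra h2
    obtain ⟨q, hq, hqt⟩ := hcon t (by omega) ht1
    exact ht2 q hq hqt
  have := Finset.card_le_card hsub
  rw [Finset.card_range] at this
  omega

theorem K_bound (n : ℕ) (hn : 3 ≤ n) :
    (K n : ℝ) ≤ Real.exp (150 * (n.divisors.card : ℝ) * (Real.log n) ^ 2) := by
  have hn0 : (0 : ℝ) < n := by exact_mod_cast (by omega : 0 < n)
  set D : ℝ := (n.divisors.card : ℝ) with hD
  set L : ℝ := Real.log n with hL
  have hD1 : 1 ≤ D := by
    have : 0 < n.divisors.card := Finset.card_pos.mpr ⟨1, by simp; omega⟩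
    rw [hD]; exact_mod_cast this
  have hL1 : 1 ≤ L := by
    rw [hL, Real.le_log_iff_exp_le hn0]
    have h3 : (3 : ℝ) ≤ n := by exact_mod_cast hn
    linarith [Real.exp_one_lt_d9]
  set S : ℝ := D * (1 + 3 * L) + 1 with hS
  have hS0 : 0 ≤ S := by rw [hS]; nlinarith
  set r : ℕ := 2 * ⌈5 * S⌉₊ + 1 with hr
  have hceil1 : 5 * S ≤ (⌈5 * S⌉₊ : ℝ) := Nat.le_ceil _
  have hceil2 : (⌈5 * S⌉₊ : ℝ) < 5 * S + 1 := Nat.ceil_lt_add_one (by linarith)
  have hrr : (r : ℝ) = 2 * (⌈5 * S⌉₊ : ℝ) + 1 := by rw [hr]; push_cast; ring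
  set X : ℝ := 2 * Real.exp (2 * S) * (Real.exp 1 * (n : ℝ) ^ (2 * r) + 3) with hX
  have hX0 : 0 ≤ X := by rw [hX]; positivity
  set T : ℕ := ⌈X⌉₊ with hT
  obtain ⟨t, ht2, htT, hgood⟩ := exists_good n (by omega) S hS0 le_rfl r T ⟨⌈5 * S⌉₊, rfl⟩
    (by rw [hrr]; linarith) (Nat.le_ceil _)
  have hcop := coprime_of_good n t (by omega) (by omega) hgood
  have hK : K n ≤ M n * t := by
    apply Nat.sInf_le
    refine ⟨?_, hcop⟩
    calc 2 = 1 * 2 := by norm_num
      _ ≤ M n * t := Nat.mul_le_mul (M_pos n) ht2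
  have hK2 : (K n : ℝ) ≤ (M n : ℝ) * (T : ℝ) := by
    have : K n ≤ M n * T := le_trans hK (Nat.mul_le_mul_left _ htT.le)
    exact_mod_cast this
  have hMle : (M n : ℝ) ≤ Real.exp (2 * D * L) := by
    have h1 : (M n : ℝ) ≤ ((n : ℝ) + 1) ^ n.divisors.card := by exact_mod_cast M_le n (by omega)
    have h2 : ((n : ℝ) + 1) ≤ Real.exp (2 * L) := by
      have : Real.exp (2 * L) = (n : ℝ) * n := by
        rw [two_mul, Real.exp_add, hL, Real.exp_log hn0]
      rw [this]
      have h3 : (3 : ℝ) ≤ n := by exact_mod_cast hn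
      nlinarith
    calc (M n : ℝ) ≤ ((n : ℝ) + 1) ^ n.divisors.card := h1
      _ ≤ (Real.exp (2 * L)) ^ n.divisors.card := pow_le_pow_left₀ (by linarith) h2 _
      _ = Real.exp (2 * D * L) := by
          rw [← Real.exp_nat_mul, hD]; congr 1; ring
  have hTle : (T : ℝ) ≤ Real.exp (2 * S + 2 * r * L + 4) := by
    have h1 : (T : ℝ) < X + 1 := Nat.ceil_lt_add_one hX0
    have hpow : (n : ℝ) ^ (2 * r) = Real.exp (2 * r * L) := by
      have : (n : ℝ) = Real.exp L := by rw [hL, Real.exp_log hn0]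
      rw [this, ← Real.exp_nat_mul]
      congr 1
      push_cast
      ring
    have hr0 : (0 : ℝ) ≤ r := Nat.cast_nonneg _
    have hpow1 : 1 ≤ Real.exp (2 * r * L) := by
      apply Real.one_le_exp
      have := mul_nonneg hr0 (by linarith : (0 : ℝ) ≤ L)
      linarith
    have hexpS : 1 ≤ Real.exp (2 * S) := Real.one_le_exp (by linarith)
    have hX2 : X + 1 ≤ 13 * (Real.exp (2 * S) * Real.exp (2 * r * L)) := by
      rw [hX, hpow]
      have he := Real.exp_one_lt_d9
      set a := Real.exp (2 * S)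
      set b := Real.exp (2 * r * L)
      have hab : 1 ≤ a * b := by nlinarith
      have h2 : 2 * a * (Real.exp 1 * b + 3) ≤ 2 * a * (2.8 * b + 3 * b) := by
        apply mul_le_mul_of_nonneg_left _ (by linarith)
        nlinarith
      nlinarith
    have h13 : (13 : ℝ) ≤ Real.exp 4 := by
      have h5 := Real.quadratic_le_exp_of_nonneg (show (0 : ℝ) ≤ 4 by norm_num)
      linarith
    calc (T : ℝ) ≤ X + 1 := h1.le
      _ ≤ 13 * (Real.exp (2 * S) * Real.exp (2 * r * L)) := hX2
      _ ≤ Real.exp 4 * (Real.exp (2 * S) * Real.exp (2 * r * L)) := by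
          apply mul_le_mul_of_nonneg_right h13
          positivity
      _ = Real.exp (2 * S + 2 * r * L + 4) := by
          rw [← Real.exp_add, ← Real.exp_add]; congr 1; ring
  calc (K n : ℝ) ≤ (M n : ℝ) * (T : ℝ) := hK2
    _ ≤ Real.exp (2 * D * L) * Real.exp (2 * S + 2 * r * L + 4) :=
        mul_le_mul hMle hTle (Nat.cast_nonneg _) (Real.exp_pos _).le
    _ = Real.exp (2 * D * L + (2 * S + 2 * r * L + 4)) := by rw [← Real.exp_add]
    _ ≤ Real.exp (150 * D * L ^ 2) := by
        apply Real.exp_le_exp.mpr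
        have hL0 : (0 : ℝ) ≤ L := by linarith
        have hD0 : (0 : ℝ) ≤ D := by linarith
        have hr3 : (r : ℝ) ≤ 10 * S + 3 := by rw [hrr]; linarith
        have hrL : (r : ℝ) * L ≤ (10 * S + 3) * L := mul_le_mul_of_nonneg_right hr3 hL0
        have hDL' : D ≤ D * L := le_mul_of_one_le_right hD0 hL1
        have hDL : 1 ≤ D * L := le_trans hD1 hDL'
        have hSe : S = D + 3 * (D * L) + 1 := by rw [hS]; ring
        have hS5 : S ≤ 5 * (D * L) := by linarith
        have hDL2 : D * L ≤ D * L ^ 2 := by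
          have h := le_mul_of_one_le_right (mul_nonneg hD0 hL0) hL1
          calc D * L ≤ D * L * L := h
            _ = D * L ^ 2 := by ring
        have hSL : S * L ≤ 5 * (D * L ^ 2) := by
          have : S * L ≤ 5 * (D * L) * L := mul_le_mul_of_nonneg_right hS5 hL0
          calc S * L ≤ 5 * (D * L) * L := this
            _ = 5 * (D * L ^ 2) := by ring
        have hL2 : L ≤ D * L := le_mul_of_one_le_left hL0 hD1
        have e1 : 2 * D * L + (2 * S + 2 * r * L + 4) = 2 * (D * L) + 2 * S + 2 * (r * L) + 4 := by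
          ring
        have e2 : (10 * S + 3) * L = 10 * (S * L) + 3 * L := by ring
        have e3 : 150 * D * L ^ 2 = 150 * (D * L ^ 2) := by ring
        rw [e1, e3]
        rw [e2] at hrL
        linarith

end Pool.Agent.S10107.KBound

namespace Pool.Agent.S10107

open Pool.Agent.S10107.KBound Pool.Agent.S10107.DivBound

lemma final_ineq (u : ℝ) (hu : 240 ≤ u) :
    6 + (3 / 2 * (Real.exp u / u) + (Real.exp (u / 2) + 1) * (u + 2)) + 2 * u ≤
      3 * (Real.exp u / u) := by
  have hu0 : 0 < u := by linarith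
  set E : ℝ := Real.exp (u / 2) with hE
  have hE1 : 1 ≤ E := Real.one_le_exp (by linarith)
  have hEE : Real.exp u = E * E := by
    rw [hE, ← Real.exp_add]; congr 1; ring
  have hcub : u ^ 3 / 48 ≤ E := by
    have h := Real.pow_div_factorial_le_exp (u / 2) (by linarith) 3
    have h6 : ((Nat.factorial 3 : ℕ) : ℝ) = 6 := by norm_num [Nat.factorial]
    rw [h6] at h
    calc u ^ 3 / 48 = (u / 2) ^ 3 / 6 := by ring
      _ ≤ E := h
  have h1 : 6 + (E + 1) * (u + 2) + 2 * u ≤ 7 * u * E := by nlinarith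
  have h2 : 7 * u * E ≤ 3 / 2 * (Real.exp u / u) := by
    rw [hEE]
    have h3 : 7 * u * E * u ≤ 3 / 2 * (E * E) := by
      have h4 : 5 * u ^ 2 ≤ E := by nlinarith [sq_nonneg u]
      have h5 : 5 * u ^ 2 * E ≤ E * E := mul_le_mul_of_nonneg_right h4 (by linarith)
      nlinarith
    have h6 : 3 / 2 * (E * E / u) = (3 / 2 * (E * E)) / u := by ring
    rw [h6, le_div_iff₀ hu0]
    exact h3
  linarith

/-- ∃ c>0, ∀ ε>0, for all sufficiently large n, (least k≥2 with gcd(k^n−1, 2^n−1)=1) < exp(n^((c+ε)/log log n)) (natural log). -/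
theorem result :
    ∃ c > (0 : ℝ), ∀ ε > (0 : ℝ), ∀ᶠ n : ℕ in atTop, (K n : ℝ) < Real.exp ((n : ℝ) ^ ((c + ε) / Real.log (Real.log (n : ℝ)))) := by
  refine ⟨3, by norm_num, fun ε hε => ?_⟩
  have hlim : Tendsto (fun n : ℕ => Real.log (Real.log (n : ℝ))) atTop atTop :=
    Real.tendsto_log_atTop.comp (Real.tendsto_log_atTop.comp tendsto_natCast_atTop_atTop)
  filter_upwards [hlim.eventually_ge_atTop 240, eventually_ge_atTop 16] with n hu hn
  set u : ℝ := Real.log (Real.log (n : ℝ)) with hudef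
  have hu0 : 0 < u := by linarith
  have hn0 : (0 : ℝ) < n := by exact_mod_cast (by omega : 0 < n)
  have hL0 : 0 < Real.log n := Real.log_pos (by exact_mod_cast (by omega : 1 < n))
  have hL : Real.log n = Real.exp u := by rw [hudef, Real.exp_log hL0]
  have hD := divisor_bound' n hn u hudef (by linarith)
  have hK := K_bound n (by omega)
  refine lt_of_le_of_lt hK ?_
  apply Real.exp_lt_exp.mpr
  have h1 : (n : ℝ) ^ ((3 + ε) / u) = Real.exp (Real.exp u * ((3 + ε) / u)) := by
    rw [Real.rpow_def_of_pos hn0, hL]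
  rw [h1]
  have h150 : (150 : ℝ) ≤ Real.exp 6 := by
    have h := Real.pow_div_factorial_le_exp (6 : ℝ) (by norm_num) 6
    have h2 := Real.pow_div_factorial_le_exp (6 : ℝ) (by norm_num) 5
    have h3 : (2.7 : ℝ) ≤ Real.exp 1 := by linarith [Real.exp_one_gt_d9]
    have h4 : Real.exp 6 = (Real.exp 1) ^ 6 := by
      rw [← Real.exp_nat_mul]; norm_num
    rw [h4]
    calc (150 : ℝ) ≤ (2.7 : ℝ) ^ 6 := by norm_num
      _ ≤ (Real.exp 1) ^ 6 := pow_le_pow_left₀ (by norm_num) h3 6
  have hLL : (Real.log n) ^ 2 = Real.exp (2 * u) := by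
    rw [hL, ← Real.exp_nat_mul]; norm_num
  calc 150 * (n.divisors.card : ℝ) * (Real.log n) ^ 2
      ≤ Real.exp 6 * Real.exp (3 / 2 * (Real.exp u / u) + (Real.exp (u / 2) + 1) * (u + 2)) *
          Real.exp (2 * u) := by
        rw [hLL]
        apply mul_le_mul_of_nonneg_right _ (Real.exp_pos _).le
        exact mul_le_mul h150 hD (Nat.cast_nonneg _) (Real.exp_pos _).le
    _ = Real.exp (6 + (3 / 2 * (Real.exp u / u) + (Real.exp (u / 2) + 1) * (u + 2)) + 2 * u) := by
        rw [← Real.exp_add, ← Real.exp_add]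
    _ ≤ Real.exp (3 * (Real.exp u / u)) := Real.exp_le_exp.mpr (final_ineq u hu)
    _ < Real.exp (Real.exp u * ((3 + ε) / u)) := by
        apply Real.exp_lt_exp.mpr
        have h5 : Real.exp u * ((3 + ε) / u) = (3 + ε) * (Real.exp u / u) := by ring
        rw [h5]
        apply mul_lt_mul_of_pos_right _ (div_pos (Real.exp_pos _) hu0)
        linarith

end Pool.Agent.S10107
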