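import Pool.Statements.S10122
import Pool.Agent.Helper379.Main1

set_option autoImplicit false
open N8bd1f7c7
open Finset
open Pool Pool.MP_1ac310_nt

namespace Pool.Agent.S10122

open Pool.Agent.Helper379 in
/-- There is n with 5 a(n) < pi(n): take n = Q^70, where Q is a product of primes 3 mod 4
whose reciprocals have a large sum, and bound a(n) by the Selberg sieve of level Q^10. -/
theorem exists_small : ∃ n : ℕ, 1 < n ∧ 5 * a n < Nat.primeCounting n := by
  obtain ⟨T, hT, hK⟩ := Div3.exists_finset_three_mod_four 2400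
  set Q : ℕ := ∏ p ∈ T, p with hQ
  have hTne : T.Nonempty := by
    rw [Finset.nonempty_iff_ne_empty]
    rintro rfl
    simp at hK
    norm_num at hK
  have hQpos : 0 < Q := Finset.prod_pos (fun p hp => (hT p hp).1.pos)
  have hdvdQ : ∀ p ∈ T, p ∣ Q := fun p hp => Finset.dvd_prod_of_mem _ hp
  have hleQ : ∀ p ∈ T, p ≤ Q := fun p hp => Nat.le_of_dvd hQpos (hdvdQ p hp)
  have hQ3 : 3 ≤ Q := by
    obtain ⟨p, hp⟩ := hTne
    have h1 := (hT p hp).1.two_le
    have h2 := (hT p hp).2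
    have h3 := hleQ p hp
    omega
  set z : ℕ := Q ^ 10 with hz
  set n : ℕ := Q ^ 70 with hn
  have hnz : n = z ^ 7 := by rw [hn, hz, ← pow_mul]
  have hz1 : 1 ≤ z := Nat.one_le_pow _ _ hQpos
  have hn1 : 1 < n := Nat.one_lt_pow (by norm_num) (by omega)
  refine ⟨n, hn1, ?_⟩
  have hTn : ∀ p ∈ T, p ∣ n := fun p hp => (hdvdQ p hp).trans (dvd_pow_self Q (by norm_num))
  have hTz : ∀ p ∈ T, p ≤ z := fun p hp => (hleQ p hp).trans (Nat.le_self_pow (by norm_num) Q)
  have hcop : ∀ p, p.Prime → p % 4 = 1 → ¬ p ∣ n := by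
    intro p hp h4 hd
    have h1 : p ∣ Q := hp.dvd_of_dvd_pow hd
    rw [hQ, Prime.dvd_finsetProd_iff hp.prime] at h1
    obtain ⟨q, hq, hpq⟩ := h1
    have h2 := (Nat.prime_dvd_prime_iff_eq hp (hT q hq).1).mp hpq
    have h3 := (hT q hq).2
    omega
  have hzn : z < n ^ 2 := by
    have h1 : z ≤ n := Nat.pow_le_pow_right hQpos (by norm_num)
    nlinarith
  have h1 := Main1.sifted_ge (n := n) (z := z) hT hTz hzn
  have h2 := Sel.selberg_bound (s := Main1.sv n T z hT) (z := z) hz1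
    (Main1.nu_inv_le n hT) (Main1.rem_le hT hTn hcop)
  have h3 := Main1.GS_ge (z := z) n hT (Q ^ 9)
    (fun q hq => by
      calc q * Q ^ 9 ≤ Q * Q ^ 9 := Nat.mul_le_mul_right _ (hleQ q hq)
        _ = z := by rw [hz]; ring)
    (Nat.pow_le_pow_right hQpos (by norm_num))
  have h4 := Chebyshev.pi_ge n
  change (a n : ℝ) ≤ _ at h1
  have htm : (Main1.sv n T z hT).totalMass = n := rfl
  rw [htm] at h2
  -- real variables
  set G := Sel.GS (Main1.sv n T z hT) z with hG
  set q : ℝ := (Q : ℝ) with hq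
  have hq3 : (3:ℝ) ≤ q := by rw [hq]; exact_mod_cast hQ3
  set L : ℝ := Real.log q with hL
  have hL1 : 1 ≤ L := by
    rw [hL, Real.le_log_iff_exp_le (by linarith)]
    have := Real.exp_one_lt_d9
    linarith
  have hLq : L ≤ q := by
    have := Real.log_le_sub_one_of_pos (show (0:ℝ) < q by linarith)
    linarith
  have hnR : (n : ℝ) = q ^ 70 := by rw [hn, hq]; push_cast; rfl
  have hzR : (z : ℝ) = q ^ 10 := by rw [hz, hq]; push_cast; rfl
  have hlogn : Real.log n = 70 * L := by rw [hnR, Real.log_pow]; push_cast; rfl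
  have hGge : 3600 * L ≤ G := by
    have h5 : 9 * L ≤ Real.log (((Q ^ 9 : ℕ) : ℝ) + 1) := by
      have h6 : Real.log (q ^ 9) ≤ Real.log (((Q ^ 9 : ℕ) : ℝ) + 1) := by
        apply Real.log_le_log (by positivity)
        push_cast
        linarith
      rw [Real.log_pow] at h6
      push_cast at h6 ⊢
      linarith
    have h7 : (2400:ℝ) * (9 * L / 6) ≤ (∑ q ∈ T, (1:ℝ) / q) * (Real.log (((Q ^ 9 : ℕ) : ℝ) + 1) / 6) := by
      apply mul_le_mul hK (by linarith) (by linarith) (by linarith)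
    linarith
  have hGpos : 0 < G := by linarith
  have hnpos : (0:ℝ) < n := by rw [hnR]; positivity
  have ha : (a n : ℝ) ≤ n / (3600 * L) + q ^ 60 := by
    have h5 : (n:ℝ) / G ≤ n / (3600 * L) := div_le_div_of_nonneg_left hnpos.le (by linarith) hGge
    have h6 : (z:ℝ) ^ 6 = q ^ 60 := by rw [hzR, ← pow_mul]
    rw [h6] at h2
    linarith
  have hq60 : 3500 * (L * q ^ 60) ≤ n := by
    rw [hnR]
    have h5 : (3500:ℝ) ≤ q ^ 9 := by
      calc (3500:ℝ) ≤ 3 ^ 9 := by norm_num
        _ ≤ q ^ 9 := by gcongr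
    calc 3500 * (L * q ^ 60) ≤ q ^ 9 * (q * q ^ 60) := by gcongr
      _ = q ^ 70 := by ring
  have hlogn1 : 10 * Real.log ((n:ℝ) + 1) ≤ n := by
    have h5 : Real.log ((n:ℝ) + 1) ≤ 1 + 70 * L := by
      have h6 : Real.log ((n:ℝ) + 1) ≤ Real.log (2 * n) := by
        apply Real.log_le_log (by linarith)
        have : (1:ℝ) ≤ n := by exact_mod_cast hn1.le
        linarith
      rw [Real.log_mul (by norm_num) hnpos.ne', hlogn] at h6
      have := Real.log_two_lt_d9
      linarith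
    have h6 : L ≤ L * q ^ 60 := by
      have : (1:ℝ) ≤ q ^ 60 := one_le_pow₀ (by linarith)
      nlinarith
    nlinarith
  have hfin : (5 * (a n : ℝ)) * (70 * L) < n * Real.log 2 - Real.log (n + 1) := by
    have h5 : (5 * (a n : ℝ)) * (70 * L) ≤ 5 * (n / (3600 * L) + q ^ 60) * (70 * L) := by
      have : (0:ℝ) ≤ 70 * L := by linarith
      nlinarith
    have h6 : 5 * (n / (3600 * L) + q ^ 60) * (70 * L) = (350/3600) * n + 350 * (L * q ^ 60) := by
      field_simp
      ring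
    have h7 := Real.log_two_gt_d9
    nlinarith
  have h8 : 5 * (a n : ℝ) < (n * Real.log 2 - Real.log (n + 1)) / Real.log n := by
    rw [hlogn, lt_div_iff₀ (by linarith)]
    exact hfin
  have h9 : 5 * (a n : ℝ) < (Nat.primeCounting n : ℝ) := lt_of_lt_of_le h8 h4
  exact_mod_cast h9

/-- The negation of the preceding statement: For all n>1, 5·#{s∈[1,n) : n²+s² prime} ≥ π(n), and π(2)=a(2), π(10)=a(10), 5·a(12)=π(12). -/
theorem result :
    ¬ ((∀ n : ℕ, 1 < n → 5 * a n ≥ Nat.primeCounting n) ∧ Nat.primeCounting 2 = a 2 ∧ Nat.primeCounting 10 = a 10 ∧ 5 * a 12 = Nat.primeCounting 12) := by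
  rintro ⟨h, _⟩
  obtain ⟨n, hn1, hn2⟩ := exists_small
  exact absurd (h n hn1) (not_le.mpr hn2)

end Pool.Agent.S10122
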