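import Pool.Statements.S10132

set_option autoImplicit false
open Pool Pool.MP_1bbd34_nt

namespace Pool.Agent.S10132

/-- The negation of the preceding statement: For every n with consecutive primes p < n ≤ q, some prime dividing n(n+1) exceeds min(n − p, q − n); equivalently, the largest prime factor of n(n+1) exceeds that minimum. -/
theorem result :
    ¬ (∀ n p q : ℕ, p.Prime → q.Prime → p < n → n ≤ q →
      (∀ r : ℕ, r.Prime → p < r → r < q → False) →
      ∃ r : ℕ, r.Prime ∧ r ∣ n * (n + 1) ∧ min (n - p) (q - n) < r) := by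
  intro h
  have hp : Nat.Prime 11859187 := by norm_num
  have hq : Nat.Prime 11859233 := by norm_num
  have hgap : ∀ r : ℕ, r.Prime → 11859187 < r → r < 11859233 → False := by
    intro r hr h1 h2
    interval_cases r <;> revert hr <;> norm_num
  obtain ⟨r, hr, hdvd, hlt⟩ :=
    h 11859210 11859187 11859233 hp hq (by norm_num) (by norm_num) hgap
  have hfac : (11859210 * (11859210 + 1) : ℕ) = 2 * 3 ^ 4 * 5 * 11 ^ 4 * (7 * 13 * 19 ^ 4) := by
    norm_num
  rw [hfac] at hdvd
  have hmin : min (11859210 - 11859187) (11859233 - 11859210) = 23 := by norm_num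
  rw [hmin] at hlt
  have key : r = 2 ∨ r = 3 ∨ r = 5 ∨ r = 11 ∨ r = 7 ∨ r = 13 ∨ r = 19 := by
    have e2 : Nat.Prime 2 := by norm_num
    have e3 : Nat.Prime 3 := by norm_num
    have e5 : Nat.Prime 5 := by norm_num
    have e7 : Nat.Prime 7 := by norm_num
    have e11 : Nat.Prime 11 := by norm_num
    have e13 : Nat.Prime 13 := by norm_num
    have e19 : Nat.Prime 19 := by norm_num
    simp only [hr.dvd_mul] at hdvd
    rcases hdvd with (((h | h) | h) | h) | ((h | h) | h)
    · left; exact (Nat.prime_dvd_prime_iff_eq hr e2).1 h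
    · right; left; exact (Nat.prime_dvd_prime_iff_eq hr e3).1 (hr.dvd_of_dvd_pow h)
    · right; right; left; exact (Nat.prime_dvd_prime_iff_eq hr e5).1 h
    · right; right; right; left; exact (Nat.prime_dvd_prime_iff_eq hr e11).1 (hr.dvd_of_dvd_pow h)
    · right; right; right; right; left; exact (Nat.prime_dvd_prime_iff_eq hr e7).1 h
    · right; right; right; right; right; left; exact (Nat.prime_dvd_prime_iff_eq hr e13).1 h
    · right; right; right; right; right; right
      exact (Nat.prime_dvd_prime_iff_eq hr e19).1 (hr.dvd_of_dvd_pow h)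
  omega

end Pool.Agent.S10132
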