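import Pool.Statements.S10141
-- import your own Pool.Agent.* helpers here

set_option autoImplicit false
open N41f07a28
open Asymptotics Filter
open Pool Pool.MP_1d29c3_nt

namespace Pool.Agent.S10141

/-- Primes have density zero. -/
theorem primeCounting_le_eps {δ : ℝ} (hδ : 0 < δ) :
    ∃ Y : ℕ, ∀ n : ℕ, Y ≤ n → (Nat.primeCounting n : ℝ) ≤ δ * n := by
  have h1 := Chebyshev.eventually_primeCounting_le (ε := 1) one_pos
  have h2 : ∀ᶠ x : ℝ in Filter.atTop, (Real.log 4 + 1) / δ ≤ Real.log x :=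
    Real.tendsto_log_atTop.eventually_ge_atTop _
  have h3 : ∀ᶠ x : ℝ in Filter.atTop, (Nat.primeCounting ⌊x⌋₊ : ℝ) ≤ δ * x := by
    filter_upwards [h1, h2, Filter.eventually_gt_atTop (1:ℝ)] with x hx1 hx2 hx3
    refine hx1.trans ?_
    have hlog : 0 < Real.log x := Real.log_pos hx3
    rw [div_le_iff₀ hδ] at hx2
    rw [div_le_iff₀ hlog]
    nlinarith
  obtain ⟨X, hX⟩ := Filter.eventually_atTop.mp h3
  refine ⟨⌈X⌉₊, fun n hn => ?_⟩
  have := hX n (Nat.ceil_le.mp hn)
  simpa using this

/-- Counting the solutions of a linear congruence. -/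
theorem card_congr_le {q r a m T : ℕ} (hm : 0 < m) (hq : Nat.Coprime m q) :
    ((Finset.range T).filter fun t => q * t + r ≡ a [MOD m]).card ≤ T / m + 1 := by
  rcases (((Finset.range T).filter fun t => q * t + r ≡ a [MOD m])).eq_empty_or_nonempty with h | ⟨t₀, h₀⟩
  · rw [h]; simp
  · have hsub : ((Finset.range T).filter fun t => q * t + r ≡ a [MOD m]) ⊆
        (Finset.range T).filter fun t => t ≡ t₀ [MOD m] := by
      intro t ht
      simp only [Finset.mem_filter, Finset.mem_range] at ht h₀ ⊢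
      refine ⟨ht.1, ?_⟩
      have h1 : q * t + r ≡ q * t₀ + r [MOD m] := ht.2.trans h₀.2.symm
      exact Nat.ModEq.cancel_left_of_coprime hq (Nat.ModEq.add_right_cancel' r h1)
    refine (Finset.card_le_card hsub).trans ?_
    have h2 : ((Finset.range T).filter fun t => t ≡ t₀ [MOD m]).card
        = Nat.count (fun t => t ≡ t₀ [MOD m]) T := by
      rw [Nat.count_eq_card_filter_range]
    rw [h2, Nat.count_modEq_card T hm]
    split_ifs <;> omega

/-- The number of primes dividing `b`, all of which exceed `Z`, is at most `log b / log Z`. -/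
theorem card_primeFactors_mul_log_le {b Z : ℕ} (hZ : 1 ≤ Z) (hb : b ≠ 0)
    (h : ∀ p, p.Prime → p ∣ b → Z < p) :
    (b.primeFactors.card : ℝ) * Real.log Z ≤ Real.log b := by
  have h1 : Z ^ b.primeFactors.card ≤ b := by
    calc Z ^ b.primeFactors.card ≤ ∏ p ∈ b.primeFactors, p := by
          refine Finset.pow_card_le_prod _ _ _ fun p hp => ?_
          exact (h p (Nat.prime_of_mem_primeFactors hp) (Nat.dvd_of_mem_primeFactors hp)).le
      _ ≤ b := Nat.le_of_dvd (Nat.pos_of_ne_zero hb) (Nat.prod_primeFactors_dvd b)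
  have h2 : ((Z : ℝ) ^ b.primeFactors.card) ≤ b := by exact_mod_cast h1
  have hZ' : (0 : ℝ) < Z := by exact_mod_cast hZ
  have h3 := Real.log_le_log (by positivity) h2
  rwa [Real.log_pow] at h3

/-- The construction of one translation. -/
theorem stage (n : ℕ) (hn : 1 ≤ n) : ∃ t : ℕ, 1 ≤ t ∧ ∃ F : Finset ℕ,
    (∀ a, 1 ≤ a → a ≤ n → a ∣ t ∧ ∀ p, p.Prime → p ∣ t / a + 1 → p ∈ F) ∧
    (∀ p ∈ F, n < p) ∧
    ∀ x : ℕ, (∃ p ∈ F, p ≤ x) →
      (F.card : ℝ) ≤ (1 / 16) * (1 / 2) ^ n * (x / Real.log x) := by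
  set K : ℕ := 32 * n * 2 ^ n with hK
  have hKpos : 0 < K := by positivity
  have hK32 : 32 ≤ K := by
    have h2 : 1 ≤ 2 ^ n := Nat.one_le_two_pow
    have : 1 * 1 ≤ n * 2 ^ n := Nat.mul_le_mul hn h2
    rw [hK, mul_assoc]; omega
  have hKR : (0 : ℝ) < K := by exact_mod_cast hKpos
  have hnR : (0 : ℝ) < n := by exact_mod_cast hn
  obtain ⟨Y₁, hY₁⟩ := primeCounting_le_eps (δ := 1 / (4 * n * K)) (by positivity)
  -- log estimate
  have hlog : ∀ᶠ y : ℝ in atTop, y * Real.log 4 + Real.log y + Real.log (2 * n.factorial) ≤ 2 * y := by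
    have hlog4 : Real.log 4 < 1.4 := by
      have : Real.log 4 = 2 * Real.log 2 := by
        rw [show (4:ℝ) = 2 ^ 2 by norm_num, Real.log_pow]; norm_num
      rw [this]; have := Real.log_two_lt_d9; linarith
    have h1 : ∀ᶠ y : ℝ in atTop, ‖Real.log y‖ ≤ 0.1 * ‖y‖ := Real.isLittleO_log_id_atTop.bound (by norm_num)
    have h2 : ∀ᶠ y : ℝ in atTop, 10 * Real.log (2 * n.factorial) ≤ y := eventually_ge_atTop _
    filter_upwards [h1, h2, eventually_ge_atTop (1:ℝ)] with y h1 h2 h3
    rw [Real.norm_of_nonneg (Real.log_nonneg h3), Real.norm_of_nonneg (by linarith)] at h1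
    nlinarith
  obtain ⟨Y₂, hY₂⟩ := Filter.eventually_atTop.mp hlog
  obtain ⟨Y, hYn, hYY₁, hYY₂⟩ : ∃ Y : ℕ, n ≤ Y ∧ Y₁ ≤ Y ∧ Y₂ ≤ Y :=
    ⟨n + Y₁ + ⌈Y₂⌉₊, by omega, by omega, by
      push_cast
      have := Nat.le_ceil Y₂
      have h1 : (0:ℝ) ≤ n := Nat.cast_nonneg _
      have h2 : (0:ℝ) ≤ Y₁ := Nat.cast_nonneg _
      linarith⟩
  have hY0 : 0 < Y := by omega
  have hYR : (0 : ℝ) < Y := by exact_mod_cast hY0
  have hYKY : Y ≤ K * Y := Nat.le_mul_of_pos_left Y hKpos
  set M : ℕ := n.factorial * primorial Y with hM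
  have hMpos : 0 < M := Nat.mul_pos (Nat.factorial_pos n) (primorial_pos Y)
  have haM : ∀ a, 1 ≤ a → a ≤ n → a ∣ M := fun a ha1 han =>
    (Nat.dvd_factorial ha1 han).mul_right _
  have hMa : ∀ a, 1 ≤ a → a ≤ n → ∀ p, p.Prime → (p ∣ M / a ∨ Y < p) := by
    intro a ha1 han p hp
    by_cases hpY : p ≤ Y
    · left
      obtain ⟨c, hc⟩ := Nat.dvd_factorial ha1 han
      have : M / a = c * primorial Y := by
        rw [hM, hc, mul_assoc]; exact Nat.mul_div_cancel_left _ ha1
      rw [this]
      exact ((hp.dvd_primorial_iff).mpr hpY).mul_left c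
    · right; omega
  have hcop : ∀ a, 1 ≤ a → a ≤ n → ∀ p, p.Prime → Y < p → Nat.Coprime p (M / a) := by
    intro a ha1 han p hp hpY
    rw [Nat.Prime.coprime_iff_not_dvd hp]
    intro h
    have h1 : p ∣ M := h.trans (Nat.div_dvd_of_dvd (haM a ha1 han))
    rcases (hp.dvd_mul).mp h1 with h2 | h2
    · have := (hp.dvd_factorial).mp h2; omega
    · have := (hp.dvd_primorial_iff).mp h2; omega
  -- sieve: choose the multiplier
  have hex : ∃ j, j < Y ∧ ∀ a, 1 ≤ a → a ≤ n → ∀ p, p.Prime → Y < p → p ≤ K * Y →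
      ¬ p ∣ (M / a) * j + (M / a + 1) := by
    by_contra hcon
    push Not at hcon
    set P := (Finset.Ioc Y (K * Y)).filter Nat.Prime with hP
    have hcover : Finset.range Y ⊆ (Finset.Icc 1 n).biUnion fun a => P.biUnion fun p =>
        (Finset.range Y).filter fun j => (M / a) * j + (M / a + 1) ≡ 0 [MOD p] := by
      intro j hj
      rw [Finset.mem_range] at hj
      obtain ⟨a, ha1, han, p, hp, hpY, hpK, hd⟩ := hcon j hj
      simp only [Finset.mem_biUnion, Finset.mem_Icc, Finset.mem_filter, Finset.mem_range, hP,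
        Finset.mem_Ioc]
      exact ⟨a, ⟨ha1, han⟩, p, ⟨⟨hpY, hpK⟩, hp⟩, hj, (Nat.modEq_zero_iff_dvd).mpr hd⟩
    have hcard : Y ≤ n * (P.card * 2) := by
      calc Y = (Finset.range Y).card := (Finset.card_range Y).symm
        _ ≤ _ := Finset.card_le_card hcover
        _ ≤ ∑ a ∈ Finset.Icc 1 n, (P.card * 2) := by
            refine Finset.card_biUnion_le.trans (Finset.sum_le_sum fun a ha => ?_)
            rw [Finset.mem_Icc] at ha
            calc _ ≤ ∑ p ∈ P, 2 := by
                  refine Finset.card_biUnion_le.trans (Finset.sum_le_sum fun p hp => ?_)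
                  simp only [hP, Finset.mem_filter, Finset.mem_Ioc] at hp
                  refine (card_congr_le hp.2.pos (hcop a ha.1 ha.2 p hp.2 hp.1.1)).trans ?_
                  rw [Nat.div_eq_of_lt hp.1.1]
                  norm_num
              _ = P.card * 2 := by rw [Finset.sum_const, smul_eq_mul]
        _ = n * (P.card * 2) := by rw [Finset.sum_const, smul_eq_mul, Nat.card_Icc]; simp
    have hPle : P.card ≤ Nat.primeCounting (K * Y) := by
      rw [← Nat.primesLE_card_eq_primeCounting]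
      refine Finset.card_le_card fun p hp => ?_
      simp only [hP, Finset.mem_filter, Finset.mem_Ioc] at hp
      exact Nat.mem_primesLE.mpr ⟨hp.1.2, hp.2⟩
    have h1 := hY₁ (K * Y) (by omega)
    have h2 : (Y : ℝ) ≤ n * (P.card * 2) := by exact_mod_cast hcard
    have h3 : (P.card : ℝ) ≤ Nat.primeCounting (K * Y) := by exact_mod_cast hPle
    have h4 : (n : ℝ) * (((1 / (4 * n * K)) * (K * Y : ℕ)) * 2) = Y / 2 := by
      push_cast
      field_simp
      norm_num
    have h5 : (n : ℝ) * (P.card * 2) ≤ n * (((1 / (4 * n * K)) * (K * Y : ℕ)) * 2) := by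
      gcongr
      exact h3.trans h1
    linarith
  obtain ⟨j, hjY, hj⟩ := hex
  set t : ℕ := M * (j + 1) with ht
  have htpos : 1 ≤ t := Nat.mul_pos hMpos (Nat.succ_pos j)
  have hta : ∀ a, 1 ≤ a → a ≤ n → t / a + 1 = (M / a) * j + (M / a + 1) := by
    intro a ha1 han
    have : t / a = M / a * (j + 1) := by
      rw [ht, mul_comm M, Nat.mul_div_assoc _ (haM a ha1 han), mul_comm]
    rw [this]; ring
  have hbig : ∀ a, 1 ≤ a → a ≤ n → ∀ p, p.Prime → p ∣ t / a + 1 → K * Y < p := by
    intro a ha1 han p hp hd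
    rcases hMa a ha1 han p hp with h | h
    · exfalso
      rw [hta a ha1 han] at hd
      have h1 : p ∣ (M / a) * j + M / a := dvd_add (h.mul_right j) h
      have h2 : p ∣ 1 := by
        rw [← add_assoc] at hd
        exact (Nat.dvd_add_right h1).mp hd
      exact hp.one_lt.ne' (Nat.dvd_one.mp h2)
    · by_contra hle
      push Not at hle
      rw [hta a ha1 han] at hd
      exact hj a ha1 han p hp h hle hd
  refine ⟨t, htpos, (Finset.Icc 1 n).biUnion fun a => (t / a + 1).primeFactors, ?_, ?_, ?_⟩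
  · intro a ha1 han
    refine ⟨(haM a ha1 han).mul_right _, fun p hp hd => ?_⟩
    simp only [Finset.mem_biUnion, Finset.mem_Icc]
    exact ⟨a, ⟨ha1, han⟩, Nat.mem_primeFactors.mpr ⟨hp, hd, Nat.succ_ne_zero _⟩⟩
  · intro p hp
    simp only [Finset.mem_biUnion, Finset.mem_Icc] at hp
    obtain ⟨a, ⟨ha1, han⟩, hpa⟩ := hp
    have := hbig a ha1 han p (Nat.prime_of_mem_primeFactors hpa) (Nat.dvd_of_mem_primeFactors hpa)
    omega
  · rintro x ⟨p, hp, hpx⟩
    simp only [Finset.mem_biUnion, Finset.mem_Icc] at hp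
    obtain ⟨a₀, ⟨ha₀1, ha₀n⟩, hpa₀⟩ := hp
    have hKYx : K * Y ≤ x := by
      have := hbig a₀ ha₀1 ha₀n p (Nat.prime_of_mem_primeFactors hpa₀)
        (Nat.dvd_of_mem_primeFactors hpa₀)
      omega
    have hKY32 : 32 ≤ K * Y := by
      calc 32 = 32 * 1 := by norm_num
        _ ≤ K * Y := Nat.mul_le_mul hK32 hY0
    have hKY32R : (32 : ℝ) ≤ (K * Y : ℕ) := by exact_mod_cast hKY32
    have hlogKY : 0 < Real.log (K * Y : ℕ) := Real.log_pos (by linarith)
    -- size of t
    have ht_le : (t : ℝ) + 1 ≤ 2 * n.factorial * Y * 4 ^ Y := by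
      have h1 : M ≤ n.factorial * 4 ^ Y := Nat.mul_le_mul_left _ (primorial_le_four_pow Y)
      have h2 : t ≤ n.factorial * 4 ^ Y * Y := Nat.mul_le_mul h1 (by omega)
      have h3 : 1 ≤ t := htpos
      have h4 : t + 1 ≤ 2 * (n.factorial * 4 ^ Y * Y) := by omega
      have h5 : ((t + 1 : ℕ) : ℝ) ≤ ((2 * (n.factorial * 4 ^ Y * Y) : ℕ) : ℝ) := by exact_mod_cast h4
      push_cast at h5
      linarith
    have hlogt : Real.log ((t : ℝ) + 1) ≤ 2 * Y := by
      have hf : (0 : ℝ) < n.factorial := by exact_mod_cast Nat.factorial_pos n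
      calc Real.log ((t : ℝ) + 1) ≤ Real.log (2 * n.factorial * Y * 4 ^ Y) :=
            Real.log_le_log (by positivity) ht_le
        _ = Y * Real.log 4 + Real.log Y + Real.log (2 * n.factorial) := by
            rw [Real.log_mul (by positivity) (by positivity), Real.log_mul (by positivity) (by positivity),
              Real.log_pow]
            ring
        _ ≤ 2 * Y := hY₂ Y hYY₂
    have hcardF : (((Finset.Icc 1 n).biUnion fun a => (t / a + 1).primeFactors).card : ℝ) *
        Real.log (K * Y : ℕ) ≤ n * (2 * Y) := by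
      calc (((Finset.Icc 1 n).biUnion fun a => (t / a + 1).primeFactors).card : ℝ) *
            Real.log (K * Y : ℕ)
          ≤ (∑ a ∈ Finset.Icc 1 n, ((t / a + 1).primeFactors.card : ℝ)) * Real.log (K * Y : ℕ) := by
            gcongr
            exact_mod_cast Finset.card_biUnion_le
        _ = ∑ a ∈ Finset.Icc 1 n, ((t / a + 1).primeFactors.card : ℝ) * Real.log (K * Y : ℕ) := by
            rw [Finset.sum_mul]
        _ ≤ ∑ a ∈ Finset.Icc 1 n, (2 * Y : ℝ) := by
            refine Finset.sum_le_sum fun a ha => ?_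
            rw [Finset.mem_Icc] at ha
            refine (card_primeFactors_mul_log_le (by omega) (Nat.succ_ne_zero _)
              (hbig a ha.1 ha.2)).trans ?_
            refine le_trans ?_ hlogt
            refine Real.log_le_log (by positivity) ?_
            push_cast
            have : ((t / a : ℕ) : ℝ) ≤ t := by exact_mod_cast Nat.div_le_self t a
            linarith
        _ = n * (2 * Y) := by
            rw [Finset.sum_const, nsmul_eq_mul, Nat.card_Icc]; simp
    -- monotonicity of x / log x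
    have hmono : ((K * Y : ℕ) : ℝ) / Real.log (K * Y : ℕ) ≤ x / Real.log x := by
      have hxR : ((K * Y : ℕ) : ℝ) ≤ x := by exact_mod_cast hKYx
      have he : Real.exp 1 ≤ ((K * Y : ℕ) : ℝ) := by
        have := Real.exp_one_lt_d9; linarith
      have hanti := Real.log_div_self_antitoneOn (Set.mem_Ici.mpr he)
        (Set.mem_Ici.mpr (he.trans hxR)) hxR
      have hlogx : 0 < Real.log x := Real.log_pos (by linarith)
      have hxpos : (0 : ℝ) < x := by linarith
      have hKYpos : (0 : ℝ) < (K * Y : ℕ) := by linarith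
      simp only at hanti
      rw [div_le_div_iff₀ hxpos hKYpos] at hanti
      rw [div_le_div_iff₀ hlogKY hlogx]
      linarith
    calc (((Finset.Icc 1 n).biUnion fun a => (t / a + 1).primeFactors).card : ℝ)
        ≤ n * (2 * Y) / Real.log (K * Y : ℕ) := by rwa [le_div_iff₀ hlogKY]
      _ = (2 * n / K) * (((K * Y : ℕ) : ℝ) / Real.log (K * Y : ℕ)) := by
          push_cast
          field_simp
      _ ≤ (2 * n / K) * (x / Real.log x) := by gcongr
      _ = (1 / 16) * (1 / 2) ^ n * (x / Real.log x) := by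
          congr 1
          rw [hK]
          push_cast
          rw [one_div, one_div, inv_pow]
          field_simp
          norm_num

/-- At least half of the primes up to `x` have index of a given parity. -/
theorem half_primes (x r : ℕ) (hr : r < 2) : Nat.primeCounting x / 2 ≤
    ((Nat.primesLE x).filter fun p => Nat.count Nat.Prime p % 2 = r).card := by
  have hinf : (Set.ofPred Nat.Prime).Infinite := Nat.infinite_setOfPred_prime
  have hinj : Function.Injective fun j => Nat.nth Nat.Prime (2 * j + r) := by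
    intro i j hij
    have := Nat.nth_injective hinf hij
    omega
  calc Nat.primeCounting x / 2 = (Finset.range (Nat.primeCounting x / 2)).card := by simp
    _ = ((Finset.range (Nat.primeCounting x / 2)).image
          fun j => Nat.nth Nat.Prime (2 * j + r)).card := (Finset.card_image_of_injective _ hinj).symm
    _ ≤ _ := by
        refine Finset.card_le_card fun p hp => ?_
        simp only [Finset.mem_image, Finset.mem_range] at hp
        obtain ⟨j, hj, rfl⟩ := hp
        have hlt : 2 * j + r < Nat.count Nat.Prime (x + 1) := by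
          have : Nat.primeCounting x = Nat.count Nat.Prime (x + 1) := rfl
          omega
        simp only [Finset.mem_filter, Nat.mem_primesLE]
        refine ⟨⟨Nat.lt_succ_iff.mp (Nat.nth_lt_of_lt_count hlt), Nat.prime_nth_prime _⟩, ?_⟩
        rw [Nat.count_nth_of_infinite hinf]
        omega

theorem chebyshev_lower : ∀ᶠ x : ℕ in atTop,
    (1 / 2) * ((x : ℝ) / Real.log x) ≤ Nat.primeCounting x := by
  have h1 : ∀ᶠ y : ℝ in atTop, ‖Real.log y‖ ≤ 0.05 * ‖y‖ :=
    Real.isLittleO_log_id_atTop.bound (by norm_num)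
  have h2 : ∀ᶠ x : ℕ in atTop, ‖Real.log ((x:ℝ) + 1)‖ ≤ 0.05 * ‖((x:ℝ) + 1)‖ := by
    have ht : Tendsto (fun x : ℕ => (x : ℝ) + 1) atTop atTop :=
      tendsto_natCast_atTop_atTop.atTop_add tendsto_const_nhds
    exact ht.eventually h1
  filter_upwards [h2, eventually_ge_atTop 3] with x hx hx3
  have hx3R : (3 : ℝ) ≤ x := by exact_mod_cast hx3
  have hlogx : 0 < Real.log x := Real.log_pos (by linarith)
  rw [Real.norm_of_nonneg (Real.log_nonneg (by linarith)), Real.norm_of_nonneg (by linarith)] at hx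
  refine le_trans ?_ (Chebyshev.pi_ge x)
  rw [← mul_div_assoc]
  gcongr
  have := Real.log_two_gt_d9
  nlinarith

theorem result :
    ∃ P : Set ℕ, P ⊆ {p : ℕ | p.Prime} ∧ (fun x : ℕ ↦ (x : ℝ) / Real.log x) =O[atTop] (fun x ↦ ((P ∩ Set.Iic x).ncard : ℝ)) ∧ (fun x : ℕ ↦ (x : ℝ) / Real.log x) =O[atTop] (fun x ↦ ((({p : ℕ | p.Prime} \ P) ∩ Set.Iic x).ncard : ℝ)) ∧ HasTranslationProperty (composedOf P) := by
  have hst : ∀ n : ℕ, ∃ t : ℕ, 1 ≤ t ∧ ∃ F : Finset ℕ,
      (∀ a, 1 ≤ a → a ≤ n → a ∣ t ∧ ∀ p, p.Prime → p ∣ t / a + 1 → p ∈ F) ∧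
      (∀ p ∈ F, n < p) ∧
      ∀ x : ℕ, (∃ p ∈ F, p ≤ x) →
        (F.card : ℝ) ≤ (1 / 16) * (1 / 2) ^ n * (x / Real.log x) := by
    intro n
    rcases Nat.eq_zero_or_pos n with h | h
    · subst h
      exact ⟨1, le_rfl, ∅, fun a h1 h2 => by omega, by simp, by simp⟩
    · exact stage n h
  choose t ht F hF1 hF2 hF3 using hst
  set P : Set ℕ := {p | p.Prime ∧ (Nat.count Nat.Prime p % 2 = 0 ∨ ∃ n, p ∈ F n)} with hP
  -- the eventual lower bound for x / log x
  have hbig : ∀ᶠ x : ℕ in atTop, (16 : ℝ) ≤ (x : ℝ) / Real.log x := by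
    have h1 : ∀ᶠ y : ℝ in atTop, ‖Real.log y‖ ≤ (1 / 16) * ‖y‖ :=
      Real.isLittleO_log_id_atTop.bound (by norm_num)
    have h2 := tendsto_natCast_atTop_atTop (R := ℝ) |>.eventually h1
    filter_upwards [h2, eventually_ge_atTop 3] with x hx hx3
    have hx3R : (3 : ℝ) ≤ x := by exact_mod_cast hx3
    have hlogx : 0 < Real.log x := Real.log_pos (by linarith)
    rw [Real.norm_of_nonneg hlogx.le, Real.norm_of_nonneg (by linarith)] at hx
    rw [le_div_iff₀ hlogx]
    linarith
  refine ⟨P, fun p hp => hp.1, ?_, ?_, ?_⟩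
  · refine IsBigO.of_bound 16 ?_
    filter_upwards [hbig, chebyshev_lower] with x hx hc
    rw [Real.norm_of_nonneg (by linarith), Real.norm_of_nonneg (Nat.cast_nonneg _)]
    have h1 := half_primes x 0 (by norm_num)
    have h2 : ((Nat.primesLE x).filter fun p => Nat.count Nat.Prime p % 2 = 0).card ≤
        (P ∩ Set.Iic x).ncard := by
      rw [← Set.ncard_coe_finset]
      refine Set.ncard_le_ncard ?_ ((Set.finite_Iic x).subset Set.inter_subset_right)
      intro p hp
      simp only [Finset.coe_filter, Nat.mem_primesLE, Set.mem_ofPred_eq] at hp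
      exact ⟨⟨hp.1.2, Or.inl hp.2⟩, hp.1.1⟩
    have h3 : ((Nat.primeCounting x : ℝ) - 1) / 2 ≤ (P ∩ Set.Iic x).ncard := by
      have : Nat.primeCounting x ≤ 2 * (P ∩ Set.Iic x).ncard + 1 := by omega
      have h4 : (Nat.primeCounting x : ℝ) ≤ 2 * (P ∩ Set.Iic x).ncard + 1 := by exact_mod_cast this
      linarith
    linarith
  · refine IsBigO.of_bound 16 ?_
    filter_upwards [hbig, chebyshev_lower] with x hx hc
    rw [Real.norm_of_nonneg (by linarith), Real.norm_of_nonneg (Nat.cast_nonneg _)]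
    have h1 := half_primes x 1 (by norm_num)
    -- the exceptional primes up to x
    set E : Finset ℕ := (Finset.range (x + 1)).biUnion fun n =>
      if (∃ p ∈ F n, p ≤ x) then F n else ∅ with hE
    have hEcard : (E.card : ℝ) ≤ (1 / 8) * (x / Real.log x) := by
      calc (E.card : ℝ) ≤ ∑ n ∈ Finset.range (x + 1),
            ((if (∃ p ∈ F n, p ≤ x) then F n else ∅ : Finset ℕ).card : ℝ) := by
            exact_mod_cast Finset.card_biUnion_le
        _ ≤ ∑ n ∈ Finset.range (x + 1), (1 / 16) * (1 / 2) ^ n * (x / Real.log x) := by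
            refine Finset.sum_le_sum fun n _ => ?_
            split_ifs with h
            · exact hF3 n x h
            · simp only [Finset.card_empty, Nat.cast_zero]
              have : (0:ℝ) ≤ (x : ℝ) / Real.log x := by linarith
              positivity
        _ = (1 / 16) * (x / Real.log x) * ∑ n ∈ Finset.range (x + 1), ((1 : ℝ) / 2) ^ n := by
            rw [Finset.mul_sum]
            refine Finset.sum_congr rfl fun n _ => ?_
            ring
        _ ≤ (1 / 16) * (x / Real.log x) * 2 := by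
            have : ∑ n ∈ Finset.range (x + 1), ((1 : ℝ) / 2) ^ n ≤ 2 :=
              sum_geometric_two_le (x + 1)
            have h0 : (0:ℝ) ≤ (x : ℝ) / Real.log x := by linarith
            gcongr
        _ = (1 / 8) * (x / Real.log x) := by ring
    have h2 : ((Nat.primesLE x).filter fun p => Nat.count Nat.Prime p % 2 = 1).card ≤
        (({p : ℕ | p.Prime} \ P) ∩ Set.Iic x).ncard + E.card := by
      rw [← Set.ncard_coe_finset, ← Set.ncard_coe_finset E]
      refine le_trans (Set.ncard_le_ncard ?_ ?_) (Set.ncard_union_le _ _)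
      · intro p hp
        simp only [Finset.coe_filter, Nat.mem_primesLE, Set.mem_ofPred_eq] at hp
        by_cases hpF : ∃ n, p ∈ F n
        · right
          obtain ⟨n, hn⟩ := hpF
          have hnp := hF2 n p hn
          simp only [hE, Finset.coe_biUnion, Set.mem_iUnion, Finset.mem_coe, Finset.mem_range]
          refine ⟨n, by omega, ?_⟩
          rw [if_pos ⟨p, hn, hp.1.1⟩]
          exact hn
        · left
          refine ⟨⟨hp.1.2, fun hpP => ?_⟩, hp.1.1⟩
          rcases hpP.2 with h | h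
          · omega
          · exact hpF h
      · exact ((Set.finite_Iic x).subset Set.inter_subset_right).union (Finset.finite_toSet E)
    have h3 : ((Nat.primeCounting x : ℝ) - 1) / 2 ≤
        (({p : ℕ | p.Prime} \ P) ∩ Set.Iic x).ncard + E.card := by
      have : Nat.primeCounting x ≤
          2 * ((({p : ℕ | p.Prime} \ P) ∩ Set.Iic x).ncard + E.card) + 1 := by omega
      have h4 : (Nat.primeCounting x : ℝ) ≤
          2 * ((({p : ℕ | p.Prime} \ P) ∩ Set.Iic x).ncard + E.card) + 1 := by exact_mod_cast this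
      linarith
    linarith
  · intro n
    refine ⟨t n, ht n, fun a ha1 han => ?_⟩
    obtain ⟨hdvd, hp⟩ := hF1 n a ha1 han
    have hfac : a + t n = a * (t n / a + 1) := by
      rw [mul_add, Nat.mul_div_cancel' hdvd, mul_one, add_comm]
    constructor
    · rintro ⟨_, ha⟩
      refine ⟨by omega, fun p hpp hpd => ?_⟩
      rw [hfac] at hpd
      rcases (hpp.dvd_mul).mp hpd with h | h
      · exact ha p hpp h
      · exact ⟨hpp, Or.inr ⟨n, hp p hpp h⟩⟩
    · rintro ⟨_, ha⟩
      refine ⟨by omega, fun p hpp hpd => ha p hpp ?_⟩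
      rw [hfac]
      exact hpd.mul_right _

end Pool.Agent.S10141
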