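import Pool.Statements.S10185
import Pool.Agent.Helper155.Final

set_option autoImplicit false
open Pool Pool.MP_241678_nt

namespace Pool.Agent.S10185

/-- Every positive integer congruent to 0 or 1 mod 3 can be reached from 1 by repeatedly either tripling a number or sending an odd number 2n+1 to n. -/
theorem result :
    ∀ m : ℕ, 0 < m → (m % 3 = 0 ∨ m % 3 = 1) →
      Relation.ReflTransGen (fun a b : ℕ => b = 3 * a ∨ a = 2 * b + 1) 1 m := by
  intro m hm h
  exact Pool.Agent.Helper155.IZ.backward m hm h

end Pool.Agent.S10185
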