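import Pool.Statements.S10212
import Pool.Agent.Helper259.Orbit2Main

set_option autoImplicit false
open Filter Topology
open Pool Pool.MP_2ab887_nt

namespace Pool.Agent.S10212

/-- The negation of the preceding statement: For every function field K of a curve over an algebraically closed field, every degree d≥2 endomorphism of projective N-space over K and every K-point, the canonical height, the limit of height(f^n(P))/d^n, is a rational number. -/
theorem result :
    ¬ (∀ (k K : Type) [Field k] [IsAlgClosed k] [Field K] [Algebra (RatFunc k) K],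
      FunctionField k K →
      ∀ (N d : ℕ), 2 ≤ d →
      ∀ F : Fin (N + 1) → MvPolynomial (Fin (N + 1)) K,
        (∀ i, (F i).IsHomogeneous d) →
        (∀ y : Fin (N + 1) → AlgebraicClosure K,
            (∀ i, MvPolynomial.aeval y (F i) = 0) → y = 0) →
        ∀ x : Fin (N + 1) → K, x ≠ 0 →
          ∃ q : ℚ,
            Tendsto
              (fun n : ℕ =>
                (∑ᶠ v : {v : Valuation K (WithZero (Multiplicative ℤ)) //
                      Function.Surjective v ∧
                        ∀ c : k, c ≠ 0 → v (algebraMap (RatFunc k) K (RatFunc.C c)) = 1},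
                    ((sInf {m : ℤ | ∀ i,
                        v.1 (((fun (z : Fin (N + 1) → K) (j : Fin (N + 1)) =>
                                MvPolynomial.eval z (F j))^[n] x) i)
                          ≤ WithZero.coe (Multiplicative.ofAdd m)} : ℤ) : ℝ))
                  / (d : ℝ) ^ n)
              atTop (𝓝 (q : ℝ))) := by
  intro H
  have : Fact (Nat.Prime 2) := ⟨Nat.prime_two⟩
  let k := AlgebraicClosure (ZMod 2)
  have hff : FunctionField k (RatFunc k) := by
    show FiniteDimensional (RatFunc k) (RatFunc k)
    infer_instance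
  have : CharP (RatFunc k) 2 := by
    have : CharP k 2 := charP_of_injective_algebraMap (algebraMap (ZMod 2) k).injective 2
    exact charP_of_injective_algebraMap (algebraMap k (RatFunc k)).injective 2
  have : CharP (AlgebraicClosure (RatFunc k)) 2 :=
    charP_of_injective_algebraMap
      (algebraMap (RatFunc k) (AlgebraicClosure (RatFunc k))).injective 2
  obtain ⟨q, hq⟩ := H k (RatFunc k) hff 1 4 (by norm_num)
    (Pool.Agent.Helper259.Orbit2Main.FF (RatFunc.X : RatFunc k))
    (Pool.Agent.Helper259.Orbit2Main.FF_homog _)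
    (by
      intro y hy
      have h0 := hy 0
      have h1 := hy 1
      rw [(Pool.Agent.Helper259.Orbit2Main.FF_aeval (RatFunc.X : RatFunc k) y).1] at h0
      rw [(Pool.Agent.Helper259.Orbit2Main.FF_aeval (RatFunc.X : RatFunc k) y).2] at h1
      have hT : algebraMap (RatFunc k) (AlgebraicClosure (RatFunc k)) RatFunc.X ≠ 0 := by
        rw [Ne, FaithfulSMul.algebraMap_eq_zero_iff]
        exact RatFunc.X_ne_zero
      obtain ⟨hx, hz⟩ := Pool.Agent.Helper259.Orbit2Main.FF_nonsing _ hT _ _ h0 h1
      funext i
      fin_cases i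
      · exact hx
      · exact hz)
    (Pool.Agent.Helper259.Orbit2Main.xx (k := k) 0)
    (by
      intro h
      have h1 := congrFun h 1
      simp only [Pool.Agent.Helper259.Orbit2Main.xx, Matrix.cons_val_one, Pi.zero_apply] at h1
      exact Pool.Agent.Helper259.Orbit2Main.emb_ne_zero
        (mul_ne_zero (pow_ne_zero _ Polynomial.X_ne_zero)
          (Pool.Agent.Helper259.Orbit2.qq_ne_zero 0)) h1)
  have e4 : ((4 : ℕ) : ℝ) = 4 := by norm_num
  rw [e4] at hq
  refine Pool.Agent.Helper259.Orbit2Main.no_rational_limit (k := k) q ?_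
  have e : (fun n : ℕ =>
      (∑ᶠ v : {v : Valuation (RatFunc k) (WithZero (Multiplicative ℤ)) //
        Function.Surjective v ∧ ∀ c : k, c ≠ 0 → v (RatFunc.C c) = 1},
        ((Pool.Agent.Helper259.Orbit2Main.locHt v.1
          (Pool.Agent.Helper259.Orbit2Main.xx n) : ℤ) : ℝ)) / 4 ^ n) =
      fun n : ℕ =>
      (∑ᶠ v : {v : Valuation (RatFunc k) (WithZero (Multiplicative ℤ)) //
        Function.Surjective v ∧ ∀ c : k, c ≠ 0 → v (RatFunc.C c) = 1},
        ((Pool.Agent.Helper259.Orbit2Main.locHt v.1
          ((fun (z : Fin (1 + 1) → RatFunc k) (j : Fin (1 + 1)) =>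
            MvPolynomial.eval z
              (Pool.Agent.Helper259.Orbit2Main.FF (RatFunc.X : RatFunc k) j))^[n]
            (Pool.Agent.Helper259.Orbit2Main.xx (k := k) 0)) : ℤ) : ℝ)) / 4 ^ n := by
    funext n
    rw [Pool.Agent.Helper259.Orbit2Main.iterate_eq]
  rw [e]
  exact hq

end Pool.Agent.S10212
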