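import Pool.Statements.S10225
import Pool.Agent.Helper919.Final

set_option autoImplicit false
open Pool Pool.MP_2bfcc9_nt

namespace Pool.Agent.S10225

open Filter Topology in
theorem equiv_of_tendsto_div (u v : ℕ → ℝ) (C : ℝ) (hC : 0 < C) (hv : ∀ᶠ N in atTop, v N ≠ 0)
    (h : Tendsto (fun N => u N / v N) atTop (𝓝 C)) :
    Asymptotics.IsEquivalent Filter.atTop u (fun N => C * v N) := by
  rw [Asymptotics.isEquivalent_iff_tendsto_one]
  · have h2 := h.div_const C
    rw [div_self hC.ne'] at h2
    refine h2.congr fun N => ?_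
    simp only [Pi.div_apply]
    rw [div_div, mul_comm]
  · filter_upwards [hv] with N hN
    exact mul_ne_zero hC.ne' hN

/-- For every nonzero integer n there is C>0 such that the number of 3-element subsets of {1..N} where ab+n is a square for all distinct pairs is asymptotic to C·N·log N if n is a perfect square, and to C·N otherwise. -/
theorem result :
    ∀ n : ℤ, n ≠ 0 →
      ∃ C : ℝ, 0 < C ∧
        (IsSquare n →
          Asymptotics.IsEquivalent Filter.atTop
            (fun N : ℕ =>
              (({S : Finset ℕ | S ⊆ Finset.Icc 1 N ∧ S.card = 3 ∧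
                  ∀ a ∈ S, ∀ b ∈ S, a ≠ b → IsSquare ((a : ℤ) * (b : ℤ) + n)}.ncard : ℕ) : ℝ))
            (fun N : ℕ => C * (N : ℝ) * Real.log (N : ℝ))) ∧
        (¬ IsSquare n →
          Asymptotics.IsEquivalent Filter.atTop
            (fun N : ℕ =>
              (({S : Finset ℕ | S ⊆ Finset.Icc 1 N ∧ S.card = 3 ∧
                  ∀ a ∈ S, ∀ b ∈ S, a ≠ b → IsSquare ((a : ℤ) * (b : ℤ) + n)}.ncard : ℕ) : ℝ))
            (fun N : ℕ => C * (N : ℝ))) := by
  intro n hn
  simp_rw [Pool.Agent.Helper919.ncard_eq]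
  by_cases hsq : IsSquare n
  · obtain ⟨C, hC, h⟩ := Pool.Agent.Helper919.main_square n hn hsq
    refine ⟨C, hC, fun _ => ?_, fun h2 => absurd hsq h2⟩
    have hlog : Filter.Tendsto (fun N : ℕ => Real.log (N : ℝ)) Filter.atTop Filter.atTop :=
      Real.tendsto_log_atTop.comp tendsto_natCast_atTop_atTop
    have h1 : Filter.Tendsto (fun N : ℕ => (1 + Real.log (N : ℝ)) / Real.log (N : ℝ)) Filter.atTop (nhds 1) := by
      have h2 : Filter.Tendsto (fun N : ℕ => 1 / Real.log (N : ℝ) + 1) Filter.atTop (nhds (0 + 1)) :=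
        (tendsto_const_nhds.div_atTop hlog).add_const 1
      rw [zero_add] at h2
      refine h2.congr' ?_
      filter_upwards [hlog.eventually_gt_atTop 0] with N hN
      field_simp
    have h3 := h.mul h1
    rw [mul_one] at h3
    have h4 : Filter.Tendsto (fun N : ℕ => ((Pool.Agent.Helper919.tr n N).card : ℝ) / ((N : ℝ) * Real.log (N : ℝ)))
        Filter.atTop (nhds C) := by
      refine h3.congr' ?_
      filter_upwards [hlog.eventually_gt_atTop 0, Filter.eventually_ge_atTop 1] with N hN hN1
      have hN' : (0 : ℝ) < N := by exact_mod_cast hN1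
      have h5 : 0 < 1 + Real.log (N : ℝ) := by linarith
      field_simp
    have h5 := equiv_of_tendsto_div _ _ C hC ?_ h4
    · simpa only [mul_assoc] using h5
    · filter_upwards [hlog.eventually_gt_atTop 0, Filter.eventually_ge_atTop 1] with N hN hN1
      have hN' : (0 : ℝ) < N := by exact_mod_cast hN1
      positivity
  · obtain ⟨C, hC, h⟩ := Pool.Agent.Helper919.main_nonsquare n hn hsq
    refine ⟨C, hC, fun h2 => absurd h2 hsq, fun _ => ?_⟩
    refine equiv_of_tendsto_div _ _ C hC ?_ h
    filter_upwards [Filter.eventually_ge_atTop 1] with N hN1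
    have hN' : (0 : ℝ) < N := by exact_mod_cast hN1
    exact hN'.ne'

end Pool.Agent.S10225
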