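import Pool.Statements.S10228

set_option autoImplicit false
open Pool Pool.MP_2c24f1_nt

namespace Pool.Agent.S10228

/-- The scales. -/
def q (j : ℕ) : ℕ := 101 ^ (8 ^ j)

lemma q_ge (j : ℕ) : 101 ≤ q j := by
  unfold q
  calc 101 = 101 ^ 1 := by norm_num
    _ ≤ 101 ^ (8 ^ j) := Nat.pow_le_pow_right (by norm_num) (Nat.one_le_pow _ _ (by norm_num))

lemma q_succ (j : ℕ) : q (j + 1) = q j ^ 8 := by
  unfold q
  rw [← pow_mul, pow_succ]

lemma q_odd (j : ℕ) : Odd (q j) := by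
  unfold q
  exact Odd.pow (by decide)

lemma q_mono : Monotone q := by
  apply monotone_nat_of_le_succ
  intro n
  rw [q_succ]
  exact Nat.le_self_pow (by norm_num) _

lemma q_strict : StrictMono q := by
  apply strictMono_nat_of_lt_succ
  intro n
  rw [q_succ]
  have h := q_ge n
  calc q n = q n ^ 1 := by rw [pow_one]
    _ < q n ^ 8 := Nat.pow_lt_pow_right (by omega) (by norm_num)

lemma two_pow_le (j : ℕ) : 2 ^ (8 ^ j) ≤ q j := by
  unfold q
  exact Nat.pow_le_pow_left (by norm_num) _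

lemma lin_le (j : ℕ) : 4 * 8 ^ (j + 1) ≤ q j := by
  have h : ∀ m : ℕ, 1 ≤ m → 32 * m ≤ 101 ^ m := by
    intro m hm
    induction m, hm using Nat.le_induction with
    | base => norm_num
    | succ k hk ih => rw [pow_succ]; omega
  have := h (8 ^ j) (Nat.one_le_pow _ _ (by norm_num))
  unfold q
  rw [pow_succ]
  omega

lemma pows (Q : ℕ) (hQ : 101 ≤ Q) :
    101 * Q ≤ Q ^ 2 ∧ 101 * Q ^ 2 ≤ Q ^ 3 ∧ 101 * Q ^ 3 ≤ Q ^ 4 ∧ 101 * Q ^ 4 ≤ Q ^ 5 ∧
      101 * Q ^ 5 ≤ Q ^ 6 := by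
  refine ⟨?_, ?_, ?_, ?_, ?_⟩
  · rw [pow_two]; exact Nat.mul_le_mul_right _ hQ
  · rw [pow_succ Q 2, mul_comm (Q ^ 2)]; exact Nat.mul_le_mul_right _ hQ
  · rw [pow_succ Q 3, mul_comm (Q ^ 3)]; exact Nat.mul_le_mul_right _ hQ
  · rw [pow_succ Q 4, mul_comm (Q ^ 4)]; exact Nat.mul_le_mul_right _ hQ
  · rw [pow_succ Q 5, mul_comm (Q ^ 5)]; exact Nat.mul_le_mul_right _ hQ

/-- The residue set used in the middle zone: `0` is not a sum of two of its members modulo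
`Q ^ 2`, every nonzero residue is. -/
def PP (Q r : ℕ) : Prop := (Q + 2 ≤ r ∧ 2 * r + 1 ≤ Q ^ 2) ∨ r + Q + 1 = Q ^ 2

/-- The conditions at one scale. -/
def C (Q n : ℕ) : Prop :=
  (Q ^ 2 ≤ n → n < Q ^ 4 → Q < n % Q ^ 2) ∧
  (Q ^ 4 ≤ n → n + Q ^ 4 < Q ^ 5 → PP Q (n % Q ^ 2)) ∧
  (Q ^ 5 ≤ n + Q ^ 4 → n + Q ^ 2 ≤ Q ^ 5 + Q ^ 4 →
    n + Q ^ 2 < Q ^ 5 ∧ Q ^ 2 < n % Q ^ 2 + Q ∧ n % Q ^ 2 + Q / 2 ≤ Q ^ 2)

lemma C_of_small {Q n : ℕ} (hQ : 101 ≤ Q) (h : n < Q ^ 2) : C Q n := by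
  obtain ⟨h1, h2, h3, h4, h5⟩ := pows Q hQ
  refine ⟨?_, ?_, ?_⟩ <;> intros <;> omega

lemma C_of_large {Q n : ℕ} (hQ : 101 ≤ Q) (h : Q ^ 5 + Q ^ 4 < n + Q ^ 2) : C Q n := by
  obtain ⟨h1, h2, h3, h4, h5⟩ := pows Q hQ
  refine ⟨?_, ?_, ?_⟩ <;> intros <;> omega

/-- The explicit part of the set. -/
def A0 : Set ℕ := {n | ∀ j, C (q j) n}

lemma mem_A0 (i x : ℕ) (h1 : q i ^ 6 ≤ x) (h2 : x < q (i + 2) ^ 2) (hC : C (q (i + 1)) x) :
    x ∈ A0 := by
  intro j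
  rcases lt_trichotomy j (i + 1) with h | h | h
  · apply C_of_large (q_ge j)
    have hle : q j ≤ q i := q_mono (by omega)
    have h6 : q j ^ 6 ≤ q i ^ 6 := Nat.pow_le_pow_left hle 6
    obtain ⟨h1', h2', h3, h4, h5⟩ := pows (q j) (q_ge j)
    have := q_ge j
    omega
  · subst h; exact hC
  · apply C_of_small (q_ge j)
    have hle : q (i + 2) ≤ q j := q_mono (by omega)
    have h6 : q (i + 2) ^ 2 ≤ q j ^ 2 := Nat.pow_le_pow_left hle 2
    omega

lemma full (i x : ℕ) (h1 : q i ^ 6 ≤ x) (h2 : x < q (i + 1) ^ 2) : x ∈ A0 := by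
  apply mem_A0 i x h1 _ (C_of_small (q_ge _) h2)
  have h6 : q (i + 1) ^ 2 ≤ q (i + 2) ^ 2 := Nat.pow_le_pow_left (q_mono (by omega)) 2
  omega

lemma pQ (i : ℕ) : 10201 * q i ^ 6 ≤ q (i + 1) := by
  have h := q_ge i
  have h2 : 101 * 101 ≤ q i * q i := Nat.mul_le_mul h h
  calc 10201 * q i ^ 6 = (101 * 101) * q i ^ 6 := by norm_num
    _ ≤ (q i * q i) * q i ^ 6 := Nat.mul_le_mul_right _ h2
    _ = q (i + 1) := by rw [q_succ]; ring

/-- Numbers that may be represented sparsely. -/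
def Sp (n : ℕ) : Prop := ∃ j t, t < q j ^ 2 ∧ n = q j ^ 5 + q j ^ 2 * t

/-- the condition wanted from the index `a`. -/
def Good (g n a : ℕ) : Prop := g ≤ a ∧ 2 * a < n ∧ a ∈ A0 ∧ n - a ∈ A0

lemma count_a (i n : ℕ) (hn1 : q (i + 1) ≤ n) (hn2 : 2 * n < 3 * q (i + 1) ^ 2) :
    ∃ s d, 0 < d ∧ ∀ k, 4 * k < q (i + 1) → Good (q i ^ 6) n (s + d * k) := by
  have hp := q_ge i
  have hQ := q_ge (i + 1)
  have hpQ := pQ i
  obtain ⟨h1, h2, h3, h4, h5⟩ := pows (q (i + 1)) hQ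
  by_cases hn : n ≤ q (i + 1) ^ 2
  · refine ⟨q i ^ 6, 1, one_pos, ?_⟩
    intro k hk
    refine ⟨by omega, by omega, full i _ (by omega) (by omega), full i _ (by omega) ?_⟩
    have := pow_pos (show 0 < q i by omega) 6
    omega
  · refine ⟨n - q (i + 1) ^ 2 + q i ^ 6, 1, one_pos, ?_⟩
    intro k hk
    have := pow_pos (show 0 < q i by omega) 6
    refine ⟨by omega, by omega, full i _ (by omega) (by omega), full i _ (by omega) (by omega)⟩

lemma count_b (i n : ℕ) (hn1 : 3 * q (i + 1) ^ 2 ≤ 2 * n) (hn2 : n < 2 * q (i + 1) ^ 2) :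
    ∃ s d, 0 < d ∧ ∀ k, 4 * k < q (i + 1) → Good (q i ^ 6) n (s + d * k) := by
  have hp := q_ge i
  have hQ := q_ge (i + 1)
  have hpQ := pQ i
  obtain ⟨h1, h2, h3, h4, h5⟩ := pows (q (i + 1)) hQ
  refine ⟨q (i + 1), 1, one_pos, ?_⟩
  intro k hk
  have h8 : q (i + 1) ^ 8 = q (i + 2) := (q_succ (i + 1)).symm
  have h82 : 2 * q (i + 1) ^ 2 < q (i + 2) ^ 2 := by
    have : q (i + 1) ^ 3 ≤ q (i + 2) ^ 2 := by
      rw [← h8, ← pow_mul]
      exact Nat.pow_le_pow_right (by omega) (by norm_num)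
    omega
  refine ⟨by omega, by omega, full i _ (by omega) (by omega), ?_⟩
  apply mem_A0 i _ (by omega) (by omega)
  have hmod : (n - (q (i + 1) + 1 * k)) % q (i + 1) ^ 2 =
      n - (q (i + 1) + 1 * k) - q (i + 1) ^ 2 := by
    rw [Nat.mod_eq_sub_mod (by omega), Nat.mod_eq_of_lt (by omega)]
  refine ⟨?_, ?_, ?_⟩
  · intro _ _
    rw [hmod]; omega
  · intro _ _; omega
  · intro _ _; omega

lemma mulmod {M u r : ℕ} (h : r < M) : (M * u + r) % M = r := by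
  rw [Nat.mul_add_mod, Nat.mod_eq_of_lt h]

lemma big_bound (i : ℕ) : 2 * q (i + 1) ^ 6 < q (i + 2) ^ 2 := by
  have hQ := q_ge (i + 1)
  have h8 : q (i + 1) ^ 8 = q (i + 2) := (q_succ (i + 1)).symm
  rw [← h8, ← pow_mul]
  calc 2 * q (i + 1) ^ 6 < q (i + 1) * q (i + 1) ^ 6 :=
        Nat.mul_lt_mul_of_pos_right (by omega) (by positivity)
    _ = q (i + 1) ^ 7 := by ring
    _ ≤ q (i + 1) ^ (8 * 2) := Nat.pow_le_pow_right (by omega) (by norm_num)

lemma count_c (i n : ℕ) (hn1 : 2 * q (i + 1) ^ 2 ≤ n)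
    (hn2 : n + q (i + 1) ^ 4 ≤ q (i + 1) ^ 5) :
    ∃ s d, 0 < d ∧ ∀ k, 4 * k < q (i + 1) → Good (q i ^ 6) n (s + d * k) := by
  have hp := q_ge i
  have hQ := q_ge (i + 1)
  have hodd := q_odd (i + 1)
  have hpQ := pQ i
  have hbb := big_bound i
  obtain ⟨h1, h2, h3, h4, h5⟩ := pows (q (i + 1)) hQ
  set Q := q (i + 1) with hQdef
  have hM : Odd (Q ^ 2) := hodd.pow
  obtain ⟨H, hH⟩ := hM
  obtain ⟨u, ν, hν, hnu⟩ : ∃ u ν, ν < Q ^ 2 ∧ n = Q ^ 2 * u + ν :=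
    ⟨n / Q ^ 2, n % Q ^ 2, Nat.mod_lt _ (by positivity), (Nat.div_add_mod _ _).symm⟩
  have hu : 2 ≤ u := by
    by_contra hu
    have : u ≤ 1 := by omega
    have : Q ^ 2 * u ≤ Q ^ 2 * 1 := Nat.mul_le_mul_left _ this
    omega
  obtain ⟨v, rfl⟩ : ∃ v, u = v + 2 := ⟨u - 2, by omega⟩
  have key : ∀ a r u', 0 < a → a < Q ^ 2 → q i ^ 6 ≤ a → Q + 2 ≤ r → r ≤ H →
      n = a + (Q ^ 2 * (u' + 1) + r) → Good (q i ^ 6) n a := by
    intro a r u' ha0 ha hga hr1 hr2 hn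
    have hna : n - a = Q ^ 2 * (u' + 1) + r := by omega
    have hge : Q ^ 2 ≤ Q ^ 2 * (u' + 1) := Nat.le_mul_of_pos_right _ (by omega)
    refine ⟨hga, by omega, full i _ hga ha, ?_⟩
    rw [hna]
    have hmod : (Q ^ 2 * (u' + 1) + r) % Q ^ 2 = r := mulmod (by omega)
    refine mem_A0 i _ (by omega) (by omega) (show C Q _ from ?_)
    refine ⟨?_, ?_, ?_⟩
    · intro _ _
      rw [hmod]; omega
    · intro _ _
      rw [hmod]; left; omega
    · intro _ _; omega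
  by_cases c1 : 3 * Q ≤ ν
  · by_cases c2 : ν ≤ H
    · refine ⟨Q / 2, 1, one_pos, ?_⟩
      intro k hk
      exact key _ (ν - (Q / 2 + 1 * k)) (v + 1) (by omega) (by omega) (by omega) (by omega)
        (by omega) (by rw [hnu]; rw [show v + 1 + 1 = v + 2 by rfl]; omega)
    · refine ⟨ν - H + Q / 2, 1, one_pos, ?_⟩
      intro k hk
      exact key _ (H - Q / 2 - 1 * k) (v + 1) (by omega) (by omega) (by omega) (by omega)
        (by omega) (by rw [hnu]; rw [show v + 1 + 1 = v + 2 by rfl]; omega)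
  · refine ⟨ν + Q ^ 2 - H, 1, one_pos, ?_⟩
    intro k hk
    refine key _ (H - 1 * k) v (by omega) (by omega) (by omega) (by omega)
        (by omega) ?_
    rw [hnu]
    have e1 : Q ^ 2 * (v + 2) = Q ^ 2 * (v + 1) + Q ^ 2 := by ring
    omega

lemma count_d (i n : ℕ) (hn1 : q (i + 1) ^ 5 < n + q (i + 1) ^ 4)
    (hn2 : n < q (i + 1) ^ 5 + q (i + 1) ^ 4) (hn3 : n % q (i + 1) ^ 2 ≠ 0) :
    ∃ s d, 0 < d ∧ ∀ k, 4 * k < q (i + 1) → Good (q i ^ 6) n (s + d * k) := by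
  have hp := q_ge i
  have hQ := q_ge (i + 1)
  have hodd := q_odd (i + 1)
  have hpQ := pQ i
  have hbb := big_bound i
  obtain ⟨h1, h2, h3, h4, h5⟩ := pows (q (i + 1)) hQ
  set Q := q (i + 1) with hQdef
  have hM : Odd (Q ^ 2) := hodd.pow
  obtain ⟨H, hH⟩ := hM
  obtain ⟨u, ν, hν, hnu⟩ : ∃ u ν, ν < Q ^ 2 ∧ n = Q ^ 2 * u + ν :=
    ⟨n / Q ^ 2, n % Q ^ 2, Nat.mod_lt _ (by positivity), (Nat.div_add_mod _ _).symm⟩
  have hν0 : ν ≠ 0 := by
    rw [hnu, mulmod hν] at hn3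
    exact hn3
  have hmem : ∀ x r u', PP Q r → r < Q ^ 2 → x = Q ^ 2 * u' + r → Q ^ 4 ≤ x →
      x + Q ^ 4 < Q ^ 5 → x ∈ A0 := by
    intro x r u' hP hr hx hx1 hx2
    refine mem_A0 i _ (by omega) (by omega) (show C Q _ from ?_)
    refine ⟨?_, ?_, ?_⟩
    · intro _ _; omega
    · intro _ _
      rw [hx, mulmod hr]; exact hP
    · intro _ _; omega
  have e4 : Q ^ 4 = Q ^ 2 * Q ^ 2 := by ring
  -- the main claim for a pair of residues
  have key : ∀ r s : ℕ, PP Q r → PP Q s → r < Q ^ 2 → s < Q ^ 2 →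
      (r + s = ν ∨ r + s = ν + Q ^ 2) →
      ∃ s d, 0 < d ∧ ∀ k, 4 * k < Q → Good (q i ^ 6) n (s + d * k) := by
    intro r s hr hs hr1 hs1 hrs
    refine ⟨r + 2 * Q ^ 4, Q ^ 2, by positivity, ?_⟩
    intro k hk
    have hk1 : Q ^ 2 * k ≤ Q ^ 3 := by
      calc Q ^ 2 * k ≤ Q ^ 2 * Q := Nat.mul_le_mul_left _ (by omega)
        _ = Q ^ 3 := by ring
    have e1 : r + 2 * Q ^ 4 + Q ^ 2 * k = Q ^ 2 * (2 * Q ^ 2 + k) + r := by
      rw [e4]; ring
    refine ⟨by omega, by omega, ?_, ?_⟩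
    · exact hmem _ r (2 * Q ^ 2 + k) hr hr1 e1 (by omega) (by omega)
    · have hu : 2 * Q ^ 2 + k + 1 < u := by
        by_contra hcon
        have h6 : Q ^ 2 * u ≤ Q ^ 2 * (2 * Q ^ 2 + k + 1) := Nat.mul_le_mul_left _ (by omega)
        have h7 : Q ^ 2 * (2 * Q ^ 2 + k + 1) = 2 * Q ^ 4 + Q ^ 2 * k + Q ^ 2 := by
          rw [e4]; ring
        omega
      obtain ⟨v, hv⟩ : ∃ v, u = 2 * Q ^ 2 + k + 1 + v := ⟨u - (2 * Q ^ 2 + k + 1), by omega⟩
      have h8 : Q ^ 2 * u = 2 * Q ^ 4 + Q ^ 2 * k + Q ^ 2 + Q ^ 2 * v := by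
        rw [hv, e4]; ring
      have e9 : Q ^ 2 * (v + 1) = Q ^ 2 * v + Q ^ 2 := by ring
      rcases hrs with hrs | hrs
      · exact hmem _ s (v + 1) hs hs1 (by omega) (by omega) (by omega)
      · exact hmem _ s v hs hs1 (by omega) (by omega) (by omega)
  by_cases c1 : ν + Q + 1 ≤ H
  · exact key (ν + Q + 1) (Q ^ 2 - Q - 1) (Or.inl ⟨by omega, by omega⟩) (Or.inr (by omega))
      (by omega) (by omega) (Or.inr (by omega))
  · by_cases c2 : ν ≤ H + Q + 2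
    · exact key (Q + 2) (ν - Q - 2) (Or.inl ⟨by omega, by omega⟩)
        (Or.inl ⟨by omega, by omega⟩) (by omega) (by omega) (Or.inl (by omega))
    · exact key (ν - H) H (Or.inl ⟨by omega, by omega⟩)
        (Or.inl ⟨by omega, by omega⟩) (by omega) (by omega) (Or.inl (by omega))

lemma count_e (i n : ℕ) (hn1 : q (i + 1) ^ 5 < n + q (i + 1) ^ 4)
    (hn2 : n < q (i + 1) ^ 5) (hn3 : n % q (i + 1) ^ 2 = 0) :
    ∃ s d, 0 < d ∧ ∀ k, 4 * k < q (i + 1) → Good (q i ^ 6) n (s + d * k) := by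
  have hp := q_ge i
  have hQ := q_ge (i + 1)
  have hpQ := pQ i
  have hbb := big_bound i
  obtain ⟨h1, h2, h3, h4, h5⟩ := pows (q (i + 1)) hQ
  set Q := q (i + 1) with hQdef
  have e4 : Q ^ 4 = Q ^ 2 * Q ^ 2 := by ring
  have e5 : Q ^ 5 = Q ^ 2 * Q ^ 3 := by ring
  obtain ⟨u, hu⟩ : ∃ u, n = Q ^ 2 * u := Nat.dvd_of_mod_eq_zero hn3
  have hn4 : n + Q ^ 2 ≤ Q ^ 5 := by
    have : u < Q ^ 3 := by
      by_contra hcon
      have : Q ^ 2 * Q ^ 3 ≤ Q ^ 2 * u := Nat.mul_le_mul_left _ (by omega)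
      omega
    have : Q ^ 2 * (u + 1) ≤ Q ^ 2 * Q ^ 3 := Nat.mul_le_mul_left _ (by omega)
    have e : Q ^ 2 * (u + 1) = Q ^ 2 * u + Q ^ 2 := by ring
    omega
  have hn5 : Q ^ 5 + Q ^ 2 ≤ n + Q ^ 4 := by
    have : Q ^ 3 < u + Q ^ 2 := by
      by_contra hcon
      have : Q ^ 2 * (u + Q ^ 2) ≤ Q ^ 2 * Q ^ 3 := Nat.mul_le_mul_left _ (by omega)
      have e : Q ^ 2 * (u + Q ^ 2) = Q ^ 2 * u + Q ^ 2 * Q ^ 2 := by ring
      omega
    have : Q ^ 2 * (Q ^ 3 + 1) ≤ Q ^ 2 * (u + Q ^ 2) := Nat.mul_le_mul_left _ (by omega)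
    have e : Q ^ 2 * (u + Q ^ 2) = Q ^ 2 * u + Q ^ 2 * Q ^ 2 := by ring
    have e' : Q ^ 2 * (Q ^ 3 + 1) = Q ^ 2 * Q ^ 3 + Q ^ 2 := by ring
    omega
  refine ⟨Q / 2, 1, one_pos, ?_⟩
  intro k hk
  refine ⟨by omega, by omega, full i _ (by omega) (show _ < Q ^ 2 by omega), ?_⟩
  refine mem_A0 i _ (by omega) (by omega) (show C Q _ from ?_)
  obtain ⟨v, rfl⟩ : ∃ v, u = v + 1 := by
    rcases u with _ | v
    · omega
    · exact ⟨v, rfl⟩
  have hmod : (n - (Q / 2 + 1 * k)) % Q ^ 2 = Q ^ 2 - (Q / 2 + 1 * k) := by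
    have : n - (Q / 2 + 1 * k) = Q ^ 2 * v + (Q ^ 2 - (Q / 2 + 1 * k)) := by
      have e : Q ^ 2 * (v + 1) = Q ^ 2 * v + Q ^ 2 := by ring
      omega
    rw [this, mulmod (by omega)]
  refine ⟨?_, ?_, ?_⟩
  · intro _ _; omega
  · intro _ _; omega
  · intro _ _
    rw [hmod]
    omega

lemma count_f (i n : ℕ) (hn1 : q (i + 1) ^ 5 + q (i + 1) ^ 4 ≤ n)
    (hn2 : n < q (i + 2)) :
    ∃ s d, 0 < d ∧ ∀ k, 4 * k < q (i + 1) → Good (q i ^ 6) n (s + d * k) := by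
  have hp := q_ge i
  have hQ := q_ge (i + 1)
  have hpQ := pQ i
  obtain ⟨h1, h2, h3, h4, h5⟩ := pows (q (i + 1)) hQ
  obtain ⟨h1', -, -, -, -⟩ := pows (q (i + 2)) (q_ge _)
  set Q := q (i + 1) with hQdef
  refine ⟨Q, 1, one_pos, ?_⟩
  intro k hk
  refine ⟨by omega, by omega, full i _ (by omega) (show _ < Q ^ 2 by omega), ?_⟩
  refine mem_A0 i _ (by omega) (by omega) (show C Q _ from C_of_large hQ (by omega))

lemma count (i n : ℕ) (hn1 : q (i + 1) ≤ n) (hn2 : n < q (i + 2)) (hs : ¬ Sp n) :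
    ∃ s d, 0 < d ∧ ∀ k, 4 * k < q (i + 1) → Good (q i ^ 6) n (s + d * k) := by
  by_cases ha : 2 * n < 3 * q (i + 1) ^ 2
  · exact count_a i n hn1 ha
  by_cases hb : n < 2 * q (i + 1) ^ 2
  · exact count_b i n (by omega) hb
  by_cases hc : n + q (i + 1) ^ 4 ≤ q (i + 1) ^ 5
  · exact count_c i n (by omega) hc
  by_cases hf : q (i + 1) ^ 5 + q (i + 1) ^ 4 ≤ n
  · exact count_f i n hf hn2
  by_cases hd : n % q (i + 1) ^ 2 = 0
  · apply count_e i n (by omega) _ hd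
    by_contra hcon
    apply hs
    set Q := q (i + 1) with hQdef
    have hQ : 101 ≤ Q := q_ge _
    obtain ⟨u, hu⟩ : ∃ u, n = Q ^ 2 * u := Nat.dvd_of_mod_eq_zero hd
    have e4 : Q ^ 4 = Q ^ 2 * Q ^ 2 := by ring
    have e5 : Q ^ 5 = Q ^ 2 * Q ^ 3 := by ring
    have hpos : 0 < Q ^ 2 := by positivity
    have h3 : Q ^ 3 ≤ u := by
      by_contra h
      have : Q ^ 2 * u < Q ^ 2 * Q ^ 3 := Nat.mul_lt_mul_of_pos_left (by omega) hpos
      omega
    refine ⟨i + 1, u - Q ^ 3, ?_, ?_⟩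
    · show u - Q ^ 3 < Q ^ 2
      by_contra h
      have : Q ^ 2 * (Q ^ 3 + Q ^ 2) ≤ Q ^ 2 * u := Nat.mul_le_mul_left _ (by omega)
      have e : Q ^ 2 * (Q ^ 3 + Q ^ 2) = Q ^ 2 * Q ^ 3 + Q ^ 2 * Q ^ 2 := by ring
      omega
    · show n = Q ^ 5 + Q ^ 2 * (u - Q ^ 3)
      obtain ⟨v, rfl⟩ : ∃ v, u = Q ^ 3 + v := ⟨u - Q ^ 3, by omega⟩
      rw [hu, Nat.add_sub_cancel_left]
      ring
  · exact count_d i n (by omega) (by omega) hd

lemma family (i : ℕ) : ∃ f : ℕ → Finset ℕ,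
    (∀ t, (∀ e ∈ f t, e ∈ A0 ∧ q i ≤ e ∧ e < q (i + 2)) ∧ 8 ^ (i + 2) ≤ (f t).card) ∧
    (∀ n, q (i + 1) ≤ n → n < q (i + 2) → ¬ Sp n → ∀ D : Set ℕ,
      (∀ a, Good (q i ^ 6) n a → a ∈ D ∨ n - a ∈ D) →
      ∃ t < q (i + 2) ^ 2, ∀ e ∈ f t, e ∈ D) := by
  classical
  set K := 8 ^ (i + 2) with hK
  have hKq : 4 * K ≤ q (i + 1) := lin_le (i + 1)
  have h2K : 2 ^ K ≤ q (i + 2) := two_pow_le (i + 2)
  have hq6 : q i ≤ q i ^ 6 := Nat.le_self_pow (by norm_num) _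
  -- choice of the progressions
  have hch : ∀ n, ∃ s d, 0 < d ∧ (q (i + 1) ≤ n → n < q (i + 2) → ¬ Sp n →
      ∀ k < K, Good (q i ^ 6) n (s + d * k)) := by
    intro n
    by_cases h : q (i + 1) ≤ n ∧ n < q (i + 2) ∧ ¬ Sp n
    · obtain ⟨s, d, hd, hk⟩ := count i n h.1 h.2.1 h.2.2
      exact ⟨s, d, hd, fun _ _ _ k hkK => hk k (by omega)⟩
    · exact ⟨0, 1, one_pos, fun a b c => absurd ⟨a, b, c⟩ h⟩
  choose s d hd hg using hch
  obtain ⟨s0, d0, hd0, hg0⟩ := count_a i (q (i + 1)) le_rfl (by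
    have := q_ge (i + 1)
    have := (pows _ this).1
    omega)
  have hq12 : q (i + 1) < q (i + 2) := q_strict (by omega)
  set E0 : Finset ℕ := (Finset.range K).image (fun k => s0 + d0 * k) with hE0
  have hE0card : E0.card = K := by
    rw [hE0, Finset.card_image_of_injective, Finset.card_range]
    intro a b hab
    exact Nat.eq_of_mul_eq_mul_left hd0 (Nat.add_left_cancel hab)
  set tr : ℕ → Finset ℕ → Finset ℕ := fun n U => (Finset.range K).image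
    (fun k => if k ∈ U then s n + d n * k else n - (s n + d n * k)) with htr
  set F : Finset (Finset ℕ) := ((Finset.Ico (q (i + 1)) (q (i + 2))).filter
    (fun n => ¬ Sp n)).biUnion (fun n => (Finset.range K).powerset.image (tr n)) with hF
  have hFcard : F.card ≤ q (i + 2) ^ 2 := by
    calc F.card ≤ ((Finset.Ico (q (i + 1)) (q (i + 2))).filter (fun n => ¬ Sp n)).card * 2 ^ K := by
          apply Finset.card_biUnion_le_card_mul
          intro n _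
          calc _ ≤ (Finset.range K).powerset.card := Finset.card_image_le
            _ = 2 ^ K := by rw [Finset.card_powerset, Finset.card_range]
      _ ≤ q (i + 2) * q (i + 2) := by
          apply Nat.mul_le_mul _ h2K
          calc _ ≤ (Finset.Ico (q (i + 1)) (q (i + 2))).card := Finset.card_filter_le _ _
            _ ≤ q (i + 2) := by rw [Nat.card_Ico]; omega
      _ = q (i + 2) ^ 2 := by ring
  have hFgood : ∀ X ∈ F, (∀ e ∈ X, e ∈ A0 ∧ q i ≤ e ∧ e < q (i + 2)) ∧ K ≤ X.card := by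
    intro X hX
    rw [hF, Finset.mem_biUnion] at hX
    obtain ⟨n, hn, hX⟩ := hX
    rw [Finset.mem_filter, Finset.mem_Ico] at hn
    obtain ⟨U, hU, rfl⟩ := Finset.mem_image.1 hX
    have hgn := hg n hn.1.1 hn.1.2 hn.2
    constructor
    · intro e he
      obtain ⟨k, hk, rfl⟩ := Finset.mem_image.1 he
      obtain ⟨g1, g2, g3, g4⟩ := hgn k (Finset.mem_range.1 hk)
      by_cases hkU : k ∈ U
      · simp only [hkU, if_true]
        exact ⟨g3, by omega, by omega⟩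
      · simp only [hkU, if_false]
        exact ⟨g4, by omega, by omega⟩
    · rw [htr]
      simp only
      rw [Finset.card_image_of_injOn, Finset.card_range]
      intro a ha b hb hab
      have ha' := hgn a (by simpa using ha)
      have hb' := hgn b (by simpa using hb)
      have ha2 := ha'.2.1
      have hb2 := hb'.2.1
      have : s n + d n * a = s n + d n * b := by
        simp only at hab
        split_ifs at hab <;> omega
      exact Nat.eq_of_mul_eq_mul_left (hd n) (Nat.add_left_cancel this)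
  refine ⟨fun t => F.toList.getD t E0, ?_, ?_⟩
  · intro t
    show (∀ e ∈ F.toList.getD t E0, e ∈ A0 ∧ q i ≤ e ∧ e < q (i + 2)) ∧
      K ≤ (F.toList.getD t E0).card
    by_cases ht : t < F.toList.length
    · rw [List.getD_eq_getElem _ _ ht]
      apply hFgood
      rw [← Finset.mem_toList]
      exact List.getElem_mem ht
    · rw [List.getD_eq_default _ _ (by omega)]
      refine ⟨?_, hE0card.ge⟩
      intro e he
      obtain ⟨k, hk, rfl⟩ := Finset.mem_image.1 he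
      obtain ⟨g1, g2, g3, g4⟩ := hg0 k (by have := Finset.mem_range.1 hk; omega)
      exact ⟨g3, by omega, by omega⟩
  · intro n hn1 hn2 hs D hD
    have hgn := hg n hn1 hn2 hs
    set U := (Finset.range K).filter (fun k => s n + d n * k ∈ D) with hU
    have hX : tr n U ∈ F := by
      rw [hF, Finset.mem_biUnion]
      refine ⟨n, ?_, ?_⟩
      · rw [Finset.mem_filter, Finset.mem_Ico]
        exact ⟨⟨hn1, hn2⟩, hs⟩
      · exact Finset.mem_image_of_mem _ (Finset.mem_powerset.2 (Finset.filter_subset _ _))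
    rw [← Finset.mem_toList] at hX
    obtain ⟨t, ht, htX⟩ := List.mem_iff_getElem.1 hX
    refine ⟨t, ?_, ?_⟩
    · rw [Finset.length_toList] at ht
      omega
    · show ∀ e ∈ F.toList.getD t E0, e ∈ D
      rw [List.getD_eq_getElem _ _ ht, htX]
      intro e he
      obtain ⟨k, hk, rfl⟩ := Finset.mem_image.1 he
      have hkK := Finset.mem_range.1 hk
      by_cases hkU : k ∈ U
      · simp only [hkU, if_true]
        exact (Finset.mem_filter.1 hkU).2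
      · simp only [hkU, if_false]
        rcases hD _ (hgn k hkK) with h | h
        · exact absurd (Finset.mem_filter.2 ⟨hk, h⟩) hkU
        · exact h

/-- The whole set, for given prescribed representation sets. -/
def AA (E : ℕ → ℕ → Finset ℕ) : Set ℕ :=
  A0 ∪ {w | ∃ i t e, t < q (i + 2) ^ 2 ∧ e ∈ E i t ∧ w + e = q (i + 2) ^ 5 + q (i + 2) ^ 2 * t}

lemma struct (E : ℕ → ℕ → Finset ℕ)
    (hE : ∀ i t, ∀ e ∈ E i t, 0 < e ∧ e < q (i + 2)) (i x : ℕ) (hx : x ∈ AA E)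
    (hxle : x + q (i + 2) ^ 2 ≤ q (i + 2) ^ 5 + q (i + 2) ^ 4) :
    x ≤ q (i + 2) ∨ (x < q (i + 2) ^ 4 ∧ q (i + 2) < x % q (i + 2) ^ 2) ∨
    (q (i + 2) ^ 4 ≤ x ∧ x + q (i + 2) ^ 4 < q (i + 2) ^ 5 ∧ PP (q (i + 2)) (x % q (i + 2) ^ 2)) ∨
    (∃ e, 0 < e ∧ e < q (i + 2) ∧ q (i + 2) ^ 2 ∣ x + e ∧ q (i + 2) ^ 5 ≤ x + q (i + 2) ^ 4 ∧
      (x + e < q (i + 2) ^ 5 ∨ ∃ t, t < q (i + 2) ^ 2 ∧ e ∈ E i t ∧
        x + e = q (i + 2) ^ 5 + q (i + 2) ^ 2 * t)) := by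
  have hQ := q_ge (i + 2)
  obtain ⟨h1, h2, h3, h4, h5⟩ := pows (q (i + 2)) hQ
  rcases hx with hx | ⟨i', t, e, ht, he, hw⟩
  · have hC := hx (i + 2)
    set Q := q (i + 2) with hQdef
    obtain ⟨c1, c2, c3⟩ := hC
    by_cases a1 : x ≤ Q
    · left; exact a1
    right
    by_cases a2 : x < Q ^ 2
    · left
      refine ⟨by omega, ?_⟩
      rw [Nat.mod_eq_of_lt a2]; omega
    by_cases a3 : x < Q ^ 4
    · left
      exact ⟨a3, c1 (by omega) a3⟩
    by_cases a4 : x + Q ^ 4 < Q ^ 5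
    · right; left
      exact ⟨by omega, a4, c2 (by omega) a4⟩
    right; right
    obtain ⟨d1, d2, d3⟩ := c3 (by omega) hxle
    have hlt : x % Q ^ 2 < Q ^ 2 := Nat.mod_lt _ (by positivity)
    refine ⟨Q ^ 2 - x % Q ^ 2, by omega, by omega, ?_, by omega, Or.inl (by omega)⟩
    refine ⟨x / Q ^ 2 + 1, ?_⟩
    have h := Nat.div_add_mod x (Q ^ 2)
    have e1 : Q ^ 2 * (x / Q ^ 2 + 1) = Q ^ 2 * (x / Q ^ 2) + Q ^ 2 := by ring
    omega
  · obtain ⟨he0, he1⟩ := hE i' t e he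
    have hQ' := q_ge (i' + 2)
    obtain ⟨h1', h2', h3', h4', h5'⟩ := pows (q (i' + 2)) hQ'
    have hle : q (i' + 2) ^ 2 * t + q (i' + 2) ^ 2 ≤ q (i' + 2) ^ 4 := by
      calc q (i' + 2) ^ 2 * t + q (i' + 2) ^ 2 = q (i' + 2) ^ 2 * (t + 1) := by ring
        _ ≤ q (i' + 2) ^ 2 * q (i' + 2) ^ 2 := Nat.mul_le_mul_left _ ht
        _ = q (i' + 2) ^ 4 := by ring
    rcases lt_trichotomy i' i with h | h | h
    · left
      have hp : 10201 * q (i' + 2) ^ 6 ≤ q (i' + 3) := pQ (i' + 2)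
      have hm : q (i' + 3) ≤ q (i + 2) := q_mono (by omega)
      omega
    · subst h
      right; right; right
      refine ⟨e, he0, he1, ?_, by omega, Or.inr ⟨t, ht, he, hw⟩⟩
      rw [hw]
      exact ⟨q (i' + 2) ^ 3 + t, by ring⟩
    · exfalso
      have hm : q (i + 3) ≤ q (i' + 2) := q_mono (by omega)
      have hp : 10201 * q (i + 2) ^ 6 ≤ q (i + 3) := pQ (i + 2)
      omega

lemma sparse (E : ℕ → ℕ → Finset ℕ)
    (hE : ∀ i t, ∀ e ∈ E i t, 0 < e ∧ e < q (i + 2)) (i t a b : ℕ) (ht : t < q (i + 2) ^ 2)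
    (ha : a ∈ AA E) (hb : b ∈ AA E) (hab : a ≤ b)
    (hsum : a + b = q (i + 2) ^ 5 + q (i + 2) ^ 2 * t) : a ∈ E i t := by
  have hQ := q_ge (i + 2)
  obtain ⟨h1, h2, h3, h4, h5⟩ := pows (q (i + 2)) hQ
  have hle : q (i + 2) ^ 2 * t + q (i + 2) ^ 2 ≤ q (i + 2) ^ 4 := by
    calc q (i + 2) ^ 2 * t + q (i + 2) ^ 2 = q (i + 2) ^ 2 * (t + 1) := by ring
      _ ≤ q (i + 2) ^ 2 * q (i + 2) ^ 2 := Nat.mul_le_mul_left _ ht
      _ = q (i + 2) ^ 4 := by ring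
  have sa := struct E hE i a ha (by omega)
  have sb := struct E hE i b hb (by omega)
  set Q := q (i + 2) with hQdef
  have hdvd : Q ^ 2 ∣ a + b := by
    rw [hsum]
    exact ⟨Q ^ 3 + t, by ring⟩
  have hmod : (a % Q ^ 2 + b % Q ^ 2) % Q ^ 2 = 0 := by
    rw [← Nat.add_mod]
    exact Nat.mod_eq_zero_of_dvd hdvd
  have hra : a % Q ^ 2 < Q ^ 2 := Nat.mod_lt _ (by positivity)
  have hrb : b % Q ^ 2 < Q ^ 2 := Nat.mod_lt _ (by positivity)
  have hmod2 : a % Q ^ 2 + b % Q ^ 2 = 0 ∨ a % Q ^ 2 + b % Q ^ 2 = Q ^ 2 := by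
    by_cases hc : a % Q ^ 2 + b % Q ^ 2 < Q ^ 2
    · left
      rwa [Nat.mod_eq_of_lt hc] at hmod
    · right
      rw [Nat.mod_eq_sub_mod (by omega), Nat.mod_eq_of_lt (by omega)] at hmod
      omega
  rcases sb with sb | ⟨sb, -⟩ | ⟨sb1, sb2, sb3⟩ | ⟨e, e0, e1, e2, e3, e4⟩
  · omega
  · omega
  · exfalso
    rcases sa with sa | ⟨sa, -⟩ | ⟨sa1, sa2, sa3⟩ | ⟨e', e0', e1', e2', e3', e4'⟩
    · omega
    · omega
    · unfold PP at sa3 sb3
      omega
    · omega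
  · -- residue of b
    obtain ⟨w, hw⟩ := e2
    have hbmod : b % Q ^ 2 = Q ^ 2 - e := by
      obtain ⟨w', rfl⟩ : ∃ w', w = w' + 1 := by
        rcases w with _ | w
        · omega
        · exact ⟨w, rfl⟩
      have : b = Q ^ 2 * w' + (Q ^ 2 - e) := by
        have e : Q ^ 2 * (w' + 1) = Q ^ 2 * w' + Q ^ 2 := by ring
        omega
      rw [this, mulmod (by omega)]
    have hamod : a % Q ^ 2 = e := by
      rw [hbmod] at hmod2
      clear hmod e4 sa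
      rcases hmod2 with hh | hh
      · exfalso
        have : Q ^ 2 - e = 0 := Nat.eq_zero_of_add_eq_zero_left hh
        omega
      · omega
    have haQ : a ≤ Q := by
      rcases sa with sa | ⟨sa, sa2⟩ | ⟨sa1, sa2, sa3⟩ | ⟨e', e0', e1', e2', e3', e4'⟩
      · exact sa
      · omega
      · unfold PP at sa3
        omega
      · exfalso
        omega
    have hae : a = e := by
      rw [Nat.mod_eq_of_lt (by omega)] at hamod
      exact hamod
    subst hae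
    rcases e4 with e4 | ⟨t', ht', het', e5⟩
    · omega
    · have : t' = t := by
        have h6 : Q ^ 2 * t' = Q ^ 2 * t := by omega
        exact Nat.eq_of_mul_eq_mul_left (by positivity) h6
      rw [← this]
      exact het'

lemma exists_scale (n : ℕ) (hn : q 1 ≤ n) : ∃ i, q (i + 1) ≤ n ∧ n < q (i + 2) := by
  classical
  have hex : ∃ k, n < q k := ⟨n + 1, lt_of_lt_of_le (Nat.lt_succ_self n) q_strict.le_apply⟩
  have hspec := Nat.find_spec hex
  set k := Nat.find hex with hk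
  have h1 : 1 < k := by
    by_contra h
    have : q k ≤ q 1 := q_mono (by omega)
    omega
  obtain ⟨i, hi⟩ : ∃ i, k = i + 2 := ⟨k - 2, by omega⟩
  refine ⟨i, ?_, hi ▸ hspec⟩
  have := Nat.find_min hex (m := i + 1) (by omega)
  omega

lemma Sp_bound {n i t : ℕ} (ht : t < q (i + 2) ^ 2)
    (hn : n = q (i + 2) ^ 5 + q (i + 2) ^ 2 * t) :
    q (i + 2) ≤ n ∧ q (i + 2) ^ 5 ≤ n ∧ n < q (i + 2) ^ 6 ∧ n < q (i + 3) := by
  have hQ := q_ge (i + 2)
  obtain ⟨h1, h2, h3, h4, h5⟩ := pows (q (i + 2)) hQ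
  have hle : q (i + 2) ^ 2 * t + q (i + 2) ^ 2 ≤ q (i + 2) ^ 4 := by
    calc q (i + 2) ^ 2 * t + q (i + 2) ^ 2 = q (i + 2) ^ 2 * (t + 1) := by ring
      _ ≤ q (i + 2) ^ 2 * q (i + 2) ^ 2 := Nat.mul_le_mul_left _ ht
      _ = q (i + 2) ^ 4 := by ring
  have hp : 10201 * q (i + 2) ^ 6 ≤ q (i + 3) := pQ (i + 2)
  omega

lemma Sp_large {n : ℕ} (hn : q 2 ≤ n) (hs : Sp n) : ∃ i t, t < q (i + 2) ^ 2 ∧
    n = q (i + 2) ^ 5 + q (i + 2) ^ 2 * t := by
  obtain ⟨j, t, ht, hj⟩ := hs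
  have hQ := q_ge j
  obtain ⟨h1, h2, h3, h4, h5⟩ := pows (q j) hQ
  have hle : q j ^ 2 * t + q j ^ 2 ≤ q j ^ 4 := by
    calc q j ^ 2 * t + q j ^ 2 = q j ^ 2 * (t + 1) := by ring
      _ ≤ q j ^ 2 * q j ^ 2 := Nat.mul_le_mul_left _ ht
      _ = q j ^ 4 := by ring
  have hp : 10201 * q j ^ 6 ≤ q (j + 1) := pQ j
  have h2 : 2 ≤ j := by
    by_contra h
    have : q (j + 1) ≤ q 2 := q_mono (by omega)
    omega
  obtain ⟨i, rfl⟩ : ∃ i, j = i + 2 := ⟨j - 2, by omega⟩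
  exact ⟨i, t, ht, hj⟩

lemma reps_large (E : ℕ → ℕ → Finset ℕ)
    (hE1 : ∀ i t, (∀ e ∈ E i t, e ∈ A0 ∧ q i ≤ e ∧ e < q (i + 2)) ∧
      8 ^ (i + 2) ≤ (E i t).card) (n : ℕ) (hn : q 2 ≤ n) :
    ∃ j, n < q j ^ 6 ∧ 8 ^ j ≤ Set.ncard {a : ℕ | a ∈ AA E ∧ n - a ∈ AA E ∧ 2 * a ≤ n} := by
  have hfin : {a : ℕ | a ∈ AA E ∧ n - a ∈ AA E ∧ 2 * a ≤ n}.Finite :=
    (Set.finite_Iic n).subset (fun a ha => by
      have := ha.2.2
      simp only [Set.mem_Iic]; omega)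
  by_cases hs : Sp n
  · obtain ⟨i, t, ht, hnt⟩ := Sp_large hn hs
    obtain ⟨hb1, hb2, hb3, hb4⟩ := Sp_bound ht hnt
    refine ⟨i + 2, hb3, ?_⟩
    calc 8 ^ (i + 2) ≤ (E i t).card := (hE1 i t).2
      _ = Set.ncard (E i t : Set ℕ) := (Set.ncard_coe_finset _).symm
      _ ≤ _ := by
        apply Set.ncard_le_ncard _ hfin
        intro e he
        obtain ⟨e1, e2, e3⟩ := (hE1 i t).1 e he
        have hQ := q_ge (i + 2)
        obtain ⟨h1, h2, h3, h4, h5⟩ := pows (q (i + 2)) hQ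
        refine ⟨Or.inl e1, Or.inr ⟨i, t, e, ht, he, by omega⟩, by omega⟩
  · obtain ⟨i, hi1, hi2⟩ := exists_scale n (le_trans (q_mono (by norm_num)) hn)
    obtain ⟨s, d, hd, hg⟩ := count i n hi1 hi2 hs
    refine ⟨i + 2, lt_of_lt_of_le hi2 (Nat.le_self_pow (by norm_num) _), ?_⟩
    have hK : 4 * 8 ^ (i + 2) ≤ q (i + 1) := lin_le (i + 1)
    calc 8 ^ (i + 2) = ((Finset.range (8 ^ (i + 2))).image (fun k => s + d * k)).card := by
          rw [Finset.card_image_of_injective, Finset.card_range]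
          intro a b hab
          exact Nat.eq_of_mul_eq_mul_left hd (Nat.add_left_cancel hab)
      _ = Set.ncard (((Finset.range (8 ^ (i + 2))).image (fun k => s + d * k) : Finset ℕ) :
            Set ℕ) := (Set.ncard_coe_finset _).symm
      _ ≤ _ := by
        apply Set.ncard_le_ncard _ hfin
        intro e he
        rw [Finset.mem_coe, Finset.mem_image] at he
        obtain ⟨k, hk, rfl⟩ := he
        obtain ⟨g1, g2, g3, g4⟩ := hg k (by have := Finset.mem_range.1 hk; omega)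
        exact ⟨Or.inl g3, Or.inl g4, by omega⟩

/-- The negation of the preceding statement: For every set A of naturals and c>0: if A is an asymptotic basis of order 2 and its number of unordered representations r_A(n) exceeds c·log n for all large n, then A contains an asymptotic basis of order 2 none of whose proper subsets is one. -/
theorem result :
    ¬ (∀ (A : Set ℕ) (c : ℝ) (n₀ : ℕ), 0 < c →
      (∃ N : ℕ, ∀ n : ℕ, N ≤ n → ∃ a ∈ A, ∃ b ∈ A, a + b = n) →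
      (∀ n : ℕ, n₀ ≤ n →
        c * Real.log (n : ℝ) < ((Set.ncard {a : ℕ | a ∈ A ∧ n - a ∈ A ∧ 2 * a ≤ n} : ℕ) : ℝ)) →
      ∃ B : Set ℕ, B ⊆ A ∧
        (∃ N : ℕ, ∀ n : ℕ, N ≤ n → ∃ a ∈ B, ∃ b ∈ B, a + b = n) ∧
        ∀ C : Set ℕ, C ⊂ B →
          ¬ (∃ N : ℕ, ∀ n : ℕ, N ≤ n → ∃ a ∈ C, ∃ b ∈ C, a + b = n)) := by
  intro Hall
  choose E hE1 hE2 using family
  have hEpos : ∀ i t, ∀ e ∈ E i t, 0 < e ∧ e < q (i + 2) := by
    intro i t e he
    obtain ⟨e1, e2, e3⟩ := (hE1 i t).1 e he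
    have := q_ge i
    exact ⟨by omega, e3⟩
  have hreps := reps_large E hE1
  have hlogpos : 0 < Real.log 101 := Real.log_pos (by norm_num)
  obtain ⟨B, hBA, ⟨NB, hNB⟩, hmin⟩ := Hall (AA E) (1 / (7 * Real.log 101)) (q 2)
    (by positivity)
    (by
      refine ⟨q 2, fun n hn => ?_⟩
      obtain ⟨j, hj1, hj2⟩ := hreps n hn
      have hne : {a : ℕ | a ∈ AA E ∧ n - a ∈ AA E ∧ 2 * a ≤ n}.Nonempty := by
        rw [Set.nonempty_iff_ne_empty]
        intro h0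
        rw [h0, Set.ncard_empty] at hj2
        have : 0 < 8 ^ j := by positivity
        omega
      obtain ⟨a, ha1, ha2, ha3⟩ := hne
      exact ⟨a, ha1, n - a, ha2, by omega⟩)
    (by
      intro n hn
      obtain ⟨j, hj1, hj2⟩ := hreps n hn
      have hn0 : 0 < n := by have := q_ge 2; omega
      have hlog : Real.log (n : ℝ) ≤ 6 * (8 ^ j * Real.log 101) := by
        have h1 : (n : ℝ) ≤ ((101 : ℝ) ^ (8 ^ j)) ^ 6 := by
          have : n ≤ (101 ^ (8 ^ j)) ^ 6 := by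
            have := hj1
            unfold q at this
            omega
          exact_mod_cast this
        calc Real.log (n : ℝ) ≤ Real.log (((101 : ℝ) ^ (8 ^ j)) ^ 6) :=
              Real.log_le_log (by exact_mod_cast hn0) h1
          _ = 6 * (8 ^ j * Real.log 101) := by
              rw [Real.log_pow, Real.log_pow]
              push_cast
              ring
      have h8 : (0 : ℝ) < 8 ^ j := by positivity
      calc 1 / (7 * Real.log 101) * Real.log (n : ℝ)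
          ≤ 1 / (7 * Real.log 101) * (6 * (8 ^ j * Real.log 101)) :=
            mul_le_mul_of_nonneg_left hlog (by positivity)
        _ = 6 / 7 * 8 ^ j := by field_simp
        _ < 8 ^ j := by linarith
        _ ≤ _ := by exact_mod_cast hj2)
  obtain ⟨b, hb⟩ : B.Nonempty := by
    obtain ⟨a, ha, -⟩ := hNB NB le_rfl
    exact ⟨a, ha⟩
  apply hmin (B \ {b})
  · exact ⟨Set.diff_subset, fun h => (h hb).2 rfl⟩
  set i0 := max b NB + 1 with hi0
  have hqi0 : ∀ i, i0 ≤ i → b < q i ∧ NB ≤ q i := by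
    intro i hi
    have : i ≤ q i := q_strict.le_apply
    constructor <;> omega
  refine ⟨q (i0 + 2), fun n hn => ?_⟩
  have hn2 : q 2 ≤ n := le_trans (q_mono (by omega)) hn
  have hNBn : NB ≤ n := le_trans (hqi0 (i0 + 2) (by omega)).2 hn
  by_cases hs : Sp n
  · obtain ⟨i, t, ht, hnt⟩ := Sp_large hn2 hs
    obtain ⟨hb1, hb2, hb3, hb4⟩ := Sp_bound ht hnt
    have hi : i0 ≤ i := by
      by_contra h
      have : q (i + 3) ≤ q (i0 + 2) := q_mono (by omega)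
      omega
    have hbi := (hqi0 i hi).1
    have main : ∀ x y, x ∈ B → y ∈ B → x ≤ y → x + y = n →
        ∃ a ∈ B \ {b}, ∃ c ∈ B \ {b}, a + c = n := by
      intro x y hx hy hxy hsum
      have hxE := sparse E hEpos i t x y ht (hBA hx) (hBA hy) hxy (by rw [hsum, hnt])
      have hxl := ((hE1 i t).1 x hxE).2.1
      refine ⟨x, ⟨hx, ?_⟩, y, ⟨hy, ?_⟩, hsum⟩
      · intro h
        have : x = b := h
        omega
      · intro h
        have : y = b := h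
        omega
    obtain ⟨x, hx, y, hy, hxy⟩ := hNB n hNBn
    rcases le_total x y with h | h
    · exact main x y hx hy h hxy
    · exact main y x hy hx h (by omega)
  · obtain ⟨i, hi1, hi2⟩ := exists_scale n (le_trans (q_mono (by norm_num)) hn2)
    have hi : i0 ≤ i := by
      by_contra h
      have : q (i + 2) ≤ q (i0 + 2) := q_mono (by omega)
      omega
    obtain ⟨hbi, hNi⟩ := hqi0 i hi
    by_contra hcon
    obtain ⟨t, ht, htD⟩ := hE2 i n hi1 hi2 hs {x | x ∉ B \ {b}} (by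
      intro a ha
      by_contra hor
      rw [not_or] at hor
      obtain ⟨o1, o2⟩ := hor
      simp only [Set.mem_setOf_eq, not_not] at o1 o2
      apply hcon
      have := ha.2.1
      exact ⟨a, o1, n - a, o2, by omega⟩)
    obtain ⟨hb1, hb2, hb3, hb4⟩ := Sp_bound (i := i) ht rfl
    have hm : NB ≤ q (i + 2) ^ 5 + q (i + 2) ^ 2 * t := by
      have := (hqi0 (i + 2) (by omega)).2
      omega
    have main : ∀ x y, x ∈ B → y ∈ B → x ≤ y →
        x + y = q (i + 2) ^ 5 + q (i + 2) ^ 2 * t → False := by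
      intro x y hx hy hxy hsum
      have hxE := sparse E hEpos i t x y ht (hBA hx) (hBA hy) hxy hsum
      have hxl := ((hE1 i t).1 x hxE).2.1
      have := htD x hxE
      simp only [Set.mem_setOf_eq] at this
      apply this
      refine ⟨hx, ?_⟩
      intro h
      have : x = b := h
      omega
    obtain ⟨x, hx, y, hy, hxy⟩ := hNB _ hm
    rcases le_total x y with h | h
    · exact main x y hx hy h hxy
    · exact main y x hy hx h (by omega)

end Pool.Agent.S10228
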