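import Pool.Statements.S10235
-- import your own Pool.Agent.* helpers here

set_option autoImplicit false
open Pool Pool.MP_2c7dbf_nt

namespace Pool.Agent.S10235

open Finset

theorem card_le_natCard {G : Type} [Group G] [Fintype G] (H : Subgroup G) (T : Finset G)
    (hT : ∀ t ∈ T, t ∈ H) : T.card ≤ Nat.card H := by
  have h : (T : Set G) ⊆ (H : Set G) := fun t ht => hT t ht
  have h2 := Set.ncard_le_ncard h (Set.toFinite _)
  rw [Set.ncard_coe_finset] at h2
  exact h2

/-- A subgroup with more than half of the elements is everything. -/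
theorem eq_top_of_half {G : Type} [Group G] [Fintype G] (H : Subgroup G)
    (h : Fintype.card G < 2 * Nat.card H) : H = ⊤ := by
  apply Subgroup.eq_top_of_card_eq
  have hd : Nat.card H ∣ Nat.card G := Subgroup.card_subgroup_dvd_card H
  have hG : Nat.card G = Fintype.card G := Nat.card_eq_fintype_card
  have hpos : 0 < Fintype.card G := Fintype.card_pos
  obtain ⟨c, hc⟩ := hd
  rw [hG] at hc ⊢
  have hc1 : c = 1 := by
    rcases Nat.lt_or_ge c 2 with h2 | h2
    · interval_cases c
      · omega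
      · rfl
    · exfalso
      have : Nat.card H * 2 ≤ Nat.card H * c := Nat.mul_le_mul_left _ h2
      omega
  rw [hc, hc1, mul_one]

/-- A large set commuting with `x` forces `x` to be central. -/
theorem mem_center_of_card {G : Type} [Group G] [Fintype G] (x : G) (T : Finset G)
    (hT : ∀ t ∈ T, t * x = x * t) (h : Fintype.card G < 2 * T.card) :
    x ∈ Subgroup.center G := by
  have hTC : ∀ t ∈ T, t ∈ Subgroup.centralizer ({x} : Set G) := by
    intro t ht
    rw [Subgroup.mem_centralizer_iff]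
    intro y hy
    rw [Set.mem_singleton_iff] at hy
    subst hy
    exact (hT t ht).symm
  have h1 := card_le_natCard _ T hTC
  have h2 := eq_top_of_half (Subgroup.centralizer ({x} : Set G)) (by omega)
  rw [Subgroup.mem_center_iff]
  intro g
  have hg : g ∈ Subgroup.centralizer ({x} : Set G) := by rw [h2]; exact Subgroup.mem_top g
  rw [Subgroup.mem_centralizer_iff] at hg
  exact (hg x (Set.mem_singleton x)).symm

/-- If the centre contains more than a quarter of the elements, the group is abelian. -/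
theorem comm_of_center {G : Type} [Group G] [Fintype G] (T : Finset G)
    (hT : ∀ t ∈ T, t ∈ Subgroup.center G) (h : Fintype.card G < 4 * T.card) :
    ∀ a b : G, a * b = b * a := by
  classical
  intro a b
  have ha : a ∈ Subgroup.center G := by
    by_contra hna
    have hdis : Disjoint T (T.image (fun t => a * t)) := by
      rw [Finset.disjoint_left]
      intro t ht ht2
      rw [Finset.mem_image] at ht2
      obtain ⟨s, hs, hst⟩ := ht2
      apply hna
      have : a = t * s⁻¹ := by rw [← hst]; group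
      rw [this]
      exact Subgroup.mul_mem _ (hT t ht) (Subgroup.inv_mem _ (hT s hs))
    have hcard : (T ∪ T.image (fun t => a * t)).card = 2 * T.card := by
      rw [Finset.card_union_of_disjoint hdis, Finset.card_image_of_injective _ (mul_right_injective a)]
      ring
    apply hna
    apply mem_center_of_card a (T ∪ T.image (fun t => a * t)) _ (by omega)
    intro t ht
    rw [Finset.mem_union, Finset.mem_image] at ht
    rcases ht with ht | ⟨s, hs, rfl⟩
    · exact ((Subgroup.mem_center_iff.1 (hT t ht)) a).symm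
    · have := (Subgroup.mem_center_iff.1 (hT s hs)) a
      rw [mul_assoc, ← this]
  exact ((Subgroup.mem_center_iff.1 ha) b).symm

/-- Coprime pairs in a box. -/
def box (A B : ℕ) : Finset (ℕ × ℕ) :=
  ((Finset.Icc 1 A) ×ˢ (Finset.Icc 1 B)).filter (fun p => Nat.Coprime p.1 p.2)

theorem mem_box {A B : ℕ} {p : ℕ × ℕ} :
    p ∈ box A B ↔ ((1 ≤ p.1 ∧ p.1 ≤ A) ∧ (1 ≤ p.2 ∧ p.2 ≤ B)) ∧ Nat.Coprime p.1 p.2 := by
  rw [box, Finset.mem_filter, Finset.mem_product, Finset.mem_Icc, Finset.mem_Icc]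

section
variable {k : ℕ} {G : Type} [Group G] [Fintype G] {φ : ℕ → G}

theorem comm_small
    (hmul : ∀ x ∈ Set.Icc 1 k, ∀ y ∈ Set.Icc 1 k, x * y ≤ k → φ (x * y) = φ x * φ y)
    {x y : ℕ} (hx : 1 ≤ x) (hy : 1 ≤ y) (hxy : x * y ≤ k) : φ x * φ y = φ y * φ x := by
  have hxk : x ≤ k := le_trans (Nat.le_mul_of_pos_right x hy) hxy
  have hyk : y ≤ k := le_trans (Nat.le_mul_of_pos_left y hx) hxy
  rw [← hmul x ⟨hx, hxk⟩ y ⟨hy, hyk⟩ hxy, ← hmul y ⟨hy, hyk⟩ x ⟨hx, hxk⟩ (by rw [mul_comm]; exact hxy),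
    mul_comm]

theorem box_inj (hinj : Set.InjOn φ (Set.Icc 1 k))
    (hmul : ∀ x ∈ Set.Icc 1 k, ∀ y ∈ Set.Icc 1 k, x * y ≤ k → φ (x * y) = φ x * φ y)
    {A B : ℕ} (hBA : B ≤ A) (hAB : A * B ≤ k) :
    Set.InjOn (fun p : ℕ × ℕ => φ p.1 * (φ p.2)⁻¹) (box A B : Set (ℕ × ℕ)) := by
  rintro ⟨a, b⟩ hp ⟨c, d⟩ hq h
  rw [Finset.mem_coe, mem_box] at hp hq
  obtain ⟨⟨⟨ha1, haA⟩, hb1, hbB⟩, hab⟩ := hp
  obtain ⟨⟨⟨hc1, hcA⟩, hd1, hdB⟩, hcd⟩ := hq
  simp only at ha1 haA hb1 hbB hab hc1 hcA hd1 hdB hcd h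
  have had : a * d ≤ k := le_trans (Nat.mul_le_mul haA hdB) hAB
  have hcb : c * b ≤ k := le_trans (Nat.mul_le_mul hcA hbB) hAB
  have hbd : b * d ≤ k := le_trans (Nat.mul_le_mul (le_trans hbB hBA) hdB) hAB
  have hak : a ≤ k := le_trans (Nat.le_mul_of_pos_right a hd1) had
  have hdk : d ≤ k := le_trans (Nat.le_mul_of_pos_left d ha1) had
  have hck : c ≤ k := le_trans (Nat.le_mul_of_pos_right c hb1) hcb
  have hbk : b ≤ k := le_trans (Nat.le_mul_of_pos_left b hc1) hcb
  have hc := comm_small hmul hb1 hd1 hbd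
  have h1 : φ a * φ d = φ c * φ b := by
    have h2 : φ a = φ c * (φ d)⁻¹ * φ b := by rw [← h]; group
    calc φ a * φ d = φ c * (φ d)⁻¹ * (φ b * φ d) := by rw [h2]; group
      _ = φ c * (φ d)⁻¹ * (φ d * φ b) := by rw [hc]
      _ = φ c * φ b := by group
  rw [← hmul a ⟨ha1, hak⟩ d ⟨hd1, hdk⟩ had, ← hmul c ⟨hc1, hck⟩ b ⟨hb1, hbk⟩ hcb] at h1
  have h3 : a * d = c * b :=
    hinj ⟨Nat.mul_pos ha1 hd1, had⟩ ⟨Nat.mul_pos hc1 hb1, hcb⟩ h1
  have h4 : a ∣ c := by
    apply Nat.Coprime.dvd_of_dvd_mul_right hab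
    exact ⟨d, h3.symm⟩
  have h5 : c ∣ a := by
    apply Nat.Coprime.dvd_of_dvd_mul_right hcd
    exact ⟨b, h3⟩
  have h6 : a = c := Nat.dvd_antisymm h4 h5
  subst h6
  have h7 : d = b := Nat.eq_of_mul_eq_mul_left ha1 h3
  rw [h7]

theorem center_small (hcard : Fintype.card G = k) (hinj : Set.InjOn φ (Set.Icc 1 k))
    (hmul : ∀ x ∈ Set.Icc 1 k, ∀ y ∈ Set.Icc 1 k, x * y ≤ k → φ (x * y) = φ x * φ y)
    {A B : ℕ} (hBA : B ≤ A) (hAB : A * B ≤ k) (hN : k < 2 * (box A B).card)
    {m : ℕ} (hm : 1 ≤ m) (hAm : A * m ≤ k) : φ m ∈ Subgroup.center G := by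
  classical
  apply mem_center_of_card (φ m) ((box A B).image (fun p : ℕ × ℕ => φ p.1 * (φ p.2)⁻¹))
  · intro t ht
    rw [Finset.mem_image] at ht
    obtain ⟨⟨a, b⟩, hp, rfl⟩ := ht
    rw [mem_box] at hp
    obtain ⟨⟨⟨ha1, haA⟩, hb1, hbB⟩, -⟩ := hp
    simp only at ha1 haA hb1 hbB
    have h1 := comm_small hmul ha1 hm (le_trans (Nat.mul_le_mul_right m haA) hAm)
    have h2 := comm_small hmul hb1 hm
      (le_trans (Nat.mul_le_mul_right m (le_trans hbB hBA)) hAm)
    have h3 : Commute (φ a) (φ m) := h1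
    have h4 : Commute (φ b) (φ m) := h2
    exact (h3.mul_left h4.inv_left)
  · rw [hcard, Finset.card_image_of_injOn (box_inj hinj hmul hBA hAB)]
    exact hN

theorem final_square (hcard : Fintype.card G = k) (hinj : Set.InjOn φ (Set.Icc 1 k))
    (hmul : ∀ x ∈ Set.Icc 1 k, ∀ y ∈ Set.Icc 1 k, x * y ≤ k → φ (x * y) = φ x * φ y)
    {r : ℕ} (hr : r * r ≤ k) (hN : k < 2 * (box r r).card) : ∀ a b : G, a * b = b * a := by
  classical
  have hc : ∀ m, 1 ≤ m → m ≤ r → φ m ∈ Subgroup.center G := fun m h1 h2 =>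
    center_small hcard hinj hmul (le_refl r) hr hN h1 (le_trans (Nat.mul_le_mul_left r h2) hr)
  apply comm_of_center ((box r r).image (fun p : ℕ × ℕ => φ p.1 * (φ p.2)⁻¹))
  · intro t ht
    rw [Finset.mem_image] at ht
    obtain ⟨⟨a, b⟩, hp, rfl⟩ := ht
    rw [mem_box] at hp
    obtain ⟨⟨⟨ha1, haA⟩, hb1, hbB⟩, -⟩ := hp
    exact Subgroup.mul_mem _ (hc a ha1 haA) (Subgroup.inv_mem _ (hc b hb1 hbB))
  · rw [hcard, Finset.card_image_of_injOn (box_inj hinj hmul (le_refl r) hr)]
    omega

theorem final_list (hcard : Fintype.card G = k) (hinj : Set.InjOn φ (Set.Icc 1 k))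
    (L : Finset ℕ) (hL : ∀ n ∈ L, 1 ≤ n ∧ n ≤ k) (hLc : ∀ n ∈ L, φ n ∈ Subgroup.center G)
    (hN : k < 4 * L.card) : ∀ a b : G, a * b = b * a := by
  classical
  apply comm_of_center (L.image φ)
  · intro t ht
    rw [Finset.mem_image] at ht
    obtain ⟨n, hn, rfl⟩ := ht
    exact hLc n hn
  · rw [hcard, Finset.card_image_of_injOn (fun x hx y hy h => hinj (hL x hx) (hL y hy) h)]
    exact hN

theorem center_mul
    (hmul : ∀ x ∈ Set.Icc 1 k, ∀ y ∈ Set.Icc 1 k, x * y ≤ k → φ (x * y) = φ x * φ y)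
    {x y : ℕ} (hx : 1 ≤ x) (hy : 1 ≤ y) (hxy : x * y ≤ k)
    (h1 : φ x ∈ Subgroup.center G) (h2 : φ y ∈ Subgroup.center G) :
    φ (x * y) ∈ Subgroup.center G := by
  have hxk : x ≤ k := le_trans (Nat.le_mul_of_pos_right x hy) hxy
  have hyk : y ≤ k := le_trans (Nat.le_mul_of_pos_left y hx) hxy
  rw [hmul x ⟨hx, hxk⟩ y ⟨hy, hyk⟩ hxy]
  exact Subgroup.mul_mem _ h1 h2

end

/-- pairs both divisible by `d` -/
def E (r d : ℕ) : Finset (ℕ × ℕ) :=
  ((Finset.Icc 1 r) ×ˢ (Finset.Icc 1 r)).filter (fun p => d ∣ p.1 ∧ d ∣ p.2)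

theorem card_E (r d : ℕ) : (E r d).card = (r / d) ^ 2 := by
  have h : E r d = ((Finset.Icc 1 r).filter (fun x => d ∣ x)) ×ˢ
      ((Finset.Icc 1 r).filter (fun x => d ∣ x)) := by
    ext p
    simp only [E, Finset.mem_filter, Finset.mem_product]
    tauto
  have h2 : ((Finset.Icc 1 r).filter (fun x => d ∣ x)).card = r / d := by
    have := Nat.Ioc_filter_dvd_card_eq_div r d
    exact this
  rw [h, Finset.card_product, h2]
  ring

theorem sum_tail (n : ℕ) (hn : 5 ≤ n) :
    ∑ j ∈ Finset.Ico 5 n, (1 : ℚ) / (2 * (j : ℚ) + 1) ^ 2 ≤ 1 / 20 - 1 / (4 * (n : ℚ)) := by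
  induction n, hn using Nat.le_induction with
  | base => norm_num
  | succ n hn ih =>
    rw [Finset.sum_Ico_succ_top hn]
    have hn0 : (5 : ℚ) ≤ n := by exact_mod_cast hn
    have h1 : (1 : ℚ) / (2 * (n : ℚ) + 1) ^ 2 ≤ 1 / (4 * (n : ℚ)) - 1 / (4 * ((n : ℚ) + 1)) := by
      rw [div_sub_div _ _ (by positivity) (by positivity), div_le_div_iff₀ (by positivity) (by positivity)]
      nlinarith
    push_cast
    linarith

theorem box_large (r : ℕ) (hr : 36 ≤ r) : r * r + 2 * r < 2 * (box r r).card := by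
  set S := (Finset.Icc 1 r) ×ˢ (Finset.Icc 1 r) with hS
  have hSc : S.card = r * r := by
    rw [hS, Finset.card_product, Nat.card_Icc]; simp
  set bad := S.filter (fun p => ¬ Nat.Coprime p.1 p.2) with hbad
  have hsum : (box r r).card + bad.card = r * r := by
    rw [← hSc, box, hbad]
    exact Finset.card_filter_add_card_filter_not _
  have hsub : bad ⊆ (E r 2 ∪ E r 3 ∪ E r 5 ∪ E r 7) ∪
      (Finset.Ico 5 r).biUnion (fun j => E r (2 * j + 1)) := by
    intro p hp
    rw [hbad, Finset.mem_filter] at hp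
    obtain ⟨hpS, hnc⟩ := hp
    rw [Nat.Prime.not_coprime_iff_dvd] at hnc
    obtain ⟨q, hq, hq1, hq2⟩ := hnc
    have hmem : p ∈ E r q := by
      rw [E, Finset.mem_filter]; exact ⟨hpS, hq1, hq2⟩
    have hqr : q ≤ r := by
      rw [hS, Finset.mem_product, Finset.mem_Icc] at hpS
      exact le_trans (Nat.le_of_dvd (by omega) hq1) hpS.1.2
    rcases Nat.lt_or_ge q 11 with hlt | hge
    · have hq2' := hq.two_le
      interval_cases q
      · simp [hmem]
      · simp [hmem]
      · exact absurd hq (by norm_num)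
      · simp [hmem]
      · exact absurd hq (by norm_num)
      · simp [hmem]
      · exact absurd hq (by norm_num)
      · exact absurd hq (by norm_num)
      · exact absurd hq (by norm_num)
    · have hodd : q % 2 = 1 := by
        rcases hq.eq_two_or_odd with h | h
        · omega
        · exact h
      rw [Finset.mem_union]
      right
      rw [Finset.mem_biUnion]
      refine ⟨q / 2, ?_, ?_⟩
      · rw [Finset.mem_Ico]; omega
      · have : 2 * (q / 2) + 1 = q := by omega
        rw [this]; exact hmem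
  have hc1 := Finset.card_le_card hsub
  have hc2 : ((E r 2 ∪ E r 3 ∪ E r 5 ∪ E r 7) ∪
      (Finset.Ico 5 r).biUnion (fun j => E r (2 * j + 1))).card ≤
      ((r / 2) ^ 2 + (r / 3) ^ 2 + (r / 5) ^ 2 + (r / 7) ^ 2) +
      ∑ j ∈ Finset.Ico 5 r, (r / (2 * j + 1)) ^ 2 := by
    refine (Finset.card_union_le _ _).trans ?_
    apply Nat.add_le_add
    · refine (Finset.card_union_le _ _).trans ?_
      rw [card_E]
      apply Nat.add_le_add_right
      refine (Finset.card_union_le _ _).trans ?_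
      rw [card_E]
      apply Nat.add_le_add_right
      refine (Finset.card_union_le _ _).trans ?_
      rw [card_E, card_E]
    · refine Finset.card_biUnion_le.trans ?_
      apply le_of_eq
      apply Finset.sum_congr rfl
      intro j _
      rw [card_E]
  have hbound : ∀ d : ℕ, 0 < d → (((r / d : ℕ) : ℚ)) ^ 2 ≤ (r : ℚ) ^ 2 * (1 / (d : ℚ) ^ 2) := by
    intro d hd
    have h1 : ((r / d : ℕ) : ℚ) ≤ (r : ℚ) / d := Nat.cast_div_le
    have h0 : (0 : ℚ) ≤ ((r / d : ℕ) : ℚ) := by positivity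
    calc (((r / d : ℕ) : ℚ)) ^ 2 ≤ ((r : ℚ) / d) ^ 2 := pow_le_pow_left₀ h0 h1 2
      _ = (r : ℚ) ^ 2 * (1 / (d : ℚ) ^ 2) := by rw [div_pow]; ring
  have hbq : (bad.card : ℚ) ≤ (r : ℚ) ^ 2 * (1 / 4 + 1 / 9 + 1 / 25 + 1 / 49 + 1 / 20) := by
    have h1 : (bad.card : ℚ) ≤ (((r / 2 : ℕ) : ℚ) ^ 2 + ((r / 3 : ℕ) : ℚ) ^ 2 + ((r / 5 : ℕ) : ℚ) ^ 2
        + ((r / 7 : ℕ) : ℚ) ^ 2) + ∑ j ∈ Finset.Ico 5 r, ((r / (2 * j + 1) : ℕ) : ℚ) ^ 2 := by
      exact_mod_cast hc1.trans hc2
    have h2 := hbound 2 (by norm_num)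
    have h3 := hbound 3 (by norm_num)
    have h5 := hbound 5 (by norm_num)
    have h7 := hbound 7 (by norm_num)
    have ht : ∑ j ∈ Finset.Ico 5 r, ((r / (2 * j + 1) : ℕ) : ℚ) ^ 2 ≤ (r : ℚ) ^ 2 * (1 / 20) := by
      calc ∑ j ∈ Finset.Ico 5 r, ((r / (2 * j + 1) : ℕ) : ℚ) ^ 2
          ≤ ∑ j ∈ Finset.Ico 5 r, (r : ℚ) ^ 2 * (1 / (2 * (j : ℚ) + 1) ^ 2) := by
            apply Finset.sum_le_sum
            intro j _
            have := hbound (2 * j + 1) (by omega)
            push_cast at this ⊢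
            exact this
        _ = (r : ℚ) ^ 2 * ∑ j ∈ Finset.Ico 5 r, (1 : ℚ) / (2 * (j : ℚ) + 1) ^ 2 := by
            rw [Finset.mul_sum]
        _ ≤ (r : ℚ) ^ 2 * (1 / 20) := by
            apply mul_le_mul_of_nonneg_left _ (by positivity)
            have h6 := sum_tail r (by omega)
            have h8 : (0 : ℚ) ≤ 1 / (4 * (r : ℚ)) := by positivity
            linarith
    norm_num at h2 h3 h5 h7
    have e : (r : ℚ) ^ 2 * (1 / 4 + 1 / 9 + 1 / 25 + 1 / 49 + 1 / 20) =
      (r : ℚ) ^ 2 * (1 / 4) + (r : ℚ) ^ 2 * (1 / 9) + (r : ℚ) ^ 2 * (1 / 25) +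
      (r : ℚ) ^ 2 * (1 / 49) + (r : ℚ) ^ 2 * (1 / 20) := by ring
    rw [e]
    linarith
  have hsq : ((box r r).card : ℚ) + bad.card = (r : ℚ) ^ 2 := by
    rw [pow_two]; exact_mod_cast hsum
  have hr36 : (36 : ℚ) ≤ r := by exact_mod_cast hr
  have hfin : ((r * r + 2 * r : ℕ) : ℚ) < ((2 * (box r r).card : ℕ) : ℚ) := by
    push_cast
    nlinarith
  exact_mod_cast hfin

theorem box_mid : ∀ r < 36, (7 ≤ r ∨ r = 5) → r * r + 2 * r < 2 * (box r r).card := by
  decide +kernel

theorem box_3_2 : (box 3 2).card = 5 := by decide +kernel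
theorem box_4_2 : (box 4 2).card = 6 := by decide +kernel
theorem box_7_2 : (box 7 2).card = 11 := by decide +kernel
theorem box_7_3 : (box 7 3).card = 16 := by decide +kernel
theorem box_9_5 : (box 9 5).card = 33 := by decide +kernel
theorem box_1_1 : (box 1 1).card = 1 := by decide +kernel
theorem box_2_2 : (box 2 2).card = 3 := by decide +kernel
theorem box_3_3 : (box 3 3).card = 7 := by decide +kernel
theorem box_4_4 : (box 4 4).card = 11 := by decide +kernel
theorem box_6_6 : (box 6 6).card = 23 := by decide +kernel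

/-- For every k and every finite group G of order k: if some injective map from {1,…,k} to G sends every product xy ≤ k of elements x, y ≤ k to the group product of their images, then G is abelian. -/
theorem result :
    ∀ (k : ℕ) (G : Type) [Group G] [Fintype G], Fintype.card G = k →
      ∀ φ : ℕ → G, Set.InjOn φ (Set.Icc 1 k) →
        (∀ x ∈ Set.Icc 1 k, ∀ y ∈ Set.Icc 1 k, x * y ≤ k → φ (x * y) = φ x * φ y) →
        ∀ a b : G, a * b = b * a := by
  intro k G _ _ hcard φ hinj hmul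
  have hk : 0 < k := by rw [← hcard]; exact Fintype.card_pos
  have hone : φ 1 ∈ Subgroup.center G := by
    have h1 : φ (1 * 1) = φ 1 * φ 1 := hmul 1 ⟨le_refl 1, hk⟩ 1 ⟨le_refl 1, hk⟩ (by omega)
    rw [one_mul] at h1
    have h2 : φ 1 = 1 := by
      have := congrArg (fun x => (φ 1)⁻¹ * x) h1
      simpa using this.symm
    rw [h2]; exact Subgroup.one_mem _
  have hs1 : Nat.sqrt k * Nat.sqrt k ≤ k := Nat.sqrt_le k
  have hs2 : k < (Nat.sqrt k + 1) * (Nat.sqrt k + 1) := Nat.lt_succ_sqrt k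
  by_cases hbig : k < 2 * (box (Nat.sqrt k) (Nat.sqrt k)).card
  · exact final_square hcard hinj hmul hs1 hbig
  generalize hr : Nat.sqrt k = r at hs1 hs2 hbig
  have hr36 : r < 36 := by
    by_contra h
    have := box_large r (by omega)
    apply hbig
    nlinarith
  have hr7 : ¬ (7 ≤ r ∨ r = 5) := by
    intro h
    have := box_mid r hr36 h
    apply hbig
    nlinarith
  have hr' : r = 0 ∨ r = 1 ∨ r = 2 ∨ r = 3 ∨ r = 4 ∨ r = 6 := by omega
  have cm : ∀ {x y : ℕ}, 1 ≤ x → 1 ≤ y → x * y ≤ k → φ x ∈ Subgroup.center G →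
      φ y ∈ Subgroup.center G → φ (x * y) ∈ Subgroup.center G := fun h1 h2 h3 h4 h5 =>
    center_mul hmul h1 h2 h3 h4 h5
  rcases hr' with rfl | rfl | rfl | rfl | rfl | rfl
  · omega
  · -- k is 1, 2 or 3
    apply final_list hcard hinj {1}
    · intro n hn; rw [Finset.mem_singleton] at hn; omega
    · intro n hn; rw [Finset.mem_singleton] at hn; rw [hn]; exact hone
    · rw [Finset.card_singleton]; omega
  · rw [box_2_2] at hbig
    have h6 : 6 ≤ k := by omega
    have h2 : φ 2 ∈ Subgroup.center G :=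
      center_small hcard hinj hmul (A := 3) (B := 2) (by norm_num) (by omega)
        (by rw [box_3_2]; omega) (by norm_num) (by omega)
    have h4 : φ 4 ∈ Subgroup.center G := cm (x := 2) (y := 2) (by norm_num) (by norm_num) (by omega) h2 h2
    apply final_list hcard hinj {1, 2, 4}
    · intro n hn; simp only [Finset.mem_insert, Finset.mem_singleton] at hn; omega
    · intro n hn
      simp only [Finset.mem_insert, Finset.mem_singleton] at hn
      rcases hn with rfl | rfl | rfl
      · exact hone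
      · exact h2
      · exact h4
    · have : ({1, 2, 4} : Finset ℕ).card = 3 := by decide
      rw [this]; omega
  · rw [box_3_3] at hbig
    have h6 : 14 ≤ k := by omega
    have h2 : φ 2 ∈ Subgroup.center G :=
      center_small hcard hinj hmul (A := 7) (B := 2) (by norm_num) (by omega)
        (by rw [box_7_2]; omega) (by norm_num) (by omega)
    have h4 : φ 4 ∈ Subgroup.center G := cm (x := 2) (y := 2) (by norm_num) (by norm_num) (by omega) h2 h2
    have h8 : φ 8 ∈ Subgroup.center G := cm (x := 2) (y := 4) (by norm_num) (by norm_num) (by omega) h2 h4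
    apply final_list hcard hinj {1, 2, 4, 8}
    · intro n hn; simp only [Finset.mem_insert, Finset.mem_singleton] at hn; omega
    · intro n hn
      simp only [Finset.mem_insert, Finset.mem_singleton] at hn
      rcases hn with rfl | rfl | rfl | rfl
      · exact hone
      · exact h2
      · exact h4
      · exact h8
    · have : ({1, 2, 4, 8} : Finset ℕ).card = 4 := by decide
      rw [this]; omega
  · rw [box_4_4] at hbig
    have h6 : 22 ≤ k := by omega
    have hc : ∀ m, 1 ≤ m → 7 * m ≤ k → φ m ∈ Subgroup.center G := fun m h1 h2 =>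
      center_small hcard hinj hmul (A := 7) (B := 3) (by norm_num) (by omega)
        (by rw [box_7_3]; omega) h1 h2
    have h2 := hc 2 (by norm_num) (by omega)
    have h3 := hc 3 (by norm_num) (by omega)
    have h4 : φ 4 ∈ Subgroup.center G := cm (x := 2) (y := 2) (by norm_num) (by norm_num) (by omega) h2 h2
    have h8 : φ 8 ∈ Subgroup.center G := cm (x := 2) (y := 4) (by norm_num) (by norm_num) (by omega) h2 h4
    have h66 : φ 6 ∈ Subgroup.center G := cm (x := 2) (y := 3) (by norm_num) (by norm_num) (by omega) h2 h3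
    have h9 : φ 9 ∈ Subgroup.center G := cm (x := 3) (y := 3) (by norm_num) (by norm_num) (by omega) h3 h3
    apply final_list hcard hinj {1, 2, 3, 4, 6, 8, 9}
    · intro n hn; simp only [Finset.mem_insert, Finset.mem_singleton] at hn; omega
    · intro n hn
      simp only [Finset.mem_insert, Finset.mem_singleton] at hn
      rcases hn with rfl | rfl | rfl | rfl | rfl | rfl | rfl
      · exact hone
      · exact h2
      · exact h3
      · exact h4
      · exact h66
      · exact h8
      · exact h9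
    · have : ({1, 2, 3, 4, 6, 8, 9} : Finset ℕ).card = 7 := by decide
      rw [this]; omega
  · rw [box_6_6] at hbig
    have h46 : 46 ≤ k := by omega
    have hc : ∀ m, 1 ≤ m → 9 * m ≤ k → φ m ∈ Subgroup.center G := fun m h1 h2 =>
      center_small hcard hinj hmul (A := 9) (B := 5) (by norm_num) (by omega)
        (by rw [box_9_5]; omega) h1 h2
    have h2 := hc 2 (by norm_num) (by omega)
    have h3 := hc 3 (by norm_num) (by omega)
    have h4 := hc 4 (by norm_num) (by omega)
    have h5 := hc 5 (by norm_num) (by omega)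
    have h6 : φ 6 ∈ Subgroup.center G := cm (x := 2) (y := 3) (by norm_num) (by norm_num) (by omega) h2 h3
    have h8 : φ 8 ∈ Subgroup.center G := cm (x := 2) (y := 4) (by norm_num) (by norm_num) (by omega) h2 h4
    have h9 : φ 9 ∈ Subgroup.center G := cm (x := 3) (y := 3) (by norm_num) (by norm_num) (by omega) h3 h3
    have h10 : φ 10 ∈ Subgroup.center G := cm (x := 2) (y := 5) (by norm_num) (by norm_num) (by omega) h2 h5
    have h12 : φ 12 ∈ Subgroup.center G := cm (x := 3) (y := 4) (by norm_num) (by norm_num) (by omega) h3 h4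
    have h15 : φ 15 ∈ Subgroup.center G := cm (x := 3) (y := 5) (by norm_num) (by norm_num) (by omega) h3 h5
    have h16 : φ 16 ∈ Subgroup.center G := cm (x := 4) (y := 4) (by norm_num) (by norm_num) (by omega) h4 h4
    have h18 : φ 18 ∈ Subgroup.center G := cm (x := 3) (y := 6) (by norm_num) (by norm_num) (by omega) h3 h6
    apply final_list hcard hinj {1, 2, 3, 4, 5, 6, 8, 9, 10, 12, 15, 16, 18}
    · intro n hn; simp only [Finset.mem_insert, Finset.mem_singleton] at hn; omega
    · intro n hn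
      simp only [Finset.mem_insert, Finset.mem_singleton] at hn
      rcases hn with rfl | rfl | rfl | rfl | rfl | rfl | rfl | rfl | rfl | rfl | rfl | rfl | rfl
      · exact hone
      · exact h2
      · exact h3
      · exact h4
      · exact h5
      · exact h6
      · exact h8
      · exact h9
      · exact h10
      · exact h12
      · exact h15
      · exact h16
      · exact h18
    · have : ({1, 2, 3, 4, 5, 6, 8, 9, 10, 12, 15, 16, 18} : Finset ℕ).card = 13 := by decide
      rw [this]; omega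

end Pool.Agent.S10235
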