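import Pool.Statements.S10253

set_option autoImplicit false
open Pool Pool.MP_2fa2bc_nt

namespace Pool.Agent.S10253

open Polynomial

/-- The monic irreducible polynomial of the example. -/
noncomputable def P : ℤ[X] := X ^ 4 + X ^ 2 + X + 1

/-- The noncyclotomic cofactor of the example. -/
noncomputable def T : ℤ[X] := X ^ 3 - X + 1

/-- The length of a polynomial. -/
noncomputable def len (F : ℤ[X]) : ℤ := ∑ i ∈ F.support, |F.coeff i|

lemma P_monic : P.Monic := by unfold P; monicity!

lemma P_natDegree : P.natDegree = 4 := by unfold P; compute_degree!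

lemma T_natDegree : T.natDegree = 3 := by unfold T; compute_degree!

lemma PT : P * T = X ^ 7 + 2 * X ^ 4 + 1 := by unfold P T; ring

lemma P_irreducible : Irreducible P := by
  have h1 : P ≠ 1 := by
    intro h
    have := P_natDegree
    rw [h] at this
    simp at this
  rw [Monic.irreducible_iff_lt_natDegree_lt P_monic h1]
  intro q hq hdeg hdvd
  rw [P_natDegree, Finset.mem_Ioc] at hdeg
  have hev : ∀ m : ℤ, q.eval m ∣ P.eval m := fun m => eval_dvd hdvd
  have hPe : ∀ m : ℤ, P.eval m = m ^ 4 + m ^ 2 + m + 1 := by intro m; simp [P]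
  have hd : q.natDegree = 1 ∨ q.natDegree = 2 := by omega
  rcases hd with hd | hd
  · have hqe : ∀ m : ℤ, q.eval m = m + q.coeff 0 := by
      intro m
      have := as_sum_range' q 2 (by omega)
      have hc : q.coeff 1 = 1 := by rw [← hd]; exact hq
      conv_lhs => rw [this]
      simp [Finset.sum_range_succ, hc, eval_add]
      ring
    have e0 := hev 0
    have e1 := hev 1
    have em1 := hev (-1)
    rw [hPe, hqe] at e0 e1 em1
    generalize q.coeff 0 = a at *
    norm_num at e0 e1 em1
    have : a = 1 ∨ a = -1 := Int.isUnit_iff.mp (isUnit_of_dvd_one e0)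
    rcases this with rfl | rfl
    · norm_num at em1
    · norm_num at e1
  · have hqe : ∀ m : ℤ, q.eval m = m ^ 2 + q.coeff 1 * m + q.coeff 0 := by
      intro m
      have := as_sum_range' q 3 (by omega)
      have hc : q.coeff 2 = 1 := by rw [← hd]; exact hq
      conv_lhs => rw [this]
      simp [Finset.sum_range_succ, hc, eval_add, eval_monomial]
      ring
    have e0 := hev 0
    have e1 := hev 1
    have em1 := hev (-1)
    have e2 := hev 2
    have em2 := hev (-2)
    rw [hPe, hqe] at e0 e1 em1 e2 em2
    generalize q.coeff 0 = b at *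
    generalize q.coeff 1 = a at *
    norm_num at e0 e1 em1 e2 em2
    have hb : b = 1 ∨ b = -1 := Int.isUnit_iff.mp (isUnit_of_dvd_one e0)
    have l1 := Int.le_of_dvd (by norm_num) em1
    have l2 := Int.le_of_dvd (by norm_num) e1
    rcases hb with rfl | rfl
    · have : a ≤ 4 := by omega
      have : -4 ≤ a := by omega
      interval_cases a <;> revert e1 em1 e2 em2 <;> norm_num
    · have : a ≤ 4 := by omega
      have : -4 ≤ a := by omega
      interval_cases a <;> revert e1 em1 e2 em2 <;> norm_num

/-- No complex root of the polynomial lies on the unit circle. -/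
lemma P_root_norm {w : ℂ} (hw : aeval w P = 0) : ‖w‖ ≠ 1 := by
  intro hn
  have hw' : w ^ 4 + w ^ 2 + w + 1 = 0 := by simpa [P] using hw
  have hv : (starRingEnd ℂ) w ^ 4 + (starRingEnd ℂ) w ^ 2 + (starRingEnd ℂ) w + 1 = 0 := by
    have := congrArg (starRingEnd ℂ) hw'
    simpa using this
  have hvw : (starRingEnd ℂ) w * w = 1 := by
    rw [Complex.conj_mul', hn]; simp
  generalize (starRingEnd ℂ) w = v at hv hvw
  have hv2 : 1 + v ^ 2 + v ^ 3 + v ^ 4 = 0 := by
    have : v ^ 4 * (w ^ 4 + w ^ 2 + w + 1) = 0 := by rw [hw']; ring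
    have e : v ^ 4 * (w ^ 4 + w ^ 2 + w + 1)
        = (v * w) ^ 4 + (v * w) ^ 2 * v ^ 2 + (v * w) * v ^ 3 + v ^ 4 := by ring
    rw [e, hvw] at this
    linear_combination this
  have h3 : v * ((v - 1) * (v + 1)) = 0 := by linear_combination hv2 - hv
  rcases mul_eq_zero.mp h3 with h | h
  · subst h; norm_num at hv
  rcases mul_eq_zero.mp h with h | h
  · have : v = 1 := by linear_combination h
    subst this; norm_num at hv
  · have : v = -1 := by linear_combination h
    subst this; norm_num at hv

/-- No complex root of the cofactor lies on the unit circle. -/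
lemma T_root_norm {w : ℂ} (hw : aeval w T = 0) : ‖w‖ ≠ 1 := by
  intro hn
  have hw' : w ^ 3 - w + 1 = 0 := by simpa [T] using hw
  have hv : (starRingEnd ℂ) w ^ 3 - (starRingEnd ℂ) w + 1 = 0 := by
    have := congrArg (starRingEnd ℂ) hw'
    simpa using this
  have hvw : (starRingEnd ℂ) w * w = 1 := by
    rw [Complex.conj_mul', hn]; simp
  generalize (starRingEnd ℂ) w = v at hv hvw
  have hv2 : 1 - v ^ 2 + v ^ 3 = 0 := by
    have : v ^ 3 * (w ^ 3 - w + 1) = 0 := by rw [hw']; ring
    have e : v ^ 3 * (w ^ 3 - w + 1) = (v * w) ^ 3 - (v * w) * v ^ 2 + v ^ 3 := by ring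
    rw [e, hvw] at this
    linear_combination this
  have h3 : v * (v - 1) = 0 := by linear_combination hv - hv2
  rcases mul_eq_zero.mp h3 with h | h
  · subst h; norm_num at hv
  · have : v = 1 := by linear_combination h
    subst this; norm_num at hv

lemma len_PT : len (P * T) = 4 := by
  have hsub : (P * T).support ⊆ Finset.range 8 := by
    intro i hi
    have := le_natDegree_of_mem_supp i hi
    have hd : (P * T).natDegree = 7 := by rw [PT]; compute_degree!
    rw [Finset.mem_range]; omega
  have hz : ∀ i ∈ Finset.range 8, i ∉ (P * T).support → |(P * T).coeff i| = 0 := by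
    intro i _ hi
    rw [notMem_support_iff.mp hi]; simp
  unfold len
  rw [Finset.sum_subset hsub hz, PT]
  simp [Finset.sum_range_succ, coeff_X_pow, coeff_one, coeff_ofNat_mul]

lemma four_le_len {S : ℤ[X]} (hS : S ≠ 0) : 4 ≤ len (P * S) := by
  set F := P * S with hF
  have hF0 : F ≠ 0 := mul_ne_zero P_monic.ne_zero hS
  have hsum : F.eval 1 = ∑ i ∈ F.support, F.coeff i := by
    rw [eval_eq_sum, Polynomial.sum]; simp
  have h4 : F.eval 1 = 4 * S.eval 1 := by
    rw [hF, eval_mul]; simp [P]
  have habs : |F.eval 1| ≤ len F := by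
    rw [hsum]; exact Finset.abs_sum_le_sum_abs _ _
  have hcard : (F.support.card : ℤ) ≤ len F := by
    unfold len
    rw [Finset.card_eq_sum_ones]
    push_cast
    apply Finset.sum_le_sum
    intro i hi
    exact Int.one_le_abs (mem_support_iff.mp hi)
  have hpos : 0 < F.support.card := by
    rw [Finset.card_pos, support_nonempty]; exact hF0
  have hpar : (2 : ℤ) ∣ len F - F.eval 1 := by
    rw [hsum]; unfold len
    rw [← Finset.sum_sub_distrib]
    apply Finset.dvd_sum
    intro i _
    rcases abs_choice (F.coeff i) with h | h <;> rw [h]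
    · simp
    · exact ⟨-F.coeff i, by ring⟩
  by_contra hlt
  push Not at hlt
  have hS1 : S.eval 1 = 0 := by
    rw [h4] at habs
    rw [abs_mul] at habs
    by_contra hne
    have := Int.one_le_abs hne
    norm_num at habs
    omega
  have hF1 : F.eval 1 = 0 := by rw [h4, hS1]; ring
  rw [hF1] at hpar hsum
  have hlen2 : len F = 2 := by omega
  have hc2 : F.support.card = 2 ∨ F.support.card = 1 := by omega
  rcases hc2 with hc | hc
  · obtain ⟨a, b, hab, hs⟩ := Finset.card_eq_two.mp hc
    obtain ⟨w, hw⟩ := IsAlgClosed.exists_aeval_eq_zero ℂ P (by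
      rw [degree_eq_natDegree P_monic.ne_zero, P_natDegree]; norm_num)
    have hFw : aeval w F = 0 := by rw [hF, map_mul, hw, zero_mul]
    rw [aeval_def, eval₂_eq_sum, Polynomial.sum, hs, Finset.sum_pair hab] at hFw
    rw [hs, Finset.sum_pair hab] at hsum
    have ha : F.coeff a ≠ 0 := mem_support_iff.mp (by rw [hs]; simp)
    have hb : F.coeff b = - F.coeff a := by omega
    rw [hb] at hFw
    have hFw' : ((F.coeff a : ℤ) : ℂ) * (w ^ a - w ^ b) = 0 := by
      simp only [eq_intCast, Int.cast_neg] at hFw
      linear_combination hFw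
    have hca : ((F.coeff a : ℤ) : ℂ) ≠ 0 := by exact_mod_cast ha
    have hwab : w ^ a = w ^ b := by
      have := (mul_eq_zero.mp hFw').resolve_left hca
      linear_combination this
    have hw0 : w ≠ 0 := by
      rintro rfl
      simp [P] at hw
    have hnorm : ‖w‖ ^ a = ‖w‖ ^ b := by
      have := congrArg norm hwab
      simpa using this
    have := pow_right_injective₀ (norm_pos_iff.mpr hw0) (P_root_norm hw) hnorm
    exact hab this
  · obtain ⟨a, hs⟩ := Finset.card_eq_one.mp hc
    have ha : F.coeff a ≠ 0 := mem_support_iff.mp (by rw [hs]; simp)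
    rw [hs, Finset.sum_singleton] at hsum
    exact ha hsum.symm

/-- There is a monic irreducible integer polynomial P and a nonzero integer T such that PT has least length among all nonzero multiples of P, and T has a nonzero complex root that is not a root of unity. -/
theorem result :
    ∃ P T : Polynomial ℤ, P.Monic ∧ Irreducible P ∧ T ≠ 0 ∧
      (∀ S : Polynomial ℤ, S ≠ 0 →
        ∑ i ∈ (P * T).support, |(P * T).coeff i| ≤
          ∑ i ∈ (P * S).support, |(P * S).coeff i|) ∧
      ∃ z : ℂ, z ≠ 0 ∧ Polynomial.aeval z T = 0 ∧ ∀ n : ℕ, 0 < n → z ^ n ≠ 1 := by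
  have hT0 : T ≠ 0 := by
    intro h
    have := T_natDegree
    rw [h] at this
    simp at this
  refine ⟨P, T, P_monic, P_irreducible, hT0, ?_, ?_⟩
  · intro S hS
    have h1 := len_PT
    have h2 := four_le_len hS
    unfold len at h1 h2
    rw [h1]; exact h2
  · obtain ⟨w, hw⟩ := IsAlgClosed.exists_aeval_eq_zero ℂ T (by
      rw [degree_eq_natDegree hT0, T_natDegree]; norm_num)
    refine ⟨w, ?_, hw, ?_⟩
    · rintro rfl
      simp [T] at hw
    · intro n hn h
      have hnorm : ‖w‖ ^ n = 1 := by
        have := congrArg norm h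
        simpa using this
      exact T_root_norm hw ((pow_eq_one_iff_of_nonneg (norm_nonneg w) hn.ne').mp hnorm)

end Pool.Agent.S10253
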