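import Pool.Statements.S10272
import Pool.Agent.Helper894.Count

set_option autoImplicit false
open Pool Pool.MP_317f4c_nt

namespace Pool.Agent.S10272

open Pool.Agent.Helper894

theorem card_Lb : Fintype.card Lb = 400 := by
  simp only [Lb, Fintype.card_sum, Fintype.card_prod, Fintype.card_bool, Fintype.card_fin]
  rfl

noncomputable def e0 : Lb ≃ Fin 400 := Fintype.equivFinOfCardEq card_Lb

/-- coding of labelled integers by integers -/
noncomputable def enc : Lb × ℤ ≃ ℤ where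
  toFun x := 400 * x.2 + ((e0 x.1 : ℕ) : ℤ)
  invFun n := (e0.symm ⟨(n % 400).toNat, by omega⟩, n / 400)
  left_inv := by
    rintro ⟨l, q⟩
    have h := (e0 l).isLt
    have h1 : (400 * q + ((e0 l : ℕ) : ℤ)) / 400 = q := by omega
    have h2 : ((400 * q + ((e0 l : ℕ) : ℤ)) % 400).toNat = (e0 l : ℕ) := by omega
    simp only [h1, h2, Fin.eta, Equiv.symm_apply_apply]
  right_inv := by
    intro n
    simp only [Equiv.apply_symm_apply]
    omega

noncomputable def g (n : ℤ) : ℤ := enc (G (enc.symm n))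

theorem g_bij : Function.Bijective g := by
  have : g = (enc.symm.trans (Gp.trans enc)) := rfl
  rw [this]
  exact Equiv.bijective _

theorem g_iter (i : ℕ) (x : Lb × ℤ) : g^[i] (enc x) = enc (G^[i] x) := by
  induction i with
  | zero => rfl
  | succ i ih =>
    rw [Function.iterate_succ_apply', Function.iterate_succ_apply', ih]
    simp [g]

theorem orb_iff (x : Lb × ℤ) (k : ℤ) :
    (∃ i : ℕ, g^[i] (enc x) = k ∨ g^[i] k = enc x) ↔ Gp.SameCycle x (enc.symm k) := by
  constructor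
  · rintro ⟨i, h | h⟩
    · rw [g_iter] at h
      apply same_of_iter (i := i)
      rw [← h, Equiv.symm_apply_apply]
    · have h2 : g^[i] (enc (enc.symm k)) = enc x := by rw [Equiv.apply_symm_apply]; exact h
      rw [g_iter] at h2
      have h3 := enc.injective h2
      exact (same_of_iter h3).symm
  · rintro ⟨i, hi⟩
    rcases Int.le_total 0 i with h | h
    · obtain ⟨n, rfl⟩ := Int.eq_ofNat_of_zero_le h
      rw [zpow_natCast, Gp_iter] at hi
      refine ⟨n, Or.inl ?_⟩
      rw [g_iter, hi, Equiv.apply_symm_apply]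
    · obtain ⟨n, hn⟩ := Int.eq_ofNat_of_zero_le (Int.neg_nonneg_of_nonpos h)
      have hi' : (Gp ^ (-i)) (enc.symm k) = x := by
        rw [← hi, ← Equiv.Perm.mul_apply, ← zpow_add]; simp
      rw [hn, zpow_natCast, Gp_iter] at hi'
      refine ⟨n, Or.inr ?_⟩
      rw [← Equiv.apply_symm_apply enc k, g_iter, hi']

theorem finite_orb (x : Lb × ℤ) (N : ℕ) :
    {k : ℤ | -(N : ℤ) ≤ k ∧ k ≤ (N : ℤ) ∧ ∃ i : ℕ, g^[i] (enc x) = k ∨ g^[i] k = enc x}.Finite := by
  apply (Set.finite_Icc (-(N : ℤ)) (N : ℤ)).subset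
  rintro k ⟨h1, h2, _⟩
  exact ⟨h1, h2⟩

/-- number of orbit points in `[-N, N]` -/
noncomputable def cnt (x : Lb × ℤ) (N : ℕ) : ℕ :=
  Set.ncard {k : ℤ | -(N : ℤ) ≤ k ∧ k ≤ (N : ℤ) ∧ ∃ i : ℕ, g^[i] (enc x) = k ∨ g^[i] k = enc x}

theorem cnt_add (N : ℕ) : cnt (main false 0) N + cnt (main true 0) N ≤ 2 * N + 1 := by
  unfold cnt
  rw [← Set.ncard_union_eq _ (finite_orb _ _) (finite_orb _ _)]
  · have h : (Set.Icc (-(N : ℤ)) (N : ℤ)).ncard = 2 * N + 1 := by
      rw [← Finset.coe_Icc, Set.ncard_coe_finset, Int.card_Icc]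
      omega
    rw [← h]
    apply Set.ncard_le_ncard _ (Set.finite_Icc _ _)
    rintro k (⟨h1, h2, _⟩ | ⟨h1, h2, _⟩)
    · exact ⟨h1, h2⟩
    · exact ⟨h1, h2⟩
  · rw [Set.disjoint_left]
    rintro k ⟨_, _, h1⟩ ⟨_, _, h2⟩
    rw [orb_iff] at h1 h2
    exact not_same (h1.trans h2.symm)

theorem cnt_lower (ln : ℤ → Bool) (hl : ∀ q, ln (q + 1) = xor (ln q) (flip q)) (Q : ℕ)
    (S : Finset ℕ) (hS : ∀ q ∈ S, 1 ≤ q ∧ q ≤ Q ∧ ln (q : ℤ) = true ∧ ln (1 - (q : ℤ)) = true) :
    720 * S.card ≤ cnt (main (ln 0) 0) (400 * Q) := by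
  unfold cnt
  set W := {k : ℤ | -((400 * Q : ℕ) : ℤ) ≤ k ∧ k ≤ ((400 * Q : ℕ) : ℤ) ∧
    ∃ i : ℕ, g^[i] (enc (main (ln 0) 0)) = k ∨ g^[i] k = enc (main (ln 0) 0)} with hW
  have hWfin : W.Finite := finite_orb _ _
  have hcard : (S ×ˢ ((Finset.univ : Finset Bool) ×ˢ (Finset.univ : Finset (Fin 360)))).card =
      720 * S.card := by
    rw [Finset.card_product, Finset.card_product, Finset.card_univ, Finset.card_univ]
    simp only [Fintype.card_bool, Fintype.card_fin]
    ring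
  rw [← hcard, ← Set.ncard_coe_finset]
  apply Set.ncard_le_ncard_of_injOn
    (fun x : ℕ × Bool × Fin 360 =>
      enc (Sum.inr x.2.2, if x.2.1 = true then (x.1 : ℤ) - 1 else -(x.1 : ℤ))) _ _ hWfin
  · rintro ⟨q, b, i⟩ hx
    simp only [Finset.coe_product, Set.mem_prod, Finset.mem_coe] at hx
    obtain ⟨h1, h2, h3, h4⟩ := hS q hx.1
    have hi := (e0 (Sum.inr i)).isLt
    rw [hW]
    refine ⟨?_, ?_, ?_⟩
    · simp only [enc, Equiv.coe_fn_mk]
      cases b <;> simp <;> omega
    · simp only [enc, Equiv.coe_fn_mk]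
      cases b <;> simp <;> omega
    · rw [orb_iff, Equiv.symm_apply_apply]
      cases b
      · simp only [Bool.false_eq_true, if_false]
        apply heavy_on ln hl
        rw [show -(q : ℤ) + 1 = 1 - (q : ℤ) by ring]
        exact h4
      · simp only [if_true]
        apply heavy_on ln hl
        rw [sub_add_cancel]
        exact h3
  · rintro ⟨q, b, i⟩ hx ⟨q', b', i'⟩ hx' h
    simp only [Finset.coe_product, Set.mem_prod, Finset.mem_coe] at hx hx'
    obtain ⟨h1, -, -, -⟩ := hS q hx.1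
    obtain ⟨h1', -, -, -⟩ := hS q' hx'.1
    have h2 := enc.injective h
    simp only [Prod.mk.injEq, Sum.inr.injEq] at h2
    obtain ⟨h3, h4⟩ := h2
    subst h3
    cases b <;> cases b' <;> simp at h4 ⊢ <;> omega

theorem ratio_lower (ln : ℤ → Bool) (hl : ∀ q, ln (q + 1) = xor (ln q) (flip q)) (Q : ℕ)
    (hQ : 1 ≤ Q)
    (S : Finset ℕ) (hS : ∀ q ∈ S, 1 ≤ q ∧ q ≤ Q ∧ ln (q : ℤ) = true ∧ ln (1 - (q : ℤ)) = true)
    (hc : 49 * Q ≤ 50 * S.card) :
    (4 / 5 : ℝ) ≤ (cnt (main (ln 0) 0) (400 * Q) : ℝ) / (2 * ((400 * Q : ℕ) : ℝ) + 1) := by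
  have h1 := cnt_lower ln hl Q S hS
  rw [le_div_iff₀ (by positivity)]
  have h2 : (720 : ℝ) * S.card ≤ cnt (main (ln 0) 0) (400 * Q) := by exact_mod_cast h1
  have h3 : (49 : ℝ) * Q ≤ 50 * S.card := by exact_mod_cast hc
  have h4 : (1 : ℝ) ≤ Q := by exact_mod_cast hQ
  push_cast
  nlinarith

theorem result :
    ¬ (∀ (g : ℤ → ℤ) (m : ℕ) (a b : ℕ → ℚ), 0 < m →
      (∀ n : ℤ, (g n : ℚ) = a (n % (m : ℤ)).toNat * (n : ℚ) + b (n % (m : ℤ)).toNat) →
      Function.Bijective g →
      ∀ n₀ : ℤ, ∃ d : ℝ,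
        Filter.Tendsto
          (fun N : ℕ =>
            ((Set.ncard {k : ℤ | -(N : ℤ) ≤ k ∧ k ≤ (N : ℤ) ∧
                ∃ i : ℕ, g^[i] n₀ = k ∨ g^[i] k = n₀} : ℕ) : ℝ) / (2 * (N : ℝ) + 1))
          Filter.atTop (nhds d)) := by
  intro hall
  obtain ⟨M, a, b, hM, hab⟩ := conj_rcwa (m := 400) (by norm_num) e0 G pa_G g (by
    intro l q
    have : (400 : ℕ) * q + ((e0 l : ℕ) : ℤ) = enc (l, q) := by simp [enc]
    rw [this]
    unfold g
    rw [Equiv.symm_apply_apply]
    simp [enc])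
  have hd := hall g M a b hM hab g_bij
  obtain ⟨d1, hd1⟩ := hd (enc (main false 0))
  obtain ⟨d2, hd2⟩ := hd (enc (main true 0))
  have hd1' : Filter.Tendsto (fun N : ℕ => (cnt (main false 0) N : ℝ) / (2 * (N : ℝ) + 1))
    Filter.atTop (nhds d1) := hd1
  have hd2' : Filter.Tendsto (fun N : ℕ => (cnt (main true 0) N : ℝ) / (2 * (N : ℝ) + 1))
    Filter.atTop (nhds d2) := hd2
  clear hd1 hd2 hd hall
  have hsum : d1 + d2 ≤ 1 := by
    refine le_of_tendsto (hd1'.add hd2') (Filter.Eventually.of_forall fun N => ?_)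
    rw [← add_div, div_le_one (by positivity)]
    exact_mod_cast cnt_add N
  have hbbN : ∀ k : ℕ, k ≤ 400 * bb (k + 1) := by
    intro k
    have := lt_bb (k + 1)
    omega
  have h1 : (4 / 5 : ℝ) ≤ d1 := by
    apply ge_of_tendsto_of_frequently hd1'
    rw [Filter.frequently_atTop]
    intro N0
    set k := 2 * N0 + 1 with hk
    refine ⟨400 * bb (k + 1), by have := hbbN k; omega, ?_⟩
    have := ratio_lower lane lane_step (bb (k + 1)) (bb_pos _)
      ((Finset.Icc 1 (bb (k + 1))).filter (fun q => laneZ q = (k : ZMod 2))) ?_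
      (card_good k (by omega))
    · rw [lane_zero] at this
      exact this
    · intro q hq
      simp only [Finset.mem_filter, Finset.mem_Icc] at hq
      have hkz : (k : ZMod 2) = 1 := by
        rw [hk]; push_cast
        have : (2 : ZMod 2) = 0 := by decide
        rw [this]; simp
      have hn : laneN q = true := by
        unfold laneN
        rw [hq.2, hkz]; rfl
      refine ⟨hq.1.1, hq.1.2, ?_, ?_⟩
      · rw [lane_nat]; exact hn
      · rw [lane_sub q hq.1.1]; exact hn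
  have h2 : (4 / 5 : ℝ) ≤ d2 := by
    apply ge_of_tendsto_of_frequently hd2'
    rw [Filter.frequently_atTop]
    intro N0
    set k := 2 * N0 + 2 with hk
    refine ⟨400 * bb (k + 1), by have := hbbN k; omega, ?_⟩
    have := ratio_lower (fun q => !lane q) (fun q => by
        rw [lane_step]
        cases lane q <;> cases flip q <;> rfl) (bb (k + 1)) (bb_pos _)
      ((Finset.Icc 1 (bb (k + 1))).filter (fun q => laneZ q = (k : ZMod 2))) ?_
      (card_good k (by omega))
    · simp only [lane_zero, Bool.not_false] at this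
      exact this
    · intro q hq
      simp only [Finset.mem_filter, Finset.mem_Icc] at hq
      have hkz : (k : ZMod 2) = 0 := by
        rw [hk]; push_cast
        have : (2 : ZMod 2) = 0 := by decide
        rw [this]; simp
      have hn : laneN q = false := by
        unfold laneN
        rw [hq.2, hkz]; rfl
      refine ⟨hq.1.1, hq.1.2, ?_, ?_⟩
      · simp only [lane_nat, hn, Bool.not_false]
      · simp only [lane_sub q hq.1.1, hn, Bool.not_false]
  linarith

end Pool.Agent.S10272
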