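import Pool.Statements.S10280
import Pool.Agent.Helper602.MK.Main

set_option autoImplicit false
open Pool Pool.MP_325d88_nt

namespace Pool.Agent.S10280

/-- The negation of the preceding statement: For every ε>0 and all large k, every block of k consecutive positive integers n+1,…,n+k contains one whose part made of primes below k is at most εk. -/
theorem result :
    ¬ (∀ ε : ℝ, 0 < ε → ∃ K : ℕ, ∀ k : ℕ, K ≤ k → ∀ n : ℕ,
      ∃ i ∈ Finset.Icc 1 k,
        (((∏ p ∈ (Finset.range k).filter (fun p => Nat.Prime p),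
            p ^ ((n + i).factorization p)) : ℕ) : ℝ) ≤ ε * (k : ℝ)) := by
  intro h
  obtain ⟨ε, hε, K, hK⟩ := Pool.Agent.Helper602.MK.mk_main
  obtain ⟨K', hK'⟩ := h ε hε
  obtain ⟨n, hn⟩ := hK (max K K') (le_max_left _ _)
  obtain ⟨i, hi, hle⟩ := hK' (max K K') (le_max_right _ _) n
  have h1 := hn i hi
  exact absurd hle (not_le.2 h1)

end Pool.Agent.S10280
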