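import Pool.Statements.S10285

set_option autoImplicit false
open Pool Pool.MP_32845f_nt

namespace Pool.Agent.S10285

theorem sq_sidon {R : Type*} [Field R] (h2 : (2:R) ≠ 0) {a b c d : R}
    (h1 : a + b = c + d) (hs : a^2 + b^2 = c^2 + d^2) :
    (a = c ∧ b = d) ∨ (a = d ∧ b = c) := by
  have hb : b = c + d - a := by linear_combination h1
  subst hb
  have h : 2 * ((a - c) * (a - d)) = 0 := by linear_combination hs
  rcases mul_eq_zero.mp h with h | h
  · exact absurd h h2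
  rcases mul_eq_zero.mp h with h | h
  · left
    have : a = c := sub_eq_zero.mp h
    subst this
    exact ⟨rfl, by ring⟩
  · right
    have : a = d := sub_eq_zero.mp h
    subst this
    exact ⟨rfl, by ring⟩

theorem digit_step {M a b X Y : ℕ} (ha : a < M) (hb : b < M)
    (h : a + M * X = b + M * Y) : a = b ∧ X = Y := by
  have hM : 0 < M := by omega
  have h1 : (a + M * X) % M = (b + M * Y) % M := by rw [h]
  rw [Nat.add_mul_mod_self_left, Nat.add_mul_mod_self_left, Nat.mod_eq_of_lt ha,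
    Nat.mod_eq_of_lt hb] at h1
  subst h1
  refine ⟨rfl, ?_⟩
  have := Nat.add_left_cancel h
  exact Nat.eq_of_mul_eq_mul_left hM this

variable {p : ℕ}

/-- six digits in base `2p`, then the flag `f`, shifted by one -/
def enc (p f : ℕ) (a b c d u v : ZMod p) : ℕ :=
  1 + (a.val + 2 * p * (b.val + 2 * p * (c.val + 2 * p * (d.val + 2 * p *
    (u.val + 2 * p * (v.val + 2 * p * f))))))

theorem val_digit [NeZero p] {a b c d : ZMod p} {X X' Y Y' : ℕ}
    (h : (a.val + 2 * p * X) + (b.val + 2 * p * X') = (c.val + 2 * p * Y) + (d.val + 2 * p * Y')) :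
    a + b = c + d ∧ X + X' = Y + Y' := by
  have h1 := ZMod.val_lt a
  have h2 := ZMod.val_lt b
  have h3 := ZMod.val_lt c
  have h4 := ZMod.val_lt d
  have h' : (a.val + b.val) + 2 * p * (X + X') = (c.val + d.val) + 2 * p * (Y + Y') := by
    linarith
  obtain ⟨h5, h6⟩ := digit_step (by omega) (by omega) h'
  refine ⟨?_, h6⟩
  have h7 : ((a.val + b.val : ℕ) : ZMod p) = ((c.val + d.val : ℕ) : ZMod p) := by rw [h5]
  simpa using h7

theorem enc_add [NeZero p] {f f' g g' : ℕ} {a b c d u v a' b' c' d' u' v' : ZMod p}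
    {i j k l m n i' j' k' l' m' n' : ZMod p}
    (h : enc p f a b c d u v + enc p f' a' b' c' d' u' v' =
      enc p g i j k l m n + enc p g' i' j' k' l' m' n') :
    a + a' = i + i' ∧ b + b' = j + j' ∧ c + c' = k + k' ∧ d + d' = l + l' ∧
      u + u' = m + m' ∧ v + v' = n + n' ∧ f + f' = g + g' := by
  have key : ∀ A B C D : ℕ, (1 + A) + (1 + B) = (1 + C) + (1 + D) → A + B = C + D := by
    intros; omega
  obtain ⟨r1, h1⟩ := val_digit (key _ _ _ _ h)
  obtain ⟨r2, h2⟩ := val_digit h1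
  obtain ⟨r3, h3⟩ := val_digit h2
  obtain ⟨r4, h4⟩ := val_digit h3
  obtain ⟨r5, h5⟩ := val_digit h4
  obtain ⟨r6, h6⟩ := val_digit h5
  exact ⟨r1, r2, r3, r4, r5, r6, h6⟩

theorem enc_inj [NeZero p] {f g : ℕ} {a b c d u v i j k l m n : ZMod p}
    (h : enc p f a b c d u v = enc p g i j k l m n) :
    a = i ∧ b = j ∧ c = k ∧ d = l ∧ u = m ∧ v = n ∧ f = g := by
  have h' : enc p f a b c d u v + enc p 0 0 0 0 0 0 0 =
      enc p g i j k l m n + enc p 0 0 0 0 0 0 0 := by rw [h]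
  simpa using enc_add h'

theorem enc_pos {f : ℕ} {a b c d u v : ZMod p} : 1 ≤ enc p f a b c d u v := by
  unfold enc; omega

theorem enc_le_low [NeZero p] {a b c d : ZMod p} : enc p 0 a b c d 0 0 ≤ (2 * p) ^ 4 := by
  unfold enc
  have h1 := ZMod.val_lt a
  have h2 := ZMod.val_lt b
  have h3 := ZMod.val_lt c
  have h4 := ZMod.val_lt d
  simp only [ZMod.val_zero, mul_zero, add_zero]
  have e1 : d.val + 1 ≤ 2 * p := by omega
  have e2 : c.val + 2 * p * d.val + 1 ≤ (2 * p) ^ 2 := by nlinarith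
  have e3 : b.val + 2 * p * (c.val + 2 * p * d.val) + 1 ≤ (2 * p) ^ 3 := by nlinarith
  nlinarith

theorem enc_le [NeZero p] {a b c d u v : ZMod p} :
    enc p 1 a b c d u v ≤ 2 * (2 * p) ^ 6 := by
  unfold enc
  have h1 := ZMod.val_lt a
  have h2 := ZMod.val_lt b
  have h3 := ZMod.val_lt c
  have h4 := ZMod.val_lt d
  have h5 := ZMod.val_lt u
  have h6 := ZMod.val_lt v
  simp only [mul_one]
  generalize a.val = a at *
  generalize b.val = b at *
  generalize c.val = c at *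
  generalize d.val = d at *
  generalize u.val = u at *
  generalize v.val = v at *
  have hp : 0 < 2 * p := by omega
  have e1 : v + 2 * p + 1 ≤ 2 * (2 * p) := by omega
  have e2 : u + 2 * p * (v + 2 * p) + 1 ≤ 2 * (2 * p) ^ 2 := by
    have := Nat.mul_le_mul_left (2 * p) e1
    linarith
  have e3 : d + 2 * p * (u + 2 * p * (v + 2 * p)) + 1 ≤ 2 * (2 * p) ^ 3 := by
    have := Nat.mul_le_mul_left (2 * p) e2
    linarith
  have e4 : c + 2 * p * (d + 2 * p * (u + 2 * p * (v + 2 * p))) + 1 ≤ 2 * (2 * p) ^ 4 := by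
    have := Nat.mul_le_mul_left (2 * p) e3
    linarith
  have e5 : b + 2 * p * (c + 2 * p * (d + 2 * p * (u + 2 * p * (v + 2 * p)))) + 1
      ≤ 2 * (2 * p) ^ 5 := by
    have := Nat.mul_le_mul_left (2 * p) e4
    linarith
  have := Nat.mul_le_mul_left (2 * p) e5
  linarith

theorem interval_contra [NeZero p] {n : ℕ} (hn : 8 * n < p) {a b c d r : ZMod p}
    (ha : a.val < 2 * n) (hb : b.val < 2 * n) (hc : c.val < n) (hd : d.val < n)
    (hr1 : 4 * n ≤ r.val) (hr2 : r.val < 6 * n) (h : a + b = c + d + r) : False := by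
  have h1 : ((a.val + b.val : ℕ) : ZMod p) = ((c.val + d.val + r.val : ℕ) : ZMod p) := by
    push_cast
    simpa using h
  rw [ZMod.natCast_eq_natCast_iff', Nat.mod_eq_of_lt (by omega), Nat.mod_eq_of_lt (by omega)] at h1
  omega

section core

variable [Fact p.Prime] {F E : Type*} [Field F] [Field E] [Algebra (ZMod p) F]
  [Algebra (ZMod p) E] (j : F ≃ₗ[ZMod p] (ZMod p × ZMod p))
  (e : (ZMod p × F) ≃ₗ[ZMod p] E)

/-- elements of the small part -/
def encB (b : F) : ℕ := enc p 0 (j b).1 (j b).2 (j (b ^ 2)).1 (j (b ^ 2)).2 0 0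

/-- elements of the large part -/
def encA (y : F) (x : ZMod p) : ℕ :=
  enc p 1 (j (e.symm (e (x, y) ^ 2 / e (1, 0))).2).1 (j (e.symm (e (x, y) ^ 2 / e (1, 0))).2).2
    (e.symm (e (x, y) ^ 2 / e (1, 0))).1 x (j y).1 (j y).2

theorem two_ne (hp : 2 < p) {R : Type*} [Field R] [Algebra (ZMod p) R] : (2 : R) ≠ 0 := by
  have h : ((2 : ℕ) : ZMod p) ≠ 0 := by
    intro h
    rw [ZMod.natCast_eq_zero_iff] at h
    exact absurd (Nat.le_of_dvd (by norm_num) h) (by omega)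
  intro h0
  apply h
  apply (algebraMap (ZMod p) R).injective
  rw [map_natCast, map_zero]
  exact_mod_cast h0

include j in
theorem j_ext {a b : F} (h1 : (j a).1 = (j b).1) (h2 : (j a).2 = (j b).2) : a = b :=
  j.injective (Prod.ext h1 h2)

theorem j_add_ext {a b c d : F} (h1 : (j a).1 + (j b).1 = (j c).1 + (j d).1)
    (h2 : (j a).2 + (j b).2 = (j c).2 + (j d).2) : a + b = c + d := by
  apply j.injective
  rw [map_add, map_add]
  exact Prod.ext h1 h2

theorem encB_inj {b b' : F} (h : encB j b = encB j b') : b = b' := by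
  obtain ⟨h1, h2, -⟩ := enc_inj h
  exact j_ext j h1 h2

theorem encA_inj {y y' : F} {x x' : ZMod p} (h : encA j e y x = encA j e y' x') :
    y = y' ∧ x = x' := by
  obtain ⟨-, -, -, h4, h5, h6, -⟩ := enc_inj h
  exact ⟨j_ext j h5 h6, h4⟩

theorem sidonB (hp : 2 < p) {a b c d : F} (h : encB j a + encB j b = encB j c + encB j d) :
    (a = c ∧ b = d) ∨ (a = d ∧ b = c) := by
  obtain ⟨h1, h2, h3, h4, -⟩ := enc_add h
  exact sq_sidon (two_ne hp) (j_add_ext j h1 h2) (j_add_ext j h3 h4)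

theorem sidonA (hp : 2 < p) {y1 y2 y3 y4 : F} {x1 x2 x3 x4 : ZMod p}
    (h : encA j e y1 x1 + encA j e y2 x2 = encA j e y3 x3 + encA j e y4 x4) :
    ((y1 = y3 ∧ x1 = x3) ∧ (y2 = y4 ∧ x2 = x4)) ∨ ((y1 = y4 ∧ x1 = x4) ∧ (y2 = y3 ∧ x2 = x3)) := by
  obtain ⟨h1, h2, h3, h4, h5, h6, -⟩ := enc_add h
  have hw := j_add_ext j h1 h2
  have hy := j_add_ext j h5 h6
  have hth : e (1, 0) ≠ 0 := by
    intro h0
    have : ((1 : ZMod p), (0 : F)) = 0 := by
      apply e.injective; rw [h0, map_zero]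
    simp at this
  have hz : e (x1, y1) + e (x2, y2) = e (x3, y3) + e (x4, y4) := by
    rw [← map_add, ← map_add]
    congr 1
    exact Prod.ext h4 hy
  have hm : e.symm (e (x1, y1) ^ 2 / e (1, 0)) + e.symm (e (x2, y2) ^ 2 / e (1, 0)) =
      e.symm (e (x3, y3) ^ 2 / e (1, 0)) + e.symm (e (x4, y4) ^ 2 / e (1, 0)) :=
    Prod.ext h3 hw
  rw [← map_add, ← map_add] at hm
  have hm' := e.symm.injective hm
  have hs : e (x1, y1) ^ 2 + e (x2, y2) ^ 2 = e (x3, y3) ^ 2 + e (x4, y4) ^ 2 := by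
    field_simp at hm'
    exact hm'
  rcases sq_sidon (two_ne hp) hz hs with ⟨ha, hb⟩ | ⟨ha, hb⟩
  · left
    have ha' := e.injective ha
    have hb' := e.injective hb
    simp only [Prod.mk.injEq] at ha' hb'
    tauto
  · right
    have ha' := e.injective ha
    have hb' := e.injective hb
    simp only [Prod.mk.injEq] at ha' hb'
    tauto

theorem cross {n : ℕ} (hn : 8 * n < p) (hp : 2 < p) {b b' : F}
    {y y' : F} {x x' : ZMod p} (hy : y ≠ 0)
    (hb : (j b).1.val < 2 * n) (hb' : (j b').1.val < 2 * n)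
    (hx : ((j ((y + y)⁻¹ * j.symm (1, 0))).1 * x).val < n)
    (hx' : ((j ((y + y)⁻¹ * j.symm (1, 0))).1 * x').val < n)
    (hr1 : 4 * n ≤ (j ((y + y)⁻¹ * j.symm (0, 1))).1.val)
    (hr2 : (j ((y + y)⁻¹ * j.symm (0, 1))).1.val < 6 * n)
    (h : encB j b + encA j e y x = encB j b' + encA j e y' x') :
    b = b' ∧ (y = y' ∧ x = x') := by
  obtain ⟨h1, h2, h3, h4, h5, h6, -⟩ := enc_add h
  rw [zero_add, zero_add] at h5 h6
  have hyy : y = y' := j_ext j h5 h6
  subst hyy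
  have hw := j_add_ext j h1 h2
  have hth : e (1, 0) ≠ 0 := by
    intro h0
    have : ((1 : ZMod p), (0 : F)) = 0 := by
      apply e.injective; rw [h0, map_zero]
    simp at this
  have hyy2 : y + y ≠ 0 := by
    rw [← two_mul]; exact mul_ne_zero (two_ne hp) hy
  set θ := e (1, 0) with hθ
  have hz1 : e (x', y) - e (x, y) = (x' - x) • θ := by
    rw [hθ, ← map_sub, ← map_smul]
    congr 1
    simp
  have hz2 : e (x', y) + e (x, y) = e (x + x', y + y) := by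
    rw [← map_add]
    congr 1
    simp [add_comm]
  have hm : e.symm (e (x', y) ^ 2 / θ) - e.symm (e (x, y) ^ 2 / θ) =
      (x' - x) • (x + x', y + y) := by
    rw [← map_sub]
    apply e.injective
    rw [LinearEquiv.apply_symm_apply, map_smul, ← hz2]
    have : e (x', y) ^ 2 / θ - e (x, y) ^ 2 / θ =
        ((e (x', y) - e (x, y)) * (e (x', y) + e (x, y))) / θ := by ring
    rw [this, hz1, smul_mul_assoc]
    rw [Algebra.smul_def, Algebra.smul_def]
    field_simp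
  have hm1 : (e.symm (e (x', y) ^ 2 / θ)).1 - (e.symm (e (x, y) ^ 2 / θ)).1 =
      (x' - x) * (x + x') := by
    have := congrArg Prod.fst hm
    simpa using this
  have hm2 : (e.symm (e (x', y) ^ 2 / θ)).2 - (e.symm (e (x, y) ^ 2 / θ)).2 =
      (x' - x) • (y + y) := by
    have := congrArg Prod.snd hm
    simpa using this
  have hbb : b - b' = (x' - x) • (y + y) := by
    rw [← hm2]
    linear_combination hw
  have hb2 : b ^ 2 - b' ^ 2 = (x' - x) • ((x + x') • j.symm (1, 0) + j.symm (0, 1)) := by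
    apply j.injective
    rw [map_sub, map_smul, map_add, map_smul, LinearEquiv.apply_symm_apply,
      LinearEquiv.apply_symm_apply]
    apply Prod.ext
    · simp only [Prod.fst_sub, Prod.smul_fst, Prod.fst_add, smul_eq_mul, mul_one, add_zero]
      rw [← hm1]
      linear_combination h3
    · simp only [Prod.snd_sub, Prod.smul_snd, Prod.snd_add, smul_eq_mul, mul_zero, zero_add,
        mul_one]
      linear_combination h4
  by_cases hxx : x = x'
  · subst hxx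
    refine ⟨?_, rfl, rfl⟩
    rw [sub_self, zero_smul, sub_eq_zero] at hbb
    exact hbb
  · exfalso
    have hx0 : x' - x ≠ 0 := sub_ne_zero.mpr (Ne.symm hxx)
    have hfac : (x' - x) • ((y + y) * (b + b')) =
        (x' - x) • ((x + x') • j.symm (1, 0) + j.symm (0, 1)) := by
      rw [← hb2, ← smul_mul_assoc, ← hbb]
      ring
    have hfac2 : (y + y) * (b + b') = (x + x') • j.symm (1, 0) + j.symm (0, 1) := by
      exact (smul_right_injective F hx0) hfac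
    have hfac3 : b + b' = x • ((y + y)⁻¹ * j.symm (1, 0)) + x' • ((y + y)⁻¹ * j.symm (1, 0)) +
        (y + y)⁻¹ * j.symm (0, 1) := by
      rw [← add_smul, ← mul_smul_comm, ← mul_add, ← hfac2, inv_mul_cancel_left₀ hyy2]
    have hfac4 : (j b).1 + (j b').1 = (j ((y + y)⁻¹ * j.symm (1, 0))).1 * x +
        (j ((y + y)⁻¹ * j.symm (1, 0))).1 * x' + (j ((y + y)⁻¹ * j.symm (0, 1))).1 := by
      have := congrArg (fun t => (j t).1) hfac3
      simp only [map_add, map_smul, Prod.fst_add, Prod.smul_fst, smul_eq_mul] at this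
      rw [this]
      ring
    exact interval_contra hn hb hb' hx hx' hr1 hr2 hfac4

theorem card_interval [NeZero p] {lo hi : ℕ} (h2 : hi ≤ p) :
    (Finset.univ.filter (fun m : ZMod p => lo ≤ m.val ∧ m.val < hi)).card = hi - lo := by
  rw [← Nat.card_Ico]
  apply Finset.card_bij (fun m _ => m.val)
  · intro a ha
    simpa using ha
  · intro a _ b _ hab
    exact ZMod.val_injective p hab
  · intro b hb
    rw [Finset.mem_Ico] at hb
    have : ((b : ZMod p)).val = b := ZMod.val_cast_of_lt (by omega)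
    exact ⟨(b : ZMod p), by simp [this]; omega, this⟩

/-- the linear map `v ↦ (φ (v c₀), φ (v c₁))` -/
def T : F →ₗ[ZMod p] (ZMod p × ZMod p) :=
  LinearMap.prod
    ((LinearMap.fst (ZMod p) (ZMod p) (ZMod p)) ∘ₗ j.toLinearMap ∘ₗ
      (LinearMap.mulRight (ZMod p) (j.symm (1, 0))))
    ((LinearMap.fst (ZMod p) (ZMod p) (ZMod p)) ∘ₗ j.toLinearMap ∘ₗ
      (LinearMap.mulRight (ZMod p) (j.symm (0, 1))))

theorem T_apply (v : F) : T j v = ((j (v * j.symm (1, 0))).1, (j (v * j.symm (0, 1))).1) := rfl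

theorem T_inj : Function.Injective (T j) := by
  rw [← LinearMap.ker_eq_bot, LinearMap.ker_eq_bot']
  intro v hv
  by_contra hv0
  rw [T_apply] at hv
  have h1 : (j (v * j.symm (1, 0))).1 = 0 := congrArg Prod.fst hv
  have h2 : (j (v * j.symm (0, 1))).1 = 0 := congrArg Prod.snd hv
  have h3 : ∀ c : F, (j (v * c)).1 = 0 := by
    intro c
    have hc : c = (j c).1 • j.symm (1, 0) + (j c).2 • j.symm (0, 1) := by
      apply j.injective
      rw [map_add, map_smul, map_smul, LinearEquiv.apply_symm_apply, LinearEquiv.apply_symm_apply]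
      apply Prod.ext <;> simp
    rw [hc, mul_add, mul_smul_comm, mul_smul_comm, map_add, map_smul, map_smul]
    simp [h1, h2]
  have h4 := h3 (v⁻¹ * j.symm (1, 0))
  rw [mul_inv_cancel_left₀ hv0, LinearEquiv.apply_symm_apply] at h4
  simp at h4

theorem T_surj : Function.Surjective (T j) := by
  have hfin : Finite F := Finite.of_equiv _ j.symm.toEquiv
  have h1 : Nat.card F = Nat.card (ZMod p × ZMod p) := Nat.card_congr j.toEquiv
  exact ((Nat.bijective_iff_injective_and_card (T j)).mpr ⟨T_inj j, h1⟩).2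

/-- main finite statement -/
theorem core_main {n : ℕ} (hn0 : 0 < n) (hn : 8 * n < p) (j : F ≃ₗ[ZMod p] (ZMod p × ZMod p))
    (e : (ZMod p × F) ≃ₗ[ZMod p] E) :
    ∃ A : Finset ℕ, A ⊆ Finset.Icc 1 (2 * (2 * p) ^ 6) ∧
      (∀ a ∈ A, ∀ b ∈ A, ∀ c ∈ A, ∀ d ∈ A,
            a + b = c + d → (a = c ∧ b = d) ∨ (a = d ∧ b = c)) ∧
      (p - 1) * (2 * n * n) ≤ A.card ∧
      2 * n * p ≤ (A ∩ Finset.Icc 1 ((2 * p) ^ 4)).card := by
  classical
  have hp : 2 < p := by omega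
  have hT := T_surj j
  choose S hS using hT
  have hT1 : ∀ k r : ZMod p, (j (S (k, r) * j.symm (1, 0))).1 = k := fun k r =>
    congrArg Prod.fst (hS (k, r))
  have hT2 : ∀ k r : ZMod p, (j (S (k, r) * j.symm (0, 1))).1 = r := fun k r =>
    congrArg Prod.snd (hS (k, r))
  have hS0 : ∀ k r : ZMod p, k ≠ 0 → S (k, r) ≠ 0 := by
    intro k r hk h0
    apply hk
    rw [← hT1 k r, h0, zero_mul, map_zero]; rfl
  have h2F : (2 : F) ≠ 0 := two_ne hp
  -- y from v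
  have hY : ∀ v : F, v ≠ 0 → ((2 * v)⁻¹ + (2 * v)⁻¹)⁻¹ = v := by
    intro v hv
    rw [← two_mul, mul_inv, inv_inv, inv_mul_cancel_left₀ h2F]
  let IB : Finset (ZMod p × ZMod p) :=
    (Finset.univ.filter (fun m : ZMod p => 0 ≤ m.val ∧ m.val < 2 * n)) ×ˢ Finset.univ
  let IA : Finset (ZMod p × ZMod p × ZMod p) :=
    (Finset.univ.filter (fun m : ZMod p => 1 ≤ m.val ∧ m.val < p)) ×ˢ
    (Finset.univ.filter (fun m : ZMod p => 4 * n ≤ m.val ∧ m.val < 6 * n)) ×ˢ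
    (Finset.univ.filter (fun m : ZMod p => 0 ≤ m.val ∧ m.val < n))
  let fB : ZMod p × ZMod p → ℕ := fun q => encB j (j.symm q)
  let fA : ZMod p × ZMod p × ZMod p → ℕ := fun q =>
    encA j e (2 * S (q.1, q.2.1))⁻¹ (q.1⁻¹ * q.2.2)
  have hfB : ∀ q, fB q = encB j (j.symm q) := fun _ => rfl
  have hfA : ∀ q, fA q = encA j e (2 * S (q.1, q.2.1))⁻¹ (q.1⁻¹ * q.2.2) := fun _ => rfl
  have hval0 : ∀ k : ZMod p, 1 ≤ k.val → k ≠ 0 := by
    intro k hk h0
    rw [h0, ZMod.val_zero] at hk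
    omega
  have hcardB : IB.card = 2 * n * p := by
    rw [Finset.card_product, card_interval (by omega), Finset.card_univ, ZMod.card]
    simp
  have hcardA : IA.card = (p - 1) * (2 * n * n) := by
    rw [Finset.card_product, Finset.card_product, card_interval le_rfl, card_interval (by omega),
      card_interval (by omega)]
    congr 1
    congr 1
    omega
  have hinjB : Set.InjOn fB (IB : Set (ZMod p × ZMod p)) := by
    intro q _ q' _ h
    exact j.symm.injective (encB_inj j h)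
  have hinjA : Set.InjOn fA (IA : Set (ZMod p × ZMod p × ZMod p)) := by
    intro q hq q' hq' h
    obtain ⟨k, r, m⟩ := q
    obtain ⟨k', r', m'⟩ := q'
    simp only [IA, Finset.coe_product, Set.mem_prod, Finset.mem_coe, Finset.mem_filter,
      Finset.mem_univ, true_and] at hq hq'
    have hk : k ≠ 0 := hval0 _ hq.1.1
    have hk' : k' ≠ 0 := hval0 _ hq'.1.1
    obtain ⟨h1, h2⟩ := encA_inj j e h
    simp only at h1 h2
    have h3 : S (k, r) = S (k', r') := by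
      have := inv_injective h1
      exact mul_left_cancel₀ h2F this
    have h4 := hS (k, r)
    rw [h3, hS (k', r')] at h4
    simp only [Prod.mk.injEq] at h4
    obtain ⟨h5, h6⟩ := h4
    subst h5 h6
    have := mul_left_cancel₀ (inv_ne_zero hk) h2
    rw [this]
  -- membership facts
  have memB : ∀ a ∈ IB.image fB, ∃ b : F, a = encB j b ∧ (j b).1.val < 2 * n := by
    intro a ha
    obtain ⟨q, hq, rfl⟩ := Finset.mem_image.mp ha
    refine ⟨j.symm q, rfl, ?_⟩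
    rw [LinearEquiv.apply_symm_apply]
    simp only [IB, Finset.mem_product, Finset.mem_filter, Finset.mem_univ, true_and] at hq
    exact hq.1.2
  have memA : ∀ a ∈ IA.image fA, ∃ (y : F) (x : ZMod p), a = encA j e y x ∧ y ≠ 0 ∧
      ((j ((y + y)⁻¹ * j.symm (1, 0))).1 * x).val < n ∧
      4 * n ≤ (j ((y + y)⁻¹ * j.symm (0, 1))).1.val ∧
      (j ((y + y)⁻¹ * j.symm (0, 1))).1.val < 6 * n := by
    intro a ha
    obtain ⟨⟨k, r, m⟩, hq, rfl⟩ := Finset.mem_image.mp ha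
    simp only [IA, Finset.mem_product, Finset.mem_filter, Finset.mem_univ, true_and] at hq
    have hk : k ≠ 0 := hval0 _ hq.1.1
    refine ⟨_, _, rfl, ?_, ?_, ?_, ?_⟩
    · exact inv_ne_zero (mul_ne_zero h2F (hS0 k r hk))
    · simp only
      rw [hY _ (hS0 k r hk), hT1, mul_inv_cancel_left₀ hk]
      exact hq.2.2.2
    · simp only
      rw [hY _ (hS0 k r hk), hT2]
      exact hq.2.1.1
    · simp only
      rw [hY _ (hS0 k r hk), hT2]
      exact hq.2.1.2
  have hflag : ∀ {f g h i : ℕ} {a1 a2 a3 a4 a5 a6 b1 b2 b3 b4 b5 b6 c1 c2 c3 c4 c5 c6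
      d1 d2 d3 d4 d5 d6 : ZMod p},
      enc p f a1 a2 a3 a4 a5 a6 + enc p g b1 b2 b3 b4 b5 b6 =
      enc p h c1 c2 c3 c4 c5 c6 + enc p i d1 d2 d3 d4 d5 d6 → f + g = h + i := by
    intro f g h i a1 a2 a3 a4 a5 a6 b1 b2 b3 b4 b5 b6 c1 c2 c3 c4 c5 c6 d1 d2 d3 d4 d5 d6 heq
    exact (enc_add heq).2.2.2.2.2.2
  have hcross : ∀ a ∈ IB.image fB, ∀ b ∈ IA.image fA, ∀ c ∈ IB.image fB, ∀ d ∈ IA.image fA,
      a + b = c + d → a = c ∧ b = d := by
    intro a ha b hb c hc d hd h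
    obtain ⟨u, rfl, hu⟩ := memB a ha
    obtain ⟨w, rfl, hw⟩ := memB c hc
    obtain ⟨y, x, rfl, hy, hx, hr1, hr2⟩ := memA b hb
    obtain ⟨y', x', rfl, hy', hx', hr1', hr2'⟩ := memA d hd
    have hyy : y = y' := by
      obtain ⟨h1, h2, h3, h4, h5, h6, -⟩ := enc_add h
      rw [zero_add, zero_add] at h5 h6
      exact j_ext j h5 h6
    subst hyy
    obtain ⟨h1, -, h2⟩ := cross j e hn hp hy hu hw hx hx' hr1 hr2 h
    subst h1 h2
    exact ⟨rfl, rfl⟩
  have hBB : ∀ a ∈ IB.image fB, ∀ b ∈ IB.image fB, ∀ c ∈ IB.image fB, ∀ d ∈ IB.image fB,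
      a + b = c + d → (a = c ∧ b = d) ∨ (a = d ∧ b = c) := by
    intro a ha b hb c hc d hd h
    obtain ⟨u, rfl, -⟩ := memB a ha
    obtain ⟨v, rfl, -⟩ := memB b hb
    obtain ⟨w, rfl, -⟩ := memB c hc
    obtain ⟨z, rfl, -⟩ := memB d hd
    rcases sidonB j hp h with ⟨h1, h2⟩ | ⟨h1, h2⟩
    · left; rw [h1, h2]; exact ⟨rfl, rfl⟩
    · right; rw [h1, h2]; exact ⟨rfl, rfl⟩
  have hAA : ∀ a ∈ IA.image fA, ∀ b ∈ IA.image fA, ∀ c ∈ IA.image fA, ∀ d ∈ IA.image fA,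
      a + b = c + d → (a = c ∧ b = d) ∨ (a = d ∧ b = c) := by
    intro a ha b hb c hc d hd h
    obtain ⟨y1, x1, rfl, -⟩ := memA a ha
    obtain ⟨y2, x2, rfl, -⟩ := memA b hb
    obtain ⟨y3, x3, rfl, -⟩ := memA c hc
    obtain ⟨y4, x4, rfl, -⟩ := memA d hd
    rcases sidonA j e hp h with ⟨⟨h1, h2⟩, ⟨h3, h4⟩⟩ | ⟨⟨h1, h2⟩, ⟨h3, h4⟩⟩
    · left; rw [h1, h2, h3, h4]; exact ⟨rfl, rfl⟩
    · right; rw [h1, h2, h3, h4]; exact ⟨rfl, rfl⟩
  have flagB : ∀ a ∈ IB.image fB, ∃ a1 a2 a3 a4 a5 a6 : ZMod p,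
      a = enc p 0 a1 a2 a3 a4 a5 a6 := by
    intro a ha
    obtain ⟨q, -, rfl⟩ := Finset.mem_image.mp ha
    exact ⟨_, _, _, _, _, _, rfl⟩
  have flagA : ∀ a ∈ IA.image fA, ∃ a1 a2 a3 a4 a5 a6 : ZMod p,
      a = enc p 1 a1 a2 a3 a4 a5 a6 := by
    intro a ha
    obtain ⟨q, -, rfl⟩ := Finset.mem_image.mp ha
    exact ⟨_, _, _, _, _, _, rfl⟩
  refine ⟨IB.image fB ∪ IA.image fA, ?_, ?_, ?_, ?_⟩
  · intro a ha
    rw [Finset.mem_Icc]
    rcases Finset.mem_union.mp ha with ha | ha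
    · obtain ⟨q, -, rfl⟩ := Finset.mem_image.mp ha
      refine ⟨enc_pos, ?_⟩
      have h1 : fB q ≤ (2 * p) ^ 4 := enc_le_low
      have h2 : (2 * p) ^ 4 ≤ (2 * p) ^ 6 := Nat.pow_le_pow_right (by omega) (by omega)
      omega
    · obtain ⟨q, -, rfl⟩ := Finset.mem_image.mp ha
      exact ⟨enc_pos, enc_le⟩
  · intro a ha b hb c hc d hd h
    have key : ∀ a, a ∈ IB.image fB ∪ IA.image fA →
        (a ∈ IB.image fB ∧ ∃ a1 a2 a3 a4 a5 a6 : ZMod p, a = enc p 0 a1 a2 a3 a4 a5 a6) ∨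
        (a ∈ IA.image fA ∧ ∃ a1 a2 a3 a4 a5 a6 : ZMod p, a = enc p 1 a1 a2 a3 a4 a5 a6) := by
      intro a ha
      rcases Finset.mem_union.mp ha with ha | ha
      · exact Or.inl ⟨ha, flagB a ha⟩
      · exact Or.inr ⟨ha, flagA a ha⟩
    rcases key a ha with ⟨ma, a1, a2, a3, a4, a5, a6, ea⟩ | ⟨ma, a1, a2, a3, a4, a5, a6, ea⟩ <;>
    rcases key b hb with ⟨mb, b1, b2, b3, b4, b5, b6, eb⟩ | ⟨mb, b1, b2, b3, b4, b5, b6, eb⟩ <;>
    rcases key c hc with ⟨mc, c1, c2, c3, c4, c5, c6, ec⟩ | ⟨mc, c1, c2, c3, c4, c5, c6, ec⟩ <;>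
    rcases key d hd with ⟨md, d1, d2, d3, d4, d5, d6, ed⟩ | ⟨md, d1, d2, d3, d4, d5, d6, ed⟩ <;>
    have hf := h <;>
    rw [ea, eb, ec, ed] at hf <;>
    replace hf := hflag hf
    all_goals first | (exfalso; omega) | skip
    · exact hBB a ma b mb c mc d md h
    · exact Or.inl (hcross a ma b mb c mc d md h)
    · exact Or.inr (hcross a ma b mb d md c mc (by rw [h, add_comm]))
    · have := hcross b mb a ma c mc d md (by rw [add_comm, h])
      exact Or.inr ⟨this.2, this.1⟩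
    · have := hcross b mb a ma d md c mc (by rw [add_comm, h, add_comm])
      exact Or.inl ⟨this.2, this.1⟩
    · exact hAA a ma b mb c mc d md h
  · rw [← hcardA, ← Finset.card_image_of_injOn hinjA]
    exact Finset.card_le_card Finset.subset_union_right
  · rw [← hcardB, ← Finset.card_image_of_injOn hinjB]
    apply Finset.card_le_card
    intro a ha
    rw [Finset.mem_inter]
    refine ⟨Finset.mem_union_left _ ha, ?_⟩
    obtain ⟨q, -, rfl⟩ := Finset.mem_image.mp ha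
    rw [Finset.mem_Icc]
    exact ⟨enc_pos, enc_le_low⟩

end core

/-- finite statement with all auxiliary data removed -/
theorem fin_main {n p : ℕ} (hpr : p.Prime) (hn0 : 0 < n) (hn : 8 * n < p) :
    ∃ A : Finset ℕ, A ⊆ Finset.Icc 1 (2 * (2 * p) ^ 6) ∧
      (∀ a ∈ A, ∀ b ∈ A, ∀ c ∈ A, ∀ d ∈ A,
            a + b = c + d → (a = c ∧ b = d) ∨ (a = d ∧ b = c)) ∧
      (p - 1) * (2 * n * n) ≤ A.card ∧
      2 * n * p ≤ (A ∩ Finset.Icc 1 ((2 * p) ^ 4)).card := by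
  have : Fact p.Prime := ⟨hpr⟩
  have h2 : Module.finrank (ZMod p) (GaloisField p 2) = 2 := GaloisField.finrank p (by norm_num)
  have h3 : Module.finrank (ZMod p) (GaloisField p 3) = 3 := GaloisField.finrank p (by norm_num)
  have : Module.Finite (ZMod p) (GaloisField p 2) :=
    Module.finite_of_finrank_pos (by rw [h2]; norm_num)
  have : Module.Finite (ZMod p) (GaloisField p 3) :=
    Module.finite_of_finrank_pos (by rw [h3]; norm_num)
  have j : GaloisField p 2 ≃ₗ[ZMod p] (ZMod p × ZMod p) :=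
    LinearEquiv.ofFinrankEq _ _ (by rw [h2]; simp)
  have e : (ZMod p × GaloisField p 2) ≃ₗ[ZMod p] GaloisField p 3 :=
    LinearEquiv.ofFinrankEq _ _ (by rw [h3, Module.finrank_prod, h2]; simp)
  exact core_main hn0 hn j e

theorem exists_n {N : ℕ} (hN : 2 ^ 31 ≤ N) : ∃ n : ℕ, 0 < n ∧ 2 ^ 31 * n ^ 6 ≤ N ∧
    N < 2 ^ 37 * n ^ 6 := by
  have hex : ∃ m : ℕ, N < 2 ^ 31 * m ^ 6 := by
    refine ⟨N + 1, ?_⟩
    have : N + 1 ≤ (N + 1) ^ 6 := Nat.le_self_pow (by norm_num) _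
    omega
  classical
  have hs := Nat.find_spec hex
  have h2 : 2 ≤ Nat.find hex := by
    by_contra hlt
    have : Nat.find hex ≤ 1 := by omega
    have h3 : (Nat.find hex) ^ 6 ≤ 1 ^ 6 := Nat.pow_le_pow_left this 6
    omega
  obtain ⟨n, hn⟩ : ∃ n, Nat.find hex = n + 1 := ⟨Nat.find hex - 1, by omega⟩
  rw [hn] at hs h2
  have h4 := Nat.find_min hex (m := n) (by omega)
  refine ⟨n, by omega, by omega, ?_⟩
  have h5 : (n + 1) ^ 6 ≤ (2 * n) ^ 6 := Nat.pow_le_pow_left (by omega) 6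
  have h6 : (2 * n) ^ 6 = 2 ^ 6 * n ^ 6 := by rw [mul_pow]
  rw [h6] at h5
  omega

/-- For every ε>0 and all large N there is a Sidon set A in [1,N] with more than N^(1/2-ε) elements, of which more than N^(1/3-ε) lie in [1,N^(2/3)]. -/
theorem result :
    ∀ ε : ℝ, 0 < ε → ∃ N₀ : ℕ, ∀ N : ℕ, N₀ ≤ N →
      ∃ A : Finset ℕ, A ⊆ Finset.Icc 1 N ∧
        (∀ a ∈ A, ∀ b ∈ A, ∀ c ∈ A, ∀ d ∈ A,
            a + b = c + d → (a = c ∧ b = d) ∨ (a = d ∧ b = c)) ∧
        (N : ℝ) ^ ((1 : ℝ) / 2 - ε) < (A.card : ℝ) ∧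
        (N : ℝ) ^ ((1 : ℝ) / 3 - ε) <
          ((A ∩ Finset.Icc 1 ⌊(N : ℝ) ^ ((2 : ℝ) / 3)⌋₊).card : ℝ) := by
  intro ε hε
  have htend : Filter.Tendsto (fun N : ℕ => (N : ℝ) ^ ε) Filter.atTop Filter.atTop :=
    (tendsto_rpow_atTop hε).comp tendsto_natCast_atTop_atTop
  obtain ⟨N₁, hN₁⟩ := Filter.eventually_atTop.mp (htend.eventually_gt_atTop ((2 : ℝ) ^ 19))
  refine ⟨max N₁ (2 ^ 31), ?_⟩
  intro N hN
  have hNε : (2 : ℝ) ^ 19 < (N : ℝ) ^ ε := hN₁ N (le_trans (le_max_left _ _) hN)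
  have hN31 : 2 ^ 31 ≤ N := le_trans (le_max_right _ _) hN
  have hN0 : (0 : ℝ) < N := by
    have : 0 < N := by omega
    exact_mod_cast this
  obtain ⟨n, hn0, hn1, hn2⟩ := exists_n hN31
  obtain ⟨p, hpr, hp1, hp2⟩ := Nat.exists_prime_lt_and_le_two_mul (8 * n) (by omega)
  obtain ⟨A, hA1, hA2, hA3, hA4⟩ := fin_main hpr hn0 hp1
  have hp16 : p ≤ 16 * n := by omega
  have hbig : 2 * (2 * p) ^ 6 ≤ N := by
    have h1 : (2 * p) ^ 6 ≤ (32 * n) ^ 6 := Nat.pow_le_pow_left (by omega) 6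
    have h2 : (32 * n) ^ 6 = 2 ^ 30 * n ^ 6 := by rw [mul_pow]; norm_num
    rw [h2] at h1
    calc 2 * (2 * p) ^ 6 ≤ 2 * (2 ^ 30 * n ^ 6) := Nat.mul_le_mul_left 2 h1
      _ = 2 ^ 31 * n ^ 6 := by ring
      _ ≤ N := hn1
  have hfloor : (2 * p) ^ 4 ≤ ⌊(N : ℝ) ^ ((2 : ℝ) / 3)⌋₊ := by
    apply Nat.le_floor
    have h1 : (((2 * p) ^ 6 : ℕ) : ℝ) ≤ (N : ℝ) := by
      have : (2 * p) ^ 6 ≤ N := by omega
      exact_mod_cast this
    have h2 : (((2 * p) ^ 4 : ℕ) : ℝ) = (((2 * p) ^ 6 : ℕ) : ℝ) ^ ((2 : ℝ) / 3) := by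
      push_cast
      rw [← Real.rpow_natCast, ← Real.rpow_natCast, ← Real.rpow_mul (by positivity)]
      norm_num
    rw [h2]
    exact Real.rpow_le_rpow (by positivity) h1 (by norm_num)
  have hn0' : (0 : ℝ) < n := by exact_mod_cast hn0
  have hN2 : (N : ℝ) ≤ 2 ^ 37 * (n : ℝ) ^ 6 := by exact_mod_cast hn2.le
  have hhalf : (N : ℝ) ^ ((1 : ℝ) / 2) ≤ 2 ^ 19 * (n : ℝ) ^ 3 := by
    calc (N : ℝ) ^ ((1 : ℝ) / 2) ≤ ((2 ^ 19 * (n : ℝ) ^ 3) ^ 2) ^ ((1 : ℝ) / 2) := by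
          apply Real.rpow_le_rpow hN0.le _ (by norm_num)
          calc (N : ℝ) ≤ 2 ^ 37 * (n : ℝ) ^ 6 := hN2
            _ ≤ (2 ^ 19 * (n : ℝ) ^ 3) ^ 2 := by
              rw [mul_pow, ← pow_mul, ← pow_mul]
              exact mul_le_mul_of_nonneg_right (by norm_num) (by positivity)
      _ = 2 ^ 19 * (n : ℝ) ^ 3 := by
          rw [← Real.rpow_natCast (2 ^ 19 * (n : ℝ) ^ 3) 2, ← Real.rpow_mul (by positivity)]
          norm_num
  have hthird : (N : ℝ) ^ ((1 : ℝ) / 3) ≤ 2 ^ 13 * (n : ℝ) ^ 2 := by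
    calc (N : ℝ) ^ ((1 : ℝ) / 3) ≤ ((2 ^ 13 * (n : ℝ) ^ 2) ^ 3) ^ ((1 : ℝ) / 3) := by
          apply Real.rpow_le_rpow hN0.le _ (by norm_num)
          calc (N : ℝ) ≤ 2 ^ 37 * (n : ℝ) ^ 6 := hN2
            _ ≤ (2 ^ 13 * (n : ℝ) ^ 2) ^ 3 := by
              rw [mul_pow, ← pow_mul, ← pow_mul]
              exact mul_le_mul_of_nonneg_right (by norm_num) (by positivity)
      _ = 2 ^ 13 * (n : ℝ) ^ 2 := by
          rw [← Real.rpow_natCast (2 ^ 13 * (n : ℝ) ^ 2) 3, ← Real.rpow_mul (by positivity)]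
          norm_num
  have hεpos : (0 : ℝ) < (N : ℝ) ^ ε := Real.rpow_pos_of_pos hN0 _
  refine ⟨A, ?_, hA2, ?_, ?_⟩
  · exact hA1.trans (Finset.Icc_subset_Icc_right hbig)
  · have hc : 16 * n ^ 3 ≤ A.card := by
      have h1 : 8 * n ≤ p - 1 := by omega
      calc 16 * n ^ 3 = 8 * n * (2 * n * n) := by ring
        _ ≤ (p - 1) * (2 * n * n) := Nat.mul_le_mul_right _ h1
        _ ≤ A.card := hA3
    have hc' : 16 * (n : ℝ) ^ 3 ≤ (A.card : ℝ) := by exact_mod_cast hc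
    rw [Real.rpow_sub hN0, div_lt_iff₀ hεpos]
    calc (N : ℝ) ^ ((1 : ℝ) / 2) ≤ 2 ^ 19 * (n : ℝ) ^ 3 := hhalf
      _ < (N : ℝ) ^ ε * (n : ℝ) ^ 3 := by
          exact mul_lt_mul_of_pos_right hNε (by positivity)
      _ ≤ (A.card : ℝ) * (N : ℝ) ^ ε := by
          rw [mul_comm]
          apply mul_le_mul_of_nonneg_right _ hεpos.le
          nlinarith [pow_pos hn0' 3]
  · have hc : 16 * n ^ 2 ≤ (A ∩ Finset.Icc 1 ⌊(N : ℝ) ^ ((2 : ℝ) / 3)⌋₊).card := by
      calc 16 * n ^ 2 = 2 * n * (8 * n) := by ring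
        _ ≤ 2 * n * p := Nat.mul_le_mul_left _ hp1.le
        _ ≤ (A ∩ Finset.Icc 1 ((2 * p) ^ 4)).card := hA4
        _ ≤ _ := Finset.card_le_card
            (Finset.inter_subset_inter_left (Finset.Icc_subset_Icc_right hfloor))
    have hc' : 16 * (n : ℝ) ^ 2 ≤
        ((A ∩ Finset.Icc 1 ⌊(N : ℝ) ^ ((2 : ℝ) / 3)⌋₊).card : ℝ) := by exact_mod_cast hc
    rw [Real.rpow_sub hN0, div_lt_iff₀ hεpos]
    calc (N : ℝ) ^ ((1 : ℝ) / 3) ≤ 2 ^ 13 * (n : ℝ) ^ 2 := hthird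
      _ < (N : ℝ) ^ ε * (n : ℝ) ^ 2 := by
          apply mul_lt_mul_of_pos_right _ (by positivity)
          linarith
      _ ≤ ((A ∩ Finset.Icc 1 ⌊(N : ℝ) ^ ((2 : ℝ) / 3)⌋₊).card : ℝ) * (N : ℝ) ^ ε := by
          rw [mul_comm]
          apply mul_le_mul_of_nonneg_right _ hεpos.le
          nlinarith [pow_pos hn0' 2]

end Pool.Agent.S10285
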