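import Pool.Statements.S10345

set_option autoImplicit false
open Pool Pool.MP_3bec75_nt

namespace Pool.Agent.S10345

/-- Distributing a total into bounded pieces. -/
lemma dist (h lo hi q : ℕ) (h1 : h * lo ≤ q) (h2 : q ≤ h * hi) :
    ∃ g : Fin h → ℕ, (∀ i, lo ≤ g i ∧ g i ≤ hi) ∧ ∑ i, g i = q := by
  induction h generalizing q with
  | zero =>
    refine ⟨fun _ => 0, fun i => i.elim0, ?_⟩
    simp at h2 ⊢
    exact h2.symm
  | succ h ih =>
    have hlohi : lo ≤ hi := by
      by_contra hcon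
      push Not at hcon
      have : (h + 1) * hi < (h + 1) * lo := Nat.mul_lt_mul_of_pos_left hcon (by omega)
      omega
    have e1 : (h + 1) * lo = h * lo + lo := by ring
    have e2 : (h + 1) * hi = h * hi + hi := by ring
    rw [e1] at h1
    rw [e2] at h2
    have hm : h * lo ≤ h * hi := Nat.mul_le_mul_left _ hlohi
    obtain ⟨g, hg1, hg2⟩ := ih (q - max lo (q - h * hi)) (by omega) (by omega)
    refine ⟨Fin.cons (max lo (q - h * hi)) g, ?_, ?_⟩
    · intro i
      refine Fin.cases ?_ (fun i => ?_) i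
      · simp only [Fin.cons_zero]
        omega
      · simp only [Fin.cons_succ]
        exact hg1 i
    · rw [Fin.sum_univ_succ]
      simp only [Fin.cons_zero, Fin.cons_succ]
      rw [hg2]
      omega

/-- The elements added at one stage. -/
def newSet (k c M θ Y : ℕ) : Set ℕ :=
  {x | (M < x ∧ x ≤ Y + c) ∨ (∃ a, 2 ≤ a ∧ a ≤ k ∧ x ≤ a * Y + c ∧ a * Y + c ≤ x + θ) ∨
    x = (k + 1) * Y + c}

/-- The special number of a stage is not a sum of `k + 1` elements different from `c + 1`. -/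
lemma kill (k c θ Y : ℕ) (hk : 2 ≤ k) (hθ : 1 ≤ θ) (hY : Y = k * θ + 2)
    (f : Fin (k + 1) → ℕ)
    (hf : ∀ i, (f i ≤ Y + c ∧ f i ≠ c + 1) ∨
      (∃ a, 2 ≤ a ∧ a ≤ k ∧ f i ≤ a * Y + c ∧ a * Y + c ≤ f i + θ) ∨
      f i = (k + 1) * Y + c) :
    ∑ i, f i ≠ (k + 1) * (k * Y + c) + 1 := by
  classical
  intro hsum
  set L := k * Y + c with hL
  set z := (k + 1) * Y + c with hz
  have hzL : z = L + Y := by rw [hz, hL]; ring
  have hθY : θ + 2 ≤ Y := by
    rw [hY]
    nlinarith
  have hY0 : 0 < Y := by omega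
  set K := Finset.univ.filter (fun i => f i = z) with hK
  set K' := Finset.univ.filter (fun i => ¬ f i = z) with hK'
  have hcard : K.card + K'.card = k + 1 := by
    have := Finset.card_filter_add_card_filter_not (s := (Finset.univ : Finset (Fin (k + 1))))
      (fun i => f i = z)
    simpa using this
  have hsplit : ∑ i ∈ K, f i + ∑ i ∈ K', f i = ∑ i, f i :=
    Finset.sum_filter_add_sum_filter_not Finset.univ (fun i => f i = z) f
  have hKsum : ∑ i ∈ K, f i = K.card * z := by
    rw [Finset.sum_congr rfl (fun i hi => (Finset.mem_filter.mp hi).2), Finset.sum_const,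
      smul_eq_mul]
  have hkY : 2 * Y ≤ k * Y := Nat.mul_le_mul_right Y hk
  -- elements outside K are at most L and differ from c + 1
  have hle : ∀ i ∈ K', f i ≤ L ∧ f i ≠ c + 1 := by
    intro i hi
    have hi' := (Finset.mem_filter.mp hi).2
    rcases hf i with h | ⟨a, ha1, ha2, ha3, ha4⟩ | h
    · exact ⟨by omega, h.2⟩
    · have h5 : a * Y ≤ k * Y := Nat.mul_le_mul_right Y ha2
      have h6 : 2 * Y ≤ a * Y := Nat.mul_le_mul_right Y ha1
      constructor <;> omega
    · exact absurd h hi'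
  set U := ∑ i ∈ K', (L - f i) with hU
  have hUsum : ∑ i ∈ K', f i + U = K'.card * L := by
    rw [hU, ← Finset.sum_add_distrib, Finset.sum_congr rfl (g := fun _ => L)]
    · simp
    · intro i hi
      have := (hle i hi).1
      omega
  have key : K.card * Y = U + 1 := by
    have e1 : K.card * z = K.card * L + K.card * Y := by rw [hzL]; ring
    have e2 : (K.card + K'.card) * L = K.card * L + K'.card * L := by ring
    rw [hcard] at e2
    omega
  have hK1 : 1 ≤ K.card := by
    by_contra hcon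
    have : K.card = 0 := by omega
    rw [this] at key
    omega
  rcases Nat.lt_or_ge K.card k with hlt | hge
  · -- at most k - 1 copies of z
    have hmod : ∀ i ∈ K', (L - f i) % Y ≤ θ := by
      intro i hi
      have h1 : L - f i ≤ U :=
        Finset.single_le_sum (f := fun i => L - f i) (fun i _ => Nat.zero_le _) hi
      have h2 : K.card * Y ≤ (k - 1) * Y := Nat.mul_le_mul_right Y (by omega)
      have h3 : (k - 1) * Y + Y = k * Y := by
        obtain ⟨m, rfl⟩ : ∃ m, k = m + 1 := ⟨k - 1, by omega⟩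
        simp only [Nat.add_sub_cancel]
        ring
      have hfi := (hle i hi).1
      have h4 : Y + c < f i := by omega
      rcases hf i with h | ⟨a, ha1, ha2, ha3, ha4⟩ | h
      · omega
      · have h5 : (k - a) * Y + a * Y = k * Y := by
          rw [← Nat.add_mul]
          congr 1
          omega
        have h6 : L - f i = (a * Y + c - f i) + (k - a) * Y := by omega
        rw [h6, Nat.add_mul_mod_self_right, Nat.mod_eq_of_lt (by omega)]
        omega
      · exact absurd h (Finset.mem_filter.mp hi).2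
    have hdecomp : U = Y * (∑ i ∈ K', (L - f i) / Y) + ∑ i ∈ K', (L - f i) % Y := by
      rw [Finset.mul_sum, ← Finset.sum_add_distrib, hU]
      exact Finset.sum_congr rfl fun i _ => (Nat.div_add_mod _ _).symm
    have hP : ∑ i ∈ K', (L - f i) % Y ≤ k * θ := by
      calc ∑ i ∈ K', (L - f i) % Y ≤ ∑ _i ∈ K', θ := Finset.sum_le_sum hmod
        _ = K'.card * θ := by simp
        _ ≤ k * θ := Nat.mul_le_mul_right θ (by omega)
    set Q := ∑ i ∈ K', (L - f i) / Y
    set P := ∑ i ∈ K', (L - f i) % Y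
    have h7 : K.card * Y = Y * Q + (P + 1) := by omega
    have h8 : Y ∣ P + 1 := by
      have h9 : Y ∣ Y * Q + (P + 1) := by
        rw [← h7]
        exact Dvd.intro_left _ rfl
      exact (Nat.dvd_add_right (Dvd.intro _ rfl)).mp h9
    have := Nat.le_of_dvd (by omega) h8
    omega
  · rcases Nat.eq_or_lt_of_le hge with heq | hgt
    · -- exactly k copies of z
      have hK'1 : K'.card = 1 := by omega
      obtain ⟨i₀, hi₀⟩ := Finset.card_eq_one.mp hK'1
      have hmem : i₀ ∈ K' := by rw [hi₀]; exact Finset.mem_singleton_self _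
      have hU0 : U = L - f i₀ := by rw [hU, hi₀, Finset.sum_singleton]
      have h1 := hle i₀ hmem
      rw [← heq] at key
      omega
    · have hK'0 : K'.card = 0 := by omega
      have h1 : K' = ∅ := Finset.card_eq_zero.mp hK'0
      have hU0 : U = 0 := by rw [hU, h1, Finset.sum_empty]
      have h2 : k * Y < K.card * Y := Nat.mul_lt_mul_of_pos_right hgt hY0
      omega

/-- The state of the construction. -/
structure St where
  S : Set ℕ
  c : ℕ
  M : ℕ
  y : ℕ

def th (k : ℕ) (s : St) : ℕ := (k + 1) * (s.M + 2)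
def YY (k : ℕ) (s : St) : ℕ := k * th k s + 2

noncomputable def step (k : ℕ) (s : St) : St where
  S := s.S ∪ newSet k s.c s.M (th k s) (YY k s)
  c := sInf {a | a + 1 ∈ s.S ∪ newSet k s.c s.M (th k s) (YY k s) ∧ s.c < a}
  M := (k + 1) * (k * YY k s + s.c) + 1
  y := s.M + 1

structure Inv (s : St) : Prop where
  hb : s.c + 1 ∈ s.S
  hy : s.y ∈ s.S
  hM : ∀ x ∈ s.S, x ≤ s.M

lemma th_big (k : ℕ) (s : St) : s.M + 2 ≤ th k s := by
  unfold th
  nlinarith

lemma YY_big (k : ℕ) (hk : 2 ≤ k) (s : St) : 2 * th k s + 2 ≤ YY k s := by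
  unfold YY
  nlinarith

lemma YY_big' (k : ℕ) (hk : 2 ≤ k) (s : St) : k * (s.M + 2) + 2 ≤ YY k s := by
  unfold YY
  have := th_big k s
  have := Nat.mul_le_mul_left k this
  omega

lemma M_lt (k : ℕ) (hk : 2 ≤ k) (s : St) :
    (k + 1) * YY k s + s.c ≤ (step k s).M := by
  have hk' := hk
  simp only [step]
  have h1 := Nat.mul_le_mul_left ((k + 1) * YY k s) (show 1 ≤ k by omega)
  nlinarith

lemma M_lt' (k : ℕ) (hk : 2 ≤ k) (s : St) : s.M < (step k s).M := by
  have h1 := M_lt k hk s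
  have h2 := YY_big' k hk s
  nlinarith

lemma mem_new_mid (k : ℕ) (s : St) (x : ℕ) (h1 : s.M < x) (h2 : x ≤ YY k s + s.c) :
    x ∈ (step k s).S := Or.inr (Or.inl ⟨h1, h2⟩)

lemma inv_step (k : ℕ) (hk : 2 ≤ k) (s : St) (hs : Inv s) :
    Inv (step k s) ∧ s.c < (step k s).c := by
  have hYb := YY_big' k hk s
  have hcM : s.c + 1 ≤ s.M := hs.hM _ hs.hb
  have hyM : s.M + 1 ∈ (step k s).S := mem_new_mid k s _ (by omega) (by nlinarith)
  have hne : {a | a + 1 ∈ s.S ∪ newSet k s.c s.M (th k s) (YY k s) ∧ s.c < a}.Nonempty :=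
    ⟨s.M, hyM, by omega⟩
  have hmem := Nat.sInf_mem hne
  refine ⟨⟨hmem.1, hyM, ?_⟩, hmem.2⟩
  intro x hx
  have hMlt := M_lt' k hk s
  have hMl := M_lt k hk s
  rcases hx with hx | hx | ⟨a, ha1, ha2, ha3, ha4⟩ | hx
  · have := hs.hM x hx
    omega
  · have : YY k s ≤ (k + 1) * YY k s := Nat.le_mul_of_pos_left _ (by omega)
    omega
  · have : a * YY k s ≤ (k + 1) * YY k s := Nat.mul_le_mul_right _ (by omega)
    omega
  · omega

/-- Coverage at one stage. -/
lemma cover (k : ℕ) (hk : 2 ≤ k) (s : St) (hs : Inv s) (n : ℕ)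
    (h1 : s.M + k * s.y + 1 ≤ n) (h2 : n ≤ (step k s).M + k * (step k s).y) :
    ∃ f : Fin (k + 1) → ℕ, (∀ i, f i ∈ (step k s).S ∧ (s.y ≤ f i ∨ f i = s.c + 1)) ∧
      ∑ i, f i = n := by
  have hyM : s.y ≤ s.M := hs.hM _ hs.hy
  have hcM : s.c + 1 ≤ s.M := hs.hM _ hs.hb
  have hθ := th_big k s
  have hθ' : th k s = (k + 1) * (s.M + 2) := rfl
  have hYd : YY k s = k * th k s + 2 := rfl
  have hYb := YY_big k hk s
  have hYb' := YY_big' k hk s
  set Y := YY k s with hY
  set θ := th k s with hθd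
  set c := s.c with hc
  set M := s.M with hM
  have hstepM : (step k s).M = (k + 1) * (k * Y + c) + 1 := rfl
  have hstepy : (step k s).y = M + 1 := rfl
  have hold : ∀ x ∈ s.S, x ∈ (step k s).S := fun x hx => Or.inl hx
  have hz : (k + 1) * Y + c ∈ (step k s).S := Or.inr (Or.inr (Or.inr rfl))
  have hblock : ∀ a ρ, 1 ≤ a → a ≤ k → ρ ≤ θ →
      a * Y + c - ρ ∈ (step k s).S ∧ s.y ≤ a * Y + c - ρ := by
    intro a ρ ha1 ha2 hρ
    have hY1 : 1 * Y ≤ a * Y := Nat.mul_le_mul_right Y ha1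
    refine ⟨?_, by omega⟩
    rcases Nat.eq_or_lt_of_le ha1 with h | h
    · subst h
      apply mem_new_mid k s _
      · omega
      · omega
    · exact Or.inr (Or.inr (Or.inl ⟨a, h, ha2, show a * Y + c - ρ ≤ a * Y + c by omega,
        show a * Y + c ≤ a * Y + c - ρ + θ by omega⟩))
  by_cases hc1 : n ≤ Y + c
  · -- one element of the interval and k copies of y
    refine ⟨Fin.cons (n - k * s.y) (fun _ => s.y), ?_, ?_⟩
    · intro i
      refine Fin.cases ?_ (fun i => ?_) i
      · simp only [Fin.cons_zero]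
        exact ⟨mem_new_mid k s _ (by omega) (by omega), by omega⟩
      · simp only [Fin.cons_succ]
        exact ⟨hold _ hs.hy, Or.inl le_rfl⟩
    · rw [Fin.sum_univ_succ]
      simp only [Fin.cons_zero, Fin.cons_succ, Finset.sum_const, Finset.card_univ, Fintype.card_fin,
        smul_eq_mul]
      omega
  push Not at hc1
  by_cases hc2 : n ≤ (k + 1) * (Y + c)
  · -- all elements in the interval
    obtain ⟨g, hg1, hg2⟩ := dist (k + 1) (M + 1) (Y + c) n (by nlinarith) hc2
    refine ⟨g, fun i => ⟨mem_new_mid k s _ ?_ (hg1 i).2, ?_⟩, hg2⟩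
    · have := (hg1 i).1
      omega
    · left
      have := (hg1 i).1
      omega
  push Not at hc2
  by_cases hc3 : n ≤ (k + 1) * (k * Y + c)
  · -- one element in each of some blocks
    have e0 : (k + 1) * (k * Y + c) = ((k + 1) * k) * Y + (k + 1) * c := by ring
    have e1 : (k + 1) * (Y + c) = (k + 1) * Y + (k + 1) * c := by ring
    rw [e0] at hc3
    rw [e1] at hc2
    set w := n - (k + 1) * c with hw
    have hw1 : (k + 1) * Y < w := by omega
    have hw2 : w ≤ ((k + 1) * k) * Y := by omega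
    -- I = ceil (w / Y)
    set I := (w + (Y - 1)) / Y with hI
    have hY0 : 0 < Y := by omega
    have hI1 : I * Y ≤ w + (Y - 1) := Nat.div_mul_le_self _ _
    have hI2 : w + (Y - 1) < I * Y + Y := by
      have := Nat.lt_div_mul_add (a := w + (Y - 1)) hY0
      exact this
    have hI3 : k + 1 ≤ I := by
      by_contra hcon
      have : I * Y ≤ k * Y := Nat.mul_le_mul_right Y (by omega)
      have e : (k + 1) * Y = k * Y + Y := by ring
      omega
    have hI4 : I ≤ (k + 1) * k := by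
      by_contra hcon
      have : ((k + 1) * k + 1) * Y ≤ I * Y := Nat.mul_le_mul_right Y (by omega)
      have e : ((k + 1) * k + 1) * Y = ((k + 1) * k) * Y + Y := by ring
      omega
    obtain ⟨g, hg1, hg2⟩ := dist (k + 1) 1 k I (by omega) hI4
    have hρ : I * Y - w ≤ (k + 1) * θ := by
      have : (k + 1) * θ = k * θ + θ := by ring
      omega
    obtain ⟨r, hr1, hr2⟩ := dist (k + 1) 0 θ (I * Y - w) (by omega) hρ
    refine ⟨fun i => g i * Y + c - r i, fun i => ?_, ?_⟩
    · have h3 := hblock (g i) (r i) (hg1 i).1 (hg1 i).2 (hr1 i).2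
      exact ⟨h3.1, Or.inl h3.2⟩
    · have h4 : ∑ i, (g i * Y + c - r i) + ∑ i, r i = ∑ i, (g i * Y + c) := by
        rw [← Finset.sum_add_distrib]
        apply Finset.sum_congr rfl
        intro i _
        have h5 : 1 * Y ≤ g i * Y := Nat.mul_le_mul_right Y (hg1 i).1
        have h6 := (hr1 i).2
        omega
      rw [Finset.sum_add_distrib, ← Finset.sum_mul, hg2, hr2] at h4
      simp only [Finset.sum_const, Finset.card_univ, Fintype.card_fin, smul_eq_mul] at h4
      have hw3 : w ≤ I * Y := by omega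
      show ∑ i, (g i * Y + c - r i) = n
      omega
  push Not at hc3
  by_cases hc4 : n = (k + 1) * (k * Y + c) + 1
  · -- the special number
    refine ⟨Fin.cons (c + 1) (fun _ => (k + 1) * Y + c), ?_, ?_⟩
    · intro i
      refine Fin.cases ?_ (fun i => ?_) i
      · simp only [Fin.cons_zero]
        exact ⟨hold _ hs.hb, by simp⟩
      · simp only [Fin.cons_succ]
        refine ⟨hz, Or.inl ?_⟩
        have : Y ≤ (k + 1) * Y := Nat.le_mul_of_pos_left _ (by omega)
        omega
    · rw [Fin.sum_univ_succ]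
      simp only [Fin.cons_zero, Fin.cons_succ, Finset.sum_const, Finset.card_univ, Fintype.card_fin,
        smul_eq_mul]
      rw [hc4]
      ring
  · -- z and k elements of the top block
    rw [hstepM, hstepy] at h2
    have e2 : (k + 1) * (k * Y + c) = k * (k * Y + c) + (k * Y + c) := by ring
    have e3 : (k + 1) * Y + c = (k * Y + c) + Y := by ring
    have e4 : k * (M + 2) = k * (M + 1) + k := by ring
    obtain ⟨r, hr1, hr2⟩ := dist k 0 θ ((k + 1) * (k * Y + c) + Y - n) (by omega) (by omega)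
    refine ⟨Fin.cons ((k + 1) * Y + c) (fun i => k * Y + c - r i), ?_, ?_⟩
    · intro i
      refine Fin.cases ?_ (fun i => ?_) i
      · simp only [Fin.cons_zero]
        refine ⟨hz, Or.inl ?_⟩
        have : Y ≤ (k + 1) * Y := Nat.le_mul_of_pos_left _ (by omega)
        omega
      · simp only [Fin.cons_succ]
        have h3 := hblock k (r i) (by omega) le_rfl (hr1 i).2
        exact ⟨h3.1, Or.inl h3.2⟩
    · rw [Fin.sum_univ_succ]
      simp only [Fin.cons_zero, Fin.cons_succ]
      have h4 : ∑ i, (k * Y + c - r i) + ∑ i, r i = ∑ _i : Fin k, (k * Y + c) := by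
        rw [← Finset.sum_add_distrib]
        apply Finset.sum_congr rfl
        intro i _
        have h5 : 2 * Y ≤ k * Y := Nat.mul_le_mul_right Y hk
        have h6 := (hr1 i).2
        omega
      rw [hr2] at h4
      simp only [Finset.sum_const, Finset.card_univ, Fintype.card_fin, smul_eq_mul] at h4
      omega

lemma step_mono (k : ℕ) (s : St) (x : ℕ) (hx : x ∈ s.S) : x ∈ (step k s).S := Or.inl hx

lemma step_new (k : ℕ) (hk : 2 ≤ k) (s : St) (x : ℕ) (hx : x ∈ (step k s).S)
    (hx' : x ≤ s.M) : x ∈ s.S := by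
  have hθ := th_big k s
  have hYb := YY_big k hk s
  rcases hx with hx | hx | ⟨a, ha1, ha2, ha3, ha4⟩ | hx
  · exact hx
  · omega
  · have : 2 * YY k s ≤ a * YY k s := Nat.mul_le_mul_right _ ha1
    omega
  · have : YY k s ≤ (k + 1) * YY k s := Nat.le_mul_of_pos_left _ (by omega)
    omega

/-- The sequence of states. -/
noncomputable def sq (k : ℕ) : ℕ → St
  | 0 => ⟨{1}, 0, 1, 1⟩
  | j + 1 => step k (sq k j)

/-- The basis. -/
def bas (k : ℕ) : Set ℕ := {x | ∃ j, x ∈ (sq k j).S}

lemma inv_sq (k : ℕ) (hk : 2 ≤ k) (j : ℕ) : Inv (sq k j) := by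
  induction j with
  | zero =>
    refine ⟨rfl, rfl, ?_⟩
    intro x hx
    have : x = 1 := hx
    rw [this]
    exact le_rfl
  | succ j ih => exact (inv_step k hk _ ih).1

lemma c_lt (k : ℕ) (hk : 2 ≤ k) (j : ℕ) : (sq k j).c < (sq k (j + 1)).c :=
  (inv_step k hk _ (inv_sq k hk j)).2

lemma c_mono (k : ℕ) (hk : 2 ≤ k) : StrictMono fun j => (sq k j).c :=
  strictMono_nat_of_lt_succ (c_lt k hk)

lemma M_mono (k : ℕ) (hk : 2 ≤ k) : StrictMono fun j => (sq k j).M :=
  strictMono_nat_of_lt_succ fun j => M_lt' k hk (sq k j)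

lemma S_mono (k : ℕ) {i j : ℕ} (hij : i ≤ j) (x : ℕ) (hx : x ∈ (sq k i).S) :
    x ∈ (sq k j).S := by
  induction hij with
  | refl => exact hx
  | step _ ih => exact step_mono k _ x ih

lemma mem_stage (k : ℕ) (hk : 2 ≤ k) (j x : ℕ) (hx : x ∈ bas k) (hx' : x ≤ (sq k j).M) :
    x ∈ (sq k j).S := by
  obtain ⟨i, hi⟩ := hx
  rcases le_total i j with h | h
  · exact S_mono k h x hi
  · induction h with
    | refl => exact hi
    | @step m hm ih =>
      apply ih
      have h1 : (sq k j).M ≤ (sq k m).M := (M_mono k hk).monotone hm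
      exact step_new k hk _ x hi (hx'.trans h1)

/-- Every element of the basis is the distinguished element of some stage. -/
lemma exists_stage (k : ℕ) (hk : 2 ≤ k) (b : ℕ) (hb : b ∈ bas k) (hb1 : 1 ≤ b) :
    ∃ j, (sq k j).c + 1 = b := by
  classical
  have hex : ∃ j, b ≤ (sq k j).c + 1 := by
    refine ⟨b, ?_⟩
    have := (c_mono k hk).id_le b
    simp only [id] at this
    omega
  set j := Nat.find hex with hj
  have h1 : b ≤ (sq k j).c + 1 := Nat.find_spec hex
  rcases Nat.eq_zero_or_pos j with h0 | hpos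
  · refine ⟨0, ?_⟩
    rw [h0] at h1
    have : (sq k 0).c = 0 := rfl
    omega
  · obtain ⟨i, hi⟩ : ∃ i, j = i + 1 := ⟨j - 1, by omega⟩
    have h2 : ¬ b ≤ (sq k i).c + 1 := Nat.find_min hex (by omega)
    refine ⟨j, ?_⟩
    have hinv := inv_sq k hk j
    have h3 : b ∈ (sq k j).S := by
      apply mem_stage k hk j b hb
      exact h1.trans (hinv.hM _ hinv.hb)
    rw [hi] at h3 ⊢
    have h4 : (sq k (i + 1)).c ≤ b - 1 := by
      apply Nat.sInf_le
      refine ⟨?_, by omega⟩
      have : b - 1 + 1 = b := by omega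
      rw [this]
      exact h3
    rw [hi] at h1
    omega

lemma not_rep (k : ℕ) (hk : 2 ≤ k) (j : ℕ) (f : Fin (k + 1) → ℕ)
    (hf : ∀ i, f i ∈ bas k ∧ f i ≠ (sq k j).c + 1) : ∑ i, f i ≠ (sq k (j + 1)).M := by
  intro hsum
  have hinv := inv_sq k hk j
  have hYb := YY_big k hk (sq k j)
  have hθ := th_big k (sq k j)
  refine kill k (sq k j).c (th k (sq k j)) (YY k (sq k j)) hk (by omega) rfl f ?_ hsum
  intro i
  have h1 : f i ≤ (sq k (j + 1)).M := by
    rw [← hsum]
    exact Finset.single_le_sum (fun i _ => Nat.zero_le _) (Finset.mem_univ i)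
  have h2 := mem_stage k hk (j + 1) (f i) (hf i).1 h1
  have h3 := (hf i).2
  rcases h2 with h | h | h | h
  · left
    have := hinv.hM _ h
    exact ⟨by omega, h3⟩
  · left
    exact ⟨h.2, h3⟩
  · exact Or.inr (Or.inl h)
  · exact Or.inr (Or.inr h)

lemma rep_large (k : ℕ) (hk : 2 ≤ k) (j₀ : ℕ) (n : ℕ)
    (hn : (sq k (j₀ + 1)).M + k * (sq k (j₀ + 1)).y + 1 ≤ n) :
    ∃ f : Fin (k + 1) → ℕ, (∀ i, f i ∈ bas k ∧ j₀ < f i) ∧ ∑ i, f i = n := by
  classical
  have hex : ∃ j, n ≤ (sq k (j + 1)).M + k * (sq k (j + 1)).y := by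
    refine ⟨n, ?_⟩
    have := (M_mono k hk).id_le (n + 1)
    simp only [id] at this
    omega
  set j := Nat.find hex with hj
  have h1 : n ≤ (sq k (j + 1)).M + k * (sq k (j + 1)).y := Nat.find_spec hex
  have hjj : j₀ < j := by
    by_contra hcon
    push Not at hcon
    have h2 : (sq k (j + 1)).M ≤ (sq k (j₀ + 1)).M := (M_mono k hk).monotone (by omega)
    have h3 : (sq k (j + 1)).y ≤ (sq k (j₀ + 1)).y := by
      show (sq k j).M + 1 ≤ (sq k j₀).M + 1
      have : (sq k j).M ≤ (sq k j₀).M := (M_mono k hk).monotone hcon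
      omega
    have h4 := Nat.mul_le_mul_left k h3
    omega
  obtain ⟨i, hi⟩ : ∃ i, j = i + 1 := ⟨j - 1, by omega⟩
  have h2 : ¬ n ≤ (sq k (i + 1)).M + k * (sq k (i + 1)).y := Nat.find_min hex (by omega)
  rw [← hi] at h2
  obtain ⟨f, hf1, hf2⟩ := cover k hk (sq k j) (inv_sq k hk j) n (by omega) h1
  refine ⟨f, fun t => ⟨⟨j + 1, (hf1 t).1⟩, ?_⟩, hf2⟩
  rcases (hf1 t).2 with h | h
  · have h3 : (sq k j).y = (sq k i).M + 1 := by rw [hi]; rfl
    have h4 : i ≤ (sq k i).M := (M_mono k hk).id_le i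
    omega
  · have h4 : j ≤ (sq k j).c := (c_mono k hk).id_le j
    omega

/-- For every h ≥ 3 there is a set A of naturals such that all large n are sums of h elements of A, and for every subset S of A, removing S keeps this property exactly when S is finite. -/
theorem result :
    ∀ h : ℕ, 3 ≤ h →
      ∃ A : Set ℕ,
        (∃ N : ℕ, ∀ n : ℕ, N ≤ n →
          ∃ f : Fin h → ℕ, (∀ i, f i ∈ A) ∧ ∑ i, f i = n) ∧
        ∀ S : Set ℕ, S ⊆ A →
          ((∃ N : ℕ, ∀ n : ℕ, N ≤ n →
              ∃ f : Fin h → ℕ, (∀ i, f i ∈ A \ S) ∧ ∑ i, f i = n) ↔ S.Finite) := by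
  intro h hh
  obtain ⟨k, rfl⟩ : ∃ k, h = k + 1 := ⟨h - 1, by omega⟩
  have hk : 2 ≤ k := by omega
  refine ⟨bas k, ⟨(sq k (0 + 1)).M + k * (sq k (0 + 1)).y + 1, fun n hn => ?_⟩,
    fun S hS => ⟨?_, ?_⟩⟩
  · obtain ⟨f, hf1, hf2⟩ := rep_large k hk 0 n hn
    exact ⟨f, fun i => (hf1 i).1, hf2⟩
  · rintro ⟨N, hN⟩
    by_contra hinf
    have hinf' : S.Infinite := hinf
    obtain ⟨b, hbS, hbN⟩ := hinf'.exists_gt N
    obtain ⟨j, hj⟩ := exists_stage k hk b (hS hbS) (by omega)
    have hinv := inv_sq k hk j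
    have h1 : N ≤ (sq k (j + 1)).M := by
      have h2 := hinv.hM _ hinv.hb
      have h3 : (sq k j).M < (sq k (j + 1)).M := M_lt' k hk (sq k j)
      omega
    obtain ⟨f, hf1, hf2⟩ := hN _ h1
    refine not_rep k hk j f (fun i => ⟨(hf1 i).1, ?_⟩) hf2
    intro h4
    apply (hf1 i).2
    rw [h4, hj]
    exact hbS
  · intro hfin
    obtain ⟨K, hK⟩ := hfin.bddAbove
    refine ⟨(sq k (K + 1)).M + k * (sq k (K + 1)).y + 1, fun n hn => ?_⟩
    obtain ⟨f, hf1, hf2⟩ := rep_large k hk K n hn
    refine ⟨f, fun i => ⟨(hf1 i).1, fun hi => ?_⟩, hf2⟩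
    have := hK hi
    have := (hf1 i).2
    omega

end Pool.Agent.S10345
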