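import Pool.Statements.S10350

set_option autoImplicit false
open Pool Pool.MP_3c6bfc_nt

namespace Pool.Agent.S10350

lemma pell (n : ℕ) : ∃ x z : ℕ, x ^ 2 = 2 * z ^ 2 + 1 ∧ n < z := by
  induction n with
  | zero => exact ⟨3, 2, by norm_num, by norm_num⟩
  | succ n ih =>
    obtain ⟨x, z, h, hz⟩ := ih
    refine ⟨3 * x + 4 * z, 2 * x + 3 * z, by nlinarith, ?_⟩
    omega

section
open Polynomial

/-- linear polynomial -/
noncomputable def PL (a b : ℤ) : ℤ[X] := C a * X - C b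

/-- quadratic polynomial -/
noncomputable def PQ (a b : ℤ) : ℤ[X] := C a * X ^ 2 - C b * X - C 1

lemma PL_coeff0 (a b : ℤ) : (PL a b).coeff 0 = -b := by
  simp [PL]

lemma PL_coeff1 (a b : ℤ) : (PL a b).coeff 1 = a := by
  rw [PL, coeff_sub, coeff_C_mul, coeff_X_one, coeff_C]; simp

lemma PQ_coeff0 (a b : ℤ) : (PQ a b).coeff 0 = -1 := by
  simp [PQ]

lemma PQ_coeff1 (a b : ℤ) : (PQ a b).coeff 1 = -b := by
  rw [PQ, coeff_sub, coeff_sub, coeff_C_mul, coeff_C_mul, coeff_X_one, coeff_C, coeff_X_pow]; simp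

lemma PQ_coeff2 (a b : ℤ) : (PQ a b).coeff 2 = a := by
  rw [PQ, coeff_sub, coeff_sub, coeff_C_mul, coeff_C_mul, coeff_X, coeff_C, coeff_X_pow]; simp

lemma PL_natDegree (a b : ℤ) (ha : a ≠ 0) : (PL a b).natDegree = 1 := by
  unfold PL
  compute_degree!

lemma PQ_natDegree (a b : ℤ) (ha : a ≠ 0) : (PQ a b).natDegree = 2 := by
  unfold PQ
  compute_degree!

end

lemma PA_prim (z : ℕ) : (PL (16 * (z : ℤ) ^ 2 + 1) (16 * (z : ℤ) ^ 3 + 2 * z)).IsPrimitive := by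
  intro r hr
  rw [Polynomial.C_dvd_iff_dvd_coeff] at hr
  have h0 := hr 0
  have h1 := hr 1
  rw [PL_coeff0] at h0
  rw [PL_coeff1] at h1
  have h2 : r ∣ (z : ℤ) := by
    have := dvd_add (Dvd.dvd.mul_left h1 (z : ℤ)) h0
    have h3 : (z : ℤ) * (16 * (z : ℤ) ^ 2 + 1) + -(16 * (z : ℤ) ^ 3 + 2 * z) = -z := by ring
    rw [h3] at this
    exact (dvd_neg).1 this
  have h3 : r ∣ 16 * (z : ℤ) ^ 2 := Dvd.dvd.mul_left (Dvd.dvd.trans h2 (dvd_pow_self _ (by norm_num))) _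
  exact isUnit_of_dvd_one ((dvd_add_right h3).1 h1)

lemma PB_prim (a b : ℤ) : (PQ a b).IsPrimitive := by
  intro r hr
  rw [Polynomial.C_dvd_iff_dvd_coeff] at hr
  have h0 := hr 0
  rw [PQ_coeff0] at h0
  exact isUnit_of_dvd_one ((dvd_neg).1 h0)

lemma PA_sup (z : ℕ) (hz : 1 ≤ z) :
    ((PL (16 * (z : ℤ) ^ 2 + 1) (16 * (z : ℤ) ^ 3 + 2 * z)).support.sup
      fun i => ((PL (16 * (z : ℤ) ^ 2 + 1) (16 * (z : ℤ) ^ 3 + 2 * z)).coeff i).natAbs)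
      ≤ 52 * z ^ 3 := by
  apply Finset.sup_le
  intro i hi
  have h1 := Polynomial.le_natDegree_of_mem_supp i hi
  rw [PL_natDegree _ _ (by positivity)] at h1
  have hz2 : z ≤ z ^ 3 := Nat.le_self_pow (by norm_num) z
  have hz3 : z ^ 2 ≤ z ^ 3 := Nat.pow_le_pow_right hz (by norm_num)
  have hz4 : 1 ≤ z ^ 3 := Nat.one_le_pow _ _ hz
  have e1 : (16 * (z : ℤ) ^ 2 + 1) = ((16 * z ^ 2 + 1 : ℕ) : ℤ) := by push_cast; ring
  have e2 : (16 * (z : ℤ) ^ 3 + 2 * z) = ((16 * z ^ 3 + 2 * z : ℕ) : ℤ) := by push_cast; ring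
  interval_cases i
  · rw [PL_coeff0, e2, Int.natAbs_neg, Int.natAbs_natCast]; omega
  · rw [PL_coeff1, e1, Int.natAbs_natCast]; omega

lemma PB_sup (z : ℕ) (hz : 1 ≤ z) :
    ((PQ (32 * (z : ℤ) ^ 2 + 18) (32 * (z : ℤ) ^ 3 + 20 * z)).support.sup
      fun i => ((PQ (32 * (z : ℤ) ^ 2 + 18) (32 * (z : ℤ) ^ 3 + 20 * z)).coeff i).natAbs)
      ≤ 52 * z ^ 3 := by
  apply Finset.sup_le
  intro i hi
  have h1 := Polynomial.le_natDegree_of_mem_supp i hi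
  rw [PQ_natDegree _ _ (by positivity)] at h1
  have hz2 : z ≤ z ^ 3 := Nat.le_self_pow (by norm_num) z
  have hz3 : z ^ 2 ≤ z ^ 3 := Nat.pow_le_pow_right hz (by norm_num)
  have hz4 : 1 ≤ z ^ 3 := Nat.one_le_pow _ _ hz
  have e1 : (32 * (z : ℤ) ^ 2 + 18) = ((32 * z ^ 2 + 18 : ℕ) : ℤ) := by push_cast; ring
  have e2 : (32 * (z : ℤ) ^ 3 + 20 * z) = ((32 * z ^ 3 + 20 * z : ℕ) : ℤ) := by push_cast; ring
  interval_cases i
  · rw [PQ_coeff0]; simp; omega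
  · rw [PQ_coeff1, e2, Int.natAbs_neg, Int.natAbs_natCast]; omega
  · rw [PQ_coeff2, e1, Int.natAbs_natCast]; omega

/-- the real estimate: the two numbers are at distance at most z^(-7) -/
lemma real_est (x z r : ℝ) (hz : 1 ≤ z) (hx : 0 < x) (hr : 0 < r) (hr2 : r ^ 2 = 2)
    (hxz : x ^ 2 = 2 * z ^ 2 + 1) :
    (16 * z ^ 3 + 2 * z) / (16 * z ^ 2 + 1) ≠
      ((16 * z ^ 3 + 10 * z) + x * (8 * z ^ 2 + 3) * r) / (32 * z ^ 2 + 18) ∧
    |(16 * z ^ 3 + 2 * z) / (16 * z ^ 2 + 1) -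
      ((16 * z ^ 3 + 10 * z) + x * (8 * z ^ 2 + 3) * r) / (32 * z ^ 2 + 18)| ≤ 1 / z ^ 7 := by
  set a : ℝ := 16 * z ^ 3 + 10 * z with ha
  set g : ℝ := x * (8 * z ^ 2 + 3) * r with hg
  have hg2 : g ^ 2 = a ^ 2 + (32 * z ^ 2 + 18) := by
    rw [hg, mul_pow, mul_pow, hr2, hxz, ha]; ring
  have hgpos : 0 < g := by positivity
  have ha0 : 0 < a := by positivity
  have hag : a < g := by
    have : a ^ 2 < g ^ 2 := by rw [hg2]; nlinarith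
    exact lt_of_pow_lt_pow_left₀ 2 hgpos.le this
  have hD : 0 < 32 * z ^ 2 + 18 := by positivity
  have hM : 0 < 16 * z ^ 2 + 1 := by positivity
  set α : ℝ := (16 * z ^ 3 + 2 * z) / (16 * z ^ 2 + 1) with hα
  set β : ℝ := (a + g) / (32 * z ^ 2 + 18) with hβ
  set β' : ℝ := (a - g) / (32 * z ^ 2 + 18) with hβ'
  have hαz : z ≤ α := by
    rw [hα, le_div_iff₀ hM]; nlinarith
  have hβ'neg : β' < 0 := div_neg_of_neg_of_pos (by linarith) hD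
  have key : (β - α) * ((32 * z ^ 2 + 18) * (α - β')) = 1 / (16 * z ^ 2 + 1) ^ 2 := by
    have h1 : (β - α) * ((32 * z ^ 2 + 18) * (α - β')) =
        -((32 * z ^ 2 + 18) * α ^ 2 - 2 * a * α + (a ^ 2 - g ^ 2) / (32 * z ^ 2 + 18)) := by
      rw [hβ, hβ']
      field_simp
      ring
    rw [h1, hg2]
    have h2 : (a ^ 2 - (a ^ 2 + (32 * z ^ 2 + 18))) / (32 * z ^ 2 + 18) = -1 := by
      field_simp; ring
    rw [h2, hα, ha]
    field_simp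
    ring
  have hpos2 : 0 < (32 * z ^ 2 + 18) * (α - β') := by
    apply mul_pos hD; linarith
  have hβα : 0 < β - α := by
    by_contra hcon
    have : (β - α) * ((32 * z ^ 2 + 18) * (α - β')) ≤ 0 :=
      mul_nonpos_of_nonpos_of_nonneg (not_lt.1 hcon) hpos2.le
    rw [key] at this
    have h3 : (0 : ℝ) < 1 / (16 * z ^ 2 + 1) ^ 2 := by positivity
    linarith
  refine ⟨by intro h; rw [h] at hβα; linarith, ?_⟩
  rw [abs_sub_comm, abs_of_pos hβα]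
  have hz7 : 0 < z ^ 7 := by positivity
  rw [le_div_iff₀ hz7]
  -- (β - α) * z^7 ≤ (β-α) * D*(α-β') * M^2 = 1
  have h4 : z ^ 7 ≤ ((32 * z ^ 2 + 18) * (α - β')) * (16 * z ^ 2 + 1) ^ 2 := by
    have h5 : z ≤ α - β' := by linarith
    have h6 : z ^ 2 ≤ 32 * z ^ 2 + 18 := by nlinarith
    have h7 : (z ^ 2) ^ 2 ≤ (16 * z ^ 2 + 1) ^ 2 := by
      apply pow_le_pow_left₀ (by positivity); nlinarith
    calc z ^ 7 = (z ^ 2 * z) * (z ^ 2) ^ 2 := by ring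
      _ ≤ ((32 * z ^ 2 + 18) * (α - β')) * (16 * z ^ 2 + 1) ^ 2 := by
          apply mul_le_mul _ h7 (by positivity) hpos2.le
          exact mul_le_mul h6 h5 (by linarith) hD.le
  calc (β - α) * z ^ 7 ≤ (β - α) * (((32 * z ^ 2 + 18) * (α - β')) * (16 * z ^ 2 + 1) ^ 2) :=
        mul_le_mul_of_nonneg_left h4 hβα.le
    _ = ((β - α) * ((32 * z ^ 2 + 18) * (α - β'))) * (16 * z ^ 2 + 1) ^ 2 := by ring
    _ = 1 := by rw [key]; field_simp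

lemma PB_sup_pos (z : ℕ) :
    1 ≤ ((PQ (32 * (z : ℤ) ^ 2 + 18) (32 * (z : ℤ) ^ 3 + 20 * z)).support.sup
      fun i => ((PQ (32 * (z : ℤ) ^ 2 + 18) (32 * (z : ℤ) ^ 3 + 20 * z)).coeff i).natAbs) := by
  have h0 : 0 ∈ (PQ (32 * (z : ℤ) ^ 2 + 18) (32 * (z : ℤ) ^ 3 + 20 * z)).support := by
    rw [Polynomial.mem_support_iff, PQ_coeff0]; norm_num
  have h1 := Finset.le_sup (f := fun i =>
    ((PQ (32 * (z : ℤ) ^ 2 + 18) (32 * (z : ℤ) ^ 3 + 20 * z)).coeff i).natAbs) h0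
  refine le_trans ?_ h1
  show 1 ≤ ((PQ (32 * (z : ℤ) ^ 2 + 18) (32 * (z : ℤ) ^ 3 + 20 * z)).coeff 0).natAbs
  rw [PQ_coeff0]
  norm_num

lemma rpow_est (z : ℝ) (hz : 0 < z) :
    (52 * z ^ 3) ^ ((-2 : ℝ) - 1 / 6) = 52 ^ ((-2 : ℝ) - 1 / 6) * (Real.sqrt z / z ^ 7) := by
  rw [Real.mul_rpow (by norm_num) (by positivity), ← Real.rpow_natCast z 3, ← Real.rpow_mul hz.le]
  congr 1
  have : ((3 : ℕ) : ℝ) * ((-2 : ℝ) - 1 / 6) = 1 / 2 - ((7 : ℕ) : ℝ) := by norm_num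
  rw [this, Real.rpow_sub hz, Real.rpow_natCast, Real.sqrt_eq_rpow]

lemma not_rational (z x : ℕ) (hx : 0 < x)
    (q : ℚ) (h : ((q : ℝ)) = ((16 * (z : ℝ) ^ 3 + 10 * z) + x * (8 * (z : ℝ) ^ 2 + 3) * Real.sqrt 2)
      / (32 * (z : ℝ) ^ 2 + 18)) : False := by
  have hD : (0 : ℝ) < 32 * (z : ℝ) ^ 2 + 18 := by positivity
  have hE : (0 : ℝ) < x * (8 * (z : ℝ) ^ 2 + 3) := by positivity
  have h1 : Real.sqrt 2 = ((((q * (32 * (z : ℚ) ^ 2 + 18) - (16 * (z : ℚ) ^ 3 + 10 * z)) /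
      (x * (8 * (z : ℚ) ^ 2 + 3))) : ℚ) : ℝ) := by
    push_cast
    rw [h, eq_div_iff hE.ne', div_mul_cancel₀ _ hD.ne']
    ring
  exact irrational_sqrt_two ⟨_, h1.symm⟩

/-- The negation of the preceding statement: For every number field K inside ℂ and every ε>0 there is c>0 such that any two distinct α, β in K satisfy ∣α−β∣ > c·max(H(α),H(β))^(−2−ε), where H is the max absolute coefficient of the primitive integer minimal polynomial. -/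
theorem result :
    ¬ (∀ K : IntermediateField ℚ ℂ, FiniteDimensional ℚ K →
      ∀ ε : ℝ, 0 < ε → ∃ c : ℝ, 0 < c ∧
        ∀ α β : K, α ≠ β →
          ∀ P Q : Polynomial ℤ, P.IsPrimitive → Q.IsPrimitive →
            Polynomial.aeval (α : ℂ) P = 0 → Polynomial.aeval (β : ℂ) Q = 0 →
            P.natDegree = (minpoly ℚ (α : ℂ)).natDegree →
            Q.natDegree = (minpoly ℚ (β : ℂ)).natDegree →
            c * (max ((P.support.sup fun i => (P.coeff i).natAbs : ℕ) : ℝ)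
                     ((Q.support.sup fun i => (Q.coeff i).natAbs : ℕ) : ℝ)) ^ (-2 - ε)
              < ‖(α : ℂ) - (β : ℂ)‖) := by
  intro H
  have hs2 : (((Real.sqrt 2 : ℝ) : ℂ)) ^ 2 = 2 := by
    rw [← Complex.ofReal_pow, Real.sq_sqrt (by norm_num)]; norm_num
  have hint : IsIntegral ℚ (((Real.sqrt 2 : ℝ) : ℂ)) := by
    refine ⟨Polynomial.X ^ 2 - Polynomial.C 2, Polynomial.monic_X_pow_sub_C 2 (by norm_num), ?_⟩
    simp [hs2]
  obtain ⟨c, hc, h⟩ := H (IntermediateField.adjoin ℚ {(((Real.sqrt 2 : ℝ) : ℂ))})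
    (IntermediateField.adjoin.finiteDimensional hint) (1 / 6) (by norm_num)
  have hk : 0 < c * (52 : ℝ) ^ ((-2 : ℝ) - 1 / 6) := by positivity
  obtain ⟨n, hn⟩ := exists_nat_ge ((1 / (c * (52 : ℝ) ^ ((-2 : ℝ) - 1 / 6))) ^ 2)
  obtain ⟨x, z, hxz, hnz⟩ := pell n
  have hz1 : 1 ≤ z := by omega
  have hx0 : 0 < x := by
    rcases Nat.eq_zero_or_pos x with h0 | h0
    · rw [h0] at hxz; omega
    · exact h0
  have hz1r : (1 : ℝ) ≤ z := by exact_mod_cast hz1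
  have hxzr : (x : ℝ) ^ 2 = 2 * (z : ℝ) ^ 2 + 1 := by exact_mod_cast hxz
  have hr2 : (Real.sqrt 2) ^ 2 = 2 := Real.sq_sqrt (by norm_num)
  obtain ⟨hne, hest⟩ := real_est x z (Real.sqrt 2) hz1r (by exact_mod_cast hx0)
    (by positivity) hr2 hxzr
  set αr : ℝ := (16 * (z : ℝ) ^ 3 + 2 * z) / (16 * (z : ℝ) ^ 2 + 1) with hαr
  set βr : ℝ := ((16 * (z : ℝ) ^ 3 + 10 * z) + x * (8 * (z : ℝ) ^ 2 + 3) * Real.sqrt 2) /
    (32 * (z : ℝ) ^ 2 + 18) with hβr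
  have hmem : ((βr : ℝ) : ℂ) ∈ IntermediateField.adjoin ℚ {(((Real.sqrt 2 : ℝ) : ℂ))} := by
    have h1 : (((Real.sqrt 2 : ℝ) : ℂ)) ∈
        IntermediateField.adjoin ℚ {(((Real.sqrt 2 : ℝ) : ℂ))} :=
      IntermediateField.mem_adjoin_simple_self ℚ _
    have h2 : ((βr : ℝ) : ℂ) = (((16 * (z : ℚ) ^ 3 + 10 * z : ℚ) : ℂ) +
        ((x * (8 * (z : ℚ) ^ 2 + 3) : ℚ) : ℂ) * ((Real.sqrt 2 : ℝ) : ℂ)) /
        ((32 * (z : ℚ) ^ 2 + 18 : ℚ) : ℂ) := by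
      rw [hβr]; push_cast; ring
    rw [h2]
    have h3 : ∀ q : ℚ, (q : ℂ) ∈ IntermediateField.adjoin ℚ {(((Real.sqrt 2 : ℝ) : ℂ))} := by
      intro q
      have := (IntermediateField.adjoin ℚ {(((Real.sqrt 2 : ℝ) : ℂ))}).algebraMap_mem q
      rwa [eq_ratCast] at this
    exact div_mem (add_mem (h3 _) (mul_mem (h3 _) h1)) (h3 _)
  have hmemα : ((αr : ℝ) : ℂ) ∈ IntermediateField.adjoin ℚ {(((Real.sqrt 2 : ℝ) : ℂ))} := by
    have h2 : ((αr : ℝ) : ℂ) = algebraMap ℚ ℂ ((16 * (z : ℚ) ^ 3 + 2 * z) / (16 * (z : ℚ) ^ 2 + 1)) := by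
      rw [hαr]; simp
    rw [h2]
    exact IntermediateField.algebraMap_mem _ _
  have hD : (32 * (z : ℝ) ^ 2 + 18) ≠ 0 := by positivity
  have hM : (16 * (z : ℝ) ^ 2 + 1) ≠ 0 := by positivity
  have hα0 : Polynomial.aeval ((αr : ℝ) : ℂ)
      (PL (16 * (z : ℤ) ^ 2 + 1) (16 * (z : ℤ) ^ 3 + 2 * z)) = 0 := by
    have h1 : (16 * (z : ℝ) ^ 2 + 1) * αr - (16 * (z : ℝ) ^ 3 + 2 * z) = 0 := by
      rw [hαr]; field_simp; ring
    have h2 : (((_ : ℝ)) : ℂ) = ((0 : ℝ) : ℂ) := congrArg (fun t : ℝ => (t : ℂ)) h1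
    push_cast at h2
    simp only [PL, map_sub, map_mul, Polynomial.aeval_C, Polynomial.aeval_X]
    simpa using h2
  have hβ0 : Polynomial.aeval ((βr : ℝ) : ℂ)
      (PQ (32 * (z : ℤ) ^ 2 + 18) (32 * (z : ℤ) ^ 3 + 20 * z)) = 0 := by
    have h1 : (32 * (z : ℝ) ^ 2 + 18) * βr ^ 2 - (32 * (z : ℝ) ^ 3 + 20 * z) * βr - 1 = 0 := by
      rw [hβr]
      field_simp
      have e1 : (16 * (z : ℝ) ^ 3 + 10 * z + x * (8 * (z : ℝ) ^ 2 + 3) * Real.sqrt 2) ^ 2 =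
          (16 * (z : ℝ) ^ 3 + 10 * z) ^ 2 + 2 * (16 * (z : ℝ) ^ 3 + 10 * z) *
          (x * (8 * (z : ℝ) ^ 2 + 3)) * Real.sqrt 2 + (2 * (z : ℝ) ^ 2 + 1) *
          (8 * (z : ℝ) ^ 2 + 3) ^ 2 * 2 := by
        rw [← hxzr]
        linear_combination ((x : ℝ) ^ 2 * (8 * (z : ℝ) ^ 2 + 3) ^ 2) * hr2
      linear_combination e1
    have h2 : (((_ : ℝ)) : ℂ) = ((0 : ℝ) : ℂ) := congrArg (fun t : ℝ => (t : ℂ)) h1
    push_cast at h2
    simp only [PQ, map_sub, map_mul, map_pow, Polynomial.aeval_C, Polynomial.aeval_X]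
    simpa using h2
  have hαdeg : (PL (16 * (z : ℤ) ^ 2 + 1) (16 * (z : ℤ) ^ 3 + 2 * z)).natDegree =
      (minpoly ℚ ((αr : ℝ) : ℂ)).natDegree := by
    rw [PL_natDegree _ _ (by positivity), eq_comm, minpoly.natDegree_eq_one_iff]
    exact ⟨(16 * (z : ℚ) ^ 3 + 2 * z) / (16 * (z : ℚ) ^ 2 + 1), by rw [hαr]; simp⟩
  have hβdeg : (PQ (32 * (z : ℤ) ^ 2 + 18) (32 * (z : ℤ) ^ 3 + 20 * z)).natDegree =
      (minpoly ℚ ((βr : ℝ) : ℂ)).natDegree := by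
    rw [PQ_natDegree _ _ (by positivity)]
    have hle : (minpoly ℚ ((βr : ℝ) : ℂ)).natDegree ≤ 2 := by
      have h1 : (PQ (32 * (z : ℤ) ^ 2 + 18) (32 * (z : ℤ) ^ 3 + 20 * z)).map
          (Int.castRingHom ℚ) ≠ 0 := by
        rw [Ne, Polynomial.map_eq_zero_iff (by exact Int.cast_injective)]
        intro h0
        have := PQ_coeff0 (32 * (z : ℤ) ^ 2 + 18) (32 * (z : ℤ) ^ 3 + 20 * z)
        rw [h0] at this
        simp at this
      have h2 : Polynomial.aeval ((βr : ℝ) : ℂ)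
          ((PQ (32 * (z : ℤ) ^ 2 + 18) (32 * (z : ℤ) ^ 3 + 20 * z)).map
          (Int.castRingHom ℚ)) = 0 := by
        have : (Int.castRingHom ℚ) = algebraMap ℤ ℚ := rfl
        rw [this, Polynomial.aeval_map_algebraMap]
        exact hβ0
      have h3 := minpoly.degree_le_of_ne_zero ℚ ((βr : ℝ) : ℂ) h1 h2
      have h4 := Polynomial.natDegree_le_natDegree h3
      refine h4.trans (Polynomial.natDegree_map_le.trans ?_)
      rw [PQ_natDegree _ _ (by positivity)]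
    have h1 : (minpoly ℚ ((βr : ℝ) : ℂ)).natDegree ≠ 1 := by
      rw [Ne, minpoly.natDegree_eq_one_iff]
      rintro ⟨q, hq⟩
      apply not_rational z x hx0 q
      rw [← hβr]
      have : ((q : ℝ) : ℂ) = ((βr : ℝ) : ℂ) := by
        rw [← hq]; simp
      exact_mod_cast this
    have hintβ : IsIntegral ℚ ((βr : ℝ) : ℂ) := by
      have := IntermediateField.adjoin.finiteDimensional hint
      have := (Algebra.IsIntegral.isIntegral (R := ℚ)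
        (⟨((βr : ℝ) : ℂ), hmem⟩ : IntermediateField.adjoin ℚ {(((Real.sqrt 2 : ℝ) : ℂ))}))
      exact this.map (IntermediateField.val _)
    have hpos := minpoly.natDegree_pos hintβ
    omega
  have hfin := h ⟨((αr : ℝ) : ℂ), hmemα⟩ ⟨((βr : ℝ) : ℂ), hmem⟩
    (by
      intro h0
      apply hne
      have h1 : ((αr : ℝ) : ℂ) = ((βr : ℝ) : ℂ) := congrArg Subtype.val h0
      exact_mod_cast h1)
    _ _ (PA_prim z) (PB_prim _ _) hα0 hβ0 hαdeg hβdeg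
  have hnorm : ‖((αr : ℝ) : ℂ) - ((βr : ℝ) : ℂ)‖ ≤ 1 / (z : ℝ) ^ 7 := by
    rw [← Complex.ofReal_sub, Complex.norm_real, Real.norm_eq_abs]
    exact hest
  have hA := PA_sup z hz1
  have hB := PB_sup z hz1
  have hB1 := PB_sup_pos z
  generalize ((PL (16 * (z : ℤ) ^ 2 + 1) (16 * (z : ℤ) ^ 3 + 2 * z)).support.sup
      fun i => ((PL (16 * (z : ℤ) ^ 2 + 1) (16 * (z : ℤ) ^ 3 + 2 * z)).coeff i).natAbs) = A
      at hA hfin
  generalize ((PQ (32 * (z : ℤ) ^ 2 + 18) (32 * (z : ℤ) ^ 3 + 20 * z)).support.sup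
      fun i => ((PQ (32 * (z : ℤ) ^ 2 + 18) (32 * (z : ℤ) ^ 3 + 20 * z)).coeff i).natAbs) = B
      at hB hB1 hfin
  have hmaxle : max (A : ℝ) (B : ℝ) ≤ 52 * (z : ℝ) ^ 3 := by
    apply max_le
    · exact_mod_cast hA
    · exact_mod_cast hB
  have hmaxpos : 0 < max (A : ℝ) (B : ℝ) := by
    apply lt_max_of_lt_right
    exact_mod_cast hB1
  have hrp := Real.rpow_le_rpow_of_nonpos hmaxpos hmaxle
    (by norm_num : ((-2 : ℝ) - 1 / 6) ≤ 0)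
  have hz0 : (0 : ℝ) < z := by linarith
  rw [rpow_est z hz0] at hrp
  have hsq : 1 / (c * (52 : ℝ) ^ ((-2 : ℝ) - 1 / 6)) ≤ Real.sqrt z := by
    apply Real.le_sqrt_of_sq_le
    refine hn.trans ?_
    exact_mod_cast hnz.le
  rw [div_le_iff₀ hk] at hsq
  have h7 : 0 < (z : ℝ) ^ 7 := by positivity
  have hlow : 1 / (z : ℝ) ^ 7 ≤ c * (max (A : ℝ) (B : ℝ)) ^ ((-2 : ℝ) - 1 / 6) := by
    calc 1 / (z : ℝ) ^ 7 ≤ (Real.sqrt z * (c * (52 : ℝ) ^ ((-2 : ℝ) - 1 / 6))) / (z : ℝ) ^ 7 :=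
          div_le_div_of_nonneg_right hsq h7.le
      _ = c * (52 ^ ((-2 : ℝ) - 1 / 6) * (Real.sqrt z / (z : ℝ) ^ 7)) := by ring
      _ ≤ _ := mul_le_mul_of_nonneg_left hrp hc.le
  have hfin' : c * (max (A : ℝ) (B : ℝ)) ^ ((-2 : ℝ) - 1 / 6) <
      ‖((αr : ℝ) : ℂ) - ((βr : ℝ) : ℂ)‖ := hfin
  linarith

end Pool.Agent.S10350
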