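import Pool.Statements.S10371
import Pool.Agent.Helper509.AffineFixed
import Pool.Agent.Helper509.SpGen

set_option autoImplicit false
open Pool Pool.MP_3e7cbe_nt

namespace Pool.Agent.S10371

open Matrix

section aux

variable {K : Type} [Field K] {n : Type} [Fintype n] [DecidableEq n]

/-- membership in the group of symplectic similitudes -/
def IsG (g : Matrix (n ⊕ n) (n ⊕ n) K) : Prop :=
  ∃ c : K, c ≠ 0 ∧ Matrix.transpose g * Matrix.J n K * g = c • Matrix.J n K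

/-- the torus element `diag(1, a)` -/
def dd (a : K) : Matrix (n ⊕ n) (n ⊕ n) K :=
  Matrix.diagonal (Sum.elim (fun _ : n => (1 : K)) (fun _ : n => a))

omit [Fintype n] in
theorem dd_eq (a : K) : (dd a : Matrix (n ⊕ n) (n ⊕ n) K) = fromBlocks 1 0 0 (a • 1) := by
  rw [dd, ← fromBlocks_diagonal, smul_one_eq_diagonal]
  congr 1

theorem isG_mul {g h : Matrix (n ⊕ n) (n ⊕ n) K} (hg : IsG g) (hh : IsG h) : IsG (g * h) := by
  obtain ⟨c, hc, h1⟩ := hg
  obtain ⟨d, hd, h2⟩ := hh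
  refine ⟨c * d, mul_ne_zero hc hd, ?_⟩
  have : (g * h)ᵀ * J n K * (g * h) = hᵀ * (gᵀ * J n K * g) * h := by
    rw [transpose_mul]; simp only [mul_assoc]
  rw [this, h1, Matrix.mul_smul, Matrix.smul_mul, h2, smul_smul]

theorem isG_N (S : Matrix n n K) (hS : Sᵀ = S) : IsG (fromBlocks 1 S 0 1 : Matrix (n ⊕ n) (n ⊕ n) K) := by
  refine ⟨1, one_ne_zero, ?_⟩
  rw [J, fromBlocks_transpose, fromBlocks_multiply, fromBlocks_multiply]
  simp [hS]

theorem isG_Nb (S : Matrix n n K) (hS : Sᵀ = S) : IsG (fromBlocks 1 0 S 1 : Matrix (n ⊕ n) (n ⊕ n) K) := by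
  refine ⟨1, one_ne_zero, ?_⟩
  rw [J, fromBlocks_transpose, fromBlocks_multiply, fromBlocks_multiply]
  simp [hS]

theorem dd_sim (a : K) : (dd a : Matrix (n ⊕ n) (n ⊕ n) K)ᵀ * J n K * dd a = a • J n K := by
  rw [dd_eq, J, fromBlocks_transpose, fromBlocks_multiply, fromBlocks_multiply, fromBlocks_smul]
  simp

theorem isG_dd (a : K) (ha : a ≠ 0) : IsG (dd a : Matrix (n ⊕ n) (n ⊕ n) K) := ⟨a, ha, dd_sim a⟩

theorem isG_J : IsG (J n K) := by
  refine ⟨1, one_ne_zero, ?_⟩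
  rw [J_transpose, neg_mul, J_squared]
  simp

theorem isG_negJ : IsG (-(J n K)) := by
  refine ⟨1, one_ne_zero, ?_⟩
  rw [transpose_neg, J_transpose, neg_neg, J_squared]
  simp

theorem dd_mul (a b : K) : (dd a : Matrix (n ⊕ n) (n ⊕ n) K) * dd b = dd (a * b) := by
  rw [dd, dd, dd, diagonal_mul_diagonal]
  congr 1
  ext i
  rcases i with i | i <;> simp

omit [Fintype n] in
theorem dd_one : (dd 1 : Matrix (n ⊕ n) (n ⊕ n) K) = 1 := by
  rw [dd]
  have : (Sum.elim (fun _ : n => (1 : K)) (fun _ : n => 1)) = 1 := by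
    ext i; rcases i with i | i <;> simp
  rw [this]
  exact diagonal_one

end aux

section main

variable {p : ℕ} [Fact (Nat.Prime p)] {m : ℕ} {V : Type} [AddCommGroup V] [Module ℂ V]
  (ρ : Matrix (Fin m ⊕ Fin m) (Fin m ⊕ Fin m) (Padic p) → (V →ₗ[ℂ] V))

/-- if the Siegel unipotent radical acts trivially, all operators commute -/
theorem commute_of_trivial (h1 : ρ 1 = LinearMap.id)
    (hmul : ∀ g h, IsG g → IsG h → ρ (g * h) = ρ g ∘ₗ ρ h)
    (htriv : ∀ S : Matrix (Fin m) (Fin m) (Padic p), Sᵀ = S → ρ (fromBlocks 1 S 0 1) = LinearMap.id)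
    (g h : Matrix (Fin m ⊕ Fin m) (Fin m ⊕ Fin m) (Padic p)) (hg : IsG g) (hh : IsG h) :
    ρ g ∘ₗ ρ h = ρ h ∘ₗ ρ g := by
  have hNb : ∀ S : Matrix (Fin m) (Fin m) (Padic p), Sᵀ = S → ρ (fromBlocks 1 0 S 1) = LinearMap.id := by
    intro S hS
    have e : (fromBlocks 1 0 S 1 : Matrix (Fin m ⊕ Fin m) (Fin m ⊕ Fin m) (Padic p)) =
        J (Fin m) (Padic p) * fromBlocks 1 (-S) 0 1 * (-(J (Fin m) (Padic p))) := by
      rw [J, fromBlocks_neg, fromBlocks_multiply, fromBlocks_multiply]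
      simp
    have hSn : (-S)ᵀ = -S := by rw [transpose_neg, hS]
    rw [e, hmul _ _ (isG_mul isG_J (isG_N _ hSn)) isG_negJ, hmul _ _ isG_J (isG_N _ hSn),
      htriv _ hSn, LinearMap.comp_id, ← hmul _ _ isG_J isG_negJ, mul_neg, J_squared, neg_neg, h1]
  have hSp : ∀ g : Matrix (Fin m ⊕ Fin m) (Fin m ⊕ Fin m) (Padic p),
      gᵀ * J (Fin m) (Padic p) * g = J (Fin m) (Padic p) → ρ g = LinearMap.id := by
    intro g hg
    have := Pool.Agent.Helper509.SpGen.P_all (fun g => IsG g ∧ ρ g = LinearMap.id) ?_ ?_ ?_ g hg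
    · exact this.2
    · rintro a b ⟨ha, ha'⟩ ⟨hb, hb'⟩
      exact ⟨isG_mul ha hb, by rw [hmul _ _ ha hb, ha', hb', LinearMap.comp_id]⟩
    · intro S hS
      exact ⟨isG_N S hS, htriv S hS⟩
    · intro S hS
      exact ⟨isG_Nb S hS, hNb S hS⟩
  have hdd : ∀ g : Matrix (Fin m ⊕ Fin m) (Fin m ⊕ Fin m) (Padic p), IsG g →
      ∃ c : Padic p, c ≠ 0 ∧ ρ g = ρ (dd c) := by
    rintro g ⟨c, hc, hg⟩
    refine ⟨c, hc, ?_⟩
    have e : g = dd c * (dd c⁻¹ * g) := by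
      rw [← mul_assoc, dd_mul, mul_inv_cancel₀ hc, dd_one, one_mul]
    have hSp' : (dd c⁻¹ * g)ᵀ * J (Fin m) (Padic p) * (dd c⁻¹ * g) = J (Fin m) (Padic p) := by
      have : (dd c⁻¹ * g)ᵀ * J (Fin m) (Padic p) * (dd c⁻¹ * g) =
          gᵀ * ((dd c⁻¹ : Matrix (Fin m ⊕ Fin m) (Fin m ⊕ Fin m) (Padic p))ᵀ * J (Fin m) (Padic p) * dd c⁻¹) * g := by
        rw [transpose_mul]; simp only [mul_assoc]
      rw [this, dd_sim, Matrix.mul_smul, Matrix.smul_mul, hg, smul_smul, inv_mul_cancel₀ hc, one_smul]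
    have hG' : IsG (dd c⁻¹ * g) := ⟨1, one_ne_zero, by rw [hSp', one_smul]⟩
    conv_lhs => rw [e]
    rw [hmul _ _ (isG_dd c hc) hG', hSp _ hSp', LinearMap.comp_id]
  obtain ⟨c, hc, hgc⟩ := hdd g hg
  obtain ⟨d, hd, hhd⟩ := hdd h hh
  rw [hgc, hhd, ← hmul _ _ (isG_dd c hc) (isG_dd d hd), ← hmul _ _ (isG_dd d hd) (isG_dd c hc),
    dd_mul, dd_mul, mul_comm]

theorem main_thm (h1 : ρ 1 = LinearMap.id)
    (hmul : ∀ g h, IsG g → IsG h → ρ (g * h) = ρ g ∘ₗ ρ h)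
    (hsm : ∀ v : V, ∃ k : ℕ, ∀ g : Matrix (Fin m ⊕ Fin m) (Fin m ⊕ Fin m) (Padic p), IsG g →
      (∀ i j, ‖(g - 1) i j‖ ≤ (p : ℝ) ^ (-(k : ℤ))) → ρ g v = v)
    (hadm : ∀ k : ℕ, ∃ s : Finset V, ∀ v : V,
      (∀ g : Matrix (Fin m ⊕ Fin m) (Fin m ⊕ Fin m) (Padic p), IsG g →
        (∀ i j, ‖(g - 1) i j‖ ≤ (p : ℝ) ^ (-(k : ℤ))) → ρ g v = v) →
      v ∈ Submodule.span ℂ (s : Set V))
    (hnt : Nontrivial V)
    (hirr : ∀ W : Submodule ℂ V,
      (∀ g : Matrix (Fin m ⊕ Fin m) (Fin m ⊕ Fin m) (Padic p), IsG g → ∀ w ∈ W, ρ g w ∈ W) →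
      W = ⊥ ∨ W = ⊤)
    (hinf : ¬ Module.Finite ℂ V) :
    ∃ n : ℕ, ∃ v : V, v ≠ 0 ∧
      ∀ g : Matrix (Fin m ⊕ Fin m) (Fin m ⊕ Fin m) (Padic p), IsG g →
        (∃ a : Padic p, ‖a‖ = 1 ∧ ∀ i j : Fin m ⊕ Fin m,
          ‖(g - (dd a : Matrix (Fin m ⊕ Fin m) (Fin m ⊕ Fin m) (Padic p))) i j‖ ≤
            (p : ℝ) ^ (-(n : ℤ))) →
        ρ g v = v := by
  have hp : p.Prime := Fact.out
  have hpR : (1 : ℝ) < p := by exact_mod_cast hp.one_lt
  -- Step 1: the Siegel unipotent radical acts nontrivially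
  have hex : ∃ S : Matrix (Fin m) (Fin m) (Padic p), Sᵀ = S ∧ ρ (fromBlocks 1 S 0 1) ≠ LinearMap.id := by
    by_contra hcon
    push Not at hcon
    have hcomm := commute_of_trivial ρ h1 hmul hcon
    obtain ⟨v, hv⟩ := exists_ne (0 : V)
    obtain ⟨k, hk⟩ := hsm v
    obtain ⟨s, hs⟩ := hadm k
    let W : Submodule ℂ V :=
      { carrier := {w | ∀ g : Matrix (Fin m ⊕ Fin m) (Fin m ⊕ Fin m) (Padic p), IsG g →
          (∀ i j, ‖(g - 1) i j‖ ≤ (p : ℝ) ^ (-(k : ℤ))) → ρ g w = w}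
        add_mem' := by
          intro a b ha hb g hg hgk
          rw [map_add, ha g hg hgk, hb g hg hgk]
        zero_mem' := by
          intro g _ _
          rw [map_zero]
        smul_mem' := by
          intro c a ha g hg hgk
          rw [map_smul, ha g hg hgk] }
    have hW : W = ⊥ ∨ W = ⊤ := by
      apply hirr
      intro g hg w hw h hh hhk
      have e := LinearMap.congr_fun (hcomm h g hh hg) w
      rw [LinearMap.comp_apply, LinearMap.comp_apply] at e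
      rw [e, hw h hh hhk]
    rcases hW with hW | hW
    · have : v ∈ W := hk
      rw [hW, Submodule.mem_bot] at this
      exact hv this
    · apply hinf
      rw [Module.finite_def]
      refine ⟨s, ?_⟩
      rw [eq_top_iff]
      intro w _
      apply hs
      have : w ∈ W := by rw [hW]; trivial
      exact this
  obtain ⟨S, hS, hSne⟩ := hex
  have hxS : ∀ x : Padic p, (x • S)ᵀ = x • S := by
    intro x; rw [transpose_smul, hS]
  -- a nonzero vector fixed by all `diag(1, a)`, `a` a unit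
  obtain ⟨v0, hv0⟩ : ∃ v0 : V, ρ (fromBlocks 1 S 0 1) v0 ≠ v0 := by
    by_contra hcon
    push Not at hcon
    exact hSne (LinearMap.ext hcon)
  obtain ⟨M, hM⟩ : ∃ M : ℕ, ∀ i j, ‖S i j‖ ≤ (p : ℝ) ^ M := by
    obtain ⟨M, hM⟩ := pow_unbounded_of_one_lt (∑ i, ∑ j, ‖S i j‖) hpR
    refine ⟨M, fun i j => le_trans ?_ hM.le⟩
    calc ‖S i j‖ ≤ ∑ j, ‖S i j‖ :=
          Finset.single_le_sum (f := fun j => ‖S i j‖) (fun _ _ => norm_nonneg _) (Finset.mem_univ j)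
      _ ≤ ∑ i, ∑ j, ‖S i j‖ :=
          Finset.single_le_sum (f := fun i => ∑ j, ‖S i j‖)
            (fun _ _ => Finset.sum_nonneg fun _ _ => norm_nonneg _) (Finset.mem_univ i)
  have ha0 : ∀ a : Padic p, ‖a‖ = 1 → a ≠ 0 := by
    intro a ha h0; rw [h0, norm_zero] at ha; exact zero_ne_one ha
  obtain ⟨u, hu0, hu⟩ := Pool.Agent.Helper509.AffineFixed.exists_fixed (p := p)
    (fun x : Padic p => ρ (fromBlocks 1 (x • S) 0 1)) (fun a : Padic p => ρ (dd a))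
    (by simp only [zero_smul, fromBlocks_one]; exact h1)
    (by
      intro x y
      rw [← hmul _ _ (isG_N _ (hxS x)) (isG_N _ (hxS y)), fromBlocks_multiply]
      congr 2
      · simp
      · simp [add_smul, add_comm]
      · simp
      · simp)
    (by simp only [dd_one]; exact h1)
    (by
      intro a b ha hb
      rw [← hmul _ _ (isG_dd a (ha0 a ha)) (isG_dd b (ha0 b hb)), dd_mul])
    (by
      intro a x ha
      rw [← hmul _ _ (isG_N _ (hxS x)) (isG_dd a (ha0 a ha)),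
        ← hmul _ _ (isG_dd a (ha0 a ha)) (isG_N _ (hxS _))]
      congr 1
      rw [dd_eq, fromBlocks_multiply, fromBlocks_multiply]
      simp [smul_smul])
    (by
      intro v
      obtain ⟨k, hk⟩ := hsm v
      refine ⟨k + M, fun x hx => hk _ (isG_N _ (hxS x)) ?_⟩
      intro i j
      have e : (fromBlocks 1 (x • S) 0 1 - 1 : Matrix (Fin m ⊕ Fin m) (Fin m ⊕ Fin m) (Padic p)) =
          fromBlocks 0 (x • S) 0 0 := by
        rw [← fromBlocks_one, sub_eq_add_neg, fromBlocks_neg, fromBlocks_add]; simp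
      rw [e]
      have hpos : (0 : ℝ) ≤ (p : ℝ) ^ (-(k : ℤ)) := by positivity
      rcases i with i | i <;> rcases j with j | j
      · simpa using hpos
      · rw [fromBlocks_apply₁₂, Matrix.smul_apply, smul_eq_mul, norm_mul]
        calc ‖x‖ * ‖S i j‖ ≤ (p : ℝ) ^ (-((k + M : ℕ) : ℤ)) * (p : ℝ) ^ M :=
              mul_le_mul hx (hM i j) (norm_nonneg _) (by positivity)
          _ = (p : ℝ) ^ (-(k : ℤ)) := by
              rw [← zpow_natCast (p : ℝ) M, ← zpow_add₀ (by positivity)]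
              congr 1
              push_cast
              ring
      · simpa using hpos
      · simpa using hpos)
    (by
      intro v
      obtain ⟨k, hk⟩ := hsm v
      refine ⟨k, fun a ha1 ha => hk _ (isG_dd a (ha0 a ha)) ?_⟩
      intro i j
      have hpos : (0 : ℝ) ≤ (p : ℝ) ^ (-(k : ℤ)) := by positivity
      rw [Matrix.sub_apply, dd, diagonal_apply, Matrix.one_apply]
      by_cases hij : i = j
      · subst hij
        rw [if_pos rfl, if_pos rfl]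
        rcases i with i | i
        · simpa using hpos
        · simpa using ha1
      · rw [if_neg hij, if_neg hij, sub_zero, norm_zero]
        exact hpos)
    1 v0 (by simpa using hv0)
  obtain ⟨k, hk⟩ := hsm u
  refine ⟨k, u, hu0, ?_⟩
  rintro g hg ⟨a, ha, hga⟩
  have e : g = (g * dd a⁻¹) * dd a := by
    rw [mul_assoc, dd_mul, inv_mul_cancel₀ (ha0 a ha), dd_one, mul_one]
  have hG1 : IsG (g * dd a⁻¹) := isG_mul hg (isG_dd _ (inv_ne_zero (ha0 a ha)))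
  have hfin : ρ g u = ρ (g * dd a⁻¹) (ρ (dd a) u) := by
    conv_lhs => rw [e]
    rw [hmul _ _ hG1 (isG_dd a (ha0 a ha))]
    rfl
  rw [hfin]
  have hu' : ρ (dd a) u = u := hu a ha
  rw [hu']
  apply hk _ hG1
  intro i j
  have e2 : g * dd a⁻¹ - 1 = (g - dd a) * dd a⁻¹ := by
    rw [sub_mul, dd_mul, mul_inv_cancel₀ (ha0 a ha), dd_one]
  have e3 : ((g - (dd a : Matrix (Fin m ⊕ Fin m) (Fin m ⊕ Fin m) (Padic p))) *
      (dd a⁻¹ : Matrix (Fin m ⊕ Fin m) (Fin m ⊕ Fin m) (Padic p))) i j =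
      (g - (dd a : Matrix (Fin m ⊕ Fin m) (Fin m ⊕ Fin m) (Padic p))) i j *
      (Sum.elim (fun _ : Fin m => (1 : Padic p)) (fun _ : Fin m => a⁻¹)) j := mul_diagonal _ _ _ _
  rw [e2, e3, norm_mul]
  have hn : ‖(Sum.elim (fun _ : Fin m => (1 : Padic p)) (fun _ : Fin m => a⁻¹)) j‖ = 1 := by
    rcases j with j | j
    · simp
    · simp [ha]
  rw [hn, mul_one]
  exact hga i j

end main

/-- For every prime p and rank m ≥ 1, each irreducible admissible infinite-dimensional complex representation of GSp_2m(Q_p) has a nonzero vector fixed by all g in GSp congruent mod p^n to diag(1,…,1,a,…,a), for some level n and unit a. -/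
theorem result :
  ∀ (p : ℕ) [Fact (Nat.Prime p)] (m : ℕ), 1 ≤ m →
  ∀ (V : Type) [AddCommGroup V] [Module ℂ V]
    (ρ : Matrix (Fin m ⊕ Fin m) (Fin m ⊕ Fin m) (Padic p) → (V →ₗ[ℂ] V)),
    ρ 1 = LinearMap.id →
    (∀ g h : Matrix (Fin m ⊕ Fin m) (Fin m ⊕ Fin m) (Padic p),
      (∃ c : Padic p, c ≠ 0 ∧
        Matrix.transpose g * Matrix.J (Fin m) (Padic p) * g = c • Matrix.J (Fin m) (Padic p)) →
      (∃ c : Padic p, c ≠ 0 ∧
        Matrix.transpose h * Matrix.J (Fin m) (Padic p) * h = c • Matrix.J (Fin m) (Padic p)) →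
      ρ (g * h) = ρ g ∘ₗ ρ h) →
    (∀ v : V, ∃ k : ℕ, ∀ g : Matrix (Fin m ⊕ Fin m) (Fin m ⊕ Fin m) (Padic p),
      (∃ c : Padic p, c ≠ 0 ∧
        Matrix.transpose g * Matrix.J (Fin m) (Padic p) * g = c • Matrix.J (Fin m) (Padic p)) →
      (∀ i j, ‖(g - 1) i j‖ ≤ (p : ℝ) ^ (-(k : ℤ))) → ρ g v = v) →
    (∀ k : ℕ, ∃ s : Finset V, ∀ v : V,
      (∀ g : Matrix (Fin m ⊕ Fin m) (Fin m ⊕ Fin m) (Padic p),
        (∃ c : Padic p, c ≠ 0 ∧
          Matrix.transpose g * Matrix.J (Fin m) (Padic p) * g = c • Matrix.J (Fin m) (Padic p)) →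
        (∀ i j, ‖(g - 1) i j‖ ≤ (p : ℝ) ^ (-(k : ℤ))) → ρ g v = v) →
      v ∈ Submodule.span ℂ (s : Set V)) →
    Nontrivial V →
    (∀ W : Submodule ℂ V,
      (∀ g : Matrix (Fin m ⊕ Fin m) (Fin m ⊕ Fin m) (Padic p),
        (∃ c : Padic p, c ≠ 0 ∧
          Matrix.transpose g * Matrix.J (Fin m) (Padic p) * g = c • Matrix.J (Fin m) (Padic p)) →
        ∀ w ∈ W, ρ g w ∈ W) →
      W = ⊥ ∨ W = ⊤) →
    ¬ Module.Finite ℂ V →
    ∃ n : ℕ, ∃ v : V, v ≠ 0 ∧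
      ∀ g : Matrix (Fin m ⊕ Fin m) (Fin m ⊕ Fin m) (Padic p),
        (∃ c : Padic p, c ≠ 0 ∧
          Matrix.transpose g * Matrix.J (Fin m) (Padic p) * g = c • Matrix.J (Fin m) (Padic p)) →
        (∃ a : Padic p, ‖a‖ = 1 ∧ ∀ i j,
          ‖(g - Matrix.diagonal (Sum.elim (fun _ : Fin m => (1 : Padic p)) (fun _ : Fin m => a))) i j‖
            ≤ (p : ℝ) ^ (-(n : ℤ))) →
        ρ g v = v := by
  intro p _ m _ V _ _ ρ h1 hmul hsm hadm hnt hirr hinf
  exact main_thm ρ h1 hmul hsm hadm hnt hirr hinf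

end Pool.Agent.S10371
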