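import Pool.Statements.S10410
import Pool.Agent.Helper559.Main

set_option autoImplicit false
open Pool Pool.MP_451a93_nt

namespace Pool.Agent.S10410

/-- The negation of the preceding statement: For every ε>0, for all large n, any set of integers in [1,n] with a+b not dividing ab for distinct members has at most (1/2+ε)n elements; odd numbers show 1/2 is attained. -/
theorem result :
    ¬ (∀ ε : ℝ, 0 < ε → ∃ N : ℕ, ∀ n : ℕ, N ≤ n → ∀ A : Finset ℕ,
      A ⊆ Finset.Icc 1 n →
      (∀ a ∈ A, ∀ b ∈ A, a ≠ b → ¬ (a + b ∣ a * b)) →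
      (A.card : ℝ) ≤ (1 / 2 + ε) * (n : ℝ)) := by
  exact Pool.Agent.Helper559.final

end Pool.Agent.S10410
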