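import Pool.Statements.S10497
import Pool.Agent.Helper620.A7

set_option autoImplicit false
open Filter
open Pool Pool.MP_4f8442_nt

namespace Pool.Agent.S10497

/-- There is f: ℕ→ℕ such that whenever every large n is a sum of at most h elements of A (repetition allowed), and for some t every large n is a sum of at most t distinct elements of A, then every large n is a sum of at most f(h) distinct elements of A. -/
theorem result :
    ∃ f : ℕ → ℕ, ∀ (A : Set ℕ) (h : ℕ),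
      (∀ᶠ n in atTop, ∃ s : Multiset ℕ,
          Multiset.card s ≤ h ∧ (∀ x ∈ s, x ∈ A) ∧ s.sum = n) →
      (∃ t : ℕ, ∀ᶠ n in atTop, ∃ s : Finset ℕ,
          (↑s : Set ℕ) ⊆ A ∧ s.card ≤ t ∧ ∑ x ∈ s, x = n) →
      ∀ᶠ n in atTop, ∃ s : Finset ℕ,
          (↑s : Set ℕ) ⊆ A ∧ s.card ≤ f h ∧ ∑ x ∈ s, x = n := by
  refine ⟨fun h => Helper620.RO.kap h (8 * Helper620.RO.dd h h), ?_⟩
  intro A h hA ht
  have hA' : ∃ N : ℕ, ∀ n ≥ N, ∃ M : Multiset ℕ,
      M.card ≤ h ∧ (∀ a ∈ M, a ∈ A) ∧ M.sum = n := Filter.eventually_atTop.mp hA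
  obtain ⟨t, ht⟩ := ht
  obtain ⟨N, hN⟩ := Filter.eventually_atTop.mp ht
  have hres := Helper620.RO.res_of_restricted A ⟨N, fun n hn => by
    obtain ⟨s, h1, _, h3⟩ := hN n hn
    exact ⟨s, h1, h3⟩⟩
  obtain ⟨N', hN'⟩ := Helper620.RO.main h (Helper620.RO.basis_pos hA') A hA' hres
  exact Filter.eventually_atTop.mpr ⟨N', hN'⟩

end Pool.Agent.S10497
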