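import Pool.Statements.S10501

set_option autoImplicit false
open Nebf1142c
open Filter
open Pool Pool.MP_4ffaa3_nt

namespace Pool.Agent.S10501

/-- Key lemma: for an irrational `ξ`, infinitely many of the numbers `2 ^ n * ξ` have a multiple
`q * 2 ^ n * ξ` with `q ≤ Q` whose signed distance to some integer is small, but not too small. -/
theorem core (ξ : ℝ) (hξ : Irrational ξ) (Q : ℕ) (hQ : 1 ≤ Q) (n₀ : ℕ) :
    ∃ n ≥ n₀, ∃ q : ℕ, 1 ≤ q ∧ q ≤ Q ∧ ∃ p : ℤ,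
      1 / (4 * (Q : ℝ) ^ 2) ≤ |(q : ℝ) * (2 ^ n * ξ) - p| ∧
        |(q : ℝ) * (2 ^ n * ξ) - p| ≤ 1 / ((Q : ℝ) + 1) := by
  by_contra hcon
  push Not at hcon
  have hD : ∀ n : ℕ, ∃ q : ℕ, 0 < q ∧ q ≤ Q ∧
      |(q : ℝ) * (2 ^ n * ξ) - round ((q : ℝ) * (2 ^ n * ξ))| ≤ 1 / ((Q : ℝ) + 1) :=
    fun n => Real.exists_nat_abs_mul_sub_round_le (2 ^ n * ξ) (by omega)
  choose q hq0 hqQ hq using hD
  obtain ⟨p, hp⟩ : ∃ p : ℕ → ℤ, ∀ n, p n = round ((q n : ℝ) * (2 ^ n * ξ)) := ⟨_, fun _ => rfl⟩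
  obtain ⟨z, hz⟩ : ∃ z : ℕ → ℝ, ∀ n, z n = (q n : ℝ) * (2 ^ n * ξ) - p n := ⟨_, fun _ => rfl⟩
  have hQ1 : (1 : ℝ) ≤ Q := by exact_mod_cast hQ
  have hzlt : ∀ n ≥ n₀, |z n| < 1 / (4 * (Q : ℝ) ^ 2) := by
    intro n hn
    by_contra hge
    push Not at hge
    rw [hz] at hge
    have h1 := hcon n hn (q n) (hq0 n) (hqQ n) (p n) hge
    have h2 := hq n
    rw [← hp] at h2
    exact absurd h2 (not_le.mpr h1)
  have hstep : ∀ n ≥ n₀, 2 * (q (n + 1) : ℝ) * z n = (q n : ℝ) * z (n + 1) := by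
    intro n hn
    have h1 := hzlt n hn
    have h2 := hzlt (n + 1) (by omega)
    have hqa : (q n : ℝ) ≤ Q := by exact_mod_cast hqQ n
    have hqb : (q (n + 1) : ℝ) ≤ Q := by exact_mod_cast hqQ (n + 1)
    have hqa0 : (0 : ℝ) ≤ q n := Nat.cast_nonneg _
    have hqb0 : (0 : ℝ) ≤ q (n + 1) := Nat.cast_nonneg _
    have hD : 2 * (q (n + 1) : ℝ) * z n - (q n : ℝ) * z (n + 1)
        = ((p (n + 1) * q n - 2 * p n * q (n + 1) : ℤ) : ℝ) := by
      rw [hz, hz]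
      push_cast
      ring
    have hsmall : |2 * (q (n + 1) : ℝ) * z n - (q n : ℝ) * z (n + 1)| < 1 := by
      calc |2 * (q (n + 1) : ℝ) * z n - (q n : ℝ) * z (n + 1)|
          ≤ |2 * (q (n + 1) : ℝ) * z n| + |(q n : ℝ) * z (n + 1)| := abs_sub _ _
        _ = 2 * (q (n + 1) : ℝ) * |z n| + (q n : ℝ) * |z (n + 1)| := by
            rw [abs_mul, abs_mul, abs_mul, abs_of_nonneg hqa0, abs_of_nonneg hqb0]
            norm_num
        _ ≤ 2 * (Q : ℝ) * (1 / (4 * (Q : ℝ) ^ 2)) + (Q : ℝ) * (1 / (4 * (Q : ℝ) ^ 2)) := by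
            gcongr
        _ = 3 / (4 * (Q : ℝ)) := by
            field_simp
            ring
        _ < 1 := by
            rw [div_lt_one (by positivity)]
            linarith
    rw [hD] at hsmall
    have h0 : (p (n + 1) * q n - 2 * p n * q (n + 1) : ℤ) = 0 := by
      rw [← Int.cast_abs] at hsmall
      have : |(p (n + 1) * q n - 2 * p n * q (n + 1) : ℤ)| < 1 := by exact_mod_cast hsmall
      exact Int.abs_lt_one_iff.mp this
    rw [h0] at hD
    push_cast at hD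
    linarith
  have hgrow : ∀ k : ℕ, |z (n₀ + k)| * (q n₀ : ℝ) = 2 ^ k * |z n₀| * (q (n₀ + k) : ℝ) := by
    intro k
    induction k with
    | zero => simp
    | succ k ih =>
      have h1 := hstep (n₀ + k) (by omega)
      have hqk : (0 : ℝ) < q (n₀ + k) := by exact_mod_cast hq0 _
      have hqk1 : (0 : ℝ) < q (n₀ + k + 1) := by exact_mod_cast hq0 _
      have h2 : 2 * (q (n₀ + k + 1) : ℝ) * |z (n₀ + k)| = (q (n₀ + k) : ℝ) * |z (n₀ + k + 1)| := by
        have := congrArg abs h1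
        rw [abs_mul, abs_mul, abs_mul, abs_of_pos hqk, abs_of_pos hqk1] at this
        norm_num at this
        exact this
      have h3 : (q (n₀ + k) : ℝ) * (|z (n₀ + k + 1)| * (q n₀ : ℝ))
          = (q (n₀ + k) : ℝ) * (2 ^ (k + 1) * |z n₀| * (q (n₀ + k + 1) : ℝ)) := by
        calc (q (n₀ + k) : ℝ) * (|z (n₀ + k + 1)| * (q n₀ : ℝ))
            = ((q (n₀ + k) : ℝ) * |z (n₀ + k + 1)|) * (q n₀ : ℝ) := by ring
          _ = (2 * (q (n₀ + k + 1) : ℝ) * |z (n₀ + k)|) * (q n₀ : ℝ) := by rw [h2]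
          _ = 2 * (q (n₀ + k + 1) : ℝ) * (|z (n₀ + k)| * (q n₀ : ℝ)) := by ring
          _ = 2 * (q (n₀ + k + 1) : ℝ) * (2 ^ k * |z n₀| * (q (n₀ + k) : ℝ)) := by rw [ih]
          _ = (q (n₀ + k) : ℝ) * (2 ^ (k + 1) * |z n₀| * (q (n₀ + k + 1) : ℝ)) := by
              rw [pow_succ]; ring
      exact mul_left_cancel₀ hqk.ne' h3
  have hz0 : z n₀ ≠ 0 := by
    rw [hz]
    have h1 : Irrational ((q n₀ : ℝ) * (2 ^ n₀ * ξ)) := by
      have h2 : Irrational (((2 ^ n₀ : ℕ) : ℝ) * ξ) :=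
        hξ.natCast_mul (by positivity)
      have h3 := h2.natCast_mul (m := q n₀) (by have := hq0 n₀; omega)
      push_cast at h3
      exact h3
    intro h4
    exact h1.ne_int (p n₀) (by linarith)
  obtain ⟨k, hk⟩ := pow_unbounded_of_one_lt ((Q : ℝ) / |z n₀|) (by norm_num : (1 : ℝ) < 2)
  have hz0' : 0 < |z n₀| := abs_pos.mpr hz0
  have h1 : (Q : ℝ) < 2 ^ k * |z n₀| := by
    rwa [div_lt_iff₀ hz0'] at hk
  have h2 := hgrow k
  have h3 := hzlt (n₀ + k) (by omega)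
  have hqa : (q n₀ : ℝ) ≤ Q := by exact_mod_cast hqQ n₀
  have hqa0 : (0 : ℝ) < q n₀ := by exact_mod_cast hq0 n₀
  have hqb : (1 : ℝ) ≤ q (n₀ + k) := by exact_mod_cast hq0 (n₀ + k)
  have h4 : |z (n₀ + k)| < 1 := by
    refine h3.trans_le ?_
    rw [div_le_one (by positivity)]
    nlinarith
  have h5 : |z (n₀ + k)| * (q n₀ : ℝ) < Q := by
    calc |z (n₀ + k)| * (q n₀ : ℝ) < 1 * (q n₀ : ℝ) := by
          exact mul_lt_mul_of_pos_right h4 hqa0
      _ ≤ Q := by linarith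
  have h6 : (Q : ℝ) < 2 ^ k * |z n₀| * (q (n₀ + k) : ℝ) := by
    calc (Q : ℝ) < 2 ^ k * |z n₀| := h1
      _ = 2 ^ k * |z n₀| * 1 := by ring
      _ ≤ 2 ^ k * |z n₀| * (q (n₀ + k) : ℝ) := by gcongr
  linarith

/-- Multiples of a small nonzero `z` come within `|z|` of every residue class modulo one. -/
theorem exists_mult (z : ℝ) (hz : z ≠ 0) (y : ℝ) (M : ℕ) (hM : 1 ≤ (M : ℝ) * |z|) :
    ∃ m : ℕ, 1 ≤ m ∧ m ≤ M ∧ ∃ k : ℤ, |(m : ℝ) * z - y - k| < |z| := by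
  rcases lt_or_gt_of_ne hz with hneg | hpos
  · -- `z < 0`
    obtain ⟨w, hw⟩ : ∃ w : ℝ, w = y - ⌊y⌋ - 1 := ⟨_, rfl⟩
    have hw1 : -1 ≤ w := by rw [hw]; linarith [Int.floor_le y]
    have hw0 : w < 0 := by rw [hw]; linarith [Int.lt_floor_add_one y]
    have habs : |z| = -z := abs_of_neg hneg
    have hwz : 0 < w / z := div_pos_of_neg_of_neg hw0 hneg
    refine ⟨⌈w / z⌉₊, Nat.ceil_pos.mpr hwz, ?_, -⌊y⌋ - 1, ?_⟩
    · rw [Nat.ceil_le, div_le_iff_of_neg hneg]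
      rw [habs] at hM
      nlinarith
    · have h1 : w / z ≤ (⌈w / z⌉₊ : ℝ) := Nat.le_ceil _
      have h2 : (⌈w / z⌉₊ : ℝ) < w / z + 1 := Nat.ceil_lt_add_one hwz.le
      have h3 : (⌈w / z⌉₊ : ℝ) * z ≤ w := by
        rw [div_le_iff_of_neg hneg] at h1
        linarith
      have h4 : w + z < (⌈w / z⌉₊ : ℝ) * z := by
        have := mul_lt_mul_of_neg_right h2 hneg
        have h5 : (w / z + 1) * z = w + z := by
          field_simp
        linarith
      push_cast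
      rw [habs, abs_lt]
      constructor <;> linarith
  · -- `z > 0`
    obtain ⟨w, hw⟩ : ∃ w : ℝ, w = y - ⌈y⌉ + 1 := ⟨_, rfl⟩
    have hw1 : w ≤ 1 := by rw [hw]; linarith [Int.le_ceil y]
    have hw0 : 0 < w := by rw [hw]; linarith [Int.ceil_lt_add_one y]
    have habs : |z| = z := abs_of_pos hpos
    have hwz : 0 < w / z := div_pos hw0 hpos
    refine ⟨⌈w / z⌉₊, Nat.ceil_pos.mpr hwz, ?_, -⌈y⌉ + 1, ?_⟩
    · rw [Nat.ceil_le, div_le_iff₀ hpos]
      rw [habs] at hM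
      linarith
    · have h1 : w / z ≤ (⌈w / z⌉₊ : ℝ) := Nat.le_ceil _
      have h2 : (⌈w / z⌉₊ : ℝ) < w / z + 1 := Nat.ceil_lt_add_one hwz.le
      have h3 : w ≤ (⌈w / z⌉₊ : ℝ) * z := by
        rwa [div_le_iff₀ hpos] at h1
      have h4 : (⌈w / z⌉₊ : ℝ) * z < w + z := by
        have := mul_lt_mul_of_pos_right h2 hpos
        have h5 : (w / z + 1) * z = w + z := by
          field_simp
        linarith
      push_cast
      rw [habs, abs_lt]
      constructor <;> linarith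

/-- The set of numbers `a * 2 ^ n` with `1 ≤ a ≤ N`. -/
def S (N : ℕ) (s : ℕ) : Prop := ∃ a n : ℕ, 1 ≤ a ∧ a ≤ N ∧ s = a * 2 ^ n

theorem S_infinite (N : ℕ) (hN : 1 ≤ N) : (Set.ofPred (S N)).Infinite := by
  refine Set.infinite_of_injective_forall_mem (f := fun n : ℕ => 2 ^ n)
    (Nat.pow_right_injective le_rfl) ?_
  intro n
  exact ⟨1, n, le_rfl, hN, by ring⟩

theorem S_gap (N : ℕ) {s s' : ℕ} (hs : S N s) (hs' : S N s') (hlt : s < s') :
    s ≤ N * (s' - s) := by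
  obtain ⟨a, n, ha1, haN, rfl⟩ := hs
  obtain ⟨b, m, hb1, hbN, rfl⟩ := hs'
  rcases le_total n m with h | h
  · have hdvd : 2 ^ n ∣ b * 2 ^ m - a * 2 ^ n :=
      Nat.dvd_sub (Dvd.dvd.mul_left (pow_dvd_pow 2 h) b) (Dvd.intro_left a rfl)
    have hle : 2 ^ n ≤ b * 2 ^ m - a * 2 ^ n := Nat.le_of_dvd (by omega) hdvd
    exact Nat.mul_le_mul haN hle
  · have hdvd : 2 ^ m ∣ b * 2 ^ m - a * 2 ^ n :=
      Nat.dvd_sub (Dvd.intro_left b rfl) (Dvd.dvd.mul_left (pow_dvd_pow 2 h) a)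
    have hle : 2 ^ m ≤ b * 2 ^ m - a * 2 ^ n := Nat.le_of_dvd (by omega) hdvd
    exact hlt.le.trans (Nat.mul_le_mul hbN hle)

/-- For every number field K ⊆ ℝ and every ε>0 there is a positive sequence t:ℕ→K with some c>1 such that eventually c·t_k<t_{k+1}, and for every real ξ∉K, limsup fract(ξ t_n) ≥ 1−ε. -/
theorem result :
    ∀ (K : IntermediateField ℚ ℝ) [FiniteDimensional ℚ K] {ε : ℝ} (hε : 0 < ε), ∃ t : ℕ → K, (∀ n, 0 < (t n : ℝ)) ∧ (∃ c > (1 : ℝ), ∀ᶠ k in atTop, c * (t k : ℝ) < (t (k + 1) : ℝ)) ∧ ∀ ξ : ℝ, ξ ∉ K → (1 - ε) ≤ limsup (fun n => Int.fract (ξ * (t n : ℝ))) atTop := by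
  intro K _ ε hε
  obtain ⟨δ, hδ⟩ : ∃ δ : ℝ, δ = min ε 1 := ⟨_, rfl⟩
  have hδ0 : 0 < δ := by rw [hδ]; exact lt_min hε one_pos
  have hδ1 : δ ≤ 1 := by rw [hδ]; exact min_le_right _ _
  have hδε : δ ≤ ε := by rw [hδ]; exact min_le_left _ _
  obtain ⟨Q, hQ⟩ := exists_nat_gt (2 / δ)
  have hQ0 : (0 : ℝ) < Q := lt_trans (by positivity) hQ
  have hQ1 : 1 ≤ Q := by exact_mod_cast hQ0
  have hQδ : 1 / ((Q : ℝ) + 1) < δ / 2 := by
    rw [div_lt_iff₀ hδ0] at hQ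
    rw [div_lt_div_iff₀ (by positivity) (by norm_num)]
    nlinarith
  obtain ⟨N, hN⟩ : ∃ N : ℕ, N = Q * (4 * Q ^ 2) := ⟨_, rfl⟩
  have hN1 : 1 ≤ N := by
    rw [hN]
    have : 0 < Q * (4 * Q ^ 2) := by positivity
    omega
  have hinf := S_infinite N hN1
  have hmono := Nat.nth_strictMono hinf
  have hmem : ∀ n, S N (Nat.nth (S N) n) := fun n => Nat.nth_mem_of_infinite hinf n
  have hpos : ∀ n, 0 < Nat.nth (S N) n := by
    intro n
    obtain ⟨a, j, ha, -, h⟩ := hmem n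
    rw [h]
    positivity
  have hcast : ∀ n, (((Nat.nth (S N) n : ℕ) : K) : ℝ) = (Nat.nth (S N) n : ℝ) := by
    intro n
    push_cast
    rfl
  refine ⟨fun n => ((Nat.nth (S N) n : ℕ) : K), ?_, ⟨1 + 1 / (2 * N), ?_, ?_⟩, ?_⟩
  · intro n
    rw [hcast]
    exact_mod_cast hpos n
  · have : (0 : ℝ) < N := by exact_mod_cast hN1
    have : (0 : ℝ) < 1 / (2 * N) := by positivity
    linarith
  · refine Filter.Eventually.of_forall fun k => ?_
    rw [hcast, hcast]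
    have h1 := S_gap N (hmem k) (hmem (k + 1)) (hmono (Nat.lt_succ_self k))
    have h2 : Nat.nth (S N) k < Nat.nth (S N) (k + 1) := hmono (Nat.lt_succ_self k)
    have h3 : (Nat.nth (S N) k : ℝ) ≤ N * ((Nat.nth (S N) (k + 1) : ℝ) - Nat.nth (S N) k) := by
      have : ((Nat.nth (S N) k : ℕ) : ℝ) ≤ ((N * (Nat.nth (S N) (k + 1) - Nat.nth (S N) k) : ℕ) : ℝ) := by
        exact_mod_cast h1
      rw [Nat.cast_mul, Nat.cast_sub h2.le] at this
      exact this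
    have h4 : (0 : ℝ) < Nat.nth (S N) k := by exact_mod_cast hpos k
    have hNpos : (0 : ℝ) < N := by exact_mod_cast hN1
    have h5 : (Nat.nth (S N) k : ℝ) / N ≤ (Nat.nth (S N) (k + 1) : ℝ) - Nat.nth (S N) k := by
      rw [div_le_iff₀ hNpos]
      linarith
    have h6 : (1 + 1 / (2 * (N : ℝ))) * (Nat.nth (S N) k : ℝ)
        = Nat.nth (S N) k + (Nat.nth (S N) k : ℝ) / N / 2 := by
      field_simp
    rw [h6]
    have h7 : 0 < (Nat.nth (S N) k : ℝ) / N := by positivity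
    linarith
  · intro ξ hξ
    have hirr : Irrational ξ := by
      rintro ⟨r, rfl⟩
      exact hξ (by
        have := K.algebraMap_mem r
        rwa [eq_ratCast] at this)
    have hfreq : ∃ᶠ n in atTop,
        (1 - ε) ≤ Int.fract (ξ * (((Nat.nth (S N) n : ℕ) : K) : ℝ)) := by
      rw [Filter.frequently_atTop]
      intro i₀
      obtain ⟨n, hn, q, hq1, hqQ, p, hlow, hup⟩ := core ξ hirr Q hQ1 (Nat.nth (S N) i₀)
      obtain ⟨z, hz⟩ : ∃ z : ℝ, z = (q : ℝ) * (2 ^ n * ξ) - p := ⟨_, rfl⟩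
      rw [← hz] at hlow hup
      have hzpos : 0 < |z| := lt_of_lt_of_le (by positivity) hlow
      have hz0 : z ≠ 0 := abs_pos.mp hzpos
      obtain ⟨m, hm1, hmM, k, hk⟩ := exists_mult z hz0 (1 - δ / 2) (4 * Q ^ 2) (by
        rw [div_le_iff₀ (by positivity)] at hlow
        push_cast
        linarith)
      -- the element `m * q * 2 ^ n` of `S N`
      have hsmem : S N (m * q * 2 ^ n) := by
        refine ⟨m * q, n, ?_, ?_, rfl⟩
        · have : 0 < m * q := Nat.mul_pos hm1 hq1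
          omega
        · rw [hN, mul_comm m q]
          exact Nat.mul_le_mul hqQ hmM
      obtain ⟨i, hi⟩ : ∃ i, Nat.nth (S N) i = m * q * 2 ^ n := by
        have h1 : m * q * 2 ^ n ∈ Set.range (Nat.nth (S N)) := by
          rw [Nat.range_nth_of_infinite hinf]
          exact hsmem
        exact h1
      refine ⟨i, ?_, ?_⟩
      · -- `i ≥ i₀`
        rw [← Nat.nth_le_nth hinf, hi]
        have h1 : Nat.nth (S N) i₀ ≤ 2 ^ n := hn.le.trans (Nat.lt_two_pow_self).le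
        have h2 : 0 < m * q := Nat.mul_pos hm1 hq1
        calc Nat.nth (S N) i₀ ≤ 2 ^ n := h1
          _ = 1 * 2 ^ n := by ring
          _ ≤ m * q * 2 ^ n := Nat.mul_le_mul_right _ h2
      · rw [hcast, hi]
        have hval : ξ * ((m * q * 2 ^ n : ℕ) : ℝ) = ((m * p + k : ℤ) : ℝ) + ((m : ℝ) * z - k) := by
          rw [hz]
          push_cast
          ring
        have hb : |z| < δ / 2 := hup.trans_lt hQδ
        have hk' := abs_lt.mp hk
        have hfr : Int.fract ((m : ℝ) * z - k) = (m : ℝ) * z - k := by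
          rw [Int.fract_eq_self]
          constructor <;> linarith [hk'.1, hk'.2]
        rw [hval, Int.fract_intCast_add, hfr]
        linarith [hk'.1]
    refine Filter.le_limsup_of_frequently_le hfreq ?_
    refine ⟨1, ?_⟩
    rw [Filter.eventually_map]
    exact Filter.Eventually.of_forall fun n => (Int.fract_lt_one _).le

end Pool.Agent.S10501
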