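import Pool.Statements.S10528

set_option autoImplicit false
open Pool Pool.MP_5317dd_nt

namespace Pool.Agent.S10528

/-- The map `F_13` on the natural numbers. -/
def f13 (x : ℕ) : ℕ :=
  if x % 13 = 0 then x / 13
  else if x % 13 = 12 then 14 * x + 1
  else 14 * x - x % 13

/-- The orbit of 147 under `F_13` is a cycle of length 71. -/
theorem f13_period : f13^[71] 147 = 147 := by
  decide +kernel

/-- All 71 members of the cycle are at least 13. -/
theorem f13_ge : ∀ i < 71, 13 ≤ f13^[i] 147 := by
  decide +kernel

/-- The negation of the preceding statement: For every D ≥ 2 and every n ≥ 1, iterating F_D from n eventually gives a value below D. Here F_D(x) is x/D if D divides x, (D+1)x+1 if x ≡ −1 mod D, and (D+1)x − (x mod D) otherwise. -/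
theorem result :
    ¬ (∀ D : ℕ, 2 ≤ D → ∀ n : ℕ, 1 ≤ n →
      ∃ k : ℕ,
        (fun x : ℕ =>
          if x % D = 0 then x / D
          else if x % D = D - 1 then (D + 1) * x + 1
          else (D + 1) * x - x % D)^[k] n < D) := by
  intro h
  obtain ⟨k, hk⟩ := h 13 (by norm_num) 147 (by norm_num)
  have hk' : f13^[k] 147 < 13 := hk
  have hper : Function.IsPeriodicPt f13 71 147 := f13_period
  have h1 : f13^[k % 71] 147 = f13^[k] 147 := hper.iterate_mod_apply k
  have h2 := f13_ge (k % 71) (Nat.mod_lt _ (by norm_num))
  omega

end Pool.Agent.S10528
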