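import Pool.Statements.S10538
import Pool.Agent.Helper403.Final

set_option autoImplicit false
open Pool Pool.MP_559555_nt

namespace Pool.Agent.S10538

/-- The negation of the preceding statement: Let W(n) be the sum over the prime powers p^a exactly dividing n of n/p^a. The number of distinct values W(n) takes for 1 ≤ n ≤ x, divided by x, tends to 0 as x tends to infinity. -/
theorem result :
    ¬ (Filter.Tendsto
      (fun x : ℕ =>
        (((Finset.Icc 1 x).image
            (fun n : ℕ => ∑ p ∈ n.primeFactors, n / p ^ (n.factorization p))).card : ℝ)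
          / (x : ℝ))
      Filter.atTop (nhds 0)) := by
  intro h
  obtain ⟨c, hc, N0, hN0⟩ := Pool.Agent.Helper403.main_bound
  have hev := h.eventually (gt_mem_nhds hc)
  obtain ⟨x0, hx0⟩ := Filter.eventually_atTop.mp hev
  have hlarge : x0 ≤ Pool.Agent.Helper403.XX (N0 + x0) := by
    unfold Pool.Agent.Helper403.XX
    calc x0 ≤ 130 * (N0 + x0) := by omega
      _ ≤ 4 ^ (130 * (N0 + x0)) := (Nat.lt_pow_self (by norm_num)).le
  have h1 := hx0 _ hlarge
  have h2 := hN0 (N0 + x0) (by omega)
  have hX : (0 : ℝ) < (Pool.Agent.Helper403.XX (N0 + x0) : ℝ) := by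
    unfold Pool.Agent.Helper403.XX
    positivity
  rw [div_lt_iff₀ hX] at h1
  exact absurd h2 (not_le.mpr h1)

end Pool.Agent.S10538
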