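import Pool.Statements.S10539
import Pool.Agent.Helper482.HypMain

set_option autoImplicit false
open Pool Pool.MP_55e671_nt

namespace Pool.Agent.S10539

open Pool.Agent.Helper482.Hyp in
lemma shift_main (A : Set (ℕ × ℕ)) (ε : ℝ) (hε : 0 < ε)
    (hA : ∀ N : ℕ, ∃ a b m n : ℕ, N ≤ m ∧ N ≤ n ∧
        ε * ((m : ℝ) * (n : ℝ)) ≤
          (({p : ℕ × ℕ | p ∈ A ∧ a ≤ p.1 ∧ p.1 < a + m ∧ b ≤ p.2 ∧ p.2 < b + n}.ncard : ℕ) : ℝ))
    (k : ℤ) (N₁ : ℕ) (hN₁ : 0 < N₁) :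
    ∃ B : Finset (ℤ × ℤ), (∀ x ∈ B, 0 ≤ x.1 ∧ x.1 < N₁ ∧ 0 ≤ x.2 ∧ x.2 < N₁) ∧
      ε / 6 * (N₁ : ℝ) ^ 2 ≤ B.card ∧
      ∃ s : ℤ × ℤ, ∀ x ∈ B, ∃ p ∈ A, (p.1 : ℤ) = s.1 + x.1 ∧ (p.2 : ℤ) = s.2 + k * x.2 := by
  classical
  set K := k.natAbs with hK
  obtain ⟨a, b, M, L, hM, hL, hcard⟩ := hA (K * N₁ + N₁)
  set W : Set (ℕ × ℕ) := {p : ℕ × ℕ | p ∈ A ∧ a ≤ p.1 ∧ p.1 < a + M ∧ b ≤ p.2 ∧ p.2 < b + L}
    with hW
  have hfin : W.Finite := by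
    apply Set.Finite.subset ((Finset.Ico a (a + M) ×ˢ Finset.Ico b (b + L)).finite_toSet)
    rintro p ⟨_, h1, h2, h3, h4⟩
    simp [h1, h2, h3, h4]
  set T := hfin.toFinset with hT
  have hTc : W.ncard = T.card := Set.ncard_eq_toFinset_card _ hfin
  set TZ : Finset (ℤ × ℤ) := T.image (fun p => ((p.1 : ℤ), (p.2 : ℤ))) with hTZ
  have hTZc : TZ.card = T.card := by
    apply Finset.card_image_of_injective
    intro p q hpq
    simp only [Prod.mk.injEq, Nat.cast_inj] at hpq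
    exact Prod.ext hpq.1 hpq.2
  have hTZA : ∀ y ∈ TZ, ∃ p ∈ A, (p.1 : ℤ) = y.1 ∧ (p.2 : ℤ) = y.2 := by
    intro y hy
    rw [hTZ, Finset.mem_image] at hy
    obtain ⟨p, hp, rfl⟩ := hy
    rw [hT, Set.Finite.mem_toFinset] at hp
    exact ⟨p, hp.1, rfl, rfl⟩
  have hTZbox : ∀ y ∈ TZ, (a : ℤ) ≤ y.1 ∧ y.1 < a + M ∧ (b : ℤ) ≤ y.2 ∧ y.2 < b + L := by
    intro y hy
    rw [hTZ, Finset.mem_image] at hy
    obtain ⟨p, hp, rfl⟩ := hy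
    rw [hT, Set.Finite.mem_toFinset] at hp
    obtain ⟨_, h1, h2, h3, h4⟩ := hp
    simp only
    refine ⟨?_, ?_, ?_, ?_⟩ <;> exact_mod_cast (by assumption)
  set S : Finset (ℤ × ℤ) := Finset.Ico ((a : ℤ) - N₁) (a + M) ×ˢ
    Finset.Ico ((b : ℤ) - K * N₁) (b + L + K * N₁) with hS
  set Q : Finset (ℤ × ℤ) := Finset.Ico (0 : ℤ) N₁ ×ˢ Finset.Ico (0 : ℤ) N₁ with hQ
  have hQc : (Q.card : ℝ) = (N₁ : ℝ) ^ 2 := by
    rw [hQ, Finset.card_product, Int.card_Ico]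
    simp [sq]
  have hKabs : ((K : ℕ) : ℤ) = |k| := by rw [hK]; exact Int.natCast_natAbs k
  have hmass : ∀ h ∈ Q, ∑ x ∈ S, (if x + (h.1, k * h.2) ∈ TZ then (1 : ℝ) else 0) = TZ.card := by
    intro h hh
    apply mass
    intro y hy
    obtain ⟨h1, h2, h3, h4⟩ := hTZbox y hy
    rw [hQ, Finset.mem_product, Finset.mem_Ico, Finset.mem_Ico] at hh
    obtain ⟨⟨g1, g2⟩, ⟨g3, g4⟩⟩ := hh
    have habs : |k * h.2| ≤ K * N₁ := by
      rw [abs_mul, hKabs, abs_of_nonneg g3]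
      exact mul_le_mul_of_nonneg_left g4.le (abs_nonneg k)
    rw [abs_le] at habs
    rw [hS, Finset.mem_product, Finset.mem_Ico, Finset.mem_Ico]
    simp only [Prod.fst_sub, Prod.snd_sub]
    have : y.2 - k * h.2 ≠ b + L + K * N₁ := by
      intro hcon
      linarith
    refine ⟨⟨by linarith, by linarith⟩, ⟨by linarith, by linarith⟩⟩
  have hdouble : ∑ x ∈ S, ∑ h ∈ Q, (if x + (h.1, k * h.2) ∈ TZ then (1 : ℝ) else 0)
      = (N₁ : ℝ) ^ 2 * TZ.card := by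
    rw [Finset.sum_comm, Finset.sum_congr rfl hmass, Finset.sum_const, nsmul_eq_mul, hQc]
  have hM1 : (N₁ : ℝ) ≤ M := by
    have : N₁ ≤ M := by
      have := Nat.le_add_left N₁ (K * N₁); omega
    exact_mod_cast this
  have hL1 : ((K * N₁ : ℕ) : ℝ) ≤ L := by
    have : K * N₁ ≤ L := by omega
    exact_mod_cast this
  have hSc : (S.card : ℝ) ≤ 6 * ((M : ℝ) * L) := by
    rw [hS, Finset.card_product, Int.card_Ico, Int.card_Ico]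
    have e1 : ((a : ℤ) + M - ((a : ℤ) - N₁)).toNat = M + N₁ := by omega
    have e2 : ((b : ℤ) + L + K * N₁ - ((b : ℤ) - K * N₁)).toNat = L + 2 * (K * N₁) := by
      have : (b : ℤ) + L + K * N₁ - ((b : ℤ) - K * N₁) = ((L + 2 * (K * N₁) : ℕ) : ℤ) := by
        push_cast; ring
      rw [this, Int.toNat_natCast]
    rw [e1, e2]
    push_cast at hL1 ⊢
    have hM0 : (0 : ℝ) ≤ M := Nat.cast_nonneg _
    have hL0 : (0 : ℝ) ≤ L := Nat.cast_nonneg _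
    have h3 : (M : ℝ) + N₁ ≤ 2 * M := by linarith
    have h4 : (L : ℝ) + 2 * (K * N₁) ≤ 3 * L := by linarith
    calc ((M : ℝ) + N₁) * (L + 2 * (K * N₁)) ≤ (2 * M) * (3 * L) :=
          mul_le_mul h3 h4 (by positivity) (by positivity)
      _ = 6 * ((M : ℝ) * L) := by ring
  have hSne : S.Nonempty := by
    rw [hS]
    apply Finset.Nonempty.product
    · rw [Finset.nonempty_Ico]; omega
    · rw [Finset.nonempty_Ico]
      have : (0 : ℤ) < L := by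
        have : 0 < L := by
          have := Nat.le_add_left N₁ (K * N₁); omega
        exact_mod_cast this
      have : (0 : ℤ) ≤ K * N₁ := by positivity
      linarith
  have hN1R : (0 : ℝ) < (N₁ : ℝ) ^ 2 := by
    have : (0 : ℝ) < N₁ := by exact_mod_cast hN₁
    positivity
  obtain ⟨s, hs, hsB⟩ : ∃ s ∈ S, ε / 6 * (N₁ : ℝ) ^ 2 ≤
      ∑ h ∈ Q, (if s + (h.1, k * h.2) ∈ TZ then (1 : ℝ) else 0) := by
    by_contra hcon
    push Not at hcon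
    have h1 := Finset.sum_lt_sum_of_nonempty hSne hcon
    rw [hdouble, Finset.sum_const, nsmul_eq_mul] at h1
    rw [hTc, ← hTZc] at hcard
    have h2 : (S.card : ℝ) * (ε / 6 * (N₁ : ℝ) ^ 2) ≤ 6 * ((M : ℝ) * L) * (ε / 6 * (N₁ : ℝ) ^ 2) :=
      mul_le_mul_of_nonneg_right hSc (by positivity)
    have h3 : (N₁ : ℝ) ^ 2 * (ε * ((M : ℝ) * L)) ≤ (N₁ : ℝ) ^ 2 * TZ.card :=
      mul_le_mul_of_nonneg_left hcard hN1R.le
    nlinarith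
  refine ⟨Q.filter (fun h => s + (h.1, k * h.2) ∈ TZ), ?_, ?_, s, ?_⟩
  · intro x hx
    rw [Finset.mem_filter, hQ, Finset.mem_product, Finset.mem_Ico, Finset.mem_Ico] at hx
    exact ⟨hx.1.1.1, hx.1.1.2, hx.1.2.1, hx.1.2.2⟩
  · rw [Finset.sum_boole] at hsB
    exact hsB
  · intro x hx
    rw [Finset.mem_filter] at hx
    obtain ⟨p, hp, h1, h2⟩ := hTZA _ hx.2
    exact ⟨p, hp, h1, h2⟩

/-- For every A in ℕ×ℕ of positive upper Banach density, the set of products x·y over (x,y) in A−A contains a nonzero subgroup of the integers. -/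
theorem result :
    ∀ A : Set (ℕ × ℕ),
      (∃ ε : ℝ, 0 < ε ∧ ∀ N : ℕ, ∃ a b m n : ℕ, N ≤ m ∧ N ≤ n ∧
        ε * ((m : ℝ) * (n : ℝ)) ≤
          (({p : ℕ × ℕ | p ∈ A ∧ a ≤ p.1 ∧ p.1 < a + m ∧ b ≤ p.2 ∧ p.2 < b + n}.ncard : ℕ) : ℝ)) →
      ∃ H : AddSubgroup ℤ, H ≠ ⊥ ∧
        ∀ z ∈ H, ∃ p ∈ A, ∃ q ∈ A,
          (((p.1 : ℤ) - (q.1 : ℤ)) * ((p.2 : ℤ) - (q.2 : ℤ))) = z := by
  rintro A ⟨ε, hε, hA⟩
  obtain ⟨m, hm, N₀, hN₀⟩ := Pool.Agent.Helper482.Hyp.finite_main (ε / 6) (by positivity)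
  refine ⟨AddSubgroup.zmultiples (m : ℤ), ?_, ?_⟩
  · rw [Ne, AddSubgroup.zmultiples_eq_bot]
    exact_mod_cast hm.ne'
  · intro z hz
    obtain ⟨k, rfl⟩ := AddSubgroup.mem_zmultiples_iff.mp hz
    obtain ⟨B, hB1, hB2, s, hB3⟩ := shift_main A ε hε hA k (max N₀ 1) (by omega)
    obtain ⟨x, hx, y, hy, hxy⟩ := hN₀ (max N₀ 1) (le_max_left _ _) B hB1 hB2
    obtain ⟨p, hp, hp1, hp2⟩ := hB3 x hx
    obtain ⟨q, hq, hq1, hq2⟩ := hB3 y hy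
    refine ⟨p, hp, q, hq, ?_⟩
    rw [hp1, hp2, hq1, hq2, smul_eq_mul, ← hxy]
    ring

end Pool.Agent.S10539
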