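import Pool.Statements.S10543
import Pool.Agent.Helper862.Main

set_option autoImplicit false
open Filter Asymptotics
open Pool Pool.MP_55fc5f_nt

namespace Pool.Agent.S10543

/-- There is a constant c such that the number of Markov triples a ≤ b ≤ c' ≤ x (a²+b²+c'²=3abc') equals c·(log 3x)² plus an error that is o(log x) as x → ∞. -/
theorem result :
    ∃ c : ℝ, (fun x : ℝ =>
      (((Finset.Icc 1 ⌊x⌋₊ ×ˢ (Finset.Icc 1 ⌊x⌋₊ ×ˢ Finset.Icc 1 ⌊x⌋₊)).filter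
          (fun t : ℕ × ℕ × ℕ => t.1 ≤ t.2.1 ∧ t.2.1 ≤ t.2.2 ∧
            t.1 ^ 2 + t.2.1 ^ 2 + t.2.2 ^ 2 = 3 * t.1 * t.2.1 * t.2.2)).card : ℝ)
        - c * (Real.log (3 * x)) ^ 2)
      =o[atTop] (fun x : ℝ => Real.log x) := by
  exact Pool.Agent.Helper862.Mk.main

end Pool.Agent.S10543
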