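import Pool.Statements.S10653
import Pool.Agent.Helper601.Assembly

set_option autoImplicit false
open N140ae710
open scoped BigOperators
open Pool Pool.MP_636046_nt

namespace Pool.Agent.S10653

/-- ∃ c>0, ∃ N, ∀ n≥N, c·n ≤ #{m∈[1,n] : min k≥2 with a k-element set of positive integers ≤ m containing m whose factorial product is a square equals 6} -/
theorem result :
    PositiveLowerDensitySix := by
  exact Pool.Agent.Helper601.main_density

end Pool.Agent.S10653
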