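import Pool.Statements.S10688
import Pool.Agent.Helper24.BMain

set_option autoImplicit false
open Pool Pool.MP_66b831_nt

namespace Pool.Agent.S10688

/-- The negation of the preceding statement: There exist integers x, y, z > 1 with x²−1 = (z²−1)²(y²−1) such that (x,y,z) is neither (m(4m²−3), m, 2m) for any m ≥ 2 nor (8m⁴+16m³+8m²−1, 2m²+2m, 2m+1) for any m ≥ 1. -/
theorem result :
    ¬ (∃ x y z : ℤ, 1 < x ∧ 1 < y ∧ 1 < z ∧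
      x ^ 2 - 1 = (z ^ 2 - 1) ^ 2 * (y ^ 2 - 1) ∧
      ¬ (∃ m : ℤ, 2 ≤ m ∧ x = m * (4 * m ^ 2 - 3) ∧ y = m ∧ z = 2 * m) ∧
      ¬ (∃ m : ℤ, 1 ≤ m ∧ x = 8 * m ^ 4 + 16 * m ^ 3 + 8 * m ^ 2 - 1 ∧
          y = 2 * m ^ 2 + 2 * m ∧ z = 2 * m + 1)) := by
  rintro ⟨x, y, z, hx, hy, hz, h, h1, h2⟩
  rcases Pool.Agent.Helper24.BMain.main hx hy hz h with h3 | h3
  · exact h1 h3
  · exact h2 h3

end Pool.Agent.S10688
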