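import Pool.Statements.S10704
import Pool.Agent.Helper365.Mk

set_option autoImplicit false
open N871f2b45
open Pool Pool.MP_684405_nt

namespace Pool.Agent.S10704

open Pool.Agent.Helper365

/-- core contradiction -/
theorem core (C : ℕ) (hC : ∀ k : ℕ, ContainsQuasiProgression {n : ℕ | IsSquare n} C k) : False := by
  classical
  obtain ⟨L, hL⟩ := collinear6 C
  obtain ⟨V, hVpos, hV⟩ := unif L
  -- number of windows
  set Dt : Finset ((Fin 5 → ℕ) × ℕ) :=
    (Fintype.piFinset (fun _ => Finset.range (L + 1))) ×ˢ Finset.range (C * L + 1) with hDt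
  set V1 : ℕ := V * (V + 2) with hV1
  set W0 : ℕ := Dt.card * V1 + 1 with hW0
  set K : ℕ := L * (2 * (C * L * (W0 * (L + 1)))) with hK
  obtain ⟨Y, hY⟩ := hV K
  set k0 : ℕ := (Y + 1) * (L ^ 4 * (C + 1)) + 1 with hk0
  set k : ℕ := k0 + W0 * (L + 1) + 1 with hk
  obtain ⟨x, d, hd, hsq, hqp⟩ := hC k
  -- roots
  have hroot : ∀ i, i < k → ((Nat.sqrt (x i) : ℕ) : ℤ) ^ 2 = x i := by
    intro i hi
    obtain ⟨r, hr⟩ := hsq i hi
    have : Nat.sqrt (x i) = r := by rw [hr]; exact Nat.sqrt_eq r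
    rw [this, hr]; push_cast; ring
  -- lower bound x i ≥ i * d
  have hxlow : ∀ i, i < k → i * d ≤ x i := by
    intro i
    induction i with
    | zero => intro _; simp
    | succ i ih =>
      intro hi
      have h1 := ih (by omega)
      have h2 := (hqp i hi).1
      calc (i + 1) * d = i * d + d := by ring
        _ ≤ x i + d := by omega
        _ ≤ x (i + 1) := h2
  have hxmono : ∀ i j, i < j → j < k → x i < x j := by
    intro i j hij
    induction j with
    | zero => omega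
    | succ j ih =>
      intro hjk
      have h2 := (hqp j hjk).1
      rcases Nat.lt_or_ge i j with h | h
      · have := ih h (by omega); omega
      · have : i = j := by omega
        subst this; omega
  -- the error sequence
  set e : ℕ → ℤ := fun i => (x (min i (k - 1)) : ℤ) - (min i (k - 1) : ℕ) * d with he
  have hestep : ∀ i, e i ≤ e (i + 1) ∧ e (i + 1) ≤ e i + C := by
    intro i
    simp only [he]
    rcases Nat.lt_or_ge i (k - 1) with h | h
    · have h1 : min i (k - 1) = i := by omega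
      have h2 : min (i + 1) (k - 1) = i + 1 := by omega
      rw [h1, h2]
      obtain ⟨h3, h4⟩ := hqp i (by omega)
      have h3' : (x i : ℤ) + d ≤ x (i + 1) := by exact_mod_cast h3
      have h4' : (x (i + 1) : ℤ) ≤ x i + d + C := by exact_mod_cast h4
      push_cast
      constructor <;> linarith
    · have h1 : min i (k - 1) = k - 1 := by omega
      have h2 : min (i + 1) (k - 1) = k - 1 := by omega
      rw [h1, h2]
      constructor <;> linarith [Int.natCast_nonneg C]
  have heval : ∀ i, i < k → e i = (x i : ℤ) - i * d := by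
    intro i hi
    simp only [he]
    have h1 : min i (k - 1) = i := by omega
    rw [h1]
  -- windows
  have hwin := fun w : ℕ => hL e hestep (k0 + w * (L + 1))
  choose idx hmono hrange hcol using hwin
  -- all indices are < k for w < W0
  have hidxk : ∀ w, w < W0 → ∀ j, idx w j < k := by
    intro w hw j
    have h1 := (hrange w j).2
    have h2 : (w + 1) * (L + 1) ≤ W0 * (L + 1) := Nat.mul_le_mul_right _ hw
    have h3 : (w + 1) * (L + 1) = w * (L + 1) + L + 1 := by ring
    omega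
  have hidxlt : ∀ w w', w < w' → ∀ j j', idx w j < idx w' j' := by
    intro w w' hw j j'
    have h1 := (hrange w j).2
    have h2 := (hrange w' j').1
    have h3 : (w + 1) * (L + 1) ≤ w' * (L + 1) := Nat.mul_le_mul_right _ hw
    have h4 : (w + 1) * (L + 1) = w * (L + 1) + L + 1 := by ring
    omega
  -- data of a window
  set dat : ℕ → (Fin 5 → ℕ) × ℕ := fun w =>
    (fun j => idx w j.succ - idx w 0, (e (idx w 1) - e (idx w 0)).toNat) with hdat
  have hlt0 : ∀ w (j : Fin 5), idx w 0 < idx w j.succ := fun w j => hmono w (Fin.succ_pos j)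
  have hediff : ∀ w, 0 ≤ e (idx w 1) - e (idx w 0) ∧ e (idx w 1) - e (idx w 0) ≤ C * L := by
    intro w
    have h0 := hlt0 w 0
    have h01 : idx w 0 < idx w 1 := h0
    have h1 := mono_lip e C hestep (idx w 0) (idx w 1 - idx w 0)
    have h2 : idx w 0 + (idx w 1 - idx w 0) = idx w 1 := by omega
    rw [h2] at h1
    have h3 : idx w 1 - idx w 0 ≤ L := by
      have := (hrange w 1).2
      have := (hrange w 0).1
      omega
    have h4 : ((idx w 1 - idx w 0 : ℕ) : ℤ) ≤ L := by exact_mod_cast h3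
    have h5 : (C : ℤ) * ((idx w 1 - idx w 0 : ℕ) : ℤ) ≤ C * L :=
      mul_le_mul_of_nonneg_left h4 (Int.natCast_nonneg C)
    constructor
    · linarith [h1.1]
    · linarith [h1.2]
  have hdatmem : ∀ w ∈ Finset.range W0, dat w ∈ Dt := by
    intro w _
    rw [hDt, Finset.mem_product]
    constructor
    · rw [Fintype.mem_piFinset]
      intro j
      simp only [hdat, Finset.mem_range]
      have := (hrange w j.succ).2
      have := (hrange w 0).1
      omega
    · simp only [hdat, Finset.mem_range]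
      have h1 := (hediff w).2
      have h2 : (e (idx w 1) - e (idx w 0)).toNat ≤ C * L := by
        rw [Int.toNat_le]; push_cast; exact h1
      omega
  obtain ⟨⟨t, p⟩, htp, hcard⟩ := Finset.exists_lt_card_fiber_of_mul_lt_card_of_maps_to
    (n := V1) hdatmem (by rw [Finset.card_range, hW0]; omega)
  set T1 := (Finset.range W0).filter (fun w => dat w = (t, p)) with hT1
  have hT1W : ∀ w ∈ T1, w < W0 := fun w hw => Finset.mem_range.mp (Finset.mem_filter.mp hw).1
  have hT1t : ∀ w ∈ T1, ∀ j : Fin 5, idx w j.succ = idx w 0 + t j := by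
    intro w hw j
    have h1 := (Finset.mem_filter.mp hw).2
    have h2 : idx w j.succ - idx w 0 = t j := congrFun (congrArg Prod.fst h1) j
    have h3 := hlt0 w j
    omega
  have hT1p : ∀ w ∈ T1, e (idx w 1) - e (idx w 0) = p := by
    intro w hw
    have h1 := (Finset.mem_filter.mp hw).2
    have h2 : (e (idx w 1) - e (idx w 0)).toNat = p := congrArg Prod.snd h1
    have h3 := (hediff w).1
    omega
  have hT1ne : T1.Nonempty := Finset.card_pos.mp (by omega)
  obtain ⟨wz, hwz⟩ := hT1ne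
  -- the pattern
  have ht0 : 0 < t 0 := by
    have h1 := hT1t wz hwz 0
    have h2 := hlt0 wz 0
    omega
  have htm : ∀ a b : Fin 5, a < b → t a < t b := by
    intro a b hab
    have h1 := hT1t wz hwz a
    have h2 := hT1t wz hwz b
    have h3 : idx wz a.succ < idx wz b.succ := hmono wz (Fin.succ_lt_succ_iff.mpr hab)
    omega
  have htL : ∀ j, t j ≤ L := by
    intro j
    have h1 := hT1t wz hwz j
    have h2 := (hrange wz j.succ).2
    have h3 := (hrange wz 0).1
    omega
  have hpCL : p ≤ C * L := by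
    have h1 := hT1p wz hwz
    have h2 := (hediff wz).2
    rw [h1] at h2
    exact_mod_cast h2
  obtain ⟨hc1, hc2⟩ := hY t ht0 (htm 0 1 (by decide)) (htm 1 2 (by decide)) (htm 2 3 (by decide))
    (htm 3 4 (by decide)) htL
  -- D
  set D : ℕ := t 0 * (t 0 * d + p) with hD
  have hDpos : 0 < D := by positivity
  have hLpos : 0 < L := lt_of_lt_of_le ht0 (htL 0)
  have hDle : D ≤ L ^ 2 * (C + 1) * d := by
    calc D ≤ L * (L * d + C * L) := by
          rw [hD]
          apply Nat.mul_le_mul (htL 0)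
          apply Nat.add_le_add _ hpCL
          exact Nat.mul_le_mul_right d (htL 0)
      _ = L ^ 2 * (d + C) := by ring
      _ ≤ L ^ 2 * ((C + 1) * d) := by
          apply Nat.mul_le_mul_left
          nlinarith
      _ = _ := by ring
  -- the numbers y
  set y : ℕ → Fin 6 → ℤ := fun w j => (t 0 : ℤ) * (Nat.sqrt (x (idx w j)) : ℕ) with hy
  have hysq : ∀ w ∈ T1, ∀ j, (y w j) ^ 2 = (t 0 : ℤ) ^ 2 * x (idx w j) := by
    intro w hw j
    simp only [hy]
    rw [mul_pow, hroot _ (hidxk w (hT1W w hw) j)]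
  have hy0sq : ∀ w ∈ T1, ∀ j : Fin 5, (y w j.succ) ^ 2 = (y w 0) ^ 2 + (t j : ℤ) * D := by
    intro w hw j
    rw [hysq w hw, hysq w hw]
    have hk1 := hidxk w (hT1W w hw) j.succ
    have hk2 := hidxk w (hT1W w hw) 0
    have h1 := hcol w j.succ
    have h2 := hT1p w hw
    have h3 := hT1t w hw j
    have h4 := hT1t w hw 0
    have h5 : ((idx w 1 : ℕ) : ℤ) - idx w 0 = t 0 := by
      have : idx w 1 = idx w 0 + t 0 := h4
      rw [this]; push_cast; ring
    have h6 : ((idx w j.succ : ℕ) : ℤ) - idx w 0 = t j := by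
      rw [h3]; push_cast; ring
    rw [h5, h2, h6, heval _ hk1, heval _ hk2] at h1
    rw [hD]
    push_cast
    have h7 : ((idx w j.succ : ℕ) : ℤ) = idx w 0 + t j := by linarith
    rw [h7] at h1
    linear_combination (t 0 : ℤ) * h1
  have hxpos : ∀ w ∈ T1, ∀ j, 0 < x (idx w j) := by
    intro w hw j
    have hk1 := hidxk w (hT1W w hw) j
    have h1 := hxlow _ hk1
    have h2 := (hrange w j).1
    have h3 : 0 < idx w j := by omega
    have : 0 < idx w j * d := Nat.mul_pos h3 hd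
    omega
  have hypos : ∀ w ∈ T1, ∀ j, 0 < y w j := by
    intro w hw j
    simp only [hy]
    have h1 : 0 < Nat.sqrt (x (idx w j)) := Nat.sqrt_pos.mpr (hxpos w hw j)
    positivity
  -- the sextuples
  have hsx : ∀ w, ∃ s : Sx (t 0) (t 1) (t 2) (t 3) (t 4) (t 0 : ℤ).natAbs, w ∈ T1 →
      s.z0 * (Bf (Nat.gcd ((y w 0).natAbs ^ 2) (D : ℤ).natAbs) : ℤ) = y w 0 ∧
      s.E * (Bf (Nat.gcd ((y w 0).natAbs ^ 2) (D : ℤ).natAbs) : ℤ) ^ 2 = D := by
    have hinst : ∀ w ∈ T1, ∃ s : Sx (t 0) (t 1) (t 2) (t 3) (t 4) (t 0 : ℤ).natAbs,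
      s.z0 * (Bf (Nat.gcd ((y w 0).natAbs ^ 2) (D : ℤ).natAbs) : ℤ) = y w 0 ∧
      s.E * (Bf (Nat.gcd ((y w 0).natAbs ^ 2) (D : ℤ).natAbs) : ℤ) ^ 2 = D := by
      intro w hw
      exact mkSx (y0 := y w 0) (y1 := y w 1) (y2 := y w 2) (y3 := y w 3) (y4 := y w 4) (y5 := y w 5)
        (by exact_mod_cast ht0) (by exact_mod_cast hDpos) (hypos w hw 0) (hypos w hw 2)
        (hy0sq w hw 0) (hy0sq w hw 1) (hy0sq w hw 2) (hy0sq w hw 3) (hy0sq w hw 4)
    intro w
    by_cases hw : w ∈ T1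
    · obtain ⟨s, hs⟩ := hinst w hw
      exact ⟨s, fun _ => hs⟩
    · obtain ⟨s, _⟩ := hinst wz hwz
      exact ⟨s, fun h => absurd h hw⟩
  choose s hs using hsx
  set b : ℕ → ℕ := fun w => Bf (Nat.gcd ((y w 0).natAbs ^ 2) (D : ℤ).natAbs) with hb
  have hs1 : ∀ w ∈ T1, (s w).z0 * (b w : ℤ) = y w 0 := fun w hw => (hs w hw).1
  have hs2 : ∀ w ∈ T1, (s w).E * (b w : ℤ) ^ 2 = D := fun w hw => (hs w hw).2
  -- y is injective in w
  have hyinj : ∀ w ∈ T1, ∀ w' ∈ T1, w ≠ w' → y w 0 ≠ y w' 0 := by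
    have aux : ∀ w ∈ T1, ∀ w' ∈ T1, w < w' → y w 0 ≠ y w' 0 := by
      intro w hw w' hw' hlt h
      have h1 := hysq w hw 0
      have h2 := hysq w' hw' 0
      rw [h, h2] at h1
      have ht0z : (t 0 : ℤ) ^ 2 ≠ 0 := by positivity
      have h3 := mul_left_cancel₀ ht0z h1
      have h4 : x (idx w' 0) = x (idx w 0) := by exact_mod_cast h3
      have h5 := hxmono _ _ (hidxlt w w' hlt 0 0) (hidxk w' (hT1W w' hw') 0)
      omega
    intro w hw w' hw' hne
    rcases Nat.lt_or_gt_of_ne hne with h | h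
    · exact aux w hw w' hw' h
    · exact fun h' => aux w' hw' w hw h h'.symm
  -- y0 ≤ t0 * D
  have hyle : ∀ w ∈ T1, y w 0 ≤ (t 0 : ℤ) * D := by
    intro w hw
    have h1 := hy0sq w hw 0
    have h2 := hypos w hw 0
    have h3 : (0 : ℤ) < (t 0 : ℤ) * D := by positivity
    have h4 := hypos w hw 1
    have h1' : (y w 1) ^ 2 = (y w 0) ^ 2 + (t 0 : ℤ) * D := h1
    have h5 : y w 0 < y w 1 := by
      apply lt_of_pow_lt_pow_left₀ 2 h4.le
      rw [h1']; linarith
    nlinarith
  -- lower bound for y0^2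
  have hylow : ∀ w ∈ T1, (k0 : ℤ) * d ≤ (y w 0) ^ 2 := by
    intro w hw
    rw [hysq w hw]
    have h1 := hxlow _ (hidxk w (hT1W w hw) 0)
    have h2 := (hrange w 0).1
    have h3 : k0 * d ≤ x (idx w 0) := by
      calc k0 * d ≤ idx w 0 * d := Nat.mul_le_mul_right d (by omega)
        _ ≤ _ := h1
    have h4 : 1 ≤ t 0 ^ 2 := Nat.one_le_pow _ _ ht0
    have h5 : k0 * d ≤ t 0 ^ 2 * x (idx w 0) := by nlinarith
    exact_mod_cast h5
  -- labels
  set κ : ℕ → ℤ := fun w => (t 0 : ℤ) * e (idx w 0) - p * (idx w 0 : ℕ) with hκ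
  have hdiff : ∀ w ∈ T1, ∀ w' ∈ T1, (y w 0) ^ 2 - (y w' 0) ^ 2
      = ((idx w 0 : ℕ) - (idx w' 0 : ℕ) : ℤ) * D + (t 0 : ℤ) * (κ w - κ w') := by
    intro w hw w' hw'
    rw [hysq w hw, hysq w' hw']
    have g1 := heval _ (hidxk w (hT1W w hw) 0)
    have g2 := heval _ (hidxk w' (hT1W w' hw') 0)
    simp only [hκ, hD]
    rw [g1, g2]
    push_cast
    ring
  by_cases hcase : ∃ lab, V ≤ (T1.filter (fun w => κ w = lab)).card
  · -- case 1
    obtain ⟨lab, hlab⟩ := hcase
    set T := T1.filter (fun w => κ w = lab) with hT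
    have hTT1 : ∀ w ∈ T, w ∈ T1 := fun w hw => (Finset.mem_filter.mp hw).1
    have hTne : T.Nonempty := Finset.card_pos.mp (by omega)
    obtain ⟨w1, hw1⟩ := hTne
    have hgcdeq : ∀ w ∈ T, b w = b w1 := by
      intro w hw
      have h1 := hdiff w (hTT1 w hw) w1 (hTT1 w1 hw1)
      have h2 : κ w = κ w1 := by
        rw [(Finset.mem_filter.mp hw).2, (Finset.mem_filter.mp hw1).2]
      rw [h2, sub_self, mul_zero, add_zero] at h1
      simp only [hb]
      congr 1
      have h3 : Int.gcd ((y w 0) ^ 2) D = Int.gcd ((y w1 0) ^ 2) D := by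
        have h4 : (y w 0) ^ 2 = (y w1 0) ^ 2 + ((idx w 0 : ℕ) - (idx w1 0 : ℕ) : ℤ) * D := by linarith
        rw [h4]
        exact Int.gcd_add_mul_right_left _ _ _
      rw [Int.gcd, Int.gcd, Int.natAbs_pow, Int.natAbs_pow] at h3
      exact h3
    have hEeq : ∀ w ∈ T, (s w).E = (s w1).E := by
      intro w hw
      have h1 := hs2 w (hTT1 w hw)
      have h2 := hs2 w1 (hTT1 w1 hw1)
      rw [hgcdeq w hw] at h1
      rw [← h2] at h1
      have hb0 : (b w1 : ℤ) ^ 2 ≠ 0 := by
        intro h0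
        rw [h0, mul_zero] at h2
        have : (0 : ℤ) < D := by exact_mod_cast hDpos
        omega
      exact mul_right_cancel₀ hb0 h1
    have hEbig : (Y : ℤ) ≤ (s w1).E := by
      have h1 := sx_bound (by exact_mod_cast ht0) (s w1)
      have h2 := hs1 w1 (hTT1 w1 hw1)
      have h3 := hs2 w1 (hTT1 w1 hw1)
      have h4 := hylow w1 (hTT1 w1 hw1)
      have h5 := (s w1).p0
      have h6 := (s w1).pE
      -- y^2 = z0^2 b^2 ≤ t0^2 E^2 b^2 = t0^2 E D
      have h7 : (y w1 0) ^ 2 ≤ (t 0 : ℤ) ^ 2 * (s w1).E * D := by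
        rw [← h2, ← h3]
        have h8 : (s w1).z0 ^ 2 ≤ ((t 0 : ℤ) * (s w1).E) ^ 2 := pow_le_pow_left₀ h5.le h1 2
        have h9 : (0 : ℤ) ≤ (b w1 : ℤ) ^ 2 := by positivity
        calc ((s w1).z0 * (b w1 : ℤ)) ^ 2 = (s w1).z0 ^ 2 * (b w1 : ℤ) ^ 2 := by ring
          _ ≤ ((t 0 : ℤ) * (s w1).E) ^ 2 * (b w1 : ℤ) ^ 2 := mul_le_mul_of_nonneg_right h8 h9
          _ = _ := by ring
      have h10 : (t 0 : ℤ) ^ 2 ≤ (L : ℤ) ^ 2 := by
        have : t 0 ^ 2 ≤ L ^ 2 := Nat.pow_le_pow_left (htL 0) 2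
        exact_mod_cast this
      have h11 : (D : ℤ) ≤ (L : ℤ) ^ 2 * (C + 1) * d := by exact_mod_cast hDle
      have h12 : (k0 : ℤ) * d ≤ ((L : ℤ) ^ 4 * (C + 1) * (s w1).E) * d := by
        calc (k0 : ℤ) * d ≤ (y w1 0) ^ 2 := h4
          _ ≤ (t 0 : ℤ) ^ 2 * (s w1).E * D := h7
          _ ≤ (L : ℤ) ^ 2 * (s w1).E * ((L : ℤ) ^ 2 * (C + 1) * d) := by
              apply mul_le_mul _ h11 (by positivity) (by positivity)
              exact mul_le_mul_of_nonneg_right h10 h6.le
          _ = _ := by ring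
      have hdz : (0 : ℤ) < d := by exact_mod_cast hd
      have h13 : (k0 : ℤ) ≤ (L : ℤ) ^ 4 * (C + 1) * (s w1).E := le_of_mul_le_mul_right h12 hdz
      by_contra hcon
      push Not at hcon
      have h14 : (L : ℤ) ^ 4 * (C + 1) * (s w1).E ≤ (L : ℤ) ^ 4 * (C + 1) * Y :=
        mul_le_mul_of_nonneg_left hcon.le (by positivity)
      have h15 : (k0 : ℤ) = (Y + 1) * ((L : ℤ) ^ 4 * (C + 1)) + 1 := by rw [hk0]; push_cast; ring
      have h16 : (0 : ℤ) ≤ (L : ℤ) ^ 4 * (C + 1) := by positivity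
      nlinarith
    apply hc1 T hlab s (s w1).E hEbig hEeq
    intro w hw w' hw' hne h
    apply hyinj w (hTT1 w hw) w' (hTT1 w' hw') hne
    rw [← hs1 w (hTT1 w hw), ← hs1 w' (hTT1 w' hw'), h, hgcdeq w hw, hgcdeq w' hw']
  · -- case 2
    push Not at hcase
    have hcardle : T1.card ≤ V * (T1.image κ).card := by
      apply Finset.card_le_mul_card_image
      intro a _
      exact (hcase a).le
    have himg : V + 2 ≤ (T1.image κ).card := by
      by_contra hcon
      push Not at hcon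
      have h1 : V * (T1.image κ).card ≤ V * (V + 2) := Nat.mul_le_mul_left V hcon.le
      omega
    have hrep : ∀ lab, ∃ w, lab ∈ T1.image κ → w ∈ T1 ∧ κ w = lab := by
      intro lab
      by_cases h : lab ∈ T1.image κ
      · obtain ⟨w, hw, hwl⟩ := Finset.mem_image.mp h
        exact ⟨w, fun _ => ⟨hw, hwl⟩⟩
      · exact ⟨0, fun h' => absurd h' h⟩
    choose rep hrep using hrep
    set T := (T1.image κ).image rep with hT
    have hTcard : V + 2 ≤ T.card := by
      rw [hT, Finset.card_image_of_injOn]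
      · exact himg
      · intro l1 hl1 l2 hl2 h12
        have h1 := (hrep l1 hl1).2
        have h2 := (hrep l2 hl2).2
        rw [← h1, ← h2]
        exact congrArg κ h12
    have hTT1 : ∀ w ∈ T, w ∈ T1 := by
      intro w hw
      obtain ⟨lab, hlab, rfl⟩ := Finset.mem_image.mp hw
      exact (hrep lab hlab).1
    have hTκ : ∀ w ∈ T, ∀ w' ∈ T, w ≠ w' → κ w ≠ κ w' := by
      intro w hw w' hw' hne h
      apply hne
      obtain ⟨lab, hlab, rfl⟩ := Finset.mem_image.mp hw
      obtain ⟨lab', hlab', rfl⟩ := Finset.mem_image.mp hw'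
      rw [(hrep lab hlab).2, (hrep lab' hlab').2] at h
      rw [h]
    have hDbig : Y ≤ D := by
      have h4 := hylow wz hwz
      have h5 := hyle wz hwz
      have h6 := hypos wz hwz 0
      have h7 : (y wz 0) ^ 2 ≤ ((t 0 : ℤ) * D) ^ 2 := pow_le_pow_left₀ h6.le h5 2
      have h10 : (t 0 : ℤ) ^ 2 ≤ (L : ℤ) ^ 2 := by
        have : t 0 ^ 2 ≤ L ^ 2 := Nat.pow_le_pow_left (htL 0) 2
        exact_mod_cast this
      have h11 : (D : ℤ) ≤ (L : ℤ) ^ 2 * (C + 1) * d := by exact_mod_cast hDle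
      have h12 : (k0 : ℤ) * d ≤ ((L : ℤ) ^ 4 * (C + 1) * D) * d := by
        calc (k0 : ℤ) * d ≤ (y wz 0) ^ 2 := h4
          _ ≤ ((t 0 : ℤ) * D) ^ 2 := h7
          _ = (t 0 : ℤ) ^ 2 * D * D := by ring
          _ ≤ (L : ℤ) ^ 2 * D * ((L : ℤ) ^ 2 * (C + 1) * d) := by
              apply mul_le_mul _ h11 (by positivity) (by positivity)
              exact mul_le_mul_of_nonneg_right h10 (by positivity)
          _ = _ := by ring
      have hdz : (0 : ℤ) < d := by exact_mod_cast hd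
      have h13 : (k0 : ℤ) ≤ (L : ℤ) ^ 4 * (C + 1) * D := le_of_mul_le_mul_right h12 hdz
      by_contra hcon
      push Not at hcon
      have hconz : (D : ℤ) ≤ Y := by exact_mod_cast hcon.le
      have h14 : (L : ℤ) ^ 4 * (C + 1) * D ≤ (L : ℤ) ^ 4 * (C + 1) * Y :=
        mul_le_mul_of_nonneg_left hconz (by positivity)
      have h15 : (k0 : ℤ) = (Y + 1) * ((L : ℤ) ^ 4 * (C + 1)) + 1 := by rw [hk0]; push_cast; ring
      have h16 : (0 : ℤ) ≤ (L : ℤ) ^ 4 * (C + 1) := by positivity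
      nlinarith
    apply hc2 T hTcard s b D hDbig
    · intro w hw
      exact hs2 w (hTT1 w hw)
    · intro w hw w' hw' hne
      rw [hs1 w (hTT1 w hw), hs1 w' (hTT1 w' hw')]
      exact hyinj w (hTT1 w hw) w' (hTT1 w' hw') hne
    · intro w hw w' hw' hne
      have hκne := hTκ w hw w' hw' hne
      set g := Nat.gcd (b w ^ 2) (b w' ^ 2) with hg
      have hgb : (g : ℤ) ∣ (b w : ℤ) ^ 2 := by
        have := Nat.gcd_dvd_left (b w ^ 2) (b w' ^ 2)
        exact_mod_cast this
      have hgb' : (g : ℤ) ∣ (b w' : ℤ) ^ 2 := by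
        have := Nat.gcd_dvd_right (b w ^ 2) (b w' ^ 2)
        exact_mod_cast this
      have hgD : (g : ℤ) ∣ D := by
        rw [← hs2 w (hTT1 w hw)]
        exact Dvd.dvd.mul_left hgb _
      have hgy : (g : ℤ) ∣ (y w 0) ^ 2 := by
        rw [← hs1 w (hTT1 w hw), mul_pow]
        exact Dvd.dvd.mul_left hgb _
      have hgy' : (g : ℤ) ∣ (y w' 0) ^ 2 := by
        rw [← hs1 w' (hTT1 w' hw'), mul_pow]
        exact Dvd.dvd.mul_left hgb' _
      have hgκ : (g : ℤ) ∣ (t 0 : ℤ) * (κ w - κ w') := by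
        have h1 := hdiff w (hTT1 w hw) w' (hTT1 w' hw')
        have h2 : (t 0 : ℤ) * (κ w - κ w') = ((y w 0) ^ 2 - (y w' 0) ^ 2)
          - ((idx w 0 : ℕ) - (idx w' 0 : ℕ) : ℤ) * D := by linarith
        rw [h2]
        exact dvd_sub (dvd_sub hgy hgy') (Dvd.dvd.mul_left hgD _)
      have hne0 : (t 0 : ℤ) * (κ w - κ w') ≠ 0 := by
        apply mul_ne_zero (by positivity)
        exact sub_ne_zero.mpr hκne
      have hgle : (g : ℤ) ≤ |(t 0 : ℤ) * (κ w - κ w')| := by
        apply Int.le_of_dvd (abs_pos.mpr hne0)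
        exact (dvd_abs _ _).mpr hgκ
      -- bound the label difference
      have hidxdist : |((idx w 0 : ℕ) : ℤ) - (idx w' 0 : ℕ)| ≤ (W0 * (L + 1) : ℕ) := by
        have h1 := hidxk w (hT1W w (hTT1 w hw)) 0
        have h2 := hidxk w' (hT1W w' (hTT1 w' hw')) 0
        have h3 := (hrange w 0).1
        have h4 := (hrange w' 0).1
        rw [abs_le]
        constructor
        · omega
        · omega
      have hedist : |e (idx w 0) - e (idx w' 0)| ≤ C * |((idx w 0 : ℕ) : ℤ) - (idx w' 0 : ℕ)| := by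
        rcases Nat.le_total (idx w 0) (idx w' 0) with h | h
        · have h1 := mono_lip e C hestep (idx w 0) (idx w' 0 - idx w 0)
          have h2 : idx w 0 + (idx w' 0 - idx w 0) = idx w' 0 := by omega
          rw [h2, Nat.cast_sub h] at h1
          have h3 : ((idx w 0 : ℕ) : ℤ) - (idx w' 0 : ℕ) ≤ 0 := by
            have : ((idx w 0 : ℕ) : ℤ) ≤ (idx w' 0 : ℕ) := by exact_mod_cast h
            linarith
          rw [abs_of_nonpos (by linarith [h1.1]), abs_of_nonpos h3]
          linarith [h1.2]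
        · have h1 := mono_lip e C hestep (idx w' 0) (idx w 0 - idx w' 0)
          have h2 : idx w' 0 + (idx w 0 - idx w' 0) = idx w 0 := by omega
          rw [h2, Nat.cast_sub h] at h1
          have h3 : 0 ≤ ((idx w 0 : ℕ) : ℤ) - (idx w' 0 : ℕ) := by
            have : ((idx w' 0 : ℕ) : ℤ) ≤ (idx w 0 : ℕ) := by exact_mod_cast h
            linarith
          rw [abs_of_nonneg (by linarith [h1.1]), abs_of_nonneg h3]
          linarith [h1.2]
      have hκdist : |κ w - κ w'| ≤ 2 * (C * L * (W0 * (L + 1) : ℕ)) := by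
        have h1 : κ w - κ w' = (t 0 : ℤ) * (e (idx w 0) - e (idx w' 0))
          - p * (((idx w 0 : ℕ) : ℤ) - (idx w' 0 : ℕ)) := by
          simp only [hκ]; ring
        have ht0L : (t 0 : ℤ) ≤ L := by exact_mod_cast htL 0
        have hpz : (p : ℤ) ≤ C * L := by exact_mod_cast hpCL
        set Δ := |((idx w 0 : ℕ) : ℤ) - (idx w' 0 : ℕ)| with hΔ
        have hΔ0 : 0 ≤ Δ := abs_nonneg _
        have hCz : (0 : ℤ) ≤ C := Int.natCast_nonneg C
        have hLz : (0 : ℤ) ≤ L := Int.natCast_nonneg L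
        calc |κ w - κ w'| ≤ |(t 0 : ℤ) * (e (idx w 0) - e (idx w' 0))|
              + |(p : ℤ) * (((idx w 0 : ℕ) : ℤ) - (idx w' 0 : ℕ))| := by rw [h1]; exact abs_sub _ _
          _ = (t 0 : ℤ) * |e (idx w 0) - e (idx w' 0)| + p * Δ := by
              rw [abs_mul, abs_mul, abs_of_nonneg (Int.natCast_nonneg (t 0)), abs_of_nonneg (Int.natCast_nonneg p)]
          _ ≤ L * (C * Δ) + (C * L) * Δ := by
              apply add_le_add
              · exact mul_le_mul ht0L hedist (abs_nonneg _) hLz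
              · exact mul_le_mul_of_nonneg_right hpz hΔ0
          _ = 2 * (C * L * Δ) := by ring
          _ ≤ 2 * (C * L * (W0 * (L + 1) : ℕ)) := by
              apply mul_le_mul_of_nonneg_left _ (by norm_num)
              exact mul_le_mul_of_nonneg_left hidxdist (mul_nonneg hCz hLz)
      have hfinal : (g : ℤ) ≤ (K : ℤ) := by
        have ht0L : (t 0 : ℤ) ≤ L := by exact_mod_cast htL 0
        calc (g : ℤ) ≤ |(t 0 : ℤ) * (κ w - κ w')| := hgle
          _ = (t 0 : ℤ) * |κ w - κ w'| := by rw [abs_mul, abs_of_nonneg (Int.natCast_nonneg (t 0))]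
          _ ≤ L * (2 * (C * L * (W0 * (L + 1) : ℕ))) :=
              mul_le_mul ht0L hκdist (abs_nonneg _) (Int.natCast_nonneg L)
          _ = (K : ℤ) := by rw [hK]; push_cast; ring
      exact_mod_cast hfinal
    · intro w hw
      rw [hs1 w (hTT1 w hw)]
      exact hyle w (hTT1 w hw)

/-- The negation of the preceding statement: ∃ C:ℕ, C>0 ∧ ∀ k, ∃ x:ℕ→ℕ, ∃ d>0, x 0..x(k-1) are squares (in ℕ) and x i + d ≤ x(i+1) ≤ x i + d + C for all i with i+1<k -/
theorem result :
    ¬ (∃ C : ℕ, 0 < C ∧ ∀ k : ℕ, ContainsQuasiProgression {n : ℕ | IsSquare n} C k) := by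
  rintro ⟨C, _, hC⟩
  exact core C hC

end Pool.Agent.S10704
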