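import Pool.Statements.S10723

set_option autoImplicit false
open Pool Pool.MP_6c5308_nt

namespace Pool.Agent.S10723

/-- For `v < t` the Fermat number `2 ^ 2 ^ v + 1` divides `2 ^ 2 ^ t - 1`, written additively. -/
theorem fermat_dvd (t v : ℕ) (h : v < t) : (2 ^ 2 ^ v + 1 : ℤ) ∣ 2 ^ 2 ^ t - 1 := by
  have h1 : (2 ^ 2 ^ v + 1 : ℤ) ∣ 2 ^ 2 ^ (v + 1) - 1 := by
    refine ⟨2 ^ 2 ^ v - 1, ?_⟩
    rw [pow_succ 2 v, pow_mul]
    ring
  have h2 : (2 : ℕ) ^ (v + 1) ∣ 2 ^ t := pow_dvd_pow 2 h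
  obtain ⟨c, hc⟩ := h2
  have h3 : (2 ^ 2 ^ (v + 1) - 1 : ℤ) ∣ 2 ^ 2 ^ t - 1 := by
    rw [hc, pow_mul]
    simpa using sub_dvd_pow_sub_pow ((2 : ℤ) ^ 2 ^ (v + 1)) 1 c
  exact h1.trans h3

/-- The Fermat number `2 ^ 2 ^ v + 1` divides `2 ^ (2 ^ v * u) + 1` for odd `u`. -/
theorem fermat_dvd_odd (v u : ℕ) (h : Odd u) : (2 ^ 2 ^ v + 1 : ℤ) ∣ 2 ^ (2 ^ v * u) + 1 := by
  rw [pow_mul]
  simpa using h.add_dvd_pow_add_pow ((2 : ℤ) ^ 2 ^ v) 1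

/-- `2 ^ j = 2 ^ k + 2 ^ w + 2` has no solutions with `w ≥ 1`, `j ≥ 4`. -/
theorem no_sol (j k w : ℕ) (hj : 4 ≤ j) (hw : 1 ≤ w) : 2 ^ j ≠ 2 ^ k + 2 ^ w + 2 := by
  intro h
  obtain ⟨a, rfl⟩ : ∃ a, j = a + 4 := ⟨j - 4, by omega⟩
  have e1 : (2 : ℕ) ^ (a + 4) = 16 * 2 ^ a := by ring
  rw [e1] at h
  rcases k with _ | _ | _ | k
  · rcases w with _ | w
    · omega
    · rw [pow_succ 2 w] at h
      omega
  · rcases w with _ | _ | _ | w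
    · omega
    · norm_num at h
      omega
    · norm_num at h
      omega
    · have e2 : (2 : ℕ) ^ (w + 1 + 1 + 1) = 8 * 2 ^ w := by ring
      rw [e2] at h
      omega
  · rcases w with _ | _ | w
    · omega
    · norm_num at h
      omega
    · have e2 : (2 : ℕ) ^ (w + 1 + 1) = 4 * 2 ^ w := by ring
      rw [e2] at h
      omega
  · have e3 : (2 : ℕ) ^ (k + 1 + 1 + 1) = 8 * 2 ^ k := by ring
    rw [e3] at h
    rcases w with _ | _ | w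
    · omega
    · norm_num at h
      omega
    · have e2 : (2 : ℕ) ^ (w + 1 + 1) = 4 * 2 ^ w := by ring
      rw [e2] at h
      omega

/-- For `t ≥ 3` the number `2 ^ (2 ^ t - 1) - 1` is not of the form `2 ^ k + p`. -/
theorem not_rep (t k p : ℕ) (ht : 3 ≤ t) (hp : p.Prime) :
    2 ^ (2 ^ t - 1) - 1 ≠ 2 ^ k + p := by
  intro h
  have h8 : 8 ≤ 2 ^ t := by
    calc 8 = 2 ^ 3 := by norm_num
      _ ≤ 2 ^ t := Nat.pow_le_pow_right (by norm_num) ht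
  set j := 2 ^ t - 1 with hj
  have hj1 : j + 1 = 2 ^ t := by omega
  have hpos : 1 ≤ 2 ^ j := Nat.one_le_two_pow
  have hkj : k < j := by
    have : 2 ^ k < 2 ^ j := by omega
    exact (Nat.pow_lt_pow_iff_right (by norm_num)).1 this
  obtain ⟨v, u, hu, hd⟩ := Nat.exists_eq_two_pow_mul_odd (n := j - k) (by omega)
  have hu1 : 1 ≤ u := hu.pos
  have hvt : v < t := by
    have h1 : 2 ^ v ≤ j - k := by
      rw [hd]
      exact Nat.le_mul_of_pos_right _ hu1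
    have : 2 ^ v < 2 ^ t := by omega
    exact (Nat.pow_lt_pow_iff_right (by norm_num)).1 this
  have hjk : j = k + 2 ^ v * u := by omega
  have hZ : (p : ℤ) = 2 ^ j - 1 - 2 ^ k := by
    have h1 : 2 ^ j = 2 ^ k + p + 1 := by omega
    have h2 : ((2 ^ j : ℕ) : ℤ) = ((2 ^ k + p + 1 : ℕ) : ℤ) := by rw [h1]
    push_cast at h2
    linarith
  have hdvd : (2 ^ 2 ^ v + 1 : ℤ) ∣ (p : ℤ) := by
    have h1 := fermat_dvd t v hvt
    have h2 : (2 ^ 2 ^ v + 1 : ℤ) ∣ 2 ^ k * (2 ^ (2 ^ v * u) + 1) :=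
      (fermat_dvd_odd v u hu).mul_left _
    have h3 : (p : ℤ) = (2 ^ 2 ^ t - 1) - 2 ^ k * (2 ^ (2 ^ v * u) + 1) := by
      rw [hZ, ← hj1, hjk]
      ring
    rw [h3]
    exact dvd_sub h1 h2
  have hdvdN : 2 ^ 2 ^ v + 1 ∣ p := by
    exact_mod_cast hdvd
  have hne1 : 2 ^ 2 ^ v + 1 ≠ 1 := by
    have : 0 < 2 ^ 2 ^ v := by positivity
    omega
  have heq : 2 ^ 2 ^ v + 1 = p := (Nat.dvd_prime hp).1 hdvdN |>.resolve_left hne1
  have hfin : 2 ^ j = 2 ^ k + 2 ^ 2 ^ v + 2 := by omega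
  exact no_sol j k (2 ^ v) (by omega) Nat.one_le_two_pow hfin

/-- There are infinitely many odd natural numbers n that are never 2^k plus a prime, and for which no finite set of primes has the property that every 2^k is congruent to n modulo one of them. -/
theorem result :
    Set.Infinite {n : ℕ | Odd n ∧ (∀ k p : ℕ, p.Prime → n ≠ 2 ^ k + p) ∧
      ¬ ∃ P : Finset ℕ, (∀ p ∈ P, p.Prime) ∧
        ∀ k : ℕ, ∃ p ∈ P, (p : ℤ) ∣ (n : ℤ) - 2 ^ k} := by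
  have hinj : Function.Injective (fun s : ℕ => 2 ^ (2 ^ (s + 3) - 1) - 1) := by
    intro a b hab
    simp only at hab
    have ha : 1 ≤ 2 ^ (2 ^ (a + 3) - 1) := Nat.one_le_two_pow
    have hb : 1 ≤ 2 ^ (2 ^ (b + 3) - 1) := Nat.one_le_two_pow
    have h1 : 2 ^ (2 ^ (a + 3) - 1) = 2 ^ (2 ^ (b + 3) - 1) := by omega
    have h2 : 2 ^ (a + 3) - 1 = 2 ^ (b + 3) - 1 := Nat.pow_right_injective (le_refl 2) h1
    have ha' : 1 ≤ 2 ^ (a + 3) := Nat.one_le_two_pow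
    have hb' : 1 ≤ 2 ^ (b + 3) := Nat.one_le_two_pow
    have h3 : 2 ^ (a + 3) = 2 ^ (b + 3) := by omega
    have h4 : a + 3 = b + 3 := Nat.pow_right_injective (le_refl 2) h3
    omega
  refine Set.infinite_of_injective_forall_mem hinj ?_
  intro s
  refine ⟨?_, ?_, ?_⟩
  · have h8 : 1 < 2 ^ (s + 3) := Nat.one_lt_two_pow (by omega)
    obtain ⟨a, ha⟩ : ∃ a, 2 ^ (s + 3) - 1 = a + 1 := ⟨2 ^ (s + 3) - 2, by omega⟩
    rw [ha]
    refine ⟨2 ^ a - 1, ?_⟩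
    have : 1 ≤ 2 ^ a := Nat.one_le_two_pow
    rw [pow_succ]
    omega
  · intro k p hp
    exact not_rep (s + 3) k p (by omega) hp
  · rintro ⟨P, hP, hcov⟩
    obtain ⟨p, hpP, hdvd⟩ := hcov (2 ^ (s + 3) - 1)
    have hp := hP p hpP
    have h1 : ((2 ^ (2 ^ (s + 3) - 1) - 1 : ℕ) : ℤ) - 2 ^ (2 ^ (s + 3) - 1) = -1 := by
      have : 1 ≤ 2 ^ (2 ^ (s + 3) - 1) := Nat.one_le_two_pow
      push_cast [Nat.cast_sub this]
      ring
    rw [h1] at hdvd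
    have h2 : (p : ℤ) ∣ 1 := (dvd_neg.1 hdvd)
    have h3 : p ∣ 1 := by exact_mod_cast h2
    exact hp.one_lt.ne' (Nat.dvd_one.1 h3)

end Pool.Agent.S10723
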