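import Pool.Statements.S10827
import Pool.Agent.Helper35.Final

set_option autoImplicit false
open Pool Pool.MP_7b597b_nt

namespace Pool.Agent.S10827

/-- There is a real S-number ξ, meaning 0 < limsup w_n(ξ)/n < ∞ with w_n Mahler's exponent, such that limsup over n of (w_n(ξ)+1)/(n+1) is strictly less than the supremum over n ≥ 1 of (w_n(ξ)+1)/(n+1). -/
theorem result :
    ∃ ξ : ℝ, ∃ f : ℕ → ℝ,
      (∀ n : ℕ, 1 ≤ n →
        IsLUB {w : ℝ | {P : Polynomial ℤ | P ≠ 0 ∧ P.natDegree ≤ n ∧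
            0 < |Polynomial.aeval ξ P| ∧
            |Polynomial.aeval ξ P| ≤
              ((P.support.sup (fun i => (P.coeff i).natAbs) : ℕ) : ℝ) ^ (-w)}.Infinite}
          (f n)) ∧
      (∃ C : ℝ, ∀ n : ℕ, 1 ≤ n → f n / (n : ℝ) ≤ C) ∧
      (∃ ε : ℝ, 0 < ε ∧ ∃ᶠ n : ℕ in Filter.atTop, ε ≤ f n / (n : ℝ)) ∧
      (∃ m : ℕ, 1 ≤ m ∧ ∃ c : ℝ, c < (f m + 1) / ((m : ℝ) + 1) ∧
        ∀ᶠ n : ℕ in Filter.atTop, (f n + 1) / ((n : ℝ) + 1) ≤ c) := by
  obtain ⟨ξ, N, n, f, _, _, _, _, _, _, _, _, _, hlub, hge, hle, h89⟩ :=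
    Pool.Agent.Helper35.main_f
  refine ⟨ξ, f, ?_, ⟨480, ?_⟩, ⟨1, one_pos, ?_⟩, ⟨1, le_rfl, 42, ?_, ?_⟩⟩
  · intro m hm
    exact hlub m hm
  · intro m hm
    have h1 := hle m hm
    have hmr : (1 : ℝ) ≤ m := by exact_mod_cast hm
    rw [div_le_iff₀ (by linarith)]
    refine h1.trans ?_
    push_cast
    apply max_le
    · linarith
    · linarith
  · apply Filter.Eventually.frequently
    filter_upwards [Filter.eventually_ge_atTop 1] with m hm
    have h1 := hge m hm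
    have hmr : (1 : ℝ) ≤ m := by exact_mod_cast hm
    rw [le_div_iff₀ (by linarith), one_mul]
    exact h1
  · push_cast
    linarith
  · filter_upwards [Filter.eventually_ge_atTop 9] with m hm
    have h1 := hle m (by omega)
    have hmr : (9 : ℝ) ≤ m := by exact_mod_cast hm
    have h2 : max (40 * (m + 1)) 400 = 40 * (m + 1) := max_eq_left (by omega)
    rw [h2] at h1
    push_cast at h1
    rw [div_le_iff₀ (by linarith)]
    linarith

end Pool.Agent.S10827
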