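import Pool.Statements.S10843

set_option autoImplicit false
open Filter Topology
open Pool Pool.MP_7e9031_nt

namespace Pool.Agent.S10843

/-- The arithmetic progression of `m` terms with difference `m + 1` starting at `X * m ^ 2`. -/
def Run (m X x : ℕ) : Prop := ∃ j < m, x = X * (m * m) + j * (m + 1)

/-- The same, without the term in the residue class `1` modulo `m`. -/
def Run' (m X x : ℕ) : Prop := ∃ j < m, j ≠ 1 ∧ x = X * (m * m) + j * (m + 1)

/-- The elements required at one stage. -/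
def Req (m b x : ℕ) : Prop :=
  (m ∣ x ∧ 100 * (m * m) ≤ x ∧ x ≤ 650 * (m * m) ∧ x ≠ 500 * (m * m)) ∨
  (m ∣ x ∧ 900 * (m * m) ≤ x ∧ x < 102400 * (m * m)) ∨
  Run m 100 x ∨ Run' m 200 x ∨ Run' m 250 x ∨
  x = 300 * (m * m) + 1 ∨ x + b = 800 * (m * m) + 1 ∨
  Run m 810 x ∨ Run m 1200 x ∨ Run m 1600 x ∨ Run m 20000 x

lemma run_lt (m j : ℕ) (hj : j < m) : j * (m + 1) < m * m := by
  have h1 : j + 1 ≤ m := hj
  have h2 : (j + 1) * (m + 1) ≤ m * (m + 1) := Nat.mul_le_mul_right _ h1
  have h3 : (j + 1) * (m + 1) = j * (m + 1) + (m + 1) := by ring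
  have h4 : m * (m + 1) = m * m + m := by ring
  omega

lemma Run'.run {m X x : ℕ} (h : Run' m X x) : Run m X x := by
  obtain ⟨j, h1, -, h2⟩ := h
  exact ⟨j, h1, h2⟩

lemma Run.bounds {m X x : ℕ} (h : Run m X x) : X * (m * m) ≤ x ∧ x < (X + 1) * (m * m) := by
  obtain ⟨j, h1, h2⟩ := h
  have h3 := run_lt m j h1
  have h4 : (X + 1) * (m * m) = X * (m * m) + m * m := by ring
  omega

lemma card_ap (T : Finset ℕ) (X d l : ℕ) (hd : 0 < d) (hl : 2 * l < 640 * d)
    (hT : ∀ x ∈ T, l * l ≤ x ∧ x < (l + 1) * (l + 1) ∧ ∃ j, x = X + j * d) :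
    T.card ≤ 641 := by
  have h1 : T.card ≤ (Finset.Icc ((l * l - X) / d) ((l * l - X) / d + 640)).card := by
    apply Finset.card_le_card_of_injOn (fun x => (x - X) / d)
    · intro x hx
      obtain ⟨h1, h2, j, h3⟩ := hT x hx
      have e1 : (l + 1) * (l + 1) = l * l + 2 * l + 1 := by ring
      rw [Finset.mem_coe, Finset.mem_Icc]
      constructor
      · apply Nat.div_le_div_right
        omega
      · have h4 : x - X ≤ (l * l - X) + 640 * d := by omega
        calc (x - X) / d ≤ ((l * l - X) + 640 * d) / d := Nat.div_le_div_right h4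
          _ = (l * l - X) / d + 640 := Nat.add_mul_div_right _ _ hd
    · intro x hx y hy hxy
      obtain ⟨-, -, j, h3⟩ := hT x hx
      obtain ⟨-, -, i, h4⟩ := hT y hy
      simp only at hxy
      have h5 : (x - X) / d = j := by
        rw [h3, Nat.add_sub_cancel_left, Nat.mul_div_cancel _ hd]
      have h6 : (y - X) / d = i := by
        rw [h4, Nat.add_sub_cancel_left, Nat.mul_div_cancel _ hd]
      rw [h5, h6] at hxy
      rw [h3, h4, hxy]
  rw [Nat.card_Icc] at h1
  omega

/-- The block of index `l`. -/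
def J (l : ℕ) : Finset ℕ := Finset.Ico (l * l) ((l + 1) * (l + 1))

lemma mem_J (l x : ℕ) : x ∈ J l ↔ l * l ≤ x ∧ x < (l + 1) * (l + 1) := by
  simp [J]

/-- The terms of a run. -/
def runF (m X : ℕ) : Finset ℕ := (Finset.range m).image (fun j => X * (m * m) + j * (m + 1))

lemma mem_runF (m X x : ℕ) : x ∈ runF m X ↔ Run m X x := by
  simp only [runF, Finset.mem_image, Finset.mem_range, Run]
  constructor
  · rintro ⟨j, h1, h2⟩
    exact ⟨j, h1, h2.symm⟩
  · rintro ⟨j, h1, h2⟩
    exact ⟨j, h1, h2.symm⟩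

lemma card_runF (m X : ℕ) : (runF m X).card ≤ m := by
  calc (runF m X).card ≤ (Finset.range m).card := Finset.card_image_le
    _ = m := Finset.card_range m

open Classical in
lemma card_req (m b l : ℕ) (hm : 0 < m) (hl : l < 320 * m) :
    ((J l).filter (Req m b)).card ≤ 6000 := by
  set P : Finset ℕ := {100, 200, 250, 810, 1200, 1600, 20000} with hP
  have hsub : (J l).filter (Req m b) ⊆
      ((J l).filter (fun x => m ∣ x)) ∪ (P.biUnion fun X => (J l).filter (Run m X)) ∪
        {300 * (m * m) + 1, 800 * (m * m) + 1 - b} := by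
    intro x hx
    rw [Finset.mem_filter] at hx
    obtain ⟨hxJ, hx⟩ := hx
    simp only [Finset.mem_union, Finset.mem_filter, Finset.mem_biUnion, Finset.mem_insert,
      Finset.mem_singleton]
    have hrun : ∀ X ∈ P, Run m X x → ∃ a ∈ P, x ∈ J l ∧ Run m a x :=
      fun X hX h => ⟨X, hX, hxJ, h⟩
    rcases hx with h | h | h | h | h | h | h | h | h | h | h
    · exact Or.inl (Or.inl ⟨hxJ, h.1⟩)
    · exact Or.inl (Or.inl ⟨hxJ, h.1⟩)
    · exact Or.inl (Or.inr (hrun 100 (by simp [hP]) h))
    · exact Or.inl (Or.inr (hrun 200 (by simp [hP]) h.run))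
    · exact Or.inl (Or.inr (hrun 250 (by simp [hP]) h.run))
    · exact Or.inr (Or.inl h)
    · exact Or.inr (Or.inr (by omega))
    · exact Or.inl (Or.inr (hrun 810 (by simp [hP]) h))
    · exact Or.inl (Or.inr (hrun 1200 (by simp [hP]) h))
    · exact Or.inl (Or.inr (hrun 1600 (by simp [hP]) h))
    · exact Or.inl (Or.inr (hrun 20000 (by simp [hP]) h))
  have h1 : ((J l).filter (fun x => m ∣ x)).card ≤ 641 := by
    apply card_ap _ 0 m l hm (by omega)
    intro x hx
    rw [Finset.mem_filter, mem_J] at hx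
    obtain ⟨⟨h1, h2⟩, k, h3⟩ := hx
    exact ⟨h1, h2, k, by rw [h3]; ring⟩
  have h2 : (P.biUnion fun X => (J l).filter (Run m X)).card ≤ P.card * 641 := by
    apply Finset.card_biUnion_le_card_mul
    intro X _
    apply card_ap _ (X * (m * m)) (m + 1) l (by omega) (by omega)
    intro x hx
    rw [Finset.mem_filter, mem_J] at hx
    obtain ⟨⟨h1, h2⟩, j, -, h3⟩ := hx
    exact ⟨h1, h2, j, h3⟩
  have hPc : P.card ≤ 7 := by
    rw [hP]
    decide
  have h3 : ({300 * (m * m) + 1, 800 * (m * m) + 1 - b} : Finset ℕ).card ≤ 2 :=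
    Finset.card_le_two
  calc _ ≤ _ := Finset.card_le_card hsub
    _ ≤ _ := Finset.card_union_le _ _
    _ ≤ (641 + 7 * 641) + 2 := by
      have h4 := Finset.card_union_le ((J l).filter (fun x => m ∣ x))
        (P.biUnion fun X => (J l).filter (Run m X))
      omega
    _ ≤ 6000 := by norm_num

lemma card_even (l : ℕ) : l ≤ ((J l).filter (fun x => Even x)).card := by
  have h1 : (Finset.range l).card ≤ ((J l).filter (fun x => Even x)).card := by
    apply Finset.card_le_card_of_injOn (fun i => l * l + (l * l) % 2 + 2 * i)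
    · intro i hi
      rw [Finset.mem_coe, Finset.mem_range] at hi
      rw [Finset.mem_coe, Finset.mem_filter, mem_J]
      have e1 : (l + 1) * (l + 1) = l * l + 2 * l + 1 := by ring
      simp only
      refine ⟨⟨by omega, by omega⟩, ?_⟩
      rw [Nat.even_iff]
      omega
    · intro i _ j _ hij
      simp only at hij
      omega
  simpa using h1

structure Good (m : ℕ) (S : Finset ℕ) : Prop where
  even : Even m
  big : 2000 ≤ m
  pos : ∀ x ∈ S, 1 ≤ x
  lt : ∀ x ∈ S, x < 100 * (m * m)
  mult : ∀ x, m ∣ x → 5 * (m * m) ≤ x → x < 100 * (m * m) → x ∈ S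
  odd : (S.filter (fun x => ¬ Even x)).card ≤ m

/-- Odd required elements below the special number. -/
lemma odd_small (m b x : ℕ) (hm : Even m) (hm2 : 2000 ≤ m) (hx : Req m b x) (hodd : ¬ Even x)
    (hle : x ≤ 800 * (m * m) + 1) :
    x ∈ runF m 100 ∪ runF m 200 ∪ runF m 250 ∪ {300 * (m * m) + 1, 800 * (m * m) + 1 - b} := by
  have hmm : 2000 ≤ m * m := by nlinarith
  simp only [Finset.mem_union, mem_runF, Finset.mem_insert, Finset.mem_singleton]
  rcases hx with h | h | h | h | h | h | h | h | h | h | h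
  · exact absurd (hm.trans_dvd h.1) hodd
  · exact absurd (hm.trans_dvd h.1) hodd
  · exact Or.inl (Or.inl (Or.inl h))
  · exact Or.inl (Or.inl (Or.inr h.run))
  · exact Or.inl (Or.inr h.run)
  · exact Or.inr (Or.inl h)
  · exact Or.inr (Or.inr (by omega))
  all_goals
    have := h.bounds
    omega

lemma odd_all (m b x : ℕ) (hm : Even m) (hx : Req m b x) (hodd : ¬ Even x) :
    x ∈ runF m 100 ∪ runF m 200 ∪ runF m 250 ∪ runF m 810 ∪ runF m 1200 ∪ runF m 1600 ∪
      runF m 20000 ∪ {300 * (m * m) + 1, 800 * (m * m) + 1 - b} := by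
  simp only [Finset.mem_union, mem_runF, Finset.mem_insert, Finset.mem_singleton]
  rcases hx with h | h | h | h | h | h | h | h | h | h | h
  · exact absurd (hm.trans_dvd h.1) hodd
  · exact absurd (hm.trans_dvd h.1) hodd
  · simp only [h, true_or]
  · simp only [h.run, true_or, or_true]
  · simp only [h.run, true_or, or_true]
  · exact Or.inr (Or.inl h)
  · exact Or.inr (Or.inr (by omega))
  · simp only [h, true_or, or_true]
  · simp only [h, true_or, or_true]
  · simp only [h, true_or, or_true]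
  · simp only [h, true_or, or_true]

/-- The allowed fillers. -/
def Fil (m b : ℕ) (S : Finset ℕ) (x : ℕ) : Prop :=
  Even x ∧ ∀ y, (y ∈ S ∨ Req m b y) → x + y ≠ 800 * (m * m) + 1

open Classical in
lemma exists_block (m b l : ℕ) (S : Finset ℕ) (hS : Good m S) (h1 : 10 * m ≤ l)
    (h2 : l < 320 * m) :
    ∃ G : Finset ℕ, (J l).filter (Req m b) ⊆ G ∧
      G ⊆ (J l).filter (fun x => Req m b x ∨ Fil m b S x) ∧ G.card = 6000 := by
  have hm2 := hS.big
  apply Finset.exists_subsuperset_card_eq
  · intro x hx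
    rw [Finset.mem_filter] at hx ⊢
    exact ⟨hx.1, Or.inl hx.2⟩
  · exact card_req m b l (by omega) h2
  · -- count the allowed elements
    set O : Finset ℕ := S.filter (fun x => ¬ Even x) ∪
      (runF m 100 ∪ runF m 200 ∪ runF m 250 ∪ {300 * (m * m) + 1, 800 * (m * m) + 1 - b}) with hO
    have hOc : O.card ≤ 4 * m + 2 := by
      have a1 := hS.odd
      have a2 := card_runF m 100
      have a3 := card_runF m 200
      have a4 := card_runF m 250
      have a5 : ({300 * (m * m) + 1, 800 * (m * m) + 1 - b} : Finset ℕ).card ≤ 2 :=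
        Finset.card_le_two
      have b1 := Finset.card_union_le (S.filter (fun x => ¬ Even x))
        (runF m 100 ∪ runF m 200 ∪ runF m 250 ∪ {300 * (m * m) + 1, 800 * (m * m) + 1 - b})
      have b2 := Finset.card_union_le (runF m 100 ∪ runF m 200 ∪ runF m 250)
        {300 * (m * m) + 1, 800 * (m * m) + 1 - b}
      have b3 := Finset.card_union_le (runF m 100 ∪ runF m 200) (runF m 250)
      have b4 := Finset.card_union_le (runF m 100) (runF m 200)
      rw [← hO] at b1
      omega
    set Bd : Finset ℕ := (J l).filter (fun x => Even x ∧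
      ∃ y, (y ∈ S ∨ Req m b y) ∧ x + y = 800 * (m * m) + 1) with hBd
    have hBc : Bd.card ≤ O.card := by
      apply Finset.card_le_card_of_injOn (fun x => 800 * (m * m) + 1 - x)
      · intro x hx
        rw [Finset.mem_coe, hBd, Finset.mem_filter] at hx
        obtain ⟨-, hxe, y, hy, hxy⟩ := hx
        have e1 : 800 * (m * m) + 1 - x = y := by omega
        simp only [Finset.mem_coe, e1]
        have hyo : ¬ Even y := by
          rw [Nat.even_iff] at hxe ⊢
          omega
        rcases hy with hy | hy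
        · rw [hO, Finset.mem_union, Finset.mem_filter]
          exact Or.inl ⟨hy, hyo⟩
        · rw [hO, Finset.mem_union]
          exact Or.inr (odd_small m b y hS.even hm2 hy hyo (by omega))
      · intro x hx y hy hxy
        rw [Finset.mem_coe, hBd, Finset.mem_filter] at hx hy
        obtain ⟨-, -, x', -, hx'⟩ := hx
        obtain ⟨-, -, y', -, hy'⟩ := hy
        simp only at hxy
        omega
    have hsub : (J l).filter (fun x => Even x) ⊆
        (J l).filter (fun x => Req m b x ∨ Fil m b S x) ∪ Bd := by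
      intro x hx
      rw [Finset.mem_filter] at hx
      rw [Finset.mem_union, Finset.mem_filter, hBd, Finset.mem_filter]
      by_cases hy : ∃ y, (y ∈ S ∨ Req m b y) ∧ x + y = 800 * (m * m) + 1
      · exact Or.inr ⟨hx.1, hx.2, hy⟩
      · left
        refine ⟨hx.1, Or.inr ⟨hx.2, ?_⟩⟩
        intro y hy1 hy2
        exact hy ⟨y, hy1, hy2⟩
    have c1 := card_even l
    have c2 := Finset.card_le_card hsub
    have c3 := Finset.card_union_le ((J l).filter (fun x => Req m b x ∨ Fil m b S x)) Bd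
    omega

/-- Key congruence fact: the run element in the class of `n`. -/
lemma run_cover (m X n : ℕ) (hm : 0 < m) (hn : (X + 1) * (m * m) ≤ n) :
    ∃ p q, p + q = n ∧ p = X * (m * m) + (n % m) * (m + 1) ∧ m ∣ q := by
  have hj : n % m < m := Nat.mod_lt _ hm
  have h1 := run_lt m (n % m) hj
  have h4 : (X + 1) * (m * m) = X * (m * m) + m * m := by ring
  refine ⟨X * (m * m) + (n % m) * (m + 1), n - (X * (m * m) + (n % m) * (m + 1)),
    by omega, rfl, ?_⟩
  have h5 : n = m * (n / m) + n % m := (Nat.div_add_mod n m).symm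
  have h6 : X * (m * m) + (n % m) * (m + 1) = m * (X * m + n % m) + n % m := by ring
  have h7 : n - (X * (m * m) + (n % m) * (m + 1)) = m * (n / m) - m * (X * m + n % m) := by
    omega
  rw [h7, ← Nat.mul_sub]
  exact Dvd.intro _ rfl

/-- Uniqueness at the special number, arithmetic core. -/
lemma core (m x y : ℕ) (hm : 2000 ≤ m)
    (hx : (m ∣ x ∧ x ≤ 650 * (m * m) ∧ x ≠ 500 * (m * m)) ∨
      (x < 251 * (m * m) ∧ (x % m ≠ 1 ∨ x < 101 * (m * m))) ∨ x = 300 * (m * m) + 1)
    (hy : (m ∣ y ∧ y ≤ 650 * (m * m) ∧ y ≠ 500 * (m * m)) ∨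
      (y < 251 * (m * m) ∧ (y % m ≠ 1 ∨ y < 101 * (m * m))) ∨ y = 300 * (m * m) + 1) :
    x + y ≠ 800 * (m * m) + 1 := by
  intro hxy
  have hmm : 2000 ≤ m * m := by nlinarith
  have hmod : (x + y) % m = 1 := by
    rw [hxy, show 800 * (m * m) + 1 = 1 + m * (800 * m) by ring, Nat.add_mul_mod_self_left]
    exact Nat.mod_eq_of_lt (by omega)
  have key : ∀ a b : ℕ, a + b = 800 * (m * m) + 1 →
      (m ∣ a ∧ a ≤ 650 * (m * m) ∧ a ≠ 500 * (m * m)) →
      ((m ∣ b ∧ b ≤ 650 * (m * m) ∧ b ≠ 500 * (m * m)) ∨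
      (b < 251 * (m * m) ∧ (b % m ≠ 1 ∨ b < 101 * (m * m))) ∨ b = 300 * (m * m) + 1) → False := by
    intro a b hab ⟨⟨c, hc⟩, ha2, ha3⟩ hb
    have hmodb : b % m = 1 := by
      have h1 : (a + b) % m = 1 := by
        rw [hab, show 800 * (m * m) + 1 = 1 + m * (800 * m) by ring, Nat.add_mul_mod_self_left]
        exact Nat.mod_eq_of_lt (by omega)
      rw [hc, Nat.mul_add_mod] at h1
      exact h1
    rcases hb with ⟨hb1, -, -⟩ | ⟨hb1, hb2⟩ | hb
    · rw [Nat.mod_eq_zero_of_dvd hb1] at hmodb
      omega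
    · rcases hb2 with hb2 | hb2
      · exact hb2 hmodb
      · omega
    · omega
  rcases hx with hx | hx | hx
  · exact key x y hxy hx hy
  · rcases hy with hy | hy | hy
    · exact key y x (by omega) hy (Or.inr (Or.inl hx))
    · omega
    · omega
  · rcases hy with hy | hy | hy
    · exact key y x (by omega) hy (Or.inr (Or.inr hx))
    · omega
    · omega

/-- Classification of required elements below the special number. -/
lemma classify (m b x : ℕ) (hm : 2000 ≤ m) (hx : Req m b x)
    (hle : x ≤ 800 * (m * m) + 1) :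
    (x + b = 800 * (m * m) + 1) ∨
    ((m ∣ x ∧ x ≤ 650 * (m * m) ∧ x ≠ 500 * (m * m)) ∨
      (x < 251 * (m * m) ∧ (x % m ≠ 1 ∨ x < 101 * (m * m))) ∨ x = 300 * (m * m) + 1) := by
  have hmm : 2000 ≤ m * m := by nlinarith
  have hrun' : ∀ X, Run' m X x → x % m ≠ 1 := by
    rintro X ⟨j, hj1, hj2, hj3⟩
    rw [hj3, show X * (m * m) + j * (m + 1) = j + m * (X * m + j) by ring,
      Nat.add_mul_mod_self_left, Nat.mod_eq_of_lt hj1]
    exact hj2
  rcases hx with h | h | h | h | h | h | h | h | h | h | h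
  · exact Or.inr (Or.inl ⟨h.1, h.2.2.1, h.2.2.2⟩)
  · omega
  · have := h.bounds
    exact Or.inr (Or.inr (Or.inl ⟨by omega, Or.inr (by omega)⟩))
  · have := h.run.bounds
    exact Or.inr (Or.inr (Or.inl ⟨by omega, Or.inl (hrun' 200 h)⟩))
  · have := h.run.bounds
    exact Or.inr (Or.inr (Or.inl ⟨by omega, Or.inl (hrun' 250 h)⟩))
  · exact Or.inr (Or.inr (Or.inr h))
  · exact Or.inl h
  all_goals
    have := h.bounds
    omega

lemma req_bounds (m b x : ℕ) (hm : 2000 ≤ m) (hb1 : 1 ≤ b) (hb : b < 100 * (m * m))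
    (hx : Req m b x) : 100 * (m * m) ≤ x ∧ x < 102400 * (m * m) := by
  have hmm : 2000 ≤ m * m := by nlinarith
  rcases hx with h | h | h | h | h | h | h | h | h | h | h
  · omega
  · omega
  · have := h.bounds
    omega
  · have := h.run.bounds
    omega
  · have := h.run.bounds
    omega
  · omega
  · omega
  all_goals
    have := h.bounds
    omega

open Classical in
/-- One stage of the construction. -/
lemma step (m : ℕ) (S : Finset ℕ) (hS : Good m S) (b : ℕ) (hb : b ∈ S) :
    ∃ S' : Finset ℕ, Good (32 * m) S' ∧ (∀ x ∈ S, x ∈ S') ∧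
      (∀ x ∈ S', x < 100 * (m * m) → x ∈ S) ∧
      (∀ l, 10 * m ≤ l → l < 320 * m → (S' ∩ J l).card = 6000) ∧
      (∀ n, 110 * (m * m) ≤ n → n ≤ 112640 * (m * m) → ∃ x ∈ S', ∃ y ∈ S', x + y = n) ∧
      (∀ x ∈ S', ∀ y ∈ S', x + y = 800 * (m * m) + 1 → x = b ∨ y = b) := by
  have hm2 := hS.big
  have hmm : 2000 ≤ m * m := by nlinarith
  have hb1 := hS.pos b hb
  have hb2 := hS.lt b hb
  choose! G hG1 hG2 hG3 using fun l (h : 10 * m ≤ l ∧ l < 320 * m) =>
    exists_block m b l S hS h.1 h.2
  set S' : Finset ℕ := S ∪ (Finset.Ico (10 * m) (320 * m)).biUnion G with hS'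
  have hmem : ∀ x, x ∈ S' ↔ x ∈ S ∨ ∃ l, (10 * m ≤ l ∧ l < 320 * m) ∧ x ∈ G l := by
    intro x
    rw [hS', Finset.mem_union, Finset.mem_biUnion]
    simp only [Finset.mem_Ico]
  have hGJ : ∀ l, (10 * m ≤ l ∧ l < 320 * m) → ∀ x ∈ G l, x ∈ J l := by
    intro l hl x hx
    exact (Finset.mem_filter.mp (hG2 l hl hx)).1
  have hGR : ∀ l, (10 * m ≤ l ∧ l < 320 * m) → ∀ x ∈ G l, Req m b x ∨ Fil m b S x := by
    intro l hl x hx
    exact (Finset.mem_filter.mp (hG2 l hl hx)).2
  have hGlo : ∀ l, (10 * m ≤ l ∧ l < 320 * m) → ∀ x ∈ G l,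
      100 * (m * m) ≤ x ∧ x < 102400 * (m * m) := by
    intro l hl x hx
    have h1 := (mem_J l x).mp (hGJ l hl x hx)
    have h2 : (10 * m) * (10 * m) ≤ l * l := Nat.mul_le_mul hl.1 hl.1
    have h3 : (l + 1) * (l + 1) ≤ (320 * m) * (320 * m) := Nat.mul_le_mul hl.2 hl.2
    have h4 : (10 * m) * (10 * m) = 100 * (m * m) := by ring
    have h5 : (320 * m) * (320 * m) = 102400 * (m * m) := by ring
    omega
  -- required elements are present
  have hreq : ∀ x, Req m b x → x ∈ S' := by
    intro x hx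
    have hxb := req_bounds m b x hm2 hb1 hb2 hx
    rw [hmem]
    right
    have h4 : (10 * m) * (10 * m) = 100 * (m * m) := by ring
    have h5 : (320 * m) * (320 * m) = 102400 * (m * m) := by ring
    have hl : 10 * m ≤ Nat.sqrt x ∧ Nat.sqrt x < 320 * m := by
      constructor
      · rw [Nat.le_sqrt, h4]
        exact hxb.1
      · rw [Nat.sqrt_lt, h5]
        exact hxb.2
    refine ⟨Nat.sqrt x, hl, hG1 _ hl ?_⟩
    rw [Finset.mem_filter, mem_J]
    exact ⟨⟨Nat.sqrt_le x, Nat.lt_succ_sqrt x⟩, hx⟩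
  have hcl : ∀ x ∈ S', x ∈ S ∨ (100 * (m * m) ≤ x ∧ x < 102400 * (m * m) ∧
      (Req m b x ∨ Fil m b S x)) := by
    intro x hx
    rcases (hmem x).mp hx with h | ⟨l, hl, h⟩
    · exact Or.inl h
    · have := hGlo l hl x h
      exact Or.inr ⟨this.1, this.2, hGR l hl x h⟩
  have hsm : ∀ x, m ∣ x → 5 * (m * m) ≤ x → x ≤ 499 * (m * m) → x ∈ S' := by
    intro x h1 h2 h3
    by_cases h4 : x < 100 * (m * m)
    · exact (hmem x).mpr (Or.inl (hS.mult x h1 h2 h4))
    · exact hreq x (Or.inl ⟨h1, by omega, by omega, by omega⟩)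
  refine ⟨S', ?_, fun x hx => (hmem x).mpr (Or.inl hx), ?_, ?_, ?_, ?_⟩
  · -- Good
    refine ⟨hS.even.mul_left 32, by omega, ?_, ?_, ?_, ?_⟩
    · intro x hx
      rcases hcl x hx with h | h
      · exact hS.pos x h
      · omega
    · intro x hx
      have e1 : 32 * m * (32 * m) = 1024 * (m * m) := by ring
      rw [e1]
      rcases hcl x hx with h | h
      · have := hS.lt x h
        omega
      · omega
    · intro x h1 h2 h3
      have e1 : 32 * m * (32 * m) = 1024 * (m * m) := by ring
      rw [e1] at h2 h3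
      apply hreq
      refine Or.inr (Or.inl ⟨(Dvd.intro_left 32 rfl).trans h1, by omega, by omega⟩)
    · have hsub : S'.filter (fun x => ¬ Even x) ⊆ S.filter (fun x => ¬ Even x) ∪
          (runF m 100 ∪ runF m 200 ∪ runF m 250 ∪ runF m 810 ∪ runF m 1200 ∪ runF m 1600 ∪
      runF m 20000 ∪ {300 * (m * m) + 1, 800 * (m * m) + 1 - b}) := by
        intro x hx
        rw [Finset.mem_filter] at hx
        rw [Finset.mem_union, Finset.mem_filter]
        rcases hcl x hx.1 with h | ⟨-, -, h | h⟩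
        · exact Or.inl ⟨h, hx.2⟩
        · exact Or.inr (odd_all m b x hS.even h hx.2)
        · exact absurd h.1 hx.2
      have c0 := Finset.card_le_card hsub
      have a1 := hS.odd
      have a2 := card_runF m 100
      have a3 := card_runF m 200
      have a4 := card_runF m 250
      have a5 := card_runF m 810
      have a6 := card_runF m 1200
      have a7 := card_runF m 1600
      have a8 := card_runF m 20000
      have a9 : ({300 * (m * m) + 1, 800 * (m * m) + 1 - b} : Finset ℕ).card ≤ 2 :=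
        Finset.card_le_two
      have b1 := Finset.card_union_le (S.filter (fun x => ¬ Even x))
        (runF m 100 ∪ runF m 200 ∪ runF m 250 ∪ runF m 810 ∪ runF m 1200 ∪ runF m 1600 ∪
      runF m 20000 ∪ {300 * (m * m) + 1, 800 * (m * m) + 1 - b})
      have b2 := Finset.card_union_le (runF m 100 ∪ runF m 200 ∪ runF m 250 ∪ runF m 810 ∪
        runF m 1200 ∪ runF m 1600 ∪ runF m 20000) {300 * (m * m) + 1, 800 * (m * m) + 1 - b}
      have b3 := Finset.card_union_le (runF m 100 ∪ runF m 200 ∪ runF m 250 ∪ runF m 810 ∪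
        runF m 1200 ∪ runF m 1600) (runF m 20000)
      have b4 := Finset.card_union_le (runF m 100 ∪ runF m 200 ∪ runF m 250 ∪ runF m 810 ∪
        runF m 1200) (runF m 1600)
      have b5 := Finset.card_union_le (runF m 100 ∪ runF m 200 ∪ runF m 250 ∪ runF m 810)
        (runF m 1200)
      have b6 := Finset.card_union_le (runF m 100 ∪ runF m 200 ∪ runF m 250) (runF m 810)
      have b7 := Finset.card_union_le (runF m 100 ∪ runF m 200) (runF m 250)
      have b8 := Finset.card_union_le (runF m 100) (runF m 200)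
      omega
  · intro x hx hlt
    rcases hcl x hx with h | h
    · exact h
    · omega
  · -- block counts
    intro l h1 h2
    have heq : S' ∩ J l = G l := by
      ext x
      rw [Finset.mem_inter, hmem]
      constructor
      · rintro ⟨h | ⟨l', hl', h⟩, hx⟩
        · exfalso
          have h3 := hS.lt x h
          have h4 := (mem_J l x).mp hx
          have h5 : (10 * m) * (10 * m) ≤ l * l := Nat.mul_le_mul h1 h1
          have h6 : (10 * m) * (10 * m) = 100 * (m * m) := by ring
          omega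
        · have h3 := (mem_J l x).mp hx
          have h4 := (mem_J l' x).mp (hGJ l' hl' x h)
          have h5 : l < l' + 1 := by
            by_contra hcon
            push Not at hcon
            have := Nat.mul_le_mul hcon hcon
            omega
          have h6 : l' < l + 1 := by
            by_contra hcon
            push Not at hcon
            have := Nat.mul_le_mul hcon hcon
            omega
          have h7 : l' = l := by omega
          rw [← h7]
          exact h
      · intro hx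
        exact ⟨Or.inr ⟨l, ⟨h1, h2⟩, hx⟩, hGJ l ⟨h1, h2⟩ x hx⟩
    rw [heq]
    exact hG3 l ⟨h1, h2⟩
  · -- coverage
    intro n hn1 hn2
    have hm0 : 0 < m := by omega
    have hj : n % m < m := Nat.mod_lt _ hm0
    have hrl := run_lt m (n % m) hj
    by_cases c1 : n ≤ 400 * (m * m)
    · obtain ⟨p, q, h1, h2, h3⟩ := run_cover m 100 n hm0 (by omega)
      exact ⟨p, hreq p (Or.inr (Or.inr (Or.inl ⟨n % m, hj, h2⟩))), q,
        hsm q h3 (by omega) (by omega), h1⟩
    push Not at c1
    by_cases c2 : n ≤ 840 * (m * m)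
    · by_cases hρ : n % m = 1
      · by_cases hnb : n = 800 * (m * m) + 1
        · refine ⟨b, (hmem b).mpr (Or.inl hb), 800 * (m * m) + 1 - b, ?_, by omega⟩
          apply hreq
          exact Or.inr (Or.inr (Or.inr (Or.inr (Or.inr (Or.inr (Or.inl (by omega)))))))
        · refine ⟨300 * (m * m) + 1, hreq _ (Or.inr (Or.inr (Or.inr (Or.inr (Or.inr
            (Or.inl rfl)))))), n - (300 * (m * m) + 1), ?_, by omega⟩
          have hdvd : m ∣ n - (300 * (m * m) + 1) := by
            have h5 : n = m * (n / m) + 1 := by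
              have := Nat.div_add_mod n m
              omega
            have h7 : n - (300 * (m * m) + 1) = m * (n / m) - m * (300 * m) := by
              have h8 : m * (300 * m) = 300 * (m * m) := by ring
              omega
            rw [h7, ← Nat.mul_sub]
            exact Dvd.intro _ rfl
          by_cases h9 : n - (300 * (m * m) + 1) < 100 * (m * m)
          · exact hsm _ hdvd (by omega) (by omega)
          · exact hreq _ (Or.inl ⟨hdvd, by omega, by omega, by omega⟩)
      · obtain ⟨p, q, h1, h2, h3⟩ := run_cover m 200 n hm0 (by omega)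
        obtain ⟨p', q', h1', h2', h3'⟩ := run_cover m 250 n hm0 (by omega)
        by_cases hq : q = 500 * (m * m)
        · refine ⟨p', hreq p' (Or.inr (Or.inr (Or.inr (Or.inr (Or.inl ⟨n % m, hj, hρ, h2'⟩))))),
            q', ?_, h1'⟩
          exact hreq _ (Or.inl ⟨h3', by omega, by omega, by omega⟩)
        · refine ⟨p, hreq p (Or.inr (Or.inr (Or.inr (Or.inl ⟨n % m, hj, hρ, h2⟩)))),
            q, ?_, h1⟩
          exact hreq _ (Or.inl ⟨h3, by omega, by omega, by omega⟩)
    push Not at c2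
    by_cases c3 : n ≤ 1300 * (m * m)
    · obtain ⟨p, q, h1, h2, h3⟩ := run_cover m 810 n hm0 (by omega)
      exact ⟨p, hreq p (Or.inr (Or.inr (Or.inr (Or.inr (Or.inr (Or.inr (Or.inr (Or.inl
        ⟨n % m, hj, h2⟩)))))))), q, hsm q h3 (by omega) (by omega), h1⟩
    push Not at c3
    by_cases c4 : n ≤ 1690 * (m * m)
    · obtain ⟨p, q, h1, h2, h3⟩ := run_cover m 1200 n hm0 (by omega)
      exact ⟨p, hreq p (Or.inr (Or.inr (Or.inr (Or.inr (Or.inr (Or.inr (Or.inr (Or.inr (Or.inl
        ⟨n % m, hj, h2⟩))))))))), q, hsm q h3 (by omega) (by omega), h1⟩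
    push Not at c4
    by_cases c5 : n ≤ 2090 * (m * m)
    · obtain ⟨p, q, h1, h2, h3⟩ := run_cover m 1600 n hm0 (by omega)
      exact ⟨p, hreq p (Or.inr (Or.inr (Or.inr (Or.inr (Or.inr (Or.inr (Or.inr (Or.inr (Or.inr
        (Or.inl ⟨n % m, hj, h2⟩)))))))))), q, hsm q h3 (by omega) (by omega), h1⟩
    push Not at c5
    by_cases c6 : n ≤ 103000 * (m * m)
    · obtain ⟨p, q, h1, h2, h3⟩ := run_cover m 810 n hm0 (by omega)
      exact ⟨p, hreq p (Or.inr (Or.inr (Or.inr (Or.inr (Or.inr (Or.inr (Or.inr (Or.inl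
        ⟨n % m, hj, h2⟩)))))))), q, hreq q (Or.inr (Or.inl ⟨h3, by omega, by omega⟩)), h1⟩
    push Not at c6
    obtain ⟨p, q, h1, h2, h3⟩ := run_cover m 20000 n hm0 (by omega)
    exact ⟨p, hreq p (Or.inr (Or.inr (Or.inr (Or.inr (Or.inr (Or.inr (Or.inr (Or.inr (Or.inr
      (Or.inr ⟨n % m, hj, h2⟩)))))))))), q, hreq q (Or.inr (Or.inl ⟨h3, by omega, by omega⟩)), h1⟩
  · -- uniqueness
    intro x hx y hy hxy
    have hfil : ∀ u v, u ∈ S' → v ∈ S' → u + v = 800 * (m * m) + 1 → ¬ Fil m b S u := by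
      intro u v _ hv huv hf
      have hv' : ¬ (v ∈ S ∨ Req m b v) := fun h => hf.2 v h huv
      rcases hcl v hv with h | ⟨-, -, h | h⟩
      · exact hv' (Or.inl h)
      · exact hv' (Or.inr h)
      · have h1 := hf.1
        have h2 := h.1
        rw [Nat.even_iff] at h1 h2
        omega
    have hxf := hfil x y hx hy hxy
    have hyf := hfil y x hy hx (by omega)
    -- reduce to required elements
    have hcx : x ∈ S ∨ Req m b x := by
      rcases hcl x hx with h | ⟨-, -, h | h⟩
      · exact Or.inl h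
      · exact Or.inr h
      · exact absurd h hxf
    have hcy : y ∈ S ∨ Req m b y := by
      rcases hcl y hy with h | ⟨-, -, h | h⟩
      · exact Or.inl h
      · exact Or.inr h
      · exact absurd h hyf
    have hup : ∀ u : ℕ, ((m ∣ u ∧ u ≤ 650 * (m * m) ∧ u ≠ 500 * (m * m)) ∨
      (u < 251 * (m * m) ∧ (u % m ≠ 1 ∨ u < 101 * (m * m))) ∨ u = 300 * (m * m) + 1) →
        u ≤ 650 * (m * m) := by
      intro u hu
      rcases hu with h | h | h <;> omega
    have key : ∀ u v, (u ∈ S ∨ Req m b u) → (v ∈ S ∨ Req m b v) → u + v = 800 * (m * m) + 1 →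
        u = b ∨ v = b ∨ ((m ∣ u ∧ u ≤ 650 * (m * m) ∧ u ≠ 500 * (m * m)) ∨
      (u < 251 * (m * m) ∧ (u % m ≠ 1 ∨ u < 101 * (m * m))) ∨ u = 300 * (m * m) + 1) := by
      intro u v hu hv huv
      rcases hu with hu | hu
      · have h1 := hS.lt u hu
        rcases hv with hv | hv
        · have h2 := hS.lt v hv
          omega
        · rcases classify m b v hm2 hv (by omega) with h | h
          · left
            omega
          · have := hup v h
            omega
      · rcases classify m b u hm2 hu (by omega) with h | h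
        · right; left
          omega
        · exact Or.inr (Or.inr h)
    rcases key x y hcx hcy hxy with h | h | h
    · exact Or.inl h
    · exact Or.inr h
    · rcases key y x hcy hcx (by omega) with h' | h' | h'
      · exact Or.inr h'
      · exact Or.inl h'
      · exact absurd hxy (core m x y hm2 h h')

open Classical in
lemma exists_init (m : ℕ) (hm : 2000 ≤ m) (hme : Even m) :
    ∃ S : Finset ℕ, Good m S ∧ S.card = 6000 * (10 * m) := by
  have hmm : 2000 ≤ m * m := by nlinarith
  set T : Finset ℕ := (Finset.Ico 1 (100 * (m * m))).filter (fun x => Even x) with hT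
  set R : Finset ℕ := (Finset.Ico (5 * (m * m)) (100 * (m * m))).filter (fun x => m ∣ x) with hR
  have hRT : R ⊆ T := by
    intro x hx
    rw [hR, Finset.mem_filter, Finset.mem_Ico] at hx
    rw [hT, Finset.mem_filter, Finset.mem_Ico]
    exact ⟨⟨by omega, hx.1.2⟩, (even_iff_two_dvd.mpr ((even_iff_two_dvd.mp hme).trans hx.2))⟩
  have hRc : R.card ≤ 6000 * (10 * m) := by
    have h1 : R ⊆ (Finset.range (100 * m)).image (fun j => j * m) := by
      intro x hx
      rw [hR, Finset.mem_filter, Finset.mem_Ico] at hx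
      obtain ⟨⟨-, h2⟩, c, h3⟩ := hx
      rw [Finset.mem_image]
      refine ⟨c, ?_, by rw [h3]; ring⟩
      rw [Finset.mem_range]
      by_contra hcon
      push Not at hcon
      have h4 : m * (100 * m) ≤ m * c := Nat.mul_le_mul_left m hcon
      have h5 : m * (100 * m) = 100 * (m * m) := by ring
      omega
    calc R.card ≤ _ := Finset.card_le_card h1
      _ ≤ (Finset.range (100 * m)).card := Finset.card_image_le
      _ = 100 * m := Finset.card_range _
      _ ≤ 6000 * (10 * m) := by omega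
  have hTc : 6000 * (10 * m) ≤ T.card := by
    have h1 : (Finset.range (50 * (m * m) - 1)).card ≤ T.card := by
      apply Finset.card_le_card_of_injOn (fun i => 2 * i + 2)
      · intro i hi
        rw [Finset.mem_coe, Finset.mem_range] at hi
        rw [Finset.mem_coe, hT, Finset.mem_filter, Finset.mem_Ico]
        exact ⟨⟨show 1 ≤ 2 * i + 2 by omega, show 2 * i + 2 < 100 * (m * m) by omega⟩,
          show Even (2 * i + 2) from ⟨i + 1, by ring⟩⟩
      · intro i _ j _ hij
        simp only at hij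
        omega
    rw [Finset.card_range] at h1
    have h2 : 2000 * m ≤ m * m := Nat.mul_le_mul_right m hm
    omega
  obtain ⟨S, h1, h2, h3⟩ := Finset.exists_subsuperset_card_eq hRT hRc hTc
  refine ⟨S, ⟨hme, hm, ?_, ?_, ?_, ?_⟩, h3⟩
  · intro x hx
    have := h2 hx
    rw [hT, Finset.mem_filter, Finset.mem_Ico] at this
    exact this.1.1
  · intro x hx
    have := h2 hx
    rw [hT, Finset.mem_filter, Finset.mem_Ico] at this
    exact this.1.2
  · intro x hx1 hx2 hx3
    apply h1
    rw [hR, Finset.mem_filter, Finset.mem_Ico]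
    exact ⟨⟨hx2, hx3⟩, hx1⟩
  · have : S.filter (fun x => ¬ Even x) = ∅ := by
      rw [Finset.filter_eq_empty_iff]
      intro x hx
      have := h2 hx
      rw [hT, Finset.mem_filter] at this
      exact not_not.mpr this.2
    rw [this, Finset.card_empty]
    exact Nat.zero_le _

/-- A state of the construction. -/
structure St where
  m : ℕ
  S : Finset ℕ
  good : Good m S

noncomputable def init : St where
  m := 2000
  S := (exists_init 2000 le_rfl (by decide)).choose
  good := (exists_init 2000 le_rfl (by decide)).choose_spec.1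

lemma init_card : init.S.card = 6000 * 20000 :=
  (exists_init 2000 le_rfl (by decide)).choose_spec.2

open Classical in
noncomputable def pick (t : ℕ) (s : St) : ℕ :=
  if (Nat.unpair t).1 ∈ s.S then (Nat.unpair t).1 else 5 * (s.m * s.m)

lemma pick_mem (t : ℕ) (s : St) : pick t s ∈ s.S := by
  unfold pick
  split_ifs with h
  · exact h
  · have h1 := s.good.big
    have h2 : 2000 ≤ s.m * s.m := by nlinarith
    apply s.good.mult _ _ le_rfl (by omega)
    exact Dvd.intro (5 * s.m) (by ring)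

noncomputable def next (t : ℕ) (s : St) : St where
  m := 32 * s.m
  S := (step s.m s.S s.good (pick t s) (pick_mem t s)).choose
  good := (step s.m s.S s.good (pick t s) (pick_mem t s)).choose_spec.1

noncomputable def sq : ℕ → St
  | 0 => init
  | t + 1 => next t (sq t)

lemma sq_spec (t : ℕ) :
    (∀ x ∈ (sq t).S, x ∈ (sq (t + 1)).S) ∧
      (∀ x ∈ (sq (t + 1)).S, x < 100 * ((sq t).m * (sq t).m) → x ∈ (sq t).S) ∧
      (∀ l, 10 * (sq t).m ≤ l → l < 320 * (sq t).m → ((sq (t + 1)).S ∩ J l).card = 6000) ∧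
      (∀ n, 110 * ((sq t).m * (sq t).m) ≤ n → n ≤ 112640 * ((sq t).m * (sq t).m) →
        ∃ x ∈ (sq (t + 1)).S, ∃ y ∈ (sq (t + 1)).S, x + y = n) ∧
      (∀ x ∈ (sq (t + 1)).S, ∀ y ∈ (sq (t + 1)).S, x + y = 800 * ((sq t).m * (sq t).m) + 1 →
        x = pick t (sq t) ∨ y = pick t (sq t)) :=
  (step (sq t).m (sq t).S (sq t).good (pick t (sq t)) (pick_mem t (sq t))).choose_spec.2

lemma sq_m (t : ℕ) : (sq (t + 1)).m = 32 * (sq t).m := rfl

lemma m_ge (t : ℕ) : t + 2000 ≤ (sq t).m := by
  induction t with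
  | zero => exact le_rfl
  | succ t ih =>
    rw [sq_m]
    omega

lemma m_mono : Monotone fun t => (sq t).m :=
  monotone_nat_of_le_succ fun t => by
    show (sq t).m ≤ (sq (t + 1)).m
    rw [sq_m]
    omega

lemma S_mono {s t : ℕ} (h : s ≤ t) (x : ℕ) (hx : x ∈ (sq s).S) : x ∈ (sq t).S := by
  induction h with
  | refl => exact hx
  | step _ ih => exact (sq_spec _).1 x ih

/-- The basis. -/
def bas : Set ℕ := {x | ∃ t, x ∈ (sq t).S}

lemma mem_stage (t x : ℕ) (hx : x ∈ bas) (hlt : x < 100 * ((sq t).m * (sq t).m)) :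
    x ∈ (sq t).S := by
  obtain ⟨s, hs⟩ := hx
  rcases le_total s t with h | h
  · exact S_mono h x hs
  · induction h with
    | refl => exact hs
    | @step r hr ih =>
      apply ih
      have h1 : (sq t).m ≤ (sq r).m := m_mono hr
      have h2 := Nat.mul_le_mul h1 h1
      exact (sq_spec r).2.1 x hs (by omega)

lemma exists_index (n : ℕ) (hn : 20000 ≤ n) :
    ∃ t, 10 * (sq t).m ≤ n ∧ n < 320 * (sq t).m := by
  classical
  have hex : ∃ t, n < 10 * (sq (t + 1)).m := ⟨n, by
    have := m_ge (n + 1)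
    omega⟩
  set t := Nat.find hex with ht
  have h1 : n < 10 * (sq (t + 1)).m := Nat.find_spec hex
  refine ⟨t, ?_, by rw [sq_m] at h1; omega⟩
  rcases Nat.eq_zero_or_pos t with h0 | hpos
  · rw [h0]
    have : (sq 0).m = 2000 := rfl
    omega
  · obtain ⟨i, hi⟩ : ∃ i, t = i + 1 := ⟨t - 1, by omega⟩
    have h2 : ¬ n < 10 * (sq (i + 1)).m := Nat.find_min hex (by omega)
    rw [hi]
    omega

lemma exists_index' (n : ℕ) (hn : 110 * (2000 * 2000) ≤ n) :
    ∃ t, 110 * ((sq t).m * (sq t).m) ≤ n ∧ n ≤ 112640 * ((sq t).m * (sq t).m) := by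
  classical
  have hsq : ∀ t, (sq (t + 1)).m * (sq (t + 1)).m = 1024 * ((sq t).m * (sq t).m) := by
    intro t
    rw [sq_m]
    ring
  have hex : ∃ t, n < 110 * ((sq (t + 1)).m * (sq (t + 1)).m) := ⟨n, by
    have h1 := m_ge (n + 1)
    have h2 := Nat.mul_le_mul h1 h1
    nlinarith⟩
  set t := Nat.find hex with ht
  have h1 : n < 110 * ((sq (t + 1)).m * (sq (t + 1)).m) := Nat.find_spec hex
  rw [hsq] at h1
  refine ⟨t, ?_, by omega⟩
  rcases Nat.eq_zero_or_pos t with h0 | hpos
  · rw [h0]
    have : (sq 0).m = 2000 := rfl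
    rw [this]
    omega
  · obtain ⟨i, hi⟩ : ∃ i, t = i + 1 := ⟨t - 1, by omega⟩
    have h2 : ¬ n < 110 * ((sq (i + 1)).m * (sq (i + 1)).m) := Nat.find_min hex (by omega)
    rw [hi]
    omega

open Classical in
lemma count_sq (l : ℕ) (hl : 20000 ≤ l) : Nat.count (· ∈ bas) (l * l) = 6000 * l := by
  induction l, hl using Nat.le_induction with
  | base =>
    rw [Nat.count_eq_card_filter_range, ← init_card]
    congr 1
    ext x
    rw [Finset.mem_filter, Finset.mem_range]
    have hm : (sq 0).m = 2000 := rfl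
    constructor
    · rintro ⟨h1, h2⟩
      apply mem_stage 0 x h2
      rw [hm]
      omega
    · intro h
      have h1 := init.good.lt x h
      have h2 : init.m = 2000 := rfl
      rw [h2] at h1
      exact ⟨by omega, 0, h⟩
  | succ l hl ih =>
    obtain ⟨t, ht1, ht2⟩ := exists_index l hl
    have hblock := (sq_spec t).2.2.1 l ht1 ht2
    rw [Nat.count_eq_card_filter_range] at ih ⊢
    have hle : l * l ≤ (l + 1) * (l + 1) := Nat.mul_le_mul (by omega) (by omega)
    have hsplit : (Finset.range ((l + 1) * (l + 1))).filter (· ∈ bas) =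
        (Finset.range (l * l)).filter (· ∈ bas) ∪ ((sq (t + 1)).S ∩ J l) := by
      ext x
      rw [Finset.mem_union, Finset.mem_inter, mem_J, Finset.mem_filter, Finset.mem_filter,
        Finset.mem_range, Finset.mem_range]
      constructor
      · rintro ⟨h1, h2⟩
        by_cases h3 : x < l * l
        · exact Or.inl ⟨h3, h2⟩
        · right
          refine ⟨mem_stage (t + 1) x h2 ?_, by omega, h1⟩
          rw [sq_m]
          have h4 : (l + 1) * (l + 1) ≤ (320 * (sq t).m) * (320 * (sq t).m) :=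
            Nat.mul_le_mul ht2 ht2
          have h5 : (320 * (sq t).m) * (320 * (sq t).m) =
            100 * (32 * (sq t).m * (32 * (sq t).m)) := by ring
          omega
      · rintro (⟨h1, h2⟩ | ⟨h1, h2, h3⟩)
        · exact ⟨by omega, h2⟩
        · exact ⟨h3, t + 1, h1⟩
    have hdisj : Disjoint ((Finset.range (l * l)).filter (· ∈ bas)) ((sq (t + 1)).S ∩ J l) := by
      rw [Finset.disjoint_left]
      intro x hx hx'
      rw [Finset.mem_filter, Finset.mem_range] at hx
      rw [Finset.mem_inter, mem_J] at hx'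
      omega
    rw [hsplit, Finset.card_union_of_disjoint hdisj, ih, hblock]
    ring

lemma bas_infinite : (Set.ofPred (· ∈ bas)).Infinite := by
  classical
  intro hfin
  have h1 := Nat.count_le_card hfin ((20000 + hfin.toFinset.card) * (20000 + hfin.toFinset.card))
  rw [count_sq _ (by omega)] at h1
  omega

lemma nth_bounds (k : ℕ) (hk : 6000 * 20000 ≤ k) :
    (k / 6000) * (k / 6000) ≤ Nat.nth (· ∈ bas) k ∧
      Nat.nth (· ∈ bas) k < (k / 6000 + 1) * (k / 6000 + 1) := by
  classical
  have h0 : 20000 ≤ k / 6000 := by omega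
  constructor
  · rw [← Nat.count_le_iff_le_nth bas_infinite, count_sq _ h0]
    omega
  · apply Nat.nth_lt_of_lt_count
    rw [count_sq _ (by omega)]
    omega

lemma tendsto_aux (c : ℝ) :
    Tendsto (fun k : ℕ => (((k : ℝ) / 6000 + c) / ((k : ℝ) + 1)) ^ 2) atTop
      (𝓝 ((1 / 6000) ^ 2)) := by
  have h1 : Tendsto (fun k : ℕ => (1 / 6000 : ℝ) + (c - 1 / 6000) / ((k : ℝ) + 1)) atTop
      (𝓝 (1 / 6000 + 0)) := by
    apply Tendsto.const_add
    apply Tendsto.div_atTop tendsto_const_nhds
    exact tendsto_atTop_add_const_right _ _ tendsto_natCast_atTop_atTop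
  rw [add_zero] at h1
  apply Tendsto.pow
  refine h1.congr fun k => ?_
  have : (k : ℝ) + 1 ≠ 0 := by positivity
  field_simp
  ring

lemma tendsto_nth :
    Tendsto (fun k : ℕ => (Nat.nth (· ∈ bas) k : ℝ) / ((k : ℝ) + 1) ^ 2) atTop
      (𝓝 ((1 / 6000) ^ 2)) := by
  refine tendsto_of_tendsto_of_tendsto_of_le_of_le' (tendsto_aux (-1)) (tendsto_aux 1) ?_ ?_
  · filter_upwards [eventually_ge_atTop (6000 * 20000)] with k hk
    have h1 := (nth_bounds k hk).1
    have h2 : ((k / 6000 : ℕ) : ℝ) * ((k / 6000 : ℕ) : ℝ) ≤ (Nat.nth (· ∈ bas) k : ℝ) := by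
      exact_mod_cast h1
    have h3 : (k : ℝ) / 6000 - 1 ≤ ((k / 6000 : ℕ) : ℝ) := by
      have h4 : k < 6000 * (k / 6000 + 1) := by omega
      have h5 : (k : ℝ) < 6000 * (((k / 6000 : ℕ) : ℝ) + 1) := by exact_mod_cast h4
      linarith
    have h6 : (0 : ℝ) ≤ (k : ℝ) / 6000 - 1 := by
      have : ((6000 * 20000 : ℕ) : ℝ) ≤ k := by exact_mod_cast hk
      push_cast at this
      linarith
    rw [div_pow]
    apply div_le_div_of_nonneg_right _ (by positivity)
    nlinarith
  · filter_upwards [eventually_ge_atTop (6000 * 20000)] with k hk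
    have h1 := (nth_bounds k hk).2
    have h2 : (Nat.nth (· ∈ bas) k : ℝ) ≤
        (((k / 6000 : ℕ) : ℝ) + 1) * (((k / 6000 : ℕ) : ℝ) + 1) := by
      exact_mod_cast h1.le
    have h3 : ((k / 6000 : ℕ) : ℝ) ≤ (k : ℝ) / 6000 := by
      have h4 : 6000 * (k / 6000) ≤ k := by omega
      have h5 : 6000 * ((k / 6000 : ℕ) : ℝ) ≤ (k : ℝ) := by exact_mod_cast h4
      linarith
    have h6 : (0 : ℝ) ≤ ((k / 6000 : ℕ) : ℝ) := Nat.cast_nonneg _
    rw [div_pow]
    apply div_le_div_of_nonneg_right _ (by positivity)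
    nlinarith

/-- There is a set A of naturals such that every large n is a sum of two elements of A, no proper subset of A has this property, and the (k+1)-th element of A divided by (k+1)² tends to a nonzero real constant. -/
theorem result :
    ∃ A : Set ℕ,
      (∃ N : ℕ, ∀ n ≥ N, ∃ a ∈ A, ∃ b ∈ A, a + b = n) ∧
      (∀ B : Set ℕ, B ⊂ A → ¬ ∃ N : ℕ, ∀ n ≥ N, ∃ a ∈ B, ∃ b ∈ B, a + b = n) ∧
      ∃ c : ℝ, c ≠ 0 ∧
        Tendsto (fun k : ℕ => (Nat.nth (· ∈ A) k : ℝ) / ((k : ℝ) + 1) ^ 2) atTop (𝓝 c) := by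
  refine ⟨bas, ⟨110 * (2000 * 2000), fun n hn => ?_⟩, fun B hB => ?_,
    (1 / 6000) ^ 2, by norm_num, tendsto_nth⟩
  · obtain ⟨t, h1, h2⟩ := exists_index' n hn
    obtain ⟨x, hx, y, hy, hxy⟩ := (sq_spec t).2.2.2.1 n h1 h2
    exact ⟨x, ⟨t + 1, hx⟩, y, ⟨t + 1, hy⟩, hxy⟩
  · rintro ⟨N, hN⟩
    obtain ⟨hBA, hne⟩ := hB
    obtain ⟨b, hbA, hbB⟩ : ∃ b, b ∈ bas ∧ b ∉ B := by
      by_contra hcon
      push Not at hcon
      exact hne hcon
    obtain ⟨s, hs⟩ := hbA
    set t := Nat.pair b (s + N) with ht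
    have hts : s + N ≤ t := Nat.right_le_pair b (s + N)
    have hbt : b ∈ (sq t).S := S_mono (by omega) b hs
    have hpick : pick t (sq t) = b := by
      unfold pick
      have : (Nat.unpair t).1 = b := by rw [ht, Nat.unpair_pair]
      rw [this, if_pos hbt]
    have hm := m_ge t
    have hmm : (sq t).m * 1 ≤ (sq t).m * (sq t).m := Nat.mul_le_mul_left _ (by omega)
    obtain ⟨x, hx, y, hy, hxy⟩ := hN (800 * ((sq t).m * (sq t).m) + 1) (by omega)
    have hst : ∀ u, u ∈ B → u ≤ 800 * ((sq t).m * (sq t).m) + 1 → u ∈ (sq (t + 1)).S := by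
      intro u hu hle
      apply mem_stage (t + 1) u (hBA hu)
      rw [sq_m]
      have : 100 * (32 * (sq t).m * (32 * (sq t).m)) = 102400 * ((sq t).m * (sq t).m) := by ring
      omega
    rcases (sq_spec t).2.2.2.2 x (hst x hx (by omega)) y (hst y hy (by omega)) hxy with h | h
    · rw [hpick] at h
      exact hbB (h ▸ hx)
    · rw [hpick] at h
      exact hbB (h ▸ hy)

end Pool.Agent.S10843
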