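import Pool.Statements.S10854
-- import your own Pool.Agent.* helpers here

set_option autoImplicit false
open Pool Pool.MP_7fe555_nt

namespace Pool.Agent.S10854

theorem lcm3_ge (x y z : ℕ) (hx : 0 < x) (hxy : x < y) (hyz : y < z) :
    x ^ 3 ≤ Nat.lcm (Nat.lcm x y) z * (z - x) ^ 3 := by
  have h1 : Nat.gcd x y ≤ z - x := by
    have : Nat.gcd x y ∣ y - x := Nat.dvd_sub (Nat.gcd_dvd_right x y) (Nat.gcd_dvd_left x y)
    have := Nat.le_of_dvd (by omega) this
    omega
  have h2 : Nat.gcd z x ≤ z - x :=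
    Nat.le_of_dvd (by omega) (Nat.dvd_sub (Nat.gcd_dvd_left z x) (Nat.gcd_dvd_right z x))
  have h3 : Nat.gcd z y ≤ z - x := by
    have : Nat.gcd z y ∣ z - y := Nat.dvd_sub (Nat.gcd_dvd_left z y) (Nat.gcd_dvd_right z y)
    have := Nat.le_of_dvd (by omega) this
    omega
  have h4 : Nat.gcd (Nat.lcm x y) z ∣ Nat.gcd z x * Nat.gcd z y := by
    have : Nat.gcd (Nat.lcm x y) z ∣ Nat.gcd z (x * y) := by
      rw [Nat.gcd_comm]
      exact Nat.gcd_dvd_gcd_of_dvd_right z (Nat.lcm_dvd_mul x y)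
    exact this.trans (Nat.gcd_mul_right_dvd_mul_gcd z x y)
  have h5 : Nat.gcd (Nat.lcm x y) z ≤ (z - x) * (z - x) := by
    refine (Nat.le_of_dvd ?_ h4).trans (Nat.mul_le_mul h2 h3)
    exact Nat.mul_pos (Nat.gcd_pos_of_pos_right _ hx) (Nat.gcd_pos_of_pos_right _ (by omega))
  have h6 : Nat.gcd x y * Nat.lcm x y = x * y := Nat.gcd_mul_lcm x y
  have h7 : Nat.gcd (Nat.lcm x y) z * Nat.lcm (Nat.lcm x y) z = Nat.lcm x y * z :=
    Nat.gcd_mul_lcm _ _
  calc x ^ 3 = x * x * x := by ring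
    _ ≤ x * y * z := Nat.mul_le_mul (Nat.mul_le_mul le_rfl hxy.le) (hxy.trans hyz).le
    _ = Nat.gcd x y * (Nat.gcd (Nat.lcm x y) z * Nat.lcm (Nat.lcm x y) z) := by
        rw [h7, ← h6]; ring
    _ ≤ (z - x) * (((z - x) * (z - x)) * Nat.lcm (Nat.lcm x y) z) :=
        Nat.mul_le_mul h1 (Nat.mul_le_mul h5 le_rfl)
    _ = Nat.lcm (Nat.lcm x y) z * (z - x) ^ 3 := by ring

/-- the basic weight estimate: `L^(-1/3) ≤ 2 log (z/x)`. -/
theorem weight_le (x y z : ℕ) (hx : 0 < x) (hxy : x < y) (hyz : y < z) :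
    ((Nat.lcm (Nat.lcm x y) z : ℕ) : ℝ) ^ (-(1 : ℝ) / 3) ≤
      2 * (Real.log z - Real.log x) := by
  have hLpos : 0 < Nat.lcm (Nat.lcm x y) z :=
    Nat.lcm_pos (Nat.lcm_pos hx (by omega)) (by omega)
  have hkey := lcm3_ge x y z hx hxy hyz
  set L := Nat.lcm (Nat.lcm x y) z with hL
  have hLr : (0 : ℝ) < (L : ℝ) := by exact_mod_cast hLpos
  have hL1 : (1 : ℝ) ≤ (L : ℝ) := by exact_mod_cast hLpos
  have hxr : (0 : ℝ) < x := by exact_mod_cast hx
  have hzr : (0 : ℝ) < z := by exact_mod_cast (by omega : 0 < z)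
  have hxz : (x : ℝ) < z := by exact_mod_cast hxy.trans hyz
  rw [← Real.log_div hzr.ne' hxr.ne']
  by_cases hcase : (z : ℝ) ≤ 2 * x
  · -- small gap
    have hk : (x : ℝ) ^ 3 ≤ L * ((z : ℝ) - x) ^ 3 := by
      have : ((x ^ 3 : ℕ) : ℝ) ≤ ((L * (z - x) ^ 3 : ℕ) : ℝ) := by exact_mod_cast hkey
      push_cast [Nat.cast_sub (hxy.trans hyz).le] at this
      exact this
    have hd : (0 : ℝ) < z - x := by linarith
    -- L^(-1/3) ≤ (z-x)/x
    have h1 : (L : ℝ) ^ (-(1 : ℝ) / 3) ≤ ((z : ℝ) - x) / x := by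
      have h2 : (x : ℝ) / (z - x) ≤ (L : ℝ) ^ ((1 : ℝ) / 3) := by
        have h3 : ((x : ℝ) / (z - x)) ^ 3 ≤ L := by
          rw [div_pow, div_le_iff₀ (by positivity)]
          exact hk
        have h4 : (((x : ℝ) / (z - x)) ^ 3) ^ ((1 : ℝ) / 3) ≤ (L : ℝ) ^ ((1 : ℝ) / 3) :=
          Real.rpow_le_rpow (by positivity) h3 (by norm_num)
        have h5 : (((x : ℝ) / (z - x)) ^ 3) ^ ((1 : ℝ) / 3) = (x : ℝ) / (z - x) := by
          rw [← Real.rpow_natCast, ← Real.rpow_mul (by positivity)]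
          norm_num
        rwa [h5] at h4
      have h6 : (L : ℝ) ^ (-(1 : ℝ) / 3) = ((L : ℝ) ^ ((1 : ℝ) / 3))⁻¹ := by
        rw [← Real.rpow_neg hLr.le]; norm_num
      rw [h6]
      have h7 : ((z : ℝ) - x) / x = ((x : ℝ) / (z - x))⁻¹ := by rw [inv_div]
      rw [h7]
      exact inv_anti₀ (by positivity) h2
    refine h1.trans ?_
    have h8 : 1 - ((z : ℝ) / x)⁻¹ ≤ Real.log ((z : ℝ) / x) :=
      Real.one_sub_inv_le_log_of_pos (by positivity)
    rw [inv_div] at h8
    have h9 : ((z : ℝ) - x) / x ≤ 2 * (1 - (x : ℝ) / z) := by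
      have : 2 * (1 - (x : ℝ) / z) = (2 * (z - x)) / z := by field_simp
      rw [this, div_le_div_iff₀ hxr hzr]
      nlinarith
    linarith
  · push Not at hcase
    have h1 : (L : ℝ) ^ (-(1 : ℝ) / 3) ≤ 1 := by
      apply Real.rpow_le_one_of_one_le_of_nonpos hL1
      norm_num
    have h2 : Real.log 2 ≤ Real.log ((z : ℝ) / x) := by
      apply Real.log_le_log (by norm_num)
      rw [le_div_iff₀ hxr]
      exact hcase.le
    have h3 := Real.log_two_gt_d9
    linarith

/-- geometric tail bound. -/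
theorem geom_tail (m n : ℕ) :
    ∑ j ∈ Finset.range n, (if m ≤ j then ((1 : ℝ) / 2) ^ j else 0) ≤ 2 * (1 / 2) ^ m := by
  have h : ∀ n, ∑ j ∈ Finset.range (m + n), (if m ≤ j then ((1 : ℝ) / 2) ^ j else 0)
      ≤ 2 * (1 / 2) ^ m - 2 * (1 / 2) ^ (m + n) := by
    intro n
    induction n with
    | zero =>
      rw [Finset.sum_eq_zero]
      · simp
      · intro j hj
        rw [Finset.mem_range] at hj
        rw [if_neg (by omega)]
    | succ n ih =>
      rw [← add_assoc, Finset.sum_range_succ, if_pos (by omega), pow_succ]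
      linarith
  have hmono : ∑ j ∈ Finset.range n, (if m ≤ j then ((1 : ℝ) / 2) ^ j else 0) ≤
      ∑ j ∈ Finset.range (m + n), (if m ≤ j then ((1 : ℝ) / 2) ^ j else 0) := by
    apply Finset.sum_le_sum_of_subset_of_nonneg
    · intro j hj
      rw [Finset.mem_range] at *
      omega
    · intro j _ _
      split_ifs <;> positivity
  have hp : (0 : ℝ) ≤ 2 * (1 / 2) ^ (m + n) := by positivity
  linarith [h n]

/-- each window is counted with total weight at most `2 L^(-1/3)`. -/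
theorem window_weight (L n : ℕ) (hL : 0 < L) :
    ∑ j ∈ Finset.range n, (if (L : ℝ) < 8 ^ j then ((1 : ℝ) / 2) ^ j else 0)
      ≤ 2 * (L : ℝ) ^ (-(1 : ℝ) / 3) := by
  classical
  have hex : ∃ m : ℕ, (L : ℝ) < 8 ^ m := by
    obtain ⟨m, hm⟩ := pow_unbounded_of_one_lt (L : ℝ) (by norm_num : (1 : ℝ) < 8)
    exact ⟨m, hm⟩
  set m := Nat.find hex with hm
  have hmspec : (L : ℝ) < 8 ^ m := Nat.find_spec hex
  have hiff : ∀ j : ℕ, (L : ℝ) < 8 ^ j ↔ m ≤ j := by
    intro j
    constructor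
    · intro h
      exact Nat.find_min' hex h
    · intro h
      exact hmspec.trans_le (pow_le_pow_right₀ (by norm_num) h)
  have h1 : ∑ j ∈ Finset.range n, (if (L : ℝ) < 8 ^ j then ((1 : ℝ) / 2) ^ j else 0) =
      ∑ j ∈ Finset.range n, (if m ≤ j then ((1 : ℝ) / 2) ^ j else 0) := by
    apply Finset.sum_congr rfl
    intro j _
    simp only [hiff j]
  rw [h1]
  refine (geom_tail m n).trans ?_
  have hLr : (0 : ℝ) < (L : ℝ) := by exact_mod_cast hL
  have h2 : ((8 : ℝ) ^ m) ^ (-(1 : ℝ) / 3) = (1 / 2) ^ m := by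
    rw [← Real.rpow_natCast, ← Real.rpow_mul (by norm_num), mul_comm, Real.rpow_mul (by norm_num),
      Real.rpow_natCast]
    congr 1
    rw [show (8 : ℝ) = 2 ^ (3 : ℝ) by norm_num, ← Real.rpow_mul (by norm_num)]
    norm_num
  have h3 : ((8 : ℝ) ^ m) ^ (-(1 : ℝ) / 3) ≤ (L : ℝ) ^ (-(1 : ℝ) / 3) :=
    Real.rpow_le_rpow_of_nonpos hLr hmspec.le (by norm_num)
  rw [h2] at h3
  linarith

theorem telescope (g : ℕ → ℝ) (N : ℕ) :
    ∑ i ∈ Finset.range N, (g (i + 3) - g (i + 1)) = g (N + 2) + g (N + 1) - g 2 - g 1 := by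
  induction N with
  | zero => simp
  | succ n ih => rw [Finset.sum_range_succ, ih]; ring_nf


/-- The negation of the preceding statement: There is a strictly increasing sequence of positive integers and a constant c>0 such that, for all large x, the number of i with lcm of three consecutive terms a(i+1),a(i+2),a(i+3) below x exceeds c·x^(1/3)·ln x. -/
theorem result :
    ¬ (∃ a : ℕ → ℕ, StrictMono a ∧ (∀ n, 0 < a n) ∧
      ∃ c : ℝ, 0 < c ∧ ∃ X : ℝ, ∀ x : ℝ, X ≤ x →
        c * x ^ ((1 : ℝ) / 3) * Real.log x <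
          (({i : ℕ | ((Nat.lcm (Nat.lcm (a (i + 1)) (a (i + 2))) (a (i + 3)) : ℕ) : ℝ) < x}.ncard : ℕ) : ℝ)) := by
  rintro ⟨a, hmono, hpos, c, hc, X, hX⟩
  set L : ℕ → ℕ := fun i => Nat.lcm (Nat.lcm (a (i + 1)) (a (i + 2))) (a (i + 3)) with hLdef
  have hLpos : ∀ i, 0 < L i := fun i =>
    Nat.lcm_pos (Nat.lcm_pos (hpos _) (hpos _)) (hpos _)
  -- choose the scale
  obtain ⟨j0, hj0⟩ := pow_unbounded_of_one_lt X (by norm_num : (1 : ℝ) < 8)
  obtain ⟨M0, hM0⟩ := exists_nat_gt (16 / c)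
  set M := max (max j0 M0) 1 with hM
  have hMj : j0 ≤ M := (le_max_left _ _).trans (le_max_left _ _)
  have hMM : M0 ≤ M := (le_max_right _ _).trans (le_max_left _ _)
  have hM1 : 1 ≤ M := le_max_right _ _
  set J := 2 * M with hJ
  -- the index range
  have hex : ∃ i : ℕ, (8 : ℝ) ^ J ≤ (a (i + 3) : ℝ) := by
    refine ⟨8 ^ J, ?_⟩
    have h1 : 8 ^ J + 3 ≤ a (8 ^ J + 3) := hmono.id_le _
    have h2 : 8 ^ J ≤ a (8 ^ J + 3) := by omega
    exact_mod_cast h2
  classical
  set N := Nat.find hex with hN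
  have hlt : ∀ i, i < N → (a (i + 3) : ℝ) < 8 ^ J := by
    intro i hi
    have := Nat.find_min hex hi
    push Not at this
    exact this
  have hge : ∀ i, N ≤ i → (8 : ℝ) ^ J ≤ (L i : ℝ) := by
    intro i hi
    have h1 : (8 : ℝ) ^ J ≤ (a (N + 3) : ℝ) := Nat.find_spec hex
    have h2 : a (N + 3) ≤ a (i + 3) := hmono.monotone (by omega)
    have h3 : a (i + 3) ≤ L i := Nat.le_of_dvd (hLpos i) (Nat.dvd_lcm_right _ _)
    have h4 : (a (N + 3) : ℝ) ≤ (L i : ℝ) := by exact_mod_cast h2.trans h3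
    linarith
  have hlog8 : 0 < Real.log 8 := Real.log_pos (by norm_num)
  -- upper bound for the total weight
  have hupper : ∑ i ∈ Finset.range N, 2 * (L i : ℝ) ^ (-(1 : ℝ) / 3) ≤ 8 * (J * Real.log 8) := by
    have h1 : ∀ i ∈ Finset.range N, 2 * (L i : ℝ) ^ (-(1 : ℝ) / 3) ≤
        4 * ((fun n => Real.log (a n)) (i + 3) - (fun n => Real.log (a n)) (i + 1)) := by
      intro i _
      have := weight_le (a (i + 1)) (a (i + 2)) (a (i + 3)) (hpos _) (hmono (by omega))
        (hmono (by omega))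
      simp only [hLdef]
      linarith
    refine (Finset.sum_le_sum h1).trans ?_
    rw [← Finset.mul_sum, telescope (fun n => Real.log (a n)) N]
    have hlognn : ∀ n, 0 ≤ Real.log (a n) := fun n =>
      Real.log_nonneg (by exact_mod_cast hpos n)
    have hJlog : Real.log ((8 : ℝ) ^ J) = J * Real.log 8 := by rw [Real.log_pow]
    rcases Nat.eq_zero_or_pos N with h0 | hNpos
    · rw [h0]
      have : 0 ≤ (J : ℝ) * Real.log 8 := by positivity
      simp only [Nat.zero_add]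
      linarith [this]
    · have ha2 : (a (N + 2) : ℝ) < 8 ^ J := by
        have := hlt (N - 1) (by omega)
        rwa [show N - 1 + 3 = N + 2 by omega] at this
      have ha1 : (a (N + 1) : ℝ) ≤ a (N + 2) := by
        exact_mod_cast (hmono (by omega : N + 1 < N + 2)).le
      have hl2 : Real.log (a (N + 2)) ≤ J * Real.log 8 := by
        rw [← hJlog]
        exact Real.log_le_log (by exact_mod_cast hpos _) ha2.le
      have hl1 : Real.log (a (N + 1)) ≤ J * Real.log 8 := by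
        rw [← hJlog]
        exact Real.log_le_log (by exact_mod_cast hpos _) (ha1.trans ha2.le)
      have := hlognn 1
      have := hlognn 2
      linarith
  -- the double count
  have hcount : ∀ j ≤ J, ({i : ℕ | (L i : ℝ) < 8 ^ j}.ncard : ℝ) =
      ∑ i ∈ Finset.range N, (if (L i : ℝ) < 8 ^ j then (1 : ℝ) else 0) := by
    intro j hj
    have hset : {i : ℕ | (L i : ℝ) < 8 ^ j} =
        (((Finset.range N).filter (fun i => (L i : ℝ) < 8 ^ j) : Finset ℕ) : Set ℕ) := by
      ext i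
      simp only [Set.mem_ofPred_eq, Finset.coe_filter, Finset.mem_range]
      constructor
      · intro h
        refine ⟨?_, h⟩
        by_contra hcon
        push Not at hcon
        have h1 := hge i hcon
        have h2 : (8 : ℝ) ^ j ≤ 8 ^ J := pow_le_pow_right₀ (by norm_num) hj
        linarith
      · exact fun h => h.2
    rw [hset, Set.ncard_coe_finset, Finset.card_filter]
    push_cast
    rfl
  have hswap : ∑ j ∈ Finset.range (J + 1), ((1 : ℝ) / 2) ^ j *
      ({i : ℕ | (L i : ℝ) < 8 ^ j}.ncard : ℝ) ≤ 8 * (J * Real.log 8) := by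
    have h1 : ∑ j ∈ Finset.range (J + 1), ((1 : ℝ) / 2) ^ j *
        ({i : ℕ | (L i : ℝ) < 8 ^ j}.ncard : ℝ) =
        ∑ j ∈ Finset.range (J + 1), ∑ i ∈ Finset.range N,
          (if (L i : ℝ) < 8 ^ j then ((1 : ℝ) / 2) ^ j else 0) := by
      apply Finset.sum_congr rfl
      intro j hj
      rw [Finset.mem_range] at hj
      rw [hcount j (by omega), Finset.mul_sum]
      apply Finset.sum_congr rfl
      intro i _
      split_ifs <;> simp
    rw [h1, Finset.sum_comm]
    refine le_trans (Finset.sum_le_sum ?_) hupper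
    intro i _
    exact window_weight (L i) (J + 1) (hLpos i)
  -- the lower bound
  have hlower : ∀ j, j0 ≤ j → c * (j * Real.log 8) ≤ ((1 : ℝ) / 2) ^ j *
      ({i : ℕ | (L i : ℝ) < 8 ^ j}.ncard : ℝ) := by
    intro j hj
    have h1 : X ≤ (8 : ℝ) ^ j := hj0.le.trans (pow_le_pow_right₀ (by norm_num) hj)
    have h2 := hX _ h1
    have h3 : ((8 : ℝ) ^ j) ^ ((1 : ℝ) / 3) = 2 ^ j := by
      rw [← Real.rpow_natCast, ← Real.rpow_mul (by norm_num), mul_comm,
        Real.rpow_mul (by norm_num), Real.rpow_natCast]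
      congr 1
      rw [show (8 : ℝ) = 2 ^ (3 : ℝ) by norm_num, ← Real.rpow_mul (by norm_num)]
      norm_num
    rw [h3, Real.log_pow] at h2
    have h4 : ((1 : ℝ) / 2) ^ j * (c * 2 ^ j * (j * Real.log 8)) = c * (j * Real.log 8) := by
      have : ((1 : ℝ) / 2) ^ j * 2 ^ j = 1 := by
        rw [← mul_pow]; norm_num
      calc ((1 : ℝ) / 2) ^ j * (c * 2 ^ j * (j * Real.log 8))
          = (((1 : ℝ) / 2) ^ j * 2 ^ j) * (c * (j * Real.log 8)) := by ring
        _ = _ := by rw [this, one_mul]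
    rw [← h4]
    exact mul_le_mul_of_nonneg_left h2.le (by positivity)
  have hsum : (M : ℝ) * (c * (M * Real.log 8)) ≤ 8 * (J * Real.log 8) := by
    have h1 : ∑ j ∈ Finset.Ico M (J + 1), c * ((M : ℝ) * Real.log 8) ≤
        ∑ j ∈ Finset.range (J + 1), ((1 : ℝ) / 2) ^ j *
          ({i : ℕ | (L i : ℝ) < 8 ^ j}.ncard : ℝ) := by
      have hsub : Finset.Ico M (J + 1) ⊆ Finset.range (J + 1) := by
        intro j hj
        rw [Finset.mem_Ico] at hj
        rw [Finset.mem_range]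
        exact hj.2
      refine le_trans (Finset.sum_le_sum ?_) (Finset.sum_le_sum_of_subset_of_nonneg hsub ?_)
      · intro j hj
        rw [Finset.mem_Ico] at hj
        refine le_trans ?_ (hlower j (hMj.trans hj.1))
        have : (M : ℝ) ≤ j := by exact_mod_cast hj.1
        gcongr
      · intro j _ _
        positivity
    rw [Finset.sum_const, Nat.card_Ico, nsmul_eq_mul] at h1
    have h2 : (M : ℝ) ≤ ((J + 1 - M : ℕ) : ℝ) := by
      have : M ≤ J + 1 - M := by omega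
      exact_mod_cast this
    have h3 : (0 : ℝ) ≤ c * (M * Real.log 8) := by positivity
    calc (M : ℝ) * (c * (M * Real.log 8)) ≤ ((J + 1 - M : ℕ) : ℝ) * (c * (M * Real.log 8)) :=
          mul_le_mul_of_nonneg_right h2 h3
      _ ≤ _ := h1.trans hswap
  have hMr : (0 : ℝ) < M := by exact_mod_cast hM1
  have hcM : 16 < c * M := by
    have h1 : 16 / c < M := hM0.trans_le (by exact_mod_cast hMM)
    rw [div_lt_iff₀ hc] at h1
    linarith
  have hJr : (J : ℝ) = 2 * M := by rw [hJ]; push_cast; ring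
  rw [hJr] at hsum
  have hfin : (M * Real.log 8) * (c * M) ≤ (M * Real.log 8) * 16 := by linarith
  have hpos' : 0 < (M : ℝ) * Real.log 8 := by positivity
  have := le_of_mul_le_mul_left hfin hpos'
  linarith

end Pool.Agent.S10854
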