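import Pool.Statements.S10878
import Pool.Agent.Helper601.HKFinal

set_option autoImplicit false
open Pool Pool.MP_83c777_nt

namespace Pool.Agent.S10878

/-- The negation of the preceding statement: There are infinitely many natural numbers k, not prime powers, such that for every n ≥ 2k some n−i with 0 ≤ i < k divides the binomial coefficient C(n,k). -/
theorem result :
    ¬ (Set.Infinite {k : ℕ | ¬ IsPrimePow k ∧
      ∀ n : ℕ, 2 * k ≤ n → ∃ i : ℕ, i < k ∧ (n - i) ∣ n.choose k}) :=
  Pool.Agent.Helper601.HKZ.main

end Pool.Agent.S10878
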