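import Pool.Statements.S10900
import Mathlib

set_option autoImplicit false
open Pool Pool.MP_87cb84_nt

namespace Pool.Agent.S10900

open Finset

/-- The divisor bound `d(n) ≤ C n^δ`. -/
lemma divisor_bound (δ : ℝ) (hδ : 0 < δ) :
    ∃ C : ℝ, 0 < C ∧ ∀ n : ℕ, n ≠ 0 → ((n.divisors.card : ℕ) : ℝ) ≤ C * (n : ℝ) ^ δ := by
  have hlog : 0 < Real.log 2 := Real.log_pos (by norm_num)
  have hδl : 0 < δ * Real.log 2 := mul_pos hδ hlog
  set M : ℝ := max 1 (1 / (δ * Real.log 2)) with hM
  have hM1 : 1 ≤ M := le_max_left _ _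
  have hM2 : 1 ≤ M * (δ * Real.log 2) := by
    have : 1 / (δ * Real.log 2) ≤ M := le_max_right _ _
    calc (1 : ℝ) = 1 / (δ * Real.log 2) * (δ * Real.log 2) := by
          field_simp
      _ ≤ M * (δ * Real.log 2) := mul_le_mul_of_nonneg_right this hδl.le
  set K : ℕ := ⌈(2 : ℝ) ^ (1 / δ)⌉₊ with hK
  have hKle : (2 : ℝ) ^ (1 / δ) ≤ (K : ℝ) := Nat.le_ceil _
  refine ⟨M ^ K, by positivity, ?_⟩
  intro n hn
  have hbase : ∀ p ∈ n.primeFactors, (((n.factorization p + 1 : ℕ)) : ℝ) ≤
      (if p < K then M else 1) * (((p : ℝ) ^ (n.factorization p)) ^ δ) := by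
    intro p hp
    have hpp : p.Prime := Nat.prime_of_mem_primeFactors hp
    set a := n.factorization p with ha
    have hp2 : (2 : ℝ) ≤ (p : ℝ) := by exact_mod_cast hpp.two_le
    have hp0 : (0 : ℝ) ≤ (p : ℝ) := by positivity
    have hpow : (((p : ℝ) ^ a) ^ δ) = ((p : ℝ) ^ δ) ^ a := by
      rw [← Real.rpow_natCast (p : ℝ) a, ← Real.rpow_mul hp0, ← Real.rpow_natCast ((p : ℝ) ^ δ) a,
        ← Real.rpow_mul hp0, mul_comm]
    rw [hpow]
    split_ifs with hlt
    · have h1 : (2 : ℝ) ^ δ ≤ (p : ℝ) ^ δ := Real.rpow_le_rpow (by norm_num) hp2 hδ.le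
      have h2 : ((2 : ℝ) ^ δ) ^ a ≤ ((p : ℝ) ^ δ) ^ a :=
        pow_le_pow_left₀ (by positivity) h1 a
      have h3 : 1 + (a : ℝ) * (δ * Real.log 2) ≤ ((2 : ℝ) ^ δ) ^ a := by
        have : ((2 : ℝ) ^ δ) ^ a = Real.exp ((a : ℝ) * (δ * Real.log 2)) := by
          rw [← Real.rpow_natCast, ← Real.rpow_mul (by norm_num), Real.rpow_def_of_pos (by norm_num)]
          congr 1; ring
        rw [this]
        have := Real.add_one_le_exp ((a : ℝ) * (δ * Real.log 2))
        linarith
      have h4 : (((a + 1 : ℕ)) : ℝ) ≤ M * (1 + (a : ℝ) * (δ * Real.log 2)) := by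
        push_cast
        have ha0 : (0 : ℝ) ≤ (a : ℝ) := by positivity
        nlinarith [mul_le_mul_of_nonneg_left hM2 ha0]
      calc (((a + 1 : ℕ)) : ℝ) ≤ M * (1 + (a : ℝ) * (δ * Real.log 2)) := h4
        _ ≤ M * (((p : ℝ) ^ δ) ^ a) :=
          mul_le_mul_of_nonneg_left (h3.trans h2) (by linarith)
    · have hKp : (K : ℝ) ≤ (p : ℝ) := by exact_mod_cast not_lt.mp hlt
      have h1 : (2 : ℝ) ≤ (p : ℝ) ^ δ := by
        have h5 : ((2 : ℝ) ^ (1 / δ)) ^ δ ≤ (p : ℝ) ^ δ :=
          Real.rpow_le_rpow (by positivity) (hKle.trans hKp) hδ.le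
        have h6 : ((2 : ℝ) ^ (1 / δ)) ^ δ = 2 := by
          rw [← Real.rpow_mul (by norm_num)]
          rw [one_div, inv_mul_cancel₀ hδ.ne', Real.rpow_one]
        rwa [h6] at h5
      have h2 : (2 : ℝ) ^ a ≤ ((p : ℝ) ^ δ) ^ a := pow_le_pow_left₀ (by norm_num) h1 a
      have h3 : (((a + 1 : ℕ)) : ℝ) ≤ (2 : ℝ) ^ a := by
        have : a + 1 ≤ 2 ^ a := Nat.lt_two_pow_self
        exact_mod_cast this
      rw [one_mul]
      exact h3.trans h2
  have hn' : (n : ℝ) ^ δ = ∏ p ∈ n.primeFactors, (((p : ℝ) ^ (n.factorization p)) ^ δ) := by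
    rw [Real.finsetProd_rpow _ _ (fun i _ => by positivity)]
    congr 1
    have := Nat.prod_factorization_pow_eq_self hn
    conv_lhs => rw [← this]
    rw [Finsupp.prod]
    push_cast
    rfl
  rw [Nat.card_divisors hn]
  push_cast
  calc (∏ p ∈ n.primeFactors, ((n.factorization p : ℝ) + 1))
      ≤ ∏ p ∈ n.primeFactors, ((if p < K then M else 1) * (((p : ℝ) ^ (n.factorization p)) ^ δ)) := by
        apply Finset.prod_le_prod
        · intro i _; positivity
        · intro i hi
          have := hbase i hi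
          push_cast at this
          exact this
    _ = (∏ p ∈ n.primeFactors, (if p < K then M else 1)) * (n : ℝ) ^ δ := by
        rw [Finset.prod_mul_distrib, hn']
    _ ≤ M ^ K * (n : ℝ) ^ δ := by
        apply mul_le_mul_of_nonneg_right _ (by positivity)
        rw [Finset.prod_ite, Finset.prod_const, Finset.prod_const_one, mul_one]
        apply pow_le_pow_right₀ hM1
        calc (n.primeFactors.filter (fun p => p < K)).card ≤ (Finset.range K).card := by
              apply Finset.card_le_card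
              intro x hx
              simp only [Finset.mem_filter] at hx
              exact Finset.mem_range.mpr hx.2
          _ = K := Finset.card_range K

/-- Sum over multisets with parts in `s` of a multiplicative weight. -/
lemma mset_sum_le (w : ℕ → ℝ) (hw0 : ∀ x, 0 ≤ w x) (hw1 : ∀ x, w x < 1) (s : Finset ℕ) :
    ∀ T : Finset (Multiset ℕ), (∀ t ∈ T, ∀ x ∈ t, x ∈ s) →
      ∑ t ∈ T, (t.map w).prod ≤ ∏ x ∈ s, (1 - w x)⁻¹ := by
  have hnn : ∀ t : Multiset ℕ, 0 ≤ (t.map w).prod := by
    intro t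
    apply Multiset.prod_nonneg
    intro a ha
    obtain ⟨b, _, rfl⟩ := Multiset.mem_map.mp ha
    exact hw0 b
  induction s using Finset.induction_on with
  | empty =>
    intro T hT
    have hsub : T ⊆ {0} := by
      intro t ht
      rw [Finset.mem_singleton]
      apply Multiset.eq_zero_of_forall_notMem
      intro x hx
      exact absurd (hT t ht x hx) (Finset.notMem_empty x)
    calc ∑ t ∈ T, (t.map w).prod ≤ ∑ t ∈ ({0} : Finset (Multiset ℕ)), (t.map w).prod :=
          Finset.sum_le_sum_of_subset_of_nonneg hsub (fun t _ _ => hnn t)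
      _ = 1 := by simp
      _ ≤ _ := by simp
  | insert a s ha ih =>
    intro T hT
    let φ : Multiset ℕ → ℕ × Multiset ℕ := fun t => (t.count a, t.filter (fun x => x ≠ a))
    have hφ : ∀ t : Multiset ℕ, t = Multiset.replicate (t.count a) a + t.filter (fun x => x ≠ a) := by
      intro t
      conv_lhs => rw [← Multiset.filter_add_not (fun x => x = a) t]
      rw [Multiset.filter_eq']
    have hinj : Function.Injective φ := by
      intro t1 t2 h
      rw [hφ t1, hφ t2]
      have h1 := congrArg Prod.fst h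
      have h2 := congrArg Prod.snd h
      simp only [φ] at h1 h2
      rw [h1, h2]
    have hval : ∀ t : Multiset ℕ, (t.map w).prod =
        (w a) ^ (φ t).1 * ((φ t).2.map w).prod := by
      intro t
      conv_lhs => rw [hφ t]
      rw [Multiset.map_add, Multiset.prod_add, Multiset.map_replicate, Multiset.prod_replicate]
    obtain ⟨J, hJ⟩ : ∃ J : ℕ, ∀ t ∈ T, t.count a < J := by
      refine ⟨T.sup (fun t => t.count a) + 1, fun t ht => ?_⟩
      exact Nat.lt_succ_of_le (Finset.le_sup (f := fun t : Multiset ℕ => t.count a) ht)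
    set T' : Finset (Multiset ℕ) := T.image (fun t => t.filter (fun x => x ≠ a)) with hT'
    have hT'mem : ∀ t ∈ T', ∀ x ∈ t, x ∈ s := by
      intro t ht x hx
      rw [hT', Finset.mem_image] at ht
      obtain ⟨t0, ht0, rfl⟩ := ht
      rw [Multiset.mem_filter] at hx
      have := hT t0 ht0 x hx.1
      rw [Finset.mem_insert] at this
      rcases this with h | h
      · exact absurd h hx.2
      · exact h
    calc ∑ t ∈ T, (t.map w).prod
        = ∑ t ∈ T, ((w a) ^ (φ t).1 * ((φ t).2.map w).prod) :=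
          Finset.sum_congr rfl (fun t _ => hval t)
      _ = ∑ q ∈ T.image φ, ((w a) ^ q.1 * (q.2.map w).prod) := by
          rw [Finset.sum_image (fun x _ y _ h => hinj h)]
      _ ≤ ∑ q ∈ (Finset.range J) ×ˢ T', ((w a) ^ q.1 * (q.2.map w).prod) := by
          apply Finset.sum_le_sum_of_subset_of_nonneg
          · intro q hq
            rw [Finset.mem_image] at hq
            obtain ⟨t, ht, rfl⟩ := hq
            rw [Finset.mem_product]
            refine ⟨Finset.mem_range.mpr (hJ t ht), ?_⟩
            rw [hT', Finset.mem_image]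
            exact ⟨t, ht, rfl⟩
          · intro q _ _
            exact mul_nonneg (pow_nonneg (hw0 a) _) (hnn _)
      _ = (∑ j ∈ Finset.range J, (w a) ^ j) * ∑ t ∈ T', (t.map w).prod := by
          rw [Finset.sum_product, Finset.sum_mul_sum]
      _ ≤ (1 - w a)⁻¹ * ∏ x ∈ s, (1 - w x)⁻¹ := by
          apply mul_le_mul
          · have h1 : 0 < 1 - w a := by linarith [hw1 a]
            rw [geom_sum_eq (by linarith [hw1 a])]
            rw [div_le_iff_of_neg (by linarith [hw1 a])]
            have h2 : (1 - w a)⁻¹ * (w a - 1) = -1 := by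
              field_simp
              ring
            rw [h2]
            have := pow_nonneg (hw0 a) J
            linarith
          · exact ih T' hT'mem
          · exact Finset.sum_nonneg (fun t _ => hnn t)
          · exact inv_nonneg.mpr (by linarith [hw1 a])
      _ = ∏ x ∈ insert a s, (1 - w x)⁻¹ := by
          rw [Finset.prod_insert ha]

lemma factorisation_sum (σ : ℝ) (hσ : 1 < σ) :
    ∃ C : ℝ, 0 < C ∧ ∀ T : Finset (Multiset ℕ), (∀ t ∈ T, ∀ x ∈ t, 2 ≤ x) →
      ∑ t ∈ T, ((t.prod : ℕ) : ℝ) ^ (-σ) ≤ C := by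
  have hsum : Summable (fun n : ℕ => (n : ℝ) ^ (-σ)) := Real.summable_nat_rpow.mpr (by linarith)
  refine ⟨Real.exp (2 * ∑' n : ℕ, (n : ℝ) ^ (-σ)), Real.exp_pos _, ?_⟩
  intro T hT
  let w : ℕ → ℝ := fun x => if 2 ≤ x then (x : ℝ) ^ (-σ) else 0
  have hw0 : ∀ x, 0 ≤ w x := by
    intro x; simp only [w]; split_ifs
    · positivity
    · exact le_refl 0
  have hwhalf : ∀ x, w x ≤ 1 / 2 := by
    intro x; simp only [w]; split_ifs with h
    · have h2 : (2 : ℝ) ≤ (x : ℝ) := by exact_mod_cast h
      calc (x : ℝ) ^ (-σ) ≤ (x : ℝ) ^ (-1 : ℝ) :=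
            Real.rpow_le_rpow_of_exponent_le (by linarith) (by linarith)
        _ = 1 / (x : ℝ) := by rw [Real.rpow_neg_one, one_div]
        _ ≤ 1 / 2 := one_div_le_one_div_of_le (by norm_num) h2
    · norm_num
  have hw1 : ∀ x, w x < 1 := fun x => lt_of_le_of_lt (hwhalf x) (by norm_num)
  have hwle : ∀ x, w x ≤ (x : ℝ) ^ (-σ) := by
    intro x; simp only [w]; split_ifs
    · exact le_refl _
    · positivity
  have hval : ∀ t : Multiset ℕ, (∀ x ∈ t, 2 ≤ x) → ((t.prod : ℕ) : ℝ) ^ (-σ) = (t.map w).prod := by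
    intro t
    induction t using Multiset.induction_on with
    | empty => intro _; simp
    | cons a t ih =>
      intro h
      have ha : 2 ≤ a := h a (Multiset.mem_cons_self a t)
      rw [Multiset.prod_cons, Multiset.map_cons, Multiset.prod_cons,
        ← ih (fun x hx => h x (Multiset.mem_cons_of_mem hx))]
      rw [Nat.cast_mul, Real.mul_rpow (Nat.cast_nonneg a) (Nat.cast_nonneg _)]
      simp only [w, ha, if_true]
  set s : Finset ℕ := T.biUnion (fun t => t.toFinset) with hs
  have hTs : ∀ t ∈ T, ∀ x ∈ t, x ∈ s := by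
    intro t ht x hx
    rw [hs, Finset.mem_biUnion]
    exact ⟨t, ht, Multiset.mem_toFinset.mpr hx⟩
  calc ∑ t ∈ T, ((t.prod : ℕ) : ℝ) ^ (-σ) = ∑ t ∈ T, (t.map w).prod :=
        Finset.sum_congr rfl (fun t ht => hval t (hT t ht))
    _ ≤ ∏ x ∈ s, (1 - w x)⁻¹ := mset_sum_le w hw0 hw1 s T hTs
    _ ≤ ∏ x ∈ s, Real.exp (2 * w x) := by
        apply Finset.prod_le_prod
        · intro x _; exact inv_nonneg.mpr (by linarith [hw1 x])
        · intro x _
          have h1 : 0 < 1 - w x := by linarith [hw1 x]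
          have h2 : 1 + 2 * w x ≤ Real.exp (2 * w x) := by
            have := Real.add_one_le_exp (2 * w x); linarith
          refine le_trans ?_ h2
          rw [inv_le_iff_one_le_mul₀ h1]
          nlinarith [hw0 x, hwhalf x]
    _ = Real.exp (2 * ∑ x ∈ s, w x) := by
        rw [← Real.exp_sum, Finset.mul_sum]
    _ ≤ Real.exp (2 * ∑' n : ℕ, (n : ℝ) ^ (-σ)) := by
        apply Real.exp_le_exp.mpr
        apply mul_le_mul_of_nonneg_left _ (by norm_num)
        calc ∑ x ∈ s, w x ≤ ∑ x ∈ s, (x : ℝ) ^ (-σ) := Finset.sum_le_sum (fun x _ => hwle x)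
          _ ≤ ∑' n : ℕ, (n : ℝ) ^ (-σ) := hsum.sum_le_tsum s (fun i _ => by positivity)

/-- `∑ (x - 1) + 1 ≤ ∏ x` for positive integers. -/
lemma sum_pred_le_prod (t : Multiset ℕ) (h : ∀ x ∈ t, 1 ≤ x) :
    (t.map (fun x => x - 1)).sum + 1 ≤ t.prod := by
  induction t using Multiset.induction_on with
  | empty => simp
  | cons a t ih =>
    have ha : 1 ≤ a := h a (Multiset.mem_cons_self a t)
    have ih' := ih (fun x hx => h x (Multiset.mem_cons_of_mem hx))
    rw [Multiset.map_cons, Multiset.sum_cons, Multiset.prod_cons]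
    have hp : 1 ≤ t.prod := by omega
    obtain ⟨b, rfl⟩ : ∃ b, a = b + 1 := ⟨a - 1, by omega⟩
    simp only [Nat.add_sub_cancel]
    nlinarith

/-- sum = (sum of preds) + card. -/
lemma sum_eq_pred (t : Multiset ℕ) (h : ∀ x ∈ t, 1 ≤ x) :
    t.sum = (t.map (fun x => x - 1)).sum + Multiset.card t := by
  induction t using Multiset.induction_on with
  | empty => simp
  | cons a t ih =>
    have ha : 1 ≤ a := h a (Multiset.mem_cons_self a t)
    have ih' := ih (fun x hx => h x (Multiset.mem_cons_of_mem hx))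
    rw [Multiset.map_cons, Multiset.sum_cons, Multiset.sum_cons, Multiset.card_cons]
    omega

/-- If the multiset of numbers `≥ 2` has at least two elements then `2 ∑ (x-1) ≤ ∏ x`. -/
lemma two_sum_pred_le (a b : ℕ) (u : Multiset ℕ) (h : ∀ x ∈ a ::ₘ b ::ₘ u, 2 ≤ x) :
    2 * ((a ::ₘ b ::ₘ u).map (fun x => x - 1)).sum ≤ (a ::ₘ b ::ₘ u).prod := by
  have ha : 2 ≤ a := h a (Multiset.mem_cons_self _ _)
  have hu : ∀ x ∈ b ::ₘ u, 1 ≤ x := fun x hx => by
    have := h x (Multiset.mem_cons_of_mem hx); omega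
  have h1 := sum_pred_le_prod (b ::ₘ u) hu
  have hb : 2 ≤ b := h b (Multiset.mem_cons_of_mem (Multiset.mem_cons_self _ _))
  have h2 : 2 ≤ (b ::ₘ u).prod := by
    rw [Multiset.map_cons, Multiset.sum_cons] at h1
    omega
  rw [Multiset.map_cons, Multiset.sum_cons, Multiset.prod_cons]
  obtain ⟨a', rfl⟩ : ∃ a', a = a' + 2 := ⟨a - 2, by omega⟩
  obtain ⟨R', hR'⟩ : ∃ R', (b ::ₘ u).prod = R' + 2 := ⟨(b ::ₘ u).prod - 2, by omega⟩
  rw [hR'] at h1 ⊢
  have : a' + 2 - 1 = a' + 1 := by omega
  rw [this]
  nlinarith [Nat.zero_le (a' * R')]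

/-- The core arithmetic: bounds for the cofactor multiset. -/
lemma core (p : ℕ) (hp : 2 ≤ p) (t : Multiset ℕ) (ht : ∀ x ∈ t, 2 ≤ x) (w : ℕ) (hw : 1 ≤ w)
    (heq : w * t.prod = p * w + ((t.map (fun x => x - 1)).sum + (p - 1))) :
    p < t.prod ∧ t.prod ≤ 4 * p ∧ w * (t.prod - p) = (t.map (fun x => x - 1)).sum + (p - 1) := by
  have h1 : p < t.prod := by
    by_contra hcon
    push Not at hcon
    have : w * t.prod ≤ w * p := Nat.mul_le_mul_left w hcon
    have h2 : w * p = p * w := mul_comm _ _
    omega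
  obtain ⟨D, hD⟩ : ∃ D, t.prod = p + D := ⟨t.prod - p, by omega⟩
  have hD1 : 1 ≤ D := by omega
  have h3 : w * D = (t.map (fun x => x - 1)).sum + (p - 1) := by
    rw [hD] at heq
    have : w * (p + D) = p * w + w * D := by ring
    omega
  refine ⟨h1, ?_, ?_⟩
  · induction t using Multiset.induction_on with
    | empty =>
      simp at h1; omega
    | cons a t _ =>
      induction t using Multiset.induction_on with
      | empty =>
        simp only [Multiset.cons_zero, Multiset.prod_singleton, Multiset.map_singleton,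
          Multiset.sum_singleton] at *
        -- a = p + D, w * D = (a - 1) + (p - 1)
        have hw2 : 2 ≤ w := by
          by_contra hcon
          have : w = 1 := by omega
          subst this
          omega
        have : 2 * D ≤ w * D := Nat.mul_le_mul_right D hw2
        omega
      | cons b u _ =>
        have h4 := two_sum_pred_le a b u ht
        have h5 : D ≤ w * D := Nat.le_mul_of_pos_left D hw
        omega
  · rw [hD, Nat.add_sub_cancel_left]; exact h3

def Good (p : ℕ) (t : Multiset ℕ) : Prop :=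
  (∀ x ∈ t, 2 ≤ x) ∧ p < t.prod ∧ t.prod ≤ 4 * p ∧
    (t.prod - p) ∣ (t.prod + (t.map (fun x => x - 1)).sum - 1)

def recov (p : ℕ) (t : Multiset ℕ) : Multiset ℕ :=
  (p * (((t.map (fun x => x - 1)).sum + (p - 1)) / (t.prod - p))) ::ₘ
    (t + Multiset.replicate (p - 1 - Multiset.card t) 1)

/-- Every solution for a prime `p` comes from a good multiset. -/
lemma exists_good (p : ℕ) (hp : p.Prime) (s : Multiset ℕ)
    (hs : Multiset.card s = p ∧ (∀ x ∈ s, 0 < x) ∧ s.prod = p * s.sum) :
    ∃ t, Good p t ∧ recov p t = s := by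
  obtain ⟨hcard, hpos, hprod⟩ := hs
  have hp2 : 2 ≤ p := hp.two_le
  obtain ⟨x0, hx0s, hx0⟩ := (hp.prime).exists_mem_multiset_dvd (s := s) (by rw [hprod]; exact dvd_mul_right _ _)
  obtain ⟨w, rfl⟩ := hx0
  have hx0pos := hpos _ hx0s
  have hw : 1 ≤ w := by
    rcases Nat.eq_zero_or_pos w with h | h
    · subst h; simp at hx0pos
    · exact h
  obtain ⟨s', rfl⟩ := Multiset.exists_cons_of_mem hx0s
  have hs'pos : ∀ x ∈ s', 1 ≤ x := fun x hx => hpos x (Multiset.mem_cons_of_mem hx)
  have hs'card : Multiset.card s' = p - 1 := by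
    rw [Multiset.card_cons] at hcard; omega
  set t := s'.filter (fun x => 2 ≤ x) with ht
  have hone : s'.filter (fun x => ¬ 2 ≤ x) = Multiset.replicate (p - 1 - Multiset.card t) 1 := by
    rw [Multiset.eq_replicate]
    constructor
    · have h1 : Multiset.card (s'.filter (fun x => 2 ≤ x)) + Multiset.card (s'.filter (fun x => ¬ 2 ≤ x))
          = Multiset.card s' := by
        rw [← Multiset.card_add, Multiset.filter_add_not]
      rw [← ht] at h1
      omega
    · intro b hb
      rw [Multiset.mem_filter] at hb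
      have := hs'pos b hb.1
      omega
  have hdecomp : s' = t + Multiset.replicate (p - 1 - Multiset.card t) 1 := by
    rw [← hone, ht, Multiset.filter_add_not]
  have hprod' : s'.prod = t.prod := by
    conv_lhs => rw [hdecomp]
    rw [Multiset.prod_add, Multiset.prod_replicate, one_pow, mul_one]
  have hsumpred : (s'.map (fun x => x - 1)).sum = (t.map (fun x => x - 1)).sum := by
    conv_lhs => rw [hdecomp]
    rw [Multiset.map_add, Multiset.sum_add, Multiset.map_replicate, Multiset.sum_replicate]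
    simp
  have ht2 : ∀ x ∈ t, 2 ≤ x := by
    intro x hx
    rw [ht, Multiset.mem_filter] at hx
    exact hx.2
  have heq : w * t.prod = p * w + ((t.map (fun x => x - 1)).sum + (p - 1)) := by
    rw [Multiset.prod_cons, Multiset.sum_cons, hprod', sum_eq_pred s' hs'pos, hsumpred, hs'card,
      mul_assoc] at hprod
    exact Nat.eq_of_mul_eq_mul_left hp.pos hprod
  obtain ⟨h1, h2, h3⟩ := core p hp2 t ht2 w hw heq
  have hDpos : 0 < t.prod - p := by omega
  refine ⟨t, ⟨ht2, h1, h2, ?_⟩, ?_⟩
  · have h4 : t.prod + (t.map (fun x => x - 1)).sum - 1 =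
        (t.prod - p) + ((t.map (fun x => x - 1)).sum + (p - 1)) := by omega
    rw [h4, ← h3]
    exact Dvd.dvd.add (dvd_refl _) (dvd_mul_left _ _)
  · rw [recov, ← h3, Nat.mul_div_cancel _ hDpos, ← hdecomp]

/-- Finiteness of the factorisations with product at most `Y`. -/
lemma finite_prod_le (Y : ℕ) : {t : Multiset ℕ | (∀ x ∈ t, 2 ≤ x) ∧ t.prod ≤ Y}.Finite := by
  apply (Set.finite_Iic (Y • (Finset.range (Y + 1)).val)).subset
  rintro t ⟨ht2, htY⟩
  have hcard : Multiset.card t ≤ Y := by
    have h1 := sum_pred_le_prod t (fun x hx => by have := ht2 x hx; omega)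
    have h2 : Multiset.card t ≤ (t.map (fun x => x - 1)).sum := by
      have := Multiset.card_nsmul_le_sum (s := t.map (fun x => x - 1)) (a := 1) (by
        intro x hx
        obtain ⟨y, hy, rfl⟩ := Multiset.mem_map.mp hx
        have := ht2 y hy; omega)
      simpa using this
    omega
  rw [Set.mem_Iic, Multiset.le_iff_count]
  intro a
  rw [Multiset.count_nsmul]
  by_cases ha : a ∈ t
  · have haY : a ≤ Y := by
      have h1 : a ∣ t.prod := Multiset.dvd_prod ha
      have h2 : 0 < t.prod := Multiset.prod_pos (fun x hx => by have := ht2 x hx; omega)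
      exact (Nat.le_of_dvd h2 h1).trans htY
    have h3 : Multiset.count a (Finset.range (Y + 1)).val = 1 := by
      apply Multiset.count_eq_one_of_mem (Finset.range (Y + 1)).nodup
      exact Finset.mem_range.mpr (by omega)
    rw [h3, mul_one]
    exact (Multiset.count_le_card a t).trans hcard
  · rw [Multiset.count_eq_zero_of_notMem ha]
    exact Nat.zero_le _

/-- The negation of the preceding statement: There is ε > 0 such that for all large n, the number of multisets of n positive integers whose product equals n times their sum exceeds n^ε. -/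
theorem result :
    ¬ (∃ ε : ℝ, 0 < ε ∧ ∃ N : ℕ, ∀ n : ℕ, N ≤ n →
      (n : ℝ) ^ ε <
        (({s : Multiset ℕ | Multiset.card s = n ∧ (∀ x ∈ s, 0 < x) ∧
            s.prod = n * s.sum}.ncard : ℕ) : ℝ)) := by
  classical
  rintro ⟨ε, hε, N, hN⟩
  obtain ⟨C1, hC1, hdiv⟩ := divisor_bound (ε / 2) (by positivity)
  obtain ⟨C2, hC2, hfac⟩ := factorisation_sum (1 + ε / 2) (by linarith)
  -- key bound for finite sets of primes
  set B : ℝ := C1 * (2 : ℝ) ^ (ε / 2) * (4 : ℝ) ^ (1 + ε) * C2 with hB
  have hB0 : 0 ≤ B := by positivity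
  have key : ∀ F : Finset ℕ, (∀ p ∈ F, p.Prime ∧ N ≤ p) → ∑ p ∈ F, (1 : ℝ) / (p : ℝ) ≤ B := by
    intro F hF
    set Y : ℕ := 4 * F.sup id with hY
    set T : Finset (Multiset ℕ) := (finite_prod_le Y).toFinset with hT
    have hTmem : ∀ t, t ∈ T ↔ ((∀ x ∈ t, 2 ≤ x) ∧ t.prod ≤ Y) := by
      intro t; rw [hT, Set.Finite.mem_toFinset]; rfl
    -- number of solutions bound
    have hcount : ∀ p ∈ F, {s : Multiset ℕ | Multiset.card s = p ∧ (∀ x ∈ s, 0 < x) ∧
            s.prod = p * s.sum}.ncard ≤ (T.filter (fun t => Good p t)).card := by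
      intro p hpF
      have hpp := (hF p hpF).1
      have hsub : {s : Multiset ℕ | Multiset.card s = p ∧ (∀ x ∈ s, 0 < x) ∧
            s.prod = p * s.sum} ⊆ (((T.filter (fun t => Good p t)).image (recov p) :
              Finset (Multiset ℕ)) : Set (Multiset ℕ)) := by
        intro s hs
        obtain ⟨t, htg, hts⟩ := exists_good p hpp s hs
        rw [Finset.mem_coe, Finset.mem_image]
        refine ⟨t, ?_, hts⟩
        rw [Finset.mem_filter]
        refine ⟨(hTmem t).mpr ⟨htg.1, ?_⟩, htg⟩
        have h1 : p ≤ F.sup id := Finset.le_sup (f := id) hpF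
        have h2 := htg.2.2.1
        omega
      calc _ ≤ (((T.filter (fun t => Good p t)).image (recov p) :
              Finset (Multiset ℕ)) : Set (Multiset ℕ)).ncard :=
            Set.ncard_le_ncard hsub (Finset.finite_toSet _)
        _ = ((T.filter (fun t => Good p t)).image (recov p)).card := Set.ncard_coe_finset _
        _ ≤ _ := Finset.card_image_le
    have hstep1 : ∀ p ∈ F, (1 : ℝ) / (p : ℝ) ≤
        ∑ t ∈ T, if Good p t then (4 : ℝ) ^ (1 + ε) * ((t.prod : ℕ) : ℝ) ^ (-(1 + ε)) else 0 := by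
      intro p hpF
      obtain ⟨hpp, hpN⟩ := hF p hpF
      have hp0 : (0 : ℝ) < (p : ℝ) := by exact_mod_cast hpp.pos
      have h1 := hN p hpN
      have h2 : (p : ℝ) ^ ε ≤ ((T.filter (fun t => Good p t)).card : ℝ) := by
        refine h1.le.trans ?_
        exact_mod_cast hcount p hpF
      have h3 : (1 : ℝ) / (p : ℝ) = (p : ℝ) ^ ε * (p : ℝ) ^ (-(1 + ε)) := by
        rw [← Real.rpow_add hp0]
        have : ε + -(1 + ε) = -1 := by ring
        rw [this, Real.rpow_neg_one, one_div]
      rw [h3]
      calc (p : ℝ) ^ ε * (p : ℝ) ^ (-(1 + ε))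
          ≤ ((T.filter (fun t => Good p t)).card : ℝ) * (p : ℝ) ^ (-(1 + ε)) :=
            mul_le_mul_of_nonneg_right h2 (by positivity)
        _ = ∑ t ∈ T.filter (fun t => Good p t), (p : ℝ) ^ (-(1 + ε)) := by
            rw [Finset.sum_const, nsmul_eq_mul]
        _ ≤ ∑ t ∈ T.filter (fun t => Good p t),
              (4 : ℝ) ^ (1 + ε) * ((t.prod : ℕ) : ℝ) ^ (-(1 + ε)) := by
            apply Finset.sum_le_sum
            intro t ht
            rw [Finset.mem_filter] at ht
            obtain ⟨_, hg⟩ := ht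
            have hR0 : (0 : ℝ) < ((t.prod : ℕ) : ℝ) := by
              have := hg.2.1
              have : 0 < t.prod := by omega
              exact_mod_cast this
            have hR : ((t.prod : ℕ) : ℝ) ≤ 4 * (p : ℝ) := by exact_mod_cast hg.2.2.1
            have h5 : (4 * (p : ℝ)) ^ (-(1 + ε)) ≤ ((t.prod : ℕ) : ℝ) ^ (-(1 + ε)) :=
              Real.rpow_le_rpow_of_nonpos hR0 hR (by linarith)
            have h6 : (p : ℝ) ^ (-(1 + ε)) = (4 : ℝ) ^ (1 + ε) * (4 * (p : ℝ)) ^ (-(1 + ε)) := by
              rw [Real.mul_rpow (by norm_num) hp0.le, ← mul_assoc, ← Real.rpow_add (by norm_num)]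
              simp
            rw [h6]
            exact mul_le_mul_of_nonneg_left h5 (by positivity)
        _ = _ := by rw [Finset.sum_filter]
    calc ∑ p ∈ F, (1 : ℝ) / (p : ℝ)
        ≤ ∑ p ∈ F, ∑ t ∈ T, (if Good p t then (4 : ℝ) ^ (1 + ε) * ((t.prod : ℕ) : ℝ) ^ (-(1 + ε)) else 0) :=
          Finset.sum_le_sum hstep1
      _ = ∑ t ∈ T, ∑ p ∈ F, (if Good p t then (4 : ℝ) ^ (1 + ε) * ((t.prod : ℕ) : ℝ) ^ (-(1 + ε)) else 0) :=
          Finset.sum_comm
      _ ≤ ∑ t ∈ T, (C1 * (2 : ℝ) ^ (ε / 2) * (4 : ℝ) ^ (1 + ε)) * ((t.prod : ℕ) : ℝ) ^ (-(1 + ε / 2)) := by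
          apply Finset.sum_le_sum
          intro t ht
          have ht2 := ((hTmem t).mp ht).1
          rw [← Finset.sum_filter, Finset.sum_const, nsmul_eq_mul]
          have hle1 := sum_pred_le_prod t (fun x hx => by have := ht2 x hx; omega)
          have hRpos : 0 < t.prod := by omega
          have hR0 : (0 : ℝ) < ((t.prod : ℕ) : ℝ) := by exact_mod_cast hRpos
          by_cases hR1 : t.prod = 1
          · have : F.filter (fun p => Good p t) = ∅ := by
              rw [Finset.filter_eq_empty_iff]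
              intro p hp hg
              have := (hF p hp).1.two_le
              have := hg.2.1
              omega
            rw [this]
            simp only [Finset.card_empty, Nat.cast_zero, zero_mul]
            positivity
          have hR2 : 2 ≤ t.prod := by omega
          set m := t.prod + (t.map (fun x => x - 1)).sum - 1 with hm
          have hm0 : m ≠ 0 := by omega
          have hm2 : m ≤ 2 * t.prod := by omega
          have hcardle : (F.filter (fun p => Good p t)).card ≤ m.divisors.card := by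
            apply Finset.card_le_card_of_injOn (fun p => t.prod - p)
            · intro p hp
              rw [Finset.mem_coe, Finset.mem_filter] at hp
              rw [Finset.mem_coe, Nat.mem_divisors]
              exact ⟨hp.2.2.2.2, hm0⟩
            · intro p hp q hq hpq
              rw [Finset.mem_coe, Finset.mem_filter] at hp hq
              have h1 := hp.2.2.1
              have h2 := hq.2.2.1
              simp only at hpq
              omega
          have hcard' : ((F.filter (fun p => Good p t)).card : ℝ) ≤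
              C1 * ((2 : ℝ) ^ (ε / 2) * ((t.prod : ℕ) : ℝ) ^ (ε / 2)) := by
            calc ((F.filter (fun p => Good p t)).card : ℝ) ≤ (m.divisors.card : ℝ) := by
                  exact_mod_cast hcardle
              _ ≤ C1 * (m : ℝ) ^ (ε / 2) := hdiv m hm0
              _ ≤ C1 * ((2 : ℝ) ^ (ε / 2) * ((t.prod : ℕ) : ℝ) ^ (ε / 2)) := by
                  apply mul_le_mul_of_nonneg_left _ hC1.le
                  rw [← Real.mul_rpow (by norm_num) hR0.le]
                  apply Real.rpow_le_rpow (by positivity) _ (by positivity)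
                  exact_mod_cast hm2
          calc ((F.filter (fun p => Good p t)).card : ℝ) *
                ((4 : ℝ) ^ (1 + ε) * ((t.prod : ℕ) : ℝ) ^ (-(1 + ε)))
              ≤ (C1 * ((2 : ℝ) ^ (ε / 2) * ((t.prod : ℕ) : ℝ) ^ (ε / 2))) *
                ((4 : ℝ) ^ (1 + ε) * ((t.prod : ℕ) : ℝ) ^ (-(1 + ε))) :=
                mul_le_mul_of_nonneg_right hcard' (by positivity)
            _ = (C1 * (2 : ℝ) ^ (ε / 2) * (4 : ℝ) ^ (1 + ε)) *
                (((t.prod : ℕ) : ℝ) ^ (ε / 2) * ((t.prod : ℕ) : ℝ) ^ (-(1 + ε))) := by ring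
            _ = (C1 * (2 : ℝ) ^ (ε / 2) * (4 : ℝ) ^ (1 + ε)) * ((t.prod : ℕ) : ℝ) ^ (-(1 + ε / 2)) := by
                rw [← Real.rpow_add hR0]
                congr 2; ring
      _ = (C1 * (2 : ℝ) ^ (ε / 2) * (4 : ℝ) ^ (1 + ε)) * ∑ t ∈ T, ((t.prod : ℕ) : ℝ) ^ (-(1 + ε / 2)) := by
          rw [Finset.mul_sum]
      _ ≤ (C1 * (2 : ℝ) ^ (ε / 2) * (4 : ℝ) ^ (1 + ε)) * C2 := by
          apply mul_le_mul_of_nonneg_left _ (by positivity)
          exact hfac T (fun t ht => ((hTmem t).mp ht).1)
      _ = B := by rw [hB]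
  -- contradiction with divergence of the sum of reciprocals of primes
  apply not_summable_one_div_on_primes
  apply summable_of_sum_le (c := (N : ℝ) + B)
  · intro n
    apply Set.indicator_nonneg
    intro x _
    positivity
  · intro u
    have hle : ∀ n ∈ u, Set.indicator {p : ℕ | p.Prime} (fun n : ℕ => (1 : ℝ) / n) n ≤
        (if n < N then 1 else 0) + (if (n.Prime ∧ N ≤ n) then (1 : ℝ) / n else 0) := by
      intro n _
      by_cases hpn : n.Prime
      · rw [Set.indicator_of_mem (show n ∈ {p : ℕ | p.Prime} from hpn)]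
        by_cases hnN : n < N
        · rw [if_pos hnN, if_neg (by omega)]
          rw [add_zero]
          have : (1 : ℝ) ≤ (n : ℝ) := by exact_mod_cast hpn.one_le
          rw [div_le_one (by linarith)]
          exact this
        · rw [if_neg hnN, if_pos ⟨hpn, by omega⟩, zero_add]
      · rw [Set.indicator_of_notMem (show n ∉ {p : ℕ | p.Prime} from hpn)]
        rw [if_neg (show ¬ (n.Prime ∧ N ≤ n) from fun h => hpn h.1), add_zero]
        split_ifs <;> norm_num
    calc ∑ n ∈ u, Set.indicator {p : ℕ | p.Prime} (fun n : ℕ => (1 : ℝ) / n) n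
        ≤ ∑ n ∈ u, ((if n < N then 1 else 0) + (if (n.Prime ∧ N ≤ n) then (1 : ℝ) / n else 0)) :=
          Finset.sum_le_sum hle
      _ = (∑ n ∈ u, (if n < N then (1 : ℝ) else 0)) +
          ∑ n ∈ u, (if (n.Prime ∧ N ≤ n) then (1 : ℝ) / n else 0) := Finset.sum_add_distrib
      _ ≤ (N : ℝ) + B := by
          apply add_le_add
          · rw [← Finset.sum_filter, Finset.sum_const, nsmul_eq_mul, mul_one]
            have : (u.filter (fun n => n < N)).card ≤ (Finset.range N).card := by
              apply Finset.card_le_card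
              intro x hx
              rw [Finset.mem_filter] at hx
              exact Finset.mem_range.mpr hx.2
            rw [Finset.card_range] at this
            exact_mod_cast this
          · rw [← Finset.sum_filter]
            apply key
            intro p hp
            rw [Finset.mem_filter] at hp
            exact hp.2

end Pool.Agent.S10900
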