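import Pool.Statements.S10905
import Pool.Agent.Helper919.Cov.Tail
import Pool.Agent.Helper919.Cov.CertB

set_option autoImplicit false
open Pool Pool.MP_88d7a5_nt

namespace Pool.Agent.S10905

open Pool.Agent.Helper919.Cov in
/-- Every finite covering of the integers by residue classes with distinct moduli at least 2, none even and none divisible by 9, must use some modulus divisible by 15. -/
theorem result :
    ∀ (S : Finset ℕ) (r : ℕ → ℤ),
      (∀ m ∈ S, 2 ≤ m) →
      (∀ m ∈ S, ¬ (2 ∣ m)) →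
      (∀ m ∈ S, ¬ (9 ∣ m)) →
      (∀ x : ℤ, ∃ m ∈ S, x ≡ r m [ZMOD (m : ℤ)]) →
      ∃ m ∈ S, 15 ∣ m := by
  intro S r h2 hodd h9 hcov
  refine reduce ?_ S r h2 hodd h9 hcov
  intro M
  refine ⟨2 ^ (M + 16), M + 34, ?_, by omega, ?_⟩
  · have : M < 2 ^ M := Nat.lt_two_pow_self
    have h3 : 2 ^ M ≤ 2 ^ (M + 16) := Nat.pow_le_pow_right (by norm_num) (by omega)
    omega
  · exact total_lt (M + 34) (b65536 (M + 34) (by omega)) (M + 16) (by omega)

end Pool.Agent.S10905
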