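import Pool.Statements.S11004

set_option autoImplicit false
open Pool Pool.MP_9b3484_nt

namespace Pool.Agent.S11004


/-- largest exponent with 2^(f n) at most 3^n -/
def f (n : ℕ) : ℕ := Nat.log 2 (3 ^ n)

noncomputable def y (n : ℕ) : ℝ := (3 : ℝ) ^ n / 2 ^ f n

lemma pow_f_le (n : ℕ) : 2 ^ f n ≤ 3 ^ n := Nat.pow_log_le_self 2 (by positivity)

lemma lt_pow_f (n : ℕ) : 3 ^ n < 2 ^ (f n + 1) := Nat.lt_pow_succ_log_self (by norm_num) _

lemma one_le_y (n : ℕ) : 1 ≤ y n := by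
  unfold y
  rw [one_le_div (by positivity)]
  exact_mod_cast pow_f_le n

lemma y_lt_two (n : ℕ) : y n < 2 := by
  unfold y
  rw [div_lt_iff₀ (by positivity)]
  have := lt_pow_f n
  have h : ((3 ^ n : ℕ) : ℝ) < ((2 ^ (f n + 1) : ℕ) : ℝ) := by exact_mod_cast this
  push_cast at h
  rw [pow_succ] at h
  linarith

lemma f_mono {n n' : ℕ} (h : n ≤ n') : f n ≤ f n' := by
  unfold f
  exact Nat.log_mono_right (Nat.pow_le_pow_right (by norm_num) h)

/-- the bad set at scale i : a rational with denominator in [2^(4^i), 2^(4^(i+1))) very close to y n -/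
def Bad (i n : ℕ) : Prop :=
  ∃ (a : ℤ) (b : ℕ), 2 ^ 4 ^ i ≤ b ∧ b < 2 ^ 4 ^ (i + 1) ∧ |y n - a / b| < 1 / (b : ℝ) ^ 136

/-- two bad exponents at the same scale that are not far apart are close: their quotient is forced to be a power of three over a power of two of small height -/
lemma cluster (i n k : ℕ) (_hk0 : 0 < k) (hk : k < 4 ^ (i + 3)) (h1 : Bad i n)
    (h2 : Bad i (n + k)) : k < 4 ^ (i + 2) := by
  obtain ⟨a, b, hb1, hb2, hab⟩ := h1
  obtain ⟨a', b', hb1', hb2', hab'⟩ := h2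
  obtain ⟨m, hm⟩ : ∃ m, f (n + k) = f n + m := ⟨f (n + k) - f n, by
    have := f_mono (Nat.le_add_right n k); omega⟩
  set β : ℕ := 2 ^ 4 ^ i with hβ
  have hβ2 : 2 ≤ β := by
    have : 2 ^ 1 ≤ 2 ^ 4 ^ i := Nat.pow_le_pow_right (by norm_num) (Nat.one_le_pow _ _ (by norm_num))
    simpa using this
  have hβ4 : 2 ^ 4 ^ (i + 1) = β ^ 4 := by
    rw [hβ, ← pow_mul, ← pow_succ]
  rw [hβ4] at hb2 hb2'
  -- F1
  have F1 : 2 ^ m < 2 * 3 ^ k := by
    have e1 := pow_f_le (n + k)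
    rw [hm, pow_add, pow_add] at e1
    have e2 := lt_pow_f n
    rw [pow_succ] at e2
    have e3 : 2 ^ f n * 2 ^ m < 2 ^ f n * (2 * 3 ^ k) := by
      calc 2 ^ f n * 2 ^ m ≤ 3 ^ n * 3 ^ k := e1
        _ < 2 ^ f n * 2 * 3 ^ k := by
            exact Nat.mul_lt_mul_of_pos_right e2 (by positivity)
        _ = 2 ^ f n * (2 * 3 ^ k) := by ring
    exact lt_of_mul_lt_mul_left e3 (Nat.zero_le _)
  have F2 : 3 ^ k < 2 ^ (m + 1) := by
    have e1 := lt_pow_f (n + k)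
    rw [hm, pow_add, show f n + m + 1 = f n + (m + 1) by ring, pow_add] at e1
    have e2 := pow_f_le n
    have e3 : 2 ^ f n * 3 ^ k < 2 ^ f n * 2 ^ (m + 1) := by
      calc 2 ^ f n * 3 ^ k ≤ 3 ^ n * 3 ^ k := Nat.mul_le_mul_right _ e2
        _ < 2 ^ f n * 2 ^ (m + 1) := e1
    exact lt_of_mul_lt_mul_left e3 (Nat.zero_le _)
  have hkm : k ≤ m := by
    by_contra hc
    have : m + 1 ≤ k := by omega
    have e1 : 2 ^ (m + 1) ≤ 2 ^ k := Nat.pow_le_pow_right (by norm_num) this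
    have e2 : 2 ^ k ≤ 3 ^ k := Nat.pow_le_pow_left (by norm_num) _
    omega
  have F3 : 2 ^ m + 3 ^ k ≤ β ^ 128 := by
    have e1 : 2 ^ m + 3 ^ k ≤ 3 ^ (k + 1) := by rw [pow_succ]; omega
    have e2 : 3 ^ (k + 1) ≤ 3 ^ 4 ^ (i + 3) := Nat.pow_le_pow_right (by norm_num) hk
    have e3 : 3 ^ 4 ^ (i + 3) ≤ 4 ^ 4 ^ (i + 3) := Nat.pow_le_pow_left (by norm_num) _
    have e4 : 4 ^ 4 ^ (i + 3) = β ^ 128 := by
      have h64 : 4 ^ (i + 3) = 64 * 4 ^ i := by ring
      calc (4 : ℕ) ^ 4 ^ (i + 3) = 4 ^ (64 * 4 ^ i) := by rw [h64]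
        _ = (2 ^ 2) ^ (64 * 4 ^ i) := by norm_num
        _ = 2 ^ (2 * (64 * 4 ^ i)) := by rw [← pow_mul]
        _ = 2 ^ (4 ^ i * 128) := by congr 1; ring
        _ = β ^ 128 := by rw [hβ, ← pow_mul]
    omega
  have hb0 : (0 : ℝ) < b := by
    have : 0 < b := by omega
    exact_mod_cast this
  have hb0' : (0 : ℝ) < b' := by
    have : 0 < b' := by omega
    exact_mod_cast this
  have hβR : (2 : ℝ) ≤ β := by exact_mod_cast hβ2
  have hβ0 : (0 : ℝ) < β := by linarith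
  have hbβ : (β : ℝ) ≤ b := by exact_mod_cast hb1
  have hbβ' : (β : ℝ) ≤ b' := by exact_mod_cast hb1'
  have hc1 : 1 / (b : ℝ) ^ 136 ≤ 1 / (β : ℝ) ^ 136 :=
    one_div_le_one_div_of_le (by positivity) (pow_le_pow_left₀ hβ0.le hbβ _)
  have hc2 : 1 / (b' : ℝ) ^ 136 ≤ 1 / (β : ℝ) ^ 136 :=
    one_div_le_one_div_of_le (by positivity) (pow_le_pow_left₀ hβ0.le hbβ' _)
  have hyy : (2 : ℝ) ^ m * y (n + k) = 3 ^ k * y n := by
    unfold y
    rw [hm, pow_add, pow_add]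
    field_simp
  -- closeness
  have hclose : |(2 : ℝ) ^ m * (a' / b') - 3 ^ k * (a / b)| < 1 / (β : ℝ) ^ 8 := by
    have e1 : (2 : ℝ) ^ m * (a' / b') - 3 ^ k * (a / b)
        = -(2 ^ m * (y (n + k) - a' / b')) + 3 ^ k * (y n - a / b) := by
      linear_combination hyy
    have e2 : |(2 : ℝ) ^ m * (y (n + k) - a' / b')| < 2 ^ m * (1 / (β : ℝ) ^ 136) := by
      rw [abs_mul, abs_of_pos (by positivity : (0 : ℝ) < 2 ^ m)]
      exact mul_lt_mul_of_pos_left (lt_of_lt_of_le hab' hc2) (by positivity)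
    have e3 : |(3 : ℝ) ^ k * (y n - a / b)| < 3 ^ k * (1 / (β : ℝ) ^ 136) := by
      rw [abs_mul, abs_of_pos (by positivity : (0 : ℝ) < 3 ^ k)]
      exact mul_lt_mul_of_pos_left (lt_of_lt_of_le hab hc1) (by positivity)
    have e4 : |(2 : ℝ) ^ m * (a' / b') - 3 ^ k * (a / b)| < (2 ^ m + 3 ^ k) * (1 / (β : ℝ) ^ 136) := by
      rw [e1]
      calc |-(2 ^ m * (y (n + k) - a' / b')) + 3 ^ k * (y n - a / b)|
          ≤ |-((2 : ℝ) ^ m * (y (n + k) - a' / b'))| + |(3 : ℝ) ^ k * (y n - a / b)| := abs_add_le _ _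
        _ = |(2 : ℝ) ^ m * (y (n + k) - a' / b')| + |(3 : ℝ) ^ k * (y n - a / b)| := by rw [abs_neg]
        _ < (2 ^ m + 3 ^ k) * (1 / (β : ℝ) ^ 136) := by rw [add_mul]; exact add_lt_add e2 e3
    have e5 : ((2 : ℝ) ^ m + 3 ^ k) ≤ (β : ℝ) ^ 128 := by exact_mod_cast F3
    calc |(2 : ℝ) ^ m * (a' / b') - 3 ^ k * (a / b)| < (2 ^ m + 3 ^ k) * (1 / (β : ℝ) ^ 136) := e4
      _ ≤ (β : ℝ) ^ 128 * (1 / (β : ℝ) ^ 136) := mul_le_mul_of_nonneg_right e5 (by positivity)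
      _ = 1 / (β : ℝ) ^ 8 := by
          rw [show (136 : ℕ) = 128 + 8 by norm_num, pow_add]
          field_simp
  have hbb : (b : ℝ) * b' < (β : ℝ) ^ 8 := by
    have e1 : b * b' < β ^ 4 * β ^ 4 := Nat.mul_lt_mul_of_lt_of_lt hb2 hb2'
    have e2 : β ^ 4 * β ^ 4 = β ^ 8 := by ring
    rw [e2] at e1
    exact_mod_cast e1
  have hN : (2 : ℤ) ^ m * a' * b = 3 ^ k * a * b' := by
    by_contra hne
    have hne' : (2 : ℤ) ^ m * a' * b - 3 ^ k * a * b' ≠ 0 := sub_ne_zero.mpr hne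
    have e1 : (1 : ℝ) ≤ |((2 : ℝ) ^ m * a' * b - 3 ^ k * a * b')| := by
      have : (1 : ℤ) ≤ |(2 : ℤ) ^ m * a' * b - 3 ^ k * a * b'| := Int.one_le_abs hne'
      exact_mod_cast this
    have e2 : (2 : ℝ) ^ m * (a' / b') - 3 ^ k * (a / b)
        = (2 ^ m * a' * b - 3 ^ k * a * b') / (b * b') := by
      field_simp
    rw [e2, abs_div, abs_of_pos (by positivity : (0 : ℝ) < b * b')] at hclose
    rw [div_lt_div_iff₀ (by positivity) (by positivity)] at hclose
    have e3 : (1 : ℝ) * β ^ 8 ≤ |((2 : ℝ) ^ m * a' * b - 3 ^ k * a * b')| * β ^ 8 :=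
      mul_le_mul_of_nonneg_right e1 (by positivity)
    linarith
  have hsmall : 1 / (b : ℝ) ^ 136 ≤ 1 / 2 := by
    have : (2 : ℝ) ≤ (b : ℝ) ^ 136 := by
      calc (2 : ℝ) ≤ b := by linarith
        _ = (b : ℝ) ^ 1 := by ring
        _ ≤ (b : ℝ) ^ 136 := pow_le_pow_right₀ (by linarith) (by norm_num)
    exact one_div_le_one_div_of_le (by norm_num) this
  have hab2 := abs_lt.mp hab
  have hy1 := one_le_y n
  have hy2 := y_lt_two n
  have ha_pos : (0 : ℝ) < a / b := by linarith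
  have ha0 : 0 < a := by
    have : (0 : ℝ) < a := by
      by_contra hc
      push Not at hc
      have : (a : ℝ) / b ≤ 0 := div_nonpos_of_nonpos_of_nonneg hc hb0.le
      linarith
    exact_mod_cast this
  have ha3 : a < 3 * b := by
    have : (a : ℝ) / b < 3 := by linarith
    rw [div_lt_iff₀ hb0] at this
    exact_mod_cast this
  obtain ⟨A, rfl⟩ : ∃ A : ℕ, a = A := ⟨a.toNat, by omega⟩
  have hdvd : 2 ^ m ∣ A * b' := by
    have e1 : (2 : ℤ) ^ m ∣ 3 ^ k * (A * b') := ⟨a' * b, by rw [← mul_assoc, ← hN]; ring⟩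
    have e2 : (2 : ℕ) ^ m ∣ 3 ^ k * (A * b') := by exact_mod_cast e1
    have e3 : Nat.Coprime (2 ^ m) (3 ^ k) := Nat.Coprime.pow _ _ (by norm_num)
    exact e3.dvd_of_dvd_mul_left e2
  have hApos : 0 < A := by exact_mod_cast ha0
  have hle : 2 ^ m ≤ A * b' := Nat.le_of_dvd (Nat.mul_pos hApos (by omega)) hdvd
  have hlt : A * b' < 4 * β ^ 8 := by
    have hA3 : A < 3 * b := by exact_mod_cast ha3
    have e1 : A * b' ≤ 3 * b * b' := Nat.mul_le_mul_right _ hA3.le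
    have e2 : b * b' < β ^ 4 * β ^ 4 := Nat.mul_lt_mul_of_lt_of_lt hb2 hb2'
    have e3 : β ^ 4 * β ^ 4 = β ^ 8 := by ring
    nlinarith
  have hm2 : m < 8 * 4 ^ i + 2 := by
    have e1 : 4 * β ^ 8 = 2 ^ (8 * 4 ^ i + 2) := by
      rw [hβ, ← pow_mul, pow_add, mul_comm (4 ^ i) 8]; ring
    have e2 : 2 ^ m < 2 ^ (8 * 4 ^ i + 2) := by rw [← e1]; omega
    exact (Nat.pow_lt_pow_iff_right (by norm_num)).mp e2
  have h4 : 4 ^ (i + 2) = 16 * 4 ^ i := by ring
  have h41 : 1 ≤ 4 ^ i := Nat.one_le_pow _ _ (by norm_num)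
  omega


/-- dyadic subtree of the 4-adic tree of intervals -/
inductive Tr (j0 : ℕ) : ℕ → ℕ → Finset ℕ → Prop
  | leaf (a n : ℕ) (h1 : a ≤ n) (h2 : n < a + 4 ^ j0) : Tr j0 j0 a {n}
  | node (N a k1 k2 : ℕ) (S T : Finset ℕ) (h1 : k1 < k2) (h2 : k2 < 4)
      (hS : Tr j0 N (a + k1 * 4 ^ N) S) (hT : Tr j0 N (a + k2 * 4 ^ N) T) :
      Tr j0 (N + 1) a (S ∪ T)

lemma Tr.le {j0 N a : ℕ} {S : Finset ℕ} (h : Tr j0 N a S) : j0 ≤ N := by
  induction h with
  | leaf => exact le_refl _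
  | node N a k1 k2 S T h1 h2 hS hT ihS ihT => omega

lemma Tr.sub {j0 N a : ℕ} {S : Finset ℕ} (h : Tr j0 N a S) :
    ∀ n ∈ S, a ≤ n ∧ n < a + 4 ^ N := by
  induction h with
  | leaf a n h1 h2 => intro n' hn'; rw [Finset.mem_singleton] at hn'; subst hn'; exact ⟨h1, h2⟩
  | node N a k1 k2 S T h1 h2 hS hT ihS ihT =>
    intro n hn
    rw [Finset.mem_union] at hn
    have e : 4 ^ (N + 1) = 4 * 4 ^ N := by ring
    have hk1 : k1 * 4 ^ N ≤ 2 * 4 ^ N := Nat.mul_le_mul_right _ (by omega)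
    have hk2 : k2 * 4 ^ N ≤ 3 * 4 ^ N := Nat.mul_le_mul_right _ (by omega)
    rcases hn with hn | hn
    · have := ihS n hn
      omega
    · have := ihT n hn
      omega

lemma Tr.disj {j0 N a k1 k2 : ℕ} {S T : Finset ℕ} (h1 : k1 < k2)
    (hS : Tr j0 N (a + k1 * 4 ^ N) S) (hT : Tr j0 N (a + k2 * 4 ^ N) T) : Disjoint S T := by
  rw [Finset.disjoint_left]
  intro n hn hn'
  have e1 := hS.sub n hn
  have e2 := hT.sub n hn'
  have : (k1 + 1) * 4 ^ N ≤ k2 * 4 ^ N := Nat.mul_le_mul_right _ h1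
  rw [add_mul, one_mul] at this
  omega

lemma Tr.card {j0 N a : ℕ} {S : Finset ℕ} (h : Tr j0 N a S) : S.card * 2 ^ j0 = 2 ^ N := by
  induction h with
  | leaf a n h1 h2 => simp
  | node N a k1 k2 S T h1 h2 hS hT ihS ihT =>
    rw [Finset.card_union_of_disjoint (Tr.disj h1 hS hT), add_mul, ihS, ihT]
    ring

lemma Tr.block {j0 N a : ℕ} {S : Finset ℕ} (h : Tr j0 N a S) :
    ∀ i, j0 ≤ i → i ≤ N → ∀ t,
      (S.filter (fun n => a + t * 4 ^ i ≤ n ∧ n < a + (t + 1) * 4 ^ i)).card * 2 ^ j0 ≤ 2 ^ i := by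
  induction h with
  | leaf a n h1 h2 =>
    intro i hi1 hi2 t
    have : i = j0 := by omega
    subst this
    have e : (({n} : Finset ℕ).filter (fun n => a + t * 4 ^ i ≤ n ∧ n < a + (t + 1) * 4 ^ i)).card ≤ 1 :=
      le_trans (Finset.card_filter_le _ _) (by simp)
    calc _ ≤ 1 * 2 ^ i := Nat.mul_le_mul_right _ e
      _ = 2 ^ i := one_mul _
  | node N a k1 k2 S T h1 h2 hS hT ihS ihT =>
    intro i hi1 hi2 t
    rcases Nat.lt_or_ge N i with hlt | hge
    · have hi : i = N + 1 := by omega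
      subst hi
      have hc := (Tr.node N a k1 k2 S T h1 h2 hS hT).card
      calc _ ≤ (S ∪ T).card * 2 ^ j0 := Nat.mul_le_mul_right _ (Finset.card_filter_le _ _)
        _ = 2 ^ (N + 1) := hc
        _ ≤ _ := le_refl _
    · -- i ≤ N
      obtain ⟨e, rfl⟩ : ∃ e, N = i + e := ⟨N - i, by omega⟩
      -- the block lies in child t / 4^e
      set κ := t / 4 ^ e with hκ
      have hE : 0 < 4 ^ e := by positivity
      have ht1 : κ * 4 ^ e ≤ t := Nat.div_mul_le_self _ _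
      have ht2 : t < (κ + 1) * 4 ^ e := by
        have := Nat.lt_succ_self (t / 4 ^ e)
        rwa [Nat.div_lt_iff_lt_mul hE] at this
      have hpow : 4 ^ (i + e) = 4 ^ e * 4 ^ i := by ring
      have hlow : κ * 4 ^ (i + e) ≤ t * 4 ^ i := by
        rw [hpow, ← mul_assoc]; exact Nat.mul_le_mul_right _ ht1
      have hhigh : (t + 1) * 4 ^ i ≤ (κ + 1) * 4 ^ (i + e) := by
        rw [hpow, ← mul_assoc]; exact Nat.mul_le_mul_right _ ht2
      rw [Finset.filter_union]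
      -- general facts
      have key : ∀ (k : ℕ) (U : Finset ℕ), Tr j0 (i + e) (a + k * 4 ^ (i + e)) U → κ ≠ k →
          U.filter (fun n => a + t * 4 ^ i ≤ n ∧ n < a + (t + 1) * 4 ^ i) = ∅ := by
        intro k U hU hne
        rw [Finset.filter_eq_empty_iff]
        intro n hn hcon
        have hs := hU.sub n hn
        rcases Nat.lt_or_gt_of_ne hne with hlt | hgt
        · have : (κ + 1) * 4 ^ (i + e) ≤ k * 4 ^ (i + e) := Nat.mul_le_mul_right _ hlt
          omega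
        · have : (k + 1) * 4 ^ (i + e) ≤ κ * 4 ^ (i + e) := Nat.mul_le_mul_right _ hgt
          rw [add_mul, one_mul] at this
          omega
      have key2 : ∀ (k : ℕ) (U : Finset ℕ), Tr j0 (i + e) (a + k * 4 ^ (i + e)) U → κ = k →
          (∀ i_1, j0 ≤ i_1 → i_1 ≤ i + e → ∀ t,
            (U.filter (fun n => a + k * 4 ^ (i + e) + t * 4 ^ i_1 ≤ n ∧
              n < a + k * 4 ^ (i + e) + (t + 1) * 4 ^ i_1)).card * 2 ^ j0 ≤ 2 ^ i_1) →
          (U.filter (fun n => a + t * 4 ^ i ≤ n ∧ n < a + (t + 1) * 4 ^ i)).card * 2 ^ j0 ≤ 2 ^ i := by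
        intro k U hU hk ih
        obtain ⟨t', ht'⟩ : ∃ t', t = k * 4 ^ e + t' := ⟨t - k * 4 ^ e, by rw [← hk]; omega⟩
        have := ih i hi1 (by omega) t'
        have e1 : a + k * 4 ^ (i + e) + t' * 4 ^ i = a + t * 4 ^ i := by
          rw [ht', hpow]; ring
        have e2 : a + k * 4 ^ (i + e) + (t' + 1) * 4 ^ i = a + (t + 1) * 4 ^ i := by
          rw [ht', hpow]; ring
        rw [e1, e2] at this
        exact this
      by_cases hc1 : κ = k1
      · have hc2 : κ ≠ k2 := by omega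
        rw [key k2 T hT hc2, Finset.union_empty]
        exact key2 k1 S hS hc1 ihS
      · rw [key k1 S hS hc1, Finset.empty_union]
        by_cases hc2 : κ = k2
        · exact key2 k2 T hT hc2 ihT
        · rw [key k2 T hT hc2]; simp

/-- interval count -/
lemma Tr.interval {j0 N a : ℕ} {S : Finset ℕ} (h : Tr j0 N a S) (i s : ℕ) (J : Finset ℕ)
    (hJ : J ⊆ S) (hs : ∀ n ∈ J, s ≤ n ∧ n < s + 4 ^ i) : J.card ≤ 2 ^ (i + 1) := by
  -- reduce to i ≥ j0 version
  have main : ∀ i, j0 ≤ i → (∀ n ∈ J, s ≤ n ∧ n < s + 4 ^ i) → J.card * 2 ^ j0 ≤ 2 ^ (i + 1) := by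
    intro i hi hs
    rcases Nat.lt_or_ge N i with hlt | hge
    · calc J.card * 2 ^ j0 ≤ S.card * 2 ^ j0 := Nat.mul_le_mul_right _ (Finset.card_le_card hJ)
        _ = 2 ^ N := h.card
        _ ≤ 2 ^ (i + 1) := Nat.pow_le_pow_right (by norm_num) (by omega)
    · set t := (s - a) / 4 ^ i with ht
      have hE : 0 < 4 ^ i := by positivity
      have ht1 : t * 4 ^ i ≤ s - a := Nat.div_mul_le_self _ _
      have ht2 : s - a < (t + 1) * 4 ^ i := by
        have := Nat.lt_succ_self ((s - a) / 4 ^ i)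
        rwa [Nat.div_lt_iff_lt_mul hE] at this
      have hsub : J ⊆ (S.filter (fun n => a + t * 4 ^ i ≤ n ∧ n < a + (t + 1) * 4 ^ i)) ∪
          (S.filter (fun n => a + (t + 1) * 4 ^ i ≤ n ∧ n < a + (t + 1 + 1) * 4 ^ i)) := by
        intro n hn
        have hnS := hJ hn
        have hn1 := hs n hn
        have hn2 := h.sub n hnS
        rw [Finset.mem_union, Finset.mem_filter, Finset.mem_filter]
        have e3 : (t + 1 + 1) * 4 ^ i = (t + 1) * 4 ^ i + 4 ^ i := by ring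
        rcases Nat.lt_or_ge n (a + (t + 1) * 4 ^ i) with hc | hc
        · left
          refine ⟨hnS, ?_, hc⟩
          omega
        · right
          refine ⟨hnS, hc, ?_⟩
          omega
      have e1 := h.block i hi hge t
      have e2 := h.block i hi hge (t + 1)
      calc J.card * 2 ^ j0 ≤ ((S.filter (fun n => a + t * 4 ^ i ≤ n ∧ n < a + (t + 1) * 4 ^ i)).card +
            (S.filter (fun n => a + (t + 1) * 4 ^ i ≤ n ∧ n < a + (t + 1 + 1) * 4 ^ i)).card) * 2 ^ j0 :=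
            Nat.mul_le_mul_right _ (le_trans (Finset.card_le_card hsub) (Finset.card_union_le _ _))
        _ = _ + _ := add_mul _ _ _
        _ ≤ 2 ^ i + 2 ^ i := add_le_add e1 e2
        _ = 2 ^ (i + 1) := by ring
  rcases Nat.lt_or_ge i j0 with hlt | hge
  · have := main j0 (le_refl _) (fun n hn => ⟨(hs n hn).1, lt_of_lt_of_le (hs n hn).2 (by
      have : 4 ^ i ≤ 4 ^ j0 := Nat.pow_le_pow_right (by norm_num) hlt.le
      omega)⟩)
    have e : J.card ≤ 2 := by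
      have e1 : J.card * 2 ^ j0 ≤ 2 * 2 ^ j0 := by rw [pow_succ] at this; linarith
      exact Nat.le_of_mul_le_mul_right e1 (by positivity)
    calc J.card ≤ 2 ^ 1 := by simpa using e
      _ ≤ 2 ^ (i + 1) := Nat.pow_le_pow_right (by norm_num) (by omega)
  · have := main i hge hs
    calc J.card = J.card * 1 := (mul_one _).symm
      _ ≤ J.card * 2 ^ j0 := Nat.mul_le_mul_left _ (Nat.one_le_pow _ _ (by norm_num))
      _ ≤ 2 ^ (i + 1) := this

lemma Tr.count {j0 N a : ℕ} {S : Finset ℕ} (h : Tr j0 N a S) (i i' : ℕ) (hi : i ≤ N) :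
    ∀ J ⊆ S, (∀ n ∈ J, ∀ n' ∈ J, n < n' → n' < n + 4 ^ i' ∨ n + 4 ^ i ≤ n') →
      J.card ≤ 2 ^ (N - i) * 2 ^ (i' + 1) := by
  induction h with
  | leaf a n h1 h2 =>
    intro J hJ _
    have e1 : J.card ≤ 1 := le_trans (Finset.card_le_card hJ) (by simp)
    have e2 : 1 ≤ 2 ^ (j0 - i) * 2 ^ (i' + 1) := Nat.one_le_iff_ne_zero.mpr (by positivity)
    omega
  | node N a k1 k2 S T h1 h2 hS hT ihS ihT =>
    intro J hJ hd
    have hTr := Tr.node N a k1 k2 S T h1 h2 hS hT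
    rcases Nat.lt_or_ge N i with hlt | hge
    · have hiN : i = N + 1 := by omega
      subst hiN
      rw [Nat.sub_self, pow_zero, one_mul]
      rcases J.eq_empty_or_nonempty with hemp | hne
      · rw [hemp]; simp
      · refine hTr.interval i' (J.min' hne) J hJ ?_
        intro n hn
        have hmin := J.min'_le n hn
        refine ⟨hmin, ?_⟩
        rcases Nat.lt_or_eq_of_le hmin with hl | he
        · rcases hd _ (J.min'_mem hne) n hn hl with hd1 | hd2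
          · exact hd1
          · exfalso
            have e1 := hTr.sub _ (hJ (J.min'_mem hne))
            have e2 := hTr.sub _ (hJ hn)
            omega
        · rw [he]
          have : 0 < 4 ^ i' := by positivity
          omega
    · have hJS : (J ∩ S).card ≤ 2 ^ (N - i) * 2 ^ (i' + 1) :=
        ihS hge (J ∩ S) Finset.inter_subset_right (fun n hn n' hn' =>
          hd n (Finset.mem_of_mem_inter_left hn) n' (Finset.mem_of_mem_inter_left hn'))
      have hJT : (J ∩ T).card ≤ 2 ^ (N - i) * 2 ^ (i' + 1) :=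
        ihT hge (J ∩ T) Finset.inter_subset_right (fun n hn n' hn' =>
          hd n (Finset.mem_of_mem_inter_left hn) n' (Finset.mem_of_mem_inter_left hn'))
      have hu : J ⊆ (J ∩ S) ∪ (J ∩ T) := by
        intro n hn
        have := hJ hn
        rw [Finset.mem_union] at this
        rw [Finset.mem_union, Finset.mem_inter, Finset.mem_inter]
        rcases this with h | h
        · exact Or.inl ⟨hn, h⟩
        · exact Or.inr ⟨hn, h⟩
      calc J.card ≤ (J ∩ S).card + (J ∩ T).card :=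
            le_trans (Finset.card_le_card hu) (Finset.card_union_le _ _)
        _ ≤ 2 ^ (N - i) * 2 ^ (i' + 1) + 2 ^ (N - i) * 2 ^ (i' + 1) := add_le_add hJS hJT
        _ = 2 ^ (N + 1 - i) * 2 ^ (i' + 1) := by
            rw [show N + 1 - i = (N - i) + 1 by omega, pow_succ]; ring

/-- existence of good trees -/
lemma tree_exists (j0 : ℕ) (P : ℕ → Prop) (hsel : ∀ s, ∃ n, s ≤ n ∧ n < s + 4 ^ j0 ∧ P n)
    (Bd : ℕ → ℕ → Prop)
    (hB : ∀ N, j0 ≤ N → ∀ n k, 0 < k → k < 4 ^ (N + 1) → Bd N n → Bd N (n + k) → k < 4 ^ N)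
    (N : ℕ) (hN : j0 ≤ N) : ∀ a, ∃ S, Tr j0 N a S ∧ ∀ n ∈ S, P n ∧ ∀ j, j0 ≤ j → j < N → ¬ Bd j n := by
  induction N, hN using Nat.le_induction with
  | base =>
    intro a
    obtain ⟨n, h1, h2, h3⟩ := hsel a
    refine ⟨{n}, Tr.leaf a n h1 h2, ?_⟩
    intro n' hn'
    rw [Finset.mem_singleton] at hn'
    subst hn'
    exact ⟨h3, fun j hj1 hj2 => absurd hj2 (by omega)⟩
  | succ N hN ih =>
    intro a
    have hclean : ∃ k1 k2, k1 < k2 ∧ k2 < 4 ∧
        (∀ n, a + k1 * 4 ^ N ≤ n → n < a + k1 * 4 ^ N + 4 ^ N → ¬ Bd N n) ∧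
        (∀ n, a + k2 * 4 ^ N ≤ n → n < a + k2 * 4 ^ N + 4 ^ N → ¬ Bd N n) := by
      have e4 : 4 ^ (N + 1) = 4 * 4 ^ N := by ring
      have far : ∀ n n', n + 4 ^ N < n' → n' < n + 4 ^ (N + 1) → Bd N n → ¬ Bd N n' := by
        intro n n' h1 h2 h3 h4
        obtain ⟨k, rfl⟩ : ∃ k, n' = n + k := ⟨n' - n, by omega⟩
        have := hB N hN n k (by omega) (by omega) h3 h4
        omega
      by_cases h0 : ∀ n, a + 0 * 4 ^ N ≤ n → n < a + 0 * 4 ^ N + 4 ^ N → ¬ Bd N n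
      · by_cases h1 : ∀ n, a + 1 * 4 ^ N ≤ n → n < a + 1 * 4 ^ N + 4 ^ N → ¬ Bd N n
        · exact ⟨0, 1, by norm_num, by norm_num, h0, h1⟩
        · push Not at h1
          obtain ⟨n1, hn1, hn1', hb⟩ := h1
          refine ⟨0, 3, by norm_num, by norm_num, h0, ?_⟩
          intro n hn hn'
          exact far n1 n (by omega) (by omega) hb
      · push Not at h0
        obtain ⟨n0, hn0, hn0', hb⟩ := h0
        refine ⟨2, 3, by norm_num, by norm_num, ?_, ?_⟩
        · intro n hn hn'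
          exact far n0 n (by omega) (by omega) hb
        · intro n hn hn'
          exact far n0 n (by omega) (by omega) hb
    obtain ⟨k1, k2, h12, h24, hc1, hc2⟩ := hclean
    obtain ⟨S, hS, hSg⟩ := ih (a + k1 * 4 ^ N)
    obtain ⟨T, hT, hTg⟩ := ih (a + k2 * 4 ^ N)
    refine ⟨S ∪ T, Tr.node N a k1 k2 S T h12 h24 hS hT, ?_⟩
    intro n hn
    rw [Finset.mem_union] at hn
    rcases hn with hn | hn
    · refine ⟨(hSg n hn).1, ?_⟩
      intro j hj1 hj2
      rcases Nat.lt_or_ge j N with hlt | hge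
      · exact (hSg n hn).2 j hj1 hlt
      · have : j = N := by omega
        subst this
        exact hc1 n (hS.sub n hn).1 (hS.sub n hn).2
    · refine ⟨(hTg n hn).1, ?_⟩
      intro j hj1 hj2
      rcases Nat.lt_or_ge j N with hlt | hge
      · exact (hTg n hn).2 j hj1 hlt
      · have : j = N := by omega
        subst this
        exact hc2 n (hT.sub n hn).1 (hT.sub n hn).2

lemma location (α : ℝ) (hα : Irrational α) (η : ℝ) (h0 : 0 < η) (h1 : η < 1 / 2) :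
    ∃ N0, ∀ N, N0 ≤ N → ∀ (j0 a : ℕ) (S : Finset ℕ), Tr j0 N a S → ∀ J ⊆ S,
      (∀ n ∈ J, ∀ n' ∈ J, n < n' → ∃ m : ℤ, |((n' : ℝ) - n) * α - m| < η ^ 8) →
      (J.card : ℝ) ≤ 12 * 2 ^ N * η := by
  set δ : ℝ := η ^ 8 with hδ
  have hδ0 : 0 < δ := by positivity
  have hδ1 : δ ≤ 1 / 256 := by
    have : δ ≤ (1 / 2 : ℝ) ^ 8 := pow_le_pow_left₀ h0.le h1.le 8
    norm_num at this ⊢
    linarith
  -- minimal r
  have hex : ∃ r : ℕ, 0 < r ∧ ∃ m : ℤ, |(r : ℝ) * α - m| < δ := by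
    obtain ⟨n, hn⟩ := exists_nat_one_div_lt hδ0
    obtain ⟨k, hk0, hk1, hk2⟩ := Real.exists_nat_abs_mul_sub_round_le α (Nat.succ_pos n)
    refine ⟨k, hk0, round ((k : ℝ) * α), lt_of_le_of_lt hk2 (lt_of_le_of_lt ?_ hn)⟩
    apply one_div_le_one_div_of_le (by positivity)
    push_cast
    linarith
  classical
  set r := Nat.find hex with hr
  obtain ⟨hr0, m0, hm0⟩ := Nat.find_spec hex
  rw [← hr] at hr0 hm0
  have hrmin : ∀ k : ℕ, 0 < k → (∃ m : ℤ, |(k : ℝ) * α - m| < δ) → r ≤ k := by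
    intro k hk hk'
    exact Nat.find_min' hex ⟨hk, hk'⟩
  have hrR : (1 : ℝ) ≤ r := by exact_mod_cast hr0
  set θ := |(r : ℝ) * α - m0| with hθ
  have hθ0 : 0 < θ := by
    rw [hθ, abs_pos]
    intro hc
    have h2 : α = (m0 : ℝ) / (r : ℝ) := by
      field_simp
      linarith
    apply hα
    exact ⟨(m0 : ℚ) / (r : ℚ), by rw [h2]; push_cast; rfl⟩
  by_cases hcase : 1 / η ^ 2 ≤ r
  · -- case 1
    obtain ⟨i, hi1, hi2⟩ := exists_nat_pow_near hrR (by norm_num : (1 : ℝ) < 4)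
    refine ⟨i, ?_⟩
    intro N hN j0 a S hTr J hJ hd
    have hc := hTr.count i 0 hN J hJ (by
      intro n hn n' hn' hlt
      right
      obtain ⟨m, hm⟩ := hd n hn n' hn' hlt
      have h3 : r ≤ n' - n := hrmin (n' - n) (by omega) ⟨m, by
        rw [Nat.cast_sub hlt.le]; exact hm⟩
      have h4 : 4 ^ i ≤ r := by exact_mod_cast hi1
      omega)
    have h5 : (J.card : ℝ) ≤ 2 ^ (N - i) * 2 := by
      have : (J.card : ℝ) ≤ ((2 ^ (N - i) * 2 ^ (0 + 1) : ℕ) : ℝ) := by exact_mod_cast hc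
      push_cast at this
      simpa using this
    have h6 : (2 : ℝ) ^ N = 2 ^ (N - i) * 2 ^ i := by rw [← pow_add]; congr 1; omega
    have h7 : 1 / (2 * η) < (2 : ℝ) ^ i := by
      have e1 : (1 / (2 * η)) ^ 2 < ((2 : ℝ) ^ i) ^ 2 := by
        have e2 : ((2 : ℝ) ^ i) ^ 2 = 4 ^ i := by rw [← pow_mul, mul_comm, pow_mul]; norm_num
        have e3 : (4 : ℝ) ^ (i + 1) = 4 * 4 ^ i := by ring
        have e4 : (1 / (2 * η)) ^ 2 = (1 / η ^ 2) / 4 := by field_simp; norm_num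
        rw [e2, e4]
        rw [e3] at hi2
        linarith
      exact lt_of_pow_lt_pow_left₀ 2 (by positivity) e1
    have h8 : 1 < 2 ^ i * (2 * η) := by
      rw [div_lt_iff₀ (by positivity)] at h7
      exact h7
    calc (J.card : ℝ) ≤ 2 ^ (N - i) * 2 := h5
      _ ≤ 2 ^ (N - i) * (2 * (2 ^ i * (2 * η))) := by
          apply mul_le_mul_of_nonneg_left _ (by positivity)
          linarith
      _ = 4 * (2 ^ (N - i) * 2 ^ i) * η := by ring
      _ = 4 * 2 ^ N * η := by rw [← h6]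
      _ ≤ 12 * 2 ^ N * η := by
          have : (0 : ℝ) < 2 ^ N * η := by positivity
          linarith
  · -- case 2
    push Not at hcase
    have hx1 : (1 : ℝ) ≤ r / (2 * θ) := by
      rw [le_div_iff₀ (by positivity)]
      linarith
    have hx2 : (1 : ℝ) ≤ r * δ / θ := by
      rw [le_div_iff₀ hθ0]
      nlinarith
    obtain ⟨i, hi1, hi2⟩ := exists_nat_pow_near hx1 (by norm_num : (1 : ℝ) < 4)
    obtain ⟨i2, hi3, hi4⟩ := exists_nat_pow_near hx2 (by norm_num : (1 : ℝ) < 4)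
    refine ⟨i, ?_⟩
    intro N hN j0 a S hTr J hJ hd
    -- bound for each residue class
    have hcls : ∀ c, ((J.filter (fun n => n % r = c)).card : ℝ) ≤ 12 * 2 ^ N * η ^ 4 := by
      intro c
      have hcnt := hTr.count i (i2 + 1) hN (J.filter (fun n => n % r = c))
        (fun n hn => hJ (Finset.mem_of_mem_filter n hn)) (by
        intro n hn n' hn' hlt
        rw [Finset.mem_filter] at hn hn'
        have hdvd : r ∣ n' - n := (Nat.modEq_iff_dvd' hlt.le).mp (by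
          rw [Nat.ModEq, hn.2, hn'.2])
        obtain ⟨k, hk⟩ := hdvd
        obtain ⟨m, hm⟩ := hd n hn.1 n' hn'.1 hlt
        have hkR : (n' : ℝ) - n = r * k := by
          rw [← Nat.cast_sub hlt.le, hk]; push_cast; ring
        rw [hkR] at hm
        by_cases hkθ : (k : ℝ) * θ < 1 / 2
        · left
          -- m = k * m0
          have e1 : |((m : ℝ) - k * m0)| < 1 := by
            have e2 : (m : ℝ) - k * m0 = -((r * k) * α - m) + k * (r * α - m0) := by ring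
            rw [e2]
            calc |-((r * k : ℝ) * α - m) + k * (r * α - m0)|
                ≤ |-((r * k : ℝ) * α - m)| + |(k : ℝ) * (r * α - m0)| := abs_add_le _ _
              _ = |(r * k : ℝ) * α - m| + k * θ := by
                  rw [abs_neg, abs_mul, abs_of_nonneg (by positivity : (0 : ℝ) ≤ k)]
              _ < δ + 1 / 2 := add_lt_add hm hkθ
              _ ≤ 1 := by linarith
          have e3 : m = k * m0 := by
            have e4 : |m - k * m0| < 1 := by exact_mod_cast e1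
            have := Int.abs_lt_one_iff.mp e4
            linarith
          have e5 : (k : ℝ) * θ < δ := by
            have e6 : (k : ℝ) * θ = |(r * k : ℝ) * α - m| := by
              rw [e3, hθ]
              rw [show (r * k : ℝ) * α - ((k * m0 : ℤ) : ℝ) = k * (r * α - m0) by push_cast; ring,
                abs_mul, abs_of_nonneg (by positivity : (0 : ℝ) ≤ k)]
            rw [e6]; exact hm
          have e7 : (r : ℝ) * k < r * δ / θ := by
            rw [lt_div_iff₀ hθ0]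
            nlinarith
          have e8 : ((n' - n : ℕ) : ℝ) < ((4 ^ (i2 + 1) : ℕ) : ℝ) := by
            rw [hk]
            push_cast
            linarith
          have e9 : n' - n < 4 ^ (i2 + 1) := by exact_mod_cast e8
          omega
        · right
          push Not at hkθ
          have e7 : r / (2 * θ) ≤ (r : ℝ) * k := by
            rw [div_le_iff₀ (by positivity)]
            nlinarith
          have e8 : ((4 ^ i : ℕ) : ℝ) ≤ ((n' - n : ℕ) : ℝ) := by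
            rw [hk]
            push_cast
            linarith
          have e9 : 4 ^ i ≤ n' - n := by exact_mod_cast e8
          omega)
      have h5 : ((J.filter (fun n => n % r = c)).card : ℝ) ≤ 2 ^ (N - i) * (2 ^ (i2 + 1) * 2) := by
        have : ((J.filter (fun n => n % r = c)).card : ℝ) ≤ ((2 ^ (N - i) * 2 ^ (i2 + 1 + 1) : ℕ) : ℝ) := by
          exact_mod_cast hcnt
        push_cast at this
        rw [pow_succ (2 : ℝ) (i2 + 1)] at this
        exact this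
      have h6 : (2 : ℝ) ^ N = 2 ^ (N - i) * 2 ^ i := by rw [← pow_add]; congr 1; omega
      have h7 : (2 : ℝ) ^ (i2 + 1) ≤ 6 * η ^ 4 * 2 ^ i := by
        have e1 : ((2 : ℝ) ^ (i2 + 1)) ^ 2 ≤ (6 * η ^ 4 * 2 ^ i) ^ 2 := by
          have e2 : ((2 : ℝ) ^ (i2 + 1)) ^ 2 = 4 * 4 ^ i2 := by
            rw [← pow_mul, mul_comm, pow_mul]; norm_num; ring
          have e3 : (6 * η ^ 4 * (2 : ℝ) ^ i) ^ 2 = 36 * δ * 4 ^ i := by
            rw [mul_pow, mul_pow, ← pow_mul (2 : ℝ), mul_comm i 2, pow_mul (2 : ℝ), hδ]; ring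
          rw [e2, e3]
          have e4 : (4 : ℝ) ^ (i + 1) = 4 * 4 ^ i := by ring
          rw [e4] at hi2
          have e5 : r / (2 * θ) = (r / θ) / 2 := by field_simp
          have e6 : r * δ / θ = (r / θ) * δ := by ring
          rw [e5] at hi2
          rw [e6] at hi3
          have e7 : r / θ < 8 * 4 ^ i := by linarith
          have e8 : (4 : ℝ) ^ i2 ≤ 8 * 4 ^ i * δ := le_trans hi3 (mul_le_mul_of_nonneg_right e7.le hδ0.le)
          have e9 : (0 : ℝ) < 4 ^ i * δ := by positivity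
          linarith
        exact le_of_sq_le_sq e1 (by positivity)
      calc ((J.filter (fun n => n % r = c)).card : ℝ) ≤ 2 ^ (N - i) * (2 ^ (i2 + 1) * 2) := h5
        _ ≤ 2 ^ (N - i) * ((6 * η ^ 4 * 2 ^ i) * 2) := by
            apply mul_le_mul_of_nonneg_left _ (by positivity)
            linarith
        _ = 12 * (2 ^ (N - i) * 2 ^ i) * η ^ 4 := by ring
        _ = 12 * 2 ^ N * η ^ 4 := by rw [← h6]
    have hsum : J.card = ∑ c ∈ Finset.range r, (J.filter (fun n => n % r = c)).card := by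
      apply Finset.card_eq_sum_card_fiberwise
      intro n hn
      simp only [Finset.coe_range, Set.mem_Iio]
      exact Nat.mod_lt _ hr0
    calc (J.card : ℝ) = ∑ c ∈ Finset.range r, ((J.filter (fun n => n % r = c)).card : ℝ) := by
          rw [hsum]; push_cast; rfl
      _ ≤ ∑ c ∈ Finset.range r, 12 * 2 ^ N * η ^ 4 := Finset.sum_le_sum (fun c _ => hcls c)
      _ = r * (12 * 2 ^ N * η ^ 4) := by rw [Finset.sum_const, Finset.card_range, nsmul_eq_mul]
      _ ≤ (1 / η ^ 2) * (12 * 2 ^ N * η ^ 4) := by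
          apply mul_le_mul_of_nonneg_right hcase.le (by positivity)
      _ = 12 * 2 ^ N * η ^ 2 := by field_simp
      _ ≤ 12 * 2 ^ N * η := by
          have : η ^ 2 ≤ η := by nlinarith
          apply mul_le_mul_of_nonneg_left this (by positivity)

noncomputable def al : ℝ := Real.logb 2 3

lemma two_rpow_al : (2 : ℝ) ^ al = 3 :=
  Real.rpow_logb (by norm_num) (by norm_num) (by norm_num)

lemma al_pos : 0 < al := Real.logb_pos (by norm_num) (by norm_num)

lemma al_irr : Irrational al := by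
  rintro ⟨r, hr⟩
  have hpos := al_pos
  have hr0 : 0 < r := by rw [← hr] at hpos; exact_mod_cast hpos
  have hnum : 0 < r.num := Rat.num_pos.mpr hr0
  have h2 : (3 : ℝ) ^ r.den = 2 ^ r.num.toNat := by
    rw [← two_rpow_al, ← hr, ← Real.rpow_natCast, ← Real.rpow_mul (by norm_num), ← Real.rpow_natCast]
    congr 1
    have e1 : ((r.num.toNat : ℕ) : ℝ) = (r.num : ℝ) := by
      have : ((r.num.toNat : ℕ) : ℤ) = r.num := Int.toNat_of_nonneg hnum.le
      exact_mod_cast congrArg (fun z : ℤ => (z : ℝ)) this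
    rw [e1]
    have e2 : (r : ℝ) * r.den = r.num := by
      have := Rat.mul_den_eq_num r
      exact_mod_cast this
    exact e2
  have h3 : 3 ^ r.den = 2 ^ r.num.toNat := by exact_mod_cast h2
  have h4 : 2 ∣ 3 ^ r.den := by rw [h3]; exact dvd_pow_self 2 (by omega)
  have h5 : 2 ∣ 3 := Nat.Prime.dvd_of_dvd_pow Nat.prime_two h4
  omega

lemma sel (α t : ℝ) (p : ℤ) (q : ℕ) (hq : 0 < q) (hcop : IsCoprime p (q : ℤ))
    (h : |α - p / q| < 1 / (q : ℝ) ^ 2) (s : ℕ) :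
    ∃ n, s ≤ n ∧ n < s + q ∧ ∃ m : ℤ, |(n : ℝ) * α - m - t| ≤ 2 / q := by
  have hqR : (0 : ℝ) < q := by exact_mod_cast hq
  set c := round ((q : ℝ) * (t - s * α)) with hc
  have hc1 : |(q : ℝ) * (t - s * α) - c| ≤ 1 / 2 := abs_sub_round _
  obtain ⟨u, v, huv⟩ := hcop
  have hqZ : (0 : ℤ) < q := by exact_mod_cast hq
  have hk0 : 0 ≤ (c * u) % (q : ℤ) := Int.emod_nonneg _ hqZ.ne'
  have hk1 : (c * u) % (q : ℤ) < q := Int.emod_lt_of_pos _ hqZ
  obtain ⟨k, hk⟩ : ∃ k : ℕ, (k : ℤ) = (c * u) % (q : ℤ) := ⟨_, Int.toNat_of_nonneg hk0⟩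
  have hkq : k < q := by rw [← hk] at hk1; exact_mod_cast hk1
  have hdiv := Int.emod_add_mul_ediv (c * u) (q : ℤ)
  set w := (c * u) / (q : ℤ) with hw
  -- k * p = c + q * l
  have hkp : (k : ℤ) * p = c + q * (-(c * v) - w * p) := by
    have e1 : (k : ℤ) = c * u - q * w := by rw [hk]; linarith
    rw [e1]
    have e2 : c * u * p = c - c * v * q := by
      have : u * p = 1 - v * q := by linarith
      calc c * u * p = c * (u * p) := by ring
        _ = c * (1 - v * q) := by rw [this]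
        _ = _ := by ring
    linear_combination e2
  refine ⟨s + k, by omega, by omega, -(c * v) - w * p, ?_⟩
  set l : ℤ := -(c * v) - w * p with hl
  have hkpR : (k : ℝ) * p = c + q * l := by exact_mod_cast hkp
  have e3 : ((s + k : ℕ) : ℝ) * α - l - t
      = -((q * (t - s * α) - c) / q) + k * (α - p / q) := by
    push_cast
    field_simp
    linear_combination hkpR
  rw [e3]
  have e4 : |-(((q : ℝ) * (t - s * α) - c) / q)| ≤ 1 / q := by
    rw [abs_neg, abs_div, abs_of_pos hqR]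
    exact div_le_div_of_nonneg_right (by linarith) hqR.le
  have e5 : |(k : ℝ) * (α - p / q)| ≤ 1 / q := by
    rw [abs_mul, abs_of_nonneg (by positivity : (0 : ℝ) ≤ k)]
    calc (k : ℝ) * |α - p / q| ≤ q * (1 / (q : ℝ) ^ 2) := by
          apply mul_le_mul (by exact_mod_cast hkq.le) h.le (abs_nonneg _) hqR.le
      _ = 1 / q := by field_simp
  calc _ ≤ |-(((q : ℝ) * (t - s * α) - c) / q)| + |(k : ℝ) * (α - p / q)| := abs_add_le _ _
    _ ≤ 1 / q + 1 / q := add_le_add e4 e5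
    _ = 2 / q := by ring

lemma dist_pos (α : ℝ) (hα : Irrational α) (K : ℕ) :
    ∃ μ : ℝ, 0 < μ ∧ ∀ k : ℕ, 0 < k → k ≤ K → ∀ j : ℤ, μ ≤ |(k : ℝ) * α - j| := by
  induction K with
  | zero => exact ⟨1, one_pos, fun k h1 h2 => by omega⟩
  | succ K ih =>
    obtain ⟨μ, hμ, h⟩ := ih
    have hpos : 0 < |((K + 1 : ℕ) : ℝ) * α - round (((K + 1 : ℕ) : ℝ) * α)| := by
      rw [abs_pos]
      intro hc
      have h2 : α = ((round (((K + 1 : ℕ) : ℝ) * α) : ℤ) : ℝ) / ((K + 1 : ℕ) : ℝ) := by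
        have hne : ((K + 1 : ℕ) : ℝ) ≠ 0 := by positivity
        rw [eq_div_iff hne]
        linarith
      apply hα
      exact ⟨((round (((K + 1 : ℕ) : ℝ) * α) : ℤ) : ℚ) / ((K + 1 : ℕ) : ℚ), by
        rw [Rat.cast_div, Rat.cast_intCast, Rat.cast_natCast]; exact h2.symm⟩
    refine ⟨min μ _, lt_min hμ hpos, ?_⟩
    intro k hk1 hk2 j
    rcases Nat.lt_or_eq_of_le hk2 with hlt | heq
    · exact le_trans (min_le_left _ _) (h k hk1 (by omega) j)
    · subst heq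
      exact le_trans (min_le_right _ _) (round_le _ _)

lemma large_q (α : ℝ) (hα : Irrational α) (K : ℕ) :
    ∃ (p : ℤ) (q : ℕ), K < q ∧ IsCoprime p (q : ℤ) ∧ |α - p / q| < 1 / (q : ℝ) ^ 2 := by
  obtain ⟨μ, hμ, h⟩ := dist_pos α hα K
  obtain ⟨n, hn⟩ := exists_nat_one_div_lt hμ
  obtain ⟨r, hr1, hr2⟩ := Real.exists_rat_abs_sub_le_and_den_le α (Nat.succ_pos n)
  have hd : (0 : ℝ) < r.den := by exact_mod_cast r.pos
  refine ⟨r.num, r.den, ?_, ?_, ?_⟩
  · by_contra hc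
    push Not at hc
    have h1 := h r.den r.pos hc r.num
    have h2 : |(r.den : ℝ) * α - r.num| = r.den * |α - r| := by
      rw [← abs_of_pos hd, ← abs_mul, abs_of_pos hd]
      congr 1
      have : (r : ℝ) * r.den = r.num := by
        have := Rat.mul_den_eq_num r
        exact_mod_cast this
      linear_combination (1 : ℝ) * this
    rw [h2] at h1
    have h3 : (r.den : ℝ) * |α - r| ≤ r.den * (1 / (((n.succ : ℕ) + 1) * r.den)) :=
      mul_le_mul_of_nonneg_left hr1 hd.le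
    have h4 : (r.den : ℝ) * (1 / ((((n.succ : ℕ) : ℝ) + 1) * r.den)) = 1 / (((n.succ : ℕ) : ℝ) + 1) := by
      field_simp
    rw [h4] at h3
    have h5 : 1 / (((n.succ : ℕ) : ℝ) + 1) ≤ 1 / ((n : ℝ) + 1) := by
      apply one_div_le_one_div_of_le (by positivity)
      push_cast; linarith
    linarith
  · rw [Int.isCoprime_iff_gcd_eq_one]
    exact r.reduced
  · have e : ((r.num : ℝ) / r.den) = (r : ℝ) := by
      exact_mod_cast (Rat.num_div_den r)
    rw [e]
    refine lt_of_le_of_lt hr1 ?_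
    apply one_div_lt_one_div_of_lt (by positivity)
    have : (r.den : ℝ) ≤ n.succ := by exact_mod_cast hr2
    nlinarith

lemma y_eq_rpow (n : ℕ) : y n = (2 : ℝ) ^ ((n : ℝ) * al - f n) := by
  rw [Real.rpow_sub (by norm_num), mul_comm (n : ℝ) al, Real.rpow_mul (by norm_num), two_rpow_al,
    Real.rpow_natCast, Real.rpow_natCast]
  rfl

lemma y_close (z ε : ℝ) (hε0 : 0 ≤ ε) (hε : ε ≤ 1) (hz1 : 1 + 4 * ε ≤ z) (hz2 : z + 4 * ε < 2)
    (n : ℕ) (m : ℤ) (h : |(n : ℝ) * al - m - Real.logb 2 z| ≤ ε) : |y n - z| ≤ 4 * ε := by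
  have hz0 : 0 < z := by linarith
  set u := (n : ℝ) * al - m - Real.logb 2 z with hu
  set v : ℝ := (2 : ℝ) ^ ((n : ℝ) * al - m) with hv
  have hvz : v = z * (2 : ℝ) ^ u := by
    have : (n : ℝ) * al - m = Real.logb 2 z + u := by rw [hu]; ring
    rw [hv, this, Real.rpow_add (by norm_num), Real.rpow_logb (by norm_num) (by norm_num) hz0]
  have hlog2 : Real.log 2 ≤ 1 := by
    have := Real.log_two_lt_d9; linarith
  have hlog0 : 0 < Real.log 2 := Real.log_pos (by norm_num)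
  have hu1 : |u * Real.log 2| ≤ ε := by
    rw [abs_mul, abs_of_pos hlog0]
    calc |u| * Real.log 2 ≤ ε * 1 := mul_le_mul h hlog2 hlog0.le hε0
      _ = ε := mul_one _
  have hu2 : |(2 : ℝ) ^ u - 1| ≤ 2 * ε := by
    rw [Real.rpow_def_of_pos (by norm_num), mul_comm (Real.log 2) u]
    exact le_trans (Real.abs_exp_sub_one_le (le_trans hu1 hε)) (by linarith)
  have hvz2 : |v - z| ≤ 4 * ε := by
    rw [hvz, show z * (2 : ℝ) ^ u - z = z * ((2 : ℝ) ^ u - 1) by ring, abs_mul, abs_of_pos hz0]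
    calc z * |(2 : ℝ) ^ u - 1| ≤ 2 * (2 * ε) := mul_le_mul (by linarith) hu2 (abs_nonneg _) (by norm_num)
      _ = 4 * ε := by ring
  have hv1 : 1 ≤ v := by have := abs_le.mp hvz2; linarith
  have hv2 : v < 2 := by have := abs_le.mp hvz2; linarith
  have hy1 := one_le_y n
  have hy2 := y_lt_two n
  -- y n = v * 2^(m - f n)
  have hyv : y n = v * (2 : ℝ) ^ ((m : ℝ) - f n) := by
    rw [y_eq_rpow, hv, ← Real.rpow_add (by norm_num)]
    congr 1; ring
  have hlt : (2 : ℝ) ^ ((m : ℝ) - f n) < 2 := by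
    by_contra hc
    push Not at hc
    have : (2 : ℝ) ≤ v * (2 : ℝ) ^ ((m : ℝ) - f n) := by nlinarith
    linarith
  have hgt : (1 / 2 : ℝ) < (2 : ℝ) ^ ((m : ℝ) - f n) := by
    by_contra hc
    push Not at hc
    have h0 : 0 < (2 : ℝ) ^ ((m : ℝ) - f n) := Real.rpow_pos_of_pos (by norm_num) _
    have : v * (2 : ℝ) ^ ((m : ℝ) - f n) < 1 := by nlinarith
    linarith
  have h1 : (m : ℝ) - f n < 1 := by
    have : (2 : ℝ) ^ ((m : ℝ) - f n) < (2 : ℝ) ^ (1 : ℝ) := by rw [Real.rpow_one]; exact hlt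
    exact (Real.rpow_lt_rpow_left_iff (by norm_num)).mp this
  have h2 : -1 < (m : ℝ) - f n := by
    have : (2 : ℝ) ^ (-1 : ℝ) < (2 : ℝ) ^ ((m : ℝ) - f n) := by
      rw [Real.rpow_neg_one]; norm_num at hgt ⊢; exact hgt
    exact (Real.rpow_lt_rpow_left_iff (by norm_num)).mp this
  have h3 : m - (f n : ℤ) = 0 := by
    have e1 : m - (f n : ℤ) < 1 := by exact_mod_cast h1
    have e2 : -1 < m - (f n : ℤ) := by exact_mod_cast h2
    omega
  have h4 : (m : ℝ) - f n = 0 := by exact_mod_cast h3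
  rw [h4, Real.rpow_zero, mul_one] at hyv
  rw [hyv]
  exact hvz2

lemma z_dist (P D : ℕ) (hD : 0 < D) (a : ℤ) (b : ℕ) (hb : D ≤ b) :
    1 / (64 * (b : ℝ) ^ 4) ≤ |((P : ℝ) / D + √2 / (16 * (D : ℝ) ^ 2)) - a / b| := by
  have hDR : (1 : ℝ) ≤ D := by exact_mod_cast hD
  have hbD : (D : ℝ) ≤ b := by exact_mod_cast hb
  have hb1 : (1 : ℝ) ≤ b := by linarith
  set s : ℤ := 16 * D ^ 2 * a - 16 * D * P * b with hs
  have hz : ((P : ℝ) / D + √2 / (16 * (D : ℝ) ^ 2)) - a / b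
      = (√2 * b - s) / (16 * (D : ℝ) ^ 2 * b) := by
    rw [hs]; push_cast
    field_simp
    ring
  have h2 : √2 * √2 = 2 := Real.mul_self_sqrt (by norm_num)
  have h2a : √2 ≤ 3 / 2 := by
    rw [show (3 / 2 : ℝ) = √((3 / 2) ^ 2) by rw [Real.sqrt_sq (by norm_num)]]
    exact Real.sqrt_le_sqrt (by norm_num)
  have h2b : 0 ≤ √2 := Real.sqrt_nonneg _
  have hmain : 1 / (4 * (b : ℝ)) ≤ |√2 * b - s| := by
    by_contra hc
    push Not at hc
    have hc1 : |√2 * b - s| < 1 / 4 := by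
      refine lt_of_lt_of_le hc ?_
      apply one_div_le_one_div_of_le (by norm_num); linarith
    have e1 : |√2 * b + s| ≤ 4 * b := by
      have e2 : √2 * b + s = 2 * (√2 * b) - (√2 * b - s) := by ring
      rw [e2]
      calc |2 * (√2 * b) - (√2 * b - s)| ≤ |2 * (√2 * b)| + |√2 * b - s| := abs_sub _ _
        _ ≤ 2 * (√2 * b) + 1 / 4 := by
            rw [abs_of_nonneg (by positivity)]; linarith
        _ ≤ 4 * b := by nlinarith
    have e3 : |(2 * (b : ℝ) ^ 2 - (s : ℝ) ^ 2)| < 1 := by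
      have e4 : 2 * (b : ℝ) ^ 2 - (s : ℝ) ^ 2 = (√2 * b - s) * (√2 * b + s) := by
        linear_combination (-(b : ℝ) ^ 2) * h2
      rw [e4, abs_mul]
      calc |√2 * b - s| * |√2 * b + s| ≤ |√2 * b - s| * (4 * b) :=
            mul_le_mul_of_nonneg_left e1 (abs_nonneg _)
        _ < 1 / (4 * (b : ℝ)) * (4 * b) := mul_lt_mul_of_pos_right hc (by linarith)
        _ = 1 := by field_simp
    have e5 : |(2 * (b : ℤ) ^ 2 - s ^ 2)| < 1 := by exact_mod_cast e3
    have e6 : 2 * (b : ℤ) ^ 2 - s ^ 2 = 0 := Int.abs_lt_one_iff.mp e5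
    have e7 : (s : ℝ) ^ 2 = 2 * (b : ℝ) ^ 2 := by
      have : (s : ℤ) ^ 2 = 2 * (b : ℤ) ^ 2 := by linarith
      exact_mod_cast this
    apply irrational_sqrt_two
    refine ⟨|(s : ℚ) / b|, ?_⟩
    have e8 : ((|(s : ℚ) / b| : ℚ) : ℝ) ^ 2 = 2 := by
      push_cast
      rw [sq_abs, div_pow, e7]
      field_simp
    have e9 : 0 ≤ ((|(s : ℚ) / b| : ℚ) : ℝ) := by exact_mod_cast abs_nonneg _
    rw [← Real.sqrt_sq e9, e8]
  rw [hz, abs_div, abs_of_pos (by positivity : (0 : ℝ) < 16 * (D : ℝ) ^ 2 * b)]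
  rw [le_div_iff₀ (by positivity)]
  have e10 : (D : ℝ) ^ 2 ≤ (b : ℝ) ^ 2 := pow_le_pow_left₀ (by linarith) hbD 2
  calc 1 / (64 * (b : ℝ) ^ 4) * (16 * (D : ℝ) ^ 2 * b) ≤ 1 / (64 * (b : ℝ) ^ 4) * (16 * (b : ℝ) ^ 2 * b) := by
        apply mul_le_mul_of_nonneg_left _ (by positivity)
        nlinarith
    _ = 1 / (4 * (b : ℝ)) := by field_simp; norm_num
    _ ≤ |√2 * b - s| := hmain

lemma big_b (i n : ℕ) (hn : n < 2 * 4 ^ (i + 2)) (a : ℤ) (b : ℕ) (hb : 2 ^ 4 ^ i ≤ b)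
    (hne : (a : ℝ) / b ≠ y n) : 1 / (b : ℝ) ^ 136 ≤ |y n - a / b| := by
  have hb2 : 2 ≤ b := by
    have : 2 ^ 1 ≤ 2 ^ 4 ^ i := Nat.pow_le_pow_right (by norm_num) (Nat.one_le_pow _ _ (by norm_num))
    omega
  have hbR : (2 : ℝ) ≤ b := by exact_mod_cast hb2
  have hpow : 2 ^ f n ≤ b ^ 64 := by
    calc 2 ^ f n ≤ 3 ^ n := pow_f_le n
      _ ≤ 4 ^ n := Nat.pow_le_pow_left (by norm_num) _
      _ ≤ 4 ^ (2 * 4 ^ (i + 2)) := Nat.pow_le_pow_right (by norm_num) hn.le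
      _ = 2 ^ (4 ^ i * 64) := by
          rw [show (4 : ℕ) ^ (2 * 4 ^ (i + 2)) = (2 ^ 2) ^ (2 * 4 ^ (i + 2)) by norm_num, ← pow_mul]
          congr 1; ring
      _ = (2 ^ 4 ^ i) ^ 64 := by rw [pow_mul]
      _ ≤ b ^ 64 := Nat.pow_le_pow_left hb _
  have hpowR : (2 : ℝ) ^ f n ≤ (b : ℝ) ^ 64 := by exact_mod_cast hpow
  have e1 : y n - a / b = ((3 : ℝ) ^ n * b - a * 2 ^ f n) / (2 ^ f n * b) := by
    unfold y; field_simp
  have hne2 : (3 : ℤ) ^ n * b - a * 2 ^ f n ≠ 0 := by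
    intro hc
    apply hne
    have : (3 : ℝ) ^ n * b - a * 2 ^ f n = 0 := by exact_mod_cast hc
    have h0 : y n - a / b = 0 := by rw [e1, this, zero_div]
    linarith
  have e2 : (1 : ℝ) ≤ |(3 : ℝ) ^ n * b - a * 2 ^ f n| := by
    have := Int.one_le_abs hne2
    exact_mod_cast this
  rw [e1, abs_div, abs_of_pos (by positivity : (0 : ℝ) < 2 ^ f n * b)]
  rw [div_le_div_iff₀ (by positivity) (by positivity)]
  have e3 : (2 : ℝ) ^ f n * b ≤ (b : ℝ) ^ 136 := by
    calc (2 : ℝ) ^ f n * b ≤ (b : ℝ) ^ 64 * b := mul_le_mul_of_nonneg_right hpowR (by linarith)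
      _ = (b : ℝ) ^ 65 := by ring
      _ ≤ (b : ℝ) ^ 136 := pow_le_pow_right₀ (by linarith) (by norm_num)
  calc 1 * ((2 : ℝ) ^ f n * b) ≤ (b : ℝ) ^ 136 := by rw [one_mul]; exact e3
    _ = 1 * (b : ℝ) ^ 136 := (one_mul _).symm
    _ ≤ |(3 : ℝ) ^ n * b - a * 2 ^ f n| * (b : ℝ) ^ 136 := mul_le_mul_of_nonneg_right e2 (by positivity)

lemma log_lip {a b : ℝ} (ha : 1 ≤ a) (hb : 1 ≤ b) : |Real.log a - Real.log b| ≤ |a - b| := by
  wlog h : b ≤ a generalizing a b with H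
  · rw [abs_sub_comm, abs_sub_comm a b]
    exact H hb ha (le_of_not_ge h)
  have hb0 : 0 < b := by linarith
  have ha0 : 0 < a := by linarith
  have h1 : Real.log b ≤ Real.log a := Real.log_le_log hb0 h
  rw [abs_of_nonneg (by linarith), abs_of_nonneg (by linarith), ← Real.log_div ha0.ne' hb0.ne']
  have h2 := Real.log_le_sub_one_of_pos (div_pos ha0 hb0)
  have h3 : a / b - 1 ≤ a - b := by
    rw [show a / b - 1 = (a - b) / b by field_simp]
    rw [div_le_iff₀ hb0]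
    nlinarith
  linarith

lemma y_pair (n n' : ℕ) (ε : ℝ) (h : |y n' - y n| < ε) :
    ∃ m : ℤ, |((n' : ℝ) - n) * al - m| < 2 * ε := by
  refine ⟨(f n' : ℤ) - f n, ?_⟩
  have hlog : ∀ k, Real.log (y k) = ((k : ℝ) * al - f k) * Real.log 2 := by
    intro k
    rw [y_eq_rpow, Real.log_rpow (by norm_num)]
  have h1 := log_lip (one_le_y n') (one_le_y n)
  rw [hlog, hlog, ← sub_mul, abs_mul] at h1
  have hl : (0.69 : ℝ) < Real.log 2 := by have := Real.log_two_gt_d9; linarith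
  rw [abs_of_pos (by linarith : 0 < Real.log 2)] at h1
  have e : ((n' : ℝ) - n) * al - (((f n' : ℤ) - f n : ℤ) : ℝ) = ((n' : ℝ) * al - f n') - (n * al - f n) := by
    push_cast; ring
  rw [e]
  have h0 := abs_nonneg (((n' : ℝ) * al - f n') - (n * al - f n))
  nlinarith

lemma union_bound (q j0 B : ℕ) (hq : 2 ^ 20 ≤ q) (hj : 4 ^ j0 ≤ 4 * q) :
    ∃ N0, ∀ N, N0 ≤ N → ∀ (a : ℕ) (S : Finset ℕ), Tr j0 N a S →
      ∃ n ∈ S, ∀ (c : ℤ) (b : ℕ), q < 1024 * b ^ 4 → b < B → 1 / (b : ℝ) ^ 136 ≤ |y n - c / b| := by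
  classical
  have hloc : ∀ b : ℕ, 2 ≤ b → ∃ N0, ∀ N, N0 ≤ N → ∀ (j0 a : ℕ) (S : Finset ℕ), Tr j0 N a S → ∀ J ⊆ S,
      (∀ n ∈ J, ∀ n' ∈ J, n < n' → ∃ m : ℤ, |((n' : ℝ) - n) * al - m| < (2 / (b : ℝ) ^ 17) ^ 8) →
      (J.card : ℝ) ≤ 12 * 2 ^ N * (2 / (b : ℝ) ^ 17) := by
    intro b hb
    have hbR : (2 : ℝ) ≤ b := by exact_mod_cast hb
    apply location al al_irr (2 / (b : ℝ) ^ 17) (by positivity)
    rw [div_lt_iff₀ (by positivity)]
    calc (2 : ℝ) < 1 / 2 * 2 ^ 17 := by norm_num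
      _ ≤ 1 / 2 * (b : ℝ) ^ 17 := by
          apply mul_le_mul_of_nonneg_left _ (by norm_num)
          exact pow_le_pow_left₀ (by norm_num) hbR 17
  choose! g hg using hloc
  refine ⟨∑ b ∈ Finset.range B, g b, ?_⟩
  intro N hN a S hTr
  by_contra hcon
  push Not at hcon
  set Rg := (Finset.range B).filter (fun b => q < 1024 * b ^ 4) with hRg
  set J : ℕ → ℕ → Finset ℕ := fun b c => S.filter (fun n => |y n - c / b| < 1 / (b : ℝ) ^ 136) with hJ
  have hRg2 : ∀ b ∈ Rg, b < B ∧ q < 1024 * b ^ 4 ∧ 2 ≤ b := by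
    intro b hb
    rw [hRg, Finset.mem_filter, Finset.mem_range] at hb
    refine ⟨hb.1, hb.2, ?_⟩
    by_contra hc
    push Not at hc
    have : b ^ 4 ≤ 1 := by interval_cases b <;> norm_num
    omega
  have hsub : S ⊆ Rg.biUnion (fun b => (Finset.range (3 * b)).biUnion (fun c => J b c)) := by
    intro n hn
    obtain ⟨c, b, hb1, hb2, hlt⟩ := hcon n hn
    have hbRg : b ∈ Rg := by
      rw [hRg, Finset.mem_filter, Finset.mem_range]; exact ⟨hb2, hb1⟩
    have hb3 := (hRg2 b hbRg).2.2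
    have hbR : (2 : ℝ) ≤ b := by exact_mod_cast hb3
    have hsmall : 1 / (b : ℝ) ^ 136 ≤ 1 / 2 := by
      apply one_div_le_one_div_of_le (by norm_num)
      calc (2 : ℝ) ≤ (b : ℝ) ^ 1 := by rw [pow_one]; exact hbR
        _ ≤ (b : ℝ) ^ 136 := pow_le_pow_right₀ (by linarith) (by norm_num)
    have hab := abs_lt.mp hlt
    have hy1 := one_le_y n
    have hy2 := y_lt_two n
    have hc0 : 0 < c := by
      have : (0 : ℝ) < c / b := by linarith
      have h2 : (0 : ℝ) < c := by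
        by_contra hc
        push Not at hc
        have : (c : ℝ) / b ≤ 0 := div_nonpos_of_nonpos_of_nonneg hc (by linarith)
        linarith
      exact_mod_cast h2
    have hc3 : c < 3 * b := by
      have : (c : ℝ) / b < 3 := by linarith
      rw [div_lt_iff₀ (by linarith)] at this
      exact_mod_cast this
    obtain ⟨c', rfl⟩ : ∃ c' : ℕ, c = c' := ⟨c.toNat, by omega⟩
    rw [Finset.mem_biUnion]
    refine ⟨b, hbRg, ?_⟩
    rw [Finset.mem_biUnion]
    refine ⟨c', Finset.mem_range.mpr (by exact_mod_cast hc3), ?_⟩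
    rw [hJ, Finset.mem_filter]
    rw [Int.cast_natCast] at hlt
    exact ⟨hn, hlt⟩
  have hJcard : ∀ b ∈ Rg, ∀ c, ((J b c).card : ℝ) ≤ 12 * 2 ^ N * (2 / (b : ℝ) ^ 17) := by
    intro b hb c
    obtain ⟨hb1, hb2, hb3⟩ := hRg2 b hb
    have hbR : (2 : ℝ) ≤ b := by exact_mod_cast hb3
    refine hg b hb3 N (le_trans (Finset.single_le_sum (f := g) (fun _ _ => Nat.zero_le _)
      (Finset.mem_range.mpr hb1)) hN) j0 a S hTr (J b c) (Finset.filter_subset _ _) ?_
    intro n hn n' hn' _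
    rw [hJ, Finset.mem_filter] at hn hn'
    have h1 : |y n' - y n| < 2 / (b : ℝ) ^ 136 := by
      have e : y n' - y n = (y n' - c / b) - (y n - c / b) := by ring
      rw [e]
      calc |(y n' - c / b) - (y n - c / b)| ≤ |y n' - c / b| + |y n - c / b| := abs_sub _ _
        _ < 1 / (b : ℝ) ^ 136 + 1 / (b : ℝ) ^ 136 := add_lt_add hn'.2 hn.2
        _ = 2 / (b : ℝ) ^ 136 := by ring
    obtain ⟨m, hm⟩ := y_pair n n' _ h1
    refine ⟨m, lt_of_lt_of_le hm ?_⟩
    rw [div_pow, ← pow_mul]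
    have : 2 * (2 / (b : ℝ) ^ 136) = 4 / (b : ℝ) ^ 136 := by ring
    rw [this]
    apply div_le_div_of_nonneg_right (by norm_num) (by positivity)
  have hqR : (0 : ℝ) < q := by
    have : 0 < q := by omega
    exact_mod_cast this
  have hScard : (S.card : ℝ) ≤ ∑ b ∈ Rg, 3 * b * (12 * 2 ^ N * (2 / (b : ℝ) ^ 17)) := by
    have e1 : S.card ≤ ∑ b ∈ Rg, ∑ c ∈ Finset.range (3 * b), (J b c).card := by
      refine le_trans (Finset.card_le_card hsub) (le_trans Finset.card_biUnion_le ?_)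
      exact Finset.sum_le_sum (fun b _ => Finset.card_biUnion_le)
    calc (S.card : ℝ) ≤ ((∑ b ∈ Rg, ∑ c ∈ Finset.range (3 * b), (J b c).card : ℕ) : ℝ) := by
          exact_mod_cast e1
      _ = ∑ b ∈ Rg, ∑ c ∈ Finset.range (3 * b), ((J b c).card : ℝ) := by push_cast; rfl
      _ ≤ ∑ b ∈ Rg, ∑ c ∈ Finset.range (3 * b), 12 * 2 ^ N * (2 / (b : ℝ) ^ 17) :=
          Finset.sum_le_sum (fun b hb => Finset.sum_le_sum (fun c _ => hJcard b hb c))
      _ = ∑ b ∈ Rg, 3 * b * (12 * 2 ^ N * (2 / (b : ℝ) ^ 17)) := by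
          apply Finset.sum_congr rfl
          intro b _
          rw [Finset.sum_const, Finset.card_range, nsmul_eq_mul]; push_cast; ring
  have hterm : ∀ b ∈ Rg, 3 * (b : ℝ) * (12 * 2 ^ N * (2 / (b : ℝ) ^ 17))
      ≤ 72 * 2 ^ N * (1024 / q) ^ 3 * ((b : ℝ) ^ 2)⁻¹ := by
    intro b hb
    obtain ⟨hb1, hb2, hb3⟩ := hRg2 b hb
    have hbR : (2 : ℝ) ≤ b := by exact_mod_cast hb3
    have hq4 : (q : ℝ) / 1024 ≤ (b : ℝ) ^ 4 := by
      rw [div_le_iff₀ (by norm_num)]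
      have : (q : ℝ) < 1024 * (b : ℝ) ^ 4 := by exact_mod_cast hb2
      linarith
    have h12 : ((q : ℝ) / 1024) ^ 3 ≤ (b : ℝ) ^ 12 := by
      calc ((q : ℝ) / 1024) ^ 3 ≤ ((b : ℝ) ^ 4) ^ 3 := pow_le_pow_left₀ (by positivity) hq4 3
        _ = (b : ℝ) ^ 12 := by ring
    have h14 : ((q : ℝ) / 1024) ^ 3 ≤ (b : ℝ) ^ 14 :=
      le_trans h12 (pow_le_pow_right₀ (by linarith) (by norm_num))
    have e1 : 3 * (b : ℝ) * (12 * 2 ^ N * (2 / (b : ℝ) ^ 17))
        = 72 * 2 ^ N * (1 / (b : ℝ) ^ 14) * ((b : ℝ) ^ 2)⁻¹ := by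
      field_simp; norm_num
    rw [e1]
    apply mul_le_mul_of_nonneg_right _ (by positivity)
    apply mul_le_mul_of_nonneg_left _ (by positivity)
    have e2 : ((1024 : ℝ) / q) ^ 3 = 1 / ((q : ℝ) / 1024) ^ 3 := by
      rw [div_pow, div_pow]; field_simp
    rw [e2]
    exact one_div_le_one_div_of_le (by positivity) h14
  have hinv : ∑ b ∈ Rg, ((b : ℝ) ^ 2)⁻¹ ≤ 2 := by
    have h1 : ∑ b ∈ Rg, ((b : ℝ) ^ 2)⁻¹ ≤ ∑ b ∈ Finset.Ioo 0 B, ((b : ℝ) ^ 2)⁻¹ := by
      apply Finset.sum_le_sum_of_subset_of_nonneg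
      · intro b hb
        obtain ⟨hb1, hb2, hb3⟩ := hRg2 b hb
        rw [Finset.mem_Ioo]; omega
      · intro i _ _; positivity
    have h2 := sum_Ioo_inv_sq_le (α := ℝ) 0 B
    norm_num at h2
    linarith
  have hfin : (S.card : ℝ) ≤ 144 * 2 ^ N * (1024 / q) ^ 3 := by
    calc (S.card : ℝ) ≤ ∑ b ∈ Rg, 3 * b * (12 * 2 ^ N * (2 / (b : ℝ) ^ 17)) := hScard
      _ ≤ ∑ b ∈ Rg, 72 * 2 ^ N * (1024 / q) ^ 3 * ((b : ℝ) ^ 2)⁻¹ := Finset.sum_le_sum hterm
      _ = 72 * 2 ^ N * (1024 / q) ^ 3 * ∑ b ∈ Rg, ((b : ℝ) ^ 2)⁻¹ := by rw [Finset.mul_sum]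
      _ ≤ 72 * 2 ^ N * (1024 / q) ^ 3 * 2 := mul_le_mul_of_nonneg_left hinv (by positivity)
      _ = 144 * 2 ^ N * (1024 / q) ^ 3 := by ring
  have hcard := hTr.card
  have hcardR : (S.card : ℝ) * 2 ^ j0 = 2 ^ N := by exact_mod_cast hcard
  have h2j : (2 : ℝ) ^ j0 ≤ 4 * q := by
    have e1 : 2 ^ j0 ≤ 4 ^ j0 := Nat.pow_le_pow_left (by norm_num) _
    have e2 : 2 ^ j0 ≤ 4 * q := le_trans e1 hj
    exact_mod_cast e2
  have hqq : (2 : ℝ) ^ 20 ≤ q := by exact_mod_cast hq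
  have hN0 : (0 : ℝ) < 2 ^ N := by positivity
  have h3 : (2 : ℝ) ^ N ≤ 144 * 2 ^ N * (1024 / q) ^ 3 * (4 * q) := by
    rw [← hcardR]
    calc (S.card : ℝ) * 2 ^ j0 ≤ (144 * 2 ^ N * (1024 / q) ^ 3) * (4 * q) :=
          mul_le_mul hfin h2j (by positivity) (by positivity)
      _ = 144 * (S.card * 2 ^ j0) * (1024 / q) ^ 3 * (4 * q) := by rw [hcardR]
  have h4 : (144 : ℝ) * 2 ^ N * (1024 / q) ^ 3 * (4 * q) = 2 ^ N * (576 * 1024 ^ 3 / q ^ 2) := by
    field_simp; ring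
  rw [h4] at h3
  have h5 : (576 : ℝ) * 1024 ^ 3 / q ^ 2 < 1 := by
    rw [div_lt_one (by positivity)]
    calc (576 : ℝ) * 1024 ^ 3 < (2 ^ 20) ^ 2 := by norm_num
      _ ≤ (q : ℝ) ^ 2 := pow_le_pow_left₀ (by norm_num) hqq 2
  nlinarith

lemma scale_exists (i0 i1 b : ℕ) (h : i0 ≤ i1) (h1 : 2 ^ 4 ^ i0 ≤ b) (h2 : b < 2 ^ 4 ^ i1) :
    ∃ i, i0 ≤ i ∧ i < i1 ∧ 2 ^ 4 ^ i ≤ b ∧ b < 2 ^ 4 ^ (i + 1) := by
  induction i1, h using Nat.le_induction with
  | base => omega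
  | succ k hk ih =>
    rcases Nat.lt_or_ge b (2 ^ 4 ^ k) with h | h
    · obtain ⟨i, h3, h4, h5, h6⟩ := ih h
      exact ⟨i, h3, by omega, h5, h6⟩
    · exact ⟨k, hk, by omega, h, h2⟩

lemma step (n0 : ℕ) (hn0 : 1 ≤ n0) (M : ℕ) : ∃ n, M ≤ n ∧
    y n0 + 1 / (16 * ((2 : ℝ) ^ f n0) ^ 2) < y n ∧ y n < y n0 + 1 / (8 * ((2 : ℝ) ^ f n0) ^ 2) ∧
    ∀ (a : ℤ) (b : ℕ), 2 ^ f n0 ≤ b → (a : ℝ) / b ≠ y n → 1 / (b : ℝ) ^ 136 ≤ |y n - a / b| := by
  have hf0 : 1 ≤ f n0 := by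
    have h1 := lt_pow_f n0
    have h2 : 3 ^ 1 ≤ 3 ^ n0 := Nat.pow_le_pow_right (by norm_num) hn0
    by_contra hc
    have : f n0 = 0 := by omega
    rw [this] at h1
    norm_num at h1 h2
    omega
  set D : ℕ := 2 ^ f n0 with hD
  have hD2 : 2 ≤ D := by
    have : 2 ^ 1 ≤ 2 ^ f n0 := Nat.pow_le_pow_right (by norm_num) hf0
    simpa using this
  have hDR : (2 : ℝ) ≤ D := by exact_mod_cast hD2
  have hDcast : ((2 : ℝ) ^ f n0) = (D : ℝ) := by rw [hD]; push_cast; rfl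
  rw [hDcast]
  set P : ℕ := 3 ^ n0 with hP
  have hx : y n0 = (P : ℝ) / D := by
    unfold y; rw [hDcast, hP]; push_cast; rfl
  set z : ℝ := (P : ℝ) / D + √2 / (16 * (D : ℝ) ^ 2) with hz
  obtain ⟨p, q, hq, hcop, hpq⟩ := large_q al al_irr (2 ^ 20 * D ^ 2)
  have hq0 : 0 < q := by omega
  have hqR0 : (0 : ℝ) < q := by exact_mod_cast hq0
  have hqR : (2 : ℝ) ^ 20 * (D : ℝ) ^ 2 < q := by exact_mod_cast hq
  have hq20 : 2 ^ 20 ≤ q := by
    have : 1 ≤ D ^ 2 := Nat.one_le_pow _ _ (by omega)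
    nlinarith
  have hD2R : (4 : ℝ) ≤ (D : ℝ) ^ 2 := by nlinarith
  have hεD : 8 / (q : ℝ) ≤ (1 / 2 ^ 17) * (1 / (D : ℝ) ^ 2) := by
    rw [div_le_iff₀ hqR0]
    have : (1 / 2 ^ 17) * (1 / (D : ℝ) ^ 2) * (2 ^ 20 * (D : ℝ) ^ 2) = 8 := by
      field_simp; norm_num
    calc (8 : ℝ) = (1 / 2 ^ 17) * (1 / (D : ℝ) ^ 2) * (2 ^ 20 * (D : ℝ) ^ 2) := this.symm
      _ ≤ (1 / 2 ^ 17) * (1 / (D : ℝ) ^ 2) * q := mul_le_mul_of_nonneg_left hqR.le (by positivity)
  set E : ℝ := 1 / (D : ℝ) ^ 2 with hE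
  have hE0 : 0 < E := by positivity
  have hE1 : E ≤ 1 / 4 := one_div_le_one_div_of_le (by norm_num) hD2R
  have hs1 : (1.41 : ℝ) ≤ √2 := by
    rw [show (1.41 : ℝ) = √(1.41 ^ 2) by rw [Real.sqrt_sq (by norm_num)]]
    exact Real.sqrt_le_sqrt (by norm_num)
  have hs2 : √2 ≤ (1.42 : ℝ) := by
    rw [show (1.42 : ℝ) = √(1.42 ^ 2) by rw [Real.sqrt_sq (by norm_num)]]
    exact Real.sqrt_le_sqrt (by norm_num)
  have hzE : z = (P : ℝ) / D + (√2 / 16) * E := by
    rw [hz, hE]; field_simp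
  have hx1 : 1 ≤ (P : ℝ) / D := by rw [← hx]; exact one_le_y n0
  have hx2 : (P : ℝ) / D ≤ 2 - E := by
    have h1 : P + 1 ≤ 2 * D := by
      have := lt_pow_f n0
      rw [pow_succ] at this
      omega
    have h2 : (P : ℝ) + 1 ≤ 2 * D := by exact_mod_cast h1
    have h3 : E ≤ 1 / D := by
      rw [hE]
      apply one_div_le_one_div_of_le (by linarith)
      nlinarith
    have h4 : (P : ℝ) / D ≤ 2 - 1 / D := by
      rw [div_le_iff₀ (by linarith)]
      have : (2 - 1 / (D : ℝ)) * D = 2 * D - 1 := by field_simp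
      rw [this]; linarith
    linarith
  have hz1 : 1 + 4 * (2 / (q : ℝ)) ≤ z := by
    rw [hzE]
    have : 4 * (2 / (q : ℝ)) = 8 / q := by ring
    rw [this]
    nlinarith
  have hz2 : z + 4 * (2 / (q : ℝ)) < 2 := by
    rw [hzE]
    have : 4 * (2 / (q : ℝ)) = 8 / q := by ring
    rw [this]
    nlinarith
  -- level j0
  obtain ⟨i, hi1, hi2⟩ := exists_nat_pow_near (by exact_mod_cast hq0 : (1 : ℝ) ≤ q) (by norm_num : (1 : ℝ) < 4)
  have hi1' : 4 ^ i ≤ q := by exact_mod_cast hi1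
  have hi2' : q < 4 ^ (i + 1) := by exact_mod_cast hi2
  have hi0 : 1 ≤ i := by
    by_contra hc
    have : i = 0 := by omega
    rw [this] at hi2'
    norm_num at hi2' hq20
    omega
  obtain ⟨N0, hN0⟩ := union_bound q (i + 1) (2 ^ 4 ^ (i - 1)) hq20 (by rw [pow_succ]; omega)
  have hsel : ∀ s, ∃ n, s ≤ n ∧ n < s + 4 ^ (i + 1) ∧ |y n - z| ≤ 4 * (2 / (q : ℝ)) := by
    intro s
    obtain ⟨n, h1, h2, m, hm⟩ := sel al (Real.logb 2 z) p q hq0 hcop hpq s
    refine ⟨n, h1, by omega, y_close z (2 / q) (by positivity) ?_ hz1 hz2 n m hm⟩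
    rw [div_le_iff₀ hqR0]
    have : (2 : ℝ) ^ 20 ≤ q := by exact_mod_cast hq20
    norm_num at this
    linarith
  have hB : ∀ N, i + 1 ≤ N → ∀ n k, 0 < k → k < 4 ^ (N + 1) → Bad (N - 2) n → Bad (N - 2) (n + k) →
      k < 4 ^ N := by
    intro N hN n k hk hk' h1 h2
    obtain ⟨j, rfl⟩ : ∃ j, N = j + 2 := ⟨N - 2, by omega⟩
    exact cluster j n k hk hk' h1 h2
  obtain ⟨S, hS, hSg⟩ := tree_exists (i + 1) (fun n => |y n - z| ≤ 4 * (2 / (q : ℝ))) hsel
    (fun N n => Bad (N - 2) n) hB (N0 + (i + 1) + M) (by omega) (4 ^ (N0 + (i + 1) + M))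
  obtain ⟨n, hnS, hnU⟩ := hN0 (N0 + (i + 1) + M) (by omega) _ S hS
  obtain ⟨hnW, hnB⟩ := hSg n hnS
  obtain ⟨hn1, hn2⟩ := hS.sub n hnS
  have hnz := abs_le.mp hnW
  have h8 : 4 * (2 / (q : ℝ)) = 8 / q := by ring
  rw [h8] at hnz
  refine ⟨n, ?_, ?_, ?_, ?_⟩
  · have h1 : M < 4 ^ M := Nat.lt_pow_self (by norm_num)
    have h2 : 4 ^ M ≤ 4 ^ (N0 + (i + 1) + M) := Nat.pow_le_pow_right (by norm_num) (by omega)
    omega
  · rw [hx]
    have : 1 / (16 * (D : ℝ) ^ 2) = E / 16 := by rw [hE]; field_simp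
    rw [this]
    nlinarith [hzE]
  · rw [hx]
    have : 1 / (8 * (D : ℝ) ^ 2) = E / 8 := by rw [hE]; field_simp
    rw [this]
    nlinarith [hzE]
  · intro a b hb hne
    have hbR : (2 : ℝ) ≤ b := by
      have : 2 ≤ b := by omega
      exact_mod_cast this
    by_cases hc1 : 1024 * b ^ 4 ≤ q
    · have h1 := z_dist P D (by omega) a b hb
      have h2 : 8 / (q : ℝ) ≤ 1 / (128 * (b : ℝ) ^ 4) := by
        rw [div_le_div_iff₀ hqR0 (by positivity)]
        have : (1024 : ℝ) * (b : ℝ) ^ 4 ≤ q := by exact_mod_cast hc1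
        linarith
      have h3 : |z - a / b| ≤ |y n - a / b| + |y n - z| := by
        have : z - a / b = (y n - a / b) - (y n - z) := by ring
        rw [this]
        exact abs_sub _ _
      have h4 : 1 / (64 * (b : ℝ) ^ 4) = 2 * (1 / (128 * (b : ℝ) ^ 4)) := by field_simp; norm_num
      have h5 : |y n - z| ≤ 8 / q := by rw [← h8]; exact hnW
      have h6 : 1 / (b : ℝ) ^ 136 ≤ 1 / (128 * (b : ℝ) ^ 4) := by
        apply one_div_le_one_div_of_le (by positivity)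
        calc 128 * (b : ℝ) ^ 4 ≤ (b : ℝ) ^ 7 * (b : ℝ) ^ 4 := by
              apply mul_le_mul_of_nonneg_right _ (by positivity)
              calc (128 : ℝ) = 2 ^ 7 := by norm_num
                _ ≤ (b : ℝ) ^ 7 := pow_le_pow_left₀ (by norm_num) hbR 7
          _ = (b : ℝ) ^ 11 := by ring
          _ ≤ (b : ℝ) ^ 136 := pow_le_pow_right₀ (by linarith) (by norm_num)
      have h7 : 1 / (64 * (b : ℝ) ^ 4) ≤ |z - a / b| := h1
      linarith
    · push Not at hc1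
      by_cases hc2 : b < 2 ^ 4 ^ (i - 1)
      · exact hnU a b hc1 hc2
      · push Not at hc2
        by_cases hc3 : b < 2 ^ 4 ^ (N0 + (i + 1) + M - 2)
        · obtain ⟨i', h1, h2, h3, h4⟩ := scale_exists (i - 1) (N0 + (i + 1) + M - 2) b (by omega) hc2 hc3
          have h5 := hnB (i' + 2) (by omega) (by omega)
          by_contra hc
          push Not at hc
          exact h5 ⟨a, b, h3, h4, hc⟩
        · push Not at hc3
          refine big_b (N0 + (i + 1) + M - 2) n ?_ a b hc3 hne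
          rw [show N0 + (i + 1) + M - 2 + 2 = N0 + (i + 1) + M by omega]
          omega

lemma le_f (n : ℕ) : n ≤ f n := by
  unfold f
  apply Nat.le_log_of_pow_le (by norm_num)
  exact Nat.pow_le_pow_left (by norm_num) _

/-- integrality of continuants -/
lemma contsAux_int (ξ : ℝ) (hξ : Irrational ξ) : ∀ n, ∃ A B : ℤ,
    (GenContFract.of ξ).contsAux n = ⟨(A : ℝ), (B : ℝ)⟩ := by
  have hnt : ∀ n, ¬ (GenContFract.of ξ).TerminatedAt n := by
    intro n hn
    have : (GenContFract.of ξ).Terminates := ⟨n, hn⟩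
    obtain ⟨q, hq⟩ := GenContFract.exists_rat_eq_of_terminates this
    exact hξ ⟨q, hq.symm⟩
  have key : ∀ n, (∃ A B : ℤ, (GenContFract.of ξ).contsAux n = ⟨(A : ℝ), (B : ℝ)⟩) ∧
      (∃ A B : ℤ, (GenContFract.of ξ).contsAux (n + 1) = ⟨(A : ℝ), (B : ℝ)⟩) := by
    intro n
    induction n with
    | zero =>
      refine ⟨⟨1, 0, ?_⟩, ⟨⌊ξ⌋, 1, ?_⟩⟩
      · rw [GenContFract.zeroth_contAux_eq_one_zero]; norm_num
      · rw [GenContFract.first_contAux_eq_h_one, GenContFract.of_h_eq_floor]; norm_num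
    | succ n ih =>
      obtain ⟨⟨A, B, h1⟩, ⟨A', B', h2⟩⟩ := ih
      refine ⟨⟨A', B', h2⟩, ?_⟩
      obtain ⟨gp, hgp⟩ : ∃ gp, (GenContFract.of ξ).s.get? n = some gp :=
        Option.ne_none_iff_exists'.mp (hnt n)
      obtain ⟨ha, z, hz⟩ := GenContFract.of_partNum_eq_one_and_exists_int_partDen_eq hgp
      refine ⟨z * A' + A, z * B' + B, ?_⟩
      rw [GenContFract.contsAux_recurrence hgp h1 h2, ha, hz]
      push_cast
      simp
  exact fun n => (key n).1

lemma convs_coprime (ξ : ℝ) (hξ : Irrational ξ) (n : ℕ) : ∃ A B : ℤ,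
    (A : ℝ) = (GenContFract.of ξ).nums n ∧ (B : ℝ) = (GenContFract.of ξ).dens n ∧
    IsCoprime A B ∧ 0 < B := by
  have hnt : ∀ n, ¬ (GenContFract.of ξ).TerminatedAt n := by
    intro n hn
    have : (GenContFract.of ξ).Terminates := ⟨n, hn⟩
    obtain ⟨q, hq⟩ := GenContFract.exists_rat_eq_of_terminates this
    exact hξ ⟨q, hq.symm⟩
  have hnd : ∀ n, ∃ A B : ℤ, (A : ℝ) = (GenContFract.of ξ).nums n ∧ (B : ℝ) = (GenContFract.of ξ).dens n := by
    intro n
    obtain ⟨A, B, h⟩ := contsAux_int ξ hξ (n + 1)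
    refine ⟨A, B, ?_, ?_⟩
    · rw [GenContFract.num_eq_conts_a, GenContFract.nth_cont_eq_succ_nth_contAux, h]
    · rw [GenContFract.den_eq_conts_b, GenContFract.nth_cont_eq_succ_nth_contAux, h]
  obtain ⟨A, B, h1, h2⟩ := hnd n
  obtain ⟨A', B', h1', h2'⟩ := hnd (n + 1)
  refine ⟨A, B, h1, h2, ?_, ?_⟩
  · have hdet := SimpContFract.determinant (s := SimpContFract.of ξ) (n := n) (hnt n)
    have e : ((SimpContFract.of ξ : SimpContFract ℝ) : GenContFract ℝ) = GenContFract.of ξ := rfl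
    rw [e, ← h1, ← h2, ← h1', ← h2'] at hdet
    have hdetZ : A * B' - B * A' = (-1) ^ (n + 1) := by exact_mod_cast hdet
    rcases neg_one_pow_eq_or ℤ (n + 1) with hp | hp
    · rw [hp] at hdetZ
      exact ⟨B', -A', by linarith⟩
    · rw [hp] at hdetZ
      exact ⟨-B', A', by linarith⟩
  · have h3 : ((Nat.fib (n + 1) : ℕ) : ℝ) ≤ (GenContFract.of ξ).dens n :=
      GenContFract.succ_nth_fib_le_of_nth_den (Or.inr (hnt _))
    have h4 : 0 < Nat.fib (n + 1) := Nat.fib_pos.mpr (by omega)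
    rw [← h2] at h3
    have h5 : (0 : ℝ) < (Nat.fib (n + 1) : ℕ) := by exact_mod_cast h4
    have h6 : (0 : ℝ) < B := lt_of_lt_of_le h5 h3
    exact_mod_cast h6

/-- y n as a rational number -/
lemma y_rat (n : ℕ) : ∃ r : ℚ, (r : ℝ) = y n ∧ r.num = 3 ^ n ∧ r.den = 2 ^ f n := by
  have hcop : Nat.Coprime (3 ^ n) (2 ^ f n) := Nat.Coprime.pow _ _ (by norm_num)
  refine ⟨((3 ^ n : ℕ) : ℚ) / ((2 ^ f n : ℕ) : ℚ), ?_, ?_, ?_⟩
  · unfold y; push_cast; rfl
  · have := Rat.num_div_eq_of_coprime (a := ((3 ^ n : ℕ) : ℤ)) (b := ((2 ^ f n : ℕ) : ℤ)) (by positivity)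
      (by simpa using hcop)
    have e : (((3 ^ n : ℕ) : ℤ) : ℚ) / (((2 ^ f n : ℕ) : ℤ) : ℚ) = ((3 ^ n : ℕ) : ℚ) / ((2 ^ f n : ℕ) : ℚ) := by
      push_cast; rfl
    rw [e] at this
    rw [this]; push_cast; rfl
  · have := Rat.den_div_eq_of_coprime (a := ((3 ^ n : ℕ) : ℤ)) (b := ((2 ^ f n : ℕ) : ℤ)) (by positivity)
      (by simpa using hcop)
    have e : (((3 ^ n : ℕ) : ℤ) : ℚ) / (((2 ^ f n : ℕ) : ℤ) : ℚ) = ((3 ^ n : ℕ) : ℚ) / ((2 ^ f n : ℕ) : ℚ) := by
      push_cast; rfl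
    rw [e] at this
    exact_mod_cast this

lemma y_ne (n : ℕ) (a : ℤ) (b : ℕ) (hb0 : 0 < b) (hb : b < 2 ^ f n) : (a : ℝ) / b ≠ y n := by
  intro h
  have hb0R : (0 : ℝ) < b := by exact_mod_cast hb0
  have h1 : (a : ℝ) * 2 ^ f n = 3 ^ n * b := by
    unfold y at h
    rw [div_eq_div_iff hb0R.ne' (by positivity)] at h
    exact h
  have h2 : a * 2 ^ f n = 3 ^ n * b := by exact_mod_cast h1
  have h3 : (2 ^ f n : ℤ) ∣ 3 ^ n * b := ⟨a, by rw [← h2]; ring⟩
  have h4 : 2 ^ f n ∣ 3 ^ n * b := by exact_mod_cast h3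
  have hcop : Nat.Coprime (2 ^ f n) (3 ^ n) := Nat.Coprime.pow _ _ (by norm_num)
  have h5 : 2 ^ f n ∣ b := hcop.dvd_of_dvd_mul_left h4
  have := Nat.le_of_dvd hb0 h5
  omega

theorem witness : ∃ ξ : ℝ, Irrational ξ ∧ (∀ N : ℕ, ∃ n ≥ N, ∃ a b : ℤ,
        (a : ℝ) = (GenContFract.of ξ).nums n ∧
        (b : ℝ) = (GenContFract.of ξ).dens n ∧
        ∀ p : ℕ, p.Prime → (p ∣ a.natAbs ∨ p ∣ b.natAbs) → p ≤ 3) ∧ ¬ Liouville ξ := by
  have hstep := fun (n0 : ℕ) (hn0 : 1 ≤ n0) => step n0 hn0 (f n0 + 1)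
  choose! g hg using hstep
  set nn : ℕ → ℕ := fun k => g^[k] 1 with hnn
  have hnn_succ : ∀ k, nn (k + 1) = g (nn k) := fun k => Function.iterate_succ_apply' g k 1
  have hnn1 : ∀ k, 1 ≤ nn k := by
    intro k
    induction k with
    | zero => simp [hnn]
    | succ k ih =>
      rw [hnn_succ]
      have := (hg (nn k) ih).1
      omega
  have hs : ∀ k, f (nn k) + 1 ≤ nn (k + 1) ∧
      y (nn k) + 1 / (16 * ((2 : ℝ) ^ f (nn k)) ^ 2) < y (nn (k + 1)) ∧
      y (nn (k + 1)) < y (nn k) + 1 / (8 * ((2 : ℝ) ^ f (nn k)) ^ 2) ∧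
      ∀ (a : ℤ) (b : ℕ), 2 ^ f (nn k) ≤ b → (a : ℝ) / b ≠ y (nn (k + 1)) →
        1 / (b : ℝ) ^ 136 ≤ |y (nn (k + 1)) - a / b| := by
    intro k
    rw [hnn_succ]
    exact hg (nn k) (hnn1 k)
  set D : ℕ → ℝ := fun k => (2 : ℝ) ^ f (nn k) with hD
  set x : ℕ → ℝ := fun k => y (nn k) with hx
  have hDdef : ∀ k, D k = (2 : ℝ) ^ f (nn k) := fun k => rfl
  have hD0 : ∀ k, 0 < D k := fun k => by rw [hD]; positivity
  have hf_succ : ∀ k, f (nn k) + 1 ≤ f (nn (k + 1)) := fun k =>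
    le_trans (hs k).1 (le_f _)
  have hf_add : ∀ k j, f (nn k) + j ≤ f (nn (k + j)) := by
    intro k j
    induction j with
    | zero => simp
    | succ j ih =>
      have := hf_succ (k + j)
      rw [show k + (j + 1) = k + j + 1 by ring]
      omega
  have hDadd : ∀ k j, 2 ^ j * D k ≤ D (k + j) := by
    intro k j
    rw [hD]
    simp only
    rw [← pow_add]
    apply pow_le_pow_right₀ (by norm_num)
    have := hf_add k j
    omega
  have hxlt : ∀ k, x k < x (k + 1) := by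
    intro k
    have h1 := (hs k).2.1
    have h2 : (0 : ℝ) < 1 / (16 * ((2 : ℝ) ^ f (nn k)) ^ 2) := by positivity
    show y (nn k) < y (nn (k + 1))
    linarith
  have hxmono : StrictMono x := strictMono_nat_of_lt_succ hxlt
  have hclaim : ∀ k j, x (k + j) ≤ x k + (1 / (6 * D k ^ 2)) * (1 - (1 / 4) ^ j) := by
    intro k j
    induction j with
    | zero => simp
    | succ j ih =>
      have h1 : x (k + (j + 1)) ≤ x (k + j) + 1 / (8 * D (k + j) ^ 2) := (hs (k + j)).2.2.1.le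
      have h2 : 1 / (8 * D (k + j) ^ 2) ≤ (1 / 4) ^ j * (1 / (8 * D k ^ 2)) := by
        have h3 : (2 ^ j * D k) ^ 2 ≤ D (k + j) ^ 2 :=
          pow_le_pow_left₀ (by have := hD0 k; positivity) (hDadd k j) 2
        have h4 : (2 ^ j * D k) ^ 2 = 4 ^ j * D k ^ 2 := by
          rw [mul_pow, ← pow_mul, mul_comm j 2, pow_mul]; norm_num
        rw [h4] at h3
        have hDk := hD0 k
        have h5 : (1 / 4 : ℝ) ^ j * (1 / (8 * D k ^ 2)) = 1 / (8 * (4 ^ j * D k ^ 2)) := by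
          rw [div_pow, one_pow]; field_simp
        rw [h5]
        apply one_div_le_one_div_of_le (by positivity)
        linarith
      have hDk := hD0 k
      have h6 : (1 / (6 * D k ^ 2)) * (1 - (1 / 4) ^ (j + 1))
          = (1 / (6 * D k ^ 2)) * (1 - (1 / 4) ^ j) + (1 / 4) ^ j * (1 / (8 * D k ^ 2)) := by
        rw [pow_succ]; field_simp; ring
      rw [h6]
      linarith
  have hclaim2 : ∀ k i, x i ≤ x k + 1 / (6 * D k ^ 2) := by
    intro k i
    have hDk := hD0 k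
    rcases Nat.lt_or_ge i k with h | h
    · have := hxmono h
      have h2 : 0 < 1 / (6 * D k ^ 2) := by positivity
      linarith
    · obtain ⟨j, rfl⟩ : ∃ j, i = k + j := ⟨i - k, by omega⟩
      have h1 := hclaim k j
      have h2 : (1 / (6 * D k ^ 2)) * (1 - (1 / 4) ^ j) ≤ 1 / (6 * D k ^ 2) := by
        have : (0 : ℝ) ≤ (1 / 4) ^ j := by positivity
        have h3 : 0 ≤ 1 / (6 * D k ^ 2) := by positivity
        nlinarith
      linarith
  have hbdd : BddAbove (Set.range x) := ⟨2, by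
    rintro _ ⟨k, rfl⟩
    exact (y_lt_two _).le⟩
  set ξ : ℝ := ⨆ k, x k with hξ
  have hxle : ∀ k, x k ≤ ξ := fun k => le_ciSup hbdd k
  have hxlt' : ∀ k, x k < ξ := fun k => lt_of_lt_of_le (hxlt k) (hxle (k + 1))
  have hξle : ∀ k, ξ ≤ x k + 1 / (6 * D k ^ 2) := fun k => ciSup_le (hclaim2 k)
  have hDge : ∀ k, (2 : ℝ) ^ k ≤ D k := by
    intro k
    have h1 := hDadd 0 k
    rw [zero_add] at h1
    have h2 : (1 : ℝ) ≤ D 0 := by
      rw [hD]; exact one_le_pow₀ (by norm_num)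
    have h3 : (0 : ℝ) < 2 ^ k := by positivity
    nlinarith
  have hirr : Irrational ξ := by
    rintro ⟨r, hr⟩
    obtain ⟨k, hk⟩ := pow_unbounded_of_one_lt (r.den : ℝ) (by norm_num : (1 : ℝ) < 2)
    have hkD : (r.den : ℝ) < D k := lt_of_lt_of_le hk (hDge k)
    have hd0 : (0 : ℝ) < r.den := by exact_mod_cast r.pos
    have hDk := hD0 k
    have h1 : 0 < ξ - x k := by have := hxlt' k; linarith
    have h2 : ξ - x k ≤ 1 / (6 * D k ^ 2) := by have := hξle k; linarith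
    have hrr : ξ = (r.num : ℝ) / r.den := by
      rw [← hr]
      exact_mod_cast (Rat.num_div_den r).symm
    have hxk : x k = (3 : ℝ) ^ (nn k) / D k := rfl
    have h3 : ξ - x k = (r.num * D k - 3 ^ (nn k) * r.den) / (r.den * D k) := by
      rw [hrr, hxk]; field_simp
    have h4 : (0 : ℝ) < r.num * D k - 3 ^ (nn k) * r.den := by
      rw [h3] at h1
      have h5 : 0 < (r.den : ℝ) * D k := by positivity
      have := (div_pos_iff_of_pos_right h5).mp h1
      exact this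
    have h5 : (1 : ℝ) ≤ r.num * D k - 3 ^ (nn k) * r.den := by
      have e : (r.num : ℝ) * D k - 3 ^ (nn k) * r.den
          = ((r.num * 2 ^ f (nn k) - 3 ^ (nn k) * r.den : ℤ) : ℝ) := by
        rw [hD]; push_cast; ring
      rw [e] at h4 ⊢
      have h6 : 0 < r.num * 2 ^ f (nn k) - 3 ^ (nn k) * (r.den : ℤ) := by exact_mod_cast h4
      have h7 : 1 ≤ r.num * 2 ^ f (nn k) - 3 ^ (nn k) * (r.den : ℤ) := h6
      exact_mod_cast h7
    rw [h3] at h2
    rw [div_le_div_iff₀ (by positivity) (by positivity)] at h2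
    nlinarith
  refine ⟨ξ, hirr, ?_, ?_⟩
  · intro N
    -- Legendre
    have hleg : ∀ k, ∃ i, (GenContFract.of ξ).convs i = x k := by
      intro k
      obtain ⟨r, hr1, hr2, hr3⟩ := y_rat (nn k)
      have hDk := hD0 k
      have h1 : |ξ - r| < 1 / (2 * (r.den : ℝ) ^ 2) := by
        rw [hr1, hr3]
        have h2 : 0 < ξ - x k := by have := hxlt' k; linarith
        have h3 : ξ - x k ≤ 1 / (6 * D k ^ 2) := by have := hξle k; linarith
        have h4 : |ξ - y (nn k)| = ξ - x k := abs_of_pos h2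
        rw [h4]
        refine lt_of_le_of_lt h3 ?_
        have h5 : (((2 ^ f (nn k) : ℕ) : ℝ)) = D k := by rw [hD]; push_cast; rfl
        rw [h5]
        apply one_div_lt_one_div_of_lt (by positivity)
        nlinarith [sq_nonneg (D k), pow_pos hDk 2]
      obtain ⟨i, hi⟩ := Real.exists_convs_eq_rat h1
      exact ⟨i, by rw [hi, hr1]⟩
    obtain ⟨k, i, hi, hiN⟩ : ∃ k i, (GenContFract.of ξ).convs i = x k ∧ N ≤ i := by
      by_contra hcon
      push Not at hcon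
      have hinf : (((fun i => (GenContFract.of ξ).convs i) '' (Set.Iio N))).Infinite := by
        apply Set.infinite_of_injective_forall_mem hxmono.injective
        intro k
        obtain ⟨i, hi⟩ := hleg k
        exact ⟨i, hcon k i hi, hi⟩
      exact hinf ((Set.finite_Iio N).image _)
    obtain ⟨A, B, hA, hB, hcop, hBpos⟩ := convs_coprime ξ hirr i
    refine ⟨i, hiN, A, B, hA, hB, ?_⟩
    have hBR : (0 : ℝ) < B := by exact_mod_cast hBpos
    have hDk := hD0 k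
    have h1 : (A : ℝ) / B = (3 : ℝ) ^ (nn k) / D k := by
      have : (A : ℝ) / B = x k := by
        rw [hA, hB, ← hi, GenContFract.conv_eq_num_div_den]
      exact this
    rw [div_eq_div_iff hBR.ne' hDk.ne'] at h1
    have h2 : A * 2 ^ f (nn k) = 3 ^ (nn k) * B := by
      rw [hDdef] at h1
      exact_mod_cast h1
    have hA3 : A ∣ 3 ^ (nn k) := by
      have : A ∣ 3 ^ (nn k) * B := ⟨2 ^ f (nn k), h2.symm⟩
      exact hcop.dvd_of_dvd_mul_right this
    have hB2 : B ∣ 2 ^ f (nn k) := by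
      have : B ∣ A * 2 ^ f (nn k) := ⟨3 ^ (nn k), by rw [h2]; ring⟩
      exact hcop.symm.dvd_of_dvd_mul_left this
    intro p hp hdiv
    rcases hdiv with hdiv | hdiv
    · have h3 : A.natAbs ∣ (3 ^ (nn k)) := by
        have := Int.natAbs_dvd_natAbs.mpr hA3
        simpa [Int.natAbs_pow] using this
      have h4 : p ∣ 3 := hp.dvd_of_dvd_pow (hdiv.trans h3)
      exact Nat.le_of_dvd (by norm_num) h4
    · have h3 : B.natAbs ∣ (2 ^ f (nn k)) := by
        have := Int.natAbs_dvd_natAbs.mpr hB2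
        simpa [Int.natAbs_pow] using this
      have h4 : p ∣ 2 := hp.dvd_of_dvd_pow (hdiv.trans h3)
      have := Nat.le_of_dvd (by norm_num) h4
      omega
  · intro hL
    have hfreq := hL.frequently_exists_num 137
    rw [Filter.frequently_atTop] at hfreq
    obtain ⟨b, hb, a, hne, hlt⟩ := hfreq (2 ^ f (nn 0) + 2)
    have hb2 : 2 ≤ b := by
      have h0 : 0 < 2 ^ f (nn 0) := by positivity
      omega
    have hbR : (2 : ℝ) ≤ b := by exact_mod_cast hb2
    -- find k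
    have hex : ∃ k, b < 2 ^ f (nn k) := by
      obtain ⟨k, hk⟩ := pow_unbounded_of_one_lt (b : ℝ) (by norm_num : (1 : ℝ) < 2)
      refine ⟨k, ?_⟩
      have h1 : (b : ℝ) < D k := lt_of_lt_of_le hk (hDge k)
      rw [hDdef] at h1
      exact_mod_cast h1
    classical
    obtain ⟨k, hk1, hk2⟩ : ∃ k, 2 ^ f (nn k) ≤ b ∧ b < 2 ^ f (nn (k + 1)) := by
      have hspec := Nat.find_spec hex
      have hmin := fun m (hm : m < Nat.find hex) => Nat.find_min hex hm
      rcases Nat.eq_zero_or_pos (Nat.find hex) with h0 | hpos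
      · rw [h0] at hspec; omega
      · obtain ⟨k, hk⟩ : ∃ k, Nat.find hex = k + 1 := ⟨Nat.find hex - 1, by omega⟩
        refine ⟨k, ?_, ?_⟩
        · have := hmin k (by omega)
          omega
        · rw [hk] at hspec; exact hspec
    have hne1 := y_ne (nn (k + 1)) a b (by omega) hk2
    have h1 := (hs k).2.2.2 a b hk1 hne1
    have hDk := hD0 (k + 1)
    set δ := |y (nn (k + 1)) - a / b| with hδ
    have h2 : 1 / ((b : ℝ) * D (k + 1)) ≤ δ := by
      have e1 : y (nn (k + 1)) - a / b = ((3 : ℝ) ^ (nn (k + 1)) * b - a * D (k + 1)) / (b * D (k + 1)) := by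
        have : y (nn (k + 1)) = (3 : ℝ) ^ (nn (k + 1)) / D (k + 1) := rfl
        rw [this]; field_simp
      rw [hδ, e1, abs_div, abs_of_pos (by positivity : 0 < (b : ℝ) * D (k + 1))]
      apply div_le_div_of_nonneg_right _ (by positivity)
      have hne2 : (3 : ℤ) ^ (nn (k + 1)) * b - a * 2 ^ f (nn (k + 1)) ≠ 0 := by
        intro hc
        apply hne1
        have h3 : (3 : ℝ) ^ (nn (k + 1)) * b - a * D (k + 1) = 0 := by
          rw [hDdef]; exact_mod_cast hc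
        have h4 : y (nn (k + 1)) - a / b = 0 := by rw [e1, h3, zero_div]
        linarith
      have := Int.one_le_abs hne2
      have h5 : ((1 : ℤ) : ℝ) ≤ ((|(3 : ℤ) ^ (nn (k + 1)) * b - a * 2 ^ f (nn (k + 1))| : ℤ) : ℝ) := by
        exact_mod_cast this
      rw [hDdef]
      push_cast at h5
      exact h5
    have hbD : (b : ℝ) ≤ D (k + 1) := by
      rw [hDdef]
      exact_mod_cast hk2.le
    have h3 : 1 / (6 * D (k + 1) ^ 2) ≤ δ / 6 := by
      have e : 1 / (6 * D (k + 1) ^ 2) = (1 / (D (k + 1) * D (k + 1))) / 6 := by field_simp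
      rw [e]
      apply div_le_div_of_nonneg_right _ (by norm_num)
      refine le_trans ?_ h2
      apply one_div_le_one_div_of_le (by positivity)
      exact mul_le_mul_of_nonneg_right hbD hDk.le
    have h4 : |ξ - y (nn (k + 1))| ≤ δ / 6 := by
      have e1 : 0 < ξ - x (k + 1) := by have := hxlt' (k + 1); linarith
      have e2 : ξ - x (k + 1) ≤ 1 / (6 * D (k + 1) ^ 2) := by have := hξle (k + 1); linarith
      have e3 : |ξ - y (nn (k + 1))| = ξ - x (k + 1) := abs_of_pos e1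
      rw [e3]; linarith
    have h5 : δ ≤ |ξ - a / b| + |ξ - y (nn (k + 1))| := by
      have e : y (nn (k + 1)) - a / b = (ξ - a / b) - (ξ - y (nn (k + 1))) := by ring
      rw [hδ, e]
      exact abs_sub _ _
    have h6 : 1 / (b : ℝ) ^ 137 ≤ (5 / 6) * (1 / (b : ℝ) ^ 136) := by
      rw [pow_succ]
      have : 1 / ((b : ℝ) ^ 136 * b) = (1 / b) * (1 / (b : ℝ) ^ 136) := by field_simp
      rw [this]
      apply mul_le_mul_of_nonneg_right _ (by positivity)
      rw [div_le_div_iff₀ (by linarith) (by norm_num)]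
      linarith
    linarith


/-- The negation of the preceding statement: If ξ is irrational and some bound B is such that, for infinitely many n, every prime dividing the n-th convergent numerator or denominator of ξ is at most B, then ξ is a Liouville number. -/
theorem result :
    ¬ (∀ ξ : ℝ, Irrational ξ →
      (∃ B : ℕ, ∀ N : ℕ, ∃ n ≥ N, ∃ a b : ℤ,
        (a : ℝ) = (GenContFract.of ξ).nums n ∧
        (b : ℝ) = (GenContFract.of ξ).dens n ∧
        ∀ p : ℕ, p.Prime → (p ∣ a.natAbs ∨ p ∣ b.natAbs) → p ≤ B) →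
      Liouville ξ) := by
  intro h
  obtain ⟨ξ, h1, h2, h3⟩ := witness
  exact h3 (h ξ h1 ⟨3, h2⟩)

end Pool.Agent.S11004
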