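import Pool.Statements.S11016
import Pool.Agent.Helper259.Selmer.Alpha

set_option autoImplicit false
open Pool Pool.MP_9cc257_nt

namespace Pool.Agent.S11016

open Polynomial NumberField Pool.Agent.Helper259.Selmer in
/-- The example in degree `n` prime. -/
theorem example_prime {n : ℕ} (hn : n.Prime) : ∃ (α : ℂ) (p : Polynomial ℤ),
    Irreducible p ∧ Polynomial.aeval α p = 0 ∧
    IsGalois ℚ (IntermediateField.adjoin ℚ ({α} : Set ℂ)) ∧
    Nonempty (((IntermediateField.adjoin ℚ ({α} : Set ℂ)) ≃ₐ[ℚ]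
          (IntermediateField.adjoin ℚ ({α} : Set ℂ))) ≃* Equiv.Perm (Fin n)) ∧
    Real.log (Polynomial.mahlerMeasure (p.map (Int.castRingHom ℂ))) / (p.natDegree : ℝ) ≤ B := by
  set f : ℚ[X] := X ^ n - X - 1 with hf
  set L : IntermediateField ℚ ℂ := IntermediateField.adjoin ℚ (f.rootSet ℂ) with hL
  have hsplit : IsSplittingField ℚ L f :=
    IntermediateField.adjoin_rootSet_isSplittingField (IsAlgClosed.splits _)
  have hfd : FiniteDimensional ℚ L := hsplit.finiteDimensional L f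
  have hNF : NumberField L := { to_charZero := inferInstance, to_finiteDimensional := hfd }
  have hsep : f.Separable := (X_pow_sub_X_sub_one_irreducible_rat hn.ne_one).separable
  have hGal : IsGalois ℚ L := IsGalois.of_separable_splitting_field hsep
  obtain ⟨α, hα, hH⟩ := exists_alpha hn hsplit (algebraMap L ℂ)
  obtain ⟨h1, h2, h3⟩ := mahler α hα
  have hint : IsIntegral ℤ ((α : L) : ℂ) := by
    have h1 : IsIntegral ℤ (α : L) := RingOfIntegers.isIntegral_coe α
    exact h1.map (Algebra.algHom ℤ L ℂ)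
  have tr1 : ∀ K : IntermediateField ℚ ℂ, K = L → IsGalois ℚ K := by
    rintro K rfl; exact hGal
  have hF : (F n).map (algebraMap ℤ L) = f.map (algebraMap ℚ L) := by
    rw [F_map, hf]; simp
  have hcard := card_rootSet_int hn.two_le (by rw [hF]; exact hsplit.splits)
  have hequiv : Nonempty ((L ≃ₐ[ℚ] L) ≃* Equiv.Perm (Fin n)) :=
    ⟨(MulEquiv.ofBijective _ (bijective hn hsplit)).trans
      (Equiv.permCongrHom (Fintype.equivFinOfCardEq hcard))⟩
  have tr2 : ∀ K : IntermediateField ℚ ℂ, K = L →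
      Nonempty ((K ≃ₐ[ℚ] K) ≃* Equiv.Perm (Fin n)) := by
    rintro K rfl; exact hequiv
  refine ⟨((α : L) : ℂ), minpoly ℤ ((α : L) : ℂ), minpoly.irreducible hint,
    minpoly.aeval ℤ _, tr1 _ h1, tr2 _ h1, ?_⟩
  rw [h3, h2]
  have hpos : (0 : ℝ) < Fintype.card (L ≃ₐ[ℚ] L) := by exact_mod_cast Fintype.card_pos
  rw [div_le_iff₀ hpos]
  linarith

theorem result :
    ¬ (∀ B : ℝ, ∃ N : ℕ, ∀ n : ℕ, N ≤ n → ∀ α : ℂ, ∀ p : Polynomial ℤ,
      Irreducible p → Polynomial.aeval α p = 0 →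
      IsGalois ℚ (IntermediateField.adjoin ℚ ({α} : Set ℂ)) →
      Nonempty (((IntermediateField.adjoin ℚ ({α} : Set ℂ)) ≃ₐ[ℚ]
          (IntermediateField.adjoin ℚ ({α} : Set ℂ))) ≃* Equiv.Perm (Fin n)) →
      B < Real.log (Polynomial.mahlerMeasure (p.map (Int.castRingHom ℂ))) / (p.natDegree : ℝ)) := by
  intro h
  obtain ⟨N, hN⟩ := h Pool.Agent.Helper259.Selmer.B
  obtain ⟨n, hn, hp⟩ := Nat.exists_infinite_primes N
  obtain ⟨α, p, h1, h2, h3, h4, h5⟩ := example_prime hp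
  exact absurd h5 (not_le.mpr (hN n hn α p h1 h2 h3 h4))

end Pool.Agent.S11016
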