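import Pool.Statements.S11019
import Pool.Agent.Helper840.TotientApprox

set_option autoImplicit false
open Filter Topology
open Pool Pool.MP_9d1108_nt

namespace Pool.Agent.S11019

open Finset in
lemma density_one (ψ : ℕ → ℕ) (h1 : Tendsto ψ atTop atTop) :
    Tendsto (fun N : ℕ => ((({n : ℕ | (n : ℝ) ≤ Real.sqrt (ψ n) * Nat.totient n} ∩ Set.Iio N).ncard : ℝ) / (N : ℝ)))
      atTop (𝓝 1) := by
  classical
  set A : Set ℕ := {n : ℕ | (n : ℝ) ≤ Real.sqrt (ψ n) * Nat.totient n} with hA
  have hsq : Tendsto (fun n : ℕ => Real.sqrt (ψ n)) atTop atTop :=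
    Real.tendsto_sqrt_atTop.comp (tendsto_natCast_atTop_atTop.comp h1)
  have hcard : ∀ N : ℕ, (A ∩ Set.Iio N).ncard = ((range N).filter (fun n => n ∈ A)).card := by
    intro N
    rw [← Set.ncard_coe_finset]
    congr 1
    ext n
    simp only [Set.mem_inter_iff, Set.mem_Iio, coe_filter, mem_range, Set.mem_ofPred_eq]
    tauto
  have hupper : ∀ N : ℕ, ((A ∩ Set.Iio N).ncard : ℝ) / (N : ℝ) ≤ 1 := by
    intro N
    apply div_le_one_of_le₀ _ (by positivity)
    rw [hcard]
    have : ((range N).filter (fun n => n ∈ A)).card ≤ N := by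
      calc _ ≤ (range N).card := Finset.card_filter_le _ _
        _ = N := card_range N
    exact_mod_cast this
  rw [tendsto_order]
  constructor
  · intro a ha
    set ε : ℝ := 1 - a with hε
    have hεpos : 0 < ε := by rw [hε]; linarith
    obtain ⟨c, hc, hcount⟩ := Pool.Agent.Helper840.TotientApprox.totient_tight (ε / 4) (by positivity)
    obtain ⟨n0, hn0⟩ := (hsq.eventually_ge_atTop (1 / c)).exists_forall_of_atTop
    have hlarge : ∀ᶠ N : ℕ in atTop, (4 * (n0 : ℝ)) / ε ≤ N :=
      (tendsto_natCast_atTop_atTop (R := ℝ)).eventually_ge_atTop _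
    filter_upwards [hlarge, eventually_gt_atTop 0] with N hN hNpos
    have hNpos' : (0 : ℝ) < N := by exact_mod_cast hNpos
    rw [lt_div_iff₀ hNpos', hcard]
    have hsub : (range N).filter (fun n => ¬ n ∈ A) ⊆
        range n0 ∪ (Icc 1 N).filter (fun n => (Nat.totient n : ℝ) < c * n) := by
      intro n hn
      rw [mem_filter, mem_range] at hn
      rw [mem_union, mem_range, mem_filter, mem_Icc]
      by_cases hlt : n < n0
      · exact Or.inl hlt
      · right
        have h2 := hn0 n (by omega)
        have h3 := hn.2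
        simp only [hA, Set.mem_ofPred_eq, not_le] at h3
        have hnpos : (0 : ℝ) < n := by
          apply lt_of_le_of_lt _ h3
          positivity
        have hnpos' : 0 < n := by exact_mod_cast hnpos
        refine ⟨⟨hnpos', hn.1.le⟩, ?_⟩
        have h4 : 1 / c * (Nat.totient n : ℝ) ≤ Real.sqrt (ψ n) * Nat.totient n :=
          mul_le_mul_of_nonneg_right h2 (by positivity)
        have h5 : 1 / c * (Nat.totient n : ℝ) < n := lt_of_le_of_lt h4 h3
        rw [one_div, inv_mul_lt_iff₀ hc] at h5
        exact h5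
    have hc1 : (((range N).filter (fun n => ¬ n ∈ A)).card : ℝ) ≤ n0 + ε / 4 * N := by
      calc (((range N).filter (fun n => ¬ n ∈ A)).card : ℝ)
          ≤ ((range n0 ∪ (Icc 1 N).filter (fun n => (Nat.totient n : ℝ) < c * n)).card : ℝ) := by
            exact_mod_cast Finset.card_le_card hsub
        _ ≤ (((range n0).card + ((Icc 1 N).filter (fun n => (Nat.totient n : ℝ) < c * n)).card : ℕ) : ℝ) := by
            exact_mod_cast Finset.card_union_le _ _
        _ ≤ n0 + ε / 4 * N := by
            rw [card_range]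
            push_cast
            have := hcount N
            linarith
    have hc2 : (((range N).filter (fun n => n ∈ A)).card : ℝ) +
        (((range N).filter (fun n => ¬ n ∈ A)).card : ℝ) = N := by
      have := Finset.card_filter_add_card_filter_not (s := range N) (fun n => n ∈ A)
      rw [card_range] at this
      exact_mod_cast this
    rw [div_le_iff₀ hεpos] at hN
    have h6 : a = 1 - ε := by rw [hε]; ring
    rw [h6]
    nlinarith
  · intro a ha
    exact Filter.Eventually.of_forall (fun N => lt_of_le_of_lt (hupper N) ha)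

/-- There is F with F(x)→∞ and F(n)/φ(n)→0 along a density-one set, such that for some C only finitely many x have more than C·F(x) integers n with n+φ(n) in the open interval (x, x+F(x)). -/
theorem result :
    ∃ F : ℕ → ℝ, Tendsto F atTop atTop ∧
      (∃ A : Set ℕ,
        Tendsto (fun N : ℕ => ((A ∩ Set.Iio N).ncard : ℝ) / (N : ℝ)) atTop (𝓝 1) ∧
        Tendsto (fun n : ℕ => F n / (Nat.totient n : ℝ)) (atTop ⊓ 𝓟 A) (𝓝 0)) ∧
      ¬ (∀ C : ℝ, Set.Infinite {x : ℕ |
          ((Set.ncard {n : ℕ | (x : ℝ) < (n : ℝ) + (Nat.totient n : ℝ) ∧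
              (n : ℝ) + (Nat.totient n : ℝ) < (x : ℝ) + F x} : ℕ) : ℝ) > C * F x}) := by
  obtain ⟨ψ, hψ, hsq, X, hX⟩ :=
    Pool.Agent.Helper840.SlowF.exists_slow Nat.totient Nat.totient_zero
      Pool.Agent.Helper840.TotientApprox.approx_totient
  refine ⟨fun x => (x : ℝ) / (ψ x : ℝ), Pool.Agent.Helper840.SlowF.tendsto_F ψ hψ hsq,
    ⟨{n : ℕ | (n : ℝ) ≤ Real.sqrt (ψ n) * Nat.totient n}, density_one ψ hψ, ?_⟩, ?_⟩
  · have hsqt : Tendsto (fun n : ℕ => Real.sqrt (ψ n)) atTop atTop :=
      Real.tendsto_sqrt_atTop.comp (tendsto_natCast_atTop_atTop.comp hψ)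
    have hinv : Tendsto (fun n : ℕ => (Real.sqrt (ψ n))⁻¹) atTop (𝓝 0) :=
      tendsto_inv_atTop_zero.comp hsqt
    apply squeeze_zero' (g := fun n : ℕ => (Real.sqrt (ψ n))⁻¹)
    · exact Filter.Eventually.of_forall (fun n => by positivity)
    · rw [eventually_inf_principal]
      filter_upwards [hψ.eventually_ge_atTop 1, eventually_gt_atTop 0] with n hn hnpos hnA
      have hnA : (n : ℝ) ≤ Real.sqrt (ψ n) * Nat.totient n := hnA
      have hψpos : (0 : ℝ) < ψ n := by exact_mod_cast hn
      have hφpos : (0 : ℝ) < Nat.totient n := by exact_mod_cast Nat.totient_pos.2 hnpos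
      have hs : (0 : ℝ) < Real.sqrt (ψ n) := Real.sqrt_pos.2 hψpos
      rw [div_div, div_le_iff₀ (by positivity)]
      have h1 : (Real.sqrt (ψ n))⁻¹ * ((ψ n : ℝ) * Nat.totient n) = Real.sqrt (ψ n) * Nat.totient n := by
        have h2 : (ψ n : ℝ) = Real.sqrt (ψ n) * Real.sqrt (ψ n) :=
          (Real.mul_self_sqrt hψpos.le).symm
        calc (Real.sqrt (ψ n))⁻¹ * ((ψ n : ℝ) * Nat.totient n)
            = (Real.sqrt (ψ n))⁻¹ * ((Real.sqrt (ψ n) * Real.sqrt (ψ n)) * Nat.totient n) := by
              rw [← h2]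
          _ = Real.sqrt (ψ n) * Nat.totient n := by
              field_simp
      rw [h1]
      exact hnA
    · exact hinv.mono_left inf_le_left
  · push Not
    refine ⟨4, ?_⟩
    apply Set.Finite.subset (Set.finite_Iio X)
    intro x hx
    simp only [Set.mem_ofPred_eq] at hx
    rw [Set.mem_Iio]
    by_contra hcon
    have h1 := (hX x (by omega)).2
    linarith

end Pool.Agent.S11019
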