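import Pool.Statements.S11023
import Pool.Agent.Helper923.Mono

set_option autoImplicit false
open Pool Pool.MP_9da210_nt

namespace Pool.Agent.S11023

/-- There is g with log log N = o(g) and 1 ≤ g(N) ≤ N eventually, such that for every k with 1 ≤ k(N) ≤ N and k = O(g), for all large N every k(N)-colouring of {1..N} has at least N/10 sums a+b with a ≠ b of the same colour. -/
theorem result : ∃ g : ℕ → ℝ,
    (fun N : ℕ => Real.log (Real.log (N : ℝ))) =o[Filter.atTop] g ∧
    (∀ᶠ N : ℕ in Filter.atTop, 1 ≤ g N ∧ g N ≤ (N : ℝ)) ∧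
    ∀ k : ℕ → ℕ, (∀ N : ℕ, 1 ≤ N → 1 ≤ k N ∧ k N ≤ N) →
      (fun N : ℕ => (k N : ℝ)) =O[Filter.atTop] g →
      ∀ᶠ N : ℕ in Filter.atTop, ∀ c : ℕ → Fin (k N),
        (N : ℝ) / 10 ≤
          ((Set.ncard {s : ℕ | ∃ a b : ℕ, 1 ≤ a ∧ a ≤ N ∧ 1 ≤ b ∧ b ≤ N ∧
              a ≠ b ∧ c a = c b ∧ a + b = s} : ℕ) : ℝ) := by
  refine ⟨fun N => Real.exp (Pool.Agent.Helper923.Mono.c0 * Pool.Agent.Helper923.Mono.s N),
    ?_, ?_, ?_⟩
  · -- log log N = 6 s^2 = o(exp (c0 s))
    have h1 : (fun x : ℝ => x ^ 2) =o[Filter.atTop]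
        (fun x : ℝ => Real.exp (Pool.Agent.Helper923.Mono.c0 * x)) :=
      isLittleO_pow_exp_pos_mul_atTop 2 Pool.Agent.Helper923.Mono.c0_pos
    have h2 := (h1.comp_tendsto Pool.Agent.Helper923.Mono.s_tendsto).const_mul_left 6
    refine h2.congr' ?_ (Filter.EventuallyEq.refl _ _)
    filter_upwards [Pool.Agent.Helper923.Mono.loglog_tendsto.eventually_ge_atTop 0] with N hN
    simp only [Function.comp, Pool.Agent.Helper923.Mono.s]
    rw [Real.sq_sqrt (by positivity)]
    ring
  · filter_upwards [Pool.Agent.Helper923.Mono.loglog_tendsto.eventually_ge_atTop 1,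
      Pool.Agent.Helper923.Mono.s_tendsto.eventually_ge_atTop 1,
      Filter.eventually_ge_atTop 3] with N hN hs hN3
    have hc := Pool.Agent.Helper923.Mono.c0_pos
    have hc1 := Pool.Agent.Helper923.Mono.c0_le
    refine ⟨Real.one_le_exp (by positivity), ?_⟩
    have hNpos : (0 : ℝ) < N := by
      have : 0 < N := by omega
      exact_mod_cast this
    rw [← Real.le_log_iff_exp_le hNpos]
    have hsq : 6 * Pool.Agent.Helper923.Mono.s N ^ 2 = Real.log (Real.log N) := by
      unfold Pool.Agent.Helper923.Mono.s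
      rw [Real.sq_sqrt (by linarith)]
      ring
    have hlog : 0 < Real.log N := by
      apply Real.log_pos
      have : 1 < N := by omega
      exact_mod_cast this
    have h3 : Real.log (Real.log N) ≤ Real.log N := by
      have := Real.log_le_sub_one_of_pos hlog
      linarith
    nlinarith
  · intro k hk hO
    obtain ⟨C, hC⟩ := hO.bound
    have hc := Pool.Agent.Helper923.Mono.c0_pos
    have hlim : Filter.Tendsto (fun N : ℕ => (|C| * Real.exp (4 * Pool.Agent.Helper923.Mono.c0))
        * Real.exp (-(Pool.Agent.Helper923.Mono.c0 * Pool.Agent.Helper923.Mono.s N)))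
        Filter.atTop (nhds 0) := by
      have h1 : Filter.Tendsto (fun N : ℕ => Pool.Agent.Helper923.Mono.c0
          * Pool.Agent.Helper923.Mono.s N) Filter.atTop Filter.atTop :=
        Filter.Tendsto.const_mul_atTop hc Pool.Agent.Helper923.Mono.s_tendsto
      have h2 := (Real.tendsto_exp_neg_atTop_nhds_zero.comp h1).const_mul
        (|C| * Real.exp (4 * Pool.Agent.Helper923.Mono.c0))
      simpa [Function.comp] using h2
    have hev : ∀ᶠ N : ℕ in Filter.atTop, (|C| * Real.exp (4 * Pool.Agent.Helper923.Mono.c0))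
        * Real.exp (-(Pool.Agent.Helper923.Mono.c0 * Pool.Agent.Helper923.Mono.s N)) < 0.4 :=
      hlim.eventually_lt_const (by norm_num)
    filter_upwards [hC, hev, Pool.Agent.Helper923.Mono.loglog_tendsto.eventually_ge_atTop 1,
      Pool.Agent.Helper923.Mono.s_tendsto.eventually_ge_atTop 2,
      Filter.eventually_ge_atTop 1] with N h1 h2 h3 h4 h5 c
    have h6 := Pool.Agent.Helper923.Mono.mono_count N _
      (Pool.Agent.Helper923.Mono.roth_s N h3 h4) c
    refine le_trans ?_ h6
    have hN1 : (1 : ℝ) ≤ N := by exact_mod_cast h5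
    have h7 : (k N : ℝ) ≤ |C| * Real.exp (Pool.Agent.Helper923.Mono.c0
        * Pool.Agent.Helper923.Mono.s N) := by
      rw [Real.norm_eq_abs, Real.norm_eq_abs, abs_of_nonneg (by positivity),
        abs_of_pos (Real.exp_pos _)] at h1
      refine h1.trans ?_
      gcongr
      exact le_abs_self C
    have h8 : (k N : ℝ) * (Real.exp (4 * Pool.Agent.Helper923.Mono.c0)
        * Real.exp (-2 * Pool.Agent.Helper923.Mono.c0 * Pool.Agent.Helper923.Mono.s N)
        * (N + 1)) ≤ 0.4 * (N + 1) := by
      calc (k N : ℝ) * (Real.exp (4 * Pool.Agent.Helper923.Mono.c0)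
          * Real.exp (-2 * Pool.Agent.Helper923.Mono.c0 * Pool.Agent.Helper923.Mono.s N)
          * (N + 1))
          ≤ (|C| * Real.exp (Pool.Agent.Helper923.Mono.c0
            * Pool.Agent.Helper923.Mono.s N)) * (Real.exp (4 * Pool.Agent.Helper923.Mono.c0)
          * Real.exp (-2 * Pool.Agent.Helper923.Mono.c0 * Pool.Agent.Helper923.Mono.s N)
          * (N + 1)) := by gcongr
        _ = ((|C| * Real.exp (4 * Pool.Agent.Helper923.Mono.c0))
          * Real.exp (-(Pool.Agent.Helper923.Mono.c0 * Pool.Agent.Helper923.Mono.s N)))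
            * (N + 1) := by
            have e : Real.exp (-(Pool.Agent.Helper923.Mono.c0 * Pool.Agent.Helper923.Mono.s N))
                = Real.exp (Pool.Agent.Helper923.Mono.c0 * Pool.Agent.Helper923.Mono.s N)
                * Real.exp (-2 * Pool.Agent.Helper923.Mono.c0
                  * Pool.Agent.Helper923.Mono.s N) := by
              rw [← Real.exp_add]; congr 1; ring
            rw [e]; ring
        _ ≤ _ := by gcongr
    linarith

end Pool.Agent.S11023
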