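import Pool.Statements.S11027
import Pool.Agent.Helper316.Main

set_option autoImplicit false
open Pool Pool.MP_9e760c_nt

namespace Pool.Agent.S11027

/-- For every natural number n greater than 5040, the sum of 1/(e − d) over all pairs of divisors d < e of n is strictly less than the number of divisors of n. -/
theorem result :
    ∀ n : ℕ, 5040 < n →
      (∑ d ∈ n.divisors, ∑ e ∈ n.divisors.filter (fun e => d < e),
          (1 : ℝ) / ((e : ℝ) - (d : ℝ))) < (n.divisors.card : ℝ) := by
  intro n hn
  exact Pool.Agent.Helper316.final n hn

end Pool.Agent.S11027
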