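import Pool.Statements.S11134
import Pool.Agent.Helper468.Apery.Main

set_option autoImplicit false
open Pool Pool.MP_ae71a2_nt

namespace Pool.Agent.S11134

/-- The negation of the preceding statement: The 5-adic valuation of the Apéry numbers, as an integer sequence, is 5-regular: the ℤ-module spanned by all subsequences n ↦ b(5^e n + r) with 0 ≤ r < 5^e is finitely generated. -/
theorem result :
    ¬ (∀ b : ℕ → ℤ,
      (∀ n : ℕ, b n = ((padicValNat 5
          (∑ k ∈ Finset.range (n + 1), (n.choose k) ^ 2 * ((n + k).choose k) ^ 2) : ℕ) : ℤ)) →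
      (Submodule.span ℤ
        {f : ℕ → ℤ | ∃ e r : ℕ, r < 5 ^ e ∧ f = fun n => b (5 ^ e * n + r)}).FG) := by
  intro h
  exact Pool.Agent.Helper468.Apery.not_regular _ (fun n => rfl)
    (h (fun n => ((padicValNat 5 (Pool.Agent.Helper468.Apery.aper n) : ℕ) : ℤ)) (fun n => rfl))

end Pool.Agent.S11134
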