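import Pool.Statements.S11180

set_option autoImplicit false
open Pool Pool.MP_b6bacc_nt

namespace Pool.Agent.S11180

namespace Aux

open Polynomial Classical

noncomputable section

abbrev K := AlgebraicClosure (ZMod 2)

/-- The finite subfield with `2^n` elements (for `n > 0`). -/
def F (n : ℕ) : Subfield K where
  carrier := {x | x ^ (2 ^ n) = x}
  mul_mem' := by
    intro x y hx hy
    simp only [Set.mem_ofPred_eq] at *
    rw [mul_pow, hx, hy]
  one_mem' := by simp
  add_mem' := by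
    intro x y hx hy
    simp only [Set.mem_ofPred_eq] at *
    rw [add_pow_char_pow, hx, hy]
  zero_mem' := by simp
  neg_mem' := by
    intro x hx
    simp only [Set.mem_ofPred_eq] at *
    rw [CharTwo.neg_eq, hx]
  inv_mem' := by
    intro x hx
    simp only [Set.mem_ofPred_eq] at *
    rw [inv_pow, hx]

lemma mem_F {n : ℕ} {x : K} : x ∈ F n ↔ x ^ (2 ^ n) = x := Iff.rfl

lemma pow_of_mem {n : ℕ} {x : K} (hx : x ∈ F n) (m : ℕ) : x ^ (2 ^ (n * m)) = x := by
  induction m with
  | zero => simp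
  | succ m ih => rw [Nat.mul_succ, pow_add, pow_mul, ih, mem_F.mp hx]

lemma F_le {n m : ℕ} (h : n ∣ m) : F n ≤ F m := by
  obtain ⟨c, rfl⟩ := h
  intro x hx
  exact pow_of_mem hx c

lemma card_F {n : ℕ} (hn : 0 < n) : Nat.card (F n) = 2 ^ n := by
  have h2 : (1 : ℕ) < 2 ^ n := Nat.one_lt_two_pow hn.ne'
  have hsep : (X ^ (2 ^ n) - X : K[X]).Separable :=
    galois_poly_separable 2 (2 ^ n) (dvd_pow_self 2 hn.ne')
  have hdeg : (X ^ (2 ^ n) - X : K[X]).natDegree = 2 ^ n :=
    FiniteField.X_pow_card_sub_X_natDegree_eq K h2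
  have hne : (X ^ (2 ^ n) - X : K[X]) ≠ 0 := FiniteField.X_pow_card_sub_X_ne_zero K h2
  have h1 : Fintype.card ((X ^ (2 ^ n) - X : K[X]).rootSet K) = 2 ^ n := by
    rw [card_rootSet_eq_natDegree hsep (IsAlgClosed.splits _), hdeg]
  have h3 : ((F n : Subfield K) : Set K) = (X ^ (2 ^ n) - X : K[X]).rootSet K := by
    ext x
    rw [mem_rootSet_of_ne hne]
    simp [mem_F, sub_eq_zero]
  rw [← h1, ← Nat.card_eq_fintype_card]
  exact Nat.card_congr (Equiv.setCongr h3)

lemma finite_F {n : ℕ} (hn : 0 < n) : Finite (F n) := by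
  apply Nat.finite_of_card_ne_zero
  rw [card_F hn]
  positivity

/-- truncated trace: sum of `y ^ (2 ^ (m * i))` for `i < n`. -/
def tr (m n : ℕ) (y : K) : K := ∑ i ∈ Finset.range n, y ^ (2 ^ (m * i))

lemma tr_add (m n : ℕ) (x y : K) : tr m n (x + y) = tr m n x + tr m n y := by
  simp only [tr, add_pow_char_pow, Finset.sum_add_distrib]

lemma tr_zero (m n : ℕ) : tr m n 0 = 0 := by
  simp [tr]

lemma tr_mul {m n : ℕ} {w : K} (hw : w ∈ F m) (y : K) : tr m n (w * y) = w * tr m n y := by
  simp only [tr, mul_pow, Finset.mul_sum, pow_of_mem hw]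

lemma tr_pow (m n j : ℕ) (y : K) : (tr m n y) ^ (2 ^ j) = ∑ i ∈ Finset.range n, y ^ (2 ^ (m * i + j)) := by
  simp only [tr]
  rw [sum_pow_char_pow]
  refine Finset.sum_congr rfl (fun i _ => ?_)
  rw [← pow_mul, ← pow_add]

lemma tr_mem {m n : ℕ} {y : K} (hy : y ∈ F (m * n)) : tr m n y ∈ F m := by
  rw [mem_F, tr_pow]
  have h1 := Finset.sum_range_succ (fun i => y ^ (2 ^ (m * i))) n
  have h2 := Finset.sum_range_succ' (fun i => y ^ (2 ^ (m * i))) n
  rw [h1] at h2
  simp only [mul_zero, pow_zero, pow_one, mem_F.mp hy, Nat.mul_succ] at h2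
  exact (add_right_cancel h2).symm

lemma tr_tr (m n : ℕ) (y : K) : tr 1 m (tr m n y) = tr 1 (m * n) y := by
  have h : tr 1 m (tr m n y) = ∑ j ∈ Finset.range m, ∑ i ∈ Finset.range n, y ^ (2 ^ (m * i + j)) := by
    rw [tr]
    refine Finset.sum_congr rfl (fun j _ => ?_)
    rw [one_mul, tr_pow]
  rw [h, tr, Finset.sum_comm]
  clear h
  induction n with
  | zero => simp
  | succ n ih =>
    rw [Finset.sum_range_succ, ih, Nat.mul_succ, Finset.sum_range_add]
    simp

lemma tr_sq_add (n : ℕ) (z : K) : tr 1 n (z ^ 2 + z) = z ^ (2 ^ n) + z := by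
  induction n with
  | zero => simp [tr, CharTwo.add_self_eq_zero]
  | succ n ih =>
    have h : tr 1 (n + 1) (z ^ 2 + z) = tr 1 n (z ^ 2 + z) + (z ^ 2 + z) ^ (2 ^ n) := by
      simp [tr, Finset.sum_range_succ]
    rw [h, ih, add_pow_char_pow, ← pow_mul, ← pow_succ']
    have := CharTwo.add_self_eq_zero (z ^ 2 ^ n)
    linear_combination this

/-- Artin-Schreier: solvability in `F n` is governed by the trace. -/
lemma exists_as (y : K) : ∃ z : K, z ^ 2 + z = y := by
  obtain ⟨z, hz⟩ := IsAlgClosed.exists_root (X ^ 2 + X - C y : K[X]) (by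
    have : (X ^ 2 + X - C y : K[X]).degree = 2 := by compute_degree!
    rw [this]; norm_num)
  refine ⟨z, ?_⟩
  simp [IsRoot.def] at hz
  linear_combination hz

lemma as_iff {z t : K} : z ^ 2 + z = t ^ 2 + t ↔ z = t ∨ z = t + 1 := by
  constructor
  · intro h
    have h2 : (z + t) * (z + t + 1) = 0 := by
      have h3 : (2 : K) = 0 := CharTwo.two_eq_zero
      linear_combination h + (z * t + t ^ 2 + t) * h3
    rcases mul_eq_zero.mp h2 with h | h
    · left
      exact CharTwo.add_eq_zero.mp h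
    · right
      rw [add_assoc] at h
      exact CharTwo.add_eq_zero.mp h
  · rintro (rfl | rfl)
    · rfl
    · have h3 : (2 : K) = 0 := CharTwo.two_eq_zero
      linear_combination (t + 1) * h3

lemma card_as {n : ℕ} (hn : 0 < n) {y : K} (hy : y ∈ F n) :
    Nat.card {z : F n // (z : K) ^ 2 + z = y} = if tr 1 n y = 0 then 2 else 0 := by
  split_ifs with h
  · obtain ⟨t, ht⟩ := exists_as y
    have htF : t ∈ F n := by
      rw [← ht, tr_sq_add] at h
      exact CharTwo.add_eq_zero.mp h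
    have e : {z : F n // (z : K) ^ 2 + z = y} ≃ ({t, t + 1} : Finset K) :=
      { toFun := fun z => ⟨z.1, by
          have := as_iff.mp (z.2.trans ht.symm)
          simpa using this⟩
        invFun := fun z => ⟨⟨z.1, by
          have := z.2
          simp only [Finset.mem_insert, Finset.mem_singleton] at this
          rcases this with h | h
          · rw [h]; exact htF
          · rw [h]; exact add_mem htF (one_mem _)⟩, by
          have := z.2
          simp only [Finset.mem_insert, Finset.mem_singleton] at this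
          simp only
          rw [← ht, as_iff]
          exact this⟩
        left_inv := fun z => by ext; rfl
        right_inv := fun z => by ext; rfl }
    rw [Nat.card_congr e, Nat.card_eq_fintype_card, Fintype.card_coe, Finset.card_pair]
    simp
  · have : IsEmpty {z : F n // (z : K) ^ 2 + z = y} := by
      refine ⟨fun z => h ?_⟩
      rw [← z.2, tr_sq_add, mem_F.mp z.1.2, CharTwo.add_self_eq_zero]
    exact Nat.card_of_isEmpty

lemma sum_tr {n : ℕ} (hn : 0 < n) [Fintype (F n)] :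
    ∑ w : F n, (if tr 1 n (w : K) = 0 then 2 else 0) = 2 ^ n := by
  have h : ∑ w : F n, (if tr 1 n (w : K) = 0 then 2 else 0)
      = ∑ w : F n, Nat.card {z : F n // (z : K) ^ 2 + z = w} :=
    Finset.sum_congr rfl (fun w _ => (card_as hn w.2).symm)
  rw [h, ← Nat.card_sigma, ← card_F hn]
  refine Nat.card_congr ?_
  exact
    { toFun := fun x => x.2.1
      invFun := fun z => ⟨⟨(z : K) ^ 2 + z, add_mem (pow_mem z.2 2) z.2⟩, ⟨z, rfl⟩⟩
      left_inv := by
        rintro ⟨⟨y, hy⟩, ⟨z, hz⟩⟩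
        simp only at hz
        subst hz
        rfl
      right_inv := fun z => rfl }

lemma card_pairs {m n : ℕ} (hm : 0 < m) (hn : 0 < n) {g : K} (hg : g ∈ F (m * n)) :
    Nat.card {p : F m × F (m * n) // (p.2 : K) ^ 2 + p.2 = g * p.1}
      = if tr m n g = 0 then 2 * 2 ^ m else 2 ^ m := by
  have := finite_F hm
  have := finite_F (Nat.mul_pos hm hn)
  have : Fintype (F m) := Fintype.ofFinite _
  have hle : F m ≤ F (m * n) := F_le (Dvd.intro n rfl)
  have e : {p : F m × F (m * n) // (p.2 : K) ^ 2 + p.2 = g * p.1} ≃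
      (Σ w : F m, {z : F (m * n) // (z : K) ^ 2 + z = g * w}) :=
    { toFun := fun p => ⟨p.1.1, ⟨p.1.2, p.2⟩⟩
      invFun := fun x => ⟨(x.1, x.2.1), x.2.2⟩
      left_inv := fun p => rfl
      right_inv := fun x => rfl }
  rw [Nat.card_congr e, Nat.card_sigma]
  have h1 : ∀ w : F m, Nat.card {z : F (m * n) // (z : K) ^ 2 + z = g * w}
      = if tr 1 m ((w : K) * tr m n g) = 0 then 2 else 0 := by
    intro w
    rw [card_as (Nat.mul_pos hm hn) (mul_mem hg (hle w.2)), ← tr_tr, mul_comm g, tr_mul w.2]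
  simp only [h1]
  split_ifs with h
  · simp only [h, mul_zero, tr_zero, if_true]
    rw [Finset.sum_const, Finset.card_univ, ← Nat.card_eq_fintype_card, card_F hm, smul_eq_mul, mul_comm]
  · rw [← sum_tr hm]
    have ht : tr m n g ∈ F m := tr_mem hg
    refine Fintype.sum_bijective (fun w : F m => w * ⟨tr m n g, ht⟩) ?_ _ _ ?_
    · apply Function.Injective.bijective_of_finite
      intro x y hxy
      have h0 : (⟨tr m n g, ht⟩ : F m) ≠ 0 := by
        intro h0
        exact h (congrArg Subtype.val h0)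
      exact mul_right_cancel₀ h0 hxy
    · intro w
      rfl

lemma F_gcd {m n : ℕ} {x : K} (hm : x ∈ F m) (hn : x ∈ F n) : x ∈ F (Nat.gcd m n) := by
  have key : ∀ j : ℕ, x ∈ F j ↔ Function.IsPeriodicPt (fun y : K => y ^ 2) j x := by
    intro j
    rw [mem_F, Function.IsPeriodicPt, Function.IsFixedPt]
    have : (fun y : K => y ^ 2)^[j] x = x ^ (2 ^ j) := by
      rw [pow_iterate]
    rw [this]
  rw [key] at *
  exact hm.gcd hn

/-- `F (k * n)` as an intermediate field over `F k`. -/
def E (k n : ℕ) : IntermediateField (F k) K :=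
  { F (k * n) with
    algebraMap_mem' := fun x => pow_of_mem x.2 n }

lemma mem_E {k n : ℕ} {x : K} : x ∈ E k n ↔ x ∈ F (k * n) := Iff.rfl

lemma card_E {k n : ℕ} (hk : 0 < k) (hn : 0 < n) : Nat.card (E k n) = 2 ^ (k * n) :=
  card_F (Nat.mul_pos hk hn)

lemma finite_E {k n : ℕ} (hk : 0 < k) (hn : 0 < n) : Finite (E k n) :=
  finite_F (Nat.mul_pos hk hn)

lemma finrank_E {k n : ℕ} (hk : 0 < k) (hn : 0 < n) : Module.finrank (F k) (E k n) = n := by
  have := finite_E hk hn
  have := finite_F hk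
  have h := Module.natCard_eq_pow_finrank (K := F k) (V := E k n)
  rw [card_E hk hn, card_F hk, ← pow_mul] at h
  have h2 := Nat.pow_right_injective (le_refl 2) h
  exact (Nat.eq_of_mul_eq_mul_left hk h2).symm

lemma disj {k a c : ℕ} (hk : 0 < k) (ha : 0 < a) (hc : 0 < c) (h : Nat.Coprime a c) :
    (E k a).LinearDisjoint (E k c) := by
  apply IntermediateField.LinearDisjoint.of_finrank_coprime
  rw [finrank_E hk ha, finrank_E hk hc]
  exact h

lemma finrank_span {k a c : ℕ} (hk : 0 < k) (ha : 0 < a) (hc : 0 < c) (h : Nat.Coprime a c)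
    {b : ℕ} (x : Fin b → E k a) :
    Module.finrank (E k c) (Submodule.span (E k c) (Set.range (fun j => (x j : K))))
      = Module.finrank (F k) (Submodule.span (F k) (Set.range x)) := by
  have := finite_E hk ha
  have : Module.Finite (F k) (E k a) := Module.Finite.of_finite
  set S := Submodule.span (F k) (Set.range x) with hS
  let e := Module.finBasis (F k) S
  have he : LinearIndependent (F k) (fun i => (e i : E k a)) :=
    e.linearIndependent.map' S.subtype (Submodule.ker_subtype S)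
  have he2 := (disj hk ha hc h).linearIndependent_left he
  have hspan : Submodule.span (E k c) (Set.range (fun j => (x j : K)))
      = Submodule.span (E k c) (Set.range ((E k a).val ∘ fun i => (e i : E k a))) := by
    apply le_antisymm
    · rw [Submodule.span_le]
      rintro _ ⟨j, rfl⟩
      have hx : (⟨x j, Submodule.subset_span ⟨j, rfl⟩⟩ : S) = ∑ i, e.repr ⟨x j, Submodule.subset_span ⟨j, rfl⟩⟩ i • e i :=
        (e.sum_repr _).symm
      have hx2 : (x j : K) = ∑ i, (e.repr ⟨x j, Submodule.subset_span ⟨j, rfl⟩⟩ i) • ((e i : E k a) : K) := by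
        have := congrArg ((E k a).val.toLinearMap ∘ₗ S.subtype) hx
        rw [map_sum] at this
        simp only [map_smul] at this
        exact this
      simp only [SetLike.mem_coe]
      rw [hx2]
      refine Submodule.sum_mem _ (fun i _ => ?_)
      have hmem : (((e i : E k a) : K)) ∈ Submodule.span (E k c) (Set.range ((E k a).val ∘ fun i => (e i : E k a))) :=
        Submodule.subset_span ⟨i, rfl⟩
      have := Submodule.smul_mem _ (algebraMap (F k) (E k c) (e.repr ⟨x j, Submodule.subset_span ⟨j, rfl⟩⟩ i)) hmem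
      rwa [algebraMap_smul] at this
    · rw [Submodule.span_le]
      rintro _ ⟨i, rfl⟩
      simp only [Function.comp, SetLike.mem_coe]
      have hmem : (e i : E k a) ∈ Submodule.span (F k) (Set.range x) := (e i).2
      generalize (e i : E k a) = y at hmem
      induction hmem using Submodule.span_induction with
      | mem y hy =>
        obtain ⟨j, rfl⟩ := hy
        exact Submodule.subset_span ⟨j, rfl⟩
      | zero => simp
      | add y z _ _ hy hz =>
        rw [map_add]
        exact add_mem hy hz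
      | smul r y _ hy =>
        have := Submodule.smul_mem _ (algebraMap (F k) (E k c) r) hy
        rw [algebraMap_smul] at this
        simpa using this
  rw [hspan, finrank_span_eq_card he2, Fintype.card_fin]

lemma card_ker {k a c : ℕ} (hk : 0 < k) (ha : 0 < a) (hc : 0 < c) (h : Nat.Coprime a c)
    {b : ℕ} (x : Fin b → E k a) :
    Nat.card {y : Fin b → E k c // ∑ j, (x j : K) * (y j : K) = 0}
      = 2 ^ (k * c * (b - Module.finrank (F k) (Submodule.span (F k) (Set.range x)))) := by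
  have := finite_E hk hc
  let f : (Fin b → E k c) →ₗ[E k c] K := Fintype.linearCombination (E k c) (fun j => (x j : K))
  have hf : ∀ y, f y = ∑ j, (x j : K) * (y j : K) := by
    intro y
    simp only [f, Fintype.linearCombination_apply]
    refine Finset.sum_congr rfl (fun j _ => ?_)
    rw [mul_comm]
    rfl
  have h1 : Nat.card {y : Fin b → E k c // ∑ j, (x j : K) * (y j : K) = 0} = Nat.card (LinearMap.ker f) := by
    refine Nat.card_congr (Equiv.subtypeEquivRight (fun y => ?_))
    rw [LinearMap.mem_ker, hf]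
  have h2 := LinearMap.finrank_range_add_finrank_ker f
  have h3 : LinearMap.range f = Submodule.span (E k c) (Set.range (fun j => (x j : K))) :=
    Fintype.range_linearCombination _ _
  rw [h3, finrank_span hk ha hc h, Module.finrank_fin_fun] at h2
  rw [h1, Module.natCard_eq_pow_finrank (K := E k c), card_E hk hc, ← pow_mul]
  congr 2
  omega

/-- Recursive polynomial describing weighted counts of tuples by rank. -/
def Phi (a : ℕ) : ℕ → (ℕ → ℤ[X]) → ℤ[X]
  | 0, h => h 0
  | b + 1, h => Phi a b (fun r => X ^ r * h r + (X ^ a - X ^ r) * h (r + 1))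

lemma rank_cons {k0 V : Type*} [Field k0] [AddCommGroup V] [Module k0 V] [Module.Finite k0 V]
    {b : ℕ} (v : V) (x : Fin b → V) :
    Module.finrank k0 (Submodule.span k0 (Set.range (Fin.cons v x : Fin (b + 1) → V)))
      = if v ∈ Submodule.span k0 (Set.range x) then
          Module.finrank k0 (Submodule.span k0 (Set.range x))
        else Module.finrank k0 (Submodule.span k0 (Set.range x)) + 1 := by
  rw [Fin.range_cons, Submodule.span_insert]
  split_ifs with h
  · rw [sup_eq_right.mpr]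
    rwa [Submodule.span_singleton_le_iff_mem]
  · have h1 := Submodule.finrank_sup_add_finrank_inf_eq (Submodule.span k0 {v}) (Submodule.span k0 (Set.range x))
    have h2 : Submodule.span k0 {v} ⊓ Submodule.span k0 (Set.range x) = ⊥ := by
      rw [← disjoint_iff, disjoint_comm, Submodule.disjoint_span_singleton']
      · exact h
      · rintro rfl
        exact h (zero_mem _)
    have h3 : Module.finrank k0 (Submodule.span k0 {v}) = 1 := by
      apply finrank_span_singleton
      rintro rfl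
      exact h (zero_mem _)
    rw [h2, h3, finrank_bot] at h1
    omega

lemma sum_rank {k0 V : Type*} [Field k0] [AddCommGroup V] [Module k0 V] [Finite k0] [Fintype V]
    (Q a : ℕ) (hQ : Nat.card k0 = Q) (ha : Nat.card V = Q ^ a) (b : ℕ) (h : ℕ → ℤ[X]) :
    ∑ x : Fin b → V, (h (Module.finrank k0 (Submodule.span k0 (Set.range x)))).eval (Q : ℤ)
      = (Phi a b h).eval (Q : ℤ) := by
  have : Module.Finite k0 V := Module.Finite.of_finite
  induction b generalizing h with
  | zero =>
    have h0 : ∀ x : Fin 0 → V, Module.finrank k0 (Submodule.span k0 (Set.range x)) = 0 := by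
      intro x
      rw [Set.range_eq_empty, Submodule.span_empty, finrank_bot]
    simp only [h0, Phi]
    simp
  | succ b ih =>
    rw [Phi, ← ih, ← (Fin.consEquiv (fun _ : Fin (b + 1) => V)).sum_comp, Fintype.sum_prod_type_right]
    refine Finset.sum_congr rfl (fun x _ => ?_)
    set S := Submodule.span k0 (Set.range x) with hS
    set r := Module.finrank k0 S with hr
    have h1 : ∀ v : V, Module.finrank k0 (Submodule.span k0 (Set.range
        ((Fin.consEquiv (fun _ : Fin (b + 1) => V)) (v, x)))) = if v ∈ S then r else r + 1 :=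
      fun v => rank_cons v x
    have hcardS : Fintype.card S = Q ^ r := by
      rw [← Nat.card_eq_fintype_card, Module.natCard_eq_pow_finrank (K := k0), hQ]
    have h2 : ∀ v : V, (h (Module.finrank k0 (Submodule.span k0 (Set.range
        ((Fin.consEquiv (fun _ : Fin (b + 1) => V)) (v, x)))))).eval (Q : ℤ)
        = if v ∈ S then (h r).eval (Q : ℤ) else (h (r + 1)).eval (Q : ℤ) := by
      intro v
      rw [h1]
      split_ifs <;> rfl
    rw [Finset.sum_congr rfl (fun v _ => h2 v)]
    rw [Finset.sum_ite, Finset.sum_const, Finset.sum_const]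
    have h3 : (Finset.univ.filter (fun v : V => v ∈ S)).card = Q ^ r := by
      rw [← hcardS, Fintype.card_subtype]
    have h4 : (Finset.univ.filter (fun v : V => ¬ v ∈ S)).card = Q ^ a - Q ^ r := by
      have := Finset.card_filter_add_card_filter_not (s := (Finset.univ : Finset V)) (fun v : V => v ∈ S)
      rw [h3, Finset.card_univ, ← Nat.card_eq_fintype_card, ha] at this
      omega
    have h5 : Q ^ r ≤ Q ^ a := by
      rw [← ha, ← hcardS, Nat.card_eq_fintype_card]
      exact Fintype.card_le_of_injective _ Subtype.val_injective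
    rw [h3, h4]
    simp only [nsmul_eq_mul, Nat.cast_sub h5, Nat.cast_pow]
    simp

lemma Phi_dvd (a c : ℕ) (b : ℕ) (h : ℕ → ℤ[X]) (hh : ∀ r, r < b → X ^ c ∣ h r) :
    X ^ c ∣ Phi a b h - (∏ i ∈ Finset.range b, (X ^ a - X ^ i)) * h b := by
  induction b generalizing h with
  | zero => simp [Phi]
  | succ b ih =>
    rw [Phi, Finset.prod_range_succ]
    have h1 := ih (fun r => X ^ r * h r + (X ^ a - X ^ r) * h (r + 1)) (by
      intro r hr
      exact dvd_add (Dvd.dvd.mul_left (hh r (by omega)) _) (Dvd.dvd.mul_left (hh (r + 1) (by omega)) _))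
    have h2 := hh b (by omega)
    have h3 : X ^ c ∣ (∏ i ∈ Finset.range b, (X ^ a - X ^ i)) * (X ^ b * h b) :=
      Dvd.dvd.mul_left (Dvd.dvd.mul_left h2 _) _
    have h4 := dvd_add h1 h3
    convert h4 using 1
    ring

lemma sum_bij {k n b : ℕ} (hk : 0 < k) (hn : 0 < n) (hb : 0 < b) (h : Nat.Coprime b n)
    (β : Module.Basis (Fin b) (F k) (E k b)) :
    ∃ α : (Fin b → E k n) ≃ E k (n * b), ∀ x, ((α x : E k (n * b)) : K) = ∑ j, (x j : K) * (β j : K) := by
  have hmem : ∀ x : Fin b → E k n, ∑ j, (x j : K) * (β j : K) ∈ E k (n * b) := by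
    intro x
    refine sum_mem (fun j _ => mul_mem ?_ ?_)
    · exact F_le (Nat.mul_dvd_mul_left k (Dvd.intro b rfl)) (x j).2
    · exact F_le (Nat.mul_dvd_mul_left k (Dvd.intro_left n rfl)) (β j).2
  have := finite_E hk hn
  have := finite_E hk (Nat.mul_pos hn hb)
  have hli := (disj hk hb hn h).linearIndependent_left β.linearIndependent
  rw [Fintype.linearIndependent_iff] at hli
  have hinj : Function.Injective (fun x : Fin b → E k n => (⟨∑ j, (x j : K) * (β j : K), hmem x⟩ : E k (n * b))) := by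
    intro x y hxy
    have h1 : ∑ j, (x j : K) * (β j : K) = ∑ j, (y j : K) * (β j : K) := congrArg Subtype.val hxy
    have h2 : ∑ j, (x j - y j) • ((E k b).val ∘ β) j = 0 := by
      have : ∀ j, (x j - y j) • ((E k b).val ∘ β) j = (x j : K) * (β j : K) - (y j : K) * (β j : K) := by
        intro j
        rw [← sub_mul]
        rfl
      simp only [this]
      rw [Finset.sum_sub_distrib, h1, sub_self]
    funext j
    exact sub_eq_zero.mp (hli _ h2 j)
  have hcard : Nat.card (Fin b → E k n) = Nat.card (E k (n * b)) := by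
    rw [Nat.card_fun, card_E hk hn, card_E hk (Nat.mul_pos hn hb), Nat.card_eq_fintype_card, Fintype.card_fin,
      ← pow_mul, mul_assoc]
  have hbij := (Nat.bijective_iff_injective_and_card _).mpr ⟨hinj, hcard⟩
  exact ⟨Equiv.ofBijective _ hbij, fun x => rfl⟩

lemma nondeg {k a b c : ℕ} (hk : 0 < k) (ha : 0 < a) (hb : 0 < b) (hc : 0 < c)
    (hab : Nat.Coprime b a) (hbc : Nat.Coprime b c)
    (β : Module.Basis (Fin b) (F k) (E k b)) {w : K} (hw : w ∈ F (k * (a * c) * b))
    (h : ∀ j, tr (k * (a * c)) b ((β j : K) * w) = 0) : w = 0 := by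
  by_contra hw0
  have hm : 0 < k * (a * c) := by positivity
  obtain ⟨α, hα⟩ := sum_bij hk (Nat.mul_pos ha hc) hb (Nat.Coprime.mul_right hab hbc) β
  have key : ∀ y ∈ F (k * (a * c) * b), tr (k * (a * c)) b y = 0 := by
    intro y hy
    have hyw : y * w⁻¹ ∈ E k (a * c * b) := by
      rw [mem_E, ← mul_assoc]
      exact mul_mem hy (inv_mem hw)
    obtain ⟨x, hx⟩ := α.surjective ⟨y * w⁻¹, hyw⟩
    have hx2 : y * w⁻¹ = ∑ j, (x j : K) * (β j : K) := by
      rw [← hα, hx]
    have hy2 : y = ∑ j, (x j : K) * ((β j : K) * w) := by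
      have : y = (y * w⁻¹) * w := by field_simp
      rw [this, hx2, Finset.sum_mul]
      refine Finset.sum_congr rfl (fun j _ => by ring)
    rw [hy2]
    have hsum : ∀ s : Finset (Fin b), tr (k * (a * c)) b (∑ j ∈ s, (x j : K) * ((β j : K) * w)) = 0 := by
      intro s
      induction s using Finset.induction_on with
      | empty => simp [tr_zero]
      | insert j s hj ih =>
        rw [Finset.sum_insert hj, tr_add, ih, tr_mul (mem_E.mp (x j).2), h j]
        simp
    exact hsum _
  have := finite_F (Nat.mul_pos hm hb)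
  have : Fintype (F (k * (a * c) * b)) := Fintype.ofFinite _
  have h1 := sum_tr (Nat.mul_pos hm hb)
  have h2 : ∀ w : F (k * (a * c) * b), tr 1 (k * (a * c) * b) (w : K) = 0 := by
    intro w
    rw [← tr_tr, key _ w.2, tr_zero]
  simp only [h2, if_true] at h1
  rw [Finset.sum_const, Finset.card_univ, ← Nat.card_eq_fintype_card, card_F (Nat.mul_pos hm hb), smul_eq_mul] at h1
  have h3 : 0 < 2 ^ (k * (a * c) * b) := by positivity
  omega

lemma trace_bij {k a b c : ℕ} (hk : 0 < k) (ha : 0 < a) (hb : 0 < b) (hc : 0 < c)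
    (hab : Nat.Coprime b a) (hbc : Nat.Coprime b c)
    (β : Module.Basis (Fin b) (F k) (E k b)) :
    ∃ γ : E k (c * b) ≃ (Fin b → E k c), ∀ v j,
      ((γ v j : E k c) : K) = tr (k * (a * c)) b ((β j : K) * (v : K)) := by
  have hd1 : k * (c * b) ∣ k * (a * c) * b := ⟨a, by ring⟩
  have hd2 : k * b ∣ k * (a * c) * b := ⟨a * c, by ring⟩
  have hv1 : ∀ v : E k (c * b), (v : K) ∈ F (k * (a * c) * b) := fun v => F_le hd1 v.2
  have hmem : ∀ (v : E k (c * b)) (j : Fin b), tr (k * (a * c)) b ((β j : K) * (v : K)) ∈ E k c := by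
    intro v j
    have h1 : (β j : K) * (v : K) ∈ F (k * (a * c) * b) := mul_mem (F_le hd2 (β j).2) (hv1 v)
    have h2 : (β j : K) * (v : K) ∈ F (k * (c * b)) :=
      mul_mem (F_le ⟨c, by ring⟩ (β j).2) v.2
    have h3 := tr_mem h1
    have h4 : tr (k * (a * c)) b ((β j : K) * (v : K)) ∈ F (k * (c * b)) :=
      sum_mem (fun i _ => pow_mem h2 _)
    have h5 := F_gcd h3 h4
    have h6 : Nat.gcd (k * (a * c)) (k * (c * b)) = k * c := by
      rw [Nat.gcd_mul_left, mul_comm c b, Nat.gcd_mul_right, Nat.Coprime.gcd_eq_one hab.symm, one_mul]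
    rw [h6] at h5
    exact h5
  have := finite_E hk hc
  have := finite_E hk (Nat.mul_pos hc hb)
  have hinj : Function.Injective (fun (v : E k (c * b)) (j : Fin b) => (⟨_, hmem v j⟩ : E k c)) := by
    intro v w hvw
    have h1 : ∀ j, tr (k * (a * c)) b ((β j : K) * ((v : K) + (w : K))) = 0 := by
      intro j
      have : tr (k * (a * c)) b ((β j : K) * (v : K)) = tr (k * (a * c)) b ((β j : K) * (w : K)) :=
        congrArg Subtype.val (congrFun hvw j)
      rw [mul_add, tr_add, this, CharTwo.add_self_eq_zero]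
    have h2 := nondeg hk ha hb hc hab hbc β (add_mem (hv1 v) (hv1 w)) h1
    exact Subtype.ext (CharTwo.add_eq_zero.mp h2)
  have hcard : Nat.card (E k (c * b)) = Nat.card (Fin b → E k c) := by
    rw [Nat.card_fun, card_E hk hc, card_E hk (Nat.mul_pos hc hb), Nat.card_eq_fintype_card, Fintype.card_fin,
      ← pow_mul, mul_assoc]
  have hbij := (Nat.bijective_iff_injective_and_card _).mpr ⟨hinj, hcard⟩
  exact ⟨Equiv.ofBijective _ hbij, fun v j => rfl⟩

lemma tr_sum {ι : Type*} (m n : ℕ) (s : Finset ι) (g : ι → K) :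
    tr m n (∑ j ∈ s, g j) = ∑ j ∈ s, tr m n (g j) := by
  induction s using Finset.induction_on with
  | empty => simp [tr_zero]
  | insert j s hj ih => rw [Finset.sum_insert hj, tr_add, ih, Finset.sum_insert hj]

lemma pair_count {k a b c : ℕ} (hk : 0 < k) (ha : 0 < a) (hb : 0 < b) (hc : 0 < c)
    (hab : Nat.Coprime b a) (hbc : Nat.Coprime b c) (hac : Nat.Coprime a c) :
    ((Nat.card {p : E k (a * b) × E k (c * b) // tr (k * (a * c)) b ((p.1 : K) * (p.2 : K)) = 0} : ℕ) : ℤ)
      = (Phi a b (fun r => X ^ (c * (b - r)))).eval ((2 ^ k : ℕ) : ℤ) := by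
  have := finite_F hk
  have := finite_E hk ha
  have := finite_E hk hc
  have := finite_E hk hb
  have : Module.Finite (F k) (E k b) := Module.Finite.of_finite
  have hfin : Fintype (E k a) := Fintype.ofFinite _
  obtain ⟨α, hα⟩ := sum_bij hk ha hb hab (Module.finBasisOfFinrankEq (F k) (E k b) (finrank_E hk hb))
  obtain ⟨γ, hγ⟩ := trace_bij hk ha hb hc hab hbc (Module.finBasisOfFinrankEq (F k) (E k b) (finrank_E hk hb))
  have hkey : ∀ (x : Fin b → E k a) (v : E k (c * b)),
      tr (k * (a * c)) b (((α x : E k (a * b)) : K) * (v : K)) = ∑ j, (x j : K) * (γ v j : K) := by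
    intro x v
    rw [hα, Finset.sum_mul, tr_sum]
    refine Finset.sum_congr rfl (fun j _ => ?_)
    rw [mul_assoc, tr_mul (F_le ⟨c, by ring⟩ (x j).2), hγ]
  have e1 : {p : E k (a * b) × E k (c * b) // tr (k * (a * c)) b ((p.1 : K) * (p.2 : K)) = 0}
      ≃ {q : (Fin b → E k a) × (Fin b → E k c) // ∑ j, (q.1 j : K) * (q.2 j : K) = 0} :=
    (Equiv.prodCongr α.symm γ).subtypeEquiv (fun p => by
      have := hkey (α.symm p.1) p.2
      rw [α.apply_symm_apply] at this
      rw [this]
      rfl)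
  have e2 : {q : (Fin b → E k a) × (Fin b → E k c) // ∑ j, (q.1 j : K) * (q.2 j : K) = 0}
      ≃ (Σ x : Fin b → E k a, {y : Fin b → E k c // ∑ j, (x j : K) * (y j : K) = 0}) :=
    { toFun := fun p => ⟨p.1.1, ⟨p.1.2, p.2⟩⟩
      invFun := fun q => ⟨(q.1, q.2.1), q.2.2⟩
      left_inv := fun p => rfl
      right_inv := fun q => rfl }
  have e := e1.trans e2
  rw [Nat.card_congr e, Nat.card_sigma, ← sum_rank (k0 := F k) (V := E k a) (2 ^ k) a (card_F hk)
    (by rw [card_E hk ha, pow_mul])]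
  push_cast
  refine Finset.sum_congr rfl (fun x _ => ?_)
  rw [card_ker hk ha hc hac x]
  simp only [eval_pow, eval_X]
  push_cast
  rw [← pow_mul, ← mul_assoc]

/-- The polynomial whose value at `2 ^ k` is the number of points. -/
def W (a b c : ℕ) : ℤ[X] :=
  X ^ (a * c + a * b + c * b) + X ^ (a * c) * Phi a b (fun r => X ^ (c * (b - r)))

lemma main_count {k a b c : ℕ} (hk : 0 < k) (ha : 0 < a) (hb : 0 < b) (hc : 0 < c)
    (hab : Nat.Coprime b a) (hbc : Nat.Coprime b c) (hac : Nat.Coprime a c) :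
    ((Nat.card (Σ p : E k (a * b) × E k (c * b),
      {q : F (k * (a * c)) × F (k * (a * c) * b) //
        (q.2 : K) ^ 2 + q.2 = ((p.1 : K) * (p.2 : K)) * q.1}) : ℕ) : ℤ)
      = (W a b c).eval ((2 ^ k : ℕ) : ℤ) := by
  have hm : 0 < k * (a * c) := by positivity
  have := finite_E hk (Nat.mul_pos ha hb)
  have := finite_E hk (Nat.mul_pos hc hb)
  have hfin1 : Fintype (E k (a * b)) := Fintype.ofFinite _
  have hfin2 : Fintype (E k (c * b)) := Fintype.ofFinite _
  have := finite_F hm
  have := finite_F (Nat.mul_pos hm hb)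
  rw [Nat.card_sigma]
  have h1 : ∀ p : E k (a * b) × E k (c * b),
      Nat.card {q : F (k * (a * c)) × F (k * (a * c) * b) //
        (q.2 : K) ^ 2 + q.2 = ((p.1 : K) * (p.2 : K)) * q.1}
      = 2 ^ (k * (a * c)) + 2 ^ (k * (a * c)) *
        (if tr (k * (a * c)) b ((p.1 : K) * (p.2 : K)) = 0 then 1 else 0) := by
    intro p
    rw [card_pairs hm hb (mul_mem (F_le ⟨c, by ring⟩ p.1.2) (F_le ⟨a, by ring⟩ p.2.2))]
    split_ifs <;> ring
  rw [Finset.sum_congr rfl (fun p _ => h1 p), Finset.sum_add_distrib, ← Finset.mul_sum, Finset.sum_boole,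
    Finset.sum_const, Finset.card_univ, Fintype.card_prod, ← Nat.card_eq_fintype_card, ← Nat.card_eq_fintype_card,
    card_E hk (Nat.mul_pos ha hb), card_E hk (Nat.mul_pos hc hb)]
  have h2 := pair_count hk ha hb hc hab hbc hac
  rw [Nat.card_eq_fintype_card, Fintype.card_subtype] at h2
  rw [W]
  simp only [eval_add, eval_mul, eval_pow, eval_X]
  rw [← h2]
  push_cast
  rw [smul_eq_mul]
  push_cast
  have e1 : ((2 : ℤ) ^ k) ^ (a * c) = 2 ^ (k * (a * c)) := by rw [← pow_mul]
  have e2 : (2 : ℤ) ^ (k * (a * b)) * 2 ^ (k * (c * b)) * 2 ^ (k * (a * c))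
      = (2 ^ k) ^ (a * c + a * b + c * b) := by
    rw [← pow_mul, ← pow_add, ← pow_add]
    congr 1
    ring
  rw [e1, ← e2]

lemma two_pow_inj {i j : ℕ} (h : (2 : ℂ) ^ i = 2 ^ j) : i = j := by
  have h2 : (2 : ℕ) ^ i = 2 ^ j := by exact_mod_cast h
  exact Nat.pow_right_injective (le_refl 2) h2

/-- Functional identity obtained from the power sums by linearity. -/
lemma functional (w : ℤ[X]) (A B : Multiset ℂ)
    (h : ∀ k : ℕ, 0 < k → ((w.eval ((2 ^ k : ℕ) : ℤ) : ℤ) : ℂ)
      = (B.map (fun b => b ^ k)).sum - (A.map (fun a => a ^ k)).sum) (q : ℂ[X]) :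
    ∑ j ∈ Finset.range (w.natDegree + 1), (w.coeff j : ℂ) * (X * q).eval ((2 : ℂ) ^ j)
      = (B.map (fun b => (X * q).eval b)).sum - (A.map (fun a => (X * q).eval a)).sum := by
  induction q using Polynomial.induction_on' with
  | add p q hp hq =>
    simp only [mul_add, eval_add, Finset.sum_add_distrib, Multiset.sum_map_add] at *
    rw [hp, hq]
    ring
  | monomial n c =>
    have h1 := h (n + 1) (Nat.succ_pos n)
    rw [eval_eq_sum_range] at h1
    push_cast at h1
    have h2 : ∀ z : ℂ, (X * (monomial n) c).eval z = c * z ^ (n + 1) := by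
      intro z
      simp only [eval_mul, eval_X, eval_monomial]
      ring
    simp only [h2, Multiset.sum_map_mul_left]
    rw [← mul_sub, ← h1, Finset.mul_sum]
    refine Finset.sum_congr rfl (fun j _ => ?_)
    rw [← pow_mul, ← pow_mul, mul_comm j (n + 1)]
    ring

lemma norm_multiset_sum_le (A : Multiset ℂ) (g : ℂ → ℂ) (hg : ∀ x ∈ A, ‖g x‖ ≤ 1) :
    ‖(A.map g).sum‖ ≤ Multiset.card A := by
  induction A using Multiset.induction_on with
  | empty => simp
  | cons a s ih =>
    rw [Multiset.map_cons, Multiset.sum_cons, Multiset.card_cons]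
    push_cast
    have h1 := norm_add_le (g a) (s.map g).sum
    have h2 := hg a (Multiset.mem_cons_self a s)
    have h3 := ih (fun x hx => hg x (Multiset.mem_cons_of_mem hx))
    linarith

lemma card_bound (w : ℤ[X]) (A B : Multiset ℂ)
    (h : ∀ k : ℕ, 0 < k → ((w.eval ((2 ^ k : ℕ) : ℤ) : ℤ) : ℂ)
      = (B.map (fun b => b ^ k)).sum - (A.map (fun a => a ^ k)).sum)
    (ζ : ℂ) (hζ : ‖ζ‖ = 1) (M : ℕ) :
    ‖∑ j ∈ Finset.range M, (w.coeff j : ℂ) * ζ ^ j‖ ≤ Multiset.card A + Multiset.card B := by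
  set φ : ℂ → ℂ := fun x => if hx : ∃ j, j < M ∧ x = 2 ^ j then ζ ^ (Classical.choose hx) else 0 with hφ
  have hφ0 : φ 0 = 0 := by
    simp only [hφ]
    rw [dif_neg]
    rintro ⟨j, _, hj⟩
    exact (pow_ne_zero j (two_ne_zero)) hj.symm
  have hφ1 : ∀ x, ‖φ x‖ ≤ 1 := by
    intro x
    simp only [hφ]
    split_ifs
    · rw [norm_pow, hζ, one_pow]
    · simp
  have hφ2 : ∀ j, φ (2 ^ j) = if j < M then ζ ^ j else 0 := by
    intro j
    simp only [hφ]
    by_cases hj : j < M
    · have hx : ∃ i, i < M ∧ (2 : ℂ) ^ j = 2 ^ i := ⟨j, hj, rfl⟩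
      rw [dif_pos hx, if_pos hj]
      congr 1
      exact (two_pow_inj (Classical.choose_spec hx).2).symm
    · rw [if_neg hj, dif_neg]
      rintro ⟨i, hi, hij⟩
      exact hj (two_pow_inj hij ▸ hi)
  set S : Finset ℂ := insert 0 (A.toFinset ∪ B.toFinset ∪ (Finset.range (w.natDegree + 1)).image (fun j => (2 : ℂ) ^ j)) with hS
  set p := Lagrange.interpolate S id φ with hp
  have hpe : ∀ x ∈ S, p.eval x = φ x := fun x hx =>
    Lagrange.eval_interpolate_at_node φ (Function.injective_id.injOn) hx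
  have hp0 : p.eval 0 = 0 := by
    rw [hpe 0 (Finset.mem_insert_self _ _), hφ0]
  obtain ⟨q, hq⟩ : X ∣ p := by
    rw [X_dvd_iff, coeff_zero_eq_eval_zero, hp0]
  have h1 := functional w A B h q
  rw [← hq] at h1
  have h2 : ∑ j ∈ Finset.range (w.natDegree + 1), (w.coeff j : ℂ) * p.eval ((2 : ℂ) ^ j)
      = ∑ j ∈ Finset.range M, (w.coeff j : ℂ) * ζ ^ j := by
    have h3 : ∀ j ∈ Finset.range (w.natDegree + 1), (w.coeff j : ℂ) * p.eval ((2 : ℂ) ^ j)
        = if j < M then (w.coeff j : ℂ) * ζ ^ j else 0 := by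
      intro j hj
      rw [hpe _ (by
        rw [hS]
        apply Finset.mem_insert_of_mem
        apply Finset.mem_union_right
        exact Finset.mem_image_of_mem _ hj), hφ2]
      split_ifs <;> simp
    rw [Finset.sum_congr rfl h3, ← Finset.sum_filter]
    refine Finset.sum_subset ?_ ?_
    · intro j hj
      simp only [Finset.mem_filter, Finset.mem_range] at *
      exact hj.2
    · intro j hj1 hj2
      simp only [Finset.mem_filter, Finset.mem_range] at *
      rw [coeff_eq_zero_of_natDegree_lt (by omega)]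
      simp
  rw [h2] at h1
  rw [h1]
  have hA : ∀ x ∈ A, ‖p.eval x‖ ≤ 1 := by
    intro x hx
    rw [hpe x (by
      rw [hS]
      apply Finset.mem_insert_of_mem
      apply Finset.mem_union_left
      apply Finset.mem_union_left
      exact Multiset.mem_toFinset.mpr hx)]
    exact hφ1 x
  have hB : ∀ x ∈ B, ‖p.eval x‖ ≤ 1 := by
    intro x hx
    rw [hpe x (by
      rw [hS]
      apply Finset.mem_insert_of_mem
      apply Finset.mem_union_left
      apply Finset.mem_union_right
      exact Multiset.mem_toFinset.mpr hx)]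
    exact hφ1 x
  have h4 := norm_multiset_sum_le A (fun a => p.eval a) hA
  have h5 := norm_multiset_sum_le B (fun a => p.eval a) hB
  have h6 := norm_sub_le (B.map (fun b => p.eval b)).sum (A.map (fun a => p.eval a)).sum
  linarith

lemma exists_zeta (s : ℕ) (hs : 0 < s) :
    ∃ ζ : ℂ, ‖ζ‖ = 1 ∧ ∀ j, s ≤ j → j ≤ 3 * s → (ζ ^ j).re ≤ 0 := by
  refine ⟨Complex.exp ((Real.pi / (2 * s) : ℝ) * Complex.I), Complex.norm_exp_ofReal_mul_I _, ?_⟩
  intro j h1 h2
  rw [← Complex.exp_nat_mul, ← mul_assoc]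
  have h3 : ((j : ℂ) * ((Real.pi / (2 * s) : ℝ) : ℂ)) = ((j * (Real.pi / (2 * s)) : ℝ) : ℂ) := by
    push_cast
    ring
  rw [h3, Complex.exp_ofReal_mul_I_re]
  have hs' : (0 : ℝ) < s := by exact_mod_cast hs
  have h1' : (s : ℝ) ≤ j := by exact_mod_cast h1
  have h2' : (j : ℝ) ≤ 3 * s := by exact_mod_cast h2
  have hpi := Real.pi_pos
  apply Real.cos_nonpos_of_pi_div_two_le_of_le
  · have : Real.pi / 2 = s * (Real.pi / (2 * s)) := by field_simp
    rw [this]
    exact mul_le_mul_of_nonneg_right h1' (by positivity)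
  · have : Real.pi + Real.pi / 2 = (3 * s) * (Real.pi / (2 * s)) := by field_simp; ring
    rw [this]
    exact mul_le_mul_of_nonneg_right h2' (by positivity)

lemma norm_sub_one {z : ℂ} (h1 : ‖z‖ = 1) (h2 : z.re ≤ 0) : (2 : ℝ) ≤ ‖z - 1‖ ^ 2 := by
  rw [← Complex.normSq_eq_norm_sq]
  have h3 : Complex.normSq z = 1 := by rw [Complex.normSq_eq_norm_sq, h1]; norm_num
  rw [Complex.normSq_apply] at *
  simp only [Complex.sub_re, Complex.one_re, Complex.sub_im, Complex.one_im]
  nlinarith

lemma norm_prod_ge {a b s : ℕ} (ζ : ℂ) (h1 : ‖ζ‖ = 1)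
    (h2 : ∀ j, s ≤ j → j ≤ 3 * s → (ζ ^ j).re ≤ 0) (ha : a = 3 * s) (hb : b = 2 * s + 1) :
    (2 : ℝ) ^ b ≤ ‖∏ i ∈ Finset.range b, (ζ ^ a - ζ ^ i)‖ ^ 2 := by
  rw [norm_prod, ← Finset.prod_pow]
  have h3 : ∀ i ∈ Finset.range b, (2 : ℝ) ≤ ‖ζ ^ a - ζ ^ i‖ ^ 2 := by
    intro i hi
    rw [Finset.mem_range] at hi
    have h4 : ζ ^ a - ζ ^ i = ζ ^ i * (ζ ^ (a - i) - 1) := by
      rw [mul_sub, ← pow_add, mul_one]
      congr 2
      omega
    rw [h4, norm_mul, norm_pow, h1, one_pow, one_mul]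
    apply norm_sub_one
    · rw [norm_pow, h1, one_pow]
    · exact h2 _ (by omega) (by omega)
  calc (2 : ℝ) ^ b = ∏ _i ∈ Finset.range b, (2 : ℝ) := by simp
    _ ≤ _ := Finset.prod_le_prod (fun _ _ => by norm_num) h3

lemma growth (C : ℕ) : ∃ t : ℕ, 0 < t ∧
    ((C : ℝ) * (4032 * (t : ℝ) ^ 4)) ^ (2 * C) < 2 ^ t := by
  have h := tendsto_pow_const_div_const_pow_of_one_lt (8 * C) (r := (2 : ℝ)) (by norm_num)
  set M0 : ℝ := ((C : ℝ) * 4032) ^ (2 * C) with hM0
  have hM0' : 0 ≤ M0 := by positivity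
  have h2 := h.eventually (gt_mem_nhds (show (0 : ℝ) < 1 / (M0 + 1) by positivity))
  obtain ⟨t, ht1, ht2⟩ := (h2.and (Filter.eventually_gt_atTop 0)).exists
  refine ⟨t, ht2, ?_⟩
  have h3 : ((C : ℝ) * (4032 * (t : ℝ) ^ 4)) ^ (2 * C) = M0 * (t : ℝ) ^ (8 * C) := by
    rw [hM0, ← mul_assoc, mul_pow, ← pow_mul]
    congr 2
    ring
  rw [h3]
  have h4 : (0 : ℝ) < 2 ^ t := by positivity
  rw [div_lt_div_iff₀ h4 (by positivity)] at ht1
  have h5 : (0 : ℝ) < (t : ℝ) ^ (8 * C) := by positivity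
  nlinarith

lemma W_split {a b c : ℕ} (hb : 0 < b) :
    ∃ R : ℤ[X], W a b c = X ^ (a * c) * (∏ i ∈ Finset.range b, (X ^ a - X ^ i)) + X ^ (a * c + c) * R := by
  have h1 := Phi_dvd a c b (fun r => X ^ (c * (b - r))) (by
    intro r hr
    apply pow_dvd_pow
    exact Nat.le_mul_of_pos_right c (by omega))
  obtain ⟨R, hR⟩ := h1
  simp only [Nat.sub_self, mul_zero, pow_zero, mul_one] at hR
  obtain ⟨b', rfl⟩ : ∃ b', b = b' + 1 := ⟨b - 1, by omega⟩
  refine ⟨X ^ (a * (b' + 1) + c * b') + R, ?_⟩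
  rw [W, sub_eq_iff_eq_add.mp hR]
  ring

lemma coeff_W {a b c : ℕ} (hb : 0 < b) {j : ℕ} (hj : j < a * c + c) :
    (W a b c).coeff j = (X ^ (a * c) * (∏ i ∈ Finset.range b, (X ^ a - X ^ i)) : ℤ[X]).coeff j := by
  obtain ⟨R, hR⟩ := W_split (a := a) (c := c) hb
  rw [hR, coeff_add, coeff_X_pow_mul' R (a * c + c), if_neg (by omega), add_zero]

lemma natDegree_le {a b c : ℕ} (hba : b ≤ a) :
    (X ^ (a * c) * (∏ i ∈ Finset.range b, (X ^ a - X ^ i)) : ℤ[X]).natDegree ≤ a * c + a * b := by
  refine natDegree_mul_le.trans ?_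
  rw [natDegree_X_pow]
  refine Nat.add_le_add_left ?_ _
  refine (natDegree_prod_le _ _).trans ?_
  have : ∀ i ∈ Finset.range b, (X ^ a - X ^ i : ℤ[X]).natDegree ≤ a := by
    intro i hi
    rw [Finset.mem_range] at hi
    refine (natDegree_sub_le _ _).trans ?_
    rw [natDegree_X_pow, natDegree_X_pow]
    omega
  refine (Finset.sum_le_sum this).trans ?_
  simp [mul_comm]

lemma lower_bound {a b c s : ℕ} (ha : a = 3 * s) (hb : b = 2 * s + 1) (hs : 0 < s) (hc : a * b < c)
    (A B : Multiset ℂ)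
    (h : ∀ k : ℕ, 0 < k → (((W a b c).eval ((2 ^ k : ℕ) : ℤ) : ℤ) : ℂ)
      = (B.map (fun b => b ^ k)).sum - (A.map (fun a => a ^ k)).sum) :
    (2 : ℝ) ^ b ≤ ((Multiset.card A + Multiset.card B : ℕ) : ℝ) ^ 2 := by
  obtain ⟨ζ, h1, h2⟩ := exists_zeta s hs
  have h3 := card_bound (W a b c) A B h ζ h1 (a * c + c)
  set G : ℤ[X] := X ^ (a * c) * (∏ i ∈ Finset.range b, (X ^ a - X ^ i)) with hG
  have hdeg : G.natDegree < a * c + c := lt_of_le_of_lt (natDegree_le (by omega)) (by omega)
  have h4 : ∑ j ∈ Finset.range (a * c + c), ((W a b c).coeff j : ℂ) * ζ ^ j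
      = (G.map (Int.castRingHom ℂ)).eval ζ := by
    rw [eval_eq_sum_range' (lt_of_le_of_lt natDegree_map_le hdeg)]
    refine Finset.sum_congr rfl (fun j hj => ?_)
    rw [coeff_W (by omega) (Finset.mem_range.mp hj), coeff_map]
    rfl
  have h5 : (G.map (Int.castRingHom ℂ)).eval ζ = ζ ^ (a * c) * ∏ i ∈ Finset.range b, (ζ ^ a - ζ ^ i) := by
    rw [hG]
    simp [Polynomial.map_mul, Polynomial.map_prod, eval_mul, eval_prod]
  rw [h4, h5, norm_mul, norm_pow, h1, one_pow, one_mul] at h3
  have h6 := norm_prod_ge ζ h1 h2 ha hb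
  refine h6.trans ?_
  push_cast
  exact pow_le_pow_left₀ (norm_nonneg _) h3 2

/-- The polynomial of the counterexample, with coefficients in the prime field. -/
def f0 : MvPolynomial (Fin 4) (ZMod 2) :=
  MvPolynomial.X 3 ^ 2 + MvPolynomial.X 3 + MvPolynomial.X 0 * MvPolynomial.X 1 * MvPolynomial.X 2

def f1 : MvPolynomial (Fin 4) K := MvPolynomial.map (algebraMap (ZMod 2) K) f0

lemma f1_coeff (s : Fin 4 →₀ ℕ) : (f1.coeff s) ^ (2 ^ 1) = f1.coeff s := by
  rw [f1, MvPolynomial.coeff_map, ← map_pow]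
  congr 1
  generalize MvPolynomial.coeff s f0 = x
  revert x
  decide

lemma f1_eq : f1 = MvPolynomial.X 3 ^ 2 + MvPolynomial.X 3
    + MvPolynomial.X 0 * MvPolynomial.X 1 * MvPolynomial.X 2 := by
  simp [f1, f0]

lemma f1_degree : f1.totalDegree ≤ 3 := by
  rw [f1_eq]
  refine (MvPolynomial.totalDegree_add _ _).trans (max_le ?_ ?_)
  · refine (MvPolynomial.totalDegree_add _ _).trans (max_le ?_ ?_)
    · refine (MvPolynomial.totalDegree_pow _ _).trans ?_
      rw [MvPolynomial.totalDegree_X]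
      norm_num
    · rw [MvPolynomial.totalDegree_X]
      norm_num
  · refine (MvPolynomial.totalDegree_mul _ _).trans ?_
    rw [MvPolynomial.totalDegree_X]
    have := MvPolynomial.totalDegree_mul (MvPolynomial.X 0 : MvPolynomial (Fin 4) K) (MvPolynomial.X 1)
    rw [MvPolynomial.totalDegree_X, MvPolynomial.totalDegree_X] at this
    omega

lemma f1_eval (x : Fin 4 → K) : MvPolynomial.eval x f1 = 0 ↔ x 3 ^ 2 + x 3 = (x 0 * x 1) * x 2 := by
  rw [f1, MvPolynomial.eval_map, f0]
  simp only [MvPolynomial.eval₂_add, MvPolynomial.eval₂_mul, MvPolynomial.eval₂_pow, MvPolynomial.eval₂_X]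
  exact CharTwo.add_eq_zero

lemma set_card {k a b c : ℕ} (hk : 0 < k) (ha : 0 < a) (hb : 0 < b) (hc : 0 < c)
    (hab : Nat.Coprime b a) (hbc : Nat.Coprime b c) (hac : Nat.Coprime a c) :
    ((Set.ncard {x : Fin 4 → K |
      (∀ i, x i ^ ((2 ^ 1) ^ ((![a * b, c * b, a * c, a * c * b] : Fin 4 → ℕ) i * k)) = x i) ∧
        MvPolynomial.eval x f1 = 0} : ℕ) : ℤ)
      = (W a b c).eval ((2 ^ k : ℕ) : ℤ) := by
  rw [← main_count hk ha hb hc hab hbc hac, ← Nat.card_coe_set_eq]
  congr 1
  have key : ∀ (n : ℕ) (y : K), y ^ ((2 ^ 1) ^ (n * k)) = y ↔ y ∈ F (k * n) := by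
    intro n y
    rw [mem_F, pow_one, mul_comm]
  have key2 : ∀ {y : K}, y ∈ F (k * (a * c * b)) ↔ y ∈ F (k * (a * c) * b) := by
    intro y
    rw [mul_assoc k]
  refine Nat.card_congr ?_
  exact
    { toFun := fun x => ⟨(⟨x.1 0, (key (a * b) _).mp (x.2.1 0)⟩, ⟨x.1 1, (key (c * b) _).mp (x.2.1 1)⟩),
        ⟨(⟨x.1 2, (key (a * c) _).mp (x.2.1 2)⟩, ⟨x.1 3, key2.mp ((key (a * c * b) _).mp (x.2.1 3))⟩), (f1_eval _).mp x.2.2⟩⟩
      invFun := fun q => ⟨![(q.1.1 : K), (q.1.2 : K), (q.2.1.1 : K), (q.2.1.2 : K)], by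
        refine ⟨?_, ?_⟩
        · intro i
          fin_cases i
          · exact (key (a * b) _).mpr q.1.1.2
          · exact (key (c * b) _).mpr q.1.2.2
          · exact (key (a * c) _).mpr q.2.1.1.2
          · exact (key (a * c * b) _).mpr (key2.mpr q.2.1.2.2)
        · rw [f1_eval]
          exact q.2.2⟩
      left_inv := by
        intro x
        apply Subtype.ext
        funext i
        fin_cases i <;> rfl
      right_inv := by
        intro q
        rfl }

theorem main :
    ¬ (∀ (n m : ℕ), ∃ C : ℕ, ∀ (p : ℕ) [Fact p.Prime] (r : ℕ), 0 < r →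
    ∀ (d : Fin n → ℕ), (∀ i, 0 < d i) →
    ∀ (f : MvPolynomial (Fin n) (AlgebraicClosure (ZMod p))),
      (∀ s, (f.coeff s) ^ (p ^ r) = f.coeff s) → f.totalDegree ≤ m →
      ∃ A B : Multiset ℂ,
        Multiset.card A + Multiset.card B ≤ (C * Finset.univ.lcm d) ^ C ∧
        ∀ k : ℕ, 0 < k →
          ((Set.ncard {x : Fin n → AlgebraicClosure (ZMod p) |
              (∀ i, x i ^ ((p ^ r) ^ (d i * k)) = x i) ∧ MvPolynomial.eval x f = 0} : ℕ) : ℂ)
            = (B.map (fun b => b ^ k)).sum - (A.map (fun a => a ^ k)).sum) := by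
  intro H
  obtain ⟨C, hC⟩ := H 4 3
  obtain ⟨t, ht, hgr⟩ := growth C
  set a := 3 * (3 * t) with ha'
  set b := 2 * (3 * t) + 1 with hb'
  set c := a * b + 1 with hc'
  have ha : 0 < a := by omega
  have hb : 0 < b := by omega
  have hc : 0 < c := by omega
  have hab : Nat.Coprime b a := by
    have h1 : Nat.Coprime b 3 := by
      rw [hb', show 2 * (3 * t) + 1 = 1 + 3 * (2 * t) by ring]
      simp
    have h2 : Nat.Coprime b t := by
      rw [hb', show 2 * (3 * t) + 1 = 1 + t * 6 by ring]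
      simp
    exact Nat.Coprime.mul_right h1 (Nat.Coprime.mul_right h1 h2)
  have hbc : Nat.Coprime b c := by
    rw [hc', add_comm]
    simp
  have hac : Nat.Coprime a c := by
    rw [hc', add_comm]
    simp
  obtain ⟨A, B, hcard, hsum⟩ := hC 2 1 Nat.one_pos ![a * b, c * b, a * c, a * c * b] (by
    intro i
    fin_cases i
    · exact Nat.mul_pos ha hb
    · exact Nat.mul_pos hc hb
    · exact Nat.mul_pos ha hc
    · exact Nat.mul_pos (Nat.mul_pos ha hc) hb) f1 f1_coeff f1_degree
  have h1 : ∀ k : ℕ, 0 < k → (((W a b c).eval ((2 ^ k : ℕ) : ℤ) : ℤ) : ℂ)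
      = (B.map (fun b => b ^ k)).sum - (A.map (fun a => a ^ k)).sum := by
    intro k hk
    rw [← hsum k hk, ← set_card hk ha hb hc hab hbc hac]
    push_cast
    rfl
  have h2 := lower_bound (s := 3 * t) ha' hb' (by omega) (by omega) A B h1
  have hlcm : Finset.univ.lcm (![a * b, c * b, a * c, a * c * b] : Fin 4 → ℕ) ≤ a * c * b := by
    apply Nat.le_of_dvd (Nat.mul_pos (Nat.mul_pos ha hc) hb)
    apply Finset.lcm_dvd
    intro i _
    fin_cases i
    · exact ⟨c, by simp; ring⟩
    · exact ⟨a, by simp; ring⟩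
    · exact ⟨b, by simp⟩
    · exact dvd_rfl
  have habc : a * c * b ≤ 4032 * t ^ 4 := by
    have e1 : b ≤ 7 * t := by omega
    have e2 : a * b ≤ 9 * t * (7 * t) := Nat.mul_le_mul (by omega) e1
    have e3 : c ≤ 64 * (t * t) := by
      have : 1 ≤ t * t := Nat.mul_pos ht ht
      rw [hc']
      nlinarith
    calc a * c * b = (a * b) * c := by ring
      _ ≤ (9 * t * (7 * t)) * (64 * (t * t)) := Nat.mul_le_mul e2 e3
      _ = 4032 * t ^ 4 := by ring
  have h3 : Multiset.card A + Multiset.card B ≤ (C * (4032 * t ^ 4)) ^ C :=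
    hcard.trans (Nat.pow_le_pow_left (Nat.mul_le_mul_left C (hlcm.trans habc)) C)
  have h4 : ((Multiset.card A + Multiset.card B : ℕ) : ℝ) ^ 2 ≤ ((C : ℝ) * (4032 * (t : ℝ) ^ 4)) ^ (2 * C) := by
    have h5 : ((Multiset.card A + Multiset.card B : ℕ) : ℝ) ≤ ((C : ℝ) * (4032 * (t : ℝ) ^ 4)) ^ C := by
      exact_mod_cast h3
    calc ((Multiset.card A + Multiset.card B : ℕ) : ℝ) ^ 2 ≤ (((C : ℝ) * (4032 * (t : ℝ) ^ 4)) ^ C) ^ 2 :=
          pow_le_pow_left₀ (by positivity) h5 2
      _ = _ := by rw [← pow_mul, mul_comm C 2]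
  have h6 : (2 : ℝ) ^ t ≤ 2 ^ b := pow_le_pow_right₀ (by norm_num) (by omega)
  linarith

end

end Aux

/-- The negation of the preceding statement: For fixed n and m there is C such that every partial zeta function of a degree ≤ m polynomial in n variables over any F_q, with any d_1..d_n, has total degree at most (C·lcm(d_i))^C. -/
theorem result :
    ¬ (∀ (n m : ℕ), ∃ C : ℕ, ∀ (p : ℕ) [Fact p.Prime] (r : ℕ), 0 < r →
    ∀ (d : Fin n → ℕ), (∀ i, 0 < d i) →
    ∀ (f : MvPolynomial (Fin n) (AlgebraicClosure (ZMod p))),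
      (∀ s, (f.coeff s) ^ (p ^ r) = f.coeff s) → f.totalDegree ≤ m →
      ∃ A B : Multiset ℂ,
        Multiset.card A + Multiset.card B ≤ (C * Finset.univ.lcm d) ^ C ∧
        ∀ k : ℕ, 0 < k →
          ((Set.ncard {x : Fin n → AlgebraicClosure (ZMod p) |
              (∀ i, x i ^ ((p ^ r) ^ (d i * k)) = x i) ∧ MvPolynomial.eval x f = 0} : ℕ) : ℂ)
            = (B.map (fun b => b ^ k)).sum - (A.map (fun a => a ^ k)).sum) := Aux.main

end Pool.Agent.S11180
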