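import Pool.Statements.S11199
import Pool.Agent.Helper35.MobFinal

set_option autoImplicit false
open Pool Pool.MP_b86f6c_nt

namespace Pool.Agent.S11199

/-- For every ε>0 there is a real T-number ξ (transcendental, every w_n(ξ) finite, w_n(ξ)/n unbounded) such that only finitely many integer polynomials of degree ≤1 satisfy 0<∣P(ξ)∣≤H(P)^(-w) for each w>1+ε, i.e. w_1(ξ)≤1+ε. -/
theorem result :
    ∀ ε : ℝ, 0 < ε → ∃ ξ : ℝ, Transcendental ℤ ξ ∧
      (∀ n : ℕ, ∃ W : ℝ,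
        {P : Polynomial ℤ | P.natDegree ≤ n ∧ Polynomial.aeval ξ P ≠ 0 ∧
          |Polynomial.aeval ξ P| ≤
            ((P.support.sup (fun i => (P.coeff i).natAbs) : ℕ) : ℝ) ^ (-W)}.Finite) ∧
      (∀ M : ℝ, ∃ n : ℕ, 1 ≤ n ∧ ∃ w : ℝ, M * (n : ℝ) < w ∧
        {P : Polynomial ℤ | P.natDegree ≤ n ∧ Polynomial.aeval ξ P ≠ 0 ∧
          |Polynomial.aeval ξ P| ≤
            ((P.support.sup (fun i => (P.coeff i).natAbs) : ℕ) : ℝ) ^ (-w)}.Infinite) ∧
      (∀ w : ℝ, 1 + ε < w →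
        {P : Polynomial ℤ | P.natDegree ≤ 1 ∧ Polynomial.aeval ξ P ≠ 0 ∧
          |Polynomial.aeval ξ P| ≤
            ((P.support.sup (fun i => (P.coeff i).natAbs) : ℕ) : ℝ) ^ (-w)}.Finite) := by
  classical
  intro ε hε
  obtain ⟨R, hR⟩ : ∃ R : ℕ, R = ⌈1 / ε⌉₊ + 1 := ⟨_, rfl⟩
  have hR1 : 1 ≤ R := by omega
  have hR0 : (0 : ℝ) < R := by exact_mod_cast hR1
  have hRε : 1 ≤ ε * R := by
    have h1 : 1 / ε ≤ R := (Nat.le_ceil _).trans (by exact_mod_cast (by omega))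
    rw [div_le_iff₀ hε] at h1
    linarith
  obtain ⟨ξ, hξ0, hξ1, hbound, hbig, hlin⟩ := Helper35.mainM R hR1
  have hfin : ∀ (n H : ℕ) (s : Set (Polynomial ℤ)),
      (∀ P ∈ s, P.natDegree ≤ n ∧ Helper35.ht P ≤ H) → s.Finite := by
    intro n H s hs
    apply (Helper35.boxF n H).finite_toSet.subset
    intro P hP
    exact Helper35.mem_boxF (hs P hP).1 (hs P hP).2
  refine ⟨ξ, ?_, ?_, ?_, ?_⟩
  · intro halg
    obtain ⟨P, hP0, hP⟩ := halg
    obtain ⟨E, c, hc, h⟩ := hbound P.natDegree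
    have h1 := h P hP0 le_rfl
    rw [hP, abs_zero, zero_mul] at h1
    linarith
  · intro n
    obtain ⟨E, c, hc, h⟩ := hbound n
    refine ⟨(E : ℝ) + 1, ?_⟩
    apply hfin n (⌈1 / c⌉₊)
    intro P hP
    obtain ⟨hd, hne, hle⟩ := hP
    refine ⟨hd, ?_⟩
    have hP0 : P ≠ 0 := by
      intro h0
      rw [h0] at hne
      simp at hne
    have h1 := h P hP0 hd
    change |Polynomial.aeval ξ P| ≤ ((Helper35.ht P : ℕ) : ℝ) ^ (-((E : ℝ) + 1)) at hle
    have hH1 : (1 : ℝ) ≤ Helper35.ht P := by exact_mod_cast Helper35.ht_pos hP0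
    have hH0 : (0 : ℝ) < Helper35.ht P := by linarith
    have h2 : ((Helper35.ht P : ℕ) : ℝ) ^ (-((E : ℝ) + 1)) * (Helper35.ht P : ℝ) ^ E =
        1 / Helper35.ht P := by
      rw [← Real.rpow_natCast _ E, ← Real.rpow_add hH0]
      have : -((E : ℝ) + 1) + E = -1 := by ring
      rw [this, Real.rpow_neg_one, one_div]
    have h3 : c ≤ 1 / Helper35.ht P := by
      calc c ≤ |Polynomial.aeval ξ P| * (Helper35.ht P : ℝ) ^ E := h1
        _ ≤ ((Helper35.ht P : ℕ) : ℝ) ^ (-((E : ℝ) + 1)) * (Helper35.ht P : ℝ) ^ E := by gcongr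
        _ = _ := h2
    have h4 : (Helper35.ht P : ℝ) ≤ 1 / c := by
      rw [le_div_iff₀ hc]
      rw [le_div_iff₀ hH0] at h3
      linarith
    have h5 := h4.trans (Nat.le_ceil _)
    exact_mod_cast h5
  · intro M
    obtain ⟨j, hj⟩ : ∃ j : ℕ, j = ⌈M⌉₊ := ⟨_, rfl⟩
    have hMj : M ≤ j := by rw [hj]; exact Nat.le_ceil _
    refine ⟨j + 2, by omega, ((j : ℝ) + 2) ^ 2 + 1 / 2, ?_, ?_⟩
    · push_cast
      have h1 : M * ((j : ℝ) + 2) ≤ ((j : ℝ) + 2) * ((j : ℝ) + 2) := by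
        have : M ≤ (j : ℝ) + 2 := by linarith
        gcongr
      nlinarith
    · have h1 := hbig j (((j : ℝ) + 2) ^ 2 + 1 / 2) (by linarith)
      unfold Helper35.WSet at h1
      apply h1.mono
      intro P hP
      obtain ⟨_, h2, h3, h4⟩ := hP
      exact ⟨h2, fun h0 => by rw [h0] at h3; simp at h3, h4⟩
  · intro w hw
    obtain ⟨H0, hH0⟩ := hlin
    apply hfin 1 (H0 + 2)
    intro P hP
    obtain ⟨hd, hne, hle⟩ := hP
    refine ⟨hd, ?_⟩
    by_contra hcon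
    push Not at hcon
    have hP0 : P ≠ 0 := by
      intro h0
      rw [h0] at hne
      simp at hne
    change |Polynomial.aeval ξ P| ≤ ((Helper35.ht P : ℕ) : ℝ) ^ (-w) at hle
    have h1 := hH0 P hd (by omega) hP0
    have hH2 : (2 : ℝ) ≤ Helper35.ht P := by exact_mod_cast (by omega : 2 ≤ Helper35.ht P)
    have hH0' : (0 : ℝ) < Helper35.ht P := by linarith
    have h2 : 1 ≤ (((Helper35.ht P : ℕ) : ℝ) ^ (-w)) ^ R * (Helper35.ht P : ℝ) ^ (R + 1) := by
      refine h1.trans ?_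
      gcongr
    have h3 : (((Helper35.ht P : ℕ) : ℝ) ^ (-w)) ^ R * (Helper35.ht P : ℝ) ^ (R + 1) =
        (Helper35.ht P : ℝ) ^ (-(w * R) + ((R : ℝ) + 1)) := by
      rw [← Real.rpow_natCast _ R, ← Real.rpow_natCast _ (R + 1), ← Real.rpow_mul hH0'.le,
        ← Real.rpow_add hH0']
      congr 1
      push_cast
      ring
    rw [h3] at h2
    have h4 : -(w * R) + ((R : ℝ) + 1) < 0 := by
      have h5 : (1 + ε) * R < w * R := by gcongr
      linarith
    have h5 := Real.rpow_lt_one_of_one_lt_of_neg (by linarith : (1 : ℝ) < Helper35.ht P) h4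
    linarith


end Pool.Agent.S11199
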