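import Pool.Statements.S11209
-- import your own Pool.Agent.* helpers here

set_option autoImplicit false
open Pool Pool.MP_bacbeb_nt

namespace Pool.Agent.S11209

/-- The iterated map. -/
def f (m : ℕ) : ℕ :=
  (Nat.totient m + (m / (∏ p ∈ m.primeFactors, p)) * (∏ p ∈ m.primeFactors, (p + 1))) / 2

theorem f_eval (a Q Y : ℕ) (hodd : Nat.Coprime 2 Q) (hsq : ∏ p ∈ Q.primeFactors, p = Q)
    (hQ : 0 < Q) (hY : Nat.totient Q + 3 * ∏ p ∈ Q.primeFactors, (p + 1) = 2 * Y) :
    f (2 ^ (a + 1) * Q) = 2 ^ a * Y := by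
  have hcop : Nat.Coprime (2 ^ (a + 1)) Q := Nat.Coprime.pow_left _ hodd
  have hpf : (2 ^ (a + 1) * Q).primeFactors = {2} ∪ Q.primeFactors := by
    rw [Nat.Coprime.primeFactors_mul hcop, Nat.primeFactors_prime_pow (Nat.succ_ne_zero a)
      Nat.prime_two]
  have hdisj : Disjoint ({2} : Finset ℕ) Q.primeFactors := by
    rw [Finset.disjoint_singleton_left]
    intro h
    have h2 := Nat.dvd_of_mem_primeFactors h
    have : (2 : ℕ) ∣ Nat.gcd 2 Q := Nat.dvd_gcd (dvd_refl 2) h2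
    rw [hodd] at this
    omega
  have htot : Nat.totient (2 ^ (a + 1) * Q) = 2 ^ a * Nat.totient Q := by
    rw [Nat.totient_mul hcop, Nat.totient_prime_pow_succ Nat.prime_two]
    ring
  unfold f
  rw [hpf, htot, Finset.prod_union hdisj, Finset.prod_union hdisj, Finset.prod_singleton,
    Finset.prod_singleton, hsq]
  have hdiv : 2 ^ (a + 1) * Q / (2 * Q) = 2 ^ a := by
    rw [show 2 ^ (a + 1) * Q = 2 ^ a * (2 * Q) by ring]
    exact Nat.mul_div_cancel _ (by positivity)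
  rw [hdiv]
  have : 2 ^ a * Nat.totient Q + 2 ^ a * ((2 + 1) * ∏ p ∈ Q.primeFactors, (p + 1)) =
      2 ^ a * Y * 2 := by
    rw [show (2 : ℕ) + 1 = 3 from rfl, ← Nat.mul_add, hY]
    ring
  rw [this]
  exact Nat.mul_div_cancel _ (by norm_num)

theorem step33 (a : ℕ) : f (2 ^ (a + 1) * 33) = 2 ^ a * 82 :=
  f_eval a 33 82 (by decide) (by decide +kernel) (by norm_num) (by decide +kernel)

theorem step41 (a : ℕ) : f (2 ^ (a + 1) * 41) = 2 ^ a * 83 :=
  f_eval a 41 83 (by decide) (by decide +kernel) (by norm_num) (by decide +kernel)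

theorem step83 (a : ℕ) : f (2 ^ (a + 1) * 83) = 2 ^ a * 167 :=
  f_eval a 83 167 (by decide) (by decide +kernel) (by norm_num) (by decide +kernel)

theorem step167 (a : ℕ) : f (2 ^ (a + 1) * 167) = 2 ^ a * 335 :=
  f_eval a 167 335 (by decide) (by decide +kernel) (by norm_num) (by decide +kernel)

theorem step335 (a : ℕ) : f (2 ^ (a + 1) * 335) = 2 ^ a * 744 :=
  f_eval a 335 744 (by decide) (by decide +kernel) (by norm_num) (by decide +kernel)

theorem step93 (a : ℕ) : f (2 ^ (a + 1) * 93) = 2 ^ a * 222 :=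
  f_eval a 93 222 (by decide) (by decide +kernel) (by norm_num) (by decide +kernel)

theorem step111 (a : ℕ) : f (2 ^ (a + 1) * 111) = 2 ^ a * 264 :=
  f_eval a 111 264 (by decide) (by decide +kernel) (by norm_num) (by decide +kernel)

/-- Seven steps double the number `2 ^ e * 33`, for `e ≥ 4`. -/
theorem seven (a : ℕ) : f^[7] (2 ^ (a + 4) * 33) = 2 ^ (a + 5) * 33 := by
  have h1 : f (2 ^ (a + 4) * 33) = 2 ^ (a + 4) * 41 := by
    rw [show a + 4 = (a + 3) + 1 from rfl, step33]; ring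
  have h2 : f (2 ^ (a + 4) * 41) = 2 ^ (a + 3) * 83 := by
    rw [show a + 4 = (a + 3) + 1 from rfl, step41]
  have h3 : f (2 ^ (a + 3) * 83) = 2 ^ (a + 2) * 167 := by
    rw [show a + 3 = (a + 2) + 1 from rfl, step83]
  have h4 : f (2 ^ (a + 2) * 167) = 2 ^ (a + 1) * 335 := by
    rw [show a + 2 = (a + 1) + 1 from rfl, step167]
  have h5 : f (2 ^ (a + 1) * 335) = 2 ^ (a + 3) * 93 := by
    rw [step335]; ring
  have h6 : f (2 ^ (a + 3) * 93) = 2 ^ (a + 3) * 111 := by
    rw [show a + 3 = (a + 2) + 1 from rfl, step93]; ring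
  have h7 : f (2 ^ (a + 3) * 111) = 2 ^ (a + 5) * 33 := by
    rw [show a + 3 = (a + 2) + 1 from rfl, step111]; ring
  simp only [Function.iterate_succ, Function.iterate_zero, Function.comp_apply, id, h1, h2, h3,
    h4, h5, h6, h7]

theorem iter (k : ℕ) : f^[7 * k] (2 ^ 4 * 33) = 2 ^ (k + 4) * 33 := by
  induction k with
  | zero => simp
  | succ k ih =>
    rw [show 7 * (k + 1) = 7 + 7 * k by ring, Function.iterate_add_apply, ih, seven]

/-- There is a starting value n whose orbit under f(m) = (φ(m) + m∏_{p∣m}(1+1/p))/2 is unbounded, i.e. the iteration sequence increases indefinitely. -/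
theorem result :
    ∃ n : ℕ, ∀ M : ℕ, ∃ k : ℕ,
      M < (fun m : ℕ => (Nat.totient m + (m / (∏ p ∈ m.primeFactors, p)) * (∏ p ∈ m.primeFactors, (p + 1))) / 2)^[k] n := by
  refine ⟨2 ^ 4 * 33, fun M => ⟨7 * M, ?_⟩⟩
  change M < f^[7 * M] (2 ^ 4 * 33)
  rw [iter]
  have h1 : M < 2 ^ M := Nat.lt_two_pow_self
  calc M < 2 ^ M := h1
    _ ≤ 2 ^ (M + 4) := Nat.pow_le_pow_right (by norm_num) (by omega)
    _ ≤ 2 ^ (M + 4) * 33 := Nat.le_mul_of_pos_right _ (by norm_num)

end Pool.Agent.S11209
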