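import Pool.Statements.S11217
import Pool.Agent.Helper653.CubIrr
import Pool.Agent.Helper653.CubField

set_option autoImplicit false
open N2f636d21
open Polynomial
open Pool Pool.MP_bc042c_nt

namespace Pool.Agent.S11217

/-- For all naturals a,b with gcd(a,b)=1, a>0, b>0, a≠b, the stated monic degree-10 polynomial (a,b cast to ℤ) is Irreducible in ℤ[X]. -/
theorem result :
    CuboidTwo := by
  intro a b hab ha hb hne
  exact Pool.Helper653.Cub.cub_field a b ha hb hne
    (Pool.Helper653.Cub.quintic_irreducible hab ha hb hne)

end Pool.Agent.S11217
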