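import Pool.Statements.S11236
import Pool.Agent.Helper967.JR7

set_option autoImplicit false
open Pool Pool.MP_be0b77_nt

namespace Pool.Agent.S11236

/-- The negation of the preceding statement: For every totally real field K of algebraic numbers, let A be the set of s>0 such that infinitely many algebraic integers of K have all conjugates in [0,s]. If A is nonempty, then its infimum belongs to A. -/
theorem result :
    ¬ (∀ K : Subfield ℂ,
      (∀ x ∈ K, IsIntegral ℚ x ∧
        ∀ z : ℂ, Polynomial.aeval z (minpoly ℚ x) = 0 → z.im = 0) →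
      ∀ A : Set ℝ,
        A = {s : ℝ | 0 < s ∧
          {α : ℂ | α ∈ K ∧ IsIntegral ℤ α ∧
            ∀ z : ℂ, Polynomial.aeval z (minpoly ℚ α) = 0 →
              z.im = 0 ∧ 0 ≤ z.re ∧ z.re ≤ s}.Infinite} →
        A.Nonempty → sInf A ∈ A) := by
  intro h
  obtain ⟨K, hK, hA⟩ := Pool.Agent.Helper967.JR.final
  have h1 := h K hK _ rfl
  rw [hA, csInf_Ioi] at h1
  exact absurd (h1 ⟨13, by norm_num⟩) (by simp)

end Pool.Agent.S11236
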