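import Pool.Statements.S11243
import Pool.Agent.Helper482.HszMain

set_option autoImplicit false
open Pointwise
open Pool Pool.MP_bf2a14_nt

namespace Pool.Agent.S11243

/-- For each m there is K such that for every prime p ≥ K and all S,T in Z_p with ∣S+T∣ ≤ ∣S∣+∣T∣+m ≤ p−(m+4), ∣S∣ ≥ m+3, ∣T∣ ≥ m+4, S and T lie in APs of one common nonzero difference with lengths ∣S∣+m+1 and ∣T∣+m+1. -/
theorem result :
    ∀ m : ℕ, ∃ K : ℕ, ∀ p : ℕ, p.Prime → K ≤ p →
      ∀ S T : Finset (ZMod p),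
        (S + T).card ≤ S.card + T.card + m →
        S.card + T.card + m + (m + 4) ≤ p →
        m + 3 ≤ S.card →
        m + 4 ≤ T.card →
        ∃ a b d : ZMod p, d ≠ 0 ∧
          S ⊆ (Finset.range (S.card + m + 1)).image (fun i : ℕ => a + (i : ZMod p) * d) ∧
          T ⊆ (Finset.range (T.card + m + 1)).image (fun i : ℕ => b + (i : ZMod p) * d) := by
  intro m
  refine ⟨128 * (m + 1) * (m + 1) + 8 ^ (10 * m + 21) + 1, ?_⟩
  intro p hp hK S T hC hR hS hT
  have hfact : Fact p.Prime := ⟨hp⟩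
  have hp1 : 128 * (m + 1) * (m + 1) < p := by
    generalize 8 ^ (10 * m + 21) = q at hK
    omega
  have hp2 : 8 ^ (10 * m + 21) < p := by
    generalize 8 ^ (10 * m + 21) = q at hK ⊢
    omega
  obtain ⟨d, hd, ⟨a, ha⟩, ⟨b, hb⟩⟩ := Pool.Agent.Helper482.HszMain.pair m
    hp1 hp2 S.card S T le_rfl hS hT hC (by omega)
  refine ⟨a, b, d, hd, ?_, ?_⟩
  · intro x hx
    obtain ⟨i, hi, hxi⟩ := ha x hx
    rw [Finset.mem_image]
    exact ⟨i, Finset.mem_range.mpr hi, hxi.symm⟩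
  · intro x hx
    obtain ⟨i, hi, hxi⟩ := hb x hx
    rw [Finset.mem_image]
    exact ⟨i, Finset.mem_range.mpr hi, hxi.symm⟩

end Pool.Agent.S11243
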