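import Pool.Statements.S11303
import Pool.Agent.H646.Final

set_option autoImplicit false
open Pool Pool.MP_ce1fc8_nt

namespace Pool.Agent.S11303

/-- With p_n the n-th prime (p_1=2), call n good if p_n^2 > p_{n-i}p_{n+i} for all 1≤i≤n-1; the proportion of good n among 1..N tends to 0 as N grows. -/
theorem result :
    Filter.Tendsto
      (fun N : ℕ =>
        ((((Finset.Icc 1 N).filter (fun n : ℕ =>
            ∀ i ∈ Finset.Icc 1 (n - 1),
              Nat.nth Nat.Prime (n - 1 - i) * Nat.nth Nat.Prime (n - 1 + i)
                < Nat.nth Nat.Prime (n - 1) ^ 2)).card : ℝ) / (N : ℝ)))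
      Filter.atTop (nhds 0) := by
  exact Pool.Agent.H646.FinalM.good_tendsto

end Pool.Agent.S11303
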