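import Pool.Statements.S11348
import Pool.Agent.Helper840.E48Main

set_option autoImplicit false
open Necf28299
open Filter
open Pool Pool.MP_d49ebf_nt

namespace Pool.Agent.S11348

/-- The negation of the preceding statement: There exists an infinite set A ⊆ ℕ of positive integers, none of which is a sum of distinct smaller elements of A, such that eventually a_{n+1} − a_n < n (0-indexed nth, so gap A n = a_{n+1}−a_n in 1-indexed notation). -/
theorem result :
    ¬ (∃ A : Set ℕ, A.Infinite ∧ IsSubsetSumFree A ∧ ∀ᶠ n : ℕ in atTop, gap A n < n) := by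
  classical
  rintro ⟨A, hinf, hfree, hgap⟩
  set a : ℕ → ℕ := Nat.nth (· ∈ A) with ha
  have hinf' : (Set.ofPred (· ∈ A)).Infinite := hinf
  have hmono : StrictMono a := Nat.nth_strictMono hinf'
  have hmem : ∀ n, a n ∈ A := fun n => Nat.nth_mem_of_infinite hinf' n
  have hs : Pool.Agent.Helper840.E48.SSFree a := by
    refine ⟨hmono, fun n => (hfree _ (hmem n)).1, ?_⟩
    intro n B hB hsum
    apply (hfree _ (hmem n)).2
    refine ⟨B.image a, ?_, ?_⟩
    · intro x hx
      obtain ⟨i, hi, rfl⟩ := Finset.mem_image.mp (Finset.mem_coe.mp hx)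
      exact ⟨hmem i, hmono (Finset.mem_range.mp (hB hi))⟩
    · rw [Finset.sum_image (fun x _ y _ h => hmono.injective h)]
      exact hsum.symm
  rw [Filter.eventually_atTop] at hgap
  obtain ⟨N, hN⟩ := hgap
  apply Pool.Agent.Helper840.E48.no_seq hs (n₀ := N)
  intro n hn
  have h1 := hN (n + 1) (by omega)
  unfold gap at h1
  rw [Nat.add_sub_cancel] at h1
  have h2 : a n < a (n + 1) := hmono (Nat.lt_succ_self n)
  simp only [ha] at h2 ⊢
  omega

end Pool.Agent.S11348
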