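import Pool.Statements.S11369
import Pool.Agent.Helper620.A7

set_option autoImplicit false
open Pool Pool.MP_d790dd_nt

namespace Pool.Agent.S11369

/-- If some h makes A minus any finite set an asymptotic basis of order at most h, then for some t every large integer is a sum of at most t distinct elements of A. -/
theorem result : ∀ A : Set ℕ,
    (∃ h : ℕ, ∀ F : Finset ℕ, ∃ N : ℕ, ∀ n ≥ N, ∃ s : Multiset ℕ,
        Multiset.card s ≤ h ∧ (∀ x ∈ s, x ∈ A ∧ x ∉ F) ∧ s.sum = n) →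
    ∃ t : ℕ, ∃ N : ℕ, ∀ n ≥ N, ∃ s : Finset ℕ,
        s.card ≤ t ∧ (↑s : Set ℕ) ⊆ A ∧ s.sum id = n := by
  intro A hA
  obtain ⟨h, hA⟩ := hA
  have hA' : ∃ N : ℕ, ∀ n ≥ N, ∃ M : Multiset ℕ,
      M.card ≤ h ∧ (∀ a ∈ M, a ∈ A) ∧ M.sum = n := by
    obtain ⟨N, hN⟩ := hA ∅
    refine ⟨N, fun n hn => ?_⟩
    obtain ⟨s, h1, h2, h3⟩ := hN n hn
    exact ⟨s, h1, fun a ha => (h2 a ha).1, h3⟩
  have hres := Helper620.RO.res_of_stable A (fun F => by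
    obtain ⟨N, hN⟩ := hA F
    refine ⟨N, fun n hn => ?_⟩
    obtain ⟨s, _, h2, h3⟩ := hN n hn
    exact ⟨s, h2, h3⟩)
  obtain ⟨N, hN⟩ := Helper620.RO.main h (Helper620.RO.basis_pos hA') A hA' hres
  refine ⟨Helper620.RO.kap h (8 * Helper620.RO.dd h h), N, fun n hn => ?_⟩
  obtain ⟨s, h1, h2, h3⟩ := hN n hn
  exact ⟨s, h2, h1, h3⟩

end Pool.Agent.S11369
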