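import Pool.Statements.S11387
import Pool.Agent.Helper35.TFinal

set_option autoImplicit false
open Pool Pool.MP_dac5dd_nt

namespace Pool.Agent.S11387

theorem finite_of_bound (ξ : ℝ) (n E : ℕ) (c : ℝ) (hc : 0 < c)
    (h : ∀ P : Polynomial ℤ, P ≠ 0 → P.natDegree ≤ n →
      c ≤ |Polynomial.aeval ξ P| * (Pool.Agent.Helper35.ht P : ℝ) ^ E)
    (w : ℝ) (hw : (E : ℝ) < w) :
    Set.Finite {P : Polynomial ℤ | P ≠ 0 ∧ P.natDegree ≤ n ∧
          |Polynomial.aeval ξ P| ≤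
            ((P.support.sup fun i => (P.coeff i).natAbs : ℕ) : ℝ) ^ (-w)} := by
  by_contra hinf
  have h1 : w ∈ Pool.Agent.Helper35.WSet ξ n := by
    refine Set.Infinite.mono ?_ hinf
    rintro P ⟨hP0, hPd, hPle⟩
    refine ⟨hP0, hPd, ?_, hPle⟩
    have h2 := h P hP0 hPd
    by_contra hc0
    push Not at hc0
    have h3 : |Polynomial.aeval ξ P| = 0 := le_antisymm hc0 (abs_nonneg _)
    rw [h3, zero_mul] at h2
    linarith
  have := Pool.Agent.Helper35.WSet_le ξ n E c hc h w h1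
  linarith

/-- There is a real transcendental T-number ξ (every Mahler exponent w_n(ξ) finite, w_n(ξ)/n unbounded) whose type, the limsup of log w_n(ξ)/log n, is strictly less than 3. -/
theorem result :
    ∃ ξ : ℝ, Transcendental ℤ ξ ∧
      (∀ n : ℕ, 1 ≤ n → ∃ W : ℝ,
        Set.Finite {P : Polynomial ℤ | P ≠ 0 ∧ P.natDegree ≤ n ∧
          |Polynomial.aeval ξ P| ≤
            ((P.support.sup fun i => (P.coeff i).natAbs : ℕ) : ℝ) ^ (-W)}) ∧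
      (∀ M : ℝ, ∃ n : ℕ, 1 ≤ n ∧
        Set.Infinite {P : Polynomial ℤ | P ≠ 0 ∧ P.natDegree ≤ n ∧
          |Polynomial.aeval ξ P| ≤
            ((P.support.sup fun i => (P.coeff i).natAbs : ℕ) : ℝ) ^ (-(M * (n : ℝ)))}) ∧
      (∃ t : ℝ, t < 3 ∧ ∃ N : ℕ, ∀ n : ℕ, N ≤ n → ∀ w : ℝ, (n : ℝ) ^ t < w →
        Set.Finite {P : Polynomial ℤ | P ≠ 0 ∧ P.natDegree ≤ n ∧
          |Polynomial.aeval ξ P| ≤
            ((P.support.sup fun i => (P.coeff i).natAbs : ℕ) : ℝ) ^ (-w)}) := by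
  obtain ⟨ξ, _, _, hup, hlow⟩ := Pool.Agent.Helper35.mainT (fun j => 40 * (j + 2) ^ 2)
    (fun j => by
      have : 1 ≤ (j + 2) ^ 2 := Nat.one_le_pow _ _ (by omega)
      omega)
  have hupE : ∀ n : ℕ, ∃ c : ℝ, 0 < c ∧ ∀ P : Polynomial ℤ, P ≠ 0 → P.natDegree ≤ n →
      c ≤ |Polynomial.aeval ξ P| * (Pool.Agent.Helper35.ht P : ℝ) ^ (40 * (n + 1) ^ 2) := by
    intro n
    apply hup n
    · have : n + 1 ≤ (n + 1) ^ 2 := Nat.le_self_pow (by norm_num) _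
      omega
    · intro j hj
      have : (j + 2) ^ 2 ≤ (n + 1) ^ 2 := Nat.pow_le_pow_left (by omega) 2
      omega
  refine ⟨ξ, ?_, ?_, ?_, ?_⟩
  · rintro ⟨P, hP, h0⟩
    obtain ⟨c, hc, hcc⟩ := hupE P.natDegree
    have := hcc P hP le_rfl
    rw [h0, abs_zero, zero_mul] at this
    linarith
  · intro n _
    obtain ⟨c, hc, hcc⟩ := hupE n
    exact ⟨((40 * (n + 1) ^ 2 : ℕ) : ℝ) + 1, finite_of_bound ξ n _ c hc hcc _ (by linarith)⟩
  · intro M
    obtain ⟨j, hj⟩ := exists_nat_ge |M|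
    refine ⟨j + 1, by omega, ?_⟩
    have h1 : M * ((j + 1 : ℕ) : ℝ) ∈ Pool.Agent.Helper35.WSet ξ (j + 1) := by
      apply hlow j
      have hj0 : (0 : ℝ) ≤ j := Nat.cast_nonneg _
      have hM : M ≤ j := (le_abs_self M).trans hj
      push_cast
      nlinarith
    refine Set.Infinite.mono ?_ h1
    rintro P ⟨hP0, hPd, _, hPle⟩
    exact ⟨hP0, hPd, hPle⟩
  · refine ⟨5 / 2, by norm_num, 25600, ?_⟩
    intro n hn w hw
    obtain ⟨c, hc, hcc⟩ := hupE n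
    refine finite_of_bound ξ n _ c hc hcc w (lt_of_le_of_lt ?_ hw)
    have hnr : (25600 : ℝ) ≤ n := by exact_mod_cast hn
    have hn0 : (0 : ℝ) < n := by linarith
    have e1 : (n : ℝ) ^ (5 / 2 : ℝ) = (n : ℝ) ^ 2 * Real.sqrt n := by
      rw [Real.sqrt_eq_rpow, ← Real.rpow_natCast (n : ℝ) 2, ← Real.rpow_add hn0]
      norm_num
    have h2 : (160 : ℝ) ≤ Real.sqrt n := by
      apply Real.le_sqrt_of_sq_le
      linarith
    rw [e1]
    push_cast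
    have h3 : 40 * ((n : ℝ) + 1) ^ 2 ≤ 160 * (n : ℝ) ^ 2 := by nlinarith
    have h4 : (n : ℝ) ^ 2 * 160 ≤ (n : ℝ) ^ 2 * Real.sqrt n := by gcongr
    linarith

end Pool.Agent.S11387
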