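import Pool.Statements.S11401
import Pool.Agent.Helper134.OCComb
import Pool.Agent.Helper134.OCLarge
import Pool.Agent.Helper134.OCSM

set_option autoImplicit false
open N9a221aa5
open Pool Pool.MP_dcec01_nt

namespace Pool.Agent.S11401

open Finset H134OC in
theorem good_lt (n : ℕ) (h6 : 6 ≤ n) (h330 : n < 330) : Good n := by
  refine ⟨fun w => (cl2 w : ℝ), ?_⟩
  intro u v hun hvn hu hv huv hle
  have hle' : cl2 u ≤ cl2 v := (Nat.cast_le (α := ℝ)).1 hle
  rcases good_small n h6 h330 u v hun hvn hu hv huv hle' with h | h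
  · left; exact h
  · right
    have e : (Icc 1 n).filter (fun w => Odd w ∧ (cl2 w : ℝ) ≤ (cl2 u : ℝ)) =
        (Icc 1 n).filter (fun w => Odd w ∧ cl2 w ≤ cl2 u) := by
      apply filter_congr
      intro w _
      rw [Nat.cast_le]
    rw [e]
    exact h

open H134OC in
theorem good_all (n : ℕ) (h6 : 6 ≤ n) : Good n := by
  rcases lt_or_ge n 330 with h | h
  · exact good_lt n h6 h
  · rcases lt_or_ge n 30000 with h' | h'
    · exact good_mid n h h'
    · exact good_large n h'

/-- For all n and finsets A ⊆ [1,n] with ⌊n/2⌋+⌊n/3⌋−⌊n/6⌋ < ∣A∣, every odd l with 3 ≤ l ≤ ⌊n/3⌋+1 is the length of some cycle in the coprime graph induced on A. -/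
theorem result :
    ∀ (n : ℕ) (A : Finset ℕ), A ⊆ Finset.Icc 1 n → n / 2 + n / 3 - n / 6 < A.card → ∀ l : ℕ, Odd l → 3 ≤ l → l ≤ n / 3 + 1 → l ∈ (coprimeGraph.induce (A : Set ℕ)).oddCycleLengths := by
  intro n A hA hc l hl h3 hln
  obtain ⟨k, hk⟩ := hl
  have h6 : 6 ≤ n := by omega
  have hk1 : 1 ≤ k := by omega
  have hk2 : k ≤ n / 6 := by omega
  rw [hk]
  exact H134OC.main_comb n h6 (good_all n h6) A hA hc k hk1 hk2

end Pool.Agent.S11401
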