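-- Proof of frozen statement S11421 (MP_df6954_nt).
-- Idea: Siegel lemma gives small polynomials P_rst (degree at most N/q) with
-- sum P_rst X^(rN) (X+1)^(sN) (X-1)^(tN) = 0; a differential argument shows that one of the
-- derived identities specialises to a nonzero small element of the ideal; then the size of the
-- quotient is bounded by a determinant whose rows are shifts of that small element.
import Pool.Statements.S11421

set_option autoImplicit false
open Polynomial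
open Pool Pool.MP_df6954_nt

namespace Pool.Agent.S11421




/-! ### linear algebra with a derivation -/

section deriv
variable {R : Type*} [CommRing R] [IsDomain R] (D : R →+ R)
  (hD : ∀ a b, D (a * b) = D a * b + a * D b)
variable {ι : Type*} [Fintype ι]

/-- dot product with the l-th derivative -/
def dot (ψ v : ι → R) : R := ∑ i, ψ i * v i

omit [IsDomain R] in
lemma dot_add (ψ v w : ι → R) : dot ψ (v + w) = dot ψ v + dot ψ w := by
  simp [dot, mul_add, Finset.sum_add_distrib]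

omit [IsDomain R] in
lemma dot_smul (ψ v : ι → R) (a : R) : dot ψ (a • v) = a * dot ψ v := by
  simp only [dot, Pi.smul_apply, smul_eq_mul, Finset.mul_sum]
  exact Finset.sum_congr rfl fun i _ => by ring

omit [IsDomain R] in
lemma dot_zero (ψ : ι → R) : dot ψ (0 : ι → R) = 0 := by
  simp [dot]

/-- coordinatewise derivative -/
def cD (v : ι → R) : ι → R := fun i => D (v i)

omit [IsDomain R] [Fintype ι] in
lemma cD_add (v w : ι → R) : cD D (v + w) = cD D v + cD D w := by
  funext i; simp [cD]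

include hD in
omit [IsDomain R] [Fintype ι] in
lemma cD_smul (a : R) (v : ι → R) : cD D (a • v) = a • cD D v + D a • v := by
  funext i; simp [cD, hD]; ring

/-- the iterated derivative vector -/
def iv (f : ι → R) (l : ℕ) : ι → R := fun i => (D^[l]) (f i)

omit [IsDomain R] [Fintype ι] in
lemma iv_succ (f : ι → R) (l : ℕ) : iv D f (l+1) = cD D (iv D f l) := by
  funext i; simp [iv, cD, Function.iterate_succ_apply']

include hD in
lemma dot_iv_all (f ψ : ι → R) (h : ∀ l < Fintype.card ι, dot ψ (iv D f l) = 0) (n : ℕ) :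
    dot ψ (iv D f n) = 0 := by
  classical
  set K := Fintype.card ι with hK
  -- linear dependence
  have hdep : ¬ LinearIndependent R (fun l : Fin (K+1) => iv D f l) := by
    intro hli
    have h1 := hli.fintype_card_le_finrank
    simp at h1
    omega
  rw [Fintype.not_linearIndependent_iff] at hdep
  obtain ⟨g, hg, i0, hi0⟩ := hdep
  -- the maximal index with nonzero coefficient
  have hne : (Finset.univ.filter (fun l : Fin (K+1) => g l ≠ 0)).Nonempty :=
    ⟨i0, by simp [hi0]⟩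
  obtain ⟨w, hw, hwmax⟩ := Finset.exists_max_image _ (fun l : Fin (K+1) => (l : ℕ)) hne
  have hgw : g w ≠ 0 := by simpa using hw
  have hgt : ∀ l : Fin (K+1), w < l → g l = 0 := by
    intro l hl
    by_contra hgl
    have := hwmax l (by simp [hgl])
    exact absurd (Fin.lt_def.mp hl) (by omega)
  set S : Submodule R (ι → R) := Submodule.span R ((fun l : ℕ => iv D f l) '' (Set.Iio (w : ℕ))) with hS
  have hmem : ∀ l < (w : ℕ), iv D f l ∈ S := fun l hl =>
    Submodule.subset_span ⟨l, hl, rfl⟩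
  have hw_mem : g w • iv D f w ∈ S := by
    have h1 : g w • iv D f w = - ∑ l ∈ Finset.univ.filter (fun l : Fin (K+1) => l < w), g l • iv D f l := by
      have h2 : ∑ l : Fin (K+1), g l • iv D f l =
          ∑ l ∈ Finset.univ.filter (fun l : Fin (K+1) => l < w), g l • iv D f l + g w • iv D f w := by
        rw [← Finset.sum_filter_add_sum_filter_not Finset.univ (fun l : Fin (K+1) => l < w)]
        congr 1
        rw [Finset.sum_eq_single_of_mem w (by simp)]
        intro b hb hbw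
        have : w < b := lt_of_le_of_ne (by simpa using hb) (Ne.symm hbw)
        rw [hgt b this, zero_smul]
      rw [h2] at hg
      rw [eq_neg_iff_add_eq_zero, add_comm]
      exact hg
    rw [h1]
    refine Submodule.neg_mem _ (Submodule.sum_mem _ ?_)
    intro l hl
    exact Submodule.smul_mem _ _ (hmem l (by simpa using hl))
  have hDS : ∀ s ∈ S, g w • cD D s ∈ S := by
    intro s hs
    induction hs using Submodule.span_induction with
    | mem x hx =>
      obtain ⟨l, hl, rfl⟩ := hx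
      have hl' : l < (w : ℕ) := hl
      simp only
      rw [← iv_succ]
      rcases Nat.lt_or_ge (l+1) w with h1 | h1
      · exact Submodule.smul_mem _ _ (hmem _ h1)
      · have : l + 1 = (w : ℕ) := by omega
        rw [this]; exact hw_mem
    | zero =>
      have : cD D (0 : ι → R) = 0 := by funext i; simp [cD]
      rw [this, smul_zero]; exact S.zero_mem
    | add x y _ _ hx hy =>
      rw [cD_add, smul_add]; exact S.add_mem hx hy
    | smul a x hxS hx =>
      rw [cD_smul D hD, smul_add, smul_comm (g w) a]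
      exact S.add_mem (S.smul_mem _ hx) (S.smul_mem _ (S.smul_mem _ hxS))
  have key : ∀ n, ∃ q : R, q ≠ 0 ∧ q • iv D f n ∈ S := by
    intro n
    induction n with
    | zero =>
      rcases Nat.eq_zero_or_pos (w : ℕ) with h0 | h0
      · exact ⟨g w, hgw, by rw [← h0]; exact hw_mem⟩
      · exact ⟨1, one_ne_zero, by rw [one_smul]; exact hmem 0 h0⟩
    | succ n ih =>
      obtain ⟨q, hq, hqS⟩ := ih
      refine ⟨q * q * g w, mul_ne_zero (mul_ne_zero hq hq) hgw, ?_⟩
      have h1 : (q * q * g w) • iv D f (n+1) =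
          q • (g w • cD D (q • iv D f n)) - (g w * D q) • (q • iv D f n) := by
        rw [iv_succ, cD_smul D hD]
        funext i
        simp only [Pi.smul_apply, Pi.sub_apply, Pi.add_apply, smul_eq_mul]
        ring
      rw [h1]
      exact S.sub_mem (S.smul_mem _ (hDS _ hqS)) (S.smul_mem _ hqS)
  have hdotS : ∀ s ∈ S, dot ψ s = 0 := by
    intro s hs
    induction hs using Submodule.span_induction with
    | mem x hx =>
      obtain ⟨l, hl, rfl⟩ := hx
      have hl' : l < (w : ℕ) := hl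
      exact h l (by have := w.2; omega)
    | zero => exact dot_zero ψ
    | add x y _ _ hx hy => rw [dot_add, hx, hy, add_zero]
    | smul a x _ hx => rw [dot_smul, hx, mul_zero]
  obtain ⟨q, hq, hqS⟩ := key n
  have h2 := hdotS _ hqS
  rw [dot_smul] at h2
  exact (mul_eq_zero.mp h2).resolve_left hq

include hD in
omit [IsDomain R] in
/-- existence of a vector with constant ratios -/
lemma exists_const_vec (f ψ0 : ι → R) (hf : f ≠ 0) (hψ : ∀ l, dot ψ0 (iv D f l) = 0) :
    ∃ v : ι → R, v ≠ 0 ∧ dot ψ0 v = 0 ∧ ∀ i j, v i * D (v j) = D (v i) * v j := by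
  classical
  let Φ : Set (ι → R) := {ψ | ∀ l, dot ψ (iv D f l) = 0}
  let V : Set (ι → R) := {v | ∀ ψ ∈ Φ, dot ψ v = 0}
  have hΦ : ∀ ψ ∈ Φ, cD D ψ ∈ Φ := by
    intro ψ hψ l
    have h1 : D (dot ψ (iv D f l)) = dot (cD D ψ) (iv D f l) + dot ψ (iv D f (l+1)) := by
      rw [iv_succ]
      simp only [dot, map_sum, hD, ← Finset.sum_add_distrib, cD]
    rw [hψ l, hψ (l+1), map_zero, add_zero] at h1
    exact h1.symm
  have hVD : ∀ v ∈ V, cD D v ∈ V := by
    intro v hv ψ hψ
    have h1 : D (dot ψ v) = dot (cD D ψ) v + dot ψ (cD D v) := by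
      simp only [dot, map_sum, hD, ← Finset.sum_add_distrib, cD]
    rw [hv ψ hψ, hv _ (hΦ ψ hψ), map_zero, zero_add] at h1
    exact h1.symm
  have hfV : f ∈ V := by
    intro ψ hψ
    exact hψ 0
  -- minimal support
  let supp : (ι → R) → Finset ι := fun v => Finset.univ.filter (fun i => v i ≠ 0)
  have hex : ∃ n : ℕ, ∃ v ∈ V, v ≠ 0 ∧ (supp v).card = n := ⟨_, f, hfV, hf, rfl⟩
  obtain ⟨v, hvV, hv0, hvn⟩ := Nat.find_spec hex
  have hmin : ∀ w ∈ V, w ≠ 0 → (supp v).card ≤ (supp w).card := by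
    intro w hw hw0
    rw [hvn]
    exact Nat.find_min' hex ⟨w, hw, hw0, rfl⟩
  refine ⟨v, hv0, hvV ψ0 hψ, ?_⟩
  intro i j
  by_cases hi : v i = 0
  · simp [hi]
  · set w : ι → R := v i • cD D v - D (v i) • v with hw
    have hwV : w ∈ V := by
      intro ψ hψ
      have h1 : dot ψ w = v i * dot ψ (cD D v) - D (v i) * dot ψ v := by
        rw [hw, sub_eq_add_neg, ← neg_smul, dot_add, dot_smul, dot_smul]; ring
      rw [h1, hvV ψ hψ, hVD v hvV ψ hψ]; ring
    have hwi : w i = 0 := by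
      simp [hw, cD]; ring
    have hw0 : w = 0 := by
      by_contra hne
      have h1 := hmin w hwV hne
      have h2 : supp w ⊂ supp v := by
        rw [Finset.ssubset_iff_of_subset]
        · exact ⟨i, by simp [supp, hi], by simp [supp, hwi]⟩
        · intro k hk
          simp only [supp, Finset.mem_filter, Finset.mem_univ, true_and] at hk ⊢
          intro hvk
          apply hk
          simp [hw, cD, hvk]
      exact absurd (Finset.card_lt_card h2) (by omega)
    have h3 := congrFun hw0 j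
    simp only [hw, Pi.sub_apply, Pi.smul_apply, smul_eq_mul, cD, Pi.zero_apply] at h3
    exact sub_eq_zero.mp h3

end deriv

/-- Wronskian zero implies proportional. -/
lemma prop_of_wronskian (p q : ℤ[X]) (hp : p ≠ 0) (h : p * derivative q = derivative p * q) :
    C p.leadingCoeff * q = C (q.coeff p.natDegree) * p := by
  by_contra hne
  set n := p.natDegree with hn
  set g : ℤ[X] := C p.leadingCoeff * q - C (q.coeff n) * p with hg
  have hg0 : g ≠ 0 := sub_ne_zero.mpr hne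
  have hgn : g.coeff n = 0 := by
    simp [hg, hn, mul_comm]
  have h1 : p * (X * derivative g) = (X * derivative p) * g := by
    have : p * derivative g = derivative p * g := by
      simp only [hg, derivative_sub, derivative_C_mul]
      linear_combination (C p.leadingCoeff) * h
    linear_combination X * this
  set k := g.natDegree with hk
  have hdeg : ∀ r : ℤ[X], (X * derivative r).natDegree ≤ r.natDegree := by
    intro r
    rcases Nat.eq_zero_or_pos r.natDegree with h0 | h0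
    · rw [Polynomial.eq_C_of_natDegree_eq_zero h0]; simp
    · refine (natDegree_mul_le).trans ?_
      have := natDegree_derivative_lt (p := r) (by omega)
      simp only [natDegree_X]
      omega
  have hcoef : ∀ (r : ℤ[X]) (m : ℕ), (X * derivative r).coeff m = m * r.coeff m := by
    intro r m
    cases m with
    | zero => simp
    | succ m => rw [coeff_X_mul, coeff_derivative]; push_cast; ring
  have h2 : (p * (X * derivative g)).coeff (n + k) = p.coeff n * (k * g.coeff k) := by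
    rw [coeff_mul_add_eq_of_natDegree_le le_rfl (hdeg g), hcoef]
  have h3 : ((X * derivative p) * g).coeff (n + k) = (n * p.coeff n) * g.coeff k := by
    rw [coeff_mul_add_eq_of_natDegree_le (hdeg p) le_rfl, hcoef]
  rw [h1, h3] at h2
  have hpn : p.coeff n ≠ 0 := by rw [hn]; exact leadingCoeff_ne_zero.mpr hp
  have hgk : g.coeff k ≠ 0 := by rw [hk]; exact leadingCoeff_ne_zero.mpr hg0
  have h4 : ((n : ℤ) - k) * (p.coeff n * g.coeff k) = 0 := by linear_combination h2
  have h5 : (n : ℤ) = k := by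
    have := (mul_eq_zero.mp h4).resolve_right (mul_ne_zero hpn hgk)
    linarith
  have h6 : n = k := by exact_mod_cast h5
  rw [← h6] at hgk
  exact hgk hgn


/-! ### the exponential monomials -/

/-- X (X+1) (X-1) -/
noncomputable def Dl : ℤ[X] := X * (X + 1) * (X - 1)

/-- the derivation Dl * d/dX -/
noncomputable def th : ℤ[X] →+ ℤ[X] :=
  (AddMonoidHom.mulLeft Dl).comp (derivative (R := ℤ)).toAddMonoidHom

lemma th_apply (f : ℤ[X]) : th f = Dl * derivative f := rfl

lemma th_mul (f g : ℤ[X]) : th (f * g) = th f * g + f * th g := by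
  simp only [th_apply, derivative_mul]; ring

noncomputable def EE (e : ℕ × ℕ × ℕ) : ℤ[X] := X ^ e.1 * (X + 1) ^ e.2.1 * (X - 1) ^ e.2.2

noncomputable def uu (e : ℕ × ℕ × ℕ) : ℤ[X] :=
  C (e.1 : ℤ) * ((X + 1) * (X - 1)) + C (e.2.1 : ℤ) * (X * (X - 1)) + C (e.2.2 : ℤ) * (X * (X + 1))

lemma th_pow {f g : ℤ[X]} (h : th f = g * f) (n : ℕ) : th (f ^ n) = C (n : ℤ) * g * f ^ n := by
  induction n with
  | zero => simp [th_apply]
  | succ n ih =>
    rw [pow_succ, th_mul, ih, h]
    simp only [Nat.cast_add, Nat.cast_one, map_add, C_1]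
    ring

lemma th_EE (e : ℕ × ℕ × ℕ) : th (EE e) = uu e * EE e := by
  have h1 : th (X : ℤ[X]) = ((X + 1) * (X - 1)) * X := by
    simp [th_apply, Dl]; ring
  have h2 : th (X + 1 : ℤ[X]) = (X * (X - 1)) * (X + 1) := by
    simp [th_apply, Dl]; ring
  have h3 : th (X - 1 : ℤ[X]) = (X * (X + 1)) * (X - 1) := by
    simp [th_apply, Dl]
  unfold EE uu
  rw [th_mul, th_mul, th_pow h1, th_pow h2, th_pow h3]
  ring

/-- scaling of exponents -/
def sc (N : ℕ) (e : ℕ × ℕ × ℕ) : ℕ × ℕ × ℕ := (N * e.1, N * e.2.1, N * e.2.2)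

lemma EE_sc (N : ℕ) (e : ℕ × ℕ × ℕ) : EE (sc N e) = EE e ^ N := by
  simp only [EE, sc, mul_pow, ← pow_mul, mul_comm]

lemma uu_sc (N : ℕ) (e : ℕ × ℕ × ℕ) : uu (sc N e) = C (N : ℤ) * uu e := by
  simp only [uu, sc]; push_cast; simp only [map_mul, map_natCast]; ring

lemma EE_ne_zero (e : ℕ × ℕ × ℕ) : EE e ≠ 0 := by
  unfold EE
  refine mul_ne_zero (mul_ne_zero (pow_ne_zero _ X_ne_zero) (pow_ne_zero _ ?_)) (pow_ne_zero _ ?_)
  · have := X_add_C_ne_zero (1 : ℤ); simpa using this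
  · have := X_sub_C_ne_zero (1 : ℤ); simpa using this

/-- twisted derivation -/
noncomputable def dd (e : ℕ × ℕ × ℕ) (p : ℤ[X]) : ℤ[X] := th p + uu e * p

lemma th_mul_EE (e : ℕ × ℕ × ℕ) (p : ℤ[X]) : th (p * EE e) = dd e p * EE e := by
  rw [th_mul, th_EE, dd]; ring

lemma th_iter_mul_EE (e : ℕ × ℕ × ℕ) (p : ℤ[X]) (l : ℕ) :
    (th^[l]) (p * EE e) = ((dd e)^[l]) p * EE e := by
  induction l with
  | zero => rfl
  | succ l ih => rw [Function.iterate_succ_apply', ih, th_mul_EE, Function.iterate_succ_apply']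

lemma natDegree_Dl : Dl.natDegree ≤ 3 := by
  unfold Dl
  refine (natDegree_mul_le).trans ?_
  have h1 : (X * (X + 1) : ℤ[X]).natDegree ≤ 2 := by
    refine (natDegree_mul_le).trans ?_
    have : (X + 1 : ℤ[X]).natDegree = 1 := by simpa using natDegree_X_add_C (1 : ℤ)
    simp [this]
  have h2 : (X - 1 : ℤ[X]).natDegree = 1 := by simpa using natDegree_X_sub_C (1 : ℤ)
  omega

lemma natDegree_th (p : ℤ[X]) : (th p).natDegree ≤ p.natDegree + 2 := by
  rw [th_apply]
  rcases Nat.eq_zero_or_pos p.natDegree with h0 | h0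
  · rw [Polynomial.eq_C_of_natDegree_eq_zero h0]; simp
  · refine (natDegree_mul_le).trans ?_
    have := natDegree_derivative_lt (p := p) (by omega)
    have := natDegree_Dl
    omega

lemma natDegree_uu (e : ℕ × ℕ × ℕ) : (uu e).natDegree ≤ 2 := by
  have hX1 : (X + 1 : ℤ[X]).natDegree ≤ 1 := by
    have := natDegree_X_add_C (1 : ℤ); simp at this; omega
  have hX2 : (X - 1 : ℤ[X]).natDegree ≤ 1 := by
    have := natDegree_X_sub_C (1 : ℤ); simp at this; omega
  have hX : (X : ℤ[X]).natDegree ≤ 1 := natDegree_X_le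
  have key : ∀ (c : ℤ) (p q : ℤ[X]), p.natDegree ≤ 1 → q.natDegree ≤ 1 →
      (C c * (p * q)).natDegree ≤ 2 := by
    intro c p q hp hq
    refine (natDegree_C_mul_le _ _).trans ((natDegree_mul_le).trans (by omega))
  unfold uu
  refine natDegree_add_le_of_degree_le (natDegree_add_le_of_degree_le ?_ ?_) ?_
  · exact key _ _ _ hX1 hX2
  · exact key _ _ _ hX hX2
  · exact key _ _ _ hX hX1

lemma natDegree_dd (e : ℕ × ℕ × ℕ) (p : ℤ[X]) : (dd e p).natDegree ≤ p.natDegree + 2 := by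
  unfold dd
  refine natDegree_add_le_of_degree_le (natDegree_th p) ?_
  refine (natDegree_mul_le).trans ?_
  have := natDegree_uu e
  omega

/-- root multiplicities of EE -/
lemma rm_EE (e : ℕ × ℕ × ℕ) :
    (EE e).roots.count 0 = e.1 ∧ (EE e).roots.count (-1) = e.2.1 ∧ (EE e).roots.count 1 = e.2.2 := by
  have h : EE e = (X - C 0) ^ e.1 * (X - C (-1)) ^ e.2.1 * (X - C 1) ^ e.2.2 := by
    simp [EE]
  have hne := EE_ne_zero e
  rw [h] at hne ⊢
  rw [roots_mul hne, roots_mul (left_ne_zero_of_mul hne)]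
  simp only [roots_pow, roots_X_sub_C, Multiset.count_add, Multiset.count_nsmul,
    Multiset.count_singleton]
  norm_num

lemma EE_inj_aux (N d : ℕ) (hN : d < N) (a b : ℤ[X]) (ha : a ≠ 0) (hb : b ≠ 0)
    (had : a.natDegree ≤ d) (hbd : b.natDegree ≤ d) (e e' : ℕ × ℕ × ℕ) (c c' : ℤ) (hc : c ≠ 0)
    (hc' : c' ≠ 0)
    (h : C c * (a * EE (sc N e)) = C c' * (b * EE (sc N e'))) : e = e' := by
  have hroots : (a * EE (sc N e)).roots = (b * EE (sc N e')).roots := by
    rw [← roots_C_mul (a * EE (sc N e)) hc, h, roots_C_mul _ hc']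
  rw [roots_mul (mul_ne_zero ha (EE_ne_zero _)), roots_mul (mul_ne_zero hb (EE_ne_zero _))] at hroots
  have hca : ∀ x, a.roots.count x < N := fun x =>
    lt_of_le_of_lt ((Multiset.count_le_card _ _).trans ((card_roots' a).trans had)) hN
  have hcb : ∀ x, b.roots.count x < N := fun x =>
    lt_of_le_of_lt ((Multiset.count_le_card _ _).trans ((card_roots' b).trans hbd)) hN
  have key : ∀ x y s t : ℕ, x < N → y < N → x + N * s = y + N * t → s = t := by
    intro x y s t hx hy hxy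
    have h1 : (x + N * s) / N = s := by
      rw [Nat.add_mul_div_left _ _ (by omega), Nat.div_eq_of_lt hx, zero_add]
    have h2 : (y + N * t) / N = t := by
      rw [Nat.add_mul_div_left _ _ (by omega), Nat.div_eq_of_lt hy, zero_add]
    rw [← h1, ← h2, hxy]
  have e1 := congrArg (Multiset.count (0 : ℤ)) hroots
  have e2 := congrArg (Multiset.count (-1 : ℤ)) hroots
  have e3 := congrArg (Multiset.count (1 : ℤ)) hroots
  rw [Multiset.count_add, Multiset.count_add, (rm_EE _).1, (rm_EE _).1] at e1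
  rw [Multiset.count_add, Multiset.count_add, (rm_EE _).2.1, (rm_EE _).2.1] at e2
  rw [Multiset.count_add, Multiset.count_add, (rm_EE _).2.2, (rm_EE _).2.2] at e3
  simp only [sc] at e1 e2 e3
  have f1 := key _ _ _ _ (hca _) (hcb _) e1
  have f2 := key _ _ _ _ (hca _) (hcb _) e2
  have f3 := key _ _ _ _ (hca _) (hcb _) e3
  exact Prod.ext f1 (Prod.ext f2 f3)

/-- bounds for the induction -/
def bnd : ℕ → ℕ → ℕ
  | 0, d => d
  | (k+1), d => bnd k (2*d+2)

lemma le_bnd (k : ℕ) : ∀ d, d ≤ bnd k d := by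
  induction k with
  | zero => intro d; exact le_rfl
  | succ k ih => intro d; exact le_trans (by omega) (ih (2*d+2))

lemma Dl_ne_zero : Dl ≠ 0 := by
  unfold Dl
  refine mul_ne_zero (mul_ne_zero X_ne_zero ?_) ?_
  · have := X_add_C_ne_zero (1 : ℤ); simpa using this
  · have := X_sub_C_ne_zero (1 : ℤ); simpa using this

lemma prop_of_th (p q : ℤ[X]) (hp : p ≠ 0) (h : p * th q = th p * q) :
    C p.leadingCoeff * q = C (q.coeff p.natDegree) * p := by
  apply prop_of_wronskian p q hp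
  apply mul_left_cancel₀ Dl_ne_zero
  rw [th_apply, th_apply] at h
  linear_combination h

/-- linear independence of the exponential monomials with polynomial coefficients of small degree -/
lemma EE_indep {ι : Type*} (e : ι → ℕ × ℕ × ℕ) (he : Function.Injective e) (k : ℕ) :
    ∀ (d N : ℕ) (S : Finset ι), S.card = k → bnd k d < N → ∀ a : ι → ℤ[X],
      (∀ i ∈ S, (a i).natDegree ≤ d) → ∑ i ∈ S, a i * EE (sc N (e i)) = 0 →
      ∀ i ∈ S, a i = 0 := by
  classical
  induction k with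
  | zero =>
    intro d N S hS _ a _ _ i hi
    rw [Finset.card_eq_zero] at hS
    simp [hS] at hi
  | succ k ih =>
    intro d N S hS hN a ha hsum
    by_contra hcon
    push Not at hcon
    obtain ⟨i0, hi0, hai0⟩ := hcon
    set S' := S.erase i0 with hS'
    have hcard : S'.card = k := by rw [hS', Finset.card_erase_of_mem hi0]; omega
    set b : ι → ℤ[X] := fun i => a i0 * dd (sc N (e i)) (a i) - dd (sc N (e i0)) (a i0) * a i with hb
    have hbdeg : ∀ i ∈ S', (b i).natDegree ≤ 2 * d + 2 := by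
      intro i hi
      have hiS : i ∈ S := Finset.mem_of_mem_erase hi
      have h1 := ha i hiS
      have h2 := ha i0 hi0
      have h3 := natDegree_dd (sc N (e i)) (a i)
      have h4 := natDegree_dd (sc N (e i0)) (a i0)
      refine (natDegree_sub_le _ _).trans (max_le ?_ ?_)
      · exact (natDegree_mul_le).trans (by omega)
      · exact (natDegree_mul_le).trans (by omega)
    have hbsum : ∑ i ∈ S', b i * EE (sc N (e i)) = 0 := by
      apply mul_left_cancel₀ (EE_ne_zero (sc N (e i0)))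
      rw [mul_zero]
      have h1 : th (∑ i ∈ S, a i * EE (sc N (e i))) = 0 := by rw [hsum, map_zero]
      rw [map_sum] at h1
      have h2 : ∑ i ∈ S, (b i * EE (sc N (e i))) * EE (sc N (e i0)) = 0 := by
        have h3 : ∀ i ∈ S, (b i * EE (sc N (e i))) * EE (sc N (e i0)) =
            (a i0 * EE (sc N (e i0))) * th (a i * EE (sc N (e i))) -
            (dd (sc N (e i0)) (a i0) * EE (sc N (e i0))) * (a i * EE (sc N (e i))) := by
          intro i _
          rw [th_mul_EE]; simp only [hb]; ring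
        rw [Finset.sum_congr rfl h3, Finset.sum_sub_distrib, ← Finset.mul_sum, ← Finset.mul_sum, h1, hsum]
        ring
      rw [← Finset.add_sum_erase S _ hi0] at h2
      have h4 : b i0 = 0 := by simp only [hb]; ring
      rw [h4, zero_mul, zero_mul, zero_add] at h2
      rw [Finset.mul_sum, ← h2]
      exact Finset.sum_congr rfl fun i _ => by ring
    have hb0 := ih (2*d+2) N S' hcard hN b hbdeg hbsum
    have hdN : d < N := lt_of_le_of_lt (le_bnd (k+1) d) hN
    have hS'0 : ∀ i ∈ S', a i = 0 := by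
      intro i hi
      by_contra hai
      have hiS : i ∈ S := Finset.mem_of_mem_erase hi
      have hne : i ≠ i0 := Finset.ne_of_mem_erase hi
      have h1 := hb0 i hi
      have h2 : (a i0 * EE (sc N (e i0))) * th (a i * EE (sc N (e i))) =
          th (a i0 * EE (sc N (e i0))) * (a i * EE (sc N (e i))) := by
        rw [th_mul_EE, th_mul_EE]
        simp only [hb] at h1
        linear_combination (EE (sc N (e i0)) * EE (sc N (e i))) * h1
      have hp0 : a i0 * EE (sc N (e i0)) ≠ 0 := mul_ne_zero hai0 (EE_ne_zero _)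
      have hq0 : a i * EE (sc N (e i)) ≠ 0 := mul_ne_zero hai (EE_ne_zero _)
      have h3 := prop_of_th _ _ hp0 h2
      have hc' : (a i * EE (sc N (e i))).coeff (a i0 * EE (sc N (e i0))).natDegree ≠ 0 := by
        intro h0
        rw [h0, C_0, zero_mul] at h3
        rcases mul_eq_zero.mp h3 with h4 | h4
        · rw [C_eq_zero, leadingCoeff_eq_zero] at h4; exact hp0 h4
        · exact hq0 h4
      have h5 := EE_inj_aux N d hdN (a i) (a i0) hai hai0 (ha i hiS) (ha i0 hi0) (e i) (e i0)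
        _ _ (leadingCoeff_ne_zero.mpr hp0) hc' h3
      exact hne (he h5)
    have h6 : ∑ i ∈ S, a i * EE (sc N (e i)) = a i0 * EE (sc N (e i0)) := by
      rw [← Finset.add_sum_erase S _ hi0, Finset.sum_eq_zero, add_zero]
      intro i hi
      rw [hS'0 i hi, zero_mul]
    rw [hsum] at h6
    exact mul_ne_zero hai0 (EE_ne_zero _) h6.symm

/-- The nonvanishing lemma. -/
lemma nonvanish {ι : Type*} [Fintype ι] (e e' : ι → ℕ × ℕ × ℕ) (he' : Function.Injective e')
    (T : ℕ × ℕ × ℕ) (hT : ∀ i, e i + e' i = T) (N : ℕ) (hN : bnd (Fintype.card ι) 0 < N)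
    (P : ι → ℤ[X]) (hP : P ≠ 0) :
    ∃ l < Fintype.card ι, ∑ i, ((dd (sc N (e i)))^[l]) (P i) ≠ 0 := by
  classical
  by_contra hcon
  push Not at hcon
  set f : ι → ℤ[X] := fun i => P i * EE (sc N (e i)) with hf
  set ψ : ι → ℤ[X] := fun i => EE (sc N (e' i)) with hψ
  have hEE : ∀ i, EE (sc N (e i)) * EE (sc N (e' i)) = EE (sc N T) := by
    intro i
    rw [← hT i]
    simp only [EE, sc, Prod.fst_add, Prod.snd_add, mul_add, pow_add]
    ring
  have hf0 : f ≠ 0 := by
    intro h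
    apply hP
    funext i
    have := congrFun h i
    simp only [hf, Pi.zero_apply] at this
    exact (mul_eq_zero.mp this).resolve_right (EE_ne_zero _)
  have h1 : ∀ l < Fintype.card ι, dot ψ (iv th f l) = 0 := by
    intro l hl
    have h2 : dot ψ (iv th f l) = EE (sc N T) * ∑ i, ((dd (sc N (e i)))^[l]) (P i) := by
      simp only [dot, iv, hψ, hf, Finset.mul_sum]
      refine Finset.sum_congr rfl fun i _ => ?_
      rw [th_iter_mul_EE, ← hEE i]; ring
    rw [h2, hcon l hl, mul_zero]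
  have h2 := dot_iv_all th th_mul f ψ h1
  obtain ⟨v, hv0, hdot, hv⟩ := exists_const_vec th th_mul f ψ hf0 h2
  obtain ⟨i0, hi0⟩ : ∃ i0, v i0 ≠ 0 := by
    by_contra h; push Not at h; exact hv0 (funext h)
  set c : ι → ℤ := fun j => (v j).coeff (v i0).natDegree with hc
  have h3 : ∀ j, C (v i0).leadingCoeff * v j = C (c j) * v i0 := fun j =>
    prop_of_th _ _ hi0 (hv i0 j)
  have h4 : v i0 * ∑ j, C (c j) * ψ j = 0 := by
    have : C (v i0).leadingCoeff * dot ψ v = 0 := by rw [hdot, mul_zero]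
    rw [← this, dot, Finset.mul_sum, Finset.mul_sum]
    refine Finset.sum_congr rfl fun j _ => ?_
    linear_combination -(ψ j) * h3 j
  have h5 : ∑ j, C (c j) * EE (sc N (e' j)) = 0 := (mul_eq_zero.mp h4).resolve_left hi0
  have h6 := EE_indep e' he' (Fintype.card ι) 0 N Finset.univ (by simp) hN (fun j => C (c j))
    (fun i _ => by simp) h5 i0 (Finset.mem_univ _)
  simp only [C_eq_zero] at h6
  exact leadingCoeff_ne_zero.mpr hi0 h6



/-! ### index bound -/

lemma card_le_det {d : ℕ} {A : Type*} [AddCommGroup A] (π : (Fin d → ℤ) →+ A)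
    (hπ : Function.Surjective π) (W : Fin d → Fin d → ℤ) (hW : (Matrix.of W).det ≠ 0)
    (h : ∀ i, π (W i) = 0) : Nat.card A ≤ ((Matrix.of W).det).natAbs := by
  classical
  have hli : LinearIndependent ℤ W := by
    rw [Fintype.linearIndependent_iff]
    intro g hg
    have h1 : Matrix.vecMul g (Matrix.of W) = 0 := by
      rw [Matrix.vecMul_eq_sum]
      exact hg
    exact fun i => congrFun (Matrix.eq_zero_of_vecMul_eq_zero hW h1) i
  let L : Submodule ℤ (Fin d → ℤ) := Submodule.span ℤ (Set.range W)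
  let bN : Module.Basis (Fin d) ℤ L := Module.Basis.span hli
  have h1 := Submodule.natAbs_det_basis_change (Pi.basisFun ℤ (Fin d)) L bN
  have h2 : ((Pi.basisFun ℤ (Fin d)).det ((↑) ∘ bN)) = (Matrix.of W).det := by
    have : ((↑) ∘ bN : Fin d → (Fin d → ℤ)) = W := by
      funext i
      exact Module.Basis.coe_span_apply hli i
    rw [this, Module.Basis.det_apply, ← Matrix.det_transpose]
    congr 1
  rw [h2] at h1
  have hfin : Finite ((Fin d → ℤ) ⧸ L) := by
    apply Nat.finite_of_card_ne_zero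
    rw [← h1]
    exact Int.natAbs_ne_zero.mpr hW
  rw [h1]
  have hker : ∀ x ∈ L, π x = 0 := by
    intro x hx
    induction hx using Submodule.span_induction with
    | mem x hx => obtain ⟨i, rfl⟩ := hx; exact h i
    | zero => exact map_zero π
    | add x y _ _ hx hy => rw [map_add, hx, hy, add_zero]
    | smul a x _ hx => rw [map_zsmul, hx, smul_zero]
  let πl : (Fin d → ℤ) →ₗ[ℤ] A := π.toIntLinearMap
  let φ : ((Fin d → ℤ) ⧸ L) →ₗ[ℤ] A := L.liftQ πl (fun x hx => hker x hx)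
  have hφ : Function.Surjective φ := by
    intro a
    obtain ⟨x, hx⟩ := hπ a
    refine ⟨Submodule.Quotient.mk x, ?_⟩
    rw [← hx]
    exact Submodule.liftQ_apply L πl x
  exact Nat.card_le_card_of_surjective φ hφ

lemma det_le_prod {d : ℕ} (W : Fin d → Fin d → ℤ) :
    |(Matrix.of W).det| ≤ ∏ i, ∑ j, |W i j| := by
  classical
  rw [Matrix.det_apply]
  refine (Finset.abs_sum_le_sum_abs _ _).trans ?_
  rw [Finset.prod_univ_sum]
  have h1 : ∀ σ : Equiv.Perm (Fin d), |Equiv.Perm.sign σ • ∏ i, (Matrix.of W) (σ i) i| =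
      ∏ i, |W i ((σ⁻¹ : Equiv.Perm (Fin d)) i)| := by
    intro σ
    have h2 : |Equiv.Perm.sign σ • ∏ i, (Matrix.of W) (σ i) i| = |∏ i, (Matrix.of W) (σ i) i| := by
      rcases Int.units_eq_one_or (Equiv.Perm.sign σ) with h | h <;> simp [h]
    rw [h2, Finset.abs_prod]
    rw [← Equiv.prod_comp σ (fun i => |W i ((σ⁻¹ : Equiv.Perm (Fin d)) i)|)]
    simp
  rw [Finset.sum_congr rfl (fun σ _ => h1 σ)]
  have h3 : ∑ σ : Equiv.Perm (Fin d), ∏ i, |W i ((σ⁻¹ : Equiv.Perm (Fin d)) i)| =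
      ∑ g ∈ Finset.univ.image (fun σ : Equiv.Perm (Fin d) => fun i => (σ⁻¹ : Equiv.Perm (Fin d)) i),
        ∏ i, |W i (g i)| := by
    rw [Finset.sum_image]
    intro σ _ τ _ h
    have : σ⁻¹ = τ⁻¹ := Equiv.ext (fun i => congrFun h i)
    exact inv_injective this
  rw [h3]
  apply Finset.sum_le_sum_of_subset_of_nonneg
  · intro g _
    simp
  · intro g _ _
    exact Finset.prod_nonneg fun i _ => abs_nonneg _

/-- cast to rational vectors -/
def cq {d : ℕ} (v : Fin d → ℤ) : Fin d → ℚ := fun j => (v j : ℚ)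

lemma cq_inj {d : ℕ} : Function.Injective (cq (d := d)) := by
  intro v w h
  funext j
  have := congrFun h j
  simpa [cq] using this

lemma steinitz {d k : ℕ} (hk : k ≤ d) (v : Fin k → (Fin d → ℤ))
    (hv : LinearIndependent ℚ (fun i => cq (v i))) (T : Set (Fin d → ℤ))
    (hT : Submodule.span ℚ (cq '' T) = ⊤) (A B : ℤ) (hA : 0 ≤ A) 
    (hvA : ∀ i, ∑ j, |v i j| ≤ A) (hTB : ∀ t ∈ T, ∑ j, |t j| ≤ B) :
    ∃ W : Fin d → Fin d → ℤ, (Matrix.of W).det ≠ 0 ∧ (∀ i, W i ∈ Set.range v ∪ T) ∧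
      ∏ i, ∑ j, |W i j| ≤ A ^ k * B ^ (d - k) := by
  classical
  let s : Set (Fin d → ℚ) := Set.range (fun i => cq (v i))
  let t : Set (Fin d → ℚ) := s ∪ cq '' T
  have hs : LinearIndepOn ℚ id s := hv.linearIndepOn_id
  obtain ⟨b, hbt, hsb, htb, hb'⟩ := exists_linearIndepOn_id_extension hs (Set.subset_union_left : s ⊆ t)
  have hb : LinearIndependent ℚ ((↑) : b → (Fin d → ℚ)) := hb'
  have hbspan : Submodule.span ℚ b = ⊤ := by
    rw [eq_top_iff, ← hT]
    exact Submodule.span_le.mpr ((Set.subset_union_right).trans htb)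
  let bb : Module.Basis b ℚ (Fin d → ℚ) := Module.Basis.mk hb (by
    rw [Subtype.range_coe_subtype]; simp [hbspan])
  have : Finite b := Module.Finite.finite_basis bb
  have : Fintype b := Fintype.ofFinite b
  have hcard : Fintype.card b = d := by
    have h1 := Module.finrank_eq_card_basis bb
    rw [Module.finrank_fin_fun] at h1
    exact h1.symm
  let e : Fin d ≃ b := (Fintype.equivFinOfCardEq hcard).symm
  -- integer preimages
  have hpre : ∀ x : b, ∃ y : Fin d → ℤ, cq y = x ∧ y ∈ Set.range v ∪ T := by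
    intro x
    rcases hbt x.2 with h | h
    · obtain ⟨i, hi⟩ := h
      exact ⟨v i, hi, Or.inl ⟨i, rfl⟩⟩
    · obtain ⟨y, hy, hyx⟩ := h
      exact ⟨y, hyx, Or.inr hy⟩
  choose g hg1 hg2 using hpre
  refine ⟨fun i => g (e i), ?_, fun i => hg2 _, ?_⟩
  · have hli : LinearIndependent ℚ (fun i : Fin d => cq (g (e i))) := by
      have h1 : (fun i : Fin d => cq (g (e i))) = (fun x : b => (x : Fin d → ℚ)) ∘ e := by
        funext i; simp [hg1]
      rw [h1]
      exact hb.comp _ e.injective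
    have h2 : IsUnit (Matrix.of (fun i : Fin d => cq (g (e i)))) :=
      Matrix.linearIndependent_rows_iff_isUnit.mp hli
    rw [Matrix.isUnit_iff_isUnit_det] at h2
    have h3 : (Matrix.of (fun i : Fin d => cq (g (e i)))).det = (((Matrix.of fun i => g (e i)).det : ℤ) : ℚ) := by
      have : Matrix.of (fun i : Fin d => cq (g (e i))) = (Matrix.of fun i => g (e i)).map (Int.castRingHom ℚ) := by
        ext i j; simp [cq]
      rw [this, ← RingHom.mapMatrix_apply, ← RingHom.map_det]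
      simp
    rw [h3] at h2
    intro h0
    rw [h0] at h2
    simp at h2
  · have h1 : ∏ i, ∑ j, |g (e i) j| = ∏ x : b, ∑ j, |g x j| :=
      Equiv.prod_comp e (fun x => ∑ j, |g x j|)
    rw [h1]
    -- split
    rw [← Finset.prod_filter_mul_prod_filter_not Finset.univ (fun x : b => (x : Fin d → ℚ) ∈ s)]
    have hcs : (Finset.univ.filter (fun x : b => (x : Fin d → ℚ) ∈ s)).card = k := by
      have hinj : Function.Injective (fun i : Fin k => cq (v i)) := hv.injective
      have h2 : (Finset.univ.filter (fun x : b => (x : Fin d → ℚ) ∈ s)) =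
          Finset.univ.image (fun i : Fin k => (⟨cq (v i), hsb ⟨i, rfl⟩⟩ : b)) := by
        ext x
        simp only [Finset.mem_filter, Finset.mem_univ, true_and, Finset.mem_image, s, Set.mem_range]
        constructor
        · rintro ⟨i, hi⟩; exact ⟨i, Subtype.ext hi⟩
        · rintro ⟨i, hi⟩; exact ⟨i, by rw [← hi]⟩
      rw [h2, Finset.card_image_of_injective]
      · simp
      · intro i j hij
        exact hinj (Subtype.ext_iff.mp hij)
    have hcn : (Finset.univ.filter (fun x : b => ¬ (x : Fin d → ℚ) ∈ s)).card = d - k := by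
      have h2 := Finset.card_filter_add_card_filter_not (s := (Finset.univ : Finset b)) (fun x : b => (x : Fin d → ℚ) ∈ s)
      rw [hcs, Finset.card_univ, hcard] at h2
      omega
    have hp1 : ∏ x ∈ Finset.univ.filter (fun x : b => (x : Fin d → ℚ) ∈ s), ∑ j, |g x j| ≤ A ^ k := by
      have hAk : A ^ k = ∏ x ∈ Finset.univ.filter (fun x : b => (x : Fin d → ℚ) ∈ s), A := by
        rw [Finset.prod_const, hcs]
      rw [hAk]
      refine Finset.prod_le_prod (fun x _ => Finset.sum_nonneg fun j _ => abs_nonneg _) ?_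
      intro x hx
      simp only [Finset.mem_filter, Finset.mem_univ, true_and] at hx
      obtain ⟨i, hi⟩ := hx
      have : g x = v i := cq_inj (by rw [hg1]; exact hi.symm)
      rw [this]; exact hvA i
    have hp2 : ∏ x ∈ Finset.univ.filter (fun x : b => ¬ (x : Fin d → ℚ) ∈ s), ∑ j, |g x j| ≤ B ^ (d - k) := by
      rw [← hcn, ← Finset.prod_const]
      refine Finset.prod_le_prod (fun x _ => Finset.sum_nonneg fun j _ => abs_nonneg _) ?_
      intro x hx
      simp only [Finset.mem_filter, Finset.mem_univ, true_and] at hx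
      rcases hbt x.2 with h | h
      · exact absurd h hx
      · obtain ⟨y, hy, hyx⟩ := h
        have : g x = y := cq_inj (by rw [hg1]; exact hyx.symm)
        rw [this]; exact hTB y hy
    exact mul_le_mul hp1 hp2 (Finset.prod_nonneg fun x _ => Finset.sum_nonneg fun j _ => abs_nonneg _)
      (pow_nonneg hA _)



/-! ### the sum of absolute values of the coefficients -/

noncomputable def L1 (p : ℤ[X]) : ℤ := p.sum (fun _ a => |a|)

lemma L1_eq (p : ℤ[X]) (n : ℕ) (h : p.natDegree < n) : L1 p = ∑ i ∈ Finset.range n, |p.coeff i| := by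
  unfold L1
  exact sum_over_range' p (fun _ => abs_zero) n h

lemma L1_nonneg (p : ℤ[X]) : 0 ≤ L1 p := by
  rw [L1_eq p _ (Nat.lt_succ_self _)]
  exact Finset.sum_nonneg fun i _ => abs_nonneg _

lemma L1_zero : L1 0 = 0 := by
  rw [L1_eq 0 1 (by simp)]; simp

lemma L1_trunc (p : ℤ[X]) (n : ℕ) : ∑ i ∈ Finset.range n, |p.coeff i| ≤ L1 p := by
  rw [L1_eq p (max n (p.natDegree + 1)) (by omega)]
  apply Finset.sum_le_sum_of_subset_of_nonneg
  · intro i hi; simp only [Finset.mem_range] at hi ⊢; omega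
  · intro i _ _; exact abs_nonneg _

lemma abs_coeff_le_L1 (p : ℤ[X]) (i : ℕ) : |p.coeff i| ≤ L1 p := by
  refine le_trans ?_ (L1_trunc p (i+1))
  exact Finset.single_le_sum (f := fun i => |p.coeff i|) (fun j _ => abs_nonneg _) (by simp)

lemma L1_add (p q : ℤ[X]) : L1 (p + q) ≤ L1 p + L1 q := by
  set n := max (max p.natDegree q.natDegree) (p+q).natDegree + 1 with hn
  rw [L1_eq p n (by omega), L1_eq q n (by omega), L1_eq (p+q) n (by omega), ← Finset.sum_add_distrib]
  refine Finset.sum_le_sum fun i _ => ?_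
  rw [coeff_add]; exact abs_add_le _ _

lemma L1_neg (p : ℤ[X]) : L1 (-p) = L1 p := by
  rw [L1_eq p (p.natDegree+1) (by omega), L1_eq (-p) (p.natDegree+1) (by simp)]
  refine Finset.sum_congr rfl fun i _ => ?_
  rw [coeff_neg, abs_neg]

lemma L1_sub (p q : ℤ[X]) : L1 (p - q) ≤ L1 p + L1 q := by
  rw [sub_eq_add_neg]
  refine (L1_add _ _).trans ?_
  rw [L1_neg]

lemma L1_sum {ι : Type*} (s : Finset ι) (f : ι → ℤ[X]) : L1 (∑ i ∈ s, f i) ≤ ∑ i ∈ s, L1 (f i) := by
  classical
  induction s using Finset.induction_on with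
  | empty => simp [L1_zero]
  | insert a s ha ih =>
    rw [Finset.sum_insert ha, Finset.sum_insert ha]
    exact (L1_add _ _).trans (by linarith)

lemma L1_monomial_mul (a : ℤ) (k : ℕ) (q : ℤ[X]) : L1 (C a * X ^ k * q) = |a| * L1 q := by
  have hdeg : (C a * X ^ k * q).natDegree ≤ k + q.natDegree := by
    refine (natDegree_mul_le).trans ?_
    have := natDegree_C_mul_X_pow_le a k
    omega
  rw [L1_eq (C a * X ^ k * q) (k + (q.natDegree + 1)) (by omega), L1_eq q (q.natDegree+1) (by omega)]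
  rw [Finset.sum_range_add, Finset.mul_sum]
  have h1 : ∑ x ∈ Finset.range k, |(C a * X ^ k * q).coeff x| = 0 := by
    apply Finset.sum_eq_zero
    intro x hx
    rw [Finset.mem_range] at hx
    rw [mul_assoc, coeff_C_mul, coeff_X_pow_mul', if_neg (by omega), mul_zero, abs_zero]
  rw [h1, zero_add]
  refine Finset.sum_congr rfl fun i _ => ?_
  rw [mul_assoc, coeff_C_mul, add_comm k i, coeff_X_pow_mul, abs_mul]

lemma L1_mul (p q : ℤ[X]) : L1 (p * q) ≤ L1 p * L1 q := by
  conv_lhs => rw [p.as_sum_range_C_mul_X_pow]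
  rw [Finset.sum_mul]
  refine (L1_sum _ _).trans ?_
  rw [L1_eq p (p.natDegree+1) (by omega), Finset.sum_mul]
  exact Finset.sum_le_sum fun i _ => by rw [L1_monomial_mul]

lemma L1_one : L1 1 = 1 := by
  rw [L1_eq 1 1 (by simp)]; simp

lemma L1_X_pow_mul (k : ℕ) (q : ℤ[X]) : L1 (X ^ k * q) = L1 q := by
  have := L1_monomial_mul 1 k q
  simpa using this

lemma L1_C_mul (a : ℤ) (q : ℤ[X]) : L1 (C a * q) = |a| * L1 q := by
  have := L1_monomial_mul a 0 q
  simpa using this

lemma L1_X : L1 X = 1 := by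
  have := L1_X_pow_mul 1 1
  simpa [L1_one] using this

lemma L1_pow (p : ℤ[X]) (n : ℕ) : L1 (p ^ n) ≤ L1 p ^ n := by
  induction n with
  | zero => simp [L1_one]
  | succ n ih =>
    rw [pow_succ, pow_succ]
    exact (L1_mul _ _).trans (mul_le_mul_of_nonneg_right ih (L1_nonneg _))

lemma L1_Xp1 : L1 (X + 1) ≤ 2 := by
  refine (L1_add _ _).trans ?_
  rw [L1_X, L1_one]; norm_num

lemma L1_Xm1 : L1 (X - 1) ≤ 2 := by
  refine (L1_sub _ _).trans ?_
  rw [L1_X, L1_one]; norm_num

lemma L1_derivative (p : ℤ[X]) : L1 (derivative p) ≤ p.natDegree * L1 p := by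
  rcases Nat.eq_zero_or_pos p.natDegree with h0 | h0
  · rw [Polynomial.eq_C_of_natDegree_eq_zero h0]; simp [L1_zero]
  · have h1 := natDegree_derivative_lt (p := p) (by omega)
    rw [L1_eq (derivative p) p.natDegree h1]
    have h2 : L1 p = |p.coeff 0| + ∑ i ∈ Finset.range p.natDegree, |p.coeff (i+1)| := by
      rw [L1_eq p (p.natDegree + 1) (by omega), Finset.sum_range_succ', add_comm]
    have h3 : ∑ i ∈ Finset.range p.natDegree, |(derivative p).coeff i| ≤
        ∑ i ∈ Finset.range p.natDegree, (p.natDegree : ℤ) * |p.coeff (i+1)| := by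
      refine Finset.sum_le_sum fun i hi => ?_
      rw [Finset.mem_range] at hi
      rw [coeff_derivative, abs_mul, mul_comm]
      refine mul_le_mul_of_nonneg_right ?_ (abs_nonneg _)
      rw [abs_of_nonneg (by positivity)]
      exact_mod_cast hi
    refine h3.trans ?_
    rw [← Finset.mul_sum, h2]
    have h4 := abs_nonneg (p.coeff 0)
    have h5 : (0:ℤ) ≤ p.natDegree := by positivity
    nlinarith [mul_nonneg h5 h4]

/-! ### coefficient vectors -/

def cv (d : ℕ) (p : ℤ[X]) : Fin d → ℤ := fun j => p.coeff j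

lemma sum_cv (d : ℕ) (p : ℤ[X]) : ∑ j, |cv d p j| ≤ L1 p := by
  have : ∑ j : Fin d, |cv d p j| = ∑ i ∈ Finset.range d, |p.coeff i| := by
    rw [Finset.sum_range]; rfl
  rw [this]; exact L1_trunc p d

noncomputable def ofv {d : ℕ} (v : Fin d → ℤ) : ℤ[X] := ∑ j : Fin d, C (v j) * X ^ (j : ℕ)

lemma ofv_cv (d : ℕ) (p : ℤ[X]) (h : p.natDegree < d) : ofv (cv d p) = p := by
  unfold ofv cv
  rw [← Finset.sum_range (fun j => C (p.coeff j) * X ^ j)]
  exact (p.as_sum_range_C_mul_X_pow' h).symm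


/-! ### the ideal and the index bound -/

noncomputable def JJ (N : ℕ) : Ideal ℤ[X] :=
  Ideal.span ({X ^ N - 1, (X + 1) ^ N - 1, (X - 1) ^ N - 1} : Set ℤ[X])

def TT (N : ℕ) : Set (Fin (2 * N) → ℤ) :=
  {t | ∃ i < N, ∃ g ∈ ({X ^ N - 1, (X + 1) ^ N - 1, (X - 1) ^ N - 1} : Set ℤ[X]),
    t = cv (2 * N) (X ^ i * g)}

noncomputable def kp (d : ℕ) (p : ℤ[X]) : Fin d → ℚ := cq (cv d p)

lemma kp_add (d : ℕ) (p q : ℤ[X]) : kp d (p + q) = kp d p + kp d q := by
  funext j; simp [kp, cq, cv]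

lemma kp_C_mul (d : ℕ) (a : ℤ) (p : ℤ[X]) : kp d (C a * p) = (a : ℚ) • kp d p := by
  funext j; simp [kp, cq, cv]

lemma kp_zero (d : ℕ) : kp d 0 = 0 := by
  funext j; simp [kp, cq, cv]

lemma kp_sum (d : ℕ) {ι : Type*} (s : Finset ι) (f : ι → ℤ[X]) :
    kp d (∑ i ∈ s, f i) = ∑ i ∈ s, kp d (f i) := by
  classical
  induction s using Finset.induction_on with
  | empty => simp [kp_zero]
  | insert a s ha ih => rw [Finset.sum_insert ha, Finset.sum_insert ha, kp_add, ih]

lemma natDegree_gen (N : ℕ) (g : ℤ[X])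
    (hg : g ∈ ({X ^ N - 1, (X + 1) ^ N - 1, (X - 1) ^ N - 1} : Set ℤ[X])) : g.natDegree ≤ N := by
  have h1 : (X + 1 : ℤ[X]).natDegree = 1 := by simpa using natDegree_X_add_C (1 : ℤ)
  have h2 : (X - 1 : ℤ[X]).natDegree = 1 := by simpa using natDegree_X_sub_C (1 : ℤ)
  simp only [Set.mem_insert_iff, Set.mem_singleton_iff] at hg
  rcases hg with rfl | rfl | rfl
  · refine (natDegree_sub_le _ _).trans (by simp)
  · refine (natDegree_sub_le _ _).trans ?_
    refine max_le ((natDegree_pow_le).trans (by rw [h1, mul_one])) (by simp)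
  · refine (natDegree_sub_le _ _).trans ?_
    refine max_le ((natDegree_pow_le).trans (by rw [h2, mul_one])) (by simp)

lemma L1_gen (N : ℕ) (g : ℤ[X])
    (hg : g ∈ ({X ^ N - 1, (X + 1) ^ N - 1, (X - 1) ^ N - 1} : Set ℤ[X])) : L1 g ≤ 2 ^ N + 1 := by
  have h3 : (1 : ℤ) ≤ 2 ^ N := one_le_pow₀ (by norm_num)
  simp only [Set.mem_insert_iff, Set.mem_singleton_iff] at hg
  rcases hg with rfl | rfl | rfl
  · refine (L1_sub _ _).trans ?_
    rw [L1_one]
    have : L1 (X ^ N : ℤ[X]) = 1 := by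
      have := L1_X_pow_mul N 1
      rwa [mul_one, L1_one] at this
    rw [this]; linarith
  · refine (L1_sub _ _).trans ?_
    rw [L1_one]
    have h4 := (L1_pow (X + 1) N).trans (pow_le_pow_left₀ (L1_nonneg _) L1_Xp1 N)
    linarith
  · refine (L1_sub _ _).trans ?_
    rw [L1_one]
    have h4 := (L1_pow (X - 1) N).trans (pow_le_pow_left₀ (L1_nonneg _) L1_Xm1 N)
    linarith

lemma span_top (N : ℕ) (hN : 1 ≤ N) (hfin : Finite (ℤ[X] ⧸ JJ N)) :
    Submodule.span ℚ (cq '' TT N) = ⊤ := by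
  classical
  set S := Submodule.span ℚ (cq '' TT N) with hS
  set n : ℕ := Nat.card (ℤ[X] ⧸ JJ N) with hn
  have hn0 : n ≠ 0 := Nat.card_pos.ne'
  have hCn : ∀ g : ℤ[X], C (n : ℤ) * g ∈ JJ N := by
    intro g
    rw [← Ideal.Quotient.eq_zero_iff_mem]
    have h1 : (n : ℕ) • (Ideal.Quotient.mk (JJ N) g) = 0 := card_nsmul_eq_zero'
    rw [← map_nsmul] at h1
    rw [← h1]
    congr 1
    simp
  have hmul : ∀ (P g : ℤ[X]), P.natDegree < N →
      g ∈ ({X ^ N - 1, (X + 1) ^ N - 1, (X - 1) ^ N - 1} : Set ℤ[X]) → kp (2 * N) (P * g) ∈ S := by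
    intro P g hP hg
    have h1 : P * g = ∑ i ∈ Finset.range N, C (P.coeff i) * (X ^ i * g) := by
      conv_lhs => rw [P.as_sum_range_C_mul_X_pow' hP]
      rw [Finset.sum_mul]
      exact Finset.sum_congr rfl fun i _ => by ring
    rw [h1, kp_sum]
    refine Submodule.sum_mem _ fun i hi => ?_
    rw [kp_C_mul]
    refine Submodule.smul_mem _ _ (Submodule.subset_span ⟨_, ⟨i, by simpa using hi, g, hg, rfl⟩, rfl⟩)
  set f : ℤ[X] := X ^ N - 1 with hf
  have hfm : f.Monic := by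
    have := monic_X_pow_sub_C (1 : ℤ) (n := N) (by omega)
    simpa [hf] using this
  have hfd : f.natDegree = N := by
    have := natDegree_X_pow_sub_C (n := N) (r := (1 : ℤ))
    simpa [hf] using this
  have key : ∀ j : Fin (2 * N), kp (2 * N) (X ^ (j : ℕ)) ∈ S := by
    intro j
    have h1 := hCn (X ^ (j : ℕ))
    rw [JJ, Ideal.span, Submodule.mem_span_triple] at h1
    obtain ⟨p, q, r, hpqr⟩ := h1
    simp only [smul_eq_mul] at hpqr
    set b : ℤ[X] := (X + 1) ^ N - 1 with hb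
    set c : ℤ[X] := (X - 1) ^ N - 1 with hc
    have hbd : b.natDegree ≤ N := natDegree_gen N b (by simp [hb])
    have hcd : c.natDegree ≤ N := natDegree_gen N c (by simp [hc])
    set q' := q %ₘ f with hq'
    set r' := r %ₘ f with hr'
    have hq'd : q'.natDegree < N := by
      have := natDegree_modByMonic_lt q hfm (by intro h; rw [h] at hfd; simp at hfd; omega)
      rw [hfd] at this
      exact this
    have hr'd : r'.natDegree < N := by
      have := natDegree_modByMonic_lt r hfm (by intro h; rw [h] at hfd; simp at hfd; omega)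
      rw [hfd] at this
      exact this
    have hq : q = q' + f * (q /ₘ f) := (modByMonic_add_div q f).symm
    have hr : r = r' + f * (r /ₘ f) := (modByMonic_add_div r f).symm
    set P := p + b * (q /ₘ f) + c * (r /ₘ f) with hP
    have hPeq : P * f + q' * b + r' * c = C (n : ℤ) * X ^ (j : ℕ) := by
      rw [← hpqr]
      conv_rhs => rw [hq, hr]
      rw [hP]; ring
    have hPd : P.natDegree < N := by
      by_contra hcon
      push Not at hcon
      have hP0 : P ≠ 0 := by intro h; rw [h] at hcon; simp at hcon; omega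
      have h2 : (P * f).natDegree = P.natDegree + N := by
        rw [mul_comm, hfm.natDegree_mul' hP0, hfd, add_comm]
      have h3 : P * f = C (n : ℤ) * X ^ (j : ℕ) - q' * b - r' * c := by
        rw [← hPeq]; ring
      have h4 : (C (n : ℤ) * X ^ (j : ℕ) - q' * b - r' * c).natDegree < 2 * N := by
        have e1 : (C (n : ℤ) * X ^ (j : ℕ)).natDegree < 2 * N :=
          lt_of_le_of_lt (natDegree_C_mul_X_pow_le _ _) j.2
        have e2 : (q' * b).natDegree < 2 * N := lt_of_le_of_lt natDegree_mul_le (by omega)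
        have e3 : (r' * c).natDegree < 2 * N := lt_of_le_of_lt natDegree_mul_le (by omega)
        have e4 := natDegree_sub_le (C (n : ℤ) * X ^ (j : ℕ)) (q' * b)
        have e5 := natDegree_sub_le (C (n : ℤ) * X ^ (j : ℕ) - q' * b) (r' * c)
        omega
      rw [h3] at h2
      omega
    have h5 : kp (2 * N) (C (n : ℤ) * X ^ (j : ℕ)) ∈ S := by
      rw [← hPeq, kp_add, kp_add]
      refine S.add_mem (S.add_mem ?_ ?_) ?_
      · exact hmul P f hPd (by simp [hf])
      · exact hmul q' b hq'd (by simp [hb])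
      · exact hmul r' c hr'd (by simp [hc])
    rw [kp_C_mul] at h5
    have h6 := S.smul_mem ((n : ℚ)⁻¹) h5
    rw [smul_smul] at h6
    have h7 : ((n : ℚ)⁻¹ * (((n : ℕ) : ℤ) : ℚ)) = 1 := by
      push_cast
      exact inv_mul_cancel₀ (by exact_mod_cast hn0)
    rw [h7, one_smul] at h6
    exact h6
  rw [eq_top_iff, ← (Pi.basisFun ℚ (Fin (2 * N))).span_eq, Submodule.span_le]
  rintro _ ⟨j, rfl⟩
  have h8 : (Pi.basisFun ℚ (Fin (2 * N))) j = kp (2 * N) (X ^ (j : ℕ)) := by
    funext i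
    simp only [Pi.basisFun_apply, kp, cq, cv, coeff_X_pow, Pi.single_apply]
    by_cases h : i = j
    · simp [h]
    · have : (i : ℕ) ≠ j := fun h' => h (Fin.ext h')
      simp [h, this]
  rw [h8]
  exact key j

lemma indep_shift (d : ℕ) (α : ℤ[X]) (hα : α ≠ 0) (hd : α.natDegree ≤ d) :
    LinearIndependent ℚ (fun i : Fin (d - α.natDegree) => cq (cv d (X ^ (i : ℕ) * α))) := by
  classical
  by_cases hd0 : d - α.natDegree = 0
  · have : IsEmpty (Fin (d - α.natDegree)) := by rw [hd0]; infer_instance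
    exact linearIndependent_empty_type
  rw [Fintype.linearIndependent_iff]
  intro g hg
  set αq : ℚ[X] := α.map (Int.castRingHom ℚ) with hαq
  have hαq0 : αq ≠ 0 := by
    rw [hαq, Polynomial.map_ne_zero_iff (RingHom.injective_int _)]; exact hα
  have hαd : αq.natDegree = α.natDegree := natDegree_map_eq_of_injective (RingHom.injective_int _) α
  set Q : ℚ[X] := ∑ i : Fin (d - α.natDegree), C (g i) * X ^ (i : ℕ) with hQ
  have hQα : Q * αq = 0 := by
    ext j
    rw [coeff_zero]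
    by_cases hj : j < d
    · have h1 := congrFun hg ⟨j, hj⟩
      simp only [Finset.sum_apply, Pi.smul_apply, smul_eq_mul, Pi.zero_apply, cq, cv] at h1
      rw [hQ, Finset.sum_mul, finsetSum_coeff, ← h1]
      refine Finset.sum_congr rfl fun i _ => ?_
      rw [mul_assoc, coeff_C_mul]
      congr 1
      have : (X ^ (i : ℕ) * αq) = (X ^ (i : ℕ) * α).map (Int.castRingHom ℚ) := by
        simp [hαq]
      rw [this, coeff_map]
      simp
    · apply coeff_eq_zero_of_natDegree_lt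
      have h2 : Q.natDegree ≤ d - α.natDegree - 1 := by
        rw [hQ]
        refine natDegree_sum_le_of_forall_le _ _ fun i _ => ?_
        refine (natDegree_C_mul_X_pow_le _ _).trans ?_
        have := i.2
        omega
      refine lt_of_le_of_lt natDegree_mul_le ?_
      omega
  have hQ0 : Q = 0 := (mul_eq_zero.mp hQα).resolve_right hαq0
  intro i
  have h3 : Q.coeff i = g i := by
    rw [hQ, finsetSum_coeff, Finset.sum_eq_single i]
    · simp
    · intro b _ hb
      rw [coeff_C_mul, coeff_X_pow, if_neg, mul_zero]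
      intro h; exact hb (Fin.ext h.symm)
    · simp
  rw [← h3, hQ0, coeff_zero]

lemma card_bound (N : ℕ) (hN : 1 ≤ N) (α : ℤ[X]) (hαJ : α ∈ JJ N) (hα : α ≠ 0)
    (hd : α.natDegree ≤ 2 * N) (A : ℤ) (hA : L1 α ≤ A) :
    (Nat.card (ℤ[X] ⧸ JJ N) : ℤ) ≤ A ^ (2 * N - α.natDegree) * (2 ^ N + 1) ^ α.natDegree := by
  classical
  have hA0 : 0 ≤ A := (L1_nonneg α).trans hA
  by_cases hfin : Finite (ℤ[X] ⧸ JJ N)
  swap
  · have : Nat.card (ℤ[X] ⧸ JJ N) = 0 := by
      rw [not_finite_iff_infinite] at hfin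
      exact Nat.card_eq_zero_of_infinite
    rw [this]
    push_cast
    positivity
  have hB0 : (0 : ℤ) ≤ 2 ^ N + 1 := by positivity
  obtain ⟨W, hW, hWm, hWp⟩ := steinitz (d := 2 * N) (k := 2 * N - α.natDegree) (Nat.sub_le _ _)
    (fun i => cv (2 * N) (X ^ (i : ℕ) * α)) (indep_shift (2 * N) α hα hd) (TT N)
    (span_top N hN hfin) A (2 ^ N + 1) hA0
    (fun i => (sum_cv _ _).trans (by rw [L1_X_pow_mul]; exact hA))
    (by
      rintro t ⟨i, _, g, hg, rfl⟩
      refine (sum_cv _ _).trans ?_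
      rw [L1_X_pow_mul]; exact L1_gen N g hg)
  have h1 : 2 * N - (2 * N - α.natDegree) = α.natDegree := by omega
  rw [h1] at hWp
  -- the projection
  let π : (Fin (2 * N) → ℤ) →+ (ℤ[X] ⧸ JJ N) :=
    { toFun := fun v => Ideal.Quotient.mk (JJ N) (ofv v)
      map_zero' := by simp [ofv]
      map_add' := by
        intro v w
        rw [← map_add]
        congr 1
        simp [ofv, Finset.sum_add_distrib, add_mul] }
  have hπ : Function.Surjective π := by
    intro x
    obtain ⟨p, rfl⟩ := Ideal.Quotient.mk_surjective x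
    have hfm : (X ^ N - 1 : ℤ[X]).Monic := by
      have := monic_X_pow_sub_C (1 : ℤ) (n := N) (by omega)
      simpa using this
    have hfd : (X ^ N - 1 : ℤ[X]).natDegree = N := by
      have := natDegree_X_pow_sub_C (n := N) (r := (1 : ℤ))
      simpa using this
    refine ⟨cv (2 * N) (p %ₘ (X ^ N - 1)), ?_⟩
    change Ideal.Quotient.mk (JJ N) (ofv (cv (2 * N) (p %ₘ (X ^ N - 1)))) = _
    rw [ofv_cv]
    · rw [Ideal.Quotient.eq]
      have h2 : p %ₘ (X ^ N - 1) - p = (X ^ N - 1) * (-(p /ₘ (X ^ N - 1))) := by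
        have := modByMonic_add_div p (X ^ N - 1 : ℤ[X])
        linear_combination this
      rw [h2]
      exact Ideal.mul_mem_right _ _ (Ideal.subset_span (by simp))
    · have := natDegree_modByMonic_lt p hfm (by intro h; rw [h] at hfd; simp at hfd; omega)
      omega
  have hπW : ∀ i, π (W i) = 0 := by
    intro i
    change Ideal.Quotient.mk (JJ N) (ofv (W i)) = 0
    rw [Ideal.Quotient.eq_zero_iff_mem]
    rcases hWm i with ⟨k, hk⟩ | ⟨k, hk, g, hg, hWi⟩
    · rw [← hk]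
      simp only
      rw [ofv_cv]
      · exact Ideal.mul_mem_left _ _ hαJ
      · refine lt_of_le_of_lt natDegree_mul_le ?_
        have := k.2
        simp only [natDegree_X_pow]
        omega
    · rw [hWi, ofv_cv]
      · exact Ideal.mul_mem_left _ _ (Ideal.subset_span hg)
      · refine lt_of_le_of_lt natDegree_mul_le ?_
        have := natDegree_gen N g hg
        simp only [natDegree_X_pow]
        omega
  have h3 := card_le_det π hπ W hW hπW
  have h4 := det_le_prod W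
  calc (Nat.card (ℤ[X] ⧸ JJ N) : ℤ) ≤ (((Matrix.of W).det).natAbs : ℤ) := by exact_mod_cast h3
    _ = |(Matrix.of W).det| := Int.natCast_natAbs _
    _ ≤ _ := h4
    _ ≤ _ := hWp



section siegel
attribute [local instance] Matrix.seminormedAddCommGroup

lemma siegel {α β : Type*} [Fintype α] [Fintype β] (A : Matrix α β ℤ) (Bd : ℝ) (hBd : 1 ≤ Bd)
    (hA : ∀ i j, |(A i j : ℝ)| ≤ Bd) (hm : 0 < Fintype.card α)
    (hn : Fintype.card α < Fintype.card β) :
    ∃ t : β → ℤ, t ≠ 0 ∧ A.mulVec t = 0 ∧ ∀ j, |(t j : ℝ)| ≤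
      (Fintype.card β * Bd) ^ ((Fintype.card α : ℝ) / (Fintype.card β - Fintype.card α)) := by
  classical
  obtain ⟨t, ht0, htA, htn⟩ := Int.Matrix.exists_ne_zero_int_vec_norm_le A hn hm
  refine ⟨t, ht0, htA, ?_⟩
  intro j
  have h1 : ‖t j‖ ≤ ‖t‖ := norm_le_pi_norm t j
  rw [Int.norm_eq_abs] at h1
  refine h1.trans (htn.trans ?_)
  have hnm : (0:ℝ) < (Fintype.card β : ℝ) - Fintype.card α := by
    have : (Fintype.card α : ℝ) < Fintype.card β := by exact_mod_cast hn
    linarith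
  have hAn : ‖A‖ ≤ Bd := by
    rw [Matrix.norm_le_iff (by linarith)]
    intro i j
    rw [Int.norm_eq_abs]
    exact hA i j
  apply Real.rpow_le_rpow
  · positivity
  · gcongr
    exact max_le hBd hAn
  · positivity

end siegel


/-! ### the auxiliary polynomials -/

lemma natDegree_EE (e : ℕ × ℕ × ℕ) : (EE e).natDegree ≤ e.1 + e.2.1 + e.2.2 := by
  have h1 : (X + 1 : ℤ[X]).natDegree = 1 := by simpa using natDegree_X_add_C (1 : ℤ)
  have h2 : (X - 1 : ℤ[X]).natDegree = 1 := by simpa using natDegree_X_sub_C (1 : ℤ)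
  unfold EE
  refine (natDegree_mul_le).trans (Nat.add_le_add ((natDegree_mul_le).trans (Nat.add_le_add ?_ ?_)) ?_)
  · simp
  · exact (natDegree_pow_le).trans (by rw [h1, mul_one])
  · exact (natDegree_pow_le).trans (by rw [h2, mul_one])

lemma L1_EE (e : ℕ × ℕ × ℕ) : L1 (EE e) ≤ 2 ^ (e.2.1 + e.2.2) := by
  unfold EE
  rw [mul_assoc, L1_X_pow_mul, pow_add]
  refine (L1_mul _ _).trans (mul_le_mul ?_ ?_ (L1_nonneg _) (by positivity))
  · exact (L1_pow _ _).trans (pow_le_pow_left₀ (L1_nonneg _) L1_Xp1 _)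
  · exact (L1_pow _ _).trans (pow_le_pow_left₀ (L1_nonneg _) L1_Xm1 _)

def ex {M : ℕ} (i : Fin M × Fin M × Fin M) : ℕ × ℕ × ℕ := (i.1, i.2.1, i.2.2)

def ex' {M : ℕ} (i : Fin M × Fin M × Fin M) : ℕ × ℕ × ℕ :=
  (M - 1 - i.1, M - 1 - i.2.1, M - 1 - i.2.2)

lemma ex'_inj {M : ℕ} : Function.Injective (ex' (M := M)) := by
  rintro ⟨a, b, c⟩ ⟨a', b', c'⟩ h
  simp only [ex', Prod.mk.injEq] at h
  have h1 := a.2; have h2 := b.2; have h3 := c.2
  have h4 := a'.2; have h5 := b'.2; have h6 := c'.2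
  obtain ⟨e1, e2, e3⟩ := h
  have f1 : a = a' := Fin.ext (by omega)
  have f2 : b = b' := Fin.ext (by omega)
  have f3 : c = c' := Fin.ext (by omega)
  rw [f1, f2, f3]

lemma ex_add {M : ℕ} (i : Fin M × Fin M × Fin M) : ex i + ex' i = (M - 1, M - 1, M - 1) := by
  have h1 := i.1.2; have h2 := i.2.1.2; have h3 := i.2.2.2
  simp only [ex, ex', Prod.mk_add_mk, Prod.mk.injEq]
  omega

lemma siegel_poly (M N D : ℕ) (hM : 1 ≤ M) (hN : 1 ≤ N) (hD : D < 3 * N)
    (hn : 3 * M * N < M ^ 3 * (D + 1)) :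
    ∃ P : (Fin M × Fin M × Fin M) → ℤ[X], P ≠ 0 ∧ (∀ i, (P i).natDegree ≤ D) ∧
      ∑ i, P i * EE (sc N (ex i)) = 0 ∧
      ∀ i, (L1 (P i) : ℝ) ≤ (D + 1) * (((M ^ 3 * (D + 1) : ℕ) : ℝ) * 4 ^ (M * N)) ^
        (((3 * M * N : ℕ) : ℝ) / (((M ^ 3 * (D + 1) : ℕ) : ℝ) - ((3 * M * N : ℕ) : ℝ))) := by
  classical
  have hdegE : ∀ i : Fin M × Fin M × Fin M, (EE (sc N (ex i))).natDegree ≤ 3 * ((M - 1) * N) := by
    intro i
    refine (natDegree_EE _).trans ?_
    have h1 := i.1.2; have h2 := i.2.1.2; have h3 := i.2.2.2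
    simp only [sc, ex]
    have e1 : N * (i.1 : ℕ) ≤ (M - 1) * N := by rw [mul_comm]; exact Nat.mul_le_mul_right _ (by omega)
    have e2 : N * (i.2.1 : ℕ) ≤ (M - 1) * N := by rw [mul_comm]; exact Nat.mul_le_mul_right _ (by omega)
    have e3 : N * (i.2.2 : ℕ) ≤ (M - 1) * N := by rw [mul_comm]; exact Nat.mul_le_mul_right _ (by omega)
    omega
  have hMN : (M - 1) * N + N = M * N := by
    obtain ⟨k, rfl⟩ : ∃ k, M = k + 1 := ⟨M - 1, by omega⟩
    simp [Nat.add_mul]
  let A : Matrix (Fin (3 * M * N)) ((Fin M × Fin M × Fin M) × Fin (D + 1)) ℤ :=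
    fun j x => (X ^ (x.2 : ℕ) * EE (sc N (ex x.1))).coeff j
  have hcb : Fintype.card ((Fin M × Fin M × Fin M) × Fin (D + 1)) = M ^ 3 * (D + 1) := by
    simp; ring
  have hA : ∀ j x, |(A j x : ℝ)| ≤ (4 : ℝ) ^ (M * N) := by
    intro j x
    have h1 : |A j x| ≤ 4 ^ (M * N) := by
      refine (abs_coeff_le_L1 _ _).trans ?_
      rw [L1_X_pow_mul]
      refine (L1_EE _).trans ?_
      have h4 : (4 : ℤ) ^ (M * N) = 2 ^ (2 * (M * N)) := by
        rw [show (4 : ℤ) = 2 ^ 2 by norm_num, ← pow_mul]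
      rw [h4]
      apply pow_le_pow_right₀ (by norm_num)
      have h2 := x.1.2.1.2; have h3 := x.1.2.2.2
      simp only [sc, ex]
      have e2 : N * (x.1.2.1 : ℕ) ≤ M * N := by rw [mul_comm]; exact Nat.mul_le_mul_right _ (by omega)
      have e3 : N * (x.1.2.2 : ℕ) ≤ M * N := by rw [mul_comm]; exact Nat.mul_le_mul_right _ (by omega)
      omega
    exact_mod_cast h1
  have h3MN : 0 < 3 * M * N := by positivity
  obtain ⟨t, ht0, htA, htn⟩ := siegel A ((4 : ℝ) ^ (M * N)) (one_le_pow₀ (by norm_num)) hA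
    (by simpa using h3MN) (by rw [hcb]; simpa using hn)
  rw [hcb] at htn
  simp only [Fintype.card_fin] at htn
  let P : (Fin M × Fin M × Fin M) → ℤ[X] := fun i => ∑ k : Fin (D + 1), C (t (i, k)) * X ^ (k : ℕ)
  have hPd : ∀ i, (P i).natDegree ≤ D := by
    intro i
    refine natDegree_sum_le_of_forall_le _ _ fun k _ => ?_
    refine (natDegree_C_mul_X_pow_le _ _).trans ?_
    have := k.2
    omega
  refine ⟨P, ?_, hPd, ?_, ?_⟩
  · intro h
    apply ht0
    funext x
    have h1 : (P x.1).coeff (x.2 : ℕ) = t x := by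
      simp only [P]
      rw [finsetSum_coeff, Finset.sum_eq_single x.2]
      · simp
      · intro b _ hb
        rw [coeff_C_mul, coeff_X_pow, if_neg, mul_zero]
        intro h'; exact hb (Fin.ext h'.symm)
      · simp
    rw [← h1, h]
    simp
  · ext j
    rw [coeff_zero]
    by_cases hj : j < 3 * M * N
    · have h1 := congrFun htA ⟨j, hj⟩
      simp only [Matrix.mulVec, dotProduct, Pi.zero_apply, A] at h1
      have h1' : ∑ i : Fin M × Fin M × Fin M, ∑ k : Fin (D + 1),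
          (X ^ (k : ℕ) * EE (sc N (ex i))).coeff j * t (i, k) = 0 := by
        rw [← h1, Fintype.sum_prod_type (γ := ℤ) (α₁ := Fin M × Fin M × Fin M) (α₂ := Fin (D + 1))]
      rw [← h1', finsetSum_coeff]
      refine Finset.sum_congr rfl fun i _ => ?_
      simp only [P]
      rw [Finset.sum_mul, finsetSum_coeff]
      refine Finset.sum_congr rfl fun k _ => ?_
      rw [mul_assoc, coeff_C_mul, mul_comm]
    · apply coeff_eq_zero_of_natDegree_lt
      have h2 : (∑ i, P i * EE (sc N (ex i))).natDegree ≤ D + 3 * ((M - 1) * N) := by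
        refine natDegree_sum_le_of_forall_le _ _ fun i _ => ?_
        exact (natDegree_mul_le).trans (Nat.add_le_add (hPd i) (hdegE i))
      have h3 : 3 * M * N = 3 * ((M - 1) * N) + 3 * N := by rw [mul_assoc, ← hMN]; ring
      omega
  · intro i
    have h1 : L1 (P i) ≤ ∑ k : Fin (D + 1), |t (i, k)| := by
      refine (L1_sum _ _).trans (Finset.sum_le_sum fun k _ => ?_)
      have := L1_monomial_mul (t (i, k)) k 1
      rw [mul_one, L1_one, mul_one] at this
      rw [this]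
    have h2 : (L1 (P i) : ℝ) ≤ ∑ k : Fin (D + 1), |(t (i, k) : ℝ)| := by
      have : ((L1 (P i) : ℤ) : ℝ) ≤ ((∑ k : Fin (D + 1), |t (i, k)| : ℤ) : ℝ) := by exact_mod_cast h1
      refine this.trans (le_of_eq ?_)
      push_cast
      rfl
    refine h2.trans ?_
    refine (Finset.sum_le_sum fun k _ => htn (i, k)).trans ?_
    rw [Finset.sum_const, Finset.card_univ, Fintype.card_fin, nsmul_eq_mul]
    push_cast
    exact le_rfl

/-! ### growth of the iterates -/

lemma L1_uu (e : ℕ × ℕ × ℕ) : L1 (uu e) ≤ 4 * (e.1 + e.2.1 + e.2.2) := by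
  unfold uu
  have h0 : L1 (X : ℤ[X]) ≤ 2 := by rw [L1_X]; norm_num
  have key : ∀ (c : ℕ) (p q : ℤ[X]), L1 p ≤ 2 → L1 q ≤ 2 → L1 (C (c : ℤ) * (p * q)) ≤ 4 * c := by
    intro c p q hp hq
    rw [L1_C_mul, abs_of_nonneg (by positivity)]
    have h1 : L1 (p * q) ≤ 4 := by
      refine (L1_mul _ _).trans ?_
      have := mul_le_mul hp hq (L1_nonneg _) (by norm_num)
      linarith
    have h2 : (0:ℤ) ≤ c := by positivity
    nlinarith
  refine (L1_add _ _).trans ?_
  have h1 := L1_add (C (e.1 : ℤ) * ((X + 1) * (X - 1))) (C (e.2.1 : ℤ) * (X * (X - 1)))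
  have h2 := key e.1 _ _ L1_Xp1 L1_Xm1
  have h3 := key e.2.1 _ _ h0 L1_Xm1
  have h4 := key e.2.2 _ _ h0 L1_Xp1
  linarith

lemma L1_Dl : L1 Dl ≤ 4 := by
  unfold Dl
  refine (L1_mul _ _).trans ?_
  have h1 : L1 (X * (X + 1)) ≤ 2 := by
    refine (L1_mul _ _).trans ?_
    rw [L1_X, one_mul]; exact L1_Xp1
  have := mul_le_mul h1 L1_Xm1 (L1_nonneg _) (by norm_num)
  linarith

lemma L1_dd (e : ℕ × ℕ × ℕ) (p : ℤ[X]) :
    L1 (dd e p) ≤ (4 * p.natDegree + 4 * (e.1 + e.2.1 + e.2.2)) * L1 p := by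
  unfold dd
  refine (L1_add _ _).trans ?_
  have h1 : L1 (th p) ≤ 4 * (p.natDegree * L1 p) := by
    rw [th_apply]
    refine (L1_mul _ _).trans ?_
    exact mul_le_mul L1_Dl (L1_derivative p) (L1_nonneg _) (by norm_num)
  have h2 : L1 (uu e * p) ≤ (4 * (e.1 + e.2.1 + e.2.2)) * L1 p :=
    (L1_mul _ _).trans (mul_le_mul_of_nonneg_right (L1_uu e) (L1_nonneg _))
  linarith

lemma natDegree_dd_iter (e : ℕ × ℕ × ℕ) (p : ℤ[X]) (l : ℕ) :
    ((dd e)^[l] p).natDegree ≤ p.natDegree + 2 * l := by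
  induction l with
  | zero => simp
  | succ l ih =>
    rw [Function.iterate_succ_apply']
    have := natDegree_dd e ((dd e)^[l] p)
    omega

lemma L1_dd_iter (e : ℕ × ℕ × ℕ) (p : ℤ[X]) (K : ℕ) (G : ℤ)
    (hG : 4 * ((p.natDegree : ℤ) + 2 * K) + 4 * (e.1 + e.2.1 + e.2.2) ≤ G) (l : ℕ) (hl : l ≤ K) :
    L1 ((dd e)^[l] p) ≤ G ^ l * L1 p := by
  have hG0 : 0 ≤ G := le_trans (by positivity) hG
  induction l with
  | zero => simp
  | succ l ih =>
    rw [Function.iterate_succ_apply']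
    refine (L1_dd e _).trans ?_
    have h1 := ih (by omega)
    have h2 := natDegree_dd_iter e p l
    have h3 : (4 * (((dd e)^[l] p).natDegree : ℤ) + 4 * (e.1 + e.2.1 + e.2.2)) ≤ G := by
      have h4 : (((dd e)^[l] p).natDegree : ℤ) ≤ p.natDegree + 2 * l := by exact_mod_cast h2
      have h5 : (l : ℤ) + 1 ≤ K := by exact_mod_cast hl
      linarith
    calc _ ≤ G * (G ^ l * L1 p) := mul_le_mul h3 h1 (L1_nonneg _) hG0
      _ = G ^ (l + 1) * L1 p := by ring

/-- the combined statement: a small nonzero element of the ideal -/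
lemma exists_small (M N D : ℕ) (hM : 1 ≤ M) (hN : bnd (M ^ 3) 0 < N) (hD : D < 3 * N)
    (hn : 3 * M * N < M ^ 3 * (D + 1)) :
    ∃ α ∈ JJ N, α ≠ 0 ∧ α.natDegree ≤ D + 2 * M ^ 3 ∧
      (L1 α : ℝ) ≤ M ^ 3 * ((4 * (D + 2 * M ^ 3) + 12 * (M * N)) ^ (M ^ 3) *
        ((D + 1) * (((M ^ 3 * (D + 1) : ℕ) : ℝ) * 4 ^ (M * N)) ^
        (((3 * M * N : ℕ) : ℝ) / (((M ^ 3 * (D + 1) : ℕ) : ℝ) - ((3 * M * N : ℕ) : ℝ))))) := by
  classical
  have hN1 : 1 ≤ N := by omega
  obtain ⟨P, hP0, hPd, hPsum, hPL⟩ := siegel_poly M N D hM hN1 hD hn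
  have hcard : Fintype.card (Fin M × Fin M × Fin M) = M ^ 3 := by simp; ring
  obtain ⟨l, hl, hl0⟩ := nonvanish (ex (M := M)) ex' ex'_inj (M - 1, M - 1, M - 1) ex_add N
    (by rw [hcard]; exact hN) P hP0
  rw [hcard] at hl
  set Bd : ℝ := (D + 1) * (((M ^ 3 * (D + 1) : ℕ) : ℝ) * 4 ^ (M * N)) ^
        (((3 * M * N : ℕ) : ℝ) / (((M ^ 3 * (D + 1) : ℕ) : ℝ) - ((3 * M * N : ℕ) : ℝ))) with hBd
  have hBd0 : 0 ≤ Bd := by positivity
  refine ⟨∑ i, ((dd (sc N (ex i)))^[l]) (P i), ?_, hl0, ?_, ?_⟩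
  · -- membership
    have h1 : ∑ i, ((dd (sc N (ex i)))^[l]) (P i) * EE (sc N (ex i)) = 0 := by
      have h2 : (th^[l]) (∑ i, P i * EE (sc N (ex i))) = 0 := by
        rw [hPsum]
        exact Function.iterate_fixed (map_zero th) l
      have h3 : ∀ (s : Finset (Fin M × Fin M × Fin M)) (f : (Fin M × Fin M × Fin M) → ℤ[X]),
          (th^[l]) (∑ i ∈ s, f i) = ∑ i ∈ s, (th^[l]) (f i) := by
        intro s f
        clear h2 hl hl0
        induction l with
        | zero => simp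
        | succ l ih => simp only [Function.iterate_succ_apply', ih, map_sum]
      rw [h3] at h2
      rw [← h2]
      exact Finset.sum_congr rfl fun i _ => (th_iter_mul_EE _ _ _).symm
    have h2 : ∑ i, ((dd (sc N (ex i)))^[l]) (P i) =
        -∑ i, ((dd (sc N (ex i)))^[l]) (P i) * (EE (sc N (ex i)) - 1) := by
      rw [eq_neg_iff_add_eq_zero, ← Finset.sum_add_distrib, ← h1]
      exact Finset.sum_congr rfl fun i _ => by ring
    rw [h2]
    refine neg_mem (sum_mem fun i _ => Ideal.mul_mem_left _ _ ?_)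
    rw [← Ideal.Quotient.eq_zero_iff_mem, EE_sc, map_sub, map_one, map_pow]
    have g1 : (Ideal.Quotient.mk (JJ N) X) ^ N = 1 := by
      rw [← map_pow, ← sub_eq_zero, ← map_one (Ideal.Quotient.mk (JJ N)), ← map_sub,
        Ideal.Quotient.eq_zero_iff_mem]
      exact Ideal.subset_span (by simp)
    have g2 : (Ideal.Quotient.mk (JJ N) (X + 1)) ^ N = 1 := by
      rw [← map_pow, ← sub_eq_zero, ← map_one (Ideal.Quotient.mk (JJ N)), ← map_sub,
        Ideal.Quotient.eq_zero_iff_mem]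
      exact Ideal.subset_span (by simp)
    have g3 : (Ideal.Quotient.mk (JJ N) (X - 1)) ^ N = 1 := by
      rw [← map_pow, ← sub_eq_zero, ← map_one (Ideal.Quotient.mk (JJ N)), ← map_sub,
        Ideal.Quotient.eq_zero_iff_mem]
      exact Ideal.subset_span (by simp)
    have g4 : (Ideal.Quotient.mk (JJ N) (EE (ex i))) ^ N =
        ((Ideal.Quotient.mk (JJ N) X) ^ N) ^ (ex i).1 *
        ((Ideal.Quotient.mk (JJ N) (X + 1)) ^ N) ^ (ex i).2.1 *
        ((Ideal.Quotient.mk (JJ N) (X - 1)) ^ N) ^ (ex i).2.2 := by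
      rw [EE, map_mul, map_mul, map_pow, map_pow, map_pow, mul_pow, mul_pow]
      simp only [← pow_mul, mul_comm]
    rw [g4, g1, g2, g3]
    simp
  · refine natDegree_sum_le_of_forall_le _ _ fun i _ => ?_
    refine (natDegree_dd_iter _ _ _).trans ?_
    have := hPd i
    omega
  · -- size
    set G : ℤ := 4 * (D + 2 * M ^ 3) + 12 * (M * N) with hG
    have hG1 : 1 ≤ G := by
      have : (1 : ℤ) ≤ (M : ℤ) * N := by
        have : 1 ≤ M * N := Nat.one_le_iff_ne_zero.mpr (by positivity)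
        exact_mod_cast this
      have h5 : (0 : ℤ) ≤ 4 * (D + 2 * M ^ 3) := by positivity
      linarith
    have h1 : ∀ i, L1 (((dd (sc N (ex i)))^[l]) (P i)) ≤ G ^ (M ^ 3) * L1 (P i) := by
      intro i
      refine (L1_dd_iter (sc N (ex i)) (P i) (M ^ 3) G ?_ l hl.le).trans ?_
      · have h2 : ((P i).natDegree : ℤ) ≤ D := by exact_mod_cast hPd i
        have e1 := i.1.2; have e2 := i.2.1.2; have e3 := i.2.2.2
        simp only [sc, ex]
        have f1 : ((N * (i.1 : ℕ) : ℕ) : ℤ) ≤ M * N := by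
          have : N * (i.1 : ℕ) ≤ M * N := by rw [mul_comm]; exact Nat.mul_le_mul_right _ (by omega)
          exact_mod_cast this
        have f2 : ((N * (i.2.1 : ℕ) : ℕ) : ℤ) ≤ M * N := by
          have : N * (i.2.1 : ℕ) ≤ M * N := by rw [mul_comm]; exact Nat.mul_le_mul_right _ (by omega)
          exact_mod_cast this
        have f3 : ((N * (i.2.2 : ℕ) : ℕ) : ℤ) ≤ M * N := by
          have : N * (i.2.2 : ℕ) ≤ M * N := by rw [mul_comm]; exact Nat.mul_le_mul_right _ (by omega)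
          exact_mod_cast this
        rw [hG]
        push_cast at f1 f2 f3 ⊢
        linarith
      · exact mul_le_mul_of_nonneg_right (pow_le_pow_right₀ hG1 hl.le) (L1_nonneg _)
    have h2 : L1 (∑ i, ((dd (sc N (ex i)))^[l]) (P i)) ≤ ∑ i, G ^ (M ^ 3) * L1 (P i) :=
      (L1_sum _ _).trans (Finset.sum_le_sum fun i _ => h1 i)
    have h3 : (L1 (∑ i, ((dd (sc N (ex i)))^[l]) (P i)) : ℝ) ≤
        ∑ i : Fin M × Fin M × Fin M, (G : ℝ) ^ (M ^ 3) * (L1 (P i) : ℝ) := by
      exact_mod_cast h2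
    refine h3.trans ?_
    have hG0 : (0 : ℝ) ≤ (G : ℝ) ^ (M ^ 3) := by
      have : (0:ℝ) ≤ (G : ℝ) := by exact_mod_cast (by linarith : (0:ℤ) ≤ G)
      positivity
    refine (Finset.sum_le_sum fun i _ => mul_le_mul_of_nonneg_left (hPL i) hG0).trans ?_
    rw [Finset.sum_const, Finset.card_univ, hcard, nsmul_eq_mul]
    rw [hG]
    push_cast
    exact le_rfl


/-! ### asymptotics -/

lemma L1_pos {α : ℤ[X]} (hα : α ≠ 0) : 1 ≤ L1 α := by
  have h1 := abs_coeff_le_L1 α α.natDegree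
  have h2 : α.coeff α.natDegree ≠ 0 := leadingCoeff_ne_zero.mpr hα
  have h3 := Int.one_le_abs h2
  linarith

lemma log_card_le (N : ℕ) (hN : 1 ≤ N) (α : ℤ[X]) (hαJ : α ∈ JJ N) (hα : α ≠ 0) (m0 : ℕ)
    (hm : α.natDegree ≤ m0) (hd : m0 ≤ 2 * N) :
    Real.log (Nat.card (ℤ[X] ⧸ JJ N) : ℝ) ≤ 2 * N * Real.log (L1 α : ℝ) + m0 * (N + 1) := by
  have hL := L1_pos hα
  have hLr : (1 : ℝ) ≤ (L1 α : ℝ) := by exact_mod_cast hL
  have hlog0 : 0 ≤ Real.log (L1 α : ℝ) := Real.log_nonneg hLr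
  rcases Nat.eq_zero_or_pos (Nat.card (ℤ[X] ⧸ JJ N)) with h0 | h0
  · rw [h0]; simp only [Nat.cast_zero, Real.log_zero]; positivity
  have h1 := card_bound N hN α hαJ hα (hm.trans hd) (L1 α) le_rfl
  have h2 : (Nat.card (ℤ[X] ⧸ JJ N) : ℝ) ≤ (L1 α : ℝ) ^ (2 * N) * (2 ^ N + 1) ^ m0 := by
    have h3 : (Nat.card (ℤ[X] ⧸ JJ N) : ℤ) ≤ (L1 α) ^ (2 * N) * (2 ^ N + 1) ^ m0 := by
      refine h1.trans (mul_le_mul ?_ ?_ (by positivity) (by positivity))
      · exact pow_le_pow_right₀ hL (Nat.sub_le _ _)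
      · exact pow_le_pow_right₀ (by have : (0:ℤ) < 2 ^ N := by positivity
                                    linarith) hm
    exact_mod_cast h3
  have hcpos : (0 : ℝ) < (Nat.card (ℤ[X] ⧸ JJ N) : ℝ) := by exact_mod_cast h0
  have h4 := Real.log_le_log hcpos h2
  refine h4.trans ?_
  rw [Real.log_mul (by positivity) (by positivity), Real.log_pow, Real.log_pow]
  have h5 : Real.log ((2:ℝ) ^ N + 1) ≤ N + 1 := by
    have h6 : (2:ℝ) ^ N + 1 ≤ 2 ^ (N + 1) := by
      have : (1:ℝ) ≤ 2 ^ N := one_le_pow₀ (by norm_num)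
      rw [pow_succ]; linarith
    refine (Real.log_le_log (by positivity) h6).trans ?_
    rw [Real.log_pow]
    have h7 : Real.log 2 ≤ 1 := by
      have := Real.log_two_lt_d9; linarith
    have h8 : (0:ℝ) ≤ ((N + 1 : ℕ) : ℝ) := by positivity
    calc ((N + 1 : ℕ) : ℝ) * Real.log 2 ≤ ((N + 1 : ℕ) : ℝ) * 1 := mul_le_mul_of_nonneg_left h7 h8
      _ = N + 1 := by push_cast; ring
  have h9 : (m0 : ℝ) * Real.log ((2:ℝ) ^ N + 1) ≤ m0 * (N + 1) :=
    mul_le_mul_of_nonneg_left h5 (by positivity)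
  push_cast at *
  linarith

lemma log_alpha (q M N D : ℕ) (a : ℝ) (hq : 1 ≤ q) (hM : M = 10 * q ^ 2) (hN : 1 ≤ N)
    (hDN : D ≤ N) (ρ : ℝ) (hρ0 : 0 ≤ ρ) (hρb : ρ ≤ 6 / (100 * (q : ℝ) ^ 3)) (ha : 0 < a)
    (haL : a ≤ M ^ 3 * ((4 * (D + 2 * M ^ 3) + 12 * (M * N)) ^ (M ^ 3) *
        ((D + 1) * (((M ^ 3 * (D + 1) : ℕ) : ℝ) * 4 ^ (M * N)) ^ ρ))) :
    Real.log a ≤ ((M : ℝ) ^ 3 + 3) * Real.log ((8 * (M : ℝ) ^ 3 + 12 * M + 4) * N) +
      (84 / 100) * (N / q) := by
  have hqr : (1 : ℝ) ≤ q := by exact_mod_cast hq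
  have hMr : (M : ℝ) = 10 * (q : ℝ) ^ 2 := by rw [hM]; push_cast; ring
  have hMr1 : (1 : ℝ) ≤ M := by
    rw [hMr]
    have : (1 : ℝ) ≤ (q : ℝ) ^ 2 := one_le_pow₀ hqr
    linarith
  have hNr1 : (1 : ℝ) ≤ N := by exact_mod_cast hN
  have hDNr : (D : ℝ) ≤ N := by exact_mod_cast hDN
  have hD0 : (0 : ℝ) ≤ D := by positivity
  obtain ⟨K, hK⟩ : ∃ K : ℝ, K = (M : ℝ) ^ 3 := ⟨_, rfl⟩
  have hK1 : 1 ≤ K := by rw [hK]; exact one_le_pow₀ hMr1
  have hKN : K ≤ K * N := le_mul_of_one_le_right (by linarith) hNr1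
  have hMN0 : 0 ≤ (M : ℝ) * N := by positivity
  have hM0 : (0 : ℝ) < M := by linarith
  obtain ⟨L, hL⟩ : ∃ L : ℝ, L = Real.log ((8 * (M : ℝ) ^ 3 + 12 * M + 4) * N) := ⟨_, rfl⟩
  have hcN : (8 * (M : ℝ) ^ 3 + 12 * M + 4) * N = 8 * (K * N) + 12 * (M * N) + 4 * N := by
    rw [hK]; ring
  rw [← hL]
  rw [hcN] at hL
  have hL0 : 0 ≤ L := by
    rw [hL]; exact Real.log_nonneg (by linarith)
  have hρ1 : ρ ≤ 1 := by
    refine hρb.trans ?_
    have hq3 : (1 : ℝ) ≤ (q : ℝ) ^ 3 := one_le_pow₀ hqr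
    rw [div_le_one (by positivity)]
    linarith
  have h1 := Real.log_le_log ha haL
  refine h1.trans ?_
  have p1 : (M : ℝ) ^ 3 ≠ 0 := by positivity
  have p2 : ((4 * ((D : ℝ) + 2 * (M : ℝ) ^ 3) + 12 * (M * N)) ^ (M ^ 3)) ≠ 0 := by positivity
  have p3 : ((D : ℝ) + 1) ≠ 0 := by positivity
  have hM3 : 0 < M ^ 3 * (D + 1) := by
    have : 0 < M := by rw [hM]; positivity
    positivity
  have hM3r : (0 : ℝ) < ((M ^ 3 * (D + 1) : ℕ) : ℝ) := by exact_mod_cast hM3
  have p5 : (0 : ℝ) < ((M ^ 3 * (D + 1) : ℕ) : ℝ) * 4 ^ (M * N) := mul_pos hM3r (by positivity)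
  have p4 : (((M ^ 3 * (D + 1) : ℕ) : ℝ) * 4 ^ (M * N)) ^ ρ ≠ 0 := (Real.rpow_pos_of_pos p5 ρ).ne'
  have a1 : Real.log ((M : ℝ) ^ 3) ≤ L := by
    rw [hL]
    apply Real.log_le_log (by positivity)
    rw [← hK]
    linarith
  have a2 : Real.log (4 * ((D : ℝ) + 2 * (M : ℝ) ^ 3) + 12 * (M * N)) ≤ L := by
    rw [hL]
    apply Real.log_le_log (by positivity)
    rw [← hK]
    linarith
  have a3 : Real.log ((D : ℝ) + 1) ≤ L := by
    rw [hL]
    apply Real.log_le_log (by positivity)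
    linarith
  have a4 : Real.log ((M ^ 3 * (D + 1) : ℕ) : ℝ) ≤ L := by
    rw [hL]
    apply Real.log_le_log hM3r
    push_cast
    rw [← hK]
    have h2 : K * ((D : ℝ) + 1) ≤ K * (2 * N) := mul_le_mul_of_nonneg_left (by linarith) (by linarith)
    linarith
  have a5 : Real.log 4 ≤ 14 / 10 := by
    have : (4 : ℝ) = 2 ^ 2 := by norm_num
    rw [this, Real.log_pow]
    have := Real.log_two_lt_d9
    push_cast
    linarith
  have a5' : 0 ≤ Real.log 4 := Real.log_nonneg (by norm_num)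
  have a6 : ρ * Real.log ((M ^ 3 * (D + 1) : ℕ) : ℝ) ≤ L := by
    calc ρ * Real.log ((M ^ 3 * (D + 1) : ℕ) : ℝ) ≤ ρ * L := mul_le_mul_of_nonneg_left a4 hρ0
      _ ≤ 1 * L := mul_le_mul_of_nonneg_right hρ1 hL0
      _ = L := one_mul L
  have a7 : ρ * (((M * N : ℕ) : ℝ) * Real.log 4) ≤ (84 / 100) * (N / q) := by
    have h2 : ((M * N : ℕ) : ℝ) * Real.log 4 ≤ (10 * (q : ℝ) ^ 2 * N) * (14 / 10) := by
      push_cast
      rw [hMr]
      exact mul_le_mul_of_nonneg_left a5 (by positivity)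
    have h3 : 0 ≤ ((M * N : ℕ) : ℝ) * Real.log 4 := by positivity
    calc ρ * (((M * N : ℕ) : ℝ) * Real.log 4)
        ≤ (6 / (100 * (q : ℝ) ^ 3)) * ((10 * (q : ℝ) ^ 2 * N) * (14 / 10)) :=
          mul_le_mul hρb h2 h3 (by positivity)
      _ = (84 / 100) * (N / q) := by field_simp; ring
  have a8 : ((M ^ 3 : ℕ) : ℝ) * Real.log (4 * ((D : ℝ) + 2 * (M : ℝ) ^ 3) + 12 * (M * N)) ≤ K * L := by
    have : ((M ^ 3 : ℕ) : ℝ) = K := by rw [hK]; push_cast; ring
    rw [this]
    exact mul_le_mul_of_nonneg_left a2 (by linarith)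
  rw [Real.log_mul p1 (mul_ne_zero p2 (mul_ne_zero p3 p4)),
    Real.log_mul p2 (mul_ne_zero p3 p4), Real.log_mul p3 p4, Real.log_pow _ (M ^ 3),
    Real.log_rpow p5, Real.log_mul hM3r.ne' (by positivity), Real.log_pow _ (M * N)]
  rw [mul_add ρ, ← hK]
  rw [← hK] at a1 a2 a8
  linarith

lemma final_ineq (q N m : ℕ) (K Lα : ℝ) (hq : (1 : ℝ) ≤ q) (hN8 : (8 : ℝ) ≤ N) (hK1 : 1 ≤ K)
    (e2 : 32 * (q : ℝ) * K ≤ N) (hm0r : (m : ℝ) ≤ N / q + 2 * K)
    (hlogα2 : Lα ≤ N / (8 * q) + (84 / 100) * (N / q)) :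
    2 * (N : ℝ) * Lα + m * (N + 1) ≤ 4 * (N : ℝ) ^ 2 / q := by
  have hqpos : (0 : ℝ) < q := by linarith
  have hNpos : (0 : ℝ) < N := by linarith
  have t1 : 2 * (N : ℝ) * Lα ≤ 2 * N * (N / (8 * q) + (84 / 100) * (N / q)) :=
    mul_le_mul_of_nonneg_left hlogα2 (by positivity)
  have t2 : (m : ℝ) * (N + 1) ≤ (N / q + 2 * K) * (N + 1) :=
    mul_le_mul_of_nonneg_right hm0r (by positivity)
  have t3 : (N / q + 2 * K) * (N + 1) ≤ (125 / 100) * (N ^ 2 / q) := by
    have s1 : (N : ℝ) / q ≤ N ^ 2 / (8 * q) := by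
      have : (N : ℝ) ^ 2 / (8 * q) = (N / 8) * (N / q) := by field_simp
      rw [this]
      have h1 : (0:ℝ) ≤ N / q := by positivity
      have h2 : (1:ℝ) ≤ N / 8 := by linarith
      calc (N : ℝ) / q = 1 * (N / q) := by ring
        _ ≤ (N / 8) * (N / q) := mul_le_mul_of_nonneg_right h2 h1
    have s2 : 4 * K * N ≤ (N : ℝ) ^ 2 / (8 * q) := by
      rw [le_div_iff₀ (by positivity)]
      have := mul_le_mul_of_nonneg_right e2 hNpos.le
      linarith
    have s3 : 2 * K * (N + 1) ≤ 4 * K * N := by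
      have : K * 1 ≤ K * N := mul_le_mul_of_nonneg_left (by linarith) (by linarith)
      linarith
    have s4 : (N / q + 2 * K) * ((N : ℝ) + 1) = N ^ 2 / q + N / q + 2 * K * (N + 1) := by
      field_simp
    have s5 : (N : ℝ) ^ 2 / (8 * q) = (1 / 8) * (N ^ 2 / q) := by field_simp
    rw [s4]
    linarith
  have t4 : 2 * (N : ℝ) * (N / (8 * q) + (84 / 100) * (N / q)) = (193 / 100) * (N ^ 2 / q) := by
    field_simp; ring
  have t5 : 4 * (N : ℝ) ^ 2 / q = 4 * (N ^ 2 / q) := by ring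
  have t6 : (0 : ℝ) ≤ N ^ 2 / q := by positivity
  rw [t5]
  linarith

lemma main_bound (q : ℕ) (hq : 1 ≤ q) : ∃ N0 : ℕ, ∀ N : ℕ, N0 ≤ N →
    Real.log (Nat.card (ℤ[X] ⧸ JJ N) : ℝ) ≤ 4 * (N : ℝ) ^ 2 / q := by
  set M : ℕ := 10 * q ^ 2 with hM
  have hM1 : 1 ≤ M := by
    rw [hM]; have : 1 ≤ q ^ 2 := Nat.one_le_pow _ _ hq
    omega
  set K : ℝ := (M : ℝ) ^ 3 with hK
  have hqr : (1 : ℝ) ≤ q := by exact_mod_cast hq
  have hMr : (M : ℝ) = 10 * (q : ℝ) ^ 2 := by rw [hM]; push_cast; ring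
  have hMr1 : (1 : ℝ) ≤ M := by exact_mod_cast hM1
  have hK1 : 1 ≤ K := one_le_pow₀ hMr1
  set c : ℝ := 8 * K + 12 * M + 4 with hc
  have hcpos : 0 < c := by positivity
  -- eventual conditions
  have hev : ∀ᶠ N : ℕ in Filter.atTop, Real.log (c * N) ≤ (1 / (8 * q * (K + 3) * c)) * (c * N) := by
    have h1 := Real.isLittleO_log_id_atTop.def (c := 1 / (8 * q * (K + 3) * c)) (by positivity)
    have h2 : Filter.Tendsto (fun N : ℕ => c * (N : ℝ)) Filter.atTop Filter.atTop :=
      Filter.Tendsto.const_mul_atTop hcpos tendsto_natCast_atTop_atTop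
    have h3 := h2.eventually h1
    filter_upwards [h3] with N hN
    simp only [id, Real.norm_eq_abs] at hN
    have h4 : |c * (N : ℝ)| = c * N := abs_of_nonneg (by positivity)
    rw [h4] at hN
    exact (le_abs_self _).trans hN
  have hev2 : ∀ᶠ N : ℕ in Filter.atTop, 32 * (q : ℝ) * K ≤ N :=
    tendsto_natCast_atTop_atTop.eventually_ge_atTop _
  obtain ⟨N0, hN0⟩ := Filter.eventually_atTop.mp
    ((hev.and hev2).and (Filter.eventually_ge_atTop (bnd (M ^ 3) 0 + 8)))
  refine ⟨N0, fun N hN => ?_⟩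
  obtain ⟨⟨e1, e2⟩, e3⟩ := hN0 N hN
  have hN1 : 1 ≤ N := by omega
  have hN8 : (8 : ℝ) ≤ N := by exact_mod_cast (by omega : 8 ≤ N)
  set D : ℕ := N / q with hD
  have hDN : D ≤ N := Nat.div_le_self _ _
  have hDq : N < q * (D + 1) := by
    have := Nat.lt_mul_div_succ N (by omega : 0 < q)
    simpa [hD] using this
  have hDr : (D : ℝ) ≤ N / q := Nat.cast_div_le
  have hDqr : (N : ℝ) ≤ q * (D + 1) := by exact_mod_cast hDq.le
  -- the matrix inequality
  have hn100 : 100 * q ^ 3 * (M * N) ≤ M ^ 3 * (D + 1) := by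
    have h1 : M ^ 3 = M * (100 * q ^ 4) := by rw [hM]; ring
    rw [h1]
    calc 100 * q ^ 3 * (M * N) = M * (100 * q ^ 3) * N := by ring
      _ ≤ M * (100 * q ^ 3) * (q * (D + 1)) := Nat.mul_le_mul_left _ hDq.le
      _ = M * (100 * q ^ 4) * (D + 1) := by ring
  have hMNpos : 0 < M * N := by positivity
  have hq3 : 1 ≤ q ^ 3 := Nat.one_le_pow _ _ hq
  have hn : 3 * M * N < M ^ 3 * (D + 1) := by
    refine lt_of_lt_of_le ?_ hn100
    have : 100 * (M * N) ≤ 100 * q ^ 3 * (M * N) := Nat.mul_le_mul_right _ (by omega)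
    nlinarith
  obtain ⟨α, hαJ, hα0, hαd, hαL⟩ := exists_small M N D hM1 (by omega) (by omega) hn
  set ρ : ℝ := ((3 * M * N : ℕ) : ℝ) / (((M ^ 3 * (D + 1) : ℕ) : ℝ) - ((3 * M * N : ℕ) : ℝ)) with hρ
  have hn100r : 100 * (q : ℝ) ^ 3 * (M * N) ≤ ((M ^ 3 * (D + 1) : ℕ) : ℝ) := by exact_mod_cast hn100
  have hMNr : (0 : ℝ) < (M : ℝ) * N := by exact_mod_cast hMNpos
  have hq3r : (1 : ℝ) ≤ (q : ℝ) ^ 3 := one_le_pow₀ hqr
  have hden : 97 * (q : ℝ) ^ 3 * (M * N) ≤ ((M ^ 3 * (D + 1) : ℕ) : ℝ) - ((3 * M * N : ℕ) : ℝ) := by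
    have h1 : ((3 * M * N : ℕ) : ℝ) = 3 * (M * N) := by push_cast; ring
    rw [h1]
    have h2 : 3 * ((M : ℝ) * N) ≤ 3 * (q : ℝ) ^ 3 * (M * N) := by
      have := mul_le_mul_of_nonneg_right hq3r hMNr.le
      linarith
    linarith
  have hdenpos : 0 < ((M ^ 3 * (D + 1) : ℕ) : ℝ) - ((3 * M * N : ℕ) : ℝ) :=
    lt_of_lt_of_le (by positivity) hden
  have hρ0 : 0 ≤ ρ := div_nonneg (by positivity) hdenpos.le
  have hρb : ρ ≤ 6 / (100 * (q : ℝ) ^ 3) := by
    rw [hρ, div_le_div_iff₀ hdenpos (by positivity)]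
    have h1 : ((3 * M * N : ℕ) : ℝ) = 3 * (M * N) := by push_cast; ring
    rw [h1]
    rw [h1] at hden
    have h2 : 0 ≤ (q : ℝ) ^ 3 * (M * N) := by positivity
    nlinarith
  -- log bound for alpha
  have hapos : (0 : ℝ) < (L1 α : ℝ) := by
    have := L1_pos hα0
    exact_mod_cast (by linarith : (0:ℤ) < L1 α)
  have hlogα := log_alpha q M N D (L1 α : ℝ) hq hM hN1 hDN ρ hρ0 hρb hapos hαL
  rw [← hK, ← hc] at hlogα
  -- conclusion
  have hDNr : (D : ℝ) ≤ N := by exact_mod_cast hDN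
  have hm0 : D + 2 * M ^ 3 ≤ 2 * N := by
    have h1 : (D : ℝ) + 2 * K ≤ 2 * N := by
      have : 2 * K ≤ N := by
        have hqK : 1 * K ≤ q * K := mul_le_mul_of_nonneg_right hqr (by linarith)
        linarith
      linarith
    have h2 : ((D + 2 * M ^ 3 : ℕ) : ℝ) ≤ ((2 * N : ℕ) : ℝ) := by
      push_cast; rw [← hK]; exact h1
    exact_mod_cast h2
  have hfin := log_card_le N hN1 α hαJ hα0 (D + 2 * M ^ 3) hαd hm0
  refine hfin.trans ?_
  have hm0r : ((D + 2 * M ^ 3 : ℕ) : ℝ) ≤ N / q + 2 * K := by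
    push_cast; rw [← hK]; linarith
  have hLb : (K + 3) * Real.log (c * N) ≤ N / (8 * q) := by
    have h1 : (K + 3) * Real.log (c * N) ≤ (K + 3) * ((1 / (8 * q * (K + 3) * c)) * (c * N)) :=
      mul_le_mul_of_nonneg_left e1 (by positivity)
    refine h1.trans (le_of_eq ?_)
    field_simp
  exact final_ineq q N (D + 2 * M ^ 3) K _ hqr hN8 hK1 e2 hm0r (by linarith)

/-- For every ε>0 there is c such that for all N≥1 the log of the size of the ring ℤ[T] modulo T^N−1, (T+1)^N−1, (T−1)^N−1 is at most εN²+c. -/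
theorem result :
    ∀ ε : ℝ, 0 < ε → ∃ c : ℝ, ∀ N : ℕ, 1 ≤ N →
      Real.log ((Nat.card (Polynomial ℤ ⧸ Ideal.span
        ({X ^ N - 1, (X + 1) ^ N - 1, (X - 1) ^ N - 1} : Set (Polynomial ℤ))) : ℕ) : ℝ)
        ≤ ε * (N : ℝ) ^ 2 + c := by
  intro ε hε
  obtain ⟨q, hq⟩ := exists_nat_ge (4 / ε + 1)
  have hq1 : 1 ≤ q := by
    have h1 : (0:ℝ) < 4 / ε := by positivity
    have : (1:ℝ) ≤ q := by linarith
    exact_mod_cast this
  obtain ⟨N0, hN0⟩ := main_bound q hq1
  refine ⟨∑ N ∈ Finset.range N0, |Real.log (Nat.card (ℤ[X] ⧸ JJ N) : ℝ)|, fun N hN => ?_⟩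
  change Real.log (Nat.card (ℤ[X] ⧸ JJ N) : ℝ) ≤ _
  have hc0 : 0 ≤ ∑ N ∈ Finset.range N0, |Real.log (Nat.card (ℤ[X] ⧸ JJ N) : ℝ)| :=
    Finset.sum_nonneg fun _ _ => abs_nonneg _
  rcases Nat.lt_or_ge N N0 with h | h
  · have h1 : |Real.log (Nat.card (ℤ[X] ⧸ JJ N) : ℝ)| ≤
        ∑ N ∈ Finset.range N0, |Real.log (Nat.card (ℤ[X] ⧸ JJ N) : ℝ)| :=
      Finset.single_le_sum (f := fun N => |Real.log (Nat.card (ℤ[X] ⧸ JJ N) : ℝ)|)
        (fun _ _ => abs_nonneg _) (by simpa using h)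
    have h2 := le_abs_self (Real.log (Nat.card (ℤ[X] ⧸ JJ N) : ℝ))
    have h3 : 0 ≤ ε * (N : ℝ) ^ 2 := by positivity
    linarith
  · have h1 := hN0 N h
    have h2 : 4 * (N : ℝ) ^ 2 / q ≤ ε * (N : ℝ) ^ 2 := by
      have hqpos : (0 : ℝ) < q := by exact_mod_cast hq1
      rw [div_le_iff₀ hqpos]
      have h3 : 4 ≤ ε * q := by
        have h4 : 4 / ε ≤ q := by linarith
        rw [div_le_iff₀ hε] at h4
        linarith
      nlinarith [sq_nonneg (N : ℝ)]
    linarith

end Pool.Agent.S11421
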