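import Pool.Statements.S11518

set_option autoImplicit false
open Pool Pool.MP_ed6ba5_nt

namespace Pool.Agent.S11518

/-- The residues mod 245 all of whose members belong to the set. -/
def P : List ℕ := [2, 6, 13, 18, 27, 38, 39, 49, 60, 69, 81, 85, 86, 100, 114, 128, 131, 148,
  159, 164, 176, 192, 196, 206, 207, 222, 232, 239, 243]

/-- Quotients used in the residue class 35. -/
def C1 (q : ℕ) : Prop := q ≤ 3 ∨ ∃ i : ℕ, 26 * 8 ^ i ≤ q + 1 ∧ q + 3 ≤ 52 * 8 ^ i
/-- Quotients used in the residue class 70. -/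
def C2 (q : ℕ) : Prop := (6 ≤ q ∧ q ≤ 24) ∨ ∃ i : ℕ, 104 * 8 ^ i ≤ q + 6 ∧ q + 2 ≤ 208 * 8 ^ i
/-- Quotients used in the residue class 140. -/
def C4 (q : ℕ) : Prop := (1 ≤ q ∧ q ≤ 12) ∨ ∃ i : ℕ, 52 * 8 ^ i ≤ q + 4 ∧ q + 1 ≤ 104 * 8 ^ i

/-- The aperiodic set. -/
def S (x : ℕ) : Prop :=
  x % 245 ∈ P ∨ (x % 245 = 35 ∧ C1 (x / 245)) ∨ (x % 245 = 70 ∧ C2 (x / 245)) ∨
    (x % 245 = 140 ∧ C4 (x / 245))

lemma pow_pos8 (i : ℕ) : 1 ≤ 8 ^ i := Nat.one_le_pow _ _ (by norm_num)

lemma pow_cmp (i l : ℕ) : 8 ^ l ≤ 8 ^ i ∨ 8 * 8 ^ i ≤ 8 ^ l := by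
  rcases Nat.lt_or_ge i l with h | h
  · right
    calc 8 * 8 ^ i = 8 ^ (i + 1) := by ring
      _ ≤ 8 ^ l := Nat.pow_le_pow_right (by norm_num) h
  · left
    exact Nat.pow_le_pow_right (by norm_num) h

lemma bracket (n : ℕ) (hn : 1 ≤ n) : ∃ i : ℕ, 8 ^ i ≤ n ∧ n < 8 * 8 ^ i := by
  refine ⟨Nat.log 8 n, Nat.pow_log_le_self 8 (by omega), ?_⟩
  have := Nat.lt_pow_succ_log_self (b := 8) (by norm_num) n
  calc n < 8 ^ (Nat.log 8 n + 1) := this
    _ = 8 * 8 ^ (Nat.log 8 n) := by ring

lemma C1_add (a b : ℕ) (hab : a ≠ b) (ha : C1 a) (hb : C1 b) : ¬ C2 (a + b) := by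
  rcases ha with ha | ⟨i, ha1, ha2⟩ <;> rcases hb with hb | ⟨j, hb1, hb2⟩ <;>
    rintro (⟨h1, h2⟩ | ⟨l, h1, h2⟩)
  · omega
  · have := pow_pos8 l
    omega
  · have := pow_pos8 j
    omega
  · have := pow_pos8 l
    have := pow_pos8 j
    have := pow_cmp j l
    have := pow_cmp l j
    omega
  · have := pow_pos8 i
    omega
  · have := pow_pos8 l
    have := pow_pos8 i
    have := pow_cmp i l
    have := pow_cmp l i
    omega
  · have := pow_pos8 i
    have := pow_pos8 j
    omega
  · have := pow_pos8 l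
    have := pow_pos8 i
    have := pow_pos8 j
    have := pow_cmp i l
    have := pow_cmp l i
    have := pow_cmp j l
    have := pow_cmp l j
    have := pow_cmp i j
    have := pow_cmp j i
    omega

lemma C2_add (a b : ℕ) (hab : a ≠ b) (ha : C2 a) (hb : C2 b) : ¬ C4 (a + b) := by
  rcases ha with ⟨ha1, ha2⟩ | ⟨i, ha1, ha2⟩ <;> rcases hb with ⟨hb1, hb2⟩ | ⟨j, hb1, hb2⟩ <;>
    rintro (⟨h1, h2⟩ | ⟨l, h1, h2⟩)
  · omega
  · have := pow_pos8 l
    omega
  · have := pow_pos8 j
    omega
  · have := pow_pos8 l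
    have := pow_pos8 j
    have := pow_cmp j l
    have := pow_cmp l j
    omega
  · have := pow_pos8 i
    omega
  · have := pow_pos8 l
    have := pow_pos8 i
    have := pow_cmp i l
    have := pow_cmp l i
    omega
  · have := pow_pos8 i
    have := pow_pos8 j
    omega
  · have := pow_pos8 l
    have := pow_pos8 i
    have := pow_pos8 j
    have := pow_cmp i l
    have := pow_cmp l i
    have := pow_cmp j l
    have := pow_cmp l j
    have := pow_cmp i j
    have := pow_cmp j i
    omega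

lemma C4_add (a b : ℕ) (hab : a ≠ b) (ha : C4 a) (hb : C4 b) : ¬ C1 (a + b + 1) := by
  rcases ha with ⟨ha1, ha2⟩ | ⟨i, ha1, ha2⟩ <;> rcases hb with ⟨hb1, hb2⟩ | ⟨j, hb1, hb2⟩ <;>
    rintro (h1 | ⟨l, h1, h2⟩)
  · omega
  · have := pow_pos8 l
    omega
  · have := pow_pos8 j
    omega
  · have := pow_pos8 l
    have := pow_pos8 j
    have := pow_cmp j l
    have := pow_cmp l j
    omega
  · have := pow_pos8 i
    omega
  · have := pow_pos8 l
    have := pow_pos8 i
    have := pow_cmp i l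
    have := pow_cmp l i
    omega
  · have := pow_pos8 i
    have := pow_pos8 j
    omega
  · have := pow_pos8 l
    have := pow_pos8 i
    have := pow_pos8 j
    have := pow_cmp i l
    have := pow_cmp l i
    have := pow_cmp j l
    have := pow_cmp l j
    have := pow_cmp i j
    have := pow_cmp j i
    omega

lemma C2_cover (n : ℕ) (hn : 104 ≤ n) (h : ¬ C2 n) : ∃ a b, C1 a ∧ C1 b ∧ a < b ∧ a + b = n := by
  obtain ⟨i, hi1, hi2⟩ := bracket ((n + 1) / 26) (by omega)
  have hp := pow_pos8 i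
  have hn : n + 6 < 104 * 8 ^ i := by
    by_contra hc
    exact h (Or.inr ⟨i, by omega, by omega⟩)
  rcases Nat.lt_or_ge (n + 2) (52 * 8 ^ i) with h1 | h1
  · exact ⟨0, n, Or.inl (by omega), Or.inr ⟨i, by omega, by omega⟩, by omega, by omega⟩
  · rcases Nat.lt_or_ge (52 * 8 ^ i) n with h2 | h2
    · exact ⟨(n - 1) / 2, n - (n - 1) / 2, Or.inr ⟨i, by omega, by omega⟩,
        Or.inr ⟨i, by omega, by omega⟩, by omega, by omega⟩
    · exact ⟨3, n - 3, Or.inl (by omega), Or.inr ⟨i, by omega, by omega⟩, by omega, by omega⟩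

lemma C4_cover (n : ℕ) (hn : 104 ≤ n) (h : ¬ C4 n) : ∃ a b, C2 a ∧ C2 b ∧ a < b ∧ a + b = n := by
  obtain ⟨i, hi1, hi2⟩ := bracket (n / 104) (by omega)
  have hp := pow_pos8 i
  have e : 8 ^ (i + 1) = 8 * 8 ^ i := by ring
  have hn : n + 4 < 416 * 8 ^ i := by
    by_contra hc
    exact h (Or.inr ⟨i + 1, by omega, by omega⟩)
  rcases Nat.lt_or_ge (208 * 8 ^ i + 4) n with h1 | h1
  · exact ⟨(n - 1) / 2, n - (n - 1) / 2, Or.inr ⟨i, by omega, by omega⟩,
        Or.inr ⟨i, by omega, by omega⟩, by omega, by omega⟩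
  · exact ⟨6, n - 6, Or.inl (by omega), Or.inr ⟨i, by omega, by omega⟩, by omega, by omega⟩

lemma C1_cover (n : ℕ) (hn : 104 ≤ n) (h : ¬ C1 (n + 1)) :
    ∃ a b, C4 a ∧ C4 b ∧ a < b ∧ a + b = n := by
  obtain ⟨i, hi1, hi2⟩ := bracket ((n + 3) / 52) (by omega)
  have hp := pow_pos8 i
  have e : 8 ^ (i + 1) = 8 * 8 ^ i := by ring
  have hn : n + 2 < 208 * 8 ^ i := by
    by_contra hc
    exact h (Or.inr ⟨i + 1, by omega, by omega⟩)
  rcases Nat.lt_or_ge (104 * 8 ^ i) n with h1 | h1
  · exact ⟨(n - 1) / 2, n - (n - 1) / 2, Or.inr ⟨i, by omega, by omega⟩,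
        Or.inr ⟨i, by omega, by omega⟩, by omega, by omega⟩
  · exact ⟨1, n - 1, Or.inl (by omega), Or.inr ⟨i, by omega, by omega⟩, by omega, by omega⟩

/-- All residues meeting the set. -/
def R : List ℕ := 35 :: 70 :: 140 :: P

lemma S_res {x : ℕ} (h : S x) : x % 245 ∈ R := by
  unfold R
  rcases h with h | ⟨h, _⟩ | ⟨h, _⟩ | ⟨h, _⟩
  · simp [h]
  · simp [h]
  · simp [h]
  · simp [h]

lemma res_check : ∀ r ∈ R, ∀ s ∈ R, (r + s) % 245 ∉ P ∧
    ((r + s) % 245 = 35 → r = 140 ∧ s = 140) ∧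
    ((r + s) % 245 = 70 → r = 35 ∧ s = 35) ∧
    ((r + s) % 245 = 140 → r = 70 ∧ s = 70) := by
  decide +kernel

lemma notP : 35 ∉ P ∧ 70 ∉ P ∧ 140 ∉ P := by decide

lemma S35 {x : ℕ} (hx : x % 245 = 35) : S x ↔ C1 (x / 245) := by
  unfold S
  rw [hx]
  have := notP
  constructor
  · rintro (h | ⟨_, h⟩ | ⟨h, _⟩ | ⟨h, _⟩)
    · exact absurd h this.1
    · exact h
    · omega
    · omega
  · intro h
    exact Or.inr (Or.inl ⟨rfl, h⟩)

lemma S70 {x : ℕ} (hx : x % 245 = 70) : S x ↔ C2 (x / 245) := by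
  unfold S
  rw [hx]
  have := notP
  constructor
  · rintro (h | ⟨h, _⟩ | ⟨_, h⟩ | ⟨h, _⟩)
    · exact absurd h this.2.1
    · omega
    · exact h
    · omega
  · intro h
    exact Or.inr (Or.inr (Or.inl ⟨rfl, h⟩))

lemma S140 {x : ℕ} (hx : x % 245 = 140) : S x ↔ C4 (x / 245) := by
  unfold S
  rw [hx]
  have := notP
  constructor
  · rintro (h | ⟨h, _⟩ | ⟨h, _⟩ | ⟨_, h⟩)
    · exact absurd h this.2.2
    · omega
    · omega
    · exact h
  · intro h
    exact Or.inr (Or.inr (Or.inr ⟨rfl, h⟩))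

/-- No member is a sum of two distinct members. -/
lemma sum_free {x y : ℕ} (hne : x ≠ y) (hx : S x) (hy : S y) : ¬ S (x + y) := by
  intro hxy
  obtain ⟨c0, c1, c2, c4⟩ := res_check _ (S_res hx) _ (S_res hy)
  have hmod : (x % 245 + y % 245) % 245 = (x + y) % 245 := by omega
  rw [hmod] at c0 c1 c2 c4
  have hxy' := hxy
  rcases hxy' with h | ⟨h, hC⟩ | ⟨h, hC⟩ | ⟨h, hC⟩
  · exact c0 h
  · obtain ⟨h1, h2⟩ := c1 h
    have hx' := (S140 h1).1 hx
    have hy' := (S140 h2).1 hy
    have hd : (x + y) / 245 = x / 245 + y / 245 + 1 := by omega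
    rw [hd] at hC
    exact C4_add _ _ (by omega) hx' hy' hC
  · obtain ⟨h1, h2⟩ := c2 h
    have hx' := (S35 h1).1 hx
    have hy' := (S35 h2).1 hy
    have hd : (x + y) / 245 = x / 245 + y / 245 := by omega
    rw [hd] at hC
    exact C1_add _ _ (by omega) hx' hy' hC
  · obtain ⟨h1, h2⟩ := c4 h
    have hx' := (S70 h1).1 hx
    have hy' := (S70 h2).1 hy
    have hd : (x + y) / 245 = x / 245 + y / 245 := by omega
    rw [hd] at hC
    exact C2_add _ _ (by omega) hx' hy' hC

/-- Small members of the set used for covering the empty classes. -/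
def E : List ℕ := 35 :: 385 :: 1540 :: P

lemma E_check : ∀ s ∈ E, s ≤ 1540 := by decide

lemma E_mem {s : ℕ} (hs : s ∈ E) : S s := by
  unfold E at hs
  rw [List.mem_cons, List.mem_cons, List.mem_cons] at hs
  rcases hs with h | h | h | h
  · subst h
    exact (S35 (by norm_num)).2 (Or.inl (by norm_num))
  · subst h
    exact (S140 (by norm_num)).2 (Or.inl (by norm_num))
  · subst h
    exact (S70 (by norm_num)).2 (Or.inl (by norm_num))
  · left
    have h1 : ∀ s ∈ P, s % 245 = s := by decide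
    rw [h1 s h]
    exact h

lemma cover_check : ∀ r < 245, r ∈ R ∨ ∃ s ∈ E, (r + 1715 - s) % 245 ∈ P := by
  decide +kernel

/-- Every large nonmember is a sum of two distinct members. -/
lemma cover {x : ℕ} (hx : 49000 ≤ x) (h : ¬ S x) : ∃ s t, S s ∧ S t ∧ s < t ∧ s + t = x := by
  rcases cover_check (x % 245) (Nat.mod_lt _ (by norm_num)) with hr | ⟨s, hs, hs'⟩
  · unfold R at hr
    rw [List.mem_cons, List.mem_cons, List.mem_cons] at hr
    rcases hr with hr | hr | hr | hr
    · -- class 35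
      have hc : ¬ C1 (x / 245) := fun hc => h ((S35 hr).2 hc)
      obtain ⟨n, hn⟩ : ∃ n, x / 245 = n + 1 := ⟨x / 245 - 1, by omega⟩
      rw [hn] at hc
      obtain ⟨a, b, ha, hb, hlt, hab⟩ := C1_cover n (by omega) hc
      refine ⟨245 * a + 140, 245 * b + 140, (S140 (by omega)).2 ?_, (S140 (by omega)).2 ?_,
        by omega, by omega⟩
      · have : (245 * a + 140) / 245 = a := by omega
        rw [this]; exact ha
      · have : (245 * b + 140) / 245 = b := by omega
        rw [this]; exact hb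
    · have hc : ¬ C2 (x / 245) := fun hc => h ((S70 hr).2 hc)
      obtain ⟨a, b, ha, hb, hlt, hab⟩ := C2_cover _ (by omega) hc
      refine ⟨245 * a + 35, 245 * b + 35, (S35 (by omega)).2 ?_, (S35 (by omega)).2 ?_,
        by omega, by omega⟩
      · have : (245 * a + 35) / 245 = a := by omega
        rw [this]; exact ha
      · have : (245 * b + 35) / 245 = b := by omega
        rw [this]; exact hb
    · have hc : ¬ C4 (x / 245) := fun hc => h ((S140 hr).2 hc)
      obtain ⟨a, b, ha, hb, hlt, hab⟩ := C4_cover _ (by omega) hc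
      refine ⟨245 * a + 70, 245 * b + 70, (S70 (by omega)).2 ?_, (S70 (by omega)).2 ?_,
        by omega, by omega⟩
      · have : (245 * a + 70) / 245 = a := by omega
        rw [this]; exact ha
      · have : (245 * b + 70) / 245 = b := by omega
        rw [this]; exact hb
    · exact absurd (Or.inl hr) h
  · have h1 := E_check s hs
    refine ⟨s, x - s, E_mem hs, Or.inl ?_, by omega, by omega⟩
    have h2 : (x - s) % 245 = (x % 245 + 1715 - s) % 245 := by omega
    rw [h2]
    exact hs'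

lemma S_pos {x : ℕ} (h : S x) : 0 < x := by
  rcases Nat.eq_zero_or_pos x with h0 | h0
  · subst h0
    exfalso
    have := S_res h
    revert this
    decide
  · exact h0

lemma S_inf : (setOf S).Infinite := by
  rw [Set.infinite_iff_exists_gt]
  intro n
  refine ⟨245 * (n + 1) + 2, ?_, by omega⟩
  show S (245 * (n + 1) + 2)
  left
  have : (245 * (n + 1) + 2) % 245 = 2 := by omega
  rw [this]
  decide

/-- The negation of the preceding statement: For any positive initial terms a₀<…<a_{k−1}, if each later term is the least integer above the previous one that is not a sum of two earlier terms with distinct indices, then the gaps a_{n+1}−a_n are eventually periodic. -/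
theorem result :
    ¬ (∀ (k : ℕ) (a : ℕ → ℕ), 1 ≤ k → 1 ≤ a 0 → StrictMono a →
      (∀ n, k ≤ n →
        (¬ ∃ i j, i < j ∧ j < n ∧ a i + a j = a n) ∧
        (∀ m, a (n - 1) < m → m < a n → ∃ i j, i < j ∧ j < n ∧ a i + a j = m)) →
      ∃ p : ℕ, 0 < p ∧ ∃ N : ℕ, ∀ n, N ≤ n →
        a (n + p + 1) - a (n + p) = a (n + 1) - a n) := by
  intro H
  have hmono : StrictMono (Nat.nth S) := Nat.nth_strictMono S_inf
  have hmem : ∀ n, S (Nat.nth S n) := fun n => Nat.nth_mem_of_infinite S_inf n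
  have hidx : ∀ x, S x → ∃ n, Nat.nth S n = x := by
    intro x hx
    have h1 : x ∈ Set.range (Nat.nth S) := by
      rw [Nat.range_nth_of_infinite S_inf]
      exact hx
    exact h1
  obtain ⟨K, hK⟩ := hidx 49002 (Or.inl (by decide))
  obtain ⟨p, hp, N, hN⟩ := H (K + 1) (Nat.nth S) (by omega) (S_pos (hmem 0)) hmono
    (by
      intro n hn
      refine ⟨?_, ?_⟩
      · rintro ⟨i, j, hij, _, h⟩
        have hne : Nat.nth S i ≠ Nat.nth S j := (hmono hij).ne
        apply sum_free hne (hmem i) (hmem j)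
        rw [h]
        exact hmem _
      · intro y hy1 hy2
        have hlow : 49002 ≤ Nat.nth S (n - 1) := by
          rw [← hK]
          exact hmono.monotone (by omega)
        have hnS : ¬ S y := by
          intro hS
          obtain ⟨l, hl⟩ := hidx y hS
          rw [← hl] at hy1 hy2
          have h1 := hmono.lt_iff_lt.1 hy1
          have h2 := hmono.lt_iff_lt.1 hy2
          omega
        obtain ⟨s, t, hs, ht, hlt, hst⟩ := cover (by omega) hnS
        obtain ⟨i, hi⟩ := hidx s hs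
        obtain ⟨j, hj⟩ := hidx t ht
        have hs0 := S_pos hs
        have ht0 := S_pos ht
        refine ⟨i, j, ?_, ?_, ?_⟩
        · have : Nat.nth S i < Nat.nth S j := by omega
          exact hmono.lt_iff_lt.1 this
        · have : Nat.nth S j < Nat.nth S n := by omega
          exact hmono.lt_iff_lt.1 this
        · omega)
  -- derive a period of the set
  obtain ⟨D, hD⟩ : ∃ D : ℕ, Nat.nth S (N + p) = Nat.nth S N + D := by
    have := hmono.monotone (show N ≤ N + p by omega)
    exact ⟨Nat.nth S (N + p) - Nat.nth S N, by omega⟩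
  have hDpos : 0 < D := by
    have := hmono (show N < N + p by omega)
    omega
  have hshift : ∀ m, N ≤ m → Nat.nth S (m + p) = Nat.nth S m + D := by
    intro m hm
    induction m, hm using Nat.le_induction with
    | base => exact hD
    | succ m hm ih =>
      have h1 := hN m hm
      have e : m + 1 + p = m + p + 1 := by ring
      rw [e]
      have h2 := hmono (show m < m + 1 by omega)
      have h3 := hmono (show m + p < m + p + 1 by omega)
      omega
  have hiter : ∀ j m, N ≤ m → Nat.nth S (m + j * p) = Nat.nth S m + j * D := by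
    intro j
    induction j with
    | zero => intro m _; simp
    | succ j ih =>
      intro m hm
      have h1 := ih m hm
      have h2 := hshift (m + j * p) (le_trans hm (Nat.le_add_right _ _))
      have e : m + (j + 1) * p = m + j * p + p := by ring
      rw [e, h2, h1]
      ring
  -- the contradiction
  set i := D + Nat.nth S N with hi
  have hlt : i < 8 ^ i := Nat.lt_pow_self (by norm_num)
  have hx : S (245 * (52 * 8 ^ i - 3) + 35) := by
    apply (S35 (by omega)).2
    have : (245 * (52 * 8 ^ i - 3) + 35) / 245 = 52 * 8 ^ i - 3 := by omega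
    rw [this]
    exact Or.inr ⟨i, by omega, by omega⟩
  obtain ⟨m, hm⟩ := hidx _ hx
  have hmN : N ≤ m := by
    by_contra hc
    have := hmono (show m < N by omega)
    rw [hm] at this
    omega
  have h245 := hiter 245 m hmN
  have hS2 := hmem (m + 245 * p)
  rw [h245, hm] at hS2
  have hS3 := (S35 (by omega)).1 hS2
  have e : (245 * (52 * 8 ^ i - 3) + 35 + 245 * D) / 245 = 52 * 8 ^ i - 3 + D := by omega
  rw [e] at hS3
  rcases hS3 with h0 | ⟨l, hl1, hl2⟩
  · omega
  · have := pow_cmp i l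
    have := pow_pos8 l
    omega

end Pool.Agent.S11518
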