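import Pool.Statements.S11549
import Pool.Agent.Helper404.ST8
import Pool.Agent.Helper404.ST9

set_option autoImplicit false
open Pool Pool.MP_f13ad7_nt

namespace Pool.Agent.S11549

/-- For every transcendental real ξ whose Mahler type limsup w_n(ξ)/n equals 1, Koksma's *-type limsup w_n*(ξ)/n also equals 1, with w_n from integer polynomials and w_n* from real algebraic numbers of degree at most n. -/
theorem result :
    ∀ ξ : ℝ, Transcendental ℤ ξ →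
      (∀ ε : ℝ, 0 < ε → ∃ N : ℕ, ∀ n : ℕ, N ≤ n →
        {P : Polynomial ℤ | P.natDegree ≤ n ∧ Polynomial.aeval ξ P ≠ 0 ∧
          |Polynomial.aeval ξ P| ≤
            ((P.support.sup (fun i => (P.coeff i).natAbs) : ℕ) : ℝ) ^ (-((1 + ε) * (n : ℝ)))}.Finite) →
      (∀ ε : ℝ, 0 < ε → ∃ N : ℕ, ∀ n : ℕ, N ≤ n →
        {α : ℝ | ∃ Q : Polynomial ℤ, Irreducible Q ∧ Q.natDegree ≤ n ∧
          Polynomial.aeval α Q = 0 ∧ α ≠ ξ ∧
          |ξ - α| ≤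
            ((Q.support.sup (fun i => (Q.coeff i).natAbs) : ℕ) : ℝ) ^ (-((1 + ε) * (n : ℝ) + 1))}.Finite) ∧
      (∀ ε : ℝ, 0 < ε → ∀ N : ℕ, ∃ n : ℕ, N ≤ n ∧
        {α : ℝ | ∃ Q : Polynomial ℤ, Irreducible Q ∧ Q.natDegree ≤ n ∧
          Polynomial.aeval α Q = 0 ∧ α ≠ ξ ∧
          |ξ - α| ≤
            ((Q.support.sup (fun i => (Q.coeff i).natAbs) : ℕ) : ℝ) ^ (-((1 - ε) * (n : ℝ) + 1))}.Infinite) := by
  intro ξ hξ hyp
  refine ⟨fun ε hε => Pool.Agent.Helper404.part_a ξ hξ hyp ε hε, ?_⟩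
  intro ε hε N
  obtain ⟨n, hn, hinf⟩ := Pool.Agent.Helper404.part_b ξ hξ hyp (min ε 1) (lt_min hε one_pos)
    (min_le_right _ _) N
  refine ⟨n, hn, hinf.mono ?_⟩
  rintro α ⟨Q, h1, h2, h3, h4, h5⟩
  refine ⟨Q, h1, h2, h3, h4, h5.trans ?_⟩
  have hH : (1 : ℝ) ≤ (Pool.Agent.Helper404.HP Q : ℝ) := by
    exact_mod_cast Pool.Agent.Helper404.HP_pos h1.ne_zero
  have hexp : -((1 - min ε 1) * (n : ℝ) + 1) ≤ -((1 - ε) * (n : ℝ) + 1) := by
    have h6 : (1 - ε) * (n : ℝ) ≤ (1 - min ε 1) * n := by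
      have : min ε 1 ≤ ε := min_le_left _ _
      have h7 : (0 : ℝ) ≤ n := Nat.cast_nonneg n
      have h8 : 1 - ε ≤ 1 - min ε 1 := by linarith
      exact mul_le_mul_of_nonneg_right h8 h7
    linarith
  exact Real.rpow_le_rpow_of_exponent_le hH hexp

end Pool.Agent.S11549
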