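import Pool.Statements.S11625
import Pool.Agent.Helper398.SParts
import Pool.Agent.Helper398.SS.End4

set_option autoImplicit false
open Pool Pool.MP_fddcb9_nt

namespace Pool.Agent.S11625

/-- For all sufficiently large primes p and every A ⊆ ℤ_p of size ⌊2√(p−2)⌋: some residue is not a nonempty subset sum of A exactly when, for some nonzero b, the centered absolute values of the elements of b·A sum to at most p−2. -/
theorem result :
    ∃ p₀ : ℕ, ∀ p : ℕ, p.Prime → p₀ < p →
      ∀ A : Finset (ZMod p),
        A.card = ⌊2 * Real.sqrt ((p : ℝ) - 2)⌋₊ →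
        ((∃ x : ZMod p, ∀ B : Finset (ZMod p), B ⊆ A → B.Nonempty → B.sum id ≠ x) ↔
          ∃ b : ZMod p, b ≠ 0 ∧
            ∑ y ∈ A.image (fun a => b * a), |(ZMod.valMinAbs y)| ≤ (p : ℤ) - 2) := by
  exact Pool.Agent.Helper398.SS.assemble
    (Pool.Agent.Helper398.structure_S (1 / 100) (by norm_num)) Pool.Agent.Helper398.zero_Z

end Pool.Agent.S11625
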