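import Pool.Statements.S11627
import Pool.Agent.Helper381.QC.Final

set_option autoImplicit false
open Pool Pool.MP_fde3da_nt

namespace Pool.Agent.S11627

/-- For every integer a other than 0, 1, -1 and every ε>0 there is c such that for all M,N ≥ 1, the log of the size of (Z/(a^N-1))[T]/(T^M-1,(T+1)^M-1) is at most ε·max(M,N)^2 + c. -/
theorem result :
    ∀ a : ℤ, a ≠ 0 → a ≠ 1 → a ≠ -1 →
      ∀ ε : ℝ, 0 < ε → ∃ c : ℝ, ∀ M N : ℕ, 1 ≤ M → 1 ≤ N →
        Real.log ((Nat.card (Polynomial (ZMod (a ^ N - 1).natAbs) ⧸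
            Ideal.span ({Polynomial.X ^ M - 1, (Polynomial.X + 1) ^ M - 1} :
              Set (Polynomial (ZMod (a ^ N - 1).natAbs))))) : ℝ)
          ≤ ε * ((max M N : ℕ) : ℝ) ^ 2 + c := by
  intro a h0 h1 h2 ε hε
  obtain ⟨c, hc⟩ := Pool.Agent.Helper381.QC.main_ring a h0 h1 h2 ε hε
  refine ⟨c, fun M N hM hN => ?_⟩
  set n : ℕ := (a ^ N - 1).natAbs with hn
  set I : Ideal (Polynomial (ZMod n)) :=
    Ideal.span ({Polynomial.X ^ M - 1, (Polynomial.X + 1) ^ M - 1} :
              Set (Polynomial (ZMod n))) with hI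
  apply hc M N hM hN (Polynomial (ZMod n) ⧸ I) (Ideal.Quotient.mk I Polynomial.X)
  · intro x
    obtain ⟨f, rfl⟩ := Ideal.Quotient.mk_surjective x
    obtain ⟨P, rfl⟩ := Polynomial.map_surjective (Int.castRingHom (ZMod n))
      ZMod.intCast_surjective f
    refine ⟨P, ?_⟩
    have hring : (Polynomial.aeval (Ideal.Quotient.mk I Polynomial.X) :
        Polynomial ℤ →ₐ[ℤ] (Polynomial (ZMod n) ⧸ I)).toRingHom =
        (Ideal.Quotient.mk I).comp (Polynomial.mapRingHom (Int.castRingHom (ZMod n))) := by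
      apply Polynomial.ringHom_ext'
      · exact RingHom.ext_int _ _
      · simp
    exact congrArg (fun g => g P) hring
  · rw [← map_pow, ← map_one (Ideal.Quotient.mk I), Ideal.Quotient.eq]
    exact Ideal.subset_span (by simp)
  · rw [← map_one (Ideal.Quotient.mk I), ← map_add, ← map_pow, Ideal.Quotient.eq]
    exact Ideal.subset_span (by simp)
  · rw [← hn]
    have h3 : ((n : ℕ) : Polynomial (ZMod n)) = 0 := by
      rw [← Polynomial.C_eq_natCast, ZMod.natCast_self, Polynomial.C_0]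
    have h4 := congrArg (Ideal.Quotient.mk I) h3
    rw [map_natCast, map_zero] at h4
    exact h4

end Pool.Agent.S11627
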