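import Pool.Statements.S11651
import Pool.Agent.Helper580.SimonRed

set_option autoImplicit false
open Classical
open Pool Pool.MP_0b6541_pr

namespace Pool.Agent.S11651

/-- For every finite simple graph, p in [0,1] and q in [1,2], with φ the random-cluster connection probability, any vertex set W avoiding x≠z and meeting every x–z path satisfies φ(x↔z) ≤ Σ_{y∈W} φ(x↔y)φ(y↔z). -/
theorem result :
  ∀ (V : Type) [Fintype V] [DecidableEq V] (G : SimpleGraph V) [DecidableRel G.Adj]
    (p q : ℝ), 0 ≤ p → p ≤ 1 → 1 ≤ q → q ≤ 2 →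
  ∀ φ : V → V → ℝ,
    (∀ a b : V, φ a b =
      (∑ ω ∈ G.edgeFinset.powerset,
        if (SimpleGraph.fromEdgeSet (ω : Set (Sym2 V))).Reachable a b then
          p ^ ω.card * (1 - p) ^ (G.edgeFinset.card - ω.card) *
            q ^ Nat.card (SimpleGraph.fromEdgeSet (ω : Set (Sym2 V))).ConnectedComponent
        else 0) /
      (∑ ω ∈ G.edgeFinset.powerset,
          p ^ ω.card * (1 - p) ^ (G.edgeFinset.card - ω.card) *
            q ^ Nat.card (SimpleGraph.fromEdgeSet (ω : Set (Sym2 V))).ConnectedComponent)) →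
  ∀ (x z : V) (W : Finset V), x ≠ z → x ∉ W → z ∉ W →
    (∀ w : G.Walk x z, ∃ y ∈ W, y ∈ w.support) →
    φ x z ≤ ∑ y ∈ W, φ x y * φ y z := by
  intro V _ _ G _ p q hp0 hp1 hq hq2 φ hφ x z W _ _ hzW hsep
  have hZ : (∑ ω ∈ G.edgeFinset.powerset,
          p ^ ω.card * (1 - p) ^ (G.edgeFinset.card - ω.card) *
            q ^ Nat.card (SimpleGraph.fromEdgeSet (ω : Set (Sym2 V))).ConnectedComponent) =
      Pool.Agent.Helper580.Simon.ZZ p q ∅ G.edgeFinset := by
    rw [Pool.Agent.Helper580.Simon.ZZ_plain]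
  have hN : ∀ a b : V, (∑ ω ∈ G.edgeFinset.powerset,
        if (SimpleGraph.fromEdgeSet (ω : Set (Sym2 V))).Reachable a b then
          p ^ ω.card * (1 - p) ^ (G.edgeFinset.card - ω.card) *
            q ^ Nat.card (SimpleGraph.fromEdgeSet (ω : Set (Sym2 V))).ConnectedComponent
        else 0) = Pool.Agent.Helper580.Simon.NN p q ∅ G.edgeFinset a b := by
    intro a b
    rw [Pool.Agent.Helper580.Simon.NN_plain]
    apply Finset.sum_congr rfl
    intro ω _
    by_cases h : (SimpleGraph.fromEdgeSet (ω : Set (Sym2 V))).Reachable a b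
    · simp only [h, if_true, Pool.Agent.Helper580.Simon.ind]; ring
    · simp only [h, if_false, Pool.Agent.Helper580.Simon.ind]; ring
  have hφ' : ∀ a b : V, φ a b = Pool.Agent.Helper580.Simon.NN p q ∅ G.edgeFinset a b /
      Pool.Agent.Helper580.Simon.ZZ p q ∅ G.edgeFinset := by
    intro a b
    rw [hφ a b, hZ, hN a b]
  have key := Pool.Agent.Helper580.Simon.simon_weights hp0 hp1 hq hq2 G hzW hsep G.edgeFinset
    (fun a b h => by simpa using h)
  have hZpos := Pool.Agent.Helper580.Simon.ZZ_pos hp0 hp1 hq ∅ G.edgeFinset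
  have e1 : ∑ y ∈ W, φ x y * φ y z =
      (∑ y ∈ W, Pool.Agent.Helper580.Simon.NN p q ∅ G.edgeFinset x y *
        Pool.Agent.Helper580.Simon.NN p q ∅ G.edgeFinset y z) /
      (Pool.Agent.Helper580.Simon.ZZ p q ∅ G.edgeFinset *
        Pool.Agent.Helper580.Simon.ZZ p q ∅ G.edgeFinset) := by
    rw [Finset.sum_div]
    apply Finset.sum_congr rfl
    intro y _
    rw [hφ', hφ', div_mul_div_comm]
  rw [e1, hφ', le_div_iff₀ (mul_pos hZpos hZpos)]
  calc Pool.Agent.Helper580.Simon.NN p q ∅ G.edgeFinset x z /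
        Pool.Agent.Helper580.Simon.ZZ p q ∅ G.edgeFinset *
        (Pool.Agent.Helper580.Simon.ZZ p q ∅ G.edgeFinset *
        Pool.Agent.Helper580.Simon.ZZ p q ∅ G.edgeFinset)
      = Pool.Agent.Helper580.Simon.NN p q ∅ G.edgeFinset x z *
        Pool.Agent.Helper580.Simon.ZZ p q ∅ G.edgeFinset := by
        field_simp
    _ ≤ _ := key

end Pool.Agent.S11651
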