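import Pool.Statements.S11657
import Pool.Agent.Helper41.CT.MainF
import Pool.Agent.Helper41.CT.PathS

set_option autoImplicit false
open Pool Pool.MP_12e6b8_pr

namespace Pool.Agent.S11657

open scoped ENNReal
open Pool.Agent.Helper41.CT

/-- the probability of not covering is nonnegative -/
theorem fk_nonneg' {V : Type} [Fintype V] [DecidableEq V] {P : Matrix V V ℝ} {π : V → ℝ}
    (h : Rev P π) (k t : ℕ) (w : V) : 0 ≤ fk P k t w := by
  rw [fk_rl h]
  exact en_nonneg (rl_law h t w) k _

/-- a finite sum in `ℝ≥0∞` gives summability -/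
theorem summ_of {f : ℕ → ℝ} (hf : ∀ n, 0 ≤ f n) {T : ℝ≥0∞} (hT : T ≠ ∞)
    (h : ∑' n, ENNReal.ofReal (f n) ≤ T) : Summable f ∧ ∑' n, f n ≤ T.toReal := by
  have hne : ∑' n, ENNReal.ofReal (f n) ≠ ∞ := ne_top_of_le_ne_top hT h
  have h1 := ENNReal.summable_toReal hne
  have h2 : (fun n => (ENNReal.ofReal (f n)).toReal) = f := by
    funext n; exact ENNReal.toReal_ofReal (hf n)
  rw [h2] at h1
  refine ⟨h1, ?_⟩
  have h3 : ∑' n, f n = (∑' n, ENNReal.ofReal (f n)).toReal := by
    rw [ENNReal.tsum_toReal_eq (fun n => ENNReal.ofReal_ne_top)]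
    exact tsum_congr fun n => (ENNReal.toReal_ofReal (hf n)).symm
  rw [h3]
  exact ENNReal.toReal_mono hT h

/-- There is a constant c>0 such that for every irreducible reversible finite Markov chain and every k≥1, the max expected cover time of one walker is at most c·k times the max expected cover time of k independent walkers started together. -/
theorem result :
    ∃ c : ℝ, 0 < c ∧
      ∀ (V : Type) [Fintype V] [DecidableEq V] (P : Matrix V V ℝ),
        (∀ x y, 0 ≤ P x y) →
        (∀ x, ∑ y, P x y = 1) →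
        (∀ x y, ∃ n : ℕ, 0 < (P ^ n) x y) →
        (∃ π : V → ℝ, (∀ x, 0 < π x) ∧ ∀ x y, π x * P x y = π y * P y x) →
        ∀ k : ℕ, 1 ≤ k → ∀ u : V, ∃ w : V,
          (∑' t : ℕ, ENNReal.ofReal
              (∑ ω : Fin 1 → Fin (t + 1) → V,
                if (∀ i, ω i 0 = u) ∧ (∃ v : V, ∀ i j, ω i j ≠ v) then
                  ∏ i, ∏ j : Fin t, P (ω i j.castSucc) (ω i j.succ)
                else 0))
            ≤ ENNReal.ofReal (c * (k : ℝ)) *
              (∑' t : ℕ, ENNReal.ofReal
                (∑ ω : Fin k → Fin (t + 1) → V,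
                  if (∀ i, ω i 0 = w) ∧ (∃ v : V, ∀ i j, ω i j ≠ v) then
                    ∏ i, ∏ j : Fin t, P (ω i j.castSucc) (ω i j.succ)
                  else 0)) := by
  obtain ⟨C, hC, hmain⟩ := main_fk
  refine ⟨C, hC, ?_⟩
  intro V _ _ P hnn hrow _ hrev k hk u
  obtain ⟨π₀, hπ₀, hrev₀⟩ := hrev
  have hne : (Finset.univ : Finset V).Nonempty := ⟨u, Finset.mem_univ u⟩
  have hS : 0 < ∑ x, π₀ x := Finset.sum_pos (fun x _ => hπ₀ x) hne
  have h : Rev P (fun x => π₀ x / ∑ z, π₀ z) := by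
    refine ⟨hnn, hrow, fun x => div_pos (hπ₀ x) hS, ?_, ?_⟩
    · rw [← Finset.sum_div]
      exact div_self hS.ne'
    · intro x y
      rw [div_mul_eq_mul_div, div_mul_eq_mul_div, hrev₀ x y]
  simp only [path_sum h]
  have hk0 : (0 : ℝ) < k := by exact_mod_cast hk
  rcases lt_or_ge (Fintype.card V) 2 with hcard | hcard
  · -- a single vertex
    refine ⟨u, ?_⟩
    have hall : ∀ v : V, v = u := by
      intro v
      have : Fintype.card V ≤ 1 := by omega
      exact (Fintype.card_le_one_iff.1 this) v u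
    have hz : ∀ t : ℕ, fk P 1 t u = 0 := by
      intro t
      rw [← path_sum h]
      apply Finset.sum_eq_zero
      intro ω _
      rw [if_neg]
      rintro ⟨_, v, hv⟩
      exact hv 0 0 ((hall _).trans (hall v).symm)
    simp [hz]
  · haveI : Nonempty V := ⟨u⟩
    obtain ⟨w, hw⟩ := Finite.exists_max (fun w : V => ∑' t : ℕ, ENNReal.ofReal (fk P k t w))
    refine ⟨w, ?_⟩
    by_cases hT : ∑' t : ℕ, ENNReal.ofReal (fk P k t w) = ∞
    · rw [hT, ENNReal.mul_top]
      · exact le_top
      · rw [Ne, ENNReal.ofReal_eq_zero, not_le]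
        positivity
    · have h1 := hmain V P _ h hcard k hk (∑' t : ℕ, ENNReal.ofReal (fk P k t w)).toReal
        (fun w' => summ_of (fun t => fk_nonneg' h k t w') hT (hw w')) u
      have h2 : ∑' t : ℕ, ENNReal.ofReal (fk P 1 t u)
          = ENNReal.ofReal (∑' t : ℕ, fk P 1 t u) :=
        (ENNReal.ofReal_tsum_of_nonneg (fun t => fk_nonneg' h 1 t u) h1.1).symm
      rw [h2]
      refine (ENNReal.ofReal_le_ofReal h1.2).trans ?_
      rw [ENNReal.ofReal_mul (by positivity), ENNReal.ofReal_toReal hT]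

end Pool.Agent.S11657
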