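import Pool.Statements.S11662
import Pool.Agent.H494.MixFinal

set_option autoImplicit false
open MeasureTheory
open Pool Pool.MP_15f5b0_pr

namespace Pool.Agent.S11662

/-- The negation of the preceding statement: For X, Y i.i.d. real with a log-concave probability density, the differential entropy of sqrt(l)X + sqrt(1-l)Y, for every l in [0,1], is at most its value at l = 1/2. -/
theorem result :
    ¬ (∀ f : ℝ → ℝ, Measurable f → (∀ x, 0 ≤ f x) → (∫ x, f x = 1) →
      (∀ x y : ℝ, ∀ t : ℝ, 0 ≤ t → t ≤ 1 →
          f x ^ t * f y ^ (1 - t) ≤ f (t * x + (1 - t) * y)) →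
      ∀ l : ℝ, 0 ≤ l → l ≤ 1 →
        ∫ z, Real.negMulLog
            (((((volume : Measure ℝ).withDensity (fun x => ENNReal.ofReal (f x))).prod
                ((volume : Measure ℝ).withDensity (fun x => ENNReal.ofReal (f x)))).map
                (fun p : ℝ × ℝ => Real.sqrt l * p.1 + Real.sqrt (1 - l) * p.2)).rnDeriv
                volume z).toReal
          ≤
        ∫ z, Real.negMulLog
            (((((volume : Measure ℝ).withDensity (fun x => ENNReal.ofReal (f x))).prod
                ((volume : Measure ℝ).withDensity (fun x => ENNReal.ofReal (f x)))).map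
                (fun p : ℝ × ℝ => Real.sqrt (1 / 2 : ℝ) * p.1 + Real.sqrt (1 - (1 / 2 : ℝ)) * p.2)).rnDeriv
                volume z).toReal) := by
  intro H
  exact H494.Mix.final H

end Pool.Agent.S11662
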