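import Pool.Statements.S11663
import Pool.Agent.Helper41.Dim

set_option autoImplicit false
open MeasureTheory ProbabilityTheory
open Pool Pool.MP_16f2e2_pr

namespace Pool.Agent.S11663

open scoped NNReal ENNReal

/-- The first four coordinates of the sheet, indexed by nonnegative reals. -/
noncomputable def coordSheet {d : ℕ} (hd : 4 ≤ d) {Ω : Type} (B : Ω → ℝ × ℝ → EuclideanSpace ℝ (Fin d))
    (q : Fin 4 × ℝ≥0 × ℝ≥0) (ω : Ω) : ℝ :=
  B ω ((q.2.1 : ℝ), (q.2.2 : ℝ)) (Fin.castLE hd q.1)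

lemma coordSheet_isSheet {d : ℕ} (hd : 4 ≤ d) {Ω : Type} [MeasurableSpace Ω] (P : Measure Ω)
    [IsProbabilityMeasure P] (B : Ω → ℝ × ℝ → EuclideanSpace ℝ (Fin d))
    (hmeas : ∀ p : ℝ × ℝ, Measurable (fun ω => B ω p))
    (hchar : ∀ (n : ℕ) (p : Fin n → ℝ × ℝ) (u : Fin n → EuclideanSpace ℝ (Fin d)),
        (∀ k, 0 ≤ (p k).1 ∧ 0 ≤ (p k).2) →
        ∫ ω, Complex.exp (Complex.I * (((∑ k, inner ℝ (u k) (B ω (p k))) : ℝ) : ℂ)) ∂P
          = Complex.exp (-(1 / 2 : ℂ) *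
              (((∑ k, ∑ l, inner ℝ (u k) (u l) *
                  (min (p k).1 (p l).1 * min (p k).2 (p l).2)) : ℝ) : ℂ))) :
    Helper41.IsSheet (coordSheet hd B) P where
  meas q := by
    have h1 : Measurable (fun v : EuclideanSpace ℝ (Fin d) => v (Fin.castLE hd q.1)) := by
      fun_prop
    exact h1.comp (hmeas _)
  char := by
    intro n q a
    have h := hchar n (fun k => (((q k).2.1 : ℝ), ((q k).2.2 : ℝ)))
      (fun k => EuclideanSpace.single (Fin.castLE hd (q k).1) (a k))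
      (fun k => ⟨(q k).2.1.2, (q k).2.2.2⟩)
    have e1 : ∀ ω, (∑ k, inner ℝ (EuclideanSpace.single (Fin.castLE hd (q k).1) (a k))
        (B ω (((q k).2.1 : ℝ), ((q k).2.2 : ℝ)))) = ∑ k, a k * coordSheet hd B (q k) ω := by
      intro ω
      refine Finset.sum_congr rfl fun k _ => ?_
      rw [EuclideanSpace.inner_single_left]
      simp [coordSheet]
    have e2 : (∑ k, ∑ l, inner ℝ (EuclideanSpace.single (Fin.castLE hd (q k).1) (a k))
        (EuclideanSpace.single (Fin.castLE hd (q l).1) (a l)) *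
          (min ((q k).2.1 : ℝ) ((q l).2.1 : ℝ) * min ((q k).2.2 : ℝ) ((q l).2.2 : ℝ))) =
        ∑ k, ∑ l, a k * a l * Helper41.sheetK (q k) (q l) := by
      refine Finset.sum_congr rfl fun k _ => Finset.sum_congr rfl fun l _ => ?_
      rw [EuclideanSpace.inner_single_left]
      unfold Helper41.sheetK
      by_cases hkl : (q k).1 = (q l).1
      · simp [hkl]
      · have : Fin.castLE hd (q k).1 ≠ Fin.castLE hd (q l).1 := fun h' =>
          hkl (Fin.castLE_injective hd h')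
        simp [hkl, this]
    simp only at h
    rw [e2] at h
    simp_rw [e1] at h
    exact h

/-- For d = 4 or 5 and any continuous d-dimensional Brownian sheet B, almost surely, for every s > 0 the set of pairs t1 ≠ t2 in [0,∞) with B(s,t1) = B(s,t2) has Hausdorff dimension 0. -/
theorem result :
    ∀ d : ℕ, (d = 4 ∨ d = 5) →
    ∀ (Ω : Type) [MeasurableSpace Ω] (P : Measure Ω) [IsProbabilityMeasure P]
      (B : Ω → ℝ × ℝ → EuclideanSpace ℝ (Fin d)),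
      (∀ p : ℝ × ℝ, Measurable (fun ω => B ω p)) →
      (∀ ω, ContinuousOn (B ω) (Set.Ici (0 : ℝ) ×ˢ Set.Ici (0 : ℝ))) →
      (∀ (n : ℕ) (p : Fin n → ℝ × ℝ) (u : Fin n → EuclideanSpace ℝ (Fin d)),
        (∀ k, 0 ≤ (p k).1 ∧ 0 ≤ (p k).2) →
        ∫ ω, Complex.exp (Complex.I * (((∑ k, inner ℝ (u k) (B ω (p k))) : ℝ) : ℂ)) ∂P
          = Complex.exp (-(1 / 2 : ℂ) *
              (((∑ k, ∑ l, inner ℝ (u k) (u l) *
                  (min (p k).1 (p l).1 * min (p k).2 (p l).2)) : ℝ) : ℂ))) →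
      ∀ᵐ ω ∂P, ∀ s : ℝ, 0 < s →
        dimH {t : ℝ × ℝ | 0 ≤ t.1 ∧ 0 ≤ t.2 ∧ t.1 ≠ t.2 ∧ B ω (s, t.1) = B ω (s, t.2)} = 0 := by
  intro d hd45 Ω _ P _ B hmeas hcont hchar
  have hd : 4 ≤ d := by omega
  have hS := coordSheet_isSheet hd P B hmeas hchar
  have hc : ∀ᵐ ω ∂P, ∀ c, Continuous (fun p : ℝ≥0 × ℝ≥0 => coordSheet hd B (c, p.1, p.2) ω) := by
    refine Filter.Eventually.of_forall fun ω c => ?_
    have h1 : Continuous (fun p : ℝ≥0 × ℝ≥0 => B ω ((p.1 : ℝ), (p.2 : ℝ))) := by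
      have h2 : Continuous (fun p : ℝ≥0 × ℝ≥0 => ((p.1 : ℝ), (p.2 : ℝ))) := by fun_prop
      refine (hcont ω).comp_continuous h2 ?_
      intro p
      exact ⟨p.1.2, p.2.2⟩
    have h3 : Continuous (fun v : EuclideanSpace ℝ (Fin d) => v (Fin.castLE hd c)) := by
      fun_prop
    exact h3.comp h1
  filter_upwards [hS.ae_dimH_zero hc] with ω hω s hs
  have h1 := hω ⟨s, hs.le⟩ hs
  have hiso : Isometry (fun p : ℝ≥0 × ℝ≥0 => ((p.1 : ℝ), (p.2 : ℝ))) := by
    intro p q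
    rw [Prod.edist_eq, Prod.edist_eq]
    rfl
  refine le_antisymm ?_ bot_le
  rw [← h1, ← hiso.dimH_image]
  apply dimH_mono
  rintro ⟨t1, t2⟩ ⟨h01, h02, hne, heq⟩
  simp only at h01 h02 hne heq
  refine ⟨(⟨t1, h01⟩, ⟨t2, h02⟩), ⟨?_, fun c => ?_⟩, rfl⟩
  · intro h
    exact hne (congrArg (fun x : ℝ≥0 => (x : ℝ)) h)
  · show B ω (s, t1) (Fin.castLE hd c) = B ω (s, t2) (Fin.castLE hd c)
    rw [heq]

end Pool.Agent.S11663
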