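import Pool.Statements.S11674

set_option autoImplicit false
open MeasureTheory ProbabilityTheory
open Pool Pool.MP_1c00b2_pr

namespace Pool.Agent.S11674

section Aux
open MeasureTheory ProbabilityTheory
open scoped ENNReal

/-- The law on `Bool` giving mass `p` to `true` and `q` to `false`. -/
noncomputable def coin (p q : ℝ≥0∞) : Measure Bool :=
  p • Measure.dirac true + q • Measure.dirac false

lemma coin_prob {p q : ℝ≥0∞} (h : p + q = 1) : IsProbabilityMeasure (coin p q) := by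
  constructor
  simp [coin, h]

lemma coin_true (p q : ℝ≥0∞) : coin p q {true} = p := by
  simp [coin]

lemma coin_false (p q : ℝ≥0∞) : coin p q {false} = q := by
  simp [coin]

variable {ι : Type} 

lemma lintegral_coin (p q : ℝ≥0∞) (f : Bool → ℝ≥0∞) :
    ∫⁻ b, f b ∂(coin p q) = p * f true + q * f false := by
  simp [coin, lintegral_add_measure, lintegral_smul_measure]

/-- independence of a chain driven by the first `n` tosses and the next toss -/
lemma lintegral_step {p q : ℝ≥0∞} [IsProbabilityMeasure (coin p q)] {α : Type} [MeasurableSpace α]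
    (e : ℕ → ι) (he : Function.Injective e)
    (n : ℕ) (X : (ι → Bool) → α)
    (hX : @Measurable _ _ (⨆ i ∈ Set.Iio n, MeasurableSpace.comap (fun ω : ι → Bool => ω (e i)) inferInstance) _ X)
    (F : α → Bool → ℝ≥0∞) (hF : ∀ b, Measurable (fun x => F x b)) :
    ∫⁻ ω, F (X ω) (ω (e n)) ∂(Measure.infinitePi (fun _ : ι => coin p q)) =
      p * ∫⁻ ω, F (X ω) true ∂(Measure.infinitePi (fun _ : ι => coin p q)) +
      q * ∫⁻ ω, F (X ω) false ∂(Measure.infinitePi (fun _ : ι => coin p q)) := by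
  set μ := Measure.infinitePi (fun _ : ι => coin p q) with hμ
  have hind0 : iIndepFun (fun (i : ι) (ω : ι → Bool) => ω i) μ :=
    iIndepFun_infinitePi (X := fun (i : ι) (b : Bool) => b) (P := fun _ : ι => coin p q)
      (fun i => measurable_id)
  have hind1 : iIndepFun (fun (i : ℕ) (ω : ι → Bool) => ω (e i)) μ := hind0.precomp he
  have hind2 : iIndep (fun i : ℕ => MeasurableSpace.comap (fun ω : ι → Bool => ω (e i)) inferInstance) μ :=
    hind1
  have hle : ∀ i : ℕ, MeasurableSpace.comap (fun ω : ι → Bool => ω (e i)) inferInstance ≤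
      (inferInstance : MeasurableSpace (ι → Bool)) := by
    intro i
    exact (measurable_pi_apply (e i)).comap_le
  have hI : Indep (⨆ i ∈ Set.Iio n, MeasurableSpace.comap (fun ω : ι → Bool => ω (e i)) inferInstance)
      (⨆ i ∈ ({n} : Set ℕ), MeasurableSpace.comap (fun ω : ι → Bool => ω (e i)) inferInstance) μ := by
    apply indep_iSup_of_disjoint hle hind2
    simp
  have hXm : Measurable X := by
    apply hX.mono _ le_rfl
    apply iSup₂_le
    intro i _
    exact hle i
  have hI2 : IndepFun X (fun ω : ι → Bool => ω (e n)) μ := by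
    rw [IndepFun_iff_Indep]
    apply indep_of_indep_of_le_left _ hX.comap_le
    simpa using hI
  have hsplit : ∀ ω : ι → Bool, F (X ω) (ω (e n)) =
      F (X ω) true * (if ω (e n) = true then 1 else 0) + F (X ω) false * (if ω (e n) = false then 1 else 0) := by
    intro ω
    cases h : ω (e n) <;> simp
  have key : ∀ b : Bool, ∫⁻ ω, F (X ω) b * (if ω (e n) = b then 1 else 0) ∂μ =
      (∫⁻ ω, F (X ω) b ∂μ) * ∫⁻ ω, (if ω (e n) = b then 1 else 0) ∂μ := by
    intro b
    have hi : IndepFun (fun ω => F (X ω) b) (fun ω : ι → Bool => (if ω (e n) = b then (1:ℝ≥0∞) else 0)) μ := by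
      have := hI2.comp (φ := fun x => F x b) (ψ := fun c : Bool => if c = b then (1:ℝ≥0∞) else 0)
        (hF b) (measurable_of_finite _)
      exact this
    have h2 := lintegral_mul_eq_lintegral_mul_lintegral_of_indepFun (μ := μ)
      (f := fun ω => F (X ω) b) (g := fun ω : ι → Bool => (if ω (e n) = b then (1:ℝ≥0∞) else 0))
      ((hF b).comp hXm) ((measurable_of_finite (fun c : Bool => if c = b then (1:ℝ≥0∞) else 0)).comp
        (measurable_pi_apply (e n))) hi
    simpa using h2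
  have key2 : ∀ b : Bool, ∫⁻ ω, (if ω (e n) = b then (1:ℝ≥0∞) else 0) ∂μ = coin p q {b} := by
    intro b
    have hmp := _root_.measurePreserving_eval_infinitePi (fun _ : ι => coin p q) (e n)
    have := hmp.lintegral_comp (f := fun c : Bool => if c = b then (1:ℝ≥0∞) else 0) (measurable_of_finite _)
    simp only [Function.eval] at this
    rw [hμ, this, lintegral_coin]
    cases b <;> simp [coin_true, coin_false]
  have hm : ∀ b : Bool, Measurable (fun ω : ι → Bool => F (X ω) b * (if ω (e n) = b then (1:ℝ≥0∞) else 0)) := by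
    intro b
    exact ((hF b).comp hXm).mul ((measurable_of_finite (fun c : Bool => if c = b then (1:ℝ≥0∞) else 0)).comp
        (measurable_pi_apply (e n)))
  calc ∫⁻ ω, F (X ω) (ω (e n)) ∂μ
      = ∫⁻ ω, (F (X ω) true * (if ω (e n) = true then 1 else 0) +
          F (X ω) false * (if ω (e n) = false then 1 else 0)) ∂μ := by
        apply lintegral_congr
        exact hsplit
    _ = _ := by
        rw [lintegral_add_left (hm true), key true, key false, key2 true, key2 false, coin_true,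
          coin_false]
        ring


abbrev Om : Type := ℕ → Bool

/-- birth and death chain seen by the customers with even index -/
def M : ℕ → Om → ℕ
  | 0, _ => 0
  | n + 1, ω => if ω (2 * n) = true then M n ω + 1 else M n ω - 1

noncomputable def g (b : Bool) : ℝ := if b = true then 9 / 4 else 7 / 4

noncomputable def Sv (n : ℕ) (ω : Om) : ℝ := g (ω n)

/-- index of a least loaded server -/
noncomputable def arg (v : Fin 2 → ℝ) : Fin 2 := if v 0 ≤ v 1 then 0 else 1

lemma arg_le (v : Fin 2 → ℝ) (j : Fin 2) : v (arg v) ≤ v j := by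
  unfold arg
  split_ifs with h
  · fin_cases j <;> simp [h]
  · push Not at h
    fin_cases j <;> simp [h.le]

noncomputable def Vv : ℕ → Om → Fin 2 → ℝ
  | 0, _ => fun _ => 0
  | n + 1, ω => fun j => max 0 (Vv n ω j + (if j = arg (Vv n ω) then Sv n ω else 0) - 1)

lemma M_le (j : ℕ) (ω : Om) : M j ω ≤ j := by
  induction j with
  | zero => simp [M]
  | succ j ih =>
    rw [M]
    split_ifs <;> omega

lemma M_step (j : ℕ) (ω : Om) : (1 / 4 : ℝ) * (M (j + 1) ω : ℝ) = max 0 ((1 / 4 : ℝ) * (M j ω : ℝ) + Sv (2 * j) ω - 2) := by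
  unfold Sv g
  rw [M]
  split_ifs with h
  · push_cast
    rw [max_eq_right]
    · ring
    · have : (0:ℝ) ≤ M j ω := Nat.cast_nonneg _
      linarith
  · rcases Nat.eq_zero_or_pos (M j ω) with h0 | h0
    · rw [h0, max_eq_left] <;> norm_num
    · rw [Nat.cast_sub (by omega), max_eq_right]
      · push_cast; ring
      · have : (1:ℝ) ≤ M j ω := by exact_mod_cast h0
        linarith

lemma Sv_ge (n : ℕ) (ω : Om) : 7 / 4 ≤ Sv n ω := by
  unfold Sv g; split_ifs <;> norm_num

lemma Sv_le (n : ℕ) (ω : Om) : Sv n ω ≤ 9 / 4 := by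
  unfold Sv g; split_ifs <;> norm_num

lemma V_even (j : ℕ) (hj : j ≤ 3) (ω : Om) :
    Vv (2 * j) ω 0 = (1 / 4 : ℝ) * (M j ω : ℝ) ∧
    (j = 0 ∨ 3 / 4 ≤ Vv (2 * j) ω 1) ∧ 0 ≤ Vv (2 * j) ω 1 ∧
    Vv (2 * j) ω 1 ≤ 1 + (1 / 4) * (j : ℝ) := by
  induction j with
  | zero => simp [Vv, M]
  | succ j ih =>
    obtain ⟨h0, h1, h2, h3⟩ := ih (by omega)
    have hj' : (j : ℝ) ≤ 2 := by
      have : j ≤ 2 := by omega
      exact_mod_cast this
    have hM : (M j ω : ℝ) ≤ j := by exact_mod_cast M_le j ω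
    have hM0 : (0 : ℝ) ≤ M j ω := Nat.cast_nonneg _
    have ha : arg (Vv (2 * j) ω) = 0 := by
      unfold arg
      rw [if_pos]
      rw [h0]
      rcases h1 with h1 | h1
      · subst h1
        simp [M, Vv]
      · linarith
    have hv1 : Vv (2 * j + 1) ω = fun i => max 0 (Vv (2 * j) ω i + (if i = arg (Vv (2 * j) ω) then Sv (2 * j) ω else 0) - 1) := rfl
    have e0 : Vv (2 * j + 1) ω 0 = (1 / 4 : ℝ) * (M j ω : ℝ) + Sv (2 * j) ω - 1 := by
      rw [hv1, ha]
      simp only [if_true, h0]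
      rw [max_eq_right]
      linarith [Sv_ge (2 * j) ω]
    have e1 : Vv (2 * j + 1) ω 1 = max 0 (Vv (2 * j) ω 1 - 1) := by
      rw [hv1, ha]
      simp
    have e1le : Vv (2 * j + 1) ω 1 ≤ (1 / 4) * (j : ℝ) := by
      rw [e1]
      apply max_le
      · positivity
      · linarith
    have e1ge : 0 ≤ Vv (2 * j + 1) ω 1 := by rw [e1]; exact le_max_left _ _
    have hb : arg (Vv (2 * j + 1) ω) = 1 := by
      unfold arg
      rw [if_neg]
      push Not
      rw [e0]
      linarith [Sv_ge (2 * j) ω]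
    have hv2 : Vv (2 * (j + 1)) ω = fun i => max 0 (Vv (2 * j + 1) ω i + (if i = arg (Vv (2 * j + 1) ω) then Sv (2 * j + 1) ω else 0) - 1) := rfl
    have f0 : Vv (2 * (j + 1)) ω 0 = (1 / 4 : ℝ) * (M (j + 1) ω : ℝ) := by
      rw [hv2, hb, M_step]
      simp only [Fin.isValue, zero_ne_one, if_false, add_zero, e0]
      congr 1
      ring
    have f1 : Vv (2 * (j + 1)) ω 1 = Vv (2 * j + 1) ω 1 + Sv (2 * j + 1) ω - 1 := by
      rw [hv2, hb]
      simp only [if_true]
      rw [max_eq_right]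
      linarith [Sv_ge (2 * j + 1) ω]
    refine ⟨f0, Or.inr ?_, ?_, ?_⟩
    · rw [f1]; linarith [Sv_ge (2 * j + 1) ω]
    · rw [f1]; linarith [Sv_ge (2 * j + 1) ω]
    · rw [f1]; push_cast; linarith [Sv_le (2 * j + 1) ω]

lemma V_six (ω : Om) (i : Fin 2) : (1 / 4 : ℝ) * (M 3 ω : ℝ) ≤ Vv 6 ω i := by
  obtain ⟨h0, h1, h2, h3⟩ := V_even 3 le_rfl ω
  have hM : (M 3 ω : ℝ) ≤ 3 := by exact_mod_cast M_le 3 ω
  fin_cases i
  · exact h0.ge
  · rcases h1 with h1 | h1
    · omega
    · simp only [Fin.mk_one]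
      linarith

lemma M_meas (n : ℕ) : @Measurable _ _ (⨆ i ∈ Set.Iio n,
    MeasurableSpace.comap (fun ω : Om => ω (2 * i)) inferInstance) _ (M n) := by
  induction n with
  | zero => exact measurable_const
  | succ n ih =>
    have h1 : @Measurable _ _ (⨆ i ∈ Set.Iio (n + 1),
        MeasurableSpace.comap (fun ω : Om => ω (2 * i)) inferInstance) _ (M n) := by
      apply ih.mono _ le_rfl
      apply biSup_mono
      intro i hi
      exact lt_trans hi (Nat.lt_succ_self n)
    have h2 : @Measurable _ _ (⨆ i ∈ Set.Iio (n + 1),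
        MeasurableSpace.comap (fun ω : Om => ω (2 * i)) inferInstance) _
        (fun ω : Om => ω (2 * n)) := by
      rw [measurable_iff_comap_le]
      exact le_iSup₂_of_le (f := fun (i : ℕ) (_ : i ∈ Set.Iio (n + 1)) =>
          MeasurableSpace.comap (fun ω : Om => ω (2 * i)) inferInstance) n (Nat.lt_succ_self n) le_rfl
    have h3 : M (n + 1) = fun ω => (fun x : ℕ × Bool => if x.2 = true then x.1 + 1 else x.1 - 1)
        (M n ω, ω (2 * n)) := by
      funext ω
      simp [M]
    rw [h3]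
    exact (measurable_of_countable (fun x : ℕ × Bool => if x.2 = true then x.1 + 1 else x.1 - 1)).comp
      (h1.prodMk h2)

/-- success probability -/
noncomputable def pp : ℝ≥0∞ := ((1 / 8 : NNReal) : ℝ≥0∞)
noncomputable def qq : ℝ≥0∞ := ((7 / 8 : NNReal) : ℝ≥0∞)

lemma ppqq : pp + qq = 1 := by
  unfold pp qq
  rw [← ENNReal.coe_add, ← ENNReal.coe_one]
  congr 1
  rw [← NNReal.coe_inj]
  push_cast
  norm_num

instance : IsProbabilityMeasure (coin pp qq) := coin_prob ppqq

noncomputable def mu : Measure Om := Measure.infinitePi (fun _ : ℕ => coin pp qq)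

instance : IsProbabilityMeasure mu := by unfold mu; infer_instance

lemma M_lint (n : ℕ) (f : ℕ → ℝ≥0∞) : ∫⁻ ω, f (M (n + 1) ω) ∂mu =
    pp * ∫⁻ ω, f (M n ω + 1) ∂mu + qq * ∫⁻ ω, f (M n ω - 1) ∂mu := by
  have h := lintegral_step (ι := ℕ) (p := pp) (q := qq) (fun i => 2 * i)
    (fun a b hab => by simpa using hab) n (M n)
    (M_meas n) (fun x b => f (if b = true then x + 1 else x - 1))
    (fun b => measurable_of_countable _)
  unfold mu
  simpa [M] using h

lemma M_three : ∫⁻ ω, ENNReal.ofReal ((1 / 4 : ℝ) * (M 3 ω : ℝ)) ∂mu = ((5 / 128 : NNReal) : ℝ≥0∞) := by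
  have e : ∀ k : ℕ, ENNReal.ofReal ((1 / 4 : ℝ) * (k : ℝ)) = (((1 / 4 : NNReal) * (k : NNReal) : NNReal) : ℝ≥0∞) := by
    intro k
    rw [ENNReal.ofReal, ENNReal.coe_inj, ← NNReal.coe_inj, Real.coe_toNNReal _ (by positivity)]
    push_cast
    rfl
  simp_rw [e]
  rw [M_lint 2 (fun k => (((1 / 4 : NNReal) * (k : NNReal) : NNReal) : ℝ≥0∞))]
  rw [M_lint 1 (fun k => (((1 / 4 : NNReal) * ((k + 1 : ℕ) : NNReal) : NNReal) : ℝ≥0∞))]
  rw [M_lint 1 (fun k => (((1 / 4 : NNReal) * ((k - 1 : ℕ) : NNReal) : NNReal) : ℝ≥0∞))]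
  rw [M_lint 0 (fun k => (((1 / 4 : NNReal) * ((k + 1 + 1 : ℕ) : NNReal) : NNReal) : ℝ≥0∞))]
  rw [M_lint 0 (fun k => (((1 / 4 : NNReal) * ((k - 1 + 1 : ℕ) : NNReal) : NNReal) : ℝ≥0∞))]
  rw [M_lint 0 (fun k => (((1 / 4 : NNReal) * ((k + 1 - 1 : ℕ) : NNReal) : NNReal) : ℝ≥0∞))]
  rw [M_lint 0 (fun k => (((1 / 4 : NNReal) * ((k - 1 - 1 : ℕ) : NNReal) : NNReal) : ℝ≥0∞))]
  simp only [M, lintegral_const, measure_univ, mul_one, pp, qq]
  simp only [← ENNReal.coe_mul, ← ENNReal.coe_add]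
  congr 1
  rw [← NNReal.coe_inj]
  push_cast
  norm_num

lemma V_bound : ((5 / 128 : NNReal) : ℝ≥0∞) ≤ ∫⁻ ω, ENNReal.ofReal (⨅ j, Vv 6 ω j) ∂mu := by
  rw [← M_three]
  apply lintegral_mono
  intro ω
  exact ENNReal.ofReal_le_ofReal (le_ciInf (fun j => V_six ω j))

lemma Sv_meas (n : ℕ) : Measurable (Sv n) :=
  (measurable_of_finite g).comp (measurable_pi_apply n)

lemma map_Sv (n : ℕ) : Measure.map (fun ω : Om => ω n) mu = coin pp qq := by
  have hmp := _root_.measurePreserving_eval_infinitePi (fun _ : ℕ => coin pp qq) n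
  unfold mu
  exact hmp.map_eq

lemma integral_fun (f : Bool → ℝ) : ∫ ω : Om, f (ω 0) ∂mu = (1 / 8) * f true + (7 / 8) * f false := by
  have h2 := integral_map (μ := mu) (φ := fun ω : Om => ω 0) (f := f)
      (measurable_pi_apply _).aemeasurable (measurable_of_finite f).aestronglyMeasurable
  rw [map_Sv] at h2
  rw [← h2]
  unfold coin
  rw [integral_add_measure]
  · rw [integral_smul_measure, integral_smul_measure, integral_dirac, integral_dirac]
    simp [pp, qq]
  · apply Integrable.smul_measure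
    · exact integrable_dirac (by simp)
    · exact ENNReal.coe_ne_top
  · apply Integrable.smul_measure
    · exact integrable_dirac (by simp)
    · exact ENNReal.coe_ne_top

lemma Sv_integral : ∫ ω, Sv 0 ω ∂mu = 29 / 16 := by
  have := integral_fun g
  unfold Sv
  rw [this]
  simp [g]
  norm_num

lemma Sv_memLp : MemLp (Sv 0) 2 mu := by
  apply MemLp.of_bound (Sv_meas 0).aestronglyMeasurable (9/4)
  filter_upwards with ω
  unfold Sv g
  split_ifs <;> norm_num

lemma Sv_variance : variance (Sv 0) mu = 7 / 256 := by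
  rw [variance_eq_sub Sv_memLp, Sv_integral]
  have h := integral_fun (fun b => g b ^ 2)
  have h2 : ∫ ω, ((Sv 0) ^ 2) ω ∂mu = ∫ ω : Om, g (ω 0) ^ 2 ∂mu := rfl
  rw [h2, h]
  simp [g]
  norm_num

lemma Sv_ident (n : ℕ) : IdentDistrib (Sv n) (Sv 0) mu mu := by
  refine ⟨(Sv_meas n).aemeasurable, (Sv_meas 0).aemeasurable, ?_⟩
  have h : ∀ m, Measure.map (Sv m) mu = Measure.map g (coin pp qq) := by
    intro m
    have h1 : Sv m = g ∘ (fun ω : Om => ω m) := rfl
    rw [h1, ← Measure.map_map (measurable_of_finite g) (measurable_pi_apply _), map_Sv]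
  rw [h n, h 0]

lemma indep : iIndepFun (fun (n : ℕ) (ω : Om) => ((1 : ℝ), Sv n ω)) mu :=
  iIndepFun_infinitePi (X := fun (_ : ℕ) (b : Bool) => ((1 : ℝ), g b))
    (P := fun _ : ℕ => coin pp qq) (fun _ => measurable_of_finite _)

end Aux

/-- The negation of the preceding statement: In a FIFO k-server queue with i.i.d. nonnegative interarrival and service times of finite variance and ρ=ES/(kET)<1, started empty, every customer's mean wait is at most (ρ(2−ρ)varT+varS/k²)/(2(1−ρ)ET). -/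
theorem result :
    ¬ (∀ (Ω : Type) [MeasurableSpace Ω] (μ : Measure Ω) [IsProbabilityMeasure μ]
    (k : ℕ) (T S : ℕ → Ω → ℝ) (V : ℕ → Ω → Fin k → ℝ) (ρ : ℝ),
    0 < k →
    (∀ n, Measurable (T n)) → (∀ n, Measurable (S n)) →
    iIndepFun (fun n ω => (T n ω, S n ω)) μ →
    (∀ n, IndepFun (T n) (S n) μ) →
    (∀ n, IdentDistrib (T n) (T 0) μ μ) →
    (∀ n, IdentDistrib (S n) (S 0) μ μ) →
    (∀ n ω, 0 ≤ T n ω) → (∀ n ω, 0 ≤ S n ω) →
    MemLp (T 0) 2 μ → MemLp (S 0) 2 μ →
    0 < ∫ ω, T 0 ω ∂μ →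
    ρ = (∫ ω, S 0 ω ∂μ) / ((k : ℝ) * ∫ ω, T 0 ω ∂μ) →
    ρ < 1 →
    (∀ ω i, V 0 ω i = 0) →
    (∀ n ω, ∃ j : Fin k, (∀ i, V n ω j ≤ V n ω i) ∧
        ∀ i, V (n + 1) ω i = max 0 (V n ω i + (if i = j then S n ω else 0) - T n ω)) →
    ∀ n, ∫⁻ ω, ENNReal.ofReal (⨅ i, V n ω i) ∂μ ≤
      ENNReal.ofReal ((ρ * (2 - ρ) * variance (T 0) μ + variance (S 0) μ / ((k : ℝ) ^ 2)) /
        (2 * (1 - ρ) * ∫ ω, T 0 ω ∂μ))) := by
  intro H
  have key := H Om mu 2 (fun _ _ => 1) Sv Vv (29 / 32) (by norm_num) (fun n => measurable_const)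
    Sv_meas indep (fun n => indepFun_const_left _ _)
    (fun n => IdentDistrib.refl measurable_const.aemeasurable) Sv_ident
    (by intros; norm_num) (by intro n ω; linarith [Sv_ge n ω])
    (memLp_const _) Sv_memLp (by simp) (by rw [Sv_integral]; simp; norm_num) (by norm_num)
    (by intros; rfl)
    (by
      intro n ω
      refine ⟨arg (Vv n ω), arg_le _, ?_⟩
      intro j
      rfl) 6
  rw [Sv_variance] at key
  have hone : ∫ _ω : Om, (1 : ℝ) ∂mu = 1 := by
    rw [integral_const]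
    simp
  have h0 : variance (fun _ : Om => (1 : ℝ)) mu = 0 := by
    rw [variance_eq_sub (memLp_const _)]
    simp only [Pi.pow_apply, one_pow]
    rw [hone]
    norm_num
  rw [h0] at key
  rw [hone] at key
  have h3 := V_bound.trans key
  rw [← ENNReal.ofReal_coe_nnreal, ENNReal.ofReal_le_ofReal_iff] at h3
  · push_cast at h3
    norm_num at h3
  · norm_num

end Pool.Agent.S11674
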