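import Pool.Statements.S11692

set_option autoImplicit false
set_option linter.unusedSectionVars false
set_option linter.deprecated false
open Pool Pool.MP_3394e2_pr

namespace Pool.Agent.S11692

/-!
Outline. Take `m` vertices of degree `99` (the set `S`) and `2m` vertices of degree `3`.
A switching argument shows that a given pair of vertices of degree three is adjacent in at most
a `9 / (93 m - 594)` fraction of the graphs.  Hence for most graphs the number of ordered adjacent
pairs of degree three vertices is smaller than `m`, so that more than `m` vertices of degree three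
have all their neighbours in `S`.  Such a graph has no Hamilton cycle, because along a Hamilton
cycle the successor map would inject these vertices into `S`.
-/

section Gen

variable {V : Type} [Fintype V] [DecidableEq V]

theorem ham_indep {G : SimpleGraph V} (hG : G.IsHamiltonian) (hV : 3 ≤ Fintype.card V)
    (I S : Finset V) (hI : ∀ v ∈ I, ∀ w, G.Adj v w → w ∈ S) : I.card ≤ S.card := by
  obtain ⟨a, p, hp⟩ := hG (by omega)
  have hcyc := hp.isCycle
  have hlen : 3 ≤ p.length := hcyc.three_le_length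
  have hidx : ∀ v, ∃ i, i < p.length ∧ p.getVert i = v := by
    intro v
    obtain ⟨i, hi, hil⟩ := SimpleGraph.Walk.mem_support_iff_exists_getVert.mp (hp.mem_support v)
    rcases Nat.lt_or_ge i p.length with h | h
    · exact ⟨i, h, hi⟩
    · refine ⟨0, by omega, ?_⟩
      have h2 : i = p.length := by omega
      subst h2
      rw [p.getVert_zero, ← hi, p.getVert_length]
  choose f hf1 hf2 using hidx
  apply Finset.card_le_card_of_injOn (fun v => p.getVert (f v + 1))
  · intro v hv
    apply hI v hv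
    have := p.adj_getVert_succ (hf1 v)
    rwa [hf2] at this
  · intro v hv w hw h
    have h1 := hf1 v
    have h2 := hf1 w
    have h3 : f v + 1 = f w + 1 := by
      apply hcyc.getVert_injOn _ _ h
      · simp only [Set.mem_setOf_eq]; omega
      · simp only [Set.mem_setOf_eq]; omega
    have h4 : f v = f w := by omega
    rw [← hf2 v, ← hf2 w, h4]

/-- switching -/
def sw (G : SimpleGraph V) (u v x y : V) : SimpleGraph V where
  Adj a b := (G.Adj a b ∧ s(a, b) ≠ s(u, v) ∧ s(a, b) ≠ s(x, y)) ∨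
    (a ≠ b ∧ (s(a, b) = s(u, x) ∨ s(a, b) = s(v, y)))
  symm := by
    constructor
    intro a b h
    rw [Sym2.eq_swap (a := b) (b := a)]
    rcases h with h | h
    · exact Or.inl ⟨h.1.symm, h.2⟩
    · exact Or.inr ⟨h.1.symm, h.2⟩
  loopless := by
    constructor
    intro a h
    rcases h with h | h
    · exact G.irrefl h.1
    · exact h.1 rfl

/-- validity of a switching -/
structure Valid (G : SimpleGraph V) (u v x y : V) : Prop where
  uv : G.Adj u v
  xy : G.Adj x y
  ux : u ≠ x
  uy : u ≠ y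
  vx : v ≠ x
  vy : v ≠ y
  nux : ¬ G.Adj u x
  nvy : ¬ G.Adj v y

theorem sw_back {G : SimpleGraph V} {u v x y : V} (h : Valid G u v x y) (a b : V) :
    G.Adj a b ↔ ((sw G u v x y).Adj a b ∧ s(a, b) ≠ s(u, x) ∧ s(a, b) ≠ s(v, y)) ∨
      (s(a, b) = s(u, v) ∨ s(a, b) = s(x, y)) := by
  constructor
  · intro hab
    by_cases h1 : s(a, b) = s(u, v)
    · exact Or.inr (Or.inl h1)
    by_cases h2 : s(a, b) = s(x, y)
    · exact Or.inr (Or.inr h2)
    left
    refine ⟨Or.inl ⟨hab, h1, h2⟩, ?_, ?_⟩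
    · intro h3
      rw [Sym2.eq_iff] at h3
      rcases h3 with ⟨rfl, rfl⟩ | ⟨rfl, rfl⟩
      · exact h.nux hab
      · exact h.nux hab.symm
    · intro h3
      rw [Sym2.eq_iff] at h3
      rcases h3 with ⟨rfl, rfl⟩ | ⟨rfl, rfl⟩
      · exact h.nvy hab
      · exact h.nvy hab.symm
  · rintro (⟨h1, h2, h3⟩ | h1 | h1)
    · rcases h1 with h1 | h1
      · exact h1.1
      · rcases h1.2 with h4 | h4
        · exact absurd h4 h2
        · exact absurd h4 h3
    · rw [Sym2.eq_iff] at h1
      rcases h1 with ⟨rfl, rfl⟩ | ⟨rfl, rfl⟩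
      · exact h.uv
      · exact h.uv.symm
    · rw [Sym2.eq_iff] at h1
      rcases h1 with ⟨rfl, rfl⟩ | ⟨rfl, rfl⟩
      · exact h.xy
      · exact h.xy.symm

theorem sw_inj {G H : SimpleGraph V} {u v x y : V} (hG : Valid G u v x y) (hH : Valid H u v x y)
    (h : sw G u v x y = sw H u v x y) : G = H := by
  ext a b
  rw [sw_back hG a b, sw_back hH a b, h]

theorem sw_nu {G : SimpleGraph V} {u v x y : V} (h : Valid G u v x y) :
    (sw G u v x y).neighborSet u = insert x (G.neighborSet u \ {v}) := by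
  have h1 := h.uv.ne
  have h2 := h.xy.ne
  have h3 := h.ux
  have h4 := h.uy
  have h5 := h.vx
  have h6 := h.vy
  have h7 := h.nux
  ext b
  simp only [SimpleGraph.mem_neighborSet, sw, Set.mem_insert_iff, Set.mem_diff,
    Set.mem_singleton_iff, ne_eq, Sym2.eq_iff]
  grind

theorem sw_nv {G : SimpleGraph V} {u v x y : V} (h : Valid G u v x y) :
    (sw G u v x y).neighborSet v = insert y (G.neighborSet v \ {u}) := by
  have h1 := h.uv.ne
  have h2 := h.xy.ne
  have h3 := h.ux
  have h4 := h.uy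
  have h5 := h.vx
  have h6 := h.vy
  have h7 := h.nvy
  ext b
  simp only [SimpleGraph.mem_neighborSet, sw, Set.mem_insert_iff, Set.mem_diff,
    Set.mem_singleton_iff, ne_eq, Sym2.eq_iff]
  grind

theorem sw_nx {G : SimpleGraph V} {u v x y : V} (h : Valid G u v x y) :
    (sw G u v x y).neighborSet x = insert u (G.neighborSet x \ {y}) := by
  have h1 := h.uv.ne
  have h2 := h.xy.ne
  have h3 := h.ux
  have h4 := h.uy
  have h5 := h.vx
  have h6 := h.vy
  have h7 := h.nux
  ext b
  simp only [SimpleGraph.mem_neighborSet, sw, Set.mem_insert_iff, Set.mem_diff,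
    Set.mem_singleton_iff, ne_eq, Sym2.eq_iff]
  grind

theorem sw_ny {G : SimpleGraph V} {u v x y : V} (h : Valid G u v x y) :
    (sw G u v x y).neighborSet y = insert v (G.neighborSet y \ {x}) := by
  have h1 := h.uv.ne
  have h2 := h.xy.ne
  have h3 := h.ux
  have h4 := h.uy
  have h5 := h.vx
  have h6 := h.vy
  have h7 := h.nvy
  ext b
  simp only [SimpleGraph.mem_neighborSet, sw, Set.mem_insert_iff, Set.mem_diff,
    Set.mem_singleton_iff, ne_eq, Sym2.eq_iff]
  grind

theorem sw_no {G : SimpleGraph V} {u v x y a : V} (hu : a ≠ u) (hv : a ≠ v)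
    (hx : a ≠ x) (hy : a ≠ y) :
    (sw G u v x y).neighborSet a = G.neighborSet a := by
  ext b
  simp only [SimpleGraph.mem_neighborSet, sw, ne_eq, Sym2.eq_iff]
  grind

theorem sw_card {G : SimpleGraph V} {u v x y : V} (h : Valid G u v x y) (a : V) :
    ((sw G u v x y).neighborSet a).ncard = (G.neighborSet a).ncard := by
  by_cases hu : a = u
  · subst hu
    rw [sw_nu h]
    exact Set.ncard_exchange h.nux h.uv
  by_cases hv : a = v
  · subst hv
    rw [sw_nv h]
    exact Set.ncard_exchange h.nvy h.uv.symm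
  by_cases hx : a = x
  · subst hx
    rw [sw_nx h]
    exact Set.ncard_exchange (fun h' => h.nux (SimpleGraph.Adj.symm h')) h.xy
  by_cases hy : a = y
  · subst hy
    rw [sw_ny h]
    exact Set.ncard_exchange (fun h' => h.nvy (SimpleGraph.Adj.symm h')) h.xy.symm
  rw [sw_no hu hv hx hy]

open scoped Classical in
/-- neighbours as a finset -/
noncomputable def nb (G : SimpleGraph V) (a : V) : Finset V := Finset.univ.filter (fun b => G.Adj a b)

theorem mem_nb {G : SimpleGraph V} {a b : V} : b ∈ nb G a ↔ G.Adj a b := by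
  classical
  simp [nb]

theorem nb_card (G : SimpleGraph V) (a : V) : (nb G a).card = (G.neighborSet a).ncard := by
  rw [← Set.ncard_coe_finset]
  congr 1
  ext b
  simp [mem_nb]

open scoped Classical in
/-- valid switching pairs -/
noncomputable def vp (G : SimpleGraph V) (S : Finset V) (u v : V) : Finset (V × V) :=
  (S ×ˢ S).filter (fun q => G.Adj q.1 q.2 ∧ ¬ G.Adj u q.1 ∧ ¬ G.Adj v q.2)

open scoped Classical in
theorem switch_count (d : V → ℕ) (u v : V) (S : Finset V) (hu : u ∉ S) (hv : v ∉ S)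
    (K : ℕ) (𝒢 : Finset (SimpleGraph V))
    (h𝒢 : ∀ G, G ∈ 𝒢 ↔ ∀ w, (G.neighborSet w).ncard = d w)
    (hK : ∀ G ∈ 𝒢, G.Adj u v → K ≤ (vp G S u v).card) :
    (𝒢.filter (fun G => G.Adj u v)).card * K ≤ 𝒢.card * (d u * d v) := by
  set A : Finset (Σ _ : SimpleGraph V, V × V) :=
    (𝒢.filter (fun G => G.Adj u v)).sigma (fun G => vp G S u v) with hA
  set B : Finset (Σ _ : SimpleGraph V, V × V) :=
    𝒢.sigma (fun G => nb G u ×ˢ nb G v) with hB
  have hAc : (𝒢.filter (fun G => G.Adj u v)).card * K ≤ A.card := by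
    rw [hA, Finset.card_sigma, ← smul_eq_mul, ← Finset.sum_const]
    apply Finset.sum_le_sum
    intro G hG
    rw [Finset.mem_filter] at hG
    exact hK G hG.1 hG.2
  have hBc : B.card = 𝒢.card * (d u * d v) := by
    rw [hB, Finset.card_sigma, ← smul_eq_mul (a := 𝒢.card), ← Finset.sum_const]
    apply Finset.sum_congr rfl
    intro G hG
    rw [Finset.card_product, nb_card, nb_card, (h𝒢 G).1 hG u, (h𝒢 G).1 hG v]
  have hval : ∀ q ∈ A, Valid q.1 u v q.2.1 q.2.2 := by
    rintro ⟨G, x, y⟩ hq
    rw [hA, Finset.mem_sigma, Finset.mem_filter] at hq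
    obtain ⟨⟨hG, huv⟩, hq⟩ := hq
    simp only [vp, Finset.mem_filter, Finset.mem_product] at hq
    obtain ⟨⟨hx, hy⟩, h1, h2, h3⟩ := hq
    exact ⟨huv, h1, fun h => hu (h ▸ hx), fun h => hu (h ▸ hy), fun h => hv (h ▸ hx),
      fun h => hv (h ▸ hy), h2, h3⟩
  have hle : A.card ≤ B.card := by
    apply Finset.card_le_card_of_injOn (fun q => ⟨sw q.1 u v q.2.1 q.2.2, q.2⟩)
    · intro q hq
      have hV := hval q hq
      have hq1 : q.1 ∈ 𝒢 := by
        have := (Finset.mem_sigma.1 hq).1
        exact (Finset.mem_filter.1 this).1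
      simp only [hB, Finset.coe_sigma, Set.mem_sigma_iff, Finset.mem_coe, Finset.mem_product,
        mem_nb]
      refine ⟨?_, ?_, ?_⟩
      · rw [h𝒢]
        intro w
        rw [sw_card hV, (h𝒢 _).1 hq1 w]
      · exact Or.inr ⟨hV.ux, Or.inl rfl⟩
      · exact Or.inr ⟨hV.vy, Or.inr rfl⟩
    · rintro ⟨G, x, y⟩ hq ⟨H, x', y'⟩ hq' h
      have hV := hval _ hq
      have hV' := hval _ hq'
      simp only [Sigma.mk.injEq, Prod.mk.injEq, heq_eq_eq] at h
      obtain ⟨h1, rfl, rfl⟩ := h
      have := sw_inj hV hV' h1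
      subst this
      rfl
  calc _ ≤ A.card := hAc
    _ ≤ B.card := hle
    _ = _ := hBc

open scoped Classical in
theorem vp_card (G : SimpleGraph V) (S : Finset V) (u v : V) (D m : ℕ)
    (hS : ∀ a ∈ S, (G.neighborSet a).ncard = D) (hL : ∀ a, a ∉ S → (G.neighborSet a).ncard = 3)
    (hD : 3 ≤ D) (hu : u ∉ S) (hv : v ∉ S) (hSc : S.card = m) (hLc : Sᶜ.card = 2 * m) :
    D * m ≤ (vp G S u v).card + 6 * m + 6 * D := by
  have hle : ∀ a, (nb G a).card ≤ D := by
    intro a
    rw [nb_card]
    by_cases ha : a ∈ S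
    · rw [hS a ha]
    · rw [hL a ha]; exact hD
  set P1 : Finset (Σ _ : V, V) := S.sigma (fun x => nb G x)
  set P2 : Finset (Σ _ : V, V) := Sᶜ.sigma (fun x => nb G x)
  set P3 : Finset (Σ _ : V, V) := (nb G u).sigma (fun x => nb G x)
  set P4 : Finset (Σ _ : V, V) := (nb G v).sigma (fun x => nb G x)
  have c1 : P1.card = D * m := by
    rw [Finset.card_sigma, Finset.sum_congr rfl (fun a ha => by rw [nb_card, hS a ha]),
      Finset.sum_const, hSc, smul_eq_mul, mul_comm]
  have c2 : P2.card = 6 * m := by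
    rw [Finset.card_sigma,
      Finset.sum_congr rfl (fun a ha => by rw [nb_card, hL a (Finset.mem_compl.1 ha)]),
      Finset.sum_const, hLc, smul_eq_mul]
    ring
  have c3 : P3.card ≤ 3 * D := by
    rw [Finset.card_sigma]
    calc _ ≤ ∑ a ∈ nb G u, D := Finset.sum_le_sum (fun a _ => hle a)
      _ = _ := by rw [Finset.sum_const, nb_card, hL u hu, smul_eq_mul]
  have c4 : P4.card ≤ 3 * D := by
    rw [Finset.card_sigma]
    calc _ ≤ ∑ a ∈ nb G v, D := Finset.sum_le_sum (fun a _ => hle a)
      _ = _ := by rw [Finset.sum_const, nb_card, hL v hv, smul_eq_mul]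
  -- maps to pairs
  let f : (Σ _ : V, V) → V × V := fun q => (q.1, q.2)
  let g : (Σ _ : V, V) → V × V := fun q => (q.2, q.1)
  have hf : Function.Injective f := by
    rintro ⟨a, b⟩ ⟨a', b'⟩ h
    simp only [f, Prod.mk.injEq] at h
    obtain ⟨rfl, rfl⟩ := h
    rfl
  have hsub : P1.image f ⊆ vp G S u v ∪ (P2.image g ∪ (P3.image f ∪ P4.image g)) := by
    intro q hq
    rw [Finset.mem_image] at hq
    obtain ⟨⟨x, y⟩, hxy, rfl⟩ := hq
    rw [Finset.mem_sigma] at hxy
    obtain ⟨hx, hy⟩ := hxy
    simp only [mem_nb] at hy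
    simp only at hx
    rw [Finset.mem_union, Finset.mem_union, Finset.mem_union]
    by_cases h1 : y ∈ S
    · by_cases h2 : G.Adj u x
      · right; right; left
        exact Finset.mem_image.2 ⟨⟨x, y⟩, Finset.mem_sigma.2 ⟨mem_nb.2 h2, mem_nb.2 hy⟩, rfl⟩
      · by_cases h3 : G.Adj v y
        · right; right; right
          exact Finset.mem_image.2
            ⟨⟨y, x⟩, Finset.mem_sigma.2 ⟨mem_nb.2 h3, mem_nb.2 hy.symm⟩, rfl⟩
        · left
          simp only [vp, Finset.mem_filter, Finset.mem_product]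
          exact ⟨⟨hx, h1⟩, hy, h2, h3⟩
    · right; left
      exact Finset.mem_image.2
        ⟨⟨y, x⟩, Finset.mem_sigma.2 ⟨Finset.mem_compl.2 h1, mem_nb.2 hy.symm⟩, rfl⟩
  have h1 := Finset.card_le_card hsub
  rw [Finset.card_image_of_injective _ hf] at h1
  have h2 := Finset.card_union_le (vp G S u v) (P2.image g ∪ (P3.image f ∪ P4.image g))
  have h3 := Finset.card_union_le (P2.image g) (P3.image f ∪ P4.image g)
  have h4 := Finset.card_union_le (P3.image f) (P4.image g)
  have h5 := Finset.card_image_le (s := P2) (f := g)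
  have h6 := Finset.card_image_le (s := P3) (f := f)
  have h7 := Finset.card_image_le (s := P4) (f := g)
  omega

open scoped Classical in
/-- ordered adjacent pairs outside `S` -/
noncomputable def lp (G : SimpleGraph V) (S : Finset V) : Finset (V × V) :=
  (Sᶜ ×ˢ Sᶜ).filter (fun q => G.Adj q.1 q.2)

open scoped Classical in
theorem lp_card {G : SimpleGraph V} (hG : G.IsHamiltonian) (hV : 3 ≤ Fintype.card V)
    (S : Finset V) (m : ℕ) (hSc : S.card = m) (hLc : Sᶜ.card = 2 * m) :
    m ≤ (lp G S).card := by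
  set I : Finset V := Sᶜ.filter (fun v => ∀ w, G.Adj v w → w ∈ S) with hI
  have h1 : I.card ≤ S.card := ham_indep hG hV I S (fun v hv => (Finset.mem_filter.1 hv).2)
  have h2 : (Sᶜ \ I).card = Sᶜ.card - I.card := Finset.card_sdiff_of_subset (Finset.filter_subset _ _)
  have h3 : ∀ a ∈ Sᶜ \ I, ∃ b, b ∈ Sᶜ ∧ G.Adj a b := by
    intro a ha
    rw [Finset.mem_sdiff, hI, Finset.mem_filter] at ha
    obtain ⟨ha1, ha2⟩ := ha
    by_contra hcon
    push Not at hcon
    apply ha2
    refine ⟨ha1, fun w hw => ?_⟩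
    by_contra hw2
    exact hcon w (Finset.mem_compl.2 hw2) hw
  choose! f hf1 hf2 using h3
  have h4 : (Sᶜ \ I).card ≤ (lp G S).card := by
    apply Finset.card_le_card_of_injOn (fun a => (a, f a))
    · intro a ha
      simp only [lp, Finset.coe_filter, Set.mem_setOf_eq, Finset.mem_product]
      have ha' : a ∈ Sᶜ := (Finset.mem_sdiff.1 ha).1
      exact ⟨⟨ha', hf1 a ha⟩, hf2 a ha⟩
    · intro a _ b _ h
      exact (Prod.mk.inj h).1
  omega

open scoped Classical in
theorem main_count (d : V → ℕ) (S : Finset V) (m : ℕ) (hm : 29 ≤ m)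
    (hSd : ∀ a ∈ S, d a = 99) (hLd : ∀ a, a ∉ S → d a = 3)
    (hSc : S.card = m) (hLc : Sᶜ.card = 2 * m)
    (𝒢 ℋ : Finset (SimpleGraph V))
    (h𝒢 : ∀ G, G ∈ 𝒢 ↔ ∀ w, (G.neighborSet w).ncard = d w)
    (hℋ : ∀ G, G ∈ ℋ ↔ ((∀ w, (G.neighborSet w).ncard = d w) ∧ G.IsHamiltonian))
    (hne : 𝒢.Nonempty) :
    2 * ℋ.card < 𝒢.card := by
  have hV : 3 ≤ Fintype.card V := by
    have := Finset.card_le_univ S
    omega
  set K := 93 * m - 594 with hK
  have hsub : ℋ ⊆ 𝒢 := by
    intro G hG
    rw [h𝒢]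
    exact ((hℋ G).1 hG).1
  have hsw : ∀ u ∈ Sᶜ, ∀ v ∈ Sᶜ, (𝒢.filter (fun G => G.Adj u v)).card * K ≤ 𝒢.card * 9 := by
    intro u hu v hv
    rw [Finset.mem_compl] at hu hv
    have := switch_count d u v S hu hv K 𝒢 h𝒢 ?_
    · rw [hLd u hu, hLd v hv] at this
      exact this
    · intro G hG _
      have hGd := (h𝒢 G).1 hG
      have := vp_card G S u v 99 m (fun a ha => by rw [hGd a, hSd a ha])
        (fun a ha => by rw [hGd a, hLd a ha]) (by norm_num) hu hv hSc hLc
      omega
  have hsum1 : ℋ.card * m ≤ ∑ G ∈ 𝒢, (lp G S).card := by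
    calc ℋ.card * m = ∑ G ∈ ℋ, m := by rw [Finset.sum_const, smul_eq_mul]
      _ ≤ ∑ G ∈ ℋ, (lp G S).card :=
        Finset.sum_le_sum (fun G hG => lp_card ((hℋ G).1 hG).2 hV S m hSc hLc)
      _ ≤ _ := Finset.sum_le_sum_of_subset hsub
  have hsum2 : ∑ G ∈ 𝒢, (lp G S).card
      = ∑ q ∈ Sᶜ ×ˢ Sᶜ, (𝒢.filter (fun G => G.Adj q.1 q.2)).card := by
    have := Finset.sum_card_bipartiteAbove_eq_sum_card_bipartiteBelow
      (s := 𝒢) (t := Sᶜ ×ˢ Sᶜ) (fun (G : SimpleGraph V) (q : V × V) => G.Adj q.1 q.2)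
    exact this
  have hsum3 : (∑ G ∈ 𝒢, (lp G S).card) * K ≤ (2 * m) * (2 * m) * (𝒢.card * 9) := by
    rw [hsum2, Finset.sum_mul]
    calc _ ≤ ∑ q ∈ Sᶜ ×ˢ Sᶜ, 𝒢.card * 9 := by
          apply Finset.sum_le_sum
          intro q hq
          rw [Finset.mem_product] at hq
          exact hsw q.1 hq.1 q.2 hq.2
      _ = _ := by rw [Finset.sum_const, Finset.card_product, hLc, smul_eq_mul]
  have h5 : ℋ.card * m * K ≤ (2 * m) * (2 * m) * (𝒢.card * 9) :=
    (Nat.mul_le_mul_right K hsum1).trans hsum3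
  have h6 : ℋ.card * K ≤ 36 * m * 𝒢.card := by
    have hm0 : 0 < m := by omega
    apply Nat.le_of_mul_le_mul_left _ hm0
    calc m * (ℋ.card * K) = ℋ.card * m * K := by ring
      _ ≤ (2 * m) * (2 * m) * (𝒢.card * 9) := h5
      _ = m * (36 * m * 𝒢.card) := by ring
  have hKm : 72 * m < K := by omega
  have hgpos : 0 < 𝒢.card := Finset.card_pos.2 hne
  rcases Nat.eq_zero_or_pos ℋ.card with h0 | h0
  · omega
  · by_contra hcon
    push Not at hcon
    have h7 : ℋ.card * (72 * m) < ℋ.card * K := Nat.mul_lt_mul_of_pos_left hKm h0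
    have h8 : 36 * m * 𝒢.card ≤ 36 * m * (2 * ℋ.card) := Nat.mul_le_mul_left _ hcon
    have h9 : 36 * m * (2 * ℋ.card) = ℋ.card * (72 * m) := by ring
    omega

end Gen

/-- the vertex model -/
abbrev VM (k : ℕ) : Type := (Fin k × Fin 100) ⊕ (Fin (50 * k) × Fin 4)

/-- the component map -/
def comp (k : ℕ) : VM k → Fin k ⊕ Fin (50 * k)
  | Sum.inl q => Sum.inl q.1
  | Sum.inr q => Sum.inr q.1

/-- disjoint union of complete graphs -/
def base (k n : ℕ) (e : VM k ≃ Fin n) : SimpleGraph (Fin n) where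
  Adj a b := comp k (e.symm a) = comp k (e.symm b) ∧ a ≠ b
  symm := ⟨fun _ _ h => ⟨h.1.symm, h.2.symm⟩⟩
  loopless := ⟨fun _ h => h.2 rfl⟩

theorem base_nbr (k n : ℕ) (e : VM k ≃ Fin n) (a : Fin n) :
    ((base k n e).neighborSet a).ncard = if (e.symm a).isLeft then 99 else 3 := by
  have h1 : (base k n e).neighborSet a = {b | comp k (e.symm b) = comp k (e.symm a)} \ {a} := by
    ext b
    simp only [SimpleGraph.mem_neighborSet, base, Set.mem_diff, Set.mem_setOf_eq,
      Set.mem_singleton_iff]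
    constructor
    · rintro ⟨h, h'⟩; exact ⟨h.symm, fun h2 => h' h2.symm⟩
    · rintro ⟨h, h'⟩; exact ⟨h.symm, fun h2 => h' h2.symm⟩
  have hmem : a ∈ {b | comp k (e.symm b) = comp k (e.symm a)} := rfl
  rw [h1, Set.ncard_diff_singleton_of_mem hmem]
  rcases hc : e.symm a with ⟨i, x⟩ | ⟨i, x⟩
  · have h2 : {b | comp k (e.symm b) = comp k (Sum.inl (i, x))}
        = Set.range (fun y : Fin 100 => e (Sum.inl (i, y))) := by
      ext b
      simp only [Set.mem_setOf_eq, Set.mem_range]
      constructor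
      · intro h
        rcases hb : e.symm b with ⟨j, y⟩ | ⟨j, y⟩
        · rw [hb] at h
          simp only [comp, Sum.inl.injEq] at h
          subst h
          exact ⟨y, by rw [← hb]; simp⟩
        · rw [hb] at h
          simp [comp] at h
      · rintro ⟨y, rfl⟩
        simp [comp]
    have hinj : Function.Injective (fun y : Fin 100 => e (Sum.inl (i, y))) := by
      intro y z h
      simpa using h
    rw [h2, ← Set.image_univ, Set.ncard_image_of_injective _ hinj, Set.ncard_univ]
    simp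
  · have h2 : {b | comp k (e.symm b) = comp k (Sum.inr (i, x))}
        = Set.range (fun y : Fin 4 => e (Sum.inr (i, y))) := by
      ext b
      simp only [Set.mem_setOf_eq, Set.mem_range]
      constructor
      · intro h
        rcases hb : e.symm b with ⟨j, y⟩ | ⟨j, y⟩
        · rw [hb] at h
          simp [comp] at h
        · rw [hb] at h
          simp only [comp, Sum.inr.injEq] at h
          subst h
          exact ⟨y, by rw [← hb]; simp⟩
      · rintro ⟨y, rfl⟩
        simp [comp]
    have hinj : Function.Injective (fun y : Fin 4 => e (Sum.inr (i, y))) := by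
      intro y z h
      simpa using h
    rw [h2, ← Set.image_univ, Set.ncard_image_of_injective _ hinj, Set.ncard_univ]
    simp

/-- The negation of the preceding statement: For each fixed D and ε>0, for all large n and every degree sequence on n vertices with entries between 3 and D, at least a 1−ε fraction of simple graphs with exactly that degree sequence are Hamiltonian. -/
theorem result :
    ¬ (∀ D : ℕ, ∀ ε : ℝ, 0 < ε → ∃ N : ℕ, ∀ n : ℕ, N ≤ n → ∀ d : Fin n → ℕ,
      (∀ i, 3 ≤ d i ∧ d i ≤ D) →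
      (1 - ε) * (({G : SimpleGraph (Fin n) | ∀ v, Nat.card (G.neighborSet v) = d v}.ncard : ℕ) : ℝ)
        ≤ (({G : SimpleGraph (Fin n) |
              (∀ v, Nat.card (G.neighborSet v) = d v) ∧ G.IsHamiltonian}.ncard : ℕ) : ℝ)) := by
  intro h
  obtain ⟨N, hN⟩ := h 99 (1/2) (by norm_num)
  set k := N + 1 with hk
  have hcard : Fintype.card (VM k) = 300 * k := by
    simp only [VM, Fintype.card_sum, Fintype.card_prod, Fintype.card_fin]
    ring
  let e : VM k ≃ Fin (300 * k) := Fintype.equivFinOfCardEq hcard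
  let d : Fin (300 * k) → ℕ := fun i => if (e.symm i).isLeft then 99 else 3
  have hd : ∀ i, 3 ≤ d i ∧ d i ≤ 99 := by
    intro i
    simp only [d]
    split_ifs <;> norm_num
  have hmain := hN (300 * k) (by omega) d hd
  set 𝒢s : Set (SimpleGraph (Fin (300 * k))) := {G | ∀ v, Nat.card (G.neighborSet v) = d v}
    with h𝒢s
  set ℋs : Set (SimpleGraph (Fin (300 * k))) :=
    {G | (∀ v, Nat.card (G.neighborSet v) = d v) ∧ G.IsHamiltonian} with hℋs
  have fin1 : 𝒢s.Finite := Set.toFinite _
  have fin2 : ℋs.Finite := Set.toFinite _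
  let S : Finset (Fin (300 * k)) := Finset.univ.image (fun q : Fin k × Fin 100 => e (Sum.inl q))
  have hSmem : ∀ a, a ∈ S ↔ (e.symm a).isLeft = true := by
    intro a
    simp only [S, Finset.mem_image, Finset.mem_univ, true_and]
    constructor
    · rintro ⟨q, rfl⟩
      simp
    · intro ha
      rcases hc : e.symm a with q | q
      · exact ⟨q, by rw [← hc]; simp⟩
      · rw [hc] at ha
        simp at ha
  have hSc : S.card = 100 * k := by
    rw [Finset.card_image_of_injective _ (fun q q' hq => by simpa using hq)]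
    simp only [Finset.card_univ, Fintype.card_prod, Fintype.card_fin]
    ring
  have hLc : Sᶜ.card = 2 * (100 * k) := by
    rw [Finset.card_compl, hSc, Fintype.card_fin]
    omega
  have hbase : base k (300 * k) e ∈ 𝒢s := by
    intro v
    exact base_nbr k (300 * k) e v
  have key := main_count d S (100 * k) (by omega)
    (fun a ha => by
      have := (hSmem a).1 ha
      simp only [d, this, if_true])
    (fun a ha => by
      have : ¬ ((e.symm a).isLeft = true) := fun h' => ha ((hSmem a).2 h')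
      exact if_neg this)
    hSc hLc fin1.toFinset fin2.toFinset
    (fun G => by rw [Set.Finite.mem_toFinset]; rfl)
    (fun G => by rw [Set.Finite.mem_toFinset]; rfl)
    ⟨_, fin1.mem_toFinset.2 hbase⟩
  rw [Set.ncard_eq_toFinset_card _ fin1, Set.ncard_eq_toFinset_card _ fin2] at hmain
  have key' : (2 : ℝ) * (fin2.toFinset.card : ℝ) < (fin1.toFinset.card : ℝ) := by
    exact_mod_cast key
  linarith

end Pool.Agent.S11692
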