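import Pool.Statements.S11693
import Pool.Agent.Helper384.BpAll

set_option autoImplicit false
open Classical
open Pool Pool.MP_3a7cda_pr

namespace Pool.Agent.S11693

/-- For each r ≥ 1 there are c, C > 0 such that for all large d, the p at which r-neighbour bootstrap percolation on the d-cube from a p-random set fully infects with probability 1/2 lies between exp(−C d^(1/2^(r−1))) and exp(−c d^(1/2^(r−1))). -/
theorem result :
    ∀ r : ℕ, 1 ≤ r → ∃ c C : ℝ, 0 < c ∧ 0 < C ∧ ∃ d₀ : ℕ, ∀ d : ℕ, d₀ ≤ d →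
      ∀ p : ℝ, 0 ≤ p → p ≤ 1 →
        (∑ A : Finset (Fin d → Bool),
          if (∀ S : Finset (Fin d → Bool), A ⊆ S →
                (∀ v : Fin d → Bool,
                  r ≤ (S.filter (fun u => hammingDist u v = 1)).card → v ∈ S) →
                S = Finset.univ)
          then p ^ A.card * (1 - p) ^ (2 ^ d - A.card) else 0) = 1 / 2 →
        Real.exp (-(C * (d : ℝ) ^ ((1 : ℝ) / 2 ^ (r - 1)))) ≤ p ∧
          p ≤ Real.exp (-(c * (d : ℝ) ^ ((1 : ℝ) / 2 ^ (r - 1)))) := by
  intro r hr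
  obtain ⟨C, hC, h1⟩ := Pool.Agent.Helper384.Bp.lower_all r hr
  obtain ⟨c, hc, d₀, h2⟩ := Pool.Agent.Helper384.Bp.upper_all r hr
  refine ⟨c, C, hc, hC, max d₀ 1, fun d hd p hp0 hp1 hsum => ?_⟩
  have hperc : Pool.Agent.Helper384.Bp.percProb d r p = 1 / 2 := by
    rw [← hsum]
    unfold Pool.Agent.Helper384.Bp.percProb
    refine Finset.sum_congr rfl ?_
    intro A _
    by_cases hA : ∀ S : Finset (Fin d → Bool), A ⊆ S →
        (∀ v : Fin d → Bool,
          r ≤ (S.filter (fun u => hammingDist u v = 1)).card → v ∈ S) → S = Finset.univ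
    · have hA' : ∀ S : Finset (Fin d → Bool), A ⊆ S → Pool.Agent.Helper384.Bp.Closed r S →
          S = Finset.univ := fun S h1 h2 => hA S h1 h2
      rw [if_pos hA, if_pos hA']
    · have hA' : ¬ ∀ S : Finset (Fin d → Bool), A ⊆ S → Pool.Agent.Helper384.Bp.Closed r S →
          S = Finset.univ := fun h => hA (fun S h1 h2 => h S h1 h2)
      rw [if_neg hA, if_neg hA']
  exact ⟨h1 d (le_trans (le_max_right _ _) hd) p hp0 hperc,
    h2 d (le_trans (le_max_left _ _) hd) p hp0 hp1 hperc⟩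

end Pool.Agent.S11693
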