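import Pool.Statements.S11695
import Pool.Agent.Helper265.EPRf

set_option autoImplicit false
open Pool Pool.MP_3e5c62_pr

namespace Pool.Agent.S11695

/-- The fraction of labeled graphs on n vertices that admit m,k ≥ 1 and, for each vertex pair, k shortest paths between them using every edge exactly m times in total, tends to 1 as n grows. -/
theorem result :
    Filter.Tendsto (fun n : ℕ =>
      (Nat.card {G : SimpleGraph (Fin n) //
        ∃ m k : ℕ, 1 ≤ m ∧ 1 ≤ k ∧
        ∃ P : ∀ u v : Fin n, Fin k → G.Walk u v,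
          (∀ u v : Fin n, u < v → ∀ t : Fin k,
              (P u v t).IsPath ∧ (P u v t).length = G.dist u v) ∧
          (∀ e ∈ G.edgeSet,
              ∑ u : Fin n, ∑ v ∈ Finset.univ.filter (fun v => u < v), ∑ t : Fin k,
                (P u v t).edges.count e = m)} : ℝ) / (2 : ℝ) ^ (n.choose 2))
      Filter.atTop (nhds 1) := by
  apply Pool.Agent.Helper265.EPR.almost_all (fun (n : ℕ) (G : SimpleGraph (Fin n)) =>
    ∃ m k : ℕ, 1 ≤ m ∧ 1 ≤ k ∧
        ∃ P : ∀ u v : Fin n, Fin k → G.Walk u v,
          (∀ u v : Fin n, u < v → ∀ t : Fin k,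
              (P u v t).IsPath ∧ (P u v t).length = G.dist u v) ∧
          (∀ e ∈ G.edgeSet,
              ∑ u : Fin n, ∑ v ∈ Finset.univ.filter (fun v => u < v), ∑ t : Fin k,
                (P u v t).edges.count e = m))
  intro n G hn hG
  exact Pool.Agent.Helper265.EPR.regular_of_PR G hG le_rfl hn

end Pool.Agent.S11695
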