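import Pool.Statements.S11707

set_option autoImplicit false
set_option linter.unusedSectionVars false
open Pool Pool.MP_542002_pr

namespace Pool.Agent.S11707

open Finset Filter Topology

section Walks
variable {V : Type} (G : SimpleGraph V) [G.LocallyFinite]

/-- number of walks of length `n` from `x` to `v` -/
noncomputable def wc [DecidableEq V] (v : V) : ℕ → V → ℕ
  | 0, x => if x = v then 1 else 0
  | (n+1), x => ∑ y ∈ G.neighborFinset x, wc v n y

theorem natCard_walk [DecidableEq V] (v : V) (n : ℕ) (x : V) :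
    Nat.card {p : G.Walk x v // p.length = n} = wc G v n x := by
  have h : Nat.card {p : G.Walk x v // p.length = n} = #(G.finsetWalkLength n x v) := by
    rw [Nat.card_eq_fintype_card]
    exact G.card_set_walk_length_eq x v n
  rw [h]
  induction n generalizing x with
  | zero =>
    unfold SimpleGraph.finsetWalkLength wc
    split_ifs with hx
    · subst hx; simp
    · simp
  | succ n ih =>
    have ih' : ∀ x, #(G.finsetWalkLength n x v) = wc G v n x := by
      intro x
      apply ih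
      rw [Nat.card_eq_fintype_card]
      exact G.card_set_walk_length_eq x v n
    unfold SimpleGraph.finsetWalkLength wc
    rw [Finset.card_biUnion]
    · simp only [Finset.card_map, ih']
      rw [SimpleGraph.neighborFinset]
      exact Finset.sum_set_coe (G.neighborSet x) (f := fun y => wc G v n y)
    · intro a _ b _ hab
      refine Finset.disjoint_left.2 ?_
      intro p hp hq
      simp only [Finset.mem_map] at hp hq
      obtain ⟨p1, _, h1⟩ := hp
      obtain ⟨p2, _, h2⟩ := hq
      have h3 : SimpleGraph.Walk.cons ((G.mem_neighborSet _ _).1 a.2) p1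
        = SimpleGraph.Walk.cons ((G.mem_neighborSet _ _).1 b.2) p2 := h1.trans h2.symm
      have h4 := congrArg SimpleGraph.Walk.snd h3
      simp only [SimpleGraph.Walk.snd_cons] at h4
      exact hab (Subtype.ext h4)

theorem wc_le [DecidableEq V] (v : V) (d : ℕ) (hd : ∀ x, G.degree x ≤ d) (n : ℕ) (x : V) :
    wc G v n x ≤ d ^ n := by
  induction n generalizing x with
  | zero => unfold wc; split_ifs <;> simp
  | succ n ih =>
    unfold wc
    calc ∑ y ∈ G.neighborFinset x, wc G v n y ≤ ∑ y ∈ G.neighborFinset x, d ^ n :=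
          Finset.sum_le_sum (fun y _ => ih y)
      _ = G.degree x * d ^ n := by simp
      _ ≤ d * d ^ n := Nat.mul_le_mul_right _ (hd x)
      _ = d ^ (n+1) := by ring

theorem wc_adj [DecidableEq V] (v : V) {a b : V} (h : G.Adj a b) (n : ℕ) :
    wc G v n b ≤ wc G v (n+1) a := by
  conv_rhs => unfold wc
  exact Finset.single_le_sum (f := fun y => wc G v n y) (fun _ _ => Nat.zero_le _)
    ((G.mem_neighborFinset a b).2 h)

theorem wc_walk [DecidableEq V] (v : V) {a b : V} (p : G.Walk a b) (n : ℕ) :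
    wc G v n b ≤ wc G v (n + p.length) a := by
  induction p with
  | nil => simp
  | cons h p ih =>
    refine ih.trans ?_
    rw [SimpleGraph.Walk.length_cons, ← add_assoc]
    exact wc_adj G v h _

theorem wc_pos [DecidableEq V] (v : V) {a : V} (p : G.Walk a v) :
    0 < wc G v p.length a := by
  have := wc_walk G v p 0
  have h0 : wc G v 0 v = 1 := by unfold wc; simp
  rw [h0, zero_add] at this
  exact this

end Walks

section Quad
variable {V : Type} (G : SimpleGraph V) [G.LocallyFinite]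

theorem quad_bound (lam : ℝ) (u : V → ℝ) (hu : ∀ x, 0 < u x)
    (hs : ∀ x, ∑ y ∈ G.neighborFinset x, u y ≤ lam * u x) (B : Finset V) (f : V → ℝ) :
    ∑ x ∈ B, ∑ y ∈ B, (open Classical in if G.Adj x y then f x * f y else 0)
      ≤ lam * ∑ x ∈ B, f x ^ 2 := by
  classical
  set a : V → ℝ := fun x => f x / u x with ha
  have hfa : ∀ x, f x = a x * u x := fun x => by
    rw [ha]; field_simp [(hu x).ne']
  have h1 : ∑ x ∈ B, ∑ y ∈ B, (if G.Adj x y then f x * f y else 0)
      ≤ ∑ x ∈ B, ∑ y ∈ B, (if G.Adj x y then (a x ^ 2 * (u x * u y)) / 2 + (a y ^ 2 * (u y * u x)) / 2 else 0) := by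
    refine Finset.sum_le_sum fun x _ => Finset.sum_le_sum fun y _ => ?_
    split_ifs with h
    · rw [hfa x, hfa y]
      have := mul_nonneg (hu x).le (hu y).le
      nlinarith [mul_nonneg this (sq_nonneg (a x - a y))]
    · exact le_rfl
  have h2 : ∑ x ∈ B, ∑ y ∈ B, (if G.Adj x y then (a x ^ 2 * (u x * u y)) / 2 + (a y ^ 2 * (u y * u x)) / 2 else 0)
      = ∑ x ∈ B, ∑ y ∈ B, (if G.Adj x y then (a x ^ 2 * (u x * u y)) else 0) := by
    have e1 : ∑ x ∈ B, ∑ y ∈ B, (if G.Adj x y then (a x ^ 2 * (u x * u y)) / 2 + (a y ^ 2 * (u y * u x)) / 2 else 0)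
      = (∑ x ∈ B, ∑ y ∈ B, (if G.Adj x y then (a x ^ 2 * (u x * u y)) / 2 else 0))
        + ∑ x ∈ B, ∑ y ∈ B, (if G.Adj x y then (a y ^ 2 * (u y * u x)) / 2 else 0) := by
      rw [← Finset.sum_add_distrib]
      refine Finset.sum_congr rfl fun x _ => ?_
      rw [← Finset.sum_add_distrib]
      refine Finset.sum_congr rfl fun y _ => ?_
      split_ifs <;> simp
    have e2 : ∑ x ∈ B, ∑ y ∈ B, (if G.Adj x y then (a y ^ 2 * (u y * u x)) / 2 else 0)
        = ∑ x ∈ B, ∑ y ∈ B, (if G.Adj x y then (a x ^ 2 * (u x * u y)) / 2 else 0) := by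
      rw [Finset.sum_comm]
      refine Finset.sum_congr rfl fun x _ => Finset.sum_congr rfl fun y _ => ?_
      simp only [G.adj_comm]
    rw [e1, e2, ← Finset.sum_add_distrib]
    refine Finset.sum_congr rfl fun x _ => ?_
    rw [← Finset.sum_add_distrib]
    refine Finset.sum_congr rfl fun y _ => ?_
    split_ifs <;> ring
  rw [h2] at h1
  refine h1.trans ?_
  rw [Finset.mul_sum]
  refine Finset.sum_le_sum fun x _ => ?_
  have h3 : ∑ y ∈ B, (if G.Adj x y then (a x ^ 2 * (u x * u y)) else 0)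
      = a x ^ 2 * u x * ∑ y ∈ B, (if G.Adj x y then u y else 0) := by
    rw [Finset.mul_sum]
    refine Finset.sum_congr rfl fun y _ => ?_
    split_ifs <;> ring
  rw [h3]
  have h4 : ∑ y ∈ B, (if G.Adj x y then u y else 0) ≤ ∑ y ∈ G.neighborFinset x, u y := by
    rw [← Finset.sum_filter]
    refine Finset.sum_le_sum_of_subset_of_nonneg ?_ (fun y _ _ => (hu y).le)
    intro y hy
    rw [G.mem_neighborFinset]
    exact (Finset.mem_filter.1 hy).2
  have h5 : a x ^ 2 * u x * ∑ y ∈ B, (if G.Adj x y then u y else 0) ≤ a x ^ 2 * u x * (lam * u x) :=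
    mul_le_mul_of_nonneg_left (h4.trans (hs x)) (mul_nonneg (sq_nonneg _) (hu x).le)
  refine h5.trans (le_of_eq ?_)
  rw [hfa x]; ring

end Quad

section Super
variable {V : Type} (G : SimpleGraph V) [G.LocallyFinite]

theorem exists_super [DecidableEq V] (hc : G.Connected) (v : V) (lam mu : ℝ) (hmu : 0 < mu)
    (hlm : mu < lam) (hb : ∀ᶠ n in Filter.atTop, (wc G v n v : ℝ) ≤ mu ^ n) :
    ∃ u : V → ℝ, (∀ x, 0 < u x) ∧ ∀ x, ∑ y ∈ G.neighborFinset x, u y ≤ lam * u x := by
  have hlam : 0 < lam := hmu.trans hlm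
  have hsum0 : Summable (fun n => (wc G v n v : ℝ) / lam ^ n) := by
    have hg : Summable (fun n : ℕ => (mu / lam) ^ n) :=
      summable_geometric_of_lt_one (by positivity) ((div_lt_one hlam).2 hlm)
    refine Summable.of_norm_bounded_eventually_nat hg ?_
    filter_upwards [hb] with n hn
    rw [Real.norm_of_nonneg (by positivity), div_pow]
    gcongr
  have hsum : ∀ x, Summable (fun n => (wc G v n x : ℝ) / lam ^ n) := by
    intro x
    obtain ⟨p⟩ := hc.preconnected v x
    have h1 : Summable (fun n => lam ^ p.length * ((wc G v (n + p.length) v : ℝ) / lam ^ (n + p.length))) :=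
      ((summable_nat_add_iff p.length).2 hsum0).mul_left _
    refine Summable.of_nonneg_of_le (fun n => by positivity) (fun n => ?_) h1
    have h2 : (wc G v n x : ℝ) ≤ wc G v (n + p.length) v := by exact_mod_cast wc_walk G v p n
    have h3 : lam ^ p.length * ((wc G v (n + p.length) v : ℝ) / lam ^ (n + p.length))
        = (wc G v (n + p.length) v : ℝ) / lam ^ n := by
      rw [pow_add]; field_simp
    rw [h3]
    gcongr
  refine ⟨fun x => ∑' n, (wc G v n x : ℝ) / lam ^ n, fun x => ?_, fun x => ?_⟩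
  · obtain ⟨p⟩ := hc.preconnected x v
    refine (hsum x).tsum_pos (fun n => by positivity) p.length ?_
    have := wc_pos G v p
    positivity
  · have e1 : ∑ y ∈ G.neighborFinset x, ∑' n, (wc G v n y : ℝ) / lam ^ n
        = ∑' n, lam * ((wc G v (n+1) x : ℝ) / lam ^ (n+1)) := by
      rw [← Summable.tsum_finsetSum (fun y _ => hsum y)]
      refine tsum_congr fun n => ?_
      rw [← Finset.sum_div]
      conv_rhs => unfold wc
      push_cast
      rw [pow_succ]; field_simp
    rw [e1, tsum_mul_left]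
    refine mul_le_mul_of_nonneg_left ?_ hlam.le
    show _ ≤ ∑' n, (wc G v n x : ℝ) / lam ^ n
    rw [(hsum x).tsum_eq_zero_add]
    have : (0:ℝ) ≤ (wc G v 0 x : ℝ) / lam ^ 0 := by positivity
    linarith

theorem ev_bound [DecidableEq V] (v : V) (d : ℕ) (hd : 3 ≤ d) (hreg : ∀ x, G.degree x ≤ d)
    (hlim : Filter.limsup (fun n : ℕ => ((wc G v n v : ℝ) / (d : ℝ) ^ n) ^ ((1 : ℝ) / (n : ℝ)))
          Filter.atTop = 2 * Real.sqrt ((d : ℝ) - 1) / (d : ℝ))
    (mu : ℝ) (hmu : 2 * Real.sqrt ((d : ℝ) - 1) < mu) :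
    ∀ᶠ n in Filter.atTop, (wc G v n v : ℝ) ≤ mu ^ n := by
  have hd0 : (0:ℝ) < d := by positivity
  have hmu0 : 0 < mu := lt_of_le_of_lt (by positivity) hmu
  have h1 : ∀ n : ℕ, (wc G v n v : ℝ) / (d : ℝ) ^ n ≤ 1 := by
    intro n
    rw [div_le_one (by positivity)]
    exact_mod_cast wc_le G v d hreg n v
  have hbd : Filter.IsBoundedUnder (· ≤ ·) Filter.atTop
      (fun n : ℕ => ((wc G v n v : ℝ) / (d : ℝ) ^ n) ^ ((1 : ℝ) / (n : ℝ))) :=
    Filter.isBoundedUnder_of ⟨1, fun n => Real.rpow_le_one (by positivity) (h1 n) (by positivity)⟩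
  have hlt : Filter.limsup (fun n : ℕ => ((wc G v n v : ℝ) / (d : ℝ) ^ n) ^ ((1 : ℝ) / (n : ℝ)))
          Filter.atTop < mu / d := by
    rw [hlim]
    gcongr
  have hev := Filter.eventually_lt_of_limsup_lt hlt hbd
  filter_upwards [hev, Filter.eventually_gt_atTop 0] with n hn hn0
  have hr : 0 ≤ (wc G v n v : ℝ) / (d : ℝ) ^ n := by positivity
  have h2 : (((wc G v n v : ℝ) / (d : ℝ) ^ n) ^ ((1 : ℝ) / (n : ℝ))) ^ n = (wc G v n v : ℝ) / (d : ℝ) ^ n := by
    rw [← Real.rpow_natCast, ← Real.rpow_mul hr]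
    have : (1:ℝ) / n * n = 1 := by
      have : (n:ℝ) ≠ 0 := by positivity
      field_simp
    rw [this, Real.rpow_one]
  have h3 : (wc G v n v : ℝ) / (d : ℝ) ^ n ≤ (mu / d) ^ n := by
    rw [← h2]
    exact pow_le_pow_left₀ (by positivity) hn.le n
  rw [div_pow, div_le_div_iff_of_pos_right (by positivity)] at h3
  exact h3

end Super

section Growth
variable {V : Type} (G : SimpleGraph V) [G.LocallyFinite]

theorem exists_parent (hc : G.Connected) (o x : V) (hx : x ≠ o) :
    ∃ y, G.Adj x y ∧ G.dist o y + 1 = G.dist o x := by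
  obtain ⟨p, hp⟩ := hc.exists_walk_length_eq_dist x o
  cases p with
  | nil => exact absurd rfl hx
  | cons h p =>
    rename_i y
    refine ⟨y, h, ?_⟩
    rw [SimpleGraph.Walk.length_cons] at hp
    have h1 : G.dist y o ≤ p.length := G.dist_le p
    have h2 : G.dist x o ≤ G.dist x y + G.dist y o := hc.dist_triangle
    have h3 : G.dist x y = 1 := SimpleGraph.dist_eq_one_iff_adj.2 h
    rw [G.dist_comm (u := o), G.dist_comm (u := o)]
    omega

theorem ball_finite (hc : G.Connected) (o : V) (n : ℕ) : {x | G.dist o x ≤ n}.Finite := by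
  induction n with
  | zero =>
    refine (Set.finite_singleton o).subset fun x hx => ?_
    have : G.dist o x = 0 := by simpa using hx
    rw [hc.dist_eq_zero_iff] at this
    exact this.symm
  | succ n ih =>
    refine (ih.union (ih.biUnion (fun y _ => (G.neighborSet y).toFinite))).subset fun x hx => ?_
    by_cases hxo : x = o
    · left; subst hxo; simp
    · obtain ⟨y, h1, h2⟩ := exists_parent G hc o x hxo
      right
      simp only [Set.mem_iUnion]
      have hx' : G.dist o x ≤ n + 1 := hx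
      exact ⟨y, by simp only [Set.mem_ofPred_eq]; omega, h1.symm⟩

theorem adj_dist (hc : G.Connected) (o : V) {x y : V} (h : G.Adj x y) :
    G.dist o x ≤ G.dist o y + 1 := by
  have h2 : G.dist o x ≤ G.dist o y + G.dist y x := hc.dist_triangle
  have h3 : G.dist y x = 1 := SimpleGraph.dist_eq_one_iff_adj.2 h.symm
  omega

/-- the ball as a finset -/
noncomputable def ball (hc : G.Connected) (o : V) (n : ℕ) : Finset V := (ball_finite G hc o n).toFinset

theorem mem_ball (hc : G.Connected) (o : V) (n : ℕ) (x : V) : x ∈ ball G hc o n ↔ G.dist o x ≤ n := by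
  simp [ball]

open Classical in
/-- the sphere as a finset -/
noncomputable def sph (hc : G.Connected) (o : V) (n : ℕ) : Finset V :=
  (ball G hc o n).filter (fun x => G.dist o x = n)

theorem sum_symm (B : Finset V) (F : V → V → ℝ) :
    ∑ x ∈ B, ∑ y ∈ B, (open Classical in if G.Adj x y then F x y + F y x else 0)
      = 2 * ∑ x ∈ B, ∑ y ∈ B, (open Classical in if G.Adj x y then F x y else 0) := by
  classical
  have e2 : ∑ x ∈ B, ∑ y ∈ B, (if G.Adj x y then F y x else 0)
        = ∑ x ∈ B, ∑ y ∈ B, (if G.Adj x y then F x y else 0) := by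
      rw [Finset.sum_comm]
      refine Finset.sum_congr rfl fun x _ => Finset.sum_congr rfl fun y _ => ?_
      simp only [G.adj_comm]
  have e1 : ∑ x ∈ B, ∑ y ∈ B, (if G.Adj x y then F x y + F y x else 0)
      = (∑ x ∈ B, ∑ y ∈ B, (if G.Adj x y then F x y else 0))
        + ∑ x ∈ B, ∑ y ∈ B, (if G.Adj x y then F y x else 0) := by
      rw [← Finset.sum_add_distrib]
      refine Finset.sum_congr rfl fun x _ => ?_
      rw [← Finset.sum_add_distrib]
      refine Finset.sum_congr rfl fun y _ => ?_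
      split_ifs <;> simp
  rw [e1, e2]; ring

theorem mem_sph (hc : G.Connected) (o : V) (n : ℕ) (x : V) : x ∈ sph G hc o n ↔ G.dist o x = n := by
  simp only [sph, Finset.mem_filter, mem_ball]
  exact ⟨fun h => h.2, fun h => ⟨h.le, h⟩⟩

/-- Growth: the quadratic form bound forces full exponential growth. -/
theorem growth (hc : G.Connected) (o : V) (d : ℕ) (hd : 3 ≤ d) (hreg : ∀ x, G.degree x = d)
    (hq : ∀ (B : Finset V) (f : V → ℝ),
      ∑ x ∈ B, ∑ y ∈ B, (open Classical in if G.Adj x y then f x * f y else 0)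
      ≤ 2 * Real.sqrt ((d : ℝ) - 1) * ∑ x ∈ B, f x ^ 2) :
    ∃ c : ℝ, 0 < c ∧ ∀ N : ℕ, 1 ≤ N → c * ((d:ℝ) - 1) ^ N ≤ #(sph G hc o N) := by
  classical
  have hd3 : (3:ℝ) ≤ d := by exact_mod_cast hd
  set q : ℝ := (d:ℝ) - 1 with hqdef
  have hq2 : 2 ≤ q := by rw [hqdef]; linarith
  set s : ℝ := Real.sqrt q with hsdef
  have hs0 : 0 < s := Real.sqrt_pos.2 (by linarith)
  have hss : s ^ 2 = q := Real.sq_sqrt (by linarith)
  set r : ℝ := s⁻¹ with hrdef
  have hr0 : 0 < r := inv_pos.2 hs0
  have hrs : r * s = 1 := inv_mul_cancel₀ hs0.ne'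
  set k : ℝ := s / (s ^ 2 + 1) with hkdef
  have hk0 : 0 < k := by positivity
  have hk1 : k * (s ^ 2 + 1) = s := by rw [hkdef]; field_simp
  have hk2 : k * (1 + r ^ 2) = r := by
    have : k * (1 + r^2) * s^2 = r * s^2 := by
      calc k * (1 + r^2) * s^2 = k * (s^2 + (r*s)^2) := by ring
        _ = k * (s^2+1) := by rw [hrs]; ring
        _ = s := hk1
        _ = (r * s) * s := by rw [hrs]; ring
        _ = r * s^2 := by ring
    exact mul_right_cancel₀ (by positivity) this
  have hk3 : 2 * k ≤ 1 := by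
    have h1 : 2 * k * (s^2+1) ≤ 1 * (s^2 + 1) := by
      calc 2 * k * (s^2+1) = 2 * s := by rw [mul_assoc, hk1]
        _ ≤ 1 * (s^2+1) := by nlinarith [sq_nonneg (s-1)]
    exact le_of_mul_le_mul_right h1 (by positivity)
  set t : ℝ := 3/2 with htdef
  set c0 : ℝ := t * r - k * (1 + t^2 * r^2) with hc0
  have hc0pos : 0 < c0 := by
    have h1 : c0 * s^2 = k * ((t - 1) * (q - t)) := by
      calc c0 * s^2 = t * (r * s^2) - k * (s^2 + t^2 * (r*s)^2) := by rw [hc0]; ring
        _ = t * (k * (1+r^2) * s^2) - k * (s^2 + t^2) := by rw [hk2, hrs]; ring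
        _ = t * (k * (s^2 + (r*s)^2)) - k * (s^2 + t^2) := by ring
        _ = k * ((t-1)*(q-t)) := by rw [hrs, hss]; ring
    have h2 : 0 < k * ((t - 1) * (q - t)) := by
      apply mul_pos hk0
      apply mul_pos <;> rw [htdef] <;> linarith
    rw [← h1] at h2
    exact pos_of_mul_pos_left h2 (by positivity)
  refine ⟨c0 / (k * t^2), by positivity, fun N hN => ?_⟩
  set cN : ℝ := k * t^2 * r^(2*N) with hcN
  have hcNpos : 0 < cN := by positivity
  -- test function
  set f : V → ℝ := fun x => if x = o then 1 else if G.dist o x ≤ N then t * r ^ (G.dist o x) else 0 with hf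
  set B := ball G hc o (N+1) with hB
  set T : V → V → ℝ := fun x y => f x * f y - k * (f x ^ 2 + f y ^ 2) with hT
  set L : V → V → ℝ := fun x y => c0 * ((if x = o then 1 else 0) + (if y = o then 1 else 0))
    - cN * ((if G.dist o x = N ∧ G.dist o y = N+1 then 1 else 0) + (if G.dist o y = N ∧ G.dist o x = N+1 then 1 else 0)) with hL
  have hfo : f o = 1 := by simp [hf]
  have hf1 : ∀ x, x ≠ o → G.dist o x ≤ N → f x = t * r ^ (G.dist o x) := by
    intro x hx hxN; simp [hf, hx, hxN]
  have hf2 : ∀ x, x ≠ o → N < G.dist o x → f x = 0 := by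
    intro x hx hxN; simp [hf, hx, Nat.not_le.2 hxN]
  have hdo : ∀ x, x ≠ o → 1 ≤ G.dist o x := by
    intro x hx
    exact hc.pos_dist_of_ne (Ne.symm hx)
  have hoo : G.dist o o = 0 := G.dist_self
  -- pointwise bound, ordered case
  have key : ∀ x y, G.Adj x y → G.dist o x ≤ G.dist o y → L x y ≤ T x y := by
    intro x y hxy hle
    have hle2 := adj_dist G hc o hxy.symm
    by_cases hx : x = o
    · subst hx
      have hyx : y ≠ x := hxy.ne'
      have hy1 : G.dist x y = 1 := SimpleGraph.dist_eq_one_iff_adj.2 hxy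
      have e1 : L x y = c0 := by
        simp only [hL, hyx, hy1, hoo]
        have h1 : ¬ (0 = N ∧ 1 = N + 1) := by omega
        have h2 : ¬ (1 = N ∧ 0 = N + 1) := by omega
        simp only [h1, h2, if_true, if_false]
        ring
      have e2 : T x y = c0 := by
        simp only [hT, hfo, hf1 y hyx (by omega), hy1, hc0]
        ring
      rw [e1, e2]
    · have hyo : y ≠ o := by
        intro hy
        subst hy
        have := hdo x hx
        omega
      have hL1 : L x y = - cN * ((if G.dist o x = N ∧ G.dist o y = N+1 then 1 else 0) + (if G.dist o y = N ∧ G.dist o x = N+1 then 1 else 0)) := by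
        simp only [hL, hx, hyo]; simp
      have h2 : ¬ (G.dist o y = N ∧ G.dist o x = N + 1) := by omega
      rw [hL1]
      simp only [h2, if_false, add_zero]
      by_cases hyN : G.dist o y ≤ N
      · have h1 : ¬ (G.dist o x = N ∧ G.dist o y = N + 1) := by omega
        simp only [h1, if_false, mul_zero]
        have hfx := hf1 x hx (by omega)
        have hfy := hf1 y hyo hyN
        rcases Nat.lt_or_ge (G.dist o x) (G.dist o y) with hlt | hge
        · have he : G.dist o y = G.dist o x + 1 := by omega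
          have : T x y = t^2 * r^(2 * G.dist o x) * (r - k * (1 + r^2)) := by
            simp only [hT, hfx, hfy, he]; ring
          rw [this, hk2]; simp
        · have he : G.dist o y = G.dist o x := by omega
          have : T x y = t^2 * r^(2 * G.dist o x) * (1 - 2 * k) := by
            simp only [hT, hfx, hfy, he]; ring
          rw [this]
          have : 0 ≤ 1 - 2 * k := by linarith
          positivity
      · have hfy := hf2 y hyo (by omega)
        by_cases hxN : G.dist o x ≤ N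
        · have h1 : (G.dist o x = N ∧ G.dist o y = N + 1) := by omega
          have hfx := hf1 x hx hxN
          simp only [h1, if_true, mul_one]
          have : T x y = -cN := by
            simp only [hT, hfx, hfy, h1.1, hcN]; ring
          rw [this]; simp
        · have h1 : ¬ (G.dist o x = N ∧ G.dist o y = N + 1) := by omega
          have hfx := hf2 x hx (by omega)
          simp only [h1, if_false, mul_zero]
          simp [hT, hfx, hfy]
  have hTs : ∀ x y, T x y = T y x := by intro x y; simp only [hT]; ring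
  have hLs : ∀ x y, L x y = L y x := by intro x y; simp only [hL]; ring
  have key2 : ∀ x y, G.Adj x y → L x y ≤ T x y := by
    intro x y hxy
    rcases le_total (G.dist o x) (G.dist o y) with h | h
    · exact key x y hxy h
    · rw [hLs, hTs]; exact key y x hxy.symm h
  have hsumLT : ∑ x ∈ B, ∑ y ∈ B, (if G.Adj x y then L x y else 0) ≤ ∑ x ∈ B, ∑ y ∈ B, (if G.Adj x y then T x y else 0) := by
    refine Finset.sum_le_sum fun x _ => Finset.sum_le_sum fun y _ => ?_
    split_ifs with h
    · exact key2 x y h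
    · exact le_rfl
  set T1 : V → V → ℝ := fun x y => f x * f y / 2 - k * f x ^ 2 with hT1
  set L1 : V → V → ℝ := fun x y => c0 * (if x = o then 1 else 0)
    - cN * (if G.dist o x = N ∧ G.dist o y = N+1 then 1 else 0) with hL1
  have eT : ∀ x y, T x y = T1 x y + T1 y x := by intro x y; simp only [hT, hT1]; ring
  have eL : ∀ x y, L x y = L1 x y + L1 y x := by intro x y; simp only [hL, hL1]; ring
  simp only [eT, eL] at hsumLT
  rw [sum_symm, sum_symm] at hsumLT
  have hsum2 : ∑ x ∈ B, ∑ y ∈ B, (if G.Adj x y then L1 x y else 0) ≤ ∑ x ∈ B, ∑ y ∈ B, (if G.Adj x y then T1 x y else 0) := by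
    linarith
  -- neighbours of points of the smaller ball
  have hnb : ∀ x, G.dist o x ≤ N → ∑ y ∈ B, (if G.Adj x y then (1:ℝ) else 0) = d := by
    intro x hx
    rw [← Finset.sum_filter, Finset.sum_const, nsmul_eq_mul, mul_one]
    have : B.filter (fun y => G.Adj x y) = G.neighborFinset x := by
      ext y
      rw [Finset.mem_filter, G.mem_neighborFinset]
      constructor
      · exact fun h => h.2
      · intro h
        refine ⟨?_, h⟩
        rw [hB, mem_ball]
        have := adj_dist G hc o h.symm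
        omega
    rw [this, G.card_neighborFinset_eq_degree, hreg]
  have hnb2 : ∀ x, ∑ y ∈ B, (if G.Adj x y then (1:ℝ) else 0) ≤ d := by
    intro x
    rw [← Finset.sum_filter, Finset.sum_const, nsmul_eq_mul, mul_one]
    have : B.filter (fun y => G.Adj x y) ⊆ G.neighborFinset x := by
      intro y
      rw [Finset.mem_filter, G.mem_neighborFinset]
      exact fun h => h.2
    have h2 := Finset.card_le_card this
    rw [G.card_neighborFinset_eq_degree, hreg] at h2
    exact_mod_cast h2
  have hTle : ∑ x ∈ B, ∑ y ∈ B, (if G.Adj x y then T1 x y else 0) ≤ 0 := by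
    have e1 : ∑ x ∈ B, ∑ y ∈ B, (if G.Adj x y then T1 x y else 0)
      = (∑ x ∈ B, ∑ y ∈ B, (if G.Adj x y then f x * f y else 0)) / 2
        - k * ∑ x ∈ B, f x ^ 2 * ∑ y ∈ B, (if G.Adj x y then (1:ℝ) else 0) := by
      rw [Finset.sum_div, Finset.mul_sum, ← Finset.sum_sub_distrib]
      refine Finset.sum_congr rfl fun x _ => ?_
      rw [Finset.sum_div, Finset.mul_sum, Finset.mul_sum, ← Finset.sum_sub_distrib]
      refine Finset.sum_congr rfl fun y _ => ?_
      split_ifs
      · simp only [hT1]; ring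
      · simp
    have e2 : ∀ x ∈ B, f x ^ 2 * ∑ y ∈ B, (if G.Adj x y then (1:ℝ) else 0) = f x ^ 2 * d := by
      intro x _
      by_cases hx : G.dist o x ≤ N
      · rw [hnb x hx]
      · have hxo : x ≠ o := by
          intro h; subst h; omega
        rw [hf2 x hxo (by omega)]; simp
    rw [e1, Finset.sum_congr rfl e2, ← Finset.sum_mul]
    have h1 := hq B f
    have h2 : k * ((∑ x ∈ B, f x ^ 2) * d) = s * (∑ x ∈ B, f x ^ 2) := by
      have : (d:ℝ) = s^2 + 1 := by rw [hss, hqdef]; ring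
      rw [this]
      calc k * ((∑ x ∈ B, f x ^ 2) * (s^2+1)) = (k * (s^2+1)) * (∑ x ∈ B, f x ^ 2) := by ring
        _ = _ := by rw [hk1]
    rw [h2]
    linarith
  have hLge : d * c0 - cN * (#(sph G hc o N) * d) ≤ ∑ x ∈ B, ∑ y ∈ B, (if G.Adj x y then L1 x y else 0) := by
    have e1 : ∑ x ∈ B, ∑ y ∈ B, (if G.Adj x y then L1 x y else 0)
      = c0 * (∑ x ∈ B, (if x = o then 1 else 0) * ∑ y ∈ B, (if G.Adj x y then (1:ℝ) else 0))
        - cN * ∑ x ∈ B, ∑ y ∈ B, (if G.Adj x y then (if G.dist o x = N ∧ G.dist o y = N+1 then (1:ℝ) else 0) else 0) := by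
      rw [Finset.mul_sum, Finset.mul_sum, ← Finset.sum_sub_distrib]
      refine Finset.sum_congr rfl fun x _ => ?_
      rw [Finset.mul_sum, Finset.mul_sum, Finset.mul_sum, ← Finset.sum_sub_distrib]
      refine Finset.sum_congr rfl fun y _ => ?_
      by_cases hA : G.Adj x y
      · simp only [hA, if_true, hL1, mul_one]
      · simp only [hA, if_false, mul_zero, sub_zero]
    have e2 : ∑ x ∈ B, (if x = o then (1:ℝ) else 0) * ∑ y ∈ B, (if G.Adj x y then (1:ℝ) else 0) = d := by
      rw [Finset.sum_eq_single o]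
      · rw [if_pos rfl, one_mul, hnb o (by rw [hoo]; omega)]
      · intro b _ hb; simp [hb]
      · intro ho
        exact absurd ((mem_ball G hc o (N+1) o).2 (by rw [hoo]; omega)) ho
    have e3 : ∑ x ∈ B, ∑ y ∈ B, (if G.Adj x y then (if G.dist o x = N ∧ G.dist o y = N+1 then (1:ℝ) else 0) else 0)
        ≤ #(sph G hc o N) * d := by
      calc ∑ x ∈ B, ∑ y ∈ B, (if G.Adj x y then (if G.dist o x = N ∧ G.dist o y = N+1 then (1:ℝ) else 0) else 0)
          ≤ ∑ x ∈ B, (if G.dist o x = N then (d:ℝ) else 0) := by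
            refine Finset.sum_le_sum fun x _ => ?_
            split_ifs with hx
            · refine le_trans (Finset.sum_le_sum fun y _ => ?_) (hnb2 x)
              split_ifs <;> simp
            · apply le_of_eq
              apply Finset.sum_eq_zero
              intro y _
              have hx2 : ¬ (G.dist o x = N ∧ G.dist o y = N + 1) := fun h => hx h.1
              simp only [hx2, if_false, ite_self]
        _ = ∑ x ∈ B.filter (fun x => G.dist o x = N), (d:ℝ) := by rw [Finset.sum_filter]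
        _ ≤ _ := by
            rw [Finset.sum_const, nsmul_eq_mul]
            gcongr
            intro x hx
            rw [mem_sph]
            exact (Finset.mem_filter.1 hx).2
    rw [e1, e2]
    have := mul_le_mul_of_nonneg_left e3 hcNpos.le
    linarith
  have hfin : d * c0 ≤ cN * (#(sph G hc o N) * d) := by linarith
  have hd0 : (0:ℝ) < d := by linarith
  have h5 : c0 ≤ cN * #(sph G hc o N) := by
    have : c0 * d ≤ (cN * #(sph G hc o N)) * d := by linarith
    exact le_of_mul_le_mul_right this hd0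
  rw [div_mul_eq_mul_div, div_le_iff₀ (by positivity)]
  have h6 : cN * q ^ N = k * t^2 := by
    rw [hcN, ← hss, ← pow_mul]
    calc k * t^2 * r^(2*N) * s^(2*N) = k * t^2 * (r * s)^(2*N) := by rw [mul_pow]; ring
      _ = k * t^2 := by rw [hrs]; simp
  calc c0 * q^N ≤ cN * #(sph G hc o N) * q^N := by gcongr
    _ = #(sph G hc o N) * (cN * q^N) := by ring
    _ = _ := by rw [h6]

end Growth

section NB
variable {V : Type} (G : SimpleGraph V) [G.LocallyFinite]

open Classical in
/-- non-backtracking averaging operator -/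
noncomputable def Bop (q : ℝ) (u : V → V → ℝ) : V → V → ℝ :=
  fun x y => (∑ z ∈ (G.neighborFinset y).erase x, u y z) / q

theorem Bop_mono (q : ℝ) (hq : 0 < q) (u w : V → V → ℝ) (h : ∀ x y, G.Adj x y → u x y ≤ w x y)
    (x y : V) : Bop G q u x y ≤ Bop G q w x y := by
  classical
  unfold Bop
  gcongr with z hz
  exact h y z ((G.mem_neighborFinset y z).1 (Finset.mem_of_mem_erase hz))

theorem Bop_add (q : ℝ) (u w : V → V → ℝ) (x y : V) :
    Bop G q (fun a b => u a b + w a b) x y = Bop G q u x y + Bop G q w x y := by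
  classical
  unfold Bop
  rw [Finset.sum_add_distrib, add_div]

theorem Bop_one (d : ℕ) (hd : 3 ≤ d) (hreg : ∀ x, G.degree x = d) (x y : V) (h : G.Adj x y) :
    Bop G ((d:ℝ)-1) (fun _ _ => 1) x y = 1 := by
  classical
  unfold Bop
  rw [Finset.sum_const, nsmul_eq_mul, mul_one, Finset.card_erase_of_mem ((G.mem_neighborFinset y x).2 h.symm),
    G.card_neighborFinset_eq_degree, hreg]
  have : (3:ℝ) ≤ d := by exact_mod_cast hd
  rw [Nat.cast_sub (by omega)]
  simp only [Nat.cast_one]
  exact div_self (by linarith)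

theorem harmonic_of_fixed (d : ℕ) (hd : 3 ≤ d) (hreg : ∀ x, G.degree x = d) (u : V → V → ℝ)
    (hu : ∀ x y, G.Adj x y → u x y = Bop G ((d:ℝ)-1) u x y) :
    (∀ x y, G.Adj x y → ((d:ℝ)-1) * u x y + u y x = ∑ z ∈ G.neighborFinset y, u y z) ∧
    ∀ x, (d:ℝ) * (∑ z ∈ G.neighborFinset x, u x z) = ∑ y ∈ G.neighborFinset x, ∑ z ∈ G.neighborFinset y, u y z := by
  classical
  have hd3 : (3:ℝ) ≤ d := by exact_mod_cast hd
  have E1 : ∀ x y, G.Adj x y → ((d:ℝ)-1) * u x y + u y x = ∑ z ∈ G.neighborFinset y, u y z := by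
    intro x y h
    have h1 := hu x y h
    unfold Bop at h1
    rw [eq_div_iff (by linarith)] at h1
    have h2 := Finset.add_sum_erase (G.neighborFinset y) (fun z => u y z) ((G.mem_neighborFinset y x).2 h.symm)
    rw [← h2, ← h1]; ring
  refine ⟨E1, fun x => ?_⟩
  have s1 : ((d:ℝ)-1) * (∑ y ∈ G.neighborFinset x, u x y) + ∑ y ∈ G.neighborFinset x, u y x
      = ∑ y ∈ G.neighborFinset x, ∑ z ∈ G.neighborFinset y, u y z := by
    rw [Finset.mul_sum, ← Finset.sum_add_distrib]
    exact Finset.sum_congr rfl fun y hy => E1 x y ((G.mem_neighborFinset x y).1 hy)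
  have s2 : ((d:ℝ)-1) * (∑ y ∈ G.neighborFinset x, u y x) + ∑ y ∈ G.neighborFinset x, u x y
      = d * ∑ z ∈ G.neighborFinset x, u x z := by
    rw [Finset.mul_sum, ← Finset.sum_add_distrib]
    rw [Finset.sum_congr rfl fun y hy => E1 y x ((G.mem_neighborFinset x y).1 hy).symm]
    rw [Finset.sum_const, nsmul_eq_mul, G.card_neighborFinset_eq_degree, hreg]
  have s3 : ∑ y ∈ G.neighborFinset x, u y x = ∑ y ∈ G.neighborFinset x, u x y := by
    have : ((d:ℝ)-1) * (∑ y ∈ G.neighborFinset x, u y x) = ((d:ℝ)-1) * (∑ y ∈ G.neighborFinset x, u x y) := by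
      linarith
    exact mul_left_cancel₀ (by linarith) this
  rw [← s1, s3]; ring

open Classical in
/-- children of `y` in the tree given by the parent map -/
noncomputable def ch (o : V) (par : V → V) (y : V) : Finset V :=
  (G.neighborFinset y).filter (fun z => z ≠ o ∧ par z = y)

/-- renormalised number of descendants in generation `n` -/
noncomputable def DD (q : ℝ) (o : V) (par : V → V) : ℕ → V → ℝ
  | 0, _ => 1
  | (n+1), y => (∑ z ∈ ch G o par y, DD q o par n z) / q

variable (o : V) (par : V → V) (hpar : ∀ x, x ≠ o → G.Adj x (par x) ∧ G.dist o (par x) + 1 = G.dist o x)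

include hpar in
theorem mem_ch (y z : V) : z ∈ ch G o par y ↔ (z ≠ o ∧ par z = y) := by
  classical
  unfold ch
  rw [Finset.mem_filter, G.mem_neighborFinset]
  constructor
  · exact fun h => h.2
  · rintro ⟨h1, h2⟩
    refine ⟨?_, h1, h2⟩
    have := (hpar z h1).1
    rw [h2] at this
    exact this.symm

include hpar in
theorem ch_card (d : ℕ) (hreg : ∀ x, G.degree x = d) (y : V) (hy : y ≠ o) :
    #(ch G o par y) ≤ d - 1 := by
  classical
  have h1 : ch G o par y ⊆ (G.neighborFinset y).erase (par y) := by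
    intro z hz
    have hz1 := (mem_ch G o par hpar y z).1 hz
    rw [Finset.mem_erase]
    refine ⟨?_, ?_⟩
    · rintro rfl
      have a1 := (hpar _ hz1.1).2
      have a2 := (hpar y hy).2
      rw [hz1.2] at a1
      omega
    · unfold ch at hz
      exact (Finset.mem_filter.1 hz).1
  have h2 := Finset.card_le_card h1
  rw [Finset.card_erase_of_mem ((G.mem_neighborFinset y _).2 (hpar y hy).1),
    G.card_neighborFinset_eq_degree, hreg] at h2
  exact h2

theorem DD_nonneg (q : ℝ) (hq : 0 < q) (n : ℕ) (y : V) : 0 ≤ DD G q o par n y := by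
  induction n generalizing y with
  | zero => simp [DD]
  | succ n ih =>
    simp only [DD]
    exact div_nonneg (Finset.sum_nonneg fun z _ => ih z) hq.le

include hpar in
theorem DD_anti_step (d : ℕ) (hd : 3 ≤ d) (hreg : ∀ x, G.degree x = d) (n : ℕ) (y : V) (hy : y ≠ o) :
    DD G ((d:ℝ)-1) o par (n+1) y ≤ DD G ((d:ℝ)-1) o par n y := by
  have hd3 : (3:ℝ) ≤ d := by exact_mod_cast hd
  induction n generalizing y with
  | zero =>
    simp only [DD]
    rw [Finset.sum_const, nsmul_eq_mul, mul_one, div_le_one (by linarith)]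
    have h := ch_card G o par hpar d hreg y hy
    have h2 : (#(ch G o par y) : ℝ) ≤ ((d - 1 : ℕ) : ℝ) := by exact_mod_cast h
    rw [Nat.cast_sub (by omega)] at h2
    simpa using h2
  | succ n ih =>
    show (∑ z ∈ ch G o par y, DD G ((d:ℝ)-1) o par (n+1) z) / ((d:ℝ)-1)
      ≤ (∑ z ∈ ch G o par y, DD G ((d:ℝ)-1) o par n z) / ((d:ℝ)-1)
    have : 0 < (d:ℝ) - 1 := by linarith
    gcongr with z hz
    exact ih z ((mem_ch G o par hpar y z).1 hz).1

include hpar in
theorem DD_antitone (d : ℕ) (hd : 3 ≤ d) (hreg : ∀ x, G.degree x = d) (y : V) (hy : y ≠ o) :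
    Antitone (fun n => DD G ((d:ℝ)-1) o par n y) :=
  antitone_nat_of_succ_le fun n => DD_anti_step G o par hpar d hd hreg n y hy

/-- limit density -/
noncomputable def Dl (q : ℝ) (y : V) : ℝ := ⨅ n, DD G q o par n y

include hpar in
theorem Dl_tendsto (d : ℕ) (hd : 3 ≤ d) (hreg : ∀ x, G.degree x = d) (y : V) (hy : y ≠ o) :
    Tendsto (fun n => DD G ((d:ℝ)-1) o par n y) atTop (𝓝 (Dl G o par ((d:ℝ)-1) y)) := by
  have hd3 : (3:ℝ) ≤ d := by exact_mod_cast hd
  refine tendsto_atTop_ciInf (DD_antitone G o par hpar d hd hreg y hy) ⟨0, ?_⟩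
  rintro _ ⟨n, rfl⟩
  exact DD_nonneg G o par _ (by linarith) n y

theorem Dl_nonneg (q : ℝ) (hq : 0 < q) (y : V) : 0 ≤ Dl G o par q y :=
  le_ciInf fun n => DD_nonneg G o par q hq n y

include hpar in
theorem Dl_le_one (d : ℕ) (hd : 3 ≤ d) (hreg : ∀ x, G.degree x = d) (y : V) (hy : y ≠ o) :
    Dl G o par ((d:ℝ)-1) y ≤ 1 := by
  have h := (DD_antitone G o par hpar d hd hreg y hy).le_of_tendsto (Dl_tendsto G o par hpar d hd hreg y hy) 0
  simpa [DD] using h

include hpar in
theorem Dl_eq (d : ℕ) (hd : 3 ≤ d) (hreg : ∀ x, G.degree x = d) (y : V) (hy : y ≠ o) :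
    Dl G o par ((d:ℝ)-1) y = (∑ z ∈ ch G o par y, Dl G o par ((d:ℝ)-1) z) / ((d:ℝ)-1) := by
  have h1 : Tendsto (fun n => DD G ((d:ℝ)-1) o par (n+1) y) atTop (𝓝 (Dl G o par ((d:ℝ)-1) y)) :=
    (tendsto_add_atTop_iff_nat 1).2 (Dl_tendsto G o par hpar d hd hreg y hy)
  have h2 : Tendsto (fun n => DD G ((d:ℝ)-1) o par (n+1) y) atTop
      (𝓝 ((∑ z ∈ ch G o par y, Dl G o par ((d:ℝ)-1) z) / ((d:ℝ)-1))) := by
    simp only [DD]
    refine Tendsto.div_const (tendsto_finsetSum _ fun z hz => ?_) _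
    exact Dl_tendsto G o par hpar d hd hreg z ((mem_ch G o par hpar y z).1 hz).1
  exact tendsto_nhds_unique h1 h2

/-- `y` is a descendant of `v` -/
def Desc (v y : V) : Prop := ∃ k : ℕ, par^[k] y = v ∧ G.dist o y = G.dist o v + k

theorem Desc.refl (v : V) : Desc G o par v v := ⟨0, by simp, by simp⟩

include hpar in
theorem Desc.child {v y z : V} (h : Desc G o par v y) (hz : z ∈ ch G o par y) : Desc G o par v z := by
  obtain ⟨k, h1, h2⟩ := h
  obtain ⟨hz1, hz2⟩ := (mem_ch G o par hpar y z).1 hz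
  refine ⟨k+1, ?_, ?_⟩
  · rw [Function.iterate_succ_apply, hz2, h1]
  · have := (hpar z hz1).2
    rw [hz2] at this
    omega

theorem Desc.unique {v v' y : V} (h : Desc G o par v y) (h' : Desc G o par v' y)
    (hd : G.dist o v = G.dist o v') : v = v' := by
  obtain ⟨k, h1, h2⟩ := h
  obtain ⟨k', h1', h2'⟩ := h'
  have : k = k' := by omega
  subst this
  rw [← h1, ← h1']

include hpar in
theorem Desc.ne {v y : V} (hv : 0 < G.dist o v) (h : Desc G o par v y) : y ≠ o := by
  rintro rfl
  obtain ⟨k, h1, h2⟩ := h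
  rw [G.dist_self] at h2
  omega

include hpar in
theorem sup_D (d : ℕ) (hd : 3 ≤ d) (hreg : ∀ x, G.degree x = d) (v : V) (hv : 0 < G.dist o v)
    (hD : 0 < Dl G o par ((d:ℝ)-1) v) (s : ℝ) (hs : s < 1) :
    ∃ y, Desc G o par v y ∧ s < Dl G o par ((d:ℝ)-1) y := by
  by_contra hcon
  push Not at hcon
  have hd3 : (3:ℝ) ≤ d := by exact_mod_cast hd
  have hvo : v ≠ o := Desc.ne G o par hpar hv (Desc.refl G o par v)
  have key : ∀ n : ℕ, ∀ y, Desc G o par v y → Dl G o par ((d:ℝ)-1) y ≤ s * DD G ((d:ℝ)-1) o par n y := by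
    intro n
    induction n with
    | zero => intro y hy; simpa [DD] using hcon y hy
    | succ n ih =>
      intro y hy
      have hyo := Desc.ne G o par hpar hv hy
      rw [Dl_eq G o par hpar d hd hreg y hyo]
      simp only [DD]
      rw [mul_div_assoc', Finset.mul_sum]
      have : 0 < (d:ℝ) - 1 := by linarith
      gcongr with z hz
      exact ih z (Desc.child G o par hpar hy hz)
  have h1 : Dl G o par ((d:ℝ)-1) v ≤ s * Dl G o par ((d:ℝ)-1) v :=
    ge_of_tendsto' ((Dl_tendsto G o par hpar d hd hreg v hvo).const_mul s)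
      (fun n => key n v (Desc.refl G o par v))
  nlinarith

open Classical in
/-- initial function on directed edges -/
noncomputable def u0 (q : ℝ) (v : V) : V → V → ℝ :=
  fun x y => if y ∈ ch G o par x ∧ Desc G o par v y then Dl G o par q y else 0

/-- iterates -/
noncomputable def UU (q : ℝ) (v : V) (n : ℕ) : V → V → ℝ := (Bop G q)^[n] (u0 G o par q v)

theorem UU_succ (q : ℝ) (v : V) (n : ℕ) : UU G o par q v (n+1) = Bop G q (UU G o par q v n) := by
  unfold UU
  rw [Function.iterate_succ_apply']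

include hpar in
theorem u0_le_Bop (d : ℕ) (hd : 3 ≤ d) (hreg : ∀ x, G.degree x = d) (v : V) (x y : V) :
    u0 G o par ((d:ℝ)-1) v x y ≤ Bop G ((d:ℝ)-1) (u0 G o par ((d:ℝ)-1) v) x y := by
  classical
  have hd3 : (3:ℝ) ≤ d := by exact_mod_cast hd
  have hq0 : (0:ℝ) < (d:ℝ) - 1 := by linarith
  have hnn : ∀ a b, 0 ≤ u0 G o par ((d:ℝ)-1) v a b := by
    intro a b
    unfold u0
    split_ifs
    · exact Dl_nonneg G o par _ hq0 b
    · exact le_rfl
  by_cases hxy : y ∈ ch G o par x ∧ Desc G o par v y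
  · have e1 : u0 G o par ((d:ℝ)-1) v x y = Dl G o par ((d:ℝ)-1) y := by
      unfold u0; rw [if_pos hxy]
    obtain ⟨h1, h2⟩ := hxy
    obtain ⟨hyo, hpy⟩ := (mem_ch G o par hpar x y).1 h1
    rw [e1, Dl_eq G o par hpar d hd hreg y hyo]
    unfold Bop
    gcongr
    have hsub : ch G o par y ⊆ (G.neighborFinset y).erase x := by
      intro z hz
      have hz1 := (mem_ch G o par hpar y z).1 hz
      rw [Finset.mem_erase]
      refine ⟨?_, ?_⟩
      · rintro rfl
        have a1 := (hpar _ hz1.1).2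
        have a2 := (hpar y hyo).2
        rw [hz1.2] at a1
        rw [hpy] at a2
        omega
      · unfold ch at hz
        exact (Finset.mem_filter.1 hz).1
    calc ∑ z ∈ ch G o par y, Dl G o par ((d:ℝ)-1) z = ∑ z ∈ ch G o par y, u0 G o par ((d:ℝ)-1) v y z := by
          refine Finset.sum_congr rfl fun z hz => ?_
          unfold u0
          rw [if_pos ⟨hz, Desc.child G o par hpar h2 hz⟩]
      _ ≤ _ := Finset.sum_le_sum_of_subset_of_nonneg hsub (fun z _ _ => hnn y z)
  · have e1 : u0 G o par ((d:ℝ)-1) v x y = 0 := by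
      unfold u0; rw [if_neg hxy]
    rw [e1]
    unfold Bop
    exact div_nonneg (Finset.sum_nonneg fun z _ => hnn y z) hq0.le

include hpar in
theorem UU_nonneg (d : ℕ) (hd : 3 ≤ d) (v : V) (n : ℕ) (x y : V) :
    0 ≤ UU G o par ((d:ℝ)-1) v n x y := by
  classical
  have hd3 : (3:ℝ) ≤ d := by exact_mod_cast hd
  have hq0 : (0:ℝ) < (d:ℝ) - 1 := by linarith
  induction n generalizing x y with
  | zero =>
    show 0 ≤ u0 G o par ((d:ℝ)-1) v x y
    unfold u0
    split_ifs
    · exact Dl_nonneg G o par _ hq0 y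
    · exact le_rfl
  | succ n ih =>
    rw [UU_succ]
    unfold Bop
    exact div_nonneg (Finset.sum_nonneg fun z _ => ih y z) hq0.le

include hpar in
theorem UU_mono (d : ℕ) (hd : 3 ≤ d) (hreg : ∀ x, G.degree x = d) (v : V) (n : ℕ) (x y : V) :
    UU G o par ((d:ℝ)-1) v n x y ≤ UU G o par ((d:ℝ)-1) v (n+1) x y := by
  have hd3 : (3:ℝ) ≤ d := by exact_mod_cast hd
  induction n generalizing x y with
  | zero => exact u0_le_Bop G o par hpar d hd hreg v x y
  | succ n ih =>
    rw [UU_succ G o par _ v n, UU_succ G o par _ v (n+1)]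
    exact Bop_mono G _ (by linarith) _ _ (fun a b _ => ih a b) x y

include hpar in
theorem UU_pair (d : ℕ) (hd : 3 ≤ d) (hreg : ∀ x, G.degree x = d) (v v' : V) (hne : v ≠ v')
    (hdist : G.dist o v = G.dist o v') (n : ℕ) (x y : V) (hxy : G.Adj x y) :
    UU G o par ((d:ℝ)-1) v n x y + UU G o par ((d:ℝ)-1) v' n x y ≤ 1 := by
  classical
  have hd3 : (3:ℝ) ≤ d := by exact_mod_cast hd
  induction n generalizing x y with
  | zero =>
    show u0 G o par ((d:ℝ)-1) v x y + u0 G o par ((d:ℝ)-1) v' x y ≤ 1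
    unfold u0
    have h3 : y ∈ ch G o par x → Dl G o par ((d:ℝ)-1) y ≤ 1 := fun h =>
      Dl_le_one G o par hpar d hd hreg y ((mem_ch G o par hpar x y).1 h).1
    split_ifs with h1 h2 h2
    · exact absurd (Desc.unique G o par h1.2 h2.2 hdist) hne
    · simpa using h3 h1.1
    · simpa using h3 h2.1
    · simp
  | succ n ih =>
    rw [UU_succ, UU_succ, ← Bop_add]
    refine (Bop_mono G _ (by linarith) _ (fun _ _ => 1) (fun a b hab => ih a b hab) x y).trans ?_
    rw [Bop_one G d hd hreg x y hxy]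

/-- the limit function on directed edges -/
noncomputable def Ul (q : ℝ) (v : V) (x y : V) : ℝ := ⨆ n, UU G o par q v n x y

theorem UU_le_one (d : ℕ) (hd : 3 ≤ d) (hreg : ∀ x, G.degree x = d)
    (hpar : ∀ x, x ≠ o → G.Adj x (par x) ∧ G.dist o (par x) + 1 = G.dist o x) (v : V) (n : ℕ)
    (x y : V) (hxy : G.Adj x y) :
    UU G o par ((d:ℝ)-1) v n x y ≤ 1 := by
  classical
  have hd3 : (3:ℝ) ≤ d := by exact_mod_cast hd
  induction n generalizing x y with
  | zero =>
    show u0 G o par ((d:ℝ)-1) v x y ≤ 1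
    unfold u0
    split_ifs with h1
    · exact Dl_le_one G o par hpar d hd hreg y ((mem_ch G o par hpar x y).1 h1.1).1
    · simp
  | succ n ih =>
    rw [UU_succ]
    refine (Bop_mono G _ (by linarith) _ (fun _ _ => 1) (fun a b hab => ih a b hab) x y).trans ?_
    rw [Bop_one G d hd hreg x y hxy]

include hpar in
theorem Ul_tendsto (d : ℕ) (hd : 3 ≤ d) (hreg : ∀ x, G.degree x = d) (v : V) (x y : V)
    (hxy : G.Adj x y) :
    Tendsto (fun n => UU G o par ((d:ℝ)-1) v n x y) atTop (𝓝 (Ul G o par ((d:ℝ)-1) v x y)) := by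
  refine tendsto_atTop_ciSup (monotone_nat_of_le_succ fun n => UU_mono G o par hpar d hd hreg v n x y) ⟨1, ?_⟩
  rintro _ ⟨n, rfl⟩
  exact UU_le_one G o par d hd hreg hpar v n x y hxy

include hpar in
theorem Ul_fixed (d : ℕ) (hd : 3 ≤ d) (hreg : ∀ x, G.degree x = d) (v : V) (x y : V)
    (hxy : G.Adj x y) :
    Ul G o par ((d:ℝ)-1) v x y = Bop G ((d:ℝ)-1) (Ul G o par ((d:ℝ)-1) v) x y := by
  classical
  have h1 : Tendsto (fun n => UU G o par ((d:ℝ)-1) v (n+1) x y) atTop (𝓝 (Ul G o par ((d:ℝ)-1) v x y)) :=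
    (tendsto_add_atTop_iff_nat (f := fun n => UU G o par ((d:ℝ)-1) v n x y) 1).2
      (Ul_tendsto G o par hpar d hd hreg v x y hxy)
  have h2 : Tendsto (fun n => UU G o par ((d:ℝ)-1) v (n+1) x y) atTop
      (𝓝 (Bop G ((d:ℝ)-1) (Ul G o par ((d:ℝ)-1) v) x y)) := by
    simp only [UU_succ]
    unfold Bop
    refine Tendsto.div_const (tendsto_finsetSum _ fun z hz => ?_) _
    exact Ul_tendsto G o par hpar d hd hreg v y z ((G.mem_neighborFinset y z).1 (Finset.mem_of_mem_erase hz))
  exact tendsto_nhds_unique h1 h2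

include hpar in
/-- The main construction: two disjoint fat subtrees give a bounded non-constant harmonic function. -/
theorem nonconst (d : ℕ) (hd : 3 ≤ d) (hreg : ∀ x, G.degree x = d) (v v' : V) (hne : v ≠ v')
    (hdist : G.dist o v = G.dist o v') (hv : 0 < G.dist o v)
    (hD : 0 < Dl G o par ((d:ℝ)-1) v) (hD' : 0 < Dl G o par ((d:ℝ)-1) v') :
    ∃ f : V → ℝ, (∃ C : ℝ, ∀ v, |f v| ≤ C) ∧
        (∀ v, (d : ℝ) * f v = ∑ w ∈ G.neighborFinset v, f w) ∧
        ∃ x y, f x ≠ f y := by
  classical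
  have hd3 : (3:ℝ) ≤ d := by exact_mod_cast hd
  set u := Ul G o par ((d:ℝ)-1) v with hu
  set u' := Ul G o par ((d:ℝ)-1) v' with hu'
  obtain ⟨E1, H⟩ := harmonic_of_fixed G d hd hreg u (fun x y h => Ul_fixed G o par hpar d hd hreg v x y h)
  have hu0 : ∀ x y, G.Adj x y → 0 ≤ u x y := fun x y h =>
    ge_of_tendsto' (Ul_tendsto G o par hpar d hd hreg v x y h) (fun n => UU_nonneg G o par hpar d hd v n x y)
  have hu1 : ∀ x y, G.Adj x y → u x y ≤ 1 := fun x y h =>
    le_of_tendsto' (Ul_tendsto G o par hpar d hd hreg v x y h) (fun n => UU_le_one G o par d hd hreg hpar v n x y h)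
  have huu : ∀ x y, G.Adj x y → u x y + u' x y ≤ 1 := fun x y h =>
    le_of_tendsto' ((Ul_tendsto G o par hpar d hd hreg v x y h).add (Ul_tendsto G o par hpar d hd hreg v' x y h))
      (fun n => UU_pair G o par hpar d hd hreg v v' hne hdist n x y h)
  have hlow : ∀ w y, Desc G o par w y → y ≠ o →
      Dl G o par ((d:ℝ)-1) y ≤ Ul G o par ((d:ℝ)-1) w (par y) y := by
    intro w y hw hy
    have hadj : G.Adj (par y) y := (hpar y hy).1.symm
    have hm : Monotone (fun n => UU G o par ((d:ℝ)-1) w n (par y) y) :=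
      monotone_nat_of_le_succ fun n => UU_mono G o par hpar d hd hreg w n _ _
    have h1 := hm.ge_of_tendsto (Ul_tendsto G o par hpar d hd hreg w (par y) y hadj) 0
    have h2 : UU G o par ((d:ℝ)-1) w 0 (par y) y = Dl G o par ((d:ℝ)-1) y := by
      show u0 G o par ((d:ℝ)-1) w (par y) y = _
      unfold u0
      rw [if_pos ⟨(mem_ch G o par hpar _ _).2 ⟨hy, rfl⟩, hw⟩]
    rw [← h2]
    exact h1
  refine ⟨fun x => ∑ z ∈ G.neighborFinset x, u x z, ⟨d, fun x => ?_⟩, H, ?_⟩
  · rw [abs_of_nonneg (Finset.sum_nonneg fun z hz => hu0 x z ((G.mem_neighborFinset x z).1 hz))]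
    calc ∑ z ∈ G.neighborFinset x, u x z ≤ ∑ z ∈ G.neighborFinset x, (1:ℝ) :=
          Finset.sum_le_sum fun z hz => hu1 x z ((G.mem_neighborFinset x z).1 hz)
      _ = d := by
          rw [Finset.sum_const, nsmul_eq_mul, mul_one, G.card_neighborFinset_eq_degree, hreg]
  · obtain ⟨y, hy1, hy2⟩ := sup_D G o par hpar d hd hreg v hv hD (7/8) (by norm_num)
    obtain ⟨y', hy1', hy2'⟩ := sup_D G o par hpar d hd hreg v' (hdist ▸ hv) hD' (7/8) (by norm_num)
    have hyo := Desc.ne G o par hpar hv hy1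
    have hyo' := Desc.ne G o par hpar (hdist ▸ hv) hy1'
    have a1 : G.Adj (par y) y := (hpar y hyo).1.symm
    have a1' : G.Adj (par y') y' := (hpar y' hyo').1.symm
    have l1 := hlow v y hy1 hyo
    have l1' := hlow v' y' hy1' hyo'
    have b1 := huu _ _ a1'
    have c1 := E1 _ _ a1
    have c1' := E1 _ _ a1'
    have g1 := hu0 _ _ a1.symm
    have g2 := hu1 _ _ a1'.symm
    refine ⟨y, y', ?_⟩
    show ∑ z ∈ G.neighborFinset y, u y z ≠ ∑ z ∈ G.neighborFinset y', u y' z
    rw [← c1, ← c1']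
    have k1 : 7/8 < u (par y) y := lt_of_lt_of_le hy2 l1
    have k2 : 7/8 < u' (par y') y' := lt_of_lt_of_le hy2' l1'
    have k3 : u (par y') y' < 1/8 := by linarith
    have k4 : ((d:ℝ)-1) * (7/8) ≤ ((d:ℝ)-1) * u (par y) y := by
      apply mul_le_mul_of_nonneg_left k1.le; linarith
    have k5 : ((d:ℝ)-1) * u (par y') y' ≤ ((d:ℝ)-1) * (1/8) := by
      apply mul_le_mul_of_nonneg_left k3.le; linarith
    apply ne_of_gt
    linarith


end NB

section Final
variable {V : Type} (G : SimpleGraph V) [G.LocallyFinite]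

theorem sum_sph (hc : G.Connected) (o : V) (par : V → V)
    (hpar : ∀ x, x ≠ o → G.Adj x (par x) ∧ G.dist o (par x) + 1 = G.dist o x) (N : ℕ) (F : V → ℝ) :
    ∑ v ∈ sph G hc o N, ∑ z ∈ ch G o par v, F z = ∑ z ∈ sph G hc o (N+1), F z := by
  classical
  have hne : ∀ z ∈ sph G hc o (N+1), z ≠ o := by
    intro z hz h
    rw [mem_sph] at hz
    rw [h, G.dist_self] at hz
    omega
  have hmap : ∀ z ∈ sph G hc o (N+1), par z ∈ sph G hc o N := by
    intro z hz
    have h1 := (hpar z (hne z hz)).2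
    rw [mem_sph] at hz ⊢
    omega
  rw [← Finset.sum_fiberwise_of_maps_to hmap F]
  refine Finset.sum_congr rfl fun v hv => ?_
  refine Finset.sum_congr ?_ fun _ _ => rfl
  ext z
  rw [mem_ch G o par hpar, Finset.mem_filter, mem_sph]
  constructor
  · rintro ⟨h1, h2⟩
    have h3 := (hpar z h1).2
    rw [mem_sph] at hv
    rw [h2] at h3
    exact ⟨by omega, h2⟩
  · rintro ⟨h1, h2⟩
    exact ⟨hne z ((mem_sph G hc o (N+1) z).2 h1), h2⟩

theorem sum_DD (hc : G.Connected) (o : V) (par : V → V)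
    (hpar : ∀ x, x ≠ o → G.Adj x (par x) ∧ G.dist o (par x) + 1 = G.dist o x) (q : ℝ)
    (n N : ℕ) :
    ∑ v ∈ sph G hc o N, DD G q o par n v = #(sph G hc o (N+n)) / q ^ n := by
  induction n generalizing N with
  | zero => simp [DD]
  | succ n ih =>
    simp only [DD]
    rw [← Finset.sum_div, sum_sph G hc o par hpar N (fun z => DD G q o par n z), ih (N+1)]
    rw [show N + 1 + n = N + (n+1) by ring, div_div, pow_succ]

theorem main (d : ℕ) (hinf : Infinite V) (hc : G.Connected) (hd : 3 ≤ d) (hreg : G.IsRegularOfDegree d)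
    (hlim : ∀ v : V, Filter.limsup
          (fun n : ℕ =>
            ((Nat.card {p : G.Walk v v // p.length = n} : ℝ) / (d : ℝ) ^ n) ^ ((1 : ℝ) / (n : ℝ)))
          Filter.atTop = 2 * Real.sqrt ((d : ℝ) - 1) / (d : ℝ)) :
    ∃ f : V → ℝ, (∃ C : ℝ, ∀ v, |f v| ≤ C) ∧
        (∀ v, (d : ℝ) * f v = ∑ w ∈ G.neighborFinset v, f w) ∧
        ∃ x y, f x ≠ f y := by
  classical
  have hd3 : (3:ℝ) ≤ d := by exact_mod_cast hd
  obtain ⟨o⟩ := hc.nonempty
  have hregd : ∀ x, G.degree x = d := hreg
  -- quadratic form bound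
  have hq1 : ∀ (B : Finset V) (f : V → ℝ) (lam : ℝ), 2 * Real.sqrt ((d : ℝ) - 1) < lam →
      ∑ x ∈ B, ∑ y ∈ B, (if G.Adj x y then f x * f y else 0) ≤ lam * ∑ x ∈ B, f x ^ 2 := by
    intro B f lam hlam
    obtain ⟨mu, hmu1, hmu2⟩ := exists_between hlam
    have hl := hlim o
    simp only [natCard_walk G o] at hl
    have hev := ev_bound G o d hd (fun x => (hregd x).le) hl mu hmu1
    obtain ⟨u, hu1, hu2⟩ := exists_super G hc o lam mu (lt_of_le_of_lt (by positivity) hmu1) hmu2 hev
    exact quad_bound G lam u hu1 hu2 B f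
  have hq : ∀ (B : Finset V) (f : V → ℝ),
      ∑ x ∈ B, ∑ y ∈ B, (if G.Adj x y then f x * f y else 0)
      ≤ 2 * Real.sqrt ((d : ℝ) - 1) * ∑ x ∈ B, f x ^ 2 := by
    intro B f
    have hcont : Tendsto (fun lam : ℝ => lam * ∑ x ∈ B, f x ^ 2) (𝓝[>] (2 * Real.sqrt ((d : ℝ) - 1)))
        (𝓝 (2 * Real.sqrt ((d : ℝ) - 1) * ∑ x ∈ B, f x ^ 2)) :=
      (tendsto_id.mul_const _).mono_left nhdsWithin_le_nhds
    refine ge_of_tendsto hcont ?_
    filter_upwards [self_mem_nhdsWithin] with lam hlam
    exact hq1 B f lam hlam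
  obtain ⟨c, hc0, hgrow⟩ := growth G hc o d hd hregd hq
  -- parent map
  choose! par hpar using fun x (hx : x ≠ o) => exists_parent G hc o x hx
  have hq0 : (0:ℝ) < (d:ℝ) - 1 := by linarith
  have hone : (1:ℝ) < (d:ℝ) - 1 := by linarith
  -- choose N
  obtain ⟨N, hN⟩ : ∃ N : ℕ, 1 / c < ((d:ℝ) - 1) ^ N := pow_unbounded_of_one_lt _ hone
  have hN1 : 1 / c < ((d:ℝ) - 1) ^ (N+1) := hN.trans_le (pow_le_pow_right₀ hone.le (Nat.le_succ N))
  have hcN : 1 < c * ((d:ℝ) - 1) ^ (N+1) := by
    rw [div_lt_iff₀ hc0] at hN1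
    linarith
  have hsne : ∀ v ∈ sph G hc o (N+1), v ≠ o := by
    intro v hv h
    rw [mem_sph, h, G.dist_self] at hv
    omega
  have hlow : c * ((d:ℝ) - 1) ^ (N+1) ≤ ∑ v ∈ sph G hc o (N+1), Dl G o par ((d:ℝ)-1) v := by
    have ht : Tendsto (fun n => ∑ v ∈ sph G hc o (N+1), DD G ((d:ℝ)-1) o par n v) atTop
        (𝓝 (∑ v ∈ sph G hc o (N+1), Dl G o par ((d:ℝ)-1) v)) :=
      tendsto_finsetSum _ fun v hv => Dl_tendsto G o par hpar d hd hregd v (hsne v hv)
    refine ge_of_tendsto' ht fun n => ?_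
    rw [sum_DD G hc o par hpar, le_div_iff₀ (by positivity), mul_assoc, ← pow_add]
    exact hgrow _ (by omega)
  have hpos : ∃ v ∈ sph G hc o (N+1), 0 < Dl G o par ((d:ℝ)-1) v := by
    by_contra hcon
    push Not at hcon
    have := Finset.sum_nonpos hcon
    linarith
  obtain ⟨v, hv, hDv⟩ := hpos
  have hpos' : ∃ v' ∈ (sph G hc o (N+1)).erase v, 0 < Dl G o par ((d:ℝ)-1) v' := by
    by_contra hcon
    push Not at hcon
    have h1 := Finset.sum_nonpos hcon
    have h2 := Finset.add_sum_erase (sph G hc o (N+1)) (fun z => Dl G o par ((d:ℝ)-1) z) hv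
    have h3 := Dl_le_one G o par hpar d hd hregd v (hsne v hv)
    linarith
  obtain ⟨v', hv', hDv'⟩ := hpos'
  have hne : v ≠ v' := (Finset.ne_of_mem_erase hv').symm
  have hv'2 := Finset.mem_of_mem_erase hv'
  rw [mem_sph] at hv hv'2
  exact nonconst G o par hpar d hd hregd v v' hne (hv.trans hv'2.symm) (by omega) hDv hDv'

end Final

/-- Every infinite connected d-regular graph (d ≥ 3) whose return probabilities have limsup n-th root 2√(d−1)/d carries a bounded non-constant function equal at each vertex to the average of its neighbours. -/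
theorem result :
    ∀ (V : Type) (G : SimpleGraph V) [G.LocallyFinite] (d : ℕ),
      Infinite V → G.Connected → 3 ≤ d → G.IsRegularOfDegree d →
      (∀ v : V, Filter.limsup
          (fun n : ℕ =>
            ((Nat.card {p : G.Walk v v // p.length = n} : ℝ) / (d : ℝ) ^ n) ^ ((1 : ℝ) / (n : ℝ)))
          Filter.atTop = 2 * Real.sqrt ((d : ℝ) - 1) / (d : ℝ)) →
      ∃ f : V → ℝ, (∃ C : ℝ, ∀ v, |f v| ≤ C) ∧
        (∀ v, (d : ℝ) * f v = ∑ w ∈ G.neighborFinset v, f w) ∧
        ∃ x y, f x ≠ f y := by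
  intro V G _ d hinf hc hd hreg hlim
  exact main G d hinf hc hd hreg hlim

end Pool.Agent.S11707
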