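import Pool.Statements.S11728
-- import your own Pool.Agent.* helpers here

set_option autoImplicit false
open Pool Pool.MP_65c29d_pr

namespace Pool.Agent.S11728

abbrev E3 := EuclideanSpace ℝ (Fin 3)

lemma kiss {W : Type} (x : W → E3) (r : W → ℝ) (hr : ∀ v, 0 < r v)
    (hd : ∀ u v, u ≠ v → r u + r v ≤ dist (x u) (x v)) (u : W) (s : Finset W)
    (hs : ∀ v ∈ s, dist (x u) (x v) = r u + r v ∧ r u ≤ r v) : s.card ≤ 125 := by
  classical
  set e : W → E3 := fun v => (r u + r v)⁻¹ • (x v - x u) with he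
  have hnorm : ∀ v ∈ s, ‖x v - x u‖ = r u + r v := fun v hv => by
    rw [← dist_eq_norm, dist_comm]; exact (hs v hv).1
  have hpos : ∀ v, 0 < r u + r v := fun v => add_pos (hr u) (hr v)
  have hen : ∀ v ∈ s, ‖e v‖ = 1 := fun v hv => by
    rw [he]
    simp only
    rw [norm_smul, hnorm v hv, norm_inv, Real.norm_of_nonneg (hpos v).le,
      inv_mul_cancel₀ (hpos v).ne']
  have hsep : ∀ v ∈ s, ∀ w ∈ s, v ≠ w → 1 ≤ ‖e v - e w‖ := by
    intro v hv w hw hvw
    have h1 : ‖(x v - x u) - (x w - x u)‖ ^ 2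
        = ‖x v - x u‖ ^ 2 - 2 * inner ℝ (x v - x u) (x w - x u) + ‖x w - x u‖ ^ 2 :=
      norm_sub_sq_real _ _
    have h2 : r v + r w ≤ ‖(x v - x u) - (x w - x u)‖ := by
      rw [sub_sub_sub_cancel_right, ← dist_eq_norm]
      exact hd v w hvw
    have h3 : (r v + r w) ^ 2 ≤ ‖(x v - x u) - (x w - x u)‖ ^ 2 :=
      pow_le_pow_left₀ (add_pos (hr v) (hr w)).le h2 2
    rw [h1, hnorm v hv, hnorm w hw] at h3
    have h4 : ‖e v - e w‖ ^ 2 = ‖e v‖ ^ 2 - 2 * inner ℝ (e v) (e w) + ‖e w‖ ^ 2 :=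
      norm_sub_sq_real _ _
    have h5 : inner ℝ (e v) (e w)
        = (r u + r v)⁻¹ * ((r u + r w)⁻¹ * inner ℝ (x v - x u) (x w - x u)) := by
      rw [he]
      simp only
      rw [real_inner_smul_left, real_inner_smul_right]
    have hv2 := (hs v hv).2
    have hw2 := (hs w hw).2
    have hru := hr u
    have h6 : 2 * inner ℝ (x v - x u) (x w - x u) ≤ (r u + r v) * (r u + r w) := by
      nlinarith [mul_nonneg (sub_nonneg.2 hv2) (sub_nonneg.2 hw2),
        mul_nonneg hru.le (sub_nonneg.2 hv2), mul_nonneg hru.le (sub_nonneg.2 hw2)]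
    have h7 : 2 * inner ℝ (e v) (e w) ≤ 1 := by
      rw [h5]
      have h8 : 0 < (r u + r v) * (r u + r w) := mul_pos (hpos v) (hpos w)
      calc 2 * ((r u + r v)⁻¹ * ((r u + r w)⁻¹ * inner ℝ (x v - x u) (x w - x u)))
          = (2 * inner ℝ (x v - x u) (x w - x u)) * ((r u + r v) * (r u + r w))⁻¹ := by
            rw [mul_inv]; ring
        _ ≤ ((r u + r v) * (r u + r w)) * ((r u + r v) * (r u + r w))⁻¹ :=
            mul_le_mul_of_nonneg_right h6 (inv_nonneg.2 h8.le)
        _ = 1 := mul_inv_cancel₀ h8.ne'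
    have h9 : (1 : ℝ) ^ 2 ≤ ‖e v - e w‖ ^ 2 := by
      rw [h4, hen v hv, hen w hw]; linarith
    exact le_of_sq_le_sq h9 (norm_nonneg _)
  have hinj : Set.InjOn e s := by
    intro v hv w hw hvw
    by_contra hne
    have := hsep v hv w hw hne
    rw [hvw, sub_self, norm_zero] at this
    linarith
  have hcard := Besicovitch.card_le_of_separated (s.image e)
    (fun c hc => by
      obtain ⟨v, hv, rfl⟩ := Finset.mem_image.1 hc
      rw [hen v hv]; norm_num)
    (fun c hc d hd' hcd => by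
      obtain ⟨v, hv, rfl⟩ := Finset.mem_image.1 hc
      obtain ⟨w, hw, rfl⟩ := Finset.mem_image.1 hd'
      exact hsep v hv w hw (fun h => hcd (by rw [h])))
  rw [Finset.card_image_of_injOn hinj, finrank_euclideanSpace_fin] at hcard
  norm_num at hcard
  exact hcard

/-- layer `n` has `n + 1` vertices -/
abbrev V := Σ n : ℕ, Fin (n + 1)

/-- consecutive layers are completely joined -/
def G : SimpleGraph V where
  Adj u v := u.1 + 1 = v.1 ∨ v.1 + 1 = u.1
  symm := ⟨fun u v h => h.symm⟩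
  loopless := ⟨fun u h => by rcases h with h | h <;> omega⟩

lemma G_adj (u v : V) : G.Adj u v ↔ (u.1 + 1 = v.1 ∨ v.1 + 1 = u.1) := Iff.rfl

lemma finite_level (N : ℕ) : {v : V | v.1 < N}.Finite := by
  have h : {v : V | v.1 < N} = ↑((Finset.range N).sigma fun n => (Finset.univ : Finset (Fin (n + 1)))) := by
    ext v; simp
  rw [h]; exact Finset.finite_toSet _

lemma G_connected : G.Connected := by
  have h : ∀ n (i : Fin (n + 1)), G.Reachable ⟨0, 0⟩ ⟨n, i⟩ := by
    intro n
    induction n with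
    | zero =>
      intro i
      have : i = 0 := by apply Fin.ext; omega
      subst this
      exact SimpleGraph.Reachable.refl _
    | succ n ih =>
      intro i
      refine (ih 0).trans (SimpleGraph.Adj.reachable ?_)
      rw [G_adj]; left; rfl
  exact
    { preconnected := fun u v => ((h u.1 u.2).symm).trans (h v.1 v.2)
      nonempty := ⟨⟨0, 0⟩⟩ }

lemma G_locfin (v : V) : (G.neighborSet v).Finite := by
  apply (finite_level (v.1 + 2)).subset
  intro u hu
  have h : G.Adj v u := hu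
  rw [G_adj] at h
  show u.1 < v.1 + 2
  omega

/-- average over a layer -/
noncomputable def A (f : V → ℝ) (n : ℕ) : ℝ := (∑ i : Fin (n + 1), f ⟨n, i⟩) / (n + 1)

/-- energy between layers -/
noncomputable def En (f : V → ℝ) (n : ℕ) : ℝ :=
  ∑ p : Fin (n + 1) × Fin (n + 2), (f ⟨n, p.1⟩ - f ⟨n + 1, p.2⟩) ^ 2

lemma A_diff (f : V → ℝ) (n : ℕ) :
    (A f n - A f (n + 1)) ^ 2 ≤ (1 / (((n : ℝ) + 1) * ((n : ℝ) + 2))) * En f n := by
  have h1 : ∑ p : Fin (n + 1) × Fin (n + 2), (f ⟨n, p.1⟩ - f ⟨n + 1, p.2⟩)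
      = ((n : ℝ) + 1) * ((n : ℝ) + 2) * (A f n - A f (n + 1)) := by
    rw [Fintype.sum_prod_type]
    simp_rw [Finset.sum_sub_distrib]
    simp only [Finset.sum_const, Finset.card_univ, Fintype.card_fin, nsmul_eq_mul]
    rw [← Finset.mul_sum]
    unfold A
    have h2 : (n : ℝ) + 1 ≠ 0 := by positivity
    have h3 : (n : ℝ) + 2 ≠ 0 := by positivity
    push_cast
    rw [show (n : ℝ) + 1 + 1 = n + 2 by ring]
    field_simp
  have h2 := sq_sum_le_card_mul_sum_sq (s := (Finset.univ : Finset (Fin (n + 1) × Fin (n + 2))))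
    (f := fun p => f ⟨n, p.1⟩ - f ⟨n + 1, p.2⟩)
  rw [h1] at h2
  simp only [Finset.card_univ, Fintype.card_prod, Fintype.card_fin] at h2
  push_cast at h2
  have hpos : 0 < ((n : ℝ) + 1) * ((n : ℝ) + 2) := by positivity
  have h3 : (((n : ℝ) + 1) * ((n : ℝ) + 2)) * ((((n : ℝ) + 1) * ((n : ℝ) + 2)) *
      (A f n - A f (n + 1)) ^ 2) ≤ (((n : ℝ) + 1) * ((n : ℝ) + 2)) * En f n := by
    calc _ = (((n : ℝ) + 1) * ((n : ℝ) + 2) * (A f n - A f (n + 1))) ^ 2 := by ring
      _ ≤ _ := h2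
  have h4 := le_of_mul_le_mul_left h3 hpos
  rw [one_div, inv_mul_eq_div, le_div_iff₀ hpos, mul_comm]
  exact h4

lemma sum_tel (N : ℕ) : ∑ n ∈ Finset.range N, 1 / (((n : ℝ) + 1) * ((n : ℝ) + 2))
    = 1 - 1 / ((N : ℝ) + 1) := by
  induction N with
  | zero => simp
  | succ N ih =>
    rw [Finset.sum_range_succ, ih]
    push_cast
    have h1 : (N : ℝ) + 1 ≠ 0 := by positivity
    have h2 : (N : ℝ) + 2 ≠ 0 := by positivity
    have h3 : (N : ℝ) + 1 + 1 ≠ 0 := by positivity
    field_simp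
    ring

lemma one_le_energy (f : V → ℝ) (N : ℕ) (h0 : f ⟨0, 0⟩ = 1) (hN : ∀ i, f ⟨N, i⟩ = 0) :
    1 ≤ ∑ n ∈ Finset.range N, En f n := by
  have hA0 : A f 0 = 1 := by simp [A, h0]
  have hAN : A f N = 0 := by simp [A, hN]
  have hs : ∑ n ∈ Finset.range N, (A f n - A f (n + 1)) = 1 := by
    rw [Finset.sum_range_sub', hA0, hAN, sub_zero]
  have hE : ∀ n, 0 ≤ En f n := fun n => Finset.sum_nonneg fun _ _ => sq_nonneg _
  have hc : (∑ n ∈ Finset.range N, (A f n - A f (n + 1))) ^ 2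
      ≤ (∑ n ∈ Finset.range N, 1 / (((n : ℝ) + 1) * ((n : ℝ) + 2)))
        * ∑ n ∈ Finset.range N, En f n := by
    have h1 : (∑ n ∈ Finset.range N, (A f n - A f (n + 1))) ^ 2
        ≤ (∑ n ∈ Finset.range N, |A f n - A f (n + 1)|) ^ 2 := by
      rw [sq_le_sq]
      exact (Finset.abs_sum_le_sum_abs _ _).trans (le_abs_self _)
    have h2 : ∑ n ∈ Finset.range N, |A f n - A f (n + 1)| ≤
        ∑ n ∈ Finset.range N, √(1 / (((n : ℝ) + 1) * ((n : ℝ) + 2))) * √(En f n) := by
      apply Finset.sum_le_sum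
      intro n _
      rw [← Real.sqrt_mul (by positivity)]
      exact Real.abs_le_sqrt (A_diff f n)
    have h3 := Finset.sum_mul_sq_le_sq_mul_sq (Finset.range N)
      (fun n : ℕ => √(1 / (((n : ℝ) + 1) * ((n : ℝ) + 2)))) (fun n => √(En f n))
    have h4 : ∀ n : ℕ, √(1 / (((n : ℝ) + 1) * ((n : ℝ) + 2))) ^ 2
        = 1 / (((n : ℝ) + 1) * ((n : ℝ) + 2)) := fun n => Real.sq_sqrt (by positivity)
    have h5 : ∀ n : ℕ, √(En f n) ^ 2 = En f n := fun n => Real.sq_sqrt (hE n)
    simp_rw [h4, h5] at h3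
    refine h1.trans ((pow_le_pow_left₀ (Finset.sum_nonneg fun _ _ => abs_nonneg _) h2 2).trans h3)
  rw [hs, sum_tel] at hc
  have h6 : 0 ≤ ∑ n ∈ Finset.range N, En f n := Finset.sum_nonneg fun _ _ => hE _
  have h7 : (1 - 1 / ((N : ℝ) + 1)) ≤ 1 := by
    have : 0 ≤ 1 / ((N : ℝ) + 1) := by positivity
    linarith
  calc (1 : ℝ) = 1 ^ 2 := by norm_num
    _ ≤ (1 - 1 / ((N : ℝ) + 1)) * ∑ n ∈ Finset.range N, En f n := hc
    _ ≤ 1 * ∑ n ∈ Finset.range N, En f n := mul_le_mul_of_nonneg_right h7 h6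
    _ = _ := one_mul _

lemma G_transient : ∃ o : V, ∃ c : ℝ, 0 < c ∧ ∀ f : V → ℝ, (Function.support f).Finite →
    f o = 1 → c ≤ ∑' p : {p : V × V // G.Adj p.1 p.2}, (f p.1.1 - f p.1.2) ^ 2 := by
  refine ⟨⟨0, 0⟩, 1, one_pos, fun f hf h0 => ?_⟩
  obtain ⟨N, hN⟩ : ∃ N : ℕ, ∀ v : V, N ≤ v.1 → f v = 0 := by
    obtain ⟨N, hN⟩ := (hf.image (fun v : V => v.1)).bddAbove
    refine ⟨N + 1, fun v hv => ?_⟩
    by_contra hne
    have := hN ⟨v, hne, rfl⟩
    simp only at this
    omega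
  have hsum : Summable fun p : {p : V × V // G.Adj p.1 p.2} => (f p.1.1 - f p.1.2) ^ 2 := by
    apply summable_of_hasFiniteSupport
    have hfin : ({p : {p : V × V // G.Adj p.1 p.2} | p.1.1.1 < N + 1 ∧ p.1.2.1 < N + 1}).Finite := by
      have h1 : ({v : V | v.1 < N + 1} ×ˢ {v : V | v.1 < N + 1}).Finite :=
        (finite_level _).prod (finite_level _)
      exact Set.Finite.preimage (Set.injOn_of_injective Subtype.val_injective) h1
    apply hfin.subset
    rintro ⟨⟨u, v⟩, huv⟩ hp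
    rw [G_adj] at huv
    simp only [Function.mem_support] at hp
    by_contra hcon
    simp only [Set.mem_ofPred_eq, not_and_or, not_lt] at hcon
    simp only at huv
    have hu : N ≤ u.1 := by rcases hcon with h | h <;> omega
    have hv : N ≤ v.1 := by rcases hcon with h | h <;> omega
    rw [hN u hu, hN v hv] at hp
    simp at hp
  refine (one_le_energy f N h0 fun i => hN _ le_rfl).trans ?_
  let ι := Σ n : Fin N, Fin (n.1 + 1) × Fin (n.1 + 2)
  let φ : ι → {p : V × V // G.Adj p.1 p.2} := fun q =>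
    ⟨(⟨q.1.1, q.2.1⟩, ⟨q.1.1 + 1, q.2.2⟩), Or.inl rfl⟩
  have hφ : Function.Injective φ := by
    rintro ⟨⟨n, hn⟩, i, j⟩ ⟨⟨m, hm⟩, k, l⟩ h
    have h1 := congrArg Subtype.val h
    simp only [φ, Prod.mk.injEq] at h1
    obtain ⟨h2, h3⟩ := h1
    have h4 : n = m := congrArg Sigma.fst h2
    subst h4
    simp at h2 h3
    simp [h2, h3]
  have h1 := tsum_comp_le_tsum_of_inj hsum (fun p => sq_nonneg _) hφ
  refine le_trans (le_of_eq ?_) h1
  rw [tsum_fintype, Fintype.sum_sigma, ← Fin.sum_univ_eq_sum_range]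
  rfl


section Rec

variable (H : G.Subgraph) (x : H.verts → E3) (r : H.verts → ℝ) (hr : ∀ v, 0 < r v)
  (hd : ∀ u v, u ≠ v → r u + r v ≤ dist (x u) (x v))
  (ht : ∀ u v, u ≠ v → (H.coe.Adj u v ↔ dist (x u) (x v) = r u + r v))

include hr hd ht in
lemma small_nbrs (u : H.verts) (s : Finset H.verts)
    (hs : ∀ v ∈ s, H.coe.Adj u v ∧ r u ≤ r v) : s.card ≤ 125 := by
  apply kiss x r hr hd u s
  intro v hv
  obtain ⟨h1, h2⟩ := hs v hv
  exact ⟨(ht u v h1.ne).1 h1, h2⟩

include hr hd ht in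
lemma energy_le (f h : H.verts → ℝ) (h0 : ∀ u, 0 ≤ h u)
    (hh : ∀ u v, H.coe.Adj u v → (f u - f v) ^ 2 ≤ h u) (B : ℝ)
    (hB : ∀ T : Finset H.verts, ∑ u ∈ T, h u ≤ B) :
    ∑' p : {p : H.verts × H.verts // H.coe.Adj p.1 p.2}, (f p.1.1 - f p.1.2) ^ 2 ≤ 250 * B := by
  classical
  have hB0 : 0 ≤ B := by simpa using hB ∅
  apply tsum_le_of_sum_le' (by positivity)
  intro s
  let φ : {p : H.verts × H.verts // H.coe.Adj p.1 p.2} → H.verts := fun p =>
    if r p.1.1 ≤ r p.1.2 then p.1.1 else p.1.2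
  have h1 : ∑ p ∈ s, (f p.1.1 - f p.1.2) ^ 2 ≤ ∑ p ∈ s, h (φ p) := by
    apply Finset.sum_le_sum
    intro p _
    by_cases hp : r p.1.1 ≤ r p.1.2
    · have : φ p = p.1.1 := if_pos hp
      rw [this]; exact hh _ _ p.2
    · have : φ p = p.1.2 := if_neg hp
      rw [this, show (f p.1.1 - f p.1.2) ^ 2 = (f p.1.2 - f p.1.1) ^ 2 by ring]
      exact hh _ _ p.2.symm
  refine h1.trans ?_
  rw [Finset.sum_comp h φ]
  have h2 : ∀ b ∈ s.image φ, (s.filter fun a => φ a = b).card • h b ≤ 250 * h b := by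
    intro b _
    rw [nsmul_eq_mul]
    apply mul_le_mul_of_nonneg_right _ (h0 b)
    have hc1 : ((s.filter fun a => r a.1.1 ≤ r a.1.2 ∧ a.1.1 = b).image
        fun a => a.1.2).card ≤ 125 := by
      apply small_nbrs H x r hr hd ht b
      intro v hv
      obtain ⟨a, ha, rfl⟩ := Finset.mem_image.1 hv
      obtain ⟨_, ha1, ha2⟩ := Finset.mem_filter.1 ha
      rw [← ha2]
      exact ⟨a.2, ha1⟩
    have hc2 : ((s.filter fun a => r a.1.2 ≤ r a.1.1 ∧ a.1.2 = b).image
        fun a => a.1.1).card ≤ 125 := by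
      apply small_nbrs H x r hr hd ht b
      intro v hv
      obtain ⟨a, ha, rfl⟩ := Finset.mem_image.1 hv
      obtain ⟨_, ha1, ha2⟩ := Finset.mem_filter.1 ha
      rw [← ha2]
      exact ⟨a.2.symm, ha1⟩
    rw [Finset.card_image_of_injOn] at hc1
    · rw [Finset.card_image_of_injOn] at hc2
      · have hsub : (s.filter fun a => φ a = b) ⊆
            (s.filter fun a => r a.1.1 ≤ r a.1.2 ∧ a.1.1 = b) ∪
            (s.filter fun a => r a.1.2 ≤ r a.1.1 ∧ a.1.2 = b) := by
          intro a ha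
          obtain ⟨has, hab⟩ := Finset.mem_filter.1 ha
          rw [Finset.mem_union, Finset.mem_filter, Finset.mem_filter]
          by_cases hp : r a.1.1 ≤ r a.1.2
          · left
            have : φ a = a.1.1 := if_pos hp
            exact ⟨has, hp, by rw [← this, hab]⟩
          · right
            have : φ a = a.1.2 := if_neg hp
            exact ⟨has, (not_le.1 hp).le, by rw [← this, hab]⟩
        have hcard := (Finset.card_le_card hsub).trans (Finset.card_union_le _ _)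
        have : (s.filter fun a => φ a = b).card ≤ 250 := by omega
        exact_mod_cast this
      · intro a ha c hc hac
        obtain ⟨_, _, ha2⟩ := Finset.mem_filter.1 (Finset.mem_coe.1 ha)
        obtain ⟨_, _, hc2⟩ := Finset.mem_filter.1 (Finset.mem_coe.1 hc)
        apply Subtype.ext
        apply Prod.ext
        · exact hac
        · rw [ha2, hc2]
    · intro a ha c hc hac
      obtain ⟨_, _, ha2⟩ := Finset.mem_filter.1 (Finset.mem_coe.1 ha)
      obtain ⟨_, _, hc2⟩ := Finset.mem_filter.1 (Finset.mem_coe.1 hc)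
      apply Subtype.ext
      apply Prod.ext
      · rw [ha2, hc2]
      · exact hac
  calc ∑ b ∈ s.image φ, (s.filter fun a => φ a = b).card • h b
      ≤ ∑ b ∈ s.image φ, 250 * h b := Finset.sum_le_sum h2
    _ = 250 * ∑ b ∈ s.image φ, h b := by rw [Finset.mul_sum]
    _ ≤ 250 * B := mul_le_mul_of_nonneg_left (hB _) (by norm_num)

/-- truncated harmonic sum -/
noncomputable def S (n0 N : ℕ) : ℝ := ∑ k ∈ Finset.Ico n0 N, 1 / ((k : ℝ) + 1)

/-- radial test function -/
noncomputable def g (n0 N n : ℕ) : ℝ :=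
  (∑ k ∈ Finset.Ico n0 N, if n ≤ k then 1 / ((k : ℝ) + 1) else 0) / S n0 N

lemma g_start (n0 N : ℕ) (hS : 0 < S n0 N) : g n0 N n0 = 1 := by
  unfold g
  rw [div_eq_one_iff_eq hS.ne']
  unfold S
  apply Finset.sum_congr rfl
  intro k hk
  rw [if_pos (Finset.mem_Ico.1 hk).1]

lemma g_end (n0 N n : ℕ) (h : N ≤ n) : g n0 N n = 0 := by
  unfold g
  rw [Finset.sum_eq_zero, zero_div]
  intro k hk
  have := (Finset.mem_Ico.1 hk).2
  rw [if_neg (by omega)]

lemma g_diff (n0 N n : ℕ) (hS : 0 < S n0 N) :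
    (g n0 N n - g n0 N (n + 1)) ^ 2 ≤ if n < N then (1 / (((n : ℝ) + 1) * S n0 N)) ^ 2 else 0 := by
  have h1 : g n0 N n - g n0 N (n + 1)
      = (∑ k ∈ Finset.Ico n0 N, if k = n then 1 / ((k : ℝ) + 1) else 0) / S n0 N := by
    unfold g
    rw [← sub_div, ← Finset.sum_sub_distrib]
    congr 1
    apply Finset.sum_congr rfl
    intro k _
    by_cases h : k = n
    · subst h; simp
    · by_cases h2 : n ≤ k
      · rw [if_pos h2, if_pos (by omega), if_neg h, sub_self]
      · rw [if_neg h2, if_neg (by omega), if_neg h, sub_self]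
  rw [h1, Finset.sum_ite_eq']
  by_cases hn : n < N
  · rw [if_pos hn]
    apply pow_le_pow_left₀
    · split_ifs
      · positivity
      · simp
    · split_ifs
      · rw [div_div]
      · rw [zero_div]; positivity
  · rw [if_neg hn, if_neg (by simp; omega)]
    simp

lemma S_tendsto (n0 : ℕ) (M : ℝ) : ∃ N, n0 < N ∧ M < S n0 N := by
  have h := Real.tendsto_sum_range_one_div_nat_succ_atTop
  obtain ⟨N, hN⟩ := Filter.tendsto_atTop.1 h (M + 1 + ∑ i ∈ Finset.range n0, (1 / ((i : ℝ) + 1))) |>.exists_forall_of_atTop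
  refine ⟨max N (n0 + 1), by omega, ?_⟩
  have h1 := hN (max N (n0 + 1)) (le_max_left _ _)
  unfold S
  rw [Finset.sum_Ico_eq_sub _ (by omega)]
  linarith

include hr hd ht in
lemma not_transient : ¬ ∃ o : H.verts, ∃ c : ℝ, 0 < c ∧ ∀ f : H.verts → ℝ,
    (Function.support f).Finite → f o = 1 →
        c ≤ ∑' p : {p : H.verts × H.verts // H.coe.Adj p.1 p.2}, (f p.1.1 - f p.1.2) ^ 2 := by
  rintro ⟨o, c, hc, hcap⟩
  set n0 := o.1.1 with hn0
  set C : ℝ := ∑ i ∈ Finset.range n0, (1 / ((i : ℝ) + 1)) + 1 with hC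
  obtain ⟨N, hN, hSN⟩ := S_tendsto n0 (max C (2000 / c))
  set s := S n0 N with hs
  have hC0 : 0 ≤ C := by
    rw [hC]
    have : 0 ≤ ∑ i ∈ Finset.range n0, (1 / ((i : ℝ) + 1)) :=
      Finset.sum_nonneg fun _ _ => by positivity
    linarith
  have hsC : C < s := lt_of_le_of_lt (le_max_left _ _) hSN
  have hsc : 2000 / c < s := lt_of_le_of_lt (le_max_right _ _) hSN
  have hs0 : 0 < s := lt_of_le_of_lt hC0 hsC
  let f : H.verts → ℝ := fun w => g n0 N w.1.1
  have hfs : (Function.support f).Finite := by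
    have : ({w : H.verts | w.1.1 < N}).Finite :=
      Set.Finite.preimage (Set.injOn_of_injective Subtype.val_injective) (finite_level N)
    apply this.subset
    intro w hw
    by_contra hcon
    apply hw
    exact g_end n0 N _ (not_lt.1 hcon)
  have hfo : f o = 1 := g_start n0 N hs0
  let h' : ℕ → ℝ := fun n => if n ≤ N then 4 / (((n : ℝ) + 1) ^ 2 * s ^ 2) else 0
  have h'0 : ∀ n, 0 ≤ h' n := fun n => by
    simp only [h']
    split_ifs
    · positivity
    · exact le_rfl
  have hh : ∀ u v : H.verts, H.coe.Adj u v → (f u - f v) ^ 2 ≤ h' u.1.1 := by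
    intro u v huv
    have hadj : G.Adj u.1 v.1 := H.adj_sub huv
    rw [G_adj] at hadj
    rcases hadj with h | h
    · have h1 := g_diff n0 N u.1.1 hs0
      simp only [f, h', ← h]
      refine h1.trans ?_
      by_cases hlt : u.1.1 < N
      · rw [if_pos hlt, if_pos hlt.le, div_pow, one_pow, mul_pow]
        gcongr
        norm_num
      · rw [if_neg hlt]
        exact h'0 _
    · have h1 := g_diff n0 N v.1.1 hs0
      have h2 : (f u - f v) ^ 2 = (g n0 N v.1.1 - g n0 N (v.1.1 + 1)) ^ 2 := by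
        simp only [f, ← h]; ring
      rw [h2]
      refine h1.trans ?_
      simp only [h', ← h]
      by_cases hlt : v.1.1 < N
      · rw [if_pos hlt, if_pos (by omega : v.1.1 + 1 ≤ N), div_pow, one_pow, mul_pow]
        push_cast
        have hv0 : (0 : ℝ) ≤ (v.1.1 : ℝ) := Nat.cast_nonneg _
        have hs2 : 0 < s ^ 2 := by positivity
        rw [div_le_div_iff₀ (by positivity) (by positivity)]
        have : ((v.1.1 : ℝ) + 1 + 1) ^ 2 ≤ 4 * ((v.1.1 : ℝ) + 1) ^ 2 := by nlinarith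
        nlinarith
      · rw [if_neg hlt]
        exact h'0 _
  have hB : ∀ T : Finset H.verts, ∑ u ∈ T, h' u.1.1
      ≤ 4 / s ^ 2 * ∑ n ∈ Finset.range (N + 1), 1 / ((n : ℝ) + 1) := by
    intro T
    classical
    have h1 : ∑ u ∈ T, h' u.1.1 = ∑ v ∈ T.map (Function.Embedding.subtype _), h' v.1 := by
      rw [Finset.sum_map]; rfl
    have h2 : ∑ v ∈ T.map (Function.Embedding.subtype _), h' v.1
        = ∑ v ∈ (T.map (Function.Embedding.subtype _)).filter (fun v => v.1 ≤ N), h' v.1 := by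
      rw [Finset.sum_filter]
      apply Finset.sum_congr rfl
      intro v _
      by_cases hv : v.1 ≤ N
      · rw [if_pos hv]
      · rw [if_neg hv]; exact if_neg hv
    rw [h1, h2]
    calc _ ≤ ∑ v ∈ ((Finset.range (N + 1)).sigma fun n => (Finset.univ : Finset (Fin (n + 1)))),
          h' v.1 := by
          apply Finset.sum_le_sum_of_subset_of_nonneg
          · intro v hv
            obtain ⟨_, hv2⟩ := Finset.mem_filter.1 hv
            simp only [Finset.mem_sigma, Finset.mem_range, Finset.mem_univ, and_true]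
            omega
          · intro v _ _
            exact h'0 _
      _ = 4 / s ^ 2 * ∑ n ∈ Finset.range (N + 1), 1 / ((n : ℝ) + 1) := by
          rw [Finset.sum_sigma, Finset.mul_sum]
          apply Finset.sum_congr rfl
          intro n hn
          simp only [Finset.sum_const, Finset.card_univ, Fintype.card_fin, nsmul_eq_mul]
          have hn' : n ≤ N := by have := Finset.mem_range.1 hn; omega
          simp only [h', if_pos hn']
          push_cast
          have : (n : ℝ) + 1 ≠ 0 := by positivity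
          field_simp
  have h1 := hcap f hfs hfo
  have h2 := energy_le H x r hr hd ht f (fun w => h' w.1.1) (fun _ => h'0 _) hh _ hB
  have h3 : ∑ n ∈ Finset.range (N + 1), 1 / ((n : ℝ) + 1) ≤ s + C := by
    rw [Finset.sum_range_succ, hs, hC]
    unfold S
    rw [Finset.sum_Ico_eq_sub _ hN.le]
    have : 1 / ((N : ℝ) + 1) ≤ 1 := by
      rw [div_le_one (by positivity)]
      have : (0 : ℝ) ≤ N := Nat.cast_nonneg _
      linarith
    linarith
  have h4 : c ≤ 250 * (4 / s ^ 2 * (s + C)) := by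
    refine h1.trans (h2.trans ?_)
    gcongr
  have h5 : 250 * (4 / s ^ 2 * (s + C)) < 2000 / s := by
    rw [show 250 * (4 / s ^ 2 * (s + C)) = 1000 * (s + C) / s ^ 2 by ring,
      div_lt_div_iff₀ (by positivity) hs0]
    nlinarith [mul_pos hs0 hs0, mul_lt_mul_of_pos_left hsC (mul_pos hs0 hs0)]
  have h6 : 2000 / s < c := by
    rw [div_lt_iff₀ hc] at hsc
    rw [div_lt_iff₀ hs0]
    linarith
  linarith

end Rec


/-- The negation of the preceding statement: Every connected locally finite transient graph (positive capacity) has a connected transient subgraph that is exactly the tangency graph of a packing of balls in 3-space with disjoint interiors. -/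
theorem result :
    ¬ (∀ (V : Type) (G : SimpleGraph V),
    G.Connected → (∀ v, (G.neighborSet v).Finite) →
    (∃ o : V, ∃ c : ℝ, 0 < c ∧ ∀ f : V → ℝ, (Function.support f).Finite → f o = 1 →
        c ≤ ∑' p : {p : V × V // G.Adj p.1 p.2}, (f p.1.1 - f p.1.2) ^ 2) →
    ∃ H : G.Subgraph, H.coe.Connected ∧
      (∃ o : H.verts, ∃ c : ℝ, 0 < c ∧ ∀ f : H.verts → ℝ, (Function.support f).Finite → f o = 1 →
        c ≤ ∑' p : {p : H.verts × H.verts // H.coe.Adj p.1 p.2}, (f p.1.1 - f p.1.2) ^ 2) ∧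
      ∃ (x : H.verts → EuclideanSpace ℝ (Fin 3)) (r : H.verts → ℝ),
        (∀ v, 0 < r v) ∧
        (∀ u v, u ≠ v → r u + r v ≤ dist (x u) (x v)) ∧
        (∀ u v, u ≠ v → (H.coe.Adj u v ↔ dist (x u) (x v) = r u + r v))) := by
  intro hall
  obtain ⟨H, _, htr, x, r, hr, hd, ht⟩ := hall V G G_connected G_locfin G_transient
  exact not_transient H x r hr hd ht htr

end Pool.Agent.S11728
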