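import Pool.Statements.S11757

set_option autoImplicit false
open Pool Pool.MP_897d6b_pr
open MeasureTheory Set

/-! Proof that `N(X - Y) ≤ 4 N(X)` for i.i.d. real log-concave `X, Y`.
Let `F` be the distribution function of `X` and `a = ∫ F (1 - F)`, so `E|X - Y| = 2 a`.
Gibbs' inequality against a Laplace law gives `h(X - Y) ≤ 1 + log (4 a)`.
With `W = F (1 - F) / f` in the quantile variable `u`, log-concavity says that `W(u) / u` is
non-increasing and `W(u) / (1 - u)` is non-decreasing; a scaling argument then gives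
`∫ log W ≥ log (2 ∫ W) - 1`, that is `h(X) ≥ 1 + log (2 a)`. -/

namespace Pool.Agent.S11757

/-- measurability on `(0,1)` from the star-shapedness at `0`. -/
lemma aemeas (w : ℝ → ℝ)
    (S1 : ∀ u v : ℝ, 0 < u → u ≤ v → v < 1 → w v * u ≤ w u * v) :
    AEMeasurable w (volume.restrict (Ioo (0 : ℝ) 1)) := by
  have h1 : AntitoneOn (fun u => w u / u) (Ioo (0 : ℝ) 1) := by
    intro u hu v hv huv
    have := S1 u v hu.1 huv hv.2
    rw [div_le_div_iff₀ hv.1 hu.1]
    exact this
  have h2 : AEMeasurable (fun u => w u / u) (volume.restrict (Ioo (0 : ℝ) 1)) :=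
    aemeasurable_restrict_of_antitoneOn measurableSet_Ioo h1
  have h3 : AEMeasurable (fun u => u * (w u / u)) (volume.restrict (Ioo (0 : ℝ) 1)) :=
    aemeasurable_id.mul h2
  refine h3.congr ?_
  filter_upwards [self_mem_ae_restrict measurableSet_Ioo] with u hu
  have : u ≠ 0 := hu.1.ne'
  field_simp

lemma intervalIntegrable_of_bdd (w : ℝ → ℝ) (hm : AEMeasurable w (volume.restrict (Ioo (0 : ℝ) 1)))
    (C : ℝ) (hC : ∀ u ∈ Ioo (0 : ℝ) 1, |w u| ≤ C) (a b : ℝ) (ha : 0 ≤ a) (hab : a ≤ b)
    (hb : b ≤ 1) : IntervalIntegrable w volume a b := by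
  rw [intervalIntegrable_iff_integrableOn_Ioo_of_le hab]
  have hsub : Ioo a b ⊆ Ioo (0 : ℝ) 1 := Ioo_subset_Ioo ha hb
  have hI : IntegrableOn w (Ioo (0 : ℝ) 1) := by
    refine Integrable.mono' (integrable_const C) hm.aestronglyMeasurable ?_
    filter_upwards [self_mem_ae_restrict measurableSet_Ioo] with u hu
    exact hC u hu
  exact hI.mono_set hsub

/-- scaling inequality on the left part -/
lemma left_part (w : ℝ → ℝ) (v l : ℝ) (hv : 0 < v) (hv1 : v < 1) (hl : 0 < l) (hl1 : l < 1)
    (hpos : ∀ u ∈ Ioo (0 : ℝ) 1, 0 < w u) (hle : ∀ u ∈ Ioo (0 : ℝ) 1, w u ≤ 1) (hwv : w v = 1)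
    (S1 : ∀ u v : ℝ, 0 < u → u ≤ v → v < 1 → w v * u ≤ w u * v) :
    ∫ x in (0 : ℝ)..v, max (l - w x) 0 ≤ l ^ 2 * ∫ x in (0 : ℝ)..v, (1 - w x) := by
  have hm := aemeas w S1
  have hmg : AEMeasurable (fun x => max (l - w x) 0) (volume.restrict (Ioo (0 : ℝ) 1)) :=
    (aemeasurable_const.sub hm).max aemeasurable_const
  have hbg : ∀ u ∈ Ioo (0 : ℝ) 1, |max (l - w u) 0| ≤ 1 := by
    intro u hu
    rw [abs_of_nonneg (le_max_right _ _)]
    refine max_le ?_ zero_le_one
    have := hpos u hu
    linarith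
  have hlv : l * v ≤ v := by nlinarith
  have hlv0 : 0 < l * v := by positivity
  have i1 := intervalIntegrable_of_bdd _ hmg 1 hbg 0 (l * v) le_rfl hlv0.le (by linarith)
  have i2 := intervalIntegrable_of_bdd _ hmg 1 hbg (l * v) v hlv0.le hlv hv1.le
  rw [← intervalIntegral.integral_add_adjacent_intervals i1 i2]
  have z2 : ∫ x in (l * v)..v, max (l - w x) 0 = 0 := by
    rw [← intervalIntegral.integral_zero (a := l * v) (b := v)]
    refine intervalIntegral.integral_congr (fun x hx => ?_)
    rw [uIcc_of_le hlv] at hx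
    have h := S1 x v (lt_of_lt_of_le hlv0 hx.1) hx.2 hv1
    rw [hwv, one_mul] at h
    have : l ≤ w x := by
      have h3 : l * v ≤ w x * v := le_trans hx.1 h
      exact le_of_mul_le_mul_right h3 hv
    simp [this]
  rw [z2, add_zero]
  have h1 := intervalIntegral.mul_integral_comp_mul_left (a := 0) (b := v)
    (f := fun x => max (l - w x) 0) (c := l)
  rw [mul_zero] at h1
  rw [← h1]
  have h2 : ∫ x in (0 : ℝ)..v, max (l - w (l * x)) 0 ≤ ∫ x in (0 : ℝ)..v, l * (1 - w x) := by
    refine intervalIntegral.integral_mono_on_of_le_Ioo hv.le ?_ ?_ ?_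
    · have := i1.comp_mul_left (c := l)
      have e : l * v / l = v := by field_simp
      rw [zero_div, e] at this
      exact this
    · refine IntervalIntegrable.const_mul ?_ l
      refine intervalIntegrable_of_bdd _ (aemeasurable_const.sub hm) 1 ?_ 0 v le_rfl hv.le hv1.le
      intro u hu
      have e1 := hle u hu
      have e2 := hpos u hu
      show |1 - w u| ≤ 1
      rw [abs_le]
      constructor <;> linarith
    · intro x hx
      have hx1 : x < 1 := hx.2.trans hv1
      have h := S1 (l * x) x (mul_pos hl hx.1) (by nlinarith [hx.1]) hx1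
      have h' : l * w x ≤ w (l * x) := by
        have : l * w x * x ≤ w (l * x) * x := by linarith
        exact le_of_mul_le_mul_right this hx.1
      refine max_le (by linarith) ?_
      have := hle x ⟨hx.1, hx1⟩
      exact mul_nonneg hl.le (by linarith)
  rw [intervalIntegral.integral_const_mul] at h2
  calc l * ∫ x in (0 : ℝ)..v, max (l - w (l * x)) 0 ≤ l * (l * ∫ x in (0 : ℝ)..v, (1 - w x)) :=
        mul_le_mul_of_nonneg_left h2 hl.le
    _ = _ := by ring

/-- `E (l - w)_+ ≤ l² E (1 - w)` when the maximum `1` of `w` is attained. -/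
lemma phi_bound (w : ℝ → ℝ) (v l : ℝ) (hv : 0 < v) (hv1 : v < 1) (hl : 0 < l) (hl1 : l < 1)
    (hpos : ∀ u ∈ Ioo (0 : ℝ) 1, 0 < w u) (hle : ∀ u ∈ Ioo (0 : ℝ) 1, w u ≤ 1) (hwv : w v = 1)
    (S1 : ∀ u v : ℝ, 0 < u → u ≤ v → v < 1 → w v * u ≤ w u * v)
    (S2 : ∀ u v : ℝ, 0 < v → v ≤ u → u < 1 → w v * (1 - u) ≤ w u * (1 - v)) :
    ∫ x in (0 : ℝ)..1, max (l - w x) 0 ≤ l ^ 2 * ∫ x in (0 : ℝ)..1, (1 - w x) := by
  have hm := aemeas w S1
  have hmg : AEMeasurable (fun x => max (l - w x) 0) (volume.restrict (Ioo (0 : ℝ) 1)) :=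
    (aemeasurable_const.sub hm).max aemeasurable_const
  have hbg : ∀ u ∈ Ioo (0 : ℝ) 1, |max (l - w u) 0| ≤ 1 := by
    intro u hu
    rw [abs_of_nonneg (le_max_right _ _)]
    refine max_le ?_ zero_le_one
    have := hpos u hu
    linarith
  have hm1 : AEMeasurable (fun x => 1 - w x) (volume.restrict (Ioo (0 : ℝ) 1)) :=
    aemeasurable_const.sub hm
  have hb1 : ∀ u ∈ Ioo (0 : ℝ) 1, |1 - w u| ≤ 1 := by
    intro u hu
    have e1 := hle u hu
    have e2 := hpos u hu
    rw [abs_le]
    constructor <;> linarith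
  have i1 := intervalIntegrable_of_bdd _ hmg 1 hbg 0 v le_rfl hv.le hv1.le
  have i2 := intervalIntegrable_of_bdd _ hmg 1 hbg v 1 hv.le hv1.le le_rfl
  have j1 := intervalIntegrable_of_bdd _ hm1 1 hb1 0 v le_rfl hv.le hv1.le
  have j2 := intervalIntegrable_of_bdd _ hm1 1 hb1 v 1 hv.le hv1.le le_rfl
  rw [← intervalIntegral.integral_add_adjacent_intervals i1 i2,
    ← intervalIntegral.integral_add_adjacent_intervals j1 j2, mul_add]
  refine add_le_add (left_part w v l hv hv1 hl hl1 hpos hle hwv S1) ?_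
  have hrefl : ∀ u ∈ Ioo (0 : ℝ) 1, 1 - u ∈ Ioo (0 : ℝ) 1 := by
    intro u hu
    constructor <;> linarith [hu.1, hu.2]
  have h := left_part (fun x => w (1 - x)) (1 - v) l (by linarith) (by linarith) hl hl1
    (fun u hu => hpos _ (hrefl u hu)) (fun u hu => hle _ (hrefl u hu))
    (by show w (1 - (1 - v)) = 1; rw [sub_sub_cancel, hwv])
    (by
      intro a b ha hab hb
      have := S2 (1 - a) (1 - b) (by linarith) (by linarith) (by linarith)
      simpa using this)
  have e1 := intervalIntegral.integral_comp_sub_left (a := 0) (b := 1 - v)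
    (fun x => max (l - w x) 0) 1
  have e2 := intervalIntegral.integral_comp_sub_left (a := 0) (b := 1 - v)
    (fun x => 1 - w x) 1
  simp only [sub_sub_cancel, sub_zero] at e1 e2
  rw [← e1, ← e2]
  exact h

/-- integral representation of the logarithm -/
lemma log_repr (c : ℝ) (hc : 0 < c) (hc1 : c ≤ 1) :
    ENNReal.ofReal (-Real.log c) = ENNReal.ofReal (1 - c)
      + ∫⁻ l in Ioo (0 : ℝ) 1, ENNReal.ofReal (max (l - c) 0 / l ^ 2) := by
  have hint : ∫ l in c..1, (l - c) / l ^ 2 = -Real.log c - (1 - c) := by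
    have hd : ∀ x ∈ uIcc c 1, HasDerivAt (fun l => Real.log l + c / l) ((x - c) / x ^ 2) x := by
      intro x hx
      rw [uIcc_of_le hc1] at hx
      have hx0 : 0 < x := lt_of_lt_of_le hc hx.1
      have h1 := Real.hasDerivAt_log hx0.ne'
      have h2 := (hasDerivAt_inv hx0.ne').const_mul c
      have h3 := h1.add h2
      have e : x⁻¹ + c * -(x ^ 2)⁻¹ = (x - c) / x ^ 2 := by field_simp; ring
      rw [e] at h3
      refine h3.congr_of_eventuallyEq ?_
      filter_upwards with y
      simp [div_eq_mul_inv]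
    rw [intervalIntegral.integral_eq_sub_of_hasDerivAt hd]
    · simp; field_simp; ring
    · refine ContinuousOn.intervalIntegrable ?_
      rw [uIcc_of_le hc1]
      refine ContinuousOn.div (by fun_prop) (by fun_prop) ?_
      intro x hx
      have : 0 < x := lt_of_lt_of_le hc hx.1
      positivity
  have hcont : ContinuousOn (fun l : ℝ => (l - c) / l ^ 2) (uIcc c 1) := by
    rw [uIcc_of_le hc1]
    refine ContinuousOn.div (by fun_prop) (by fun_prop) ?_
    intro x hx
    have : 0 < x := lt_of_lt_of_le hc hx.1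
    positivity
  have hii : IntervalIntegrable (fun l : ℝ => (l - c) / l ^ 2) volume c 1 :=
    hcont.intervalIntegrable
  have h1 : ∫⁻ l in Ioo (0 : ℝ) 1, ENNReal.ofReal (max (l - c) 0 / l ^ 2)
      = ∫⁻ l in Ioo c 1, ENNReal.ofReal ((l - c) / l ^ 2) := by
    rw [← lintegral_indicator measurableSet_Ioo, ← lintegral_indicator measurableSet_Ioo]
    refine lintegral_congr (fun l => ?_)
    by_cases h : l ∈ Ioo c 1
    · have h' : l ∈ Ioo (0 : ℝ) 1 := ⟨hc.trans h.1, h.2⟩
      rw [indicator_of_mem h, indicator_of_mem h', max_eq_left (by linarith [h.1])]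
    · rw [indicator_of_notMem h]
      by_cases h' : l ∈ Ioo (0 : ℝ) 1
      · rw [indicator_of_mem h']
        have : l ≤ c := by
          by_contra hcon
          exact h ⟨not_le.1 hcon, h'.2⟩
        rw [max_eq_right (by linarith)]
        simp
      · rw [indicator_of_notMem h']
  have h2 : ∫⁻ l in Ioo c 1, ENNReal.ofReal ((l - c) / l ^ 2)
      = ENNReal.ofReal (-Real.log c - (1 - c)) := by
    rw [← hint, intervalIntegral.integral_of_le hc1, integral_Ioc_eq_integral_Ioo]
    rw [ofReal_integral_eq_lintegral_ofReal]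
    · rw [intervalIntegrable_iff_integrableOn_Ioo_of_le hc1] at hii
      exact hii
    · filter_upwards [self_mem_ae_restrict measurableSet_Ioo] with l hl
      have : 0 < l := hc.trans hl.1
      have : 0 ≤ l - c := by linarith [hl.1]
      positivity
  rw [h1, h2, ← ENNReal.ofReal_add (by linarith) (by linarith [Real.log_le_sub_one_of_pos hc])]
  congr 1
  ring

/-- `E (-log w) ≤ 2 E (1 - w)` when the maximum `1` of `w` is attained. -/
lemma log_bound (w : ℝ → ℝ) (v : ℝ) (hv : 0 < v) (hv1 : v < 1)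
    (hpos : ∀ u ∈ Ioo (0 : ℝ) 1, 0 < w u) (hle : ∀ u ∈ Ioo (0 : ℝ) 1, w u ≤ 1) (hwv : w v = 1)
    (S1 : ∀ u v : ℝ, 0 < u → u ≤ v → v < 1 → w v * u ≤ w u * v)
    (S2 : ∀ u v : ℝ, 0 < v → v ≤ u → u < 1 → w v * (1 - u) ≤ w u * (1 - v)) :
    ∫⁻ u in Ioo (0 : ℝ) 1, ENNReal.ofReal (-Real.log (w u))
      ≤ 2 * ∫⁻ u in Ioo (0 : ℝ) 1, ENNReal.ofReal (1 - w u) := by
  have hm := aemeas w S1
  have hm1 : AEMeasurable (fun x => 1 - w x) (volume.restrict (Ioo (0 : ℝ) 1)) :=
    aemeasurable_const.sub hm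
  have hb1 : ∀ u ∈ Ioo (0 : ℝ) 1, |1 - w u| ≤ 1 := by
    intro u hu
    have e1 := hle u hu
    have e2 := hpos u hu
    rw [abs_le]
    constructor <;> linarith
  have j1 := intervalIntegrable_of_bdd _ hm1 1 hb1 0 1 le_rfl zero_le_one le_rfl
  have hrep : ∫⁻ u in Ioo (0 : ℝ) 1, ENNReal.ofReal (-Real.log (w u))
      = ∫⁻ u in Ioo (0 : ℝ) 1, (ENNReal.ofReal (1 - w u)
        + ∫⁻ l in Ioo (0 : ℝ) 1, ENNReal.ofReal (max (l - w u) 0 / l ^ 2)) := by
    refine setLIntegral_congr_fun measurableSet_Ioo (fun u hu => ?_)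
    exact log_repr (w u) (hpos u hu) (hle u hu)
  rw [hrep, lintegral_add_left' hm1.ennreal_ofReal, two_mul]
  refine add_le_add le_rfl ?_
  rw [lintegral_lintegral_swap]
  · have hl : ∀ l ∈ Ioo (0 : ℝ) 1,
        ∫⁻ u in Ioo (0 : ℝ) 1, ENNReal.ofReal (max (l - w u) 0 / l ^ 2)
          ≤ ∫⁻ u in Ioo (0 : ℝ) 1, ENNReal.ofReal (1 - w u) := by
      intro l hl
      have hp := phi_bound w v l hv hv1 hl.1 hl.2 hpos hle hwv S1 S2
      have hmg : AEMeasurable (fun x => max (l - w x) 0) (volume.restrict (Ioo (0 : ℝ) 1)) :=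
        (aemeasurable_const.sub hm).max aemeasurable_const
      have hbg : ∀ u ∈ Ioo (0 : ℝ) 1, |max (l - w u) 0| ≤ 1 := by
        intro u hu
        rw [abs_of_nonneg (le_max_right _ _)]
        refine max_le ?_ zero_le_one
        have := hpos u hu
        linarith [hl.2]
      have i1 := intervalIntegrable_of_bdd _ hmg 1 hbg 0 1 le_rfl zero_le_one le_rfl
      have i1' : IntegrableOn (fun x => max (l - w x) 0) (Ioo (0 : ℝ) 1) := by
        rwa [intervalIntegrable_iff_integrableOn_Ioo_of_le zero_le_one] at i1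
      have j1' : IntegrableOn (fun x => 1 - w x) (Ioo (0 : ℝ) 1) := by
        rwa [intervalIntegrable_iff_integrableOn_Ioo_of_le zero_le_one] at j1
      rw [intervalIntegral.integral_of_le zero_le_one, intervalIntegral.integral_of_le zero_le_one,
        integral_Ioc_eq_integral_Ioo, integral_Ioc_eq_integral_Ioo] at hp
      rw [← ofReal_integral_eq_lintegral_ofReal (i1'.div_const _), ← ofReal_integral_eq_lintegral_ofReal j1']
      · refine ENNReal.ofReal_le_ofReal ?_
        rw [integral_div, div_le_iff₀ (by have := hl.1; positivity)]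
        linarith
      · filter_upwards [self_mem_ae_restrict measurableSet_Ioo] with u hu
        have := hle u hu
        simp only [Pi.zero_apply]
        linarith
      · filter_upwards with u
        exact div_nonneg (le_max_right _ _) (sq_nonneg l)
    calc ∫⁻ l in Ioo (0 : ℝ) 1, ∫⁻ u in Ioo (0 : ℝ) 1, ENNReal.ofReal (max (l - w u) 0 / l ^ 2)
        ≤ ∫⁻ l in Ioo (0 : ℝ) 1, ∫⁻ u in Ioo (0 : ℝ) 1, ENNReal.ofReal (1 - w u) :=
          setLIntegral_mono' measurableSet_Ioo hl
      _ = _ := by simp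
  · have h1 : AEMeasurable (fun p : ℝ × ℝ => w p.1)
        ((volume.restrict (Ioo (0 : ℝ) 1)).prod (volume.restrict (Ioo (0 : ℝ) 1))) :=
      hm.comp_fst
    have h2 : AEMeasurable (fun p : ℝ × ℝ => p.2)
        ((volume.restrict (Ioo (0 : ℝ) 1)).prod (volume.restrict (Ioo (0 : ℝ) 1))) :=
      measurable_snd.aemeasurable
    exact (((h2.sub h1).max aemeasurable_const).div (h2.pow_const 2)).ennreal_ofReal

/-- Main inequality in the quantile variable. -/
lemma unif_bound (W : ℝ → ℝ)
    (hpos : ∀ u ∈ Ioo (0 : ℝ) 1, 0 < W u)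
    (S1 : ∀ u v : ℝ, 0 < u → u ≤ v → v < 1 → W v * u ≤ W u * v)
    (S2 : ∀ u v : ℝ, 0 < v → v ≤ u → u < 1 → W v * (1 - u) ≤ W u * (1 - v)) :
    IntegrableOn W (Ioo (0 : ℝ) 1) ∧ 0 < ∫ u in Ioo (0 : ℝ) 1, W u ∧
    IntegrableOn (fun u => Real.log (W u)) (Ioo (0 : ℝ) 1) ∧
    Real.log (2 * ∫ u in Ioo (0 : ℝ) 1, W u) - 1 ≤ ∫ u in Ioo (0 : ℝ) 1, Real.log (W u) := by
  have hm := aemeas W S1
  have half : (1 / 2 : ℝ) ∈ Ioo (0 : ℝ) 1 := by constructor <;> norm_num
  have hbd : ∀ u ∈ Ioo (0 : ℝ) 1, W u ≤ 2 * W (1 / 2) := by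
    intro u hu
    have hW := hpos u hu
    have hWh := hpos _ half
    rcases le_total u (1 / 2) with h | h
    · have := S2 (1 / 2) u hu.1 h (by norm_num)
      nlinarith [hu.1]
    · have := S1 (1 / 2) u (by norm_num) h hu.2
      nlinarith [hu.2]
  set N := sSup (W '' Ioo (0 : ℝ) 1) with hN
  have hBdd : BddAbove (W '' Ioo (0 : ℝ) 1) := by
    refine ⟨2 * W (1 / 2), ?_⟩
    rintro _ ⟨u, hu, rfl⟩
    exact hbd u hu
  have hne : (W '' Ioo (0 : ℝ) 1).Nonempty := ⟨_, _, half, rfl⟩
  have hleN : ∀ u ∈ Ioo (0 : ℝ) 1, W u ≤ N := fun u hu => le_csSup hBdd ⟨u, hu, rfl⟩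
  have hNpos : 0 < N := lt_of_lt_of_le (hpos _ half) (hleN _ half)
  have hIW : IntegrableOn W (Ioo (0 : ℝ) 1) := by
    refine Integrable.mono' (integrable_const N) hm.aestronglyMeasurable ?_
    filter_upwards [self_mem_ae_restrict measurableSet_Ioo] with u hu
    rw [Real.norm_eq_abs, abs_of_pos (hpos u hu)]
    exact hleN u hu
  have vol1 : (volume.restrict (Ioo (0 : ℝ) 1)).real univ = 1 := by
    simp [Measure.real]
  have ha : 0 < ∫ u in Ioo (0 : ℝ) 1, W u := by
    rw [setIntegral_pos_iff_support_of_nonneg_ae]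
    · have : Ioo (0 : ℝ) 1 ⊆ Function.support W ∩ Ioo 0 1 := fun u hu =>
        ⟨(hpos u hu).ne', hu⟩
      refine lt_of_lt_of_le ?_ (measure_mono this)
      simp
    · filter_upwards [self_mem_ae_restrict measurableSet_Ioo] with u hu
      exact (hpos u hu).le
    · exact hIW
  set a := ∫ u in Ioo (0 : ℝ) 1, W u with hadef
  -- the bound for each value `W v`
  have key : ∀ v ∈ Ioo (0 : ℝ) 1, IntegrableOn (fun u => Real.log (W u)) (Ioo (0 : ℝ) 1) ∧
      Real.log (W v) - 2 + 2 * (a - (N - W v)) / W v ≤ ∫ u in Ioo (0 : ℝ) 1, Real.log (W u) := by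
    intro v hv
    set s := W v with hs
    have hs0 : 0 < s := hpos v hv
    set w : ℝ → ℝ := fun u => min (W u) s / s with hw
    have wpos : ∀ u ∈ Ioo (0 : ℝ) 1, 0 < w u := fun u hu => div_pos (lt_min (hpos u hu) hs0) hs0
    have wle : ∀ u ∈ Ioo (0 : ℝ) 1, w u ≤ 1 := fun u _ => by
      rw [hw]; simp only; rw [div_le_one hs0]; exact min_le_right _ _
    have wv : w v = 1 := by
      simp only [hw, ← hs, min_self]; exact div_self hs0.ne'
    have T1 : ∀ u v : ℝ, 0 < u → u ≤ v → v < 1 → w v * u ≤ w u * v := by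
      intro x y hx hxy hy
      simp only [hw]
      rw [div_mul_eq_mul_div, div_mul_eq_mul_div, div_le_div_iff_of_pos_right hs0]
      have h := S1 x y hx hxy hy
      rcases le_total (W x) s with h1 | h1
      · rw [min_eq_left h1]
        refine le_trans (mul_le_mul_of_nonneg_right (min_le_left _ _) hx.le) h
      · rw [min_eq_right h1]
        exact mul_le_mul (min_le_right _ _) hxy hx.le hs0.le
    have T2 : ∀ u v : ℝ, 0 < v → v ≤ u → u < 1 → w v * (1 - u) ≤ w u * (1 - v) := by
      intro x y hy hyx hx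
      simp only [hw]
      rw [div_mul_eq_mul_div, div_mul_eq_mul_div, div_le_div_iff_of_pos_right hs0]
      have h := S2 x y hy hyx hx
      rcases le_total (W x) s with h1 | h1
      · rw [min_eq_left h1]
        refine le_trans (mul_le_mul_of_nonneg_right (min_le_left _ _) (by linarith)) h
      · rw [min_eq_right h1]
        exact mul_le_mul (min_le_right _ _) (by linarith) (by linarith) hs0.le
    have hmw : AEMeasurable w (volume.restrict (Ioo (0 : ℝ) 1)) :=
      (hm.min aemeasurable_const).div_const s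
    have LB := log_bound w v hv.1 hv.2 wpos wle wv T1 T2
    have hI1 : IntegrableOn (fun u => 1 - w u) (Ioo (0 : ℝ) 1) := by
      refine Integrable.mono' (integrable_const 1) (aemeasurable_const.sub hmw).aestronglyMeasurable ?_
      filter_upwards [self_mem_ae_restrict measurableSet_Ioo] with u hu
      have e1 := wpos u hu
      have e2 := wle u hu
      show |1 - w u| ≤ 1
      rw [abs_le]; constructor <;> linarith
    have hnn1 : 0 ≤ᵐ[volume.restrict (Ioo (0 : ℝ) 1)] fun u => 1 - w u := by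
      filter_upwards [self_mem_ae_restrict measurableSet_Ioo] with u hu
      have := wle u hu
      simp only [Pi.zero_apply]; linarith
    have hnn2 : 0 ≤ᵐ[volume.restrict (Ioo (0 : ℝ) 1)] fun u => -Real.log (w u) := by
      filter_upwards [self_mem_ae_restrict measurableSet_Ioo] with u hu
      have := Real.log_nonpos (wpos u hu).le (wle u hu)
      simp only [Pi.zero_apply]; linarith
    rw [← ofReal_integral_eq_lintegral_ofReal hI1 hnn1] at LB
    have hmlog : AEMeasurable (fun u => -Real.log (w u)) (volume.restrict (Ioo (0 : ℝ) 1)) :=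
      hmw.log.neg
    have hI2 : IntegrableOn (fun u => -Real.log (w u)) (Ioo (0 : ℝ) 1) := by
      refine ⟨hmlog.aestronglyMeasurable, ?_⟩
      rw [hasFiniteIntegral_iff_ofReal hnn2]
      refine lt_of_le_of_lt LB ?_
      exact ENNReal.mul_lt_top (by simp) ENNReal.ofReal_lt_top
    rw [← ofReal_integral_eq_lintegral_ofReal hI2 hnn2] at LB
    have hnnI : 0 ≤ ∫ u in Ioo (0 : ℝ) 1, (1 - w u) := integral_nonneg_of_ae hnn1
    have LB' : ∫ u in Ioo (0 : ℝ) 1, -Real.log (w u) ≤ 2 * ∫ u in Ioo (0 : ℝ) 1, (1 - w u) := by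
      have e2 : (2 : ENNReal) * ENNReal.ofReal (∫ u in Ioo (0 : ℝ) 1, (1 - w u))
          = ENNReal.ofReal (2 * ∫ u in Ioo (0 : ℝ) 1, (1 - w u)) := by
        rw [ENNReal.ofReal_mul (by norm_num)]; simp
      rw [e2] at LB
      exact (ENNReal.ofReal_le_ofReal_iff (by positivity)).1 LB
    have hI2' : IntegrableOn (fun u => Real.log (w u)) (Ioo (0 : ℝ) 1) := by
      have := hI2.neg
      simpa using this
    have hIw : IntegrableOn w (Ioo (0 : ℝ) 1) := by
      refine Integrable.mono' (integrable_const 1) hmw.aestronglyMeasurable ?_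
      filter_upwards [self_mem_ae_restrict measurableSet_Ioo] with u hu
      rw [Real.norm_eq_abs, abs_of_pos (wpos u hu)]
      exact wle u hu
    -- log W is squeezed
    have lower : ∀ u ∈ Ioo (0 : ℝ) 1, Real.log s + Real.log (w u) ≤ Real.log (W u) := by
      intro u hu
      rw [← Real.log_mul hs0.ne' (wpos u hu).ne']
      refine Real.log_le_log (mul_pos hs0 (wpos u hu)) ?_
      simp only [hw]
      rw [mul_div_cancel₀ _ hs0.ne']
      exact min_le_left _ _
    have hIlog : IntegrableOn (fun u => Real.log (W u)) (Ioo (0 : ℝ) 1) := by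
      have hg : IntegrableOn (fun u => |Real.log s + Real.log (w u)| + |Real.log N|)
          (Ioo (0 : ℝ) 1) :=
        (((integrable_const (Real.log s)).add hI2').abs).add (integrable_const _)
      refine Integrable.mono' hg hm.log.aestronglyMeasurable ?_
      filter_upwards [self_mem_ae_restrict measurableSet_Ioo] with u hu
      have h1 := lower u hu
      have h2 : Real.log (W u) ≤ Real.log N := Real.log_le_log (hpos u hu) (hleN u hu)
      rw [Real.norm_eq_abs, abs_le]
      constructor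
      · linarith [neg_abs_le (Real.log s + Real.log (w u)), abs_nonneg (Real.log N)]
      · linarith [le_abs_self (Real.log N), abs_nonneg (Real.log s + Real.log (w u))]
    refine ⟨hIlog, ?_⟩
    have h3 : ∫ u in Ioo (0 : ℝ) 1, (Real.log s + Real.log (w u))
        ≤ ∫ u in Ioo (0 : ℝ) 1, Real.log (W u) := by
      refine setIntegral_mono_on ((integrable_const _).add hI2') hIlog measurableSet_Ioo lower
    rw [integral_add (integrable_const _) hI2', integral_const, vol1, one_smul] at h3
    rw [integral_neg] at LB'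
    rw [integral_sub (integrable_const _) hIw, integral_const, vol1, one_smul] at LB'
    have h4 : (a - (N - s)) / s ≤ ∫ u in Ioo (0 : ℝ) 1, w u := by
      have : ∫ u in Ioo (0 : ℝ) 1, (W u - (N - s)) / s ≤ ∫ u in Ioo (0 : ℝ) 1, w u := by
        refine setIntegral_mono_on ((hIW.sub (integrable_const _)).div_const _) hIw
          measurableSet_Ioo (fun u hu => ?_)
        simp only [hw]
        rw [div_le_div_iff_of_pos_right hs0]
        have h5 := hleN u hu
        have h6 := hleN v hv
        refine le_min (by linarith) (by linarith)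
      rw [integral_div, integral_sub hIW (integrable_const _), integral_const, vol1, one_smul,
        ← hadef] at this
      exact this
    have h7 : 2 * (a - (N - s)) / s = 2 * ((a - (N - s)) / s) := by ring
    rw [h7]
    linarith
  refine ⟨hIW, ha, (key _ half).1, ?_⟩
  by_contra hcon
  rw [not_le] at hcon
  set L := ∫ u in Ioo (0 : ℝ) 1, Real.log (W u) with hL
  have h1 : Real.exp (L + 1) < 2 * a := by
    rw [← Real.exp_log (by positivity : (0 : ℝ) < 2 * a), Real.exp_lt_exp]
    linarith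
  -- choose v with W v close to the supremum
  obtain ⟨_, ⟨v, hv, rfl⟩, hvN⟩ := exists_lt_of_lt_csSup hne
    (show N - (2 * a - Real.exp (L + 1)) / 4 < N by linarith)
  have hk := (key v hv).2
  have hs0 := hpos v hv
  set b := a - (N - W v) with hb
  have hb1 : Real.exp (L + 1) < 2 * b := by
    have : 0 < Real.exp (L + 1) := Real.exp_pos _
    linarith
  have hb0 : 0 < 2 * b := lt_trans (Real.exp_pos _) hb1
  have h2 : Real.log (2 * b / W v) ≤ 2 * b / W v - 1 := Real.log_le_sub_one_of_pos (div_pos hb0 hs0)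
  rw [Real.log_div hb0.ne' hs0.ne'] at h2
  have h3 : L + 1 < Real.log (2 * b) := by
    rw [← Real.log_exp (L + 1)]
    exact Real.log_lt_log (Real.exp_pos _) hb1
  linarith

section LogConcave

variable (f : ℝ → ℝ) (hf0 : ∀ x, 0 ≤ f x)
  (hlc : ∀ x y t : ℝ, 0 ≤ t → t ≤ 1 → f x ^ t * f y ^ (1 - t) ≤ f (t * x + (1 - t) * y))

include hf0 hlc

lemma lc_min (x y z : ℝ) (hxz : x ≤ z) (hzy : z ≤ y) : min (f x) (f y) ≤ f z := by
  rcases eq_or_lt_of_le (hxz.trans hzy) with h | h
  · have : z = x := le_antisymm (by rw [h]; exact hzy) hxz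
    rw [this]; exact min_le_left _ _
  · set t := (y - z) / (y - x) with ht
    have hyx : 0 < y - x := by linarith
    have ht0 : 0 ≤ t := div_nonneg (by linarith) hyx.le
    have ht1 : t ≤ 1 := by rw [ht, div_le_one hyx]; linarith
    have hz : t * x + (1 - t) * y = z := by
      have : t * (y - x) = y - z := by rw [ht]; field_simp
      linarith
    have := hlc x y t ht0 ht1
    rw [hz] at this
    refine le_trans ?_ this
    set m := min (f x) (f y) with hm
    have hm0 : 0 ≤ m := le_min (hf0 x) (hf0 y)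
    calc m = m ^ (t + (1 - t)) := by rw [add_sub_cancel, Real.rpow_one]
      _ = m ^ t * m ^ (1 - t) := Real.rpow_add_of_nonneg hm0 ht0 (by linarith)
      _ ≤ f x ^ t * f y ^ (1 - t) := by
        refine mul_le_mul ?_ ?_ (Real.rpow_nonneg hm0 _) (Real.rpow_nonneg (hf0 x) _)
        · exact Real.rpow_le_rpow hm0 (min_le_left _ _) ht0
        · exact Real.rpow_le_rpow hm0 (min_le_right _ _) (by linarith)

lemma lc_measurable : Measurable f := by
  refine measurable_of_Ioi (fun c => ?_)
  refine Set.OrdConnected.measurableSet ⟨fun x hx y hy z hz => ?_⟩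
  simp only [mem_preimage, mem_Ioi] at hx hy ⊢
  exact lt_of_lt_of_le (lt_min hx hy) (lc_min f hf0 hlc x y z hz.1 hz.2)

/-- four point inequality -/
lemma lc_four (x y t : ℝ) (hxy : x ≤ y) (ht : 0 ≤ t) : f x * f (y + t) ≤ f (x + t) * f y := by
  rcases eq_or_lt_of_le (show x ≤ y + t by linarith) with h | h
  · have h1 : t = 0 := by linarith
    have h2 : x = y := by linarith
    rw [h1, h2]; simp
  · set L := y + t - x with hL
    have hL0 : 0 < L := by linarith
    set θ := t / L with hθ
    have hθ0 : 0 ≤ θ := div_nonneg ht hL0.le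
    have hθ1 : θ ≤ 1 := by rw [hθ, div_le_one hL0]; linarith
    have hθL : θ * L = t := by rw [hθ]; field_simp
    have a1 := hlc x (y + t) θ hθ0 hθ1
    have a2 := hlc x (y + t) (1 - θ) (by linarith) (by linarith)
    have e1 : θ * x + (1 - θ) * (y + t) = y := by
      have : θ * (y + t - x) = t := hθL
      linarith
    have e2 : (1 - θ) * x + (1 - (1 - θ)) * (y + t) = x + t := by
      have : θ * (y + t - x) = t := hθL
      linarith
    rw [e1] at a1
    rw [e2, sub_sub_cancel] at a2
    have b1 : f x ^ θ * f x ^ (1 - θ) = f x := by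
      rw [← Real.rpow_add_of_nonneg (hf0 x) hθ0 (by linarith), add_sub_cancel, Real.rpow_one]
    have b2 : f (y + t) ^ θ * f (y + t) ^ (1 - θ) = f (y + t) := by
      rw [← Real.rpow_add_of_nonneg (hf0 _) hθ0 (by linarith), add_sub_cancel, Real.rpow_one]
    calc f x * f (y + t) = (f x ^ (1 - θ) * f (y + t) ^ θ) * (f x ^ θ * f (y + t) ^ (1 - θ)) := by
          rw [← b1, ← b2]
          simp only [b1, b2]
          nth_rewrite 1 [← b1]
          nth_rewrite 1 [← b2]
          ring
      _ ≤ f (x + t) * f y := by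
          refine mul_le_mul a2 a1 ?_ (hf0 _)
          exact mul_nonneg (Real.rpow_nonneg (hf0 _) _) (Real.rpow_nonneg (hf0 _) _)

lemma lc_pos (x y z : ℝ) (hx : 0 < f x) (hy : 0 < f y) (hxz : x ≤ z) (hzy : z ≤ y) : 0 < f z :=
  lt_of_lt_of_le (lt_min hx hy) (lc_min f hf0 hlc x y z hxz hzy)

end LogConcave

section Distribution

variable (f : ℝ → ℝ) (hf0 : ∀ x, 0 ≤ f x) (hfi : Integrable f) (hf1 : ∫ x, f x = 1)
  (hlc : ∀ x y t : ℝ, 0 ≤ t → t ≤ 1 → f x ^ t * f y ^ (1 - t) ≤ f (t * x + (1 - t) * y))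

/-- distribution function -/
noncomputable def F (x : ℝ) : ℝ := ∫ t in Iic x, f t

/-- survival function -/
noncomputable def G (x : ℝ) : ℝ := ∫ t in Ioi x, f t

include hfi hf1 in
lemma F_add_G (x : ℝ) : F f x + G f x = 1 := by
  unfold F G
  rw [intervalIntegral.integral_Iic_add_Ioi hfi.integrableOn hfi.integrableOn, hf1]

include hf0 in
lemma F_nonneg (x : ℝ) : 0 ≤ F f x := integral_nonneg hf0

include hf0 in
lemma G_nonneg (x : ℝ) : 0 ≤ G f x := integral_nonneg hf0

include hf0 hfi in
lemma F_mono : Monotone (F f) := by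
  intro x y hxy
  exact setIntegral_mono_set hfi.integrableOn (Filter.Eventually.of_forall hf0)
    (Filter.Eventually.of_forall (Iic_subset_Iic.2 hxy))

include hfi in
lemma F_cont : Continuous (F f) := by
  have h : F f = fun x => F f 0 + ∫ t in (0 : ℝ)..x, f t := by
    ext x
    have := intervalIntegral.integral_Iic_sub_Iic (μ := volume) (f := f) (a := 0) (b := x)
      hfi.integrableOn hfi.integrableOn
    unfold F
    linarith
  rw [h]
  exact continuous_const.add
    (intervalIntegral.continuous_primitive (fun a b => hfi.intervalIntegrable) 0)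

include hfi hf1 in
lemma F_top : Filter.Tendsto (F f) Filter.atTop (nhds 1) := by
  have h := (aecover_Iic (μ := (volume : Measure ℝ)) (b := fun x : ℝ => x)
    Filter.tendsto_id).integral_tendsto_of_countably_generated hfi
  rw [hf1] at h
  exact h

include hfi hf1 in
lemma F_bot : Filter.Tendsto (F f) Filter.atBot (nhds 0) := by
  have h := (aecover_Ioi (μ := (volume : Measure ℝ)) (a := fun x : ℝ => x)
    Filter.tendsto_id).integral_tendsto_of_countably_generated hfi
  rw [hf1] at h
  have h2 : F f = fun x => 1 - G f x := by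
    ext x; have := F_add_G f hfi hf1 x; linarith
  rw [h2]
  have h3 : Filter.Tendsto (fun x => 1 - G f x) Filter.atBot (nhds (1 - 1)) :=
    tendsto_const_nhds.sub h
  simpa using h3

include hf0 hfi hlc in
lemma F_cmp (x y : ℝ) (hxy : x ≤ y) : F f x * f y ≤ F f y * f x := by
  unfold F
  have h1 : ∫ t in Iic y, f t = ∫ t in Iic x, f (t + (y - x)) := by
    rw [← integral_indicator measurableSet_Iic, ← integral_indicator measurableSet_Iic,
      ← integral_add_right_eq_self (fun t => (Iic y).indicator f t) (y - x)]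
    refine integral_congr_ae (Filter.Eventually.of_forall (fun t => ?_))
    simp only [indicator, mem_Iic]
    have : t + (y - x) ≤ y ↔ t ≤ x := by constructor <;> intro h <;> linarith
    simp only [this]
  rw [h1, ← integral_mul_const, ← integral_mul_const]
  have hsh : Integrable (fun t => f (t + (y - x))) := hfi.comp_add_right (y - x)
  refine setIntegral_mono_on (hfi.integrableOn.mul_const _) (hsh.integrableOn.mul_const _)
    measurableSet_Iic (fun t ht => ?_)
  have := lc_four f hf0 hlc t x (y - x) ht (by linarith)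
  rw [add_sub_cancel] at this
  exact this

include hf0 hfi hlc in
lemma G_cmp (x y : ℝ) (hxy : x ≤ y) : G f y * f x ≤ G f x * f y := by
  unfold G
  have h1 : ∫ t in Ioi y, f t = ∫ t in Ioi x, f (t + (y - x)) := by
    rw [← integral_indicator measurableSet_Ioi, ← integral_indicator measurableSet_Ioi,
      ← integral_add_right_eq_self (fun t => (Ioi y).indicator f t) (y - x)]
    refine integral_congr_ae (Filter.Eventually.of_forall (fun t => ?_))
    simp only [indicator, mem_Ioi]
    have : y < t + (y - x) ↔ x < t := by constructor <;> intro h <;> linarith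
    simp only [this]
  rw [h1, ← integral_mul_const, ← integral_mul_const]
  have hsh : Integrable (fun t => f (t + (y - x))) := hfi.comp_add_right (y - x)
  refine setIntegral_mono_on (hsh.integrableOn.mul_const _) (hfi.integrableOn.mul_const _)
    measurableSet_Ioi (fun t ht => ?_)
  have := lc_four f hf0 hlc x t (y - x) (le_of_lt ht) (by linarith)
  rw [add_sub_cancel] at this
  linarith

include hf0 hlc in
lemma pos_of_FG (x : ℝ) (hF : 0 < F f x) (hG : 0 < G f x) : 0 < f x := by
  have h1 : ∃ y, y ≤ x ∧ 0 < f y := by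
    by_contra hcon
    push Not at hcon
    have : F f x = 0 := by
      unfold F
      refine setIntegral_eq_zero_of_forall_eq_zero (fun t ht => ?_)
      exact le_antisymm (hcon t ht) (hf0 t)
    linarith
  have h2 : ∃ y, x < y ∧ 0 < f y := by
    by_contra hcon
    push Not at hcon
    have : G f x = 0 := by
      unfold G
      refine setIntegral_eq_zero_of_forall_eq_zero (fun t ht => ?_)
      exact le_antisymm (hcon t ht) (hf0 t)
    linarith
  obtain ⟨y, hy, hfy⟩ := h1
  obtain ⟨z, hz, hfz⟩ := h2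
  exact lc_pos f hf0 hlc y z x hfy hfz hy hz.le

include hfi hf1 in
lemma exists_quantile (u : ℝ) (hu : u ∈ Ioo (0 : ℝ) 1) : ∃ x, F f x = u := by
  have h1 : ∃ a, F f a ≤ u := ((F_bot f hfi hf1).eventually (ge_mem_nhds hu.1)).exists
  have h2 : ∃ b, u ≤ F f b := ((F_top f hfi hf1).eventually (le_mem_nhds hu.2)).exists
  obtain ⟨a, ha⟩ := h1
  obtain ⟨b, hb⟩ := h2
  exact mem_range_of_exists_le_of_exists_ge (F_cont f hfi) ⟨a, ha⟩ ⟨b, hb⟩

open Classical in
/-- quantile function -/
noncomputable def q (u : ℝ) : ℝ := if h : ∃ x, F f x = u then h.choose else 0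

include hfi hf1 in
lemma F_q (u : ℝ) (hu : u ∈ Ioo (0 : ℝ) 1) : F f (q f u) = u := by
  have h := exists_quantile f hfi hf1 u hu
  unfold q
  rw [dif_pos h]
  exact h.choose_spec

include hfi hf1 in
lemma G_q (u : ℝ) (hu : u ∈ Ioo (0 : ℝ) 1) : G f (q f u) = 1 - u := by
  have := F_add_G f hfi hf1 (q f u)
  rw [F_q f hfi hf1 u hu] at this
  linarith

include hf0 hfi hf1 hlc in
lemma q_le_iff (u x : ℝ) (hu : u ∈ Ioo (0 : ℝ) 1) : q f u ≤ x ↔ u ≤ F f x := by
  constructor
  · intro h
    have := F_mono f hf0 hfi h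
    rwa [F_q f hfi hf1 u hu] at this
  · intro h
    by_contra hcon
    rw [not_le] at hcon
    have h1 : F f x ≤ u := by
      have := F_mono f hf0 hfi hcon.le
      rwa [F_q f hfi hf1 u hu] at this
    have h2 : F f x = u := le_antisymm h1 h
    have h3 : ∫ t in x..(q f u), f t = 0 := by
      rw [← intervalIntegral.integral_Iic_sub_Iic hfi.integrableOn hfi.integrableOn]
      change F f (q f u) - F f x = 0
      rw [F_q f hfi hf1 u hu, h2, sub_self]
    have h4 : 0 < ∫ t in x..(q f u), f t := by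
      refine intervalIntegral.intervalIntegral_pos_of_pos_on hfi.intervalIntegrable
        (fun t ht => ?_) hcon
      have e1 : F f t = u := by
        apply le_antisymm
        · have := F_mono f hf0 hfi ht.2.le
          rwa [F_q f hfi hf1 u hu] at this
        · have := F_mono f hf0 hfi ht.1.le
          rwa [h2] at this
      refine pos_of_FG f hf0 hlc t ?_ ?_
      · rw [e1]; exact hu.1
      · have := F_add_G f hfi hf1 t
        have := hu.2
        linarith
    linarith

include hf0 hfi hf1 hlc in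
lemma q_mono : MonotoneOn (q f) (Ioo (0 : ℝ) 1) := by
  intro u hu v hv huv
  rw [q_le_iff f hf0 hfi hf1 hlc u _ hu, F_q f hfi hf1 v hv]
  exact huv

include hf0 hfi hf1 hlc in
lemma q_aemeas : AEMeasurable (q f) (volume.restrict (Ioo (0 : ℝ) 1)) :=
  aemeasurable_restrict_of_monotoneOn measurableSet_Ioo (q_mono f hf0 hfi hf1 hlc)

include hf0 hfi hf1 hlc in
lemma map_q : (volume.restrict (Ioo (0 : ℝ) 1)).map (q f)
    = volume.withDensity (fun x => ENNReal.ofReal (f x)) := by
  haveI : IsProbabilityMeasure ((volume : Measure ℝ).restrict (Ioo (0 : ℝ) 1)) := ⟨by simp⟩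
  haveI : IsProbabilityMeasure (((volume : Measure ℝ).restrict (Ioo (0 : ℝ) 1)).map (q f)) :=
    Measure.isProbabilityMeasure_map (q_aemeas f hf0 hfi hf1 hlc)
  refine Measure.ext_of_Iic _ _ (fun x => ?_)
  rw [Measure.map_apply_of_aemeasurable (q_aemeas f hf0 hfi hf1 hlc) measurableSet_Iic,
    withDensity_apply _ measurableSet_Iic,
    ← ofReal_integral_eq_lintegral_ofReal hfi.integrableOn (Filter.Eventually.of_forall hf0)]
  change _ = ENNReal.ofReal (F f x)
  have hFle : F f x ≤ 1 := by
    have := F_add_G f hfi hf1 x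
    have := G_nonneg f hf0 x
    linarith
  rw [Measure.restrict_apply' measurableSet_Ioo]
  apply le_antisymm
  · have : q f ⁻¹' Iic x ∩ Ioo 0 1 ⊆ Ioc 0 (F f x) := by
      rintro u ⟨hu1, hu2⟩
      exact ⟨hu2.1, (q_le_iff f hf0 hfi hf1 hlc u x hu2).1 hu1⟩
    refine (measure_mono this).trans ?_
    simp
  · have : Ioo 0 (F f x) ⊆ q f ⁻¹' Iic x ∩ Ioo 0 1 := by
      intro u hu
      have hu' : u ∈ Ioo (0 : ℝ) 1 := ⟨hu.1, lt_of_lt_of_le hu.2 hFle⟩
      exact ⟨(q_le_iff f hf0 hfi hf1 hlc u x hu').2 hu.2.le, hu'⟩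
    refine le_trans ?_ (measure_mono this)
    simp

end Distribution

section Quantile

variable (f : ℝ → ℝ) (hf0 : ∀ x, 0 ≤ f x) (hfi : Integrable f) (hf1 : ∫ x, f x = 1)
  (hlc : ∀ x y t : ℝ, 0 ≤ t → t ≤ 1 → f x ^ t * f y ^ (1 - t) ≤ f (t * x + (1 - t) * y))

/-- the function `F (1 - F) / f` in the quantile variable -/
noncomputable def W (u : ℝ) : ℝ := u * (1 - u) / f (q f u)

include hf0 hfi hf1 hlc

lemma fq_pos (u : ℝ) (hu : u ∈ Ioo (0 : ℝ) 1) : 0 < f (q f u) := by
  refine pos_of_FG f hf0 hlc _ ?_ ?_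
  · rw [F_q f hfi hf1 u hu]; exact hu.1
  · rw [G_q f hfi hf1 u hu]; linarith [hu.2]

lemma W_pos (u : ℝ) (hu : u ∈ Ioo (0 : ℝ) 1) : 0 < W f u :=
  div_pos (mul_pos hu.1 (by linarith [hu.2])) (fq_pos f hf0 hfi hf1 hlc u hu)

lemma W_S1 (u v : ℝ) (hu : 0 < u) (huv : u ≤ v) (hv : v < 1) : W f v * u ≤ W f u * v := by
  have hu' : u ∈ Ioo (0 : ℝ) 1 := ⟨hu, lt_of_le_of_lt huv hv⟩
  have hv' : v ∈ Ioo (0 : ℝ) 1 := ⟨lt_of_lt_of_le hu huv, hv⟩
  have h1 := G_cmp f hf0 hfi hlc _ _ (q_mono f hf0 hfi hf1 hlc hu' hv' huv)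
  rw [G_q f hfi hf1 u hu', G_q f hfi hf1 v hv'] at h1
  have p1 := fq_pos f hf0 hfi hf1 hlc u hu'
  have p2 := fq_pos f hf0 hfi hf1 hlc v hv'
  unfold W
  rw [div_mul_eq_mul_div, div_mul_eq_mul_div, div_le_div_iff₀ p2 p1]
  have h2 : 0 ≤ u * v := mul_nonneg hu.le hv'.1.le
  nlinarith [mul_le_mul_of_nonneg_left h1 h2]

lemma W_S2 (u v : ℝ) (hv : 0 < v) (hvu : v ≤ u) (hu : u < 1) :
    W f v * (1 - u) ≤ W f u * (1 - v) := by
  have hu' : u ∈ Ioo (0 : ℝ) 1 := ⟨lt_of_lt_of_le hv hvu, hu⟩
  have hv' : v ∈ Ioo (0 : ℝ) 1 := ⟨hv, lt_of_le_of_lt hvu hu⟩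
  have h1 := F_cmp f hf0 hfi hlc _ _ (q_mono f hf0 hfi hf1 hlc hv' hu' hvu)
  rw [F_q f hfi hf1 u hu', F_q f hfi hf1 v hv'] at h1
  have p1 := fq_pos f hf0 hfi hf1 hlc u hu'
  have p2 := fq_pos f hf0 hfi hf1 hlc v hv'
  unfold W
  rw [div_mul_eq_mul_div, div_mul_eq_mul_div, div_le_div_iff₀ p2 p1]
  have h2 : 0 ≤ (1 - u) * (1 - v) := mul_nonneg (by linarith) (by linarith [hv'.2])
  nlinarith [mul_le_mul_of_nonneg_left h1 h2]

lemma f_bdd (x : ℝ) : f x ≤ 2 * f (q f (1 / 2)) := by
  have half : (1 / 2 : ℝ) ∈ Ioo (0 : ℝ) 1 := by constructor <;> norm_num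
  have hF := F_q f hfi hf1 _ half
  have hG := G_q f hfi hf1 _ half
  have p := fq_pos f hf0 hfi hf1 hlc _ half
  have hs := F_add_G f hfi hf1 x
  have hF0 := F_nonneg f hf0 x
  have hG0 := G_nonneg f hf0 x
  rcases le_total x (q f (1 / 2)) with h | h
  · have := G_cmp f hf0 hfi hlc _ _ h
    rw [hG] at this
    nlinarith
  · have := F_cmp f hf0 hfi hlc _ _ h
    rw [hF] at this
    nlinarith

lemma lintegral_q (φ : ℝ → ENNReal) (hφ : Measurable φ) :
    ∫⁻ u in Ioo (0 : ℝ) 1, φ (q f u) = ∫⁻ x, ENNReal.ofReal (f x) * φ x := by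
  have hfm := lc_measurable f hf0 hlc
  rw [← lintegral_map' hφ.aemeasurable (q_aemeas f hf0 hfi hf1 hlc), map_q f hf0 hfi hf1 hlc,
    lintegral_withDensity_eq_lintegral_mul _ hfm.ennreal_ofReal hφ]
  rfl

lemma integral_q (φ : ℝ → ℝ) (hφ : Measurable φ) :
    ∫ u in Ioo (0 : ℝ) 1, φ (q f u) = ∫ x, f x * φ x := by
  have hfm := lc_measurable f hf0 hlc
  rw [← integral_map (q_aemeas f hf0 hfi hf1 hlc) hφ.aestronglyMeasurable,
    map_q f hf0 hfi hf1 hlc, integral_withDensity_eq_integral_toReal_smul hfm.ennreal_ofReal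
      (Filter.Eventually.of_forall (fun x => ENNReal.ofReal_lt_top))]
  refine integral_congr_ae (Filter.Eventually.of_forall (fun x => ?_))
  simp only [smul_eq_mul]
  rw [ENNReal.toReal_ofReal (hf0 x)]

/-- `h(f) ≥ 1 + log (2 a)` with `a = E[F (1 - F) / f]`. -/
lemma entropy_lower : 0 < ∫ u in Ioo (0 : ℝ) 1, W f u ∧
    1 + Real.log (2 * ∫ u in Ioo (0 : ℝ) 1, W f u) ≤ ∫ x, Real.negMulLog (f x) := by
  have hfm := lc_measurable f hf0 hlc
  obtain ⟨h1, h2, h3, h4⟩ := unif_bound (W f) (W_pos f hf0 hfi hf1 hlc) (W_S1 f hf0 hfi hf1 hlc)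
    (W_S2 f hf0 hfi hf1 hlc)
  refine ⟨h2, ?_⟩
  have e1 : ∫ x, Real.negMulLog (f x) = ∫ u in Ioo (0 : ℝ) 1, -Real.log (f (q f u)) := by
    rw [integral_q f hf0 hfi hf1 hlc (fun x => -Real.log (f x)) hfm.log.neg]
    refine integral_congr_ae (Filter.Eventually.of_forall (fun x => ?_))
    simp [Real.negMulLog]
  have iL : IntegrableOn Real.log (Ioo (0 : ℝ) 1) := by
    have := intervalIntegral.intervalIntegrable_log' (a := 0) (b := 1)
    rwa [intervalIntegrable_iff_integrableOn_Ioo_of_le zero_le_one] at this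
  have vL : ∫ u in Ioo (0 : ℝ) 1, Real.log u = -1 := by
    have := integral_log (a := 0) (b := 1)
    rw [intervalIntegral.integral_of_le zero_le_one, integral_Ioc_eq_integral_Ioo] at this
    rw [this]; simp
  have iR : IntegrableOn (fun u => Real.log (1 - u)) (Ioo (0 : ℝ) 1) := by
    have := (intervalIntegral.intervalIntegrable_log' (a := 0) (b := 1)).comp_sub_left 1
    simp only [sub_zero, sub_self] at this
    have := this.symm
    rwa [intervalIntegrable_iff_integrableOn_Ioo_of_le zero_le_one] at this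
  have vR : ∫ u in Ioo (0 : ℝ) 1, Real.log (1 - u) = -1 := by
    have := intervalIntegral.integral_comp_sub_left (a := 0) (b := 1) Real.log 1
    simp only [sub_zero, sub_self] at this
    rw [intervalIntegral.integral_of_le zero_le_one, intervalIntegral.integral_of_le zero_le_one,
      integral_Ioc_eq_integral_Ioo, integral_Ioc_eq_integral_Ioo, vL] at this
    exact this
  have e2 : ∫ u in Ioo (0 : ℝ) 1, -Real.log (f (q f u))
      = ∫ u in Ioo (0 : ℝ) 1, (Real.log (W f u) - Real.log u - Real.log (1 - u)) := by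
    refine setIntegral_congr_fun measurableSet_Ioo (fun u hu => ?_)
    have p := fq_pos f hf0 hfi hf1 hlc u hu
    have hu1 : 0 < 1 - u := by linarith [hu.2]
    simp only [W]
    rw [Real.log_div (mul_pos hu.1 hu1).ne' p.ne', Real.log_mul hu.1.ne' hu1.ne']
    ring
  have e3 : ∫ u in Ioo (0 : ℝ) 1, (Real.log (W f u) - Real.log u - Real.log (1 - u))
      = (∫ u in Ioo (0 : ℝ) 1, Real.log (W f u)) + 2 := by
    have i12 : IntegrableOn (fun u => Real.log (W f u) - Real.log u) (Ioo (0 : ℝ) 1) := h3.sub iL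
    rw [integral_sub i12 iR, integral_sub h3 iL, vL, vR]
    ring
  rw [e1, e2, e3]
  linarith

lemma lintegral_FG : ∫⁻ x, ENNReal.ofReal (F f x * G f x)
    = ENNReal.ofReal (∫ u in Ioo (0 : ℝ) 1, W f u) := by
  have hfm := lc_measurable f hf0 hlc
  obtain ⟨h1, h2, h3, h4⟩ := unif_bound (W f) (W_pos f hf0 hfi hf1 hlc) (W_S1 f hf0 hfi hf1 hlc)
    (W_S2 f hf0 hfi hf1 hlc)
  have hFm : Measurable (F f) := (F_cont f hfi).measurable
  have hGm : Measurable (G f) := by
    have : G f = fun x => 1 - F f x := by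
      ext x; have := F_add_G f hfi hf1 x; linarith
    rw [this]; exact measurable_const.sub hFm
  rw [ofReal_integral_eq_lintegral_ofReal h1]
  · have e1 : ∫⁻ u in Ioo (0 : ℝ) 1, ENNReal.ofReal (W f u)
        = ∫⁻ u in Ioo (0 : ℝ) 1, (fun x => ENNReal.ofReal (F f x * G f x / f x)) (q f u) := by
      refine setLIntegral_congr_fun measurableSet_Ioo (fun u hu => ?_)
      simp only [W, F_q f hfi hf1 u hu, G_q f hfi hf1 u hu]
    have hmm : Measurable (fun x => ENNReal.ofReal (F f x * G f x / f x)) :=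
      ((hFm.mul hGm).div hfm).ennreal_ofReal
    rw [e1, lintegral_q f hf0 hfi hf1 hlc (fun x => ENNReal.ofReal (F f x * G f x / f x)) hmm]
    refine lintegral_congr (fun x => ?_)
    rw [← ENNReal.ofReal_mul (hf0 x)]
    congr 1
    rcases eq_or_lt_of_le (hf0 x) with h | h
    · rw [← h, zero_mul]
      by_contra hne
      have hF0 := F_nonneg f hf0 x
      have hG0 := G_nonneg f hf0 x
      have hF : 0 < F f x := lt_of_le_of_ne hF0 (fun h' => hne (by rw [← h']; simp))
      have hG : 0 < G f x := lt_of_le_of_ne hG0 (fun h' => hne (by rw [← h']; simp))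
      have := pos_of_FG f hf0 hlc x hF hG
      linarith
    · field_simp
  · filter_upwards [self_mem_ae_restrict measurableSet_Ioo] with u hu
    exact (W_pos f hf0 hfi hf1 hlc u hu).le

end Quantile

section Difference

variable (f : ℝ → ℝ) (hf0 : ∀ x, 0 ≤ f x) (hfi : Integrable f) (hf1 : ∫ x, f x = 1)
  (hlc : ∀ x y t : ℝ, 0 ≤ t → t ≤ 1 → f x ^ t * f y ^ (1 - t) ≤ f (t * x + (1 - t) * y))

/-- extended density of the difference -/
noncomputable def gh (z : ℝ) : ENNReal := ∫⁻ y, ENNReal.ofReal (f (z + y)) * ENNReal.ofReal (f y)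

lemma gh_meas (hfm : Measurable f) : Measurable (gh f) := by
  have : Measurable (fun p : ℝ × ℝ => ENNReal.ofReal (f (p.1 + p.2)) * ENNReal.ofReal (f p.2)) :=
    ((hfm.comp (measurable_fst.add measurable_snd)).ennreal_ofReal).mul
      ((hfm.comp measurable_snd).ennreal_ofReal)
  exact this.lintegral_prod_right'

/-- Change of variables for integrals against the difference density. -/
lemma lintegral_gh (hfm : Measurable f) (φ : ℝ → ENNReal) (hφ : Measurable φ) :
    ∫⁻ z, φ z * gh f z = ∫⁻ y, ∫⁻ x, φ (x - y) * (ENNReal.ofReal (f x) * ENNReal.ofReal (f y)) := by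
  have h1 : ∀ z, φ z * gh f z
      = ∫⁻ y, φ z * (ENNReal.ofReal (f (z + y)) * ENNReal.ofReal (f y)) := by
    intro z
    unfold gh
    rw [lintegral_const_mul]
    exact ((hfm.comp (measurable_const_add z)).ennreal_ofReal).mul hfm.ennreal_ofReal
  simp_rw [h1]
  rw [lintegral_lintegral_swap]
  · refine lintegral_congr (fun y => ?_)
    rw [← lintegral_sub_right_eq_self
      (fun z => φ z * (ENNReal.ofReal (f (z + y)) * ENNReal.ofReal (f y))) y]
    simp
  · refine Measurable.aemeasurable ?_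
    exact (hφ.comp measurable_fst).mul
      (((hfm.comp (measurable_fst.add measurable_snd)).ennreal_ofReal).mul
      ((hfm.comp measurable_snd).ennreal_ofReal))

include hf0 hfi in
lemma lint_Iic (x : ℝ) : ∫⁻ t in Iic x, ENNReal.ofReal (f t) = ENNReal.ofReal (F f x) :=
  (ofReal_integral_eq_lintegral_ofReal hfi.integrableOn (Filter.Eventually.of_forall hf0)).symm

include hf0 hfi in
lemma lint_Ioi (x : ℝ) : ∫⁻ t in Ioi x, ENNReal.ofReal (f t) = ENNReal.ofReal (G f x) :=
  (ofReal_integral_eq_lintegral_ofReal hfi.integrableOn (Filter.Eventually.of_forall hf0)).symm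

include hf0 hfi hf1 in
lemma lint_f : ∫⁻ t, ENNReal.ofReal (f t) = 1 := by
  rw [← ofReal_integral_eq_lintegral_ofReal hfi (Filter.Eventually.of_forall hf0), hf1]
  simp

include hf0 hfi in
/-- half of the mean absolute difference -/
lemma half_mad (hfm : Measurable f) :
    ∫⁻ y, ∫⁻ x, ENNReal.ofReal (y - x) * (ENNReal.ofReal (f x) * ENNReal.ofReal (f y))
      = ∫⁻ t, ENNReal.ofReal (F f t * G f t) := by
  have h1 : ∀ x y : ℝ, ENNReal.ofReal (y - x)
      = ∫⁻ t, (Ici x).indicator 1 t * (Iio y).indicator (1 : ℝ → ENNReal) t := by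
    intro x y
    rw [← Real.volume_Ico, ← lintegral_indicator_one measurableSet_Ico]
    refine lintegral_congr (fun t => ?_)
    rw [← Ici_inter_Iio]
    by_cases hx : x ≤ t <;> by_cases hy : t < y <;> simp [hx, hy, indicator]
  have h2 : ∀ x t : ℝ, (Ici x).indicator (1 : ℝ → ENNReal) t = (Iic t).indicator 1 x := by
    intro x t; simp [indicator]
  have h3 : ∀ y t : ℝ, (Iio y).indicator (1 : ℝ → ENNReal) t = (Ioi t).indicator 1 y := by
    intro y t; simp [indicator]
  have mI : Measurable (fun p : ℝ × ℝ => (Ici p.1).indicator (1 : ℝ → ENNReal) p.2) := by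
    have : (fun p : ℝ × ℝ => (Ici p.1).indicator (1 : ℝ → ENNReal) p.2)
        = {p : ℝ × ℝ | p.1 ≤ p.2}.indicator 1 := by
      ext p; simp [indicator]
    rw [this]
    exact measurable_one.indicator (measurableSet_le measurable_fst measurable_snd)
  have mJ : Measurable (fun p : ℝ × ℝ => (Iio p.1).indicator (1 : ℝ → ENNReal) p.2) := by
    have : (fun p : ℝ × ℝ => (Iio p.1).indicator (1 : ℝ → ENNReal) p.2)
        = {p : ℝ × ℝ | p.2 < p.1}.indicator 1 := by
      ext p; simp [indicator]
    rw [this]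
    exact measurable_one.indicator (measurableSet_lt measurable_snd measurable_fst)
  have step1 : ∀ y : ℝ,
      ∫⁻ x, ENNReal.ofReal (y - x) * (ENNReal.ofReal (f x) * ENNReal.ofReal (f y))
        = ∫⁻ t, ENNReal.ofReal (F f t) * ((Ioi t).indicator 1 y * ENNReal.ofReal (f y)) := by
    intro y
    have e1 : ∀ x, ENNReal.ofReal (y - x) * (ENNReal.ofReal (f x) * ENNReal.ofReal (f y))
        = ∫⁻ t, (Ici x).indicator 1 t * (Iio y).indicator (1 : ℝ → ENNReal) t *
            (ENNReal.ofReal (f x) * ENNReal.ofReal (f y)) := by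
      intro x
      rw [h1 x y, lintegral_mul_const]
      exact (measurable_one.indicator measurableSet_Ici).mul
        (measurable_one.indicator measurableSet_Iio)
    simp_rw [e1]
    rw [lintegral_lintegral_swap]
    · refine lintegral_congr (fun t => ?_)
      rw [← lint_Iic f hf0 hfi t, ← lintegral_indicator measurableSet_Iic,
        ← lintegral_mul_const _ (hfm.ennreal_ofReal.indicator measurableSet_Iic)]
      refine lintegral_congr (fun x => ?_)
      rw [h2, h3]
      by_cases hx : x ≤ t <;> simp [indicator, hx] <;> ring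
    · refine Measurable.aemeasurable ?_
      exact (mI.mul (((measurable_one.indicator measurableSet_Iio).comp measurable_snd))).mul
        (((hfm.comp measurable_fst).ennreal_ofReal).mul measurable_const)
  simp_rw [step1]
  rw [lintegral_lintegral_swap]
  · refine lintegral_congr (fun t => ?_)
    rw [ENNReal.ofReal_mul (F_nonneg f hf0 t), ← lint_Ioi f hf0 hfi t,
      ← lintegral_indicator measurableSet_Ioi, ← lintegral_const_mul _
        (hfm.ennreal_ofReal.indicator measurableSet_Ioi)]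
    refine lintegral_congr (fun y => ?_)
    by_cases hy : t < y <;> simp [indicator, hy]
  · refine Measurable.aemeasurable ?_
    have m1 : Measurable (fun p : ℝ × ℝ => (Ioi p.2).indicator (1 : ℝ → ENNReal) p.1) := by
      have : (fun p : ℝ × ℝ => (Ioi p.2).indicator (1 : ℝ → ENNReal) p.1)
          = {p : ℝ × ℝ | p.2 < p.1}.indicator 1 := by
        ext p; simp [indicator]
      rw [this]
      exact measurable_one.indicator (measurableSet_lt measurable_snd measurable_fst)
    exact (((F_cont f hfi).measurable.comp measurable_snd).ennreal_ofReal).mul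
      (m1.mul ((hfm.comp measurable_fst).ennreal_ofReal))

include hf0 hfi in
/-- `E|X - Y| = 2 ∫ F (1 - F)` -/
lemma mad (hfm : Measurable f) :
    ∫⁻ z, ENNReal.ofReal |z| * gh f z = 2 * ∫⁻ t, ENNReal.ofReal (F f t * G f t) := by
  have mabs : Measurable (fun z : ℝ => ENNReal.ofReal |z|) := measurable_norm.ennreal_ofReal
  rw [lintegral_gh f hfm (fun z => ENNReal.ofReal |z|) mabs]
  have h1 : ∀ x y : ℝ, ENNReal.ofReal |x - y| = ENNReal.ofReal (y - x) + ENNReal.ofReal (x - y) := by
    intro x y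
    rcases le_total x y with h | h
    · rw [abs_of_nonpos (by linarith), ENNReal.ofReal_of_nonpos (show x - y ≤ 0 by linarith)]
      simp
    · rw [abs_of_nonneg (by linarith), ENNReal.ofReal_of_nonpos (show y - x ≤ 0 by linarith)]
      simp
  have m1 : Measurable (fun p : ℝ × ℝ => ENNReal.ofReal (p.1 - p.2) *
      (ENNReal.ofReal (f p.2) * ENNReal.ofReal (f p.1))) :=
    ((measurable_fst.sub measurable_snd).ennreal_ofReal).mul
      (((hfm.comp measurable_snd).ennreal_ofReal).mul ((hfm.comp measurable_fst).ennreal_ofReal))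
  have e1 : ∀ y : ℝ, ∫⁻ x, ENNReal.ofReal |x - y| * (ENNReal.ofReal (f x) * ENNReal.ofReal (f y))
      = (∫⁻ x, ENNReal.ofReal (y - x) * (ENNReal.ofReal (f x) * ENNReal.ofReal (f y)))
        + ∫⁻ x, ENNReal.ofReal (x - y) * (ENNReal.ofReal (f x) * ENNReal.ofReal (f y)) := by
    intro y
    rw [← lintegral_add_left]
    · refine lintegral_congr (fun x => ?_)
      rw [h1 x y, add_mul]
    · exact m1.comp measurable_prodMk_left
  have e2 : ∫⁻ y, ∫⁻ x, ENNReal.ofReal |x - y| * (ENNReal.ofReal (f x) * ENNReal.ofReal (f y))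
      = (∫⁻ y, ∫⁻ x, ENNReal.ofReal (y - x) * (ENNReal.ofReal (f x) * ENNReal.ofReal (f y)))
        + ∫⁻ y, ∫⁻ x, ENNReal.ofReal (x - y) * (ENNReal.ofReal (f x) * ENNReal.ofReal (f y)) := by
    rw [← lintegral_add_left]
    · exact lintegral_congr e1
    · exact m1.lintegral_prod_right'
  have e3 : ∫⁻ y, ∫⁻ x, ENNReal.ofReal (x - y) * (ENNReal.ofReal (f x) * ENNReal.ofReal (f y))
      = ∫⁻ y, ∫⁻ x, ENNReal.ofReal (y - x) * (ENNReal.ofReal (f x) * ENNReal.ofReal (f y)) := by
    rw [lintegral_lintegral_swap]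
    · refine lintegral_congr (fun x => lintegral_congr (fun y => ?_))
      rw [mul_comm (ENNReal.ofReal (f y))]
    · refine Measurable.aemeasurable ?_
      exact ((measurable_snd.sub measurable_fst).ennreal_ofReal).mul
        (((hfm.comp measurable_snd).ennreal_ofReal).mul ((hfm.comp measurable_fst).ennreal_ofReal))
  rw [half_mad f hf0 hfi hfm] at e3
  have e4 := half_mad f hf0 hfi hfm
  calc ∫⁻ y, ∫⁻ x, ENNReal.ofReal |x - y| * (ENNReal.ofReal (f x) * ENNReal.ofReal (f y))
      = _ := e2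
    _ = _ := by rw [e3, e4, two_mul]

end Difference

section Gibbs

/-- Laplace density with mean absolute value `M`. -/
lemma laplace_int (M : ℝ) (hM : 0 < M) :
    Integrable (fun z : ℝ => Real.exp (-|z| / M) / (2 * M)) ∧
      ∫ z : ℝ, Real.exp (-|z| / M) / (2 * M) = 1 := by
  have h1 : IntegrableOn (fun z : ℝ => Real.exp (-z / M)) (Ioi 0) := by
    have := integrableOn_exp_mul_Ioi (a := -(1 / M)) (by
      have : 0 < 1 / M := by positivity
      linarith) 0
    refine this.congr_fun (fun z _ => ?_) measurableSet_Ioi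
    show Real.exp (-(1 / M) * z) = Real.exp (-z / M)
    congr 1; ring
  have v1 : ∫ z in Ioi (0 : ℝ), Real.exp (-z / M) = M := by
    have h := integral_exp_mul_Ioi (a := -(1 / M)) (by
      have : 0 < 1 / M := by positivity
      linarith) 0
    have e : ∫ z in Ioi (0 : ℝ), Real.exp (-z / M) = ∫ z in Ioi (0 : ℝ), Real.exp (-(1 / M) * z) := by
      refine setIntegral_congr_fun measurableSet_Ioi (fun z _ => ?_)
      show Real.exp (-z / M) = Real.exp (-(1 / M) * z)
      congr 1; ring
    rw [e, h]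
    simp
  have h2 : Integrable (fun z : ℝ => Real.exp (-|z| / M)) := by
    have hp : IntegrableOn (fun z : ℝ => Real.exp (-|z| / M)) (Ioi 0) := by
      refine h1.congr_fun (fun z hz => ?_) measurableSet_Ioi
      show Real.exp (-z / M) = Real.exp (-|z| / M)
      rw [abs_of_pos hz]
    have hn : IntegrableOn (fun z : ℝ => Real.exp (-|z| / M)) (Iic 0) := by
      have := integrableOn_exp_mul_Iic (a := 1 / M) (by positivity) 0
      refine this.congr_fun (fun z hz => ?_) measurableSet_Iic
      show Real.exp ((1 / M) * z) = Real.exp (-|z| / M)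
      rw [abs_of_nonpos hz]
      congr 1; ring
    rw [← integrableOn_univ, ← Iic_union_Ioi (a := (0 : ℝ))]
    exact hn.union hp
  have v2 : ∫ z : ℝ, Real.exp (-|z| / M) = 2 * M := by
    rw [integral_comp_abs (f := fun z => Real.exp (-z / M)), v1]
  refine ⟨h2.div_const _, ?_⟩
  rw [integral_div, v2]
  exact div_self (by positivity)

/-- Gibbs inequality against the Laplace law. -/
lemma gibbs (g : ℝ → ℝ) (hg0 : ∀ z, 0 ≤ g z) (hgm : Measurable g) (K : ℝ) (hK : 0 < K)
    (hgK : ∀ z, g z ≤ K) (M : ℝ) (hM : 0 < M) (hgi : Integrable g) (hg1 : ∫ z, g z = 1)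
    (hgM : Integrable (fun z => |z| * g z)) (hgM1 : ∫ z, |z| * g z = M) :
    ∫ z, Real.negMulLog (g z) ≤ 1 + Real.log (2 * M) := by
  obtain ⟨hL, hL1⟩ := laplace_int M hM
  have hU : Integrable (fun z => (1 / M) * (|z| * g z) + Real.log (2 * M) * g z
      + Real.exp (-|z| / M) / (2 * M) - g z) :=
    (((hgM.const_mul (1 / M)).add (hgi.const_mul (Real.log (2 * M)))).add hL).sub hgi
  have upper : ∀ z, Real.negMulLog (g z) ≤ (1 / M) * (|z| * g z) + Real.log (2 * M) * g z
      + Real.exp (-|z| / M) / (2 * M) - g z := by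
    intro z
    set p := Real.exp (-|z| / M) / (2 * M) with hp
    have hp0 : 0 < p := by positivity
    have hlp : Real.log p = -|z| / M - Real.log (2 * M) := by
      rw [hp, Real.log_div (Real.exp_pos _).ne' (by positivity), Real.log_exp]
    rcases eq_or_lt_of_le (hg0 z) with h | h
    · rw [← h]; simp [hp0.le]
    · have h1 := Real.log_le_sub_one_of_pos (div_pos hp0 h)
      rw [Real.log_div hp0.ne' h.ne', hlp] at h1
      have h2 : g z * (-|z| / M - Real.log (2 * M) - Real.log (g z)) ≤ p - g z := by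
        calc g z * (-|z| / M - Real.log (2 * M) - Real.log (g z)) ≤ g z * (p / g z - 1) :=
              mul_le_mul_of_nonneg_left h1 h.le
          _ = p - g z := by field_simp
      have h3 : g z * (-|z| / M) = -((1 / M) * (|z| * g z)) := by ring
      unfold Real.negMulLog
      nlinarith
  have lower : ∀ z, -(Real.log K) * g z ≤ Real.negMulLog (g z) := by
    intro z
    rcases eq_or_lt_of_le (hg0 z) with h | h
    · rw [← h]; simp
    · have := Real.log_le_log h (hgK z)
      unfold Real.negMulLog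
      nlinarith
  have hI : Integrable (fun z => Real.negMulLog (g z)) := by
    refine Integrable.mono' (((hgi.const_mul (-(Real.log K))).abs).add hU.abs)
      (Real.continuous_negMulLog.measurable.comp hgm).aestronglyMeasurable ?_
    refine Filter.Eventually.of_forall (fun z => ?_)
    have h1 := upper z
    have h2 := lower z
    rw [Real.norm_eq_abs, abs_le]
    simp only [Pi.add_apply]
    constructor
    · linarith [neg_abs_le (-(Real.log K) * g z), abs_nonneg ((1 / M) * (|z| * g z)
        + Real.log (2 * M) * g z + Real.exp (-|z| / M) / (2 * M) - g z)]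
    · linarith [le_abs_self ((1 / M) * (|z| * g z)
        + Real.log (2 * M) * g z + Real.exp (-|z| / M) / (2 * M) - g z),
        abs_nonneg (-(Real.log K) * g z)]
  calc ∫ z, Real.negMulLog (g z) ≤ ∫ z, ((1 / M) * (|z| * g z) + Real.log (2 * M) * g z
      + Real.exp (-|z| / M) / (2 * M) - g z) := integral_mono hI hU upper
    _ = 1 + Real.log (2 * M) := by
      have i1 : Integrable (fun z => (1 / M) * (|z| * g z)) := hgM.const_mul _
      have i2 : Integrable (fun z => Real.log (2 * M) * g z) := hgi.const_mul _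
      have i3 : Integrable (fun z => (1 / M) * (|z| * g z) + Real.log (2 * M) * g z) := i1.add i2
      have i4 : Integrable (fun z => (1 / M) * (|z| * g z) + Real.log (2 * M) * g z
        + Real.exp (-|z| / M) / (2 * M)) := i3.add hL
      rw [integral_sub i4 hgi, integral_add i3 hL, integral_add i1 i2, integral_const_mul,
        integral_const_mul, hgM1, hg1, hL1]
      field_simp
      ring

end Gibbs

lemma final_ineq (f : ℝ → ℝ) (hf0 : ∀ x, 0 ≤ f x) (hfi : Integrable f) (hf1 : ∫ x, f x = 1)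
    (hlc : ∀ x y t : ℝ, 0 ≤ t → t ≤ 1 → f x ^ t * f y ^ (1 - t) ≤ f (t * x + (1 - t) * y)) :
    ∫ z, Real.negMulLog (∫ y, f (z + y) * f y) ≤ Real.log 2 + ∫ x, Real.negMulLog (f x) := by
  have hfm := lc_measurable f hf0 hlc
  obtain ⟨ha, hlow⟩ := entropy_lower f hf0 hfi hf1 hlc
  have hFG := lintegral_FG f hf0 hfi hf1 hlc
  set a := ∫ u in Ioo (0 : ℝ) 1, W f u with hadef
  set K := 2 * f (q f (1 / 2)) with hK
  have half : (1 / 2 : ℝ) ∈ Ioo (0 : ℝ) 1 := by constructor <;> norm_num
  have hK0 : 0 < K := by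
    have := fq_pos f hf0 hfi hf1 hlc _ half
    positivity
  have hfK : ∀ x, f x ≤ K := f_bdd f hf0 hfi hf1 hlc
  set g : ℝ → ℝ := fun z => ∫ y, f (z + y) * f y with hg
  have hghK : ∀ z, gh f z ≤ ENNReal.ofReal K := by
    intro z
    calc gh f z ≤ ∫⁻ y, ENNReal.ofReal K * ENNReal.ofReal (f y) :=
          lintegral_mono (fun y => mul_le_mul' (ENNReal.ofReal_le_ofReal (hfK _)) le_rfl)
      _ = ENNReal.ofReal K := by
          rw [lintegral_const_mul _ hfm.ennreal_ofReal, lint_f f hf0 hfi hf1, mul_one]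
  have hgg : ∀ z, g z = (gh f z).toReal := by
    intro z
    simp only [hg]
    rw [integral_eq_lintegral_of_nonneg_ae
      (Filter.Eventually.of_forall (fun y => mul_nonneg (hf0 _) (hf0 _)))
      (((hfm.comp (measurable_const_add z)).mul hfm).aestronglyMeasurable)]
    congr 1
    refine lintegral_congr (fun y => ?_)
    exact ENNReal.ofReal_mul (hf0 _)
  have hgo : ∀ z, ENNReal.ofReal (g z) = gh f z := by
    intro z
    rw [hgg z, ENNReal.ofReal_toReal]
    exact ne_top_of_le_ne_top ENNReal.ofReal_ne_top (hghK z)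
  have hg0 : ∀ z, 0 ≤ g z := fun z => by rw [hgg z]; exact ENNReal.toReal_nonneg
  have hgK : ∀ z, g z ≤ K := by
    intro z
    rw [hgg z]
    exact ENNReal.toReal_le_of_le_ofReal hK0.le (hghK z)
  have hgm : Measurable g := by
    have : g = fun z => (gh f z).toReal := funext hgg
    rw [this]; exact (gh_meas f hfm).ennreal_toReal
  have hl1 : ∫⁻ z, ENNReal.ofReal (g z) = 1 := by
    have h := lintegral_gh f hfm (fun _ => 1) measurable_const
    simp only [one_mul] at h
    simp_rw [hgo]
    rw [h]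
    have : ∀ y, ∫⁻ x, ENNReal.ofReal (f x) * ENNReal.ofReal (f y) = ENNReal.ofReal (f y) := by
      intro y
      rw [lintegral_mul_const _ hfm.ennreal_ofReal, lint_f f hf0 hfi hf1, one_mul]
    simp_rw [this]
    exact lint_f f hf0 hfi hf1
  have hgi : Integrable g := by
    refine ⟨hgm.aestronglyMeasurable, ?_⟩
    rw [hasFiniteIntegral_iff_ofReal (Filter.Eventually.of_forall hg0), hl1]
    exact ENNReal.one_lt_top
  have hg1 : ∫ z, g z = 1 := by
    rw [integral_eq_lintegral_of_nonneg_ae (Filter.Eventually.of_forall hg0)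
      hgm.aestronglyMeasurable, hl1]
    simp
  have hl2 : ∫⁻ z, ENNReal.ofReal (|z| * g z) = ENNReal.ofReal (2 * a) := by
    have h := mad f hf0 hfi hfm
    have e : ∀ z : ℝ, ENNReal.ofReal (|z| * g z) = ENNReal.ofReal |z| * gh f z := by
      intro z
      rw [ENNReal.ofReal_mul (abs_nonneg z), hgo]
    simp_rw [e]
    rw [h, hFG, ENNReal.ofReal_mul (by norm_num)]
    simp
  have habs0 : ∀ z, 0 ≤ |z| * g z := fun z => mul_nonneg (abs_nonneg z) (hg0 z)
  have habsm : Measurable (fun z : ℝ => |z| * g z) := measurable_norm.mul hgm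
  have hgMi : Integrable (fun z => |z| * g z) := by
    refine ⟨habsm.aestronglyMeasurable, ?_⟩
    rw [hasFiniteIntegral_iff_ofReal (Filter.Eventually.of_forall habs0), hl2]
    exact ENNReal.ofReal_lt_top
  have hgM1 : ∫ z, |z| * g z = 2 * a := by
    rw [integral_eq_lintegral_of_nonneg_ae (Filter.Eventually.of_forall habs0)
      habsm.aestronglyMeasurable, hl2, ENNReal.toReal_ofReal (by positivity)]
  have hup := gibbs g hg0 hgm K hK0 hgK (2 * a) (by positivity) hgi hg1 hgMi hgM1
  have hlog : Real.log (2 * (2 * a)) = Real.log 2 + Real.log (2 * a) :=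
    Real.log_mul (by norm_num) (by positivity)
  calc ∫ z, Real.negMulLog (g z) ≤ 1 + Real.log (2 * (2 * a)) := hup
    _ ≤ Real.log 2 + ∫ x, Real.negMulLog (f x) := by rw [hlog]; linarith

/-- For every log-concave probability density f on the reals, the entropy power of the density of X−Y (X, Y i.i.d. with density f) is at most 4 times the entropy power of f, where N = exp(2h)/(2πe). -/
theorem result :
    ∀ f : ℝ → ℝ, (∀ x, 0 ≤ f x) → MeasureTheory.Integrable f → (∫ x, f x) = 1 →
      (∀ x y t : ℝ, 0 ≤ t → t ≤ 1 →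
        f x ^ t * f y ^ (1 - t) ≤ f (t * x + (1 - t) * y)) →
      Real.exp (2 * ∫ z, Real.negMulLog (∫ y, f (z + y) * f y)) /
          (2 * Real.pi * Real.exp 1)
        ≤ 4 * (Real.exp (2 * ∫ x, Real.negMulLog (f x)) / (2 * Real.pi * Real.exp 1)) := by
  intro f hf0 hfi hf1 hlc
  have h := final_ineq f hf0 hfi hf1 hlc
  have hC : 0 < 2 * Real.pi * Real.exp 1 := by positivity
  rw [← mul_div_assoc, div_le_div_iff_of_pos_right hC]
  have h4 : (4 : ℝ) = Real.exp (2 * Real.log 2) := by
    rw [two_mul, Real.exp_add, Real.exp_log (by norm_num)]; norm_num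
  rw [h4, ← Real.exp_add, Real.exp_le_exp]
  linarith

end Pool.Agent.S11757
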