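import Pool.Statements.S11762

set_option autoImplicit false
open Filter Topology
open Pool Pool.MP_8aef71_pr

namespace Pool.Agent.S11762

/-- k-fold convolution -/
noncomputable def S {G : Type} [Group G] [Fintype G] [DecidableEq G] (p : G → ℝ) (k : ℕ) (g : G) : ℝ :=
  ∑ f ∈ (Finset.univ : Finset (Fin k → G)).filter (fun f => (List.ofFn f).prod = g),
            ∏ i, p (f i)

theorem S_zero {G : Type} [Group G] [Fintype G] [DecidableEq G] (p : G → ℝ) (g : G) :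
    S p 0 g = if g = 1 then 1 else 0 := by
  unfold S
  rw [Finset.sum_filter]
  simp [eq_comm]

theorem S_succ {G : Type} [Group G] [Fintype G] [DecidableEq G] (p : G → ℝ) (k : ℕ) (g : G) :
    S p (k + 1) g = ∑ h, p h * S p k (h⁻¹ * g) := by
  unfold S
  rw [Finset.sum_filter, ← (Fin.consEquiv (fun _ => G)).sum_comp, Fintype.sum_prod_type]
  apply Finset.sum_congr rfl
  intro h _
  rw [Finset.sum_filter, Finset.mul_sum]
  apply Finset.sum_congr rfl
  intro f _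
  have e1 : (List.ofFn ((Fin.consEquiv (fun _ => G)) (h, f))).prod = h * (List.ofFn f).prod := by
    simp [Fin.consEquiv, List.ofFn_succ]
  have e2 : ∏ i, p ((Fin.consEquiv (fun _ => G)) (h, f) i) = p h * ∏ i, p (f i) := by
    rw [Fin.prod_univ_succ]; simp [Fin.consEquiv]
  rw [e1, e2]
  have e3 : h * (List.ofFn f).prod = g ↔ (List.ofFn f).prod = h⁻¹ * g := by
    rw [eq_inv_mul_iff_mul_eq]
  by_cases hc : h * (List.ofFn f).prod = g
  · rw [if_pos hc, if_pos (e3.1 hc)]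
  · rw [if_neg hc, if_neg (fun h => hc (e3.2 h)), mul_zero]

/-- biased coin -/
noncomputable def q (δ : ℝ) (e : ℤˣ) : ℝ := (1 + δ * ((e : ℤ) : ℝ)) / 2

noncomputable def mu {N : ℕ} (δ : ℝ) (g : Fin N → ℤˣ) : ℝ := ∏ i, q δ (g i)

theorem sum_units (F : ℤˣ → ℝ) : ∑ e, F e = F 1 + F (-1) := by
  have : (Finset.univ : Finset ℤˣ) = {1, -1} := rfl
  rw [this, Finset.sum_insert (by decide), Finset.sum_singleton]

theorem sum_prod {N : ℕ} (F : Fin N → ℤˣ → ℝ) : ∑ g : Fin N → ℤˣ, ∏ i, F i (g i) =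
    ∏ i, ∑ e, F i e := by
  rw [Finset.prod_univ_sum, Fintype.piFinset_univ]

theorem conv_mu {N : ℕ} (a b : ℝ) (g : Fin N → ℤˣ) :
    ∑ h, mu a h * mu b (h⁻¹ * g) = mu (a * b) g := by
  unfold mu
  simp_rw [← Finset.prod_mul_distrib]
  have := sum_prod (fun i e => q a e * q b (e⁻¹ * g i))
  simp only [Pi.mul_apply, Pi.inv_apply]
  rw [this]
  apply Finset.prod_congr rfl
  intro i _
  rw [sum_units]
  unfold q
  rcases Int.units_eq_one_or (g i) with h | h <;> rw [h] <;> simp <;> ring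

theorem sum_mu {N : ℕ} (a : ℝ) : ∑ g : Fin N → ℤˣ, mu a g = 1 := by
  unfold mu
  rw [sum_prod (fun _ e => q a e)]
  apply Finset.prod_eq_one
  intro i _
  rw [sum_units]; unfold q; simp; ring

/-- the perturbed measure -/
noncomputable def P (N : ℕ) (c : ℝ) (g : Fin N → ℤˣ) : ℝ := (1 - c) * mu (1 / 2) g + c / 2 ^ N

theorem card_G (N : ℕ) : Fintype.card (Fin N → ℤˣ) = 2 ^ N := by
  simp

theorem S_P (N : ℕ) (c : ℝ) (k : ℕ) : ∀ g, S (P N c) k g =
    (1 - c) ^ k * mu ((1 / 2) ^ k) g + (1 - (1 - c) ^ k) / 2 ^ N := by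
  induction k with
  | zero =>
    intro g
    rw [S_zero]
    simp only [pow_zero, one_mul, sub_self, zero_div, add_zero]
    unfold mu
    by_cases h : g = 1
    · subst h
      simp [q]
    · rw [if_neg h]
      obtain ⟨i, hi⟩ : ∃ i, g i ≠ 1 := by
        by_contra hcon
        push Not at hcon
        exact h (funext hcon)
      symm
      apply Finset.prod_eq_zero (Finset.mem_univ i)
      rcases Int.units_eq_one_or (g i) with h | h
      · exact absurd h hi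
      · rw [h]; simp [q]
  | succ k ih =>
    intro g
    rw [S_succ]
    simp_rw [ih]
    unfold P
    have hN : (2 : ℝ) ^ N ≠ 0 := by positivity
    have e1 : ∀ h : Fin N → ℤˣ, ((1 - c) * mu (1 / 2) h + c / 2 ^ N) *
        ((1 - c) ^ k * mu ((1 / 2) ^ k) (h⁻¹ * g) + (1 - (1 - c) ^ k) / 2 ^ N) =
        (1 - c) ^ (k + 1) * (mu (1 / 2) h * mu ((1 / 2) ^ k) (h⁻¹ * g)) +
        (1 - c) * ((1 - (1 - c) ^ k) / 2 ^ N) * mu (1 / 2) h +
        c / 2 ^ N * (1 - c) ^ k * mu ((1 / 2) ^ k) (h⁻¹ * g) +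
        c / 2 ^ N * ((1 - (1 - c) ^ k) / 2 ^ N) := by
      intro h; ring
    simp_rw [e1]
    rw [Finset.sum_add_distrib, Finset.sum_add_distrib, Finset.sum_add_distrib,
      ← Finset.mul_sum, ← Finset.mul_sum, ← Finset.mul_sum, conv_mu, sum_mu]
    have e2 : ∑ h : Fin N → ℤˣ, mu ((1 / 2) ^ k) (h⁻¹ * g) = 1 := by
      have := Fintype.sum_equiv ((Equiv.inv _).trans (Equiv.mulRight g))
        (fun h : Fin N → ℤˣ => mu ((1 / 2) ^ k) (h⁻¹ * g)) (fun h => mu ((1 / 2) ^ k) h)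
        (fun h => rfl)
      rw [this, sum_mu]
    rw [e2, Finset.sum_const, Finset.card_univ, card_G, nsmul_eq_mul]
    rw [show (1 / 2 : ℝ) * (1 / 2) ^ k = (1 / 2) ^ (k + 1) by ring]
    push_cast
    field_simp
    ring


theorem q_nonneg {δ : ℝ} (h0 : 0 ≤ δ) (h1 : δ ≤ 1) (e : ℤˣ) : 0 ≤ q δ e := by
  unfold q
  rcases Int.units_eq_one_or e with h | h <;> rw [h] <;> simp <;> linarith

theorem mu_nonneg {N : ℕ} {δ : ℝ} (h0 : 0 ≤ δ) (h1 : δ ≤ 1) (g : Fin N → ℤˣ) : 0 ≤ mu δ g :=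
  Finset.prod_nonneg fun i _ => q_nonneg h0 h1 (g i)

/-- unperturbed distance -/
noncomputable def D (N k : ℕ) : ℝ :=
  (1 / 2) * ∑ g : Fin N → ℤˣ, |mu ((1 / 2) ^ k) g - 1 / 2 ^ N|

theorem D_nonneg (N k : ℕ) : 0 ≤ D N k := by
  unfold D
  have := Finset.sum_nonneg (s := (Finset.univ : Finset (Fin N → ℤˣ)))
    (f := fun g => |mu ((1 / 2) ^ k) g - 1 / 2 ^ N|) (fun g _ => abs_nonneg _)
  linarith

theorem half_pow_nonneg (k : ℕ) : (0 : ℝ) ≤ (1 / 2) ^ k := by positivity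

theorem half_pow_le (k : ℕ) : ((1 : ℝ) / 2) ^ k ≤ 1 := pow_le_one₀ (by norm_num) (by norm_num)

theorem D_le_one (N k : ℕ) : D N k ≤ 1 := by
  unfold D
  have h : ∑ g : Fin N → ℤˣ, |mu ((1 / 2) ^ k) g - 1 / 2 ^ N| ≤
      ∑ g : Fin N → ℤˣ, (mu ((1 / 2) ^ k) g + 1 / 2 ^ N) := by
    apply Finset.sum_le_sum
    intro g _
    have h1 := mu_nonneg (half_pow_nonneg k) (half_pow_le k) g
    have h2 : (0 : ℝ) ≤ 1 / 2 ^ N := by positivity
    rw [abs_le]; constructor <;> linarith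
  rw [Finset.sum_add_distrib, sum_mu, Finset.sum_const, Finset.card_univ, card_G, nsmul_eq_mul] at h
  have hN : (2 : ℝ) ^ N ≠ 0 := by positivity
  have e : (((2 ^ N : ℕ) : ℝ)) * (1 / 2 ^ N) = 1 := by push_cast; field_simp
  rw [e] at h
  linarith

theorem D_upper (N k : ℕ) : (2 * D N k) ^ 2 ≤ Real.exp (N * ((1 / 2) ^ k) ^ 2) - 1 := by
  set δ : ℝ := (1 / 2) ^ k with hδ
  have hN : (0 : ℝ) < (2 : ℝ) ^ N := by positivity
  have h1 : 2 * D N k = ∑ g : Fin N → ℤˣ, |mu δ g - 1 / 2 ^ N| := by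
    unfold D; ring
  have h2 := sq_sum_le_card_mul_sum_sq (s := (Finset.univ : Finset (Fin N → ℤˣ)))
    (f := fun g => |mu δ g - 1 / 2 ^ N|)
  rw [← h1, Finset.card_univ, card_G] at h2
  have h3 : ∑ g : Fin N → ℤˣ, |mu δ g - 1 / 2 ^ N| ^ 2 = ((1 + δ ^ 2) / 2) ^ N - 1 / 2 ^ N := by
    have e1 : ∀ g : Fin N → ℤˣ, |mu δ g - 1 / 2 ^ N| ^ 2 =
        (mu δ g) ^ 2 - 2 / 2 ^ N * mu δ g + (1 / 2 ^ N) ^ 2 := by
      intro g; rw [sq_abs]; ring
    simp_rw [e1]
    rw [Finset.sum_add_distrib, Finset.sum_sub_distrib, ← Finset.mul_sum, sum_mu,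
      Finset.sum_const, Finset.card_univ, card_G, nsmul_eq_mul]
    have e2 : ∑ g : Fin N → ℤˣ, (mu δ g) ^ 2 = ((1 + δ ^ 2) / 2) ^ N := by
      unfold mu
      simp_rw [← Finset.prod_pow]
      rw [sum_prod (fun _ e => (q δ e) ^ 2)]
      rw [Finset.prod_const, Finset.card_univ, Fintype.card_fin, sum_units]
      congr 1
      unfold q; simp; ring
    rw [e2]
    push_cast
    field_simp
    ring
  rw [h3] at h2
  push_cast at h2
  have h4 : (2 : ℝ) ^ N * (((1 + δ ^ 2) / 2) ^ N - 1 / 2 ^ N) = (1 + δ ^ 2) ^ N - 1 := by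
    rw [div_pow]; field_simp
  rw [h4] at h2
  have h5 : (1 + δ ^ 2) ^ N ≤ Real.exp (N * δ ^ 2) := by
    rw [mul_comm, Real.exp_mul, Real.rpow_natCast]
    apply pow_le_pow_left₀ (by positivity)
    rw [add_comm]; exact Real.add_one_le_exp _
  linarith

theorem abs_lower {a b R : ℝ} (ha : 0 ≤ a) (hb : 0 ≤ b) (hR : 0 ≤ R) (h : R ^ 2 = a * b) :
    a + b - 2 * R ≤ |a - b| := by
  rcases le_total a b with hab | hab
  · have : a ≤ R := by
      by_contra hc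
      push Not at hc
      nlinarith
    have := neg_abs_le (a - b)
    linarith
  · have : b ≤ R := by
      by_contra hc
      push Not at hc
      nlinarith
    have := le_abs_self (a - b)
    linarith

theorem D_lower (N k : ℕ) : 1 - Real.exp (-(N * ((1 / 2) ^ k) ^ 2 / 8)) ≤ D N k := by
  set δ : ℝ := (1 / 2) ^ k with hδ
  have hδ0 : 0 ≤ δ := half_pow_nonneg k
  have hδ1 : δ ≤ 1 := half_pow_le k
  have hN : (0 : ℝ) < (2 : ℝ) ^ N := by positivity
  let r : ℤˣ → ℝ := fun e => Real.sqrt (q δ e / 2)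
  let R : (Fin N → ℤˣ) → ℝ := fun g => ∏ i, r (g i)
  have hR0 : ∀ g, 0 ≤ R g := fun g => Finset.prod_nonneg fun i _ => Real.sqrt_nonneg _
  have hR2 : ∀ g, (R g) ^ 2 = mu δ g * (1 / 2 ^ N) := by
    intro g
    simp only [R, r, mu]
    rw [← Finset.prod_pow]
    have : ∀ i : Fin N, Real.sqrt (q δ (g i) / 2) ^ 2 = q δ (g i) * (1 / 2) := by
      intro i
      rw [Real.sq_sqrt (by have := q_nonneg hδ0 hδ1 (g i); linarith)]; ring
    simp_rw [this]
    rw [Finset.prod_mul_distrib, Finset.prod_const, Finset.card_univ, Fintype.card_fin]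
    congr 1
    rw [div_pow, one_pow]
  have h1 : ∑ g : Fin N → ℤˣ, (mu δ g + 1 / 2 ^ N - 2 * R g) ≤
      ∑ g : Fin N → ℤˣ, |mu δ g - 1 / 2 ^ N| := by
    apply Finset.sum_le_sum
    intro g _
    exact abs_lower (mu_nonneg hδ0 hδ1 g) (by positivity) (hR0 g) (hR2 g)
  rw [Finset.sum_sub_distrib, Finset.sum_add_distrib, sum_mu, Finset.sum_const, Finset.card_univ,
    card_G, nsmul_eq_mul, ← Finset.mul_sum] at h1
  have e : (((2 ^ N : ℕ) : ℝ)) * (1 / 2 ^ N) = 1 := by push_cast; field_simp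
  rw [e] at h1
  have h2 : ∑ g : Fin N → ℤˣ, R g = (r 1 + r (-1)) ^ N := by
    simp only [R]
    rw [sum_prod (fun _ e => r e), Finset.prod_const, Finset.card_univ, Fintype.card_fin, sum_units]
  have h3 : r 1 + r (-1) ≤ 1 - δ ^ 2 / 8 := by
    have a1 : 0 ≤ r 1 := Real.sqrt_nonneg _
    have a2 : 0 ≤ r (-1) := Real.sqrt_nonneg _
    have b1 : (r 1) ^ 2 = (1 + δ) / 4 := by
      simp only [r]
      rw [Real.sq_sqrt (by have := q_nonneg hδ0 hδ1 1; linarith)]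
      unfold q; simp; ring
    have b2 : (r (-1)) ^ 2 = (1 - δ) / 4 := by
      simp only [r]
      rw [Real.sq_sqrt (by have := q_nonneg hδ0 hδ1 (-1); linarith)]
      unfold q; simp; ring
    have hd2 : δ ^ 2 ≤ 1 := pow_le_one₀ hδ0 hδ1
    have c1 : (r 1 * r (-1)) ^ 2 ≤ ((1 - δ ^ 2 / 2) / 4) ^ 2 := by
      rw [mul_pow, b1, b2]; nlinarith [sq_nonneg (δ ^ 2)]
    have c2 : r 1 * r (-1) ≤ (1 - δ ^ 2 / 2) / 4 :=
      le_of_sq_le_sq c1 (by linarith)
    have c3 : (r 1 + r (-1)) ^ 2 ≤ (1 - δ ^ 2 / 8) ^ 2 := by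
      have : (r 1 + r (-1)) ^ 2 = (r 1) ^ 2 + (r (-1)) ^ 2 + 2 * (r 1 * r (-1)) := by ring
      rw [this, b1, b2]; nlinarith [sq_nonneg (δ ^ 2)]
    exact le_of_sq_le_sq c3 (by linarith)
  have h4 : (r 1 + r (-1)) ^ N ≤ Real.exp (-(N * δ ^ 2 / 8)) := by
    have a1 : 0 ≤ r 1 + r (-1) := add_nonneg (Real.sqrt_nonneg _) (Real.sqrt_nonneg _)
    calc (r 1 + r (-1)) ^ N ≤ (Real.exp (-(δ ^ 2 / 8))) ^ N := by
          apply pow_le_pow_left₀ a1
          have := Real.add_one_le_exp (-(δ ^ 2 / 8))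
          linarith
      _ = Real.exp (-(N * δ ^ 2 / 8)) := by
          rw [← Real.exp_nat_mul]; congr 1; ring
  rw [h2] at h1
  unfold D
  linarith

/-- the distance of the perturbed walk -/
noncomputable def dd (n k : ℕ) : ℝ := (1 - 1 / ((n : ℝ) + 2)) ^ k * D (4 ^ n) k


theorem c_bounds (n : ℕ) : 0 ≤ 1 - 1 / ((n : ℝ) + 2) ∧ 1 - 1 / ((n : ℝ) + 2) ≤ 1 := by
  have h : (0 : ℝ) < (n : ℝ) + 2 := by positivity
  have h1 : 1 / ((n : ℝ) + 2) ≤ 1 := by
    rw [div_le_one h]; linarith [(Nat.cast_nonneg n : (0 : ℝ) ≤ n)]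
  have h2 : 0 ≤ 1 / ((n : ℝ) + 2) := by positivity
  constructor <;> linarith

theorem dd_nonneg (n k : ℕ) : 0 ≤ dd n k :=
  mul_nonneg (pow_nonneg (c_bounds n).1 _) (D_nonneg _ _)

theorem dd_upper (n k : ℕ) : dd n k ≤ Real.exp (-(k / ((n : ℝ) + 2))) := by
  have h0 := (c_bounds n).1
  calc dd n k ≤ (1 - 1 / ((n : ℝ) + 2)) ^ k * 1 :=
        mul_le_mul_of_nonneg_left (D_le_one _ _) (pow_nonneg h0 _)
    _ = (1 - 1 / ((n : ℝ) + 2)) ^ k := mul_one _
    _ ≤ (Real.exp (-(1 / ((n : ℝ) + 2)))) ^ k := by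
        apply pow_le_pow_left₀ h0
        have := Real.add_one_le_exp (-(1 / ((n : ℝ) + 2)))
        linarith
    _ = Real.exp (-(k / ((n : ℝ) + 2))) := by
        rw [← Real.exp_nat_mul]; congr 1; ring

theorem pow_lower (n : ℕ) : Real.exp (-1) ≤ (1 - 1 / ((n : ℝ) + 2)) ^ n := by
  have h1 : (0 : ℝ) < (n : ℝ) + 1 := by positivity
  have e : 1 - 1 / ((n : ℝ) + 2) = (1 + 1 / ((n : ℝ) + 1))⁻¹ := by
    field_simp; ring
  rw [e, inv_pow, Real.exp_neg]
  apply inv_anti₀ (by positivity)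
  calc (1 + 1 / ((n : ℝ) + 1)) ^ n ≤ (Real.exp (1 / ((n : ℝ) + 1))) ^ n := by
        apply pow_le_pow_left₀ (by positivity)
        rw [add_comm]; exact Real.add_one_le_exp _
    _ = Real.exp (n / ((n : ℝ) + 1)) := by
        rw [← Real.exp_nat_mul]; congr 1; ring
    _ ≤ Real.exp 1 := by
        apply Real.exp_le_exp.2
        rw [div_le_one h1]; linarith

theorem four_pow (n k : ℕ) : ((4 ^ n : ℕ) : ℝ) * ((1 / 2) ^ k) ^ 2 = 4 ^ n * (1 / 4) ^ k := by
  push_cast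
  rw [← pow_mul, mul_comm k 2, pow_mul]
  norm_num

theorem dd_lower (n k : ℕ) (hk : k ≤ n) :
    Real.exp (-1) * (1 - Real.exp (-(1 / 8))) ≤ dd n k := by
  have h0 := c_bounds n
  have h1 : Real.exp (-1) ≤ (1 - 1 / ((n : ℝ) + 2)) ^ k :=
    le_trans (pow_lower n) (pow_le_pow_of_le_one h0.1 h0.2 hk)
  have h2 : 1 - Real.exp (-(1 / 8)) ≤ D (4 ^ n) k := by
    refine le_trans ?_ (D_lower (4 ^ n) k)
    rw [four_pow]
    have : (1 : ℝ) ≤ 4 ^ n * (1 / 4) ^ k := by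
      obtain ⟨j, rfl⟩ := Nat.exists_eq_add_of_le hk
      rw [pow_add, mul_assoc, mul_comm ((4 : ℝ) ^ j), ← mul_assoc, ← mul_pow]
      norm_num
      exact one_le_pow₀ (by norm_num)
    have : Real.exp (-(4 ^ n * (1 / 4) ^ k / 8)) ≤ Real.exp (-(1 / 8)) := by
      apply Real.exp_le_exp.2; linarith
    linarith
  have h3 : 0 ≤ 1 - Real.exp (-(1 / 8)) := by
    have := Real.exp_le_one_iff.2 (show -(1 / 8 : ℝ) ≤ 0 by norm_num)
    linarith
  exact mul_le_mul h1 h2 h3 (pow_nonneg h0.1 _)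

theorem dd_tendsto : Tendsto (fun n : ℕ => dd n (2 * n)) atTop (𝓝 0) := by
  have hb : ∀ n : ℕ, dd n (2 * n) ≤ Real.sqrt (Real.exp ((1 / 4) ^ n) - 1) := by
    intro n
    have h1 : dd n (2 * n) ≤ D (4 ^ n) (2 * n) := by
      unfold dd
      have := mul_le_mul_of_nonneg_right (pow_le_one₀ (n := 2 * n) (c_bounds n).1 (c_bounds n).2)
        (D_nonneg (4 ^ n) (2 * n))
      linarith
    have h2 := D_upper (4 ^ n) (2 * n)
    rw [four_pow] at h2
    have e : (4 : ℝ) ^ n * (1 / 4) ^ (2 * n) = (1 / 4) ^ n := by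
      rw [two_mul, pow_add, ← mul_assoc, ← mul_pow]; norm_num
    rw [e] at h2
    have h3 : 2 * D (4 ^ n) (2 * n) ≤ Real.sqrt (Real.exp ((1 / 4) ^ n) - 1) :=
      Real.le_sqrt_of_sq_le h2
    have := D_nonneg (4 ^ n) (2 * n)
    linarith
  have hlim : Tendsto (fun n : ℕ => Real.sqrt (Real.exp ((1 / 4) ^ n) - 1)) atTop (𝓝 0) := by
    have h1 : Tendsto (fun n : ℕ => ((1 : ℝ) / 4) ^ n) atTop (𝓝 0) :=
      tendsto_pow_atTop_nhds_zero_of_lt_one (by norm_num) (by norm_num)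
    have h2 : Tendsto (fun n : ℕ => Real.exp (((1 : ℝ) / 4) ^ n) - 1) atTop (𝓝 (Real.exp 0 - 1)) :=
      ((Real.continuous_exp.tendsto 0).comp h1).sub_const 1
    have h3 := (Real.continuous_sqrt.tendsto _).comp h2
    simpa [Function.comp_def] using h3
  exact squeeze_zero (fun n => dd_nonneg n _) hb hlim

/-- The negation of the preceding statement: Every sequence of random walks on finite groups with a precut-off (distance to uniform →0 at b·tₙ but eventually ≥ε at a·tₙ, tₙ→∞) has a cut-off: some sₙ→∞ with distance →0 at (1+ε)sₙ and →1 at (1−ε)sₙ for all ε in (0,1). -/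
theorem result :
    ¬ (∀ (G : ℕ → Type) [∀ n, Group (G n)] [∀ n, Fintype (G n)] [∀ n, DecidableEq (G n)]
    (p : ∀ n, G n → ℝ) (d : ℕ → ℕ → ℝ),
    (∀ n g, 0 ≤ p n g) → (∀ n, ∑ g, p n g = 1) →
    (∀ n k, d n k = (1 / 2 : ℝ) * ∑ g : G n,
        |(∑ f ∈ (Finset.univ : Finset (Fin k → G n)).filter (fun f => (List.ofFn f).prod = g),
            ∏ i, p n (f i)) - 1 / (Fintype.card (G n) : ℝ)|) →
    (∃ t : ℕ → ℝ, Tendsto t atTop atTop ∧ ∃ a b : ℝ, 0 < a ∧ a < b ∧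
        Tendsto (fun n => d n ⌊b * t n⌋₊) atTop (𝓝 0) ∧
        ∃ ε : ℝ, 0 < ε ∧ ∀ᶠ n in atTop, ε ≤ d n ⌊a * t n⌋₊) →
    ∃ s : ℕ → ℝ, Tendsto s atTop atTop ∧ ∀ ε : ℝ, 0 < ε → ε < 1 →
        Tendsto (fun n => d n ⌊(1 + ε) * s n⌋₊) atTop (𝓝 0) ∧
        Tendsto (fun n => d n ⌊(1 - ε) * s n⌋₊) atTop (𝓝 1)) := by
  intro H
  have key := H (fun n => Fin (4 ^ n) → ℤˣ) (fun n => P (4 ^ n) (1 / ((n : ℝ) + 2))) dd
    (by
      intro n g
      unfold P
      have h1 := (c_bounds n).1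
      have h2 := mu_nonneg (N := 4 ^ n) (δ := 1 / 2) (by norm_num) (by norm_num) g
      positivity)
    (by
      intro n
      unfold P
      rw [Finset.sum_add_distrib, ← Finset.mul_sum, sum_mu, Finset.sum_const, Finset.card_univ,
        card_G, nsmul_eq_mul]
      push_cast
      have : (2 : ℝ) ^ (4 ^ n) ≠ 0 := by positivity
      field_simp
      ring)
    (by
      intro n k
      have hS := S_P (4 ^ n) (1 / ((n : ℝ) + 2)) k
      unfold S at hS
      simp_rw [hS]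
      rw [card_G]
      unfold dd D
      rw [← mul_assoc, mul_comm ((1 - 1 / ((n : ℝ) + 2)) ^ k) (1 / 2), mul_assoc, Finset.mul_sum]
      congr 1
      apply Finset.sum_congr rfl
      intro g _
      rw [← abs_of_nonneg (pow_nonneg (c_bounds n).1 k), ← abs_mul,
        abs_of_nonneg (pow_nonneg (c_bounds n).1 k)]
      congr 1
      push_cast
      ring)
    ⟨fun n => (n : ℝ), tendsto_natCast_atTop_atTop, 1, 2, by norm_num, by norm_num, by
      have e : ∀ n : ℕ, ⌊(2 : ℝ) * (n : ℝ)⌋₊ = 2 * n := by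
        intro n
        rw [show (2 : ℝ) * (n : ℝ) = ((2 * n : ℕ) : ℝ) by push_cast; ring, Nat.floor_natCast]
      simp only [e]
      exact dd_tendsto, Real.exp (-1) * (1 - Real.exp (-(1 / 8))), by
      have : Real.exp (-(1 / 8)) < 1 := Real.exp_lt_one_iff.2 (by norm_num)
      have h2 : 0 < Real.exp (-1) := Real.exp_pos _
      exact mul_pos h2 (by linarith), by
      filter_upwards with n
      rw [one_mul, Nat.floor_natCast]
      exact dd_lower n n le_rfl⟩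
  obtain ⟨s, hs, hcut⟩ := key
  obtain ⟨hA, hB⟩ := hcut (1 / 2) (by norm_num) (by norm_num)
  have hpos : 0 < Real.exp (-1) * (1 - Real.exp (-(1 / 8))) := by
    have : Real.exp (-(1 / 8)) < 1 := Real.exp_lt_one_iff.2 (by norm_num)
    have h2 : 0 < Real.exp (-1) := Real.exp_pos _
    exact mul_pos h2 (by linarith)
  have hlt : Real.exp (-(1 / 100)) < 1 := Real.exp_lt_one_iff.2 (by norm_num)
  have eA := hA.eventually (gt_mem_nhds hpos)
  have eB := hB.eventually (lt_mem_nhds hlt)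
  obtain ⟨n, hn1, hn2, hn3⟩ := (eA.and (eB.and (eventually_ge_atTop 10))).exists
  have h1 := lt_of_lt_of_le hn2 (dd_upper n _)
  have h2 := Real.exp_lt_exp.1 h1
  have hnp : (0 : ℝ) < (n : ℝ) + 2 := by positivity
  have h3 : ((⌊(1 - 1 / 2) * s n⌋₊ : ℕ) : ℝ) < ((n : ℝ) + 2) / 100 := by
    have : ((⌊(1 - 1 / 2) * s n⌋₊ : ℕ) : ℝ) / ((n : ℝ) + 2) < 1 / 100 := by linarith
    rw [div_lt_iff₀ hnp] at this
    linarith
  have h4 := Nat.lt_floor_add_one ((1 - 1 / 2) * s n)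
  have hn10 : (10 : ℝ) ≤ n := by exact_mod_cast hn3
  have h5 : (1 + 1 / 2) * s n ≤ n := by linarith
  have h6 : ⌊(1 + 1 / 2) * s n⌋₊ ≤ n := Nat.floor_le_of_le h5
  have h7 := dd_lower n _ h6
  linarith

end Pool.Agent.S11762
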