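import Pool.Statements.S11772
import Pool.Agent.Helper23.LQ.QI

set_option autoImplicit false
open Pool Pool.MP_94e09c_pr

namespace Pool.Agent.S11772

/-- The negation of the preceding statement: Every connected bounded-degree graph that is quasi-isometric to the Cayley graph of a finitely generated nonamenable group carries a bounded, nonconstant function that is harmonic for simple random walk. -/
theorem result :
    ¬ (∀ (V : Type) (G : SimpleGraph V) [G.LocallyFinite] (Γ : Type) [Group Γ] [DecidableEq Γ]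
      (S : Finset Γ),
      G.Connected →
      (∃ D : ℕ, ∀ v : V, G.degree v ≤ D) →
      Subgroup.closure (S : Set Γ) = ⊤ →
      (∃ ε : ℝ, 0 < ε ∧ ∀ F : Finset Γ, F.Nonempty →
          ε * (F.card : ℝ) ≤
            (((F.biUnion (fun x => S.image (fun s => x * s) ∪ S.image (fun s => x * s⁻¹))) \ F).card : ℝ)) →
      (∃ φ : V → Γ, ∃ C K : ℝ, 0 < C ∧ 0 ≤ K ∧
          (∀ x y : V, (G.dist x y : ℝ) ≤
              C * ((SimpleGraph.fromRel (fun a b : Γ => a⁻¹ * b ∈ S)).dist (φ x) (φ y) : ℝ) + K) ∧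
          (∀ x y : V, ((SimpleGraph.fromRel (fun a b : Γ => a⁻¹ * b ∈ S)).dist (φ x) (φ y) : ℝ) ≤
              C * (G.dist x y : ℝ) + K) ∧
          (∀ γ : Γ, ∃ x : V,
              ((SimpleGraph.fromRel (fun a b : Γ => a⁻¹ * b ∈ S)).dist γ (φ x) : ℝ) ≤ K)) →
      ∃ h : V → ℝ,
        (∀ v : V, (G.degree v : ℝ) * h v = ∑ w ∈ G.neighborFinset v, h w) ∧
        (∃ M : ℝ, ∀ v : V, |h v| ≤ M) ∧
        (∃ a b : V, h a ≠ h b)) := by
  intro H
  obtain ⟨h, h1, ⟨M, h2⟩, a, b, h3⟩ := H Helper23.LQ.V Helper23.LQ.GG Helper23.LQ.V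
    Helper23.LQ.SS Helper23.LQ.gg_connected ⟨_, Helper23.LQ.deg_bound⟩ Helper23.LQ.closure_SS
    ⟨1, one_pos, fun F _ => by
      rw [one_mul]
      exact Helper23.LQ.nonamenable F⟩
    ⟨fun v => v⁻¹, 3, 0, by norm_num, le_rfl, fun x y => by
      have h := Helper23.LQ.gg_dist_le x y
      have h' : (Helper23.LQ.GG.dist x y : ℝ) ≤ (Helper23.LQ.Cay.dist x⁻¹ y⁻¹ : ℝ) := by
        exact_mod_cast h
      have h'' : (0 : ℝ) ≤ (Helper23.LQ.Cay.dist x⁻¹ y⁻¹ : ℝ) := Nat.cast_nonneg _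
      show (Helper23.LQ.GG.dist x y : ℝ) ≤ 3 * (Helper23.LQ.Cay.dist x⁻¹ y⁻¹ : ℝ) + 0
      linarith, fun x y => by
      have h := Helper23.LQ.cay_dist_le x y
      have h' : (Helper23.LQ.Cay.dist x⁻¹ y⁻¹ : ℝ) ≤ 3 * (Helper23.LQ.GG.dist x y : ℝ) := by
        exact_mod_cast h
      show (Helper23.LQ.Cay.dist x⁻¹ y⁻¹ : ℝ) ≤ 3 * (Helper23.LQ.GG.dist x y : ℝ) + 0
      linarith, fun γ => ⟨γ⁻¹, by
      show (Helper23.LQ.Cay.dist γ (γ⁻¹)⁻¹ : ℝ) ≤ 0
      rw [inv_inv, SimpleGraph.dist_self]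
      simp⟩⟩
  apply h3
  refine Helper23.LQ.liouville h (fun v => ?_) M h2 a b
  have h4 := h1 v
  rw [Helper23.LQ.nbr_eq, ← SimpleGraph.card_neighborFinset_eq_degree, Helper23.LQ.nbr_eq] at h4
  exact h4

end Pool.Agent.S11772
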