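import Pool.Statements.S11784
import Pool.Agent.Helper553.Kac.Final

set_option autoImplicit false
open MeasureTheory ProbabilityTheory Filter Topology
open Pool Pool.MP_9bdf03_pr

namespace Pool.Agent.S11784

/-- The negation of the preceding statement: For an iid standard normal sequence ξ_i, almost surely the number of real roots of ξ_0 + ξ_1 x + … + ξ_n x^n, divided by log n, tends to 2/π as n → ∞. -/
theorem result :
    ¬ (∀ (Ω : Type) [MeasureSpace Ω] [IsProbabilityMeasure (volume : Measure Ω)]
      (ξ : ℕ → Ω → ℝ),
      (∀ i, Measurable (ξ i)) →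
      iIndepFun ξ (volume : Measure Ω) →
      (∀ i, Measure.map (ξ i) (volume : Measure Ω) = gaussianReal 0 1) →
      ∀ᵐ ω ∂(volume : Measure Ω),
        Tendsto
          (fun n : ℕ =>
            ((∑ i ∈ Finset.range (n + 1),
                Polynomial.C (ξ i ω) * Polynomial.X ^ i).roots.card : ℝ)
              / Real.log n)
          atTop (𝓝 (2 / Real.pi))) := by
  intro H
  apply Pool.Agent.Helper553.Kac.not_ae_tendsto
  let inst : MeasureSpace (ℕ → ℝ) :=
    { toMeasurableSpace := MeasurableSpace.pi
      volume := Pool.Agent.Helper553.Kac.mu }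
  have hp : IsProbabilityMeasure (@volume (ℕ → ℝ) inst) := by
    show IsProbabilityMeasure Pool.Agent.Helper553.Kac.mu
    infer_instance
  exact @H (ℕ → ℝ) inst hp (fun i a => a i) (fun i => measurable_pi_apply i)
    (iIndepFun_infinitePi (P := fun _ : ℕ => gaussianReal 0 1) (X := fun _ x => x)
      (fun _ => measurable_id))
    (fun i => Measure.infinitePi_map_eval (fun _ : ℕ => gaussianReal 0 1) i)

end Pool.Agent.S11784
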