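import Pool.Statements.S11798

set_option autoImplicit false
open MeasureTheory Pointwise
open Pool Pool.MP_a5e374_pr

namespace Pool.Agent.S11798

section Aux
open Set
open scoped ENNReal

/-- one dimensional Brunn–Minkowski for compact sets -/
theorem bm_compact (K L : Set ℝ) (hK : IsCompact K) (hL : IsCompact L) (hKn : K.Nonempty)
    (hLn : L.Nonempty) : volume K + volume L ≤ volume (K + L) := by
  have hk : sSup K ∈ K := hK.sSup_mem hKn
  have hl : sInf L ∈ L := hL.sInf_mem hLn
  set k := sSup K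
  set l := sInf L
  have h1 : volume ((fun x => x + l) '' K) = volume K := by
    rw [show (fun x => x + l) '' K = (fun x => x + -l) ⁻¹' K by
      ext x; simp [Set.mem_image]]
    exact measure_preimage_add_right volume (-l) K
  have h2 : volume ((fun x => k + x) '' L) = volume L := by
    rw [show (fun x => k + x) '' L = (fun x => -k + x) ⁻¹' L by
      ext x; simp [Set.mem_image]]
    exact measure_preimage_add volume (-k) L
  have hmeas : MeasurableSet ((fun x => k + x) '' L) :=
    (hL.image (by fun_prop)).measurableSet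
  rw [← h1, ← h2]
  have hdisj : volume (((fun x => x + l) '' K) ∩ ((fun x => k + x) '' L)) = 0 := by
    refine measure_mono_null (t := {k + l}) ?_ (by simp)
    rintro x ⟨⟨a, ha, rfl⟩, ⟨b, hb, hab⟩⟩
    have ha' : a ≤ k := le_csSup hK.bddAbove ha
    have hb' : l ≤ b := csInf_le hL.bddBelow hb
    simp only [mem_singleton_iff]
    simp only at hab
    linarith
  rw [← measure_union_add_inter _ hmeas, hdisj, add_zero]
  apply measure_mono
  rintro x (⟨a, ha, rfl⟩ | ⟨b, hb, rfl⟩)
  · exact Set.add_mem_add ha hl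
  · exact Set.add_mem_add hk hb

theorem bm_meas (t : ℝ) (ht : 0 < t) (ht1 : t < 1) (P Q R : Set ℝ) (hP : MeasurableSet P)
    (hQ : MeasurableSet Q) (hPn : P.Nonempty) (hQn : Q.Nonempty)
    (hR : ∀ x ∈ P, ∀ y ∈ Q, t * x + (1 - t) * y ∈ R) :
    ENNReal.ofReal t * volume P + ENNReal.ofReal (1 - t) * volume Q ≤ volume R := by
  have key : ∀ K ⊆ P, ∀ L ⊆ Q, IsCompact K → IsCompact L →
      ENNReal.ofReal t * volume K + ENNReal.ofReal (1 - t) * volume L ≤ volume R := by
    intro K hKP L hLQ hK hL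
    obtain ⟨p, hp⟩ := hPn
    obtain ⟨q, hq⟩ := hQn
    have hK' : IsCompact (insert p K) := hK.insert p
    have hL' : IsCompact (insert q L) := hL.insert q
    have h := bm_compact (t • insert p K) ((1 - t) • insert q L) (hK'.smul t) (hL'.smul (1 - t))
      ((Set.insert_nonempty p K).smul_set) ((Set.insert_nonempty q L).smul_set)
    rw [Measure.addHaar_smul, Measure.addHaar_smul] at h
    simp only [Module.finrank_self, pow_one] at h
    rw [abs_of_pos ht, abs_of_pos (by linarith : 0 < 1 - t)] at h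
    calc ENNReal.ofReal t * volume K + ENNReal.ofReal (1 - t) * volume L
        ≤ ENNReal.ofReal t * volume (insert p K) + ENNReal.ofReal (1 - t) * volume (insert q L) := by
          gcongr
          · exact Set.subset_insert p K
          · exact Set.subset_insert q L
      _ ≤ volume (t • insert p K + (1 - t) • insert q L) := h
      _ ≤ volume R := by
          apply measure_mono
          rintro x hx
          obtain ⟨a, ha, b, hb, rfl⟩ := Set.mem_add.1 hx
          obtain ⟨a', ha', rfl⟩ := Set.mem_smul_set.1 ha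
          obtain ⟨b', hb', rfl⟩ := Set.mem_smul_set.1 hb
          apply hR
          · rcases Set.mem_insert_iff.1 ha' with h | h
            · rw [h]; exact hp
            · exact hKP h
          · rcases Set.mem_insert_iff.1 hb' with h | h
            · rw [h]; exact hq
            · exact hLQ h
  have hsub : ∀ S : Set ℝ, MeasurableSet S →
      volume S = ⨆ K : {K : Set ℝ // K ⊆ S ∧ IsCompact K}, volume (K : Set ℝ) := by
    intro S hS
    rw [hS.measure_eq_iSup_isCompact, iSup_subtype]
    congr 1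
    funext K
    rw [iSup_and]
  rw [hsub P hP, hsub Q hQ, ENNReal.mul_iSup, ENNReal.mul_iSup]
  have hne : ∀ S : Set ℝ, Nonempty {K : Set ℝ // K ⊆ S ∧ IsCompact K} := fun S =>
    ⟨⟨∅, Set.empty_subset S, isCompact_empty⟩⟩
  have := hne P
  have := hne Q
  exact ENNReal.iSup_add_iSup_le (fun K L => key K.1 K.2.1 L.1 L.2.1 K.2.2 L.2.2)

/-- normalised one dimensional Prékopa–Leindler / Borell inequality -/
theorem pl_norm (t : ℝ) (ht : 0 < t) (ht1 : t < 1) (u v w : ℝ → ℝ) (hu : Measurable u)
    (hv : Measurable v) (hw : Measurable w) (hu0 : ∀ x, 0 ≤ u x) (hv0 : ∀ x, 0 ≤ v x)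
    (hw0 : ∀ x, 0 ≤ w x) (hu1 : ∀ x, u x ≤ 1) (hv1 : ∀ x, v x ≤ 1)
    (hus : ∀ s < 1, ∃ x, s < u x) (hvs : ∀ s < 1, ∃ x, s < v x)
    (hmin : ∀ x y, min (u x) (v y) ≤ w (t * x + (1 - t) * y)) :
    ENNReal.ofReal t * (∫⁻ x, ENNReal.ofReal (u x)) + ENNReal.ofReal (1 - t) *
      (∫⁻ x, ENNReal.ofReal (v x)) ≤ ∫⁻ x, ENNReal.ofReal (w x) := by
  have lc : ∀ f : ℝ → ℝ, Measurable f → (∀ x, 0 ≤ f x) →
      ∫⁻ x, ENNReal.ofReal (f x) = ∫⁻ s in Ioi (0:ℝ), volume {a | s < f a} := fun f hf h0 =>
    lintegral_eq_lintegral_meas_lt volume (Filter.Eventually.of_forall h0) hf.aemeasurable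
  rw [lc u hu hu0, lc v hv hv0, lc w hw hw0]
  have hmeas : ∀ f : ℝ → ℝ, Measurable (fun s : ℝ => (volume {a | s < f a} : ℝ≥0∞)) := by
    intro f
    apply Antitone.measurable
    intro a b hab
    exact measure_mono (fun x (hx : b < f x) => lt_of_le_of_lt hab hx)
  rw [← lintegral_const_mul _ (hmeas u), ← lintegral_const_mul _ (hmeas v),
    ← lintegral_add_left ((hmeas u).const_mul _)]
  apply lintegral_mono
  intro s
  simp only
  rcases lt_or_ge s 1 with hs | hs
  · apply bm_meas t ht ht1 {a | s < u a} {a | s < v a} {a | s < w a}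
      (measurableSet_lt measurable_const hu) (measurableSet_lt measurable_const hv)
      (hus s hs) (hvs s hs)
    intro x hx y hy
    exact lt_of_lt_of_le (lt_min hx hy) (hmin x y)
  · have h1 : {a | s < u a} = ∅ := by
      ext a; simp only [mem_setOf_eq, mem_empty_iff_false, iff_false, not_lt]
      exact (hu1 a).trans hs
    have h2 : {a | s < v a} = ∅ := by
      ext a; simp only [mem_setOf_eq, mem_empty_iff_false, iff_false, not_lt]
      exact (hv1 a).trans hs
    rw [h1, h2]; simp

/-- Borell–Brascamp–Lieb in dimension one with the harmonic mean. -/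
theorem bbl (t : ℝ) (ht : 0 < t) (ht1 : t < 1) (u v w : ℝ → ℝ) (hu : Measurable u)
    (hv : Measurable v) (hw : Measurable w) (hu0 : ∀ x, 0 ≤ u x) (hv0 : ∀ x, 0 ≤ v x)
    (hw0 : ∀ x, 0 ≤ w x) (hub : BddAbove (range u)) (hvb : BddAbove (range v))
    (hup : ∃ x, 0 < u x) (hvp : ∃ x, 0 < v x)
    (h : ∀ x y, 0 < u x → 0 < v y → 1 ≤ w (t * x + (1 - t) * y) * (t / u x + (1 - t) / v y)) :
    min (∫⁻ x, ENNReal.ofReal (u x)) (∫⁻ x, ENNReal.ofReal (v x))
      ≤ ∫⁻ x, ENNReal.ofReal (w x) := by
  obtain ⟨x0, hx0⟩ := hup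
  obtain ⟨y0, hy0⟩ := hvp
  have hU : 0 < sSup (range u) := lt_of_lt_of_le hx0 (le_csSup hub (mem_range_self x0))
  have hV : 0 < sSup (range v) := lt_of_lt_of_le hy0 (le_csSup hvb (mem_range_self y0))
  have hule : ∀ x, u x ≤ sSup (range u) := fun x => le_csSup hub (mem_range_self x)
  have hvle : ∀ x, v x ≤ sSup (range v) := fun x => le_csSup hvb (mem_range_self x)
  have hul : ∀ s < sSup (range u), ∃ x, s < u x := by
    intro s hs
    obtain ⟨_, ⟨x, rfl⟩, hx⟩ := exists_lt_of_lt_csSup (range_nonempty u) hs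
    exact ⟨x, hx⟩
  have hvl : ∀ s < sSup (range v), ∃ x, s < v x := by
    intro s hs
    obtain ⟨_, ⟨x, rfl⟩, hx⟩ := exists_lt_of_lt_csSup (range_nonempty v) hs
    exact ⟨x, hx⟩
  set U := sSup (range u)
  set V := sSup (range v)
  have ht' : 0 < 1 - t := by linarith
  obtain ⟨m, hm⟩ : ∃ m, m = 1 / (t / U + (1 - t) / V) := ⟨_, rfl⟩
  have hmpos : 0 < m := by rw [hm]; positivity
  have hpl := pl_norm t ht ht1 (fun x => u x / U) (fun x => v x / V) (fun x => w x / m)
    (hu.div_const U) (hv.div_const V) (hw.div_const m) (fun x => div_nonneg (hu0 x) hU.le)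
    (fun x => div_nonneg (hv0 x) hV.le) (fun x => div_nonneg (hw0 x) hmpos.le)
    (fun x => (div_le_one hU).2 (hule x)) (fun x => (div_le_one hV).2 (hvle x))
    (fun s hs => by
      obtain ⟨x, hx⟩ := hul (s * U) (by nlinarith)
      exact ⟨x, (lt_div_iff₀ hU).2 hx⟩)
    (fun s hs => by
      obtain ⟨x, hx⟩ := hvl (s * V) (by nlinarith)
      exact ⟨x, (lt_div_iff₀ hV).2 hx⟩)
    (fun x y => by
      rcases (hu0 x).eq_or_lt with hx | hx
      · rw [← hx, zero_div]
        exact (min_le_left _ _).trans (div_nonneg (hw0 _) hmpos.le)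
      rcases (hv0 y).eq_or_lt with hy | hy
      · rw [← hy, zero_div]
        exact (min_le_right _ _).trans (div_nonneg (hw0 _) hmpos.le)
      have hxy := h x y hx hy
      set μ := min (u x / U) (v y / V)
      have hμ : 0 < μ := lt_min (div_pos hx hU) (div_pos hy hV)
      have h1 : μ * U ≤ u x := (le_div_iff₀ hU).1 (min_le_left _ _)
      have h2 : μ * V ≤ v y := (le_div_iff₀ hV).1 (min_le_right _ _)
      rw [le_div_iff₀ hmpos]
      have h3 : t / u x + (1 - t) / v y ≤ (t / U + (1 - t) / V) / μ := by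
        rw [add_div]
        apply add_le_add
        · rw [div_div]
          exact div_le_div_of_nonneg_left ht.le (by positivity) (by linarith)
        · rw [div_div]
          exact div_le_div_of_nonneg_left ht'.le (by positivity) (by linarith)
      have h4 : 1 ≤ w (t * x + (1 - t) * y) * ((t / U + (1 - t) / V) / μ) :=
        hxy.trans (mul_le_mul_of_nonneg_left h3 (hw0 _))
      have h5 : 0 < t / U + (1 - t) / V := by positivity
      rw [hm, mul_one_div, div_le_iff₀ h5]
      have h6 : w (t * x + (1 - t) * y) * ((t / U + (1 - t) / V) / μ)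
          = (w (t * x + (1 - t) * y) * (t / U + (1 - t) / V)) / μ := by ring
      rw [h6, le_div_iff₀ hμ] at h4
      linarith)
  have hsc : ∀ (f : ℝ → ℝ) (c : ℝ), Measurable f → 0 < c →
      ∫⁻ x, ENNReal.ofReal (f x / c) = ENNReal.ofReal (1 / c) * ∫⁻ x, ENNReal.ofReal (f x) := by
    intro f c hf hc
    rw [← lintegral_const_mul _ (hf.ennreal_ofReal)]
    apply lintegral_congr
    intro x
    rw [← ENNReal.ofReal_mul (by positivity)]
    congr 1; ring
  rw [hsc u U hu hU, hsc v V hv hV, hsc w m hw hmpos, ← mul_assoc, ← mul_assoc,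
    ← ENNReal.ofReal_mul ht.le, ← ENNReal.ofReal_mul ht'.le] at hpl
  set Iu := ∫⁻ x, ENNReal.ofReal (u x)
  set Iv := ∫⁻ x, ENNReal.ofReal (v x)
  set Iw := ∫⁻ x, ENNReal.ofReal (w x)
  have h7 : ENNReal.ofReal (1 / m) * min Iu Iv ≤ ENNReal.ofReal (1 / m) * Iw := by
    refine le_trans ?_ hpl
    calc ENNReal.ofReal (1 / m) * min Iu Iv
        = ENNReal.ofReal (t * (1 / U)) * min Iu Iv + ENNReal.ofReal ((1 - t) * (1 / V)) * min Iu Iv := by
          rw [← add_mul, ← ENNReal.ofReal_add (by positivity) (by positivity)]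
          congr 2
          rw [hm, one_div_one_div]; ring
      _ ≤ _ := by
          gcongr
          · exact min_le_left _ _
          · exact min_le_right _ _
  have h8 : ENNReal.ofReal (1 / m) ≠ 0 := by
    rw [Ne, ENNReal.ofReal_eq_zero, not_le]; positivity
  exact (ENNReal.mul_le_mul_iff_right h8 ENNReal.ofReal_ne_top).1 h7

noncomputable def fU (x : ℝ) : ℝ := 1 / (2 * (1 + |x|) ^ 2)

noncomputable def fV (L x : ℝ) : ℝ := (Icc (-L) L).indicator (fun _ => 1 / (2 * L)) x

noncomputable def mU : Measure ℝ := volume.withDensity (fun x => ENNReal.ofReal (fU x))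

noncomputable def mV (L : ℝ) : Measure ℝ := volume.withDensity (fun x => ENNReal.ofReal (fV L x))

theorem fU_meas : Measurable fU := by unfold fU; fun_prop

theorem fV_meas (L : ℝ) : Measurable (fV L) :=
  measurable_const.indicator measurableSet_Icc

theorem fU_pos (x : ℝ) : 0 < fU x := by unfold fU; positivity

theorem fV_nonneg (L : ℝ) (hL : 0 < L) (x : ℝ) : 0 ≤ fV L x := by
  unfold fV
  apply Set.indicator_nonneg
  intro _ _; positivity

theorem mV_apply (L : ℝ) (hL : 0 < L) (S : Set ℝ) (hS : MeasurableSet S) :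
    mV L S = ENNReal.ofReal (1 / (2 * L)) * volume (S ∩ Icc (-L) L) := by
  unfold mV
  rw [withDensity_apply _ hS]
  have : (fun x => ENNReal.ofReal (fV L x)) = (Icc (-L) L).indicator
      (fun _ => ENNReal.ofReal (1 / (2 * L))) := by
    funext x
    unfold fV
    by_cases hx : x ∈ Icc (-L) L
    · rw [indicator_of_mem hx, indicator_of_mem hx]
    · rw [indicator_of_notMem hx, indicator_of_notMem hx, ENNReal.ofReal_zero]
  rw [this, lintegral_indicator measurableSet_Icc, Measure.restrict_restrict measurableSet_Icc,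
    lintegral_const, Measure.restrict_apply_univ, Set.inter_comm]

theorem mV_prob (L : ℝ) (hL : 0 < L) : IsProbabilityMeasure (mV L) := by
  constructor
  rw [mV_apply L hL _ MeasurableSet.univ, univ_inter, Real.volume_Icc,
    ← ENNReal.ofReal_mul (by positivity)]
  rw [← ENNReal.ofReal_one]
  congr 1
  field_simp
  ring

theorem mV_bm (L : ℝ) (hL : 0 < L) (t : ℝ) (ht : 0 < t) (ht1 : t < 1) (P Q R : Set ℝ)
    (hP : MeasurableSet P) (hQ : MeasurableSet Q) (hRm : MeasurableSet R)
    (hP0 : 0 < mV L P) (hQ0 : 0 < mV L Q)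
    (hR : ∀ x ∈ P, ∀ y ∈ Q, t * x + (1 - t) * y ∈ R) :
    ENNReal.ofReal t * mV L P + ENNReal.ofReal (1 - t) * mV L Q ≤ mV L R := by
  rw [mV_apply L hL P hP] at hP0 ⊢
  rw [mV_apply L hL Q hQ] at hQ0 ⊢
  rw [mV_apply L hL R hRm]
  have hPn : (P ∩ Icc (-L) L).Nonempty := by
    by_contra h
    rw [not_nonempty_iff_eq_empty] at h
    rw [h] at hP0; simp at hP0
  have hQn : (Q ∩ Icc (-L) L).Nonempty := by
    by_contra h
    rw [not_nonempty_iff_eq_empty] at h
    rw [h] at hQ0; simp at hQ0
  have h := bm_meas t ht ht1 (P ∩ Icc (-L) L) (Q ∩ Icc (-L) L) (R ∩ Icc (-L) L)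
    (hP.inter measurableSet_Icc) (hQ.inter measurableSet_Icc) hPn hQn (by
      rintro x ⟨hx, hx1, hx2⟩ y ⟨hy, hy1, hy2⟩
      refine ⟨hR x hx y hy, ?_, ?_⟩
      · nlinarith
      · nlinarith)
  calc ENNReal.ofReal t * (ENNReal.ofReal (1 / (2 * L)) * volume (P ∩ Icc (-L) L))
        + ENNReal.ofReal (1 - t) * (ENNReal.ofReal (1 / (2 * L)) * volume (Q ∩ Icc (-L) L))
      = ENNReal.ofReal (1 / (2 * L)) * (ENNReal.ofReal t * volume (P ∩ Icc (-L) L)
        + ENNReal.ofReal (1 - t) * volume (Q ∩ Icc (-L) L)) := by ring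
    _ ≤ _ := by gcongr

theorem prod_apply' (L : ℝ) (hL : 0 < L) (S : Set (ℝ × ℝ)) (hS : MeasurableSet S) :
    (mU.prod (mV L)) S
      = ∫⁻ x, ENNReal.ofReal (fU x * (mV L (Prod.mk x ⁻¹' S)).toReal) := by
  have := mV_prob L hL
  have hm : Measurable (fun x => mV L (Prod.mk x ⁻¹' S)) := measurable_measure_prodMk_left hS
  rw [Measure.prod_apply hS]
  unfold mU
  rw [lintegral_withDensity_eq_lintegral_mul _ (fU_meas.ennreal_ofReal) hm]
  apply lintegral_congr
  intro x
  simp only [Pi.mul_apply]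
  rw [ENNReal.ofReal_mul (fU_pos x).le, ENNReal.ofReal_toReal (measure_ne_top _ _)]

theorem concave_bot (L : ℝ) (hL : 0 < L) (A B : Set (ℝ × ℝ)) (hA : IsCompact A) (hB : IsCompact B)
    (hA0 : 0 < (mU.prod (mV L)) A) (hB0 : 0 < (mU.prod (mV L)) B) (t : ℝ) (ht : 0 < t)
    (ht1 : t < 1) :
    min ((mU.prod (mV L)) A) ((mU.prod (mV L)) B) ≤ (mU.prod (mV L)) (t • A + (1 - t) • B) := by
  have hprob := mV_prob L hL
  have ht' : 0 < 1 - t := by linarith
  have hC : IsCompact (t • A + (1 - t) • B) := (hA.smul t).add (hB.smul (1 - t))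
  have mA := hA.measurableSet
  have mB := hB.measurableSet
  have mC := hC.measurableSet
  set C := t • A + (1 - t) • B with hCdef
  rw [prod_apply' L hL A mA] at hA0 ⊢
  rw [prod_apply' L hL B mB] at hB0 ⊢
  rw [prod_apply' L hL C mC]
  have hmeas : ∀ S : Set (ℝ × ℝ), MeasurableSet S →
      Measurable (fun x => fU x * (mV L (Prod.mk x ⁻¹' S)).toReal) := fun S hS =>
    fU_meas.mul (measurable_measure_prodMk_left hS).ennreal_toReal
  have hnn : ∀ (S : Set (ℝ × ℝ)) x, 0 ≤ fU x * (mV L (Prod.mk x ⁻¹' S)).toReal := fun S x =>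
    mul_nonneg (fU_pos x).le ENNReal.toReal_nonneg
  have hbdd : ∀ S : Set (ℝ × ℝ), BddAbove (range (fun x => fU x * (mV L (Prod.mk x ⁻¹' S)).toReal)) := by
    intro S
    refine ⟨1, ?_⟩
    rintro _ ⟨x, rfl⟩
    have h1 : fU x ≤ 1 := by
      unfold fU
      rw [div_le_one (by positivity)]
      nlinarith [abs_nonneg x]
    have h2 : (mV L (Prod.mk x ⁻¹' S)).toReal ≤ 1 := by
      have := prob_le_one (μ := mV L) (s := Prod.mk x ⁻¹' S)
      exact ENNReal.toReal_mono ENNReal.one_ne_top this
    have h3 : 0 ≤ (mV L (Prod.mk x ⁻¹' S)).toReal := ENNReal.toReal_nonneg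
    have h4 := (fU_pos x).le
    nlinarith
  have hpos : ∀ S : Set (ℝ × ℝ), 0 < ∫⁻ x, ENNReal.ofReal (fU x * (mV L (Prod.mk x ⁻¹' S)).toReal) →
      ∃ x, 0 < fU x * (mV L (Prod.mk x ⁻¹' S)).toReal := by
    intro S hS
    by_contra hcon
    push Not at hcon
    have : ∫⁻ x, ENNReal.ofReal (fU x * (mV L (Prod.mk x ⁻¹' S)).toReal) = 0 := by
      rw [← lintegral_zero (μ := (volume : Measure ℝ))]
      apply lintegral_congr
      intro x
      rw [ENNReal.ofReal_eq_zero]
      exact hcon x
    rw [this] at hS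
    exact lt_irrefl _ hS
  refine bbl t ht ht1 _ _ _ (hmeas A mA) (hmeas B mB) (hmeas C mC) (hnn A) (hnn B) (hnn C)
    (hbdd A) (hbdd B) (hpos A hA0) (hpos B hB0) ?_
  intro x y hx hy
  set α := (mV L (Prod.mk x ⁻¹' A)).toReal with hα
  set β := (mV L (Prod.mk y ⁻¹' B)).toReal with hβ
  have hαpos : 0 < α := by
    rcases (mul_pos_iff.1 hx) with h | h
    · exact h.2
    · exact absurd h.1 (not_lt.2 (fU_pos x).le)
  have hβpos : 0 < β := by
    rcases (mul_pos_iff.1 hy) with h | h
    · exact h.2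
    · exact absurd h.1 (not_lt.2 (fU_pos y).le)
  have hsec : t * α + (1 - t) * β ≤ (mV L (Prod.mk (t * x + (1 - t) * y) ⁻¹' C)).toReal := by
    have h := mV_bm L hL t ht ht1 (Prod.mk x ⁻¹' A) (Prod.mk y ⁻¹' B)
      (Prod.mk (t * x + (1 - t) * y) ⁻¹' C) (measurable_prodMk_left mA) (measurable_prodMk_left mB)
      (measurable_prodMk_left mC) (ENNReal.toReal_pos_iff.1 hαpos).1
      (ENNReal.toReal_pos_iff.1 hβpos).1 (by
        intro a ha b hb
        simp only [mem_preimage] at ha hb ⊢
        rw [hCdef]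
        refine Set.mem_add.2 ⟨t • (x, a), Set.smul_mem_smul_set ha, (1 - t) • (y, b),
          Set.smul_mem_smul_set hb, ?_⟩
        simp)
    have h2 := ENNReal.toReal_mono (measure_ne_top (mV L) _) h
    rw [ENNReal.toReal_add (by finiteness) (by finiteness), ENNReal.toReal_mul, ENNReal.toReal_mul,
      ENNReal.toReal_ofReal ht.le, ENNReal.toReal_ofReal ht'.le] at h2
    exact h2
  set γ := (mV L (Prod.mk (t * x + (1 - t) * y) ⁻¹' C)).toReal
  -- convexity of the norm
  have habs : 1 + |t * x + (1 - t) * y| ≤ t * (1 + |x|) + (1 - t) * (1 + |y|) := by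
    have := abs_add_le (t * x) ((1 - t) * y)
    rw [abs_mul, abs_mul, abs_of_pos ht, abs_of_pos ht'] at this
    linarith
  have hp : 0 < 1 + |x| := by positivity
  have hq : 0 < 1 + |y| := by positivity
  have hz : 0 < 1 + |t * x + (1 - t) * y| := by positivity
  unfold fU
  set p := 1 + |x|
  set q := 1 + |y|
  set z := 1 + |t * x + (1 - t) * y|
  have e1 : t / (1 / (2 * p ^ 2) * α) + (1 - t) / (1 / (2 * q ^ 2) * β)
      = 2 * (t * p ^ 2 / α + (1 - t) * q ^ 2 / β) := by
    field_simp
  rw [e1]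
  have cs : (t * p + (1 - t) * q) ^ 2 ≤ (t * α + (1 - t) * β) * (t * p ^ 2 / α + (1 - t) * q ^ 2 / β) := by
    have e2 : (t * α + (1 - t) * β) * (t * p ^ 2 / α + (1 - t) * q ^ 2 / β)
        - (t * p + (1 - t) * q) ^ 2 = t * (1 - t) * (α * q - β * p) ^ 2 / (α * β) := by
      field_simp
      ring
    have : 0 ≤ t * (1 - t) * (α * q - β * p) ^ 2 / (α * β) := by positivity
    linarith
  have h1 : z ^ 2 ≤ (t * p + (1 - t) * q) ^ 2 := pow_le_pow_left₀ hz.le habs 2
  have h2 : z ^ 2 ≤ γ * (t * p ^ 2 / α + (1 - t) * q ^ 2 / β) := by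
    refine h1.trans (cs.trans ?_)
    apply mul_le_mul_of_nonneg_right hsec
    positivity
  have e3 : 1 / (2 * z ^ 2) * γ * (2 * (t * p ^ 2 / α + (1 - t) * q ^ 2 / β))
      = γ * (t * p ^ 2 / α + (1 - t) * q ^ 2 / β) / z ^ 2 := by
    field_simp
  rw [e3, le_div_iff₀ (by positivity), one_mul]
  exact h2

theorem map_neg_withDensity (g : ℝ → ℝ≥0∞) (hg : Measurable g) (heven : ∀ x, g (-x) = g x) :
    ((volume : Measure ℝ).withDensity g).map (fun x => -x) = volume.withDensity g := by
  ext S hS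
  rw [Measure.map_apply measurable_neg hS, withDensity_apply _ hS,
    withDensity_apply _ (measurable_neg hS)]
  have h := (Measure.measurePreserving_neg (volume : Measure ℝ)).setLIntegral_comp_preimage hS hg
  rw [← h]
  apply lintegral_congr
  intro x
  exact (heven x).symm

theorem mU_map_neg : mU.map (fun x => -x) = mU := by
  unfold mU
  exact map_neg_withDensity _ fU_meas.ennreal_ofReal (fun x => by unfold fU; rw [abs_neg])

theorem mV_map_neg (L : ℝ) : (mV L).map (fun x => -x) = mV L := by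
  unfold mV
  refine map_neg_withDensity _ (fV_meas L).ennreal_ofReal (fun x => ?_)
  congr 1
  unfold fV
  by_cases hx : x ∈ Icc (-L) L
  · rw [indicator_of_mem hx, indicator_of_mem]
    exact ⟨by linarith [hx.2], by linarith [hx.1]⟩
  · rw [indicator_of_notMem hx, indicator_of_notMem]
    intro h
    exact hx ⟨by linarith [h.2], by linarith [h.1]⟩

theorem mU_Ioi (a : ℝ) (ha : 0 ≤ a) : mU (Ioi a) = ENNReal.ofReal (1 / (2 * (1 + a))) := by
  unfold mU
  rw [withDensity_apply _ measurableSet_Ioi]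
  have hd : ∀ x ∈ Ici a, HasDerivAt (fun x : ℝ => -(1 / (2 * (1 + x)))) (fU x) x := by
    intro x hx
    have hx0 : 0 ≤ x := ha.trans hx
    have h1 : HasDerivAt (fun x : ℝ => 2 * (1 + x)) 2 x := by
      have := ((hasDerivAt_id x).const_add 1).const_mul 2
      simpa using this
    have h2 := (h1.inv (by positivity)).neg
    have h3 : (fun x : ℝ => -(1 / (2 * (1 + x)))) = -(fun x : ℝ => 2 * (1 + x))⁻¹ := by
      funext x; simp
    rw [h3]
    refine h2.congr_deriv ?_
    unfold fU
    rw [abs_of_nonneg hx0]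
    have : (1 + x) ≠ 0 := by positivity
    field_simp
  have hlim : Filter.Tendsto (fun x : ℝ => -(1 / (2 * (1 + x)))) Filter.atTop (nhds 0) := by
    have h1 : Filter.Tendsto (fun x : ℝ => 2 * (1 + x)) Filter.atTop Filter.atTop := by
      apply Filter.Tendsto.const_mul_atTop (by norm_num)
      exact Filter.tendsto_atTop_add_const_left _ 1 Filter.tendsto_id
    have h2 := (tendsto_inv_atTop_zero.comp h1).neg
    simp only [neg_zero] at h2
    refine h2.congr ?_
    intro x; simp [one_div]
  have hint := integrableOn_Ioi_deriv_of_nonneg' hd (fun x _ => (fU_pos x).le) hlim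
  have hval := integral_Ioi_of_hasDerivAt_of_nonneg' hd (fun x _ => (fU_pos x).le) hlim
  rw [← ofReal_integral_eq_lintegral_ofReal hint
    (Filter.Eventually.of_forall (fun x => (fU_pos x).le)), hval]
  congr 1
  ring

theorem mU_Iio (a : ℝ) (ha : 0 ≤ a) : mU (Iio (-a)) = ENNReal.ofReal (1 / (2 * (1 + a))) := by
  rw [← mU_Ioi a ha]
  conv_rhs => rw [← mU_map_neg]
  rw [Measure.map_apply measurable_neg measurableSet_Ioi]
  congr 1
  ext x; simp [lt_neg]

theorem mU_singleton (a : ℝ) : mU {a} = 0 := by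
  unfold mU
  exact withDensity_absolutelyContinuous _ _ (by simp)

theorem mU_prob : IsProbabilityMeasure mU := by
  constructor
  have h1 : (univ : Set ℝ) = Iio (-0) ∪ ({0} ∪ Ioi 0) := by
    ext x; simp
  rw [h1, measure_union, measure_union, mU_Iio 0 le_rfl, mU_Ioi 0 le_rfl, mU_singleton, zero_add,
    ← ENNReal.ofReal_add (by norm_num) (by norm_num)]
  · norm_num
  · rw [Set.disjoint_left]
    rintro x hx hx2
    simp only [mem_singleton_iff] at hx
    simp only [mem_Ioi] at hx2
    linarith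
  · exact measurableSet_Ioi
  · rw [Set.disjoint_left]
    rintro x hx hx2
    simp only [mem_Iio, neg_zero] at hx
    rcases hx2 with hx2 | hx2
    · simp only [mem_singleton_iff] at hx2; linarith
    · simp only [mem_Ioi] at hx2; linarith
  · exact (measurableSet_singleton 0).union measurableSet_Ioi

/-- law of the sum -/
noncomputable def gW (L s : ℝ) : ℝ≥0∞ := ∫⁻ x, ENNReal.ofReal (fV L (s - x)) ∂mU

theorem gW_meas (L : ℝ) : Measurable (gW L) := by
  unfold gW
  have := mU_prob
  have h : Measurable (fun p : ℝ × ℝ => ENNReal.ofReal (fV L (p.1 - p.2))) :=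
    ((fV_meas L).comp (measurable_fst.sub measurable_snd)).ennreal_ofReal
  exact h.lintegral_prod_right'

theorem gW_eq (L : ℝ) (hL : 0 < L) (s : ℝ) :
    gW L s = ENNReal.ofReal (1 / (2 * L)) * mU (Icc (s - L) (s + L)) := by
  unfold gW
  have : (fun x => ENNReal.ofReal (fV L (s - x))) = (Icc (s - L) (s + L)).indicator
      (fun _ => ENNReal.ofReal (1 / (2 * L))) := by
    funext x
    unfold fV
    by_cases hx : x ∈ Icc (s - L) (s + L)
    · rw [indicator_of_mem hx, indicator_of_mem]
      exact ⟨by linarith [hx.2], by linarith [hx.1]⟩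
    · rw [indicator_of_notMem hx, indicator_of_notMem, ENNReal.ofReal_zero]
      intro h
      exact hx ⟨by linarith [h.2], by linarith [h.1]⟩
  rw [this, lintegral_indicator measurableSet_Icc, lintegral_const, Measure.restrict_apply_univ]

theorem map_sum (L : ℝ) (hL : 0 < L) :
    (mU.prod (mV L)).map (fun x => x.1 + x.2) = volume.withDensity (gW L) := by
  have := mV_prob L hL
  have := mU_prob
  refine Measure.ext_of_lintegral _ (fun φ hφ => ?_)
  rw [lintegral_map hφ (by fun_prop), lintegral_withDensity_eq_lintegral_mul _ (gW_meas L) hφ,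
    lintegral_prod _ (by fun_prop)]
  have h1 : ∀ x : ℝ, ∫⁻ y, φ (x + y) ∂(mV L) = ∫⁻ s, ENNReal.ofReal (fV L (s - x)) * φ s := by
    intro x
    unfold mV
    rw [lintegral_withDensity_eq_lintegral_mul _ (fV_meas L).ennreal_ofReal (by fun_prop)]
    simp only [Pi.mul_apply]
    have h := lintegral_add_left_eq_self (μ := (volume : Measure ℝ))
      (fun s => ENNReal.ofReal (fV L (s - x)) * φ s) x
    rw [← h]
    apply lintegral_congr
    intro y
    rw [add_sub_cancel_left]
  simp only [h1]
  rw [lintegral_lintegral_swap]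
  · apply lintegral_congr
    intro s
    simp only [Pi.mul_apply]
    rw [lintegral_mul_const]
    · rfl
    · exact ((fV_meas L).comp (measurable_const.sub measurable_id)).ennreal_ofReal
  · apply Measurable.aemeasurable
    exact (((fV_meas L).comp (measurable_snd.sub measurable_fst)).ennreal_ofReal).mul
      (hφ.comp measurable_snd)

theorem enorm_pow_eq (f : ℝ → ℝ) (hf : ∀ x, 0 ≤ f x) :
    eLpNorm f 2 volume ^ (-((1 - (2:ℝ≥0∞)⁻¹)⁻¹).toReal)
      = (∫⁻ x, ENNReal.ofReal (f x ^ 2))⁻¹ := by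
  rw [eLpNorm_eq_lintegral_rpow_enorm_toReal (by norm_num) (by norm_num)]
  rw [ENNReal.one_sub_inv_two, inv_inv]
  simp only [ENNReal.toReal_ofNat]
  rw [← ENNReal.rpow_mul, ← ENNReal.rpow_neg_one]
  congr 1
  · apply lintegral_congr
    intro x
    rw [Real.enorm_eq_ofReal (hf x), ENNReal.ofReal_rpow_of_nonneg (hf x) (by norm_num)]
    norm_num
  · norm_num

noncomputable def GG (L s : ℝ) : ℝ := (mU (Icc (s - L) (s + L))).toReal

theorem gW_toReal (L : ℝ) (hL : 0 < L) (s : ℝ) : (gW L s).toReal = 1 / (2 * L) * GG L s := by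
  rw [gW_eq L hL, ENNReal.toReal_mul, ENNReal.toReal_ofReal (by positivity)]
  rfl

theorem GG_meas (L : ℝ) (hL : 0 < L) : Measurable (GG L) := by
  have h : GG L = fun s => (2 * L) * (gW L s).toReal := by
    funext s
    rw [gW_toReal L hL]; field_simp
  rw [h]
  exact (gW_meas L).ennreal_toReal.const_mul _

theorem GG_nonneg (L s : ℝ) : 0 ≤ GG L s := ENNReal.toReal_nonneg

theorem GG_le_one (L s : ℝ) : GG L s ≤ 1 := by
  have := mU_prob
  exact ENNReal.toReal_mono ENNReal.one_ne_top prob_le_one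

theorem gW_ofReal (L : ℝ) (hL : 0 < L) (s : ℝ) :
    ENNReal.ofReal ((gW L s).toReal) = gW L s := by
  have := mU_prob
  apply ENNReal.ofReal_toReal
  rw [gW_eq L hL]
  finiteness

theorem int_GG (L : ℝ) (hL : 0 < L) : ∫⁻ s, ENNReal.ofReal (GG L s) = ENNReal.ofReal (2 * L) := by
  have := mV_prob L hL
  have := mU_prob
  have h1 : ∫⁻ s, gW L s = 1 := by
    have h := map_sum L hL
    have h2 : ((mU.prod (mV L)).map (fun x => x.1 + x.2)) univ = 1 := by
      rw [Measure.map_apply (by fun_prop) MeasurableSet.univ, preimage_univ]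
      exact measure_univ
    rw [h, withDensity_apply _ MeasurableSet.univ, Measure.restrict_univ] at h2
    exact h2
  have h3 : ∀ s, ENNReal.ofReal (GG L s) = ENNReal.ofReal (2 * L) * gW L s := by
    intro s
    rw [← gW_ofReal L hL s, gW_toReal L hL, ← ENNReal.ofReal_mul (by positivity)]
    congr 1; field_simp
  simp only [h3]
  rw [lintegral_const_mul _ (gW_meas L), h1, mul_one]

theorem GG_lower (L : ℝ) (hL : 1 ≤ L) (s : ℝ) (hs : s ∈ Ioo (-L) 0) :
    1 / 8 / (1 + L + s) ≤ GG L s * (1 - GG L s) := by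
  have := mU_prob
  have hs1 := hs.1
  have hs2 := hs.2
  -- lower bound on G
  have h1 : 1 / 4 ≤ GG L s := by
    have e1 : mU (Iio (-0)) ≤ mU (Icc (s - L) (s + L)) + mU (Iio (-L)) := by
      refine le_trans (measure_mono ?_) (measure_union_le _ _)
      intro x hx
      simp only [mem_Iio, neg_zero] at hx
      rcases lt_or_ge x (-L) with h | h
      · exact Or.inr h
      · exact Or.inl ⟨by linarith, by linarith⟩
    rw [mU_Iio 0 le_rfl, mU_Iio L (by linarith)] at e1
    have e2 := ENNReal.toReal_mono (by finiteness) e1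
    rw [ENNReal.toReal_add (by finiteness) (by finiteness), ENNReal.toReal_ofReal (by norm_num),
      ENNReal.toReal_ofReal (by positivity)] at e2
    have e3 : 1 / (2 * (1 + L)) ≤ 1 / 4 := by
      apply one_div_le_one_div_of_le (by norm_num); linarith
    unfold GG
    linarith
  have h2 : 1 / (2 * (1 + (s + L))) ≤ 1 - GG L s := by
    have e1 : mU (Icc (s - L) (s + L)) + mU (Ioi (s + L)) ≤ 1 := by
      rw [← measure_union _ measurableSet_Ioi]
      · exact prob_le_one
      · rw [Set.disjoint_left]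
        intro x hx hx2
        exact absurd hx.2 (not_le.2 hx2)
    rw [mU_Ioi (s + L) (by linarith)] at e1
    have e2 := ENNReal.toReal_mono (by finiteness) e1
    rw [ENNReal.toReal_add (by finiteness) (by finiteness),
      ENNReal.toReal_ofReal (by have : 0 < 1 + (s + L) := by linarith
                                positivity), ENNReal.toReal_one] at e2
    unfold GG
    linarith
  have hpos : 0 < 1 + L + s := by linarith
  have h3 : 1 / 8 / (1 + L + s) = 1 / 4 * (1 / (2 * (1 + (s + L)))) := by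
    rw [show 1 + (s + L) = 1 + L + s by ring]
    field_simp
    norm_num
  rw [h3]
  apply mul_le_mul h1 h2 _ (GG_nonneg L s)
  have : 0 < 1 + (s + L) := by linarith
  positivity

theorem int_lower (L : ℝ) (hL : 1 ≤ L) :
    ENNReal.ofReal (1 / 8 * Real.log (1 + L)) ≤
      ∫⁻ s, ENNReal.ofReal (GG L s * (1 - GG L s)) := by
  have h1 : ∫⁻ s in Ioo (-L) 0, ENNReal.ofReal (1 / 8 / (1 + L + s))
      ≤ ∫⁻ s, ENNReal.ofReal (GG L s * (1 - GG L s)) := by
    calc ∫⁻ s in Ioo (-L) 0, ENNReal.ofReal (1 / 8 / (1 + L + s))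
        ≤ ∫⁻ s in Ioo (-L) 0, ENNReal.ofReal (GG L s * (1 - GG L s)) := by
          apply setLIntegral_mono' measurableSet_Ioo
          intro s hs
          exact ENNReal.ofReal_le_ofReal (GG_lower L hL s hs)
      _ ≤ _ := setLIntegral_le_lintegral _ _
  refine le_trans (le_of_eq ?_) h1
  have hd : ∀ s ∈ uIcc (-L) 0, HasDerivAt (fun s => 1 / 8 * Real.log (1 + L + s))
      (1 / 8 / (1 + L + s)) s := by
    intro s hs
    rw [uIcc_of_le (by linarith)] at hs
    have h2 : HasDerivAt (fun s : ℝ => 1 + L + s) 1 s := by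
      simpa using (hasDerivAt_id s).const_add (1 + L)
    have h3 := (h2.log (by linarith [hs.1] : (0:ℝ) < 1 + L + s).ne').const_mul (1 / 8)
    refine h3.congr_deriv ?_
    ring
  have hcont : ContinuousOn (fun s : ℝ => 1 / 8 / (1 + L + s)) (uIcc (-L) 0) := by
    rw [uIcc_of_le (by linarith)]
    apply ContinuousOn.div (by fun_prop) (by fun_prop)
    intro s hs
    exact (by linarith [hs.1] : (0:ℝ) < 1 + L + s).ne'
  have hint := intervalIntegral.integral_eq_sub_of_hasDerivAt hd hcont.intervalIntegrable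
  rw [intervalIntegral.integral_of_le (by linarith), integral_Ioc_eq_integral_Ioo] at hint
  have hI : IntegrableOn (fun s : ℝ => 1 / 8 / (1 + L + s)) (Ioo (-L) 0) := by
    rw [uIcc_of_le (by linarith)] at hcont
    exact (hcont.integrableOn_Icc).mono_set Ioo_subset_Icc_self
  rw [← ofReal_integral_eq_lintegral_ofReal hI, hint]
  · congr 1
    rw [show 1 + L + -L = 1 by ring, Real.log_one, add_zero]; ring
  · refine (ae_restrict_mem measurableSet_Ioo).mono (fun s hs => ?_)
    have : 0 < 1 + L + s := by linarith [hs.1]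
    simp only [Pi.zero_apply]
    positivity

theorem counter (L : ℝ) (hL : 64 ≤ L) (hlog : 256 ≤ Real.log (1 + L)) :
    (∫⁻ x, ENNReal.ofReal (fU x ^ 2))⁻¹ + (∫⁻ x, ENNReal.ofReal (fV L x ^ 2))⁻¹
      < (∫⁻ x, ENNReal.ofReal ((gW L x).toReal ^ 2))⁻¹ := by
  have hL0 : 0 < L := by linarith
  -- U
  have hU : (∫⁻ x, ENNReal.ofReal (fU x ^ 2))⁻¹ ≤ ENNReal.ofReal 32 := by
    have h1 : ENNReal.ofReal (1 / 32) ≤ ∫⁻ x, ENNReal.ofReal (fU x ^ 2) := by
      calc ENNReal.ofReal (1 / 32) = ∫⁻ x in Icc (-1:ℝ) 1, ENNReal.ofReal (1 / 64) := by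
            rw [lintegral_const, Measure.restrict_apply_univ, Real.volume_Icc,
              ← ENNReal.ofReal_mul (by norm_num)]
            norm_num
        _ ≤ ∫⁻ x in Icc (-1:ℝ) 1, ENNReal.ofReal (fU x ^ 2) := by
            apply setLIntegral_mono' measurableSet_Icc
            intro x hx
            apply ENNReal.ofReal_le_ofReal
            have hx1 : |x| ≤ 1 := abs_le.2 hx
            have h2 : 1 / 8 ≤ fU x := by
              unfold fU
              apply one_div_le_one_div_of_le (by positivity)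
              nlinarith [abs_nonneg x]
            nlinarith
        _ ≤ _ := setLIntegral_le_lintegral _ _
    have h3 := ENNReal.inv_le_inv.2 h1
    refine h3.trans (le_of_eq ?_)
    rw [← ENNReal.ofReal_inv_of_pos (by norm_num)]
    norm_num
  -- V
  have hV : (∫⁻ x, ENNReal.ofReal (fV L x ^ 2))⁻¹ = ENNReal.ofReal (2 * L) := by
    have h1 : (fun x => ENNReal.ofReal (fV L x ^ 2)) = (Icc (-L) L).indicator
        (fun _ => ENNReal.ofReal ((1 / (2 * L)) ^ 2)) := by
      funext x
      unfold fV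
      by_cases hx : x ∈ Icc (-L) L
      · rw [indicator_of_mem hx, indicator_of_mem hx]
      · rw [indicator_of_notMem hx, indicator_of_notMem hx]; simp
    rw [h1, lintegral_indicator measurableSet_Icc, lintegral_const, Measure.restrict_apply_univ,
      Real.volume_Icc, ← ENNReal.ofReal_mul (by positivity), ← ENNReal.ofReal_inv_of_pos]
    · congr 1
      field_simp
      ring
    · have : L - -L = 2 * L := by ring
      rw [this]; positivity
  -- W
  have hW : ∫⁻ x, ENNReal.ofReal ((gW L x).toReal ^ 2) ≤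
      ENNReal.ofReal ((2 * L - 32) / (4 * L ^ 2)) := by
    have e1 : ∫⁻ x, ENNReal.ofReal ((gW L x).toReal ^ 2)
        = ENNReal.ofReal (1 / (4 * L ^ 2)) * ∫⁻ x, ENNReal.ofReal (GG L x ^ 2) := by
      rw [← lintegral_const_mul _ ((GG_meas L hL0).pow_const 2).ennreal_ofReal]
      apply lintegral_congr
      intro x
      rw [gW_toReal L hL0, ← ENNReal.ofReal_mul (by positivity)]
      congr 1
      field_simp
      ring
    have e2 : (∫⁻ x, ENNReal.ofReal (GG L x ^ 2)) + ∫⁻ s, ENNReal.ofReal (GG L s * (1 - GG L s))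
        = ENNReal.ofReal (2 * L) := by
      rw [← lintegral_add_left ((GG_meas L hL0).pow_const 2).ennreal_ofReal, ← int_GG L hL0]
      apply lintegral_congr
      intro s
      have h0 := GG_nonneg L s
      have h1 := GG_le_one L s
      rw [← ENNReal.ofReal_add (by positivity) (mul_nonneg h0 (by linarith))]
      congr 1; ring
    have e3 : ENNReal.ofReal 32 ≤ ∫⁻ s, ENNReal.ofReal (GG L s * (1 - GG L s)) := by
      refine le_trans (ENNReal.ofReal_le_ofReal ?_) (int_lower L (by linarith))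
      linarith
    have e4 : ∫⁻ x, ENNReal.ofReal (GG L x ^ 2) ≤ ENNReal.ofReal (2 * L - 32) := by
      rw [ENNReal.ofReal_sub _ (by norm_num)]
      apply ENNReal.le_sub_of_add_le_right ENNReal.ofReal_ne_top
      rw [← e2]
      gcongr
    rw [e1]
    calc ENNReal.ofReal (1 / (4 * L ^ 2)) * ∫⁻ x, ENNReal.ofReal (GG L x ^ 2)
        ≤ ENNReal.ofReal (1 / (4 * L ^ 2)) * ENNReal.ofReal (2 * L - 32) := by gcongr
      _ = _ := by
        rw [← ENNReal.ofReal_mul (by positivity)]
        congr 1; field_simp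
  have hW2 := ENNReal.inv_le_inv.2 hW
  refine lt_of_lt_of_le ?_ hW2
  rw [hV, ← ENNReal.ofReal_inv_of_pos (by
    have : 0 < 2 * L - 32 := by linarith
    positivity)]
  calc (∫⁻ x, ENNReal.ofReal (fU x ^ 2))⁻¹ + ENNReal.ofReal (2 * L)
      ≤ ENNReal.ofReal 32 + ENNReal.ofReal (2 * L) := by gcongr
    _ = ENNReal.ofReal (32 + 2 * L) := by rw [← ENNReal.ofReal_add (by norm_num) (by positivity)]
    _ < _ := by
      rw [ENNReal.ofReal_lt_ofReal_iff']
      have h32 : 0 < 2 * L - 32 := by linarith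
      constructor
      · rw [inv_div, lt_div_iff₀ h32]; nlinarith
      · positivity

end Aux

/-- The negation of the preceding statement: For every κ ≤ 1/2 and every symmetric κ-concave law of (U,V) in the plane with densities for U, V, U+V: the square-root Rényi entropy power of U+V is at most that of U plus that of V, for all p>1 and for p=1 when entropies are finite. -/
theorem result :
    ¬ (∀ κ : EReal, κ ≤ ((1/2 : ℝ) : EReal) →
  ∀ μ : Measure (ℝ × ℝ), IsProbabilityMeasure μ →
    μ.map (fun x => -x) = μ →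
    (∀ A B : Set (ℝ × ℝ), IsCompact A → IsCompact B → 0 < μ A → 0 < μ B →
      ∀ t : ℝ, 0 < t → t < 1 →
        (if κ = ⊥ then min (μ A).toReal (μ B).toReal
         else if κ = 0 then (μ A).toReal ^ t * (μ B).toReal ^ (1 - t)
         else (t * (μ A).toReal ^ κ.toReal + (1 - t) * (μ B).toReal ^ κ.toReal) ^ (1 / κ.toReal))
        ≤ (μ (t • A + (1 - t) • B)).toReal) →
  ∀ fU fV fW : ℝ → ℝ, Measurable fU → Measurable fV → Measurable fW →
    (∀ x, 0 ≤ fU x) → (∀ x, 0 ≤ fV x) → (∀ x, 0 ≤ fW x) →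
    μ.map Prod.fst = volume.withDensity (fun x => ENNReal.ofReal (fU x)) →
    μ.map Prod.snd = volume.withDensity (fun x => ENNReal.ofReal (fV x)) →
    μ.map (fun x => x.1 + x.2) = volume.withDensity (fun x => ENNReal.ofReal (fW x)) →
    (∀ p : ENNReal, 1 < p →
      eLpNorm fW p volume ^ (-((1 - p⁻¹)⁻¹).toReal) ≤
        eLpNorm fU p volume ^ (-((1 - p⁻¹)⁻¹).toReal)
          + eLpNorm fV p volume ^ (-((1 - p⁻¹)⁻¹).toReal)) ∧
    (Integrable (fun x => Real.negMulLog (fU x)) →
      Integrable (fun x => Real.negMulLog (fV x)) →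
      Integrable (fun x => Real.negMulLog (fW x)) →
      Real.exp (∫ x, Real.negMulLog (fW x)) ≤
        Real.exp (∫ x, Real.negMulLog (fU x)) + Real.exp (∫ x, Real.negMulLog (fV x)))) := by
  intro hall
  obtain ⟨L, hL⟩ : ∃ L : ℝ, L = Real.exp 256 := ⟨_, rfl⟩
  have hLbig : 64 ≤ L := by
    rw [hL]
    have := Real.add_one_le_exp (256 : ℝ)
    linarith
  have hL0 : 0 < L := by linarith
  have hlog : 256 ≤ Real.log (1 + L) := by
    have h1 : Real.log (Real.exp 256) ≤ Real.log (1 + L) :=
      Real.log_le_log (Real.exp_pos _) (by rw [hL]; linarith)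
    rwa [Real.log_exp] at h1
  have hV := mV_prob L hL0
  have hU := mU_prob
  have hneg : (mU.prod (mV L)).map (fun x => -x) = mU.prod (mV L) := by
    have h1 : (fun x : ℝ × ℝ => -x) = Prod.map (fun x => -x) (fun x => -x) := by
      funext x; rfl
    rw [h1, ← Measure.map_prod_map _ _ measurable_neg measurable_neg, mU_map_neg, mV_map_neg]
  have h := hall ⊥ bot_le (mU.prod (mV L)) inferInstance hneg
    (fun A B hA hB hA0 hB0 t ht ht1 => by
      rw [if_pos rfl]
      have h1 := concave_bot L hL0 A B hA hB hA0 hB0 t ht ht1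
      have h2 := ENNReal.toReal_mono (measure_ne_top (mU.prod (mV L)) _) h1
      rwa [ENNReal.toReal_min (measure_ne_top _ _) (measure_ne_top _ _)] at h2)
    fU (fV L) (fun x => (gW L x).toReal) fU_meas (fV_meas L) (gW_meas L).ennreal_toReal
    (fun x => (fU_pos x).le) (fV_nonneg L hL0) (fun x => ENNReal.toReal_nonneg)
    (by rw [Measure.map_fst_prod, measure_univ, one_smul]; rfl)
    (by rw [Measure.map_snd_prod, measure_univ, one_smul]; rfl)
    (by
      rw [map_sum L hL0]
      congr 1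
      funext x
      exact (gW_ofReal L hL0 x).symm)
  have h2 := h.1 2 (by norm_num)
  rw [enorm_pow_eq _ (fun x => ENNReal.toReal_nonneg), enorm_pow_eq _ (fun x => (fU_pos x).le),
    enorm_pow_eq _ (fV_nonneg L hL0)] at h2
  exact absurd h2 (not_le.2 (counter L hLbig hlog))

end Pool.Agent.S11798
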