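import Pool.Statements.S11800
import Pool.Agent.Helper889.Final

set_option autoImplicit false
open MeasureTheory
open Pool Pool.MP_a9631d_pr

namespace Pool.Agent.S11800

/-- The negation of the preceding statement: For Thompson's group T acting on the circle, every symmetric finitely supported generating probability μ, and every μ-stationary ν: the Poisson transform is a bijection from bounded measurable functions mod ν-null onto bounded μ-harmonic functions. -/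
theorem result :
    ¬ (∀ T : Subgroup (Equiv.Perm (AddCircle (1:ℝ))),
    T = Subgroup.closure {f : Equiv.Perm (AddCircle (1:ℝ)) |
      ∃ F : ℝ → ℝ, Continuous F ∧ StrictMono F ∧ (∀ x : ℝ, F (x + 1) = F x + 1) ∧
        (∀ x : ℝ, f (↑x : AddCircle (1:ℝ)) = (↑(F x) : AddCircle (1:ℝ))) ∧
        ∃ N : ℕ, ∀ k : ℤ, ∃ m : ℤ, ∃ p : ℤ, ∃ q : ℕ,
          ∀ x ∈ Set.Icc ((k:ℝ) / 2 ^ N) (((k:ℝ) + 1) / 2 ^ N),
            F x = (2:ℝ) ^ m * x + (p:ℝ) / 2 ^ q} →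
    ∀ μ : T →₀ ℝ,
      (∀ g, 0 ≤ μ g) →
      μ.support.sum (fun g => μ g) = 1 →
      (∀ g, μ g⁻¹ = μ g) →
      Subgroup.closure (↑μ.support : Set T) = ⊤ →
      ∀ ν : Measure (AddCircle (1:ℝ)), IsProbabilityMeasure ν →
        (∀ A : Set (AddCircle (1:ℝ)), MeasurableSet A →
          ν A = ∑ g ∈ μ.support, ENNReal.ofReal (μ g) *
            ν ((fun x => (g : Equiv.Perm (AddCircle (1:ℝ))) x) ⁻¹' A)) →
        (∀ h : T → ℝ, (∃ C : ℝ, ∀ g, |h g| ≤ C) →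
          (∀ g, h g = ∑ s ∈ μ.support, μ s * h (g * s)) →
          ∃ f : AddCircle (1:ℝ) → ℝ, Measurable f ∧ (∃ C : ℝ, ∀ x, |f x| ≤ C) ∧
            ∀ g : T, h g = ∫ x, f ((g : Equiv.Perm (AddCircle (1:ℝ))) x) ∂ν) ∧
        (∀ f₁ f₂ : AddCircle (1:ℝ) → ℝ, Measurable f₁ → Measurable f₂ →
          (∃ C : ℝ, ∀ x, |f₁ x| ≤ C) → (∃ C : ℝ, ∀ x, |f₂ x| ≤ C) →
          (∀ g : T, ∫ x, f₁ ((g : Equiv.Perm (AddCircle (1:ℝ))) x) ∂ν =
                    ∫ x, f₂ ((g : Equiv.Perm (AddCircle (1:ℝ))) x) ∂ν) →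
          f₁ =ᵐ[ν] f₂)) := by
  intro H
  refine Pool.Agent.Helper889.final_contra ?_
  intro μ h1 h2 h3 h4 ν h5 h6
  exact H Pool.Agent.Helper889.TT rfl μ h1 h2 h3 h4 ν h5 h6

end Pool.Agent.S11800
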