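import Pool.Statements.S11802
-- import your own Pool.Agent.* helpers here

set_option autoImplicit false
open MeasureTheory ProbabilityTheory
open Pool Pool.MP_aa6114_pr

namespace Pool.Agent.S11802

/-- The fair coin measure on `Bool`. -/
noncomputable def coin : Measure Bool := (PMF.uniformOfFintype Bool).toMeasure

instance : IsProbabilityMeasure coin := by
  unfold coin; infer_instance

/-- The values taken by the four independent variables. -/
def val : Fin 4 → Bool → ℝ
  | 0, false => 2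
  | 0, true => 5
  | 1, false => 1
  | 1, true => 6
  | 2, false => 4
  | 2, true => 7
  | 3, false => 0
  | 3, true => 3

/-- The same values as natural numbers (used for decidable counting). -/
def valN : Fin 4 → Bool → ℕ
  | 0, false => 2
  | 0, true => 5
  | 1, false => 1
  | 1, true => 6
  | 2, false => 4
  | 2, true => 7
  | 3, false => 0
  | 3, true => 3

lemma val_eq (i : Fin 4) (b : Bool) : val i b = (valN i b : ℝ) := by
  fin_cases i <;> cases b <;> simp [val, valN]

lemma coin_singleton (b : Bool) : coin {b} = 2⁻¹ := by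
  unfold coin
  rw [PMF.toMeasure_apply_singleton _ _ (measurableSet_singleton b)]
  simp

/-- The product of four fair coins. -/
noncomputable def mu : Measure (Fin 4 → Bool) := Measure.pi (fun _ => coin)

instance : IsProbabilityMeasure mu := by
  unfold mu; infer_instance

lemma mu_singleton (w : Fin 4 → Bool) : mu {w} = 16⁻¹ := by
  unfold mu
  rw [Measure.pi_singleton]
  simp only [coin_singleton, Finset.prod_const, Finset.card_univ, Fintype.card_fin]
  rw [← ENNReal.inv_pow]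
  norm_num

lemma mu_apply (s : Set (Fin 4 → Bool)) [DecidablePred (· ∈ s)] :
    mu s = ((Finset.univ.filter (· ∈ s)).card : ENNReal) * 16⁻¹ := by
  have h : s = ((Finset.univ.filter (· ∈ s) : Finset (Fin 4 → Bool)) : Set (Fin 4 → Bool)) := by
    ext w; simp
  conv_lhs => rw [h]
  rw [← MeasureTheory.sum_measure_singleton]
  simp [mu_singleton]

/-- The negation of the preceding statement: For independent real random variables and any finite set of pairwise strict or weak inequality constraints P, P(X_a<X_b given P) ≤ P(X_a<X_b given P and X_a<X_c) whenever the second conditioning event has positive probability. -/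
theorem result :
    ¬ (∀ (Ω : Type) [MeasurableSpace Ω] (μ : Measure Ω) [IsProbabilityMeasure μ]
      (n : ℕ) (X : Fin n → Ω → ℝ),
      (∀ i, Measurable (X i)) →
      iIndepFun X μ →
      ∀ (a b c : Fin n), a ≠ b → a ≠ c → b ≠ c →
      ∀ (S W : Finset (Fin n × Fin n)),
        μ ({ω | (∀ p ∈ S, X p.1 ω < X p.2 ω) ∧ (∀ p ∈ W, X p.1 ω ≤ X p.2 ω)}
            ∩ {ω | X a ω < X c ω}) ≠ 0 →
        ProbabilityTheory.cond μ
            {ω | (∀ p ∈ S, X p.1 ω < X p.2 ω) ∧ (∀ p ∈ W, X p.1 ω ≤ X p.2 ω)}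
            {ω | X a ω < X b ω}
          ≤ ProbabilityTheory.cond μ
            ({ω | (∀ p ∈ S, X p.1 ω < X p.2 ω) ∧ (∀ p ∈ W, X p.1 ω ≤ X p.2 ω)}
              ∩ {ω | X a ω < X c ω})
            {ω | X a ω < X b ω}) := by
  intro h
  have hind : iIndepFun (fun i (ω : Fin 4 → Bool) => val i (ω i)) mu := by
    unfold mu
    exact iIndepFun_pi (X := fun i => val i) (fun i => (Measurable.of_discrete).aemeasurable)
  have h1 := h (Fin 4 → Bool) mu 4 (fun i ω => val i (ω i))
    (fun i => Measurable.of_discrete) hind 0 1 2 (by decide) (by decide) (by decide)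
    {(3, 0), (3, 1)} ∅
  have e1 : {ω : Fin 4 → Bool | (∀ p ∈ ({(3, 0), (3, 1)} : Finset (Fin 4 × Fin 4)),
      val p.1 (ω p.1) < val p.2 (ω p.2)) ∧ (∀ p ∈ (∅ : Finset (Fin 4 × Fin 4)),
      val p.1 (ω p.1) ≤ val p.2 (ω p.2))}
      = {ω | valN 3 (ω 3) < valN 0 (ω 0) ∧ valN 3 (ω 3) < valN 1 (ω 1)} := by
    ext ω
    simp [val_eq]
  have e2 : {ω : Fin 4 → Bool | val 0 (ω 0) < val 2 (ω 2)}
      = {ω | valN 0 (ω 0) < valN 2 (ω 2)} := by
    ext ω; simp [val_eq]
  have e3 : {ω : Fin 4 → Bool | val 0 (ω 0) < val 1 (ω 1)}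
      = {ω | valN 0 (ω 0) < valN 1 (ω 1)} := by
    ext ω; simp [val_eq]
  rw [e1, e2, e3] at h1
  clear e1 e2 e3
  rw [ProbabilityTheory.cond_apply (MeasurableSet.of_discrete),
    ProbabilityTheory.cond_apply (MeasurableSet.of_discrete)] at h1
  have m1 : mu {ω | valN 3 (ω 3) < valN 0 (ω 0) ∧ valN 3 (ω 3) < valN 1 (ω 1)} = 10 * 16⁻¹ := by
    rw [mu_apply]
    have : (Finset.univ.filter (fun ω : Fin 4 → Bool =>
        ω ∈ {ω : Fin 4 → Bool | valN 3 (ω 3) < valN 0 (ω 0) ∧ valN 3 (ω 3) < valN 1 (ω 1)})).card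
        = 10 := by decide +kernel
    rw [this]; norm_num
  have m2 : mu ({ω | valN 3 (ω 3) < valN 0 (ω 0) ∧ valN 3 (ω 3) < valN 1 (ω 1)}
      ∩ {ω | valN 0 (ω 0) < valN 2 (ω 2)}) = 7 * 16⁻¹ := by
    rw [mu_apply]
    have : (Finset.univ.filter (fun ω : Fin 4 → Bool =>
        ω ∈ ({ω : Fin 4 → Bool | valN 3 (ω 3) < valN 0 (ω 0) ∧ valN 3 (ω 3) < valN 1 (ω 1)}
      ∩ {ω | valN 0 (ω 0) < valN 2 (ω 2)}))).card
        = 7 := by decide +kernel
    rw [this]; norm_num
  have m3 : mu ({ω | valN 3 (ω 3) < valN 0 (ω 0) ∧ valN 3 (ω 3) < valN 1 (ω 1)}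
      ∩ {ω | valN 0 (ω 0) < valN 1 (ω 1)}) = 6 * 16⁻¹ := by
    rw [mu_apply]
    have : (Finset.univ.filter (fun ω : Fin 4 → Bool =>
        ω ∈ ({ω : Fin 4 → Bool | valN 3 (ω 3) < valN 0 (ω 0) ∧ valN 3 (ω 3) < valN 1 (ω 1)}
      ∩ {ω | valN 0 (ω 0) < valN 1 (ω 1)}))).card
        = 6 := by decide +kernel
    rw [this]; norm_num
  have m4 : mu ({ω | valN 3 (ω 3) < valN 0 (ω 0) ∧ valN 3 (ω 3) < valN 1 (ω 1)}
      ∩ {ω | valN 0 (ω 0) < valN 2 (ω 2)} ∩ {ω | valN 0 (ω 0) < valN 1 (ω 1)}) = 4 * 16⁻¹ := by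
    rw [mu_apply]
    have : (Finset.univ.filter (fun ω : Fin 4 → Bool =>
        ω ∈ ({ω : Fin 4 → Bool | valN 3 (ω 3) < valN 0 (ω 0) ∧ valN 3 (ω 3) < valN 1 (ω 1)}
      ∩ {ω | valN 0 (ω 0) < valN 2 (ω 2)} ∩ {ω | valN 0 (ω 0) < valN 1 (ω 1)}))).card
        = 4 := by decide +kernel
    rw [this]; norm_num
  rw [m1, m2, m3, m4] at h1
  have hne : (7 : ENNReal) * 16⁻¹ ≠ 0 := by norm_num
  have h2 := h1 hne
  have h3 := (ENNReal.toReal_le_toReal (by
      apply ENNReal.mul_ne_top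
      · apply ENNReal.inv_ne_top.2; norm_num
      · apply ENNReal.mul_ne_top <;> norm_num) (by
      apply ENNReal.mul_ne_top
      · apply ENNReal.inv_ne_top.2; norm_num
      · apply ENNReal.mul_ne_top <;> norm_num)).2 h2
  simp only [ENNReal.toReal_mul, ENNReal.toReal_inv, ENNReal.toReal_ofNat] at h3
  norm_num at h3

end Pool.Agent.S11802
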