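import Pool.Statements.S11815
import Pool.Agent.Helper945.Upper
import Pool.Agent.Helper945.ExLow

set_option autoImplicit false
open MeasureTheory
open Pool Pool.MP_b4adac_pr

namespace Pool.Agent.S11815

/-- Over standard p-functions (Kingman's canonical Laplace form, continuous on [0,∞)), the infimum of those M in (0,1] for which p(1)=M forces a uniform positive lower bound on p over [0,1] equals 1/e. -/
theorem result :
    IsGLB {M : ℝ | M ∈ Set.Ioc (0:ℝ) 1 ∧ ∃ δ : ℝ, 0 < δ ∧ ∀ p : ℝ → ℝ,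
      (ContinuousOn p (Set.Ici 0) ∧ ∃ μ : Measure ℝ, μ (Set.Iic 0) = 0 ∧
        Integrable (fun x : ℝ => 1 - Real.exp (-x)) μ ∧ ∃ a : ℝ, 0 ≤ a ∧
        ∀ s : ℝ, 0 < s →
          (∫ t in Set.Ioi (0:ℝ), Real.exp (-(s * t)) * p t) *
            (s + a + ∫ x, (1 - Real.exp (-(s * x))) ∂μ) = 1) →
      p 1 = M → ∀ t ∈ Set.Icc (0:ℝ) 1, δ ≤ p t} (Real.exp (-1)) := by
  constructor
  · -- `1/e` is a lower bound
    rintro M ⟨⟨hM0, hM1⟩, δ, hδ, hall⟩
    by_contra hcon
    push Not at hcon
    obtain ⟨lam, a, hl, ha, hp1, t, ht, hlt⟩ :=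
      Pool.Agent.Helper945.ExLow.exists_bad M hM0 hcon δ hδ
    have := hall _ (Pool.Agent.Helper945.ExLow.pex_kingman hl ha) hp1 t ht
    linarith
  · -- every `M > 1/e` belongs to the set
    intro b hb
    refine le_of_forall_pos_le_add fun ε hε => ?_
    have he : Real.exp (-1) < 1 := by
      rw [Real.exp_lt_one_iff]; norm_num
    have hepos := Real.exp_pos (-1)
    set η : ℝ := min ε (1 - Real.exp (-1)) with hη
    have hηpos : 0 < η := lt_min hε (by linarith)
    have hη1 : η ≤ 1 - Real.exp (-1) := min_le_right _ _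
    have hηε : η ≤ ε := min_le_left _ _
    obtain ⟨c, hc, hall⟩ := Pool.Agent.Helper945.Discr.upper η hηpos (by linarith)
    have hmem := hb (show Real.exp (-1) + η ∈ _ from
      ⟨⟨by linarith, by linarith⟩, c, hc, fun p hp hp1 => hall p hp hp1.ge⟩)
    linarith

end Pool.Agent.S11815
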