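import Pool.Statements.S11828
-- import your own Pool.Agent.* helpers here
import Pool.Agent.Helper41.ZeroEnd

set_option autoImplicit false
open MeasureTheory
open Pool Pool.MP_ba6658_pr

namespace Pool.Agent.S11828

/-- The negation of the preceding statement: For d = 2 or 3 and any a.s. continuous d-dimensional Brownian sheet B on the quadrant, almost surely, for every s > 0, only finitely many t > 0 satisfy B(s,t) = 0. -/
theorem result :
    ¬ (∀ d : ℕ, (d = 2 ∨ d = 3) →
    ∀ (Ω : Type) [MeasurableSpace Ω] (P : Measure Ω) [IsProbabilityMeasure P]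
      (B : ℝ × ℝ → Ω → (Fin d → ℝ)),
      (∀ p, Measurable (B p)) →
      (∀ᵐ ω ∂P, ContinuousOn (fun p => B p ω) (Set.Ici (0:ℝ) ×ˢ Set.Ici (0:ℝ))) →
      (∀ (n : ℕ) (p : Fin n → ℝ × ℝ) (a : Fin n → Fin d → ℝ),
        (∀ i, 0 ≤ (p i).1 ∧ 0 ≤ (p i).2) →
        ∫ ω, Complex.exp (Complex.I * ((∑ i, ∑ k, a i k * B (p i) ω k : ℝ) : ℂ)) ∂P =
          Complex.exp (((-(1/2) * ∑ i, ∑ j, (∑ k, a i k * a j k) *
              min (p i).1 (p j).1 * min (p i).2 (p j).2 : ℝ) : ℂ))) →
      ∀ᵐ ω ∂P, ∀ s : ℝ, 0 < s → Set.Finite {t : ℝ | 0 < t ∧ B (s, t) ω = 0}) := by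
  intro hall
  obtain ⟨Ω, mΩ, P, hP, X, hX, hcont⟩ := Pool.Agent.Helper41.exists_sheet 2
  refine hX.pos_infinite_zero hcont ?_
  have hmain := hall 2 (Or.inl rfl) Ω P
    (fun p ω k => Pool.Agent.Helper41.pV X ω (k, p.1.toNNReal, p.2.toNNReal))
    (fun p => measurable_pi_lambda _ fun k => (hX.meas _).sub (hX.meas _))
    (Filter.Eventually.of_forall fun ω => by
      refine Continuous.continuousOn ?_
      refine continuous_pi fun k => ?_
      have h1 : Continuous (fun p : ℝ × ℝ => (p.1.toNNReal, p.2.toNNReal)) :=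
        (continuous_real_toNNReal.comp continuous_fst).prodMk
          (continuous_real_toNNReal.comp continuous_snd)
      have h2 : Continuous (fun p : ℝ × ℝ => (p.1.toNNReal, (0 : NNReal))) :=
        (continuous_real_toNNReal.comp continuous_fst).prodMk continuous_const
      exact ((hcont ω k).comp h1).sub ((hcont ω k).comp h2)) ?_
  · filter_upwards [hmain] with ω hω s hs
    refine (hω (s : ℝ) (by exact_mod_cast hs)).subset ?_
    rintro t ⟨ht, hz⟩
    refine ⟨ht, ?_⟩
    funext k
    simp only [Real.toNNReal_coe, Pi.zero_apply]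
    exact hz k
  · intro n p a hp
    have h1 := hX.char.char_fintype (ι := Fin n × Fin 2)
      (fun x => (x.2, (p x.1).1.toNNReal, (p x.1).2.toNNReal)) (fun x => a x.1 x.2)
    have e0 : ∀ᵐ ω ∂P, ∀ i k, X (k, (p i).1.toNNReal, 0) ω = 0 := by
      rw [MeasureTheory.ae_all_iff]
      intro i
      rw [MeasureTheory.ae_all_iff]
      intro k
      exact hX.ae_zero k _
    have e1 : ∫ ω, Complex.exp (Complex.I * ((∑ i, ∑ k, a i k *
        Pool.Agent.Helper41.pV X ω (k, (p i).1.toNNReal, (p i).2.toNNReal) : ℝ) : ℂ)) ∂P =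
        ∫ ω, Complex.exp (Complex.I * ((∑ x : Fin n × Fin 2, a x.1 x.2 *
          X (x.2, (p x.1).1.toNNReal, (p x.1).2.toNNReal) ω : ℝ) : ℂ)) ∂P := by
      refine MeasureTheory.integral_congr_ae ?_
      filter_upwards [e0] with ω hω
      congr 3
      rw [Fintype.sum_prod_type]
      refine Finset.sum_congr rfl fun i _ => Finset.sum_congr rfl fun k _ => ?_
      simp only [Pool.Agent.Helper41.pV]
      rw [hω i k, sub_zero]
    have e2 : ∑ x : Fin n × Fin 2, ∑ y : Fin n × Fin 2, a x.1 x.2 * a y.1 y.2 *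
        Pool.Agent.Helper41.sheetK (x.2, (p x.1).1.toNNReal, (p x.1).2.toNNReal)
          (y.2, (p y.1).1.toNNReal, (p y.1).2.toNNReal) =
        ∑ i, ∑ j, (∑ k, a i k * a j k) * min (p i).1 (p j).1 * min (p i).2 (p j).2 := by
      rw [Fintype.sum_prod_type]
      refine Finset.sum_congr rfl fun i _ => ?_
      rw [Finset.sum_congr rfl fun k _ => Fintype.sum_prod_type _, Finset.sum_comm]
      refine Finset.sum_congr rfl fun j _ => ?_
      rw [Finset.sum_mul, Finset.sum_mul]
      refine Finset.sum_congr rfl fun k _ => ?_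
      rw [Finset.sum_eq_single k]
      · unfold Pool.Agent.Helper41.sheetK
        simp only [if_true]
        have hm1 : ((min (p i).1.toNNReal (p j).1.toNNReal : NNReal) : ℝ) =
            min (p i).1 (p j).1 := by
          rw [NNReal.coe_min, Real.coe_toNNReal _ (hp i).1, Real.coe_toNNReal _ (hp j).1]
        have hm2 : ((min (p i).2.toNNReal (p j).2.toNNReal : NNReal) : ℝ) =
            min (p i).2 (p j).2 := by
          rw [NNReal.coe_min, Real.coe_toNNReal _ (hp i).2, Real.coe_toNNReal _ (hp j).2]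
        rw [hm1, hm2]
        ring
      · intro l _ hl
        unfold Pool.Agent.Helper41.sheetK
        simp only [if_neg (fun e : k = l => hl e.symm), mul_zero]
      · intro hk
        exact absurd (Finset.mem_univ k) hk
    rw [e2] at h1
    refine e1.trans (h1.trans ?_)
    congr 1
    push_cast
    ring

end Pool.Agent.S11828
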