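import Pool.Statements.S11839
import Pool.Agent.Helper599.Sold2

set_option autoImplicit false
open MeasureTheory ProbabilityTheory Filter Topology
open Pool Pool.MP_cdca83_pr

namespace Pool.Agent.S11839

/-- For the soldiers automaton with noise only toward minus (rate ε>0) or only toward plus (rate δ>0), from any initial law each cell's probability of the opposite state tends to 0, i.e. the system is ergodic. -/
theorem result :
  (∀ (Ω : Type) [MeasurableSpace Ω] (P : Measure Ω) [IsProbabilityMeasure P] (ε : ℝ),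
    0 < ε → ε ≤ 1 →
    ∀ (ξ : ℕ → ℤ → Ω → Bool) (X : ℕ → Ω → ℤ → Bool),
    (∀ n i, Measurable (ξ n i)) →
    iIndepFun (fun p : ℕ × ℤ => ξ p.1 p.2) P →
    (∀ n i, P {ω | ξ n i ω = false} = ENNReal.ofReal ε) →
    Measurable (X 0) →
    IndepFun (X 0) (fun ω (p : ℕ × ℤ) => ξ p.1 p.2 ω) P →
    (∀ n ω i, X (n+1) ω i =
      (((X n ω i && (X n ω (i+1) || X n ω (i+3))) ||
        (!X n ω i && X n ω (i-1) && X n ω (i-3))) && ξ n i ω)) →
    ∀ i, Tendsto (fun n => P {ω | X n ω i = true}) atTop (𝓝 0)) ∧
  (∀ (Ω : Type) [MeasurableSpace Ω] (P : Measure Ω) [IsProbabilityMeasure P] (δ : ℝ),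
    0 < δ → δ ≤ 1 →
    ∀ (ξ : ℕ → ℤ → Ω → Bool) (X : ℕ → Ω → ℤ → Bool),
    (∀ n i, Measurable (ξ n i)) →
    iIndepFun (fun p : ℕ × ℤ => ξ p.1 p.2) P →
    (∀ n i, P {ω | ξ n i ω = true} = ENNReal.ofReal δ) →
    Measurable (X 0) →
    IndepFun (X 0) (fun ω (p : ℕ × ℤ) => ξ p.1 p.2 ω) P →
    (∀ n ω i, X (n+1) ω i =
      (((X n ω i && (X n ω (i+1) || X n ω (i+3))) ||
        (!X n ω i && X n ω (i-1) && X n ω (i-3))) || ξ n i ω)) →
    ∀ i, Tendsto (fun n => P {ω | X n ω i = false}) atTop (𝓝 0)) := by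
  refine ⟨?_, ?_⟩
  · intro Ω _ P _ ε h0 h1 ξ X hm hi hp _ _ hX i
    have key := Pool.Agent.Helper599.Sold.core (P := P) (ξ := fun n i ω => !ξ n (-i) ω) h0 h1
      (fun n ω i => !X n ω (-i))
      (fun n i => (measurable_from_top (f := fun b : Bool => !b)).comp (hm n (-i)))
      (by
        have h2 := hi.precomp (g := fun p : ℕ × ℤ => (p.1, -p.2)) (by
          intro p q h
          simp only [Prod.mk.injEq, neg_inj] at h
          exact Prod.ext h.1 h.2)
        have h3 := h2.comp (fun _ => fun b : Bool => !b) (fun _ => measurable_from_top)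
        exact h3)
      (by
        intro n i
        have : {ω | (!ξ n (-i) ω) = true} = {ω | ξ n (-i) ω = false} := by
          ext ω; simp
        rw [this]; exact hp n (-i))
      (by
        intro ω n i
        show (!X (n+1) ω (-i)) = _
        rw [hX n ω (-i)]
        show _ = ((((!X n ω (-i)) && ((!X n ω (-(i+1))) || (!X n ω (-(i+3))))) ||
          ((!!X n ω (-i)) && (!X n ω (-(i-1))) && (!X n ω (-(i-3))))) || (!ξ n (-i) ω))
        rw [show -i + 1 = -(i-1) by ring, show -i + 3 = -(i-3) by ring,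
          show -i - 1 = -(i+1) by ring, show -i - 3 = -(i+3) by ring]
        generalize X n ω (-i) = a
        generalize X n ω (-(i-1)) = b
        generalize X n ω (-(i-3)) = c
        generalize X n ω (-(i+1)) = d
        generalize X n ω (-(i+3)) = e
        generalize ξ n (-i) ω = f
        revert a b c d e f
        decide)
      (-i)
    have e : (fun n => P {ω | (!X n ω (- -i)) = false}) = fun n => P {ω | X n ω i = true} := by
      funext n
      congr 1
      ext ω
      simp
    rw [e] at key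
    exact key
  · intro Ω _ P _ δ h0 h1 ξ X hm hi hp _ _ hX i
    exact Pool.Agent.Helper599.Sold.core h0 h1 X hm hi hp (fun ω n i => hX n ω i) i

end Pool.Agent.S11839
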