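import Pool.Statements.S11841
import Pool.Agent.Helper870.BPMain

set_option autoImplicit false
open Pool Pool.MP_ce44ee_pr

namespace Pool.Agent.S11841

/-- ∃ C k : ℕ, ∀ n, ∀ start graph α on Fin n, the Burnside-process distribution μ_t from δ_α (kernel Σ_{σ∈Stab γ∩Stab β} 1/(∣Stab γ∣∣Fix σ∣)) satisfies TV(μ_t, π) ≤ 1/4 for all t ≥ C(n+1)^k, where π(β) ∝ ∣Stab β∣. -/
theorem result :
  ∃ C k : ℕ, ∀ n : ℕ, ∀ α : SimpleGraph (Fin n), ∀ μ : ℕ → SimpleGraph (Fin n) → ℝ,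
    μ 0 α = 1 → (∀ β : SimpleGraph (Fin n), β ≠ α → μ 0 β = 0) →
    (∀ (t : ℕ) (β : SimpleGraph (Fin n)),
      μ (t + 1) β = ∑ᶠ γ : SimpleGraph (Fin n), μ t γ *
        ∑ᶠ σ ∈ {σ : Equiv.Perm (Fin n) |
            SimpleGraph.comap (⇑σ) γ = γ ∧ SimpleGraph.comap (⇑σ) β = β},
          1 / ((({τ : Equiv.Perm (Fin n) | SimpleGraph.comap (⇑τ) γ = γ}).ncard : ℝ) *
               (({δ : SimpleGraph (Fin n) | SimpleGraph.comap (⇑σ) δ = δ}).ncard : ℝ))) →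
    ∀ t : ℕ, C * (n + 1) ^ k ≤ t →
      (1 / 2 : ℝ) * ∑ᶠ β : SimpleGraph (Fin n),
        |μ t β - (({τ : Equiv.Perm (Fin n) | SimpleGraph.comap (⇑τ) β = β}).ncard : ℝ) /
          ∑ᶠ γ : SimpleGraph (Fin n),
            (({τ : Equiv.Perm (Fin n) | SimpleGraph.comap (⇑τ) γ = γ}).ncard : ℝ)| ≤ 1 / 4 := by
  classical
  obtain ⟨C, k, h⟩ := Pool.Agent.Helper870.BP.main
  refine ⟨C, k, fun n α μ h1 h2 h3 t ht => ?_⟩
  have h4 := h n α μ h1 h2 (fun t β => by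
    rw [h3 t β]
    exact Pool.Agent.Helper870.BP.step_eq (μ t) β) t ht
  rw [finsum_eq_sum_of_fintype]
  refine le_trans (le_of_eq ?_) h4
  congr 1
  apply Finset.sum_congr rfl
  intro β _
  rw [Pool.Agent.Helper870.BP.sum_K, Pool.Agent.Helper870.BP.ncard_K]
  rfl

end Pool.Agent.S11841
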