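import Pool.Statements.S11866
import Pool.Agent.Helper725.NodeWeight

set_option autoImplicit false
open Classical
open Pool Pool.MP_e18aa1_pr

namespace Pool.Agent.S11866

/-- The negation of the preceding statement: For each C≥1 there is K such that on any connected finite graph, if positive node weights change by factor ≤C, the lazy weighted walk's 1/4-TV mixing time grows by at most factor K. -/
theorem result :
    ¬ (∀ C : ℝ, 1 ≤ C → ∃ K : ℝ, 0 < K ∧
    ∀ (n : ℕ) (G : SimpleGraph (Fin n)), G.Connected →
    ∀ (W W' : Fin n → ℝ), (∀ v, 0 < W v) → (∀ v, W v ≤ C * W' v ∧ W' v ≤ C * W v) →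
    ∀ t : ℕ,
      (∀ x : Fin n, (1/2 : ℝ) * ∑ y : Fin n,
        |((Matrix.of (fun u v : Fin n => (if u = v then (1/2 : ℝ) else 0) +
            (if G.Adj u v then W v / (2 * (∑ w : Fin n, if G.Adj u w then W w else 0)) else 0))) ^ t) x y
          - W y * (∑ w : Fin n, if G.Adj y w then W w else 0) /
              (∑ z : Fin n, W z * (∑ w : Fin n, if G.Adj z w then W w else 0))| ≤ 1/4) →
      (∀ x : Fin n, (1/2 : ℝ) * ∑ y : Fin n,
        |((Matrix.of (fun u v : Fin n => (if u = v then (1/2 : ℝ) else 0) +
            (if G.Adj u v then W' v / (2 * (∑ w : Fin n, if G.Adj u w then W' w else 0)) else 0))) ^ ⌈K * (t : ℝ)⌉₊) x y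
          - W' y * (∑ w : Fin n, if G.Adj y w then W' w else 0) /
              (∑ z : Fin n, W' z * (∑ w : Fin n, if G.Adj z w then W' w else 0))| ≤ 1/4)) := by
  exact Pool.Agent.Helper725.NodeWeight.final

end Pool.Agent.S11866
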