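import Pool.Statements.S11871
import Pool.Agent.Helper70.US.F13

set_option autoImplicit false
open MeasureTheory
open Pool Pool.MP_e671d4_pr

namespace Pool.Agent.S11871

/-- For every n ≥ 1 and unit vector a in ℝⁿ, the differential entropy of ∑ aᵢXᵢ, with Xᵢ i.i.d. uniform on [−1,1], is at most the differential entropy of ∑ Xᵢ/√n. -/
theorem result :
    ∀ n : ℕ, 1 ≤ n → ∀ a : Fin n → ℝ, ∑ i, a i ^ 2 = 1 →
      ∫ y, Real.negMulLog
          ((((Measure.pi (fun _ : Fin n => ProbabilityTheory.cond (volume : Measure ℝ) (Set.Icc (-1 : ℝ) 1))).map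
              (fun x : Fin n → ℝ => ∑ i, a i * x i)).rnDeriv volume y).toReal)
        ≤
      ∫ y, Real.negMulLog
          ((((Measure.pi (fun _ : Fin n => ProbabilityTheory.cond (volume : Measure ℝ) (Set.Icc (-1 : ℝ) 1))).map
              (fun x : Fin n → ℝ => ∑ i, (1 / Real.sqrt (n : ℝ)) * x i)).rnDeriv volume y).toReal) := by
  intro n h1 a hs
  exact US.main_all n h1 a hs

end Pool.Agent.S11871
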