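import Pool.Statements.S11878
-- import your own Pool.Agent.* helpers here
import Pool.Agent.Helper41.DoublePts

set_option autoImplicit false
open MeasureTheory ProbabilityTheory NNReal
open Pool Pool.MP_ef552a_pr

namespace Pool.Agent.S11878

/-- The negation of the preceding statement: For d = 4 or 5 and any continuous d-dimensional Brownian sheet B, almost surely, for every s > 0 there are only finitely many pairs t1 ≠ t2 in [0,∞) with B(s,t1) = B(s,t2). -/
theorem result :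
    ¬ (∀ d ∈ ({4, 5} : Set ℕ), ∀ (Ω : Type) [MeasurableSpace Ω] (P : Measure Ω)
      [IsProbabilityMeasure P] (B : Ω → ℝ≥0 × ℝ≥0 → (Fin d → ℝ)),
      (∀ ω, Continuous (B ω)) →
      (∀ (n : ℕ) (p : Fin n → ℝ≥0 × ℝ≥0) (a : Fin n → Fin d → ℝ),
        P.map (fun ω => ∑ i, ∑ k, a i k * B ω (p i) k) =
          gaussianReal 0
            (Real.toNNReal (∑ i, ∑ j, ∑ k, a i k * a j k *
              ((min (p i).1 (p j).1 : ℝ≥0) : ℝ) * ((min (p i).2 (p j).2 : ℝ≥0) : ℝ)))) →
      ∀ᵐ ω ∂P, ∀ s : ℝ≥0, 0 < s →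
        {q : ℝ≥0 × ℝ≥0 | q.1 ≠ q.2 ∧ B ω (s, q.1) = B ω (s, q.2)}.Finite) := by
  intro hall
  obtain ⟨Ω, mΩ, P, hP, X, hX, hcont⟩ := Pool.Agent.Helper41.exists_sheet 4
  refine hX.pos_infinite hcont ?_
  refine hall 4 (by simp) Ω P (fun ω p k => X (k, p.1, p.2) ω)
    (fun ω => continuous_pi fun c => hcont ω c) ?_
  intro n p a
  have h1 := hX.char.map_eq_fintype hX.meas (ι := Fin n × Fin 4)
    (fun x => (x.2, (p x.1).1, (p x.1).2)) (fun x => a x.1 x.2)
  have e1 : ∀ ω, ∑ x : Fin n × Fin 4, a x.1 x.2 * X (x.2, (p x.1).1, (p x.1).2) ω =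
      ∑ i, ∑ k, a i k * X (k, (p i).1, (p i).2) ω := fun ω => by
    rw [Fintype.sum_prod_type]
  have e2 : ∑ x : Fin n × Fin 4, ∑ y : Fin n × Fin 4, a x.1 x.2 * a y.1 y.2 *
      Pool.Agent.Helper41.sheetK (x.2, (p x.1).1, (p x.1).2) (y.2, (p y.1).1, (p y.1).2) =
      ∑ i, ∑ j, ∑ k, a i k * a j k *
        ((min (p i).1 (p j).1 : ℝ≥0) : ℝ) * ((min (p i).2 (p j).2 : ℝ≥0) : ℝ) := by
    rw [Fintype.sum_prod_type]
    refine Finset.sum_congr rfl fun i _ => ?_
    rw [Finset.sum_congr rfl fun k _ => Fintype.sum_prod_type _, Finset.sum_comm]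
    refine Finset.sum_congr rfl fun j _ => ?_
    refine Finset.sum_congr rfl fun k _ => ?_
    rw [Finset.sum_eq_single k]
    · unfold Pool.Agent.Helper41.sheetK
      simp only [if_true]
      ring
    · intro l _ hl
      unfold Pool.Agent.Helper41.sheetK
      simp only [if_neg (fun e : k = l => hl e.symm), mul_zero]
    · intro hk
      exact absurd (Finset.mem_univ k) hk
  simp_rw [e1] at h1
  rw [e2] at h1
  exact h1

end Pool.Agent.S11878
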