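import Mathlib

set_option autoImplicit false

namespace Pool.Agent.S04011


/-- auxiliary function K -/
noncomputable def KK (N a x : ℝ) : ℝ :=
  Real.cos x * Real.sin (N * x) * (a - Real.sin x ^ 2)
    - Real.sin x * Real.cos (N * x) * (N * a + Real.sin x ^ 2 / N)

/-- auxiliary function J -/
noncomputable def JJ (N a x : ℝ) : ℝ :=
  Real.sin (N * x) * (N ^ 2 * a - a - 2 + 4 * Real.sin x ^ 2)
    - Real.sin x * Real.cos x * Real.cos (N * x) * (N + 3 / N)

lemma hsin (N x : ℝ) : HasDerivAt (fun x => Real.sin (N * x)) (Real.cos (N * x) * N) x := by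
  have := (Real.hasDerivAt_sin (N * x)).comp x ((hasDerivAt_id x).const_mul N)
  simpa [Function.comp_def] using this

lemma hcos (N x : ℝ) : HasDerivAt (fun x => Real.cos (N * x)) (-Real.sin (N * x) * N) x := by
  have := (Real.hasDerivAt_cos (N * x)).comp x ((hasDerivAt_id x).const_mul N)
  simpa [Function.comp_def] using this

lemma hK {N : ℝ} (hN : N ≠ 0) (a x : ℝ) :
    HasDerivAt (KK N a) (Real.sin x * JJ N a x) x := by
  have h1 := Real.hasDerivAt_sin x
  have h2 := Real.hasDerivAt_cos x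
  have h3 := hsin N x
  have h4 := hcos N x
  have h5 := (((h2.mul h3).mul ((h1.pow 2).const_sub a)).sub
    ((h1.mul h4).mul (((h1.pow 2).div_const N).const_add (N * a))))
  unfold KK
  refine h5.congr_deriv ?_
  have hc : Real.cos x ^ 2 = 1 - Real.sin x ^ 2 := by
    have := Real.sin_sq_add_cos_sq x; linarith
  simp only [JJ, Nat.cast_ofNat, Nat.add_one_sub_one, pow_one, Pi.pow_apply, Pi.mul_apply]
  field_simp
  ring_nf
  rw [hc]
  ring

lemma hJ {N : ℝ} (hN : N ≠ 0) (a x : ℝ) :
    HasDerivAt (JJ N a) (Real.cos (N * x) * (N * (N ^ 2 * a - a - 2 + 4 * Real.sin x ^ 2)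
      - (1 - 2 * Real.sin x ^ 2) * (N + 3 / N)) + Real.sin x * Real.cos x * Real.sin (N * x) * (N ^ 2 + 11)) x := by
  have h1 := Real.hasDerivAt_sin x
  have h2 := Real.hasDerivAt_cos x
  have h3 := hsin N x
  have h4 := hcos N x
  have h5 := ((h3.mul (((h1.pow 2).const_mul 4).const_add (N ^ 2 * a - a - 2))).sub
    (((h1.mul h2).mul h4).mul_const (N + 3 / N)))
  unfold JJ
  refine h5.congr_deriv ?_
  have hc : Real.cos x ^ 2 = 1 - Real.sin x ^ 2 := by
    have := Real.sin_sq_add_cos_sq x; linarith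
  simp only [Nat.cast_ofNat, Nat.add_one_sub_one, pow_one, Pi.pow_apply, Pi.mul_apply]
  field_simp
  ring_nf
  rw [hc]
  ring


open Real in
lemma facts {N : ℝ} (hN : 5 ≤ N) :
    0 < π / (2 * N) ∧ π / (2 * N) ≤ 315 / 1000 ∧ 0 < sin (π / (2 * N)) ∧
    sin (π / (2 * N)) ≤ π / (2 * N) ∧
    153 / 100 ≤ N * sin (π / (2 * N)) ∧ N * sin (π / (2 * N)) ≤ 1571 / 1000 ∧
    0 ≤ N ^ 2 * sin (π / (2 * N)) ^ 2 - sin (π / (2 * N)) ^ 2 - 2 := by
  have hN0 : 0 < N := by linarith
  have hpi1 := Real.pi_gt_d4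
  have hpi2 := Real.pi_lt_d4
  have hx0 : 0 < π / (2 * N) := by positivity
  have hx1 : π / (2 * N) ≤ 315 / 1000 := by
    rw [div_le_iff₀ (by positivity)]
    nlinarith
  have hNx : N * (π / (2 * N)) = π / 2 := by field_simp
  set x := π / (2 * N) with hx
  have h1 : sin x ≤ x := Real.sin_le hx0.le
  have h2 : x - x ^ 3 / 6 < sin x := Real.sin_gt_sub_cube hx0
  have h3 : 0 < sin x := Real.sin_pos_of_pos_of_lt_pi hx0 (by linarith)
  have h4 : 153 / 100 ≤ N * sin x := by
    have e1 : N * (x - x ^ 3 / 6) ≤ N * sin x := mul_le_mul_of_nonneg_left h2.le hN0.le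
    have e2 : N * (x - x ^ 3 / 6) = (N * x) * (1 - x ^ 2 / 6) := by ring
    rw [e2, hNx] at e1
    nlinarith
  have h5 : N * sin x ≤ 1571 / 1000 := by
    have e1 : N * sin x ≤ N * x := mul_le_mul_of_nonneg_left h1 hN0.le
    linarith
  refine ⟨hx0, hx1, h3, h1, h4, h5, ?_⟩
  have h6 : sin x ^ 2 ≤ (315 / 1000) ^ 2 := by
    apply pow_le_pow_left₀ h3.le
    linarith
  have h7 : N ^ 2 * sin x ^ 2 = (N * sin x) ^ 2 := by ring
  rw [h7]
  nlinarith

open Real in
/-- sign of K to the left of x0 -/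
lemma K_left {N : ℝ} (hN : 5 ≤ N) {x : ℝ} (hx : 0 < x) (hx' : x < π / (2 * N)) :
    KK N (sin (π / (2 * N)) ^ 2) x ≤ 0 := by
  obtain ⟨f1, f2, f3, f4, f5, f6, f7⟩ := facts hN
  have hN0 : 0 < N := by linarith
  have hNne : N ≠ 0 := hN0.ne'
  have hNx : N * (π / (2 * N)) = π / 2 := by field_simp
  set x0 := π / (2 * N) with hx0
  set a := sin x0 ^ 2 with ha
  by_contra hcon
  push Not at hcon
  have hK0 : KK N a 0 = 0 := by simp [KK]
  have hK1 : KK N a x0 = 0 := by
    simp only [KK, hNx, Real.sin_pi_div_two, Real.cos_pi_div_two, ← ha]; ring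
  have hcK : Continuous (KK N a) := by
    unfold KK; fun_prop
  have hcJ : Continuous (JJ N a) := by
    unfold JJ; fun_prop
  obtain ⟨y1, hy1, e1⟩ := exists_hasDerivAt_eq_slope (KK N a) (fun t => sin t * JJ N a t) hx
    hcK.continuousOn (fun t _ => hK hNne a t)
  obtain ⟨y2, hy2, e2⟩ := exists_hasDerivAt_eq_slope (KK N a) (fun t => sin t * JJ N a t) hx'
    hcK.continuousOn (fun t _ => hK hNne a t)
  have hpi := Real.pi_gt_three
  have hpos : ∀ t, 0 < t → t < x0 → 0 < sin t ∧ 0 < cos t ∧ 0 < sin (N * t) ∧ 0 < cos (N * t) := by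
    intro t ht1 ht2
    have hNt : N * t < π / 2 := by
      rw [← hNx]; exact mul_lt_mul_of_pos_left ht2 hN0
    have hNt0 : 0 < N * t := by positivity
    refine ⟨sin_pos_of_pos_of_lt_pi ht1 (by linarith), cos_pos_of_mem_Ioo ⟨by linarith, by linarith⟩,
      sin_pos_of_pos_of_lt_pi hNt0 (by linarith), cos_pos_of_mem_Ioo ⟨by linarith, hNt⟩⟩
  have g1 : 0 < JJ N a y1 := by
    rw [hK0, sub_zero, sub_zero] at e1
    have h1 : 0 < sin y1 * JJ N a y1 := by rw [e1]; positivity
    exact (pos_iff_pos_of_mul_pos h1).1 (hpos y1 hy1.1 (hy1.2.trans hx')).1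
  have g2 : JJ N a y2 < 0 := by
    rw [hK1, zero_sub] at e2
    have h1 : sin y2 * JJ N a y2 < 0 := by
      rw [e2]; exact div_neg_of_neg_of_pos (by linarith) (by linarith)
    have h2 := (hpos y2 (hx.trans hy2.1) hy2.2).1
    by_contra hc
    push Not at hc
    have := mul_nonneg h2.le hc
    linarith
  have hJ0 : JJ N a 0 = 0 := by simp [JJ]
  have hy12 : y1 < y2 := hy1.2.trans hy2.1
  obtain ⟨z1, hz1, d1⟩ := exists_hasDerivAt_eq_slope (JJ N a) _ hy1.1
    hcJ.continuousOn (fun t _ => hJ hNne a t)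
  obtain ⟨z2, hz2, d2⟩ := exists_hasDerivAt_eq_slope (JJ N a) _ hy12
    hcJ.continuousOn (fun t _ => hJ hNne a t)
  have hz12 : z1 < z2 := hz1.2.trans hz2.1
  have hz2x : z2 < x0 := hz2.2.trans hy2.2
  obtain ⟨s1, c1, sN1, cN1⟩ := hpos z1 hz1.1 (hz12.trans hz2x)
  obtain ⟨s2, c2, sN2, cN2⟩ := hpos z2 (hz1.1.trans hz12) hz2x
  rw [hJ0, sub_zero, sub_zero] at d1
  have k1 : 0 < JJ N a y1 / y1 := div_pos g1 hy1.1
  have k2 : (JJ N a y2 - JJ N a y1) / (y2 - y1) < 0 :=
    div_neg_of_neg_of_pos (by linarith) (by linarith)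
  rw [← d1] at k1
  rw [← d2] at k2
  have m1 : sin z1 ≤ sin z2 := (Real.sin_lt_sin_of_lt_of_le_pi_div_two (by linarith [hz1.1])
    (by linarith) hz12).le
  have mN : N * z1 ≤ N * z2 := mul_le_mul_of_nonneg_left hz12.le hN0.le
  have hNz2 : N * z2 < π / 2 := by
    rw [← hNx]; exact mul_lt_mul_of_pos_left hz2x hN0
  have hNz1 : 0 < N * z1 := mul_pos hN0 hz1.1
  have m2 : sin (N * z1) ≤ sin (N * z2) := Real.sin_le_sin_of_le_of_le_pi_div_two (by linarith)
    hNz2.le mN
  have m3 : cos (N * z2) ≤ cos (N * z1) := Real.cos_le_cos_of_nonneg_of_le_pi hNz1.le (by linarith) mN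
  have m4 : sin z1 * cos z1 ≤ sin z2 * cos z2 := by
    have e1 := Real.sin_two_mul z1
    have e2 := Real.sin_two_mul z2
    have : sin (2 * z1) ≤ sin (2 * z2) := Real.sin_le_sin_of_le_of_le_pi_div_two
      (by linarith [hz1.1]) (by linarith) (by linarith)
    linarith
  have hS : sin z1 ^ 2 ≤ sin z2 ^ 2 := pow_le_pow_left₀ s1.le m1 2
  have h3N : 0 < N + 3 / N := by positivity
  set A1 := N * (N ^ 2 * a - a - 2 + 4 * sin z1 ^ 2) - (1 - 2 * sin z1 ^ 2) * (N + 3 / N) with hA1
  set A2 := N * (N ^ 2 * a - a - 2 + 4 * sin z2 ^ 2) - (1 - 2 * sin z2 ^ 2) * (N + 3 / N) with hA2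
  have hA : A1 ≤ A2 := by
    have e1 : A2 - A1 = (sin z2 ^ 2 - sin z1 ^ 2) * (4 * N + 2 * (N + 3 / N)) := by
      rw [hA1, hA2]; ring
    have : 0 ≤ A2 - A1 := by
      rw [e1]; exact mul_nonneg (by linarith) (by positivity)
    linarith
  have hB : sin z1 * cos z1 * sin (N * z1) * (N ^ 2 + 11) ≤ sin z2 * cos z2 * sin (N * z2) * (N ^ 2 + 11) := by
    apply mul_le_mul_of_nonneg_right _ (by positivity)
    exact mul_le_mul m4 m2 sN1.le (by positivity)
  have hB0 : 0 < sin z2 * cos z2 * sin (N * z2) * (N ^ 2 + 11) := by positivity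
  rcases le_total 0 A2 with hA2' | hA2'
  · have : 0 ≤ cos (N * z2) * A2 := mul_nonneg cN2.le hA2'
    linarith
  · have e1 : cos (N * z1) * A1 ≤ cos (N * z1) * A2 := mul_le_mul_of_nonneg_left hA cN1.le
    have e2 : cos (N * z1) * A2 ≤ cos (N * z2) * A2 := mul_le_mul_of_nonpos_right m3 hA2'
    linarith


open Real in
/-- sign of K to the right of x0 -/
lemma K_right {N : ℝ} (hN : 5 ≤ N) {x : ℝ} (hx : π / (2 * N) < x) (hx' : x ≤ 2 * (π / (2 * N))) :
    0 ≤ KK N (sin (π / (2 * N)) ^ 2) x := by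
  obtain ⟨f1, f2, f3, f4, f5, f6, f7⟩ := facts hN
  have hN0 : 0 < N := by linarith
  have hNne : N ≠ 0 := hN0.ne'
  have hNx : N * (π / (2 * N)) = π / 2 := by field_simp
  set x0 := π / (2 * N) with hx0
  set a := sin x0 ^ 2 with ha
  have hK1 : KK N a x0 = 0 := by
    simp only [KK, hNx, Real.sin_pi_div_two, Real.cos_pi_div_two, ← ha]; ring
  have hcK : Continuous (KK N a) := by
    unfold KK; fun_prop
  obtain ⟨y, hy, e⟩ := exists_hasDerivAt_eq_slope (KK N a) (fun t => sin t * JJ N a t) hx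
    hcK.continuousOn (fun t _ => hK hNne a t)
  have hpi := Real.pi_gt_three
  have hNy : N * y < π := by
    have : N * y < N * (2 * x0) := mul_lt_mul_of_pos_left (by linarith [hy.2]) hN0
    linarith
  have hNy2 : π / 2 < N * y := by
    rw [← hNx]; exact mul_lt_mul_of_pos_left hy.1 hN0
  have s1 : 0 ≤ sin y := (sin_pos_of_pos_of_lt_pi (by linarith [hy.1]) (by linarith [hy.2])).le
  have c1 : 0 ≤ cos y := (cos_pos_of_mem_Ioo ⟨by linarith [hy.1], by linarith [hy.2]⟩).le
  have s2 : 0 ≤ sin (N * y) := (sin_pos_of_pos_of_lt_pi (by linarith) hNy).le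
  have c2 : cos (N * y) ≤ 0 := (cos_neg_of_pi_div_two_lt_of_lt hNy2 (by linarith)).le
  have hJ : 0 ≤ JJ N a y := by
    unfold JJ
    have e1 : 0 ≤ sin (N * y) * (N ^ 2 * a - a - 2 + 4 * sin y ^ 2) := by
      apply mul_nonneg s2
      nlinarith [sq_nonneg (sin y)]
    have h3N : 0 < N + 3 / N := by positivity
    have e2 : 0 ≤ (sin y * cos y) * (-cos (N * y)) * (N + 3 / N) :=
      mul_nonneg (mul_nonneg (mul_nonneg s1 c1) (by linarith)) h3N.le
    nlinarith
  have h1 : 0 ≤ (KK N a x - KK N a x0) / (x - x0) := by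
    rw [← e]; exact mul_nonneg s1 hJ
  rw [hK1, sub_zero] at h1
  by_contra hcon
  push Not at hcon
  have : KK N a x / (x - x0) < 0 := div_neg_of_neg_of_pos hcon (by linarith)
  linarith

/-- the normalised symbol -/
noncomputable def GG (N x : ℝ) : ℝ :=
  1 + 1 / (N * Real.sin (Real.pi / (2 * N))) * (Real.cos x * Real.cos (N * x))
    - Real.sin (Real.pi / (2 * N)) * (Real.sin (N * x) / Real.sin x)

open Real in
lemma hG {N : ℝ} (hN : N ≠ 0) (_hs : sin (π / (2 * N)) ≠ 0) {x : ℝ} (hx : sin x ≠ 0) :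
    HasDerivAt (GG N) (KK N (sin (π / (2 * N)) ^ 2) x / (sin x ^ 2 * sin (π / (2 * N)))) x := by
  have h1 := Real.hasDerivAt_sin x
  have h2 := Real.hasDerivAt_cos x
  have h3 := hsin N x
  have h4 := hcos N x
  have h5 := (((h2.mul h4).const_mul (1 / (N * sin (π / (2 * N))))).const_add 1).sub
    ((h3.div h1 hx).const_mul (sin (π / (2 * N))))
  unfold GG
  refine h5.congr_deriv ?_
  simp only [KK]
  field_simp
  ring

open Real in
lemma G_nonneg {N : ℝ} (hN : 5 ≤ N) {x : ℝ} (hx : 0 < x) (hx' : x ≤ π / 2) :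
    0 ≤ GG N x := by
  obtain ⟨f1, f2, f3, f4, f5, f6, f7⟩ := facts hN
  have hN0 : 0 < N := by linarith
  have hNne : N ≠ 0 := hN0.ne'
  have hNx : N * (π / (2 * N)) = π / 2 := by field_simp
  have hpi := Real.pi_gt_d4
  have hpi2 := Real.pi_lt_d4
  have hG0 : GG N (π / (2 * N)) = 0 := by
    unfold GG
    rw [hNx, Real.sin_pi_div_two, Real.cos_pi_div_two, mul_zero, mul_zero,
      mul_one_div_cancel f3.ne']
    ring
  have hsinpos : ∀ t, 0 < t → t ≤ π / 2 → 0 < sin t := fun t h1 h2 =>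
    sin_pos_of_pos_of_lt_pi h1 (by linarith)
  have hlam : 1 / (N * sin (π / (2 * N))) ≤ 654 / 1000 := by
    rw [div_le_iff₀ (by linarith)]
    linarith
  have hlam0 : 0 < 1 / (N * sin (π / (2 * N))) := by
    apply div_pos one_pos; linarith
  set x0 := π / (2 * N) with hx0
  set lam := 1 / (N * sin x0) with hlamdef
  have hcc : ∀ t : ℝ, -lam ≤ lam * (cos t * cos (N * t)) := by
    intro t
    have h1 : |cos t * cos (N * t)| ≤ 1 := by
      rw [abs_mul]
      exact mul_le_one₀ (abs_cos_le_one t) (abs_nonneg _) (abs_cos_le_one _)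
    have h2 := (abs_le.1 h1).1
    nlinarith
  rcases lt_trichotomy x x0 with hlt | heq | hgt
  · -- left
    have hc : ContinuousOn (GG N) (Set.Icc x x0) := fun t ht =>
      (hG hNne f3.ne' (hsinpos t (by linarith [ht.1]) (by linarith [ht.2])).ne').continuousAt.continuousWithinAt
    obtain ⟨y, hy, e⟩ := exists_hasDerivAt_eq_slope (GG N) _ hlt hc
      (fun t ht => hG hNne f3.ne' (hsinpos t (by linarith [ht.1]) (by linarith [ht.2])).ne')
    have hK := K_left hN (x := y) (by linarith [hy.1]) hy.2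
    have hden : 0 < sin y ^ 2 * sin x0 := mul_pos (pow_pos (hsinpos y (by linarith [hy.1]) (by linarith [hy.2])) 2) f3
    rw [hG0, zero_sub] at e
    have h1 : -GG N x / (x0 - x) ≤ 0 := by
      rw [← e]; exact div_nonpos_of_nonpos_of_nonneg hK hden.le
    by_contra hcon
    push Not at hcon
    have : 0 < -GG N x / (x0 - x) := div_pos (by linarith) (by linarith)
    linarith
  · rw [heq, hG0]
  rcases le_total x (2 * x0) with h2 | h2
  · -- right
    have hc : ContinuousOn (GG N) (Set.Icc x0 x) := fun t ht =>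
      (hG hNne f3.ne' (hsinpos t (by linarith [ht.1]) (by linarith [ht.2])).ne').continuousAt.continuousWithinAt
    obtain ⟨y, hy, e⟩ := exists_hasDerivAt_eq_slope (GG N) _ hgt hc
      (fun t ht => hG hNne f3.ne' (hsinpos t (by linarith [ht.1]) (by linarith [ht.2])).ne')
    have hK := K_right hN (x := y) hy.1 (by linarith [hy.2])
    have hden : 0 < sin y ^ 2 * sin x0 := mul_pos (pow_pos (hsinpos y (by linarith [hy.1]) (by linarith [hy.2])) 2) f3
    rw [hG0, sub_zero] at e
    have h1 : 0 ≤ GG N x / (x - x0) := by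
      rw [← e]; exact div_nonneg hK hden.le
    by_contra hcon
    push Not at hcon
    have : GG N x / (x - x0) < 0 := div_neg_of_neg_of_pos (by linarith) (by linarith)
    linarith
  have hsx := hsinpos x hx hx'
  rcases le_total x (4 * x0) with h4 | h4
  · have h5 : sin (N * x) ≤ 0 := by
      have e1 : N * (2 * x0) ≤ N * x := mul_le_mul_of_nonneg_left h2 hN0.le
      have e2 : N * x ≤ N * (4 * x0) := mul_le_mul_of_nonneg_left h4 hN0.le
      have e3 : sin (N * x) = -sin (N * x - π) := by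
        rw [Real.sin_sub_pi]; ring
      rw [e3]
      have : 0 ≤ sin (N * x - π) := sin_nonneg_of_nonneg_of_le_pi (by linarith) (by linarith)
      linarith
    have h6 : sin x0 * (sin (N * x) / sin x) ≤ 0 :=
      mul_nonpos_of_nonneg_of_nonpos f3.le (div_nonpos_of_nonpos_of_nonneg h5 hsx.le)
    have h7 := hcc x
    unfold GG
    rw [← hx0, ← hlamdef]
    linarith
  · -- far region
    have hs4 : sin (4 * x0) ≤ sin x := Real.sin_le_sin_of_le_of_le_pi_div_two (by linarith) hx' h4
    have e4 : sin (4 * x0) = 4 * sin x0 * cos x0 * cos (2 * x0) := by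
      have : (4:ℝ) * x0 = 2 * (2 * x0) := by ring
      rw [this, Real.sin_two_mul, Real.sin_two_mul]; ring
    have c1 : 1 - x0 ^ 2 / 2 ≤ cos x0 := Real.one_sub_sq_div_two_le_cos
    have c2 : 1 - (2 * x0) ^ 2 / 2 ≤ cos (2 * x0) := Real.one_sub_sq_div_two_le_cos
    have hx02 : x0 ^ 2 ≤ 993 / 10000 := by nlinarith
    have c1' : 950 / 1000 ≤ cos x0 := by linarith
    have c2' : 801 / 1000 ≤ cos (2 * x0) := by nlinarith
    have h5 : 304 / 100 * sin x0 ≤ sin x := by
      have : 760 / 1000 ≤ cos x0 * cos (2 * x0) := by nlinarith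
      have e5 : 4 * sin x0 * cos x0 * cos (2 * x0) = 4 * sin x0 * (cos x0 * cos (2 * x0)) := by ring
      nlinarith
    have h6 : sin x0 * (sin (N * x) / sin x) ≤ 100 / 304 := by
      have e1 : sin x0 * (sin (N * x) / sin x) = (sin x0 * sin (N * x)) / sin x := by ring
      rw [e1, div_le_iff₀ hsx]
      have : sin x0 * sin (N * x) ≤ sin x0 * 1 := mul_le_mul_of_nonneg_left (sin_le_one _) f3.le
      linarith
    have h7 := hcc x
    unfold GG
    rw [← hx0, ← hlamdef]
    linarith

open Real in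
lemma dirichlet (k : ℕ) (x : ℝ) :
    sin x * (1 + 2 * ∑ j ∈ Finset.range k, cos (((j : ℝ) + 1) * (2 * x))) = sin ((2 * k + 1) * x) := by
  induction k with
  | zero => simp
  | succ k ih =>
    have e0 : sin x * (1 + 2 * ∑ j ∈ Finset.range (k + 1), cos (((j : ℝ) + 1) * (2 * x)))
        = sin x * (1 + 2 * ∑ j ∈ Finset.range k, cos (((j : ℝ) + 1) * (2 * x)))
          + 2 * sin x * cos (((k : ℝ) + 1) * (2 * x)) := by
      rw [Finset.sum_range_succ]; ring
    rw [e0, ih]
    push_cast
    have e1 : (2 * ((k:ℝ) + 1) + 1) * x = ((k:ℝ) + 1) * (2 * x) + x := by ring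
    have e2 : (2 * (k:ℝ) + 1) * x = ((k:ℝ) + 1) * (2 * x) - x := by ring
    rw [e1, e2, sin_add, sin_sub]
    ring

open Real in
/-- nonnegativity of the symbol -/
lemma psi_nonneg {k : ℕ} (hk : 2 ≤ k) {t : ℝ} (ht : 0 ≤ t) (ht' : t ≤ π) :
    0 ≤ 1 + 1 / ((2 * (k:ℝ) + 1) * sin (π / (2 * (2 * (k:ℝ) + 1)))) / 2 *
        (cos (((k:ℝ) + 1) * t) + cos ((k:ℝ) * t))
      - sin (π / (2 * (2 * (k:ℝ) + 1))) * (1 + 2 * ∑ j ∈ Finset.range k, cos (((j : ℝ) + 1) * t)) := by
  have hk' : (2:ℝ) ≤ k := by exact_mod_cast hk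
  have hN : 5 ≤ 2 * (k:ℝ) + 1 := by linarith
  obtain ⟨f1, f2, f3, f4, f5, f6, f7⟩ := facts hN
  rcases ht.eq_or_lt with h | h
  · rw [← h]
    simp only [mul_zero, cos_zero, Finset.sum_const, Finset.card_range, nsmul_eq_mul, mul_one]
    have h1 : 6365 / 10000 ≤ 1 / ((2 * (k:ℝ) + 1) * sin (π / (2 * (2 * (k:ℝ) + 1)))) := by
      rw [le_div_iff₀ (by linarith)]
      linarith
    nlinarith
  · have hx : 0 < t / 2 := by linarith
    have hx' : t / 2 ≤ π / 2 := by linarith
    have hG := G_nonneg hN hx hx'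
    have hs : 0 < sin (t / 2) := sin_pos_of_pos_of_lt_pi hx (by linarith [Real.pi_pos])
    have hd := dirichlet k (t / 2)
    have e0 : 2 * (t / 2) = t := by ring
    rw [e0] at hd
    unfold GG at hG
    have e1 : sin ((2 * (k:ℝ) + 1) * (t / 2)) / sin (t / 2) =
        1 + 2 * ∑ j ∈ Finset.range k, cos (((j : ℝ) + 1) * t) := by
      rw [← hd]; field_simp
    have e2 : cos (((k:ℝ) + 1) * t) + cos ((k:ℝ) * t) =
        2 * (cos (t / 2) * cos ((2 * (k:ℝ) + 1) * (t / 2))) := by
      have a1 : ((k:ℝ) + 1) * t = (2 * (k:ℝ) + 1) * (t / 2) + t / 2 := by ring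
      have a2 : (k:ℝ) * t = (2 * (k:ℝ) + 1) * (t / 2) - t / 2 := by ring
      rw [a1, a2, cos_add, cos_sub]; ring
    rw [e1] at hG
    rw [e2]
    linarith



open Real in
lemma int_cos (m : ℤ) : ∫ t in (0:ℝ)..π, cos ((m:ℝ) * t) = if m = 0 then π else 0 := by
  split_ifs with h
  · subst h; simp
  · have hm : (m:ℝ) ≠ 0 := by exact_mod_cast h
    rw [intervalIntegral.integral_comp_mul_left (fun t => cos t) hm, integral_cos]
    simp [Real.sin_int_mul_pi]

/-- truncated autocorrelation -/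
noncomputable def rr (a : ℕ → ℝ) (j M : ℕ) : ℝ :=
  ∑ n ∈ Finset.range M, if j ≤ n then a n * a (n - j) else 0

/-- squared modulus of the finite Fourier sum -/
noncomputable def W2 (a : ℕ → ℝ) (M : ℕ) (t : ℝ) : ℝ :=
  (∑ n ∈ Finset.range M, a n * Real.cos (n * t)) ^ 2
    + (∑ n ∈ Finset.range M, a n * Real.sin (n * t)) ^ 2

lemma W2_cont (a : ℕ → ℝ) (M : ℕ) : Continuous (W2 a M) := by
  unfold W2; fun_prop

lemma W2_succ (a : ℕ → ℝ) (M : ℕ) (t : ℝ) :
    W2 a (M + 1) t = W2 a M t + 2 * a M * ∑ n ∈ Finset.range M, a n * Real.cos (((M:ℝ) - n) * t)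
      + a M ^ 2 := by
  unfold W2
  rw [Finset.sum_range_succ, Finset.sum_range_succ]
  have e : ∑ n ∈ Finset.range M, a n * Real.cos (((M:ℝ) - n) * t) =
      Real.cos (M * t) * (∑ n ∈ Finset.range M, a n * Real.cos (n * t))
      + Real.sin (M * t) * (∑ n ∈ Finset.range M, a n * Real.sin (n * t)) := by
    rw [Finset.mul_sum, Finset.mul_sum, ← Finset.sum_add_distrib]
    apply Finset.sum_congr rfl
    intro n _
    rw [sub_mul, Real.cos_sub]; ring
  rw [e]
  have h := Real.sin_sq_add_cos_sq (M * t)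
  linear_combination (a M ^ 2) * h

open Real in
lemma int_cos_cos {M n j : ℕ} (h : n < M) :
    ∫ t in (0:ℝ)..π, cos (((M:ℝ) - n) * t) * cos ((j:ℝ) * t) = if M = n + j then π / 2 else 0 := by
  have e : ∀ t : ℝ, cos (((M:ℝ) - n) * t) * cos ((j:ℝ) * t) =
      (1/2) * cos (((((M:ℤ) - n + j : ℤ)) : ℝ) * t) + (1/2) * cos (((((M:ℤ) - n - j : ℤ)) : ℝ) * t) := by
    intro t
    push_cast
    have e1 : ((M:ℝ) - n + j) * t = ((M:ℝ) - n) * t + j * t := by ring
    have e2 : ((M:ℝ) - n - j) * t = ((M:ℝ) - n) * t - j * t := by ring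
    rw [e1, e2, cos_add, cos_sub]; ring
  simp_rw [e]
  rw [intervalIntegral.integral_add, intervalIntegral.integral_const_mul,
    intervalIntegral.integral_const_mul, int_cos, int_cos]
  · have h1 : ((M:ℤ) - n + j : ℤ) ≠ 0 := by omega
    rw [if_neg h1]
    by_cases h2 : M = n + j
    · rw [if_pos h2, if_pos (by omega)]; ring
    · rw [if_neg h2, if_neg (by omega)]; ring
  · apply Continuous.intervalIntegrable; fun_prop
  · apply Continuous.intervalIntegrable; fun_prop

open Real in
lemma int_W2 (a : ℕ → ℝ) (j M : ℕ) :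
    ∫ t in (0:ℝ)..π, W2 a M t * cos ((j:ℝ) * t) = π * rr a j M := by
  induction M with
  | zero => simp [W2, rr]
  | succ M ih =>
    have e : ∀ t : ℝ, W2 a (M + 1) t * cos ((j:ℝ) * t) = W2 a M t * cos ((j:ℝ) * t)
        + (∑ n ∈ Finset.range M, (2 * a M * a n) * (cos (((M:ℝ) - n) * t) * cos ((j:ℝ) * t)))
        + a M ^ 2 * cos (((j:ℤ):ℝ) * t) := by
      intro t
      rw [W2_succ, add_mul, add_mul, Finset.mul_sum, Finset.sum_mul]
      push_cast
      congr 2
      apply Finset.sum_congr rfl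
      intro n _
      ring
    simp_rw [e]
    have hW := W2_cont a M
    rw [intervalIntegral.integral_add, intervalIntegral.integral_add, ih,
      intervalIntegral.integral_finsetSum, intervalIntegral.integral_const_mul, int_cos]
    · have e2 : ∑ n ∈ Finset.range M, ∫ t in (0:ℝ)..π, (2 * a M * a n) *
          (cos (((M:ℝ) - n) * t) * cos ((j:ℝ) * t)) =
          ∑ n ∈ Finset.range M, (2 * a M * a n) * (if M = n + j then π / 2 else 0) := by
        apply Finset.sum_congr rfl
        intro n hn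
        rw [intervalIntegral.integral_const_mul, int_cos_cos (Finset.mem_range.1 hn)]
      rw [e2]
      unfold rr
      rw [Finset.sum_range_succ]
      by_cases hj : j = 0
      · subst hj
        have e3 : ∑ n ∈ Finset.range M, (2 * a M * a n) * (if M = n + 0 then π / 2 else 0) = 0 := by
          apply Finset.sum_eq_zero
          intro n hn
          have := Finset.mem_range.1 hn
          rw [if_neg (by omega), mul_zero]
        rw [e3]
        simp
        ring
      · by_cases hjM : j ≤ M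
        · have e3 : ∑ n ∈ Finset.range M, (2 * a M * a n) * (if M = n + j then π / 2 else 0)
              = (2 * a M * a (M - j)) * (π / 2) := by
            rw [Finset.sum_eq_single (M - j)]
            · rw [if_pos (by omega)]
            · intro n _ hn
              rw [if_neg (by omega), mul_zero]
            · intro hn
              exfalso; apply hn
              rw [Finset.mem_range]; omega
          rw [e3, if_neg (by exact_mod_cast hj), if_pos hjM]
          ring
        · have e3 : ∑ n ∈ Finset.range M, (2 * a M * a n) * (if M = n + j then π / 2 else 0) = 0 := by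
            apply Finset.sum_eq_zero
            intro n hn
            rw [if_neg (by omega), mul_zero]
          rw [e3, if_neg (by exact_mod_cast hj), if_neg hjM]
          ring
    · intro n _
      apply Continuous.intervalIntegrable; fun_prop
    · apply Continuous.intervalIntegrable
      exact hW.mul (by fun_prop)
    · apply Continuous.intervalIntegrable; fun_prop
    · apply Continuous.intervalIntegrable
      exact (hW.mul (by fun_prop)).add (by fun_prop)
    · apply Continuous.intervalIntegrable; fun_prop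

open Real in
/-- a nonnegative cosine polynomial gives a nonnegative Toeplitz form -/
lemma QF_of_symbol (a : ℕ → ℝ) (k M : ℕ) (lam s : ℝ)
    (h : ∀ t, 0 ≤ t → t ≤ π → 0 ≤ 1 + lam / 2 * (cos (((k:ℝ) + 1) * t) + cos ((k:ℝ) * t))
      - s * (1 + 2 * ∑ j ∈ Finset.range k, cos (((j : ℝ) + 1) * t))) :
    0 ≤ (1 - s) * rr a 0 M + lam / 2 * (rr a (k + 1) M + rr a k M)
      - 2 * s * ∑ j ∈ Finset.range k, rr a (j + 1) M := by
  have hW := W2_cont a M
  have h1 : 0 ≤ ∫ t in (0:ℝ)..π, W2 a M t *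
      (1 + lam / 2 * (cos (((k:ℝ) + 1) * t) + cos ((k:ℝ) * t))
      - s * (1 + 2 * ∑ j ∈ Finset.range k, cos (((j : ℝ) + 1) * t))) := by
    apply intervalIntegral.integral_nonneg pi_pos.le
    intro t ht
    apply mul_nonneg
    · unfold W2; positivity
    · exact h t ht.1 ht.2
  have e : ∀ t : ℝ, W2 a M t *
      (1 + lam / 2 * (cos (((k:ℝ) + 1) * t) + cos ((k:ℝ) * t))
      - s * (1 + 2 * ∑ j ∈ Finset.range k, cos (((j : ℝ) + 1) * t))) =
      (1 - s) * (W2 a M t * cos (((0:ℕ):ℝ) * t)) + lam / 2 * (W2 a M t * cos (((k + 1 : ℕ):ℝ) * t))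
      + lam / 2 * (W2 a M t * cos ((k:ℝ) * t))
      - ∑ j ∈ Finset.range k, (2 * s) * (W2 a M t * cos (((j + 1 : ℕ):ℝ) * t)) := by
    intro t
    rw [← Finset.mul_sum, ← Finset.mul_sum]
    push_cast
    simp only [zero_mul, cos_zero]
    ring
  simp_rw [e] at h1
  have hc : ∀ j : ℕ, Continuous (fun t => W2 a M t * cos ((j:ℝ) * t)) := fun j =>
    hW.mul (by fun_prop)
  rw [intervalIntegral.integral_sub, intervalIntegral.integral_add, intervalIntegral.integral_add,
    intervalIntegral.integral_const_mul, intervalIntegral.integral_const_mul,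
    intervalIntegral.integral_const_mul, intervalIntegral.integral_finsetSum,
    int_W2, int_W2, int_W2] at h1
  · simp_rw [intervalIntegral.integral_const_mul, int_W2] at h1
    rw [← Finset.mul_sum, ← Finset.mul_sum] at h1
    have h2 : 0 ≤ π * ((1 - s) * rr a 0 M + lam / 2 * (rr a (k + 1) M + rr a k M)
      - 2 * s * ∑ j ∈ Finset.range k, rr a (j + 1) M) := by
      linarith
    exact (mul_nonneg_iff_of_pos_left pi_pos).1 h2
  · intro j _
    exact ((hc _).const_mul _).intervalIntegrable _ _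
  · exact ((hc _).const_mul _).intervalIntegrable _ _
  · exact ((hc _).const_mul _).intervalIntegrable _ _
  · exact (((hc _).const_mul _).add ((hc _).const_mul _)).intervalIntegrable _ _
  · exact ((hc _).const_mul _).intervalIntegrable _ _
  · exact ((((hc _).const_mul _).add ((hc _).const_mul _)).add ((hc _).const_mul _)).intervalIntegrable _ _
  · apply Continuous.intervalIntegrable
    exact continuous_finsetSum _ (fun j _ => (hc _).const_mul _)


section dyn
variable {z w : ℕ → ℝ} {k : ℕ}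

lemma dyn1 (hz : ∀ n, z (n + k + 1) = z (n + k) - w n) (n : ℕ) :
    ∑ m ∈ Finset.range n, w m = z k - z (n + k) := by
  induction n with
  | zero => simp
  | succ n ih =>
    rw [Finset.sum_range_succ, ih]
    have e : n + 1 + k = n + k + 1 := by omega
    rw [e, hz]; ring

lemma dyn2 (w : ℕ → ℝ) (K n : ℕ) :
    ∑ j ∈ Finset.range K, (if j + 1 ≤ n then w (n - (j + 1)) else 0) =
      ∑ m ∈ Finset.range n, w m - ∑ m ∈ Finset.range (n - K), w m := by
  induction K with
  | zero => simp
  | succ K ih =>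
    rw [Finset.sum_range_succ, ih]
    by_cases h : K + 1 ≤ n
    · rw [if_pos h]
      have e : n - K = (n - (K + 1)) + 1 := by omega
      rw [e, Finset.sum_range_succ]; ring
    · rw [if_neg h]
      have e : n - K = 0 := by omega
      have e' : n - (K + 1) = 0 := by omega
      rw [e, e']; ring

lemma dyn3 (hz : ∀ n, z (n + k + 1) = z (n + k) - w n) (M : ℕ) :
    ∑ n ∈ Finset.range M, w n * z (n + k) =
      (z k ^ 2 - z (M + k) ^ 2) / 2 + rr w 0 M / 2 := by
  unfold rr
  induction M with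
  | zero => simp
  | succ M ih =>
    rw [Finset.sum_range_succ, Finset.sum_range_succ, ih]
    have e : M + 1 + k = M + k + 1 := by omega
    rw [e, hz]
    simp only [Nat.zero_le, if_true, Nat.sub_zero]
    ring

lemma dyn4 (hz : ∀ n, z (n + k + 1) = z (n + k) - w n) (M : ℕ) :
    ∑ n ∈ Finset.range M, w n * z (n - k + k) =
      (z k ^ 2 - z (M + k) ^ 2) / 2 + rr w 0 M / 2 + ∑ j ∈ Finset.range k, rr w (j + 1) M := by
  have e1 : ∑ j ∈ Finset.range k, rr w (j + 1) M =
      ∑ n ∈ Finset.range M, w n * (z (n - k + k) - z (n + k)) := by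
    unfold rr
    rw [Finset.sum_comm]
    apply Finset.sum_congr rfl
    intro n _
    have h2 := dyn2 w k n
    rw [dyn1 hz, dyn1 hz] at h2
    have e2 : z (n - k + k) - z (n + k) = z k - z (n + k) - (z k - z (n - k + k)) := by ring
    rw [e2, ← h2, Finset.mul_sum]
    apply Finset.sum_congr rfl
    intro j _
    split_ifs <;> ring
  rw [e1, ← dyn3 hz, ← Finset.sum_add_distrib]
  apply Finset.sum_congr rfl
  intro n _
  ring

lemma dyn5 (hz : ∀ n, z (n + k + 1) = z (n + k) - w n) (m : ℕ) :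
    (∑ i ∈ Finset.range (m + k + 1), if k ≤ i then w (i - k) * z i else 0)
    + (∑ i ∈ Finset.range (m + k + 1), if k + 1 ≤ i then w (i - (k + 1)) * z i else 0)
    = z k ^ 2 - z (m + k) * z (m + k + 1) := by
  induction m with
  | zero =>
    have e1 : (∑ i ∈ Finset.range (0 + k + 1), if k ≤ i then w (i - k) * z i else 0) = w 0 * z k := by
      rw [Finset.sum_eq_single k]
      · simp
      · intro i hi hik
        have := Finset.mem_range.1 hi
        rw [if_neg (by omega)]
      · intro hi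
        exfalso; apply hi; rw [Finset.mem_range]; omega
    have e2 : (∑ i ∈ Finset.range (0 + k + 1), if k + 1 ≤ i then w (i - (k + 1)) * z i else 0) = 0 := by
      apply Finset.sum_eq_zero
      intro i hi
      have := Finset.mem_range.1 hi
      rw [if_neg (by omega)]
    rw [e1, e2]
    have h0 := hz 0
    rw [h0]
    simp only [Nat.zero_add]
    ring
  | succ m ih =>
    have e : m + 1 + k + 1 = (m + k + 1) + 1 := by omega
    rw [e, Finset.sum_range_succ _ (m + k + 1), Finset.sum_range_succ _ (m + k + 1),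
      if_pos (by omega), if_pos (by omega)]
    have e1 : m + k + 1 - k = m + 1 := by omega
    have e2 : m + k + 1 - (k + 1) = m := by omega
    have e3 : m + 1 + k = m + k + 1 := by omega
    rw [e1, e2, e3]
    have h1 := hz m
    have h2 := hz (m + 1)
    rw [e3] at h2
    have e4 : z (m + k + 1 + 1) = z (m + k + 1) - w (m + 1) := h2
    rw [e4]
    have e5 : w m = z (m + k) - z (m + k + 1) := by rw [h1]; ring
    rw [e5]
    linear_combination ih

lemma dyn6 {v P : ℕ → ℝ} (hP0 : ∀ n, 0 ≤ P n)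
    (hP : ∀ a b, P a - P b ≤ w a * (v a + v b)) (j M : ℕ) :
    (∑ n ∈ Finset.range (M - j), P n) - (∑ n ∈ Finset.range M, P n) ≤
      (∑ i ∈ Finset.range M, if j ≤ i then w (i - j) * v i else 0)
        + ∑ n ∈ Finset.range (M - j), w n * v n := by
  induction M with
  | zero => simp
  | succ M ih =>
    rw [Finset.sum_range_succ (fun n => P n) M, Finset.sum_range_succ _ M]
    by_cases h : j ≤ M
    · have e : M + 1 - j = (M - j) + 1 := by omega
      rw [e, Finset.sum_range_succ, Finset.sum_range_succ, if_pos h]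
      have h1 := hP (M - j) M
      linarith
    · rw [if_neg h]
      have e : M + 1 - j = 0 := by omega
      have e' : M - j = 0 := by omega
      rw [e]
      rw [e'] at ih
      have := hP0 M
      linarith

/-- the basic energy inequality -/
lemma star {p lam : ℝ} (hp : 0 < p) (hlam : 0 ≤ lam) {v P : ℕ → ℝ}
    (hz : ∀ n, z (n + k + 1) = z (n + k) - w n)
    (hv : ∀ n, v n = z n - w n / p) (hwv : ∀ n, 0 ≤ w n * v n)
    (hP0 : ∀ n, 0 ≤ P n) (hP : ∀ a b, P a - P b ≤ w a * (v a + v b))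
    (hQ : ∀ M, 0 ≤ (1 - p / 2) * rr w 0 M + lam / 2 * (rr w (k + 1) M + rr w k M)
      - 2 * (p / 2) * ∑ j ∈ Finset.range k, rr w (j + 1) M) (m : ℕ) :
    (1 - lam) * ∑ n ∈ Finset.range (m + k + 1), w n * v n ≤
      (z k ^ 2 - z (m + k + 1 + k) ^ 2) / 2
      + (∑ n ∈ Finset.range (m + k + 1), w n * (z n - z (n - k + k)))
      + lam / 2 * (z k ^ 2 - z (m + k) * z (m + k + 1))
      + lam * ∑ i ∈ Finset.range (k + 1), P (m + i) := by
  set M := m + k + 1 with hM
  have h4 := dyn4 hz M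
  have h5 := dyn5 hz m
  rw [← hM] at h5
  have h6a := dyn6 hP0 hP k M
  have h6b := dyn6 hP0 hP (k + 1) M
  have hQM := hQ M
  -- sums of P over the last block
  have eP1 : (∑ n ∈ Finset.range M, P n) - ∑ n ∈ Finset.range (M - (k + 1)), P n
      = ∑ i ∈ Finset.range (k + 1), P (m + i) := by
    have e : M - (k + 1) = m := by omega
    have e' : M = m + (k + 1) := by omega
    rw [e, e', Finset.sum_range_add]; ring
  have eP2 : (∑ n ∈ Finset.range M, P n) - ∑ n ∈ Finset.range (M - k), P n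
      ≤ ∑ i ∈ Finset.range (k + 1), P (m + i) := by
    rw [← eP1]
    have e : M - k = (M - (k + 1)) + 1 := by omega
    rw [e, Finset.sum_range_succ _ (M - (k + 1))]
    have := hP0 (M - (k + 1))
    linarith
  have hmono : ∀ j, ∑ n ∈ Finset.range (M - j), w n * v n ≤ ∑ n ∈ Finset.range M, w n * v n := by
    intro j
    apply Finset.sum_le_sum_of_subset_of_nonneg
    · apply Finset.range_mono; omega
    · intro i _ _; exact hwv i
  have m1 := hmono k
  have m2 := hmono (k + 1)
  have hcj : ∀ j, p * (∑ i ∈ Finset.range M, if j ≤ i then w (i - j) * v i else 0) =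
      p * (∑ i ∈ Finset.range M, if j ≤ i then w (i - j) * z i else 0) - rr w j M := by
    intro j
    unfold rr
    rw [Finset.mul_sum, Finset.mul_sum, ← Finset.sum_sub_distrib]
    apply Finset.sum_congr rfl
    intro i _
    split_ifs
    · rw [hv]; field_simp
    · ring
  have c1 := hcj k
  have c2 := hcj (k + 1)
  have hwv' : p * ∑ n ∈ Finset.range M, w n * v n = p * (∑ n ∈ Finset.range M, w n * z n) - rr w 0 M := by
    unfold rr
    rw [Finset.mul_sum, Finset.mul_sum, ← Finset.sum_sub_distrib]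
    apply Finset.sum_congr rfl
    intro i _
    rw [hv]
    simp only [Nat.zero_le, if_true, Nat.sub_zero]
    field_simp
  have hsplit : ∑ n ∈ Finset.range M, w n * z n = ∑ n ∈ Finset.range M, w n * z (n - k + k)
      + ∑ n ∈ Finset.range M, w n * (z n - z (n - k + k)) := by
    rw [← Finset.sum_add_distrib]
    apply Finset.sum_congr rfl
    intro n _
    ring
  -- abbreviations
  generalize hA : ∑ n ∈ Finset.range M, w n * v n = A at *
  generalize hB : (∑ i ∈ Finset.range M, if k ≤ i then w (i - k) * v i else 0) = B1 at *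
  generalize hB' : (∑ i ∈ Finset.range M, if k + 1 ≤ i then w (i - (k + 1)) * v i else 0) = B2 at *
  generalize hC : (∑ i ∈ Finset.range M, if k ≤ i then w (i - k) * z i else 0) = C1 at *
  generalize hC' : (∑ i ∈ Finset.range M, if k + 1 ≤ i then w (i - (k + 1)) * z i else 0) = C2 at *
  generalize hE : ∑ n ∈ Finset.range M, w n * (z n - z (n - k + k)) = E at *
  generalize hS : ∑ i ∈ Finset.range (k + 1), P (m + i) = S at *
  have key : p * (A + lam / 2 * (B1 + B2)) ≤ p * ((z k ^ 2 - z (M + k) ^ 2) / 2 + E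
      + lam / 2 * (z k ^ 2 - z (m + k) * z M)) := by
    have e1 : p * (A + lam / 2 * (B1 + B2)) = p * A + lam / 2 * (p * B1 + p * B2) := by ring
    rw [e1, hwv', c1, c2, hsplit, h4]
    have e2 : p * C1 + p * C2 = p * (z k ^ 2 - z (m + k) * z M) := by rw [← h5]; ring
    nlinarith
  have key2 := le_of_mul_le_mul_left key hp
  have f1 : -S - A ≤ B1 := by linarith
  have f2 : -S - A ≤ B2 := by linarith
  have f3 : lam / 2 * (-S - A) ≤ lam / 2 * B1 := mul_le_mul_of_nonneg_left f1 (by linarith)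
  have f4 : lam / 2 * (-S - A) ≤ lam / 2 * B2 := mul_le_mul_of_nonneg_left f2 (by linarith)
  nlinarith

end dyn

open Real in
/-- Pinsker inequality for Bernoulli laws, in the variables t = 2y-1 -/
lemma pinsker {a b : ℝ} (ha : |a| < 1) (hb : |b| < 1) :
    (a - b) ^ 2 ≤ (1 + a) * (log (1 + a) - log (1 + b)) + (1 - a) * (log (1 - a) - log (1 - b)) := by
  obtain ⟨ha1, ha2⟩ := abs_lt.1 ha
  obtain ⟨hb1, hb2⟩ := abs_lt.1 hb
  set f : ℝ → ℝ := fun x => (1 + a) * (log (1 + a) - log (1 + x))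
    + (1 - a) * (log (1 - a) - log (1 - x)) - (a - x) ^ 2 with hf
  have hder : ∀ x, -1 < x → x < 1 → HasDerivAt f
      ((1 + a) * (-(1 / (1 + x))) + (1 - a) * (-(-1 / (1 - x))) - (2 * (a - x) * (-1))) x := by
    intro x h1 h2
    have d1 : HasDerivAt (fun x : ℝ => log (1 + x)) (1 / (1 + x)) x :=
      ((hasDerivAt_id x).const_add 1).log (by simp; linarith)
    have d2 : HasDerivAt (fun x : ℝ => log (1 - x)) (-1 / (1 - x)) x :=
      ((hasDerivAt_id x).const_sub 1).log (by simp; linarith)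
    have d3 : HasDerivAt (fun x : ℝ => (a - x) ^ 2) (2 * (a - x) * (-1)) x := by
      have h3 := ((hasDerivAt_id x).const_sub a).pow 2
      exact h3.congr_deriv (by simp)
    exact (((d1.const_sub (log (1 + a))).const_mul (1 + a)).add
      ((d2.const_sub (log (1 - a))).const_mul (1 - a))).sub d3
  have hval : ∀ x, -1 < x → x < 1 →
      (1 + a) * (-(1 / (1 + x))) + (1 - a) * (-(-1 / (1 - x))) - (2 * (a - x) * (-1))
        = 2 * (x - a) * x ^ 2 / (1 - x ^ 2) := by
    intro x h1 h2
    have e1 : 1 + x ≠ 0 := by linarith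
    have e2 : 1 - x ≠ 0 := by linarith
    have e3 : 1 - x ^ 2 ≠ 0 := by
      have : (1 - x ^ 2) = (1 + x) * (1 - x) := by ring
      rw [this]; exact mul_ne_zero e1 e2
    field_simp
    ring
  have hfa : f a = 0 := by simp [hf]
  have hgoal : 0 ≤ f b := by
    rcases lt_trichotomy a b with h | h | h
    · obtain ⟨y, hy, e⟩ := exists_hasDerivAt_eq_slope f _ h
        (fun x hx => (hder x (by linarith [hx.1]) (by linarith [hx.2])).continuousAt.continuousWithinAt)
        (fun x hx => hder x (by linarith [hx.1]) (by linarith [hx.2]))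
      rw [hval y (by linarith [hy.1]) (by linarith [hy.2]), hfa, sub_zero] at e
      have h1 : 0 ≤ 2 * (y - a) * y ^ 2 / (1 - y ^ 2) := by
        apply div_nonneg
        · apply mul_nonneg _ (sq_nonneg _)
          linarith [hy.1]
        · nlinarith [hy.1, hy.2]
      rw [e] at h1
      by_contra hc
      push Not at hc
      have : f b / (b - a) < 0 := div_neg_of_neg_of_pos hc (by linarith)
      linarith
    · rw [← h, hfa]
    · obtain ⟨y, hy, e⟩ := exists_hasDerivAt_eq_slope f _ h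
        (fun x hx => (hder x (by linarith [hx.1]) (by linarith [hx.2])).continuousAt.continuousWithinAt)
        (fun x hx => hder x (by linarith [hx.1]) (by linarith [hx.2]))
      rw [hval y (by linarith [hy.1]) (by linarith [hy.2]), hfa, zero_sub] at e
      have h1 : 2 * (y - a) * y ^ 2 / (1 - y ^ 2) ≤ 0 := by
        apply div_nonpos_of_nonpos_of_nonneg
        · apply mul_nonpos_of_nonpos_of_nonneg _ (sq_nonneg _)
          linarith [hy.2]
        · nlinarith [hy.1, hy.2]
      rw [e] at h1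
      by_contra hc
      push Not at hc
      have : 0 < -f b / (a - b) := div_pos (by linarith) (by linarith)
      linarith
  simp only [hf] at hgoal
  linarith

/-- logit in the variable t -/
noncomputable def Lg (t : ℝ) : ℝ := Real.log (1 + t) - Real.log (1 - t)

/-- potential -/
noncomputable def Pt (β p t : ℝ) : ℝ :=
  -β * (Real.log (1 + t) + Real.log (1 - t)) - β ^ 2 / (2 * p) * t ^ 2

lemma pin2 {β p a b : ℝ} (hβ : 0 < β) (hp : 0 < p) (hβp : β ≤ 2 * p) (ha : |a| < 1) (hb : |b| < 1) :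
    Pt β p a - Pt β p b ≤ β * a * ((Lg a - β * a / p) + (Lg b - β * b / p)) := by
  have hb' : |(-b)| < 1 := by rwa [abs_neg]
  have h := pinsker ha hb'
  have e1 : 1 + -b = 1 - b := by ring
  have e2 : 1 - -b = 1 + b := by ring
  have e3 : a - -b = a + b := by ring
  rw [e1, e2, e3] at h
  have h1 : β / (2 * p) ≤ 1 := by
    rw [div_le_one (by positivity)]; exact hβp
  have h2 : β ^ 2 / (2 * p) * (a + b) ^ 2 ≤ β * (a + b) ^ 2 := by
    have : β ^ 2 / (2 * p) = β * (β / (2 * p)) := by ring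
    rw [this]
    have h3 : β * (β / (2 * p)) ≤ β * 1 := mul_le_mul_of_nonneg_left h1 hβ.le
    nlinarith [sq_nonneg (a + b)]
  have h4 : β * (a + b) ^ 2 ≤ β * ((1 + a) * (Real.log (1 + a) - Real.log (1 - b))
      + (1 - a) * (Real.log (1 - a) - Real.log (1 + b))) := mul_le_mul_of_nonneg_left h hβ.le
  have e4 : β * a * ((Lg a - β * a / p) + (Lg b - β * b / p)) - (Pt β p a - Pt β p b)
      = β * ((1 + a) * (Real.log (1 + a) - Real.log (1 - b))
      + (1 - a) * (Real.log (1 - a) - Real.log (1 + b))) - β ^ 2 / (2 * p) * (a + b) ^ 2 := by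
    unfold Lg Pt
    field_simp
    ring
  linarith

lemma Pt_nonneg {β p b : ℝ} (hβ : 0 < β) (hp : 0 < p) (hβp : β ≤ 2 * p) (hb : |b| < 1) :
    0 ≤ Pt β p b := by
  have h := pin2 (a := 0) hβ hp hβp (by simp) hb
  have e : Pt β p 0 = 0 := by simp [Pt]
  rw [e] at h
  simp only [mul_zero, zero_mul] at h
  linarith

lemma Pt_le {β p t : ℝ} (hβ : 0 < β) (hp : 0 < p) (ht : |t| < 1) :
    Pt β p t ≤ β * |Lg t| := by
  obtain ⟨h1, h2⟩ := abs_lt.1 ht
  have h3 : 0 ≤ β ^ 2 / (2 * p) * t ^ 2 := by positivity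
  have h4 : -(Real.log (1 + t) + Real.log (1 - t)) ≤ |Lg t| := by
    rcases le_total 0 t with h | h
    · have : 0 ≤ Real.log (1 + t) := Real.log_nonneg (by linarith)
      calc -(Real.log (1 + t) + Real.log (1 - t)) ≤ Lg t := by unfold Lg; linarith
        _ ≤ |Lg t| := le_abs_self _
    · have : 0 ≤ Real.log (1 - t) := Real.log_nonneg (by linarith)
      calc -(Real.log (1 + t) + Real.log (1 - t)) ≤ -Lg t := by unfold Lg; linarith
        _ ≤ |Lg t| := neg_le_abs _
  have h5 := mul_le_mul_of_nonneg_left h4 hβ.le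
  unfold Pt
  linarith

lemma Lg_odd (t : ℝ) : Lg (-t) = -Lg t := by
  unfold Lg
  have e1 : 1 + -t = 1 - t := by ring
  have e2 : 1 - -t = 1 + t := by ring
  rw [e1, e2]; ring

lemma Lg_lower0 {t : ℝ} (h0 : 0 ≤ t) (h1 : t < 1) : 2 * t + 2 / 3 * t ^ 3 ≤ Lg t := by
  have h := Real.hasSum_log_sub_log_of_abs_lt_one (x := t) (by rw [abs_of_nonneg h0]; exact h1)
  have h2 := sum_le_hasSum (Finset.range 2) (fun i _ => by positivity) h
  simp [Finset.sum_range_succ] at h2
  unfold Lg
  norm_num at h2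
  linarith

lemma Lg_lower {t : ℝ} (ht : |t| < 1) : 2 * t ^ 2 + 2 / 3 * t ^ 4 ≤ t * Lg t := by
  obtain ⟨h1, h2⟩ := abs_lt.1 ht
  rcases le_total 0 t with h | h
  · have h3 := mul_le_mul_of_nonneg_left (Lg_lower0 h h2) h
    nlinarith
  · have h3 := mul_le_mul_of_nonneg_left (Lg_lower0 (t := -t) (by linarith) (by linarith))
      (show 0 ≤ -t by linarith)
    rw [Lg_odd] at h3
    nlinarith

lemma Lg_upper {t : ℝ} (ht : |t| ≤ 1 / 2) : |Lg t| ≤ 4 * |t| := by
  have key : ∀ s : ℝ, 0 ≤ s → s ≤ 1 / 2 → |Lg s| ≤ 4 * s := by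
    intro s h0 h1
    have h2 : 0 ≤ Lg s := by
      have := Lg_lower0 h0 (by linarith)
      have : 0 ≤ s ^ 3 := by positivity
      linarith
    rw [abs_of_nonneg h2]
    unfold Lg
    rw [← Real.log_div (by linarith) (by linarith)]
    have h3 := Real.log_le_sub_one_of_pos (show 0 < (1 + s) / (1 - s) by
      apply div_pos <;> linarith)
    have h4 : (1 + s) / (1 - s) - 1 ≤ 4 * s := by
      rw [sub_le_iff_le_add, div_le_iff₀ (by linarith)]
      nlinarith
    linarith
  rcases le_total 0 t with h | h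
  · have := key t h (by rwa [abs_of_nonneg h] at ht)
    rwa [abs_of_nonneg h]
  · have := key (-t) (by linarith) (by rwa [abs_of_nonpos h] at ht)
    rw [Lg_odd, abs_neg] at this
    rwa [abs_of_nonpos h]

end Pool.Agent.S04011
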