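import Mathlib

set_option autoImplicit false

namespace Pool.Agent.S03084

lemma comb_ineq {Ns Nt fs ft dS dT ss st c1 c2 : ℝ} (hS : 0 < dS) (hT : 0 < dT)
    (q1 : 0 ≤ Ns - ss * dS) (q2 : 0 ≤ Nt - st * dT) (q3 : 0 ≤ fs + c1 * dS) (q4 : 0 ≤ ft - c2 * dT)
    (hss : 0 ≤ ss) (hst : 0 ≤ st) (hc : c1 < c2) :
    0 ≤ Ns ∧ 0 ≤ Nt ∧ 0 < dT * fs + dS * ft := by
  have a1 : 0 ≤ ss * dS := mul_nonneg hss hS.le
  have a2 : 0 ≤ st * dT := mul_nonneg hst hT.le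
  have a3 : 0 ≤ dT * (fs + c1 * dS) := mul_nonneg hT.le q3
  have a4 : 0 ≤ dS * (ft - c2 * dT) := mul_nonneg hS.le q4
  have a5 : 0 < (c2 - c1) * (dS * dT) := mul_pos (by linarith) (mul_pos hS hT)
  refine ⟨by linarith, by linarith, ?_⟩
  nlinarith

lemma e1a_q1_al (C : ℝ) (h1 : (249/1000) ≤ C) (h2 : C ≤ (81/250)) : 0 < (27/10) + (11/10)*C + (-118/5)*C^2 + (32)*C^3 := by
  have key : ∀ u v : ℝ, 0 ≤ u → 0 ≤ v → 0 ≤ (1504700368/421875)*(u^0*v^3) + (462394256/46875)*(u^1*v^2) + (1270235168/140625)*(u^2*v^1) + (1167357568/421875)*(u^3*v^0) := by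
    intro u v hu hv; positivity
  have h := key (C - (249/1000)) ((81/250) - C) (by linarith) (by linarith)
  have e : (27/10) + (11/10)*C + (-118/5)*C^2 + (32)*C^3 = (1/2) + ((1504700368/421875)*((C - (249/1000))^0*((81/250) - C)^3) + (462394256/46875)*((C - (249/1000))^1*((81/250) - C)^2) + (1270235168/140625)*((C - (249/1000))^2*((81/250) - C)^1) + (1167357568/421875)*((C - (249/1000))^3*((81/250) - C)^0)) := by ring
  rw [e]; linarith
lemma e1a_q1_de (C : ℝ) (h1 : (249/1000) ≤ C) (h2 : C ≤ (81/250)) : 0 ≤ (-36629/2000) + (647191/2000)*C + (-89570001/40000)*C^2 + (949496/125)*C^3 + (-12858)*C^4 + (48896/5)*C^5 + (-2624)*C^6 := by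
  have key : ∀ u v : ℝ, 0 ≤ u → 0 ≤ v → 0 ≤ (856642907154176/177978515625)*(u^0*v^6) + (2188910765033984/19775390625)*(u^1*v^5) + (9504132586187776/11865234375)*(u^2*v^4) + (81653478520258304/35595703125)*(u^3*v^3) + (10105795970393792/3955078125)*(u^4*v^2) + (58503278823076352/59326171875)*(u^5*v^1) + (4830959963134976/177978515625)*(u^6*v^0) := by
    intro u v hu hv; positivity
  have h := key (C - (249/1000)) ((81/250) - C) (by linarith) (by linarith)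
  have e : (-36629/2000) + (647191/2000)*C + (-89570001/40000)*C^2 + (949496/125)*C^3 + (-12858)*C^4 + (48896/5)*C^5 + (-2624)*C^6 = (0) + ((856642907154176/177978515625)*((C - (249/1000))^0*((81/250) - C)^6) + (2188910765033984/19775390625)*((C - (249/1000))^1*((81/250) - C)^5) + (9504132586187776/11865234375)*((C - (249/1000))^2*((81/250) - C)^4) + (81653478520258304/35595703125)*((C - (249/1000))^3*((81/250) - C)^3) + (10105795970393792/3955078125)*((C - (249/1000))^4*((81/250) - C)^2) + (58503278823076352/59326171875)*((C - (249/1000))^5*((81/250) - C)^1) + (4830959963134976/177978515625)*((C - (249/1000))^6*((81/250) - C)^0)) := by ring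
  rw [e]; linarith
lemma e1a_q1 (C p : ℝ) (h1 : (249/1000) ≤ C) (h2 : C ≤ (81/250)) : 0 ≤ (((-1))*((13/20) - (1 + p*(1 - 2*C)))^2 + ((13/4) + (-10)*C)*((-23/20) - (p - 2*C))*((13/20) - (1 + p*(1 - 2*C))) + (((13/4) + (-10)*C) - ((-1)))*((-23/20) - (p - 2*C))^2) - ((-19/10) + (8)*C)*((p - 2*C)*((-23/20) - (p - 2*C)) + (1 + p*(1 - 2*C))*((13/20) - (1 + p*(1 - 2*C)))) := by
  have ha := e1a_q1_al C h1 h2
  have hd := e1a_q1_de C h1 h2
  have e : 4 * ((27/10) + (11/10)*C + (-118/5)*C^2 + (32)*C^3) * ((((-1))*((13/20) - (1 + p*(1 - 2*C)))^2 + ((13/4) + (-10)*C)*((-23/20) - (p - 2*C))*((13/20) - (1 + p*(1 - 2*C))) + (((13/4) + (-10)*C) - ((-1)))*((-23/20) - (p - 2*C))^2) - ((-19/10) + (8)*C)*((p - 2*C)*((-23/20) - (p - 2*C)) + (1 + p*(1 - 2*C))*((13/20) - (1 + p*(1 - 2*C))))) = (2 * ((27/10) + (11/10)*C + (-118/5)*C^2 + (32)*C^3) * p + ((46/5) + (-6969/200)*C + (212/5)*C^2 + (-40)*C^3))^2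 + ((-36629/2000) + (647191/2000)*C + (-89570001/40000)*C^2 + (949496/125)*C^3 + (-12858)*C^4 + (48896/5)*C^5 + (-2624)*C^6) := by ring
  have h3 : 0 ≤ 4 * ((27/10) + (11/10)*C + (-118/5)*C^2 + (32)*C^3) * ((((-1))*((13/20) - (1 + p*(1 - 2*C)))^2 + ((13/4) + (-10)*C)*((-23/20) - (p - 2*C))*((13/20) - (1 + p*(1 - 2*C))) + (((13/4) + (-10)*C) - ((-1)))*((-23/20) - (p - 2*C))^2) - ((-19/10) + (8)*C)*((p - 2*C)*((-23/20) - (p - 2*C)) + (1 + p*(1 - 2*C))*((13/20) - (1 + p*(1 - 2*C))))) := by rw [e]; exact add_nonneg (sq_nonneg _) hd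
  exact (mul_nonneg_iff_of_pos_left (by linarith)).1 h3
lemma e1a_q2_al (C : ℝ) (h1 : (249/1000) ≤ C) (h2 : C ≤ (81/250)) : 0 < (-11/10) + (83/10)*C + (14/5)*C^2 + (-24)*C^3 := by
  have key : ∀ u v : ℝ, 0 ≤ u → 0 ≤ v → 0 ≤ (173261608/140625)*(u^0*v^3) + (650543024/140625)*(u^1*v^2) + (752936224/140625)*(u^2*v^1) + (30253312/15625)*(u^3*v^0) := by
    intro u v hu hv; positivity
  have h := key (C - (249/1000)) ((81/250) - C) (by linarith) (by linarith)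
  have e : (-11/10) + (83/10)*C + (14/5)*C^2 + (-24)*C^3 = (1/4) + ((173261608/140625)*((C - (249/1000))^0*((81/250) - C)^3) + (650543024/140625)*((C - (249/1000))^1*((81/250) - C)^2) + (752936224/140625)*((C - (249/1000))^2*((81/250) - C)^1) + (30253312/15625)*((C - (249/1000))^3*((81/250) - C)^0)) := by ring
  rw [e]; linarith
lemma e1a_q2_de (C : ℝ) (h1 : (249/1000) ≤ C) (h2 : C ≤ (81/250)) : 0 ≤ (-620161/40000) + (589121/4000)*C + (-112861/320)*C^2 + (-209279/500)*C^3 + (52201/25)*C^4 + (-464/5)*C^5 + (-3136)*C^6 := by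
  have key : ∀ u v : ℝ, 0 ≤ u → 0 ≤ v → 0 ≤ (30208148429833664/177978515625)*(u^0*v^6) + (44604590985512576/19775390625)*(u^1*v^5) + (72201500462064064/11865234375)*(u^2*v^4) + (237971899766877056/35595703125)*(u^3*v^3) + (13396998625911488/3955078125)*(u^4*v^2) + (43648441261219328/59326171875)*(u^5*v^1) + (5592407335844864/177978515625)*(u^6*v^0) := by
    intro u v hu hv; positivity
  have h := key (C - (249/1000)) ((81/250) - C) (by linarith) (by linarith)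
  have e : (-620161/40000) + (589121/4000)*C + (-112861/320)*C^2 + (-209279/500)*C^3 + (52201/25)*C^4 + (-464/5)*C^5 + (-3136)*C^6 = (0) + ((30208148429833664/177978515625)*((C - (249/1000))^0*((81/250) - C)^6) + (44604590985512576/19775390625)*((C - (249/1000))^1*((81/250) - C)^5) + (72201500462064064/11865234375)*((C - (249/1000))^2*((81/250) - C)^4) + (237971899766877056/35595703125)*((C - (249/1000))^3*((81/250) - C)^3) + (13396998625911488/3955078125)*((C - (249/1000))^4*((81/250) - C)^2) + (43648441261219328/59326171875)*((C - (249/1000))^5*((81/250) - C)^1) + (5592407335844864/177978515625)*((C - (249/1000))^6*((81/250) - C)^0)) := by ring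
  rw [e]; linarith
lemma e1a_q2 (C m : ℝ) (h1 : (249/1000) ≤ C) (h2 : C ≤ (81/250)) : 0 ≤ (((-1))*((1/4) - (1 - m*(1 + 2*C)))^2 + ((13/4) + (-10)*C)*((-7/20) - (m - 2*C))*((1/4) - (1 - m*(1 + 2*C))) - (((-1)) + ((13/4) + (-10)*C))*((-7/20) - (m - 2*C))^2) - ((27/10) + (-6)*C)*((m - 2*C)*((-7/20) - (m - 2*C)) + (1 - m*(1 + 2*C))*((1/4) - (1 - m*(1 + 2*C)))) := by
  have ha := e1a_q2_al C h1 h2
  have hd := e1a_q2_de C h1 h2
  have e : 4 * ((-11/10) + (83/10)*C + (14/5)*C^2 + (-24)*C^3) * ((((-1))*((1/4) - (1 - m*(1 + 2*C)))^2 + ((13/4) + (-10)*C)*((-7/20) - (m - 2*C))*((1/4) - (1 - m*(1 + 2*C))) - (((-1)) + ((13/4) + (-10)*C))*((-7/20) - (m - 2*C))^2) - ((27/10) + (-6)*C)*((m - 2*C)*((-7/20) - (m - 2*C)) + (1 - m*(1 + 2*C))*((1/4) - (1 - m*(1 + 2*C))))) = (2 * ((-11/10) + (83/10)*C + (14/5)*C^2 + (-24)*C^3) * m + ((-511/200) + (59/8)*C + (5)*C^2 + (-40)*C^3))^2 + ((-620161/40000)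 + (589121/4000)*C + (-112861/320)*C^2 + (-209279/500)*C^3 + (52201/25)*C^4 + (-464/5)*C^5 + (-3136)*C^6) := by ring
  have h3 : 0 ≤ 4 * ((-11/10) + (83/10)*C + (14/5)*C^2 + (-24)*C^3) * ((((-1))*((1/4) - (1 - m*(1 + 2*C)))^2 + ((13/4) + (-10)*C)*((-7/20) - (m - 2*C))*((1/4) - (1 - m*(1 + 2*C))) - (((-1)) + ((13/4) + (-10)*C))*((-7/20) - (m - 2*C))^2) - ((27/10) + (-6)*C)*((m - 2*C)*((-7/20) - (m - 2*C)) + (1 - m*(1 + 2*C))*((1/4) - (1 - m*(1 + 2*C))))) := by rw [e]; exact add_nonneg (sq_nonneg _) hd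
  exact (mul_nonneg_iff_of_pos_left (by linarith)).1 h3
lemma e1a_q3_al (C : ℝ) (h1 : (249/1000) ≤ C) (h2 : C ≤ (81/250)) : 0 < (10) + (-61/2)*C + (57)*C^2 + (-40)*C^3 := by
  have key : ∀ u v : ℝ, 0 ≤ u → 0 ≤ v → 0 ≤ (288135136/28125)*(u^0*v^3) + (816634808/28125)*(u^1*v^2) + (779034208/28125)*(u^2*v^1) + (83136512/9375)*(u^3*v^0) := by
    intro u v hu hv; positivity
  have h := key (C - (249/1000)) ((81/250) - C) (by linarith) (by linarith)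
  have e : (10) + (-61/2)*C + (57)*C^2 + (-40)*C^3 = (1) + ((288135136/28125)*((C - (249/1000))^0*((81/250) - C)^3) + (816634808/28125)*((C - (249/1000))^1*((81/250) - C)^2) + (779034208/28125)*((C - (249/1000))^2*((81/250) - C)^1) + (83136512/9375)*((C - (249/1000))^3*((81/250) - C)^0)) := by ring
  rw [e]; linarith
lemma e1a_q3_de (C : ℝ) (h1 : (249/1000) ≤ C) (h2 : C ≤ (81/250)) : 0 ≤ (-1201/16) + (443)*C + (579/2)*C^2 + (-4612)*C^3 + (5439)*C^4 + (80)*C^5 + (-1600)*C^6 := by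
  have key : ∀ u v : ℝ, 0 ≤ u → 0 ≤ v → 0 ≤ (103840290081652736/7119140625)*(u^0*v^6) + (88409648331905024/791015625)*(u^1*v^5) + (143205178771702336/474609375)*(u^2*v^4) + (543667405920748544/1423828125)*(u^3*v^3) + (37131900183437312/158203125)*(u^4*v^2) + (141186304018153472/2373046875)*(u^5*v^1) + (14717906108481536/7119140625)*(u^6*v^0) := by
    intro u v hu hv; positivity
  have h := key (C - (249/1000)) ((81/250) - C) (by linarith) (by linarith)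
  have e : (-1201/16) + (443)*C + (579/2)*C^2 + (-4612)*C^3 + (5439)*C^4 + (80)*C^5 + (-1600)*C^6 = (0) + ((103840290081652736/7119140625)*((C - (249/1000))^0*((81/250) - C)^6) + (88409648331905024/791015625)*((C - (249/1000))^1*((81/250) - C)^5) + (143205178771702336/474609375)*((C - (249/1000))^2*((81/250) - C)^4) + (543667405920748544/1423828125)*((C - (249/1000))^3*((81/250) - C)^3) + (37131900183437312/158203125)*((C - (249/1000))^4*((81/250) - C)^2) + (141186304018153472/2373046875)*((C - (249/1000))^5*((81/250) - C)^1) + (14717906108481536/7119140625)*((C - (249/1000))^6*((81/250) - C)^0)) := by ring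
  rw [e]; linarith
lemma e1a_q3 (C p : ℝ) (h1 : (249/1000) ≤ C) (h2 : C ≤ (81/250)) : 0 ≤ (((-1))*(p - 2*C)^2 - ((13/4) + (-10)*C)*(p - 2*C)*(1 + p*(1 - 2*C)) + (((13/4) + (-10)*C) - ((-1)))*(1 + p*(1 - 2*C))^2) + ((-5))*((p - 2*C)*((-23/20) - (p - 2*C)) + (1 + p*(1 - 2*C))*((13/20) - (1 + p*(1 - 2*C)))) := by
  have ha := e1a_q3_al C h1 h2
  have hd := e1a_q3_de C h1 h2
  have e : 4 * ((10) + (-61/2)*C + (57)*C^2 + (-40)*C^3) * ((((-1))*(p - 2*C)^2 - ((13/4) + (-10)*C)*(p - 2*C)*(1 + p*(1 - 2*C)) + (((13/4) + (-10)*C) - ((-1)))*(1 + p*(1 - 2*C))^2) + ((-5))*((p - 2*C)*((-23/20) - (p - 2*C)) + (1 + p*(1 - 2*C))*((13/20) - (1 + p*(1 - 2*C))))) = (2 * ((10) + (-61/2)*C + (57)*C^2 + (-40)*C^3) * p + ((71/4) + (-50)*C + (7)*C^2 + (40)*C^3))^2 + ((-1201/16) + (443)*C + (579/2)*C^2 + (-4612)*C^3 + (5439)*C^4 + (80)*C^5 + (-1600)*C^6) := by ring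
  have h3 : 0 ≤ 4 * ((10) + (-61/2)*C + (57)*C^2 + (-40)*C^3) * ((((-1))*(p - 2*C)^2 - ((13/4) + (-10)*C)*(p - 2*C)*(1 + p*(1 - 2*C)) + (((13/4) + (-10)*C) - ((-1)))*(1 + p*(1 - 2*C))^2) + ((-5))*((p - 2*C)*((-23/20) - (p - 2*C)) + (1 + p*(1 - 2*C))*((13/20) - (1 + p*(1 - 2*C))))) := by rw [e]; exact add_nonneg (sq_nonneg _) hd
  exact (mul_nonneg_iff_of_pos_left (by linarith)).1 h3
lemma e1a_q4_al (C : ℝ) (h1 : (249/1000) ≤ C) (h2 : C ≤ (81/250)) : 0 < (5) + (-5/2)*C + (-19)*C^2 + (-20)*C^3 + (-40)*C^4 := by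
  have key : ∀ u v : ℝ, 0 ≤ u → 0 ≤ v → 0 ≤ (149130070664/2109375)*(u^0*v^4) + (168586461152/703125)*(u^1*v^3) + (67132237376/234375)*(u^2*v^2) + (285939405056/2109375)*(u^3*v^1) + (12764735488/703125)*(u^4*v^0) := by
    intro u v hu hv; positivity
  have h := key (C - (249/1000)) ((81/250) - C) (by linarith) (by linarith)
  have e : (5) + (-5/2)*C + (-19)*C^2 + (-20)*C^3 + (-40)*C^4 = (1/2) + ((149130070664/2109375)*((C - (249/1000))^0*((81/250) - C)^4) + (168586461152/703125)*((C - (249/1000))^1*((81/250) - C)^3) + (67132237376/234375)*((C - (249/1000))^2*((81/250) - C)^2) + (285939405056/2109375)*((C - (249/1000))^3*((81/250) - C)^1) + (12764735488/703125)*((C - (249/1000))^4*((81/250) - C)^0)) := by ring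
  rw [e]; linarith
lemma e1a_q4_dh (C : ℝ) (h1 : (249/1000) ≤ C) (h2 : C ≤ (81/250)) : 0 ≤ (-201/16) + (839/8)*C + (-3545/16)*C^2 + (-70)*C^3 + (400)*C^4 := by
  have key : ∀ u v : ℝ, 0 ≤ u → 0 ≤ v → 0 ≤ (3616674772/421875)*(u^0*v^4) + (20684562488/421875)*(u^1*v^3) + (10324960444/140625)*(u^2*v^2) + (16210024288/421875)*(u^3*v^1) + (2471780672/421875)*(u^4*v^0) := by
    intro u v hu hv; positivity
  have h := key (C - (249/1000)) ((81/250) - C) (by linarith) (by linarith)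
  have e : (-201/16) + (839/8)*C + (-3545/16)*C^2 + (-70)*C^3 + (400)*C^4 = (0) + ((3616674772/421875)*((C - (249/1000))^0*((81/250) - C)^4) + (20684562488/421875)*((C - (249/1000))^1*((81/250) - C)^3) + (10324960444/140625)*((C - (249/1000))^2*((81/250) - C)^2) + (16210024288/421875)*((C - (249/1000))^3*((81/250) - C)^1) + (2471780672/421875)*((C - (249/1000))^4*((81/250) - C)^0)) := by ring
  rw [e]; linarith
lemma e1a_q4_de (C : ℝ) (h1 : (249/1000) ≤ C) (h2 : C ≤ (81/250)) : 0 ≤ (-201/16) + (1241/8)*C + (-9453/16)*C^2 + (783/4)*C^3 + (12173/4)*C^4 + (-3187)*C^5 + (-6265)*C^6 + (5280)*C^7 + (6400)*C^8 := by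
  have h := e1a_q4_dh C h1 h2
  have e : (-201/16) + (1241/8)*C + (-9453/16)*C^2 + (783/4)*C^3 + (12173/4)*C^4 + (-3187)*C^5 + (-6265)*C^6 + (5280)*C^7 + (6400)*C^8 = ((-1) + (2)*C + (4)*C^2)^2 * ((-201/16) + (839/8)*C + (-3545/16)*C^2 + (-70)*C^3 + (400)*C^4) := by ring
  rw [e]; exact mul_nonneg (sq_nonneg _) h
lemma e1a_q4 (C m : ℝ) (h1 : (249/1000) ≤ C) (h2 : C ≤ (81/250)) : 0 ≤ (((-1))*(m - 2*C)^2 - ((13/4) + (-10)*C)*(m - 2*C)*(1 - m*(1 + 2*C)) - (((-1)) + ((13/4) + (-10)*C))*(1 - m*(1 + 2*C))^2) - ((5/2) + (-5)*C + (-10)*C^2)*((m - 2*C)*((-7/20) - (m - 2*C)) + (1 - m*(1 + 2*C))*((1/4) - (1 - m*(1 + 2*C)))) := by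
  have ha := e1a_q4_al C h1 h2
  have hd := e1a_q4_de C h1 h2
  have e : 4 * ((5) + (-5/2)*C + (-19)*C^2 + (-20)*C^3 + (-40)*C^4) * ((((-1))*(m - 2*C)^2 - ((13/4) + (-10)*C)*(m - 2*C)*(1 - m*(1 + 2*C)) - (((-1)) + ((13/4) + (-10)*C))*(1 - m*(1 + 2*C))^2) - ((5/2) + (-5)*C + (-10)*C^2)*((m - 2*C)*((-7/20) - (m - 2*C)) + (1 - m*(1 + 2*C))*((1/4) - (1 - m*(1 + 2*C))))) = (2 * ((5) + (-5/2)*C + (-19)*C^2 + (-20)*C^3 + (-40)*C^4) * m + ((-9/4) + (-61/4)*C + (37/2)*C^2 + (115)*C^3))^2 + ((-201/16) + (1241/8)*C + (-9453/16)*C^2 + (783/4)*C^3 + (12173/4)*C^4 + (-3187)*C^5 + (-6265)*C^6 + (5280)*C^7 + (6400)*C^8) := by ring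
  have h3 : 0 ≤ 4 * ((5) + (-5/2)*C + (-19)*C^2 + (-20)*C^3 + (-40)*C^4) * ((((-1))*(m - 2*C)^2 - ((13/4) + (-10)*C)*(m - 2*C)*(1 - m*(1 + 2*C)) - (((-1)) + ((13/4) + (-10)*C))*(1 - m*(1 + 2*C))^2) - ((5/2) + (-5)*C + (-10)*C^2)*((m - 2*C)*((-7/20) - (m - 2*C)) + (1 - m*(1 + 2*C))*((1/4) - (1 - m*(1 + 2*C))))) := by rw [e]; exact add_nonneg (sq_nonneg _) hd
  exact (mul_nonneg_iff_of_pos_left (by linarith)).1 h3
lemma e1a_main (C p m : ℝ) (h1 : (249/1000) ≤ C) (h2 : C ≤ (81/250))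
    (hS : 0 < ((p - 2*C)*((-23/20) - (p - 2*C)) + (1 + p*(1 - 2*C))*((13/20) - (1 + p*(1 - 2*C))))) (hT : 0 < ((m - 2*C)*((-7/20) - (m - 2*C)) + (1 - m*(1 + 2*C))*((1/4) - (1 - m*(1 + 2*C))))) :
    0 ≤ (((-1))*((13/20) - (1 + p*(1 - 2*C)))^2 + ((13/4) + (-10)*C)*((-23/20) - (p - 2*C))*((13/20) - (1 + p*(1 - 2*C))) + (((13/4) + (-10)*C) - ((-1)))*((-23/20) - (p - 2*C))^2) ∧
    0 ≤ (((-1))*((1/4) - (1 - m*(1 + 2*C)))^2 + ((13/4) + (-10)*C)*((-7/20) - (m - 2*C))*((1/4) - (1 - m*(1 + 2*C))) - (((-1)) + ((13/4) + (-10)*C))*((-7/20) - (m - 2*C))^2) ∧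
    0 < ((m - 2*C)*((-7/20) - (m - 2*C)) + (1 - m*(1 + 2*C))*((1/4) - (1 - m*(1 + 2*C)))) * (((-1))*(p - 2*C)^2 - ((13/4) + (-10)*C)*(p - 2*C)*(1 + p*(1 - 2*C)) + (((13/4) + (-10)*C) - ((-1)))*(1 + p*(1 - 2*C))^2) + ((p - 2*C)*((-23/20) - (p - 2*C)) + (1 + p*(1 - 2*C))*((13/20) - (1 + p*(1 - 2*C)))) * (((-1))*(m - 2*C)^2 - ((13/4) + (-10)*C)*(m - 2*C)*(1 - m*(1 + 2*C)) - (((-1)) + ((13/4) + (-10)*C))*(1 - m*(1 + 2*C))^2) := by
  have q1 := e1a_q1 C p h1 h2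
  have q2 := e1a_q2 C m h1 h2
  have q3 := e1a_q3 C p h1 h2
  have q4 := e1a_q4 C m h1 h2
  exact comb_ineq hS hT q1 q2 q3 q4 (by linarith) (by linarith) (by nlinarith)

lemma e2a_q1_al (C : ℝ) (h1 : (3/250) ≤ C) (h2 : C ≤ (17/125)) : 0 < (2/3) + (-2/3)*C + (-6)*C^2 + (12)*C^3 := by
  have key : ∀ u v : ℝ, 0 ≤ u → 0 ≤ v → 0 ≤ (24976097/89373)*(u^0*v^3) + (70246423/89373)*(u^1*v^2) + (61551419/89373)*(u^2*v^1) + (5784523/29791)*(u^3*v^0) := by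
    intro u v hu hv; positivity
  have h := key (C - (3/250)) ((17/125) - C) (by linarith) (by linarith)
  have e : (2/3) + (-2/3)*C + (-6)*C^2 + (12)*C^3 = (1/8) + ((24976097/89373)*((C - (3/250))^0*((17/125) - C)^3) + (70246423/89373)*((C - (3/250))^1*((17/125) - C)^2) + (61551419/89373)*((C - (3/250))^2*((17/125) - C)^1) + (5784523/29791)*((C - (3/250))^3*((17/125) - C)^0)) := by ring
  rw [e]; linarith
lemma e2a_q1_de (C : ℝ) (h1 : (3/250) ≤ C) (h2 : C ≤ (17/125)) : 0 ≤ (171/25)*C^2 + (276/25)*C^3 + (-63916/225)*C^4 + (12752/15)*C^5 + (-784)*C^6 := by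
  have key : ∀ u v : ℝ, 0 ≤ u → 0 ≤ v → 0 ≤ (243739214064/887503681)*(u^0*v^6) + (6519696325152/887503681)*(u^1*v^5) + (55243946138640/887503681)*(u^2*v^4) + (480008133483680/2662511043)*(u^3*v^3) + (1768816520009840/7987533129)*(u^4*v^2) + (977243191407808/7987533129)*(u^5*v^1) + (201476944627904/7987533129)*(u^6*v^0) := by
    intro u v hu hv; positivity
  have h := key (C - (3/250)) ((17/125) - C) (by linarith) (by linarith)
  have e : (171/25)*C^2 + (276/25)*C^3 + (-63916/225)*C^4 + (12752/15)*C^5 + (-784)*C^6 = (0) + ((243739214064/887503681)*((C - (3/250))^0*((17/125) - C)^6) + (6519696325152/887503681)*((C - (3/250))^1*((17/125) - C)^5) + (55243946138640/887503681)*((C - (3/250))^2*((17/125) - C)^4) + (480008133483680/2662511043)*((C - (3/250))^3*((17/125) - C)^3) + (1768816520009840/7987533129)*((C - (3/250))^4*((17/125) - C)^2) + (977243191407808/7987533129)*((C - (3/250))^5*((17/125)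 - C)^1) + (201476944627904/7987533129)*((C - (3/250))^6*((17/125) - C)^0)) := by ring
  rw [e]; linarith
lemma e2a_q1 (C p : ℝ) (h1 : (3/250) ≤ C) (h2 : C ≤ (17/125)) : 0 ≤ (((-1))*((11/10) - (1 + p*(1 - 2*C)))^2 + ((1/3) + (-5)*C)*((1/10) - (p - 2*C))*((11/10) - (1 + p*(1 - 2*C))) + (((1/3) + (-5)*C) - ((-1)))*((1/10) - (p - 2*C))^2) - ((3)*C)*((p - 2*C)*((1/10) - (p - 2*C)) + (1 + p*(1 - 2*C))*((11/10) - (1 + p*(1 - 2*C)))) := by
  have ha := e2a_q1_al C h1 h2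
  have hd := e2a_q1_de C h1 h2
  have e : 4 * ((2/3) + (-2/3)*C + (-6)*C^2 + (12)*C^3) * ((((-1))*((11/10) - (1 + p*(1 - 2*C)))^2 + ((1/3) + (-5)*C)*((1/10) - (p - 2*C))*((11/10) - (1 + p*(1 - 2*C))) + (((1/3) + (-5)*C) - ((-1)))*((1/10) - (p - 2*C))^2) - ((3)*C)*((p - 2*C)*((1/10) - (p - 2*C)) + (1 + p*(1 - 2*C))*((11/10) - (1 + p*(1 - 2*C))))) = (2 * ((2/3) + (-2/3)*C + (-6)*C^2 + (12)*C^3) * p + ((-2/15) + (-29/15)*C + (194/15)*C^2 + (-20)*C^3))^2 + ((171/25)*C^2 + (276/25)*C^3 + (-63916/225)*C^4 + (12752/15)*C^5 + (-784)*C^6) := by ring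
  have h3 : 0 ≤ 4 * ((2/3) + (-2/3)*C + (-6)*C^2 + (12)*C^3) * ((((-1))*((11/10) - (1 + p*(1 - 2*C)))^2 + ((1/3) + (-5)*C)*((1/10) - (p - 2*C))*((11/10) - (1 + p*(1 - 2*C))) + (((1/3) + (-5)*C) - ((-1)))*((1/10) - (p - 2*C))^2) - ((3)*C)*((p - 2*C)*((1/10) - (p - 2*C)) + (1 + p*(1 - 2*C))*((11/10) - (1 + p*(1 - 2*C))))) := by rw [e]; exact add_nonneg (sq_nonneg _) hd
  exact (mul_nonneg_iff_of_pos_left (by linarith)).1 h3
lemma e2a_q2_al (C : ℝ) (h1 : (3/250) ≤ C) (h2 : C ≤ (17/125)) : 0 < (2/15) + (104/15)*C + (38/5)*C^2 := by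
  have key : ∀ u v : ℝ, 0 ≤ u → 0 ≤ v → 0 ≤ (581729/57660)*(u^0*v^2) + (745379/9610)*(u^1*v^1) + (4328761/57660)*(u^2*v^0) := by
    intro u v hu hv; positivity
  have h := key (C - (3/250)) ((17/125) - C) (by linarith) (by linarith)
  have e : (2/15) + (104/15)*C + (38/5)*C^2 = (1/16) + ((581729/57660)*((C - (3/250))^0*((17/125) - C)^2) + (745379/9610)*((C - (3/250))^1*((17/125) - C)^1) + (4328761/57660)*((C - (3/250))^2*((17/125) - C)^0)) := by ring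
  rw [e]; linarith
lemma e2a_q2_de (C : ℝ) (h1 : (3/250) ≤ C) (h2 : C ≤ (17/125)) : 0 ≤ (44/5625) + (13852/5625)*C + (-49781/5625)*C^2 + (-45038/1125)*C^3 + (-30961/225)*C^4 + (-1256/3)*C^5 + (-400)*C^6 := by
  have key : ∀ u v : ℝ, 0 ≤ u → 0 ≤ v → 0 ≤ (79160064367100/7987533129)*(u^0*v^6) + (1083062989859800/7987533129)*(u^1*v^5) + (1291986598434500/2662511043)*(u^2*v^4) + (6058440318494000/7987533129)*(u^3*v^3) + (1492603366538000/2662511043)*(u^4*v^2) + (1314960032636800/7987533129)*(u^5*v^1) + (20338368454400/7987533129)*(u^6*v^0) := by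
    intro u v hu hv; positivity
  have h := key (C - (3/250)) ((17/125) - C) (by linarith) (by linarith)
  have e : (44/5625) + (13852/5625)*C + (-49781/5625)*C^2 + (-45038/1125)*C^3 + (-30961/225)*C^4 + (-1256/3)*C^5 + (-400)*C^6 = (0) + ((79160064367100/7987533129)*((C - (3/250))^0*((17/125) - C)^6) + (1083062989859800/7987533129)*((C - (3/250))^1*((17/125) - C)^5) + (1291986598434500/2662511043)*((C - (3/250))^2*((17/125) - C)^4) + (6058440318494000/7987533129)*((C - (3/250))^3*((17/125) - C)^3) + (1492603366538000/2662511043)*((C - (3/250))^4*((17/125) - C)^2) + (1314960032636800/7987533129)*((C - (3/250))^5*((17/125) - C)^1) + (20338368454400/7987533129)*((C - (3/250))^6*((17/125) - C)^0)) := by ring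
  rw [e]; linarith
lemma e2a_q2 (C m : ℝ) (h1 : (3/250) ≤ C) (h2 : C ≤ (17/125)) : 0 ≤ (((-1))*((9/10) - (1 - m*(1 + 2*C)))^2 + ((1/3) + (-5)*C)*((-3/10) - (m - 2*C))*((9/10) - (1 - m*(1 + 2*C))) - (((-1)) + ((1/3) + (-5)*C))*((-3/10) - (m - 2*C))^2) - ((2/5))*((m - 2*C)*((-3/10) - (m - 2*C)) + (1 - m*(1 + 2*C))*((9/10) - (1 - m*(1 + 2*C)))) := by
  have ha := e2a_q2_al C h1 h2
  have hd := e2a_q2_de C h1 h2
  have e : 4 * ((2/15) + (104/15)*C + (38/5)*C^2) * ((((-1))*((9/10) - (1 - m*(1 + 2*C)))^2 + ((1/3) + (-5)*C)*((-3/10) - (m - 2*C))*((9/10) - (1 - m*(1 + 2*C))) - (((-1)) + ((1/3) + (-5)*C))*((-3/10) - (m - 2*C))^2) - ((2/5))*((m - 2*C)*((-3/10) - (m - 2*C)) + (1 - m*(1 + 2*C))*((9/10) - (1 - m*(1 + 2*C))))) = (2 * ((2/15) + (104/15)*C + (38/5)*C^2) * m + ((16/75) + (-7/25)*C + (-77/3)*C^2 + (-20)*C^3))^2 + ((44/5625) + (13852/5625)*C + (-49781/5625)*C^2 + (-45038/1125)*C^3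 + (-30961/225)*C^4 + (-1256/3)*C^5 + (-400)*C^6) := by ring
  have h3 : 0 ≤ 4 * ((2/15) + (104/15)*C + (38/5)*C^2) * ((((-1))*((9/10) - (1 - m*(1 + 2*C)))^2 + ((1/3) + (-5)*C)*((-3/10) - (m - 2*C))*((9/10) - (1 - m*(1 + 2*C))) - (((-1)) + ((1/3) + (-5)*C))*((-3/10) - (m - 2*C))^2) - ((2/5))*((m - 2*C)*((-3/10) - (m - 2*C)) + (1 - m*(1 + 2*C))*((9/10) - (1 - m*(1 + 2*C))))) := by rw [e]; exact add_nonneg (sq_nonneg _) hd
  exact (mul_nonneg_iff_of_pos_left (by linarith)).1 h3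
lemma e2a_q3_al (C : ℝ) (h1 : (3/250) ≤ C) (h2 : C ≤ (17/125)) : 0 < (4) + (-38/3)*C + (70/3)*C^2 + (-20)*C^3 := by
  have key : ∀ u v : ℝ, 0 ≤ u → 0 ≤ v → 0 ≤ (46360/31)*(u^0*v^3) + (10662820/2883)*(u^1*v^2) + (2972320/961)*(u^2*v^1) + (2507960/2883)*(u^3*v^0) := by
    intro u v hu hv; positivity
  have h := key (C - (3/250)) ((17/125) - C) (by linarith) (by linarith)
  have e : (4) + (-38/3)*C + (70/3)*C^2 + (-20)*C^3 = (1) + ((46360/31)*((C - (3/250))^0*((17/125) - C)^3) + (10662820/2883)*((C - (3/250))^1*((17/125) - C)^2) + (2972320/961)*((C - (3/250))^2*((17/125) - C)^1) + (2507960/2883)*((C - (3/250))^3*((17/125) - C)^0)) := by ring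
  rw [e]; linarith
lemma e2a_q3_de (C : ℝ) (h1 : (3/250) ≤ C) (h2 : C ≤ (17/125)) : 0 ≤ (599/225) + (3482/225)*C + (-35381/225)*C^2 + (-532/45)*C^3 + (3332/9)*C^4 + (400/3)*C^5 + (-400)*C^6 := by
  have key : ∀ u v : ℝ, 0 ≤ u → 0 ≤ v → 0 ≤ (6207873769775600/7987533129)*(u^0*v^6) + (40434775993440800/7987533129)*(u^1*v^5) + (103739596739906000/7987533129)*(u^2*v^4) + (134793769035524000/7987533129)*(u^3*v^3) + (93369410316454000/7987533129)*(u^4*v^2) + (10798665571241600/2662511043)*(u^5*v^1) + (4304465903302400/7987533129)*(u^6*v^0) := by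
    intro u v hu hv; positivity
  have h := key (C - (3/250)) ((17/125) - C) (by linarith) (by linarith)
  have e : (599/225) + (3482/225)*C + (-35381/225)*C^2 + (-532/45)*C^3 + (3332/9)*C^4 + (400/3)*C^5 + (-400)*C^6 = (0) + ((6207873769775600/7987533129)*((C - (3/250))^0*((17/125) - C)^6) + (40434775993440800/7987533129)*((C - (3/250))^1*((17/125) - C)^5) + (103739596739906000/7987533129)*((C - (3/250))^2*((17/125) - C)^4) + (134793769035524000/7987533129)*((C - (3/250))^3*((17/125) - C)^3) + (93369410316454000/7987533129)*((C - (3/250))^4*((17/125) - C)^2) + (10798665571241600/2662511043)*((C - (3/250))^5*((17/125) - C)^1) + (4304465903302400/7987533129)*((C - (3/250))^6*((17/125) - C)^0)) := by ring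
  rw [e]; linarith
lemma e2a_q3 (C p : ℝ) (h1 : (3/250) ≤ C) (h2 : C ≤ (17/125)) : 0 ≤ (((-1))*(p - 2*C)^2 - ((1/3) + (-5)*C)*(p - 2*C)*(1 + p*(1 - 2*C)) + (((1/3) + (-5)*C) - ((-1)))*(1 + p*(1 - 2*C))^2) + ((-2))*((p - 2*C)*((1/10) - (p - 2*C)) + (1 + p*(1 - 2*C))*((11/10) - (1 + p*(1 - 2*C)))) := by
  have ha := e2a_q3_al C h1 h2
  have hd := e2a_q3_de C h1 h2
  have e : 4 * ((4) + (-38/3)*C + (70/3)*C^2 + (-20)*C^3) * ((((-1))*(p - 2*C)^2 - ((1/3) + (-5)*C)*(p - 2*C)*(1 + p*(1 - 2*C)) + (((1/3) + (-5)*C) - ((-1)))*(1 + p*(1 - 2*C))^2) + ((-2))*((p - 2*C)*((1/10) - (p - 2*C)) + (1 + p*(1 - 2*C))*((11/10) - (1 + p*(1 - 2*C))))) = (2 * ((4) + (-38/3)*C + (70/3)*C^2 + (-20)*C^3) * p + ((59/15) + (-259/15)*C + (26/3)*C^2 + (20)*C^3))^2 + ((599/225) + (3482/225)*C + (-35381/225)*C^2 + (-532/45)*C^3 + (3332/9)*C^4 + (400/3)*C^5 + (-400)*C^6) := by ring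
  have h3 : 0 ≤ 4 * ((4) + (-38/3)*C + (70/3)*C^2 + (-20)*C^3) * ((((-1))*(p - 2*C)^2 - ((1/3) + (-5)*C)*(p - 2*C)*(1 + p*(1 - 2*C)) + (((1/3) + (-5)*C) - ((-1)))*(1 + p*(1 - 2*C))^2) + ((-2))*((p - 2*C)*((1/10) - (p - 2*C)) + (1 + p*(1 - 2*C))*((11/10) - (1 + p*(1 - 2*C))))) := by rw [e]; exact add_nonneg (sq_nonneg _) hd
  exact (mul_nonneg_iff_of_pos_left (by linarith)).1 h3
lemma e2a_q4_al (C : ℝ) (h1 : (3/250) ≤ C) (h2 : C ≤ (17/125)) : 0 < (2) + (22/3)*C + (50/3)*C^2 + (20)*C^3 := by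
  have key : ∀ u v : ℝ, 0 ≤ u → 0 ≤ v → 0 ≤ (17038040/29791)*(u^0*v^3) + (198342580/89373)*(u^1*v^2) + (255874240/89373)*(u^2*v^1) + (36811080/29791)*(u^3*v^0) := by
    intro u v hu hv; positivity
  have h := key (C - (3/250)) ((17/125) - C) (by linarith) (by linarith)
  have e : (2) + (22/3)*C + (50/3)*C^2 + (20)*C^3 = (1) + ((17038040/29791)*((C - (3/250))^0*((17/125) - C)^3) + (198342580/89373)*((C - (3/250))^1*((17/125) - C)^2) + (255874240/89373)*((C - (3/250))^2*((17/125) - C)^1) + (36811080/29791)*((C - (3/250))^3*((17/125) - C)^0)) := by ring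
  rw [e]; linarith
lemma e2a_q4_de (C : ℝ) (h1 : (3/250) ≤ C) (h2 : C ≤ (17/125)) : 0 ≤ (11/225) + (2488/225)*C + (-10604/225)*C^2 + (-1544/45)*C^3 + (284/9)*C^4 + (-1040/3)*C^5 + (-400)*C^6 := by
  have key : ∀ u v : ℝ, 0 ≤ u → 0 ≤ v → 0 ≤ (383943470585600/7987533129)*(u^0*v^6) + (5004305519900800/7987533129)*(u^1*v^5) + (5876367256402000/2662511043)*(u^2*v^4) + (28012675955624000/7987533129)*(u^3*v^3) + (7517486287568000/2662511043)*(u^4*v^2) + (8841244252604800/7987533129)*(u^5*v^1) + (1289526612382400/7987533129)*(u^6*v^0) := by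
    intro u v hu hv; positivity
  have h := key (C - (3/250)) ((17/125) - C) (by linarith) (by linarith)
  have e : (11/225) + (2488/225)*C + (-10604/225)*C^2 + (-1544/45)*C^3 + (284/9)*C^4 + (-1040/3)*C^5 + (-400)*C^6 = (0) + ((383943470585600/7987533129)*((C - (3/250))^0*((17/125) - C)^6) + (5004305519900800/7987533129)*((C - (3/250))^1*((17/125) - C)^5) + (5876367256402000/2662511043)*((C - (3/250))^2*((17/125) - C)^4) + (28012675955624000/7987533129)*((C - (3/250))^3*((17/125) - C)^3) + (7517486287568000/2662511043)*((C - (3/250))^4*((17/125) - C)^2) + (8841244252604800/7987533129)*((C - (3/250))^5*((17/125) - C)^1) + (1289526612382400/7987533129)*((C - (3/250))^6*((17/125) - C)^0)) := by ring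
  rw [e]; linarith
lemma e2a_q4 (C m : ℝ) (h1 : (3/250) ≤ C) (h2 : C ≤ (17/125)) : 0 ≤ (((-1))*(m - 2*C)^2 - ((1/3) + (-5)*C)*(m - 2*C)*(1 - m*(1 + 2*C)) - (((-1)) + ((1/3) + (-5)*C))*(1 - m*(1 + 2*C))^2) - ((1))*((m - 2*C)*((-3/10) - (m - 2*C)) + (1 - m*(1 + 2*C))*((9/10) - (1 - m*(1 + 2*C)))) := by
  have ha := e2a_q4_al C h1 h2
  have hd := e2a_q4_de C h1 h2
  have e : 4 * ((2) + (22/3)*C + (50/3)*C^2 + (20)*C^3) * ((((-1))*(m - 2*C)^2 - ((1/3) + (-5)*C)*(m - 2*C)*(1 - m*(1 + 2*C)) - (((-1)) + ((1/3) + (-5)*C))*(1 - m*(1 + 2*C))^2) - ((1))*((m - 2*C)*((-3/10) - (m - 2*C)) + (1 - m*(1 + 2*C))*((9/10) - (1 - m*(1 + 2*C))))) = (2 * ((2) + (22/3)*C + (50/3)*C^2 + (20)*C^3) * m + ((-37/15) + (-158/15)*C + (-34/3)*C^2 + (20)*C^3))^2 + ((11/225) + (2488/225)*C + (-10604/225)*C^2 + (-1544/45)*C^3 + (284/9)*C^4 + (-1040/3)*C^5 + (-400)*C^6) := by ring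
  have h3 : 0 ≤ 4 * ((2) + (22/3)*C + (50/3)*C^2 + (20)*C^3) * ((((-1))*(m - 2*C)^2 - ((1/3) + (-5)*C)*(m - 2*C)*(1 - m*(1 + 2*C)) - (((-1)) + ((1/3) + (-5)*C))*(1 - m*(1 + 2*C))^2) - ((1))*((m - 2*C)*((-3/10) - (m - 2*C)) + (1 - m*(1 + 2*C))*((9/10) - (1 - m*(1 + 2*C))))) := by rw [e]; exact add_nonneg (sq_nonneg _) hd
  exact (mul_nonneg_iff_of_pos_left (by linarith)).1 h3
lemma e2a_main (C p m : ℝ) (h1 : (3/250) ≤ C) (h2 : C ≤ (17/125))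
    (hS : 0 < ((p - 2*C)*((1/10) - (p - 2*C)) + (1 + p*(1 - 2*C))*((11/10) - (1 + p*(1 - 2*C))))) (hT : 0 < ((m - 2*C)*((-3/10) - (m - 2*C)) + (1 - m*(1 + 2*C))*((9/10) - (1 - m*(1 + 2*C))))) :
    0 ≤ (((-1))*((11/10) - (1 + p*(1 - 2*C)))^2 + ((1/3) + (-5)*C)*((1/10) - (p - 2*C))*((11/10) - (1 + p*(1 - 2*C))) + (((1/3) + (-5)*C) - ((-1)))*((1/10) - (p - 2*C))^2) ∧
    0 ≤ (((-1))*((9/10) - (1 - m*(1 + 2*C)))^2 + ((1/3) + (-5)*C)*((-3/10) - (m - 2*C))*((9/10) - (1 - m*(1 + 2*C))) - (((-1)) + ((1/3) + (-5)*C))*((-3/10) - (m - 2*C))^2) ∧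
    0 < ((m - 2*C)*((-3/10) - (m - 2*C)) + (1 - m*(1 + 2*C))*((9/10) - (1 - m*(1 + 2*C)))) * (((-1))*(p - 2*C)^2 - ((1/3) + (-5)*C)*(p - 2*C)*(1 + p*(1 - 2*C)) + (((1/3) + (-5)*C) - ((-1)))*(1 + p*(1 - 2*C))^2) + ((p - 2*C)*((1/10) - (p - 2*C)) + (1 + p*(1 - 2*C))*((11/10) - (1 + p*(1 - 2*C)))) * (((-1))*(m - 2*C)^2 - ((1/3) + (-5)*C)*(m - 2*C)*(1 - m*(1 + 2*C)) - (((-1)) + ((1/3) + (-5)*C))*(1 - m*(1 + 2*C))^2) := by
  have q1 := e2a_q1 C p h1 h2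
  have q2 := e2a_q2 C m h1 h2
  have q3 := e2a_q3 C p h1 h2
  have q4 := e2a_q4 C m h1 h2
  exact comb_ineq hS hT q1 q2 q3 q4 (by linarith) (by norm_num) (by norm_num)

lemma e2b_q2_al (C : ℝ) (h1 : (443/1000) ≤ C) (h2 : C ≤ (241/500)) : 0 < (4) + (16)*C + (20)*C^2 := by
  have key : ∀ u v : ℝ, 0 ≤ u → 0 ≤ v → 0 ≤ (14012980/1521)*(u^0*v^2) + (29341040/1521)*(u^1*v^1) + (15358480/1521)*(u^2*v^0) := by
    intro u v hu hv; positivity
  have h := key (C - (443/1000)) ((241/500) - C) (by linarith) (by linarith)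
  have e : (4) + (16)*C + (20)*C^2 = (1) + ((14012980/1521)*((C - (443/1000))^0*((241/500) - C)^2) + (29341040/1521)*((C - (443/1000))^1*((241/500) - C)^1) + (15358480/1521)*((C - (443/1000))^2*((241/500) - C)^0)) := by ring
  rw [e]; linarith
lemma e2b_q2_de (C : ℝ) (h1 : (443/1000) ≤ C) (h2 : C ≤ (241/500)) : 0 ≤ (-704/25) + (-2272/25)*C + (2816/25)*C^2 + (2432/5)*C^3 + (256)*C^4 := by
  have key : ∀ u v : ℝ, 0 ≤ u → 0 ≤ v → 0 ≤ (5831939405056/2313441)*(u^0*v^4) + (38315863499776/2313441)*(u^1*v^3) + (27189660250112/771147)*(u^2*v^2) + (71573890379776/2313441)*(u^3*v^1) + (22489425965056/2313441)*(u^4*v^0) := by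
    intro u v hu hv; positivity
  have h := key (C - (443/1000)) ((241/500) - C) (by linarith) (by linarith)
  have e : (-704/25) + (-2272/25)*C + (2816/25)*C^2 + (2432/5)*C^3 + (256)*C^4 = (0) + ((5831939405056/2313441)*((C - (443/1000))^0*((241/500) - C)^4) + (38315863499776/2313441)*((C - (443/1000))^1*((241/500) - C)^3) + (27189660250112/771147)*((C - (443/1000))^2*((241/500) - C)^2) + (71573890379776/2313441)*((C - (443/1000))^3*((241/500) - C)^1) + (22489425965056/2313441)*((C - (443/1000))^4*((241/500) - C)^0)) := by ring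
  rw [e]; linarith
lemma e2b_q2 (C m : ℝ) (h1 : (443/1000) ≤ C) (h2 : C ≤ (241/500)) : 0 ≤ (((1))*((9/10) - (1 - m*(1 + 2*C)))^2 + ((2))*((-3/10) - (m - 2*C))*((9/10) - (1 - m*(1 + 2*C))) - (((1)) + ((2)))*((-3/10) - (m - 2*C))^2) - ((4))*((m - 2*C)*((-3/10) - (m - 2*C)) + (1 - m*(1 + 2*C))*((9/10) - (1 - m*(1 + 2*C)))) := by
  have ha := e2b_q2_al C h1 h2
  have hd := e2b_q2_de C h1 h2
  have e : 4 * ((4) + (16)*C + (20)*C^2) * ((((1))*((9/10) - (1 - m*(1 + 2*C)))^2 + ((2))*((-3/10) - (m - 2*C))*((9/10) - (1 - m*(1 + 2*C))) - (((1)) + ((2)))*((-3/10) - (m - 2*C))^2) - ((4))*((m - 2*C)*((-3/10) - (m - 2*C)) + (1 - m*(1 + 2*C))*((9/10) - (1 - m*(1 + 2*C))))) = (2 * ((4) + (16)*C + (20)*C^2) * m + ((-28/5) + (-52/5)*C + (8)*C^2))^2 + ((-704/25) + (-2272/25)*C + (2816/25)*C^2 + (2432/5)*C^3 + (256)*C^4) := by ring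
  have h3 : 0 ≤ 4 * ((4) + (16)*C + (20)*C^2) * ((((1))*((9/10) - (1 - m*(1 + 2*C)))^2 + ((2))*((-3/10) - (m - 2*C))*((9/10) - (1 - m*(1 + 2*C))) - (((1)) + ((2)))*((-3/10) - (m - 2*C))^2) - ((4))*((m - 2*C)*((-3/10) - (m - 2*C)) + (1 - m*(1 + 2*C))*((9/10) - (1 - m*(1 + 2*C))))) := by rw [e]; exact add_nonneg (sq_nonneg _) hd
  exact (mul_nonneg_iff_of_pos_left (by linarith)).1 h3
lemma e2b_q4_al (C : ℝ) (h1 : (443/1000) ≤ C) (h2 : C ≤ (241/500)) : 0 < (4) + (-4)*C^2 := by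
  have key : ∀ u v : ℝ, 0 ≤ u → 0 ≤ v → 0 ≤ (2215004/1521)*(u^0*v^2) + (4291792/1521)*(u^1*v^1) + (2070704/1521)*(u^2*v^0) := by
    intro u v hu hv; positivity
  have h := key (C - (443/1000)) ((241/500) - C) (by linarith) (by linarith)
  have e : (4) + (-4)*C^2 = (1) + ((2215004/1521)*((C - (443/1000))^0*((241/500) - C)^2) + (4291792/1521)*((C - (443/1000))^1*((241/500) - C)^1) + (2070704/1521)*((C - (443/1000))^2*((241/500) - C)^0)) := by ring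
  rw [e]; linarith
lemma e2b_q4_de (C : ℝ) (h1 : (443/1000) ≤ C) (h2 : C ≤ (241/500)) : 0 ≤ (-1264/25) + (2128/25)*C + (5116/25)*C^2 + (-896/5)*C^3 + (-256)*C^4 := by
  have key : ∀ u v : ℝ, 0 ≤ u → 0 ≤ v → 0 ≤ (1869711225344/2313441)*(u^0*v^4) + (10283052199424/2313441)*(u^1*v^3) + (6373807429888/771147)*(u^2*v^2) + (14834993921024/2313441)*(u^3*v^1) + (4126320364544/2313441)*(u^4*v^0) := by
    intro u v hu hv; positivity
  have h := key (C - (443/1000)) ((241/500) - C) (by linarith) (by linarith)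
  have e : (-1264/25) + (2128/25)*C + (5116/25)*C^2 + (-896/5)*C^3 + (-256)*C^4 = (0) + ((1869711225344/2313441)*((C - (443/1000))^0*((241/500) - C)^4) + (10283052199424/2313441)*((C - (443/1000))^1*((241/500) - C)^3) + (6373807429888/771147)*((C - (443/1000))^2*((241/500) - C)^2) + (14834993921024/2313441)*((C - (443/1000))^3*((241/500) - C)^1) + (4126320364544/2313441)*((C - (443/1000))^4*((241/500) - C)^0)) := by ring
  rw [e]; linarith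
lemma e2b_q4 (C m : ℝ) (h1 : (443/1000) ≤ C) (h2 : C ≤ (241/500)) : 0 ≤ (((1))*(m - 2*C)^2 - ((2))*(m - 2*C)*(1 - m*(1 + 2*C)) - (((1)) + ((2)))*(1 - m*(1 + 2*C))^2) - ((2))*((m - 2*C)*((-3/10) - (m - 2*C)) + (1 - m*(1 + 2*C))*((9/10) - (1 - m*(1 + 2*C)))) := by
  have ha := e2b_q4_al C h1 h2
  have hd := e2b_q4_de C h1 h2
  have e : 4 * ((4) + (-4)*C^2) * ((((1))*(m - 2*C)^2 - ((2))*(m - 2*C)*(1 - m*(1 + 2*C)) - (((1)) + ((2)))*(1 - m*(1 + 2*C))^2) - ((2))*((m - 2*C)*((-3/10) - (m - 2*C)) + (1 - m*(1 + 2*C))*((9/10) - (1 - m*(1 + 2*C))))) = (2 * ((4) + (-4)*C^2) * m + ((12/5) + (-42/5)*C + (-8)*C^2))^2 + ((-1264/25) + (2128/25)*C + (5116/25)*C^2 + (-896/5)*C^3 + (-256)*C^4) := by ring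
  have h3 : 0 ≤ 4 * ((4) + (-4)*C^2) * ((((1))*(m - 2*C)^2 - ((2))*(m - 2*C)*(1 - m*(1 + 2*C)) - (((1)) + ((2)))*(1 - m*(1 + 2*C))^2) - ((2))*((m - 2*C)*((-3/10) - (m - 2*C)) + (1 - m*(1 + 2*C))*((9/10) - (1 - m*(1 + 2*C))))) := by rw [e]; exact add_nonneg (sq_nonneg _) hd
  exact (mul_nonneg_iff_of_pos_left (by linarith)).1 h3
lemma e2b_main (C p m : ℝ) (h1 : (443/1000) ≤ C) (h2 : C ≤ (241/500))
    (hS : 0 < ((p - 2*C)*((1/10) - (p - 2*C)) + (1 + p*(1 - 2*C))*((11/10) - (1 + p*(1 - 2*C))))) (hT : 0 < ((m - 2*C)*((-3/10) - (m - 2*C)) + (1 - m*(1 + 2*C))*((9/10) - (1 - m*(1 + 2*C))))) :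
    0 ≤ (((1))*((11/10) - (1 + p*(1 - 2*C)))^2 + ((2))*((1/10) - (p - 2*C))*((11/10) - (1 + p*(1 - 2*C))) + (((2)) - ((1)))*((1/10) - (p - 2*C))^2) ∧
    0 ≤ (((1))*((9/10) - (1 - m*(1 + 2*C)))^2 + ((2))*((-3/10) - (m - 2*C))*((9/10) - (1 - m*(1 + 2*C))) - (((1)) + ((2)))*((-3/10) - (m - 2*C))^2) ∧
    0 < ((m - 2*C)*((-3/10) - (m - 2*C)) + (1 - m*(1 + 2*C))*((9/10) - (1 - m*(1 + 2*C)))) * (((1))*(p - 2*C)^2 - ((2))*(p - 2*C)*(1 + p*(1 - 2*C)) + (((2)) - ((1)))*(1 + p*(1 - 2*C))^2) + ((p - 2*C)*((1/10) - (p - 2*C)) + (1 + p*(1 - 2*C))*((11/10) - (1 + p*(1 - 2*C)))) * (((1))*(m - 2*C)^2 - ((2))*(m - 2*C)*(1 - m*(1 + 2*C)) - (((1)) + ((2)))*(1 - m*(1 + 2*C))^2) := by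
  have q1 : 0 ≤ (((1))*((11/10) - (1 + p*(1 - 2*C)))^2 + ((2))*((1/10) - (p - 2*C))*((11/10) - (1 + p*(1 - 2*C))) + (((2)) - ((1)))*((1/10) - (p - 2*C))^2) - (0)*((p - 2*C)*((1/10) - (p - 2*C)) + (1 + p*(1 - 2*C))*((11/10) - (1 + p*(1 - 2*C)))) := by
    have e : (((1))*((11/10) - (1 + p*(1 - 2*C)))^2 + ((2))*((1/10) - (p - 2*C))*((11/10) - (1 + p*(1 - 2*C))) + (((2)) - ((1)))*((1/10) - (p - 2*C))^2) - (0)*((p - 2*C)*((1/10) - (p - 2*C)) + (1 + p*(1 - 2*C))*((11/10) - (1 + p*(1 - 2*C)))) = ((1/10 + 11/10) - (p - 2*C) - 1 - p*(1 - 2*C))^2 := by ring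
    rw [e]; exact sq_nonneg _
  have q2 := e2b_q2 C m h1 h2
  have q3 : 0 ≤ (((1))*(p - 2*C)^2 - ((2))*(p - 2*C)*(1 + p*(1 - 2*C)) + (((2)) - ((1)))*(1 + p*(1 - 2*C))^2) + (0)*((p - 2*C)*((1/10) - (p - 2*C)) + (1 + p*(1 - 2*C))*((11/10) - (1 + p*(1 - 2*C)))) := by
    have e : (((1))*(p - 2*C)^2 - ((2))*(p - 2*C)*(1 + p*(1 - 2*C)) + (((2)) - ((1)))*(1 + p*(1 - 2*C))^2) + (0)*((p - 2*C)*((1/10) - (p - 2*C)) + (1 + p*(1 - 2*C))*((11/10) - (1 + p*(1 - 2*C)))) = ((p - 2*C) - 1 - p*(1 - 2*C))^2 := by ring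
    rw [e]; exact sq_nonneg _
  have q4 := e2b_q4 C m h1 h2
  exact comb_ineq hS hT q1 q2 q3 q4 (by norm_num) (by norm_num) (by norm_num)

lemma e1_Ds0 (C : ℝ) (h1 : (-1) ≤ C) (h2 : C ≤ (-1/2)) : 0 ≤ (-69/20) + (19/2)*C + (2951/100)*C^2 + (-504/5)*C^3 + (64)*C^4 := by
  have key : ∀ u v : ℝ, 0 ≤ u → 0 ≤ v → 0 ≤ (72544/25)*(u^0*v^4) + (168592/25)*(u^1*v^3) + (142103/25)*(u^2*v^2) + (50766/25)*(u^3*v^1) + (6311/25)*(u^4*v^0) := by
    intro u v hu hv; positivity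
  have h := key (C - (-1)) ((-1/2) - C) (by linarith) (by linarith)
  have e : (-69/20) + (19/2)*C + (2951/100)*C^2 + (-504/5)*C^3 + (64)*C^4 = (0) + ((72544/25)*((C - (-1))^0*((-1/2) - C)^4) + (168592/25)*((C - (-1))^1*((-1/2) - C)^3) + (142103/25)*((C - (-1))^2*((-1/2) - C)^2) + (50766/25)*((C - (-1))^3*((-1/2) - C)^1) + (6311/25)*((C - (-1))^4*((-1/2) - C)^0)) := by ring
  rw [e]; linarith
lemma e1_Dt1 (C : ℝ) (h1 : (-1/2) ≤ C) (h2 : C ≤ (249/1000)) : 0 ≤ (101/25) + (-73/5)*C + (-469/20)*C^2 + (264/5)*C^3 + (64)*C^4 := by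
  have key : ∀ u v : ℝ, 0 ≤ u → 0 ≤ v → 0 ≤ (2877500000000/314722122001)*(u^0*v^4) + (23831050000000/314722122001)*(u^1*v^3) + (50497493350000/314722122001)*(u^2*v^2) + (9413567575200/314722122001)*(u^3*v^1) + (11840033264/314722122001)*(u^4*v^0) := by
    intro u v hu hv; positivity
  have h := key (C - (-1/2)) ((249/1000) - C) (by linarith) (by linarith)
  have e : (101/25) + (-73/5)*C + (-469/20)*C^2 + (264/5)*C^3 + (64)*C^4 = (0) + ((2877500000000/314722122001)*((C - (-1/2))^0*((249/1000) - C)^4) + (23831050000000/314722122001)*((C - (-1/2))^1*((249/1000) - C)^3) + (50497493350000/314722122001)*((C - (-1/2))^2*((249/1000) - C)^2) + (9413567575200/314722122001)*((C - (-1/2))^3*((249/1000) - C)^1) + (11840033264/314722122001)*((C - (-1/2))^4*((249/1000) - C)^0)) := by ring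
  rw [e]; linarith
lemma e1_Ds2 (C : ℝ) (h1 : (81/250) ≤ C) (h2 : C ≤ (12/25)) : 0 ≤ (-69/20) + (19/2)*C + (2951/100)*C^2 + (-504/5)*C^3 + (64)*C^4 := by
  have key : ∀ u v : ℝ, 0 ≤ u → 0 ≤ v → 0 ≤ (3498773/771147)*(u^0*v^4) + (1148421190/771147)*(u^1*v^3) + (844017275/257049)*(u^2*v^2) + (1544568500/771147)*(u^3*v^1) + (206792500/771147)*(u^4*v^0) := by
    intro u v hu hv; positivity
  have h := key (C - (81/250)) ((12/25) - C) (by linarith) (by linarith)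
  have e : (-69/20) + (19/2)*C + (2951/100)*C^2 + (-504/5)*C^3 + (64)*C^4 = (0) + ((3498773/771147)*((C - (81/250))^0*((12/25) - C)^4) + (1148421190/771147)*((C - (81/250))^1*((12/25) - C)^3) + (844017275/257049)*((C - (81/250))^2*((12/25) - C)^2) + (1544568500/771147)*((C - (81/250))^3*((12/25) - C)^1) + (206792500/771147)*((C - (81/250))^4*((12/25) - C)^0)) := by ring
  rw [e]; linarith
lemma e1_Dt3 (C : ℝ) (h1 : (12/25) ≤ C) (h2 : C ≤ (1)) : 0 ≤ (101/25) + (-73/5)*C + (-469/20)*C^2 + (264/5)*C^3 + (64)*C^4 := by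
  have key : ∀ u v : ℝ, 0 ≤ u → 0 ≤ v → 0 ≤ (338189/28561)*(u^0*v^4) + (6978285/28561)*(u^1*v^3) + (135218875/114244)*(u^2*v^2) + (115353125/57122)*(u^3*v^1) + (129359375/114244)*(u^4*v^0) := by
    intro u v hu hv; positivity
  have h := key (C - (12/25)) ((1) - C) (by linarith) (by linarith)
  have e : (101/25) + (-73/5)*C + (-469/20)*C^2 + (264/5)*C^3 + (64)*C^4 = (0) + ((338189/28561)*((C - (12/25))^0*((1) - C)^4) + (6978285/28561)*((C - (12/25))^1*((1) - C)^3) + (135218875/114244)*((C - (12/25))^2*((1) - C)^2) + (115353125/57122)*((C - (12/25))^3*((1) - C)^1) + (129359375/114244)*((C - (12/25))^4*((1) - C)^0)) := by ring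
  rw [e]; linarith
lemma e2_Ds0 (C : ℝ) (h1 : (-1) ≤ C) (h2 : C ≤ (-49/100)) : 0 ≤ (-36/25) + (312/25)*C + (-161/25)*C^2 + (-304/5)*C^3 + (64)*C^4 := by
  have key : ∀ u v : ℝ, 0 ≤ u → 0 ≤ v → 0 ≤ (10444000000/6765201)*(u^0*v^4) + (20710960000/6765201)*(u^1*v^3) + (4677813200/2255067)*(u^2*v^2) + (3507615520/6765201)*(u^3*v^1) + (174108784/6765201)*(u^4*v^0) := by
    intro u v hu hv; positivity
  have h := key (C - (-1)) ((-49/100) - C) (by linarith) (by linarith)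
  have e : (-36/25) + (312/25)*C + (-161/25)*C^2 + (-304/5)*C^3 + (64)*C^4 = (0) + ((10444000000/6765201)*((C - (-1))^0*((-49/100) - C)^4) + (20710960000/6765201)*((C - (-1))^1*((-49/100) - C)^3) + (4677813200/2255067)*((C - (-1))^2*((-49/100) - C)^2) + (3507615520/6765201)*((C - (-1))^3*((-49/100) - C)^1) + (174108784/6765201)*((C - (-1))^4*((-49/100) - C)^0)) := by ring
  rw [e]; linarith
lemma e2_Dt1 (C : ℝ) (h1 : (-49/100) ≤ C) (h2 : C ≤ (3/250)) : 0 ≤ (4/25) + (-328/25)*C + (-361/25)*C^2 + (272/5)*C^3 + (64)*C^4 := by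
  have key : ∀ u v : ℝ, 0 ≤ u → 0 ≤ v → 0 ≤ (25695190000/3969126001)*(u^0*v^4) + (419585932000/3969126001)*(u^1*v^3) + (1069784903600/3969126001)*(u^2*v^2) + (421906095680/3969126001)*(u^3*v^1) + (35998144/3969126001)*(u^4*v^0) := by
    intro u v hu hv; positivity
  have h := key (C - (-49/100)) ((3/250) - C) (by linarith) (by linarith)
  have e : (4/25) + (-328/25)*C + (-361/25)*C^2 + (272/5)*C^3 + (64)*C^4 = (0) + ((25695190000/3969126001)*((C - (-49/100))^0*((3/250) - C)^4) + (419585932000/3969126001)*((C - (-49/100))^1*((3/250) - C)^3) + (1069784903600/3969126001)*((C - (-49/100))^2*((3/250) - C)^2) + (421906095680/3969126001)*((C - (-49/100))^3*((3/250) - C)^1) + (35998144/3969126001)*((C - (-49/100))^4*((3/250) - C)^0)) := by ring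
  rw [e]; linarith
lemma e2_Ds2 (C : ℝ) (h1 : (17/125) ≤ C) (h2 : C ≤ (443/1000)) : 0 ≤ (-36/25) + (312/25)*C + (-161/25)*C^2 + (-304/5)*C^3 + (64)*C^4 := by
  have key : ∀ u v : ℝ, 0 ≤ u → 0 ≤ v → 0 ≤ (7120564224/8882874001)*(u^0*v^4) + (2484054402048/8882874001)*(u^1*v^3) + (5133897996736/8882874001)*(u^2*v^2) + (2092282477312/8882874001)*(u^3*v^1) + (3822254464/8882874001)*(u^4*v^0) := by
    intro u v hu hv; positivity
  have h := key (C - (17/125)) ((443/1000) - C) (by linarith) (by linarith)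
  have e : (-36/25) + (312/25)*C + (-161/25)*C^2 + (-304/5)*C^3 + (64)*C^4 = (0) + ((7120564224/8882874001)*((C - (17/125))^0*((443/1000) - C)^4) + (2484054402048/8882874001)*((C - (17/125))^1*((443/1000) - C)^3) + (5133897996736/8882874001)*((C - (17/125))^2*((443/1000) - C)^2) + (2092282477312/8882874001)*((C - (17/125))^3*((443/1000) - C)^1) + (3822254464/8882874001)*((C - (17/125))^4*((443/1000) - C)^0)) := by ring
  rw [e]; linarith
lemma e2_Dt3 (C : ℝ) (h1 : (241/500) ≤ C) (h2 : C ≤ (1)) : 0 ≤ (4/25) + (-328/25)*C + (-361/25)*C^2 + (272/5)*C^3 + (64)*C^4 := by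
  have key : ∀ u v : ℝ, 0 ≤ u → 0 ≤ v → 0 ≤ (715504/1874161)*(u^0*v^4) + (183863605600/642837223)*(u^1*v^3) + (917709770000/642837223)*(u^2*v^2) + (1505450000000/642837223)*(u^3*v^1) + (812500000000/642837223)*(u^4*v^0) := by
    intro u v hu hv; positivity
  have h := key (C - (241/500)) ((1) - C) (by linarith) (by linarith)
  have e : (4/25) + (-328/25)*C + (-361/25)*C^2 + (272/5)*C^3 + (64)*C^4 = (0) + ((715504/1874161)*((C - (241/500))^0*((1) - C)^4) + (183863605600/642837223)*((C - (241/500))^1*((1) - C)^3) + (917709770000/642837223)*((C - (241/500))^2*((1) - C)^2) + (1505450000000/642837223)*((C - (241/500))^3*((1) - C)^1) + (812500000000/642837223)*((C - (241/500))^4*((1) - C)^0)) := by ring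
  rw [e]; linarith
lemma e1_regS (C p : ℝ) (h : 0 < ((p - 2*C)*((-23/20) - (p - 2*C)) + (1 + p*(1 - 2*C))*((13/20) - (1 + p*(1 - 2*C))))) : (-69/20) + (19/2)*C + (2951/100)*C^2 + (-504/5)*C^3 + (64)*C^4 < 0 := by
  have e : (-69/20) + (19/2)*C + (2951/100)*C^2 + (-504/5)*C^3 + (64)*C^4 = -(4*((2) + (-4)*C + (4)*C^2)*((p - 2*C)*((-23/20) - (p - 2*C)) + (1 + p*(1 - 2*C))*((13/20) - (1 + p*(1 - 2*C))))) - (2*((2) + (-4)*C + (4)*C^2)*p - ((-5/2) + (67/10)*C))^2 := by ring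
  have h1 : 0 < (2) + (-4)*C + (4)*C^2 := by nlinarith [sq_nonneg (1 - 2*C)]
  rw [e]; have := mul_pos (mul_pos four_pos h1) h; nlinarith [sq_nonneg (2*((2) + (-4)*C + (4)*C^2)*p - ((-5/2) + (67/10)*C))]

lemma e1_regT (C m : ℝ) (h : 0 < ((m - 2*C)*((-7/20) - (m - 2*C)) + (1 - m*(1 + 2*C))*((1/4) - (1 - m*(1 + 2*C))))) : (101/25) + (-73/5)*C + (-469/20)*C^2 + (264/5)*C^3 + (64)*C^4 < 0 := by
  have e : (101/25) + (-73/5)*C + (-469/20)*C^2 + (264/5)*C^3 + (64)*C^4 = -(4*((2) + (4)*C + (4)*C^2)*((m - 2*C)*((-7/20) - (m - 2*C)) + (1 - m*(1 + 2*C))*((1/4) - (1 - m*(1 + 2*C))))) - (2*((2) + (4)*C + (4)*C^2)*m - ((7/5) + (15/2)*C))^2 := by ring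
  have h1 : 0 < (2) + (4)*C + (4)*C^2 := by nlinarith [sq_nonneg (1 + 2*C)]
  rw [e]; have := mul_pos (mul_pos four_pos h1) h; nlinarith [sq_nonneg (2*((2) + (4)*C + (4)*C^2)*m - ((7/5) + (15/2)*C))]

lemma e2_regS (C p : ℝ) (h : 0 < ((p - 2*C)*((1/10) - (p - 2*C)) + (1 + p*(1 - 2*C))*((11/10) - (1 + p*(1 - 2*C))))) : (-36/25) + (312/25)*C + (-161/25)*C^2 + (-304/5)*C^3 + (64)*C^4 < 0 := by
  have e : (-36/25) + (312/25)*C + (-161/25)*C^2 + (-304/5)*C^3 + (64)*C^4 = -(4*((2) + (-4)*C + (4)*C^2)*((p - 2*C)*((1/10) - (p - 2*C)) + (1 + p*(1 - 2*C))*((11/10) - (1 + p*(1 - 2*C))))) - (2*((2) + (-4)*C + (4)*C^2)*p - ((-4/5) + (29/5)*C))^2 := by ring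
  have h1 : 0 < (2) + (-4)*C + (4)*C^2 := by nlinarith [sq_nonneg (1 - 2*C)]
  rw [e]; have := mul_pos (mul_pos four_pos h1) h; nlinarith [sq_nonneg (2*((2) + (-4)*C + (4)*C^2)*p - ((-4/5) + (29/5)*C))]

lemma e2_regT (C m : ℝ) (h : 0 < ((m - 2*C)*((-3/10) - (m - 2*C)) + (1 - m*(1 + 2*C))*((9/10) - (1 - m*(1 + 2*C))))) : (4/25) + (-328/25)*C + (-361/25)*C^2 + (272/5)*C^3 + (64)*C^4 < 0 := by
  have e : (4/25) + (-328/25)*C + (-361/25)*C^2 + (272/5)*C^3 + (64)*C^4 = -(4*((2) + (4)*C + (4)*C^2)*((m - 2*C)*((-3/10) - (m - 2*C)) + (1 - m*(1 + 2*C))*((9/10) - (1 - m*(1 + 2*C))))) - (2*((2) + (4)*C + (4)*C^2)*m - ((4/5) + (31/5)*C))^2 := by ring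
  have h1 : 0 < (2) + (4)*C + (4)*C^2 := by nlinarith [sq_nonneg (1 + 2*C)]
  rw [e]; have := mul_pos (mul_pos four_pos h1) h; nlinarith [sq_nonneg (2*((2) + (4)*C + (4)*C^2)*m - ((4/5) + (31/5)*C))]


/-- relations satisfied by the symmetric and antisymmetric parts of theta = R (I+R)^(-1) a -/
def Cfg (as1 as2 at1 at2 s1 s2 t1 t2 : ℝ) : Prop :=
  ∃ A B D E F G : ℝ, 0 < A * D - B ^ 2 ∧ 0 < E * G - F ^ 2 ∧ A + E = D + G ∧ D - B = G + F ∧
    s1 = A * (as1 - s1) + B * (as2 - s2) ∧ s2 = B * (as1 - s1) + D * (as2 - s2) ∧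
    t1 = E * (at1 - t1) + F * (at2 - t2) ∧ t2 = F * (at1 - t1) + G * (at2 - t2) ∧
    0 < s1 * (as1 - s1) + s2 * (as2 - s2) ∧ 0 < t1 * (at1 - t1) + t2 * (at2 - t2)

lemma Cfg.false {as1 as2 at1 at2 s1 s2 t1 t2 : ℝ} (h : Cfg as1 as2 at1 at2 s1 s2 t1 t2) (k1 k2 : ℝ)
    (hN : 0 ≤ k1 * (as2 - s2) ^ 2 + k2 * (as1 - s1) * (as2 - s2) + (k2 - k1) * (as1 - s1) ^ 2)
    (hM : 0 ≤ k1 * (at2 - t2) ^ 2 + k2 * (at1 - t1) * (at2 - t2) - (k1 + k2) * (at1 - t1) ^ 2)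
    (hf : 0 < (t1 * (at1 - t1) + t2 * (at2 - t2)) * (k1 * s1 ^ 2 - k2 * s1 * s2 + (k2 - k1) * s2 ^ 2)
      + (s1 * (as1 - s1) + s2 * (as2 - s2)) * (k1 * t1 ^ 2 - k2 * t1 * t2 - (k1 + k2) * t2 ^ 2)) :
    False := by
  obtain ⟨A, B, D, E, F, G, hdS, hdT, h1, h2, hs1, hs2, ht1, ht2, hS, hT⟩ := h
  generalize hx1 : as1 - s1 = x1 at *
  generalize hx2 : as2 - s2 = x2 at *
  generalize hy1 : at1 - t1 = y1 at *
  generalize hy2 : at2 - t2 = y2 at *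
  have key : (t1 * y1 + t2 * y2) * ((k1 * s1 ^ 2 - k2 * s1 * s2 + (k2 - k1) * s2 ^ 2)
        + (A * D - B ^ 2) * (k1 * x2 ^ 2 + k2 * x1 * x2 + (k2 - k1) * x1 ^ 2))
      + (s1 * x1 + s2 * x2) * ((k1 * t1 ^ 2 - k2 * t1 * t2 - (k1 + k2) * t2 ^ 2)
        + (E * G - F ^ 2) * (k1 * y2 ^ 2 + k2 * y1 * y2 - (k1 + k2) * y1 ^ 2)) = 0 := by
    have h1' : A = D + G - E := by linarith
    have h2' : B = D - G - F := by linarith
    subst h1' h2'
    rw [hs1, hs2, ht1, ht2]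
    ring
  have p1 : 0 ≤ (t1 * y1 + t2 * y2) * ((A * D - B ^ 2) *
      (k1 * x2 ^ 2 + k2 * x1 * x2 + (k2 - k1) * x1 ^ 2)) :=
    mul_nonneg hT.le (mul_nonneg hdS.le hN)
  have p2 : 0 ≤ (s1 * x1 + s2 * x2) * ((E * G - F ^ 2) *
      (k1 * y2 ^ 2 + k2 * y1 * y2 - (k1 + k2) * y1 ^ 2)) :=
    mul_nonneg hS.le (mul_nonneg hdT.le hM)
  linarith

lemma e1_circle {C s1 s2 t1 t2 : ℝ} (h : Cfg (-23/20) (13/20) (-7/20) (1/4) s1 s2 t1 t2)
    (hC1 : -1 < C) (hC2 : C < 1) (hs : s2 = (1 - 2 * C) * s1 + 1 + 2 * C - 4 * C ^ 2)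
    (ht : t2 = -(1 + 2 * C) * t1 + 1 - 2 * C - 4 * C ^ 2) : False := by
  obtain ⟨p, hp⟩ : ∃ p, s1 = p - 2 * C := ⟨s1 + 2 * C, by ring⟩
  obtain ⟨m, hm⟩ : ∃ m, t1 = m - 2 * C := ⟨t1 + 2 * C, by ring⟩
  have hs2 : s2 = 1 + p * (1 - 2 * C) := by rw [hs, hp]; ring
  have ht2 : t2 = 1 - m * (1 + 2 * C) := by rw [ht, hm]; ring
  subst hp hm hs2 ht2
  have h' := h
  obtain ⟨A, B, D, E, F, G, -, -, -, -, -, -, -, -, hS, hT⟩ := h'
  have rS := e1_regS C p hS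
  have rT := e1_regT C m hT
  rcases le_total C (-1/2) with c1 | c1
  · have := e1_Ds0 C hC1.le (by linarith); linarith
  rcases le_total C (249/1000) with c2 | c2
  · have := e1_Dt1 C (by linarith) c2; linarith
  rcases le_total C (324/1000) with c3 | c3
  · obtain ⟨q1, q2, q3⟩ := e1a_main C p m (by linarith) (by linarith) hS hT
    refine h.false (-1) (13/4 - 10 * C) ?_ ?_ ?_
    · convert q1 using 1; ring
    · convert q2 using 1; ring
    · convert q3 using 1; ring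
  rcases le_total C (48/100) with c4 | c4
  · have := e1_Ds2 C (by linarith) (by linarith); linarith
  · have := e1_Dt3 C (by linarith) hC2.le; linarith

lemma e2_circle {C s1 s2 t1 t2 : ℝ} (h : Cfg (1/10) (11/10) (-3/10) (9/10) s1 s2 t1 t2)
    (hC1 : -1 < C) (hC2 : C < 1) (hs : s2 = (1 - 2 * C) * s1 + 1 + 2 * C - 4 * C ^ 2)
    (ht : t2 = -(1 + 2 * C) * t1 + 1 - 2 * C - 4 * C ^ 2) : False := by
  obtain ⟨p, hp⟩ : ∃ p, s1 = p - 2 * C := ⟨s1 + 2 * C, by ring⟩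
  obtain ⟨m, hm⟩ : ∃ m, t1 = m - 2 * C := ⟨t1 + 2 * C, by ring⟩
  have hs2 : s2 = 1 + p * (1 - 2 * C) := by rw [hs, hp]; ring
  have ht2 : t2 = 1 - m * (1 + 2 * C) := by rw [ht, hm]; ring
  subst hp hm hs2 ht2
  have h' := h
  obtain ⟨A, B, D, E, F, G, -, -, -, -, -, -, -, -, hS, hT⟩ := h'
  have rS := e2_regS C p hS
  have rT := e2_regT C m hT
  rcases le_total C (-49/100) with c1 | c1
  · have := e2_Ds0 C hC1.le (by linarith); linarith
  rcases le_total C (12/1000) with c2 | c2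
  · have := e2_Dt1 C (by linarith) (by linarith); linarith
  rcases le_total C (136/1000) with c3 | c3
  · obtain ⟨q1, q2, q3⟩ := e2a_main C p m (by linarith) (by linarith) hS hT
    refine h.false (-1) (1/3 - 5 * C) ?_ ?_ ?_
    · convert q1 using 1; ring
    · convert q2 using 1; ring
    · convert q3 using 1; ring
  rcases le_total C (443/1000) with c4 | c4
  · have := e2_Ds2 C (by linarith) (by linarith); linarith
  rcases le_total C (482/1000) with c5 | c5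
  · obtain ⟨q1, q2, q3⟩ := e2b_main C p m (by linarith) (by linarith) hS hT
    exact h.false 1 2 q1 q2 q3
  · have := e2_Dt3 C (by linarith) hC2.le; linarith

lemma e1_negone {s1 s2 t1 t2 : ℝ} (h : Cfg (-23/20) (13/20) (-7/20) (1/4) s1 s2 t1 t2)
    (hz : 1 - t1 + t2 = 0) : False := by
  obtain ⟨A, B, D, E, F, G, -, -, -, -, -, -, -, -, hS, hT⟩ := h
  have : t2 = t1 - 1 := by linarith
  subst this
  nlinarith [sq_nonneg (t1 - 1/2)]

lemma e1_one {s1 s2 t1 t2 : ℝ} (h : Cfg (-23/20) (13/20) (-7/20) (1/4) s1 s2 t1 t2)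
    (hz : 1 + s1 + s2 = 0) : False := by
  have h' := h
  obtain ⟨A, B, D, E, F, G, -, -, -, -, -, -, -, -, hS, hT⟩ := h'
  have e : s2 = -1 - s1 := by linarith
  subst e
  have hN : 0 ≤ 1 * (13/20 - (-1 - s1)) ^ 2 + (-2) * (-23/20 - s1) * (13/20 - (-1 - s1))
      + (-2 - 1) * (-23/20 - s1) ^ 2 - 2 * (s1 * (-23/20 - s1) + (-1 - s1) * (13/20 - (-1 - s1))) := by
    nlinarith [sq_nonneg (s1 + 1)]
  have hF : 0 ≤ 1 * s1 ^ 2 - (-2) * s1 * (-1 - s1) + (-2 - 1) * (-1 - s1) ^ 2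
      - 3 * (s1 * (-23/20 - s1) + (-1 - s1) * (13/20 - (-1 - s1))) := by
    nlinarith [sq_nonneg (s1 + 1)]
  refine h.false 1 (-2) ?_ ?_ ?_
  · linarith
  · have e : 1 * (1/4 - t2) ^ 2 + -2 * (-7/20 - t1) * (1/4 - t2) - (1 + -2) * (-7/20 - t1) ^ 2
        = ((1/4 - t2) - (-7/20 - t1)) ^ 2 := by ring
    rw [e]; exact sq_nonneg _
  · have e : 1 * t1 ^ 2 - -2 * t1 * t2 - (1 + -2) * t2 ^ 2 = (t1 + t2) ^ 2 := by ring
    rw [e]
    have a1 : 0 ≤ (s1 * (-23/20 - s1) + (-1 - s1) * (13/20 - (-1 - s1))) * (t1 + t2) ^ 2 :=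
      mul_nonneg hS.le (sq_nonneg _)
    have a2 := mul_nonneg hT.le hF
    have a3 := mul_pos hT hS
    linarith

lemma e2_negone {s1 s2 t1 t2 : ℝ} (h : Cfg (1/10) (11/10) (-3/10) (9/10) s1 s2 t1 t2)
    (hz : 1 - t1 + t2 = 0) : False := by
  obtain ⟨A, B, D, E, F, G, -, -, -, -, -, -, -, -, hS, hT⟩ := h
  have : t2 = t1 - 1 := by linarith
  subst this
  nlinarith [sq_nonneg (t1 - 1/2)]

lemma e2_one {s1 s2 t1 t2 : ℝ} (h : Cfg (1/10) (11/10) (-3/10) (9/10) s1 s2 t1 t2)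
    (hz : 1 + s1 + s2 = 0) : False := by
  obtain ⟨A, B, D, E, F, G, -, -, -, -, -, -, -, -, hS, hT⟩ := h
  have : s2 = -1 - s1 := by linarith
  subst this
  nlinarith [sq_nonneg (s1 + 1/2)]

/-- the polynomial with coefficient vector th evaluated at z -/
noncomputable def PP (th : Fin 4 → ℝ) (z : ℂ) : ℂ :=
  z ^ 4 + th 0 * z ^ 3 + th 1 * z ^ 2 + th 2 * z + th 3

lemma PP_unit {th : Fin 4 → ℝ} {z : ℂ} (hz : ‖z‖ = 1) (h : PP th z = 0) :
    (1 + (th 0 + th 3) + (th 1 + th 2) = 0) ∨ (1 - (th 0 - th 3) + (th 1 - th 2) = 0) ∨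
    ∃ C : ℝ, -1 < C ∧ C < 1 ∧
      th 1 + th 2 = (1 - 2 * C) * (th 0 + th 3) + 1 + 2 * C - 4 * C ^ 2 ∧
      th 1 - th 2 = -(1 + 2 * C) * (th 0 - th 3) + 1 - 2 * C - 4 * C ^ 2 := by
  obtain ⟨c, s⟩ := z
  have hn : c ^ 2 + s ^ 2 = 1 := by
    have h1 : ‖(⟨c, s⟩ : ℂ)‖ ^ 2 = 1 := by rw [hz]; norm_num
    rw [Complex.sq_norm, Complex.normSq_mk] at h1
    linarith
  have hw : (⟨c, s⟩ : ℂ) * ⟨c, -s⟩ = 1 := by
    apply Complex.ext
    · simp; linarith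
    · simp; ring
  unfold PP at h
  have h2 : (⟨c, s⟩ : ℂ) ^ 2 + th 0 * ⟨c, s⟩ + th 1 + th 2 * ⟨c, -s⟩ + th 3 * (⟨c, -s⟩ : ℂ) ^ 2 = 0 := by
    linear_combination (⟨c, -s⟩ : ℂ) ^ 2 * h
      - (((⟨c, s⟩ : ℂ) ^ 2 + th 0 * ⟨c, s⟩ + th 1) * ((⟨c, s⟩ : ℂ) * ⟨c, -s⟩ + 1)) * hw
      - (th 2 * (⟨c, -s⟩ : ℂ)) * hw
  have hre := congrArg Complex.re h2
  have him := congrArg Complex.im h2
  simp [pow_two] at hre him
  by_cases hs : s = 0
  · subst hs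
    have hc : (c - 1) * (c + 1) = 0 := by linarith
    rcases mul_eq_zero.1 hc with h3 | h3
    · left
      have : c = 1 := by linarith
      subst this
      linarith
    · right; left
      have : c = -1 := by linarith
      subst this
      linarith
  · right; right
    have him' : 2 * c * (1 - th 3) + th 0 - th 2 = 0 := by
      have : s * (2 * c * (1 - th 3) + th 0 - th 2) = 0 := by linarith
      exact (mul_eq_zero.1 this).resolve_left hs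
    have hs2 : 0 < s ^ 2 := by positivity
    refine ⟨c, by nlinarith, by nlinarith, ?_, ?_⟩
    · linear_combination hre + (1 + th 3) * hn - (1 - c) * him'
    · linear_combination hre + (1 + th 3) * hn + (1 + c) * him'

lemma prod_lower (s : Multiset ℂ) (z : ℂ) (hz : 1 ≤ ‖z‖) (hs : ∀ r ∈ s, ‖r‖ < 1) :
    (‖z‖ - 1) ^ (Multiset.card s) ≤ ‖(s.map (fun r => z - r)).prod‖ := by
  induction s using Multiset.induction with
  | empty => simp
  | cons a s ih =>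
    have h1 := ih (fun r hr => hs r (Multiset.mem_cons_of_mem hr))
    have h2 := hs a (Multiset.mem_cons_self a s)
    have h3 : ‖z‖ - 1 ≤ ‖z - a‖ := by
      have := norm_sub_norm_le z a
      linarith
    rw [Multiset.map_cons, Multiset.prod_cons, Multiset.card_cons, pow_succ, norm_mul, mul_comm]
    exact mul_le_mul h3 h1 (pow_nonneg (by linarith) _) (norm_nonneg _)

open Polynomial in
/-- the polynomial -/
noncomputable def pol (th : Fin 4 → ℝ) : ℂ[X] :=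
  X ^ 4 + C (th 0 : ℂ) * X ^ 3 + C (th 1 : ℂ) * X ^ 2 + C (th 2 : ℂ) * X + C (th 3 : ℂ)

lemma pol_eval (th : Fin 4 → ℝ) (z : ℂ) : (pol th).eval z = PP th z := by
  simp [pol, PP]

lemma pol_natDegree (th : Fin 4 → ℝ) : (pol th).natDegree = 4 := by
  unfold pol; compute_degree!

lemma pol_monic (th : Fin 4 → ℝ) : (pol th).Monic := by
  unfold pol; monicity!

lemma PP_lower {th : Fin 4 → ℝ} (h : ∀ z : ℂ, 1 ≤ ‖z‖ → PP th z ≠ 0) (z : ℂ) (hz : 1 ≤ ‖z‖) :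
    (‖z‖ - 1) ^ 4 ≤ ‖PP th z‖ := by
  have hsp := IsAlgClosed.splits (pol th)
  have h1 := hsp.eval_eq_prod_roots_of_monic (pol_monic th) z
  have hc : Multiset.card (pol th).roots = 4 := by
    rw [← hsp.natDegree_eq_card_roots, pol_natDegree]
  rw [← pol_eval, h1, ← hc]
  apply prod_lower _ _ hz
  intro r hr
  by_contra hc
  push Not at hc
  apply h r hc
  rw [← pol_eval]
  exact Polynomial.isRoot_of_mem_roots hr

lemma PP_inv {th : Fin 4 → ℝ} {w : ℂ} (hw : w ≠ 0) :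
    PP th w⁻¹ = (w⁻¹) ^ 4 * (1 + th 0 * w + th 1 * w ^ 2 + th 2 * w ^ 3 + th 3 * w ^ 4) := by
  unfold PP
  field_simp

lemma homotopy (θ : ℝ → Fin 4 → ℝ) (hc : ContinuousOn θ (Set.Icc 0 1)) (h0 : θ 0 = 0)
    (hu : ∀ t ∈ Set.Icc (0:ℝ) 1, ∀ z : ℂ, ‖z‖ = 1 → PP (θ t) z ≠ 0) :
    ∀ z : ℂ, 1 ≤ ‖z‖ → PP (θ 1) z ≠ 0 := by
  intro z1 hz1 hP1
  set Q : ℝ × ℂ → ℂ := fun x => 1 + (θ x.1 0 : ℂ) * x.2 + (θ x.1 1 : ℂ) * x.2 ^ 2
    + (θ x.1 2 : ℂ) * x.2 ^ 3 + (θ x.1 3 : ℂ) * x.2 ^ 4 with hQ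
  set K : Set (ℝ × ℂ) := Set.Icc (0:ℝ) 1 ×ˢ Metric.closedBall (0:ℂ) 1 with hK
  have hKc : IsCompact K := isCompact_Icc.prod (isCompact_closedBall _ _)
  have hθi : ∀ i, ContinuousOn (fun x : ℝ × ℂ => ((θ x.1 i : ℝ) : ℂ)) K := by
    intro i
    have h1 : ContinuousOn (fun x : ℝ × ℂ => θ x.1) K :=
      hc.comp continuous_fst.continuousOn (fun x hx => hx.1)
    exact Complex.continuous_ofReal.comp_continuousOn ((continuous_apply i).comp_continuousOn h1)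
  have hQc : ContinuousOn Q K := by
    have c2 : ContinuousOn (fun x : ℝ × ℂ => x.2) K := continuous_snd.continuousOn
    exact ((((continuousOn_const.add ((hθi 0).mul c2)).add ((hθi 1).mul (c2.pow 2))).add
      ((hθi 2).mul (c2.pow 3))).add ((hθi 3).mul (c2.pow 4)))
  have hZc : IsCompact (K ∩ Q ⁻¹' {0}) :=
    hKc.of_isClosed_subset (hQc.preimage_isClosed_of_isClosed hKc.isClosed isClosed_singleton)
      Set.inter_subset_left
  have hTc : IsCompact (Prod.fst '' (K ∩ Q ⁻¹' {0})) := hZc.image continuous_fst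
  have hmem : ∀ t ∈ Set.Icc (0:ℝ) 1, ∀ z : ℂ, 1 ≤ ‖z‖ → PP (θ t) z = 0 →
      t ∈ Prod.fst '' (K ∩ Q ⁻¹' {0}) := by
    intro t ht z hz hP
    have hz0 : z ≠ 0 := by
      intro h; rw [h, norm_zero] at hz; linarith
    refine ⟨(t, z⁻¹), ⟨⟨ht, ?_⟩, ?_⟩, rfl⟩
    · simp only [Metric.mem_closedBall, dist_zero_right, norm_inv]
      exact inv_le_one_of_one_le₀ hz
    · have h1 := PP_inv (th := θ t) (inv_ne_zero hz0)
      rw [inv_inv, hP] at h1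
      have h2 : (z : ℂ) ^ 4 ≠ 0 := pow_ne_zero _ hz0
      have h3 := (mul_eq_zero.1 h1.symm).resolve_left h2
      simp only [Set.mem_preimage, Set.mem_singleton_iff, hQ]
      exact h3
  have hne : (Prod.fst '' (K ∩ Q ⁻¹' {0})).Nonempty :=
    ⟨1, hmem 1 ⟨zero_le_one, le_rfl⟩ z1 hz1 hP1⟩
  obtain ⟨t0, ht0, hleast⟩ := hTc.exists_isLeast hne
  obtain ⟨⟨t, w0⟩, ⟨⟨htI, hw0⟩, hQ0⟩, rfl⟩ := ht0
  simp only at htI hleast hw0
  simp only [Set.mem_preimage, Set.mem_singleton_iff, hQ] at hQ0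
  have htpos : 0 < t := by
    rcases htI.1.eq_or_lt with h | h
    · exfalso
      rw [← h, h0] at hQ0
      simp at hQ0
    · exact h
  have hw00 : w0 ≠ 0 := by
    intro h
    rw [h] at hQ0
    simp at hQ0
  have hPz : PP (θ t) w0⁻¹ = 0 := by
    rw [PP_inv hw00, hQ0, mul_zero]
  have hz0 : 1 ≤ ‖w0⁻¹‖ := by
    rw [norm_inv]
    simp only [Metric.mem_closedBall, dist_zero_right] at hw0
    exact (one_le_inv₀ (norm_pos_iff.2 hw00)).2 hw0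
  have hz1' : 1 < ‖w0⁻¹‖ := by
    rcases hz0.eq_or_lt with h | h
    · exact absurd hPz (hu t htI _ h.symm)
    · exact h
  have hlow : ∀ s ∈ Set.Ico 0 t, (‖w0⁻¹‖ - 1) ^ 4 ≤ ‖PP (θ s) w0⁻¹‖ := by
    intro s hs
    apply PP_lower _ _ hz0
    intro z hz hP
    have h1 := hmem s ⟨hs.1, hs.2.le.trans htI.2⟩ z hz hP
    have h2 := hleast h1
    linarith [hs.2]
  have hcont : ContinuousOn (fun s => ‖PP (θ s) w0⁻¹‖) (Set.Icc 0 1) := by
    have hi : ∀ i, ContinuousOn (fun s : ℝ => ((θ s i : ℝ) : ℂ)) (Set.Icc 0 1) := fun i =>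
      Complex.continuous_ofReal.comp_continuousOn ((continuous_apply i).comp_continuousOn hc)
    unfold PP
    exact ((((continuousOn_const.add ((hi 0).mul continuousOn_const)).add
      ((hi 1).mul continuousOn_const)).add ((hi 2).mul continuousOn_const)).add (hi 3)).norm
  have hcl : t ∈ closure (Set.Ico 0 t) := by
    rw [closure_Ico htpos.ne]
    exact ⟨htpos.le, le_rfl⟩
  have hfin := ContinuousWithinAt.closure_le hcl continuousWithinAt_const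
    ((hcont t htI).mono (fun s hs => ⟨hs.1, hs.2.le.trans htI.2⟩)) hlow
  rw [hPz, norm_zero] at hfin
  have : 0 < (‖w0⁻¹‖ - 1) ^ 4 := pow_pos (by linarith) 4
  linarith

end Pool.Agent.S03084
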